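import Pool.Agent.Lib.MP_5f81cf_ag.Ineq

/-! Numerical constraints on monomial valuations. -/

set_option linter.unusedSectionVars false

namespace Pool.Agent.Lib.MP_5f81cf_ag

open Pool.Agent.Lib.MP_e06174_ag

variable {k A R K K' G : Type} [Field k] [CommRing A] [Algebra k A] [Group G]
  [MulSemiringAction G A]

/-- Admissible weights. -/
def Adm (w : Fin 3 → ℕ) : Prop :=
  w 1 ≠ 0 ∧ w 2 ≠ 0 ∧ ((∃ i, w i = 1) ∨ ∃ i j, w i = w j + 1)

/-- `σ` moves every element by weight at least `i`. -/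
def Chart.Shift {m : Ideal A} (C : Chart (Fin 3) k m) (w : Fin 3 → ℕ) (i : ℕ) (σ : G) : Prop :=
  ∀ n a, WGe w n (C.T a) → WGe w (n + i) (C.T (σ • a - a))

variable (k G) in
/-- The constraints coming from the plt hypothesis. -/
structure Bound (p : ℕ) (m : Ideal A) (s : A) : Prop where
  b0 : ∀ (C : Chart (Fin 3) k m) w n, Adm w → WGe w n (C.T s) → n < w 0 + w 1 + w 2
  b1 : ∀ (C : Chart (Fin 3) k m) w n (σ : G) i, Adm w → WGe w n (C.T s) → σ ≠ 1 → σ ^ p = 1 →
    1 ≤ i → C.Shift w i σ → n + (p - 1) * i < w 0 + w 1 + w 2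
  b2 : ∀ (C : Chart (Fin 3) k m) w n (σ τ : G), Adm w → WGe w n (C.T s) → σ ≠ 1 → σ ^ p = 1 →
    Commute σ τ → τ ^ p ∈ Subgroup.zpowers σ → τ ∉ Subgroup.zpowers σ → C.Shift w 1 σ →
    C.Shift w 1 τ → n + 2 * (p - 1) < w 0 + w 1 + w 2

variable [IsDomain A] [CommRing R]
  [Algebra k R] [Algebra R A] [IsScalarTower k R A] [FaithfulSMul R A]
  [Field K] [Algebra A K] [IsFractionRing A K] [Algebra k K] [IsScalarTower k A K]
  [Field K'] [Algebra R K'] [IsFractionRing R K'] [Algebra k K'] [IsScalarTower k R K']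
  [Algebra K' K] [Algebra R K] [IsScalarTower R K' K] [IsScalarTower R A K] [IsScalarTower k K' K]
  [Finite G] [MulSemiringAction G K] [SMulDistribClass G A K]
  [IsGaloisGroup G R A] [SMulCommClass G k A] [SMulCommClass G k K]

theorem bound [IsAlgClosed k] [Algebra.Smooth k A] (p : ℕ) [hp : Fact p.Prime] [CharP k p]
    (hfree : Free A G) {Δ : Place k K' →₀ ℚ} (hΔ : IsPlt 3 R Δ) {S : Place k K'} (hS : Δ S = 1)
    {q : Ideal R} (hq : HasCentre S q) {m : Ideal A} [m.IsMaximal]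
    {s : A} (hs : Red k K m q s) : Bound k G p m s := by
  have := Algebra.FiniteType.isNoetherianRing k A
  have : CharP K p := charP_of_injective_algebraMap (algebraMap k K).injective p
  have := IsGaloisGroup.to_isFractionRing G R A K' K
  have : FaithfulSMul G K := IsGaloisGroup.faithful K'
  have := finite_range (k := k) A R (K := K) (K' := K') G
  let L := (IsScalarTower.toAlgHom k K' K).fieldRange.toSubfield
  let t : G → K ≃ₐ[k] K := fun g => MulSemiringAction.toAlgAut G k K g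
  have ht : ∀ g f, t g f = g • f := fun _ _ => rfl
  have htp : ∀ g (n : ℕ) f, (t g ^ n) f = g ^ n • f := fun g n f => by
    simp only [t, ← map_pow]; rfl
  have hL : ∀ g L', L ≤ L' → L ≤ Fx (t g) L' := fun g L' h f hf => ⟨h hf, by
    obtain ⟨c, rfl⟩ := hf
    exact smul_algebraMap g c⟩
  have main : ∀ (C : Chart (Fin 3) k m) w n, Adm w → WGe w n (C.T s) →
      ∃ (F : Place k K) (D : Fin 3 → Derivation k K K),
        (∀ L' μ, L ≤ L' → LB D F L' μ → μ + n < 0) ∧ LB D F ⊤ (-((w 0 : ℤ) + w 1 + w 2)) ∧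
        ∀ (σ : G) (i : ℕ) (L' : Subfield K) μ, L ≤ L' → (∀ f ∈ L', σ • f ∈ L') →
          (∀ f ∈ L', σ ^ p • f = f) → (∃ f ∈ L', σ • f ≠ f) → 1 ≤ i → C.Shift w i σ →
          LB D F L' μ → LB D F (Fx (t σ) L') (μ + (p - 1 : ℕ) * i) := by
    intro C w n hw hn
    obtain ⟨F, hF⟩ := C.exists_place (K := K) w hw.2.2
    obtain ⟨D, u, hu, hD, hD'⟩ := C.exists_der (K := K)
    refine ⟨F, D, fun L' μ h1 h2 => key p hfree hΔ hS hq C hs hw.1 hw.2.1 hF hu hD hD'
      (h2.anti h1) hn, lb_top hF hu hD', fun σ i L' μ h1 h2 h3 h4 hi h5 h6 => ?_⟩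
    have := finite_mono (hL σ L' h1)
    refine drop hD p h2 (fun f hf => by rw [htp, h3 f hf]) h4 ?_ (by exact_mod_cast hi)
      (fun f _ n => shift_frac hF (τ := fun a => σ • a) (fun a => ?_) hi
        (fun n a h => map_sub C.T _ _ ▸ h5 n a h) f n) (C.dep p _) h6
    · obtain ⟨E, e, hE⟩ := exists_under R K' G (Q := C.ctr w)
        (fun a => ⟨ge_zero_of_chart hF a, (hF 1 a).symm⟩) (fun h => C.algInd.ne_zero 2 (by
          rw [← Ideal.mem_bot, ← h, C.x_mem_ctr]; exact hw.2.1))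
      obtain ⟨ϖ, -, hϖ⟩ := E.exists_ord_eq_one
      refine ⟨_, h1 ⟨ϖ, rfl⟩, ?_⟩
      have h7 := hE.2 ϖ
      have := hE.1
      change F.ord (IsScalarTower.toAlgHom k K' K ϖ) ≠ 0
      rw [h7, hϖ]; omega
    · exact (algebraMap.coe_smul' σ a K).symm
  have hne : ∀ σ : G, σ ≠ 1 → ∃ f ∈ (⊤ : Subfield K), σ • f ≠ f := fun σ h => by
    by_contra! h1
    exact h (eq_of_smul_eq_smul fun f : K => by rw [h1 f trivial, one_smul])
  refine ⟨fun C w n hw hn => ?_, fun C w n σ i hw hn h1 h2 hi h3 => ?_,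
    fun C w n σ τ hw hn h1 h2 hc h3 h4 h5 h6 => ?_⟩
  · obtain ⟨F, D, a1, a2, -⟩ := main C w n hw hn
    have := a1 _ _ le_top a2
    omega
  · obtain ⟨F, D, a1, a2, a3⟩ := main C w n hw hn
    have := a1 _ _ (hL σ _ le_top) (a3 σ i ⊤ _ le_top (fun _ _ => trivial)
      (fun f _ => by rw [h2, one_smul]) (hne σ h1) hi h3 a2)
    zify [hp.out.one_le] at this ⊢
    omega
  · obtain ⟨F, D, a1, a2, a3⟩ := main C w n hw hn
    have b1 := a3 σ 1 ⊤ _ le_top (fun _ _ => trivial)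
      (fun f _ => by rw [h2, one_smul]) (hne σ h1) le_rfl h5 a2
    have hz : ∀ f, σ • f = f → ∀ g ∈ Subgroup.zpowers σ, g • (f : K) = f := fun f hf g hg =>
      (Subgroup.zpowers_le (H := MulAction.stabilizer G f)).2 hf hg
    have := a1 _ _ (hL τ _ (hL σ _ le_top)) (a3 τ 1 _ _ (hL σ _ le_top)
      (fun f hf => ⟨trivial, by rw [ht, smul_smul, hc.eq, ← smul_smul, ← ht σ, hf.2]⟩)
      (fun f hf => hz f hf.2 _ h3) (by
        by_contra! h7
        refine h4 ?_
        rw [← IsGaloisGroup.fixingSubgroup_fixedPoints G K' K (Subgroup.zpowers σ),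
          mem_fixingSubgroup_iff]
        exact fun f hf => h7 f ⟨trivial, hf ⟨σ, Subgroup.mem_zpowers σ⟩⟩) le_rfl h6 b1)
    zify [hp.out.one_le] at this ⊢
    omega

end Pool.Agent.Lib.MP_5f81cf_ag
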