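import Pool.Agent.Lib.MP_5f81cf_ag.Coef

/-! Classification of the wild automorphisms allowed by the plt bounds. -/

namespace Pool.Agent.Lib.MP_5f81cf_ag

open MvPowerSeries Finsupp

variable {k A G : Type} [Field k] [CommRing A] [Algebra k A] [Group G] [MulSemiringAction G A]
  [SMulCommClass G k A] {m : Ideal A}

lemma wge3 {w0 w1 w2 n : ℕ} {φ : MvPowerSeries (Fin 3) k} : WGe ![w0, w1, w2] n φ ↔
    ∀ a b c, a * w0 + b * w1 + c * w2 < n → cf a b c φ = 0 := wge_cf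

lemma nat_ne (p : ℕ) [CharP k p] (n : ℕ) (h : ¬ p ∣ n) : (n : k) ≠ 0 :=
  (CharP.cast_eq_zero_iff k p n).not.2 h

lemma two_ne {p : ℕ} [CharP k p] (hp : p = 3 ∨ p = 5) : (1 + 1 : k) ≠ 0 := by
  have := nat_ne (k := k) p 2 (by rcases hp with rfl | rfl <;> decide)
  rwa [Nat.cast_ofNat, ← one_add_one_eq_two] at this

namespace Chart

variable (C : Chart (Fin 3) k m) {σ : G}

/-- `μ` is a monomial in the coordinates. -/
def Mon (μ : A) (a b c : ℕ) : Prop := C.T μ = monomial (ex a b c) 1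

lemma m0 : C.Mon (C.x 0) 1 0 0 := by
  rw [Mon, C.T_x, X_def, show ex 1 0 0 = single 0 1 by simp [ext3]]

lemma m1 : C.Mon (C.x 1) 0 1 0 := by
  rw [Mon, C.T_x, X_def, show ex 0 1 0 = single 1 1 by simp [ext3]]

lemma m2 : C.Mon (C.x 2) 0 0 1 := by
  rw [Mon, C.T_x, X_def, show ex 0 0 1 = single 2 1 by simp [ext3]]

variable {C} in
lemma Mon.mul {μ ν : A} {a b c a' b' c' : ℕ} (h : C.Mon μ a b c) (h' : C.Mon ν a' b' c') :
    C.Mon (μ * ν) (a + a') (b + b') (c + c') := by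
  rw [Mon, map_mul, h, h', monomial_mul_monomial, one_mul]; congr 2; simp [ext3]

variable {C} in
lemma kill2 {w0 w1 w2 n n' : ℕ} (hsh : ∀ b, WGe ![w0, w1, w2] n (C.T b) →
      WGe ![w0, w1, w2] n' (C.T (dl k σ b))) {μ ν f : A} {a b c a' b' c' : ℕ} (hμ : C.Mon μ a b c)
    (hν : C.Mon ν a' b' c') (hne : ¬ (a = a' ∧ b = b' ∧ c = c'))
    (h : ∀ i j l, i * w0 + j * w1 + l * w2 < n → ¬ (i = a ∧ j = b ∧ l = c) →
      ¬ (i = a' ∧ j = b' ∧ l = c') → cf i j l (C.T f) = 0) (i j l : ℕ)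
    (ht : i * w0 + j * w1 + l * w2 < n') (hf : cf i j l (C.T (dl k σ f)) = 0) :
    cf a b c (C.T f) * cf i j l (C.T (dl k σ μ)) +
      cf a' b' c' (C.T f) * cf i j l (C.T (dl k σ ν)) = 0 := by
  have := wge3.1 (hsh (f - cf a b c (C.T f) • μ - cf a' b' c' (C.T f) • ν)
    (wge3.2 fun i j l hd => by
      simp only [map_sub, map_smul, Mon, smul_eq_mul] at *
      rw [hμ, hν, cf_monomial, cf_monomial]
      by_cases h1 : i = a ∧ j = b ∧ l = c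
      · obtain ⟨rfl, rfl, rfl⟩ := h1; simp [hne]
      by_cases h2 : i = a' ∧ j = b' ∧ l = c'
      · obtain ⟨rfl, rfl, rfl⟩ := h2; simp [h1]
      simp [h1, h2, h i j l hd])) i j l ht
  simp only [map_sub, map_smul, hf, smul_eq_mul] at this
  linear_combination -this

variable {C} in
lemma kill {w0 w1 w2 n n' : ℕ} (hsh : ∀ b, WGe ![w0, w1, w2] n (C.T b) →
      WGe ![w0, w1, w2] n' (C.T (dl k σ b))) {μ f : A} {a b c : ℕ} (hμ : C.Mon μ a b c)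
    (h : ∀ i j l, i * w0 + j * w1 + l * w2 < n → ¬ (i = a ∧ j = b ∧ l = c) →
      cf i j l (C.T f) = 0) (i j l : ℕ)
    (ht : i * w0 + j * w1 + l * w2 < n') (hf : cf i j l (C.T (dl k σ f)) = 0)
    (h0 : cf i j l (C.T (dl k σ μ)) ≠ 0) : cf a b c (C.T f) = 0 := by
  have := wge3.1 (hsh (f - cf a b c (C.T f) • μ) (wge3.2 fun i j l hd => by
      rw [map_sub, map_smul, hμ, map_sub, map_smul, cf_monomial]
      by_cases h1 : i = a ∧ j = b ∧ l = c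
      · obtain ⟨rfl, rfl, rfl⟩ := h1; simp
      simp [h1, h i j l hd])) i j l ht
  simpa [hf, h0] using this

lemma shift3 (hσ : ∀ a ∈ m, σ • a ∈ m) {w0 w1 w2 i : ℕ}
    (h0 : WGe ![w0, w1, w2] (w0 + i) (C.T (dl k σ (C.x 0))))
    (h1 : WGe ![w0, w1, w2] (w1 + i) (C.T (dl k σ (C.x 1))))
    (h2 : WGe ![w0, w1, w2] (w2 + i) (C.T (dl k σ (C.x 2)))) : C.Shift ![w0, w1, w2] i σ :=
  C.shift_of hσ fun j => by fin_cases j; exacts [h0, h1, h2]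

lemma cap3 (hσ : ∀ a ∈ m, σ • a ∈ m) {w0 w1 w2 i : ℕ}
    (h0 : WGe ![w0, w1, w2] (w0 + i) (C.T (dl k σ (C.x 0))))
    (h1 : WGe ![w0, w1, w2] (w1 + i) (C.T (dl k σ (C.x 1))))
    (h2 : WGe ![w0, w1, w2] w2 (C.T (dl k σ (C.x 2)))) {n : ℕ} (hn : n + i ≤ w2) (a : A)
    (ha : WGe ![w0, w1, w2] n (C.T a)) : WGe ![w0, w1, w2] (n + i) (C.T (dl k σ a)) :=
  (C.shift_cap hσ (i := i) (c := w2) (fun j => by
    fin_cases j
    exacts [h0.mono (min_le_left _ _), h1.mono (min_le_left _ _), h2.mono (min_le_right _ _)])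
    (fun j => by
      fin_cases j
      exacts [h0.mono (Nat.le_add_right _ _), h1.mono (Nat.le_add_right _ _), h2]) ha).mono
    (by omega)

lemma wx (w : Fin 3 → ℕ) (i : Fin 3) : WGe w (w i) (C.T (C.x i)) := C.T_x i ▸ wge_X i

lemma wsq {a : A} (ha : a ∈ m) (h : C.lin a = 0) {w : Fin 3 → ℕ} {c : ℕ} (hc : ∀ i, c ≤ w i) :
    WGe w (c * 2) (C.T a) := ((C.mem_pow _ _).2 ((C.mem_sq_iff ha).2 h)).of_one hc

/-- The surviving action when the divisor is smooth. -/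
structure TypeE (σ : G) (s : A) (p e a a' : ℕ) : Prop where
  num : (p = 5 ∧ e = 2 ∧ a = 2 ∧ a' = 5) ∨ (p = 3 ∧ e = 3 ∧ a = 1 ∧ a' = 3)
  x1 : dl k σ (C.x 0) = C.x 1
  x2 : C.x 2 = s
  van : ∀ i j, i * a + j * (a + 1) ≤ e * a → ¬ (i = e ∧ j = 0) →
    cf i j 0 (C.T (dl k σ (C.x 1))) = 0
  ne : cf e 0 0 (C.T (dl k σ (C.x 1))) ≠ 0

/-- The surviving action when the divisor is singular. -/
structure TypeJ (σ : G) (s : A) : Prop where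
  x1 : dl k σ (C.x 0) = C.x 1
  x2 : dl k σ (C.x 1) = C.x 2
  x3 : dl k σ (C.x 2) = 0
  sq : C.lin s = 0
  nm : s ∉ C.ctr ![0, 1, 2]

end Chart

lemma le_w {c w0 w1 w2 : ℕ} (h : c ≤ w0 ∧ c ≤ w1 ∧ c ≤ w2) (i : Fin 3) : c ≤ ![w0, w1, w2] i := by
  fin_cases i; exacts [h.1, h.2.1, h.2.2]

instance (w : Fin 3 → ℕ) : Decidable (Adm w) := by unfold Adm; infer_instance

lemma dl_three [CharP k 3] {σ : G} (h : σ ^ 3 = 1) (a : A) : dl k σ (dl k σ (dl k σ a)) = 0 := by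
  have : Fact (Nat.Prime 3) := ⟨Nat.prime_three⟩
  have := congrArg (· a) (dl_pow (k := k) (A := A) 3 σ)
  simpa [h, dl_one, pow_succ] using this

variable {p : ℕ} [CharP k p] (hp : p = 3 ∨ p = 5) {s : A} (hB : Bound k G p m s) {σ : G}
  (hσ : ∀ a ∈ m, σ • a ∈ m) (h1 : σ ≠ 1) (hσp : σ ^ p = 1) (hs : Semi m σ s)
  (C : Chart (Fin 3) k m)
include hp hB hσ h1 hσp hs

omit [CharP k p] in
lemma caseIa (hx : C.x 2 = s) (h : ∀ j, C.lin (dl k σ (C.x j)) 0 = 0 ∧ C.lin (dl k σ (C.x j)) 1 = 0) :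
    False := by
  have h2 : ∀ j, WGe ![1, 1, 2] 2 (C.T (dl k σ (C.x j))) := fun j => wge3.2 fun a b c hd => by
    obtain ⟨rfl, rfl, rfl⟩ | ⟨rfl, rfl, rfl⟩ | ⟨rfl, rfl, rfl⟩ : (a = 0 ∧ b = 0 ∧ c = 0) ∨
      (a = 1 ∧ b = 0 ∧ c = 0) ∨ (a = 0 ∧ b = 1 ∧ c = 0) := by omega
    exacts [C.cf0 (C.dl_mem hσ _), C.lin0 _ ▸ (h j).1, C.lin1 _ ▸ (h j).2]
  have h3 := hx ▸ C.wx ![1, 1, 2] 2
  have : 2 + (p - 1) * 1 < 1 + 1 + 2 := hB.b1 C _ _ σ 1 (by decide) h3 h1 hσp le_rfl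
    (C.shift3 hσ (h2 0) (h2 1) (hx ▸ C.semi_wge hs h3 (le_w (by simp))))
  omega

lemma caseIb [IsDomain A] (hx : C.x 2 = s) (hx1 : dl k σ (C.x 0) = C.x 1)
    (a0 : C.lin (dl k σ (C.x 1)) 0 = 0) (a1 : C.lin (dl k σ (C.x 1)) 1 = 0) :
    ∃ e a a', C.TypeE σ s p e a a' := by
  rw [C.lin0] at a0
  rw [C.lin1] at a1
  have a2 := C.cf0 (C.dl_mem hσ (C.x 1))
  have hX : ∀ w, WGe w (w 1) (C.T (dl k σ (C.x 0))) := fun w => hx1 ▸ C.wx w 1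
  have hS : ∀ w, WGe w (w 2) (C.T s) := fun w => hx ▸ C.wx w 2
  have hD : ∀ w0 w1 w2 c, c ≤ w0 ∧ c ≤ w1 ∧ c ≤ w2 →
      WGe ![w0, w1, w2] (w2 + c) (C.T (dl k σ (C.x 2))) := fun w0 w1 w2 c h =>
    hx ▸ C.semi_wge hs (hS _) (le_w h)
  have sh12 : cf 2 0 0 (C.T (dl k σ (C.x 1))) = 0 → ∀ n, 3 ≤ n → C.Shift ![1, 2, n] 1 σ :=
    fun h n hn => C.shift3 hσ (hX _) (wge3.2 fun a b c hd => by
      obtain rfl : c = 0 := by nlinarith
      obtain ⟨rfl, rfl⟩ | ⟨rfl, rfl⟩ | ⟨rfl, rfl⟩ | ⟨rfl, rfl⟩ : (a = 0 ∧ b = 0) ∨ (a = 1 ∧ b = 0) ∨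
        (a = 0 ∧ b = 1) ∨ (a = 2 ∧ b = 0) := by omega
      exacts [a2, a0, a1, h]) (hD _ _ _ _ (by omega))
  rcases hp with rfl | rfl
  swap
  · refine ⟨2, 2, 5, .inl (by simp), hx1, hx, fun i j hd hne => ?_, fun h => ?_⟩
    · obtain ⟨rfl, rfl⟩ | ⟨rfl, rfl⟩ | ⟨rfl, rfl⟩ : (i = 0 ∧ j = 0) ∨ (i = 1 ∧ j = 0) ∨
        (i = 0 ∧ j = 1) := by omega
      exacts [a2, a0, a1]
    · have : 3 + (5 - 1) * 1 < 1 + 2 + 3 := hB.b1 C ![1, 2, 3] _ σ 1 (by decide) (hS _) h1 hσp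
        le_rfl (sh12 h 3 le_rfl)
      omega
  have hw : dl k σ (dl k σ (C.x 1)) = 0 := hx1 ▸ dl_three hσp _
  have h3 : (1 + 1 + 1 : k) = 0 := by
    have := CharP.cast_eq_zero k 3
    norm_num at this ⊢; exact this
  have c2 : cf 2 0 0 (C.T (dl k σ (C.x 1))) = 0 := by
    have van : ∀ a b c, a * 2 + b * 3 + c * 20 < 5 → ¬ (a = 2 ∧ b = 0 ∧ c = 0) →
        cf a b c (C.T (dl k σ (C.x 1))) = 0 := fun a b c hd hne => by
      obtain ⟨rfl, rfl, rfl⟩ | ⟨rfl, rfl, rfl⟩ | ⟨rfl, rfl, rfl⟩ : (a = 0 ∧ b = 0 ∧ c = 0) ∨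
        (a = 1 ∧ b = 0 ∧ c = 0) ∨ (a = 0 ∧ b = 1 ∧ c = 0) := by omega
      exacts [a2, a0, a1]
    refine Chart.kill (C.shift3 hσ (w0 := 2) (w1 := 3) (w2 := 20) (i := 1) (hX _)
      (wge3.2 fun a b c hd => van a b c (by omega) (by omega)) (hD _ _ _ _ (by omega)) 5)
      (C.m0.mul C.m0) van 1 1 0 (by omega) (by simp [hw]) ?_
    simpa [dl_mul, hx1, C.T_x, cf_X0, cf_X1, cf_X] using two_ne (k := k) (.inl rfl)
  have c11 : cf 1 1 0 (C.T (dl k σ (C.x 1))) = 0 := by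
    have := Chart.kill2 (sh12 c2 20 (by omega) 4) (C.m0.mul C.m1) (C.m0.mul (C.m0.mul C.m0))
      (by omega) (f := dl k σ (C.x 1)) (fun a b c hd _ _ => by
        obtain ⟨rfl, rfl, rfl⟩ | ⟨rfl, rfl, rfl⟩ | ⟨rfl, rfl, rfl⟩ | ⟨rfl, rfl, rfl⟩ :
          (a = 0 ∧ b = 0 ∧ c = 0) ∨ (a = 1 ∧ b = 0 ∧ c = 0) ∨ (a = 0 ∧ b = 1 ∧ c = 0) ∨
            (a = 2 ∧ b = 0 ∧ c = 0) := by omega
        exacts [a2, a0, a1, c2]) 0 2 0 (by omega) (by simp [hw])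
    simpa [dl_mul, hx1, C.T_x, cf_X0, cf_X1, cf_X, a1, mul_add] using this
  refine ⟨3, 1, 3, .inr (by simp), hx1, hx, fun i j hd hne => ?_, fun c3 => ?_⟩
  · obtain ⟨rfl, rfl⟩ | ⟨rfl, rfl⟩ | ⟨rfl, rfl⟩ | ⟨rfl, rfl⟩ | ⟨rfl, rfl⟩ : (i = 0 ∧ j = 0) ∨
      (i = 1 ∧ j = 0) ∨ (i = 0 ∧ j = 1) ∨ (i = 2 ∧ j = 0) ∨ (i = 1 ∧ j = 1) := by omega
    exacts [a2, a0, a1, c2, c11]
  have van : ∀ a b, (a < 4 ∧ b = 0) ∨ (a < 2 ∧ b = 1) → cf a b 0 (C.T (dl k σ (C.x 1))) = 0 :=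
    fun i j h => by
      obtain ⟨rfl, rfl⟩ | ⟨rfl, rfl⟩ | ⟨rfl, rfl⟩ | ⟨rfl, rfl⟩ | ⟨rfl, rfl⟩ | ⟨rfl, rfl⟩ :
        (i = 0 ∧ j = 0) ∨ (i = 1 ∧ j = 0) ∨ (i = 0 ∧ j = 1) ∨ (i = 2 ∧ j = 0) ∨
          (i = 1 ∧ j = 1) ∨ (i = 3 ∧ j = 0) := by omega
      exacts [a2, a0, a1, c2, c11, c3]
  have c4 : cf 4 0 0 (C.T (dl k σ (C.x 1))) = 0 := by
    refine Chart.kill (C.cap3 hσ (w0 := 2) (w1 := 5) (w2 := 20) (i := 3) (hX _)
      (wge3.2 fun a b c hd => by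
        obtain rfl : c = 0 := by omega
        exact van a b (by omega)) (hD _ _ _ 0 (by omega)) (n := 9) (by omega))
      (C.m0.mul (C.m0.mul (C.m0.mul C.m0))) (fun a b c hd hne => by
        obtain rfl : c = 0 := by omega
        exact van a b (by omega)) 3 1 0 (by omega) (by simp [hw]) fun h => ?_
    simp [dl_mul, hx1, C.T_x, cf_X0, cf_X1, cf_X, mul_add] at h
    exact one_ne_zero (α := k) (by linear_combination h - h3)
  have hW : WGe ![1, 3, 20] (3 + 2) (C.T (dl k σ (C.x 1))) := wge3.2 fun a b c hd => by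
    obtain rfl : c = 0 := by omega
    by_cases h : a = 4 ∧ b = 0
    · obtain ⟨rfl, rfl⟩ := h; exact c4
    · exact van a b (by omega)
  have hcap := fun n hn => C.cap3 hσ (i := 2) (n := n) (hX ![1, 3, 20]) hW (hD _ _ _ 0 (by omega)) hn
  obtain ⟨u, e, hu, he, h4⟩ := hs
  have hN : ∀ a : A, WGe ![1, 3, 20] 5 (C.T (∏ j ∈ Finset.range 3, σ ^ j • a - a ^ 3)) := by
    intro a
    obtain ⟨c, hc⟩ := C.exists_const a
    have b1 := hcap 1 (by omega) _ (((C.mem_iff _).1 hc).of_one (le_w (c := 1) (by omega)))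
    rw [map_sub, dl_apply σ (algebraMap k A c), smul_algebraMap, sub_self, sub_zero] at b1
    have b2 := hcap 3 (by omega) _ b1
    have h3A : (1 + 1 + 1 : A) = 0 := by simpa using congrArg (algebraMap k A) h3
    have : ∏ j ∈ Finset.range 3, σ ^ j • a - a ^ 3 = a * a * dl k σ (dl k σ a) +
        a * (dl k σ a * (dl k σ a + dl k σ a + dl k σ (dl k σ a))) := by
      simp only [Finset.prod_range_succ, Finset.prod_range_zero, dl_apply, pow_succ, pow_zero,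
        one_mul, mul_smul, one_smul, smul_sub]
      linear_combination (a * a * (σ • a - a)) * h3A
    rw [this]
    simp only [map_add, map_mul]
    exact (b2.mul_left _).add ((b1.mul' ((b1.add b1).add (b2.mono (by omega))) (by omega)).mul_left _)
  have h5 := norm_eq (u := u) (c := u + e) (s := s) (by linear_combination h4)
    (hx ▸ C.algInd.ne_zero 2) hσp
  have h6 : WGe ![1, 3, 20] 5 (C.T e * C.T e * C.T e) := by
    have h3A : (1 + 1 + 1 : A) = 0 := by simpa using congrArg (algebraMap k A) h3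
    convert (hN u).sub (hN (u + e)) using 1
    rw [← map_mul, ← map_mul, ← map_sub, h5]; congr 1
    linear_combination (-(u * u * e) - u * e * e) * h3A
  have h7 : WGe ![1, 3, 20] 2 (C.T e) := by
    rw [wge_iff] at h6 ⊢
    rw [weightedOrder_mul, weightedOrder_mul] at h6
    by_contra! h
    have h8 : weightedOrder ![1, 3, 20] (C.T e) ≤ 1 := Order.le_of_lt_add_one h
    exact absurd (h6.trans (add_le_add (add_le_add h8 h8) h8)) (by decide)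
  have : 20 + (3 - 1) * 2 < 1 + 3 + 20 := hB.b1 C ![1, 3, 20] _ σ 2 (by decide) (hS _) h1 hσp
    (by omega) (C.shift3 hσ (hX _) hW (WGe.of_unit_mul (C.isUnit_T hu) (by
      rw [← map_mul, hx, dl_apply, h4, map_mul]; exact (hS _).mul h7)))
  omega

omit [CharP k p] hs in
lemma caseII0 (hm : s ∈ m) (h : ∀ j, C.lin (dl k σ (C.x j)) = 0) : False := by
  have h2 : ∀ j, WGe ![1, 1, 1] 2 (C.T (dl k σ (C.x j))) := fun j =>
    C.wsq (C.dl_mem hσ _) (h j) (le_w (c := 1) (by omega))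
  have : 1 + (p - 1) * 1 < 1 + 1 + 1 := hB.b1 C _ _ σ 1 (by decide)
    (((C.mem_iff _).1 hm).of_one (le_w (c := 1) (by omega))) h1 hσp le_rfl
    (C.shift3 hσ (h2 0) (h2 1) (h2 2))
  omega

lemma caseII1 (hm : s ∈ m) (h0 : C.lin s = 0) (hx1 : dl k σ (C.x 0) = C.x 1)
    (a1 : C.lin (dl k σ (C.x 1)) = 0) (a2 : C.lin (dl k σ (C.x 2)) = 0) : False := by
  have hw := le_w (c := 2) (w0 := 2) (w1 := 3) (w2 := 3) (by omega)
  have b1 := C.wsq (C.dl_mem hσ _) a1 hw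
  have sh := C.shift3 hσ (i := 1) (hx1 ▸ C.wx _ 1) b1 (C.wsq (C.dl_mem hσ _) a2 hw)
  have s4 := C.wsq hm h0 hw
  have c2 : cf 2 0 0 (C.T s) = 0 := by
    refine Chart.kill (sh 5) (C.m0.mul C.m0) (fun a b c hd hne => wge3.1 s4 a b c (by omega))
      1 1 0 (by omega) (wge3.1 (C.semi_wge hs s4 hw) _ _ _ (by omega)) ?_
    simpa [dl_mul, hx1, C.T_x, cf_X0, cf_X1, cf_X] using two_ne (k := k) hp
  have s5 : WGe ![2, 3, 3] 5 (C.T s) := wge3.2 fun a b c hd => by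
    by_cases h : a = 2 ∧ b = 0 ∧ c = 0
    · obtain ⟨rfl, rfl, rfl⟩ := h; exact c2
    · exact wge3.1 s4 a b c (by omega)
  have key := fun i j l ht => Chart.kill2 (sh 6) (C.m0.mul C.m1) (C.m0.mul C.m2) (by omega)
    (fun a b c hd _ _ => wge3.1 s5 a b c (by omega)) i j l ht
    (wge3.1 (C.semi_wge hs s5 hw) _ _ _ ht)
  have c3 := key 0 2 0 (by omega)
  have c4 := key 0 1 1 (by omega)
  have d1 := wge3.1 b1 0 1 0 (by omega)
  have d2 := wge3.1 b1 0 0 1 (by omega)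
  have d3 := wge3.1 (C.wsq (C.dl_mem hσ _) a2 hw) 0 1 0 (by omega)
  have d4 := wge3.1 (C.wsq (C.dl_mem hσ _) a2 hw) 0 0 1 (by omega)
  simp [dl_mul, hx1, C.T_x, cf_X0, cf_X1, cf_X, d1, d2, d3, d4] at c3 c4
  have : 6 + (p - 1) * 1 < 2 + 3 + 3 := hB.b1 C _ _ σ 1 (by decide) (wge3.2 fun a b c hd => by
    by_cases h : a = 1 ∧ b = 1 ∧ c = 0
    · obtain ⟨rfl, rfl, rfl⟩ := h; exact c3
    by_cases h : a = 1 ∧ b = 0 ∧ c = 1
    · obtain ⟨rfl, rfl, rfl⟩ := h; exact c4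
    · exact wge3.1 s5 a b c (by omega)) h1 hσp le_rfl sh
  omega

lemma caseII2 (hm : s ∈ m) (h0 : C.lin s = 0) (hx1 : dl k σ (C.x 0) = C.x 1)
    (hx2 : dl k σ (C.x 1) = C.x 2) (a2 : C.lin (dl k σ (C.x 2)) = 0) : p = 3 ∧ C.TypeJ σ s := by
  have h2 := two_ne (k := k) hp
  rcases hp with rfl | rfl
  · have hx3 : dl k σ (C.x 2) = 0 := by rw [← hx2, ← hx1]; exact dl_three hσp _
    refine ⟨rfl, hx1, hx2, hx3, h0, fun h => ?_⟩
    have : 1 + (3 - 1) * 1 < 0 + 1 + 2 := hB.b1 C ![0, 1, 2] _ σ 1 (by decide) h h1 hσp le_rfl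
      (C.shift3 hσ (hx1 ▸ C.wx _ 1) (hx2 ▸ C.wx _ 2) (by rw [hx3, map_zero]; exact wge_zero))
    omega
  have hw := le_w (c := 3) (w0 := 3) (w1 := 4) (w2 := 5) (by omega)
  have sh := C.shift3 hσ (w0 := 3) (w1 := 4) (w2 := 5) (i := 1) (hx1 ▸ C.wx _ 1) (hx2 ▸ C.wx _ 2)
    (C.wsq (C.dl_mem hσ _) a2 hw)
  have s6 := C.wsq hm h0 hw
  have c2 : cf 2 0 0 (C.T s) = 0 := by
    refine Chart.kill (sh 7) (C.m0.mul C.m0) (fun a b c hd hne => wge3.1 s6 a b c (by omega))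
      1 1 0 (by omega) (wge3.1 (C.semi_wge hs s6 hw) _ _ _ (by omega)) ?_
    simpa [dl_mul, hx1, C.T_x, cf_X0, cf_X1, cf_X] using h2
  have s7 : WGe ![3, 4, 5] 7 (C.T s) := wge3.2 fun a b c hd => by
    by_cases h : a = 2 ∧ b = 0 ∧ c = 0
    · obtain ⟨rfl, rfl, rfl⟩ := h; exact c2
    · exact wge3.1 s6 a b c (by omega)
  have c3 : cf 1 1 0 (C.T s) = 0 := by
    refine Chart.kill (sh 8) (C.m0.mul C.m1) (fun a b c hd hne => wge3.1 s7 a b c (by omega))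
      0 2 0 (by omega) (wge3.1 (C.semi_wge hs s7 hw) _ _ _ (by omega)) ?_
    simp [dl_mul, hx1, hx2, C.T_x, cf_X0, cf_X1, cf_X]
  have : 8 + (5 - 1) * 1 < 3 + 4 + 5 := hB.b1 C _ _ σ 1 (by decide) (wge3.2 fun a b c hd => by
    by_cases h : a = 1 ∧ b = 1 ∧ c = 0
    · obtain ⟨rfl, rfl, rfl⟩ := h; exact c3
    · exact wge3.1 s7 a b c (by omega)) h1 hσp le_rfl sh
  omega

end Pool.Agent.Lib.MP_5f81cf_ag
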