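import Mathlib

/-! Weighted filtrations of power series, and Taylor expansion at a closed point of a smooth
affine variety. -/

namespace Pool.Agent.Lib.MP_5f81cf_ag

open MvPowerSeries Finsupp

section wge

variable {ι k : Type} [Field k]

/-- All monomials of `φ` have weight at least `n`. -/
def WGe (w : ι → ℕ) (n : ℕ) (φ : MvPowerSeries ι k) : Prop :=
  ∀ d : ι →₀ ℕ, weight w d < n → coeff d φ = 0

variable {w : ι → ℕ} {n m : ℕ} {φ ψ : MvPowerSeries ι k}

lemma wge_iff : WGe w n φ ↔ (n : ℕ∞) ≤ φ.weightedOrder w :=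
  ⟨fun h => nat_le_weightedOrder w h, fun h d hd =>
    coeff_eq_zero_of_lt_weightedOrder w (lt_of_lt_of_le (by exact_mod_cast hd) h)⟩

lemma wge_zero : WGe w n (0 : MvPowerSeries ι k) := fun _ _ => by simp

lemma wge_bot (φ : MvPowerSeries ι k) : WGe w 0 φ := fun _ h => absurd h (by simp)

lemma WGe.mono (h : WGe w n φ) (hm : m ≤ n) : WGe w m φ := fun d hd => h d (by omega)

lemma WGe.add (h : WGe w n φ) (h' : WGe w n ψ) : WGe w n (φ + ψ) := fun d hd => by
  rw [map_add, h d hd, h' d hd, add_zero]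

lemma WGe.neg (h : WGe w n φ) : WGe w n (-φ) := fun d hd => by rw [map_neg, h d hd, neg_zero]

lemma WGe.sub (h : WGe w n φ) (h' : WGe w n ψ) : WGe w n (φ - ψ) := fun d hd => by
  rw [map_sub, h d hd, h' d hd, sub_zero]

lemma WGe.smul (h : WGe w n φ) (c : k) : WGe w n (c • φ) := fun d hd => by
  rw [map_smul, h d hd, smul_zero]

lemma WGe.sum {α : Type} {s : Finset α} {f : α → MvPowerSeries ι k}
    (h : ∀ a ∈ s, WGe w n (f a)) : WGe w n (∑ a ∈ s, f a) := fun d hd => by
  rw [map_sum]; exact Finset.sum_eq_zero fun a ha => h a ha d hd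

lemma WGe.mul (h : WGe w n φ) (h' : WGe w m ψ) : WGe w (n + m) (φ * ψ) := by
  rw [wge_iff] at *
  exact le_trans (by push_cast; exact add_le_add h h') (le_weightedOrder_mul w)

lemma WGe.mul' {l : ℕ} (h : WGe w n φ) (h' : WGe w m ψ) (hl : l ≤ n + m) : WGe w l (φ * ψ) :=
  (h.mul h').mono hl

lemma WGe.mul_left (h : WGe w n φ) (ψ : MvPowerSeries ι k) : WGe w n (ψ * φ) :=
  (wge_bot ψ).mul' h (by simp)

lemma WGe.mul_right (h : WGe w n φ) (ψ : MvPowerSeries ι k) : WGe w n (φ * ψ) :=
  h.mul' (wge_bot ψ) (by simp)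

lemma WGe.pow (h : WGe w n φ) (j : ℕ) : WGe w (j * n) (φ ^ j) := by
  induction j with
  | zero => simpa using wge_bot _
  | succ j ih => rw [pow_succ]; exact ih.mul' h (by rw [add_mul, one_mul])

lemma wge_monomial (d : ι →₀ ℕ) (c : k) : WGe w (weight w d) (monomial d c) := by
  classical
  intro e he
  rw [coeff_monomial, if_neg]
  rintro rfl; exact lt_irrefl _ he

lemma wge_X (i : ι) : WGe w (w i) (X i : MvPowerSeries ι k) := by
  have := wge_monomial (w := w) (single i 1) (1 : k)
  rwa [weight_single, one_smul] at this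

lemma WGe.eq_zero (h : ∀ n, WGe w n φ) : φ = 0 := by
  ext d; exact h (weight w d + 1) d (by omega)

lemma WGe.of_le {w' : ι → ℕ} {c : ℕ} (h : WGe w n φ) (hc : ∀ i, w i ≤ c * w' i) (hm : c * m ≤ n + c - 1)
    (hc0 : 0 < c) : WGe w' m φ := by
  intro d hd
  apply h
  have : weight w d ≤ c * weight w' d := by
    simp only [weight_apply, Finsupp.sum, Finset.mul_sum, smul_eq_mul]
    exact Finset.sum_le_sum fun i _ => by nlinarith [hc i]
  have h2 : c * (weight w' d + 1) ≤ c * m := Nat.mul_le_mul_left _ hd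
  rw [mul_add, mul_one] at h2
  omega

lemma WGe.of_one (h : WGe (fun _ => 1) n φ) (hw : ∀ i, m ≤ w i) : WGe w (m * n) φ := by
  intro d hd
  apply h
  have : m * weight (fun _ => 1) d ≤ weight w d := by
    simp only [weight_apply, Finsupp.sum, Finset.mul_sum, smul_eq_mul]
    exact Finset.sum_le_sum fun i _ => by nlinarith [hw i]
  by_contra h2
  have := Nat.mul_le_mul_left m (not_lt.1 h2)
  omega

lemma wge_coe_iff {P : MvPolynomial ι k} :
    WGe w n (P : MvPowerSeries ι k) ↔ ∀ d ∈ P.support, n ≤ weight w d := by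
  simp only [WGe, MvPolynomial.coeff_coe, MvPolynomial.mem_support_iff]
  exact ⟨fun h d hd => not_lt.1 fun h' => hd (h d h'), fun h d hd => by
    by_contra h'; exact absurd (h d h') (not_le.2 hd)⟩

/-- Induction over polynomials all of whose monomials have weight at least `n`. -/
lemma wge_poly_induction {p : ℕ → MvPolynomial ι k → Prop}
    (hC : ∀ c, p 0 (MvPolynomial.C c)) (hX : ∀ n P i, p n P → p (n + w i) (P * MvPolynomial.X i))
    (h0 : ∀ n, p n 0) (hadd : ∀ n P Q, p n P → p n Q → p n (P + Q))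
    (hmono : ∀ n m P, m ≤ n → p n P → p m P) {P : MvPolynomial ι k}
    (hP : WGe w n (P : MvPowerSeries ι k)) : p n P := by
  classical
  have hmon : ∀ (d : ι →₀ ℕ) (c : k), p (weight w d) (MvPolynomial.monomial d c) := by
    intro d c
    induction d using Finsupp.induction with
    | zero => simpa using hC c
    | single_add i e d _ _ ih =>
      have : ∀ e : ℕ, p (weight w d + e * w i)
          (MvPolynomial.monomial d c * MvPolynomial.X i ^ e) := by
        intro e
        induction e with
        | zero => simpa using ih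
        | succ e e_ih =>
          rw [pow_succ, ← mul_assoc, add_mul, one_mul, ← add_assoc]; exact hX _ _ _ e_ih
      rw [add_comm, MvPolynomial.monomial_add_single, map_add, weight_single, smul_eq_mul]
      exact this e
  rw [P.as_sum]
  have hP' := wge_coe_iff.1 hP
  generalize P.support = s at hP' ⊢
  induction s using Finset.induction_on with
  | empty => simpa using h0 n
  | insert a s ha ih =>
    rw [Finset.sum_insert ha]
    exact hadd _ _ _ (hmono _ _ _ (hP' a (by simp)) (hmon a _))
      (ih fun d hd => hP' d (by simp [hd]))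

/-- A substitution that moves every variable by higher weight moves every polynomial. -/
lemma wge_subst_sub (θ : MvPolynomial ι k →ₐ[k] MvPowerSeries ι k) (i c : ℕ)
    (hθ : ∀ j, WGe w (min (w j + i) c) (θ (MvPolynomial.X j) - X j))
    (hθ' : ∀ j, WGe w (w j) (θ (MvPolynomial.X j))) {P : MvPolynomial ι k}
    (hP : WGe w n (P : MvPowerSeries ι k)) : WGe w (min (n + i) c) (θ P - (P : MvPowerSeries ι k)) := by
  refine (wge_poly_induction (w := w) (p := fun n P => WGe w n (P : MvPowerSeries ι k) ∧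
    WGe w (min (n + i) c) (θ P - (P : MvPowerSeries ι k))) ?_ ?_ ?_ ?_ ?_ hP).2
  · intro a
    refine ⟨wge_bot _, ?_⟩
    rw [MvPolynomial.algHom_C, MvPolynomial.coe_C]
    simpa [MvPowerSeries.algebraMap_apply] using wge_zero
  · rintro n P j ⟨h1, h2⟩
    refine ⟨by rw [MvPolynomial.coe_mul, MvPolynomial.coe_X]; exact h1.mul (wge_X j), ?_⟩
    have := (h2.mul' (hθ' j) (l := min (n + w j + i) c) (by omega)).add
      (h1.mul' (hθ j) (by omega))
    convert this using 1
    rw [map_mul, MvPolynomial.coe_mul, MvPolynomial.coe_X]; ring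
  · intro n; exact ⟨by simpa using wge_zero, by simpa using wge_zero⟩
  · rintro n P Q ⟨h1, h2⟩ ⟨h3, h4⟩
    refine ⟨by rw [MvPolynomial.coe_add]; exact h1.add h3, ?_⟩
    convert h2.add h4 using 1
    rw [map_add, MvPolynomial.coe_add]; ring
  · rintro n m P h ⟨h1, h2⟩
    exact ⟨h1.mono h, h2.mono (by omega)⟩

lemma wge_of_mem_span_pow {φ : MvPowerSeries ι k}
    (h : φ ∈ (Ideal.span (Set.range X) : Ideal (MvPowerSeries ι k)) ^ n) :
    WGe (fun _ => 1) n φ := by
  induction n generalizing φ with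
  | zero => exact wge_bot _
  | succ n ih =>
    rw [pow_succ] at h
    refine Submodule.mul_induction_on h (fun a ha b hb => (ih ha).mul ?_) fun _ _ => WGe.add
    induction hb using Submodule.span_induction with
    | mem x hx => obtain ⟨i, rfl⟩ := hx; exact wge_X i
    | zero => exact wge_zero
    | add _ _ _ _ h1 h2 => exact h1.add h2
    | smul a _ _ h1 => exact h1.mul_left a

end wge

section chart

variable {ι k A : Type} [Field k] [CommRing A] [Algebra k A]

/-- Taylor expansion at the maximal ideal `m` in the coordinates `x`. -/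
structure Chart (ι k : Type) [Field k] {A : Type} [CommRing A] [Algebra k A] (m : Ideal A) where
  x : ι → A
  T : A →ₐ[k] MvPowerSeries ι k
  T_x : ∀ i, T (x i) = X i
  mem_pow : ∀ n a, WGe (fun _ => 1) n (T a) ↔ a ∈ m ^ n

lemma aeval_mem_pow {m : Ideal A} {x : ι → A} (hx : ∀ i, x i ∈ m) {n : ℕ} {P : MvPolynomial ι k}
    (hP : WGe (fun _ => 1) n (P : MvPowerSeries ι k)) : MvPolynomial.aeval x P ∈ m ^ n := by
  refine wge_poly_induction (p := fun n P => MvPolynomial.aeval x P ∈ m ^ n) ?_ ?_ ?_ ?_ ?_ hP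
  · simp
  · intro n P i h
    rw [map_mul, MvPolynomial.aeval_X, pow_succ]; exact Ideal.mul_mem_mul h (hx i)
  · simp
  · intro n P Q h1 h2; rw [map_add]; exact add_mem h1 h2
  · intro n l P h h1; exact Ideal.pow_le_pow_right h h1

variable [Fintype ι]

lemma exists_approx {m : Ideal A} {x : ι → A} (hx : ∀ i, x i ∈ m)
    (hres : ∀ a : A, ∃ c : k, a - algebraMap k A c ∈ m)
    (hspan : ∀ a ∈ m, ∃ l : ι → k, a - ∑ i, l i • x i ∈ m ^ 2) (n : ℕ) (a : A) :
    ∃ P : MvPolynomial ι k, a - MvPolynomial.aeval x P ∈ m ^ n := by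
  have key : ∀ n : ℕ, ∀ b ∈ m ^ n, ∃ Q : MvPolynomial ι k,
      b - MvPolynomial.aeval x Q ∈ m ^ (n + 1) := by
    intro n
    induction n with
    | zero =>
      intro b _
      obtain ⟨c, hc⟩ := hres b
      exact ⟨MvPolynomial.C c, by simpa using hc⟩
    | succ n ih =>
      intro b hb
      rw [pow_succ] at hb
      refine Submodule.mul_induction_on hb (fun u hu v hv => ?_) ?_
      · obtain ⟨Q, hQ⟩ := ih u hu
        obtain ⟨l, hl⟩ := hspan v hv
        refine ⟨Q * ∑ i, l i • MvPolynomial.X i, ?_⟩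
        have h1 : u * (v - ∑ i, l i • x i) ∈ m ^ (n + 1 + 1) := by
          rw [add_assoc, pow_add]; exact Ideal.mul_mem_mul hu hl
        have h2 : (u - MvPolynomial.aeval x Q) * (∑ i, l i • x i) ∈ m ^ (n + 1 + 1) := by
          rw [pow_succ]
          exact Ideal.mul_mem_mul hQ (sum_mem fun i _ => Submodule.smul_of_tower_mem _ _ (hx i))
        convert add_mem h1 h2 using 1
        simp only [map_mul, map_sum, map_smul, MvPolynomial.aeval_X]; ring
      · rintro u v ⟨P, hP⟩ ⟨Q, hQ⟩
        exact ⟨P + Q, by convert add_mem hP hQ using 1; rw [map_add]; ring⟩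
  induction n with
  | zero => exact ⟨0, by simp⟩
  | succ n ih =>
    obtain ⟨P, hP⟩ := ih
    obtain ⟨Q, hQ⟩ := key n _ hP
    exact ⟨P + Q, by convert hQ using 1; rw [map_add]; ring⟩

lemma isAdicComplete_sq {S : Type} [CommRing S] (I : Ideal S) [h : IsAdicComplete I S] :
    IsAdicComplete (I ^ 2) S := by
  have hle : ∀ n : ℕ, ((I ^ 2) ^ n • ⊤ : Submodule S S) ≤ I ^ n • ⊤ := fun n =>
    Submodule.smul_mono_left (by rw [← pow_mul]; exact Ideal.pow_le_pow_right (by omega))
  refine { haus' := fun x hx => h.haus' x fun n => (hx n).mono (hle n), prec' := fun f hf => ?_ }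
  obtain ⟨L, hL⟩ := h.prec' f fun {m n} hmn => (hf hmn).mono (hle m)
  refine ⟨L, fun n => (hf (by omega : n ≤ 2 * n)).trans ?_⟩
  rw [← pow_mul]; exact hL _

lemma exists_first_order [Algebra.FormallySmooth k A] {m : Ideal A} (hm : m ≠ ⊤) {x : ι → A}
    (hx : ∀ i, x i ∈ m) (hres : ∀ a : A, ∃ c : k, a - algebraMap k A c ∈ m)
    (hspan : ∀ a ∈ m, ∃ l : ι → k, a - ∑ i, l i • x i ∈ m ^ 2)
    (hind : ∀ l : ι → k, ∑ i, l i • x i ∈ m ^ 2 → l = 0) :
    ∃ ψ : A →ₐ[k] MvPowerSeries ι k, (∀ i, WGe (fun _ => 1) 2 (ψ (x i) - X i)) ∧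
      ∀ a ∈ m, WGe (fun _ => 1) 1 (ψ a) := by
  classical
  let I : Ideal (MvPowerSeries ι k) := Ideal.span (Set.range X)
  have hI : IsAdicComplete (I ^ 2) (MvPowerSeries ι k) := by
    have : IsAdicComplete I (MvPowerSeries ι k) := inferInstance
    exact isAdicComplete_sq I
  have hm2 : m ^ 2 ≤ m := Ideal.pow_le_self two_ne_zero
  have hlin : ∀ l : ι → k, ∑ i, l i • x i ∈ m := fun l =>
    sum_mem fun i _ => Submodule.smul_of_tower_mem _ _ (hx i)
  have hex : ∀ a : A, ∃ (c : k) (l : ι → k), a - (algebraMap k A c + ∑ i, l i • x i) ∈ m ^ 2 := by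
    intro a
    obtain ⟨c, hc⟩ := hres a
    obtain ⟨l, hl⟩ := hspan _ hc
    exact ⟨c, l, by rwa [← sub_sub]⟩
  choose c l hcl using hex
  have huniq : ∀ a c' l', a - (algebraMap k A c' + ∑ i, l' i • x i) ∈ m ^ 2 →
      c a = c' ∧ l a = l' := by
    intro a c' l' h
    have h1 := sub_mem h (hcl a)
    have h2 : algebraMap k A (c a - c') + ∑ i, (l a - l') i • x i ∈ m ^ 2 := by
      convert h1 using 1
      simp only [map_sub, Pi.sub_apply, sub_smul, Finset.sum_sub_distrib]; ring
    have h3 : c a - c' = 0 := by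
      by_contra h0
      have := sub_mem (hm2 h2) (hlin (l a - l'))
      rw [add_sub_cancel_right] at this
      exact hm (Ideal.eq_top_of_isUnit_mem _ this ((IsUnit.mk0 _ h0).map _))
    rw [h3, map_zero, zero_add] at h2
    exact ⟨sub_eq_zero.1 h3, sub_eq_zero.1 (hind _ h2)⟩
  let e : k → (ι → k) → MvPowerSeries ι k := fun c l => C c + ∑ i, l i • X i
  have hlinI : ∀ l : ι → k, (∑ i, l i • X i : MvPowerSeries ι k) ∈ I := fun l =>
    sum_mem fun i _ => Submodule.smul_of_tower_mem _ _ (Ideal.subset_span ⟨i, rfl⟩)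
  let f : A →ₐ[k] MvPowerSeries ι k ⧸ I ^ 2 :=
    { toFun := fun a => Ideal.Quotient.mk _ (e (c a) (l a))
      map_one' := by
        obtain ⟨h1, h2⟩ := huniq 1 1 0 (by simp)
        simp [e, h1, h2]
      map_zero' := by
        obtain ⟨h1, h2⟩ := huniq 0 0 0 (by simp)
        simp [e, h1, h2]
      map_add' := by
        intro a b
        obtain ⟨h1, h2⟩ := huniq (a + b) (c a + c b) (l a + l b) (by
          convert add_mem (hcl a) (hcl b) using 1
          simp only [map_add, Pi.add_apply, add_smul, Finset.sum_add_distrib]; ring)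
        rw [← map_add, h1, h2]; congr 1
        simp only [e, map_add, Pi.add_apply, add_smul, Finset.sum_add_distrib]; ring
      map_mul' := by
        intro a b
        obtain ⟨h1, h2⟩ := huniq (a * b) (c a * c b) (c a • l b + c b • l a) (by
          have h3 : (∑ i, l a i • x i) * (∑ i, l b i • x i) ∈ m ^ 2 := by
            rw [sq]; exact Ideal.mul_mem_mul (hlin _) (hlin _)
          convert add_mem (add_mem h3 (Ideal.mul_mem_right b _ (hcl a)))
            (Ideal.mul_mem_left _ (algebraMap k A (c a) + ∑ i, l a i • x i) (hcl b)) using 1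
          simp only [map_mul, Pi.add_apply, Pi.smul_apply, add_smul, Finset.sum_add_distrib,
            smul_assoc, ← Finset.smul_sum]
          simp only [Algebra.smul_def (c a), Algebra.smul_def (c b)]; ring)
        rw [← map_mul, h1, h2, Ideal.Quotient.eq]
        have h3 : (∑ i, l a i • X i : MvPowerSeries ι k) * (∑ i, l b i • X i) ∈ I ^ 2 := by
          rw [sq]; exact Ideal.mul_mem_mul (hlinI _) (hlinI _)
        convert neg_mem h3 using 1
        simp only [e, map_mul, Pi.add_apply, Pi.smul_apply, add_smul, Finset.sum_add_distrib,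
          smul_assoc, ← Finset.smul_sum]
        simp only [smul_eq_C_mul _ (c a), smul_eq_C_mul _ (c b)]; ring
      commutes' := by
        intro r
        obtain ⟨h1, h2⟩ := huniq (algebraMap k A r) r 0 (by simp)
        simp only [e, h1, h2, Pi.zero_apply, zero_smul, Finset.sum_const_zero, add_zero]
        rfl }
  obtain ⟨ψ, hψ⟩ := Algebra.FormallySmooth.exists_mkₐ_comp_eq_of_isAdicComplete f
  have hψ' : ∀ a, WGe (fun _ => 1) 2 (ψ a - e (c a) (l a)) := fun a =>
    wge_of_mem_span_pow (Ideal.Quotient.eq.1 (DFunLike.congr_fun hψ a))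
  refine ⟨ψ, fun i => ?_, fun a ha => ?_⟩
  · obtain ⟨h1, h2⟩ := huniq (x i) 0 (Pi.single i 1) (by simp [Pi.single_apply])
    have := hψ' (x i)
    rw [h1, h2] at this
    simpa [e, Pi.single_apply] using this
  · obtain ⟨l', hl'⟩ := hspan a ha
    obtain ⟨h1, h2⟩ := huniq a 0 l' (by simpa using hl')
    have := ((hψ' a).mono one_le_two).add
      (wge_of_mem_span_pow (n := 1) (by rw [pow_one]; exact hlinI (l a)))
    simpa [e, h1] using this

theorem exists_chart [Algebra.FormallySmooth k A] {m : Ideal A} (hm : m ≠ ⊤) {x : ι → A}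
    (hx : ∀ i, x i ∈ m) (hres : ∀ a : A, ∃ c : k, a - algebraMap k A c ∈ m)
    (hspan : ∀ a ∈ m, ∃ l : ι → k, a - ∑ i, l i • x i ∈ m ^ 2)
    (hind : ∀ l : ι → k, ∑ i, l i • x i ∈ m ^ 2 → l = 0) : ∃ C : Chart ι k m, C.x = x := by
  obtain ⟨ψ, hψ, hψm⟩ := exists_first_order hm hx hres hspan hind
  have hψp : ∀ n, ∀ a ∈ m ^ n, WGe (fun _ => 1) n (ψ a) := by
    intro n
    induction n with
    | zero => exact fun _ _ => wge_bot _
    | succ n ih =>
      intro a ha
      rw [pow_succ] at ha
      refine Submodule.mul_induction_on ha (fun u hu v hv => ?_) fun u v h1 h2 => ?_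
      · rw [map_mul]; exact (ih u hu).mul (hψm v hv)
      · rw [map_add]; exact h1.add h2
  have GP : ∀ n (P : MvPolynomial ι k), MvPolynomial.aeval x P ∈ m ^ n →
      WGe (fun _ => 1) n (P : MvPowerSeries ι k) := by
    intro n P hP
    induction n with
    | zero => exact wge_bot _
    | succ n ih =>
      have h1 := wge_subst_sub (ψ.comp (MvPolynomial.aeval x)) 1 (n + 1)
        (fun j => by simpa using (hψ j).mono (by omega)) (fun j => by simpa using hψm _ (hx j))
        (ih (Ideal.pow_le_pow_right (by omega) hP))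
      have h2 := (hψp _ _ hP).sub (h1.mono (by simp))
      simpa using h2
  choose P hP using exists_approx hx hres hspan
  let T0 : A → MvPowerSeries ι k := fun a d => (P (weight (fun _ => 1) d + 1) a).coeff d
  have hT : ∀ n a (Q : MvPolynomial ι k), a - MvPolynomial.aeval x Q ∈ m ^ n →
      WGe (fun _ => 1) n (T0 a - (Q : MvPowerSeries ι k)) := by
    intro n a Q hQ d hd
    have h1 := sub_mem (Ideal.pow_le_pow_right (Nat.succ_le_of_lt hd) hQ) (hP _ a)
    have h2 := GP _ (P (weight (fun _ => 1) d + 1) a - Q)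
      (by convert h1 using 1; rw [map_sub]; ring) d (by omega)
    rw [MvPolynomial.coeff_coe, MvPolynomial.coeff_sub] at h2
    rw [map_sub, MvPolynomial.coeff_coe]
    exact h2
  have hTe : ∀ (Q : MvPolynomial ι k), T0 (MvPolynomial.aeval x Q) = Q := fun Q =>
    sub_eq_zero.1 (WGe.eq_zero fun n => hT n _ Q (by simp))
  let T : A →ₐ[k] MvPowerSeries ι k :=
    { toFun := T0
      map_one' := by simpa using hTe 1
      map_zero' := by simpa using hTe 0
      map_add' := fun a b => sub_eq_zero.1 (WGe.eq_zero (w := fun _ => 1) fun n => by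
        have h1 := hT n (a + b) (P n a + P n b)
          (by convert add_mem (hP n a) (hP n b) using 1; rw [map_add]; ring)
        convert (h1.sub (hT n a _ (hP n a))).sub (hT n b _ (hP n b)) using 1
        rw [MvPolynomial.coe_add]; ring)
      map_mul' := fun a b => sub_eq_zero.1 (WGe.eq_zero (w := fun _ => 1) fun n => by
        have h1 := hT n (a * b) (P n a * P n b) (by
          convert add_mem (Ideal.mul_mem_left _ a (hP n b))
            (Ideal.mul_mem_right (MvPolynomial.aeval x (P n b)) _ (hP n a)) using 1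
          rw [map_mul]; ring)
        convert (h1.sub ((hT n a _ (hP n a)).mul_right (P n b))).sub
          ((hT n b _ (hP n b)).mul_left (T0 a)) using 1
        rw [MvPolynomial.coe_mul]; ring)
      commutes' := fun r => by
        have := hTe (MvPolynomial.C r)
        rw [MvPolynomial.algHom_C, MvPolynomial.coe_C] at this
        rw [this]; rfl }
  refine ⟨⟨x, T, fun i => ?_, fun n a => ⟨fun h => ?_, fun h => ?_⟩⟩, rfl⟩
  · change T0 _ = _
    simpa using hTe (MvPolynomial.X i)
  · have h1 : WGe (fun _ => 1) n (P n a : MvPowerSeries ι k) := by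
      simpa using WGe.sub (φ := T0 a) h (hT n a _ (hP n a))
    simpa using add_mem (hP n a) (aeval_mem_pow hx h1)
  · change WGe _ _ (T0 _)
    simpa using hT n a 0 (by simpa using h)

end chart

end Pool.Agent.Lib.MP_5f81cf_ag
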