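import Pool.Agent.Lib.MP_5f81cf_ag.PDeg

/-! Logarithmic Jacobians along a place, and their drop under a wild automorphism. -/

namespace Pool.Agent.Lib.MP_5f81cf_ag

open Pool.Agent.Lib.MP_e06174_ag Polynomial

variable {k K : Type} [Field k] [Field K] [Algebra k K]

/-- Determinant of three vectors. -/
def det3 (a b c : Fin 3 → K) : K :=
  a 0 * (b 1 * c 2 - b 2 * c 1) - a 1 * (b 0 * c 2 - b 2 * c 0) + a 2 * (b 0 * c 1 - b 1 * c 0)

variable (D : Fin 3 → Derivation k K K) (F : Place k K)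

/-- Gradient. -/
def grad (a : K) : Fin 3 → K := fun i => D i a

/-- Logarithmic gradient. -/
def lg (a : K) : Fin 3 → K := a⁻¹ • grad D a

/-- The filtration of the logarithmic lattice of `L`. -/
def Lat (L : Subfield K) (n : ℤ) : AddSubgroup (Fin 3 → K) :=
  AddSubgroup.closure {ξ | ∃ f a, f ∈ L ∧ a ∈ L ∧ a ≠ 0 ∧ F.Ge n f ∧ ξ = f • lg D a}

/-- All logarithmic Jacobians of elements of `L` have order at least `μ`. -/
def LB (L : Subfield K) (μ : ℤ) : Prop :=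
  ∀ a ∈ L, ∀ b ∈ L, ∀ c ∈ L, a ≠ 0 → b ≠ 0 → c ≠ 0 → F.Ge μ (det3 (lg D a) (lg D b) (lg D c))

variable {D F}

lemma LB.anti {L L' : Subfield K} {μ : ℤ} (h : LB D F L μ) (hL : L' ≤ L) : LB D F L' μ :=
  fun a ha b hb c hc => h a (hL ha) b (hL hb) c (hL hc)

lemma LB.mono {L : Subfield K} {μ ν : ℤ} (h : LB D F L μ) (hν : ν ≤ μ) : LB D F L ν :=
  fun a ha b hb c hc h1 h2 h3 => (h a ha b hb c hc h1 h2 h3).mono hν

lemma grad_add (a b : K) : grad D (a + b) = grad D a + grad D b := by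
  ext i; simp [grad]

lemma grad_sub (a b : K) : grad D (a - b) = grad D a - grad D b := by
  ext i; simp [grad]

lemma grad_neg (a : K) : grad D (-a) = - grad D a := by
  ext i; simp [grad]

lemma grad_mul (a b : K) : grad D (a * b) = a • grad D b + b • grad D a := by
  ext i; simp [grad]

lemma grad_one : grad D (1 : K) = 0 := by
  ext i; simp [grad]

lemma grad_zero : grad D (0 : K) = 0 := by
  ext i; simp [grad]

lemma grad_pow_char (p : ℕ) [CharP K p] (a : K) : grad D (a ^ p) = 0 := by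
  ext i; simp [grad]

lemma lg_mul {a b : K} (ha : a ≠ 0) (hb : b ≠ 0) : lg D (a * b) = lg D a + lg D b := by
  ext i; simp only [lg, grad_mul, Pi.smul_apply, Pi.add_apply, smul_eq_mul]; field_simp; ring

lemma lg_one : lg D (1 : K) = 0 := by simp [lg, grad_one]

lemma lg_inv {a : K} (ha : a ≠ 0) : lg D a⁻¹ = - lg D a := by
  have := lg_mul (D := D) ha (inv_ne_zero ha)
  rw [mul_inv_cancel₀ ha, lg_one] at this
  exact eq_neg_of_add_eq_zero_right this.symm

lemma lg_pow {a : K} (ha : a ≠ 0) (n : ℕ) : lg D (a ^ n) = (n : K) • lg D a := by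
  induction n with
  | zero => simp [lg_one]
  | succ n ih => rw [pow_succ, lg_mul (pow_ne_zero _ ha) ha, ih]; push_cast; rw [add_smul, one_smul]

lemma lg_zpow {a : K} (ha : a ≠ 0) (n : ℤ) : lg D (a ^ n) = (n : K) • lg D a := by
  rcases Int.eq_nat_or_neg n with ⟨m, rfl | rfl⟩
  · simp [lg_pow ha]
  · simp [lg_inv (pow_ne_zero _ ha), lg_pow ha]

lemma lg_prod {ι : Type} (s : Finset ι) (f : ι → K) (hf : ∀ i ∈ s, f i ≠ 0) :
    lg D (∏ i ∈ s, f i) = ∑ i ∈ s, lg D (f i) := by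
  classical
  induction s using Finset.induction_on with
  | empty => simp [lg_one]
  | insert a s ha ih =>
    rw [Finset.prod_insert ha, Finset.sum_insert ha, lg_mul (hf a (by simp))
      (Finset.prod_ne_zero_iff.mpr fun i hi => hf i (by simp [hi])),
      ih fun i hi => hf i (by simp [hi])]

lemma smul_lg {a : K} (ha : a ≠ 0) : a • lg D a = grad D a := by
  rw [lg, smul_smul, mul_inv_cancel₀ ha, one_smul]

lemma Lat_gen {L : Subfield K} {n : ℤ} {f a : K} (hf : f ∈ L) (ha : a ∈ L) (ha0 : a ≠ 0)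
    (h : F.Ge n f) : f • lg D a ∈ Lat D F L n :=
  AddSubgroup.subset_closure ⟨f, a, hf, ha, ha0, h, rfl⟩

lemma lg_mem {L : Subfield K} {a : K} (ha : a ∈ L) (ha0 : a ≠ 0) : lg D a ∈ Lat D F L 0 := by
  simpa using Lat_gen (D := D) (one_mem L) ha ha0 (Place.ge_one (p := F))

lemma grad_mem {L : Subfield K} {n : ℤ} {a : K} (ha : a ∈ L) (h : F.Ge n a) :
    grad D a ∈ Lat D F L n := by
  by_cases ha0 : a = 0
  · rw [ha0, grad_zero]; exact zero_mem _
  · rw [← smul_lg ha0]; exact Lat_gen ha ha ha0 h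

lemma Lat_smul {L : Subfield K} {j n l : ℤ} {f : K} {ξ : Fin 3 → K} (hf : f ∈ L) (h : F.Ge j f)
    (hξ : ξ ∈ Lat D F L n) (hl : l ≤ j + n) : f • ξ ∈ Lat D F L l := by
  induction hξ using AddSubgroup.closure_induction with
  | mem x hx =>
    obtain ⟨g, a, hg, ha, ha0, h', rfl⟩ := hx
    rw [smul_smul]; exact Lat_gen (mul_mem hf hg) ha ha0 (h.mul' h' hl)
  | zero => rw [smul_zero]; exact zero_mem _
  | add _ _ _ _ h1 h2 => rw [smul_add]; exact add_mem h1 h2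
  | neg _ _ h1 => rw [smul_neg]; exact neg_mem h1

lemma Lat_mono {L : Subfield K} {n l : ℤ} {ξ : Fin 3 → K} (hξ : ξ ∈ Lat D F L n) (hl : l ≤ n) :
    ξ ∈ Lat D F L l := by
  simpa using Lat_smul (one_mem L) (Place.ge_one (p := F)) hξ (by omega : l ≤ 0 + n)

lemma Lat_le {L L' : Subfield K} (hL : L' ≤ L) {n : ℤ} {ξ : Fin 3 → K}
    (hξ : ξ ∈ Lat D F L' n) : ξ ∈ Lat D F L n :=
  AddSubgroup.closure_mono (by
    rintro _ ⟨f, a, hf, ha, ha0, h, rfl⟩; exact ⟨f, a, hL hf, hL ha, ha0, h, rfl⟩) hξ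

lemma LB.det {L : Subfield K} {μ n1 n2 n3 : ℤ} (h : LB D F L μ) {a b c : Fin 3 → K}
    (ha : a ∈ Lat D F L n1) (hb : b ∈ Lat D F L n2) (hc : c ∈ Lat D F L n3) :
    F.Ge (μ + n1 + n2 + n3) (det3 a b c) := by
  induction ha using AddSubgroup.closure_induction with
  | zero => simp [det3]
  | add x y _ _ h1 h2 =>
    rw [show det3 (x + y) b c = det3 x b c + det3 y b c by simp only [det3, Pi.add_apply]; ring]
    exact h1.add h2
  | neg x _ h1 =>
    rw [show det3 (-x) b c = - det3 x b c by simp only [det3, Pi.neg_apply]; ring]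
    exact h1.neg
  | mem x hx =>
  obtain ⟨f1, a1, hf1, ha1, ha10, h1, rfl⟩ := hx
  induction hb using AddSubgroup.closure_induction with
  | zero => simp [det3]
  | add x y _ _ h1 h2 =>
    rw [show ∀ a, det3 a (x + y) c = det3 a x c + det3 a y c by
      intro a; simp only [det3, Pi.add_apply]; ring]
    exact h1.add h2
  | neg x _ h1 =>
    rw [show ∀ a, det3 a (-x) c = - det3 a x c by intro a; simp only [det3, Pi.neg_apply]; ring]
    exact h1.neg
  | mem x hx =>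
  obtain ⟨f2, a2, hf2, ha2, ha20, h2, rfl⟩ := hx
  induction hc using AddSubgroup.closure_induction with
  | zero => simp [det3]
  | add x y _ _ h1 h2 =>
    rw [show ∀ a b, det3 a b (x + y) = det3 a b x + det3 a b y by
      intro a b; simp only [det3, Pi.add_apply]; ring]
    exact h1.add h2
  | neg x _ h1 =>
    rw [show ∀ a b, det3 a b (-x) = - det3 a b x by
      intro a b; simp only [det3, Pi.neg_apply]; ring]
    exact h1.neg
  | mem x hx =>
  obtain ⟨f3, a3, hf3, ha3, ha30, h3, rfl⟩ := hx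
  rw [show ∀ a b c : Fin 3 → K, det3 (f1 • a) (f2 • b) (f3 • c) = det3 a b c * f1 * f2 * f3 by
    intro a b c; simp only [det3, Pi.smul_apply, smul_eq_mul]; ring]
  exact (((h a1 ha1 a2 ha2 a3 ha3 ha10 ha20 ha30).mul h1).mul h2).mul h3

lemma exists_unif {L : Subfield K} (h : ∃ c ∈ L, F.ord c ≠ 0) :
    ∃ ϖ ∈ L, ϖ ≠ 0 ∧ 0 < F.ord ϖ ∧ ∀ c ∈ L, F.ord ϖ ∣ F.ord c := by
  classical
  have hex : ∃ n : ℕ, 0 < n ∧ ∃ c ∈ L, F.ord c = n := by
    obtain ⟨c, hc, h0⟩ := h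
    rcases lt_or_gt_of_ne h0 with h1 | h1
    · exact ⟨(-F.ord c).toNat, by omega, c⁻¹, inv_mem hc, by rw [F.ord_inv]; omega⟩
    · exact ⟨(F.ord c).toNat, by omega, c, hc, by omega⟩
  obtain ⟨hn, ϖ, hϖ, hord⟩ := Nat.find_spec hex
  have hϖ0 : ϖ ≠ 0 := by rintro rfl; simp at hord; omega
  refine ⟨ϖ, hϖ, hϖ0, by omega, fun c hc => ?_⟩
  by_cases hc0 : c = 0
  · simp [hc0]
  by_contra hnd
  have hpos : 0 < F.ord ϖ := by omega
  have h1 : 0 ≤ F.ord c % F.ord ϖ := Int.emod_nonneg _ hpos.ne'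
  have h2 : F.ord c % F.ord ϖ < F.ord ϖ := Int.emod_lt_of_pos _ hpos
  have h3 : F.ord c % F.ord ϖ ≠ 0 := fun h => hnd (Int.dvd_of_emod_eq_zero h)
  refine Nat.find_min hex (m := (F.ord c % F.ord ϖ).toNat) (by omega)
    ⟨by omega, c * ϖ ^ (-(F.ord c / F.ord ϖ)), mul_mem hc (zpow_mem hϖ _), ?_⟩
  rw [F.ord_mul hc0 (zpow_ne_zero _ hϖ0), F.ord_zpow]
  have := Int.emod_add_mul_ediv (F.ord c) (F.ord ϖ)
  rw [Int.toNat_of_nonneg h1]
  linarith

lemma ge_unif {L : Subfield K} {ϖ r : K} (_he : 0 < F.ord ϖ) (hdvd : ∀ c ∈ L, F.ord ϖ ∣ F.ord c)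
    (hr : r ∈ L) (h : F.Ge 1 r) : F.Ge (F.ord ϖ) r := by
  by_cases hr0 : r = 0
  · simp [hr0]
  exact Place.ge_of_le (Int.le_of_dvd (by have := h.le hr0; omega) (hdvd r hr))

section structure_

variable (p : ℕ) [hp : Fact p.Prime] [CharP K p]

lemma grad_decomp {L : Subfield K} {e : ℤ} (he : ∀ r ∈ L, F.Ge 1 r → F.Ge e r) {a b : F.O}
    (ha : (a : K) ∈ L) (hb : (b : K) ∈ L)
    (hab : ∀ c ∈ resSub F L, c ∈ Subring.closure ((Pw p (resSub F L) : Set _) ∪
      {IsLocalRing.residue F.O a, IsLocalRing.residue F.O b}))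
    {c : K} (hc : c ∈ L) (hc0 : F.Ge 0 c) : ∃ α ∈ L, ∃ β ∈ L, F.Ge 0 α ∧ F.Ge 0 β ∧
      grad D c - (α • grad D (a : K) + β • grad D (b : K)) ∈ Lat D F L e := by
  have key : ∀ z ∈ Subring.closure ((Pw p (resSub F L) : Set _) ∪
      {IsLocalRing.residue F.O a, IsLocalRing.residue F.O b}), ∃ d : F.O, (d : K) ∈ L ∧
      IsLocalRing.residue F.O d = z ∧ ∃ α ∈ L, ∃ β ∈ L, F.Ge 0 α ∧ F.Ge 0 β ∧
        grad D (d : K) = α • grad D (a : K) + β • grad D (b : K) := by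
    intro z hz
    induction hz using Subring.closure_induction with
    | mem x hx =>
      rcases hx with hx | hx | hx
      · obtain ⟨y, ⟨d, hd, rfl⟩, rfl⟩ := (mem_Pw p).1 hx
        exact ⟨d ^ p, pow_mem hd p, map_pow _ _ _, 0, zero_mem _, 0, zero_mem _, by simp, by simp,
          by simp [grad_pow_char p]⟩
      · exact ⟨a, ha, hx.symm, 1, one_mem _, 0, zero_mem _, Place.ge_one, by simp, by simp⟩
      · exact ⟨b, hb, hx.symm, 0, zero_mem _, 1, one_mem _, by simp, Place.ge_one, by simp⟩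
    | zero => exact ⟨0, zero_mem _, map_zero _, 0, zero_mem _, 0, zero_mem _, by simp, by simp,
        by simp [grad_zero]⟩
    | one => exact ⟨1, one_mem _, map_one _, 0, zero_mem _, 0, zero_mem _, by simp, by simp,
        by simp [grad_one]⟩
    | add x y _ _ h1 h2 =>
      obtain ⟨d1, hd1, rfl, α1, hα1, β1, hβ1, h11, h12, h13⟩ := h1
      obtain ⟨d2, hd2, rfl, α2, hα2, β2, hβ2, h21, h22, h23⟩ := h2
      refine ⟨d1 + d2, add_mem hd1 hd2, map_add _ _ _, α1 + α2, add_mem hα1 hα2, β1 + β2,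
        add_mem hβ1 hβ2, h11.add h21, h12.add h22, ?_⟩
      rw [AddMemClass.coe_add, grad_add, h13, h23, add_smul, add_smul]; abel
    | neg x _ h1 =>
      obtain ⟨d1, hd1, rfl, α1, hα1, β1, hβ1, h11, h12, h13⟩ := h1
      refine ⟨-d1, neg_mem hd1, map_neg _ _, -α1, neg_mem hα1, -β1, neg_mem hβ1, h11.neg, h12.neg,
        ?_⟩
      rw [NegMemClass.coe_neg, grad_neg, h13, neg_smul, neg_smul]; abel
    | mul x y _ _ h1 h2 =>
      obtain ⟨d1, hd1, rfl, α1, hα1, β1, hβ1, h11, h12, h13⟩ := h1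
      obtain ⟨d2, hd2, rfl, α2, hα2, β2, hβ2, h21, h22, h23⟩ := h2
      have g1 := Place.mem_O.1 d1.2
      have g2 := Place.mem_O.1 d2.2
      refine ⟨d1 * d2, mul_mem hd1 hd2, map_mul _ _ _, d1 * α2 + d2 * α1,
        add_mem (mul_mem hd1 hα2) (mul_mem hd2 hα1), d1 * β2 + d2 * β1,
        add_mem (mul_mem hd1 hβ2) (mul_mem hd2 hβ1),
        (g1.mul' h21 (by simp)).add (g2.mul' h11 (by simp)),
        (g1.mul' h22 (by simp)).add (g2.mul' h12 (by simp)), ?_⟩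
      rw [MulMemClass.coe_mul, grad_mul, h13, h23]
      ext i; simp only [Pi.add_apply, Pi.smul_apply, smul_eq_mul]; ring
  obtain ⟨d, hd, hres, α, hα, β, hβ, h1, h2, h3⟩ :=
    key _ (hab _ ⟨⟨c, Place.mem_O.2 hc0⟩, hc, rfl⟩)
  refine ⟨α, hα, β, hβ, h1, h2, ?_⟩
  rw [← h3, ← grad_sub]
  exact grad_mem (sub_mem hc hd) (he _ (sub_mem hc hd) (res_eq_iff.1 hres.symm))

/-- Jacobians of regular elements gain one uniformiser. -/
lemma LB.nonlog {L : Subfield K} {μ : ℤ} (h : LB D F L μ) (hL : Dep p L (p ^ 3))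
    {ϖ : K} (hϖ : ϖ ∈ L) (hϖ0 : ϖ ≠ 0) (he : 0 < F.ord ϖ) (hdvd : ∀ c ∈ L, F.ord ϖ ∣ F.ord c)
    {c1 c2 c3 : K} (h1 : c1 ∈ L) (h2 : c2 ∈ L) (h3 : c3 ∈ L) (g1 : F.Ge 0 c1) (g2 : F.Ge 0 c2)
    (g3 : F.Ge 0 c3) : F.Ge (μ + F.ord ϖ) (det3 (grad D c1) (grad D c2) (grad D c3)) := by
  obtain ⟨_, ⟨a, ha, rfl⟩, _, ⟨b, hb, rfl⟩, -, -, hab⟩ :=
    exists_pbasis p (dep_res p hL hϖ hϖ0 he hdvd)
  have he' := fun r hr => ge_unif (F := F) (r := r) he hdvd hr
  obtain ⟨α1, hα1, β1, hβ1, a1, b1, r1⟩ := grad_decomp (D := D) p he' ha hb hab h1 g1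
  obtain ⟨α2, hα2, β2, hβ2, a2, b2, r2⟩ := grad_decomp (D := D) p he' ha hb hab h2 g2
  obtain ⟨α3, hα3, β3, hβ3, a3, b3, r3⟩ := grad_decomp (D := D) p he' ha hb hab h3 g3
  have ga : grad D (a : K) ∈ Lat D F L 0 := grad_mem ha (Place.mem_O.1 a.2)
  have gb : grad D (b : K) ∈ Lat D F L 0 := grad_mem hb (Place.mem_O.1 b.2)
  have e1 := add_mem (Lat_smul hα1 a1 ga (le_refl _)) (Lat_smul hβ1 b1 gb (le_refl _))
  have e2 := add_mem (Lat_smul hα2 a2 ga (le_refl _)) (Lat_smul hβ2 b2 gb (le_refl _))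
  have t1 := h.det r1 (grad_mem (D := D) h2 g2) (grad_mem (D := D) h3 g3)
  have t2 := h.det e1 r2 (grad_mem (D := D) h3 g3)
  have t3 := h.det e1 e2 r3
  have := ((t1.mono (m := μ + F.ord ϖ) (by simp)).add (t2.mono (by simp))).add (t3.mono (by simp))
  convert this using 1
  simp only [det3, Pi.sub_apply, Pi.add_apply, Pi.smul_apply, smul_eq_mul]; ring

lemma LB.improve {L : Subfield K} {μ ν : ℤ} (h : LB D F L μ)
    {ϖ : K} (hϖ : ϖ ∈ L) (hϖ0 : ϖ ≠ 0) (_he : 0 < F.ord ϖ) (hdvd : ∀ c ∈ L, F.ord ϖ ∣ F.ord c)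
    {a b : F.O} (ha : (a : K) ∈ L) (hb : (b : K) ∈ L)
    (hab : ∀ c ∈ resSub F L, c ∈ Subring.closure ((Pw p (resSub F L) : Set _) ∪
      {IsLocalRing.residue F.O a, IsLocalRing.residue F.O b}))
    (hν : F.Ge ν (det3 (lg D ϖ) (grad D (a : K)) (grad D (b : K)))) : LB D F L ν := by
  have ga : grad D (a : K) ∈ Lat D F L 0 := grad_mem ha (Place.mem_O.1 a.2)
  have gb : grad D (b : K) ∈ Lat D F L 0 := grad_mem hb (Place.mem_O.1 b.2)
  have dec : ∀ c ∈ L, c ≠ 0 → ∃ γ ∈ L, ∃ α ∈ L, ∃ β ∈ L, F.Ge 0 γ ∧ F.Ge 0 α ∧ F.Ge 0 β ∧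
      lg D c - (γ • lg D ϖ + α • grad D (a : K) + β • grad D (b : K)) ∈ Lat D F L 1 := by
    intro c hc hc0
    obtain ⟨n, hn⟩ := hdvd c hc
    have hu0 : c * ϖ ^ (-n) ≠ 0 := mul_ne_zero hc0 (zpow_ne_zero _ hϖ0)
    have hu : F.ord (c * ϖ ^ (-n)) = 0 := by
      rw [F.ord_mul hc0 (zpow_ne_zero _ hϖ0), F.ord_zpow, hn]; ring
    have huL : c * ϖ ^ (-n) ∈ L := mul_mem hc (zpow_mem hϖ _)
    have hinv : F.Ge 0 (c * ϖ ^ (-n))⁻¹ := Place.ge_of_le (by rw [F.ord_inv, hu]; simp)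
    obtain ⟨α, hα, β, hβ, a1, b1, r1⟩ :=
      grad_decomp (D := D) p (e := 1) (fun _ _ h => h) ha hb hab huL (Place.ge_of_le hu.ge)
    refine ⟨n, intCast_mem L n, (c * ϖ ^ (-n))⁻¹ * α, mul_mem (inv_mem huL) hα,
      (c * ϖ ^ (-n))⁻¹ * β, mul_mem (inv_mem huL) hβ, Place.ge_intCast n,
      hinv.mul' a1 (by simp), hinv.mul' b1 (by simp), ?_⟩
    have h1 := Lat_smul (inv_mem huL) hinv r1 (le_refl _)
    have h2 : lg D c = (n : K) • lg D ϖ + lg D (c * ϖ ^ (-n)) := by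
      rw [lg_mul hc0 (zpow_ne_zero _ hϖ0), lg_zpow hϖ0]; push_cast; rw [neg_smul]; abel
    rw [zero_add] at h1
    convert h1 using 1
    rw [h2]
    generalize lg D ϖ = θ
    ext i; simp only [lg, Pi.sub_apply, Pi.add_apply, Pi.smul_apply, smul_eq_mul]; ring
  have step : ∀ μ', LB D F L μ' → LB D F L (min ν (μ' + 1)) := by
    intro μ' h' c1 h1 c2 h2 c3 h3 n1 n2 n3
    obtain ⟨γ1, hγ1, α1, hα1, β1, hβ1, g1, a1, b1, r1⟩ := dec c1 h1 n1
    obtain ⟨γ2, hγ2, α2, hα2, β2, hβ2, g2, a2, b2, r2⟩ := dec c2 h2 n2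
    obtain ⟨γ3, hγ3, α3, hα3, β3, hβ3, g3, a3, b3, r3⟩ := dec c3 h3 n3
    have gϖ : lg D ϖ ∈ Lat D F L 0 := lg_mem hϖ hϖ0
    have e1 := add_mem (add_mem (Lat_smul hγ1 g1 gϖ (le_refl _)) (Lat_smul hα1 a1 ga (le_refl _)))
      (Lat_smul hβ1 b1 gb (le_refl _))
    have e2 := add_mem (add_mem (Lat_smul hγ2 g2 gϖ (le_refl _)) (Lat_smul hα2 a2 ga (le_refl _)))
      (Lat_smul hβ2 b2 gb (le_refl _))
    have t1 := h'.det r1 (lg_mem (D := D) h2 n2) (lg_mem (D := D) h3 n3)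
    have t2 := h'.det e1 r2 (lg_mem (D := D) h3 n3)
    have t3 := h'.det e1 e2 r3
    have t0 : F.Ge 0 (γ1 * (α2 * β3 - β2 * α3) - α1 * (γ2 * β3 - β2 * γ3) +
        β1 * (γ2 * α3 - α2 * γ3)) := by
      have m := fun {x y : K} (hx : F.Ge 0 x) (hy : F.Ge 0 y) => hx.mul' hy (l := 0) (by simp)
      exact ((m g1 ((m a2 b3).sub (m b2 a3))).sub (m a1 ((m g2 b3).sub (m b2 g3)))).add
        (m b1 ((m g2 a3).sub (m a2 g3)))
    have t4 := t0.mul' hν (l := min ν (μ' + 1)) (by simp)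
    have := (((t1.mono (m := min ν (μ' + 1)) (by simp)).add (t2.mono (by simp))).add
      (t3.mono (by simp))).add t4
    convert this using 1
    generalize lg D ϖ = θ
    generalize lg D c1 = θ1
    generalize lg D c2 = θ2
    generalize lg D c3 = θ3
    simp only [det3, Pi.sub_apply, Pi.add_apply, Pi.smul_apply, smul_eq_mul]; ring
  have : ∀ n : ℕ, LB D F L (min ν (μ + n)) := by
    intro n
    induction n with
    | zero => exact h.mono (by simp)
    | succ n ih => exact (step _ ih).mono (by push_cast; omega)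
  exact (this (ν - μ).toNat).mono (by omega)

end structure_

section action

/-- The fixed field of `σ` in `L`. -/
def Fx (σ : K ≃ₐ[k] K) (L : Subfield K) : Subfield K where
  carrier := {f | f ∈ L ∧ σ f = f}
  mul_mem' := fun ha hb => ⟨mul_mem ha.1 hb.1, by rw [map_mul, ha.2, hb.2]⟩
  one_mem' := ⟨one_mem _, map_one _⟩
  add_mem' := fun ha hb => ⟨add_mem ha.1 hb.1, by rw [map_add, ha.2, hb.2]⟩
  zero_mem' := ⟨zero_mem _, map_zero _⟩
  neg_mem' := fun ha => ⟨neg_mem ha.1, by rw [map_neg, ha.2]⟩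
  inv_mem' := fun _ ha => ⟨inv_mem ha.1, by rw [map_inv₀, ha.2]⟩

lemma mem_Fx {σ : K ≃ₐ[k] K} {L : Subfield K} {f : K} : f ∈ Fx σ L ↔ f ∈ L ∧ σ f = f := Iff.rfl

/-- Conjugate of a derivation. -/
def conjDer (σ : K ≃ₐ[k] K) (d : Derivation k K K) : Derivation k K K :=
  Derivation.mk' (σ.symm.toLinearMap ∘ₗ (d : K →ₗ[k] K) ∘ₗ σ.toLinearMap) (by
    intro a b; simp)

/-- The action on gradients. -/
def actG (D : Fin 3 → Derivation k K K) (x : Fin 3 → K) (σ : K ≃ₐ[k] K) :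
    Module.End k (Fin 3 → K) where
  toFun ξ := ∑ i, σ (ξ i) • grad D (σ (x i))
  map_add' a b := by simp [add_smul, Finset.sum_add_distrib]
  map_smul' c a := by simp [Finset.smul_sum]

lemma actG_smul (x : Fin 3 → K) (σ : K ≃ₐ[k] K) (f : K) (ξ : Fin 3 → K) :
    actG D x σ (f • ξ) = σ f • actG D x σ ξ := by
  simp [actG, Finset.smul_sum, mul_smul]

variable {x : Fin 3 → K} (hD : ∀ (d : Derivation k K K) (g : K), d g = ∑ i, D i g * d (x i))
include hD

lemma actG_grad (σ : K ≃ₐ[k] K) (g : K) : actG D x σ (grad D g) = grad D (σ g) := by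
  ext j
  have := congrArg σ (hD (conjDer σ (D j)) g)
  simpa [conjDer, actG, grad] using this.symm

lemma actG_lg (σ : K ≃ₐ[k] K) (g : K) : actG D x σ (lg D g) = lg D (σ g) := by
  rw [lg, actG_smul, actG_grad hD, lg, map_inv₀]

omit hD in
lemma ord_act {σ : K ≃ₐ[k] K} {L : Subfield K} {i : ℤ} (hi : 1 ≤ i)
    (hsh : ∀ f ∈ L, ∀ n, F.Ge n f → F.Ge (n + i) (σ f - f)) {a : K} (ha : a ∈ L) :
    F.ord (σ a) = F.ord a := by
  by_cases ha0 : a = 0
  · simp [ha0]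
  exact (Place.ord_eq_of_ge_sub ha0 ((hsh a ha _ (Place.ge_ord a)).mono (by omega))).2

lemma actG_shift {σ : K ≃ₐ[k] K} {L : Subfield K} (hσL : ∀ f ∈ L, σ f ∈ L) {i : ℤ} (hi : 1 ≤ i)
    (hsh : ∀ f ∈ L, ∀ n, F.Ge n f → F.Ge (n + i) (σ f - f)) {n : ℤ} {ξ : Fin 3 → K}
    (hξ : ξ ∈ Lat D F L n) : (actG D x σ - 1) ξ ∈ Lat D F L (n + i) := by
  induction hξ using AddSubgroup.closure_induction with
  | zero => rw [map_zero]; exact zero_mem _
  | add _ _ _ _ h1 h2 => rw [map_add]; exact add_mem h1 h2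
  | neg _ _ h1 => rw [map_neg]; exact neg_mem h1
  | mem ξ hx =>
    obtain ⟨f, a, hf, ha, ha0, h, rfl⟩ := hx
    have hσa0 : σ a ≠ 0 := by simpa using ha0
    have hε : F.Ge i ((σ a - a) / a) := by
      have := (hsh a ha _ (Place.ge_ord a)).mul (Place.ge_ord a⁻¹)
      rw [div_eq_mul_inv]; exact this.mono (by simp)
    have hεL : (σ a - a) / a ∈ L := div_mem (sub_mem (hσL a ha) ha) ha
    have hu : F.Ge 0 (a / σ a) := Place.ge_of_le (by rw [F.ord_div ha0 hσa0, ord_act hi hsh ha]; simp)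
    have h1 := Lat_smul (D := D) (mul_mem hf (div_mem ha (hσL a ha))) (h.mul hu)
      (grad_mem hεL hε) (l := n + i) (by simp)
    have h2 := Lat_gen (D := D) (sub_mem (hσL f hf) hf) (hσL a ha) hσa0 (hsh f hf n h)
    have h3 : grad D ((σ a - a) / a) = (σ a / a) • (lg D (σ a) - lg D a) := by
      have : (σ a - a) / a = σ a * a⁻¹ - 1 := by field_simp
      rw [this, grad_sub, grad_one, sub_zero, ← smul_lg (mul_ne_zero hσa0 (inv_ne_zero ha0)),
        lg_mul hσa0 (inv_ne_zero ha0), lg_inv ha0, div_eq_mul_inv, sub_eq_add_neg]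
    rw [h3, smul_smul, show f * (a / σ a) * (σ a / a) = f by field_simp] at h1
    convert add_mem h1 h2 using 1
    rw [LinearMap.sub_apply, actG_smul, actG_lg hD, Module.End.one_apply, smul_sub, sub_smul]; abel

omit hD in
lemma geom_char (p : ℕ) [hp : Fact p.Prime] [CharP k p] {V : Type} [AddCommGroup V] [Module k V]
    (S : Module.End k V) : ∑ j ∈ Finset.range p, S ^ j = (S - 1) ^ (p - 1) := by
  have h : (∑ j ∈ Finset.range p, (X : k[X]) ^ j) = (X - 1) ^ (p - 1) := by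
    have h0 : (X - 1 : k[X]) ≠ 0 := by simpa using X_sub_C_ne_zero (1 : k)
    apply mul_right_cancel₀ h0
    rw [geom_sum_mul, ← pow_succ, Nat.sub_add_cancel hp.out.one_le, sub_pow_char, one_pow]
  simpa using congrArg (aeval S) h

theorem drop (p : ℕ) [hp : Fact p.Prime] [CharP k p] [CharP K p] {σ : K ≃ₐ[k] K} {L : Subfield K}
    (hσL : ∀ f ∈ L, σ f ∈ L) (hσp : ∀ f ∈ L, (σ ^ p) f = f) (hne : ∃ f ∈ L, σ f ≠ f)
    (hv : ∃ c ∈ L, F.ord c ≠ 0) {i : ℤ} (hi : 1 ≤ i)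
    (hsh : ∀ f ∈ L, ∀ n, F.Ge n f → F.Ge (n + i) (σ f - f))
    (hdep : Dep p (Fx σ L) (p ^ 3)) {μ : ℤ} (h : LB D F L μ) :
    LB D F (Fx σ L) (μ + (p - 1 : ℕ) * i) := by
  have hpowL : ∀ j : ℕ, ∀ f ∈ L, (σ ^ j) f ∈ L := by
    intro j f hf
    induction j with
    | zero => simpa using hf
    | succ j ih => rw [pow_succ']; exact hσL _ ih
  have hpoword : ∀ j : ℕ, ∀ f ∈ L, F.ord ((σ ^ j) f) = F.ord f := by
    intro j f hf
    induction j with
    | zero => simp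
    | succ j ih => rw [pow_succ', AlgEquiv.mul_apply, ord_act hi hsh (hpowL j f hf), ih]
  let N : K → K := fun a => ∏ j ∈ Finset.range p, (σ ^ j) a
  have hN0 : ∀ a, a ≠ 0 → N a ≠ 0 := fun a ha =>
    Finset.prod_ne_zero_iff.2 fun j _ => (_root_.map_ne_zero (σ ^ j)).2 ha
  have hNL : ∀ a ∈ L, N a ∈ Fx σ L := by
    intro a ha
    refine ⟨prod_mem fun j _ => hpowL j a ha, ?_⟩
    by_cases ha0 : a = 0
    · have : N a = 0 := Finset.prod_eq_zero (Finset.mem_range.2 hp.out.pos) (by simp [ha0])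
      rw [this, map_zero]
    apply mul_right_cancel₀ ha0
    have h1 := Finset.prod_range_succ' (fun j => (σ ^ j) a) p
    have h2 := Finset.prod_range_succ (fun j => (σ ^ j) a) p
    rw [h2, hσp a ha] at h1
    simp only [N, map_prod]
    rw [h1]
    simp [pow_succ']
  have hNord : ∀ a ∈ L, a ≠ 0 → F.ord (N a) = p * F.ord a := by
    intro a ha ha0
    rw [F.ord_prod _ _ fun j _ => (_root_.map_ne_zero (σ ^ j)).2 ha0, Finset.sum_congr rfl fun j _ => hpoword j a ha]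
    simp
  have hNlg : ∀ a ∈ L, a ≠ 0 → lg D (N a) ∈ Lat D F L ((p - 1 : ℕ) * i) := by
    intro a ha ha0
    have h1 : ∀ j : ℕ, lg D ((σ ^ j) a) = (actG D x σ ^ j) (lg D a) := by
      intro j
      induction j with
      | zero => simp
      | succ j ih => rw [pow_succ', pow_succ', AlgEquiv.mul_apply, Module.End.mul_apply, ← ih,
          actG_lg hD]
    have h2 : ∀ j : ℕ, ((actG D x σ - 1) ^ j) (lg D a) ∈ Lat D F L (j * i) := by
      intro j
      induction j with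
      | zero => simpa using lg_mem ha ha0
      | succ j ih =>
        rw [pow_succ', Module.End.mul_apply]
        exact Lat_mono (actG_shift hD hσL hi hsh ih) (by push_cast; linarith)
    rw [lg_prod _ _ fun j _ => (_root_.map_ne_zero (σ ^ j)).2 ha0, Finset.sum_congr rfl fun j _ => h1 j,
      ← LinearMap.sum_apply, geom_char p]
    exact h2 _
  have hle : Fx σ L ≤ L := fun f hf => hf.1
  obtain ⟨ϖ, hϖ, hϖ0, he, hdvd⟩ := exists_unif hv
  have hp0 : (0 : ℤ) < p := by exact_mod_cast hp.out.pos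
  obtain ⟨ϖ', hϖ', hϖ0', he', hdvd'⟩ := exists_unif (F := F) (L := Fx σ L)
    ⟨N ϖ, hNL ϖ hϖ, by rw [hNord ϖ hϖ hϖ0]; positivity⟩
  obtain ⟨t, ht⟩ := hdvd ϖ' hϖ'.1
  have ht0 : 0 < t := by
    by_contra h0
    have : F.ord ϖ * t ≤ 0 := mul_nonpos_of_nonneg_of_nonpos he.le (by omega)
    omega
  have htp : t ∣ (p : ℤ) := by
    have := hdvd' _ (hNL ϖ hϖ)
    rw [hNord ϖ hϖ hϖ0, ht, mul_comm (p : ℤ)] at this
    exact (mul_dvd_mul_iff_left he.ne').1 this
  have ht1 : t = 1 ∨ t = p := by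
    obtain ⟨n, rfl⟩ := Int.eq_ofNat_of_zero_le ht0.le
    rcases (Nat.dvd_prime hp.out).1 (Int.natCast_dvd_natCast.1 htp) with h | h <;> simp [h]
  rcases ht1 with rfl | rfl
  · rw [mul_one] at ht
    have hex : ∃ α : F.O, (α : K) ∈ L ∧ IsLocalRing.residue F.O α ∉ resSub F (Fx σ L) := by
      by_contra hcon
      push Not at hcon
      have key : ∀ n : ℕ, ∀ f ∈ L, F.Ge 0 f → F.Ge n (σ f - f) := by
        intro n
        induction n with
        | zero => exact fun f hf h0 => (hsh f hf 0 h0).mono (by simp; omega)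
        | succ n ih =>
          intro f hf h0
          obtain ⟨c, hc, hres⟩ := hcon ⟨f, Place.mem_O.2 h0⟩ hf
          have h1 : F.Ge (F.ord ϖ) (f - c) :=
            ge_unif he hdvd (sub_mem hf hc.1) (res_eq_iff.1 hres.symm)
          have h2 : F.Ge 0 ((f - c) * ϖ'⁻¹) := h1.mul' (Place.ge_ord _) (by simp [ht])
          have h3 := ih _ (mul_mem (sub_mem hf hc.1) (inv_mem hϖ'.1)) h2
          have h4 := h3.mul' (Place.ge_ord ϖ') (l := (n + 1 : ℕ)) (by push_cast; omega)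
          convert h4 using 1
          rw [map_mul, map_sub, map_inv₀, hc.2, hϖ'.2]; field_simp; ring
      have key2 : ∀ f ∈ L, F.Ge 0 f → σ f = f := by
        intro f hf h0
        by_contra hne
        have := (key (F.ord (σ f - f) + 1).toNat f hf h0).le (sub_ne_zero.2 hne)
        omega
      obtain ⟨f, hf, hne⟩ := hne
      rcases le_total 0 (F.ord f) with h0 | h0
      · exact hne (key2 f hf (Place.ge_of_le h0))
      · have := key2 f⁻¹ (inv_mem hf) (Place.ge_of_le (by simp [h0]))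
        rw [map_inv₀] at this
        exact hne (inv_injective this)
    obtain ⟨α, hα, hαr⟩ := hex
    have hα1 : ¬ F.Ge 1 (α : K) := fun h1 => hαr (by rw [res_eq_zero.2 h1]; exact zero_mem _)
    obtain ⟨hα0, hαo⟩ := Place.not_ge_iff.1 hα1
    have hαo' : F.ord (α : K) = 0 := by have := (Place.mem_O.1 α.2).le hα0; omega
    have hc : ∀ j : ℕ, F.Ge 0 ((σ ^ j) α) := fun j => Place.ge_of_le (by rw [hpoword j _ hα, hαo'])
    let c : ℕ → F.O := fun j => ⟨(σ ^ j) α, Place.mem_O.2 (hc j)⟩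
    have hcres : ∀ j, IsLocalRing.residue F.O (c j) = IsLocalRing.residue F.O α := by
      intro j
      induction j with
      | zero => exact congrArg _ (Subtype.ext (by simp [c]))
      | succ j ih =>
        rw [← ih, res_eq_iff]
        have := hsh _ (hpowL j _ hα) 0 (hc j)
        simp only [c, pow_succ', AlgEquiv.mul_apply]
        exact this.mono (by omega)
    let a : F.O := ∏ j ∈ Finset.range p, c j
    have ha : (a : K) = N α := by simp [a, c, N]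
    have hares : IsLocalRing.residue F.O a = IsLocalRing.residue F.O α ^ p := by
      simp [a, hcres]
    have haL : (a : K) ∈ Fx σ L := ha ▸ hNL _ hα
    obtain ⟨_, ⟨b, hb, rfl⟩, -, hab⟩ := exists_pbasis_of p (dep_res p hdep hϖ' hϖ0' he' hdvd')
      (a := IsLocalRing.residue F.O a) ⟨a, haL, rfl⟩ (by
        rw [hares, mem_Pw]
        rintro ⟨y, hy, hy'⟩
        have : y = IsLocalRing.residue F.O α :=
          frobenius_inj _ p (by simpa [frobenius_def] using hy')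
        exact hαr (this ▸ hy))
    refine (h.anti hle).improve p hϖ' hϖ0' he' hdvd' haL hb hab ?_
    have h1 : grad D (a : K) ∈ Lat D F L ((p - 1 : ℕ) * i) := by
      rw [← smul_lg (ha ▸ hN0 _ hα0)]
      refine Lat_smul haL.1 (Place.mem_O.1 a.2) ?_ (le_of_eq (zero_add _).symm)
      rw [ha]; exact hNlg _ hα hα0
    simpa using h.det (lg_mem hϖ'.1 hϖ0') h1 (grad_mem hb.1 (Place.mem_O.1 b.2))
  · have hord : F.ord (N ϖ) = F.ord ϖ' := by rw [hNord ϖ hϖ hϖ0, ht, mul_comm]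
    obtain ⟨_, ⟨a, ha, rfl⟩, _, ⟨b, hb, rfl⟩, -, -, hab⟩ :=
      exists_pbasis p (dep_res p hdep hϖ' hϖ0' he' hdvd')
    refine (h.anti hle).improve p (hNL ϖ hϖ) (hN0 ϖ hϖ0) (hord ▸ he') (hord ▸ hdvd') ha hb hab ?_
    simpa using h.det (hNlg ϖ hϖ hϖ0) (grad_mem ha.1 (Place.mem_O.1 a.2))
      (grad_mem hb.1 (Place.mem_O.1 b.2))

end action

end Pool.Agent.Lib.MP_5f81cf_ag
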