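import Pool.Agent.Lib.MP_5f81cf_ag.Chart
import Pool.Agent.Lib.MP_5f81cf_ag.Log

/-! Derivations and monomial places attached to a chart. -/

namespace Pool.Agent.Lib.MP_5f81cf_ag

open Pool.Agent.Lib.MP_e06174_ag MvPowerSeries Finsupp

variable {ι k A : Type} [Field k] [CommRing A] [Algebra k A] {m : Ideal A}

lemma krull_mem [IsNoetherianRing A] (hm : m ≠ ⊤) (J : Ideal A) {a : A}
    (h : ∀ M, a ∈ J ⊔ m ^ M) : ∃ u, u ∉ m ∧ u * a ∈ J := by
  have h1 : Ideal.Quotient.mk J a ∈ (⨅ i : ℕ, m ^ i • ⊤ : Submodule A (A ⧸ J)) := by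
    rw [Submodule.mem_iInf]
    intro M
    obtain ⟨j, hj, r, hr, rfl⟩ := Submodule.mem_sup.1 (h M)
    rw [map_add, Ideal.Quotient.eq_zero_iff_mem.2 hj, zero_add]
    have : Ideal.Quotient.mk J r = r • (1 : A ⧸ J) := by
      rw [Algebra.smul_def, mul_one]; rfl
    rw [this]; exact Submodule.smul_mem_smul hr trivial
  obtain ⟨r, hr⟩ := (Ideal.mem_iInf_smul_pow_eq_bot_iff m _).1 h1
  refine ⟨1 - r, fun hu => hm ((Ideal.eq_top_iff_one _).2 (by simpa using add_mem hu r.2)), ?_⟩
  rw [← Ideal.Quotient.eq_zero_iff_mem, map_mul, map_sub, map_one, sub_mul, one_mul, sub_eq_zero]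
  exact hr.symm

namespace Chart

variable (C : Chart ι k m)

lemma T_aeval (P : MvPolynomial ι k) : C.T (MvPolynomial.aeval C.x P) = P := by
  induction P using MvPolynomial.induction_on with
  | C a => rw [MvPolynomial.algHom_C, AlgHom.commutes, MvPolynomial.coe_C]; rfl
  | add p q hp hq => rw [map_add, map_add, hp, hq, MvPolynomial.coe_add]
  | mul_X p i hp => rw [map_mul, map_mul, hp, MvPolynomial.aeval_X, C.T_x, MvPolynomial.coe_mul,
      MvPolynomial.coe_X]

lemma mem_iff (a : A) : a ∈ m ↔ WGe (fun _ => 1) 1 (C.T a) := by rw [C.mem_pow, pow_one]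

lemma x_mem (i : ι) : C.x i ∈ m := by rw [C.mem_iff, C.T_x]; exact wge_X i

lemma mem_iff_coeff (a : A) : a ∈ m ↔ coeff 0 (C.T a) = 0 := by
  rw [C.mem_iff]
  refine ⟨fun h => h 0 (by simp), fun h d hd => ?_⟩
  have : d = 0 := by
    by_contra h0
    obtain ⟨i, hi⟩ := Finsupp.ne_iff.1 h0
    have := Finsupp.le_weight (fun _ : ι => (1 : ℕ)) (s := i) one_ne_zero d
    simp only [coe_zero, Pi.zero_apply] at hi
    omega
  rw [this, h]

include C in
lemma ne_top : m ≠ ⊤ := by
  intro h
  have := (C.mem_iff_coeff 1).1 (h ▸ trivial)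
  simp at this

lemma isUnit_T {u : A} (hu : u ∉ m) : IsUnit (C.T u) := by
  rw [MvPowerSeries.isUnit_iff_constantCoeff, isUnit_iff_ne_zero]
  exact fun h => hu ((C.mem_iff_coeff u).2 h)

lemma not_wge_one {u : A} (hu : u ∉ m) (w : ι → ℕ) : ¬ WGe w 1 (C.T u) :=
  fun h => hu ((C.mem_iff_coeff u).2 (h 0 (by simp)))

lemma injective [IsNoetherianRing A] [IsDomain A] : Function.Injective C.T := by
  rw [injective_iff_map_eq_zero]
  intro a ha
  obtain ⟨u, hu, h⟩ := krull_mem C.ne_top ⊥ (a := a) fun M =>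
    Ideal.mem_sup_right ((C.mem_pow M a).1 (ha ▸ wge_zero))
  exact (mul_eq_zero.1 h).resolve_left fun h0 => hu (h0 ▸ zero_mem _)

lemma algInd : AlgebraicIndependent k C.x := by
  rw [algebraicIndependent_iff]
  intro P hP
  have := C.T_aeval P
  rw [hP, map_zero] at this
  exact MvPolynomial.coe_eq_zero_iff.1 this.symm

variable [Finite ι]

lemma exists_trunc (φ : MvPowerSeries ι k) (M : ℕ) : ∃ P : MvPolynomial ι k,
    WGe (fun _ => 1) M (φ - (P : MvPowerSeries ι k)) ∧ ∀ d, coeff d φ = 0 → P.coeff d = 0 := by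
  refine ⟨truncTotal M φ, fun d hd => ?_, fun d hd => ?_⟩
  · rw [map_sub, MvPolynomial.coeff_coe, coeff_truncTotal _ (by rwa [degree_eq_weight_one]),
      sub_self]
  · rw [coeff_truncTotal_eq_ite, hd, ite_self]

lemma exists_poly (a : A) (M : ℕ) : ∃ P : MvPolynomial ι k,
    a - MvPolynomial.aeval C.x P ∈ m ^ M ∧ ∀ w n, WGe w n (C.T a) → WGe w n (P : MvPowerSeries ι k) := by
  obtain ⟨P, h1, h2⟩ := exists_trunc (C.T a) M
  refine ⟨P, (C.mem_pow _ _).1 (by rwa [map_sub, C.T_aeval]), fun w n h d hd => ?_⟩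
  rw [MvPolynomial.coeff_coe, h2 d (h d hd)]

omit [Finite ι] in
include C in
lemma exists_const (a : A) : ∃ c : k, a - algebraMap k A c ∈ m := by
  refine ⟨coeff 0 (C.T a), ?_⟩
  rw [C.mem_iff_coeff, map_sub, map_sub, AlgHom.commutes]
  simp [MvPowerSeries.algebraMap_apply]

lemma mem_of_wge {w : ι → ℕ} (J : ℕ → Ideal A) (hJ0 : J 0 = ⊤)
    (hJ : ∀ n i, ∀ a ∈ J n, a * C.x i ∈ J (n + w i)) (hanti : ∀ n l, l ≤ n → J n ≤ J l)
    {n : ℕ} {a : A} (h : WGe w n (C.T a)) (M : ℕ) : a ∈ J n ⊔ m ^ M := by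
  obtain ⟨P, h1, h2⟩ := C.exists_poly a M
  have : MvPolynomial.aeval C.x P ∈ J n := by
    refine wge_poly_induction (p := fun n P => MvPolynomial.aeval C.x P ∈ J n) ?_ ?_ ?_ ?_ ?_
      (h2 w n h)
    · simp [hJ0]
    · intro n P i h
      rw [map_mul, MvPolynomial.aeval_X]; exact hJ _ _ _ h
    · simp
    · intro n P Q h1 h2; rw [map_add]; exact add_mem h1 h2
    · intro n l P h h1; exact hanti _ _ h h1
  simpa using add_mem (Ideal.mem_sup_left this) (Ideal.mem_sup_right h1)

/-- An element whose expansion lies in the ideal of some variables. -/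
lemma mem_vars [IsNoetherianRing A] {w : ι → ℕ} (J : Ideal A) (hJ : ∀ i, w i ≠ 0 → C.x i ∈ J)
    {a : A} (h : WGe w 1 (C.T a)) : ∃ u, u ∉ m ∧ u * a ∈ J := by
  refine krull_mem C.ne_top J fun M => ?_
  have := C.mem_of_wge (w := w) (fun n => if n = 0 then ⊤ else J) (by simp) (fun n i a ha => ?_)
    (fun n l hl => ?_) h M
  · simpa using this
  · by_cases h1 : n + w i = 0
    · simp [h1]
    rw [if_neg h1]
    by_cases h2 : n = 0
    · exact Ideal.mul_mem_left _ _ (hJ i (by omega))
    · rw [if_neg h2] at ha; exact Ideal.mul_mem_right _ _ ha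
  · by_cases h1 : l = 0
    · simp [h1]
    · rw [if_neg h1, if_neg (by omega)]

/-- An automorphism moving the coordinates by higher weight moves everything. -/
lemma shift {w : ι → ℕ} (σ : A →ₐ[k] A) (hσ : ∀ a ∈ m, σ a ∈ m) (i c : ℕ)
    (h1 : ∀ j, WGe w (min (w j + i) c) (C.T (σ (C.x j)) - X j))
    (h2 : ∀ j, WGe w (w j) (C.T (σ (C.x j)))) {n : ℕ} {a : A} (h : WGe w n (C.T a)) :
    WGe w (min (n + i) c) (C.T (σ a) - C.T a) := by
  intro d hd
  obtain ⟨P, hP1, hP2⟩ := C.exists_poly a (weight (fun _ => 1) d + 1)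
  have h3 := wge_subst_sub (C.T.comp (σ.comp (MvPolynomial.aeval C.x))) i c
    (by simpa using h1) (by simpa using h2) (hP2 w n h) d hd
  have h4 : σ (a - MvPolynomial.aeval C.x P) ∈ m ^ (weight (fun _ => 1) d + 1) := by
    have : (m ^ (weight (fun _ => 1) d + 1)).map σ ≤ m ^ (weight (fun _ => 1) d + 1) := by
      rw [Ideal.map_pow]; exact Ideal.pow_right_mono (Ideal.map_le_iff_le_comap.2 hσ) _
    exact this (Ideal.mem_map_of_mem _ hP1)
  have h5 := ((C.mem_pow _ _).2 h4) d (by omega)
  have h6 := ((C.mem_pow _ _).2 hP1) d (by omega)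
  simp only [map_sub, AlgHom.comp_apply, C.T_aeval] at h3 h5 h6 ⊢
  linear_combination h3 + h5 - h6

end Chart

section omega

variable [Fintype ι]

lemma exists_omega_span [Algebra.FiniteType k A] (hm : m ≠ ⊤) {x : ι → A}
    (happ : ∀ a : A, ∃ P : MvPolynomial ι k, a - MvPolynomial.aeval x P ∈ m ^ 2) :
    ∃ u, u ∉ m ∧ ∀ a : A, ∃ c : ι → A,
      u • KaehlerDifferential.D k A a = ∑ i, c i • KaehlerDifferential.D k A (x i) := by
  let N : Submodule A Ω[A⁄k] := Submodule.span A (Set.range fun i => KaehlerDifferential.D k A (x i))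
  have hP : ∀ P : MvPolynomial ι k, KaehlerDifferential.D k A (MvPolynomial.aeval x P) ∈ N := by
    intro P
    induction P using MvPolynomial.induction_on with
    | C a => simp
    | add p q hp hq => rw [map_add, map_add]; exact add_mem hp hq
    | mul_X p i hp =>
      rw [map_mul, Derivation.leibniz, MvPolynomial.aeval_X]
      exact add_mem (N.smul_mem _ (Submodule.subset_span ⟨i, rfl⟩)) (N.smul_mem _ hp)
  have hsq : ∀ r ∈ m ^ 2, KaehlerDifferential.D k A r ∈ m • (⊤ : Submodule A Ω[A⁄k]) := by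
    intro r hr
    rw [sq] at hr
    refine Submodule.mul_induction_on hr (fun a ha b hb => ?_) fun a b h1 h2 => ?_
    · rw [Derivation.leibniz]
      exact add_mem (Submodule.smul_mem_smul ha trivial) (Submodule.smul_mem_smul hb trivial)
    · rw [map_add]; exact add_mem h1 h2
  have hle : (⊤ : Submodule A Ω[A⁄k]) ≤ N ⊔ m • ⊤ := by
    conv_lhs => rw [← KaehlerDifferential.span_range_derivation]
    rw [Submodule.span_le]
    rintro _ ⟨a, rfl⟩
    obtain ⟨P, h⟩ := happ a
    have := add_mem (Submodule.mem_sup_left (hP P) : _ ∈ N ⊔ m • ⊤)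
      (Submodule.mem_sup_right (hsq _ h))
    simpa using this
  obtain ⟨r, hr1, hr2⟩ := Submodule.exists_sub_one_mem_and_smul_le_of_fg_of_le_sup
    (Module.Finite.fg_top (R := A) (M := Ω[A⁄k])) le_rfl hle
  refine ⟨r, fun h => hm ((Ideal.eq_top_iff_one _).2 (by simpa using sub_mem h hr1)), fun a => ?_⟩
  have : r • KaehlerDifferential.D k A a ∈ N := hr2 (Submodule.smul_mem_pointwise_smul _ _ _ trivial)
  obtain ⟨c, hc⟩ := (Submodule.mem_span_range_iff_exists_fun A).1 this
  exact ⟨c, hc.symm⟩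

variable {K : Type} [Field K] [Algebra A K] [IsFractionRing A K] [Algebra k K] [IsScalarTower k A K]

lemma exists_extend (d : Derivation k A K) :
    ∃ d' : Derivation k K K, ∀ a, d' (algebraMap A K a) = d a := by
  have := Algebra.FormallyEtale.of_isLocalization (Rₘ := K) (nonZeroDivisors A)
  have h := KaehlerDifferential.isBaseChange_of_formallyEtale k A K
  refine ⟨(h.lift d.liftKaehlerDifferential).compDer (KaehlerDifferential.D k K), fun a => ?_⟩
  have h1 := h.lift_eq d.liftKaehlerDifferential (KaehlerDifferential.D k A a)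
  rw [KaehlerDifferential.map_D, Derivation.liftKaehlerDifferential_comp_D] at h1
  exact h1

omit [Fintype ι] [IsScalarTower k A K] in
lemma frac_induction [IsDomain A] {p : K → Prop} (h1 : ∀ a : A, p (algebraMap A K a))
    (h2 : ∀ a b : A, b ≠ 0 → p (algebraMap A K a) → p (algebraMap A K b) →
      p (algebraMap A K a / algebraMap A K b)) (g : K) : p g := by
  obtain ⟨a, b, hb, rfl⟩ := IsFractionRing.div_surjective (A := A) g
  exact h2 a b (nonZeroDivisors.ne_zero hb) (h1 a) (h1 b)

lemma der_span [IsDomain A] {x : ι → A} {u : A} (hu : u ≠ 0) (h : ∀ a : A, ∃ c : ι → A,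
      u • KaehlerDifferential.D k A a = ∑ i, c i • KaehlerDifferential.D k A (x i))
    {M : Type} [AddCommGroup M] [Module K M] [Module k M] [IsScalarTower k K M]
    (d : Derivation k K M) (hd : ∀ i, d (algebraMap A K (x i)) = 0) (g : K) : d g = 0 := by
  letI : Module A M := Module.compHom M (algebraMap A K)
  have : IsScalarTower A K M := IsScalarTower.of_algebraMap_smul fun _ _ => rfl
  have : IsScalarTower k A M := IsScalarTower.of_algebraMap_smul fun c z => by
    change algebraMap A K (algebraMap k A c) • z = c • z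
    rw [← IsScalarTower.algebraMap_apply, algebraMap_smul]
  refine frac_induction (A := A) (p := fun g => d g = 0) (fun a => ?_) (fun a b _ h1 h2 => ?_) g
  · obtain ⟨c, hc⟩ := h a
    have h1 := congrArg (d.compAlgebraMap A).liftKaehlerDifferential hc
    simp only [map_smul, map_sum, Derivation.liftKaehlerDifferential_comp_D,
      Derivation.compAlgebraMap_apply, hd, smul_zero, Finset.sum_const_zero] at h1
    exact (smul_eq_zero.1 (show algebraMap A K u • d (algebraMap A K a) = 0 from h1)).resolve_left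
      (by simpa using hu)
  · rw [Derivation.leibniz_div, h1, h2]; simp

lemma finite_of_span [IsDomain A] [Algebra.FiniteType k A] (hm : m ≠ ⊤) {x : ι → A}
    (happ : ∀ a : A, ∃ P : MvPolynomial ι k, a - MvPolynomial.aeval x P ∈ m ^ 2) :
    Module.Finite (IntermediateField.adjoin k (Set.range fun i => algebraMap A K (x i))) K := by
  obtain ⟨u, hu, h⟩ := exists_omega_span hm happ
  set L := IntermediateField.adjoin k (Set.range fun i => algebraMap A K (x i))
  have : Algebra.EssFiniteType A K := Algebra.EssFiniteType.of_isLocalization K (nonZeroDivisors A)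
  have : Algebra.EssFiniteType k K := Algebra.EssFiniteType.comp k A K
  have : Algebra.EssFiniteType L K := Algebra.EssFiniteType.of_comp k L K
  have h0 := der_span (u := u) (fun h0 => hu (h0 ▸ zero_mem _)) h
    ((KaehlerDifferential.D L K).restrictScalars k) fun i =>
      (KaehlerDifferential.D L K).map_algebraMap
        ⟨_, IntermediateField.subset_adjoin k _ ⟨i, rfl⟩⟩
  have : Algebra.FormallyUnramified L K := ⟨by
    rw [← Submodule.subsingleton_iff K, ← subsingleton_iff_bot_eq_top,
      ← KaehlerDifferential.span_range_derivation, eq_comm, Submodule.span_eq_bot]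
    rintro _ ⟨g, rfl⟩; exact h0 g⟩
  have := Algebra.FormallyUnramified.isSeparable L K
  exact Algebra.finite_of_essFiniteType_of_isAlgebraic

omit [Fintype ι] in
lemma der_sum_apply {K : Type} [Field K] [Algebra k K] (s : Finset ι) (d : ι → Derivation k K K)
    (g : K) : (∑ i ∈ s, d i) g = ∑ i ∈ s, d i g := by
  classical
  induction s using Finset.induction_on with
  | empty => simp
  | insert a s ha ih => rw [Finset.sum_insert ha, Finset.sum_insert ha, Derivation.add_apply, ih]

lemma Chart.exists_der [IsDomain A] [IsNoetherianRing A] [Algebra.FiniteType k A]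
    (C : Chart ι k m) : ∃ (D : ι → Derivation k K K) (u : A), u ∉ m ∧
      (∀ (d : Derivation k K K) (g : K), d g = ∑ i, D i g * d (algebraMap A K (C.x i))) ∧
      ∀ a i, ∃ c : A, algebraMap A K u * D i (algebraMap A K a) = algebraMap A K c ∧
        C.T c = C.T u * pderiv k i (C.T a) := by
  classical
  obtain ⟨u, hu, h⟩ := exists_omega_span C.ne_top fun a => (C.exists_poly a 2).imp fun _ h => h.1
  have hu0 : u ≠ 0 := fun h0 => hu (h0 ▸ zero_mem _)
  have huK : algebraMap A K u ≠ 0 := by simpa using hu0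
  have h' := h
  choose c hc using h
  have hT : ∀ a i, C.T (c a i) = C.T u * pderiv k i (C.T a) := by
    intro a i
    letI : Algebra A (MvPowerSeries ι k) := C.T.toRingHom.toAlgebra
    have : IsScalarTower k A (MvPowerSeries ι k) :=
      IsScalarTower.of_algebraMap_eq fun r => (C.T.commutes r).symm
    have h1 := congrArg ((pderiv k i).compAlgebraMap A).liftKaehlerDifferential (hc a)
    simp only [map_smul, map_sum, Derivation.liftKaehlerDifferential_comp_D,
      Derivation.compAlgebraMap_apply, Algebra.smul_def] at h1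
    change C.T u * pderiv k i (C.T a) = ∑ j, C.T (c a j) * pderiv k i (C.T (C.x j)) at h1
    rw [h1, Finset.sum_eq_single i]
    · rw [C.T_x, pderiv_X_self, mul_one]
    · intro j _ hj; rw [C.T_x, pderiv_X_of_ne hj, mul_zero]
    · simp
  let d : ι → Derivation k A K := fun i => Derivation.mk'
    { toFun := fun a => algebraMap A K (c a i) / algebraMap A K u
      map_add' := fun a b => by
        rw [show c (a + b) i = c a i + c b i from C.injective (by simp only [map_add, hT, mul_add]),
          map_add, add_div]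
      map_smul' := fun r a => by
        rw [show c (r • a) i = r • c a i from C.injective (by
          simp only [map_smul, hT, Derivation.map_smul, mul_smul_comm]), RingHom.id_apply, Algebra.smul_def,
          Algebra.smul_def, map_mul, ← IsScalarTower.algebraMap_apply, mul_div_assoc] }
    (fun a b => by
      change algebraMap A K (c (a * b) i) / algebraMap A K u =
        a • (algebraMap A K (c b i) / algebraMap A K u) +
          b • (algebraMap A K (c a i) / algebraMap A K u)
      rw [show c (a * b) i = a * c b i + b * c a i from C.injective (by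
        simp only [map_add, map_mul, hT, Derivation.leibniz, smul_eq_mul]; ring),
        Algebra.smul_def, Algebra.smul_def, map_add, map_mul, map_mul]; ring)
  choose D hD using fun i => exists_extend (d i)
  have hD' : ∀ a i, algebraMap A K u * D i (algebraMap A K a) = algebraMap A K (c a i) := by
    intro a i
    rw [hD]; exact mul_div_cancel₀ _ huK
  refine ⟨D, u, hu, fun e g => ?_, fun a i => ⟨c a i, hD' a i, hT a i⟩⟩
  have := der_span hu0 h' (e - ∑ i, e (algebraMap A K (C.x i)) • D i) (fun j => by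
    have : ∀ i, D i (algebraMap A K (C.x j)) = if j = i then 1 else 0 := by
      intro i
      apply mul_left_cancel₀ huK
      rw [hD', show c (C.x j) i = u * if j = i then 1 else 0 from C.injective (by
        rw [hT, C.T_x, pderiv_X, map_mul]; split_ifs <;> simp_all)]
      split_ifs <;> simp
    simp [der_sum_apply, this]) g
  rw [Derivation.sub_apply, sub_eq_zero] at this
  rw [this]
  simp [der_sum_apply, mul_comm]

end omega

section place

variable {K : Type} [Field K] [Algebra A K] [IsFractionRing A K] [Algebra k K] [IsScalarTower k A K]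
  [IsDomain A] [IsNoetherianRing A]

omit [IsNoetherianRing A] in
lemma exists_place_of_ord (oA : A → ℤ)
    (hmul : ∀ a b : A, a ≠ 0 → b ≠ 0 → oA (a * b) = oA a + oA b)
    (hadd : ∀ a b : A, a ≠ 0 → b ≠ 0 → a + b ≠ 0 → min (oA a) (oA b) ≤ oA (a + b))
    (hconst : ∀ c : k, c ≠ 0 → oA (algebraMap k A c) = 0)
    (hs : ∃ a b, a ≠ 0 ∧ b ≠ 0 ∧ oA a = oA b + 1) :
    ∃ F : Place k K, ∀ a, a ≠ 0 → F.ord (algebraMap A K a) = oA a := by
  let o : K → ℤ := fun g => oA (IsLocalization.sec (nonZeroDivisors A) g).1 -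
    oA (IsLocalization.sec (nonZeroDivisors A) g).2
  have ho : ∀ a b : A, a ≠ 0 → b ≠ 0 → o (algebraMap A K a / algebraMap A K b) = oA a - oA b := by
    intro a b ha hb
    have h1 := IsLocalization.sec_spec (nonZeroDivisors A) (algebraMap A K a / algebraMap A K b)
    set s := IsLocalization.sec (nonZeroDivisors A) (algebraMap A K a / algebraMap A K b)
    have hbK : algebraMap A K b ≠ 0 := by simpa using hb
    have hs2 : (s.2 : A) ≠ 0 := nonZeroDivisors.coe_ne_zero _
    have h2 : a * s.2 = s.1 * b := IsFractionRing.injective A K (by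
      rw [map_mul, map_mul, ← h1]; field_simp)
    have hs1 : s.1 ≠ 0 := fun h => by
      rw [h, zero_mul] at h2; exact mul_ne_zero ha hs2 h2
    have h3 := congrArg oA h2
    rw [hmul _ _ ha hs2, hmul _ _ hs1 hb] at h3
    change oA s.1 - oA s.2 = _
    omega
  have ho1 : oA 1 = 0 := by have := hmul 1 1 one_ne_zero one_ne_zero; rw [mul_one] at this; omega
  have ho' : ∀ a : A, a ≠ 0 → o (algebraMap A K a) = oA a := fun a ha => by
    have := ho a 1 ha one_ne_zero
    rw [map_one, div_one, ho1, sub_zero] at this; exact this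
  have hrep : ∀ g : K, g ≠ 0 → ∃ a b : A, a ≠ 0 ∧ b ≠ 0 ∧
      g = algebraMap A K a / algebraMap A K b := by
    intro g hg
    obtain ⟨a, b, hb, rfl⟩ := IsFractionRing.div_surjective (A := A) g
    exact ⟨a, b, fun h => hg (by simp [h]), nonZeroDivisors.ne_zero hb, rfl⟩
  refine ⟨Place.ofOrd o ?_ ?_ ?_ ?_, fun a ha => ?_⟩
  · intro x y hx hy
    obtain ⟨a, b, ha, hb, rfl⟩ := hrep x hx
    obtain ⟨c, d, hc, hd, rfl⟩ := hrep y hy
    rw [div_mul_div_comm, ← map_mul, ← map_mul, ho _ _ (mul_ne_zero ha hc) (mul_ne_zero hb hd),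
      ho _ _ ha hb, ho _ _ hc hd, hmul _ _ ha hc, hmul _ _ hb hd]; ring
  · intro x y hx hy hxy
    obtain ⟨a, b, ha, hb, rfl⟩ := hrep x hx
    obtain ⟨c, d, hc, hd, rfl⟩ := hrep y hy
    have hbK : algebraMap A K b ≠ 0 := by simpa using hb
    have hdK : algebraMap A K d ≠ 0 := by simpa using hd
    rw [div_add_div _ _ hbK hdK, ← map_mul, ← map_mul, ← map_mul, ← map_add] at hxy ⊢
    have h0 : a * d + b * c ≠ 0 := fun h => hxy (by simp [h])
    have := hadd _ _ (mul_ne_zero ha hd) (mul_ne_zero hb hc) h0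
    rw [hmul _ _ ha hd, hmul _ _ hb hc] at this
    rw [ho _ _ h0 (mul_ne_zero hb hd), ho _ _ ha hb, ho _ _ hc hd, hmul _ _ hb hd]; omega
  · intro c hc
    rw [IsScalarTower.algebraMap_apply k A K, ho' _ (by simpa using hc), hconst c hc]
  · obtain ⟨a, b, ha, hb, h⟩ := hs
    exact ⟨algebraMap A K a / algebraMap A K b, div_ne_zero (by simpa using ha) (by simpa using hb),
      by rw [ho _ _ ha hb, h]; simp⟩
  · rw [Place.ofOrd_ord _ _ _ _ _ (by simpa using ha), ho' a ha]

lemma Chart.exists_place (C : Chart ι k m) (w : ι → ℕ)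
    (hw : (∃ i, w i = 1) ∨ ∃ i j, w i = w j + 1) : ∃ F : Place k K,
      ∀ (n : ℕ) (a : A), F.Ge n (algebraMap A K a) ↔ WGe w n (C.T a) := by
  let oA : A → ℤ := fun a => ((C.T a).weightedOrder w).toNat
  have hfin : ∀ a : A, a ≠ 0 → (((C.T a).weightedOrder w).toNat : ℕ∞) = (C.T a).weightedOrder w :=
    fun a ha => (ne_zero_iff_weightedOrder_finite w).1 (by simpa using C.injective.ne ha)
  have hle : ∀ (n : ℕ) (a : A), a ≠ 0 → ((n : ℤ) ≤ oA a ↔ WGe w n (C.T a)) := by
    intro n a ha
    rw [wge_iff, ← hfin a ha]; simp [oA]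
  have hmul : ∀ a b : A, a ≠ 0 → b ≠ 0 → oA (a * b) = oA a + oA b := by
    intro a b ha hb
    simp only [oA, map_mul, weightedOrder_mul]
    rw [← hfin a ha, ← hfin b hb, ← Nat.cast_add, ENat.toNat_natCast, ENat.toNat_natCast, ENat.toNat_natCast]
    simp
  have hadd : ∀ a b : A, a ≠ 0 → b ≠ 0 → a + b ≠ 0 → min (oA a) (oA b) ≤ oA (a + b) := by
    intro a b ha hb hab
    have h0 : ∀ a, 0 ≤ oA a := fun a => Int.natCast_nonneg _
    obtain ⟨n, hn⟩ := Int.eq_ofNat_of_zero_le (le_min (h0 a) (h0 b))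
    rw [hn, hle n _ hab, map_add]
    exact ((hle n a ha).1 (hn ▸ min_le_left _ _)).add ((hle n b hb).1 (hn ▸ min_le_right _ _))
  have hx0 : ∀ i, C.x i ≠ 0 := C.algInd.ne_zero
  have hox : ∀ i, oA (C.x i) = w i := fun i => by
    simp only [oA, C.T_x]
    rw [X_def, weightedOrder_monomial_of_ne_zero w one_ne_zero, weight_single]; simp
  obtain ⟨F, hF⟩ := exists_place_of_ord (k := k) (K := K) oA hmul hadd (fun c hc => by
    have hcA : algebraMap k A c ≠ 0 := by simpa using hc
    have h1 := (hle 1 _ hcA).not.2 (C.not_wge_one (fun h => C.ne_top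
      (Ideal.eq_top_of_isUnit_mem _ h ((IsUnit.mk0 _ hc).map _))) w)
    have h0 : 0 ≤ oA (algebraMap k A c) := Int.natCast_nonneg _
    push_cast at h1; omega) (by
    rcases hw with ⟨i, hi⟩ | ⟨i, j, hij⟩
    · have h1 := hmul 1 1 one_ne_zero one_ne_zero
      rw [mul_one] at h1
      exact ⟨_, 1, hx0 i, one_ne_zero, by rw [hox, hi]; push_cast; omega⟩
    · exact ⟨_, _, hx0 i, hx0 j, by rw [hox, hox, hij]; simp⟩)
  refine ⟨F, fun n a => ?_⟩
  by_cases ha : a = 0
  · simp [ha, wge_zero]
  rw [Place.ge_iff (by simpa using ha), hF a ha, hle n a ha]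

end place

end Pool.Agent.Lib.MP_5f81cf_ag
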