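import Mathlib
import Pool.Agent.Lib.MP_e06174_ag.Place

/-! Pairs on a normal affine variety, through discrete valuations of its function field. -/

namespace Pool.Agent.Lib.MP_5f81cf_ag

open Pool.Agent.Lib.MP_e06174_ag

variable {k K : Type} [Field k] [Field K] [Algebra k K]

/-- The valuation ring of `E` contains `R`, and the centre of `E` on `Spec R` is `q`. -/
def HasCentre {R : Type} [CommRing R] [Algebra R K] (E : Place k K) (q : Ideal R) : Prop :=
  ∀ r : R, E.Ge 0 (algebraMap R K r) ∧ (r ∈ q ↔ E.Ge 1 (algebraMap R K r))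

/-- The residue field of `E` has transcendence degree `n - 1` over `k`. -/
def IsDivisorial (n : ℕ) (E : Place k K) : Prop :=
  ∃ a : Fin (n - 1) → K, ∀ P : MvPolynomial (Fin (n - 1)) k, P ≠ 0 →
    E.v (MvPolynomial.aeval a P) = 1

section

variable {M V : Type} [AddCommGroup M] [Module K M] [AddCommGroup V] [Module K V]

/-- The order of `ω` along `E`: the largest `m` such that `ω` is a sum of vectors
`f • F(d a₁, …, d aₙ)` with `f` of order at least `m` and all `aᵢ` regular along `E`. -/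
noncomputable def latOrd {n : ℕ} (d : K → M) (F : M [⋀^Fin n]→ₗ[K] V) (E : Place k K) (ω : V) : ℤ :=
  sSup {m : ℤ | ω ∈ AddSubgroup.closure {η | ∃ (f : K) (a : Fin n → K),
    E.Ge m f ∧ (∀ i, E.Ge 0 (a i)) ∧ η = f • F fun i => d (a i)}}

/-- The plt condition for `(Spec R, Δ)`, the canonical divisor being given by the orders of a
nonzero `ω`, and `h` being a local equation of `N (K + Δ)`. -/
def PltWrt {n : ℕ} (d : K → M) (F : M [⋀^Fin n]→ₗ[K] V) (R : Type) [CommRing R] [Algebra R K]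
    (Δ : Place k K →₀ ℚ) : Prop :=
  (∀ E, 0 ≤ Δ E ∧ Δ E ≤ 1) ∧
  (∀ E, Δ E ≠ 0 → ∃ q : Ideal R, HasCentre E q ∧ q.height = 1) ∧
  ∃ (ω : V) (N : ℕ), ω ≠ 0 ∧ 0 < N ∧ ∀ m : Ideal R, m.IsMaximal → ∃ h : K, h ≠ 0 ∧
    ∀ (E : Place k K) (q : Ideal R), HasCentre E q → q ≤ m →
      (q.height = 1 → (E.ord h : ℚ) = N * (latOrd d F E ω + Δ E)) ∧
      (2 ≤ q.height → IsDivisorial n E → -1 < (latOrd d F E ω : ℚ) - E.ord h / N)

/-- The same for the wedge product `d a₁ ∧ ⋯ ∧ d aₙ` in the `n`-th exterior power. -/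
def PltDer (d : K → M) (n : ℕ) (R : Type) [CommRing R] [Algebra R K] (Δ : Place k K →₀ ℚ) : Prop :=
  PltWrt d (exteriorPower.ιMulti K n) R Δ

end

/-- `(Spec R, Δ)` is a purely log terminal pair of dimension `n`. -/
def IsPlt (n : ℕ) (R : Type) [CommRing R] [Algebra R K] (Δ : Place k K →₀ ℚ) : Prop :=
  PltDer (KaehlerDifferential.D k K) n R Δ

end Pool.Agent.Lib.MP_5f81cf_ag
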