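import Pool.Agent.Lib.MP_5f81cf_ag.Chart2
import Pool.Agent.Lib.MP_5f81cf_ag.Defs

/-! Existence of charts, change of coordinates, and properties of monomial places. -/

namespace Pool.Agent.Lib.MP_5f81cf_ag

open Pool.Agent.Lib.MP_e06174_ag MvPowerSeries Finsupp

variable {k A : Type} [Field k] [CommRing A] [Algebra k A] {m : Ideal A}

lemma exists_const_of_isMaximal [IsAlgClosed k] [Algebra.FiniteType k A] (hm : m.IsMaximal)
    (a : A) : ∃ c : k, a - algebraMap k A c ∈ m := by
  letI := Ideal.Quotient.field m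
  have : Module.Finite k (A ⧸ m) := finite_of_finite_type_of_isJacobsonRing k (A ⧸ m)
  obtain ⟨c, hc⟩ := (IsAlgClosed.algebraMap_bijective_of_isIntegral (k := k) (K := A ⧸ m)).2
    (Ideal.Quotient.mk m a)
  exact ⟨c, Ideal.Quotient.eq.1 hc.symm⟩

lemma trdeg_le_of_span {ι : Type} [Fintype ι] [IsDomain A] [Algebra.FiniteType k A] (hm : m ≠ ⊤)
    {x : ι → A} (happ : ∀ a : A, ∃ P : MvPolynomial ι k, a - MvPolynomial.aeval x P ∈ m ^ 2) :
    Algebra.trdeg k A ≤ Fintype.card ι := by
  let K := FractionRing A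
  have h1 := finite_of_span (K := K) hm happ
  have h2 : Algebra.IsAlgebraic (Algebra.adjoin k (Set.range fun i => algebraMap A K (x i))) K :=
    IntermediateField.isAlgebraic_adjoin_iff_top.1 inferInstance
  have h3 := Algebra.IsAlgebraic.trdeg_le_cardinalMk k (Set.range fun i => algebraMap A K (x i))
  have h4 : Algebra.trdeg k A ≤ Algebra.trdeg k K :=
    trdeg_le_of_injective (IsScalarTower.toAlgHom k A K) (IsFractionRing.injective A K)
  exact h4.trans (h3.trans (Cardinal.mk_range_le.trans (by simp)))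

theorem exists_chart3 [IsAlgClosed k] [IsDomain A] [Algebra.Smooth k A]
    (hdim : Algebra.trdeg k A = 3) (hm : m.IsMaximal) : Nonempty (Chart (Fin 3) k m) := by
  classical
  have := Algebra.FiniteType.isNoetherianRing k A
  have hres := exists_const_of_isMaximal (k := k) hm
  obtain ⟨s, hs⟩ := IsNoetherian.noetherian m
  let π : A →ₗ[k] A ⧸ m ^ 2 := (Ideal.Quotient.mkₐ k (m ^ 2)).toLinearMap
  obtain ⟨b, hb, hbs, hbl⟩ := exists_linearIndependent k (π '' (s : Set A))
  have hfin : b.Finite := (s.finite_toSet.image π).subset hb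
  letI := hfin.fintype
  choose x hx hx' using fun i : b => hb i.2
  have hxm : ∀ i, x i ∈ m := fun i => hs ▸ Ideal.subset_span (hx i)
  have hspan : ∀ a ∈ m, ∃ l : b → k, a - ∑ i, l i • x i ∈ m ^ 2 := by
    intro a ha
    have : π a ∈ Submodule.span k (π '' (s : Set A)) := by
      rw [← hs] at ha
      suffices h : a ∈ m ∧ π a ∈ Submodule.span k (π '' (s : Set A)) from h.2
      induction ha using Submodule.span_induction with
      | mem y hy => exact ⟨hs ▸ Ideal.subset_span hy, Submodule.subset_span ⟨y, hy, rfl⟩⟩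
      | zero => simp
      | add _ _ _ _ h1 h2 => exact ⟨add_mem h1.1 h2.1, by rw [map_add]; exact add_mem h1.2 h2.2⟩
      | smul r y _ h1 =>
        refine ⟨m.mul_mem_left _ h1.1, ?_⟩
        obtain ⟨c, hc⟩ := hres r
        have : π (r • y) = c • π y := by
          rw [← map_smul]
          refine Ideal.Quotient.eq.2 ?_
          rw [sq, smul_eq_mul, Algebra.smul_def, ← sub_mul]
          exact Ideal.mul_mem_mul hc h1.1
        rw [this]; exact Submodule.smul_mem _ _ h1.2
    rw [← hbs, ← Subtype.range_val (s := b), Submodule.mem_span_range_iff_exists_fun] at this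
    obtain ⟨l, hl⟩ := this
    refine ⟨l, Ideal.Quotient.eq.1 ?_⟩
    change π a = π _
    rw [← hl, map_sum]; simp only [map_smul, hx']
  have hind : ∀ l : b → k, ∑ i, l i • x i ∈ m ^ 2 → l = 0 := by
    intro l hl
    have : π (∑ i, l i • x i) = 0 := Ideal.Quotient.eq_zero_iff_mem.2 hl
    rw [map_sum] at this
    simp only [map_smul, hx'] at this
    exact funext (Fintype.linearIndependent_iff.1 hbl l this)
  obtain ⟨C, hC⟩ := exists_chart hm.ne_top hxm hres hspan hind
  have h1 := C.algInd.cardinalMk_le_trdeg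
  have h2 := trdeg_le_of_span hm.ne_top (exists_approx hxm hres hspan 2)
  rw [hdim] at h1 h2
  rw [Cardinal.mk_fintype] at h1
  have h3 : Fintype.card b = 3 := le_antisymm (by exact_mod_cast h1) (by exact_mod_cast h2)
  let e := Fintype.equivFinOfCardEq h3
  obtain ⟨C', -⟩ := exists_chart (x := fun j => x (e.symm j)) hm.ne_top (fun j => hxm _) hres
    (fun a ha => by
      obtain ⟨l, hl⟩ := hspan a ha
      exact ⟨fun j => l (e.symm j), by rwa [Equiv.sum_comp e.symm fun i => l i • x i]⟩)
    (fun l hl => by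
      have := hind (fun i => l (e i)) (by
        rw [← Equiv.sum_comp e.symm]; simpa using hl)
      ext j; simpa using congrFun this (e.symm j))
  exact ⟨C'⟩

namespace Chart

variable (C : Chart (Fin 3) k m)

/-- The linear part of the expansion. -/
noncomputable def lin : A →ₗ[k] (Fin 3 → k) where
  toFun a i := coeff (single i 1) (C.T a)
  map_add' a b := by ext i; simp
  map_smul' c a := by ext i; simp

lemma lin_x (i : Fin 3) : C.lin (C.x i) = Pi.single i 1 := by
  ext j
  simp only [lin, LinearMap.coe_mk, AddHom.coe_mk, C.T_x, coeff_X, Pi.single_apply]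
  simp [Finsupp.single_left_inj]

lemma mem_sq_iff {a : A} (ha : a ∈ m) : a ∈ m ^ 2 ↔ C.lin a = 0 := by
  rw [← C.mem_pow]
  refine ⟨fun h => funext fun i => h _ (by simp [weight_single]), fun h d hd => ?_⟩
  by_cases h0 : weight (fun _ : Fin 3 => (1 : ℕ)) d < 1
  · exact (C.mem_iff a).1 ha d h0
  have h1 : weight (fun _ : Fin 3 => (1 : ℕ)) d = 1 := by omega
  rw [← degree_eq_weight_one] at h1
  obtain ⟨i, rfl⟩ : d ∈ Set.range fun a : Fin 3 => single a 1 := by
    rw [range_single_one]; exact h1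
  exact congrFun h i

lemma sub_lin_mem {a : A} (ha : a ∈ m) : a - ∑ i, C.lin a i • C.x i ∈ m ^ 2 := by
  rw [C.mem_sq_iff (sub_mem ha (sum_mem fun i _ => Submodule.smul_of_tower_mem _ _ (C.x_mem i)))]
  ext j
  simp [lin_x, Pi.single_apply]

lemma change [Algebra.FormallySmooth k A] {y : Fin 3 → A} (hy : ∀ i, y i ∈ m)
    (hl : LinearIndependent k fun i => C.lin (y i)) : ∃ C' : Chart (Fin 3) k m, C'.x = y := by
  have hm : ∀ l : Fin 3 → k, ∑ i, l i • y i ∈ m := fun l =>
    sum_mem fun i _ => Submodule.smul_of_tower_mem _ _ (hy i)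
  refine exists_chart C.ne_top hy C.exists_const (fun a ha => ?_) fun l h => ?_
  · have h1 := hl.span_eq_top_of_card_eq_finrank (by simp)
    obtain ⟨l, h2⟩ := (Submodule.mem_span_range_iff_exists_fun k).1
      (h1 ▸ Submodule.mem_top : C.lin a ∈ _)
    refine ⟨l, ?_⟩
    rw [C.mem_sq_iff (sub_mem ha (hm l)), map_sub, ← h2, map_sum]; simp
  · rw [C.mem_sq_iff (hm l), map_sum] at h
    exact funext (Fintype.linearIndependent_iff.1 hl l (by simpa using h))

end Chart

section field

variable {K : Type} [Field K] [Algebra A K] [IsFractionRing A K] [Algebra k K] [IsScalarTower k A K]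
  [IsDomain A]

lemma dep_of_finite {K ι : Type} [Field K] [Algebra k K] [IsAlgClosed k] [Fintype ι] (y : ι → K)
    [hy : Module.Finite (IntermediateField.adjoin k (Set.range y)) K] (p : ℕ)
    [hp : Fact p.Prime] [CharP K p] (L : Subfield K) [Module.Finite L K] :
    Dep p L (p ^ Fintype.card ι) := by
  classical
  let L0 : Subfield K := (IntermediateField.adjoin k (Set.range y)).toSubfield
  have : Module.Finite L0 K := hy
  refine dep_of_relrank p ?_
  rw [relrank_Pw_eq, ← relrank_Pw_eq p L0, Subfield.relrank_eq_rank_of_le (Pw_le p L0)]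
  let g : (ι → Fin p) → K := fun a => ∏ i, y i ^ (a i : ℕ)
  let V : Submodule (Pw p L0) K := Submodule.span _ (Set.range g)
  have hy : ∀ i, y i ∈ L0 := fun i => IntermediateField.subset_adjoin k _ ⟨i, rfl⟩
  have hsm : ∀ c ∈ L0, ∀ z ∈ V, c ^ p * z ∈ V := fun c hc z hz =>
    V.smul_mem ⟨c ^ p, (mem_Pw p).2 ⟨c, hc, rfl⟩⟩ hz
  have hP : ∀ P : MvPolynomial ι k, MvPolynomial.aeval y P ∈ V := by
    intro P
    rw [P.as_sum, map_sum]
    refine sum_mem fun d _ => ?_
    obtain ⟨c, hc⟩ := IsAlgClosed.exists_pow_nat_eq (P.coeff d) hp.out.pos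
    have := hsm (algebraMap k K c * ∏ i, y i ^ (d i / p))
      (mul_mem ((IntermediateField.adjoin k (Set.range y)).algebraMap_mem c)
        (prod_mem fun i _ => pow_mem (hy i) _)) _
      (Submodule.subset_span ⟨fun i => ⟨d i % p, Nat.mod_lt _ hp.out.pos⟩, rfl⟩)
    convert this using 1
    rw [MvPolynomial.aeval_monomial, ← hc, Finsupp.prod_fintype _ _ (by simp), mul_pow, map_pow,
      mul_assoc, ← Finset.prod_pow, ← Finset.prod_mul_distrib]
    congr 1
    refine Finset.prod_congr rfl fun i _ => ?_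
    rw [← pow_mul, ← pow_add, Nat.div_add_mod']
  have hle : (Subfield.extendScalars (Pw_le p L0)).toSubalgebra.toSubmodule ≤ V := by
    intro z hz
    obtain ⟨r, s, rfl⟩ := (IntermediateField.mem_adjoin_range_iff k y z).1 hz
    have hs : MvPolynomial.aeval y s ∈ L0 :=
      (IntermediateField.mem_adjoin_range_iff k y _).2 ⟨s, 1, by simp⟩
    have := hsm _ (inv_mem hs) _ (hP (r * s ^ (p - 1)))
    by_cases h0 : MvPolynomial.aeval y s = 0
    · rw [h0, div_zero]; exact zero_mem _
    convert this using 1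
    rw [map_mul, map_pow]
    conv_rhs => rw [← Nat.sub_add_cancel hp.out.one_le, pow_succ, Nat.add_sub_cancel, inv_pow]
    field_simp
  refine (Submodule.rank_mono hle).trans ((rank_span_le _).trans (Cardinal.mk_range_le.trans ?_))
  simp

lemma Chart.dep [IsAlgClosed k] [Algebra.FiniteType k A] (C : Chart (Fin 3) k m) (p : ℕ)
    [hp : Fact p.Prime] [CharP K p] (L : Subfield K) [Module.Finite L K] : Dep p L (p ^ 3) :=
  dep_of_finite (hy := finite_of_span (K := K) C.ne_top fun a => (C.exists_poly a 2).imp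
    fun _ h => h.1) _ p L

variable {F : Place k K} {C : Chart (Fin 3) k m} {w : Fin 3 → ℕ}
  (hF : ∀ (n : ℕ) (a : A), F.Ge n (algebraMap A K a) ↔ WGe w n (C.T a))
include hF

omit [IsFractionRing A K] [IsScalarTower k A K] [IsDomain A] in
lemma ge_zero_of_chart (a : A) : F.Ge 0 (algebraMap A K a) := (hF 0 a).2 (wge_bot _)

omit [IsScalarTower k A K] [IsDomain A] in
lemma ord_unit_of_chart {u : A} (hu : u ∉ m) : algebraMap A K u ≠ 0 ∧ F.ord (algebraMap A K u) = 0 := by
  have h0 : algebraMap A K u ≠ 0 := by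
    simpa using fun h0 : u = 0 => hu (h0 ▸ zero_mem _)
  have h1 := Place.not_ge_iff.1 ((hF 1 u).not.2 (C.not_wge_one hu w))
  have h2 := (ge_zero_of_chart hF u).le h0
  exact ⟨h0, by omega⟩

omit [IsScalarTower k A K] in
lemma lb_top {D : Fin 3 → Derivation k K K} {u : A} (hu : u ∉ m)
    (hD : ∀ a i, ∃ c : A, algebraMap A K u * D i (algebraMap A K a) = algebraMap A K c ∧
      C.T c = C.T u * pderiv k i (C.T a)) : LB D F ⊤ (-((w 0 : ℤ) + w 1 + w 2)) := by
  obtain ⟨hu0, hu1⟩ := ord_unit_of_chart hF hu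
  have hA : ∀ a : A, a ≠ 0 → ∀ i, F.Ge (-(w i : ℤ)) (lg D (algebraMap A K a) i) := by
    intro a ha i
    have haK : algebraMap A K a ≠ 0 := by simpa using ha
    obtain ⟨n, hn⟩ := Int.eq_ofNat_of_zero_le ((ge_zero_of_chart hF a).le haK)
    obtain ⟨c, hc, hc'⟩ := hD a i
    have h1 : WGe w n (C.T a) := (hF n a).1 (Place.ge_of_le hn.ge)
    have h2 : WGe w (n - w i) (pderiv k i (C.T a)) := by
      intro d hd
      rw [coeff_pderiv, h1 _ (by rw [map_add, weight_single, one_smul]; omega), zero_mul]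
    have h3 := (hF _ c).2 (hc' ▸ h2.mul_left _)
    have h4 : lg D (algebraMap A K a) i =
        algebraMap A K c * (algebraMap A K u)⁻¹ * (algebraMap A K a)⁻¹ := by
      rw [← hc]; simp only [lg, grad, Pi.smul_apply, smul_eq_mul]; field_simp
    rw [h4]
    exact (h3.mul (Place.ge_ord _)).mul' (Place.ge_ord _) (by simp only [Place.ord_inv]; omega)
  have hK : ∀ g : K, g ≠ 0 → ∀ i, F.Ge (-(w i : ℤ)) (lg D g i) := by
    intro g hg i
    obtain ⟨a, b, hb, rfl⟩ := IsFractionRing.div_surjective (A := A) g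
    have ha : a ≠ 0 := fun h => hg (by simp [h])
    have hb := nonZeroDivisors.ne_zero hb
    have hbK : algebraMap A K b ≠ 0 := by simpa using hb
    rw [div_eq_mul_inv, lg_mul (by simpa using ha) (inv_ne_zero hbK), lg_inv hbK]
    exact (hA a ha i).add (hA b hb i).neg
  intro a _ b _ c _ ha hb hc
  have h := fun i j l (h : -((w 0 : ℤ) + w 1 + w 2) ≤ -(w i : ℤ) + (-(w j : ℤ) + -(w l : ℤ))) =>
    (hK a ha i).mul' ((hK b hb j).mul (hK c hc l)) h
  have := (((h 0 1 2 (by omega)).sub (h 0 2 1 (by omega))).sub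
    ((h 1 0 2 (by omega)).sub (h 1 2 0 (by omega)))).add
    ((h 2 0 1 (by omega)).sub (h 2 1 0 (by omega)))
  convert this using 1
  simp only [det3]; ring

omit [IsScalarTower k A K] in
lemma shift_frac {σ : K ≃ₐ[k] K} {τ : A → A}
    (hστ : ∀ a, σ (algebraMap A K a) = algebraMap A K (τ a)) {i : ℕ} (hi : 1 ≤ i)
    (h : ∀ n a, WGe w n (C.T a) → WGe w (n + i) (C.T (τ a) - C.T a)) (f : K) (n : ℤ)
    (hf : F.Ge n f) : F.Ge (n + i) (σ f - f) := by
  have hA : ∀ a : A, F.Ge (F.ord (algebraMap A K a) + i)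
      (σ (algebraMap A K a) - algebraMap A K a) := by
    intro a
    by_cases haK : algebraMap A K a = 0
    · simp [haK]
    obtain ⟨n, hn⟩ := Int.eq_ofNat_of_zero_le ((ge_zero_of_chart hF a).le haK)
    have := (hF _ _).2 (map_sub C.T _ _ ▸ h n a ((hF n a).1 (Place.ge_of_le hn.ge)))
    rw [hστ, hn, ← map_sub]; exact_mod_cast this
  by_cases hf0 : f = 0
  · simp [hf0]
  have hn := hf.le hf0
  obtain ⟨a, b, hb, rfl⟩ := IsFractionRing.div_surjective (A := A) f
  have haK : algebraMap A K a ≠ 0 := fun h => hf0 (by simp [h])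
  have hbK : algebraMap A K b ≠ 0 := by simpa using nonZeroDivisors.ne_zero hb
  have h1 := Place.ord_eq_of_ge_sub hbK ((hA b).mono (by omega))
  rw [F.ord_div haK hbK] at hn
  have h2 := (((hA a).mul' (Place.ge_ord (algebraMap A K b))
    (l := F.ord (algebraMap A K a) + F.ord (algebraMap A K b) + i) (by omega)).sub
    ((Place.ge_ord (algebraMap A K a)).mul' (hA b) (by omega))).mul'
    ((Place.ge_ord (algebraMap A K b)⁻¹).mul (Place.ge_ord (σ (algebraMap A K b))⁻¹))
    (l := n + i) (by simp only [Place.ord_inv]; omega)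
  convert h2 using 1
  have := h1.1
  rw [map_div₀]; field_simp; ring

omit [IsDomain A] in
lemma divisorial_of_chart (hw : w 2 ≠ 0) : IsDivisorial 3 F := by
  classical
  let y : Fin 3 → K := fun i => algebraMap A K (C.x i)
  have hy : ∀ i, y i ≠ 0 := fun i => by simpa [y] using C.algInd.ne_zero i
  refine ⟨![y 0 ^ w 2 / y 2 ^ w 0, y 1 ^ w 2 / y 2 ^ w 1], fun P hP => ?_⟩
  change MvPolynomial (Fin 2) k at P
  let M := P.support.sup fun d => w 0 * d 0 + w 1 * d 1
  have hM : ∀ d ∈ P.support, w 0 * d 0 + w 1 * d 1 ≤ M := fun d hd =>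
    Finset.le_sup (f := fun d : Fin 2 →₀ ℕ => w 0 * d 0 + w 1 * d 1) hd
  let e : (Fin 2 →₀ ℕ) → (Fin 3 →₀ ℕ) := fun d =>
    single 0 (w 2 * d 0) + single 1 (w 2 * d 1) + single 2 (M - (w 0 * d 0 + w 1 * d 1))
  have he : ∀ d ∈ P.support, weight w (e d) = w 2 * M := by
    intro d hd
    obtain ⟨r, hr⟩ := Nat.exists_eq_add_of_le (hM d hd)
    simp only [e, map_add, weight_single, smul_eq_mul]
    rw [hr, Nat.add_sub_cancel_left]; ring
  have hinj : ∀ d d', e d = e d' → d = d' := by
    intro d d' h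
    have h0 := DFunLike.congr_fun h 0
    have h1 := DFunLike.congr_fun h 1
    simp [e, hw] at h0 h1
    ext i; fin_cases i <;> simpa
  let Q : MvPolynomial (Fin 3) k := ∑ d ∈ P.support, MvPolynomial.monomial (e d) (P.coeff d)
  have hQ : algebraMap A K (MvPolynomial.aeval C.x Q) =
      MvPolynomial.aeval ![y 0 ^ w 2 / y 2 ^ w 0, y 1 ^ w 2 / y 2 ^ w 1] P * y 2 ^ M := by
    conv_rhs => rw [P.as_sum]
    simp only [Q, map_sum, Finset.sum_mul]
    refine Finset.sum_congr rfl fun d hd => ?_
    obtain ⟨r, hr⟩ := Nat.exists_eq_add_of_le (hM d hd)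
    rw [MvPolynomial.aeval_monomial, MvPolynomial.aeval_monomial, Finsupp.prod_fintype _ _ (by simp),
      Finsupp.prod_fintype _ _ (by simp), Fin.prod_univ_three, Fin.prod_univ_two, map_mul,
      ← IsScalarTower.algebraMap_apply, mul_assoc (algebraMap k K _)]
    congr 1
    have h2 := hy 2
    simp only [e, map_mul, map_pow, Finsupp.add_apply, Finsupp.single_apply]
    rw [hr, Nat.add_sub_cancel_left]
    change algebraMap A K (C.x 2) ≠ 0 at h2
    simp only [Fin.isValue, ↓reduceIte, Fin.reduceEq, add_zero, zero_add, Matrix.cons_val_zero,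
      Matrix.cons_val_one, div_pow, pow_add, pow_mul, y]
    field_simp
  have h1 : F.Ge (w 2 * M : ℕ) (algebraMap A K (MvPolynomial.aeval C.x Q)) := by
    rw [hF, C.T_aeval]
    simp only [Q, ← MvPolynomial.coeToMvPowerSeries.ringHom_apply, map_sum]
    refine WGe.sum fun d hd => ?_
    rw [MvPolynomial.coeToMvPowerSeries.ringHom_apply, MvPolynomial.coe_monomial, ← he d hd]
    exact wge_monomial _ _
  have h2 : ¬ F.Ge (w 2 * M + 1 : ℕ) (algebraMap A K (MvPolynomial.aeval C.x Q)) := by
    rw [hF, C.T_aeval]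
    intro h
    obtain ⟨d, hd⟩ := MvPolynomial.support_nonempty.2 hP
    have := h (e d) (by rw [he d hd]; omega)
    rw [MvPolynomial.coeff_coe, MvPolynomial.coeff_sum, Finset.sum_eq_single d] at this
    · exact MvPolynomial.mem_support_iff.1 hd (by simpa using this)
    · intro d' _ hne
      rw [MvPolynomial.coeff_monomial, if_neg fun h => hne (hinj _ _ h)]
    · exact fun h => absurd hd h
  have h3 : F.ord (y 2) = w 2 := by
    have a1 := ((hF (w 2) (C.x 2)).2 (C.T_x 2 ▸ wge_X 2)).le (hy 2)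
    have a2 := Place.not_ge_iff.1 ((hF (w 2 + 1) (C.x 2)).not.2 fun h => by
      have := h (single 2 1) (by simp [weight_single])
      simp [C.T_x, coeff_X] at this)
    have a3 := a2.2
    simp only [y]; push_cast at a3; omega
  obtain ⟨h4, h5⟩ := Place.not_ge_iff.1 h2
  have h6 := h1.le h4
  rw [hQ] at h4 h5 h6
  have h7 := left_ne_zero_of_mul h4
  rw [F.ord_mul h7 (pow_ne_zero _ (hy 2)), F.ord_pow, h3] at h5 h6
  rw [F.v_eq h7]
  push_cast at h5 h6
  rw [show F.ord (MvPolynomial.aeval ![y 0 ^ w 2 / y 2 ^ w 0, y 1 ^ w 2 / y 2 ^ w 1] P) = 0 by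
    linarith]
  simp

end field

section descend

variable {K K' : Type} [Field K] [Algebra k K] [Field K'] [Algebra k K']

noncomputable instance (F : Place k K) : Algebra k F.O :=
  ((algebraMap k K).codRestrict F.O fun c => Place.mem_O.2 (Place.ge_const c)).toAlgebra

instance (F : Place k K) : IsScalarTower k F.O K := IsScalarTower.of_algebraMap_eq fun _ => rfl

lemma v_aeval_iff (F : Place k K) {n : ℕ} (c : Fin n → F.O) (P : MvPolynomial (Fin n) k) :
    F.v (MvPolynomial.aeval (fun i => (c i : K)) P) = 1 ↔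
      MvPolynomial.aeval (fun i => IsLocalRing.residue F.O (c i)) P ≠ 0 := by
  have h1 : MvPolynomial.aeval (fun i => (c i : K)) P = (MvPolynomial.aeval c P : F.O) :=
    (MvPolynomial.aeval_algebraMap_apply K c P)
  have h2 : MvPolynomial.aeval (fun i => IsLocalRing.residue F.O (c i)) P =
      IsLocalRing.residue F.O (MvPolynomial.aeval c P) :=
    (MvPolynomial.aeval_algebraMap_apply (IsLocalRing.ResidueField F.O) c P)
  rw [h1, h2, Ne, res_eq_zero, Place.ge_one_iff]
  have := Place.ge_zero_iff.1 (Place.mem_O.1 (MvPolynomial.aeval c P).2)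
  exact ⟨fun h => by simp [h], fun h => le_antisymm this (not_lt.1 h)⟩

lemma IsDivisorial.descend {F : Place k K} (hF : IsDivisorial 3 F) {ι : K' →ₐ[k] K}
    {E : Place k K'} {e : ℕ} (h : F.Over ι E e) [Module.Finite ι.fieldRange.toSubfield K] :
    IsDivisorial 3 E := by
  classical
  let L : Subfield K := ι.fieldRange.toSubfield
  let κ := IsLocalRing.ResidueField F.O
  let κ' : IntermediateField k κ := (resSub F L).toIntermediateField fun c =>
    ⟨algebraMap k F.O c, ι.fieldRange.algebraMap_mem c, rfl⟩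
  have halg : Algebra.IsAlgebraic κ' κ := ⟨fun z => by
    obtain ⟨c, rfl⟩ := IsLocalRing.residue_surjective z
    obtain ⟨P, hP0, hP⟩ := (Algebra.IsAlgebraic.isAlgebraic (R := L) (c : K))
    obtain ⟨i0, hi0, hmin⟩ := Finset.exists_min_image P.support
      (fun i => F.ord (P.coeff i : K)) (Polynomial.support_nonempty.2 hP0)
    have h0 : ∀ i ∈ P.support, (P.coeff i : K) ≠ 0 := fun i hi => by
      simpa using Polynomial.mem_support_iff.1 hi
    have hge : ∀ i, F.Ge 0 ((P.coeff i : K) / P.coeff i0) := by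
      intro i
      by_cases hi : i ∈ P.support
      · exact Place.ge_of_le (by rw [F.ord_div (h0 i hi) (h0 i0 hi0)]; have := hmin i hi; omega)
      · simp [Polynomial.notMem_support_iff.1 hi]
    let d : ℕ → F.O := fun i => ⟨_, Place.mem_O.2 (hge i)⟩
    let d' : ℕ → κ' := fun i => ⟨IsLocalRing.residue F.O (d i), d i,
      div_mem (P.coeff i).2 (P.coeff i0).2, rfl⟩
    refine ⟨∑ i ∈ P.support, Polynomial.monomial i (d' i), fun hq => ?_, ?_⟩
    · have := congrArg (fun Q : Polynomial κ' => (Q.coeff i0 : κ)) hq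
      simp only [Polynomial.finsetSum_coeff, Polynomial.coeff_monomial, Finset.sum_ite_eq', hi0,
        if_true, Polynomial.coeff_zero, d'] at this
      have h1 : d i0 = 1 := Subtype.ext (div_self (h0 i0 hi0))
      simp [h1] at this
    · have h1 : ∑ i ∈ P.support, d i * c ^ i = 0 := by
        apply Subtype.ext
        rw [Polynomial.aeval_def, Polynomial.eval₂_eq_sum, Polynomial.sum_def] at hP
        simp only [AddSubmonoidClass.coe_finsetSum, MulMemClass.coe_mul, SubmonoidClass.coe_pow, d,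
          div_mul_eq_mul_div, ← Finset.sum_div]
        rw [show ∑ i ∈ P.support, (P.coeff i : K) * (c : K) ^ i = 0 from hP]; simp
      have := congrArg (IsLocalRing.residue F.O) h1
      simpa [Polynomial.aeval_monomial, d'] using this⟩
  obtain ⟨a, ha⟩ := hF
  have hge : ∀ i, F.Ge 0 (a i) := fun i => by
    have := ha (MvPolynomial.X i) (MvPolynomial.X_ne_zero i)
    rw [Place.ge_zero_iff]; simpa using this.le
  let c : Fin 2 → F.O := fun i => ⟨a i, Place.mem_O.2 (hge i)⟩
  have hind : AlgebraicIndependent k fun i => IsLocalRing.residue F.O (c i) := by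
    rw [algebraicIndependent_iff]
    intro P hP
    by_contra h0
    exact (v_aeval_iff F c P).1 (ha P h0) hP
  have h1 := hind.cardinalMk_le_trdeg
  rw [← trdeg_add_eq k κ' (A := κ), trdeg_eq_zero (R := κ') (A := κ), add_zero] at h1
  obtain ⟨J, x, hx⟩ := exists_isTranscendenceBasis' k κ'
  rw [← hx.cardinalMk_eq_trdeg] at h1
  obtain ⟨f⟩ := (Cardinal.le_def _ _).1 h1
  have h2 := (hx.1.comp f f.injective).map' (f := κ'.val) Subtype.val_injective
  have h3 : ∀ i, ∃ (b : F.O) (b' : K'), ι b' = b ∧ IsLocalRing.residue F.O b = x (f i) := by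
    intro i
    obtain ⟨b, ⟨b', hb'⟩, hb⟩ := (x (f i)).2
    exact ⟨b, b', hb', hb⟩
  choose b b' hb hb' using h3
  refine ⟨b', fun P hP => ?_⟩
  have h4 := (v_aeval_iff F b P).2 (fun h0 => hP ((algebraicIndependent_iff.1 h2) P (by
    rw [← h0]; congr 2; ext i; exact (hb' i).symm)))
  have h5 : MvPolynomial.aeval (fun i => (b i : K)) P = ι (MvPolynomial.aeval b' P) := by
    rw [← AlgHom.comp_apply, MvPolynomial.comp_aeval]; simp only [hb]
  rw [h5] at h4
  have h6 : MvPolynomial.aeval b' P ≠ 0 := fun h0 => by simp [h0] at h4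
  have h7 : F.ord (ι (MvPolynomial.aeval b' P)) = 0 := by simp [Place.ord, h4]
  rw [h.2] at h7
  have := h.1
  rw [E.v_eq h6, (mul_eq_zero.1 h7).resolve_left (by omega)]; simp

end descend

end Pool.Agent.Lib.MP_5f81cf_ag
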