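import Pool.Agent.Lib.MP_5f81cf_ag.Cases

/-! The two surviving normal forms, and exclusion of groups of order `p ^ 2`. -/

namespace Pool.Agent.Lib.MP_5f81cf_ag

open MvPowerSeries Finsupp

variable {k A G : Type} [Field k] [CommRing A] [Algebra k A] [Group G] [MulSemiringAction G A]
  [SMulCommClass G k A] {m : Ideal A}

lemma li3 {u v w : Fin 3 → k} : LinearIndependent k ![u, v, w] ↔
    ∀ a b c : k, a • u + b • v + c • w = 0 → a = 0 ∧ b = 0 ∧ c = 0 := by
  rw [Fintype.linearIndependent_iff]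
  refine ⟨fun h a b c h0 => ?_, fun h g h0 i => ?_⟩
  · have := h ![a, b, c] (by simpa [Fin.sum_univ_three] using h0)
    exact ⟨this 0, this 1, this 2⟩
  · have := h (g 0) (g 1) (g 2) (by simpa [Fin.sum_univ_three] using h0)
    fin_cases i
    exacts [this.1, this.2.1, this.2.2]

namespace Chart

variable (C : Chart (Fin 3) k m)

lemma change3 [Algebra.FormallySmooth k A] {x y z : A} (hx : x ∈ m) (hy : y ∈ m) (hz : z ∈ m)
    (h : LinearIndependent k ![C.lin x, C.lin y, C.lin z]) :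
    ∃ C' : Chart (Fin 3) k m, C'.x 0 = x ∧ C'.x 1 = y ∧ C'.x 2 = z := by
  obtain ⟨C', hC⟩ := C.change (y := ![x, y, z]) (fun i => by fin_cases i; exacts [hx, hy, hz]) (by
    have : (fun i => C.lin (![x, y, z] i)) = ![C.lin x, C.lin y, C.lin z] := by
      ext1 i; fin_cases i <;> rfl
    rwa [this])
  exact ⟨C', by simp [hC]⟩

lemma extend {n : ℕ} {v : Fin n → Fin 3 → k} (h : LinearIndependent k v) (hn : n < 3) :
    ∃ x ∈ m, LinearIndependent k (Fin.cons (C.lin x) v : Fin (n + 1) → Fin 3 → k) := by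
  obtain ⟨x, hx⟩ := exists_linearIndependent_cons_of_lt_finrank h (by simpa)
  obtain ⟨x, hxm, rfl⟩ := C.lin_surj x
  exact ⟨x, hxm, hx⟩

lemma lin_zero (C' : Chart (Fin 3) k m) {a : A} (ha : a ∈ m) (h : C.lin a = 0) : C'.lin a = 0 :=
  (C'.mem_sq_iff ha).1 ((C.mem_sq_iff ha).2 h)

lemma lin_semi {σ : G} (hσ : ∀ a ∈ m, σ • a ∈ m) {s : A} (hm : s ∈ m) (hs : Semi m σ s) :
    C.lin (dl k σ s) = 0 :=
  (C.mem_sq_iff (C.dl_mem hσ s)).1 ((C.mem_pow _ _).1
    (C.semi_wge hs ((C.mem_iff s).1 hm) fun _ => le_rfl))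

end Chart

lemma apply3 (N : Module.End k (Fin 3 → k)) (v : Fin 3 → k) :
    N v = v 0 • N (Pi.single 0 1) + v 1 • N (Pi.single 1 1) + v 2 • N (Pi.single 2 1) := by
  rw [← map_smul, ← map_smul, ← map_smul, ← map_add, ← map_add]
  congr 1; ext i; fin_cases i <;> simp

variable {p : ℕ} [CharP k p] (hp : p = 3 ∨ p = 5) {s : A} (hB : Bound k G p m s) {σ : G}
  (hσ : ∀ a ∈ m, σ • a ∈ m) (h1 : σ ≠ 1) (hσp : σ ^ p = 1) (hs : Semi m σ s)
  (C : Chart (Fin 3) k m)
include hp hB hσ h1 hσp hs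

include C in
theorem classify [IsDomain A] [Algebra.FormallySmooth k A] (hm : s ∈ m) :
    ∃ C : Chart (Fin 3) k m, (∃ e a a', C.TypeE σ s p e a a') ∨ (p = 3 ∧ C.TypeJ σ s) := by
  have : Fact p.Prime := ⟨by rcases hp with rfl | rfl <;> decide⟩
  have hd := C.dl_mem hσ
  have lin := fun C : Chart (Fin 3) k m => C.exists_lin hσ p (n := 1) (by rwa [pow_one])
  obtain ⟨N, hN, hN3⟩ := lin C
  have hN3' : ∀ v, N (N (N v)) = 0 := fun v => by simpa [pow_succ] using congrArg (· v) hN3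
  by_cases h0 : C.lin s = 0
  · by_cases h2 : ∃ v ∈ m, N (N (C.lin v)) ≠ 0
    · obtain ⟨v, hv, h2⟩ := h2
      obtain ⟨C', a0, a1, a2⟩ := C.change3 hv (hd v) (hd (dl k σ v)) (li3.2 fun a b c h => by
        have b1 := congrArg N h
        have b2 := congrArg N b1
        simp only [hN, map_add, map_smul, hN3', map_zero, smul_zero, add_zero, smul_eq_zero, h2,
          or_false] at h b1 b2
        simp only [b2, zero_smul, zero_add, smul_eq_zero, h2, or_false] at h b1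
        simpa [b1, b2, h2] using h)
      exact ⟨C', .inr (caseII2 hp hB hσ h1 hσp hs C' hm (C.lin_zero C' hm h0) (a0 ▸ a1.symm)
        (a1 ▸ a2.symm) (C.lin_zero C' (hd _) (by rw [a2, hN, hN, hN, hN3'])))⟩
    push Not at h2
    exfalso
    by_cases h3 : ∃ v ∈ m, N (C.lin v) ≠ 0
    swap
    · push Not at h3
      exact caseII0 hp hB hσ h1 hσp C hm fun j => by rw [hN, h3 _ (C.x_mem j)]
    obtain ⟨v, hv, h3⟩ := h3
    obtain ⟨z, hz, h4⟩ := C.extend (v := ![C.lin v, C.lin (dl k σ v)])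
      (LinearIndependent.pair_iff.2 fun a b h => by
        have b1 := congrArg N h
        simp only [hN, map_add, map_smul, h2 v hv, map_zero, smul_zero, add_zero, smul_eq_zero, h3,
          or_false] at h b1
        simpa [b1, h3] using h) (by omega)
    obtain ⟨C1, a0, a1, a2⟩ := C.change3 hv (hd v) hz (li3.2 fun a b c h => by
      have := li3.1 h4 c a b (by rw [← h]; abel)
      tauto)
    obtain ⟨N1, hN1, -⟩ := lin C1
    have b0 : N1 (Pi.single 0 1) = Pi.single 1 1 := by rw [← C1.lin_x, ← hN1, a0, ← a1, C1.lin_x]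
    have b1 : ∀ a ∈ m, N1 (N1 (C1.lin a)) = 0 := fun a ha => by
      rw [← hN1, ← hN1]; exact C.lin_zero C1 (hd _) (by rw [hN, hN, h2 a ha])
    have b2 : N1 (Pi.single 1 1) = 0 := by rw [← b0, ← C1.lin_x, b1 _ (C1.x_mem 0)]
    have b3 := b1 _ (C1.x_mem 2)
    rw [C1.lin_x, apply3, b0, b2] at b3
    set t := N1 (Pi.single 2 1)
    have b4 : t 2 = 0 := by simpa using congrFun b3 2
    have b5 : t 0 = 0 := by simpa [b4] using congrFun b3 1
    obtain ⟨C2, c0, c1, c2⟩ := C1.change3 (C1.x_mem 0) (C1.x_mem 1)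
      (sub_mem (C1.x_mem 2) (m.smul_of_tower_mem (t 1) (C1.x_mem 0))) (li3.2 fun a b c h => by
        have d0 := congrFun h 0
        have d1 := congrFun h 1
        have d2 := congrFun h 2
        simp [C1.lin_x] at d0 d1 d2
        simpa [d1, d2] using d0)
    refine caseII1 hp hB hσ h1 hσp hs C2 hm (C.lin_zero C2 hm h0) (by rw [c0, c1, a0, a1])
      (C1.lin_zero C2 (hd _) (by rw [c1, hN1, C1.lin_x, b2])) (C1.lin_zero C2 (hd _) ?_)
    rw [c2, hN1, map_sub, map_smul, C1.lin_x, C1.lin_x, map_sub, map_smul, b0]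
    ext i; fin_cases i <;> simp [t, b4, b5]
  have hNs : N (C.lin s) = 0 := by rw [← hN, C.lin_semi hσ hm hs]
  by_cases h2 : ∃ v ∈ m, N (C.lin v) ∉ k ∙ C.lin s
  · obtain ⟨v, hv, h2⟩ := h2
    obtain ⟨C', a0, a1, a2⟩ := C.change3 hv (hd v) hm (li3.2 fun a b c h => by
      have h3 : N (C.lin v) ≠ 0 := fun h => h2 (h ▸ zero_mem _)
      have b1 := congrArg N h
      have b2 := congrArg N b1
      simp only [hN, map_add, map_smul, hNs, hN3', map_zero, smul_zero, add_zero] at h b1 b2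
      have b3 : a = 0 := by
        have : (a * a) • N (C.lin v) = 0 := by
          rw [mul_smul, eq_neg_of_add_eq_zero_left b1, smul_neg, smul_comm, b2, smul_zero, neg_zero]
        simpa [h3] using this
      have b4 : b = 0 := by
        by_contra hb
        refine h2 ((Submodule.smul_mem_iff _ hb).1 ?_)
        rw [b3, zero_smul, zero_add] at h
        rw [eq_neg_of_add_eq_zero_left h]
        exact neg_mem (Submodule.smul_mem _ _ (Submodule.mem_span_singleton_self _))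
      simpa [b3, b4, h0] using h)
    obtain ⟨N1, hN1, h3⟩ := lin C'
    have b0 : N1 (Pi.single 0 1) = Pi.single 1 1 := by rw [← C'.lin_x, ← hN1, a0, ← a1, C'.lin_x]
    have b2 : N1 (Pi.single 2 1) = 0 := by rw [← C'.lin_x, ← hN1, a2, C'.lin_semi hσ hm hs]
    have b3 : N1 (N1 (N1 (Pi.single 0 1))) = 0 := by
      simpa [pow_succ] using congrArg (· (Pi.single 0 1)) h3
    rw [b0, apply3, b0, b2] at b3
    set t := N1 (Pi.single 1 1) with ht
    have b4 : t 1 * t 0 = 0 := by simpa using congrFun b3 0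
    have b5 : t 0 + t 1 * t 1 = 0 := by simpa using congrFun b3 1
    have b6 : t 1 = 0 := pow_eq_zero_iff (n := 3) (by omega) |>.1 (by
      linear_combination t 1 * b5 - b4)
    rw [← C'.lin_x, ← hN1] at ht
    exact ⟨C', .inl (caseIb hp hB hσ h1 hσp hs C' a2 (a0 ▸ a1.symm)
      (by rw [← ht]; simpa [b6] using b5) (ht ▸ b6))⟩
  exfalso
  push Not at h2
  obtain ⟨y, hy, h3⟩ := C.extend (v := ![C.lin s]) (linearIndependent_unique_iff.2 h0) (by omega)
  obtain ⟨x, hx, h4⟩ := C.extend h3 (by omega)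
  obtain ⟨C', a0, a1, a2⟩ := C.change3 hx hy hm h4
  refine caseIa hp hB hσ h1 hσp hs C' a2 fun j => ?_
  obtain ⟨c, hc⟩ := Submodule.mem_span_singleton.1 (h2 _ (C'.x_mem j))
  have := C.lin_zero C' (sub_mem (hd (C'.x j)) (m.smul_of_tower_mem c hm))
    (by rw [map_sub, map_smul, hN, hc, sub_self])
  rw [map_sub, map_smul, sub_eq_zero, ← a2, C'.lin_x] at this
  simp [this]

omit hB h1 hσp hs hσ in
lemma lin_tau {τ : G} (hτ : ∀ a ∈ m, τ • a ∈ m) (hτp : τ ^ p ^ 2 = 1)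
    (a1 : C.lin (dl k τ (C.x 1)) 0 = 0) (a2 : C.lin (dl k τ (C.x 2)) 0 = 0) :
    cf 1 0 0 (C.T (dl k τ (C.x 0))) = 0 := by
  have : Fact p.Prime := ⟨by rcases hp with rfl | rfl <;> decide⟩
  obtain ⟨N, hN, h3⟩ := C.exists_lin hτ p hτp
  rw [hN, C.lin_x] at a1 a2
  have h : ∀ v, N v 0 = v 0 * N (Pi.single 0 1) 0 := fun v => by
    rw [apply3]; simp [a1, a2]
  have b3 : N (N (N (Pi.single 0 1))) 0 = 0 := by
    simpa [pow_succ] using congrArg (· (Pi.single 0 1) 0) h3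
  rw [h, h (N _)] at b3
  rw [← C.lin0, hN, C.lin_x]
  simpa using b3

include C in
theorem no_square [IsDomain A] [Algebra.FormallySmooth k A] (hm : s ∈ m) {τ : G}
    (hτ : ∀ a ∈ m, τ • a ∈ m) (hτp : τ ^ p ^ 2 = 1) (hsτ : Semi m τ s) (hc : Commute σ τ)
    (h2 : τ ^ p ∈ Subgroup.zpowers σ) (h3 : τ ∉ Subgroup.zpowers σ) : False := by
  have : Fact p.Prime := ⟨by rcases hp with rfl | rfl <;> decide⟩
  obtain ⟨C, hC⟩ := classify hp hB hσ h1 hσp hs C hm
  obtain ⟨N, hN, -⟩ := C.exists_lin hσ p (n := 1) (by rwa [pow_one])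
  have key : ∀ a, (∀ j, C.lin (dl k σ (C.x j)) 0 = 0) → C.lin (dl k τ (dl k σ a)) 0 = 0 :=
    fun a h => by
      rw [← dl_comm hc, hN, apply3]
      simp only [hN, C.lin_x] at h
      simp [h]
  have w1 : ∀ {a b c}, a < b → a < c → 0 < a → cf 1 0 0 (C.T (dl k τ (C.x 0))) = 0 →
      WGe ![a, b, c] (a + 1) (C.T (dl k τ (C.x 0))) := fun {a b c} _ _ _ h =>
    wge3.2 fun i j l hd => by
      obtain rfl : j = 0 := by nlinarith
      obtain rfl : l = 0 := by nlinarith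
      obtain rfl | rfl : i = 0 ∨ i = 1 := by
        have : i < 2 := by nlinarith
        omega
      exacts [C.cf0 (C.dl_mem hτ _), h]
  rcases hC with ⟨e, a, a', hC⟩ | ⟨rfl, hC⟩
  · have ha : 0 < a := by have := hC.num; omega
    have hS : WGe ![a, a + 1, a + 2] (a + 2) (C.T s) := hC.x2 ▸ C.wx _ 2
    have sh : C.Shift ![a, a + 1, a + 2] 1 σ := C.shift3 hσ (hC.x1 ▸ C.wx _ 1)
      (wge3.2 fun i j l hd => by
        obtain rfl : l = 0 := by nlinarith
        rcases hC.num with ⟨-, rfl, rfl, -⟩ | ⟨-, rfl, rfl, -⟩ <;>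
          exact hC.van i j (by omega) (by omega))
      (hC.x2 ▸ C.semi_wge hs hS (le_w (by omega)))
    have b0 := w1 (by omega : a < a + 1) (by omega : a < a + 2) ha (lin_tau hp C hτ hτp
      (hC.x1 ▸ key _ fun j => by
        fin_cases j
        · simp [hC.x1, C.lin_x]
        · rcases hC.num with ⟨-, rfl, rfl, -⟩ | ⟨-, rfl, rfl, -⟩ <;>
            exact C.lin0 _ ▸ hC.van 1 0 (by omega) (by omega)
        · simp [hC.x2, C.lin_semi hσ hm hs]) (by simp [hC.x2, C.lin_semi hτ hm hsτ]))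
    have : a + 2 + 2 * (p - 1) < a + (a + 1) + (a + 2) := hB.b2 C _ _ σ τ
      ⟨by simp, by simp, .inr ⟨1, 0, rfl⟩⟩ hS h1 hσp hc h2 h3 sh (C.shift3 hτ b0
        (by rw [← hC.x1, ← dl_comm hc]; exact sh _ _ b0)
        (hC.x2 ▸ C.semi_wge hsτ hS (le_w (by omega))))
    have := hC.num
    omega
  · have sh : C.Shift ![1, 2, 3] 1 σ := C.shift3 hσ (hC.x1 ▸ C.wx _ 1) (hC.x2 ▸ C.wx _ 2)
      (by rw [hC.x3, map_zero]; exact wge_zero)
    have h4 : ∀ j, C.lin (dl k σ (C.x j)) 0 = 0 := fun j => by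
      fin_cases j <;> simp [hC.x1, hC.x2, hC.x3, C.lin_x]
    have b0 := w1 (by omega : 1 < 2) (by omega : 1 < 3) one_pos (lin_tau hp C hτ hτp
      (hC.x1 ▸ key _ h4) (hC.x2 ▸ key _ h4))
    have b1 : WGe ![1, 2, 3] (2 + 1) (C.T (dl k τ (C.x 1))) := by
      rw [← hC.x1, ← dl_comm hc]; exact sh _ _ b0
    have : 1 * 2 + 2 * (3 - 1) < 1 + 2 + 3 := hB.b2 C _ _ σ τ (by decide)
      (C.wsq hm hC.sq (le_w (by omega))) h1 hσp hc h2 h3 sh (C.shift3 hτ b0 b1
        (by rw [← hC.x2, ← dl_comm hc]; exact sh _ _ b1))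
    omega

end Pool.Agent.Lib.MP_5f81cf_ag
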