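import Pool.Agent.Lib.MP_5f81cf_ag.Normal

/-! Coefficient calculus for an automorphism fixing a point. -/

namespace Pool.Agent.Lib.MP_5f81cf_ag

open MvPowerSeries Finsupp

section cf

variable {k : Type} [Field k] {w : Fin 3 → ℕ} {n : ℕ} {φ ψ : MvPowerSeries (Fin 3) k}

/-- The exponent `(a, b, c)`. -/
noncomputable def ex (a b c : ℕ) : Fin 3 →₀ ℕ := equivFunOnFinite.symm ![a, b, c]

@[simp] lemma ex0 (a b c : ℕ) : ex a b c 0 = a := rfl
@[simp] lemma ex1 (a b c : ℕ) : ex a b c 1 = b := rfl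
@[simp] lemma ex2 (a b c : ℕ) : ex a b c 2 = c := rfl

lemma ext3 {d e : Fin 3 →₀ ℕ} : d = e ↔ d 0 = e 0 ∧ d 1 = e 1 ∧ d 2 = e 2 :=
  ⟨fun h => by simp [h], fun h => by ext i; fin_cases i <;> simp [h]⟩

lemma eq_ex (d : Fin 3 →₀ ℕ) : d = ex (d 0) (d 1) (d 2) := by simp [ext3]

/-- The coefficient of `X₀^a X₁^b X₂^c`. -/
noncomputable def cf (a b c : ℕ) : MvPowerSeries (Fin 3) k →ₗ[k] k := coeff (ex a b c)

lemma wge_cf : WGe w n φ ↔ ∀ a b c, a * w 0 + b * w 1 + c * w 2 < n → cf a b c φ = 0 :=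
  ⟨fun h a b c hd => h _ (by simpa [weight3] using hd),
    fun h d hd => by rw [eq_ex d]; exact h _ _ _ (by simpa [weight3] using hd)⟩

lemma WGe.cf (h : WGe w n φ) {a b c : ℕ} (hd : a * w 0 + b * w 1 + c * w 2 < n) :
    cf a b c φ = 0 := wge_cf.1 h a b c hd

lemma cf_ext (h : ∀ a b c, cf a b c φ = cf a b c ψ) : φ = ψ := by
  ext d; rw [eq_ex d]; exact h _ _ _

lemma cf_X0 (a b c : ℕ) : cf a b c (X 0 * φ) = if a = 0 then 0 else cf (a - 1) b c φ := by
  rw [cf, X_def, coeff_monomial_mul, one_mul, show ex a b c - single 0 1 = ex (a - 1) b c by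
    simp [ext3]]
  simp [Nat.one_le_iff_ne_zero, cf]

lemma cf_X1 (a b c : ℕ) : cf a b c (X 1 * φ) = if b = 0 then 0 else cf a (b - 1) c φ := by
  rw [cf, X_def, coeff_monomial_mul, one_mul, show ex a b c - single 1 1 = ex a (b - 1) c by
    simp [ext3]]
  simp [Nat.one_le_iff_ne_zero, cf]

lemma cf_X2 (a b c : ℕ) : cf a b c (X 2 * φ) = if c = 0 then 0 else cf a b (c - 1) φ := by
  rw [cf, X_def, coeff_monomial_mul, one_mul, show ex a b c - single 2 1 = ex a b (c - 1) by
    simp [ext3]]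
  simp [Nat.one_le_iff_ne_zero, cf]

lemma cf_monomial (a b c : ℕ) (d : Fin 3 →₀ ℕ) (r : k) :
    cf a b c (monomial d r) = if a = d 0 ∧ b = d 1 ∧ c = d 2 then r else 0 := by
  classical
  simp [cf, coeff_monomial, ext3]

lemma cf_X (a b c : ℕ) (i : Fin 3) : cf a b c (X i : MvPowerSeries (Fin 3) k) =
    if a = single i 1 0 ∧ b = single i 1 1 ∧ c = single i 1 2 then 1 else 0 :=
  cf_monomial _ _ _ _ _

lemma cf_X0_pow (a b c e : ℕ) : cf (a + e) b c (X 0 ^ e * φ) = cf a b c φ := by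
  rw [cf, X_pow_eq, show ex (a + e) b c = single 0 e + ex a b c by simp [ext3, add_comm],
    coeff_add_monomial_mul, one_mul, cf]

lemma cf_d0 (a b c : ℕ) : cf a b c (pderiv k 0 φ) = cf (a + 1) b c φ * (a + 1) := by
  rw [cf, coeff_pderiv, show ex a b c + single 0 1 = ex (a + 1) b c by simp [ext3]]; rfl

lemma cf_d1 (a b c : ℕ) : cf a b c (pderiv k 1 φ) = cf a (b + 1) c φ * (b + 1) := by
  rw [cf, coeff_pderiv, show ex a b c + single 1 1 = ex a (b + 1) c by simp [ext3]]; rfl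

lemma WGe.deriv {ι : Type} {w : ι → ℕ} {φ : MvPowerSeries ι k} (h : WGe w n φ) (i : ι) :
    WGe w (n - w i) (pderiv k i φ) := fun d hd => by
  rw [coeff_pderiv, h _ (by rw [map_add, weight_single, one_smul]; omega), zero_mul]

lemma WGe.of_unit_mul {u : MvPowerSeries (Fin 3) k} (hu : IsUnit u) (h : WGe w n (u * φ)) :
    WGe w n φ := by
  obtain ⟨v, hv⟩ := hu.exists_left_inv
  simpa [← mul_assoc, hv] using h.mul_left v

end cf

variable {k A G : Type} [Field k] [CommRing A] [Algebra k A] [Group G] [MulSemiringAction G A]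
  [SMulCommClass G k A] {m : Ideal A}

variable (k) in
/-- The operator `σ - 1`. -/
def dl (σ : G) : Module.End k A := DistribMulAction.toModuleEnd k A σ - 1

lemma dl_apply (σ : G) (a : A) : dl k σ a = σ • a - a := rfl

lemma dl_mul (σ : G) (a b : A) :
    dl k σ (a * b) = dl k σ a * b + a * dl k σ b + dl k σ a * dl k σ b := by
  simp only [dl_apply, smul_mul']; ring

lemma dl_pow (p : ℕ) [hp : Fact p.Prime] [CharP k p] (σ : G) :
    (dl k σ : Module.End k A) ^ p = dl k (σ ^ p) := by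
  conv_lhs => rw [← Nat.sub_add_cancel hp.out.one_le, pow_succ, dl, ← geom_char p, geom_sum_mul]
  rw [dl, map_pow]

lemma dl_one : (dl k (1 : G) : Module.End k A) = 0 := by rw [dl, map_one, sub_self]

lemma dl_comm {σ τ : G} (h : Commute σ τ) (a : A) : dl k σ (dl k τ a) = dl k τ (dl k σ a) := by
  simp only [dl_apply, smul_sub, smul_smul, h.eq]; ring

/-- `σ` multiplies `s` by a local unit with value one. -/
def Semi (m : Ideal A) (σ : G) (s : A) : Prop :=
  ∃ u e, u ∉ m ∧ e ∈ m ∧ u * (σ • s - s) = s * e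

omit [SMulCommClass G k A] in
lemma norm_eq [IsDomain A] {σ : G} {u c s : A} (h : u * σ • s = s * c) (hs : s ≠ 0) {N : ℕ}
    (hN : σ ^ N = 1) : ∏ j ∈ Finset.range N, σ ^ j • u = ∏ j ∈ Finset.range N, σ ^ j • c := by
  have : ∀ n, (∏ j ∈ Finset.range n, σ ^ j • u) * σ ^ n • s =
      s * ∏ j ∈ Finset.range n, σ ^ j • c := by
    intro n
    induction n with
    | zero => simp
    | succ n ih =>
      have := congrArg (σ ^ n • ·) h
      simp only [smul_mul', smul_smul, ← pow_succ] at this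
      rw [Finset.prod_range_succ, Finset.prod_range_succ, mul_assoc, this, ← mul_assoc, ih,
        mul_assoc]
  have h1 := this N
  rw [hN, one_smul, mul_comm] at h1
  exact mul_left_cancel₀ hs h1

namespace Chart

variable (C : Chart (Fin 3) k m) {σ : G} (hσ : ∀ a ∈ m, σ • a ∈ m) {w : Fin 3 → ℕ}
include hσ

include C in
lemma dl_mem (a : A) : dl k σ a ∈ m := by
  obtain ⟨c, hc⟩ := C.exists_const a
  have := sub_mem (hσ _ hc) hc
  rwa [smul_sub, smul_algebraMap, sub_sub_sub_cancel_right] at this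

include C in
lemma semi [IsDomain A] [m.IsPrime] {s u c : A} (hs : s ≠ 0) (hu : u ∉ m) (h : u * σ • s = s * c)
    (p : ℕ) [hp : Fact p.Prime] [CharP k p] {n : ℕ} (hN : σ ^ p ^ n = 1) : Semi m σ s := by
  refine ⟨u, c - u, hu, ?_, by linear_combination h⟩
  have h1 : ∀ (j : ℕ) (a : A), constantCoeff (C.T (σ ^ j • a)) = constantCoeff (C.T a) := by
    intro j a
    induction j with
    | zero => simp
    | succ j ih =>
      have := (C.mem_iff_coeff _).1 (C.dl_mem hσ (σ ^ j • a))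
      rw [dl_apply, smul_smul, ← pow_succ', map_sub, map_sub, sub_eq_zero] at this
      exact this.trans ih
  have h2 := congrArg (fun a => constantCoeff (C.T a)) (norm_eq h hs hN)
  simp only [map_prod, h1, Finset.prod_const, Finset.card_range] at h2
  rw [C.mem_iff_coeff, map_sub, map_sub, sub_eq_zero]
  exact (iterateFrobenius_inj k p n h2).symm

lemma shift_cap {i c : ℕ} (h : ∀ j, WGe w (min (w j + i) c) (C.T (dl k σ (C.x j))))
    (h' : ∀ j, WGe w (w j) (C.T (dl k σ (C.x j)))) {n : ℕ} {a : A} (ha : WGe w n (C.T a)) :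
    WGe w (min (n + i) c) (C.T (dl k σ a)) := by
  rw [dl_apply, map_sub]
  refine C.shift (MulSemiringAction.toAlgHom k A σ) hσ i c (fun j => ?_) (fun j => ?_) ha
  · simpa [dl_apply, C.T_x] using h j
  · simpa [dl_apply, C.T_x] using (h' j).add (wge_X j)

lemma shift_of {i : ℕ} (h : ∀ j, WGe w (w j + i) (C.T (dl k σ (C.x j)))) : C.Shift w i σ :=
  fun n _ ha => by
    simpa [dl_apply] using C.shift_cap hσ (c := n + i) (fun j => (h j).mono (min_le_left _ _))
      (fun j => (h j).mono (by omega)) ha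

lemma taylor {i : ℕ} (h : ∀ j, WGe w (w j + i) (C.T (dl k σ (C.x j)))) {n : ℕ} {a : A}
    (ha : WGe w n (C.T a)) : WGe w (n + 2 * i)
      (C.T (dl k σ a) - ∑ j, C.T (dl k σ (C.x j)) * pderiv k j (C.T a)) := by
  let E : A → MvPowerSeries (Fin 3) k := fun a =>
    C.T (dl k σ a) - ∑ j, C.T (dl k σ (C.x j)) * pderiv k j (C.T a)
  have hE : ∀ a b, E (a + b) = E a + E b := fun a b => by
    simp only [E, map_add, mul_add, Finset.sum_add_distrib]; ring
  intro d hd
  obtain ⟨P, h1, h2⟩ := C.exists_poly a (weight (fun _ => 1) d + 2)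
  have h3 := wge_poly_induction (w := w) (p := fun n P => WGe w n (P : MvPowerSeries (Fin 3) k) ∧
    WGe w (n + 2 * i) (E (MvPolynomial.aeval C.x P))) (fun c => ⟨wge_bot _, by
      simpa [E, dl_apply, smul_algebraMap] using wge_zero⟩) (fun n P j ⟨h3, h4⟩ => ⟨by
      rw [MvPolynomial.coe_mul, MvPolynomial.coe_X]; exact h3.mul (wge_X j), by
      have h5 := C.shift_of hσ h n _ ((C.T_aeval P).symm ▸ h3)
      convert (h4.mul' (wge_X j) (l := n + w j + 2 * i) (by omega)).add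
        (h5.mul' (h j) (by omega)) using 1
      simp only [E, map_mul, MvPolynomial.aeval_X, dl_mul, map_add, C.T_x, Derivation.leibniz,
        pderiv_X, smul_eq_mul, mul_add, Pi.single_apply, mul_ite, mul_one, mul_zero,
        ← dl_apply (k := k), Fin.sum_univ_three]
      fin_cases j <;> simp <;> ring⟩) (fun n => by simp [E, wge_zero])
    (fun n P Q h3 h4 => ⟨by rw [MvPolynomial.coe_add]; exact h3.1.add h4.1, by
      rw [map_add, hE]; exact h3.2.add h4.2⟩)
    (fun n l P hl h3 => ⟨WGe.mono h3.1 hl, WGe.mono h3.2 (by omega)⟩) (h2 w n ha)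
  have h4 : WGe (fun _ => 1) (weight (fun _ => 1) d + 1) (E (a - MvPolynomial.aeval C.x P)) := by
    have h5 := (C.mem_pow _ _).2 h1
    refine WGe.sub ?_ (WGe.sum fun j _ => ((h5.deriv j).mono (by omega)).mul_left _)
    rw [dl_apply, map_sub]
    exact ((wge_of_mem_pow (C.T.comp (MulSemiringAction.toAlgHom k A σ))
      (fun a ha => (C.mem_iff _).1 (hσ a ha)) _ _ h1).sub h5).mono (by omega)
  change coeff d (E a) = 0
  rw [← sub_add_cancel a (MvPolynomial.aeval C.x P), hE, map_add, h3.2 d hd, h4 d (by omega),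
    add_zero]

lemma exists_lin (p : ℕ) [hp : Fact p.Prime] [CharP k p] {n : ℕ} (hN : σ ^ p ^ n = 1) :
    ∃ N : Module.End k (Fin 3 → k), (∀ a, C.lin (dl k σ a) = N (C.lin a)) ∧ N ^ 3 = 0 := by
  let N : Module.End k (Fin 3 → k) :=
    ∑ i, (LinearMap.proj i).smulRight (C.lin (dl k σ (C.x i)))
  have h1 : ∀ a, C.lin (dl k σ a) = N (C.lin a) := fun a => by
    obtain ⟨c, hc⟩ := C.exists_const a
    have h2 := (C.mem_pow _ _).2 (C.sub_lin_mem hc)
    have h3 := C.shift_cap hσ (w := fun _ => 1) (i := 0) (c := 2)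
      (fun j => ((C.mem_iff _).1 (C.dl_mem hσ _)).mono (by simp))
      (fun j => (C.mem_iff _).1 (C.dl_mem hσ _)) h2
    have h4 : C.lin (algebraMap k A c) = 0 := by ext i; simp [C.lin_eq]
    rw [add_zero, min_self, C.mem_pow, C.mem_sq_iff (C.dl_mem hσ _)] at h3
    simpa [N, sub_eq_zero, h4, dl_apply σ (algebraMap k A c), smul_algebraMap] using h3
  have h2 : ∀ (j : ℕ) a, C.lin ((dl k σ ^ j) a) = (N ^ j) (C.lin a) := fun j a => by
    induction j with
    | zero => simp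
    | succ j ih => rw [pow_succ', pow_succ', Module.End.mul_apply, h1, ih]; rfl
  have h3 : ∀ j : ℕ, (dl k σ : Module.End k A) ^ p ^ j = dl k (σ ^ p ^ j) := fun j => by
    induction j with
    | zero => simp
    | succ j ih => rw [pow_succ, pow_mul, pow_mul, ih, dl_pow]
  have h4 : N ^ (p ^ n + 3) = 0 := by
    refine LinearMap.ext fun v => ?_
    obtain ⟨a, -, rfl⟩ := C.lin_surj v
    rw [← h2, pow_add, h3, hN, dl_one]; simp
  refine ⟨N, h1, LinearMap.ker_eq_top.1 ?_⟩
  have := Module.End.ker_pow_eq_ker_pow_finrank_of_le (f := N) (m := p ^ n + 3) (by simp)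
  rw [h4, Module.finrank_fin_fun] at this
  exact this ▸ LinearMap.ker_zero

omit hσ

lemma lin0 (a : A) : C.lin a 0 = cf 1 0 0 (C.T a) := by
  rw [cf, show ex 1 0 0 = single 0 1 by simp [ext3]]; rfl

lemma lin1 (a : A) : C.lin a 1 = cf 0 1 0 (C.T a) := by
  rw [cf, show ex 0 1 0 = single 1 1 by simp [ext3]]; rfl

lemma lin2 (a : A) : C.lin a 2 = cf 0 0 1 (C.T a) := by
  rw [cf, show ex 0 0 1 = single 2 1 by simp [ext3]]; rfl

lemma cf0 {a : A} (ha : a ∈ m) : cf 0 0 0 (C.T a) = 0 := by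
  rw [cf, show ex 0 0 0 = 0 by simp [ext3]]; exact (C.mem_iff_coeff a).1 ha

omit [SMulCommClass G k A] in
lemma semi_eq {s : A} (h : Semi m σ s) : ∃ V, WGe (fun _ => 1) 1 V ∧ C.T (σ • s - s) = C.T s * V := by
  obtain ⟨u, e, hu, he, h⟩ := h
  obtain ⟨v, hv⟩ := (C.isUnit_T hu).exists_left_inv
  refine ⟨v * C.T e, ((C.mem_iff e).1 he).mul_left v, ?_⟩
  rw [mul_left_comm, ← map_mul, ← h, map_mul, ← mul_assoc, hv, one_mul]

lemma semi_wge {s : A} (h : Semi m σ s) {n c : ℕ} (hs : WGe w n (C.T s)) (hc : ∀ i, c ≤ w i) :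
    WGe w (n + c) (C.T (dl k σ s)) := by
  obtain ⟨V, h1, h2⟩ := C.semi_eq h
  rw [dl_apply, h2]
  exact hs.mul (by simpa using h1.of_one hc)

end Chart

end Pool.Agent.Lib.MP_5f81cf_ag
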