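import Pool.Agent.Lib.MP_5f81cf_ag.Bound

/-! A curve on a smooth threefold is a coordinate axis near a general point. -/

namespace Pool.Agent.Lib.MP_5f81cf_ag

open MvPowerSeries Finsupp

variable {k A : Type} [Field k] [CommRing A] [Algebra k A] {m : Ideal A}

lemma exists_sep [IsAlgClosed k] (p : ℕ) [hp : Fact p.Prime] [CharP k p] [IsDomain A]
    [Algebra.FiniteType k A]
    (h : ∀ Q Q' : Ideal A, Q.IsPrime → Q'.IsPrime → Q ≠ ⊥ → ¬ Q < Q') :
    ∃ t : A, ∀ a : A, ∃ (f : A) (e : Fin p → A), f ≠ 0 ∧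
      f ^ p * a + ∑ j, e j ^ p * t ^ (j : ℕ) = 0 := by
  classical
  obtain ⟨s, g, hg, hint⟩ := exists_integral_inj_algHom_of_fg k A
  have hs : s ≤ 1 := by
    by_contra! hs
    let := g.toRingHom.toAlgebra
    have : Algebra.IsIntegral (MvPolynomial (Fin s) k) A := ⟨hint⟩
    let θ : MvPolynomial (Fin s) k →ₐ[k] MvPolynomial (Fin s) k :=
      MvPolynomial.aeval fun i => if i = ⟨0, by omega⟩ then 0 else MvPolynomial.X i
    have h1 := RingHom.ker_isPrime θ
    have h2 := RingHom.ker_isPrime (MvPolynomial.aeval (R := k) fun _ : Fin s => (0 : k))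
    have h3 : RingHom.ker θ ≤ RingHom.ker (MvPolynomial.aeval (R := k) fun _ : Fin s => (0 : k)) := by
      intro P hP
      have : (MvPolynomial.aeval (R := k) fun _ : Fin s => (0 : k)).comp θ =
          MvPolynomial.aeval fun _ => 0 := by
        ext i; simp only [θ, AlgHom.comp_apply, MvPolynomial.aeval_X]; split_ifs <;> simp
      rw [RingHom.mem_ker, ← this, AlgHom.comp_apply, RingHom.mem_ker.1 hP, map_zero]
    obtain ⟨Q, -, hQ, hQ1⟩ := Ideal.exists_ideal_over_prime_of_isIntegral (S := A) (RingHom.ker θ) ⊥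
      (by rw [Ideal.comap_bot_of_injective (algebraMap _ A) hg]; exact bot_le)
    obtain ⟨Q', h4, hQ', hQ2⟩ := Ideal.exists_ideal_over_prime_of_isIntegral (S := A) _ Q
      (hQ1 ▸ h3)
    refine h Q Q' hQ hQ' (fun h0 => ?_) (lt_of_le_of_ne h4 fun h0 => ?_)
    · have : MvPolynomial.X ⟨0, by omega⟩ ∈ RingHom.ker θ := by simp [θ]
      rw [← hQ1, h0, Ideal.comap_bot_of_injective (algebraMap _ A) hg] at this
      exact MvPolynomial.X_ne_zero _ this
    · have : MvPolynomial.X ⟨1, hs⟩ ∈ RingHom.ker θ := by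
        rw [← hQ1, h0, hQ2]; simp
      simp [θ] at this
  let L := FractionRing A
  have : CharP L p := charP_of_injective_algebraMap (algebraMap k L).injective p
  have : CharP A p := charP_of_injective_algebraMap (algebraMap k A).injective p
  let y : Fin s → L := fun i => algebraMap A L (g (MvPolynomial.X i))
  let L0 := IntermediateField.adjoin k (Set.range y)
  have : Algebra.EssFiniteType A L := Algebra.EssFiniteType.of_isLocalization L (nonZeroDivisors A)
  have : Algebra.EssFiniteType k L := Algebra.EssFiniteType.comp k A L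
  have : Algebra.EssFiniteType L0 L := Algebra.EssFiniteType.of_comp k L0 L
  have hA : ∀ a : A, IsIntegral L0 (algebraMap A L a) := fun a => by
    refine RingHom.IsIntegralElem.of_comp (f := (MvPolynomial.aeval (R := k) fun i =>
      (⟨y i, IntermediateField.subset_adjoin k _ ⟨i, rfl⟩⟩ : L0)).toRingHom) ?_
    convert (hint a).map (algebraMap A L) using 1
    ext i
    · simp [← IsScalarTower.algebraMap_apply]
    · simp [y]
  have : Algebra.IsAlgebraic L0 L := ⟨frac_induction (A := A) (fun a => (hA a).isAlgebraic)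
    fun a b _ h1 h2 => by rw [div_eq_mul_inv]; exact h1.mul h2.inv⟩
  have : Module.Finite L0 L := Algebra.finite_of_essFiniteType_of_isAlgebraic
  have : Module.Finite (⊤ : Subfield L) L :=
    Module.Finite.of_surjective (Algebra.linearMap _ _) fun x => ⟨⟨x, trivial⟩, rfl⟩
  have hdep := dep_of_finite (k := k) y p ⊤
  by_cases ht : ∃ t : A, algebraMap A L t ∉ Pw p ⊤
  · obtain ⟨t, ht⟩ := ht
    refine ⟨t, fun a => ?_⟩
    obtain ⟨c, -, hc0, hc⟩ := hdep (Option (Fin p)) (fun o => algebraMap A L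
      (o.elim a fun j => t ^ (j : ℕ))) (fun _ => trivial) (by
        rw [Fintype.card_option, Fintype.card_fin, Fintype.card_fin]
        exact Nat.lt_succ_of_le ((Nat.pow_le_pow_right hp.out.pos hs).trans_eq (pow_one p)))
    rw [Fintype.sum_option] at hc
    have h1 : c none ≠ 0 := fun h0 => by
      have := indep_pow p (Pw p ⊤) ((mem_Pw p).2 ⟨_, trivial, rfl⟩) ht (fun j => c (some j) ^ p)
        (fun j => (mem_Pw p).2 ⟨_, trivial, rfl⟩) (by simpa [h0, hp.out.ne_zero] using hc)
      obtain ⟨_ | j, hj⟩ := hc0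
      · exact hj h0
      · exact hj (pow_eq_zero_iff hp.out.ne_zero |>.1 (this j))
    obtain ⟨b, hb⟩ := IsLocalization.exist_integer_multiples_of_finite (nonZeroDivisors A) c
    choose e he using hb
    refine ⟨e none, fun j => e (some j), fun h0 => ?_, IsFractionRing.injective A L ?_⟩
    · have := he none
      rw [h0, map_zero, eq_comm, smul_eq_zero] at this
      exact this.elim (nonZeroDivisors.coe_ne_zero b) h1
    · simp only [map_add, map_mul, map_pow, map_sum, he, Algebra.smul_def, mul_pow, map_zero,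
        mul_assoc, ← Finset.mul_sum, ← mul_add, Option.elim] at hc ⊢
      rw [hc, mul_zero]
  · push Not at ht
    refine ⟨0, fun a => ?_⟩
    obtain ⟨z, -, hz⟩ := (mem_Pw p).1 (ht a)
    obtain ⟨α, β, hβ, rfl⟩ := IsFractionRing.div_surjective (A := A) z
    replace hβ := nonZeroDivisors.ne_zero hβ
    refine ⟨β, Pi.single ⟨0, hp.out.pos⟩ (-α), hβ, ?_⟩
    rw [Finset.sum_eq_single ⟨0, hp.out.pos⟩ (fun j _ hj => by
      rw [Pi.single_eq_of_ne hj, zero_pow hp.out.ne_zero, zero_mul])
      (by simp), Pi.single_eq_same, pow_zero, mul_one, neg_pow, neg_one_pow_char, neg_one_mul,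
      add_neg_eq_zero]
    apply IsFractionRing.injective A L
    rw [map_mul, ← hz, div_pow, map_pow, map_pow,
      mul_div_cancel₀ _ (pow_ne_zero _ (by simpa using hβ))]

namespace Chart

variable (C : Chart (Fin 3) k m)

lemma lin_eq (a : A) (i : Fin 3) : C.lin a i = constantCoeff (pderiv k i (C.T a)) := by
  rw [← coeff_zero_eq_constantCoeff_apply, coeff_pderiv]; simp [lin]

lemma lin_mul (a b : A) : C.lin (a * b) =
    constantCoeff (C.T a) • C.lin b + constantCoeff (C.T b) • C.lin a := by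
  ext i; simp [lin_eq]

lemma lin_pow_char (p : ℕ) [CharP k p] (a : A) : C.lin (a ^ p) = 0 := by
  ext i; simp [lin_eq]

lemma lin_surj (v : Fin 3 → k) : ∃ a ∈ m, C.lin a = v :=
  ⟨∑ i, v i • C.x i, sum_mem fun i _ => m.smul_of_tower_mem _ (C.x_mem i), by
    ext j; simp [lin_x, Pi.single_apply]⟩

include C in
lemma height_le [IsNoetherianRing A] [m.IsPrime] : m.height ≤ 3 := by
  refine (Ideal.height_le_card_of_mem_minimalPrimes_span (s := Set.range C.x) (Set.finite_range _)
    ⟨⟨inferInstance, Ideal.span_le.2 (by rintro _ ⟨i, rfl⟩; exact C.x_mem i)⟩,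
      fun Q hQ hle a ha => ?_⟩).trans ?_
  · obtain ⟨u, hu, h⟩ := C.mem_vars Q (fun i _ => hQ.2 (Ideal.subset_span ⟨i, rfl⟩))
      ((C.mem_iff a).1 ha)
    exact (hQ.1.mem_or_mem h).resolve_left fun h => hu (hle h)
  · rw [← Set.image_univ]
    exact_mod_cast (Set.ncard_image_le).trans (by simp)

lemma ctr_lt [IsDomain A] : C.ctr ![0, 1, 1] < m :=
  lt_of_le_of_ne (C.ctr_le _) fun h => by
    simpa using C.x_mem_ctr.1 (h.ge (C.x_mem 0))

end Chart

variable [IsAlgClosed k] [IsDomain A] [Algebra.Smooth k A] (hdim : Algebra.trdeg k A = 3)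
include hdim

lemma no_chain {I J L M : Ideal A} [I.IsPrime] [J.IsPrime] [L.IsPrime] [M.IsPrime] (h0 : ⊥ < I)
    (h1 : I < J) (h2 : J < L) (h3 : L < M) : False := by
  have := Algebra.FiniteType.isNoetherianRing k A
  obtain ⟨m, hm, hle⟩ := M.exists_le_maximal Ideal.IsPrime.ne_top'
  obtain ⟨C⟩ := exists_chart3 hdim hm
  have : (2 : ℕ∞) + 1 + 1 ≤ 3 :=
    calc (2 : ℕ∞) + 1 + 1 ≤ J.height + 1 + 1 := by gcongr; exact two_le_height h0 h1
      _ ≤ L.height + 1 := by gcongr; exact Ideal.height_add_one_le_of_lt_of_isPrime h2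
      _ ≤ M.height := Ideal.height_add_one_le_of_lt_of_isPrime h3
      _ ≤ 3 := (Ideal.height_mono hle).trans C.height_le
  exact absurd this (by decide)

theorem good_point (p : ℕ) [hp : Fact p.Prime] [CharP k p] {P n : Ideal A} [P.IsPrime]
    [hn : n.IsPrime] (h0 : ⊥ < P) (h1 : P < n) (h2 : ¬ n.IsMaximal) :
    ∃ m : Ideal A, m.IsMaximal ∧ ∃ C : Chart (Fin 3) k m, n = C.ctr ![0, 1, 1] := by
  classical
  have := Algebra.FiniteType.isNoetherianRing k A
  obtain ⟨t, ht⟩ := exists_sep (k := k) (A := A ⧸ n) p fun Q Q' hQ hQ' h3 h4 => by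
    have hi := Ideal.comap_injective_of_surjective _ (Ideal.Quotient.mk_surjective (I := n))
    refine no_chain hdim (L := Q.comap (Ideal.Quotient.mk n)) (M := Q'.comap (Ideal.Quotient.mk n))
      h0 h1 (lt_of_le_of_ne (Ideal.mk_ker.ge.trans (Ideal.ker_le_comap _)) fun h => h3 (hi ?_))
      (lt_of_le_of_ne (Ideal.comap_mono h4.le) (hi.ne h4.ne))
    rw [← h, ← RingHom.ker_eq_comap_bot, Ideal.mk_ker]
  obtain ⟨t, rfl⟩ := Ideal.Quotient.mk_surjective t
  have ht' : ∀ a : A, ∃ (f : A) (e : Fin p → A), f ∉ n ∧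
      f ^ p * a + ∑ j, e j ^ p * t ^ (j : ℕ) ∈ n := fun a => by
    obtain ⟨f, e, h3, h4⟩ := ht (Ideal.Quotient.mk n a)
    obtain ⟨f, rfl⟩ := Ideal.Quotient.mk_surjective f
    choose e' he using fun j => Ideal.Quotient.mk_surjective (e j)
    exact ⟨f, e', fun h => h3 (Ideal.Quotient.eq_zero_iff_mem.2 h),
      Ideal.Quotient.eq_zero_iff_mem.1 (by simpa [he] using h4)⟩
  choose f e hf he using ht'
  obtain ⟨s, hs⟩ := (inferInstance : Algebra.FiniteType k A).out
  have : IsJacobsonRing A := isJacobsonRing_of_finiteType (A := k)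
  obtain ⟨m, ⟨hle, hm⟩, hfm⟩ : ∃ m ∈ {J : Ideal A | n ≤ J ∧ J.IsMaximal}, ∏ a ∈ s, f a ∉ m := by
    by_contra! h
    have : ∏ a ∈ s, f a ∈ n.jacobson := Submodule.mem_sInf.2 h
    rw [← Ideal.radical_eq_jacobson, hn.radical, hn.prod_mem_iff] at this
    obtain ⟨a, -, ha⟩ := this
    exact hf a ha
  obtain ⟨C⟩ := exists_chart3 hdim hm
  let W := (n.restrictScalars k).map C.lin
  let S : Subalgebra k A :=
    { carrier := {a | C.lin a ∈ W ⊔ k ∙ C.lin t}
      mul_mem' := fun ha hb => by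
        simpa [C.lin_mul] using add_mem (Submodule.smul_mem _ _ hb) (Submodule.smul_mem _ _ ha)
      add_mem' := fun ha hb => by simpa using add_mem ha hb
      algebraMap_mem' := fun c => by
        have : C.lin (algebraMap k A c) = 0 := by ext i; simp [C.lin_eq]
        simp [this] }
  have hS : ∀ a, a ∈ S := fun a => (hs ▸ Algebra.adjoin_le fun a ha => ?_ : ⊤ ≤ S) trivial
  swap
  · have h3 : f a ^ p * a ∈ S := by
      have h4 : _ ∈ S := Submodule.mem_sup_left ⟨_, he a, rfl⟩
      refine (add_mem_cancel_right (sum_mem fun j _ => mul_mem ?_ (pow_mem ?_ _))).1 h4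
      · change C.lin _ ∈ W ⊔ k ∙ C.lin t
        rw [C.lin_pow_char]; exact zero_mem _
      · exact Submodule.mem_sup_right (Submodule.mem_span_singleton_self _)
    change C.lin _ ∈ W ⊔ k ∙ C.lin t at h3
    rw [C.lin_mul, C.lin_pow_char, smul_zero, add_zero, Submodule.smul_mem_iff] at h3
    · exact h3
    · rw [map_pow, map_pow]
      exact pow_ne_zero _ fun h => hfm (m.mem_of_dvd (Finset.dvd_prod_of_mem f ha)
        ((C.mem_iff_coeff _).2 h))
  have h3 : 2 ≤ Module.finrank k W := by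
    have h4 : W ⊔ k ∙ C.lin t = ⊤ := eq_top_iff.2 fun v _ => by
      obtain ⟨a, -, rfl⟩ := C.lin_surj v
      exact hS a
    have h5 := Submodule.finrank_add_le_finrank_add_finrank W (k ∙ C.lin t)
    have h6 := finrank_span_le_card (R := k) {C.lin t}
    rw [h4, finrank_top, Module.finrank_fin_fun] at h5
    simp only [Set.toFinset_singleton, Finset.card_singleton] at h6
    omega
  obtain ⟨v, hv⟩ := exists_linearIndependent_of_le_finrank h3
  obtain ⟨x, hx⟩ := exists_linearIndependent_cons_of_lt_finrank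
    (hv.map' W.subtype W.ker_subtype) (by simp)
  obtain ⟨x, hxm, rfl⟩ := C.lin_surj x
  obtain ⟨y, hy, hy'⟩ := (v 0).2
  obtain ⟨z, hz, hz'⟩ := (v 1).2
  obtain ⟨C', hC'⟩ := C.change (y := ![x, y, z]) (fun i => by
    fin_cases i
    exacts [hxm, hle hy, hle hz]) (by
    have : (fun i => C.lin (![x, y, z] i)) = Fin.cons (C.lin x) (W.subtype ∘ v) := by
      ext1 i; fin_cases i
      exacts [rfl, hy', hz']
    rw [this]; exact hx)
  refine ⟨m, hm, C', ?_⟩
  have h4 : C'.ctr ![0, 1, 1] ≤ n := fun a ha => by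
    obtain ⟨u, hu, h⟩ := C'.mem_vars n (fun i hi => by
      rw [hC']; fin_cases i
      exacts [absurd rfl hi, hy, hz]) ha
    exact (hn.mem_or_mem h).resolve_left fun h => hu (hle h)
  by_contra hne
  exact no_chain hdim C'.ctr_chain.1 C'.ctr_chain.2 (lt_of_le_of_ne h4 (Ne.symm hne))
    (lt_of_le_of_ne hle fun h => h2 (h ▸ hm))

end Pool.Agent.Lib.MP_5f81cf_ag
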