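import Pool.Agent.Lib.MP_5f81cf_ag.FBlue2
import Pool.Agent.Lib.MP_e06174_ag.Ext
import Pool.Agent.Lib.MP_99f32e_ag.Hartogs

/-! Height one primes of normal Noetherian domains. -/

namespace Pool.Agent.Lib.MP_5f81cf_ag.Full

open Pool.Agent.Lib.MP_e06174_ag IsLocalRing

namespace CaA

variable {k R K : Type} [Field k] [CommRing R] [IsDomain R] [Algebra k R] [Field K] [Algebra k K]
  [Algebra R K] [IsScalarTower k R K] [IsFractionRing R K]

variable (K) in
/-- The localisation at `q` inside the fraction field. -/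
noncomputable abbrev Loc (q : Ideal R) [q.IsPrime] : Subalgebra R K :=
  Localization.subalgebra.ofField K q.primeCompl q.primeCompl_le_nonZeroDivisors

lemma mem_Loc {q : Ideal R} [q.IsPrime] {f : K} :
    f ∈ (algebraMap (Loc K q) K).range ↔
      ∃ a b : R, b ∉ q ∧ f * algebraMap R K b = algebraMap R K a := by
  have h0 : ∀ b : R, b ∉ q → algebraMap R K b ≠ 0 := fun b hb h =>
    hb (by rw [(map_eq_zero_iff _ (IsFractionRing.injective R K)).1 h]; exact q.zero_mem)
  constructor
  · rintro ⟨⟨_, a, b, hb, rfl⟩, rfl⟩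
    exact ⟨a, b, hb, inv_mul_cancel_right₀ (h0 b hb) _⟩
  · rintro ⟨a, b, hb, h⟩
    exact ⟨⟨f, a, b, hb, by rw [← h, mul_inv_cancel_right₀ (h0 b hb)]⟩, rfl⟩

instance (q : Ideal R) [q.IsPrime] : IsLocalRing (Loc K q) :=
  IsLocalization.AtPrime.isLocalRing _ q

instance [IsNoetherianRing R] (q : Ideal R) [q.IsPrime] : IsNoetherianRing (Loc K q) :=
  IsLocalization.isNoetherianRing q.primeCompl _ inferInstance

instance [IsIntegrallyClosed R] (q : Ideal R) [q.IsPrime] : IsIntegrallyClosed (Loc K q) :=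
  isIntegrallyClosed_of_isLocalization _ q.primeCompl q.primeCompl_le_nonZeroDivisors

variable (k) in
lemma place_of_dvr (q : Ideal R) [q.IsPrime] [IsDiscreteValuationRing (Loc K q)] :
    ∃ E : Place k K, HasCentre E q ∧
      ∀ f : K, E.Ge 0 f → ∃ a b : R, b ∉ q ∧ f * algebraMap R K b = algebraMap R K a := by
  have hk : ∀ c : k, ∃ r : Loc K q, algebraMap _ K r = algebraMap k K c := fun c =>
    ⟨algebraMap R _ (algebraMap k R c), by
      rw [← IsScalarTower.algebraMap_apply, ← IsScalarTower.algebraMap_apply]⟩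
  refine ⟨Place.ofPrime hk (IsDiscreteValuationRing.maximalIdeal (Loc K q)), fun r => ?_,
    fun f hf => mem_Loc.1 (IsDiscreteValuationRing.exists_lift_of_le_one (Place.ge_zero_iff.1 hf))⟩
  rw [IsScalarTower.algebraMap_apply R (Loc K q) K]
  exact ⟨Place.ofPrime_ge_zero hk _ _, ((Place.ofPrime_ge_one_iff hk _ _).trans
    (IsLocalization.AtPrime.to_map_mem_maximal_iff (Loc K q) q r)).symm⟩

lemma dvr_of_height [IsNoetherianRing R] [IsIntegrallyClosed R] (q : Ideal R) [q.IsPrime]
    (h : q.height = 1) : IsDiscreteValuationRing (Loc K q) := by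
  have hF := IsLocalization.AtPrime.not_isField R (Ideal.ne_bot_of_height_eq_one h) (Loc K q)
  have h1 : Ring.KrullDimLE 1 (Loc K q) := Ring.krullDimLE_iff.2 (by
    rw [IsLocalization.AtPrime.ringKrullDim_eq_height q (Loc K q), h]; rfl)
  refine ((IsDiscreteValuationRing.TFAE (Loc K q) hF).out 3 0).mp ?_
  exact ⟨inferInstance, maximalIdeal _, ⟨isField_iff_maximalIdeal_eq.not.mp hF, inferInstance⟩,
    fun P hP => eq_maximalIdeal (hP.2.isMaximal_of_ne_bot hP.1)⟩

omit [IsDomain R] [Algebra k R] [IsScalarTower k R K] [IsFractionRing R K] in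
lemma unit_of {E : Place k K} {q : Ideal R} (h : HasCentre E q) {b : R} (hb : b ∉ q) :
    algebraMap R K b ≠ 0 ∧ E.ord (algebraMap R K b) = 0 := by
  have h1 := Place.not_ge_iff.1 (mt (h b).2.2 hb)
  have := (h b).1.le h1.1
  exact ⟨h1.1, by omega⟩

omit [IsDomain R] [Algebra k R] [IsScalarTower k R K] [IsFractionRing R K] in
lemma prime_of {E : Place k K} {q : Ideal R} (h : HasCentre E q) : q.IsPrime := by
  refine ⟨?_, fun {a b} hab => ?_⟩
  · rw [Ideal.ne_top_iff_one, (h 1).2, Place.not_ge_iff]; simp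
  · by_contra hc
    push Not at hc
    have h1 := unit_of h hc.1
    have h2 := unit_of h hc.2
    rw [(h _).2, map_mul, Place.ge_iff (mul_ne_zero h1.1 h2.1), E.ord_mul h1.1 h2.1] at hab
    omega

omit [IsDomain R] [Algebra k R] [IsScalarTower k R K] [IsFractionRing R K] in
lemma ge_of {E : Place k K} {q : Ideal R} (h : HasCentre E q) {f : K}
    (hf : ∃ a b : R, b ∉ q ∧ f * algebraMap R K b = algebraMap R K a) : E.Ge 0 f := by
  obtain ⟨a, b, hb, e⟩ := hf
  obtain ⟨h1, h2⟩ := unit_of h hb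
  rw [← mul_inv_cancel_right₀ h1 f, e]
  simpa using (h a).1.mul (Place.ge_of_le (n := 0) (x := (algebraMap R K b)⁻¹) (by simp [h2]))

variable [IsNoetherianRing R] [IsIntegrallyClosed R]

lemma loc {E : Place k K} {q : Ideal R} (h : HasCentre E q) (hq : q.height = 1) (f : K)
    (hf : E.Ge 0 f) : ∃ a b : R, b ∉ q ∧ f * algebraMap R K b = algebraMap R K a := by
  have := prime_of h
  have := dvr_of_height (K := K) q hq
  obtain ⟨E0, -, h0⟩ := place_of_dvr k (K := K) q
  obtain rfl : E0 = E := Place.ext_of_ge fun x hx => ge_of h (h0 x hx)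
  exact h0 f hf

lemma hartogs (m : Ideal R) [m.IsPrime] (f : K)
    (h : ∀ (E : Place k K) (q : Ideal R), HasCentre E q → q.height = 1 → q ≤ m → E.Ge 0 f) :
    ∃ a b : R, b ∉ m ∧ f * algebraMap R K b = algebraMap R K a := by
  by_contra hf
  let I : Ideal R := Submodule.comap (LinearMap.toSpanSingleton R K f)
    (LinearMap.range (Algebra.linearMap R K))
  have hI (b : R) : b ∈ I ↔ ∃ a : R, f * algebraMap R K b = algebraMap R K a := by
    simp [I, Algebra.smul_def, mul_comm, eq_comm]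
  have hIm : I ≤ m := fun b hb => by
    by_contra hc
    obtain ⟨a, ha⟩ := (hI b).1 hb
    exact hf ⟨a, b, hc, ha⟩
  obtain ⟨Q, hQ, hQm⟩ := Ideal.exists_minimalPrimes_le hIm
  have hQp : Q.IsPrime := hQ.1.1
  have hfQ : f ∉ (algebraMap (Loc K Q) K).range := fun hc => by
    obtain ⟨a, b, hb, e⟩ := mem_Loc.1 hc
    exact hb (hQ.1.2 ((hI b).2 ⟨a, e⟩))
  have hrad := IsLocalization.AtPrime.radical_map_of_mem_minimalPrimes (Loc K Q) Q I hQ
  rw [IsLocalization.AtPrime.map_eq_maximalIdeal Q (Loc K Q)] at hrad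
  obtain ⟨N, hN⟩ := Ideal.exists_radical_pow_le_of_fg (I.map (algebraMap R (Loc K Q)))
    (IsNoetherian.noetherian _)
  rw [hrad] at hN
  have hdvr : IsDiscreteValuationRing (Loc K Q) := by
    refine MP_99f32e_ag.dvr_of_pow_mul_mem N f hfQ fun x hx => ?_
    have hx' := hN hx
    clear hx
    induction hx' using Submodule.span_induction with
    | mem x hx =>
      obtain ⟨b, hb, rfl⟩ := hx
      obtain ⟨a, ha⟩ := (hI b).mp hb
      refine ⟨algebraMap _ _ a, ?_⟩
      rw [← IsScalarTower.algebraMap_apply, ← IsScalarTower.algebraMap_apply, ← ha, mul_comm]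
    | zero => simp
    | add a b _ _ ha hb => rw [map_add, add_mul]; exact add_mem ha hb
    | smul a b _ hb =>
      rw [smul_eq_mul, map_mul, mul_assoc]
      exact mul_mem ⟨a, rfl⟩ hb
  have h1 : Q.height = 1 := by
    have := IsLocalization.AtPrime.ringKrullDim_eq_height Q (Loc K Q)
    rw [IsDiscreteValuationRing.ringKrullDim_eq_one] at this
    exact_mod_cast this.symm
  obtain ⟨E, hE, h0⟩ := place_of_dvr k (K := K) Q
  exact hfQ (mem_Loc.2 (h0 f (h E Q hE h1 hQm)))

lemma finite (f : K) :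
    {E : Place k K | (∃ q : Ideal R, HasCentre E q ∧ q.height = 1) ∧ E.ord f ≠ 0}.Finite := by
  obtain ⟨a, b, hb, rfl⟩ := IsFractionRing.div_surjective (A := R) f
  by_cases ha : a = 0
  · simp [ha]
  have hab : a * b ∈ nonZeroDivisors R := mul_mem (mem_nonZeroDivisors_of_ne_zero ha) hb
  refine ((Ideal.finite_minimalPrimes_of_isNoetherianRing R (Ideal.span {a * b})).biUnion
    (t := fun q => {E : Place k K | HasCentre E q ∧ q.height = 1}) fun q _ =>
      Set.Subsingleton.finite fun E hE E' hE' =>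
        Place.ext_of_ge fun x hx => ge_of hE'.1 (loc hE.1 hE.2 x hx)).subset ?_
  rintro E ⟨⟨q, hq, h1⟩, h0⟩
  have hp := prime_of hq
  refine Set.mem_biUnion (Ideal.mem_minimalPrimes_of_height_le ?_ ?_) ⟨hq, h1⟩
  · rw [Ideal.span_singleton_le_iff_mem]
    by_contra hc
    have h2 := unit_of hq (b := a) fun h => hc (q.mul_mem_right _ h)
    have h3 := unit_of hq (b := b) fun h => hc (q.mul_mem_left _ h)
    exact h0 (by rw [E.ord_div h2.1 h3.1, h2.2, h3.2, sub_zero])
  · exact h1 ▸ Ideal.one_le_height_span_singleton_of_mem_nonZeroDivisors hab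

end CaA

theorem ca1 {k : Type} [Field k] : Ca1 k where
  exists_place := fun {_ K} _ _ _ _ _ _ _ _ _ _ q _ h =>
    have := CaA.dvr_of_height (K := K) q h
    (CaA.place_of_dvr k q).imp fun _ h => h.1
  loc := fun h hq => CaA.loc h hq
  hartogs := fun m _ f h => CaA.hartogs m f h
  finite := fun f => CaA.finite f

end Pool.Agent.Lib.MP_5f81cf_ag.Full
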