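import Pool.Agent.Lib.MP_5f81cf_ag.FBlue2
import Pool.Agent.Lib.helper6.Dim

/-! The dimension formula for affine domains. -/

namespace Pool.Agent.Lib.MP_5f81cf_ag.Full

open Pool.Agent.Lib.MP_e06174_ag Pool.Agent.Lib.helper6

lemma height_add_quot_le {R : Type} [CommRing R] (q : Ideal R) [hq : q.IsPrime] :
    (q.height : WithBot ℕ∞) + ringKrullDim (R ⧸ q) ≤ ringKrullDim R := by
  let x : PrimeSpectrum R := ⟨q, hq⟩
  have : Nonempty (PrimeSpectrum R) := ⟨x⟩
  have h1 : ringKrullDim (R ⧸ q) = Order.coheight x := by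
    rw [ringKrullDim_quotient, Order.coheight_eq_krullDim_Ici]
    have : PrimeSpectrum.zeroLocus (R := R) q = Set.Ici x := by
      ext y
      exact Iff.rfl
    rw [this]
  rw [h1, ringKrullDim, Order.krullDim_eq_iSup_height_add_coheight_of_nonempty,
    show q.height = Order.height x from PrimeSpectrum.height_eq_orderHeight x]
  exact_mod_cast le_iSup (fun a : PrimeSpectrum R => Order.height a + Order.coheight a) x

variable {k : Type} [Field k]

lemma dim_le_height_add {R : Type} [CommRing R] [IsDomain R] [Algebra k R]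
    [Algebra.FiniteType k R] (q : Ideal R) [q.IsPrime] :
    ringKrullDim R ≤ (q.height : WithBot ℕ∞) + ringKrullDim (R ⧸ q) := by
  have : IsNoetherianRing R := Algebra.FiniteType.isNoetherianRing k R
  obtain ⟨s, g, hg, hint⟩ := exists_integral_inj_algHom_of_fg k R
  let : Algebra (MvPolynomial (Fin s) k) R := g.toRingHom.toAlgebra
  have : Algebra.IsIntegral (MvPolynomial (Fin s) k) R := ⟨hint⟩
  have : FaithfulSMul (MvPolynomial (Fin s) k) R :=
    (faithfulSMul_iff_algebraMap_injective _ _).mpr hg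
  have h1 : ringKrullDim R = s := by
    rw [krullDim_eq_of_isIntegral (R := MvPolynomial (Fin s) k) hg,
      MvPolynomial.ringKrullDim_of_isNoetherianRing, ringKrullDim_eq_zero_of_field]
    simp
  let P : Ideal (MvPolynomial (Fin s) k) := q.under _
  have h2 := le_height_add_dim k s P inferInstance
  have h3 : P.height ≤ q.height := by
    rw [Ideal.height_eq_height_add_of_liesOver_of_hasGoingDown P q]
    exact le_self_add
  have h4 : ringKrullDim (R ⧸ q) = ringKrullDim (MvPolynomial (Fin s) k ⧸ P) :=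
    krullDim_eq_of_isIntegral (FaithfulSMul.algebraMap_injective _ _)
  rw [h1, h4]
  exact h2.trans (add_le_add (by exact_mod_cast h3) le_rfl)

theorem ca2_height_add : ∀ {R : Type} [CommRing R] [IsDomain R] [Algebra k R]
    [Algebra.FiniteType k R] (q : Ideal R) [q.IsPrime] {d e : ℕ}, Algebra.trdeg k R = d →
    Algebra.trdeg k (R ⧸ q) = e → e ≤ d ∧ q.height = (d - e : ℕ) := by
  intro R _ _ _ _ q _ d e hd he
  have : IsNoetherianRing R := Algebra.FiniteType.isNoetherianRing k R
  obtain ⟨s, h1, h2⟩ := exists_dim_trdeg k R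
  obtain ⟨t, h3, h4⟩ := exists_dim_trdeg k (R ⧸ q)
  obtain rfl : s = d := by rw [h2] at hd; exact_mod_cast hd
  obtain rfl : t = e := by rw [h4] at he; exact_mod_cast he
  have h5 := height_add_quot_le q
  have h6 := dim_le_height_add (k := k) q
  obtain ⟨n, hn⟩ := ENat.ne_top_iff_exists.mp (Ideal.height_ne_top_of_isPrime (I := q))
  rw [h1, h3, ← hn] at h5 h6
  have h7 : n + t ≤ s := by exact_mod_cast h5
  have h8 : s ≤ n + t := by exact_mod_cast h6
  refine ⟨by omega, ?_⟩
  rw [← hn]
  congr 1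
  omega

theorem ca2_trdeg_fin : ∀ {R : Type} [CommRing R] [IsDomain R] [Algebra k R]
    [Algebra.FiniteType k R], ∃ d : ℕ, Algebra.trdeg k R = d := by
  intro R _ _ _ _
  obtain ⟨s, -, h⟩ := exists_dim_trdeg k R
  exact ⟨s, h⟩

lemma centre_v_eq_one {R K : Type} [CommRing R] [Field K] [Algebra k K] [Algebra R K]
    {E : Place k K} {q : Ideal R} (h : HasCentre E q) {r : R} (hr : r ∉ q) :
    E.v (algebraMap R K r) = 1 := by
  have h0 := (h r).1
  have h1 : ¬ E.Ge 1 (algebraMap R K r) := fun h' => hr ((h r).2.2 h')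
  have hne : algebraMap R K r ≠ 0 := by
    intro h'
    exact h1 (by rw [h']; exact Place.ge_zero 1)
  rw [Place.ge_iff hne] at h0 h1
  rw [E.v_eq hne, show E.ord (algebraMap R K r) = 0 by omega]
  simp

lemma centre_isPrime {R K : Type} [CommRing R] [Field K] [Algebra k K] [Algebra R K]
    {E : Place k K} {q : Ideal R} (h : HasCentre E q) : q.IsPrime := by
  have key : ∀ r : R, E.v (algebraMap R K r) = 1 → r ∉ q := by
    intro r hr hq
    have h1 := (h r).2.1 hq
    rw [Place.Ge, hr, ← WithZero.exp_zero, WithZero.exp_le_exp] at h1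
    omega
  refine ⟨fun hq => key 1 (by simp) (by rw [hq]; trivial), fun {a b} hab => ?_⟩
  by_contra hcon
  rw [not_or] at hcon
  refine key _ ?_ hab
  rw [map_mul, map_mul, centre_v_eq_one h hcon.1, centre_v_eq_one h hcon.2, one_mul]

theorem ca2_div_of_height : ∀ {R K : Type} [CommRing R] [IsDomain R] [Algebra k R]
    [Algebra.FiniteType k R] [Field K] [Algebra k K] [Algebra R K] [IsScalarTower k R K]
    [IsFractionRing R K] {d : ℕ} {E : Place k K} {q : Ideal R}, Algebra.trdeg k K = d →
    HasCentre E q → q.height = 1 → IsDivisorial d E := by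
  intro R K _ _ _ _ _ _ _ _ _ d E q hd hE hq
  have := centre_isPrime hE
  have hR : Algebra.trdeg k R = d := by
    have : Algebra.IsAlgebraic R K := IsLocalization.isAlgebraic K (nonZeroDivisors R)
    rw [← hd, ← trdeg_add_eq k R (A := K), trdeg_eq_zero (R := R) (A := K), add_zero]
  obtain ⟨e, he⟩ := ca2_trdeg_fin (k := k) (R := R ⧸ q)
  obtain ⟨h1, h2⟩ := ca2_height_add q hR he
  have h3 : d - e = 1 := by rw [hq] at h2; exact_mod_cast h2.symm
  obtain rfl : e = d - 1 := by omega
  obtain ⟨ι, x, hx⟩ := exists_isTranscendenceBasis' k (R ⧸ q)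
  have h4 := hx.cardinalMk_eq_trdeg
  rw [he, ← Cardinal.mk_fin, Cardinal.eq] at h4
  obtain ⟨σ⟩ := h4
  have hy : AlgebraicIndependent k (x ∘ σ.symm) := hx.1.comp _ σ.symm.injective
  choose a ha using fun i => Ideal.Quotient.mk_surjective ((x ∘ σ.symm) i)
  refine ⟨fun i => algebraMap R K (a i), fun P hP => ?_⟩
  have h5 : MvPolynomial.aeval (fun i => algebraMap R K (a i)) P =
      algebraMap R K (MvPolynomial.aeval a P) :=
    MvPolynomial.aeval_algebraMap_apply K a P
  rw [h5]
  refine centre_v_eq_one hE fun hm => hP ?_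
  have h6 : MvPolynomial.aeval (x ∘ σ.symm) P = Ideal.Quotient.mkₐ k q (MvPolynomial.aeval a P) := by
    rw [← AlgHom.comp_apply, MvPolynomial.comp_aeval]
    congr 2
    funext i
    exact (ha i).symm
  exact hy.eq_zero_of_aeval_eq_zero P (h6.trans (Ideal.Quotient.eq_zero_iff_mem.mpr hm))

end Pool.Agent.Lib.MP_5f81cf_ag.Full
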