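import Pool.Agent.Lib.MP_5f81cf_ag.FBlue2

/-! Finiteness of normalisation for affine domains over a perfect field of characteristic `p`. -/

namespace Pool.Agent.Lib.MP_5f81cf_ag.Full

open Polynomial

/-- A module that injects semilinearly, along a finite ring map, into a finite module is finite. -/
theorem finite_of_semilinear {A A' M N : Type*} [CommRing A] [CommRing A'] [IsNoetherianRing A]
    [AddCommGroup M] [AddCommGroup N] [Module A M] [Module A' N] [Module.Finite A' N]
    (φ : A →+* A') (hφ : φ.Finite) (f : M →+ N) (hf : ∀ a m, f (a • m) = φ a • f m)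
    (hi : Function.Injective f) : Module.Finite A M := by
  let : Algebra A A' := φ.toAlgebra
  have : Module.Finite A A' := hφ
  let : Module A N := Module.compHom N φ
  have : IsScalarTower A A' N := ⟨fun a b n => by
    change (φ a * b) • n = φ a • b • n
    rw [mul_smul]⟩
  have : Module.Finite A N := Module.Finite.trans A' N
  let g : M →ₗ[A] N := { f with map_smul' := fun a m => hf a m }
  exact Module.Finite.of_injective g hi

/-- Iterated Frobenius of a finite type algebra over a perfect field is finite. -/
theorem iterateFrobenius_finite {k A : Type*} [Field k] [CommRing A] [Algebra k A]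
    [Algebra.FiniteType k A] (p : ℕ) [ExpChar k p] [ExpChar A p] [PerfectRing k p] (e : ℕ) :
    (iterateFrobenius A p e).Finite := by
  have hint : (iterateFrobenius A p e).IsIntegral := by
    intro x
    have hq : p ^ e ≠ 0 := (expChar_pow_pos A p e).ne'
    refine ⟨X ^ p ^ e - C x, monic_X_pow_sub_C x hq, ?_⟩
    simp [iterateFrobenius_def]
  refine hint.to_finite (RingHom.FiniteType.of_comp_finiteType (f := algebraMap k A) ?_)
  have h1 : (iterateFrobenius A p e).comp (algebraMap k A) =
      (algebraMap k A).comp (iterateFrobenius k p e) := by
    ext x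
    simp [iterateFrobenius_def]
  rw [h1]
  refine RingHom.FiniteType.comp (RingHom.finiteType_algebraMap.2 inferInstance) ?_
  exact RingHom.FiniteType.of_surjective _ (bijective_iterateFrobenius k p e).2

/-- Integral closures in finite extensions are finite over a normal `F`-finite domain. -/
theorem finite_closure_of_frob {A F K : Type*} [CommRing A] [IsDomain A] [IsNoetherianRing A]
    [IsIntegrallyClosed A] [Field F] [Algebra A F] [IsFractionRing A F] [Field K] [Algebra F K]
    [Algebra A K] [IsScalarTower A F K] [FiniteDimensional F K] (p : ℕ) [ExpChar A p]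
    (hA : ∀ e, (iterateFrobenius A p e).Finite) (C : Type*) [CommRing C] [Algebra C K]
    [IsIntegralClosure C A K] [Algebra A C] [IsScalarTower A C K] : Module.Finite A C := by
  have : ExpChar F p := expChar_of_injective_algebraMap (IsFractionRing.injective A F) p
  let S := separableClosure F K
  have : IsScalarTower A S K := IsScalarTower.of_algebraMap_eq fun _ => rfl
  have : ExpChar S p := expChar_of_injective_algebraMap (algebraMap F S).injective p
  have : IsPurelyInseparable S K := separableClosure.isPurelyInseparable F K
  let e := IsPurelyInseparable.exponent S K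
  let ψ : K →+* S := IsPurelyInseparable.iterateFrobenius S K p (le_refl e)
  have hψ : ∀ a, algebraMap S K (ψ a) = a ^ p ^ e :=
    IsPurelyInseparable.algebraMap_iterateFrobenius S p (le_refl e)
  have : Module.Finite A (integralClosure A S) := IsIntegralClosure.finite A F S _
  have hmem : ∀ c : C, ψ (algebraMap C K c) ∈ integralClosure A S := by
    intro c
    refine IsIntegral.tower_bot_of_field (B := K) ?_
    rw [hψ]
    exact (IsIntegralClosure.isIntegral_iff.2 ⟨c, rfl⟩ : IsIntegral A (algebraMap C K c)).pow _
  let f : C →+* integralClosure A S := (ψ.comp (algebraMap C K)).codRestrict _ hmem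
  refine finite_of_semilinear (iterateFrobenius A p e) (hA e) f.toAddMonoidHom ?_ ?_
  · intro a m
    apply Subtype.ext
    apply (algebraMap S K).injective
    change algebraMap S K (ψ (algebraMap C K (a • m))) =
      algebraMap S K (iterateFrobenius A p e a • ψ (algebraMap C K m))
    rw [hψ, Algebra.smul_def, Algebra.smul_def, map_mul, map_mul, hψ, mul_pow,
      ← IsScalarTower.algebraMap_apply, ← IsScalarTower.algebraMap_apply, iterateFrobenius_def,
      map_pow]
  · intro a b h
    have h1 : ψ (algebraMap C K a) = ψ (algebraMap C K b) := congrArg Subtype.val h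
    exact IsIntegralClosure.algebraMap_injective C A K (ψ.injective h1)

variable {k : Type} [Field k] [IsAlgClosed k] {p : ℕ} [Fact p.Prime] [CharP k p]

include p in
theorem finite_norm {R K : Type} [CommRing R] [IsDomain R] [Algebra k R] [Algebra.FiniteType k R]
    [Field K] [Algebra k K] [Algebra R K] [IsScalarTower k R K] [FaithfulSMul R K]
    [Algebra.IsAlgebraic R K] [Algebra.EssFiniteType k K] :
    Module.Finite R (integralClosure R K) := by
  obtain ⟨s, g, hinj, hfin⟩ := exists_finite_inj_algHom_of_fg k R
  let A := MvPolynomial (Fin s) k
  let : Algebra A R := g.toRingHom.toAlgebra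
  have : IsScalarTower k A R := IsScalarTower.of_algHom g
  have : Module.Finite A R := hfin
  let : Algebra A K := ((algebraMap R K).comp g.toRingHom).toAlgebra
  have : IsScalarTower A R K := IsScalarTower.of_algebraMap_eq fun _ => rfl
  have : IsScalarTower k A K := IsScalarTower.of_algebraMap_eq fun x => by
    rw [IsScalarTower.algebraMap_apply k R K, IsScalarTower.algebraMap_apply k A R,
      ← IsScalarTower.algebraMap_apply A R K]
  have : FaithfulSMul A K := (faithfulSMul_iff_algebraMap_injective A K).2
    ((FaithfulSMul.algebraMap_injective R K).comp hinj)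
  let F := FractionRing A
  let : Algebra F K := FractionRing.liftAlgebra A K
  have : IsScalarTower A F K := FractionRing.isScalarTower_liftAlgebra A K
  have : IsScalarTower k F K := IsScalarTower.of_algebraMap_eq fun x => by
    rw [IsScalarTower.algebraMap_apply k A F, ← IsScalarTower.algebraMap_apply A F K,
      ← IsScalarTower.algebraMap_apply k A K]
  have : Algebra.IsAlgebraic A K := Algebra.IsAlgebraic.trans A R K
  have : Algebra.IsAlgebraic F K := Algebra.IsAlgebraic.extendScalars (IsFractionRing.injective A F)
  have : Algebra.EssFiniteType F K := Algebra.EssFiniteType.of_comp k F K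
  have : FiniteDimensional F K := Algebra.finite_of_essFiniteType_of_isAlgebraic
  have : ExpChar k p := ExpChar.prime Fact.out
  have : ExpChar A p := expChar_of_injective_algebraMap (FaithfulSMul.algebraMap_injective k A) p
  have : IsIntegralClosure (integralClosure R K) A K :=
    ⟨Subtype.val_injective, fun {x} =>
      ⟨fun h => ⟨⟨x, h.tower_top⟩, rfl⟩, fun ⟨y, hy⟩ => hy ▸ isIntegral_trans (A := R) _ y.2⟩⟩
  have : Module.Finite A (integralClosure R K) :=
    finite_closure_of_frob (F := F) (K := K) p (iterateFrobenius_finite (k := k) p) _
  exact Module.Finite.of_restrictScalars_finite A R _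

/-- The field `finite_norm` of `Ca2`. -/
theorem ca2_finite_norm (_c2 : Car2 k p) :
    ∀ {R K : Type} [CommRing R] [IsDomain R] [Algebra k R] [Algebra.FiniteType k R]
    [Field K] [Algebra k K] [Algebra R K] [IsScalarTower k R K] [FaithfulSMul R K]
    [Algebra.IsAlgebraic R K] [Algebra.EssFiniteType k K], Module.Finite R (integralClosure R K) :=
  finite_norm (k := k) (p := p)

end Pool.Agent.Lib.MP_5f81cf_ag.Full
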