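import Pool.Agent.Lib.MP_5f81cf_ag.FBlue2

/-! Block CJ: the Cartier operator does not depend on the `p`-basis. -/

namespace Pool.Agent.Lib.MP_5f81cf_ag.Full

namespace CJ

open Finset Function

section gen

variable {k K : Type} [Field k] [Field K] [Algebra k K] {d : ℕ}

/-- Induction over the slots. -/
lemma slot_ind {α : Type} (F : (Fin d → α) → Prop) (S : Set α)
    (step : ∀ b i, (∀ s ∈ S, F (update b i s)) → F b) (base : ∀ b, (∀ i, b i ∈ S) → F b) (b : Fin d → α) :
    F b := by
  have key : ∀ T : Finset (Fin d), ∀ b : Fin d → α, (∀ i ∉ T, b i ∈ S) → F b := by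
    intro T
    induction T using Finset.induction_on with
    | empty => exact fun b hb => base b fun i => hb i (Finset.notMem_empty i)
    | insert i T _ ih =>
      intro b hb
      refine step b i fun s hs => ih _ fun j hj => ?_
      by_cases h : j = i
      · subst h
        rwa [update_self]
      · rw [update_of_ne h]
        exact hb j fun h' => (Finset.mem_insert.1 h').elim h hj
  exact key univ b fun i hi => absurd (mem_univ i) hi

lemma jac_update (x b : Fin d → K) (i : Fin d) (g : K) :
    jac k x (update b i g) =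
      ((Matrix.of fun i j => pd k x j (b i)).updateRow i fun j => pd k x j g).det := by
  unfold jac
  congr 1
  ext l j
  by_cases h : l = i
  · subst h
    simp
  · simp [Matrix.updateRow_ne h, update_of_ne h]

lemma ju_add (x b : Fin d → K) (i : Fin d) (g h : K) :
    jac k x (update b i (g + h)) = jac k x (update b i g) + jac k x (update b i h) := by
  simp only [jac_update, ← Matrix.det_updateRow_add]
  congr 2
  ext j
  simp

lemma ju_mul (x b : Fin d → K) (i : Fin d) (g h : K) :
    jac k x (update b i (g * h)) = g • jac k x (update b i h) + h • jac k x (update b i g) := by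
  simp only [jac_update, smul_eq_mul, ← Matrix.det_updateRow_smul, ← Matrix.det_updateRow_add]
  congr 2
  ext j
  simp

lemma ju_smul (x b : Fin d → K) (i : Fin d) (c : k) (g : K) :
    jac k x (update b i (c • g)) = c • jac k x (update b i g) := by
  rw [Algebra.smul_def c (jac k x _)]
  simp only [jac_update, ← Matrix.det_updateRow_smul]
  congr 2
  ext j
  simp [Algebra.smul_def]

variable (k) in
/-- The Jacobian as a derivation in one slot. -/
noncomputable def jd (x b : Fin d → K) (i : Fin d) : Derivation k K K :=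
  Derivation.mk'
    { toFun := fun g => jac k x (update b i g)
      map_add' := ju_add x b i
      map_smul' := ju_smul x b i } (ju_mul x b i)

lemma jd_apply (x b : Fin d → K) (i : Fin d) (g : K) : jd k x b i g = jac k x (update b i g) := rfl

lemma jd_self (x b : Fin d → K) (i : Fin d) : jd k x b i (b i) = jac k x b := by
  rw [jd_apply, update_eq_self]

lemma jd_ne (x b : Fin d → K) {i l : Fin d} (h : l ≠ i) : jd k x b i (b l) = 0 := by
  rw [jd_apply]
  unfold jac
  refine Matrix.det_zero_of_row_eq h ?_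
  ext j
  simp [update_of_ne h]

lemma der_mul_const (D : Derivation k K K) {c : K} (hc : D c = 0) (w : K) : D (c * w) = c * D w := by
  rw [D.leibniz, hc]
  simp

lemma der_mul_zero (D : Derivation k K K) {a b : K} (ha : D a = 0) (hb : D b = 0) : D (a * b) = 0 := by
  rw [D.leibniz, ha, hb]
  simp

lemma der_inv_zero (D : Derivation k K K) {a : K} (ha : D a = 0) : D a⁻¹ = 0 := by
  rw [D.leibniz_inv, ha]
  simp

lemma der_pow_zero (D : Derivation k K K) {a : K} (ha : D a = 0) (n : ℕ) : D (a ^ n) = 0 := by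
  rw [D.leibniz_pow, ha]
  simp

lemma der_prod_zero (D : Derivation k K K) {ι : Type} (s : Finset ι) (f : ι → K) (h : ∀ l ∈ s, D (f l) = 0) :
    D (∏ l ∈ s, f l) = 0 :=
  Finset.prod_induction f (fun a => D a = 0) (fun _ _ => der_mul_zero D) D.map_one_eq_zero h

lemma der_pow_succ (D : Derivation k K K) (u : K) (n : ℕ) : D (u ^ (n + 1)) = (n + 1 : ℕ) * (u ^ n * D u) := by
  rw [D.leibniz_pow]
  simp

lemma der_log (D : Derivation k K K) {x : Fin d → K} {j : Fin d} (h : ∀ l, D (x l) = if l = j then 1 else 0)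
    (n : Fin d → ℕ) : x j * D (∏ l, x l ^ n l) = n j * ∏ l, x l ^ n l := by
  rw [← Finset.prod_erase_mul _ _ (mem_univ j), der_mul_const D (der_prod_zero D _ _ fun l hl =>
    der_pow_zero D (by rw [h, if_neg (Finset.ne_of_mem_erase hl)]) _)]
  rcases hn : n j with _ | m
  · simp
  · rw [der_pow_succ, h, if_pos rfl]
    ring

end gen

variable {k : Type} [Field k] {p : ℕ} [hp : Fact p.Prime] [CharP k p] (c1 : Car1 k p)
  {K : Type} [Field K] [Algebra k K] {d : ℕ} {x : Fin d → K}

include c1

/-- The Cartier operator is additive. -/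
noncomputable def carH (x : Fin d → K) : K →+ K := AddMonoidHom.mk' (car p x) (c1.car_add x)

lemma car_zero (x : Fin d → K) : car p x 0 = 0 := (carH c1 x).map_zero

lemma car_fsum (x : Fin d → K) {ι : Type} (s : Finset ι) (f : ι → K) :
    car p x (∑ i ∈ s, f i) = ∑ i ∈ s, car p x (f i) := map_sum (carH c1 x) f s

omit c1 in
lemma der_frob (D : Derivation k K K) (c : K) : D (c ^ p) = 0 := by
  have : CharP K p := charP_of_injective_algebraMap (algebraMap k K).injective p
  rw [D.leibniz_pow]
  simp

lemma x_ne (hx : IsPB p x) (j : Fin d) : x j ≠ 0 := by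
  intro h
  have := c1.pd_x hx j j
  rw [h, if_pos rfl, map_zero] at this
  exact zero_ne_one this

lemma exact_mon (hx : IsPB p x) (i : Fin d) (α : Fin d → Fin d → Fin p) :
    car p x (jac k x fun l => pmon p x (α l)) = 0 := by
  set A : Matrix (Fin d) (Fin d) K := Matrix.of fun l j => ((α l j : ℕ) : K) with hA
  set β : Fin d → ℕ := fun j => ∑ l, (α l j : ℕ) with hβ
  have hm : ∏ l, pmon p x (α l) = ∏ j, x j ^ β j := by
    unfold pmon
    rw [Finset.prod_comm]
    exact Finset.prod_congr rfl fun j _ => Finset.prod_pow_eq_pow_sum _ _ _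
  have h1 : (∏ j, x j) * (jac k x fun l => pmon p x (α l)) = (∏ j, x j ^ β j) * A.det := by
    unfold jac
    rw [← hm, ← Matrix.det_mul_row, ← Matrix.det_mul_column]
    congr 1
    ext l j
    simp only [Matrix.of_apply, hA]
    unfold pmon
    rw [der_log _ (c1.pd_x hx j), mul_comm]
  have hx0 : ∏ j, x j ≠ 0 := Finset.prod_ne_zero_iff.2 fun j _ => x_ne c1 hx j
  by_cases h0 : A.det = 0
  · rw [h0, mul_zero] at h1
    rw [(mul_eq_zero.1 h1).resolve_left hx0, car_zero c1]
  obtain ⟨j, hj⟩ : ∃ j, (β j : K) ≠ 0 := by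
    by_contra hc
    push Not at hc
    refine h0 (Matrix.exists_vecMul_eq_zero_iff.1 ⟨fun _ => 1, fun h => one_ne_zero (congrFun h i), ?_⟩)
    ext j
    simpa [Matrix.vecMul, dotProduct, hA, hβ] using hc j
  have hQ : ∏ l ∈ univ.erase j, x l ≠ 0 := Finset.prod_ne_zero_iff.2 fun l _ => x_ne c1 hx l
  have hD : pd k x j A.det = 0 := by
    have : A.det = ((Matrix.of fun l j => ((α l j : ℕ) : ℤ)).det : ℤ) := by
      rw [Int.cast_det]
      congr 1
      ext l j
      simp [hA]
    rw [this, Derivation.map_intCast]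
  have hc : pd k x j (A.det * ((β j : K) * ∏ l ∈ univ.erase j, x l)⁻¹) = 0 := by
    refine der_mul_zero _ hD (der_inv_zero _ (der_mul_zero _ (Derivation.map_natCast _ _) ?_))
    exact der_prod_zero _ _ _ fun l hl => by rw [c1.pd_x hx, if_neg (Finset.ne_of_mem_erase hl)]
  have h2 := der_log _ (c1.pd_x hx j) β
  have h3 : (jac k x fun l => pmon p x (α l)) =
      pd k x j (A.det * ((β j : K) * ∏ l ∈ univ.erase j, x l)⁻¹ * ∏ l, x l ^ β l) := by
    rw [der_mul_const _ hc]
    rw [← Finset.prod_erase_mul _ _ (mem_univ j)] at h1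
    have hxj := x_ne c1 hx j
    refine mul_left_cancel₀ (mul_ne_zero hQ hxj) ?_
    rw [h1]
    calc _ = A.det * ((β j : K) * ∏ l ∈ univ.erase j, x l)⁻¹ * (∏ l ∈ univ.erase j, x l) *
          ((β j : K) * ∏ l, x l ^ β l) := by field_simp
      _ = _ := by rw [← h2]; ring
  rw [h3, c1.car_pd hx]

/-- Exact forms are killed. -/
lemma exact_jac (hx : IsPB p x) (i : Fin d) (b : Fin d → K) : car p x (jac k x b) = 0 := by
  refine slot_ind (fun b => car p x (jac k x b) = 0) (Set.range (pmon p x)) ?_ ?_ b
  · intro b l h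
    obtain ⟨c, hc, -⟩ := hx (b l)
    rw [← jd_self x b l, hc, map_sum, car_fsum c1]
    refine Finset.sum_eq_zero fun α _ => ?_
    rw [der_mul_const _ (der_frob _ _), c1.car_pow_mul, jd_apply, h _ ⟨α, rfl⟩, mul_zero]
  · intro b h
    choose α hα using h
    have : b = fun l => pmon p x (α l) := funext fun l => (hα l).symm
    rw [this]
    exact exact_mon c1 hx i α

lemma ex (hx : IsPB p x) (b : Fin d → K) (i : Fin d) {P : K} (hP : jd k x b i P = 0) (u : K) {n : ℕ}
    (hn : n + 1 < p) : car p x (P * (u ^ n * jd k x b i u)) = 0 := by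
  have : CharP K p := charP_of_injective_algebraMap (algebraMap k K).injective p
  have h0 : ((n + 1 : ℕ) : K) ≠ 0 := fun h =>
    absurd (Nat.le_of_dvd n.succ_pos ((CharP.cast_eq_zero_iff K p _).1 h)) (not_le.2 hn)
  have h1 : P * (u ^ n * jd k x b i u) = jd k x b i (P * ((n + 1 : ℕ) : K)⁻¹ * u ^ (n + 1)) := by
    rw [der_mul_const _ (der_mul_zero _ hP (der_inv_zero _ (Derivation.map_natCast _ _))), der_pow_succ]
    field_simp
  rw [h1, jd_apply, exact_jac c1 hx i]

section psi

variable (hx : IsPB p x) (b : Fin d → K) (i : Fin d) {P : K} (hP : jd k x b i P = 0)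

omit [CharP k p] in
lemma psi_mul (D : Derivation k K K) (P g h : K) :
    car p x (P * ((g * h) ^ (p - 1) * D (g * h))) =
      g * car p x (P * (h ^ (p - 1) * D h)) + h * car p x (P * (g ^ (p - 1) * D g)) := by
  rw [← c1.car_pow_mul, ← c1.car_pow_mul, ← c1.car_add, D.leibniz]
  congr 1
  obtain ⟨q, hq⟩ : ∃ q, p = q + 1 := ⟨p - 1, (Nat.sub_add_cancel hp.out.pos).symm⟩
  have h1 : p - 1 = q := by omega
  rw [h1]
  have e1 : g ^ p = g ^ q * g := by rw [hq, pow_succ]
  have e2 : h ^ p = h ^ q * h := by rw [hq, pow_succ]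
  rw [e1, e2]
  simp only [smul_eq_mul]
  ring

include hx hP

lemma psi_one_add (u : K) :
    car p x (P * ((u + 1) ^ (p - 1) * jd k x b i (u + 1))) = car p x (P * (u ^ (p - 1) * jd k x b i u)) := by
  rw [add_pow, Finset.sum_range_succ, map_add, Derivation.map_one_eq_zero, add_zero, add_mul, mul_add,
    c1.car_add, Finset.sum_mul, Finset.mul_sum, car_fsum c1, Finset.sum_eq_zero, zero_add]
  · simp
  · intro m hm
    have h1 : m + 1 < p := by
      have := Finset.mem_range.1 hm
      omega
    have := ex c1 hx b i (der_mul_zero _ hP (Derivation.map_natCast _ ((p - 1).choose m))) u h1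
    rw [← this]
    congr 1
    ring

lemma psi_add (g h : K) :
    car p x (P * ((g + h) ^ (p - 1) * jd k x b i (g + h))) =
      car p x (P * (g ^ (p - 1) * jd k x b i g)) + car p x (P * (h ^ (p - 1) * jd k x b i h)) := by
  by_cases h0 : h = 0
  · subst h0
    simp [car_zero c1]
  obtain ⟨u, rfl⟩ : ∃ u, g = h * u := ⟨h⁻¹ * g, by field_simp⟩
  rw [← mul_add_one, psi_mul c1, psi_mul c1, psi_one_add c1 hx b i hP]
  ring

lemma psi_eq (h : ∀ j, car p x (P * (x j ^ (p - 1) * jd k x b i (x j))) = jd k x b i (x j)) (g : K) :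
    car p x (P * (g ^ (p - 1) * jd k x b i g)) = jd k x b i g := by
  let D : Derivation k K K := Derivation.mk'
    { toFun := fun g => car p x (P * (g ^ (p - 1) * jd k x b i g))
      map_add' := psi_add c1 hx b i hP
      map_smul' := fun c g => by
        rw [Algebra.smul_def c g, psi_mul c1, Derivation.map_algebraMap]
        simp [car_zero c1, Algebra.smul_def] } (psi_mul c1 _ P)
  have h1 : D g = ∑ j, pd k x j g * D (x j) := c1.der_eq hx D g
  have h2 := c1.der_eq hx (jd k x b i) g
  rw [h2]
  refine Eq.trans ?_ (h1.trans (Finset.sum_congr rfl fun j _ => by rw [← h j]; rfl))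
  rw [← h2]
  rfl

end psi

lemma top (hx : IsPB p x) (b : Fin d → K) : car p x ((∏ l, b l ^ (p - 1)) * jac k x b) = jac k x b := by
  have : CharP K p := charP_of_injective_algebraMap (algebraMap k K).injective p
  refine slot_ind (fun b => car p x ((∏ l, b l ^ (p - 1)) * jac k x b) = jac k x b) (Set.range x) ?_ ?_ b
  · intro b i h
    have hP : jd k x b i (∏ l ∈ univ.erase i, b l ^ (p - 1)) = 0 :=
      der_prod_zero _ _ _ fun l hl => der_pow_zero _ (jd_ne x b (Finset.ne_of_mem_erase hl)) _
    have e : ∀ g, (∏ l, update b i g l ^ (p - 1)) * jac k x (update b i g) =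
        (∏ l ∈ univ.erase i, b l ^ (p - 1)) * (g ^ (p - 1) * jd k x b i g) := by
      intro g
      rw [← Finset.prod_erase_mul _ _ (mem_univ i), update_self, jd_apply, mul_assoc]
      congr 1
      exact Finset.prod_congr rfl fun l hl => by rw [update_of_ne (Finset.ne_of_mem_erase hl)]
    have := psi_eq c1 hx b i hP (fun j => by rw [← e, h _ ⟨j, rfl⟩, jd_apply]) (b i)
    rwa [← e, jd_apply, update_eq_self] at this
  · intro b h
    choose σ hσ using h
    obtain rfl : b = fun l => x (σ l) := funext fun l => (hσ l).symm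
    by_cases hi : Injective σ
    · have hb : Bijective σ := Finite.injective_iff_bijective.1 hi
      have h1 : ∏ l, x (σ l) ^ (p - 1) = pmon p x (ptop p d) :=
        hb.prod_comp fun l => x l ^ (p - 1)
      have h2 : (jac k x fun l => x (σ l)) =
          ((Matrix.of fun l j => if σ l = j then (1 : ℤ) else 0).det : ℤ) := by
        unfold jac
        rw [Int.cast_det]
        congr 1
        ext l j
        simp [c1.pd_x hx]
      have h3 : (jac k x fun l => x (σ l)) ^ p = jac k x fun l => x (σ l) := by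
        rw [h2]
        exact map_intCast (frobenius K p) _
      rw [h1, mul_comm]
      nth_rewrite 1 [← h3]
      rw [c1.car_pow_mul, c1.car_pmon hx, if_pos rfl, mul_one]
    · obtain ⟨l, m, h1, h2⟩ : ∃ l m, σ l = σ m ∧ l ≠ m := by
        by_contra hc
        push Not at hc
        exact hi fun l m h => hc l m h
      have : (jac k x fun l => x (σ l)) = 0 := by
        unfold jac
        refine Matrix.det_zero_of_row_eq h2 ?_
        ext j
        simp [h1]
      rw [this, mul_zero, car_zero c1]

lemma nontop (hx : IsPB p x) (a : Fin d → K) {α : Fin d → Fin p} (h : α ≠ ptop p d) :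
    car p x (pmon p a α * jac k x a) = 0 := by
  obtain ⟨i, hi⟩ := Function.ne_iff.1 h
  have h1 : (α i : ℕ) + 1 < p := by
    have h2 : (α i : ℕ) ≠ p - 1 := fun e => hi (Fin.ext e)
    have := (α i).2
    omega
  have hP : jd k x a i (∏ l ∈ univ.erase i, a l ^ (α l : ℕ)) = 0 :=
    der_prod_zero _ _ _ fun l hl => der_pow_zero _ (jd_ne x a (Finset.ne_of_mem_erase hl)) _
  have := ex c1 hx a i hP (a i) h1
  rwa [jd_self, ← mul_assoc, Finset.prod_erase_mul _ (fun l => a l ^ (α l : ℕ)) (mem_univ i)] at this

end CJ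

theorem st_CarJac {k : Type} [Field k] {p : ℕ} [Fact p.Prime] [CharP k p] (c1 : Car1 k p) :
    St_CarJac k p := by
  intro K _ _ d x a hx ha f
  obtain ⟨c, rfl, -⟩ := ha f
  rw [c1.car_sum ha, Finset.sum_mul, CJ.car_fsum c1, Finset.sum_eq_single (ptop p d)]
  · rw [mul_assoc, c1.car_pow_mul]
    congr 1
    exact CJ.top c1 hx a
  · intro α _ h
    rw [mul_assoc, c1.car_pow_mul, CJ.nontop c1 hx a h, mul_zero]
  · exact fun h => absurd (Finset.mem_univ _) h

end Pool.Agent.Lib.MP_5f81cf_ag.Full
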