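import Pool.Agent.Lib.MP_5f81cf_ag.FBlue2

/-! Block P1: residue fields of divisorial places. -/

namespace Pool.Agent.Lib.MP_5f81cf_ag.Full

open Pool.Agent.Lib.MP_e06174_ag

namespace PlA

variable {k K L : Type} [Field k] [Field K] [Algebra k K] [Field L] [Algebra k L]
  {E : Place k K} {ρ : K → L}

lemma res_zero (h : IsRes E ρ) : ρ 0 = 0 := by simpa using h.const 0

lemma res_one (h : IsRes E ρ) : ρ 1 = 1 := by simpa using h.const 1

lemma res_sum (h : IsRes E ρ) {ι : Type} (s : Finset ι) (f : ι → K) (hf : ∀ i ∈ s, E.Ge 0 (f i)) :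
    ρ (∑ i ∈ s, f i) = ∑ i ∈ s, ρ (f i) := by
  classical
  induction s using Finset.induction_on with
  | empty => simpa using res_zero h
  | insert a s ha ih =>
    rw [Finset.sum_insert ha, Finset.sum_insert ha, h.add _ _ (hf a (by simp))
      (Place.Ge.sum fun i hi => hf i (by simp [hi])), ih fun i hi => hf i (by simp [hi])]

lemma ge_mul {a b : K} (ha : E.Ge 0 a) (hb : E.Ge 0 b) : E.Ge 0 (a * b) := ha.mul' hb (by simp)

lemma res_aeval (h : IsRes E ρ) {ι : Type} {a : ι → K} (ha : ∀ i, E.Ge 0 (a i))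
    (P : MvPolynomial ι k) : E.Ge 0 (MvPolynomial.aeval a P) ∧
      ρ (MvPolynomial.aeval a P) = MvPolynomial.aeval (fun i => ρ (a i)) P := by
  induction P using MvPolynomial.induction_on with
  | C c => simpa using ⟨Place.ge_const c, h.const c⟩
  | add P Q hP hQ =>
    rw [map_add, map_add]
    exact ⟨hP.1.add hQ.1, by rw [h.add _ _ hP.1 hQ.1, hP.2, hQ.2]⟩
  | mul_X P i hP =>
    rw [map_mul, map_mul, MvPolynomial.aeval_X, MvPolynomial.aeval_X]
    exact ⟨ge_mul hP.1 (ha i), by rw [h.mul _ _ hP.1 (ha i), hP.2]⟩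

lemma ord_eq_zero (h : IsRes E ρ) {u : K} (hu : E.Ge 0 u) (h0 : ρ u ≠ 0) : u ≠ 0 ∧ E.ord u = 0 := by
  have h1 := Place.not_ge_iff.1 (mt (h.zero u hu).2 h0)
  have := hu.le h1.1
  exact ⟨h1.1, by omega⟩

lemma res_div (h : IsRes E ρ) {u w : K} (hu : E.Ge 0 u) (hw : E.Ge 0 w) (h0 : ρ w ≠ 0) :
    E.Ge 0 (u / w) ∧ ρ (u / w) = ρ u / ρ w := by
  obtain ⟨w0, hw0⟩ := ord_eq_zero h hw h0
  have h1 : E.Ge 0 w⁻¹ := Place.ge_of_le (by simp [hw0])
  have h2 : E.Ge 0 (u / w) := by rw [div_eq_mul_inv]; exact ge_mul hu h1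
  refine ⟨h2, eq_div_of_mul_eq h0 ?_⟩
  rw [← h.mul _ _ h2 hw, div_mul_cancel₀ _ w0]

lemma div_iff (h : IsRes E ρ) {d : ℕ} : IsDivisorial (d + 1) E ↔
    ∃ a : Fin d → K, (∀ i, E.Ge 0 (a i)) ∧ AlgebraicIndependent k fun i => ρ (a i) := by
  constructor
  · rintro ⟨a, ha⟩
    have h0 : ∀ i, E.Ge 0 (a i) := fun i => by
      have := ha (MvPolynomial.X i) (MvPolynomial.X_ne_zero i)
      rw [MvPolynomial.aeval_X] at this
      exact Place.ge_zero_iff.2 this.le
    refine ⟨a, h0, algebraicIndependent_iff.2 fun P hP => by_contra fun P0 => ?_⟩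
    obtain ⟨h1, h2⟩ := res_aeval h h0 P
    have := Place.ge_one_iff.1 ((h.zero _ h1).1 (h2.trans hP))
    exact this.ne (ha P P0)
  · rintro ⟨a, h0, ha⟩
    refine ⟨a, fun P P0 => ?_⟩
    obtain ⟨h1, h2⟩ := res_aeval h h0 P
    have h3 : ρ (MvPolynomial.aeval a P) ≠ 0 := fun e =>
      P0 (algebraicIndependent_iff.1 ha P (h2.symm.trans e))
    exact le_antisymm (Place.ge_zero_iff.1 h1)
      (not_lt.1 fun e => h3 ((h.zero _ h1).2 (Place.ge_one_iff.2 e)))

section fin

open IntermediateField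

variable {d : ℕ} {a : Fin d → K} {t : K}

lemma res_base (h : IsRes E ρ) (h0 : ∀ i, E.Ge 0 (a i))
    (ha : AlgebraicIndependent k fun i => ρ (a i)) {c : K} (hc : c ∈ adjoin k (Set.range a)) :
    E.Ge 0 c ∧ ρ c ∈ adjoin k (Set.range fun i => ρ (a i)) ∧ (c ≠ 0 → ρ c ≠ 0) := by
  obtain ⟨r, s, rfl⟩ := (mem_adjoin_range_iff k a c).1 hc
  by_cases s0 : s = 0
  · subst s0
    simp [res_zero h]
  obtain ⟨h1, h2⟩ := res_aeval h h0 r
  obtain ⟨h3, h4⟩ := res_aeval h h0 s
  have h5 : ρ (MvPolynomial.aeval a s) ≠ 0 := fun e =>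
    s0 (algebraicIndependent_iff.1 ha s (h4.symm.trans e))
  obtain ⟨h6, h7⟩ := res_div h h1 h3 h5
  refine ⟨h6, ?_, fun c0 => ?_⟩
  · rw [h7, h2, h4]
    exact (mem_adjoin_range_iff k _ _).2 ⟨r, s, rfl⟩
  · rw [h7]
    refine div_ne_zero (fun e => c0 ?_) h5
    rw [algebraicIndependent_iff.1 ha r (h2.symm.trans e), map_zero, zero_div]

lemma res_poly (h : IsRes E ρ) (h0 : ∀ i, E.Ge 0 (a i))
    (ha : AlgebraicIndependent k fun i => ρ (a i)) (ht : E.Ge 1 t)
    (P : Polynomial (adjoin k (Set.range a))) :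
    E.Ge 0 (Polynomial.aeval t P) ∧ ρ (Polynomial.aeval t P) = ρ (P.coeff 0 : K) := by
  have ht0 : E.Ge 0 t := ht.mono (by norm_num)
  have key : ∀ Q : Polynomial (adjoin k (Set.range a)), E.Ge 0 (Polynomial.aeval t Q) := by
    intro Q
    rw [Polynomial.aeval_eq_sum_range]
    refine Place.Ge.sum fun i _ => ?_
    rw [Algebra.smul_def]
    exact ge_mul (res_base h h0 ha (Q.coeff i).2).1 (by simpa using ht0.pow i)
  refine ⟨key P, ?_⟩
  conv_lhs => rw [← Polynomial.X_mul_divX_add P]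
  rw [map_add, map_mul, Polynomial.aeval_X, Polynomial.aeval_C, IntermediateField.algebraMap_apply,
    h.add _ _ (ge_mul ht0 (key _)) (res_base h h0 ha (P.coeff 0).2).1, h.mul _ _ ht0 (key _),
    (h.zero t ht0).2 ht, zero_mul, zero_add]

lemma res_poly' (h : IsRes E ρ) (h0 : ∀ i, E.Ge 0 (a i))
    (ha : AlgebraicIndependent k fun i => ρ (a i)) (ht : E.Ge 1 t)
    {P : Polynomial (adjoin k (Set.range a))} (hP : P ≠ 0) :
    ∃ (m : ℕ) (u : K), Polynomial.aeval t P = t ^ m * u ∧ E.Ge 0 u ∧ ρ u ≠ 0 ∧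
      ρ u ∈ adjoin k (Set.range fun i => ρ (a i)) := by
  obtain ⟨Q, hQ, hQ'⟩ := Polynomial.exists_eq_pow_rootMultiplicity_mul_and_not_dvd P hP 0
  rw [map_zero, sub_zero] at hQ hQ'
  rw [Polynomial.X_dvd_iff] at hQ'
  obtain ⟨h1, h2⟩ := res_poly h h0 ha ht Q
  obtain ⟨-, h3, h4⟩ := res_base h h0 ha (Q.coeff 0).2
  refine ⟨Polynomial.rootMultiplicity 0 P, Polynomial.aeval t Q, ?_, h1, ?_, h2 ▸ h3⟩
  · conv_lhs => rw [hQ]
    rw [map_mul, map_pow, Polynomial.aeval_X]
  · rw [h2]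
    exact h4 fun e => hQ' (Subtype.ext e)

lemma res_mem (h : IsRes E ρ) (h0 : ∀ i, E.Ge 0 (a i))
    (ha : AlgebraicIndependent k fun i => ρ (a i)) (t0 : t ≠ 0) (ht : E.ord t = 1) {c : K}
    (hc : c ∈ adjoin (adjoin k (Set.range a)) {t}) (hc0 : E.Ge 0 c) :
    ρ c ∈ adjoin k (Set.range fun i => ρ (a i)) := by
  have ht1 : E.Ge 1 t := Place.ge_of_le ht.ge
  obtain ⟨r, s, rfl⟩ := (mem_adjoin_simple_iff _ c).1 hc
  by_cases s0 : s = 0
  · subst s0
    simp [res_zero h]
  by_cases r0 : r = 0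
  · subst r0
    simp [res_zero h]
  obtain ⟨m, u, e1, hu, u0, hu'⟩ := res_poly' h h0 ha ht1 r0
  obtain ⟨n, w, e2, hw, w0, hw'⟩ := res_poly' h h0 ha ht1 s0
  obtain ⟨u1, u2⟩ := ord_eq_zero h hu u0
  obtain ⟨w1, w2⟩ := ord_eq_zero h hw w0
  rw [e1, e2] at hc0 ⊢
  have h1 := hc0.le (div_ne_zero (mul_ne_zero (pow_ne_zero _ t0) u1)
    (mul_ne_zero (pow_ne_zero _ t0) w1))
  rw [E.ord_div (mul_ne_zero (pow_ne_zero _ t0) u1) (mul_ne_zero (pow_ne_zero _ t0) w1),
    E.ord_mul (pow_ne_zero _ t0) u1, E.ord_mul (pow_ne_zero _ t0) w1, E.ord_pow, E.ord_pow,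
    ht, u2, w2] at h1
  obtain ⟨j, rfl⟩ := Nat.exists_eq_add_of_le (show n ≤ m by omega)
  obtain ⟨h2, h3⟩ := res_div h hu hw w0
  have e : t ^ (n + j) * u / (t ^ n * w) = t ^ j * (u / w) := by
    field_simp
    ring
  have ht0 : E.Ge 0 t := ht1.mono (by norm_num)
  rw [e, h.mul _ _ (by simpa using ht0.pow j) h2, h3]
  refine mul_mem ?_ (div_mem hu' hw')
  rcases j with _ | j
  · rw [pow_zero, res_one h]
    exact one_mem _
  · rw [pow_succ, h.mul _ _ (by simpa using ht0.pow j) ht0, (h.zero t ht0).2 ht1, mul_zero]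
    exact zero_mem _

lemma res_finite [Algebra.EssFiniteType k K] (h : IsRes E ρ) (h0 : ∀ i, E.Ge 0 (a i))
    (ha : AlgebraicIndependent k fun i => ρ (a i)) (hd : Algebra.trdeg k K = (d + 1 : ℕ)) :
    FiniteDimensional (adjoin k (Set.range fun i => ρ (a i))) L := by
  classical
  obtain ⟨t, t0, ht⟩ := E.exists_ord_eq_one
  have ht1 : E.Ge 1 t := Place.ge_of_le ht.ge
  have ha' : AlgebraicIndependent k a := algebraicIndependent_iff.2 fun P hP =>
    algebraicIndependent_iff.1 ha P (by rw [← (res_aeval h h0 P).2, hP, res_zero h])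
  have htr : Transcendental (adjoin k (Set.range a)) t := by
    rintro ⟨P, P0, hP⟩
    obtain ⟨m, u, e1, hu, u0, -⟩ := res_poly' h h0 ha ht1 P0
    exact mul_ne_zero (pow_ne_zero m t0) (ord_eq_zero h hu u0).1 (e1.symm.trans hP)
  have htr' : Transcendental (Algebra.adjoin k (Set.range a)) t :=
    Transcendental.of_tower_top_of_subalgebra_le
      (B := (adjoin k (Set.range a)).toSubalgebra) (algebra_adjoin_le_adjoin k _) htr
  have hy := ((ha'.option_iff_transcendental t).2 htr').isTranscendenceBasis_of_trdeg_le_of_finite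
    (by rw [hd]; simp)
  set y : Option (Fin d) → K := fun o => o.elim t a with hydef
  have halg := hy.isAlgebraic_field
  have : Algebra.EssFiniteType (adjoin k (Set.range y)) K := Algebra.EssFiniteType.of_comp k _ K
  have : Module.Finite (adjoin k (Set.range y)) K := Algebra.finite_of_essFiniteType_of_isAlgebraic
  have hle : adjoin k (Set.range y) ≤ (adjoin (adjoin k (Set.range a)) {t}).restrictScalars k := by
    rw [adjoin_le_iff]
    rintro _ ⟨_ | i, rfl⟩
    · exact mem_adjoin_simple_self _ t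
    · exact (adjoin (adjoin k (Set.range a)) {t}).algebraMap_mem
        ⟨a i, subset_adjoin _ _ ⟨i, rfl⟩⟩
  choose lift hl1 hl2 using h.surj
  refine Module.rank_lt_aleph0_iff.1 (lt_of_le_of_lt (rank_le (n := Module.finrank
    (adjoin k (Set.range y)) K) fun s hs => ?_) Cardinal.natCast_lt_aleph0)
  have hli : LinearIndependent (adjoin k (Set.range y)) fun i : s => lift i := by
    rw [Fintype.linearIndependent_iff]
    intro c hc
    by_contra hne
    push Not at hne
    obtain ⟨i0, hi0, hmin⟩ := (Finset.univ.filter fun i => c i ≠ 0).exists_min_image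
      (fun i => E.ord (c i : K)) (by simpa [Finset.filter_nonempty_iff] using hne)
    have c0 : (c i0 : K) ≠ 0 := fun e => (Finset.mem_filter.1 hi0).2 (Subtype.ext e)
    have hge : ∀ i, E.Ge 0 ((c i : K) / c i0) := fun i => by
      by_cases e : c i = 0
      · simp [e]
      · refine Place.ge_of_le ?_
        rw [E.ord_div (fun e' => e (Subtype.ext e')) c0, sub_nonneg]
        exact hmin i (by simpa using e)
    have hmem : ∀ i, ρ ((c i : K) / c i0) ∈ adjoin k (Set.range fun i => ρ (a i)) := fun i =>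
      res_mem h h0 ha t0 ht (hle (div_mem (c i).2 (c i0).2)) (hge i)
    have hsum : ∑ i, (c i : K) / c i0 * lift i = 0 := by
      have : ∑ i, (c i : K) * lift i = 0 := hc
      simp_rw [div_mul_eq_mul_div]
      rw [← Finset.sum_div, this, zero_div]
    have h1 := congrArg ρ hsum
    rw [res_sum h _ _ fun i _ => ge_mul (hge i) (hl1 i), res_zero h] at h1
    have h2 := Fintype.linearIndependent_iff.1 hs (fun i => ⟨_, hmem i⟩) (by
      rw [← h1]
      refine Finset.sum_congr rfl fun i _ => ?_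
      rw [h.mul _ _ (hge i) (hl1 i), hl2]
      rfl) i0
    have h3 : ρ ((c i0 : K) / c i0) = 0 := congrArg Subtype.val h2
    rw [div_self c0, res_one h] at h3
    exact one_ne_zero h3
  simpa using hli.fintype_card_le_finrank

end fin

lemma exists_res (E : Place k K) :
    ∃ (L : Type) (_ : Field L) (_ : Algebra k L) (ρ : K → L), IsRes E ρ := by
  classical
  let ι : k →+* E.O := (algebraMap k K).codRestrict E.O fun c => Place.mem_O.2 (Place.ge_const c)
  let ρ : K → IsLocalRing.ResidueField E.O := fun x =>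
    if h : E.Ge 0 x then IsLocalRing.residue E.O ⟨x, Place.mem_O.2 h⟩ else 0
  have hρ : ∀ x (h : E.Ge 0 x), ρ x = IsLocalRing.residue E.O ⟨x, Place.mem_O.2 h⟩ :=
    fun x h => dif_pos h
  let _ : Algebra k (IsLocalRing.ResidueField E.O) :=
    ((IsLocalRing.residue E.O).comp ι).toAlgebra
  refine ⟨IsLocalRing.ResidueField E.O, inferInstance, inferInstance, ρ, fun a b ha hb => ?_,
    fun a b ha hb => ?_, fun c => ?_, fun a ha => ?_, fun l => ?_⟩
  · rw [hρ _ ha, hρ _ hb, hρ _ (ha.add hb), ← map_add]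
    rfl
  · rw [hρ _ ha, hρ _ hb, hρ _ (ge_mul ha hb), ← map_mul]
    rfl
  · rw [hρ _ (Place.ge_const c)]
    rfl
  · rw [hρ _ ha, IsLocalRing.residue_eq_zero_iff, Place.mem_maximalIdeal_O]
  · obtain ⟨x, rfl⟩ := IsLocalRing.residue_surjective l
    exact ⟨x, Place.mem_O.1 x.2, hρ _ (Place.mem_O.1 x.2)⟩

lemma res_ess [Algebra.EssFiniteType k K] {d : ℕ} (hd : Algebra.trdeg k K = (d + 1 : ℕ))
    (h : IsRes E ρ) (hE : IsDivisorial (d + 1) E) :
    Algebra.EssFiniteType k L ∧ Algebra.trdeg k L = d := by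
  obtain ⟨a, h0, ha⟩ := (div_iff h).1 hE
  have := res_finite h h0 ha hd
  constructor
  · have : Algebra.EssFiniteType k
        (IntermediateField.adjoin k (Set.range fun i => ρ (a i))) :=
      IntermediateField.essFiniteType_iff.2
        (IntermediateField.fg_adjoin_of_finite (Set.finite_range _))
    exact Algebra.EssFiniteType.comp k
      (IntermediateField.adjoin k (Set.range fun i => ρ (a i))) L
  · have hb : IsTranscendenceBasis k fun i => ρ (a i) :=
      ha.isTranscendenceBasis_iff_isAlgebraic.2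
        (IntermediateField.isAlgebraic_adjoin_iff_top.1 inferInstance)
    simpa using hb.cardinalMk_eq_trdeg.symm

end PlA

theorem pl1' {k : Type} [Field k] {p : ℕ} [Fact p.Prime] (c2 : Car2 k p) : Pl1 k p where
  exists_res E := PlA.exists_res E
  res_ess hd h hE := PlA.res_ess hd h hE
  div_of_res a h ha := by
    choose lift hl1 hl2 using h.surj
    exact (PlA.div_iff h).2 ⟨fun i => lift (a i), fun i => hl1 _, by simpa [hl2] using ha⟩
  exists_adapt := by
    intro K L _ _ _ _ _ d x E ρ hx h hE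
    obtain ⟨h1, h2⟩ := PlA.res_ess (c2.trdeg_eq hx) h hE
    obtain ⟨z, hz⟩ := c2.exists_pb h2
    obtain ⟨t, -, ht⟩ := E.exists_ord_eq_one
    choose lift hl1 hl2 using h.surj
    exact ⟨t, fun i => lift (z i), h, ht, fun i => hl1 _, by simpa [hl2] using hz⟩

theorem pl1 {k : Type} [Field k] {p : ℕ} [Fact p.Prime] (_c1 : Car1 k p) (c2 : Car2 k p) :
    Pl1 k p := pl1' c2

end Pool.Agent.Lib.MP_5f81cf_ag.Full
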