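import Pool.Agent.Lib.MP_5f81cf_ag.FBlue2

/-! Jacobians in adapted frames: the order of the form `dx` along a place. -/

namespace Pool.Agent.Lib.MP_5f81cf_ag.Full

open Pool.Agent.Lib.MP_e06174_ag Polynomial

section defs

variable (k : Type) [Field k] (p : ℕ)

/-- The statement of the field `adapt_pb` of `Pl2`. -/
def St_adapt_pb : Prop :=
  ∀ {K L : Type} [Field K] [Algebra k K] [Field L] [Algebra k L] {d : ℕ}
    {x : Fin (d + 1) → K} {E : Place k K} {ρ : K → L} {t : K} {z : Fin d → K},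
    IsPB p x → Adapt p E ρ t z → IsPB p (Fin.cons t z : Fin (d + 1) → K)

/-- The statement of the field `pd_ge` of `Pl2`. -/
def St_pd_ge : Prop :=
  ∀ {K L : Type} [Field K] [Algebra k K] [Field L] [Algebra k L] {d : ℕ}
    {x : Fin (d + 1) → K} {E : Place k K} {ρ : K → L} {t : K} {z : Fin d → K},
    IsPB p x → Adapt p E ρ t z → ∀ (n : ℤ) (f : K), E.Ge n f →
      E.Ge n (t * pd k (Fin.cons t z : Fin (d + 1) → K) 0 f) ∧
      (∀ i : Fin d, E.Ge n (pd k (Fin.cons t z : Fin (d + 1) → K) i.succ f)) ∧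
      (n = 0 → E.Ge 0 (pd k (Fin.cons t z : Fin (d + 1) → K) 0 f) ∧ ∀ i : Fin d,
        ρ (pd k (Fin.cons t z : Fin (d + 1) → K) i.succ f) = pd k (fun j => ρ (z j)) i (ρ f))

end defs

variable {k : Type} [Field k] {p : ℕ}

section aux

variable {K L : Type} [Field K] [Algebra k K] [Field L] [Algebra k L]
  {E : Place k K} {ρ : K → L}

lemma pl2_det_ge {n : ℕ} (M : Matrix (Fin n) (Fin n) K) (r s : Fin n → ℤ)
    (h : ∀ i j, E.Ge (r i + s j) (M i j)) : E.Ge (∑ i, r i + ∑ j, s j) M.det := by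
  rw [Matrix.det_apply']
  refine .sum fun σ _ => ?_
  have h1 : E.Ge (∑ i, (r (σ i) + s i)) (∏ i, M (σ i) i) := .prod fun i _ => h _ _
  rw [Finset.sum_add_distrib, Equiv.sum_comp σ r] at h1
  simpa using (Place.ge_intCast (p := E) (Equiv.Perm.sign σ : ℤ)).mul h1

lemma pl2_res_sum (h : IsRes E ρ) {ι : Type} (s : Finset ι) (f : ι → K)
    (hf : ∀ i, E.Ge 0 (f i)) : ρ (∑ i ∈ s, f i) = ∑ i ∈ s, ρ (f i) := by
  classical
  induction s using Finset.induction_on with
  | empty => simpa using h.const 0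
  | insert a s ha ih =>
    rw [Finset.sum_insert ha, Finset.sum_insert ha, h.add _ _ (hf a) (.sum fun i _ => hf i), ih]

lemma pl2_res_prod (h : IsRes E ρ) {ι : Type} (s : Finset ι) (f : ι → K)
    (hf : ∀ i, E.Ge 0 (f i)) : ρ (∏ i ∈ s, f i) = ∏ i ∈ s, ρ (f i) := by
  classical
  induction s using Finset.induction_on with
  | empty => simpa using h.const 1
  | insert a s ha ih =>
    rw [Finset.prod_insert ha, Finset.prod_insert ha,
      h.mul _ _ (hf a) (.prod_zero fun i _ => hf i), ih]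

lemma pl2_res_det (h : IsRes E ρ) {n : ℕ} (M : Matrix (Fin n) (Fin n) K)
    (hM : ∀ i j, E.Ge 0 (M i j)) : ρ M.det = (Matrix.of fun i j => ρ (M i j)).det := by
  rw [Matrix.det_apply', Matrix.det_apply', pl2_res_sum h]
  · refine Finset.sum_congr rfl fun σ _ => ?_
    rw [h.mul _ _ (Place.ge_intCast _) (.prod_zero fun i _ => hM _ _),
      pl2_res_prod h _ _ fun i => hM _ _]
    have := h.const ((Equiv.Perm.sign σ : ℤ) : k)
    rw [map_intCast, map_intCast] at this
    rw [this]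
    rfl
  · intro σ
    simpa using (Place.ge_intCast (p := E) (Equiv.Perm.sign σ : ℤ)).mul
      (Place.Ge.prod_zero (s := Finset.univ) fun i _ => hM (σ i) i)

variable {d : ℕ} {x : Fin (d + 1) → K} {t : K} {z : Fin d → K}

lemma pl2_t_ne (h : Adapt p E ρ t z) : t ≠ 0 := by
  rintro rfl
  simpa using h.ord

lemma pl2_frame_ge (h : Adapt p E ρ t z) (i : Fin (d + 1)) :
    E.Ge 0 ((Fin.cons t z : Fin (d + 1) → K) i) := by
  refine Fin.cases ?_ (fun j => ?_) i
  · exact Place.ge_of_le (by simp [h.ord])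
  · simpa using h.ge j

lemma pl2_jac_frame_zero (hg : St_pd_ge k p) (hx : IsPB p x) (h : Adapt p E ρ t z)
    (a : Fin (d + 1) → K) (ha : ∀ i, E.Ge 0 (a i)) :
    E.Ge 0 (jac k (Fin.cons t z : Fin (d + 1) → K) a) := by
  have := pl2_det_ge (E := E)
    (Matrix.of fun i j => pd k (Fin.cons t z : Fin (d + 1) → K) j (a i)) 0 0 fun i j => by
      obtain ⟨-, h2, h3⟩ := hg hx h 0 (a i) (ha i)
      refine Fin.cases ?_ (fun j => ?_) j
      · simpa using (h3 rfl).1
      · simpa using h2 j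
  simpa [jac] using this

lemma pl2_jac_frame (hg : St_pd_ge k p) (hx : IsPB p x) (h : Adapt p E ρ t z)
    (a : Fin (d + 1) → K) (n : Fin (d + 1) → ℤ) (ha : ∀ i, E.Ge (n i) (a i)) :
    E.Ge (∑ i, n i - 1) (jac k (Fin.cons t z : Fin (d + 1) → K) a) := by
  have ht := pl2_t_ne h
  have := pl2_det_ge (E := E)
    (Matrix.of fun i j => pd k (Fin.cons t z : Fin (d + 1) → K) j (a i)) n
    (Fin.cons (-1) 0) fun i j => by
      obtain ⟨h1, h2, -⟩ := hg hx h (n i) (a i) (ha i)
      refine Fin.cases ?_ (fun j => ?_) j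
      · have h4 := h1.mul (Place.ge_ord (p := E) t⁻¹)
        rw [mul_comm t, mul_inv_cancel_right₀ ht, Place.ord_inv, h.ord] at h4
        simpa using h4
      · simpa using h2 j
  simpa [jac, Fin.sum_univ_succ, sub_eq_add_neg] using this

end aux

variable [Fact p.Prime]

theorem pl2_lam_eq (c1 : Car1 k p) (hb : St_adapt_pb k p) (hg : St_pd_ge k p) :
    ∀ {K L : Type} [Field K] [Algebra k K] [Field L] [Algebra k L] {d : ℕ}
    {x : Fin (d + 1) → K} {E : Place k K} {ρ : K → L} {t : K} {z : Fin d → K},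
    IsPB p x → Adapt p E ρ t z → lam k x E = 1 - E.ord (jac k x (Fin.cons t z)) := by
  intro K L _ _ _ _ d x E ρ t z hx h
  have hf := hb hx h
  have hJ : jac k x (Fin.cons t z) ≠ 0 := (c1.pb_iff hx).1 hf
  unfold lam
  congr 1
  refine IsLeast.csInf_eq ⟨⟨_, pl2_frame_ge h, hJ, rfl⟩, ?_⟩
  rintro _ ⟨a, ha, h0, rfl⟩
  have h1 := (pl2_jac_frame_zero hg hx h a ha).mul (Place.ge_ord (p := E) (jac k x (Fin.cons t z)))
  rw [← c1.jac_mul hx hf a, zero_add] at h1
  exact h1.le h0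

theorem pl2_jac_ge (c1 : Car1 k p) (hb : St_adapt_pb k p) (hg : St_pd_ge k p) :
    ∀ {K L : Type} [Field K] [Algebra k K] [Field L] [Algebra k L] {d : ℕ}
    {x : Fin (d + 1) → K} {E : Place k K} {ρ : K → L} {t : K} {z : Fin d → K},
    IsPB p x → Adapt p E ρ t z → ∀ a : Fin (d + 1) → K,
      ((∀ i, E.Ge 0 (a i)) → E.Ge (1 - lam k x E) (jac k x a)) ∧
      ∀ n : Fin (d + 1) → ℤ, (∀ i, E.Ge (n i) (a i)) →
        E.Ge (∑ i, n i - lam k x E) (jac k x a) := by
  intro K L _ _ _ _ d x E ρ t z hx h a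
  have hf := hb hx h
  rw [pl2_lam_eq c1 hb hg hx h, c1.jac_mul hx hf a]
  refine ⟨fun ha => ?_, fun n ha => ?_⟩
  · exact (pl2_jac_frame_zero hg hx h a ha).mul' (Place.ge_ord _) (by omega)
  · exact (pl2_jac_frame hg hx h a n ha).mul' (Place.ge_ord _) (by omega)

theorem pl2_lam_change (c1 : Car1 k p) (hb : St_adapt_pb k p) (hg : St_pd_ge k p) :
    ∀ {K L : Type} [Field K] [Algebra k K] [Field L] [Algebra k L] {d : ℕ}
    {x y : Fin (d + 1) → K} {E : Place k K} {ρ : K → L} {t : K} {z : Fin d → K},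
    IsPB p x → IsPB p y → Adapt p E ρ t z → lam k y E = lam k x E + E.ord (jac k x y) := by
  intro K L _ _ _ _ d x y E ρ t z hx hy h
  have hf := hb hx h
  rw [pl2_lam_eq c1 hb hg hx h, pl2_lam_eq c1 hb hg hy h, c1.jac_mul hx hy (Fin.cons t z),
    E.ord_mul ((c1.pb_iff hy).1 hf) ((c1.pb_iff hx).1 hy)]
  ring

theorem pl2_res_jac (c1 : Car1 k p) (hb : St_adapt_pb k p) (hg : St_pd_ge k p) :
    ∀ {K L : Type} [Field K] [Algebra k K] [Field L] [Algebra k L] {d : ℕ}
    {x : Fin (d + 1) → K} {E : Place k K} {ρ : K → L} {t : K} {z : Fin d → K},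
    IsPB p x → Adapt p E ρ t z → ∀ a : Fin d → K, (∀ i, E.Ge 0 (a i)) →
      E.Ge 0 (jac k (Fin.cons t z : Fin (d + 1) → K) (Fin.cons t a)) ∧
      ρ (jac k (Fin.cons t z : Fin (d + 1) → K) (Fin.cons t a)) =
        jac k (fun i => ρ (z i)) fun i => ρ (a i) := by
  intro K L _ _ _ _ d x E ρ t z hx h a ha
  have hf := hb hx h
  have hrow : ∀ j, pd k (Fin.cons t z : Fin (d + 1) → K) j t = if 0 = j then 1 else 0 :=
    fun j => by simpa using c1.pd_x hf j 0
  have e : jac k (Fin.cons t z : Fin (d + 1) → K) (Fin.cons t a) =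
      (Matrix.of fun i j : Fin d => pd k (Fin.cons t z : Fin (d + 1) → K) j.succ (a i)).det := by
    rw [jac, Matrix.det_succ_row_zero, Fin.sum_univ_succ]
    have h0 : ∀ j : Fin d, ¬ (0 : Fin (d + 1)) = j.succ := fun j => (Fin.succ_ne_zero j).symm
    simp only [Matrix.of_apply, Fin.cons_zero, hrow, h0, if_true, if_false, mul_zero, zero_mul,
      Finset.sum_const_zero, add_zero, Fin.val_zero, pow_zero, one_mul, Fin.succAbove_zero]
    rfl
  have hM : ∀ i j : Fin d, E.Ge 0 (pd k (Fin.cons t z : Fin (d + 1) → K) j.succ (a i)) :=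
    fun i j => (hg hx h 0 (a i) (ha i)).2.1 j
  rw [e]
  refine ⟨by simpa using pl2_det_ge (E := E) _ 0 0 fun i j => by simpa using hM i j, ?_⟩
  rw [pl2_res_det h.res _ fun i j => by simpa using hM i j, jac]
  congr 1
  ext i j
  exact ((hg hx h 0 (a i) (ha i)).2.2 rfl).2 j

section curve

variable {K : Type} [Field K] [Algebra k K] {E : Place k K} {t : K}

lemma pl2_ge_aeval (ht : E.Ge 0 t) (q : k[X]) : E.Ge 0 (aeval t q) := by
  rw [aeval_eq_sum_range]
  exact .sum fun i _ => Place.Ge.smul (by simpa using ht.pow i) _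

lemma pl2_aeval_eq (t : K) (q : k[X]) :
    aeval t q = aeval t q.divX * t + algebraMap k K (q.coeff 0) := by
  conv_lhs => rw [← q.divX_mul_X_add]
  simp

lemma pl2_aeval_unit (ht : E.Ge 1 t) {q : k[X]} (hq : q.coeff 0 ≠ 0) :
    aeval t q ≠ 0 ∧ E.ord (aeval t q) = 0 := by
  refine Place.ord_eq_zero_of_ge_sub_const hq ?_
  rw [pl2_aeval_eq t q, add_sub_cancel_right]
  exact (pl2_ge_aeval (ht.mono zero_le_one) _).mul' ht (by simp)

lemma pl2_local (ht : E.Ge 1 t) (n : ℕ) : ∀ q r : k[X], r.natDegree ≤ n → aeval t r ≠ 0 →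
    E.Ge 0 (aeval t q / aeval t r) →
    ∃ q' r' : k[X], r'.coeff 0 ≠ 0 ∧ aeval t q / aeval t r = aeval t q' / aeval t r' := by
  induction n with
  | zero =>
    intro q r hr h0 _
    refine ⟨q, r, fun hc => h0 ?_, rfl⟩
    rw [eq_C_of_natDegree_le_zero hr, hc]; simp
  | succ n ih =>
    intro q r hr h0 hge
    by_cases hc : r.coeff 0 = 0
    swap
    · exact ⟨q, r, hc, rfl⟩
    have er : aeval t r = aeval t r.divX * t := by rw [pl2_aeval_eq t r, hc]; simp
    have hr1 : E.Ge 1 (aeval t r) := by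
      rw [er]; exact (pl2_ge_aeval (ht.mono zero_le_one) _).mul' ht (by simp)
    have hq : q.coeff 0 = 0 := by
      by_contra hq
      obtain ⟨h1, h2⟩ := pl2_aeval_unit ht hq
      have h3 := hge.le (div_ne_zero h1 h0)
      rw [E.ord_div h1 h0, h2] at h3
      have := hr1.le h0
      omega
    have eq : aeval t q = aeval t q.divX * t := by rw [pl2_aeval_eq t q, hq]; simp
    have ht0 : t ≠ 0 := by rintro rfl; simp [er] at h0
    have h1 : aeval t r.divX ≠ 0 := by intro h1; simp [er, h1] at h0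
    have e : aeval t q / aeval t r = aeval t q.divX / aeval t r.divX := by
      rw [er, eq, mul_div_mul_right _ _ ht0]
    rw [e] at hge ⊢
    refine ih _ _ ?_ h1 hge
    rw [natDegree_divX_eq_natDegree_tsub_one]; omega

lemma pl2_local' (ht : E.Ge 1 t) (hgen : IntermediateField.adjoin k {t} = ⊤) {a : K}
    (ha : E.Ge 0 a) : ∃ q r : k[X], r.coeff 0 ≠ 0 ∧ a = aeval t q / aeval t r := by
  obtain ⟨q, r, rfl⟩ := (IntermediateField.mem_adjoin_simple_iff k (α := t) a).1
    (by rw [hgen]; trivial)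
  by_cases h0 : aeval t r = 0
  · exact ⟨0, 1, by simp, by simp [h0]⟩
  · exact pl2_local ht _ q r le_rfl h0 ha

lemma pl2_ord_gen (ht : E.Ge 1 t) (ht0 : t ≠ 0) (hgen : IntermediateField.adjoin k {t} = ⊤) :
    E.ord t = 1 := by
  obtain ⟨π, h0, hπ⟩ := E.exists_ord_eq_one
  obtain ⟨q, r, hr, rfl⟩ := pl2_local' ht hgen (a := π) (Place.ge_of_le (by omega))
  obtain ⟨h1, h2⟩ := pl2_aeval_unit ht hr
  have hq0 : aeval t q ≠ 0 := by intro h; simp [h] at h0
  rw [E.ord_div hq0 h1, h2] at hπ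
  have hq : q.coeff 0 = 0 := by
    by_contra hq
    have := (pl2_aeval_unit ht hq).2
    omega
  have eq : aeval t q = aeval t q.divX * t := by rw [pl2_aeval_eq t q, hq]; simp
  have h3 : aeval t q.divX ≠ 0 := by intro h3; simp [eq, h3] at hq0
  rw [eq, E.ord_mul h3 ht0] at hπ
  have h4 := (pl2_ge_aeval (ht.mono zero_le_one) q.divX).le h3
  have h5 := ht.le ht0
  omega

lemma pl2_der_ge (ht : E.Ge 1 t) (hgen : IntermediateField.adjoin k {t} = ⊤)
    (D : Derivation k K K) {a : K} (ha : E.Ge 0 a) : E.Ge (E.ord (D t)) (D a) := by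
  obtain ⟨q, r, hr, rfl⟩ := pl2_local' ht hgen ha
  obtain ⟨h1, h2⟩ := pl2_aeval_unit ht hr
  have h0 := ht.mono zero_le_one
  have hinv : E.Ge 0 (aeval t r)⁻¹ := Place.ge_of_le (by simp [h2])
  rw [Derivation.leibniz_div, D.map_aeval, D.map_aeval]
  simp only [smul_eq_mul]
  refine Place.Ge.mul' (m := 0) (n := E.ord (D t)) (by simpa using hinv.pow 2) (.sub ?_ ?_)
    (by simp)
  · exact (pl2_ge_aeval h0 _).mul' ((pl2_ge_aeval h0 _).mul (Place.ge_ord _)) (by simp)
  · exact (pl2_ge_aeval h0 _).mul' ((pl2_ge_aeval h0 _).mul (Place.ge_ord _)) (by simp)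

lemma pl2_lam_one {u : K} (ht : E.Ge 1 t) (hgen : IntermediateField.adjoin k {t} = ⊤)
    (h0 : pd k ![u] 0 t ≠ 0) : lam k ![u] E = 1 - E.ord (pd k ![u] 0 t) := by
  have e : ∀ a : Fin 1 → K, jac k ![u] a = pd k ![u] 0 (a 0) := fun a => by
    rw [jac, Matrix.det_fin_one]; rfl
  unfold lam
  congr 1
  refine IsLeast.csInf_eq ⟨⟨fun _ => t, fun _ => ht.mono zero_le_one, by rwa [e], by rw [e]⟩, ?_⟩
  rintro _ ⟨a, ha, h1, rfl⟩
  rw [e] at h1 ⊢
  exact (pl2_der_ge ht hgen _ (ha 0)).le h1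

lemma pl2_centre [IsAlgClosed k] (ht : E.Ge 0 t) (hgen : IntermediateField.adjoin k {t} = ⊤) :
    ∃ c : k, E.Ge 1 (t - algebraMap k K c) := by
  by_contra hc
  push Not at hc
  have h1 : ∀ q : k[X], aeval t q ≠ 0 → E.ord (aeval t q) = 0 := by
    intro q
    induction hn : q.natDegree generalizing q with
    | zero => intro _; rw [eq_C_of_natDegree_eq_zero hn]; simp
    | succ n ih =>
      intro h0
      have hq : q ≠ 0 := by rintro rfl; simp at h0
      obtain ⟨c, hr⟩ := IsAlgClosed.exists_root q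
        (by rw [degree_eq_natDegree hq, hn]; exact_mod_cast n.succ_ne_zero)
      obtain ⟨s, rfl⟩ := dvd_iff_isRoot.2 hr
      have hs : s ≠ 0 := by rintro rfl; simp at hq
      rw [natDegree_mul (X_sub_C_ne_zero c) hs, natDegree_X_sub_C] at hn
      rw [map_mul] at h0 ⊢
      have h2 := left_ne_zero_of_mul h0
      have h3 := right_ne_zero_of_mul h0
      rw [E.ord_mul h2 h3, ih s (by omega) h3]
      have h4 := (pl2_ge_aeval ht (X - C c)).le h2
      have h5 := (Place.not_ge_iff.1 (hc c)).2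
      simp only [map_sub, aeval_X, aeval_C] at h4 ⊢
      omega
  obtain ⟨π, h0, hπ⟩ := E.exists_ord_eq_one
  obtain ⟨q, r, rfl⟩ := (IntermediateField.mem_adjoin_simple_iff k (α := t) π).1
    (by rw [hgen]; trivial)
  have hq : aeval t q ≠ 0 := by intro h; simp [h] at h0
  have hr : aeval t r ≠ 0 := by intro h; simp [h] at h0
  rw [E.ord_div hq hr, h1 q hq, h1 r hr] at hπ
  omega

lemma pl2_gen {u : K} (hgen : IntermediateField.adjoin k {u} = ⊤)
    (hu : u ∈ IntermediateField.adjoin k {t}) : IntermediateField.adjoin k {t} = ⊤ := by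
  rw [eq_top_iff, ← hgen, IntermediateField.adjoin_simple_le_iff]
  exact hu

end curve

theorem pl2_lam_X [IsAlgClosed k] (c1 : Car1 k p) (hX : IsPB p ![(RatFunc.X : RatFunc k)]) :
    ∀ P : Place k (RatFunc k), lam k ![(RatFunc.X : RatFunc k)] P = lam1 P := by
  intro P
  have hD : pd k ![(RatFunc.X : RatFunc k)] 0 RatFunc.X = 1 := by simpa using c1.pd_x hX 0 0
  have hgen := RatFunc.adjoin_X (K := k)
  unfold lam1
  split_ifs with h
  · obtain ⟨c, hc⟩ := pl2_centre h hgen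
    have h1 : pd k ![(RatFunc.X : RatFunc k)] 0 (RatFunc.X - algebraMap k (RatFunc k) c) = 1 := by
      rw [map_sub, hD, Derivation.map_algebraMap, sub_zero]
    have hg : IntermediateField.adjoin k {RatFunc.X - algebraMap k (RatFunc k) c} = ⊤ := by
      refine pl2_gen hgen ?_
      have := add_mem (IntermediateField.mem_adjoin_simple_self k
        (RatFunc.X - algebraMap k (RatFunc k) c)) (IntermediateField.algebraMap_mem _ c)
      rwa [sub_add_cancel] at this
    rw [pl2_lam_one hc hg (by rw [h1]; exact one_ne_zero), h1]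
    simp
  · obtain ⟨h0, hlt⟩ := Place.not_ge_iff.1 h
    have ht : P.Ge 1 (RatFunc.X : RatFunc k)⁻¹ := Place.ge_of_le (by rw [Place.ord_inv]; omega)
    have hg : IntermediateField.adjoin k {(RatFunc.X : RatFunc k)⁻¹} = ⊤ := by
      refine pl2_gen hgen ?_
      simpa using inv_mem (IntermediateField.mem_adjoin_simple_self k (RatFunc.X : RatFunc k)⁻¹)
    have h1 : pd k ![(RatFunc.X : RatFunc k)] 0 (RatFunc.X)⁻¹ = -(RatFunc.X⁻¹ ^ 2) := by
      rw [Derivation.leibniz_inv, hD]; simp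
    have h2 := pl2_ord_gen ht (inv_ne_zero h0) hg
    rw [pl2_lam_one ht hg (by rw [h1]; simpa using h0), h1, Place.ord_neg, Place.ord_pow, h2]
    simp

end Pool.Agent.Lib.MP_5f81cf_ag.Full
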