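import Pool.Agent.Lib.MP_5f81cf_ag.FPlB
import Pool.Agent.Lib.MP_5f81cf_ag.FPlC

/-! Adapted frames: the assembled statement. -/

namespace Pool.Agent.Lib.MP_5f81cf_ag.Full

theorem pl2 {k : Type} [Field k] [IsAlgClosed k] {p : ℕ} [Fact p.Prime] [CharP k p]
    (c1 : Car1 k p) (c2 : Car2 k p) : Pl2 k p where
  adapt_pb := pl2_adapt_pb c1
  adapt_coef := pl2_adapt_coef
  pd_ge := pl2_pd_ge c1
  lam_eq := pl2_lam_eq c1 (pl2_adapt_pb c1) (pl2_pd_ge c1)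
  jac_ge := pl2_jac_ge c1 (pl2_adapt_pb c1) (pl2_pd_ge c1)
  lam_change := pl2_lam_change c1 (pl2_adapt_pb c1) (pl2_pd_ge c1)
  res_jac := pl2_res_jac c1 (pl2_adapt_pb c1) (pl2_pd_ge c1)
  lam_X := pl2_lam_X c1 c2.pb_X

end Pool.Agent.Lib.MP_5f81cf_ag.Full
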