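import Pool.Agent.Lib.MP_5f81cf_ag.FBlue2

/-! The Cartier operator along a place, and leading coefficients. -/

namespace Pool.Agent.Lib.MP_5f81cf_ag.Full

open Pool.Agent.Lib.MP_e06174_ag

variable {k : Type} [Field k] {p : ℕ} [hp : Fact p.Prime]

section aux

variable {K L : Type} [Field K] [Algebra k K] [Field L] [Algebra k L] {d : ℕ}
  {x : Fin (d + 1) → K} {E : Place k K} {ρ : K → L} {t : K} {z : Fin d → K}

lemma pl3_ge_mul {u : K} (hu : u ≠ 0) (f : K) {N j : ℤ} (h : j = N + E.ord u) :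
    E.Ge j (f * u) ↔ E.Ge N f := by
  by_cases hf : f = 0
  · simp [hf]
  rw [Place.ge_iff hf, Place.ge_iff (mul_ne_zero hf hu), E.ord_mul hf hu]
  omega

lemma pl3_res_one (h : IsRes E ρ) : ρ 1 = 1 := by simpa using h.const 1

lemma pl3_res_zero (h : IsRes E ρ) : ρ 0 = 0 := by simpa using h.const 0

lemma pl3_res_sum (h : IsRes E ρ) {ι : Type} (s : Finset ι) (f : ι → K)
    (hf : ∀ i, E.Ge 0 (f i)) : ρ (∑ i ∈ s, f i) = ∑ i ∈ s, ρ (f i) := by
  classical
  induction s using Finset.induction_on with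
  | empty => simpa using pl3_res_zero h
  | insert a s ha ih =>
    rw [Finset.sum_insert ha, Finset.sum_insert ha, h.add _ _ (hf a) (.sum fun i _ => hf i), ih]

lemma pl3_res_prod (h : IsRes E ρ) {ι : Type} (s : Finset ι) (f : ι → K)
    (hf : ∀ i, E.Ge 0 (f i)) : ρ (∏ i ∈ s, f i) = ∏ i ∈ s, ρ (f i) := by
  classical
  induction s using Finset.induction_on with
  | empty => simpa using pl3_res_one h
  | insert a s ha ih =>
    rw [Finset.prod_insert ha, Finset.prod_insert ha,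
      h.mul _ _ (hf a) (.prod_zero fun i _ => hf i), ih]

lemma pl3_ge_pow {f : K} (hf : E.Ge 0 f) (n : ℕ) : E.Ge 0 (f ^ n) := by simpa using hf.pow n

lemma pl3_res_pow (h : IsRes E ρ) {f : K} (hf : E.Ge 0 f) (n : ℕ) : ρ (f ^ n) = ρ f ^ n := by
  simpa using pl3_res_prod h (Finset.range n) (fun _ => f) fun _ => hf

omit hp in
lemma pl3_t_ne (h : Adapt p E ρ t z) : t ≠ 0 := by
  rintro rfl
  simpa using h.ord

omit hp in
lemma pl3_ge_pmon (h : Adapt p E ρ t z) (β : Fin d → Fin p) : E.Ge 0 (pmon p z β) :=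
  .prod_zero fun i _ => pl3_ge_pow (h.ge i) _

omit hp in
lemma pl3_pmon_cons (t : K) (z : Fin d → K) (i : Fin p) (β : Fin d → Fin p) :
    pmon p (Fin.cons t z : Fin (d + 1) → K) (Fin.cons i β : Fin (d + 1) → Fin p) =
      t ^ (i : ℕ) * pmon p z β := by
  simp [pmon, Fin.prod_univ_succ]

lemma pl3_top : ptop p (d + 1) = Fin.cons (ptop p 1 0) (ptop p d) := by
  funext i
  refine Fin.cases rfl (fun _ => rfl) i

/-- The logarithmic Cartier operator in an adapted frame. -/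
noncomputable def plT (p : ℕ) [Fact p.Prime] (t : K) (z : Fin d → K) (g : K) : K :=
  t * car p (Fin.cons t z : Fin (d + 1) → K) (g / t)

lemma plT_pow (c1 : Car1 k p) (t : K) (z : Fin d → K) (h g : K) :
    plT p t z (h ^ p * g) = h * plT p t z g := by
  rw [plT, plT, mul_div_assoc, c1.car_pow_mul]; ring

lemma plT_add (c1 : Car1 k p) (t : K) (z : Fin d → K) (f g : K) :
    plT p t z (f + g) = plT p t z f + plT p t z g := by
  rw [plT, plT, plT, add_div, c1.car_add, mul_add]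

lemma plT_pmon (c1 : Car1 k p) (ht : t ≠ 0) (ha : IsPB p (Fin.cons t z : Fin (d + 1) → K))
    (β : Fin d → Fin p) : plT p t z (pmon p z β) = if β = ptop p d then 1 else 0 := by
  have e : pmon p z β / t = t⁻¹ ^ p * pmon p (Fin.cons t z : Fin (d + 1) → K)
      (Fin.cons (ptop p 1 0) β : Fin (d + 1) → Fin p) := by
    rw [pl3_pmon_cons]
    have : t ^ p = t ^ ((ptop p 1 0 : Fin p) : ℕ) * t := by
      rw [← pow_succ]; congr 1; exact (Nat.sub_add_cancel hp.out.pos).symm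
    rw [inv_pow, this]
    field_simp
  rw [plT, e, c1.car_pow_mul, c1.car_pmon ha, mul_inv_cancel_left₀ ht, pl3_top (d := d)]
  exact if_congr (Fin.cons_right_injective (α := fun _ => Fin p) _).eq_iff rfl rfl

lemma plT_ge (c1 : Car1 k p) (p2 : Pl2 k p) (h : Adapt p E ρ t z)
    (ha : IsPB p (Fin.cons t z : Fin (d + 1) → K)) {n n' : ℤ} {g : K} (hn : p * (n - 1) < n')
    (hg : E.Ge n' g) : E.Ge n (plT p t z g) := by
  obtain ⟨c, hc, -⟩ := ha (g / t)
  have h1 : E.Ge (n' - 1) (g / t) := by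
    rw [div_eq_mul_inv]
    exact (pl3_ge_mul (inv_ne_zero (pl3_t_ne h)) g (by rw [E.ord_inv, h.ord]; ring)).2 hg
  rw [hc] at h1
  have h2 := (p2.adapt_coef h c _).1 h1 (ptop p (d + 1))
  rw [plT, hc, c1.car_sum ha, mul_comm]
  refine (pl3_ge_mul (N := n - 1) (pl3_t_ne h) _ (by rw [h.ord]; ring)).2 ?_
  by_cases h0 : c (ptop p (d + 1)) = 0
  · simp [h0]
  have h3 := h2.le (pow_ne_zero _ h0)
  have h4 : (((ptop p (d + 1) 0 : Fin p) : ℕ) : ℤ) = p - 1 := by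
    change ((p - 1 : ℕ) : ℤ) = _
    have := hp.out.pos
    omega
  rw [E.ord_pow, h4] at h3
  have h5 : (0 : ℤ) < p := by exact_mod_cast hp.out.pos
  refine Place.ge_of_le ?_
  have : (p : ℤ) * (n - 2) < p * E.ord (c (ptop p (d + 1))) := by linarith
  have := lt_of_mul_lt_mul_left this h5.le
  omega

lemma plT_res (c1 : Car1 k p) (p2 : Pl2 k p) (h : Adapt p E ρ t z)
    (ha : IsPB p (Fin.cons t z : Fin (d + 1) → K)) {g : K} (hg : E.Ge 0 g) :
    ρ (plT p t z g) = car p (fun i => ρ (z i)) (ρ g) := by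
  obtain ⟨e, he, -⟩ := h.pb (ρ g)
  choose l hl hl' using h.res.surj
  have g1 : ∀ β, E.Ge 0 (l (e β) ^ p * pmon p z β) := fun β =>
    (pl3_ge_pow (hl _) _).mul' (pl3_ge_pmon h β) (by simp)
  set g' := ∑ β, l (e β) ^ p * pmon p z β with hg'
  have g2 : E.Ge 0 g' := .sum fun β _ => g1 β
  have g3 : ρ g' = ρ g := by
    rw [he, hg', pl3_res_sum h.res _ _ g1]
    refine Finset.sum_congr rfl fun β _ => ?_
    rw [h.res.mul _ _ (pl3_ge_pow (hl _) _) (pl3_ge_pmon h β), pl3_res_pow h.res (hl _), hl', pmon,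
      pl3_res_prod h.res _ _ fun i => pl3_ge_pow (h.ge i) _, pmon]
    simp only [pl3_res_pow h.res (h.ge _)]
  have g4 : E.Ge 1 (g - g') := by
    refine (h.res.zero _ (hg.sub g2)).1 ?_
    have := h.res.add _ _ g2 (hg.sub g2)
    rw [add_sub_cancel, g3] at this
    simpa using this
  have g5 : E.Ge 1 (plT p t z (g - g')) := plT_ge c1 p2 h ha (by simp) g4
  have g6 : plT p t z g' = l (e (ptop p d)) := by
    have := map_sum (AddMonoidHom.mk' (plT p t z) (plT_add c1 t z))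
      (fun β => l (e β) ^ p * pmon p z β) Finset.univ
    simp only [AddMonoidHom.mk'_apply, plT_pow c1, plT_pmon c1 (pl3_t_ne h) ha] at this
    simpa using this
  have g7 := plT_add c1 t z g' (g - g')
  rw [add_sub_cancel, g6] at g7
  rw [g7, h.res.add _ _ (hl _) (g5.mono (by simp)), (h.res.zero _ (g5.mono (by simp))).2 g5,
    add_zero, hl', he, c1.car_sum h.pb]

lemma pl3_c_ne (c1 : Car1 k p) (p2 : Pl2 k p) (hx : IsPB p x) (h : Adapt p E ρ t z) :
    jac k x (Fin.cons t z) / t ≠ 0 :=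
  div_ne_zero ((c1.pb_iff hx).1 (p2.adapt_pb hx h)) (pl3_t_ne h)

lemma pl3_cge (c1 : Car1 k p) (p2 : Pl2 k p) (hx : IsPB p x) (h : Adapt p E ρ t z) (m : ℕ)
    (n : ℤ) (f : K) : CGe x E m n f ↔ E.Ge n (f * (jac k x (Fin.cons t z) / t) ^ m) := by
  refine (pl3_ge_mul (pow_ne_zero _ (pl3_c_ne c1 p2 hx h)) f ?_).symm
  rw [E.ord_pow, E.ord_div ((c1.pb_iff hx).1 (p2.adapt_pb hx h)) (pl3_t_ne h), h.ord,
    p2.lam_eq hx h]
  ring

lemma pl3_cge' (c1 : Car1 k p) (p2 : Pl2 k p) (hx : IsPB p x) (h : Adapt p E ρ t z) (m : ℕ)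
    (n j : ℤ) (f : K) :
    CGe x E m (n + j) f ↔ E.Ge j (f * (jac k x (Fin.cons t z) / t) ^ m * t ^ (-n)) := by
  rw [pl3_cge c1 p2 hx h]
  refine (pl3_ge_mul (zpow_ne_zero _ (pl3_t_ne h)) _ ?_).symm
  rw [E.ord_zpow, h.ord]
  ring

lemma pl3_cge0 (c1 : Car1 k p) (p2 : Pl2 k p) (hx : IsPB p x) (h : Adapt p E ρ t z) {m : ℕ}
    {n : ℤ} {f : K} (hf : CGe x E m n f) :
    E.Ge 0 (f * (jac k x (Fin.cons t z) / t) ^ m * t ^ (-n)) :=
  (pl3_cge' c1 p2 hx h m n 0 f).1 (by rwa [add_zero])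

lemma pl3_key (c1 : Car1 k p) (cj : St_CarJac k p) (p2 : Pl2 k p) (hx : IsPB p x)
    (h : Adapt p E ρ t z) {m m' : ℕ} (hm : m' + 1 = p * (m + 1)) (f : K) :
    car p x f * (jac k x (Fin.cons t z) / t) ^ m =
      plT p t z (f * (jac k x (Fin.cons t z) / t) ^ m') := by
  have hc := pl3_c_ne c1 p2 hx h
  have ht := pl3_t_ne h
  have h1 := cj hx (p2.adapt_pb hx h) (f / jac k x (Fin.cons t z))
  obtain ⟨c, hc'⟩ : ∃ c, c = jac k x (Fin.cons t z) / t := ⟨_, rfl⟩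
  have hJ : jac k x (Fin.cons t z) = c * t := by rw [hc', div_mul_cancel₀ _ ht]
  rw [← hc'] at hc ⊢
  rw [hJ, div_mul_cancel₀ _ (mul_ne_zero hc ht)] at h1
  have e : f * c ^ m' = (c ^ (m + 1)) ^ p * (f / c) := by
    rw [← pow_mul, mul_comm (m + 1), ← hm, pow_succ]
    field_simp
  rw [e, plT_pow c1, plT, div_div, h1]
  ring

end aux

theorem pl3 (c1 : Car1 k p) (cj : St_CarJac k p) (p2 : Pl2 k p) : Pl3 k p where
  car_cge := fun hx h _ _ _ _ _ hm hn hf => by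
    rw [pl3_cge c1 p2 hx h] at hf ⊢
    rw [pl3_key c1 cj p2 hx h hm]
    exact plT_ge c1 p2 h (p2.adapt_pb hx h) hn hf
  car_exact := fun {K _ _ _ _ _ d x E _ t z} hx h m m' n f hm hf => by
    rw [pl3_cge c1 p2 hx h, Place.not_ge_iff] at hf
    obtain ⟨g, hg⟩ : ∃ g, g = f * (jac k x (Fin.cons t z) / t) ^ m' := ⟨_, rfl⟩
    rw [← hg] at hf
    have ht := pl3_t_ne h
    refine ⟨(t ^ n) ^ p * pmon p z (ptop p d) * g⁻¹, ?_, ?_⟩
    · refine (pl3_ge_mul (N := -E.ord g⁻¹) (inv_ne_zero hf.1) _ (by ring)).2 ?_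
      refine ((Place.ge_ord (t ^ n)).pow p).mul' (pl3_ge_pmon h _) ?_
      rw [E.ord_zpow, h.ord, E.ord_inv]
      linarith [hf.2]
    · rw [pl3_cge c1 p2 hx h, pl3_key c1 cj p2 hx h hm, mul_assoc, ← hg,
        inv_mul_cancel_right₀ hf.1, plT_pow c1, plT_pmon c1 ht (p2.adapt_pb hx h), if_pos rfl,
        mul_one, Place.not_ge_iff, E.ord_zpow, h.ord]
      exact ⟨zpow_ne_zero _ ht, by omega⟩
  lc_add := fun hx h _ _ _ _ hf hg => by
    rw [lc, add_mul, add_mul]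
    exact h.res.add _ _ (pl3_cge0 c1 p2 hx h hf) (pl3_cge0 c1 p2 hx h hg)
  lc_smul := fun hx h _ _ _ c hf => by
    rw [lc, smul_mul_assoc, smul_mul_assoc, Algebra.smul_def, Algebra.smul_def,
      h.res.mul _ _ (Place.ge_const c) (pl3_cge0 c1 p2 hx h hf), h.res.const, lc]
  lc_mul := fun hx h _ _ _ _ _ _ hf hg => by
    rw [lc, lc, lc, ← h.res.mul _ _ (pl3_cge0 c1 p2 hx h hf) (pl3_cge0 c1 p2 hx h hg), neg_add,
      zpow_add₀ (pl3_t_ne h)]
    congr 1
    ring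
  lc_eq_zero := fun hx h _ _ _ hf => by
    rw [lc, h.res.zero _ (pl3_cge0 c1 p2 hx h hf), pl3_cge' c1 p2 hx h]
  lc_car := fun {K _ _ _ _ _ d x E _ t z} hx h m m' n f hm hf => by
    rw [lc, lc, ← plT_res c1 p2 h (p2.adapt_pb hx h) (pl3_cge0 c1 p2 hx h hf),
      pl3_key c1 cj p2 hx h hm, mul_comm _ (t ^ (-n)), ← plT_pow c1, ← zpow_natCast, ← zpow_mul,
      mul_comm (t ^ _)]
    congr 4
    ring

end Pool.Agent.Lib.MP_5f81cf_ag.Full
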