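import Pool.Agent.Lib.MP_5f81cf_ag.FBlue2

/-! Block P4: comparison with Kähler differentials. -/

namespace Pool.Agent.Lib.MP_5f81cf_ag.Full

open Pool.Agent.Lib.MP_e06174_ag

variable {k : Type} [Field k] {p : ℕ} [Fact p.Prime]

lemma p4_alt_det {K M V : Type} [Field K] [AddCommGroup M] [Module K M] [AddCommGroup V]
    [Module K V] {d : ℕ} (F : M [⋀^Fin d]→ₗ[K] V) (e : Fin d → M) (A : Fin d → Fin d → K) :
    F (fun i => ∑ j, A i j • e j) = (Matrix.of A).det • F e := by
  rw [← sub_eq_zero, ← Module.forall_dual_apply_eq_zero_iff K]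
  intro l
  let G : (Fin d → K) [⋀^Fin d]→ₗ[K] K :=
    l.compAlternatingMap (F.compLinearMap (Fintype.linearCombination K e))
  have h := congrArg (fun g : (Fin d → K) [⋀^Fin d]→ₗ[K] K => g A)
    (G.eq_smul_basis_det (Pi.basisFun K (Fin d)))
  simp only [Pi.basisFun_det, AlternatingMap.smul_apply, smul_eq_mul] at h
  have h1 : G A = l (F fun i => ∑ j, A i j • e j) := by
    simp [G, Fintype.linearCombination_apply]
  have h2 : G (Pi.basisFun K (Fin d)) = l (F e) := by
    simp [G]
  rw [map_sub, map_smul, ← h1, h, h2, smul_eq_mul, mul_comm, sub_eq_zero]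
  rfl

lemma p4_D_eq (c1 : Car1 k p) {K : Type} [Field K] [Algebra k K] {d : ℕ} {x : Fin d → K}
    (hx : IsPB p x) (g : K) :
    KaehlerDifferential.D k K g = ∑ j, pd k x j g • KaehlerDifferential.D k K (x j) := by
  rw [← sub_eq_zero, ← Module.forall_dual_apply_eq_zero_iff K]
  intro l
  have h := c1.der_eq hx (l.compDer (KaehlerDifferential.D k K)) g
  rw [map_sub, map_sum, sub_eq_zero]
  simp only [map_smul, smul_eq_mul]
  exact h

lemma p4_vol_eq (c1 : Car1 k p) {K : Type} [Field K] [Algebra k K] {d : ℕ} {x : Fin d → K}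
    (hx : IsPB p x) (a : Fin d → K) :
    (exteriorPower.ιMulti K d fun i => KaehlerDifferential.D k K (a i)) =
      jac k x a • exteriorPower.ιMulti K d fun i => KaehlerDifferential.D k K (x i) := by
  simp_rw [p4_D_eq c1 hx (a _)]
  exact p4_alt_det _ _ _

lemma p4_exists_phi {K : Type} [Field K] [Algebra k K] {d : ℕ} (x : Fin d → K) :
    ∃ φ : ⋀[K]^d Ω[K⁄k] →ₗ[K] K, ∀ a : Fin d → K,
      φ (exteriorPower.ιMulti K d fun i => KaehlerDifferential.D k K (a i)) = jac k x a := by
  let l : Ω[K⁄k] →ₗ[K] (Fin d → K) := LinearMap.pi fun j => (pd k x j).liftKaehlerDifferential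
  refine ⟨exteriorPower.alternatingMapLinearEquiv
    ((Matrix.detRowAlternating (n := Fin d) (R := K)).compLinearMap l), fun a => ?_⟩
  rw [exteriorPower.alternatingMapLinearEquiv_apply_ιMulti]
  change Matrix.det (Matrix.of fun i => l (KaehlerDifferential.D k K (a i))) = _
  unfold jac
  congr 1
  ext i j
  simp [l]

theorem pl4_span (c1 : Car1 k p) {K : Type} [Field K] [Algebra k K] {d : ℕ} {x : Fin d → K}
    (hx : IsPB p x) (ω : ⋀[K]^d Ω[K⁄k]) : ∃ f : K,
      ω = f • exteriorPower.ιMulti K d fun i => KaehlerDifferential.D k K (x i) := by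
  have hspan : ∀ v : Ω[K⁄k], ∃ c : Fin d → K,
      v = ∑ j, c j • KaehlerDifferential.D k K (x j) := by
    intro v
    have hv : v ∈ Submodule.span K (Set.range fun j => KaehlerDifferential.D k K (x j)) := by
      have : (⊤ : Submodule K Ω[K⁄k]) ≤
          Submodule.span K (Set.range fun j => KaehlerDifferential.D k K (x j)) := by
        rw [← KaehlerDifferential.span_range_derivation, Submodule.span_le]
        rintro _ ⟨g, rfl⟩
        rw [p4_D_eq c1 hx g]
        exact Submodule.sum_mem _ fun j _ =>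
          Submodule.smul_mem _ _ (Submodule.subset_span ⟨j, rfl⟩)
      exact this Submodule.mem_top
    obtain ⟨c, hc⟩ := (Submodule.mem_span_range_iff_exists_fun K).1 hv
    exact ⟨c, hc.symm⟩
  have hω : ω ∈ Submodule.span K
      {exteriorPower.ιMulti K d fun i => KaehlerDifferential.D k K (x i)} := by
    have : (⊤ : Submodule K (⋀[K]^d Ω[K⁄k])) ≤ Submodule.span K
        {exteriorPower.ιMulti K d fun i => KaehlerDifferential.D k K (x i)} := by
      rw [← exteriorPower.ιMulti_span, Submodule.span_le]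
      rintro _ ⟨v, rfl⟩
      choose c hc using fun i => hspan (v i)
      have : v = fun i => ∑ j, c i j • KaehlerDifferential.D k K (x j) := funext hc
      rw [this, p4_alt_det]
      exact Submodule.smul_mem _ _ (Submodule.mem_span_singleton_self _)
    exact this Submodule.mem_top
  obtain ⟨f, hf⟩ := Submodule.mem_span_singleton.1 hω
  exact ⟨f, hf.symm⟩

theorem pl4_formOrd_eq (c1 : Car1 k p) (p2 : Pl2 k p) {K L : Type} [Field K] [Algebra k K]
    [Field L] [Algebra k L] {d : ℕ} {x : Fin (d + 1) → K} {E : Place k K} {ρ : K → L} {t : K}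
    {z : Fin d → K} (hx : IsPB p x) (hA : Adapt p E ρ t z) (f : K) (hf : f ≠ 0) :
    formOrd (d + 1) E
      (f • exteriorPower.ιMulti K (d + 1) fun i => KaehlerDifferential.D k K (x i)) =
        E.ord f + lam k x E - 1 := by
  obtain ⟨φ, hφ⟩ := p4_exists_phi (k := k) x
  have hJ : jac k x (Fin.cons t z) ≠ 0 := (c1.pb_iff hx).1 (p2.adapt_pb hx hA)
  have hl := p2.lam_eq hx hA
  unfold formOrd
  rw [← csSup_Iic (a := E.ord f + lam k x E - 1)]
  congr 1
  ext m
  simp only [Set.mem_Iic]
  constructor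
  · intro hm
    have key : ∀ ω ∈ AddSubgroup.closure {η | ∃ (f : K) (a : Fin (d + 1) → K),
        E.Ge m f ∧ (∀ i, E.Ge 0 (a i)) ∧
          η = f • exteriorPower.ιMulti K (d + 1) fun i => KaehlerDifferential.D k K (a i)},
        E.Ge (m + (1 - lam k x E)) (φ ω) := by
      intro ω hω
      induction hω using AddSubgroup.closure_induction with
      | mem η hη =>
        obtain ⟨g, a, h1, h2, rfl⟩ := hη
        rw [map_smul, hφ, smul_eq_mul]
        exact h1.mul ((p2.jac_ge hx hA a).1 h2)
      | zero => simp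
      | add _ _ _ _ h1 h2 => rw [map_add]; exact h1.add h2
      | neg _ _ h1 => rw [map_neg]; exact h1.neg
    have h := key _ hm
    rw [map_smul, hφ, c1.jac_self hx, smul_eq_mul, mul_one] at h
    have := h.le hf
    omega
  · intro hm
    refine AddSubgroup.subset_closure ⟨f / jac k x (Fin.cons t z), Fin.cons t z, ?_, ?_, ?_⟩
    · apply Place.ge_of_le
      rw [E.ord_div hf hJ]
      omega
    · intro i
      refine Fin.cases ?_ (fun j => ?_) i
      · exact Place.ge_of_le (by simp [hA.ord])
      · simpa using hA.ge j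
    · rw [p4_vol_eq c1 hx (Fin.cons t z), smul_smul, div_mul_cancel₀ _ hJ]

theorem pl4 (c1 : Car1 k p) (p2 : Pl2 k p) : Pl4 k p where
  span := fun hx ω => pl4_span c1 hx ω
  formOrd_eq := fun hx hA f hf => pl4_formOrd_eq c1 p2 hx hA f hf

end Pool.Agent.Lib.MP_5f81cf_ag.Full
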