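import Pool.Agent.Lib.MP_5f81cf_ag.FDefs

/-! Formal properties of `p`-bases and of the Cartier operator, first part. -/

namespace Pool.Agent.Lib.MP_5f81cf_ag.Full

open MvPolynomial

section Basic

variable {K : Type} [Field K] {p : ℕ} {d : ℕ}

/-- The coefficients of `f` in a `p`-basis. -/
noncomputable def pcoef {x : Fin d → K} (h : IsPB p x) (f : K) : (Fin d → Fin p) → K :=
  (h f).exists.choose

lemma pcoef_spec {x : Fin d → K} (h : IsPB p x) (f : K) :
    f = ∑ α, pcoef h f α ^ p * pmon p x α := (h f).exists.choose_spec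

lemma pcoef_eq {x : Fin d → K} (h : IsPB p x) {f : K} {c : (Fin d → Fin p) → K}
    (hc : f = ∑ α, c α ^ p * pmon p x α) : pcoef h f = c :=
  (h f).unique (pcoef_spec h f) hc

lemma pcoef_inj {x : Fin d → K} (h : IsPB p x) {f g : K} (e : pcoef h f = pcoef h g) : f = g := by
  rw [pcoef_spec h f, pcoef_spec h g, e]

variable [Fact p.Prime]

lemma car_eq {x : Fin d → K} (h : IsPB p x) (f : K) : car p x f = pcoef h f (ptop p d) := by
  unfold car pcoef
  rw [dif_pos h]

omit [Fact p.Prime] in
lemma pcoef_pow_mul {x : Fin d → K} (h : IsPB p x) (g f : K) :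
    pcoef h (g ^ p * f) = g • pcoef h f := by
  refine pcoef_eq h ?_
  conv_lhs => rw [pcoef_spec h f, Finset.mul_sum]
  refine Finset.sum_congr rfl fun α _ => ?_
  rw [Pi.smul_apply, smul_eq_mul, mul_pow, mul_assoc]

lemma pcoef_add [CharP K p] {x : Fin d → K} (h : IsPB p x) (f g : K) :
    pcoef h (f + g) = pcoef h f + pcoef h g := by
  refine pcoef_eq h ?_
  conv_lhs => rw [pcoef_spec h f, pcoef_spec h g, ← Finset.sum_add_distrib]
  refine Finset.sum_congr rfl fun α _ => ?_
  rw [Pi.add_apply, add_pow_char, add_mul]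

lemma pb_indep {x : Fin d → K} (h : IsPB p x) {c : (Fin d → Fin p) → K}
    (hc : ∑ α, c α ^ p * pmon p x α = 0) (α : Fin d → Fin p) : c α = 0 := by
  have h0 : (0 : K) = ∑ α, (0 : (Fin d → Fin p) → K) α ^ p * pmon p x α := by
    simp [(Fact.out : p.Prime).ne_zero]
  have := (pcoef_eq h hc.symm).symm.trans (pcoef_eq h h0)
  rw [this]; rfl

end Basic

variable {k : Type} [Field k] [IsAlgClosed k] {p : ℕ} [Fact p.Prime] [CharP k p]

omit [IsAlgClosed k] [CharP k p] in
theorem car1_car_sum : ∀ {K : Type} [Field K] [Algebra k K] {d : ℕ} {x : Fin d → K}, IsPB p x →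
    ∀ c : (Fin d → Fin p) → K, car p x (∑ α, c α ^ p * pmon p x α) = c (ptop p d) := by
  intro K _ _ d x h c
  rw [car_eq h, pcoef_eq h rfl]

omit [IsAlgClosed k] in
theorem car1_car_add : ∀ {K : Type} [Field K] [Algebra k K] {d : ℕ} (x : Fin d → K) (f g : K),
    car p x (f + g) = car p x f + car p x g := by
  intro K _ _ d x f g
  have : CharP K p := charP_of_injective_algebraMap (algebraMap k K).injective p
  by_cases h : IsPB p x
  · rw [car_eq h, car_eq h, car_eq h, pcoef_add h, Pi.add_apply]
  · simp [car, h]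

omit [IsAlgClosed k] [CharP k p] in
theorem car1_car_pow_mul : ∀ {K : Type} [Field K] [Algebra k K] {d : ℕ} (x : Fin d → K)
    (g f : K), car p x (g ^ p * f) = g * car p x f := by
  intro K _ _ d x g f
  by_cases h : IsPB p x
  · rw [car_eq h, car_eq h, pcoef_pow_mul h, Pi.smul_apply, smul_eq_mul]
  · simp [car, h]

omit [IsAlgClosed k] [CharP k p] in
theorem car1_car_pmon : ∀ {K : Type} [Field K] [Algebra k K] {d : ℕ} {x : Fin d → K}, IsPB p x →
    ∀ α, car p x (pmon p x α) = if α = ptop p d then 1 else 0 := by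
  intro K _ _ d x h α
  classical
  have e : pmon p x α = ∑ β, (Pi.single α (1 : K) : (Fin d → Fin p) → K) β ^ p * pmon p x β := by
    rw [Finset.sum_eq_single α]
    · simp
    · intro β _ hβ
      simp [Pi.single_eq_of_ne hβ, (Fact.out : p.Prime).ne_zero]
    · simp
  rw [car_eq h, pcoef_eq h e, Pi.single_apply]
  simp only [eq_comm]

omit [IsAlgClosed k] in
theorem car1_pb_of_indep : ∀ {K : Type} [Field K] [Algebra k K] {d : ℕ} {x a : Fin d → K},
    IsPB p x →
    (∀ c : (Fin d → Fin p) → K, ∑ α, c α ^ p * pmon p a α = 0 → ∀ α, c α = 0) → IsPB p a := by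
  intro K _ _ d x a h hi
  have : CharP K p := charP_of_injective_algebraMap (algebraMap k K).injective p
  let T : ((Fin d → Fin p) → K) →ₗ[K] ((Fin d → Fin p) → K) :=
    { toFun := fun c => pcoef h (∑ α, c α ^ p * pmon p a α)
      map_add' := fun c c' => by
        rw [← pcoef_add h, ← Finset.sum_add_distrib]
        congr 1
        refine Finset.sum_congr rfl fun α _ => ?_
        rw [Pi.add_apply, add_pow_char, add_mul]
      map_smul' := fun g c => by
        rw [RingHom.id_apply, ← pcoef_pow_mul h, Finset.mul_sum]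
        congr 1
        refine Finset.sum_congr rfl fun α _ => ?_
        rw [Pi.smul_apply, smul_eq_mul, mul_pow, mul_assoc] }
  have hT : ∀ c, T c = pcoef h (∑ α, c α ^ p * pmon p a α) := fun c => rfl
  have hinj : Function.Injective T := by
    rw [injective_iff_map_eq_zero]
    intro c hc
    funext α
    refine hi c ?_ α
    have h1 := pcoef_spec h (∑ α, c α ^ p * pmon p a α)
    rw [← hT, hc] at h1
    rw [h1]
    simp [(Fact.out : p.Prime).ne_zero]
  have hsurj := LinearMap.injective_iff_surjective.mp hinj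
  intro f
  obtain ⟨c, hc⟩ := hsurj (pcoef h f)
  refine ⟨c, (pcoef_inj h hc).symm, fun c' hc' => hinj ?_⟩
  rw [hc, hT, ← hc']

section Alg

variable {d : ℕ}

/-- Residues of an exponent vector. -/
def eres (p : ℕ) [hp : Fact p.Prime] (e : Fin d →₀ ℕ) : Fin d → Fin p :=
  fun i => ⟨e i % p, Nat.mod_lt _ hp.out.pos⟩

/-- Quotients of an exponent vector. -/
noncomputable def equo (p : ℕ) (e : Fin d →₀ ℕ) : Fin d →₀ ℕ :=
  e.mapRange (· / p) (Nat.zero_div p)

/-- The piece of a polynomial attached to a residue class of exponents. -/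
noncomputable def piece (p : ℕ) [Fact p.Prime] [CharP k p] (P : MvPolynomial (Fin d) k)
    (α : Fin d → Fin p) : MvPolynomial (Fin d) k :=
  ∑ e ∈ P.support with eres p e = α, monomial (equo p e) ((frobeniusEquiv k p).symm (coeff e P))

lemma eq_of_res_quo {e e' : Fin d →₀ ℕ} (h1 : eres p e = eres p e') (h2 : equo p e = equo p e') :
    e = e' := by
  ext i
  have a1 : e i % p = e' i % p := congrArg Fin.val (congrFun h1 i)
  have a2 : e i / p = e' i / p := by simpa [equo] using DFunLike.congr_fun h2 i
  rw [← Nat.mod_add_div (e i) p, ← Nat.mod_add_div (e' i) p, a1, a2]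

lemma coeff_piece (P : MvPolynomial (Fin d) k) {e : Fin d →₀ ℕ} (he : e ∈ P.support) :
    coeff (equo p e) (piece p P (eres p e)) = (frobeniusEquiv k p).symm (coeff e P) := by
  unfold piece
  rw [coeff_sum, Finset.sum_eq_single e]
  · simp
  · intro e' he' hne
    rw [coeff_monomial, if_neg]
    exact fun h => hne (eq_of_res_quo (Finset.mem_filter.mp he').2 h)
  · intro h
    exact (h (Finset.mem_filter.mpr ⟨he, by rfl⟩)).elim

lemma degree_piece (P : MvPolynomial (Fin d) k) (α : Fin d → Fin p) :
    (piece p P α).totalDegree ≤ P.totalDegree / p := by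
  unfold piece
  refine totalDegree_finsetSum_le fun e he => (totalDegree_monomial_le _ _).trans ?_
  have h1 := le_totalDegree (Finset.mem_filter.mp he).1
  rw [Nat.le_div_iff_mul_le (Fact.out : p.Prime).pos]
  refine le_trans ?_ h1
  rw [Finsupp.sum_fintype _ _ (fun _ => rfl), Finsupp.sum_fintype _ _ (fun _ => rfl),
    Finset.sum_mul]
  refine Finset.sum_le_sum fun i _ => ?_
  simpa [equo] using Nat.div_mul_le_self (e i) p

lemma aeval_piece {K : Type} [Field K] [Algebra k K] (x : Fin d → K)
    (P : MvPolynomial (Fin d) k) :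
    aeval x P = ∑ α, aeval x (piece p P α) ^ p * pmon p x α := by
  have : CharP K p := charP_of_injective_algebraMap (algebraMap k K).injective p
  conv_lhs => rw [P.as_sum, map_sum, ← Finset.sum_fiberwise P.support (eres p)]
  refine Finset.sum_congr rfl fun α _ => ?_
  unfold piece
  rw [map_sum, sum_pow_char, Finset.sum_mul]
  refine Finset.sum_congr rfl fun e he => ?_
  rw [← (Finset.mem_filter.mp he).2, aeval_monomial, aeval_monomial, mul_pow, ← map_pow,
    frobeniusEquiv_symm_pow_p, mul_assoc, Finsupp.prod_fintype _ _ (fun _ => pow_zero _),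
    Finsupp.prod_fintype _ _ (fun _ => pow_zero _), pmon, ← Finset.prod_pow,
    ← Finset.prod_mul_distrib]
  congr 1
  refine Finset.prod_congr rfl fun i _ => ?_
  rw [← pow_mul, ← pow_add]
  congr 1
  simp only [equo, eres, Finsupp.mapRange_apply]
  exact (Nat.div_add_mod' (e i) p).symm

end Alg

theorem car1_algInd : ∀ {K : Type} [Field K] [Algebra k K] {d : ℕ} {x : Fin d → K}, IsPB p x →
    AlgebraicIndependent k x := by
  intro K _ _ d x h
  rw [algebraicIndependent_iff]
  intro P
  induction hn : P.totalDegree using Nat.strong_induction_on generalizing P with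
  | _ n ih =>
    intro hP
    rcases Nat.eq_zero_or_pos n with h0 | h0
    · rw [h0, totalDegree_eq_zero_iff_eq_C] at hn
      rw [hn, aeval_C, map_eq_zero] at hP
      rw [hn, hP, map_zero]
    · by_contra hne
      obtain ⟨e, he⟩ := support_nonempty.mpr hne
      have h1 := pb_indep h ((aeval_piece x P).symm.trans hP) (eres p e)
      have h2 := ih _ ((degree_piece P (eres p e)).trans_lt
        (hn ▸ Nat.div_lt_self (hn ▸ h0) (Fact.out : p.Prime).one_lt)) _ rfl h1
      have h3 := coeff_piece (p := p) P he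
      rw [h2, coeff_zero, eq_comm, map_eq_zero] at h3
      exact mem_support_iff.mp he h3

end Pool.Agent.Lib.MP_5f81cf_ag.Full
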