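import Pool.Agent.Lib.MP_5f81cf_ag.FSepB
import Pool.Agent.Lib.MP_5f81cf_ag.FCarA

/-! `p`-bases and separating transcendence bases. -/

namespace Pool.Agent.Lib.MP_5f81cf_ag.Full

open Pool.Agent.Lib.MP_e06174_ag MvPolynomial

variable {k : Type} [Field k] [IsAlgClosed k] {p : ℕ} [Fact p.Prime] [CharP k p]

section Aux

variable {d : ℕ}

/-- The exponent vector of a reduced monomial. -/
noncomputable def sepA_exp (α : Fin d → Fin p) : Fin d →₀ ℕ :=
  Finsupp.equivFunOnFinite.symm fun i => (α i : ℕ)

omit [IsAlgClosed k] in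
theorem sepA_poly (P : (Fin d → Fin p) → MvPolynomial (Fin d) k)
    (h : ∑ α, P α ^ p * monomial (sepA_exp α) 1 = 0) (α : Fin d → Fin p) : P α = 0 := by
  classical
  have hp : p.Prime := Fact.out
  ext e
  have h1 := congrArg (coeff (p • e + sepA_exp α)) h
  rw [coeff_sum, Finset.sum_eq_single α, coeff_mul_monomial, mul_one, ← map_frobenius_expand p,
    coeff_map, coeff_expand_smul p hp.ne_zero, coeff_zero, frobenius_def] at h1
  · rw [coeff_zero]
    exact pow_eq_zero_iff hp.ne_zero |>.1 h1
  · intro β _ hβ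
    rw [coeff_mul_monomial']
    split_ifs with hle
    · obtain ⟨i, hi⟩ := Function.ne_iff.1 hβ
      rw [← map_frobenius_expand p, coeff_map, coeff_expand_of_not_dvd _ (i := i), map_zero,
        zero_mul]
      have h2 := hle i
      simp only [sepA_exp, Finsupp.coe_tsub, Finsupp.coe_add, Finsupp.coe_smul, Pi.sub_apply,
        Pi.add_apply, Pi.smul_apply, smul_eq_mul, Finsupp.equivFunOnFinite_symm_apply_apply] at h2 ⊢
      intro hd
      have h3 := (Nat.modEq_iff_dvd' h2).2 hd
      rw [Nat.ModEq, Nat.mul_add_mod, Nat.mod_eq_of_lt (β i).2, Nat.mod_eq_of_lt (α i).2] at h3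
      exact hi (Fin.ext h3)
    · rfl
  · simp

omit [IsAlgClosed k] [Fact p.Prime] [CharP k p] in
theorem sepA_aeval_mon {K : Type} [Field K] [Algebra k K] (x : Fin d → K) (α : Fin d → Fin p) :
    aeval x (monomial (sepA_exp α) (1 : k)) = pmon p x α := by
  rw [aeval_monomial, map_one, one_mul, Finsupp.prod_fintype _ _ (fun _ => pow_zero _), pmon]
  rfl

theorem sepA_rat {K : Type} [Field K] [Algebra k K] {x : Fin d → K}
    (hx : AlgebraicIndependent k x)
    (hs : ∀ f : K, ∃ r s : MvPolynomial (Fin d) k, f = aeval x r / aeval x s) : IsPB p x := by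
  classical
  have hp : p.Prime := Fact.out
  have : CharP K p := charP_of_injective_algebraMap (algebraMap k K).injective p
  have hs' : ∀ f : K, ∃ r s : MvPolynomial (Fin d) k, aeval x s ≠ 0 ∧ f * aeval x s = aeval x r := by
    intro f
    obtain ⟨r, s, h⟩ := hs f
    by_cases h0 : aeval x s = 0
    · exact ⟨0, 1, by simp, by simp [h, h0]⟩
    · exact ⟨r, s, h0, by rw [h, div_mul_cancel₀ _ h0]⟩
  refine sepB_isPB (fun f => ?_) fun c hc => ?_
  · obtain ⟨r, s, h0, h⟩ := hs' f
    refine ⟨fun α => aeval x (piece p (r * s ^ (p - 1)) α) / aeval x s, ?_⟩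
    have h1 := aeval_piece (p := p) x (r * s ^ (p - 1))
    have h2 : f * aeval x s ^ p = aeval x (r * s ^ (p - 1)) := by
      rw [map_mul, map_pow, ← h, mul_assoc, mul_pow_sub_one hp.ne_zero]
    rw [eq_div_of_mul_eq (pow_ne_zero p h0) h2, h1, Finset.sum_div]
    refine Finset.sum_congr rfl fun α _ => ?_
    rw [div_pow, div_mul_eq_mul_div]
  · choose r s h0 h using fun α => hs' (c α)
    have hS : aeval x (∏ β, s β) ≠ 0 := by
      rw [map_prod]
      exact Finset.prod_ne_zero_iff.2 fun β _ => h0 β
    have h1 : ∀ α, aeval x (r α * ∏ β ∈ Finset.univ.erase α, s β) = c α * aeval x (∏ β, s β) := by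
      intro α
      rw [← Finset.mul_prod_erase _ _ (Finset.mem_univ α), map_mul, map_mul, ← h, mul_assoc]
    have h2 : ∑ α, (r α * ∏ β ∈ Finset.univ.erase α, s β) ^ p * monomial (sepA_exp α) 1 = 0 := by
      refine hx.eq_zero_of_aeval_eq_zero _ ?_
      rw [map_sum, ← mul_zero (aeval x (∏ β, s β) ^ p), ← hc, Finset.mul_sum]
      refine Finset.sum_congr rfl fun α _ => ?_
      rw [map_mul, map_pow, h1, sepA_aeval_mon]
      ring
    funext α
    have h3 := h1 α
    rw [sepA_poly _ h2 α, map_zero] at h3
    exact (mul_eq_zero.1 h3.symm).resolve_right hS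

end Aux

theorem car2_pb_of_sep : ∀ {K : Type} [Field K] [Algebra k K] {d : ℕ} {x : Fin d → K},
    AlgebraicIndependent k x →
    Algebra.IsSeparable (IntermediateField.adjoin k (Set.range x)) K → IsPB p x := by
  intro K _ _ d x hx hs
  let F := IntermediateField.adjoin k (Set.range x)
  let y : Fin d → F := fun i => ⟨x i, IntermediateField.subset_adjoin _ _ ⟨i, rfl⟩⟩
  have hv : ∀ r : MvPolynomial (Fin d) k, ((aeval y r : F) : K) = aeval x r := fun r =>
    comp_aeval_apply y F.val r
  have hy : IsPB p y := by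
    refine sepA_rat (k := k) (AlgebraicIndependent.of_comp F.val hx) fun f => ?_
    obtain ⟨r, s, h⟩ := (IntermediateField.mem_adjoin_range_iff k x f).1 f.2
    refine ⟨r, s, Subtype.ext ?_⟩
    rw [h, ← hv, ← hv]
    rfl
  exact car2_pb_map (k := k) (K := F) (K' := K) hy

theorem car2_exists_pb : ∀ {K : Type} [Field K] [Algebra k K] [Algebra.EssFiniteType k K] {d : ℕ},
    Algebra.trdeg k K = d → ∃ x : Fin d → K, IsPB p x := by
  intro K _ _ _ d hd
  obtain ⟨s, hs, hsep⟩ := exists_isTranscendenceBasis_and_isSeparable_of_perfectField k K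
  have hc : Fintype.card s = d := by
    have := hs.cardinalMk_eq_trdeg
    rw [hd, Cardinal.mk_fintype] at this
    exact_mod_cast this
  let e := (Fintype.equivFinOfCardEq hc).symm
  refine ⟨fun i => e i, car2_pb_of_sep (k := k) (hs.1.comp e e.injective) ?_⟩
  have hr : (Set.range fun i => (e i : K)) = (s : Set K) := by
    ext a
    constructor
    · rintro ⟨i, rfl⟩
      exact (e i).2
    · intro ha
      exact ⟨e.symm ⟨a, ha⟩, by simp⟩
  rw [hr]
  exact hsep

omit [IsAlgClosed k] in
theorem car2_sep : ∀ {K : Type} [Field K] [Algebra k K] [Algebra.EssFiniteType k K] {d : ℕ}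
    {x : Fin d → K}, IsPB p x →
    Algebra.IsSeparable (IntermediateField.adjoin k (Set.range x)) K := by
  intro K _ _ _ d x hx
  have : CharP K p := charP_of_injective_algebraMap (algebraMap k K).injective p
  let F := IntermediateField.adjoin k (Set.range x)
  have := Algebra.EssFiniteType.of_comp k F K
  have hD : ∀ f : K, KaehlerDifferential.D F K f = 0 := by
    intro f
    rw [pcoef_spec hx f, map_sum]
    refine Finset.sum_eq_zero fun α _ => ?_
    have hm : pmon p x α ∈ F :=
      prod_mem fun i _ => pow_mem (IntermediateField.subset_adjoin k _ (Set.mem_range_self i)) _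
    have h1 : KaehlerDifferential.D F K (pmon p x α) = 0 :=
      Derivation.map_algebraMap _ (⟨_, hm⟩ : F)
    rw [Derivation.leibniz, h1, Derivation.leibniz_pow, ← Nat.cast_smul_eq_nsmul K,
      CharP.cast_eq_zero, zero_smul, smul_zero, smul_zero, add_zero]
  have : Algebra.FormallyUnramified F K := by
    refine ⟨subsingleton_of_forall_eq 0 fun ω => ?_⟩
    have hω : ω ∈ Submodule.span K (Set.range (KaehlerDifferential.D F K)) := by
      rw [KaehlerDifferential.span_range_derivation]
      exact Submodule.mem_top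
    rwa [Submodule.span_eq_bot.2 (by rintro _ ⟨f, rfl⟩; exact hD f), Submodule.mem_bot] at hω
  exact Algebra.FormallyUnramified.isSeparable F K

omit [IsAlgClosed k] in
theorem car2_finite : ∀ {K : Type} [Field K] [Algebra k K] [Algebra.EssFiniteType k K] {d : ℕ}
    {x : Fin d → K}, IsPB p x →
    FiniteDimensional (IntermediateField.adjoin k (Set.range x)) K := by
  intro K _ _ _ d x hx
  have := car2_sep (k := k) hx
  have := Algebra.EssFiniteType.of_comp k (IntermediateField.adjoin k (Set.range x)) K
  exact Algebra.finite_of_essFiniteType_of_isAlgebraic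

theorem car2_trdeg_eq : ∀ {K : Type} [Field K] [Algebra k K] [Algebra.EssFiniteType k K] {d : ℕ}
    {x : Fin d → K}, IsPB p x → Algebra.trdeg k K = d := by
  intro K _ _ _ d x hx
  have := car2_sep (k := k) hx
  have h : IsTranscendenceBasis k x :=
    isTranscendenceBasis_iff_algebraicIndependent_isAlgebraic.2 ⟨car1_algInd hx,
      IntermediateField.isAlgebraic_adjoin_iff_top.1 inferInstance⟩
  rw [← h.cardinalMk_eq_trdeg, Cardinal.mk_fin]

theorem car2_pb_X : IsPB p ![(RatFunc.X : RatFunc k)] := by
  refine sepA_rat (k := k) (algebraicIndependent_unique_type_iff.2 RatFunc.transcendental_X)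
    fun f => (IntermediateField.mem_adjoin_range_iff k _ f).1 ?_
  rw [Matrix.range_cons, Matrix.range_empty, Set.union_empty, RatFunc.adjoin_X]
  exact IntermediateField.mem_top

/-- All the fields together. -/
theorem car2 (c1 : Car1 k p) : Car2 k p :=
  ⟨car2_pb_of_sep, car2_exists_pb, car2_trdeg_eq, car2_finite, car2_sep, car2_pb_map (k := k),
    car2_car_map c1, car2_pd_map c1, car2_car_trace c1, car2_pb_X⟩

end Pool.Agent.Lib.MP_5f81cf_ag.Full
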