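import Pool.Agent.Lib.MP_5f81cf_ag.FBlue2

/-! `p`-bases, the Cartier operator and the coordinate derivations under separable extensions. -/

namespace Pool.Agent.Lib.MP_5f81cf_ag.Full

open Pool.Agent.Lib.MP_e06174_ag

section Aux

variable {p : ℕ} [Fact p.Prime] {K : Type} [Field K] [CharP K p] {d : ℕ}

omit [CharP K p] in
theorem sepB_eq_zero {x : Fin d → K} (hx : IsPB p x) (c : (Fin d → Fin p) → K)
    (hc : ∑ α, c α ^ p * pmon p x α = 0) : c = 0 := by
  have hp : p ≠ 0 := (Fact.out : p.Prime).ne_zero
  refine (hx 0).unique hc.symm ?_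
  simp [hp]

theorem sepB_isPB {x : Fin d → K}
    (hex : ∀ f : K, ∃ c : (Fin d → Fin p) → K, f = ∑ α, c α ^ p * pmon p x α)
    (hz : ∀ c : (Fin d → Fin p) → K, ∑ α, c α ^ p * pmon p x α = 0 → c = 0) : IsPB p x := by
  intro f
  obtain ⟨c, hc⟩ := hex f
  refine ⟨c, hc, fun c' hc' => ?_⟩
  have h := hz (c' - c) (by
    have : ∑ α, (c' - c) α ^ p * pmon p x α =
        ∑ α, c' α ^ p * pmon p x α - ∑ α, c α ^ p * pmon p x α := by
      rw [← Finset.sum_sub_distrib]
      refine Finset.sum_congr rfl fun α _ => ?_
      rw [Pi.sub_apply, sub_pow_char, sub_mul]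
    rw [this, ← hc, ← hc', sub_self])
  exact sub_eq_zero.1 h

omit [Fact p.Prime] [CharP K p] in
theorem sepB_map_pmon {K' : Type} [Field K'] (ι : K →+* K') (x : Fin d → K) (α : Fin d → Fin p) :
    ι (pmon p x α) = pmon p (fun i => ι (x i)) α := by
  simp [pmon, map_prod, map_pow]

theorem sepB_pb_map {K' : Type} [Field K'] [Algebra K K'] [Algebra.IsSeparable K K']
    {x : Fin d → K} (hx : IsPB p x) : IsPB p fun i => algebraMap K K' (x i) := by
  classical
  have hp : p ≠ 0 := (Fact.out : p.Prime).ne_zero
  have : CharP K' p := charP_of_injective_algebraMap (algebraMap K K').injective p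
  have : ExpChar K p := ExpChar.prime Fact.out
  let b := Module.Basis.ofVectorSpace K K'
  have hspan := Field.span_map_pow_expChar_pow_eq_top_of_isSeparable p 1 b.span_eq
  have hind := b.linearIndependent.map_pow_expChar_pow_of_isSeparable p 1
  simp only [pow_one] at hspan hind
  refine sepB_isPB ?_ ?_
  · intro f
    have hf : f ∈ Submodule.span K (Set.range fun i => b i ^ p) := by
      rw [hspan]; exact Submodule.mem_top
    have key : ∀ a : K, ∃ c : (Fin d → Fin p) → K',
        a • f = ∑ α, c α ^ p * pmon p (fun i => algebraMap K K' (x i)) α := by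
      induction hf using Submodule.span_induction with
      | mem g hg =>
        obtain ⟨i, rfl⟩ := hg
        intro a
        obtain ⟨c, hc, -⟩ := hx a
        refine ⟨fun α => algebraMap K K' (c α) * b i, ?_⟩
        rw [Algebra.smul_def]
        conv_lhs => rw [hc]
        rw [map_sum, Finset.sum_mul]
        refine Finset.sum_congr rfl fun α _ => ?_
        rw [map_mul, map_pow, sepB_map_pmon, mul_pow]
        ring
      | zero => intro a; exact ⟨0, by simp [hp]⟩
      | add g h _ _ hg hh =>
        intro a
        obtain ⟨c, hc⟩ := hg a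
        obtain ⟨c', hc'⟩ := hh a
        refine ⟨c + c', ?_⟩
        rw [smul_add, hc, hc', ← Finset.sum_add_distrib]
        refine Finset.sum_congr rfl fun α _ => ?_
        rw [Pi.add_apply, add_pow_char, add_mul]
      | smul a' g _ hg =>
        intro a
        rw [smul_smul]
        exact hg (a * a')
    simpa using key 1
  · intro c hc
    let s := Finset.univ.biUnion fun α => (b.repr (c α)).support
    have hrep : ∀ α, c α = ∑ i ∈ s, b.repr (c α) i • b i := by
      intro α
      conv_lhs => rw [← b.linearCombination_repr (c α), Finsupp.linearCombination_apply]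
      refine Finsupp.sum_of_support_subset _ ?_ _ (fun i _ => zero_smul _ _)
      exact Finset.subset_biUnion_of_mem (fun α => (b.repr (c α)).support) (Finset.mem_univ α)
    have hsum : ∑ i ∈ s, (∑ α, b.repr (c α) i ^ p * pmon p x α) • b i ^ p = 0 := by
      rw [← hc]
      simp only [Finset.sum_smul]
      rw [Finset.sum_comm]
      refine Finset.sum_congr rfl fun α _ => ?_
      conv_rhs => rw [hrep α, sum_pow_char, Finset.sum_mul]
      refine Finset.sum_congr rfl fun i _ => ?_
      rw [Algebra.smul_def, Algebra.smul_def, map_mul, map_pow, sepB_map_pmon, mul_pow]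
      ring
    have hz := linearIndependent_iff'.1 hind s _ hsum
    funext α
    rw [hrep α]
    refine Finset.sum_eq_zero fun i hi => ?_
    have := congrFun (sepB_eq_zero hx (fun α => b.repr (c α) i) (hz i hi)) α
    simp only [Pi.zero_apply] at this
    rw [this, zero_smul]

theorem sepB_trace_pow {K' : Type} [Field K'] [Algebra K K'] [Algebra.IsSeparable K K']
    [FiniteDimensional K K'] (c : K') :
    Algebra.trace K K' (c ^ p) = Algebra.trace K K' c ^ p := by
  have : CharP (AlgebraicClosure K) p :=
    charP_of_injective_algebraMap (algebraMap K (AlgebraicClosure K)).injective p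
  apply (algebraMap K (AlgebraicClosure K)).injective
  rw [map_pow (algebraMap K (AlgebraicClosure K)), trace_eq_sum_embeddings (AlgebraicClosure K),
    trace_eq_sum_embeddings (AlgebraicClosure K), sum_pow_char]
  simp only [map_pow]

end Aux

variable {k : Type} [Field k] [IsAlgClosed k] {p : ℕ} [Fact p.Prime] [CharP k p]

omit [IsAlgClosed k] in
theorem car2_pb_map : ∀ {K K' : Type} [Field K] [Algebra k K] [Field K'] [Algebra k K']
    [Algebra K K'] [IsScalarTower k K K'] [Algebra.IsSeparable K K'] {d : ℕ} {x : Fin d → K},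
    IsPB p x → IsPB p fun i => algebraMap K K' (x i) := by
  intro K K' _ _ _ _ _ _ _ d x hx
  have : CharP K p := charP_of_injective_algebraMap (algebraMap k K).injective p
  exact sepB_pb_map hx

omit [IsAlgClosed k] [CharP k p] in
theorem car2_car_map (c1 : Car1 k p) : ∀ {K K' : Type} [Field K] [Algebra k K] [Field K']
    [Algebra k K'] (ι : K →ₐ[k] K') {d : ℕ} {x : Fin d → K}, IsPB p x →
    IsPB p (fun i => ι (x i)) → ∀ f, car p (fun i => ι (x i)) (ι f) = ι (car p x f) := by
  intro K K' _ _ _ _ ι d x hx hx' f
  obtain ⟨c, hc, -⟩ := hx f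
  have h1 : ι f = ∑ α, ι (c α) ^ p * pmon p (fun i => ι (x i)) α := by
    conv_lhs => rw [hc]
    rw [map_sum]
    refine Finset.sum_congr rfl fun α _ => ?_
    rw [map_mul, map_pow]
    congr 1
    exact sepB_map_pmon (ι : K →+* K') x α
  rw [h1, c1.car_sum hx' fun α => ι (c α)]
  conv_rhs => rw [hc, c1.car_sum hx c]

omit [IsAlgClosed k] in
theorem car2_pd_map (c1 : Car1 k p) : ∀ {K K' : Type} [Field K] [Algebra k K] [Field K']
    [Algebra k K'] (ι : K →ₐ[k] K') {d : ℕ} {x : Fin d → K}, IsPB p x →
    IsPB p (fun i => ι (x i)) → ∀ j f, pd k (fun i => ι (x i)) j (ι f) = ι (pd k x j f) := by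
  intro K K' _ _ _ _ ι d x hx hx' j f
  have : CharP K p := charP_of_injective_algebraMap (algebraMap k K).injective p
  have : CharP K' p := charP_of_injective_algebraMap (algebraMap k K').injective p
  let P : K → Prop := fun g => pd k (fun i => ι (x i)) j (ι g) = ι (pd k x j g)
  have h1 : P 1 := by simp [P]
  have h0 : P 0 := by simp [P]
  have hadd : ∀ g h, P g → P h → P (g + h) := by
    intro g h hg hh
    simp only [P, map_add] at hg hh ⊢
    rw [hg, hh]
  have hmul : ∀ g h, P g → P h → P (g * h) := by
    intro g h hg hh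
    simp only [P, map_mul, Derivation.leibniz, smul_eq_mul, map_add] at hg hh ⊢
    rw [hg, hh]
  have hpow : ∀ g (n : ℕ), P g → P (g ^ n) := by
    intro g n hg
    induction n with
    | zero => simpa using h1
    | succ n ih => rw [pow_succ]; exact hmul _ _ ih hg
  have hx1 : ∀ i, P (x i) := by
    intro i
    simp only [P]
    rw [c1.pd_x hx j i, c1.pd_x hx' j i]
    split_ifs <;> simp
  have hpp : ∀ g, P (g ^ p) := by
    intro g
    simp only [P, map_pow, Derivation.leibniz_pow, nsmul_eq_mul, CharP.cast_eq_zero, zero_mul,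
      map_zero]
  obtain ⟨c, hc, -⟩ := hx f
  change P f
  rw [hc]
  refine Finset.sum_induction _ P hadd h0 fun α _ => hmul _ _ (hpp _) ?_
  exact Finset.prod_induction _ P hmul h1 fun i _ => hpow _ _ (hx1 i)

omit [IsAlgClosed k] in
theorem car2_car_trace (c1 : Car1 k p) : ∀ {K K' : Type} [Field K] [Algebra k K] [Field K']
    [Algebra k K'] [Algebra K K'] [IsScalarTower k K K'] [Algebra.IsSeparable K K']
    [FiniteDimensional K K'] {d : ℕ} {x : Fin d → K}, IsPB p x → ∀ f : K',
    car p x (Algebra.trace K K' f) =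
      Algebra.trace K K' (car p (fun i => algebraMap K K' (x i)) f) := by
  intro K K' _ _ _ _ _ _ _ _ d x hx f
  have : CharP K p := charP_of_injective_algebraMap (algebraMap k K).injective p
  have hx' : IsPB p fun i => algebraMap K K' (x i) := sepB_pb_map hx
  obtain ⟨c, hc, -⟩ := hx' f
  have h1 : Algebra.trace K K' f = ∑ α, Algebra.trace K K' (c α) ^ p * pmon p x α := by
    conv_lhs => rw [hc]
    rw [map_sum]
    refine Finset.sum_congr rfl fun α _ => ?_
    rw [← sepB_map_pmon, mul_comm, ← Algebra.smul_def, map_smul, sepB_trace_pow, smul_eq_mul,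
      mul_comm]
  rw [h1, c1.car_sum hx fun α => Algebra.trace K K' (c α)]
  conv_rhs => rw [hc, c1.car_sum hx' c]

end Pool.Agent.Lib.MP_5f81cf_ag.Full
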