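import Pool.Agent.Lib.MP_5f81cf_ag.FCarB
import Pool.Agent.Lib.MP_5f81cf_ag.FCarJac
import Pool.Agent.Lib.MP_5f81cf_ag.FSepA
import Pool.Agent.Lib.MP_5f81cf_ag.FSepB
import Pool.Agent.Lib.MP_5f81cf_ag.FPlA
import Pool.Agent.Lib.MP_5f81cf_ag.FPlBC
import Pool.Agent.Lib.MP_5f81cf_ag.FPlD
import Pool.Agent.Lib.MP_5f81cf_ag.FPlE
import Pool.Agent.Lib.MP_5f81cf_ag.FCaA
import Pool.Agent.Lib.MP_5f81cf_ag.FCaB
import Pool.Agent.Lib.MP_5f81cf_ag.FCaC

/-! The basic blocks, assembled. -/

namespace Pool.Agent.Lib.MP_5f81cf_ag.Full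

variable (k : Type) [Field k] [IsAlgClosed k] (p : ℕ) [Fact p.Prime] [CharP k p]

theorem car1_all : Car1 k p where
  car_sum := car1_car_sum (k := k)
  car_add := car1_car_add (k := k)
  car_pow_mul := car1_car_pow_mul (k := k)
  car_pmon := car1_car_pmon (k := k)
  pd_x := car1_pd_x (k := k)
  der_eq := car1_der_eq (k := k)
  car_pd := car1_car_pd (k := k)
  jac_self := car1_jac_self (k := k)
  jac_mul := car1_jac_mul (k := k)
  pb_of_indep := car1_pb_of_indep (k := k)
  pb_iff := car1_pb_iff (k := k)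
  algInd := car1_algInd (k := k)

theorem car2_all : Car2 k p := car2 (car1_all k p)

theorem pl1_all : Pl1 k p := pl1 (car1_all k p) (car2_all k p)

theorem pl2_all : Pl2 k p := pl2 (car1_all k p) (car2_all k p)

theorem pl3_all : Pl3 k p := pl3 (car1_all k p) (st_CarJac (car1_all k p)) (pl2_all k p)

theorem pl4_all : Pl4 k p := pl4 (car1_all k p) (pl2_all k p)

include p in
theorem ca2_all : Ca2 k where
  height_add := ca2_height_add (k := k)
  trdeg_fin := ca2_trdeg_fin (k := k)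
  div_of_height := ca2_div_of_height (k := k)
  finite_norm := ca2_finite_norm (car2_all k p)

end Pool.Agent.Lib.MP_5f81cf_ag.Full
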