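import Pool.Agent.Lib.MP_5f81cf_ag.FBlue6

/-! Restriction of the system to the divisor. -/

namespace Pool.Agent.Lib.MP_5f81cf_ag.Full

open Pool.Agent.Lib.MP_e06174_ag

variable {k : Type} [Field k] {p : ℕ} [Fact p.Prime]

theorem st_S32 (c1 : Car1 k p) (p2 : Pl2 k p) (p3 : Pl3 k p) : St_S32 k p := by
  intro R K L _ _ _ _ _ _ S ρ s z m V h N H
  have hj : jac k (Fin.cons s z : Fin 3 → K) (Fin.cons s z : Fin 3 → K) = 1 := c1.jac_self H.pb
  have hlam : lam k (Fin.cons s z : Fin 3 → K) S = 1 := by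
    rw [p2.lam_eq H.pb H.ad, hj]
    simp
  have hC : ∀ (n : ℕ) (j : ℤ) (f : K),
      CGe (Fin.cons s z : Fin 3 → K) S n j f ↔ S.Ge (j + n) f := by
    intro n j f
    unfold CGe
    rw [hlam, mul_one]
  have hV : ∀ (n : ℕ) (f : K), f ∈ V n → CGe (Fin.cons s z : Fin 3 → K) S n 0 f := by
    intro n f hf
    rw [hC, zero_add]
    exact H.ge n f hf
  have hlc : ∀ (n : ℕ) (f : K),
      lc k (Fin.cons s z : Fin 3 → K) ρ s z n 0 f = ρ (f / s ^ n) := by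
    intro n f
    unfold lc
    rw [hj, neg_zero, zpow_zero, mul_one, one_div, inv_pow, div_eq_mul_inv]
  have hne : ∀ (n : ℕ) (f : K), f ∈ V n → ¬ S.Ge (n + 1) f → ρ (f / s ^ n) ≠ 0 := by
    intro n f hf hf' h0
    rw [← hlc, p3.lc_eq_zero H.pb H.ad (hV n f hf), hC] at h0
    exact hf' (h0.mono (by omega))
  have h0 : ρ 0 = 0 := by simpa using H.ad.res.const 0
  have h1 : ρ 1 = 1 := by simpa using H.ad.res.const 1
  have hmem : ∀ n g, g ∈ resV k ρ s V n ↔ ∃ f ∈ V n, ρ (f / s ^ n) = g := by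
    intro n g
    refine ⟨fun hg => ?_, fun hg => Submodule.subset_span hg⟩
    induction hg using Submodule.span_induction with
    | mem x hx => exact hx
    | zero => exact ⟨0, (V n).zero_mem, by rw [zero_div, h0]⟩
    | add x y _ _ hx hy =>
      obtain ⟨f, hf, rfl⟩ := hx
      obtain ⟨g, hg, rfl⟩ := hy
      refine ⟨f + g, (V n).add_mem hf hg, ?_⟩
      rw [← hlc, ← hlc, ← hlc]
      exact p3.lc_add H.pb H.ad (hV n f hf) (hV n g hg)
    | smul c x _ hx =>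
      obtain ⟨f, hf, rfl⟩ := hx
      refine ⟨c • f, (V n).smul_mem c hf, ?_⟩
      rw [← hlc, ← hlc]
      exact p3.lc_smul H.pb H.ad c (hV n f hf)
  have hcar : ∀ n n' f, n' + 1 = p * (n + 1) → f ∈ V n' →
      ρ (car p (Fin.cons s z : Fin 3 → K) f / s ^ n) =
        car p (fun i => ρ (z i)) (ρ (f / s ^ n')) := by
    intro n n' f hn hf
    have := p3.lc_car H.pb H.ad (n := 0) (f := f) hn (by rw [mul_zero]; exact hV n' f hf)
    rwa [mul_zero, hlc, hlc] at this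
  refine ⟨⟨H.ad.pb, ?_, ?_, ?_, ?_⟩, hne N h H.mem H.h_ne, hmem, hcar⟩
  · exact (hmem 0 1).mpr ⟨1, H.one, by rw [pow_zero, div_one, h1]⟩
  · intro n n' f₀ g₀ hf₀ hg₀
    obtain ⟨f, hf, rfl⟩ := (hmem n f₀).mp hf₀
    obtain ⟨g, hg, rfl⟩ := (hmem n' g₀).mp hg₀
    refine (hmem _ _).mpr ⟨f * g, H.mul n n' f g hf hg, ?_⟩
    have := p3.lc_mul H.pb H.ad (hV n f hf) (hV n' g hg)
    rwa [add_zero, hlc, hlc, hlc] at this
  · intro n n' f₀ hn hf₀
    obtain ⟨f, hf, rfl⟩ := (hmem n' f₀).mp hf₀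
    exact (hmem _ _).mpr ⟨_, H.car n n' f hn hf, hcar n n' f hn hf⟩
  · intro n
    obtain ⟨f, hf, hf'⟩ := H.ne n
    exact ⟨_, hne n f hf hf', (hmem _ _).mpr ⟨f, hf, rfl⟩⟩

end Pool.Agent.Lib.MP_5f81cf_ag.Full
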