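import Pool.Agent.Lib.MP_5f81cf_ag.FBlue6

/-! Adjunction. -/

namespace Pool.Agent.Lib.MP_5f81cf_ag.Full

open Pool.Agent.Lib.MP_e06174_ag Place

variable {k : Type} [Field k]

namespace ADJ

variable {R K : Type} [CommRing R] [Field K] [Algebra k K] [Algebra R K] {E : Place k K}
  {q : Ideal R}

theorem isPrime (h : HasCentre E q) : q.IsPrime := by
  refine ⟨fun e => not_ge_one_const (p := E) (c := 1) one_ne_zero ?_, fun {a b} hab => ?_⟩
  · simpa using (h 1).2.1 (e ▸ Submodule.mem_top)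
  · by_contra hc
    rw [not_or, (h a).2, (h b).2, not_ge_iff, not_ge_iff] at hc
    have h1 := (h (a * b)).2.1 hab
    rw [map_mul] at h1
    have h2 := h1.le (mul_ne_zero hc.1.1 hc.2.1)
    rw [E.ord_mul hc.1.1 hc.2.1] at h2
    have := (h a).1.le hc.1.1
    have := (h b).1.le hc.2.1
    omega

theorem exists_ne_zero [IsDomain R] [IsFractionRing R K] (h : HasCentre E q) :
    ∃ a ∈ q, a ≠ 0 := by
  obtain ⟨π, h0, hπ⟩ := E.exists_ord_eq_one
  obtain ⟨a, b, hb, rfl⟩ := IsFractionRing.div_surjective (A := R) π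
  obtain ⟨ha, hb'⟩ := div_ne_zero_iff.1 h0
  rw [E.ord_div ha hb'] at hπ
  have := (h b).1.le hb'
  exact ⟨a, (h a).2.2 (ge_of_le (by omega)), fun e => ha (by rw [e, map_zero])⟩

end ADJ

open ADJ

variable {p : ℕ} [Fact p.Prime]

theorem st_ADJ (mo : St_MONO k p) : St_ADJ k p := by
  intro R K T L _ _ _ _ _ _ _ _ _ _ _ _ _ _ _ _ S ρ s z q m V h N H hS hN F y hF hFd hy
  classical
  have : Algebra.EssFiniteType R K := .of_isLocalization K (nonZeroDivisors R)
  have : Algebra.EssFiniteType k K := .comp k R K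
  obtain ⟨gens, hgens⟩ := (Algebra.FiniteType.out : (⊤ : Subalgebra k R).FG)
  have hs1 := H.ad.ord
  have hs0 : s ≠ 0 := by rintro rfl; simp at hs1
  obtain ⟨hh0, hh1⟩ := not_ge_iff.1 H.h_ne
  have hh2 := (H.ge N h H.mem).le hh0
  have hη : S.ord (h / s ^ N) = 0 := by
    rw [S.ord_div hh0 (pow_ne_zero _ hs0), ord_pow, hs1]; omega
  have hη0 : ρ (h / s ^ N) ≠ 0 := fun e => by
    have := ((H.ad.res.zero _ (ge_of_le hη.ge)).1 e).le (div_ne_zero hh0 (pow_ne_zero _ hs0))
    omega
  have key : ∀ G : Finset R, ∃ w : Place k K, IsDivisorial 3 w ∧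
      HasCentre w (y.comap (algebraMap R T)) ∧
      w.ord h - N * lam k (Fin.cons s z : Fin 3 → K) w =
        F.ord (ρ (h / s ^ N)) - N * lam k (fun i => ρ (z i)) F ∧
      ∀ g ∈ G, algebraMap R T g ≠ 0 →
        w.ord (algebraMap R K g) = F.ord (algebraMap T L (algebraMap R T g)) := fun G => by
    obtain ⟨w, h1, h2, h3, h4⟩ := mo H.pb H.ad hFd
      (insert (h / s ^ N) ((gens ∪ G).image (algebraMap R K))) 0 (fun g hg => by
        rcases Finset.mem_insert.1 hg with rfl | hg
        · exact ge_of_le hη.ge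
        · obtain ⟨r, -, rfl⟩ := Finset.mem_image.1 hg
          exact (hS r).1)
    have hm : ∀ r ∈ gens ∪ G, algebraMap R K r ∈
        insert (h / s ^ N) ((gens ∪ G).image (algebraMap R K)) := fun r hr =>
      Finset.mem_insert_of_mem (Finset.mem_image_of_mem _ hr)
    refine ⟨w, h1, fun r => ?_, ?_, fun g hg hg0 => ?_⟩
    · have h5 := h4 (algebraMap R K r) (by
        have h6 : r ∈ Algebra.adjoin k (gens : Set R) := hgens ▸ Algebra.mem_top
        refine (Algebra.adjoin_le (S := (Algebra.adjoin k _).comap (IsScalarTower.toAlgHom k R K))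
          fun g hg => ?_) h6
        refine Algebra.subset_adjoin (Set.mem_ofPred.2 ⟨hm g (Finset.mem_union_left _ hg), ?_⟩)
        exact (hN.res g).symm ▸ (hF _).1)
      rw [hN.res, ← (hF _).2] at h5
      exact ⟨h5.1, h5.2.symm⟩
    · have h5 := (h3 _ (Finset.mem_insert_self _ _)).1 hη0
      rw [w.ord_div hh0 (pow_ne_zero _ hs0), ord_pow] at h5
      rw [← h2, ← h5]
      ring
    · rw [← hN.res]
      refine (h3 _ (hm g (Finset.mem_union_right _ hg))).1 ?_
      rw [hN.res]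
      exact (map_ne_zero_iff _ (IsFractionRing.injective T L)).2 hg0
  refine ⟨?_, key⟩
  obtain ⟨w, h1, h2, h3, -⟩ := key ∅
  have hq : ∀ r ∈ q, algebraMap R T r = 0 := fun r hr => by
    have h4 := (H.ad.res.zero _ (hS r).1).2 ((hS r).2.1 hr)
    rwa [hN.res, map_eq_zero_iff _ (IsFractionRing.injective T L)] at h4
  have := isPrime hS
  have := isPrime h2
  have h4 : (⊥ : Ideal R) < q := by
    obtain ⟨a, ha, ha0⟩ := exists_ne_zero hS
    exact bot_lt_iff_ne_bot.2 fun e => ha0 (by simpa [e] using ha)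
  have h5 : q < y.comap (algebraMap R T) := by
    obtain ⟨t, ht, ht0⟩ := exists_ne_zero hF
    obtain ⟨c, hc, hc'⟩ := hN.cond
    obtain ⟨r, hr⟩ := hc' t
    refine SetLike.lt_iff_le_and_exists.2 ⟨fun r hr => ?_, r, ?_, fun h => ?_⟩
    · rw [Ideal.mem_comap, hq r hr]; exact y.zero_mem
    · rw [Ideal.mem_comap, hr]; exact y.mul_mem_left _ ht
    · exact mul_ne_zero hc ht0 (hr.symm.trans (hq r h))
  have h6 := H.plt w _ h2 hy (by
    have h7 := Ideal.height_add_one_le_of_lt_of_isPrime h4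
    rw [Ideal.height_bot, zero_add] at h7
    exact le_trans (add_le_add_left h7 1) (Ideal.height_add_one_le_of_lt_of_isPrime h5)) h1
  omega

end Pool.Agent.Lib.MP_5f81cf_ag.Full
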