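import Pool.Agent.Lib.MP_5f81cf_ag.FBlue6

/-! Block SAT: effectivity of the boundary on the normalisation. -/

namespace Pool.Agent.Lib.MP_5f81cf_ag.Full

open Pool.Agent.Lib.MP_e06174_ag

namespace SAT

variable {k : Type} [Field k] {p : ℕ} [Fact p.Prime] {L : Type} [Field L] [Algebra k L]

/-- Elements all of whose `T`-multiples lie in the system. -/
def Im (T : Type) [CommRing T] [Algebra T L] (V : ℕ → Submodule k L) (m : ℕ) (f : L) : Prop :=
  ∀ t : T, algebraMap T L t * f ∈ V m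

variable {T : Type} [CommRing T] [Algebra T L] {u : Fin 2 → L} {V : ℕ → Submodule k L}

lemma Im.mem {m : ℕ} {f : L} (h : Im T V m f) : f ∈ V m := by simpa using h 1

lemma Im.smul {m : ℕ} {f : L} (h : Im T V m f) (a : T) : Im T V m (algebraMap T L a * f) :=
  fun t => by
    rw [← mul_assoc, ← map_mul]
    exact h _

lemma Im.mul (S : Sys2 p u V) {m m' : ℕ} {f g : L} (hf : f ∈ V m) (hg : Im T V m' g) :
    Im T V (m + m') (f * g) := fun t => by
  rw [mul_left_comm]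
  exact S.mul _ _ _ _ hf (hg t)

lemma Im.car (c1 : Car1 k p) (S : Sys2 p u V) {m m' : ℕ} {f : L} (hm : m' + 1 = p * (m + 1))
    (h : Im T V m' f) : Im T V m (car p u f) := fun t => by
  rw [← c1.car_pow_mul, ← map_pow]
  exact S.car _ _ _ hm (h _)

lemma pow_mem (S : Sys2 p u V) {m : ℕ} {f : L} (h : f ∈ V m) (j : ℕ) : f ^ j ∈ V (j * m) := by
  induction j with
  | zero => simpa using S.one
  | succ j ih =>
    rw [pow_succ, add_mul, one_mul]
    exact S.mul _ _ _ _ ih h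

lemma exists_im (S : Sys2 p u V) {c : L} (hc : c ≠ 0) (h : ∀ t : T, c * algebraMap T L t ∈ V 0)
    (r : ℕ) : ∃ v, v ≠ 0 ∧ Im T V r v := by
  obtain ⟨v, hv0, hv⟩ := S.ne r
  refine ⟨v * c, mul_ne_zero hv0 hc, ?_⟩
  simpa using Im.mul S hv (g := c) (m' := 0) fun t : T => by rw [mul_comm]; exact h t

lemma step (c1 : Car1 k p) (p3 : Pl3 k p) (S : Sys2 p u V) {L' : Type} [Field L'] [Algebra k L']
    {F : Place k L} {ρ : L → L'} {t : L} {z : Fin 1 → L} (had : Adapt p F ρ t z) {q : Ideal T}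
    (hq : HasCentre F q)
    (hloc : ∀ f : L, F.Ge 0 f → ∃ a b : T, b ∉ q ∧ f * algebraMap T L b = algebraMap T L a)
    {m m' : ℕ} {n : ℤ} {f : L} (hm : m' + 1 = p * (m + 1)) (hf : Im T V m' f)
    (hn : ¬ CGe u F m' (p * n + 1) f) : ∃ g, Im T V m g ∧ ¬ CGe u F m (n + 1) g := by
  obtain ⟨b, hb, hcar⟩ := p3.car_exact (d := 1) S.pb had hm hn
  obtain ⟨a, b', hb', hab⟩ := hloc b hb
  have hp : 0 < p := (Fact.out : p.Prime).pos
  refine ⟨car p u (algebraMap T L (b' ^ (p - 1) * a) * f), (hf.smul _).car c1 S hm, fun h => ?_⟩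
  have e1 : algebraMap T L (b' ^ (p - 1) * a) * f = algebraMap T L b' ^ p * (b * f) := by
    rw [map_mul, map_pow, ← hab]
    conv_rhs => rw [← Nat.sub_add_cancel hp, pow_succ]
    ring
  rw [e1, c1.car_pow_mul] at h
  have h1 : ¬ F.Ge 1 (algebraMap T L b') := fun h1 => hb' ((hq b').2.2 h1)
  obtain ⟨h2, h3⟩ := Place.not_ge_iff.1 h1
  apply hcar
  have h4 : F.Ge 0 (algebraMap T L b')⁻¹ := Place.ge_of_le (by rw [Place.ord_inv]; omega)
  have h5 := h4.mul h
  rwa [← mul_assoc, inv_mul_cancel₀ h2, one_mul, zero_add] at h5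

lemma iter (c1 : Car1 k p) (p3 : Pl3 k p) (S : Sys2 p u V) {L' : Type} [Field L'] [Algebra k L']
    {F : Place k L} {ρ : L → L'} {t : L} {z : Fin 1 → L} (had : Adapt p F ρ t z) {q : Ideal T}
    (hq : HasCentre F q)
    (hloc : ∀ f : L, F.Ge 0 f → ∃ a b : T, b ∉ q ∧ f * algebraMap T L b = algebraMap T L a)
    (e : ℕ) : ∀ (m' : ℕ) (f : L), m' + 1 = p ^ e → Im T V m' f →
      ¬ CGe u F m' (-(p : ℤ) ^ e + 1) f → ∃ g ∈ V 0, ¬ F.Ge 0 g := by
  induction e with
  | zero =>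
    intro m' f hm hf hn
    obtain rfl : m' = 0 := by simpa using hm
    exact ⟨f, hf.mem, by simpa [CGe] using hn⟩
  | succ e ih =>
    intro m' f hm hf hn
    have hp : 0 < p := (Fact.out : p.Prime).pos
    obtain ⟨m, hm₁⟩ : ∃ m, m + 1 = p ^ e := ⟨p ^ e - 1, Nat.sub_add_cancel (pow_pos hp e)⟩
    obtain ⟨g, hg, hg'⟩ := step c1 p3 S had hq hloc (m := m) (n := -(p : ℤ) ^ e)
      (by rw [hm, hm₁, pow_succ']) hf (by rwa [mul_neg, ← pow_succ'])
    exact ih m g hm₁ hg hg'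

end SAT

open SAT in
theorem st_SAT {k : Type} [Field k] {p : ℕ} [Fact p.Prime] (c1 : Car1 k p) (c2 : Car2 k p)
    (p1 : Pl1 k p) (p3 : Pl3 k p) (a1 : Ca1 k) (a2 : Ca2 k) : St_SAT k p := by
  intro T L _ _ _ _ _ _ _ _ _ _ u V η N S hη0 hN hη ⟨c, hc0, hc⟩ F q hq hh hV
  have : IsNoetherianRing T := Algebra.FiniteType.isNoetherianRing k T
  have : Algebra.EssFiniteType T L := Algebra.EssFiniteType.of_isLocalization L (nonZeroDivisors T)
  have : Algebra.EssFiniteType k L := Algebra.EssFiniteType.comp k T L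
  have hdiv : IsDivisorial 2 F := a2.div_of_height (c2.trdeg_eq S.pb) hq hh
  obtain ⟨L', _, _, ρ, hρ⟩ := p1.exists_res F
  obtain ⟨t, z, had⟩ := p1.exists_adapt (d := 1) S.pb hρ hdiv
  by_contra hlt
  rw [not_le] at hlt
  choose v hv0 hv using exists_im S hc0 hc
  set l := lam k u F with hl
  let C : ℕ := (Finset.range N).sup fun r => (F.ord (v r) - r * l).toNat
  let e : ℕ := (C + N + 1) * N
  have hp : 1 < p := (Fact.out : p.Prime).one_lt
  have he : e < p ^ e := Nat.lt_pow_self hp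
  obtain ⟨M, hM⟩ : ∃ M, M + 1 = p ^ e := ⟨p ^ e - 1, by omega⟩
  have hj : C + N + 1 ≤ M / N := (Nat.le_div_iff_mul_le hN).2 (by omega)
  have hr : M % N < N := Nat.mod_lt _ hN
  have hMe : M / N * N + M % N = M := Nat.div_add_mod' M N
  set j := M / N
  set r := M % N
  have hC : (F.ord (v r) - r * l).toNat ≤ C :=
    Finset.le_sup (f := fun r => (F.ord (v r) - r * l).toNat) (Finset.mem_range.2 hr)
  obtain ⟨g, hg, hg'⟩ := iter c1 p3 S had hq (a1.loc hq hh) e (j * N + r) (η ^ j * v r)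
    (by rw [hMe, hM]) (Im.mul S (pow_mem S hη j) (hv r)) (by
      rw [CGe, Place.ge_iff (mul_ne_zero (pow_ne_zero _ hη0) (hv0 r)),
        F.ord_mul (pow_ne_zero _ hη0) (hv0 r), Place.ord_pow, not_le, ← hl]
      have h1 : (p : ℤ) ^ e = j * N + r + 1 := by
        have : p ^ e = j * N + r + 1 := by rw [hMe, hM]
        exact_mod_cast this
      have h2 : F.ord (v r) - r * l ≤ C := by omega
      have h3 : (C : ℤ) + N + 1 ≤ j := by exact_mod_cast hj
      have h4 : (r : ℤ) < N := by exact_mod_cast hr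
      have h5 : (j : ℤ) * F.ord η ≤ j * (N * (l - 1) - 1) :=
        mul_le_mul_of_nonneg_left (by omega) (by positivity)
      rw [h1]
      push_cast
      nlinarith)
  exact hg' (hV g hg)

end Pool.Agent.Lib.MP_5f81cf_ag.Full
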