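import Pool.Agent.Lib.MP_5f81cf_ag.FBlue6
import Pool.Agent.Lib.MP_5f81cf_ag.FCarA

/-! The maximal ideal of a point of the normalisation lies in the conductor. -/

namespace Pool.Agent.Lib.MP_5f81cf_ag.Full

open Pool.Agent.Lib.MP_e06174_ag

variable {k : Type} [Field k] {p : ℕ} [Fact p.Prime]

namespace AsD

section Lead

variable {L : Type} [Field L] [Algebra k L] {u : Fin 2 → L} {E : Place k L}
  {ρ : L → RatFunc k} {t z : L}

theorem cge_zero {n : ℤ} {f : L} : CGe u E 0 n f ↔ E.Ge n f := by simp [CGe]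

theorem cge_mul {m m' : ℕ} {n n' : ℤ} {f g : L} (hf : CGe u E m n f) (hg : CGe u E m' n' g) :
    CGe u E (m + m') (n + n') (f * g) := by
  refine Place.Ge.mul' hf hg (le_of_eq ?_)
  push_cast
  ring

theorem lc_zero_zero (f : L) : lc k u ρ t ![z] 0 0 f = ρ f := by simp [lc]

/-- Leading coefficients of the elements of `W`. -/
def lcSub (p3 : Pl3 k p) (hu : IsPB p u) (ad : Adapt p E ρ t ![z]) (W : Submodule k L) (m : ℕ)
    (n : ℤ) : Submodule k (RatFunc k) where
  carrier := {g | ∃ f ∈ W, CGe u E m n f ∧ lc k u ρ t ![z] m n f = g}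
  zero_mem' := ⟨0, W.zero_mem, Place.ge_zero _,
    (p3.lc_eq_zero hu ad (Place.ge_zero _)).2 (Place.ge_zero _)⟩
  add_mem' := by
    rintro _ _ ⟨f, hf, hf', rfl⟩ ⟨g, hg, hg', rfl⟩
    exact ⟨f + g, W.add_mem hf hg, Place.Ge.add hf' hg', p3.lc_add hu ad hf' hg'⟩
  smul_mem' := by
    rintro c _ ⟨f, hf, hf', rfl⟩
    exact ⟨c • f, W.smul_mem c hf, Place.Ge.smul hf' c, p3.lc_smul hu ad c hf'⟩

theorem lead_ne (p3 : Pl3 k p) (hu : IsPB p u) (ad : Adapt p E ρ t ![z]) {m : ℕ} {n : ℤ} {f : L}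
    (hf : f ≠ 0) (hn : E.ord f = n + m * lam k u E) :
    CGe u E m n f ∧ lc k u ρ t ![z] m n f ≠ 0 := by
  have h1 : CGe u E m n f := Place.ge_of_le hn.ge
  refine ⟨h1, fun h => ?_⟩
  have := ((p3.lc_eq_zero hu ad h1).1 h).le hf
  omega

theorem lc_sub_zero (p3 : Pl3 k p) (hu : IsPB p u) (ad : Adapt p E ρ t ![z]) {n : ℤ} {f g : L}
    (hf : E.Ge n f) (hg : E.Ge n g) (h : lc k u ρ t ![z] 0 n g = lc k u ρ t ![z] 0 n f) :
    E.Ge (n + 1) (f - g) := by
  have hf' : CGe u E 0 n f := cge_zero.2 hf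
  have hg' : CGe u E 0 n g := cge_zero.2 hg
  have h1 : CGe u E 0 n ((-1 : k) • g) := Place.Ge.smul hg' _
  have h2 := p3.lc_add hu ad hf' h1
  rw [p3.lc_smul hu ad _ hg', h] at h2
  have h3 := (p3.lc_eq_zero hu ad (Place.Ge.add hf' h1)).1 (by rw [h2]; simp)
  rw [cge_zero] at h3
  simpa [sub_eq_add_neg] using h3

end Lead

section Ring

variable {T L : Type} [CommRing T] [Algebra k T] [Field L] [Algebra k L] [Algebra T L]
  [IsScalarTower k T L]

variable (T) in
/-- The `T`-module generated by `W`. -/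
def Acal (W : Submodule k L) : Submodule k L :=
  Submodule.span k {f | ∃ (τ : T) (v : L), v ∈ W ∧ f = algebraMap T L τ * v}

variable (T) in
/-- The largest `T`-module inside `W`. -/
def Ical (W : Submodule k L) : Submodule k L where
  carrier := {f | ∀ τ : T, algebraMap T L τ * f ∈ W}
  zero_mem' τ := by simp
  add_mem' hf hg τ := by rw [mul_add]; exact W.add_mem (hf τ) (hg τ)
  smul_mem' c f hf τ := by rw [mul_smul_comm]; exact W.smul_mem c (hf τ)

omit [Algebra k T] [IsScalarTower k T L] in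
theorem mem_Acal {W : Submodule k L} (τ : T) {v : L} (hv : v ∈ W) :
    algebraMap T L τ * v ∈ Acal T W := Submodule.subset_span ⟨τ, v, hv, rfl⟩

omit [Algebra k T] [IsScalarTower k T L] in
theorem le_Acal {W : Submodule k L} : W ≤ Acal T W := fun v hv => by
  simpa using mem_Acal (1 : T) hv

omit [Algebra k T] [IsScalarTower k T L] in
theorem Ical_le {W : Submodule k L} : Ical T W ≤ W := fun v hv => by
  simpa using hv (1 : T)

omit [Algebra k T] [IsScalarTower k T L] in
theorem Ical_mul {W : Submodule k L} (τ : T) {f : L} (hf : f ∈ Ical T W) :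
    algebraMap T L τ * f ∈ Ical T W := fun σ => by
  rw [← mul_assoc, ← map_mul]; exact hf _

omit [Algebra k T] [IsScalarTower k T L] in
theorem Acal_mul_Acal {W W' W'' : Submodule k L} (h : ∀ f g, f ∈ W → g ∈ W' → f * g ∈ W'')
    {f g : L} (hf : f ∈ Acal T W) (hg : g ∈ Acal T W') : f * g ∈ Acal T W'' := by
  induction hf using Submodule.span_induction with
  | mem f hf =>
    obtain ⟨τ, v, hv, rfl⟩ := hf
    induction hg using Submodule.span_induction with
    | mem g hg =>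
      obtain ⟨σ, w, hw, rfl⟩ := hg
      have := mem_Acal (τ * σ) (h v w hv hw)
      rw [map_mul] at this
      convert this using 1
      ring
    | zero => simp
    | add a b _ _ ha hb => rw [mul_add]; exact Submodule.add_mem _ ha hb
    | smul c a _ ha => rw [mul_smul_comm]; exact Submodule.smul_mem _ c ha
  | zero => simp
  | add a b _ _ ha hb => rw [add_mul]; exact Submodule.add_mem _ ha hb
  | smul c a _ ha => rw [smul_mul_assoc]; exact Submodule.smul_mem _ c ha

omit [Algebra k T] [IsScalarTower k T L] in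
theorem Acal_mul_Ical {W W' W'' : Submodule k L} (h : ∀ f g, f ∈ W → g ∈ W' → f * g ∈ W'')
    {f g : L} (hf : f ∈ Acal T W) (hg : g ∈ Ical T W') : f * g ∈ Ical T W'' := by
  induction hf using Submodule.span_induction with
  | mem f hf =>
    obtain ⟨τ, v, hv, rfl⟩ := hf
    intro σ
    have := h v _ hv (hg (σ * τ))
    rw [map_mul] at this
    convert this using 1
    ring
  | zero => simp
  | add a b _ _ ha hb => rw [add_mul]; exact Submodule.add_mem _ ha hb
  | smul c a _ ha => rw [smul_mul_assoc]; exact Submodule.smul_mem _ c ha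

theorem Acal_loc {W : Submodule k L} {y : Ideal T} (hy : y.IsPrime)
    (h : ∀ f ∈ W, ∃ a b : T, b ∉ y ∧ f * algebraMap T L b = algebraMap T L a) {f : L}
    (hf : f ∈ Acal T W) : ∃ a b : T, b ∉ y ∧ f * algebraMap T L b = algebraMap T L a := by
  have h1 : (1 : T) ∉ y := (Ideal.ne_top_iff_one y).1 hy.ne_top
  induction hf using Submodule.span_induction with
  | mem f hf =>
    obtain ⟨τ, v, hv, rfl⟩ := hf
    obtain ⟨a, b, hb, e⟩ := h v hv
    exact ⟨τ * a, b, hb, by rw [mul_assoc, e, map_mul]⟩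
  | zero => exact ⟨0, 1, h1, by simp⟩
  | add f g _ _ hf hg =>
    obtain ⟨a, b, hb, e⟩ := hf
    obtain ⟨a', b', hb', e'⟩ := hg
    refine ⟨a * b' + a' * b, b * b', fun h => (hy.mem_or_mem h).elim hb hb', ?_⟩
    rw [map_add, map_mul, map_mul, map_mul, ← e, ← e']
    ring
  | smul c f _ hf =>
    obtain ⟨a, b, hb, e⟩ := hf
    refine ⟨algebraMap k T c * a, b, hb, ?_⟩
    rw [map_mul, ← IsScalarTower.algebraMap_apply, ← e, Algebra.smul_def, mul_assoc]

theorem exists_const [IsAlgClosed k] [Algebra.FiniteType k T] (y : Ideal T) [y.IsMaximal]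
    (a : T) : ∃ c : k, a - algebraMap k T c ∈ y := by
  let := Ideal.Quotient.field y
  have := finite_of_finite_type_of_isJacobsonRing k (T ⧸ y)
  obtain ⟨c, hc⟩ := (IsAlgClosed.algebraMap_bijective_of_isIntegral (k := k) (K := T ⧸ y)).2
    (Ideal.Quotient.mk y a)
  refine ⟨c, ?_⟩
  rw [← Ideal.Quotient.eq, ← hc]
  rfl

theorem finite_quot [Algebra.FiniteType k T] (y : Ideal T) [hy : y.IsMaximal] (n : ℕ) :
    Module.Finite k (T ⧸ y ^ n) := by
  rw [Module.finite_iff_krullDimLE_zero k (T ⧸ y ^ n), Ring.krullDimLE_zero_iff]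
  intro J hJ
  refine Ideal.isMaximal_of_isIntegral_of_isMaximal_comap (R := T) _ ?_
  have hp := hJ.comap (algebraMap T (T ⧸ y ^ n))
  have h1 : y ^ n ≤ J.comap (algebraMap T (T ⧸ y ^ n)) := by
    intro a ha
    rw [Ideal.mem_comap, Ideal.Quotient.algebraMap_eq, Ideal.Quotient.eq_zero_iff_mem.2 ha]
    exact J.zero_mem
  have h2 : y ≤ J.comap (algebraMap T (T ⧸ y ^ n)) := Ideal.IsPrime.le_of_pow_le h1
  rwa [← hy.eq_of_le hp.ne_top h2]

omit [Algebra k T] [IsScalarTower k T L] in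
theorem ge_of_mem_pow {E : Place k L} {y : Ideal T} (hE : HasCentre E y) (n : ℕ) {a : T}
    (ha : a ∈ y ^ n) : E.Ge n (algebraMap T L a) := by
  induction n generalizing a with
  | zero => exact (hE a).1
  | succ n ih =>
    rw [pow_succ] at ha
    refine Submodule.mul_induction_on ha (fun b hb c hc => ?_) (fun b c hb hc => ?_)
    · rw [map_mul]
      exact (ih hb).mul' ((hE c).2.1 hc) (by push_cast; omega)
    · rw [map_add]
      exact hb.add hc

omit [Algebra k T] [IsScalarTower k T L] in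
theorem unit_of_not_mem {E : Place k L} {y : Ideal T} (hE : HasCentre E y) {b : T} (hb : b ∉ y) :
    algebraMap T L b ≠ 0 ∧ E.ord (algebraMap T L b) = 0 := by
  have h1 := Place.not_ge_iff.1 (fun h => hb ((hE b).2.2 h))
  have h2 := (hE b).1.le h1.1
  exact ⟨h1.1, by omega⟩

omit [Algebra k T] [IsScalarTower k T L] in
theorem ge_iff_of_loc {E : Place k L} {y : Ideal T} (hE : HasCentre E y) {f : L} {a b : T}
    (hb : b ∉ y) (e : f * algebraMap T L b = algebraMap T L a) (n : ℤ) :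
    E.Ge n f ↔ E.Ge n (algebraMap T L a) := by
  obtain ⟨h1, h2⟩ := unit_of_not_mem hE hb
  by_cases hf : f = 0
  · rw [← e, hf]; simp
  · rw [← e, Place.ge_iff hf, Place.ge_iff (mul_ne_zero hf h1), E.ord_mul hf h1, h2, add_zero]

theorem res_const {E : Place k L} {y : Ideal T} (hE : HasCentre E y) {ρ : L → RatFunc k}
    (hρ : IsRes E ρ) {a : T} {c : k} (h : a - algebraMap k T c ∈ y) :
    ρ (algebraMap T L a) = algebraMap k _ c := by
  have h1 := (hE _).1.mono le_rfl (x := algebraMap T L (a - algebraMap k T c))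
  have h2 := (hρ.zero _ h1).2 ((hE _).2.1 h)
  have h3 := hρ.add _ _ h1 (Place.ge_const c)
  rw [h2, hρ.const, zero_add, map_sub, ← IsScalarTower.algebraMap_apply, sub_add_cancel] at h3
  exact h3

end Ring

section System

variable [IsAlgClosed k] {T L : Type} [CommRing T] [IsDomain T] [Algebra k T]
  [Algebra.FiniteType k T] [Field L] [Algebra k L] [Algebra T L] [IsScalarTower k T L]
  [IsFractionRing T L] {u : Fin 2 → L} {E : Place k L} {ρ : L → RatFunc k} {t z : L}
  {y : Ideal T} [y.IsMaximal]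

omit [IsDomain T] [IsFractionRing T L] in
/-- Leading coefficients of fractions. -/
theorem lc_frac (p3 : Pl3 k p) (hu : IsPB p u) (ad : Adapt p E ρ t ![z]) (hE : HasCentre E y)
    {f : L} {a b : T} (hb : b ∉ y) (e : f * algebraMap T L b = algebraMap T L a) {n : ℤ}
    (hf : E.Ge n f) : ∃ c : k, lc k u ρ t ![z] 0 n f =
      c • lc k u ρ t ![z] 0 n (algebraMap T L a) := by
  obtain ⟨c, hc⟩ := exists_const (k := k) y b
  have hc0 : c ≠ 0 := by
    rintro rfl
    exact hb (by simpa using hc)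
  have h1 := p3.lc_mul hu ad (cge_zero.2 hf) (cge_zero.2 (hE b).1)
  rw [e, lc_zero_zero, res_const hE ad.res hc, add_zero, add_zero] at h1
  refine ⟨c⁻¹, ?_⟩
  rw [h1, mul_comm, ← Algebra.smul_def, smul_smul, inv_mul_cancel₀ hc0, one_smul]

omit [IsDomain T] [IsFractionRing T L] in
theorem fin_lcSub (p3 : Pl3 k p) (hu : IsPB p u) (ad : Adapt p E ρ t ![z]) (hE : HasCentre E y)
    {W : Submodule k L}
    (hW : ∀ f ∈ W, ∃ a b : T, b ∉ y ∧ f * algebraMap T L b = algebraMap T L a) (n : ℤ) :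
    FiniteDimensional k (lcSub p3 hu ad W 0 n) := by
  let Tn : Submodule k T :=
    { carrier := {a | E.Ge n (algebraMap T L a)}
      zero_mem' := by simp
      add_mem' := fun ha hb => by
        rw [Set.mem_ofPred_eq, map_add]; exact Place.Ge.add ha hb
      smul_mem' := fun c a ha => by
        rw [Set.mem_ofPred_eq, Algebra.smul_def, map_mul, ← IsScalarTower.algebraMap_apply,
          ← Algebra.smul_def]
        exact Place.Ge.smul ha c }
  let ℓ : Tn →ₗ[k] RatFunc k :=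
    { toFun := fun a => lc k u ρ t ![z] 0 n (algebraMap T L a)
      map_add' := fun a b => by
        rw [Submodule.coe_add, map_add]
        exact p3.lc_add hu ad (cge_zero.2 a.2) (cge_zero.2 b.2)
      map_smul' := fun c a => by
        rw [Submodule.coe_smul, Algebra.smul_def, map_mul, ← IsScalarTower.algebraMap_apply,
          ← Algebra.smul_def]
        exact p3.lc_smul hu ad c (cge_zero.2 a.2) }
  have := finite_quot (k := k) y (n + 1).toNat
  let g : Tn →ₗ[k] T ⧸ y ^ (n + 1).toNat :=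
    (Ideal.Quotient.mkₐ k (y ^ (n + 1).toNat)).toLinearMap ∘ₗ Tn.subtype
  have hker : LinearMap.ker g ≤ LinearMap.ker ℓ := by
    intro a ha
    have h1 : (a : T) ∈ y ^ (n + 1).toNat := Ideal.Quotient.eq_zero_iff_mem.1 ha
    have h2 := (ge_of_mem_pow hE _ h1).mono (m := n + 1) (by omega)
    exact (p3.lc_eq_zero hu ad (cge_zero.2 a.2)).2 (cge_zero.2 h2)
  have h3 : FiniteDimensional k (Tn ⧸ LinearMap.ker g) :=
    LinearEquiv.finiteDimensional g.quotKerEquivRange.symm
  have h4 : FiniteDimensional k (LinearMap.range ℓ) := by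
    rw [← Submodule.range_liftQ _ ℓ hker]
    infer_instance
  refine Submodule.finiteDimensional_of_le (S₂ := LinearMap.range ℓ) ?_
  rintro _ ⟨f, hf, hf', rfl⟩
  obtain ⟨a, b, hb, e⟩ := hW f hf
  rw [cge_zero] at hf'
  obtain ⟨c, hc⟩ := lc_frac p3 hu ad hE hb e hf'
  rw [hc]
  exact Submodule.smul_mem _ c ⟨⟨a, (ge_iff_of_loc hE hb e n).1 hf'⟩, rfl⟩

/-- The input of the curve block. -/
theorem curve_out (p3 : Pl3 k p) (cu : St_CURVE1 k p) {V : ℕ → Submodule k L} {η : L} {N : ℕ}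
    (s : Sys2 p u V) (ad : Adapt p E ρ t ![z]) (hE : HasCentre E y) (hz : ρ z = RatFunc.X)
    (hη0 : η ≠ 0) (hN : 0 < N) (hη : η ∈ V N)
    (hc : ∃ c : L, c ≠ 0 ∧ ∀ τ : T, c * algebraMap T L τ ∈ V 0)
    (hloc : ∀ f ∈ V 0, ∃ a b : T, b ∉ y ∧ f * algebraMap T L b = algebraMap T L a)
    (klt : E.ord η < N * lam k u E)
    (pos : ∀ P : Place k (RatFunc k), ∃ (a : ℕ) (σ : T), 0 < a ∧
      CGe u E (a * N) 0 (η ^ a * algebraMap T L σ) ∧
      ¬ P.Ge (a * N * lam1 P) (lc k u ρ t ![z] (a * N) 0 (η ^ a * algebraMap T L σ))) :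
    ∀ n, 1 ≤ n → lcSub p3 s.pb ad (Acal T (V 0)) 0 n ≤ lcSub p3 s.pb ad (Ical T (V 0)) 0 n := by
  have hy : y.IsPrime := inferInstance
  have hT : ∀ τ : T, algebraMap T L τ ∈ Acal T (V 0) := fun τ => by
    simpa using mem_Acal τ s.one
  have hge : ∀ f ∈ Acal T (V 0), E.Ge 0 f := by
    intro f hf
    obtain ⟨a, b, hb, e⟩ := Acal_loc hy hloc hf
    exact (ge_iff_of_loc hE hb e 0).2 (hE a).1
  have hρz : (fun i => ρ (![z] i)) = ![(RatFunc.X : RatFunc k)] := by
    funext i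
    fin_cases i
    exact hz
  have hfrac : ∀ f : L, ∃ a b : T, algebraMap T L b ≠ 0 ∧
      algebraMap T L a = f * algebraMap T L b := by
    intro f
    obtain ⟨a, b, hb, rfl⟩ := IsFractionRing.div_surjective (A := T) f
    have hb0 : algebraMap T L b ≠ 0 :=
      IsFractionRing.to_map_eq_zero_iff.not.mpr (nonZeroDivisors.ne_zero hb)
    exact ⟨a, b, hb0, by rw [div_mul_cancel₀ _ hb0]⟩
  have hpow : ∀ a : ℕ, η ^ a ∈ V (a * N) := by
    intro a
    induction a with
    | zero => simpa using s.one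
    | succ a ih => rw [pow_succ, add_mul, one_mul]; exact s.mul _ _ _ _ ih hη
  refine cu (fun m n => lcSub p3 s.pb ad (Acal T (V m)) m n)
    (fun m n => lcSub p3 s.pb ad (Ical T (V m)) m n) ?_ ?_ ?_ ?_ ?_ ?_ ?_ ?_ ?_ ?_ ?_ ?_ ?_
  · rintro m n _ ⟨f, hf, hf', rfl⟩
    exact ⟨f, le_Acal (Ical_le hf), hf', rfl⟩
  · rintro m n m' n' _ _ ⟨f, hf, hf', rfl⟩ ⟨g, hg, hg', rfl⟩
    exact ⟨f * g, Acal_mul_Acal (s.mul m m') hf hg, cge_mul hf' hg', p3.lc_mul s.pb ad hf' hg'⟩
  · rintro m n m' n' _ _ ⟨f, hf, hf', rfl⟩ ⟨g, hg, hg', rfl⟩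
    exact ⟨f * g, Acal_mul_Ical (s.mul m m') hf hg, cge_mul hf' hg', p3.lc_mul s.pb ad hf' hg'⟩
  · rintro m m' n _ hm ⟨f, hf, hf', rfl⟩
    refine ⟨car p u f, fun τ => ?_, p3.car_cge s.pb ad hm ?_ hf', ?_⟩
    · rw [← car1_car_pow_mul (k := k), ← map_pow]
      exact s.car m m' _ hm (hf _)
    · have : (0 : ℤ) < p := by exact_mod_cast (Fact.out : p.Prime).pos
      nlinarith
    · rw [p3.lc_car s.pb ad hm hf', hρz]
  · refine ⟨1, le_Acal s.one, cge_zero.2 Place.ge_one, ?_⟩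
    have := ad.res.const 1
    rw [lc_zero_zero]
    simpa using this
  · rintro _ ⟨f, hf, hf', rfl⟩
    obtain ⟨a, b, hb, e⟩ := Acal_loc hy hloc hf
    obtain ⟨c, hc⟩ := lc_frac p3 s.pb ad hE hb e (cge_zero.1 hf')
    obtain ⟨c', hc'⟩ := exists_const (k := k) y a
    refine ⟨c * c', ?_⟩
    rw [hc, lc_zero_zero, res_const hE ad.res hc', map_mul, Algebra.smul_def]
  · intro n hn
    rw [eq_bot_iff]
    rintro _ ⟨f, hf, hf', rfl⟩
    exact (p3.lc_eq_zero s.pb ad hf').2 (cge_zero.2 ((hge f hf).mono (by omega)))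
  · intro n
    exact fin_lcSub p3 s.pb ad hE (fun f hf => Acal_loc hy hloc hf) n
  · obtain ⟨a, b, hb, e⟩ := hfrac z
    obtain ⟨h1, h2⟩ := lead_ne p3 s.pb ad (m := 0) (n := E.ord (algebraMap T L b)) hb (by simp)
    have hz0 : CGe u E 0 0 z := cge_zero.2 (ad.ge 0)
    refine ⟨_, _, h2, ⟨_, hT b, h1, rfl⟩, algebraMap T L a, hT a, ?_, ?_⟩
    · simpa [e] using cge_mul hz0 h1
    · have := p3.lc_mul s.pb ad hz0 h1
      rw [lc_zero_zero, hz, zero_add, zero_add] at this
      rw [e, this]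
  · obtain ⟨a, b, hb, e⟩ := hfrac t
    have ht : t ≠ 0 := by
      rintro rfl
      simpa using ad.ord
    obtain ⟨h1, h2⟩ := lead_ne p3 s.pb ad (m := 0) (n := E.ord (algebraMap T L b)) hb (by simp)
    obtain ⟨h3, h4⟩ := lead_ne p3 s.pb ad (m := 0) (n := E.ord (algebraMap T L b) + 1)
      (f := algebraMap T L a) (e ▸ mul_ne_zero ht hb)
      (by rw [e, E.ord_mul ht hb, ad.ord]; simp [add_comm])
    exact ⟨_, _, _, h2, h4, ⟨_, hT b, h1, rfl⟩, ⟨_, hT a, h3, rfl⟩⟩
  · intro m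
    obtain ⟨c, hc0, hc⟩ := hc
    obtain ⟨v, hv0, hv⟩ := s.ne m
    obtain ⟨h1, h2⟩ := lead_ne p3 s.pb ad (m := m) (n := E.ord (c * v) - m * lam k u E)
      (mul_ne_zero hc0 hv0) (by ring)
    refine ⟨_, _, h2, _, fun τ => ?_, h1, rfl⟩
    have := s.mul _ _ _ _ (hc τ) hv
    rw [zero_add] at this
    convert this using 1
    ring
  · obtain ⟨h1, h2⟩ := lead_ne p3 s.pb ad (m := N) (n := E.ord η - N * lam k u E) hη0 (by ring)
    exact ⟨N, _, _, hN, by omega, h2, _, le_Acal hη, h1, rfl⟩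
  · intro P
    obtain ⟨a, σ, ha, h1, h2⟩ := pos P
    refine ⟨a * N, _, Nat.mul_pos ha hN, ⟨_, ?_, h1, rfl⟩, by exact_mod_cast h2⟩
    rw [mul_comm (η ^ a)]
    exact mem_Acal σ (hpow a)

end System

end AsD

open AsD in
theorem st_ST [IsAlgClosed k] (c2 : Car2 k p) (p1 : Pl1 k p) (p3 : Pl3 k p) (sat : St_SAT k p)
    (rs : St_RES k p) (cu : St_CURVE1 k p) (ch : St_CH k) : St_ST k p := by
  intro T L _ _ _ _ _ _ _ _ _ _ u V η N y hy s hη0 hN hη hc hloc klt
  have hyp : y.IsPrime := inferInstance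
  have heff : ∀ (F : Place k L) (q : Ideal T), HasCentre F q → q ≤ y → q.height = 1 →
      N * (lam k u F - 1) ≤ F.ord η := by
    intro F q hF hq h1
    refine sat s hη0 hN hη hc F q hF h1 fun f hf => ?_
    obtain ⟨a, b, hb, e⟩ := hloc f hf
    exact (ge_iff_of_loc hF (fun h => hb (hq h)) e 0).2 (hF a).1
  obtain ⟨E, ρ, t, z, hE, ad, hz, pos⟩ := rs y η N s.pb hη0 hN klt heff
  have hdiv : IsDivisorial 2 E := by
    refine p1.div_of_res (d := 1) ![(RatFunc.X : RatFunc k)] ad.res ?_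
    rw [algebraicIndependent_unique_type_iff]
    exact RatFunc.transcendental_X
  have out := curve_out p3 cu s ad hE hz hη0 hN hη hc hloc (klt E y hE le_rfl hdiv) pos
  have hT : ∀ τ : T, algebraMap T L τ ∈ Acal T (V 0) := fun τ => by
    simpa using mem_Acal τ s.one
  have happ : ∀ τ ∈ y, ∀ n : ℕ, ∃ x ∈ Ical T (V 0), E.Ge (n + 1) (algebraMap T L τ - x) := by
    intro τ hτ n
    induction n with
    | zero => exact ⟨0, Submodule.zero_mem _, by simpa using (hE τ).2.1 hτ⟩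
    | succ n ih =>
      obtain ⟨x, hx, hx'⟩ := ih
      obtain ⟨x', h1, h2, h3⟩ := out (n + 1) (by omega)
        ⟨_, Submodule.sub_mem _ (hT τ) (le_Acal (Ical_le hx)), cge_zero.2 hx', rfl⟩
      refine ⟨x + x', Submodule.add_mem _ hx h1, ?_⟩
      have := lc_sub_zero p3 s.pb ad hx' (cge_zero.1 h2) h3
      rw [← sub_sub]
      exact_mod_cast this
  have : Algebra.EssFiniteType T L := Algebra.EssFiniteType.of_isLocalization L (nonZeroDivisors T)
  have : Algebra.EssFiniteType k L := Algebra.EssFiniteType.comp k T L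
  obtain ⟨j, hj⟩ := ch y E (c2.trdeg_eq s.pb) hE hdiv 2
  let c : Ideal T :=
    { carrier := {a | algebraMap T L a ∈ Ical T (V 0)}
      zero_mem' := by simp
      add_mem' := fun ha hb => by
        rw [Set.mem_ofPred_eq, map_add]; exact Submodule.add_mem _ ha hb
      smul_mem' := fun σ a ha => by
        rw [Set.mem_ofPred_eq, smul_eq_mul, map_mul]; exact Ical_mul σ ha }
  have hle : y ≤ c ⊔ y • y := by
    intro τ hτ
    obtain ⟨x, hx, hx'⟩ := happ τ hτ j.toNat
    obtain ⟨a, b, hb, e⟩ := Acal_loc hyp hloc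
      (Submodule.sub_mem _ (hT τ) (le_Acal (Ical_le hx)))
    have ha : a ∈ y ^ 2 := hj a ((ge_iff_of_loc hE hb e j).1 (hx'.mono (by omega)))
    have h1 : b * τ - a ∈ c := by
      change algebraMap T L (b * τ - a) ∈ Ical T (V 0)
      have := Ical_mul b hx
      rw [map_sub, map_mul, ← e]
      convert this using 1
      ring
    obtain ⟨b', y', hy', hb'⟩ := hy.exists_inv hb
    have h2 : τ = b' * (b * τ - a) + (b' * a + y' * τ) := by
      linear_combination (-τ) * hb'
    rw [h2]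
    refine Submodule.add_mem_sup (c.mul_mem_left _ h1) (Submodule.add_mem _ ?_ ?_)
    · rw [smul_eq_mul, ← pow_two]
      exact Ideal.mul_mem_left _ _ ha
    · exact Ideal.mul_mem_mul hy' hτ
  have : IsNoetherianRing T := Algebra.FiniteType.isNoetherianRing k T
  obtain ⟨r, hr, hr'⟩ := Submodule.exists_sub_one_mem_and_smul_le_of_fg_of_le_sup
    (IsNoetherian.noetherian y) le_rfl hle
  refine ⟨r, fun h => hy.ne_top ((Ideal.eq_top_iff_one y).2 ?_), fun τ hτ => ?_⟩
  · simpa using y.sub_mem h hr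
  · exact Ical_le (hr' (Submodule.smul_mem_pointwise_smul τ r y hτ))

end Pool.Agent.Lib.MP_5f81cf_ag.Full
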