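import Pool.Agent.Lib.MP_5f81cf_ag.FBlue5

/-! The curve block with a second filtration. -/

namespace Pool.Agent.Lib.MP_5f81cf_ag.Full

open Pool.Agent.Lib.MP_e06174_ag

variable {k : Type} [Field k] {p : ℕ} [Fact p.Prime]

lemma k9_dg {D : Pt k →₀ ℤ} {S : Finset (Pt k)} (h : D.support ⊆ S) : dg D = ∑ P ∈ S, D P :=
  Finsupp.sum_of_support_subset D h _ fun _ _ => rfl

lemma k9_dgQ {D : Pt k →₀ ℚ} {S : Finset (Pt k)} (h : D.support ⊆ S) : dgQ D = ∑ P ∈ S, D P :=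
  Finsupp.sum_of_support_subset D h _ fun _ _ => rfl

section A

variable {A : ℤ → Submodule k (RatFunc k)}

lemma k9_pow (hmul : ∀ n n' f g, f ∈ A n → g ∈ A n' → f * g ∈ A (n + n')) (h1 : 1 ∈ A 0)
    {n : ℤ} {f : RatFunc k} (hf : f ∈ A n) (i : ℕ) : f ^ i ∈ A (i * n) := by
  induction i with
  | zero => simpa using h1
  | succ i ih =>
    have := hmul _ _ _ _ ih hf
    rwa [← pow_succ, show (i : ℤ) * n + n = (i + 1 : ℕ) * n by push_cast; ring] at this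

lemma k9_subpow (hmul : ∀ n n' f g, f ∈ A n → g ∈ A n' → f * g ∈ A (n + n')) (h1 : 1 ∈ A 0)
    (n : ℤ) (i : ℕ) : A n ^ i ≤ A (i * n) := by
  induction i with
  | zero => simpa [Submodule.one_le] using h1
  | succ i ih =>
    rw [pow_succ, Submodule.mul_le]
    intro f hf g hg
    have := hmul _ _ _ _ (ih hf) hg
    rwa [show (i : ℤ) * n + n = (i + 1 : ℕ) * n by push_cast; ring] at this

lemma k9_D (k1 : K1 k) {η : RatFunc k} {N : ℕ} {β : ℤ} (hη : η ≠ 0) (hN : 0 < N) (hβ : 0 < β)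
    (hmul : ∀ n n' f g, f ∈ A n → g ∈ A n' → f * g ∈ A (n + n')) (h1 : 1 ∈ A 0)
    (hr : ∃ n f, 0 < n ∧ f ≠ 0 ∧ f ∈ A n ∧ RatFunc.X * f ∈ A n)
    (hpos : ∀ P : Pt k, ∃ (a : ℕ) (f : RatFunc k), 0 < a ∧ f ∈ A (a * β) ∧
      ¬ P.Ge (a * N * lam1 P) (η ^ a * f)) :
    ∃ (a : ℕ) (D : Pt k →₀ ℤ), 0 < a ∧
      (∃ f, f ≠ 0 ∧ f ∈ A (a * β) ∧ RatFunc.X * f ∈ A (a * β)) ∧
      (∀ P, ∃ w ∈ A (a * β), w ≠ 0 ∧ P.ord w ≤ -D P) ∧ 1 ≤ dg D ∧
      ∀ P, 1 ≤ D P + a * (N * lam1 P - P.ord η) := by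
  classical
  obtain ⟨n₁, f₁, hn₁, hf₁, hf₁A, hXf₁⟩ := hr
  obtain ⟨n₁, rfl⟩ := Int.eq_ofNat_of_zero_le hn₁.le
  obtain ⟨β, rfl⟩ := Int.eq_ofNat_of_zero_le hβ.le
  have hn₁' : 0 < n₁ := by exact_mod_cast hn₁
  have hβ' : 0 < β := by exact_mod_cast hβ
  choose a f ha hf hlt using hpos
  obtain ⟨Q, hQ, hQ', -⟩ := k1.infty
  obtain ⟨Dη, hDη, -⟩ := k1.dv η hη
  obtain ⟨D₁, hD₁, hD₁'⟩ := k1.dv f₁ hf₁
  let Z : Finset (Pt k) := insert Q (Dη.support ∪ D₁.support)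
  obtain ⟨r, hr⟩ : ∃ r, β * ∏ P ∈ Z, a P = r + 1 :=
    ⟨_, (Nat.succ_pred_eq_of_pos (Nat.mul_pos hβ' (Finset.prod_pos fun P _ => ha P))).symm⟩
  set a₀ := n₁ * ∏ P ∈ Z, a P with ha₀
  have ha₀' : 0 < a₀ := Nat.mul_pos hn₁' (Finset.prod_pos fun P _ => ha P)
  have e₁ : ((r + 1 : ℕ) : ℤ) * n₁ = a₀ * β := by rw [← hr, ha₀]; push_cast; ring
  have hf₀ : f₁ ^ (r + 1) ∈ A (a₀ * β) := e₁ ▸ k9_pow hmul h1 hf₁A (r + 1)
  have hXf₀ : RatFunc.X * f₁ ^ (r + 1) ∈ A (a₀ * β) := by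
    have := hmul _ _ _ _ (k9_pow hmul h1 hf₁A r) hXf₁
    rwa [show (r : ℤ) * n₁ + n₁ = a₀ * β by rw [← e₁]; push_cast; ring,
      show f₁ ^ r * (RatFunc.X * f₁) = RatFunc.X * f₁ ^ (r + 1) by ring] at this
  have hf₀0 : f₁ ^ (r + 1) ≠ 0 := pow_ne_zero _ hf₁
  have hw : ∀ P, ∃ w ∈ A (a₀ * β), w ≠ 0 ∧ P.ord w < a₀ * (N * lam1 P - P.ord η) ∧
      (P ∉ Z → P.ord w = 0) := by
    intro P
    by_cases hP : P ∈ Z
    · obtain ⟨b, hb⟩ : a P ∣ a₀ := Dvd.dvd.mul_left (Finset.dvd_prod_of_mem a hP) _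
      have hb0 : 0 < b := Nat.pos_of_ne_zero (by rintro rfl; omega)
      obtain ⟨h0, h2⟩ := Place.not_ge_iff.1 (hlt P)
      have hfP : f P ≠ 0 := right_ne_zero_of_mul h0
      rw [P.ord_mul (pow_ne_zero _ hη) hfP, Place.ord_pow] at h2
      refine ⟨f P ^ b, ?_, pow_ne_zero _ hfP, ?_, fun h => absurd hP h⟩
      · have := k9_pow hmul h1 (hf P) b
        rwa [show (b : ℤ) * (a P * β) = a₀ * β by rw [hb]; push_cast; ring] at this
      · rw [Place.ord_pow, hb]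
        push_cast
        have hb1 : (0 : ℤ) < b := by exact_mod_cast hb0
        nlinarith
    · simp only [Z, Finset.mem_insert, Finset.mem_union, Finsupp.mem_support_iff, not_or,
        not_not, hDη, hD₁] at hP
      have e2 : lam1 P = 1 := if_pos (hQ' P hP.1)
      have e3 : P.ord (f₁ ^ (r + 1)) = 0 := by rw [Place.ord_pow, hP.2.2, mul_zero]
      refine ⟨_, hf₀, hf₀0, ?_, fun _ => e3⟩
      rw [e3, e2, hP.2.1, mul_one, sub_zero]
      positivity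
  choose w hwA hw0 hwlt hwZ using hw
  let D : Pt k →₀ ℤ := Finsupp.onFinset Z
    (fun P => max (-P.ord (w P)) (-((r + 1 : ℕ) * D₁ P) + if P = Q then 1 else 0)) (by
      intro P hP
      by_contra hZ
      have h2 := hwZ P hZ
      simp only [Z, Finset.mem_insert, Finset.mem_union, Finsupp.mem_support_iff, not_or,
        not_not] at hZ
      simp [h2, hZ.1, hZ.2.2] at hP)
  have hD : ∀ P, D P = max (-P.ord (w P)) (-((r + 1 : ℕ) * D₁ P) + if P = Q then 1 else 0) :=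
    fun P => rfl
  refine ⟨a₀, D, ha₀', ⟨_, hf₀0, hf₀, hXf₀⟩, fun P => ?_, ?_, fun P => ?_⟩
  · rcases le_total (-P.ord (w P)) (-((r + 1 : ℕ) * D₁ P) + if P = Q then 1 else 0) with h | h
    · rw [hD, max_eq_right h]
      by_cases hP : P = Q
      · refine ⟨_, hXf₀, mul_ne_zero RatFunc.X_ne_zero hf₀0, ?_⟩
        rw [P.ord_mul RatFunc.X_ne_zero hf₀0, Place.ord_pow, if_pos hP, hD₁, hP, hQ]
        omega
      · refine ⟨_, hf₀, hf₀0, ?_⟩
        rw [Place.ord_pow, if_neg hP, hD₁]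
        omega
    · rw [hD, max_eq_left h]
      exact ⟨_, hwA P, hw0 P, by omega⟩
  · have hs : D₁.support ⊆ Z := fun P hP => by simp [Z, Finsupp.mem_support_iff.1 hP]
    rw [k9_dg Finsupp.support_onFinset_subset]
    refine le_trans ?_ (Finset.sum_le_sum fun P _ => le_max_right _ _)
    rw [Finset.sum_add_distrib, Finset.sum_neg_distrib, ← Finset.mul_sum, ← k9_dg hs, hD₁']
    simp [Z]
  · have := hwlt P
    have h2 : -P.ord (w P) ≤ D P := le_max_left _ _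
    omega

lemma k9_G (k1 : K1 k) (fi : St_Fill k) {η c : RatFunc k} {N : ℕ} {β e : ℤ} (hη : η ≠ 0)
    (hc : c ≠ 0) (hN : 0 < N) (hβ : 0 < β) (he : 0 ≤ e)
    (hmul : ∀ n n' f g, f ∈ A n → g ∈ A n' → f * g ∈ A (n + n')) (h1 : 1 ∈ A 0)
    (hr : ∃ n f, 0 < n ∧ f ≠ 0 ∧ f ∈ A n ∧ RatFunc.X * f ∈ A n)
    (hpos : ∀ P : Pt k, ∃ (a : ℕ) (f : RatFunc k), 0 < a ∧ f ∈ A (a * β) ∧
      ¬ P.Ge (a * N * lam1 P) (η ^ a * f)) :
    ∃ (n : ℤ) (G : Pt k →₀ ℤ) (S : Finset (Pt k)), 0 < n ∧ (∀ h ∈ LL G, h / c ∈ A n) ∧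
      (∀ P, 0 < β * G P + (n + e) * (N * lam1 P - P.ord η)) ∧ G.support ⊆ S ∧
      (∀ P, P ∉ S → P.ord η = 0) ∧ (S.card : ℤ) < dg G := by
  classical
  obtain ⟨a, D, ha, hr', hw, hD1, hD2⟩ := k9_D k1 hη hN hβ hmul h1 hr hpos
  obtain ⟨Y, C, hY⟩ := fi (A (a * β)) D hr' hw
  obtain ⟨Q, -, hQ', -⟩ := k1.infty
  obtain ⟨Dη, hDη, -⟩ := k1.dv η hη
  obtain ⟨Dc, hDc, hDc'⟩ := k1.dv c hc
  let S : Finset (Pt k) := insert Q (D.support ∪ Y ∪ Dc.support ∪ Dη.support)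
  have hS : ∀ P, P ∉ S → P ≠ Q ∧ D P = 0 ∧ P ∉ Y ∧ P.ord c = 0 ∧ P.ord η = 0 := fun P hP => by
    simpa only [S, Finset.mem_insert, Finset.mem_union, Finsupp.mem_support_iff, not_or,
      not_not, hDη, hDc, and_assoc] using hP
  let u : Pt k → ℤ := fun P =>
    β * ((if P ∈ Y then (C : ℤ) else 0) + P.ord c) - e * (N * lam1 P - P.ord η)
  obtain ⟨j, hj1, hj2⟩ : ∃ j : ℕ, (∀ P, u P < j) ∧ (S.card : ℤ) + C * Y.card < j := by
    obtain ⟨B, hB⟩ := (S.image u).finite_toSet.bddAbove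
    refine ⟨B.toNat + S.card + C * Y.card + 1, fun P => ?_, by push_cast; omega⟩
    by_cases hP : P ∈ S
    · have := hB (Finset.mem_coe.2 (Finset.mem_image_of_mem u hP))
      push_cast
      have : (0 : ℤ) ≤ C * Y.card := by positivity
      omega
    · obtain ⟨e1, -, e3, e4, e5⟩ := hS P hP
      have e2 : lam1 P = 1 := if_pos (hQ' P e1)
      have : u P ≤ 0 := by
        simp only [u, if_neg e3, e4, e5, e2]
        have : 0 ≤ e * N := by positivity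
        linarith
      exact lt_of_le_of_lt this (by positivity)
  have hj0 : (0 : ℤ) < j := lt_of_le_of_lt (by positivity) hj2
  let G : Pt k →₀ ℤ := Finsupp.onFinset S
    (fun P => j * D P - (if P ∈ Y then (C : ℤ) else 0) - P.ord c) (by
      intro P hP
      by_contra hZ
      obtain ⟨-, e2, e3, e4, -⟩ := hS P hZ
      simp [e2, e3, e4] at hP)
  have hG : ∀ P, G P = j * D P - (if P ∈ Y then (C : ℤ) else 0) - P.ord c := fun P => rfl
  refine ⟨j * (a * β), G, S, by positivity, fun h hh => ?_, fun P => ?_,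
    Finsupp.support_onFinset_subset, fun P hP => (hS P hP).2.2.2.2, ?_⟩
  · refine k9_subpow hmul h1 _ j (hY j fun P => ?_)
    rw [div_eq_mul_inv]
    refine Place.Ge.mul' (hh P) (Place.ge_ord c⁻¹) ?_
    simp only [hG, Place.ord_inv]
    omega
  · have e1 := hj1 P
    have e2 := hD2 P
    have e3 : β * G P + (j * (a * β) + e) * (N * lam1 P - P.ord η) =
        j * β * (D P + a * (N * lam1 P - P.ord η)) - u P := by
      rw [hG]; simp only [u]; ring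
    have e4 : (j : ℤ) ≤ j * β := le_mul_of_one_le_right hj0.le hβ
    have e5 : j * β ≤ j * β * (D P + a * (N * lam1 P - P.ord η)) :=
      le_mul_of_one_le_right (by positivity) e2
    omega
  · have s1 : D.support ⊆ S := fun P hP => by simp [S, Finsupp.mem_support_iff.1 hP]
    have s2 : Dc.support ⊆ S := fun P hP => by simp [S, Finsupp.mem_support_iff.1 hP]
    have s3 : S ∩ Y = Y := Finset.inter_eq_right.2 fun P hP => by simp [S, hP]
    have s4 : G.support ⊆ S := Finsupp.support_onFinset_subset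
    rw [k9_dg s4, Finset.sum_congr rfl fun P _ => hG P]
    simp only [← hDc]
    rw [Finset.sum_sub_distrib, Finset.sum_sub_distrib, ← Finset.mul_sum, ← k9_dg s1,
      ← k9_dg s2, hDc', Finset.sum_ite_mem, s3, Finset.sum_const, nsmul_eq_mul]
    nlinarith

end A

section U

variable {U : ℕ → ℤ → ℤ → Submodule k (RatFunc k)}

lemma k9_cast {m m' : ℕ} {j j' n n' : ℤ} {f : RatFunc k} (h : f ∈ U m j n) (e1 : m = m')
    (e2 : j = j') (e3 : n = n') : f ∈ U m' j' n' := e1 ▸ e2 ▸ e3 ▸ h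

lemma k9_mul_subpow (hmul : ∀ m j n m' j' n' f g, f ∈ U m j n → g ∈ U m' j' n' →
      f * g ∈ U (m + m') (j + j') (n + n')) {m m' : ℕ} {j j' n n' : ℤ} {γ : RatFunc k}
    (hγ : γ ∈ U m j n) (i : ℕ) :
    ∀ f ∈ U m' j' n' ^ i, γ * f ∈ U (m + i * m') (j + i * j') (n + i * n') := by
  induction i with
  | zero =>
    intro f hf
    rw [pow_zero, Submodule.mem_one] at hf
    obtain ⟨c, rfl⟩ := hf
    rw [mul_comm γ, ← Algebra.smul_def]
    simpa using Submodule.smul_mem _ c hγ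
  | succ i ih =>
    intro f hf
    rw [pow_succ] at hf
    refine Submodule.mul_induction_on hf (fun a ha b hb => ?_) fun a b ha hb => ?_
    · rw [← mul_assoc]
      exact k9_cast (hmul _ _ _ _ _ _ _ _ (ih a ha) hb) (by ring) (by push_cast; ring)
        (by push_cast; ring)
    · rw [mul_add]; exact Submodule.add_mem _ ha hb

lemma k9_mul_pow (hmul : ∀ m j n m' j' n' f g, f ∈ U m j n → g ∈ U m' j' n' →
      f * g ∈ U (m + m') (j + j') (n + n')) {m m' : ℕ} {j j' n n' : ℤ} {γ x : RatFunc k}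
    (hγ : γ ∈ U m j n) (hx : x ∈ U m' j' n') (i : ℕ) :
    γ * x ^ i ∈ U (m + i * m') (j + i * j') (n + i * n') :=
  k9_mul_subpow hmul hγ i _ (Submodule.pow_mem_pow _ hx i)

lemma k9_iter (hcar : ∀ m m' (j j' : ℤ) n f, m' + 1 = p * (m + 1) → p * (j - 1) < j' →
      f ∈ U m' j' (p * n) → car1 p f ∈ U m j n) (j n : ℤ) (i : ℕ) :
    ∀ (m : ℕ) (f : RatFunc k), m + 1 = p ^ i → f ∈ U m (p ^ i * j + 1) (p ^ i * n) →
      (car1 p)^[i] f ∈ U 0 (j + 1) n := by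
  induction i with
  | zero =>
    intro m f hm hf
    exact k9_cast hf (by simpa using hm) (by simp) (by simp)
  | succ i ih =>
    intro m f hm hf
    obtain ⟨m₁, hm₁⟩ : ∃ m₁, m₁ + 1 = p ^ i :=
      ⟨_, Nat.succ_pred_eq_of_pos (pow_pos (Fact.out : p.Prime).pos i)⟩
    rw [Function.iterate_succ_apply]
    refine ih m₁ _ hm₁ (hcar m₁ m _ (p ^ (i + 1) * j + 1) _ f (by rw [hm, hm₁, pow_succ'])
      ?_ (k9_cast hf rfl rfl (by ring)))
    rw [pow_succ']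
    linarith

lemma k9_gamma (hmul : ∀ m j n m' j' n' f g, f ∈ U m j n → g ∈ U m' j' n' →
      f * g ∈ U (m + m') (j + j') (n + n')) {η h : RatFunc k} {N n β : ℕ} {α j : ℤ}
    (hη : η ≠ 0) (hh : h ≠ 0) (hn : 0 < n) (hβ : 0 < β) (hηU : η ∈ U N (-α) (-β))
    (hhU : h ∈ U 0 j n) (hne : ∀ m, ∃ j n f, f ≠ 0 ∧ f ∈ U m j n)
    (hsucc : ∃ j n f g, f ≠ 0 ∧ g ≠ 0 ∧ f ∈ U 0 j n ∧ g ∈ U 0 j (n + 1)) (m : ℕ) :
    ∃ (t : ℕ) (l : ℤ) (γ : RatFunc k), γ ≠ 0 ∧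
      γ ∈ U (m + t * (n * N)) l ((m + t * (n * N) + 1 : ℕ) * n) := by
  obtain ⟨l, n₁, f, hf, hfU⟩ := hne m
  obtain ⟨l₂, n₂, f₂, g₂, hf₂, hg₂, hf₂U, hg₂U⟩ := hsucc
  have hn' : (0 : ℤ) < n := by exact_mod_cast hn
  obtain ⟨i, hi⟩ := Int.eq_ofNat_of_zero_le (Int.emod_nonneg (-n₁) hn'.ne')
  have hi' : i < n := by
    have := Int.emod_lt_of_pos (-n₁) hn'
    omega
  obtain ⟨i', hi''⟩ := Nat.exists_eq_add_of_lt hi'
  have e1 := Int.emod_add_mul_ediv (-n₁) n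
  set q := -n₁ / n
  let t := (n₂ - q).toNat
  have ht : 0 ≤ (m + t * (n * N) + 1 : ℕ) + q + t * β - n₂ := by
    have h1 : n₂ - q ≤ t := Int.self_le_toNat _
    have h2 : (t : ℤ) ≤ t * β := le_mul_of_one_le_right (by positivity) (by exact_mod_cast hβ)
    have h3 : (0 : ℤ) ≤ (m + t * (n * N) + 1 : ℕ) := by positivity
    omega
  obtain ⟨u, hu⟩ := Int.eq_ofNat_of_zero_le ht
  refine ⟨t, _, f * η ^ (n * t) * f₂ ^ (i' + 1) * g₂ ^ i * h ^ u, by positivity, k9_cast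
    (k9_mul_pow hmul (k9_mul_pow hmul (k9_mul_pow hmul (k9_mul_pow hmul hfU hηU (n * t)) hf₂U
      (i' + 1)) hg₂U i) hhU u) (by ring) rfl ?_⟩
  rw [← hu]
  have e2 : (n : ℤ) = i + i' + 1 := by exact_mod_cast hi''
  have e3 : n₁ = -(i + n * q) := by omega
  have e4 : ((i' + 1 : ℕ) : ℤ) = n - i := by push_cast; omega
  rw [e4, e3]
  push_cast
  ring

lemma k9_step (k1 : K1 k) (k4 : K4 k p) (sa : St_Sat k p)
    (hmono : ∀ m j j' n, j ≤ j' → U m j' n ≤ U m j n)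
    (hmul : ∀ m j n m' j' n' f g, f ∈ U m j n → g ∈ U m' j' n' →
      f * g ∈ U (m + m') (j + j') (n + n'))
    (hcar : ∀ m m' (j j' : ℤ) n f, m' + 1 = p * (m + 1) → p * (j - 1) < j' →
      f ∈ U m' j' (p * n) → car1 p f ∈ U m j n)
    {η : RatFunc k} {N n β : ℕ} {α j : ℤ} {G : Pt k →₀ ℤ} {S : Finset (Pt k)}
    (hη : η ≠ 0) (hN : 0 < N) (hn : 0 < n) (hβ : 0 < β) (hηU : η ∈ U N (-α) (-β))
    (hne : ∀ m, ∃ j n f, f ≠ 0 ∧ f ∈ U m j n)
    (hsucc : ∃ j n f g, f ≠ 0 ∧ g ≠ 0 ∧ f ∈ U 0 j n ∧ g ∈ U 0 j (n + 1))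
    (hG : ∀ P, 0 < β * G P + n * (N * lam1 P - P.ord η)) (hS : G.support ⊆ S)
    (hS' : ∀ P, P ∉ S → P.ord η = 0) (hdg : (S.card : ℤ) < dg G) (hj : n * α < j * β)
    (hV : LL G ≤ U 0 j n) : LL G ≤ U 0 (j + 1) n := by
  classical
  have hp := (Fact.out : p.Prime)
  have hdg0 : 0 < dg G := lt_of_le_of_lt (by positivity) hdg
  obtain ⟨M, hM⟩ : ∃ M, M = n * N := ⟨_, rfl⟩
  have hM0 : 0 < M := hM ▸ Nat.mul_pos hn hN
  have hMQ : (0 : ℚ) < M := by exact_mod_cast hM0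
  obtain ⟨θ, hθ⟩ : ∃ θ : ℤ, θ = j * β - n * α := ⟨_, rfl⟩
  obtain ⟨s, hs⟩ : ∃ s, M + β = s + 1 := ⟨M + β - 1, by omega⟩
  have hs' : (s : ℤ) = n * N + β - 1 := by
    have : ((M + β : ℕ) : ℤ) = (s + 1 : ℕ) := by rw [hs]
    rw [hM] at this
    push_cast at this
    omega
  have hW : ∀ a ∈ LL G, ∀ b ∈ LL G, a * η ^ n * b ^ s ∈ U M (M * j + θ) (M * n) := by
    intro a ha b hb
    refine k9_cast (k9_mul_pow hmul (k9_mul_pow hmul (hV ha) hηU n) (hV hb) s) (by simp [hM]) ?_ ?_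
    · rw [hs', hθ, hM]; push_cast; ring
    · rw [hs', hM]; push_cast; ring
  obtain ⟨Q, hQ, hQ', -⟩ := k1.infty
  obtain ⟨Dη, hDη, hDη'⟩ := k1.dv η hη
  have hSη : Dη.support ⊆ S := fun P hP => by
    by_contra h
    exact Finsupp.mem_support_iff.1 hP (by rw [hDη, hS' P h])
  obtain ⟨h, hh0, hh, -⟩ := k1.exact_LL (G - Finsupp.single Q 1) Q (by
    have : dg (G - Finsupp.single Q 1) = dg G - 1 := by
      unfold dg
      rw [Finsupp.sum_sub_index fun _ _ _ => rfl, Finsupp.sum_single_index rfl]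
    omega)
  have hh1 : h ∈ LL G := fun P => (hh P).mono (by
    simp only [Finsupp.sub_apply, Finsupp.single_apply]
    split_ifs <;> omega)
  have hh2 : RatFunc.X * h ∈ LL G := fun P => by
    by_cases hP : P = Q
    · subst hP
      exact (Place.ge_of_le hQ.ge).mul' (hh P) (by simp)
    · exact (hQ' P hP).mul' (hh1 P) (by simp)
  let B : Pt k →₀ ℚ := Finsupp.onFinset S
    (fun P => (((s + 1 : ℕ) * G P - n * Dη P : ℤ) : ℚ) / M) (by
      intro P hP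
      by_contra hPS
      have e1 : G P = 0 := Finsupp.notMem_support_iff.1 fun h => hPS (hS h)
      have e2 : Dη P = 0 := Finsupp.notMem_support_iff.1 fun h => hPS (hSη h)
      simp [e1, e2] at hP)
  have hB : ∀ P, B P = (((s + 1 : ℕ) * G P - n * Dη P : ℤ) : ℚ) / M := fun P => rfl
  have hBS : B.support ⊆ S := Finsupp.support_onFinset_subset
  have hBdg : (dg G : ℚ) ≤ dgQ B := by
    rw [k9_dgQ hBS, Finset.sum_congr rfl fun P _ => hB P, ← Finset.sum_div, ← Int.cast_sum,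
      Finset.sum_sub_distrib, ← Finset.mul_sum, ← Finset.mul_sum, ← k9_dg hS, ← k9_dg hSη, hDη',
      le_div_iff₀ hMQ, ← hs]
    have : dg G * M ≤ (M + β : ℕ) * dg G - n * 0 := by push_cast; nlinarith
    exact_mod_cast this
  have hgood : Good p B := by
    have e1 : (S.card : ℚ) < dg G := by exact_mod_cast hdg
    have e2 : (B.support.card : ℚ) ≤ S.card := by exact_mod_cast Finset.card_le_card hBS
    exact k4.big B (lt_of_lt_of_le (by exact_mod_cast hdg0) hBdg) (by linarith)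
  have hLH : LL G ≤ HH (cl B) := fun f hf P => (hf P).mono (by
    have e1 : G P - lam1 P < ⌈B P⌉ := by
      rw [Int.lt_ceil, hB, lt_div_iff₀ hMQ]
      have e2 := hG P
      have : (G P - lam1 P) * M < (s + 1 : ℕ) * G P - n * Dη P := by
        rw [← hs, hDη, hM]; push_cast; linarith
      exact_mod_cast this
    have e3 : cl B P = ⌈B P⌉ := rfl
    show 1 - lam1 P - cl B P ≤ -G P
    omega)
  choose t l γ hγ0 hγ using k9_gamma hmul hη hh0 hn hβ hηU (hV hh1) hne hsucc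
  simp only [← hM] at hγ
  obtain ⟨K, hK⟩ : ∃ K : ℕ, ∀ m < M, t m + (1 + (m + t m * M + 1 : ℕ) * j - l m).toNat ≤ K :=
    ⟨(Finset.range M).sup fun m => t m + (1 + (m + t m * M + 1 : ℕ) * j - l m).toNat,
      fun m hm => Finset.le_sup (f := fun m => t m + (1 + (m + t m * M + 1 : ℕ) * j - l m).toNat)
        (Finset.mem_range.2 hm)⟩
  obtain ⟨e₀, he₀⟩ := sa (U M (M * j + θ) (M * n)) B M ((Finset.range M).image γ) (M + K * M) hM0
    ⟨h * η ^ n * h ^ s, by positivity, hW _ hh1 _ hh1, by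
      have := hW _ hh2 _ hh1
      rwa [mul_assoc, mul_assoc, ← mul_assoc h] at this⟩ hgood
    (fun P => by
      obtain ⟨w, hw0, hw, hw'⟩ := k1.exact_LL G P hdg0.le
      refine ⟨_, hW _ hw _ hw, by positivity, ?_⟩
      rw [hB, div_mul_cancel₀ _ hMQ.ne', P.ord_mul (by positivity) (by positivity),
        P.ord_mul hw0 (by positivity), Place.ord_pow, Place.ord_pow, hw', hDη]
      push_cast
      exact le_of_eq (by ring))
    (fun x hx => by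
      obtain ⟨m, -, rfl⟩ := Finset.mem_image.1 hx
      exact hγ0 m)
  obtain ⟨e, he1, he2⟩ : ∃ e, e₀ ≤ e ∧ K * M < p ^ e :=
    ⟨e₀ + K * M, by omega, lt_of_le_of_lt (by omega) (Nat.lt_pow_self hp.one_lt)⟩
  obtain ⟨r, hr⟩ : ∃ r, p ^ e = r + 1 := ⟨p ^ e - 1, by omega⟩
  have hm : r % M < M := Nat.mod_lt _ hM0
  have hq : K ≤ r / M := (Nat.le_div_iff_mul_le hM0).2 (by omega)
  have hdm := Nat.mod_add_div' r M
  set m := r % M
  have hKm := hK m hm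
  obtain ⟨i, hi⟩ : ∃ i, r / M = t m + i := Nat.exists_eq_add_of_le (by omega)
  have hr' : r = m + t m * M + i * M := by rw [← hdm, hi]; ring
  have htK : t m * M ≤ K * M := Nat.mul_le_mul_right _ (by omega)
  intro g hg
  obtain ⟨f, hf, rfl⟩ := he₀ e he1 (γ m) (Finset.mem_image_of_mem _ (Finset.mem_range.2 hm)) i
    (by omega) (by omega) g (hLH hg)
  have hpe : (p : ℤ) ^ e = (m + t m * M + 1 : ℕ) + i * M := by
    have : ((p ^ e : ℕ) : ℤ) = (m + t m * M + 1 + i * M : ℕ) := by rw [hr, hr']; congr 1; ring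
    exact_mod_cast this
  refine k9_iter hcar j n e r _ hr.symm (hmono _ _ _ _ ?_
    (k9_cast (k9_mul_subpow hmul (hγ m) i f hf) hr'.symm rfl (by rw [hpe]; ring)))
  have e1 : 1 + (m + t m * M + 1 : ℕ) * j - l m ≤ i :=
    le_trans (Int.self_le_toNat _) (by exact_mod_cast (by omega))
  have e2 : (i : ℤ) ≤ i * θ := le_mul_of_one_le_right (by positivity) (by omega)
  rw [hpe]
  linarith

end U

variable (k p) in
/-- The curve block with a second filtration, with integer levels. -/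
def St_CURVE2Z : Prop :=
  ∀ (A : ℤ → Submodule k (RatFunc k)) (η c : RatFunc k) (N : ℕ) (β e : ℤ),
    η ≠ 0 → c ≠ 0 → 0 < N → 0 < β → 0 ≤ e →
    (∀ n n' f g, f ∈ A n → g ∈ A n' → f * g ∈ A (n + n')) → 1 ∈ A 0 →
    (∃ n f, 0 < n ∧ f ≠ 0 ∧ f ∈ A n ∧ RatFunc.X * f ∈ A n) →
    (∀ P : Place k (RatFunc k), ∃ (a : ℕ) (f : RatFunc k), 0 < a ∧ f ∈ A (a * β) ∧
      ¬ P.Ge (a * N * lam1 P) (η ^ a * f)) →
    ∃ n : ℤ, 0 < n ∧ ∀ (U : ℕ → ℤ → ℤ → Submodule k (RatFunc k)) (α j₀ : ℤ),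
      (∀ m j j' n, j ≤ j' → U m j' n ≤ U m j n) →
      (∀ m j n m' j' n' f g, f ∈ U m j n → g ∈ U m' j' n' →
        f * g ∈ U (m + m') (j + j') (n + n')) →
      (∀ m m' (j j' : ℤ) n f, m' + 1 = p * (m + 1) → p * (j - 1) < j' → f ∈ U m' j' (p * n) →
        car1 p f ∈ U m j n) →
      η ∈ U N (-α) (-β) → (∀ m, ∃ j n f, f ≠ 0 ∧ f ∈ U m j n) →
      (∃ j n f g, f ≠ 0 ∧ g ≠ 0 ∧ f ∈ U 0 j n ∧ g ∈ U 0 j (n + 1)) →
      (∀ f ∈ A n, c * f ∈ U 0 j₀ (n + e)) → (n + e) * α < j₀ * β →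
      ∀ j, ∃ f, f ≠ 0 ∧ f ∈ U 0 j (n + e)

theorem st_CURVE2Z (k1 : K1 k) (k4 : K4 k p) (fi : St_Fill k) (sa : St_Sat k p) :
    St_CURVE2Z k p := by
  intro A η c N β e hη hc hN hβ he hmul h1 hr hpos
  obtain ⟨n, G, S, hn, hA, hG, hS, hS', hdg⟩ := k9_G k1 fi hη hc hN hβ he hmul h1 hr hpos
  refine ⟨n, hn, fun U α j₀ hmono hmulU hcar hηU hne hsucc hcA hj₀ j => ?_⟩
  obtain ⟨n', hn'⟩ := Int.eq_ofNat_of_zero_le (show 0 ≤ n + e by omega)
  obtain ⟨β, rfl⟩ := Int.eq_ofNat_of_zero_le hβ.le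
  rw [hn'] at hG hcA hj₀ ⊢
  have key : ∀ j', j₀ ≤ j' → LL G ≤ U 0 j' n' := by
    intro j' hj'
    induction j', hj' using Int.leInduction with
    | base =>
      intro h hh
      have := hcA _ (hA h hh)
      rwa [mul_div_cancel₀ _ hc] at this
    | succ j' hj' ih =>
      exact k9_step k1 k4 sa hmono hmulU hcar hη hN (by omega) (by exact_mod_cast hβ) hηU hne
        hsucc hG hS hS' hdg (lt_of_lt_of_le hj₀ (mul_le_mul_of_nonneg_right hj' hβ.le)) ih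
  obtain ⟨Q, -⟩ := k1.infty
  obtain ⟨f, hf0, hf, -⟩ := k1.exact_LL G Q (le_trans (by positivity) hdg.le)
  exact ⟨f, hf0, hmono _ _ _ _ (le_max_left j j₀) (key _ (le_max_right j j₀) hf)⟩

end Pool.Agent.Lib.MP_5f81cf_ag.Full
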