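import Pool.Agent.Lib.MP_5f81cf_ag.FAsE
import Pool.Agent.Lib.MP_5f81cf_ag.FCurI

/-! The connectedness block. -/

namespace Pool.Agent.Lib.MP_5f81cf_ag.Full

open Pool.Agent.Lib.MP_e06174_ag AsE

variable {k : Type} [Field k] [IsAlgClosed k] {p : ℕ} [Fact p.Prime] [CharP k p]

omit [CharP k p] in
theorem st_CONN (c2 : Car2 k p) (p1 : Pl1 k p) (p3 : Pl3 k p) (s32 : St_S32 k p)
    (adj : St_ADJ k p) (sat : St_SAT k p) (rs : St_RES k p) (cu : St_CURVE2Z k p) (ch : St_CH k) :
    St_CONN k p := by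
  intro R K T L _ _ _ _ _ _ _ _ _ _ _ _ _ _ _ _ _ _ _ _ _ S ρ s z q m hm V h N hS hq hN
    y₁ y₂ hy₁ hy₂ e₁ e₂
  classical
  by_contra hne
  have hess : Algebra.EssFiniteType k K := ess (R := R)
  have hpp : (0 : ℤ) < p := by exact_mod_cast (Fact.out : p.Prime).pos
  set x : Fin 3 → K := Fin.cons s z with hx
  set u : Fin 2 → L := fun i => ρ (z i) with hu
  set η : L := ρ (h / s ^ N) with hη
  obtain ⟨h2, hη0, hmem, hcar⟩ := s32 hS
  have hup : IsPB p u := h2.pb
  have hr : IsRes S ρ := hS.ad.res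
  have hs1 : S.ord s = 1 := hS.ad.ord
  have hinj : Function.Injective (algebraMap T L) := IsFractionRing.injective T L
  have hι : ∀ {τ : T}, τ ≠ 0 → algebraMap T L τ ≠ 0 := fun h0 h1 =>
    h0 (hinj (by rw [h1, map_zero]))
  have hηV : η ∈ resV k ρ s V N := (hmem N η).mpr ⟨h, hS.mem, rfl⟩
  obtain ⟨c0, hc0, hcond⟩ := hN.cond
  have hRV : ∀ r : R, algebraMap R K r ∈ V 0 := fun r =>
    (hS.zero _).mpr ⟨r, 1, fun h1 => hm.ne_top ((Ideal.eq_top_iff_one m).mpr h1), by simp⟩
  have hres0 : ∀ r : R, ρ (algebraMap R K r / s ^ 0) = algebraMap T L (algebraMap R T r) := by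
    intro r
    rw [pow_zero, div_one, hN.res]
  have hfrac : ∀ f ∈ V 0, ∃ a b : R, b ∉ m ∧ f * algebraMap R K b = algebraMap R K a ∧
      ρ (f / s ^ 0) * algebraMap T L (algebraMap R T b) = algebraMap T L (algebraMap R T a) := by
    intro f hf
    obtain ⟨a, b, hb, hab⟩ := (hS.zero f).mp hf
    refine ⟨a, b, hb, hab, ?_⟩
    rw [pow_zero, div_one, ← hN.res, ← hN.res, ← hab,
      hr.mul _ _ (by simpa using hS.ge 0 f hf) (hq b).1]
  have hc : ∃ c : L, c ≠ 0 ∧ ∀ τ : T, c * algebraMap T L τ ∈ resV k ρ s V 0 := by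
    refine ⟨_, hι hc0, fun τ => ?_⟩
    obtain ⟨r, hr'⟩ := hcond τ
    exact (hmem 0 _).mpr ⟨_, hRV r, by rw [hres0, hr', map_mul]⟩
  have klt : ∀ y : Ideal T, y.comap (algebraMap R T) = m → ∀ (F : Place k L) (q' : Ideal T),
      HasCentre F q' → q' ≤ y → IsDivisorial 2 F → F.ord η < N * lam k u F :=
    fun y hy F q' h1 h2 h3 => (adj hS hq hN F q' h1 h3 (hy ▸ Ideal.comap_mono h2)).1
  have heff : ∀ y : Ideal T, y.comap (algebraMap R T) = m → ∀ (F : Place k L) (q' : Ideal T),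
      HasCentre F q' → q' ≤ y → q'.height = 1 → N * (lam k u F - 1) ≤ F.ord η := by
    intro y hy F q' h1 h3 h4
    refine sat h2 hη0 hS.pos hηV hc F q' h1 h4 (fun g hg => ?_)
    obtain ⟨f, hf, rfl⟩ := (hmem 0 g).mp hg
    obtain ⟨a, b, hb, -, hab⟩ := hfrac f hf
    refine ge_of_mul h1 (b := algebraMap R T b) (fun h5 => hb ?_) (by rw [hab]; exact (h1 _).1)
    rw [← hy]
    exact h3 h5
  obtain ⟨E, ρE, t, zE, hE, hA, hX, hP⟩ := rs y₁ η N hup hη0 hS.pos (klt y₁ e₁) (heff y₁ e₁)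
  obtain ⟨F, ρF, tF, zF, hF, hAF, -, -⟩ := rs y₂ η N hup hη0 hS.pos (klt y₂ e₂) (heff y₂ e₂)
  have hEd : IsDivisorial 2 E := div_X p1 hA.res
  have hFd : IsDivisorial 2 F := div_X p1 hAF.res
  set e : ℤ := E.ord (algebraMap T L (algebraMap R T c0)) with he
  have he0 : 0 ≤ e := (hE _).1.le (hι hc0)
  set β : ℤ := N * lam k u E - E.ord η with hβ
  have hβ0 : 0 < β := by
    have := klt y₁ e₁ E y₁ hE le_rfl hEd
    omega
  obtain ⟨hcg, hcne⟩ := lc_ne p3 hup hA (m := 0) (n := e) (hι hc0) (by simp [he])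
  obtain ⟨hηg, hηne⟩ := lc_ne p3 hup hA (m := N) (n := -β) hη0 (by rw [hβ]; ring)
  have lcm0 : ∀ {n n' : ℤ} {f g : L}, E.Ge n f → E.Ge n' g →
      lc k u ρE t ![zE] 0 (n + n') (f * g) =
        lc k u ρE t ![zE] 0 n f * lc k u ρE t ![zE] 0 n' g :=
    fun hf hg => p3.lc_mul hup hA (m := 0) (m' := 0) (cge0.mpr hf) (cge0.mpr hg)
  obtain ⟨n, hn0, hU⟩ := cu (modA T p3 hup hA) _ _ N β e hηne hcne hS.pos hβ0 he0
    (by
      rintro n n' _ _ ⟨a, ha, rfl⟩ ⟨b, hb, rfl⟩
      exact ⟨a * b, by rw [map_mul]; exact ha.mul hb, by rw [map_mul, lcm0 ha hb]⟩)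
    ⟨1, by rw [map_one]; exact Place.ge_one, by rw [map_one, lc00, res_one hA.res]⟩
    (by
      obtain ⟨τ, hτ0, hτ⟩ := exists_pos hE
      obtain ⟨a, b, hb, hab⟩ := IsFractionRing.div_surjective (A := T) zE
      have hb0 : b ≠ 0 := nonZeroDivisors.ne_zero hb
      have h1 : algebraMap T L (b * τ) ≠ 0 := hι (mul_ne_zero hb0 hτ0)
      obtain ⟨h3, h4⟩ := lc_ne p3 hup hA (m := 0) (n := E.ord (algebraMap T L (b * τ))) h1
        (by simp)
      have h5 : E.Ge 0 zE := hA.ge 0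
      have h6 : algebraMap T L (a * τ) = zE * algebraMap T L (b * τ) := by
        rw [← hab, map_mul, map_mul]
        field_simp [hι hb0]
      refine ⟨_, _, ?_, h4, ⟨b * τ, cge0.mp h3, rfl⟩, ⟨a * τ, ?_, ?_⟩⟩
      · rw [map_mul, E.ord_mul (hι hb0) (hι hτ0)]
        have := (hE b).1.le (hι hb0)
        omega
      · rw [h6]
        exact h5.mul' (cge0.mp h3) (by simp)
      · have := lcm0 h5 (cge0.mp h3)
        rw [zero_add, lc00, hX] at this
        rw [h6, this])
    (by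
      intro P
      obtain ⟨a, σ, ha, h3, h4⟩ := hP P
      obtain ⟨h5, h6⟩ := lc_pow p3 hup hA hηg a
      have h7 : E.Ge (a * β) (algebraMap T L σ) := by
        rcases eq_or_ne σ 0 with rfl | hσ
        · simp
        have := Place.Ge.le h3 (mul_ne_zero (pow_ne_zero _ hη0) (hι hσ))
        rw [E.ord_mul (pow_ne_zero _ hη0) (hι hσ), E.ord_pow] at this
        refine Place.ge_of_le ?_
        rw [hβ]
        push_cast at this
        linarith
      refine ⟨a, _, ha, ⟨σ, h7, rfl⟩, ?_⟩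
      have h8 := p3.lc_mul hup hA h5 (cge0.mpr h7)
      rw [h6, add_zero, show (a : ℤ) * -β + a * β = 0 by ring] at h8
      rw [← h8]
      exact h4)
  set α : ℤ := N * lam k u F - F.ord η with hα
  obtain ⟨j₀, hj₀⟩ : ∃ j₀ : ℕ, (n + e) * α < j₀ * β := by
    refine ⟨((n + e) * α).natAbs + 1, ?_⟩
    have h3 : (n + e) * α ≤ (((n + e) * α).natAbs : ℤ) := Int.le_natAbs
    have h4 : (0 : ℤ) ≤ (((n + e) * α).natAbs : ℤ) := Int.natCast_nonneg _
    push_cast at h3 h4 ⊢
    nlinarith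
  obtain ⟨ε, hε₂, hε₁⟩ : ∃ ε ∈ y₂, ε - 1 ∈ y₁ := by
    have h3 : y₂ ⊔ y₁ = ⊤ := hy₂.coprime_of_ne hy₁ (Ne.symm hne)
    obtain ⟨a, ha, b, hb, hab⟩ := Submodule.mem_sup.mp ((Ideal.eq_top_iff_one _).mp h3)
    exact ⟨a, ha, by rw [← hab]; simpa using hb⟩
  have : IsNoetherianRing T := Algebra.FiniteType.isNoetherianRing k T
  let I : Ideal T :=
    { carrier := {τ | E.Ge n (algebraMap T L τ)}
      zero_mem' := by simp
      add_mem' := fun ha hb => by
        simp only [Set.mem_ofPred_eq, map_add] at *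
        exact ha.add hb
      smul_mem' := fun c a ha => by
        simp only [Set.mem_ofPred_eq, smul_eq_mul, map_mul] at *
        exact (hE c).1.mul' ha (by simp) }
  obtain ⟨G₀, hG₀⟩ := (IsNoetherian.noetherian I : I.FG)
  choose r hr' using hcond
  obtain ⟨w, hwd, hwc, hwh, hwG⟩ := (adj hS hq hN F y₂ hF hFd e₂.le).2
    (G₀.image fun τ => r (τ * ε ^ j₀))
  rw [e₂] at hwc
  obtain ⟨Lw, _, _, ρw, hρw⟩ := p1.exists_res w
  obtain ⟨tw, zw, hAw⟩ := p1.exists_adapt (d := 2) hS.pb hρw hwd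
  have hdiv : ∀ {m : ℕ} {f : K}, f ∈ V m → S.Ge 0 (f / s ^ m) := fun hf =>
    (ge_div hs1).mpr (by simpa using hS.ge _ _ hf)
  have hmemU : ∀ (r : R) (j n : ℤ), w.Ge j (algebraMap R K r) →
      E.Ge n (algebraMap T L (algebraMap R T r)) →
      lc k u ρE t ![zE] 0 n (algebraMap T L (algebraMap R T r)) ∈
        modU p3 hup hA hr hs1 hS.ge x w 0 j n := fun r j n h3 h4 =>
    ⟨_, hRV r, cge0.mpr h3, by rw [hres0]; exact cge0.mpr h4, by rw [hres0]⟩
  have hfin := hU (modU p3 hup hA hr hs1 hS.ge x w) α j₀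
    (by
      rintro m j j' n hj _ ⟨f, h3, h4, h5, rfl⟩
      exact ⟨f, h3, cge_mono h4 hj, h5, rfl⟩)
    (by
      rintro m j n m' j' n' _ _ ⟨f, h3, h4, h5, rfl⟩ ⟨g, h3', h4', h5', rfl⟩
      have e0 : ρ (f * g / s ^ (m + m')) = ρ (f / s ^ m) * ρ (g / s ^ m') := by
        rw [pow_add, mul_div_mul_comm, hr.mul _ _ (hdiv h3) (hdiv h3')]
      exact ⟨f * g, hS.mul _ _ _ _ h3 h3', cge_mul h4 h4', by rw [e0]; exact cge_mul h5 h5',
        by rw [e0, p3.lc_mul hup hA h5 h5']⟩)
    (by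
      rintro m m' j j' n _ hmm hj ⟨f, h3, h4, h5, rfl⟩
      have e0 := hcar m m' f hmm h3
      refine ⟨car p x f, hS.car m m' f hmm h3, p3.car_cge hS.pb hAw hmm hj h4, ?_, ?_⟩
      · rw [e0]
        exact p3.car_cge hup hA hmm (by linarith) h5
      · rw [e0, p3.lc_car hup hA hmm h5]
        congr 1
        funext i
        fin_cases i
        exact hX)
    ⟨h, hS.mem, Place.ge_of_le (by linarith), hηg, rfl⟩
    (by
      intro m
      obtain ⟨f, hf, hf'⟩ := hS.ne m
      have h3 : ρ (f / s ^ m) ≠ 0 := fun h0 =>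
        hf' (by simpa [add_comm] using (ge_div hs1).mp ((hr.zero _ (hdiv hf)).mp h0))
      obtain ⟨h4, h5⟩ := lc_ne p3 hup hA (m := m) h3 rfl
      exact ⟨_, _, _, h5, f, hf, cge_ord x m f, h4, rfl⟩)
    (by
      obtain ⟨a, b, hb, hab⟩ := IsFractionRing.div_surjective (A := T) t
      have hb0 : b ≠ 0 := nonZeroDivisors.ne_zero hb
      have ht1 := hA.ord
      have ha0 : a ≠ 0 := by
        rintro rfl
        rw [← hab] at ht1
        simp at ht1
      have h3 : algebraMap T L (algebraMap R T (r a)) ≠ 0 := hι (by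
        rw [hr']; exact mul_ne_zero hc0 ha0)
      have h4 : algebraMap T L (algebraMap R T (r b)) ≠ 0 := hι (by
        rw [hr']; exact mul_ne_zero hc0 hb0)
      have h5 : E.ord (algebraMap T L (algebraMap R T (r a))) =
          E.ord (algebraMap T L (algebraMap R T (r b))) + 1 := by
        rw [← hab, E.ord_div (hι ha0) (hι hb0)] at ht1
        rw [hr', hr', map_mul, map_mul, E.ord_mul (hι hc0) (hι ha0), E.ord_mul (hι hc0) (hι hb0)]
        omega
      obtain ⟨h6, h7⟩ := lc_ne p3 hup hA (m := 0)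
        (n := E.ord (algebraMap T L (algebraMap R T (r b)))) h4 (by simp)
      obtain ⟨h8, h9⟩ := lc_ne p3 hup hA (m := 0)
        (n := E.ord (algebraMap T L (algebraMap R T (r b))) + 1) h3 (by simp [h5])
      exact ⟨0, _, _, _, h7, h9, hmemU _ _ _ (hwc _).1 (cge0.mp h6),
        hmemU _ _ _ (hwc _).1 (cge0.mp h8)⟩)
    (by
      rintro _ ⟨τ, hτ, rfl⟩
      have hτI : τ ∈ Ideal.span (G₀ : Set T) := by
        rw [show Ideal.span (G₀ : Set T) = I from hG₀]
        exact hτ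
      have hsub : ∀ σ ∈ Ideal.span (G₀ : Set T), E.Ge n (algebraMap T L σ) := by
        intro σ hσ
        rw [show Ideal.span (G₀ : Set T) = I from hG₀] at hσ
        exact hσ
      clear hτ
      induction hτI using Submodule.span_induction with
      | mem τ hτG =>
        have hτ := hsub τ (Ideal.subset_span hτG)
        have h3 : E.Ge (n + e) (algebraMap T L (algebraMap R T c0) * algebraMap T L τ) :=
          (cge0.mp hcg).mul' hτ (by omega)
        have h4 : E.Ge 1 (algebraMap T L (ε ^ j₀ - 1)) :=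
          (hE _).2.mp (Ideal.mem_of_dvd _ (by simpa using sub_dvd_pow_sub_pow ε 1 j₀) hε₁)
        have h5 : E.Ge (n + e + 1) (algebraMap T L (algebraMap R T c0) * algebraMap T L τ *
            algebraMap T L (ε ^ j₀ - 1)) := h3.mul h4
        have h6 : algebraMap T L (algebraMap R T (r (τ * ε ^ j₀))) =
            algebraMap T L (algebraMap R T c0) * algebraMap T L τ +
              algebraMap T L (algebraMap R T c0) * algebraMap T L τ *
                algebraMap T L (ε ^ j₀ - 1) := by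
          rw [hr']
          simp only [map_mul, map_sub, map_one]
          ring
        have h7 := h5.mono (show n + e ≤ n + e + 1 by omega)
        have h8 : lc k u ρE t ![zE] 0 e (algebraMap T L (algebraMap R T c0)) *
            lc k u ρE t ![zE] 0 n (algebraMap T L τ) =
            lc k u ρE t ![zE] 0 (n + e) (algebraMap T L (algebraMap R T (r (τ * ε ^ j₀)))) := by
          rw [h6, p3.lc_add hup hA (cge0.mpr h3) (cge0.mpr h7),
            (p3.lc_eq_zero hup hA (cge0.mpr h7)).mpr (cge0.mpr h5), add_zero, add_comm n e,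
            lcm0 (cge0.mp hcg) hτ]
        rw [h8]
        rcases eq_or_ne (algebraMap R T (r (τ * ε ^ j₀))) 0 with h0 | h0
        · rw [h0, map_zero, lc_zero hA.res]
          exact Submodule.zero_mem _
        refine hmemU _ _ _ (Place.ge_of_le ?_) (by rw [h6]; exact h3.add h7)
        rw [hwG _ (Finset.mem_image_of_mem _ hτG) h0]
        refine Place.Ge.le ?_ (hι h0)
        rw [hr', map_mul, map_mul, map_pow]
        exact (hF _).1.mul' ((hF τ).1.mul (((hF ε).2.mp hε₂).pow j₀)) (by simp)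
      | zero =>
        rw [map_zero, lc_zero hA.res, mul_zero]
        exact Submodule.zero_mem _
      | add a b ha hb iha ihb =>
        rw [map_add, p3.lc_add hup hA (cge0.mpr (hsub a ha)) (cge0.mpr (hsub b hb)), mul_add]
        exact Submodule.add_mem _ iha ihb
      | smul σ a ha iha =>
        obtain ⟨c, hc'⟩ := const_mod (k := k) y₁ σ
        have h3 := hsub a ha
        have h4 : E.Ge (n + 1) (algebraMap T L (σ - algebraMap k T c) * algebraMap T L a) :=
          ((hE _).2.mp hc').mul' h3 (by omega)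
        have h5 := h4.mono (show n ≤ n + 1 by omega)
        have h6 : algebraMap T L (σ • a) = c • algebraMap T L a +
            algebraMap T L (σ - algebraMap k T c) * algebraMap T L a := by
          rw [smul_eq_mul, map_mul, map_sub, ← IsScalarTower.algebraMap_apply, Algebra.smul_def]
          ring
        rw [h6, p3.lc_add hup hA (cge0.mpr (h3.smul c)) (cge0.mpr h5),
          (p3.lc_eq_zero hup hA (cge0.mpr h5)).mpr (cge0.mpr h4), add_zero,
          p3.lc_smul hup hA c (cge0.mpr h3), mul_smul_comm]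
        exact Submodule.smul_mem _ c iha)
    hj₀
  obtain ⟨j, hj⟩ := ch (d := 3) m w (c2.trdeg_eq hS.pb) hwc hwd (n + e + 1).toNat
  obtain ⟨_, hg0, f, hf, h3, h4, rfl⟩ := hfin j
  obtain ⟨a, b, hb, hab, hab'⟩ := hfrac f hf
  have h5 : a ∈ m ^ (n + e + 1).toNat := hj a (by
    rw [← hab]
    exact (cge0.mp h3).mul' (hwc b).1 (by simp))
  have h6 : algebraMap R T a ∈ y₁ ^ (n + e + 1).toNat := by
    have h7 := Ideal.mem_map_of_mem (algebraMap R T) h5
    rw [Ideal.map_pow] at h7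
    exact Ideal.pow_right_mono (Ideal.map_le_iff_le_comap.mpr e₁.ge) _ h7
  have h8 := ge_of_mem_pow hE _ _ h6
  rw [← hab'] at h8
  have h9 := ge_of_mul hE (b := algebraMap R T b) (fun h0 => hb (by rw [← e₁]; exact h0)) h8
  exact hg0 ((p3.lc_eq_zero hup hA h4).mpr (cge0.mpr (h9.mono (by omega))))

end Pool.Agent.Lib.MP_5f81cf_ag.Full
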