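import Pool.Agent.Lib.MP_5f81cf_ag.FBlue6

/-! The anti-log-canonical system of a plt germ. -/

namespace Pool.Agent.Lib.MP_5f81cf_ag.Full

open Pool.Agent.Lib.MP_e06174_ag

variable {k : Type} [Field k] {p : ℕ} [Fact p.Prime]

section

variable {R K : Type} [CommRing R] [Field K] [Algebra k K] [Algebra R K]

lemma sys_prime {E : Place k K} {q : Ideal R} (h : HasCentre E q) : q.IsPrime := by
  refine ⟨?_, ?_⟩
  · intro hq
    have h1 : E.Ge 1 (algebraMap R K 1) := (h 1).2.1 (by simp [hq])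
    rw [map_one, Place.ge_iff one_ne_zero] at h1
    simp at h1
  · intro a b hab
    by_contra hc
    push Not at hc
    have ha := Place.not_ge_iff.1 (fun h' => hc.1 ((h a).2.2 h'))
    have hb := Place.not_ge_iff.1 (fun h' => hc.2 ((h b).2.2 h'))
    have h1 := (h (a * b)).2.1 hab
    rw [map_mul, Place.ge_iff (mul_ne_zero ha.1 hb.1), E.ord_mul ha.1 hb.1] at h1
    omega

lemma sys_unit {E : Place k K} {q : Ideal R} (h : HasCentre E q) {b : R} (hb : b ∉ q) :
    algebraMap R K b ≠ 0 ∧ E.ord (algebraMap R K b) = 0 := by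
  have h1 := Place.not_ge_iff.1 (fun h' => hb ((h b).2.2 h'))
  have h2 := (h b).1.le h1.1
  exact ⟨h1.1, by omega⟩

lemma sys_frac {E : Place k K} {q : Ideal R} (h : HasCentre E q) {a b : R} (hb : b ∉ q) {f : K}
    (hf : f * algebraMap R K b = algebraMap R K a) : E.Ge 0 f := by
  obtain ⟨h1, h2⟩ := sys_unit h hb
  by_cases h0 : f = 0
  · simp [h0]
  have h3 := (h a).1
  rw [← hf, Place.ge_iff (mul_ne_zero h0 h1), E.ord_mul h0 h1] at h3
  exact Place.ge_of_le (by omega)

variable (k) in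
/-- The sections of `-n (K + S)` near `m`. -/
def sysV (x : Fin 3 → K) (S : Place k K) (m : Ideal R) (n : ℕ) : Submodule k K where
  carrier := {f | S.Ge n f ∧ ∀ (F : Place k K) (q : Ideal R), HasCentre F q → q.height = 1 →
    q ≤ m → F ≠ S → CGe x F n (-n) f}
  add_mem' := fun ha hb => ⟨ha.1.add hb.1, fun F q h1 h2 h3 h4 =>
    Place.Ge.add (ha.2 F q h1 h2 h3 h4) (hb.2 F q h1 h2 h3 h4)⟩
  zero_mem' := ⟨by simp, fun F q _ _ _ _ => by simp [CGe]⟩
  smul_mem' := fun c _ ha => ⟨ha.1.smul c, fun F q h1 h2 h3 h4 =>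
    Place.Ge.smul (ha.2 F q h1 h2 h3 h4) c⟩

lemma mem_sysV {x : Fin 3 → K} {S : Place k K} {m : Ideal R} {n : ℕ} {f : K} :
    f ∈ sysV k x S m n ↔ S.Ge n f ∧ ∀ (F : Place k K) (q : Ideal R), HasCentre F q →
      q.height = 1 → q ≤ m → F ≠ S → F.Ge (-n + n * lam k x F) f := Iff.rfl

end

section

variable {R K : Type} [CommRing R] [IsDomain R] [IsNoetherianRing R] [IsIntegrallyClosed R]
  [Algebra k R] [Field K] [Algebra k K] [Algebra R K] [IsScalarTower k R K] [IsFractionRing R K]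

lemma sys_avoid (a1 : Ca1 k) {S F : Place k K} {q q' : Ideal R} (hS : HasCentre S q)
    (hq : q.height = 1) (hF : HasCentre F q') (hq' : q'.height = 1) (hne : F ≠ S) :
    ∃ r : R, r ∉ q ∧ F.Ge 1 (algebraMap R K r) := by
  have := sys_prime hS
  have := sys_prime hF
  by_contra hc
  push Not at hc
  have hle : q' ≤ q := fun r hr => by
    by_contra h
    exact hc r h ((hF r).2.1 hr)
  have heq : q' = q := by
    by_contra h
    have := Ideal.height_strict_mono_of_isPrime (lt_of_le_of_ne hle h)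
    rw [hq, hq'] at this
    exact lt_irrefl _ this
  subst heq
  refine hne (Place.ext_of_ge fun f hf => ?_)
  obtain ⟨a, b, hb, hab⟩ := a1.loc hF hq' f hf
  exact sys_frac hS hb hab

lemma sys_avoid_fin (a1 : Ca1 k) {S : Place k K} {q : Ideal R} (hS : HasCentre S q)
    (hq : q.height = 1) {B : Set (Place k K)} (hB : B.Finite)
    (h : ∀ F ∈ B, ∃ q' : Ideal R, HasCentre F q' ∧ q'.height = 1) :
    ∃ r : R, r ∉ q ∧ ∀ F ∈ B, F ≠ S → F.Ge 1 (algebraMap R K r) := by
  have hp := sys_prime hS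
  induction B, hB using Set.Finite.induction_on with
  | empty => exact ⟨1, (Ideal.ne_top_iff_one q).1 hp.ne_top, by simp⟩
  | @insert F B _ _ ih =>
    obtain ⟨r, hr, hr'⟩ := ih fun G hG => h G (Or.inr hG)
    by_cases hFS : F = S
    · refine ⟨r, hr, ?_⟩
      rintro G (rfl | hG) hne
      · exact absurd hFS hne
      · exact hr' G hG hne
    obtain ⟨q', hF, hq'⟩ := h F (Or.inl rfl)
    obtain ⟨r', h1, h2⟩ := sys_avoid a1 hS hq hF hq' hFS
    refine ⟨r * r', fun hm => (hp.mem_or_mem hm).elim hr h1, ?_⟩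
    rintro G (rfl | hG) hne
    · rw [map_mul]; exact (hF r).1.mul' h2 (by omega)
    · obtain ⟨q'', hG', -⟩ := h G (Or.inr hG)
      rw [map_mul]; exact (hr' G hG hne).mul' (hG' r').1 (by omega)

lemma sys_ne (a1 : Ca1 k) {x : Fin 3 → K} {S : Place k K} {q m : Ideal R} (hS : HasCentre S q)
    (hq : q.height = 1) {s h : K} (hs : S.ord s = 1) {N : ℕ} (hN : 0 < N) (hh : h ≠ 0)
    (hm : h ∈ sysV k x S m N) (n : ℕ) : ∃ f ∈ sysV k x S m n, ¬ S.Ge (n + 1) f := by
  have hs0 : s ≠ 0 := by rintro rfl; simp at hs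
  have hB := (a1.finite (R := R) h).union (a1.finite (R := R) s)
  obtain ⟨r, hr, hr'⟩ := sys_avoid_fin a1 hS hq hB (by rintro F (hF | hF) <;> exact hF.1)
  obtain ⟨M, hM⟩ := (hB.image fun F => -n + n * lam k x F - n * F.ord s).bddAbove
  obtain ⟨hr0, hr1⟩ := sys_unit hS hr
  have hf0 : s ^ n * algebraMap R K r ^ M.toNat ≠ 0 :=
    mul_ne_zero (pow_ne_zero _ hs0) (pow_ne_zero _ hr0)
  have hord : ∀ F : Place k K, F.ord (s ^ n * algebraMap R K r ^ M.toNat) =
      n * F.ord s + M.toNat * F.ord (algebraMap R K r) := fun F => by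
    rw [F.ord_mul (pow_ne_zero _ hs0) (pow_ne_zero _ hr0)]; simp
  refine ⟨s ^ n * algebraMap R K r ^ M.toNat, mem_sysV.2 ⟨?_, ?_⟩, ?_⟩
  · rw [Place.ge_iff hf0, hord, hs, hr1]; simp
  · intro F q' hF hq' hle hne
    rw [Place.ge_iff hf0, hord]
    by_cases hc : F.ord h = 0 ∧ F.ord s = 0
    · have h1 := ((mem_sysV.1 hm).2 F q' hF hq' hle hne).le hh
      have h2 := (hF r).1.le hr0
      rw [hc.1] at h1
      have h3 : lam k x F ≤ 1 := by
        by_contra h4
        have : (0 : ℤ) < N * (lam k x F - 1) := mul_pos (by exact_mod_cast hN) (by omega)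
        linarith
      have h5 : (0 : ℤ) ≤ n * (1 - lam k x F) := mul_nonneg (by positivity) (by omega)
      have h6 : (0 : ℤ) ≤ M.toNat * F.ord (algebraMap R K r) := mul_nonneg (by positivity) h2
      rw [hc.2]; linarith
    · have hFB : F ∈ {E : Place k K | (∃ q : Ideal R, HasCentre E q ∧ q.height = 1) ∧
          E.ord h ≠ 0} ∪ {E : Place k K | (∃ q : Ideal R, HasCentre E q ∧ q.height = 1) ∧
          E.ord s ≠ 0} := by
        by_cases h1 : F.ord h = 0
        · exact Or.inr ⟨⟨q', hF, hq'⟩, fun h2 => hc ⟨h1, h2⟩⟩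
        · exact Or.inl ⟨⟨q', hF, hq'⟩, h1⟩
      have h1 := hM ⟨F, hFB, rfl⟩
      have h2 := (hr' F hFB hne).le hr0
      have h3 : (M.toNat : ℤ) * 1 ≤ M.toNat * F.ord (algebraMap R K r) :=
        mul_le_mul_of_nonneg_left h2 (by positivity)
      have h4 := Int.self_le_toNat M
      simp only at h1
      linarith
  · rw [Place.ge_iff hf0, hord, hs, hr1]; simp

end

theorem st_SYS (c1 : Car1 k p) (c2 : Car2 k p) (p1 : Pl1 k p) (p2 : Pl2 k p) (p3 : Pl3 k p)
    (p4 : Pl4 k p) (a1 : Ca1 k) (a2 : Ca2 k) : St_SYS k p := by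
  intro R K L _ _ _ _ _ _ _ _ _ _ _ _ S ρ q m _ htr hS hq hqm hρ hplt
  obtain ⟨Δ, ω, N, h, hΔ, hΔS, hω, hN, hh, hE⟩ := hplt
  have : IsNoetherianRing R := Algebra.FiniteType.isNoetherianRing k R
  have : Algebra.EssFiniteType R K := Algebra.EssFiniteType.of_isLocalization K (nonZeroDivisors R)
  have : Algebra.EssFiniteType k K := Algebra.EssFiniteType.comp k R K
  have htr' : Algebra.trdeg k K = (3 : ℕ) := by simpa using htr
  obtain ⟨x0, hx0⟩ := c2.exists_pb htr'
  have hdiv : ∀ (F : Place k K) (q' : Ideal R), HasCentre F q' → q'.height = 1 →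
      IsDivisorial 3 F := fun F q' h1 h2 => a2.div_of_height htr' h1 h2
  obtain ⟨s, z, had⟩ := p1.exists_adapt (d := 2) hx0 hρ (hdiv S q hS hq)
  have hx : IsPB p (Fin.cons s z : Fin 3 → K) := p2.adapt_pb hx0 had
  have hlam : lam k (Fin.cons s z : Fin 3 → K) S = 1 := by
    rw [p2.lam_eq hx had, c1.jac_self hx]; simp
  obtain ⟨f, hf⟩ := p4.span hx ω
  have hf0 : f ≠ 0 := by rintro rfl; exact hω (by simpa using hf)
  have hform : ∀ F : Place k K, IsDivisorial 3 F →
      formOrd 3 F ω = F.ord f + lam k (Fin.cons s z : Fin 3 → K) F - 1 := by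
    intro F hF
    obtain ⟨L', _, _, ρ', hρ'⟩ := p1.exists_res F
    obtain ⟨t, z', had'⟩ := p1.exists_adapt (d := 2) hx hρ' hF
    rw [hf]
    exact p4.formOrd_eq hx had' f hf0
  have hh' : h / f ^ N ≠ 0 := div_ne_zero hh (pow_ne_zero _ hf0)
  have hord : ∀ F : Place k K, F.ord (h / f ^ N) = F.ord h - N * F.ord f := fun F => by
    rw [F.ord_div hh (pow_ne_zero _ hf0)]; simp
  have hNq : (0 : ℚ) < N := by exact_mod_cast hN
  have hSh : S.ord (h / f ^ N) = N := by
    have h1 := (hE S q hS hqm).1 hq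
    rw [hform S (hdiv S q hS hq), hlam, hΔS] at h1
    rw [hord]
    have : (S.ord h : ℚ) - N * S.ord f = N := by rw [h1]; push_cast; ring
    exact_mod_cast this
  have hmem : h / f ^ N ∈ sysV k (Fin.cons s z : Fin 3 → K) S m N := by
    refine mem_sysV.2 ⟨Place.ge_of_le hSh.ge, fun F q' h1 h2 h3 _ => Place.ge_of_le ?_⟩
    have h4 := (hE F q' h1 h3).1 h2
    rw [hform F (hdiv F q' h1 h2)] at h4
    rw [hord]
    have h5 := mul_nonneg hNq.le (hΔ F)
    have : -(N : ℚ) + N * lam k (Fin.cons s z : Fin 3 → K) F ≤ F.ord h - N * F.ord f := by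
      rw [h4]; push_cast; linarith
    exact_mod_cast this
  refine ⟨s, z, sysV k (Fin.cons s z) S m, h / f ^ N, N, hx, had, ?_, ?_, ?_, ?_, ?_, ?_, hN,
    hmem, ?_, ?_⟩
  · exact mem_sysV.2 ⟨by simpa using Place.ge_one, fun F _ _ _ _ _ => by simpa using Place.ge_one⟩
  · intro n n' g g' hg hg'
    rw [mem_sysV] at hg hg' ⊢
    refine ⟨hg.1.mul' hg'.1 (by push_cast; rfl), fun F q' h1 h2 h3 h4 =>
      (hg.2 F q' h1 h2 h3 h4).mul' (hg'.2 F q' h1 h2 h3 h4) (by push_cast; linarith)⟩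
  · intro n n' g hn hg
    rw [mem_sysV] at hg ⊢
    have hp : (0 : ℤ) < p := by exact_mod_cast (Fact.out : p.Prime).pos
    constructor
    · have h1 : CGe (Fin.cons s z : Fin 3 → K) S n' 0 g := by
        simpa [CGe, hlam] using hg.1
      have h2 := p3.car_cge (n := 0) hx had hn (by linarith) h1
      simpa [CGe, hlam] using h2
    · intro F q' h1 h2 h3 h4
      obtain ⟨L', _, _, ρ', hρ'⟩ := p1.exists_res F
      obtain ⟨t, z', had'⟩ := p1.exists_adapt (d := 2) hx hρ' (hdiv F q' h1 h2)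
      have h5 : (n' : ℤ) + 1 = p * (n + 1) := by exact_mod_cast hn
      exact p3.car_cge (n := -n) (n' := -n') hx had' hn (by linarith) (hg.2 F q' h1 h2 h3 h4)
  · exact fun n g hg => (mem_sysV.1 hg).1
  · exact sys_ne a1 hS hq had.ord hN hh' hmem
  · intro g
    rw [mem_sysV]
    constructor
    · intro hg
      refine a1.hartogs m g fun F q' h1 h2 h3 => ?_
      by_cases h4 : F = S
      · subst h4; simpa using hg.1
      · simpa using hg.2 F q' h1 h2 h3 h4
    · rintro ⟨a, b, hb, hab⟩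
      exact ⟨by simpa using sys_frac hS (fun h' => hb (hqm h')) hab, fun F q' h1 _ h3 _ => by
        simpa using sys_frac h1 (fun h' => hb (h3 h')) hab⟩
  · rw [Place.ge_iff hh', hSh]; omega
  · intro w q' h1 h2 h3 h4
    have h5 := (hE w q' h1 h2).2 h3 h4
    rw [hform w h4] at h5
    rw [hord]
    have h6 : (w.ord h : ℚ) / N < w.ord f + lam k (Fin.cons s z : Fin 3 → K) w := by
      push_cast at h5; linarith
    rw [div_lt_iff₀ hNq] at h6
    have : (w.ord h : ℚ) - N * w.ord f < N * lam k (Fin.cons s z : Fin 3 → K) w := by linarith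
    exact_mod_cast this

end Pool.Agent.Lib.MP_5f81cf_ag.Full
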