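import Pool.Agent.Lib.MP_5f81cf_ag.FBlue6

/-! Block MAIN: the affine theorem. -/

namespace Pool.Agent.Lib.MP_5f81cf_ag.Full

open Pool.Agent.Lib.MP_e06174_ag

namespace MAIN

variable {k : Type} [Field k]

/-- The residue map of a place whose valuation ring is a localisation of `R`. -/
lemma exists_res {R K L : Type} [CommRing R] [Algebra k R] [Field K] [Algebra k K] [Algebra R K]
    [IsScalarTower k R K] [Field L] [Algebra k L] {S : Place k K} {q : Ideal R} (hS : HasCentre S q)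
    (hi : Function.Injective (algebraMap R K)) (ψ : R →+* L) (hq : ∀ r, ψ r = 0 ↔ r ∈ q)
    (hk : ∀ c : k, ψ (algebraMap k R c) = algebraMap k L c)
    (loc : ∀ f : K, S.Ge 0 f → ∃ a b : R, b ∉ q ∧ f * algebraMap R K b = algebraMap R K a)
    (hs : ∀ l : L, ∃ a b : R, b ∉ q ∧ l * ψ b = ψ a) :
    ∃ ρ : K → L, IsRes S ρ ∧ ∀ r, ρ (algebraMap R K r) = ψ r := by
  classical
  let ρ : K → L := fun f =>
    if h : ∃ x : R × R, x.2 ∉ q ∧ f * algebraMap R K x.2 = algebraMap R K x.1 then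
      ψ h.choose.1 / ψ h.choose.2 else 0
  have hρ : ∀ {f : K} {a b : R}, b ∉ q → f * algebraMap R K b = algebraMap R K a → ρ f = ψ a / ψ b := by
    intro f a b hb h
    have h1 : ∃ x : R × R, x.2 ∉ q ∧ f * algebraMap R K x.2 = algebraMap R K x.1 := ⟨(a, b), hb, h⟩
    obtain ⟨h2, h3⟩ := h1.choose_spec
    simp only [ρ, dif_pos h1]
    rw [div_eq_div_iff ((hq _).not.2 h2) ((hq _).not.2 hb), ← map_mul, ← map_mul]
    congr 1
    apply hi
    simp only [map_mul]
    linear_combination algebraMap R K h1.choose.2 * h - algebraMap R K b * h3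
  have hp := hS.isPrime
  have one : (1 : R) ∉ q := (Ideal.ne_top_iff_one q).1 hp.ne_top
  have hR : ∀ r, ρ (algebraMap R K r) = ψ r := fun r => by
    simpa using hρ (f := algebraMap R K r) (a := r) one (by simp)
  have nm : ∀ {b b' : R}, b ∉ q → b' ∉ q → b * b' ∉ q := fun h h' h'' => (hp.mem_or_mem h'').elim h h'
  have unit : ∀ {f : K} {a b : R} (n : ℤ), b ∉ q → f * algebraMap R K b = algebraMap R K a →
      (S.Ge n f ↔ S.Ge n (algebraMap R K a)) := by
    intro f a b n hb h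
    obtain ⟨h1, h2⟩ := hS.ord_eq hb
    by_cases hf : f = 0
    · rw [← h, hf]
      simp
    · rw [← h, Place.ge_iff hf, Place.ge_iff (mul_ne_zero hf h1), S.ord_mul hf h1, h2, add_zero]
  refine ⟨ρ, ⟨?_, ?_, ?_, ?_, ?_⟩, hR⟩
  · intro f g hf hg
    obtain ⟨a, b, h1, h2⟩ := loc f hf
    obtain ⟨a', b', h3, h4⟩ := loc g hg
    have n1 := (hq _).not.2 h1
    have n3 := (hq _).not.2 h3
    rw [hρ h1 h2, hρ h3 h4, hρ (a := a * b' + a' * b) (nm h1 h3)]
    · simp only [map_mul, map_add]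
      field_simp
    · simp only [map_mul, map_add]
      linear_combination algebraMap R K b' * h2 + algebraMap R K b * h4
  · intro f g hf hg
    obtain ⟨a, b, h1, h2⟩ := loc f hf
    obtain ⟨a', b', h3, h4⟩ := loc g hg
    have n1 := (hq _).not.2 h1
    have n3 := (hq _).not.2 h3
    rw [hρ h1 h2, hρ h3 h4, hρ (a := a * a') (nm h1 h3)]
    · simp only [map_mul]
      field_simp
    · simp only [map_mul]
      linear_combination (g * algebraMap R K b') * h2 + algebraMap R K a * h4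
  · intro c
    rw [IsScalarTower.algebraMap_apply k R K, hR, hk]
  · intro f hf
    obtain ⟨a, b, h1, h2⟩ := loc f hf
    rw [hρ h1 h2, div_eq_zero_iff, or_iff_left ((hq _).not.2 h1), hq, (hS a).2, unit 1 h1 h2]
  · intro l
    obtain ⟨a, b, hb, h⟩ := hs l
    have h1 := div_mul_cancel₀ (algebraMap R K a) (hS.ord_eq hb).1
    refine ⟨_, (unit 0 hb h1).2 (hS a).1, ?_⟩
    rw [hρ hb h1, ← h, mul_div_cancel_right₀ _ ((hq _).not.2 hb)]

/-- A common denominator. -/
lemma cond {R T : Type} [CommRing R] [CommRing T] [IsDomain T] [Algebra R T] [Module.Finite R T]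
    (h : ∀ t : T, ∃ a b : R, algebraMap R T b ≠ 0 ∧ algebraMap R T a = algebraMap R T b * t) :
    ∃ c : R, algebraMap R T c ≠ 0 ∧ ∀ t : T, ∃ r : R, algebraMap R T r = algebraMap R T c * t := by
  classical
  obtain ⟨s, hs⟩ := Module.Finite.fg_top (R := R) (M := T)
  choose a b hb hab using h
  refine ⟨∏ t ∈ s, b t, by rw [map_prod]; exact Finset.prod_ne_zero_iff.2 fun t _ => hb t, fun t => ?_⟩
  have ht : t ∈ Submodule.span R (s : Set T) := hs ▸ Submodule.mem_top
  induction ht using Submodule.span_induction with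
  | mem x hx =>
    refine ⟨(∏ t ∈ s.erase x, b t) * a x, ?_⟩
    rw [← Finset.prod_erase_mul s b hx, map_mul, map_mul, hab, mul_assoc]
  | zero => exact ⟨0, by simp⟩
  | add x y _ _ hx hy =>
    obtain ⟨r, hr⟩ := hx
    obtain ⟨r', hr'⟩ := hy
    exact ⟨r + r', by rw [map_add, hr, hr', mul_add]⟩
  | smul c x _ hx =>
    obtain ⟨r, hr⟩ := hx
    exact ⟨c * r, by rw [map_mul, hr, Algebra.smul_def]; ring⟩

lemma exists_const [IsAlgClosed k] {T : Type} [CommRing T] [Algebra k T] [Algebra.FiniteType k T]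
    (y : Ideal T) [y.IsMaximal] (t : T) : ∃ c : k, t - algebraMap k T c ∈ y := by
  let := Ideal.Quotient.field y
  have := finite_of_finite_type_of_isJacobsonRing k (T ⧸ y)
  obtain ⟨c, hc⟩ := (IsAlgClosed.algebraMap_bijective_of_isIntegral (k := k) (K := T ⧸ y)).2
    (Ideal.Quotient.mk y t)
  exact ⟨c, Ideal.Quotient.eq.1 hc.symm⟩

variable [IsAlgClosed k] {p : ℕ} [Fact p.Prime]

lemma surj (a1 : Ca1 k) (sy : St_SYS k p) (s32 : St_S32 k p) (adj : St_ADJ k p) (st : St_ST k p)
    (cn : St_CONN k p) {R K T L : Type} [CommRing R] [IsDomain R] [IsIntegrallyClosed R] [Algebra k R]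
    [Algebra.FiniteType k R] [Field K] [Algebra k K] [Algebra R K] [IsScalarTower k R K]
    [IsFractionRing R K] [CommRing T] [IsDomain T] [IsIntegrallyClosed T] [Algebra k T]
    [Algebra.FiniteType k T] [Algebra R T] [IsScalarTower k R T] [Module.Finite R T] [Field L] [Algebra k L]
    [Algebra T L] [IsScalarTower k T L] [IsFractionRing T L] {S : Place k K} {q : Ideal R}
    (h3 : Algebra.trdeg k K = 3) (hS : HasCentre S q) (hq : q.height = 1)
    (hplt : ∀ m : Ideal R, m.IsMaximal → q ≤ m → PltAt k S m) (hker : ∀ r, algebraMap R T r = 0 ↔ r ∈ q)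
    (hs : ∀ l : L, ∃ a b : R, b ∉ q ∧
      l * algebraMap T L (algebraMap R T b) = algebraMap T L (algebraMap R T a)) :
    Function.Surjective (algebraMap R T) := by
  have : IsNoetherianRing R := Algebra.FiniteType.isNoetherianRing k R
  have iT := IsFractionRing.injective T L
  obtain ⟨ρ, hρ, hR⟩ := exists_res (k := k) hS (IsFractionRing.injective R K)
    ((algebraMap T L).comp (algebraMap R T))
    (fun r => by rw [RingHom.comp_apply, map_eq_zero_iff _ iT, hker])
    (fun c => by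
      rw [RingHom.comp_apply, ← IsScalarTower.algebraMap_apply k R T, ← IsScalarTower.algebraMap_apply k T L])
    (a1.loc hS hq) hs
  simp only [RingHom.comp_apply] at hR
  have hc := cond (R := R) (T := T) fun t => by
    obtain ⟨a, b, hb, h⟩ := hs (algebraMap T L t)
    exact ⟨a, b, (hker b).not.2 hb, iT (by rw [map_mul, mul_comm, h])⟩
  have nrm : Nrm (R := R) (T := T) ρ := ⟨hR, hc⟩
  intro t
  let J : Ideal R :=
    { carrier := {r | ∃ r' : R, algebraMap R T r' = algebraMap R T r * t}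
      add_mem' := by
        rintro a b ⟨a', ha⟩ ⟨b', hb⟩
        exact ⟨a' + b', by rw [map_add, map_add, ha, hb, add_mul]⟩
      zero_mem' := ⟨0, by simp⟩
      smul_mem' := by
        rintro c a ⟨a', ha⟩
        exact ⟨c * a', by rw [smul_eq_mul, map_mul, map_mul, ha, mul_assoc]⟩ }
  by_cases hJ : J = ⊤
  · obtain ⟨r, hr⟩ : (1 : R) ∈ J := hJ ▸ Submodule.mem_top
    exact ⟨r, by simpa using hr⟩
  exfalso
  obtain ⟨m, hm, hJm⟩ := Ideal.exists_le_maximal J hJ
  have hqm : q ≤ m := fun r hr => hJm ⟨0, by rw [(hker r).2 hr]; simp⟩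
  obtain ⟨s, z, V, h, N, sys⟩ := sy h3 hS hq hqm hρ (hplt m hm hqm)
  obtain ⟨s2, hη, hV, -⟩ := s32 sys
  obtain ⟨y, hy, hym⟩ := Ideal.exists_ideal_over_maximal_of_isIntegral (S := T) m
    fun r hr => hqm ((hker r).1 hr)
  have one : (1 : R) ∉ m := (Ideal.ne_top_iff_one m).1 hm.ne_top
  have V0 : ∀ f ∈ resV k ρ s V 0, ∃ a b : R, b ∉ m ∧
      f * algebraMap T L (algebraMap R T b) = algebraMap T L (algebraMap R T a) := by
    intro f hf
    obtain ⟨g, hg, rfl⟩ := (hV 0 f).1 hf
    obtain ⟨a, b, hb, e⟩ := (sys.zero g).1 hg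
    refine ⟨a, b, hb, ?_⟩
    rw [pow_zero, div_one, ← hR, ← hR, ← e, hρ.mul _ _ (by simpa using sys.ge 0 g hg) (hS b).1]
  obtain ⟨b, hb, hby⟩ := st y s2 hη sys.pos ((hV N _).2 ⟨h, sys.mem, rfl⟩)
    (by
      obtain ⟨c, c0, hc⟩ := hc
      refine ⟨algebraMap T L (algebraMap R T c), by rwa [Ne, map_eq_zero_iff _ iT], fun t => ?_⟩
      obtain ⟨r, hr⟩ := hc t
      refine (hV 0 _).2 ⟨algebraMap R K r, (sys.zero _).2 ⟨r, 1, one, by simp⟩, ?_⟩
      rw [pow_zero, div_one, hR, hr, map_mul])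
    (by
      intro f hf
      obtain ⟨a, b, hb, e⟩ := V0 f hf
      exact ⟨_, _, fun h' => hb (hym ▸ Ideal.mem_comap.2 h'), e⟩)
    (fun F q' hF hq' hd => (adj sys hS nrm F q' hF hd (hym ▸ Ideal.comap_mono hq')).1)
  obtain ⟨r, hr, hrm⟩ : ∃ r ∈ (Ideal.span {b}).comap (algebraMap R T), r ∉ m := by
    by_contra hcon
    push Not at hcon
    obtain ⟨Q, h1, h2, h4⟩ := Ideal.exists_ideal_over_prime_of_isIntegral m (Ideal.span {b}) hcon
    have := Ideal.isMaximal_of_isIntegral_of_isMaximal_comap (R := R) Q (h4.symm ▸ hm)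
    have e := cn sys hS nrm Q y h4 hym
    exact hb (e ▸ h1 (Ideal.mem_span_singleton_self b))
  obtain ⟨b', hb'⟩ := Ideal.mem_span_singleton'.1 (Ideal.mem_comap.1 hr)
  obtain ⟨c, hc'⟩ := exists_const (k := k) y t
  obtain ⟨a, d, hd, e⟩ := V0 _ (hby _ (y.mul_mem_left b' hc'))
  rw [← map_mul] at e
  have e' := iT e
  have : d * r ∈ J := ⟨a + d * r * algebraMap k R c, by
    rw [map_add, map_mul, map_mul, ← IsScalarTower.algebraMap_apply, ← e', ← hb']
    ring⟩
  exact (hm.isPrime.mem_or_mem (hJm this)).elim hd hrm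

end MAIN

theorem st_MAIN {k : Type} [Field k] [IsAlgClosed k] {p : ℕ} [Fact p.Prime] (_c2 : Car2 k p) (a1 : Ca1 k)
    (a2 : Ca2 k) (sy : St_SYS k p) (s32 : St_S32 k p) (adj : St_ADJ k p) (st : St_ST k p)
    (cn : St_CONN k p) : St_MAIN k := by
  intro R K _ _ _ _ _ _ _ _ _ _ S q h3 hS hq hplt
  have := hS.isPrime
  let L := FractionRing (R ⧸ q)
  let T := integralClosure (R ⧸ q) L
  have : Algebra.EssFiniteType (R ⧸ q) L :=
    Algebra.EssFiniteType.of_isLocalization L (nonZeroDivisors (R ⧸ q))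
  have : Algebra.EssFiniteType k L := Algebra.EssFiniteType.comp k (R ⧸ q) L
  have : Algebra.IsAlgebraic (R ⧸ q) L := IsLocalization.isAlgebraic L (nonZeroDivisors (R ⧸ q))
  have : Module.Finite (R ⧸ q) T := a2.finite_norm
  have : Module.Finite R T := Module.Finite.trans (R ⧸ q) T
  have : IsIntegrallyClosed T := integralClosure.isIntegrallyClosedOfFiniteExtension L
  have : IsFractionRing T L := integralClosure.isFractionRing_of_finite_extension L L
  have : Algebra.FiniteType k T := Algebra.FiniteType.trans (S := R ⧸ q) inferInstance inferInstance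
  have e : ∀ r : R, algebraMap T L (algebraMap R T r) = algebraMap (R ⧸ q) L (Ideal.Quotient.mk q r) :=
    fun _ => rfl
  have key := MAIN.surj a1 sy s32 adj st cn (T := T) (L := L) h3 hS hq hplt
    (fun r => by
      rw [← map_eq_zero_iff _ (IsFractionRing.injective T L), e,
        map_eq_zero_iff _ (IsFractionRing.injective (R ⧸ q) L), Ideal.Quotient.eq_zero_iff_mem])
    (fun l => by
      obtain ⟨a, b, hb, rfl⟩ := IsFractionRing.div_surjective (A := R ⧸ q) l
      obtain ⟨a, rfl⟩ := Ideal.Quotient.mk_surjective a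
      obtain ⟨b, rfl⟩ := Ideal.Quotient.mk_surjective b
      have h0 := nonZeroDivisors.ne_zero hb
      refine ⟨a, b, fun h => h0 (Ideal.Quotient.eq_zero_iff_mem.2 h), ?_⟩
      rw [e, e]
      exact div_mul_cancel₀ _ ((map_ne_zero_iff _ (IsFractionRing.injective (R ⧸ q) L)).2 h0))
  rw [isIntegrallyClosed_iff L]
  intro x hx
  obtain ⟨r, hr⟩ := key ⟨x, hx⟩
  exact ⟨Ideal.Quotient.mk q r, by rw [← e, hr]; rfl⟩

end Pool.Agent.Lib.MP_5f81cf_ag.Full
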