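import Pool.Agent.Lib.MP_5f81cf_ag.FBlue4

/-! Parameters adapted to a divisorial valuation. -/

namespace Pool.Agent.Lib.MP_5f81cf_ag.Full

open Pool.Agent.Lib.MP_e06174_ag MvPolynomial

section Avoid

lemma h1_avoid {k R ι : Type} [Field k] [Infinite k] [AddCommGroup R] [Module k R] [Finite ι]
    (M : Submodule k R) (U : ι → Submodule k R) (hU : ∀ j, ¬ M ≤ U j) (g : R) :
    ∃ b ∈ M, ∀ j, g + b ∉ U j := by
  let φ : (k × M) →ₗ[k] R := (LinearMap.toSpanSingleton k R g).coprod M.subtype
  let W : Option ι → Submodule k (k × M) := fun o =>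
    o.elim (LinearMap.ker (LinearMap.fst k k M)) fun j => (U j).comap φ
  have hW : ∀ o, W o ≠ ⊤ := by
    rintro (_ | j) h
    · have : ((1 : k), (0 : M)) ∈ W none := h ▸ Submodule.mem_top
      simp [W] at this
    · refine hU j fun b hb => ?_
      have : ((0 : k), (⟨b, hb⟩ : M)) ∈ W (some j) := h ▸ Submodule.mem_top
      simpa [W, φ] using this
  obtain ⟨⟨c, b⟩, hx⟩ := Submodule.exists_forall_notMem_of_forall_ne_top W hW
  have hc : c ≠ 0 := by simpa [W] using hx none
  refine ⟨c⁻¹ • (b : R), M.smul_mem _ b.2, fun j hj => hx (some j) ?_⟩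
  have := (U j).smul_mem c hj
  rw [smul_add, smul_inv_smul₀ hc] at this
  simpa [W, φ] using this

end Avoid

section Poly

variable {k K : Type} [Field k] [Field K] [Algebra k K] {σ : Type}

lemma h1_aeval_smul [Fintype σ] {P : MvPolynomial σ k} {r : ℕ} (hP : P.IsHomogeneous r) (t : K)
    (u : σ → K) : aeval (fun i => t * u i) P = t ^ r * aeval u P := by
  conv_lhs => rw [P.as_sum, map_sum]
  conv_rhs => rw [P.as_sum, map_sum, Finset.mul_sum]
  refine Finset.sum_congr rfl fun e he => ?_
  have h1 : ∑ i, e i = r := by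
    by_contra h
    exact mem_support_iff.mp he (hP.coeff_eq_zero (by rwa [Finsupp.degree_eq_sum]))
  rw [aeval_monomial, aeval_monomial, Finsupp.prod_fintype _ _ (fun _ => pow_zero _),
    Finsupp.prod_fintype _ _ (fun _ => pow_zero _)]
  simp only [mul_pow, Finset.prod_mul_distrib, Finset.prod_pow_eq_pow_sum, h1]
  ring

lemma h1_dehom [Infinite k] {d : ℕ} {P : MvPolynomial (Fin (d + 1)) k} {r : ℕ}
    (hP : P.IsHomogeneous r) (h0 : P ≠ 0) :
    aeval (Fin.cons 1 X : Fin (d + 1) → MvPolynomial (Fin d) k) P ≠ 0 := by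
  intro h
  refine mul_ne_zero (X_ne_zero (0 : Fin (d + 1))) h0 (MvPolynomial.funext fun x => ?_)
  rw [map_mul, eval_X, map_zero]
  rcases eq_or_ne (x 0) 0 with hx | hx
  · rw [hx, zero_mul]
  · have h1 := congrArg (aeval fun i : Fin d => x i.succ / x 0) h
    rw [map_zero, ← AlgHom.comp_apply, comp_aeval] at h1
    have h2 := h1_aeval_smul hP (x 0) fun i =>
      aeval (fun i : Fin d => x i.succ / x 0)
        ((Fin.cons 1 X : Fin (d + 1) → MvPolynomial (Fin d) k) i)
    rw [h1, mul_zero] at h2
    have h3 : (fun i => x 0 * aeval (fun i : Fin d => x i.succ / x 0)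
        ((Fin.cons 1 X : Fin (d + 1) → MvPolynomial (Fin d) k) i)) = x := by
      funext i
      refine Fin.cases ?_ (fun j => ?_) i
      · simp
      · simp [mul_div_cancel₀ _ hx]
    rw [h3] at h2
    rw [← coe_aeval_eq_eval, RingHom.coe_coe, h2, mul_zero]

lemma h1_aeval_ge (w : Place k K) {u A : σ → K} (hA : ∀ i, w.Ge 0 (A i))
    (hu : ∀ i, w.Ge 1 (u i - A i)) (P : MvPolynomial σ k) :
    w.Ge 0 (aeval u P) ∧ w.Ge 1 (aeval u P - aeval A P) := by
  have hu0 : ∀ i, w.Ge 0 (u i) := fun i => by
    simpa using ((hu i).mono zero_le_one).add (hA i)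
  induction P using MvPolynomial.induction_on with
  | C c => simpa using Place.ge_const c
  | add P Q hP hQ =>
    refine ⟨by simpa using hP.1.add hQ.1, ?_⟩
    have := hP.2.add hQ.2
    rw [map_add, map_add]
    convert this using 1
    ring
  | mul_X P i hP =>
    refine ⟨by simpa using hP.1.mul (hu0 i), ?_⟩
    have := (hP.1.mul' (hu i) (l := 1) (by simp)).add (hP.2.mul' (hA i) (l := 1) (by simp))
    rw [map_mul, map_mul, aeval_X, aeval_X]
    convert this using 1
    ring

lemma h1_val [Infinite k] (w : Place k K) {d : ℕ} {a : Fin d → K}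
    (ha : ∀ P : MvPolynomial (Fin d) k, P ≠ 0 → w.v (aeval a P) = 1) {t : K} (ht : t ≠ 0)
    (he : 1 ≤ w.ord t) {u : Fin (d + 1) → K}
    (hu : ∀ i, w.Ge 1 (u i - (Fin.cons 1 a : Fin (d + 1) → K) i)) (n : ℕ)
    (P : MvPolynomial (Fin (d + 1)) k) (hP : w.Ge (n * w.ord t) (aeval (fun i => t * u i) P)) :
    P ∈ idealOfVars (Fin (d + 1)) k ^ n := by
  classical
  have hA : ∀ i, w.Ge 0 ((Fin.cons 1 a : Fin (d + 1) → K) i) := by
    intro i
    refine Fin.cases ?_ (fun j => ?_) i
    · simpa using Place.ge_one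
    · have := ha (X j) (X_ne_zero j)
      rw [aeval_X] at this
      simpa using Place.ge_zero_iff.mpr this.le
  by_contra hn
  rw [mem_pow_idealOfVars_iff'] at hn
  push Not at hn
  obtain ⟨e, he1, he2⟩ := hn
  have hex : ∃ r, homogeneousComponent r P ≠ 0 := ⟨e.degree, fun h => he2 <| by
    simpa [coeff_homogeneousComponent] using congrArg (coeff e) h⟩
  set r := Nat.find hex with hr
  have hr1 : homogeneousComponent r P ≠ 0 := Nat.find_spec hex
  have hr2 : r < n := lt_of_le_of_lt (Nat.find_min' hex fun h => he2 <| by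
    simpa [coeff_homogeneousComponent] using congrArg (coeff e) h) he1
  have hr3 : r ∈ Finset.range (P.totalDegree + 1) := by
    rw [Finset.mem_range, Nat.lt_succ_iff]
    by_contra h
    exact hr1 (homogeneousComponent_eq_zero _ _ (not_le.mp h))
  have hterm : ∀ s, aeval (fun i => t * u i) (homogeneousComponent s P) =
      t ^ s * aeval u (homogeneousComponent s P) := fun s =>
    h1_aeval_smul (homogeneousComponent_isHomogeneous s P) t u
  have hrest : w.Ge (r * w.ord t + 1) (∑ s ∈ (Finset.range (P.totalDegree + 1)).erase r,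
      aeval (fun i => t * u i) (homogeneousComponent s P)) := by
    refine Place.Ge.sum fun s hs => ?_
    rcases lt_or_gt_of_ne (Finset.ne_of_mem_erase hs) with h | h
    · have : homogeneousComponent s P = 0 := by simpa using Nat.find_min hex h
      simp [this]
    · rw [hterm]
      refine ((Place.ge_ord t).pow s).mul' (h1_aeval_ge w hA hu _).1 ?_
      have : (r : ℤ) + 1 ≤ s := by exact_mod_cast h
      nlinarith
  have hsum : aeval (fun i => t * u i) P = t ^ r * aeval u (homogeneousComponent r P) +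
      ∑ s ∈ (Finset.range (P.totalDegree + 1)).erase r,
        aeval (fun i => t * u i) (homogeneousComponent s P) := by
    conv_lhs => rw [← sum_homogeneousComponent P, map_sum]
    rw [← hterm, Finset.add_sum_erase _ (fun s => aeval (fun i => t * u i)
      (homogeneousComponent s P)) hr3]
  have hmain : w.Ge (r * w.ord t + 1) (t ^ r * aeval u (homogeneousComponent r P)) := by
    have h1 : w.Ge (r * w.ord t + 1) (aeval (fun i => t * u i) P) := by
      refine hP.mono ?_
      have : (r : ℤ) + 1 ≤ n := by exact_mod_cast hr2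
      nlinarith
    have := h1.sub hrest
    rwa [hsum, add_sub_cancel_right] at this
  have h2 : w.Ge 1 (aeval u (homogeneousComponent r P)) := by
    have := hmain.mul' (Place.ge_ord (t ^ r)⁻¹) (l := 1) (by simp)
    rwa [mul_right_comm, mul_inv_cancel₀ (pow_ne_zero r ht), one_mul] at this
  have h3 := h2.sub (h1_aeval_ge w hA hu (homogeneousComponent r P)).2
  rw [sub_sub_cancel, Place.ge_one_iff] at h3
  have h4 := ha _ (h1_dehom (homogeneousComponent_isHomogeneous r P) hr1)
  rw [← AlgHom.comp_apply, comp_aeval] at h4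
  have h5 : (fun i => aeval a ((Fin.cons 1 X : Fin (d + 1) → MvPolynomial (Fin d) k) i)) =
      (Fin.cons 1 a : Fin (d + 1) → K) := by
    funext i
    refine Fin.cases ?_ (fun j => ?_) i <;> simp
  rw [h5] at h4
  exact h3.ne h4

end Poly

section Main

variable {k : Type} [Field k] [IsAlgClosed k] {p : ℕ} [Fact p.Prime] [CharP k p]
  {R K : Type} [CommRing R] [IsDomain R] [Algebra k R] [Field K] [Algebra k K] [Algebra R K]
  [IsScalarTower k R K] [IsFractionRing R K] {d : ℕ}

/-- The gradient with respect to `x`. -/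
noncomputable def h1grad (k : Type) [Field k] {K : Type} [Field K] [Algebra k K] {d : ℕ}
    (x : Fin d → K) : K →ₗ[k] (Fin d → K) :=
  LinearMap.pi fun j => (pd k x j).toLinearMap

omit [IsAlgClosed k] in
lemma h1_not_le (c1 : Car1 k p) {x : Fin d → K} (hx : IsPB p x) {J : Ideal R} (hJ : J ≠ ⊥)
    {W : Submodule K (Fin d → K)} (hW : W ≠ ⊤) :
    ¬ J.restrictScalars k ≤ (W.restrictScalars k).comap
      ((h1grad k x).comp (IsScalarTower.toAlgHom k R K).toLinearMap) := by
  have : CharP K p := charP_of_injective_algebraMap (algebraMap k K).injective p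
  intro h
  obtain ⟨b, hb, hb0⟩ := Submodule.exists_mem_ne_zero_of_ne_bot hJ
  have hb1 : algebraMap R K b ≠ 0 := by simpa using hb0
  have h1 : ∀ r : R, h1grad k x (algebraMap R K r) ∈ W := by
    intro r
    have h2 : b ^ p * r ∈ J := J.mul_mem_right _ (J.pow_mem_of_mem hb _ (Fact.out : p.Prime).pos)
    have h3 : h1grad k x (algebraMap R K (b ^ p * r)) ∈ W := h h2
    have h4 : h1grad k x (algebraMap R K (b ^ p * r)) =
        algebraMap R K b ^ p • h1grad k x (algebraMap R K r) := by
      funext j
      simp [h1grad, Derivation.leibniz, Derivation.leibniz_pow]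
    rw [h4] at h3
    exact (W.smul_mem_iff (pow_ne_zero p hb1)).mp h3
  have h5 : ∀ y : K, h1grad k x y ∈ W := by
    intro y
    obtain ⟨r, s, hs, rfl⟩ := IsFractionRing.div_surjective R y
    have hs1 : algebraMap R K s ≠ 0 := by simpa using nonZeroDivisors.ne_zero hs
    have h6 : algebraMap R K s • h1grad k x (algebraMap R K r / algebraMap R K s) =
        h1grad k x (algebraMap R K r) -
          (algebraMap R K r / algebraMap R K s) • h1grad k x (algebraMap R K s) := by
      funext j
      have := (pd k x j).leibniz (algebraMap R K s) (algebraMap R K r / algebraMap R K s)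
      rw [mul_div_cancel₀ _ hs1] at this
      simp [h1grad, this]
    exact (W.smul_mem_iff hs1).mp (h6 ▸ W.sub_mem (h1 r) (W.smul_mem _ (h1 s)))
  refine hW (eq_top_iff.mpr fun v _ => ?_)
  rw [← Finset.univ_sum_single v]
  refine W.sum_mem fun j _ => ?_
  have h7 : (Pi.single j (v j) : Fin d → K) = v j • h1grad k x (x j) := by
    funext i
    simp only [h1grad, Pi.smul_apply, LinearMap.pi_apply, Derivation.coeFn_coe, c1.pd_x hx,
      Pi.single_apply, smul_eq_mul, mul_ite, mul_one, mul_zero, eq_comm]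
  exact h7 ▸ W.smul_mem _ (h5 _)

lemma h1_induct [IsNoetherianRing R] (c1 : Car1 k p) {x : Fin d → K} (hx : IsPB p x)
    (m : Ideal R) [m.IsPrime] (hm : m ≠ ⊥) (hh : m.height = d) (N : ℕ) (g : Fin d → R)
    (S : Finset (Fin d)) : ∃ f : Fin d → R, (∀ j, f j - g j ∈ m ^ N) ∧
      (∀ Q : Ideal R, Q.IsPrime → Q ≤ m → (∀ j ∈ S, f j ∈ Q) → (S.card : ℕ∞) ≤ Q.height) ∧
      LinearIndepOn K (fun j => h1grad k x (algebraMap R K (f j))) S := by
  classical
  induction S using Finset.induction_on with
  | empty => exact ⟨g, by simp, by simp, by simp⟩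
  | insert a S ha ih =>
    obtain ⟨f, hf1, hf2, hf3⟩ := ih
    have hcard : S.card + 1 ≤ d := by
      simpa [Finset.card_insert_of_notMem ha] using Finset.card_le_univ (insert a S)
    let W : Submodule K (Fin d → K) :=
      Submodule.span K ((fun j => h1grad k x (algebraMap R K (f j))) '' S)
    have hW : W ≠ ⊤ := by
      intro h
      have h1 := finrank_span_finset_le_card (R := K)
        (S.image fun j => h1grad k x (algebraMap R K (f j)))
      rw [Set.finrank, Finset.coe_image] at h1
      change Module.finrank K W ≤ _ at h1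
      rw [h, finrank_top, Module.finrank_fin_fun] at h1
      have := h1.trans Finset.card_image_le
      omega
    let T := {P : Ideal R // P ∈ (Ideal.span (f '' S)).minimalPrimes ∧ P ≤ m ∧ P ≠ m}
    have : Finite T :=
      ((Ideal.finite_minimalPrimes_of_isNoetherianRing R (Ideal.span (f '' S))).subset
        fun P hP => hP.1 : Set.Finite {P | P ∈ (Ideal.span (f '' S)).minimalPrimes ∧ P ≤ m ∧
          P ≠ m})
    let U : Option T → Submodule k R := fun o => o.elim ((W.restrictScalars k).comap
      ((h1grad k x).comp (IsScalarTower.toAlgHom k R K).toLinearMap))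
      fun P => P.1.restrictScalars k
    have hU : ∀ o, ¬ (m ^ N).restrictScalars k ≤ U o := by
      rintro (_ | P)
      · exact h1_not_le c1 hx (pow_ne_zero N hm) hW
      · intro h
        have := P.2.1.1.1
        exact P.2.2.2 (le_antisymm P.2.2.1 (Ideal.IsPrime.le_of_pow_le (n := N) fun r hr => h hr))
    obtain ⟨b, hb, hb'⟩ := h1_avoid _ U hU (g a)
    have hup : ∀ j ∈ S, Function.update f a (g a + b) j = f j := fun j hj =>
      Function.update_of_ne (ne_of_mem_of_not_mem hj ha) _ _
    refine ⟨Function.update f a (g a + b), fun j => ?_, fun Q hQ hQm hQf => ?_, ?_⟩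
    · rcases eq_or_ne j a with rfl | hj
      · simpa using hb
      · rw [Function.update_of_ne hj]; exact hf1 j
    · have h1 : Ideal.span (f '' S) ≤ Q := by
        rw [Ideal.span_le]
        rintro _ ⟨j, hj, rfl⟩
        exact hup j hj ▸ hQf j (Finset.mem_insert_of_mem hj)
      obtain ⟨P, hP, hPQ⟩ := Ideal.exists_minimalPrimes_le h1
      have := hP.1.1
      rw [Finset.card_insert_of_notMem ha]
      rcases eq_or_ne P m with rfl | hne
      · rw [le_antisymm hQm hPQ, hh]
        exact_mod_cast hcard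
      · have h2 : g a + b ∉ P := hb' (some ⟨P, hP, hPQ.trans hQm, hne⟩)
        have h3 : g a + b ∈ Q := by simpa using hQf a (Finset.mem_insert_self a S)
        have h4 : P < Q := lt_of_le_of_ne hPQ fun h => h2 (h ▸ h3)
        have h5 := hf2 P this (hPQ.trans hQm) fun j hj =>
          hP.1.2 (Ideal.subset_span ⟨j, hj, rfl⟩)
        refine le_trans ?_ (Ideal.height_add_one_le_of_lt_of_isPrime h4)
        push_cast
        gcongr
    · have h1 : Set.EqOn (fun j => h1grad k x (algebraMap R K (f j)))
          (fun j => h1grad k x (algebraMap R K (Function.update f a (g a + b) j))) S :=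
        fun j hj => by simp only [hup j hj]
      rw [Finset.coe_insert, linearIndepOn_insert (by simpa using ha)]
      refine ⟨hf3.congr h1, ?_⟩
      rw [← h1.image_eq, Function.update_self]
      exact hb' none

end Main

variable {k : Type} [Field k] [IsAlgClosed k] {p : ℕ} [Fact p.Prime] [CharP k p]

theorem st_H1 (c1 : Car1 k p) (c2 : Car2 k p) (a2 : Ca2 k) : St_H1 k p := by
  intro R K _ _ _ _ _ _ _ _ _ d m hmax w hd hw hdiv
  have : IsNoetherianRing R := Algebra.FiniteType.isNoetherianRing k R
  have : Algebra.EssFiniteType R K := Algebra.EssFiniteType.of_isLocalization K (nonZeroDivisors R)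
  have : Algebra.EssFiniteType k K := Algebra.EssFiniteType.comp k R K
  have hinj : ∀ r : R, r ≠ 0 → algebraMap R K r ≠ 0 := fun r hr => by simpa using hr
  obtain ⟨x, hx⟩ := c2.exists_pb hd
  have hdR : Algebra.trdeg k R = d := by
    have : Algebra.IsAlgebraic R K := IsLocalization.isAlgebraic K (nonZeroDivisors R)
    have h1 := trdeg_add_eq k R (A := K)
    rw [trdeg_eq_zero (R := R) (A := K), add_zero] at h1
    rw [h1, hd]
  have hq : Algebra.trdeg k (R ⧸ m) = (0 : ℕ) := by
    let _ := Ideal.Quotient.field m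
    have : Module.Finite k (R ⧸ m) := finite_of_finite_type_of_isJacobsonRing k (R ⧸ m)
    simpa using trdeg_eq_zero (R := k) (A := R ⧸ m)
  have hh : m.height = d := by simpa using (a2.height_add m hdR hq).2
  obtain ⟨r₀, hr₀, hr₀'⟩ : ∃ r : R, r ≠ 0 ∧ 1 ≤ w.ord (algebraMap R K r) := by
    obtain ⟨π, h0, h1⟩ := w.exists_ord_eq_one
    obtain ⟨r, s, hs, rfl⟩ := IsFractionRing.div_surjective R π
    have hr : r ≠ 0 := by rintro rfl; simp at h0
    have hs1 := hinj s (nonZeroDivisors.ne_zero hs)
    rw [w.ord_div (hinj r hr) hs1] at h1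
    have := (hw s).1.le hs1
    exact ⟨r, hr, by omega⟩
  have hm : m ≠ ⊥ := fun h => hr₀ (by simpa [h] using (hw r₀).2.mpr (Place.ge_of_le hr₀'))
  obtain ⟨d, rfl⟩ : ∃ d', d = d' + 1 := by
    refine Nat.exists_eq_succ_of_ne_zero ?_
    rintro rfl
    have := Ideal.height_add_one_le_of_lt_of_isPrime (bot_lt_iff_ne_bot.mpr hm)
    rw [hh] at this
    simp at this
  obtain ⟨a, ha⟩ : ∃ a : Fin d → K, ∀ P : MvPolynomial (Fin d) k, P ≠ 0 →
    w.v (aeval a P) = 1 := hdiv
  obtain ⟨s, hs⟩ := IsLocalization.exist_integer_multiples_of_finite (nonZeroDivisors R)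
    (Fin.cons 1 a : Fin (d + 1) → K)
  choose g₀ hg₀ using hs
  have hs1 := hinj s (nonZeroDivisors.ne_zero s.2)
  set t : K := algebraMap R K r₀ * algebraMap R K s with htdef
  have ht : t ≠ 0 := mul_ne_zero (hinj r₀ hr₀) hs1
  have he : 1 ≤ w.ord t := by
    rw [htdef, w.ord_mul (hinj r₀ hr₀) hs1]
    have := (hw s).1.le hs1
    omega
  have hg : ∀ i, algebraMap R K (r₀ * g₀ i) = t * (Fin.cons 1 a : Fin (d + 1) → K) i := by
    intro i
    rw [map_mul, hg₀, Algebra.smul_def, htdef, mul_assoc]
  have hpow : ∀ (N : ℕ) (b : R), b ∈ m ^ N → w.Ge N (algebraMap R K b) := by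
    intro N
    induction N with
    | zero => exact fun b _ => by simpa using (hw b).1
    | succ N ih =>
      intro b hb
      rw [pow_succ] at hb
      refine Submodule.mul_induction_on hb (fun y hy z hz => ?_) fun y z hy hz => ?_
      · rw [map_mul]
        exact (ih y hy).mul' ((hw z).2.mp hz) (by simp)
      · rw [map_add]
        exact hy.add hz
  obtain ⟨f, hf1, hf2, hf3⟩ := h1_induct c1 hx m hm hh ((w.ord t).toNat + 1)
    (fun i => r₀ * g₀ i) Finset.univ
  refine ⟨f, ?_, ?_, fun n => ⟨n * w.ord t, fun P hP => ?_⟩⟩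
  · rw [c1.pb_iff hx]
    rw [Finset.coe_univ, linearIndepOn_univ_iff] at hf3
    have h1 : IsUnit (Matrix.of fun i j => pd k x j (algebraMap R K (f i))) :=
      Matrix.linearIndependent_rows_iff_isUnit.mp hf3
    exact ((Matrix.isUnit_iff_isUnit_det _).mp h1).ne_zero
  · refine ⟨⟨hmax.isPrime, ?_⟩, fun Q hQ hQm => ?_⟩
    · rw [Ideal.span_le]
      rintro _ ⟨i, rfl⟩
      have h1 := Ideal.pow_le_self (Nat.succ_ne_zero _) (hf1 i)
      have h2 : r₀ * g₀ i ∈ m := m.mul_mem_right _ ((hw r₀).2.mpr (Place.ge_of_le hr₀'))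
      simpa using m.add_mem h1 h2
    · have := hQ.1
      by_contra hne
      have h1 : Q < m := lt_of_le_of_ne hQm fun h => hne h.ge
      have h2 := hf2 Q hQ.1 hQm fun j _ => hQ.2 (Ideal.subset_span ⟨j, rfl⟩)
      have h3 := Ideal.height_add_one_le_of_lt_of_isPrime h1
      rw [hh] at h3
      rw [Finset.card_univ, Fintype.card_fin] at h2
      have h4 : ((d + 1 : ℕ) : ℕ∞) + 1 ≤ (d + 1 : ℕ) := le_trans (by gcongr) h3
      norm_cast at h4
      omega
  · refine h1_val w ha ht he (u := fun i => algebraMap R K (f i) / t) (fun i => ?_) n P ?_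
    · have h1 := (hpow _ _ (hf1 i)).mul' (Place.ge_ord t⁻¹) (l := 1) (by simp; omega)
      rw [map_sub, hg] at h1
      convert h1 using 1
      field_simp
    · have h1 : (fun i => t * (algebraMap R K (f i) / t)) = fun i => algebraMap R K (f i) :=
        funext fun i => mul_div_cancel₀ _ ht
      rw [h1]
      rwa [← aeval_algebraMap_apply] at hP

end Pool.Agent.Lib.MP_5f81cf_ag.Full
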