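import Pool.Agent.Lib.MP_5f81cf_ag.FBlue4

/-! Block H3: power series over polynomials. -/

namespace Pool.Agent.Lib.MP_5f81cf_ag.Full

open MvPowerSeries

variable {k : Type} [Field k] {d : ℕ}

lemma h3_alg (a : PA k d) : algebraMap (PA k d) (PS k d) a = (a : PS k d) := by
  rw [MvPowerSeries.algebraMap_apply']
  simp

lemma h3_mem_iff (n : ℕ) (φ : PS k d) :
    φ ∈ (PI k d ^ n).map (algebraMap (PA k d) (PS k d)) ↔
      ∀ x : Fin d →₀ ℕ, x.degree < n → coeff x φ = 0 := by
  classical
  constructor
  · intro h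
    let J : Ideal (PS k d) :=
      { carrier := {φ | ∀ x : Fin d →₀ ℕ, x.degree < n → coeff x φ = 0}
        add_mem' := fun {a b} ha hb x hx => by rw [map_add, ha x hx, hb x hx, add_zero]
        zero_mem' := fun x _ => by simp
        smul_mem' := fun c a ha x hx => by
          rw [smul_eq_mul, coeff_mul]
          refine Finset.sum_eq_zero fun y hy => ?_
          have h1 : y.1 + y.2 = x := by simpa using hy
          have h2 : y.2.degree ≤ x.degree := by rw [← h1, map_add]; omega
          rw [ha y.2 (by omega), mul_zero] }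
    have : (PI k d ^ n).map (algebraMap (PA k d) (PS k d)) ≤ J := by
      rw [Ideal.map_le_iff_le_comap]
      intro a ha x hx
      rw [h3_alg, MvPolynomial.coeff_coe]
      exact (MvPolynomial.mem_pow_idealOfVars_iff' n a).mp ha x hx
    exact this h
  · intro h
    choose! s hs1 hs2 using fun y : Fin d →₀ ℕ => Finsupp.exists_le_degree_eq y n
    let T : Finset (Fin d →₀ ℕ) := (Finsupp.finite_of_degree_eq n).toFinset
    let ψ : (Fin d →₀ ℕ) → PS k d := fun t x => if s (x + t) = t then coeff (x + t) φ else 0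
    have e : φ = ∑ t ∈ T, monomial t (1 : k) * ψ t := by
      ext y
      rw [map_sum]
      simp only [coeff_monomial_mul, one_mul]
      by_cases hy : n ≤ y.degree
      · rw [Finset.sum_eq_single (s y)]
        · rw [if_pos (hs1 y hy)]
          change _ = if s (y - s y + s y) = s y then coeff (y - s y + s y) φ else 0
          rw [tsub_add_cancel_of_le (hs1 y hy), if_pos rfl]
        · intro t _ hne
          split_ifs with ht
          · change (if s (y - t + t) = t then coeff (y - t + t) φ else 0) = 0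
            rw [tsub_add_cancel_of_le ht, if_neg hne.symm]
          · rfl
        · intro hn
          exact absurd (by simpa [T] using hs2 y hy) hn
      · rw [h y (by omega)]
        symm
        refine Finset.sum_eq_zero fun t ht => if_neg fun hle => hy ?_
        have h1 : t.degree = n := by simpa [T] using ht
        rw [← h1]
        exact Finsupp.degree_mono hle
    rw [e]
    refine Ideal.sum_mem _ fun t ht => Ideal.mul_mem_right _ _ ?_
    rw [← MvPolynomial.coe_monomial, ← h3_alg]
    refine Ideal.mem_map_of_mem _ ?_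
    rw [MvPolynomial.monomial_mem_pow_idealOfVars_iff n t one_ne_zero]
    have h1 : t.degree = n := by simpa [T] using ht
    exact h1.ge

variable {p : ℕ} [hp : Fact p.Prime]

/-- The exponent vector attached to `α`. -/
noncomputable def h3mono (α : Fin d → Fin p) : Fin d →₀ ℕ :=
  Finsupp.equivFunOnFinite.symm fun i => (α i : ℕ)

omit hp in
lemma h3mono_apply (α : Fin d → Fin p) (i : Fin d) : h3mono α i = α i := rfl

omit hp in
lemma h3_prod (α : Fin d → Fin p) :
    (∏ i, MvPolynomial.X i ^ (α i : ℕ) : PA k d) = MvPolynomial.monomial (h3mono α) 1 := by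
  rw [MvPolynomial.monomial_eq, map_one, one_mul, Finsupp.prod_fintype _ _ (by simp)]
  rfl

lemma h3_decomp (m : Fin d →₀ ℕ) : ∃ (b : Fin d →₀ ℕ) (β : Fin d → Fin p),
    m = p • b + h3mono β := by
  refine ⟨m.mapRange (fun a => a / p) (by simp), fun i => ⟨m i % p, Nat.mod_lt _ hp.out.pos⟩, ?_⟩
  ext i
  simp [h3mono_apply, Nat.div_add_mod]

variable [CharP k p]

lemma h3_coeff (c : (Fin d → Fin p) → PS k d) (b : Fin d →₀ ℕ) (β : Fin d → Fin p) :
    coeff (p • b + h3mono β) (∑ α, c α ^ p *
      algebraMap (PA k d) (PS k d) (∏ i, MvPolynomial.X i ^ (α i : ℕ))) = coeff b (c β) ^ p := by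
  classical
  have hp0 : p ≠ 0 := hp.out.ne_zero
  rw [map_sum, Finset.sum_eq_single β]
  · rw [h3_prod, h3_alg, MvPolynomial.coe_monomial, coeff_mul_monomial, if_pos le_add_self,
      add_tsub_cancel_right, mul_one, ← map_frobenius_expand p hp0, coeff_map, coeff_expand_smul,
      frobenius_def]
  · intro α _ hne
    rw [h3_prod, h3_alg, MvPolynomial.coe_monomial, coeff_mul_monomial]
    split_ifs with hle
    · obtain ⟨i, hi⟩ := Function.ne_iff.mp hne
      rw [mul_one, ← map_frobenius_expand p hp0, coeff_map,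
        coeff_expand_of_not_dvd p hp0 _ (i := i), map_zero]
      rintro ⟨t, ht⟩
      have h1 := hle i
      simp only [Finsupp.coe_tsub, Finsupp.coe_add, Finsupp.coe_smul, Pi.sub_apply, Pi.add_apply,
        Pi.smul_apply, smul_eq_mul, h3mono_apply] at ht h1
      have h2 : p * b i + (β i : ℕ) = p * t + α i := by omega
      have h3 := congrArg (· % p) h2
      simp only [Nat.mul_add_mod, Nat.mod_eq_of_lt (α i).2, Nat.mod_eq_of_lt (β i).2] at h3
      exact hi (Fin.ext h3.symm)
    · rfl
  · simp

lemma h3_unique {c c' : (Fin d → Fin p) → PS k d}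
    (h : ∑ α, c α ^ p * algebraMap (PA k d) (PS k d) (∏ i, MvPolynomial.X i ^ (α i : ℕ)) =
      ∑ α, c' α ^ p * algebraMap (PA k d) (PS k d) (∏ i, MvPolynomial.X i ^ (α i : ℕ))) :
    c = c' := by
  ext β b
  have h1 := congrArg (coeff (p • b + h3mono β)) h
  rw [h3_coeff, h3_coeff] at h1
  exact frobenius_inj k p h1

variable [IsAlgClosed k]

lemma h3_exists (φ : PS k d) : ∃ c : (Fin d → Fin p) → PS k d,
    φ = ∑ α, c α ^ p * algebraMap (PA k d) (PS k d) (∏ i, MvPolynomial.X i ^ (α i : ℕ)) := by
  refine ⟨fun β b => (frobeniusEquiv k p).symm (coeff (p • b + h3mono β) φ), ?_⟩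
  ext m
  obtain ⟨b, β, rfl⟩ := h3_decomp (p := p) m
  rw [h3_coeff]
  exact (frobeniusEquiv_symm_pow_p k p _).symm

lemma h3_fbA (a : PA k d) : ∃ c : (Fin d → Fin p) → PA k d,
    a = ∑ α, c α ^ p * ∏ i, MvPolynomial.X i ^ (α i : ℕ) := by
  classical
  induction a using MvPolynomial.induction_on' with
  | monomial m r =>
    obtain ⟨b, β, rfl⟩ := h3_decomp (p := p) m
    refine ⟨Pi.single β (MvPolynomial.monomial b ((frobeniusEquiv k p).symm r)), ?_⟩
    rw [Finset.sum_eq_single β]
    · rw [Pi.single_eq_same, h3_prod, MvPolynomial.monomial_pow, MvPolynomial.monomial_mul, mul_one,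
        frobeniusEquiv_symm_pow_p]
    · intro α _ hne
      rw [Pi.single_eq_of_ne hne, zero_pow hp.out.ne_zero, zero_mul]
    · simp
  | add a b ha hb =>
    obtain ⟨c, rfl⟩ := ha
    obtain ⟨c', rfl⟩ := hb
    refine ⟨c + c', ?_⟩
    rw [← Finset.sum_add_distrib]
    refine Finset.sum_congr rfl fun α _ => ?_
    rw [Pi.add_apply, add_pow_char, add_mul]

include p in
lemma h3_dvd (a b : PS k d) : ∀ (N : ℕ) (m : Fin d →₀ ℕ) (c : PS k d), m.degree = N →
    coeff m c ≠ 0 → (∀ n, b ^ n ∣ c * a ^ n) → b ∣ a := by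
  intro N
  induction N using Nat.strong_induction_on with
  | _ N ih =>
    intro m c hm hc h
    by_cases h0 : m = 0
    · subst h0
      have hu : IsUnit c := by
        rw [isUnit_iff_constantCoeff, ← coeff_zero_eq_constantCoeff_apply]
        exact hc.isUnit
      have h1 := h 1
      rwa [pow_one, pow_one, hu.dvd_mul_left] at h1
    obtain ⟨m', β, rfl⟩ := h3_decomp (p := p) m
    obtain ⟨e, he⟩ := h3_exists (p := p) c
    refine ih m'.degree ?_ m' (e β) rfl ?_ ?_
    · have h1 : 0 < N := by
        rw [← hm, Nat.pos_iff_ne_zero, Ne, Finsupp.degree_eq_zero_iff]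
        exact h0
      rw [map_add, map_nsmul, smul_eq_mul] at hm
      have h2 := hp.out.two_le
      nlinarith
    · intro h1
      apply hc
      rw [he, h3_coeff, h1, zero_pow hp.out.ne_zero]
    · intro n
      obtain ⟨q, hq⟩ := h (n * p)
      obtain ⟨r, hr⟩ := h3_exists (p := p) q
      have key : (fun α => e α * a ^ n) = fun α => b ^ n * r α := by
        apply h3_unique
        simp only [mul_pow, ← pow_mul]
        calc _ = c * a ^ (n * p) := by
              rw [he, Finset.sum_mul]
              exact Finset.sum_congr rfl fun α _ => by ring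
          _ = b ^ (n * p) * q := hq
          _ = _ := by
              rw [hr, Finset.mul_sum]
              exact Finset.sum_congr rfl fun α _ => by ring
      exact ⟨r β, congrFun key β⟩

include p in
lemma h3_normal (d : ℕ) : IsIntegrallyClosed (PS k d) := by
  rw [isIntegrallyClosed_iff (FractionRing (PS k d))]
  intro x hx
  obtain ⟨c, hc, h⟩ := hx.isAlmostIntegral_of_isLocalization (nonZeroDivisors (PS k d)) le_rfl
  obtain ⟨a, b, hb, rfl⟩ := IsFractionRing.div_surjective (A := PS k d) x
  have hb' : algebraMap (PS k d) (FractionRing (PS k d)) b ≠ 0 :=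
    IsFractionRing.to_map_ne_zero_of_mem_nonZeroDivisors hb
  obtain ⟨m, hm⟩ : ∃ m, coeff m c ≠ 0 := by
    by_contra hn
    push Not at hn
    exact nonZeroDivisors.ne_zero hc (MvPowerSeries.ext hn)
  obtain ⟨y, rfl⟩ := h3_dvd (p := p) a b _ m c rfl hm (by
    intro n
    obtain ⟨q, hq⟩ := h n
    refine ⟨q, IsFractionRing.injective (PS k d) (FractionRing (PS k d)) ?_⟩
    rw [map_mul, map_mul, hq, Algebra.smul_def, map_pow, map_pow, div_pow]
    field_simp)
  exact ⟨y, by rw [map_mul]; field_simp⟩

theorem h3 : H3 k p where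
  fb φ := by
    obtain ⟨c, hc⟩ := h3_exists (p := p) φ
    exact ⟨c, hc, fun c' hc' => h3_unique (hc'.symm.trans hc)⟩
  fbA := h3_fbA
  normal := h3_normal (p := p)
  flat d := Module.Flat.of_linearEquiv (toAdicCompletionAlgEquiv (Fin d) k).toLinearEquiv
  approx φ n := ⟨truncTotal n φ, (h3_mem_iff n _).mpr fun x hx => by
    rw [map_sub, h3_alg, MvPolynomial.coeff_coe, coeff_truncTotal _ hx, sub_self]⟩
  comap n a h := (MvPolynomial.mem_pow_idealOfVars_iff' n a).mpr fun x hx => by
    have := (h3_mem_iff n _).mp h x hx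
    rwa [h3_alg, MvPolynomial.coeff_coe] at this
  complete := fun {d} a h => by
    have key : ∀ (x : Fin d →₀ ℕ) (n : ℕ), x.degree + 1 ≤ n →
        (a n).coeff x = (a (x.degree + 1)).coeff x := by
      intro x n hn
      induction n, hn using Nat.le_induction with
      | base => rfl
      | succ n hn ih =>
        have := (MvPolynomial.mem_pow_idealOfVars_iff' n _).mp (h n) x hn
        rw [MvPolynomial.coeff_sub, sub_eq_zero] at this
        rw [this, ih]
    refine ⟨fun x => (a (x.degree + 1)).coeff x, fun n => (h3_mem_iff n _).mpr fun x hx => ?_⟩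
    rw [map_sub, h3_alg, MvPolynomial.coeff_coe, key x n hx, sub_eq_zero]
    rfl
  haus φ h := by
    ext x
    exact (h3_mem_iff _ _).mp (h (x.degree + 1)) x (Nat.lt_succ_self _)

end Pool.Agent.Lib.MP_5f81cf_ag.Full
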