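import Pool.Agent.Lib.MP_5f81cf_ag.FBlue4

/-! Completion preserves reducedness in positive characteristic. -/

namespace Pool.Agent.Lib.MP_5f81cf_ag.Full

open TensorProduct

namespace ChC

/-- A copy of `C` on which scalars act through their `p`-th powers. -/
def Fr (_p : ℕ) (C : Type) : Type := C

instance (p : ℕ) (C : Type) [CommRing C] : AddCommGroup (Fr p C) :=
  inferInstanceAs (AddCommGroup C)

variable {A S C : Type} [CommRing A] [CommRing S] [CommRing C] [Algebra A S] [Algebra A C]
  {p : ℕ} [Fact p.Prime] [CharP A p]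

noncomputable instance : Module A (Fr p C) :=
  Module.compHom C (frobenius A p)

variable (p) in
/-- The identity map to the twisted copy. -/
def toFr : C →+ Fr p C := AddMonoidHom.id C

lemma smul_toFr (a : A) (c : C) : a • toFr p c = toFr p (a ^ p • c) := rfl

omit [Fact p.Prime] in
lemma toFr_inj : Function.Injective (toFr p : C → Fr p C) := fun _ _ h => h

variable (A p C) in
/-- Frobenius as a linear map to the twisted copy. -/
noncomputable def frL [CharP C p] : C →ₗ[A] Fr p C where
  toFun c := toFr p (c ^ p)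
  map_add' a b := by rw [add_pow_char, map_add]
  map_smul' a c := by rw [RingHom.id_apply, smul_toFr, smul_pow]

theorem reduced_aux {ι : Type} [Fintype ι] (e : ι → A) [CharP S p] [CharP C p]
    [CharP (S ⊗[A] C) p] [Module.Flat A S] [IsReduced C]
    (fb : ∀ φ : S, ∃! c : ι → S, φ = ∑ α, c α ^ p * algebraMap A S (e α))
    (fbA : ∀ a : A, ∃ c : ι → A, a = ∑ α, c α ^ p * e α) : IsReduced (S ⊗[A] C) := by
  classical
  choose co hco huniq using fb
  have hp : p ≠ 0 := (Fact.out : p.Prime).ne_zero
  have co_add : ∀ φ ψ : S, co (φ + ψ) = co φ + co ψ := fun φ ψ => by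
    refine (huniq _ _ ?_).symm
    simp only [Pi.add_apply, add_pow_char, add_mul, Finset.sum_add_distrib]
    rw [← hco φ, ← hco ψ]
  have co_zero : co 0 = 0 := by
    refine (huniq _ _ ?_).symm
    simp [hp]
  have co_smul : ∀ (r : A) (φ : S) (u : ι → ι → A),
      (∀ α, r * e α = ∑ β, u α β ^ p * e β) → co (r • φ) = fun β => ∑ α, u α β • co φ α := by
    intro r φ u hu
    refine (huniq _ _ ?_).symm
    simp only [sum_pow_char, Finset.sum_mul]
    rw [Finset.sum_comm]
    conv_lhs => rw [hco φ]
    rw [Finset.smul_sum]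
    refine Finset.sum_congr rfl fun α _ => ?_
    rw [Algebra.smul_def, mul_left_comm, ← map_mul, hu, map_sum, Finset.mul_sum]
    refine Finset.sum_congr rfl fun β _ => ?_
    rw [Algebra.smul_def, map_mul, map_pow]
    ring
  have co_pow : ∀ (φ : S) (u : ι → A), (1 : A) = ∑ β, u β ^ p * e β →
      co (φ ^ p) = fun β => u β • φ := by
    intro φ u hu
    refine (huniq _ _ ?_).symm
    have h1 : φ ^ p = φ ^ p * algebraMap A S 1 := by rw [map_one, mul_one]
    rw [h1, hu, map_sum, Finset.mul_sum]
    refine Finset.sum_congr rfl fun β _ => ?_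
    beta_reduce
    rw [Algebra.smul_def, map_mul, map_pow]
    ring
  let f : S →+ C →+ S ⊗[A] Fr p C :=
    { toFun := fun φ =>
        { toFun := fun c => ∑ α, co φ α ⊗ₜ[A] toFr p (e α • c)
          map_zero' := by simp
          map_add' := fun c c' => by
            simp only [smul_add, map_add, tmul_add, Finset.sum_add_distrib] }
      map_zero' := by
        ext c
        simp [co_zero]
      map_add' := fun φ ψ => by
        ext c
        simp [co_add, add_tmul, Finset.sum_add_distrib] }
  have hf : ∀ φ c, f φ c = ∑ α, co φ α ⊗ₜ[A] toFr p (e α • c) := fun _ _ => rfl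
  have bal : ∀ (r : A) (φ : S) (c : C), f (r • φ) c = f φ (r • c) := by
    intro r φ c
    choose u hu using fun α => fbA (r * e α)
    rw [hf, hf, co_smul r φ u hu]
    simp only [sum_tmul]
    rw [Finset.sum_comm]
    refine Finset.sum_congr rfl fun α _ => ?_
    rw [smul_smul, mul_comm, hu, Finset.sum_smul, map_sum, tmul_sum]
    refine Finset.sum_congr rfl fun β _ => ?_
    rw [smul_tmul, smul_toFr, smul_smul]
  let nu : S ⊗[A] C →+ S ⊗[A] Fr p C := TensorProduct.liftAddHom f bal
  have key : ∀ x : S ⊗[A] C, nu (x ^ p) = (frL A C p).lTensor S x := by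
    intro x
    induction x with
    | zero => rw [zero_pow hp, map_zero, map_zero]
    | add x y hx hy => rw [add_pow_char, map_add, map_add, hx, hy]
    | tmul φ c =>
      obtain ⟨u, hu⟩ := fbA 1
      rw [Algebra.TensorProduct.tmul_pow, LinearMap.lTensor_tmul]
      change f (φ ^ p) (c ^ p) = φ ⊗ₜ[A] toFr p (c ^ p)
      rw [hf, co_pow φ u hu]
      conv_rhs => rw [← one_smul A (c ^ p), hu, Finset.sum_smul, map_sum, tmul_sum]
      refine Finset.sum_congr rfl fun β _ => ?_
      rw [smul_tmul, smul_toFr, smul_smul]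
  have inj : Function.Injective ((frL A C p).lTensor S) :=
    Module.Flat.lTensor_preserves_injective_linearMap _
      (fun a b h => frobenius_inj C p (toFr_inj h))
  refine (isReduced_iff_pow_one_lt p (Fact.out : p.Prime).one_lt).2 fun x hx => inj ?_
  rw [← key, hx, map_zero, map_zero]

end ChC

variable {k : Type} [Field k] {p : ℕ} [Fact p.Prime] [CharP k p]

theorem st_H4 (h3 : H3 k p) : St_H4 k := by
  intro d C _ _ _
  rcases subsingleton_or_nontrivial (PS k d ⊗[PA k d] C) with h | h
  · infer_instance
  rcases subsingleton_or_nontrivial C with hC | hC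
  · infer_instance
  have hA : (p : PA k d) = 0 := by
    rw [← map_natCast (algebraMap k (PA k d)), CharP.cast_eq_zero, map_zero]
  have h0 : ∀ (R : Type) [CommRing R] [Algebra (PA k d) R] [Nontrivial R], CharP R p :=
    fun R _ _ _ => (CharP.charP_iff_prime_eq_zero Fact.out).2 (by
      rw [← map_natCast (algebraMap (PA k d) R), hA, map_zero])
  have := h0 (PA k d)
  have := h0 (PS k d)
  have := h0 C
  have := h0 (PS k d ⊗[PA k d] C)
  have := h3.flat d
  exact ChC.reduced_aux (p := p) _ h3.fb h3.fbA

end Pool.Agent.Lib.MP_5f81cf_ag.Full
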