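import Pool.Agent.Lib.MP_5f81cf_ag.FBlue4

/-! Zariski's argument: a solution of `x ^ 2 = δ x` in the completion is divisible by `δ`. -/

namespace Pool.Agent.Lib.MP_5f81cf_ag.Full

open TensorProduct

namespace ChD

section Abstract

variable {B : Type} [CommRing B] [IsDomain B]

/-- An associated prime of a principal ideal of a normal Noetherian domain is locally principal. -/
theorem loc_principal [IsNoetherianRing B] [IsIntegrallyClosed B] {δ c : B} (hδ : δ ≠ 0)
    (hc : c ∉ Ideal.span {δ}) {P : Ideal B} (hP : ∀ r, r ∈ P ↔ r * c ∈ Ideal.span {δ}) :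
    ∃ w s : B, w ∈ P ∧ s ∉ P ∧ ∀ r ∈ P, ∃ a, s * r = w * a := by
  let K := FractionRing B
  have hδK : algebraMap B K δ ≠ 0 := IsFractionRing.to_map_eq_zero_iff.not.mpr hδ
  have hδP : δ ∈ P := (hP δ).2 (Ideal.mul_mem_right _ _ (Ideal.mem_span_singleton_self δ))
  by_cases h : ∀ w ∈ P, ∀ s, s * δ = w * c → s ∈ P
  · exfalso
    let x : K := algebraMap B K c / algebraMap B K δ
    let M := Submodule.map (Algebra.linearMap B K) P
    have hx : ∀ y ∈ M, x • y ∈ M := by
      rintro _ ⟨w, hw, rfl⟩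
      obtain ⟨s, hs⟩ := Ideal.mem_span_singleton'.1 ((hP w).1 hw)
      refine ⟨s, h w hw s hs, ?_⟩
      have := congrArg (algebraMap B K) hs
      rw [map_mul, map_mul] at this
      simp only [Algebra.linearMap_apply, smul_eq_mul, x]
      rw [div_mul_eq_mul_div, eq_div_iff hδK, this, mul_comm]
    have hint : IsIntegral B x := by
      refine isIntegral_of_smul_mem_submodule M ?_ ?_ x hx
      · rw [Submodule.ne_bot_iff]
        exact ⟨_, ⟨δ, hδP, rfl⟩, hδK⟩
      · exact Submodule.FG.map _ (IsNoetherian.noetherian _)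
    obtain ⟨y, e⟩ := IsIntegrallyClosed.algebraMap_eq_of_integral hint
    refine hc (Ideal.mem_span_singleton'.2 ⟨y, ?_⟩)
    apply IsFractionRing.injective B K
    rw [map_mul, e, div_mul_cancel₀ _ hδK]
  · push Not at h
    obtain ⟨w, hw, s, hs, hsP⟩ := h
    refine ⟨w, s, hw, hsP, fun r hr => ?_⟩
    obtain ⟨a, ha⟩ := Ideal.mem_span_singleton'.1 ((hP r).1 hr)
    refine ⟨a, mul_right_cancel₀ hδ ?_⟩
    linear_combination r * hs - w * ha

/-- The saturation of a principal ideal outside a prime. -/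
def sat (P : Ideal B) [hP : P.IsPrime] (δ : B) : Ideal B where
  carrier := {r | ∃ t, t ∉ P ∧ ∃ a, t * r = δ * a}
  zero_mem' := ⟨1, (Ideal.ne_top_iff_one P).1 hP.ne_top, 0, by simp⟩
  add_mem' := by
    rintro r r' ⟨t, ht, a, ha⟩ ⟨t', ht', a', ha'⟩
    refine ⟨t * t', fun h => (hP.mem_or_mem h).elim ht ht', t' * a + t * a', ?_⟩
    linear_combination t' * ha + t * ha'
  smul_mem' := by
    rintro c r ⟨t, ht, a, ha⟩
    refine ⟨t, ht, c * a, ?_⟩
    rw [smul_eq_mul]
    linear_combination c * ha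

variable {R : Type} [CommRing R] (φ : B →+* R)

theorem local_step [IsNoetherianRing B] (P : Ideal B) [hP : P.IsPrime] {w s : B} (hw : w ∈ P)
    (hs : s ∉ P) (hws : ∀ r ∈ P, ∃ a, s * r = w * a)
    (hinj : ∀ b : B, b ≠ 0 → ∀ x : R, φ b * x = 0 → x = 0) (hrad : (P.map φ).IsRadical) :
    ∀ (I : Ideal B) (δ : B), δ ≠ 0 → sat P δ = I → ∀ y : R, y ^ 2 = φ δ * y →
      ∃ b, b ∉ P ∧ ∃ r, φ b * y = φ δ * r := by
  intro I
  induction I using IsNoetherian.induction with
  | hgt I ih =>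
  intro δ hδ hI y hy
  by_cases hδP : δ ∈ P
  swap
  · exact ⟨δ, hδP, y, rfl⟩
  obtain ⟨δ', hδ'⟩ := hws δ hδP
  have hs0 : s ≠ 0 := fun h => hs (h ▸ P.zero_mem)
  have hwδ : w * δ' ≠ 0 := hδ' ▸ mul_ne_zero hs0 hδ
  have hw0 : w ≠ 0 := left_ne_zero_of_mul hwδ
  have hδ'0 : δ' ≠ 0 := right_ne_zero_of_mul hwδ
  have hyP : y ∈ P.map φ := by
    refine hrad ⟨2, ?_⟩
    rw [hy]
    exact Ideal.mul_mem_right _ _ (Ideal.mem_map_of_mem φ hδP)
  have hsy : ∀ z ∈ P.map φ, ∃ z', φ s * z = φ w * z' := by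
    intro z hz
    refine Submodule.span_induction ?_ ?_ ?_ ?_ hz
    · rintro _ ⟨r, hr, rfl⟩
      obtain ⟨a, ha⟩ := hws r hr
      exact ⟨φ a, by rw [← map_mul, ha, map_mul]⟩
    · exact ⟨0, by simp⟩
    · rintro a b - - ⟨a', ha⟩ ⟨b', hb⟩
      exact ⟨a' + b', by rw [mul_add, mul_add, ha, hb]⟩
    · rintro c a - ⟨a', ha⟩
      refine ⟨c * a', ?_⟩
      rw [smul_eq_mul]
      linear_combination c * ha
  obtain ⟨y', hy'⟩ := hsy y hyP
  have hφ : φ s * φ δ = φ w * φ δ' := by rw [← map_mul, hδ', map_mul]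
  have hy2 : y' ^ 2 = φ δ' * y' := by
    rw [← sub_eq_zero]
    refine hinj w hw0 _ (hinj w hw0 _ ?_)
    linear_combination (-(φ s * y + φ w * y')) * hy' + φ s ^ 2 * hy + (φ s * φ δ) * hy' +
      (φ w * y') * hφ
  have hlt : I < sat P δ' := by
    rw [← hI]
    refine lt_of_le_of_ne ?_ fun h => ?_
    · rintro r ⟨t, ht, a, ha⟩
      refine ⟨s * t, fun h => (hP.mem_or_mem h).elim hs ht, w * a, ?_⟩
      linear_combination s * ha + a * hδ'
    · have : δ' ∈ sat P δ := by
        rw [h]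
        exact ⟨1, (Ideal.ne_top_iff_one P).1 hP.ne_top, 1, by ring⟩
      obtain ⟨t, ht, a, ha⟩ := this
      have h1 : s * t = w * a := by
        refine mul_right_cancel₀ hδ'0 ?_
        linear_combination s * ha + a * hδ'
      have h2 : s * t ∈ P := h1 ▸ P.mul_mem_right _ hw
      exact (hP.mem_or_mem h2).elim hs ht
  obtain ⟨b, hb, r, hr⟩ := ih _ hlt δ' hδ'0 rfl y' hy2
  refine ⟨b * s, fun h => (hP.mem_or_mem h).elim hb hs, φ s * r, ?_⟩
  rw [map_mul]
  linear_combination φ b * hy' + φ w * hr - r * hφ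

/-- The abstract form of the statement. -/
theorem abstract_main [IsNoetherianRing B] [IsIntegrallyClosed B]
    (hflat : ∀ (I : Ideal B) (b : B), (∀ c, b * c ∈ I → c ∈ I) →
      ∀ x : R, φ b * x ∈ I.map φ → x ∈ I.map φ)
    (hrad : ∀ P : Ideal B, P.IsPrime → (P.map φ).IsRadical) {δ : B} (hδ : δ ≠ 0) {y : R}
    (hy : y ^ 2 = φ δ * y) : ∃ r, y = φ δ * r := by
  have hinj : ∀ b : B, b ≠ 0 → ∀ x : R, φ b * x = 0 → x = 0 := by
    intro b hb x hx
    have := hflat ⊥ b (fun c hc => by simpa [hb] using hc) x (by simp [hx])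
    simpa using this
  have hmem : ∀ z : R, z ∈ (Ideal.span {δ}).map φ ↔ ∃ r, z = φ δ * r := by
    intro z
    rw [Ideal.map_span, Set.image_singleton, Ideal.mem_span_singleton]
    rfl
  let J : Ideal B := ((Ideal.span {φ δ}).colon {y}).comap φ
  have hJ : ∀ b, b ∈ J ↔ ∃ r, φ b * y = φ δ * r := by
    intro b
    simp only [J, Ideal.mem_comap, Submodule.mem_colon_singleton, smul_eq_mul,
      Ideal.mem_span_singleton]
    rfl
  by_cases h : (J : Set B) ⊆ ⋃ P ∈ associatedPrimes B (B ⧸ Ideal.span {δ}), (P : Set B)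
  · exfalso
    obtain ⟨P, hP, hJP⟩ := (Ideal.subset_union_prime_finite
      (associatedPrimes.finite B (B ⧸ Ideal.span {δ})) (f := id) 0 0
        fun _ h _ _ => h.isPrime).1 h
    rw [AssociatedPrimes.mem_iff, isAssociatedPrime_iff] at hP
    obtain ⟨hprime, x, hx⟩ := hP
    obtain ⟨c, rfl⟩ := Ideal.Quotient.mk_surjective x
    have hPc : ∀ r, r ∈ P ↔ r * c ∈ Ideal.span {δ} := by
      intro r
      rw [hx, Submodule.mem_colon_singleton, Submodule.mem_bot, ← Ideal.Quotient.eq_zero_iff_mem,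
        map_mul]
      rfl
    have hc : c ∉ Ideal.span {δ} := fun h =>
      (Ideal.ne_top_iff_one P).1 hprime.ne_top ((hPc 1).2 (by simpa using h))
    obtain ⟨w, s, hw, hs, hws⟩ := loc_principal hδ hc hPc
    obtain ⟨b, hb, hr⟩ := local_step φ P hw hs hws hinj (hrad P hprime) _ δ hδ rfl y hy
    exact hb (hJP ((hJ b).2 hr))
  · rw [biUnion_associatedPrimes_eq_zero_divisors, Set.not_subset] at h
    obtain ⟨b, hbJ, hb⟩ := h
    refine (hmem y).1 (hflat _ b (fun c hc => ?_) y ((hmem _).2 ((hJ b).1 hbJ)))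
    by_contra hc'
    refine hb ⟨Ideal.Quotient.mk _ c, ?_, ?_⟩
    · rwa [Ne, Ideal.Quotient.eq_zero_iff_mem]
    · rw [← Ideal.Quotient.eq_zero_iff_mem, map_mul] at hc
      exact hc

end Abstract

section Tensor

variable {A M B : Type} [CommRing A] [CommRing M] [CommRing B] [Algebra A M] [Algebra A B]

theorem mem_map_iff (I : Ideal B) (x : M ⊗[A] B) :
    x ∈ I.map (Algebra.TensorProduct.includeRight : B →ₐ[A] M ⊗[A] B).toRingHom ↔
      Algebra.TensorProduct.map (AlgHom.id A M) (Ideal.Quotient.mkₐ A I) x = 0 := by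
  have h := Algebra.TensorProduct.lTensor_ker (R := A) (A := M) (Ideal.Quotient.mkₐ A I)
    (Ideal.Quotient.mkₐ_surjective A I)
  have h2 : RingHom.ker (Ideal.Quotient.mkₐ A I) = I := Ideal.Quotient.mkₐ_ker A I
  rw [← RingHom.mem_ker, h, h2]
  rfl

theorem tensor_flat [Module.Flat A M] (I : Ideal B) (b : B) (hb : ∀ c, b * c ∈ I → c ∈ I)
    (x : M ⊗[A] B)
    (hx : (Algebra.TensorProduct.includeRight : B →ₐ[A] M ⊗[A] B).toRingHom b * x ∈
      I.map (Algebra.TensorProduct.includeRight : B →ₐ[A] M ⊗[A] B).toRingHom) :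
    x ∈ I.map (Algebra.TensorProduct.includeRight : B →ₐ[A] M ⊗[A] B).toRingHom := by
  rw [mem_map_iff] at hx ⊢
  let f : (B ⧸ I) →ₗ[A] (B ⧸ I) := LinearMap.mulLeft A (Ideal.Quotient.mk I b)
  have hf : Function.Injective f := by
    rw [injective_iff_map_eq_zero]
    intro z hz
    obtain ⟨c, rfl⟩ := Ideal.Quotient.mk_surjective z
    rw [Ideal.Quotient.eq_zero_iff_mem]
    refine hb c ?_
    rw [← Ideal.Quotient.eq_zero_iff_mem, map_mul]
    exact hz
  have hf' := Module.Flat.lTensor_preserves_injective_linearMap (M := M) f hf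
  have key : ∀ z : M ⊗[A] (B ⧸ I),
      f.lTensor M z = ((1 : M) ⊗ₜ[A] Ideal.Quotient.mk I b) * z := by
    intro z
    induction z using TensorProduct.induction_on with
    | zero => simp
    | tmul m c => simp [f]
    | add a c ha hc => rw [map_add, mul_add, ha, hc]
  refine hf' ?_
  rw [map_zero, key, ← hx, map_mul]
  simp

theorem tensor_rad (P : Ideal B) [IsReduced (M ⊗[A] (B ⧸ P))] :
    (P.map (Algebra.TensorProduct.includeRight : B →ₐ[A] M ⊗[A] B).toRingHom).IsRadical := by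
  rintro x ⟨n, hn⟩
  rw [mem_map_iff] at hn ⊢
  rw [map_pow] at hn
  exact IsNilpotent.eq_zero ⟨n, hn⟩

end Tensor

end ChD

variable {k : Type} [Field k] {p : ℕ} [Fact p.Prime]

theorem st_H5 (h3 : H3 k p) (h4 : St_H4 k) : St_H5 k := by
  intro d B F K _ _ _ _ _ _ _ _ _ _ _ _ _ _ _ _ x δ hδ hx
  have : IsNoetherianRing B := IsNoetherianRing.of_finite (PA k d) B
  have := h3.flat d
  have hδB : algebraMap (PA k d) B δ ≠ 0 := by
    intro h
    have h1 : algebraMap (PA k d) K δ = 0 := by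
      rw [IsScalarTower.algebraMap_apply (PA k d) B K, h, map_zero]
    rw [IsScalarTower.algebraMap_apply (PA k d) F K, map_eq_zero,
      IsFractionRing.to_map_eq_zero_iff] at h1
    exact hδ h1
  have hsm : ∀ z : PS k d ⊗[PA k d] B, δ • z =
      (Algebra.TensorProduct.includeRight : B →ₐ[PA k d] PS k d ⊗[PA k d] B).toRingHom
        (algebraMap (PA k d) B δ) * z := by
    intro z
    rw [AlgHom.toRingHom_eq_coe, RingHom.coe_coe, AlgHom.commutes]
    exact Algebra.smul_def δ z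
  obtain ⟨r, hr⟩ := ChD.abstract_main
    (Algebra.TensorProduct.includeRight : B →ₐ[PA k d] PS k d ⊗[PA k d] B).toRingHom
    (fun I b hb y hy => ChD.tensor_flat I b hb y hy)
    (fun P _ => by
      have := h4 (d := d) (B ⧸ P)
      exact ChD.tensor_rad P) hδB (y := x) (by rw [hx, hsm])
  exact ⟨r, by rw [hsm, ← hr]⟩

end Pool.Agent.Lib.MP_5f81cf_ag.Full
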