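import Pool.Agent.Lib.MP_5f81cf_ag.FBlue4

/-! Chevalley's comparison for a finite normal extension of a polynomial ring (`St_H7`). -/

namespace Pool.Agent.Lib.MP_5f81cf_ag.Full

open Pool.Agent.Lib.MP_e06174_ag TensorProduct

namespace ChF

section general

variable {A Ah B : Type} [CommRing A] [CommRing Ah] [Algebra A Ah] [CommRing B] [Algebra A B]

/-- The second inclusion into the tensor product. -/
noncomputable abbrev io (A Ah B : Type) [CommRing A] [CommRing Ah] [Algebra A Ah] [CommRing B]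
    [Algebra A B] : B →ₐ[A] Ah ⊗[A] B := Algebra.TensorProduct.includeRight

lemma tmul_mem (J : Ideal A) {φ : Ah} (h : φ ∈ J.map (algebraMap A Ah)) (b : B) :
    φ ⊗ₜ[A] b ∈ J.map (algebraMap A (Ah ⊗[A] B)) := by
  have h1 : φ ⊗ₜ[A] b = (Algebra.TensorProduct.includeLeft (S := A) φ : Ah ⊗[A] B) *
      io A Ah B b := by
    simp [Algebra.TensorProduct.tmul_mul_tmul]
  rw [h1]
  refine Ideal.mul_mem_right _ _ ?_
  have h2 := Ideal.mem_map_of_mem
    ((Algebra.TensorProduct.includeLeft (S := A) : Ah →ₐ[A] Ah ⊗[A] B) : Ah →+* Ah ⊗[A] B) h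
  rw [Ideal.map_map, AlgHom.comp_algebraMap] at h2
  exact h2

lemma io_mem (J : Ideal A) {b : B} (h : b ∈ J.map (algebraMap A B)) :
    io A Ah B b ∈ J.map (algebraMap A (Ah ⊗[A] B)) := by
  have h2 := Ideal.mem_map_of_mem ((io A Ah B : B →ₐ[A] Ah ⊗[A] B) : B →+* Ah ⊗[A] B) h
  rw [Ideal.map_map, AlgHom.comp_algebraMap] at h2
  exact h2

lemma tmul_sub_io (φ : Ah) (a : A) (b : B) :
    φ ⊗ₜ[A] b - io A Ah B (a • b) = (φ - algebraMap A Ah a) ⊗ₜ[A] b := by
  rw [sub_tmul, Algebra.TensorProduct.includeRight_apply, ← smul_tmul,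
    Algebra.algebraMap_eq_smul_one]

/-- Approximation of elements of the tensor product. -/
lemma approx (J : Ideal A)
    (hap : ∀ φ : Ah, ∃ a : A, φ - algebraMap A Ah a ∈ J.map (algebraMap A Ah))
    (x : Ah ⊗[A] B) : ∃ b : B, x - io A Ah B b ∈ J.map (algebraMap A (Ah ⊗[A] B)) := by
  induction x using TensorProduct.induction_on with
  | zero => exact ⟨0, by simp⟩
  | tmul φ b =>
    obtain ⟨a, ha⟩ := hap φ
    exact ⟨a • b, by rw [tmul_sub_io]; exact tmul_mem J ha b⟩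
  | add x y hx hy =>
    obtain ⟨b, hb⟩ := hx
    obtain ⟨c, hc⟩ := hy
    refine ⟨b + c, ?_⟩
    have := Ideal.add_mem _ hb hc
    rw [map_add]
    convert this using 1
    ring

/-- Contraction of the extended ideal. -/
lemma comap (J : Ideal A)
    (hap : ∀ φ : Ah, ∃ a : A, φ - algebraMap A Ah a ∈ J.map (algebraMap A Ah))
    (hco : ∀ a : A, algebraMap A Ah a ∈ J.map (algebraMap A Ah) → a ∈ J)
    {b : B} (hb : io A Ah B b ∈ J.map (algebraMap A (Ah ⊗[A] B))) :
    b ∈ J.map (algebraMap A B) := by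
  let f : (A ⧸ J) →ₐ[A] Ah ⧸ J.map (algebraMap A Ah) :=
    Ideal.quotientMapₐ _ (Algebra.ofId A Ah) Ideal.le_comap_map
  have hf : Function.Bijective f := by
    constructor
    · rw [injective_iff_map_eq_zero]
      intro x hx
      obtain ⟨a, rfl⟩ := Ideal.Quotient.mk_surjective x
      rw [Ideal.Quotient.eq_zero_iff_mem]
      apply hco
      rw [← Ideal.Quotient.eq_zero_iff_mem]
      exact hx
    · intro y
      obtain ⟨φ, rfl⟩ := Ideal.Quotient.mk_surjective y
      obtain ⟨a, ha⟩ := hap φ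
      refine ⟨Ideal.Quotient.mk _ a, ?_⟩
      have := (Ideal.Quotient.eq.2 ha).symm
      exact this
  let g : (A ⧸ J) →ₐ[A] B ⧸ J.map (algebraMap A B) :=
    Ideal.quotientMapₐ _ (Algebra.ofId A B) Ideal.le_comap_map
  let ψ : Ah →ₐ[A] B ⧸ J.map (algebraMap A B) :=
    g.comp ((AlgEquiv.ofBijective f hf).symm.toAlgHom.comp (Ideal.Quotient.mkₐ A _))
  let Φ : Ah ⊗[A] B →ₐ[A] B ⧸ J.map (algebraMap A B) :=
    Algebra.TensorProduct.lift ψ (Ideal.Quotient.mkₐ A _) fun _ _ => Commute.all _ _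
  have h1 : J.map (algebraMap A (Ah ⊗[A] B)) ≤ RingHom.ker Φ := by
    rw [Ideal.map_le_iff_le_comap]
    intro a ha
    rw [Ideal.mem_comap, RingHom.mem_ker]
    rw [Φ.commutes a]
    change Ideal.Quotient.mk _ (algebraMap A B a) = 0
    rw [Ideal.Quotient.eq_zero_iff_mem]
    exact Ideal.mem_map_of_mem _ ha
  have h2 := h1 hb
  rw [RingHom.mem_ker] at h2
  have h3 : Φ (io A Ah B b) = Ideal.Quotient.mk _ b := by
    change Φ (1 ⊗ₜ b) = _
    simp [Φ]
  rw [h3, Ideal.Quotient.eq_zero_iff_mem] at h2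
  exact h2

lemma exists_coord {r : ℕ} (π : (Fin r → A) →ₗ[A] B) (hπ : Function.Surjective π) (J : Ideal A)
    {b : B} (hb : b ∈ J.map (algebraMap A B)) : ∃ v : Fin r → A, (∀ i, v i ∈ J) ∧ π v = b := by
  have h1 : b ∈ J • (⊤ : Submodule A B) := by
    rw [Ideal.smul_top_eq_map]; exact hb
  refine Submodule.smul_induction_on h1 ?_ ?_
  · intro a ha c _
    obtain ⟨v, rfl⟩ := hπ c
    exact ⟨a • v, fun i => J.mul_mem_right _ ha, by rw [map_smul]⟩
  · rintro _ _ ⟨v, hv, rfl⟩ ⟨u, hu, rfl⟩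
    exact ⟨v + u, fun i => J.add_mem (hv i) (hu i), by rw [map_add]⟩

/-- Convergence of Cauchy sequences. -/
lemma complete [Module.Finite A B] (J : ℕ → Ideal A)
    (hc : ∀ a : ℕ → A, (∀ n, a (n + 1) - a n ∈ J n) → ∃ φ : Ah, ∀ n,
      φ - algebraMap A Ah (a n) ∈ (J n).map (algebraMap A Ah))
    (b : ℕ → B) (hb : ∀ n, b (n + 1) - b n ∈ (J n).map (algebraMap A B)) :
    ∃ x : Ah ⊗[A] B, ∀ n, x - io A Ah B (b n) ∈ (J n).map (algebraMap A (Ah ⊗[A] B)) := by
  classical
  obtain ⟨r, π, hπ⟩ := Module.Finite.exists_fin' A B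
  choose u hu hu' using fun n => exists_coord π hπ (J n) (hb n)
  obtain ⟨v0, hv0⟩ := hπ (b 0)
  let v : ℕ → Fin r → A := fun n => v0 + ∑ i ∈ Finset.range n, u i
  have hv : ∀ n, v (n + 1) = v n + u n := fun n => by
    simp only [v, Finset.sum_range_succ, add_assoc]
  have hvb : ∀ n, π (v n) = b n := by
    intro n
    induction n with
    | zero => simpa [v] using hv0
    | succ n ih => rw [hv, map_add, ih, hu']; ring
  have hi : ∀ i, ∃ φ : Ah, ∀ n, φ - algebraMap A Ah (v n i) ∈ (J n).map (algebraMap A Ah) :=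
    fun i => hc (fun n => v n i) fun n => by
      simp only [hv, Pi.add_apply, add_sub_cancel_left]; exact hu n i
  choose φ hφ using hi
  refine ⟨∑ i, φ i ⊗ₜ π (Pi.single i 1), fun n => ?_⟩
  have h1 : b n = ∑ i, v n i • π (Pi.single i 1) := by
    rw [← hvb n]
    conv_lhs => rw [pi_eq_sum_univ' (v n)]
    simp only [map_sum, map_smul]
  rw [h1, map_sum, ← Finset.sum_sub_distrib]
  refine Ideal.sum_mem _ fun i _ => ?_
  rw [tmul_sub_io]
  exact tmul_mem _ (hφ i n) _

/-- The quotients by powers of the extended maximal ideal are Artinian. -/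
lemma artin [Module.Finite A B] [IsNoetherianRing A] (I : Ideal A) [hI : I.IsMaximal] (n : ℕ) :
    IsArtinianRing (B ⧸ (I ^ n).map (algebraMap A B)) := by
  haveI : IsNoetherianRing B := IsNoetherianRing.of_finite A B
  rw [isArtinianRing_iff_krullDimLE_zero,
    Ideal.krullDimLE_zero_quotient_iff_forall_minimalPrimes_isMaximal]
  intro q hq
  haveI := hq.1.1
  apply Ideal.isMaximal_of_isIntegral_of_isMaximal_comap (R := A) q
  have h1 : I ^ n ≤ q.comap (algebraMap A B) := Ideal.map_le_iff_le_comap.1 hq.1.2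
  have h2 : I ≤ q.comap (algebraMap A B) := Ideal.IsPrime.le_of_pow_le h1
  rw [← hI.eq_of_le (Ideal.IsPrime.ne_top inferInstance) h2]
  exact hI

/-- Decreasing chains stabilise modulo an ideal with Artinian quotient. -/
lemma stab (J : Ideal B) [IsArtinianRing (B ⧸ J)] (W : ℕ → Ideal B) (hW : Antitone W) :
    ∃ j, ∀ m, j ≤ m → W j ≤ W m ⊔ J := by
  let f : ℕ →o (Submodule (B ⧸ J) (B ⧸ J))ᵒᵈ :=
    ⟨fun j => OrderDual.toDual ((W j).map (Ideal.Quotient.mk J)),
      fun a b hab => Ideal.map_mono (hW hab)⟩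
  obtain ⟨j, hj⟩ := IsArtinian.monotone_stabilizes f
  refine ⟨j, fun m hm => ?_⟩
  have h1 : (W j).map (Ideal.Quotient.mk J) = (W m).map (Ideal.Quotient.mk J) := hj m hm
  have h2 : W j ≤ ((W m).map (Ideal.Quotient.mk J)).comap (Ideal.Quotient.mk J) := by
    rw [← h1]; exact Ideal.le_comap_map
  rwa [Ideal.comap_map_of_surjective _ Ideal.Quotient.mk_surjective, ← RingHom.ker_eq_comap_bot,
    Ideal.mk_ker] at h2

/-- The sequence of Chevalley's lemma. -/
lemma chain (J W : ℕ → Ideal B) (hW : Antitone W) (hJ : Antitone J)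
    (hst : ∀ N, ∃ j, ∀ m, j ≤ m → W j ≤ W m ⊔ J N) (l : ℕ) :
    ∃ j, ∀ b ∈ W j, ∃ s : ℕ → B, (∀ N, s (N + 1) - s N ∈ J N) ∧ (∀ N, s N - b ∈ J l) ∧
      ∀ N, s N ∈ W N := by
  choose j0 hj0 using hst
  let j : ℕ → ℕ := fun N => max (j0 N) N
  have hj : ∀ N m, j N ≤ m → W (j N) ≤ W m ⊔ J N := fun N m hm =>
    (hW (le_max_left _ _)).trans (hj0 N m ((le_max_left _ _).trans hm))
  have step : ∀ N, ∀ c ∈ W (j N), ∃ c' ∈ W (j (N + 1)), c' - c ∈ J N := by
    intro N c hc
    have h1 := hj N (max (j N) (j (N + 1))) (le_max_left _ _) hc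
    obtain ⟨y, hy, z, hz, rfl⟩ := Submodule.mem_sup.1 h1
    exact ⟨y, hW (le_max_right _ _) hy, by simpa using (J N).neg_mem hz⟩
  choose! nx hnx hnx' using step
  refine ⟨j l, fun b hb => ?_⟩
  let s : ℕ → B := fun N => Nat.rec b (fun N c => nx (l + N) c) N
  have hs : ∀ N, s N ∈ W (j (l + N)) := by
    intro N
    induction N with
    | zero => exact hb
    | succ N ih => exact hnx _ _ ih
  have hs' : ∀ N, s (N + 1) - s N ∈ J (l + N) := fun N => hnx' _ _ (hs N)
  refine ⟨s, fun N => hJ (Nat.le_add_left _ _) (hs' N), fun N => ?_, fun N =>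
    hW ((Nat.le_add_left _ _).trans (le_max_right _ _)) (hs N)⟩
  induction N with
  | zero => change b - b ∈ _; simp
  | succ N ih =>
    have := (J l).add_mem (hJ (Nat.le_add_right _ _) (hs' N)) ih
    rwa [sub_add_sub_cancel] at this

/-- The elements approximated modulo `J` by elements of `W`. -/
noncomputable def Q (J : Ideal A) (W : Ideal B) : Ideal (Ah ⊗[A] B) :=
  W.map (io A Ah B) ⊔ J.map (algebraMap A (Ah ⊗[A] B))

lemma mem_Q {J : Ideal A} {W : Ideal B} {x : Ah ⊗[A] B} {b : B} (hb : b ∈ W)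
    (h : x - io A Ah B b ∈ J.map (algebraMap A (Ah ⊗[A] B))) : x ∈ Q J W := by
  have : x = io A Ah B b + (x - io A Ah B b) := by ring
  rw [this]
  exact Submodule.add_mem_sup (Ideal.mem_map_of_mem _ hb) h

lemma of_mem_Q {J : Ideal A} {W : Ideal B}
    (hap : ∀ φ : Ah, ∃ a : A, φ - algebraMap A Ah a ∈ J.map (algebraMap A Ah))
    (hco : ∀ a : A, algebraMap A Ah a ∈ J.map (algebraMap A Ah) → a ∈ J)
    (hJW : J.map (algebraMap A B) ≤ W) {x : Ah ⊗[A] B} (hx : x ∈ Q J W) {b : B}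
    (h : x - io A Ah B b ∈ J.map (algebraMap A (Ah ⊗[A] B))) : b ∈ W := by
  have key : ∀ y ∈ W.map (io A Ah B), ∃ c ∈ W,
      y - io A Ah B c ∈ J.map (algebraMap A (Ah ⊗[A] B)) := by
    intro y hy
    refine Submodule.span_induction ?_ ?_ ?_ ?_ hy
    · rintro _ ⟨c, hc, rfl⟩
      exact ⟨c, hc, by simp⟩
    · exact ⟨0, W.zero_mem, by simp⟩
    · rintro y z - - ⟨c, hc, h1⟩ ⟨c', hc', h2⟩
      refine ⟨c + c', W.add_mem hc hc', ?_⟩
      have := Ideal.add_mem _ h1 h2
      rw [map_add]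
      convert this using 1
      ring
    · rintro z y - ⟨c, hc, h1⟩
      obtain ⟨e, he⟩ := approx J hap z
      refine ⟨e * c, W.mul_mem_left _ hc, ?_⟩
      have := Ideal.add_mem _ (Ideal.mul_mem_left _ z h1) (Ideal.mul_mem_right (io A Ah B c) _ he)
      rw [map_mul, smul_eq_mul]
      convert this using 1
      ring
  obtain ⟨y, hy, z, hz, rfl⟩ := Submodule.mem_sup.1 hx
  obtain ⟨c, hc, h1⟩ := key y hy
  have h2 : io A Ah B (b - c) ∈ J.map (algebraMap A (Ah ⊗[A] B)) := by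
    have := Ideal.sub_mem _ (Ideal.add_mem _ h1 hz) h
    rw [map_sub]
    convert this using 1
    ring
  have h3 := W.add_mem (hJW (comap J hap hco h2)) hc
  rwa [sub_add_cancel] at h3

/-- The abstract form of the comparison. -/
theorem main [Module.Finite A B] [IsNoetherianRing A] (I : Ideal A) [I.IsMaximal]
    (hap : ∀ (φ : Ah) (n : ℕ), ∃ a : A, φ - algebraMap A Ah a ∈ (I ^ n).map (algebraMap A Ah))
    (hco : ∀ (n : ℕ) (a : A), algebraMap A Ah a ∈ (I ^ n).map (algebraMap A Ah) → a ∈ I ^ n)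
    (hc : ∀ a : ℕ → A, (∀ n, a (n + 1) - a n ∈ I ^ n) → ∃ φ : Ah, ∀ n,
      φ - algebraMap A Ah (a n) ∈ (I ^ n).map (algebraMap A Ah))
    (hh : ∀ φ : Ah, (∀ n, φ ∈ (I ^ n).map (algebraMap A Ah)) → φ = 0)
    (h6 : ∀ (P : Ideal (Ah ⊗[A] B)) [P.IsPrime],
      (∀ φ : Ah, φ ⊗ₜ[A] (1 : B) ∈ P → φ = 0) → ∃ ε, ε - 1 ∈ P ∧ ∀ x ∈ P, ε * x = 0)
    (W : ℕ → Ideal B) (hW : Antitone W) (hW1 : (1 : B) ∉ W 1)
    (hWm : ∀ i j b c, b * c ∈ W (i + j) → b ∈ W i ∨ c ∈ W j)
    (hIW : ∀ n, (I ^ n).map (algebraMap A B) ≤ W n)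
    (hWA : ∀ l, ∃ j, ∀ a : A, algebraMap A B a ∈ W j → a ∈ I ^ l) (l : ℕ) :
    ∃ j, ∀ b ∈ W j, ∃ u, u ∉ W 1 ∧ u * b ∈ (I ^ l).map (algebraMap A B) := by
  have hmono : ∀ {m n : ℕ}, m ≤ n → (I ^ n).map (algebraMap A (Ah ⊗[A] B)) ≤
      (I ^ m).map (algebraMap A (Ah ⊗[A] B)) := fun h => Ideal.map_mono (Ideal.pow_le_pow_right h)
  let P : Ideal (Ah ⊗[A] B) := ⨅ n, Q (I ^ n) (W n)
  have hP : ∀ {x}, x ∈ P → ∀ (n : ℕ) (b : B),
      x - io A Ah B b ∈ (I ^ n).map (algebraMap A (Ah ⊗[A] B)) → b ∈ W n :=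
    fun hx n b h => of_mem_Q (fun φ => hap φ n) (hco n) (hIW n) (Ideal.mem_iInf.1 hx n) h
  haveI : P.IsPrime := by
    constructor
    · rw [Ideal.ne_top_iff_one]
      intro h
      exact hW1 (hP h 1 1 (by rw [map_one, sub_self]; exact Ideal.zero_mem _))
    · intro x y hxy
      by_contra hcon
      rw [not_or, Ideal.mem_iInf, Ideal.mem_iInf, not_forall, not_forall] at hcon
      obtain ⟨⟨i, hi⟩, ⟨j, hj⟩⟩ := hcon
      obtain ⟨b, hb⟩ := approx (I ^ (i + j)) (fun φ => hap φ _) x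
      obtain ⟨c, hc⟩ := approx (I ^ (i + j)) (fun φ => hap φ _) y
      have h1 : b * c ∈ W (i + j) := by
        apply hP hxy
        have := Ideal.add_mem _ (Ideal.mul_mem_left _ x hc)
          (Ideal.mul_mem_right (io A Ah B c) _ hb)
        rw [map_mul]
        convert this using 1
        ring
      rcases hWm i j b c h1 with h | h
      · exact hi (mem_Q h (hmono (Nat.le_add_right _ _) hb))
      · exact hj (mem_Q h (hmono (Nat.le_add_left _ _) hc))
  obtain ⟨ε, hε, hε'⟩ := h6 P (by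
    intro φ hφ
    apply hh
    intro n
    obtain ⟨j, hj⟩ := hWA n
    obtain ⟨a, ha⟩ := hap φ (max j n)
    have h1 : algebraMap A B a ∈ W (max j n) := by
      apply hP hφ
      rw [Algebra.algebraMap_eq_smul_one, tmul_sub_io]
      exact tmul_mem _ ha _
    have h2 := Ideal.add_mem _ (Ideal.map_mono (Ideal.pow_le_pow_right (le_max_right j n)) ha)
      (Ideal.mem_map_of_mem (algebraMap A Ah) (hj a (hW (le_max_left _ _) h1)))
    rwa [sub_add_cancel] at h2)
  obtain ⟨j, hj⟩ := chain (fun n => (I ^ n).map (algebraMap A B)) W hW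
    (fun m n h => Ideal.map_mono (Ideal.pow_le_pow_right h))
    (fun N => haveI := artin (B := B) I N; stab _ W hW) l
  refine ⟨j, fun b hb => ?_⟩
  obtain ⟨s, hs1, hs2, hs3⟩ := hj b hb
  obtain ⟨x, hx⟩ := complete (Ah := Ah) (fun n => I ^ n) hc s hs1
  have hxP : x ∈ P := Ideal.mem_iInf.2 fun n => mem_Q (hs3 n) (hx n)
  obtain ⟨u, hu⟩ := approx (I ^ (l + 1)) (fun φ => hap φ _) ε
  refine ⟨u, fun h => hW1 ?_, ?_⟩
  · have h1 : u - 1 ∈ W 1 := by
      apply hP hε
      have := hmono (Nat.le_add_left 1 l) hu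
      rw [map_sub, map_one]
      convert this using 1
      ring
    simpa using (W 1).sub_mem h h1
  · apply comap (Ah := Ah) _ (fun φ => hap φ l) (hco l)
    have h1 : x - io A Ah B b ∈ (I ^ l).map (algebraMap A (Ah ⊗[A] B)) := by
      have := Ideal.add_mem _ (hx l) (io_mem (Ah := Ah) _ (hs2 l))
      rwa [map_sub, sub_add_sub_cancel] at this
    have h2 := Ideal.add_mem _ (Ideal.mul_mem_left _ ε h1)
      (Ideal.mul_mem_right (io A Ah B b) _ (hmono (Nat.le_succ l) hu))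
    rw [mul_sub, hε' x hxP] at h2
    have h3 := Submodule.neg_mem _ h2
    rw [map_mul]
    convert h3 using 1
    ring

end general

/-- The valuation ideals. -/
def VI {k K B : Type} [Field k] [Field K] [Algebra k K] [CommRing B] [Algebra B K]
    (w : Place k K) (h0 : ∀ b : B, w.Ge 0 (algebraMap B K b)) (j : ℕ) : Ideal B where
  carrier := {b | w.Ge j (algebraMap B K b)}
  add_mem' := fun {a b} ha hb => by
    simp only [Set.mem_ofPred_eq, map_add] at *
    exact ha.add hb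
  zero_mem' := by simp
  smul_mem' := fun c b hb => by
    simp only [Set.mem_ofPred_eq, smul_eq_mul, map_mul] at *
    exact (h0 c).mul' hb (by simp)

lemma isMaximal_PI (k : Type) [Field k] (d : ℕ) : (PI k d).IsMaximal := by
  have h : PI k d = RingHom.ker (MvPolynomial.constantCoeff (σ := Fin d) (R := k)) := by
    ext a
    rw [← pow_one (PI k d), MvPolynomial.mem_pow_idealOfVars_iff', RingHom.mem_ker,
      MvPolynomial.constantCoeff_eq]
    constructor
    · intro h; exact h 0 (by simp)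
    · intro h x hx
      have : x = 0 := (Finsupp.degree_eq_zero_iff x).1 (by omega)
      rw [this]; exact h
  rw [h]
  exact RingHom.ker_isMaximal_of_surjective _ fun c => ⟨MvPolynomial.C c, by simp⟩

end ChF

variable {k : Type} [Field k] [IsAlgClosed k] {p : ℕ} [Fact p.Prime] [CharP k p]

omit [IsAlgClosed k] [CharP k p] in
theorem st_H7 (h3 : H3 k p) (h6 : St_H6 k) : St_H7 k := by
  intro d B F K _ _ _ _ _ _ _ _ _ _ _ _ _ _ _ _ _ w n hn hI hA l
  haveI := ChF.isMaximal_PI k d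
  have h0 : ∀ b : B, w.Ge 0 (algebraMap B K b) := fun b => (hn b).1
  have hmem : ∀ (j : ℕ) (b : B), b ∈ ChF.VI w h0 j ↔ w.Ge j (algebraMap B K b) :=
    fun _ _ => Iff.rfl
  obtain ⟨j, hj⟩ := ChF.main (Ah := PS k d) (PI k d) h3.approx h3.comap h3.complete h3.haus
    (fun P _ hP => h6 (F := F) (K := K) P hP) (ChF.VI w h0)
    (fun i j hij b hb => Place.Ge.mono hb (by exact_mod_cast hij))
    (by rw [hmem, map_one, Place.not_ge_iff]; simp)
    (by
      intro i j b c hbc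
      by_contra hcon
      rw [not_or, hmem, hmem, Place.not_ge_iff, Place.not_ge_iff] at hcon
      obtain ⟨⟨hb, hb'⟩, hc, hc'⟩ := hcon
      rw [hmem, map_mul, Place.ge_iff (mul_ne_zero hb hc), w.ord_mul hb hc] at hbc
      push_cast at hbc
      omega)
    (by
      intro m
      rw [Ideal.map_le_iff_le_comap]
      induction m with
      | zero => intro a _; exact h0 _
      | succ m ih =>
        rw [pow_succ, Ideal.mul_le]
        intro a ha b hb
        have h1 := ih ha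
        have h2 := hI b hb
        rw [Ideal.mem_comap, hmem] at h1 ⊢
        rw [IsScalarTower.algebraMap_apply (PA k d) B K] at h2
        rw [map_mul, map_mul]
        exact h1.mul' h2 (by push_cast; rfl))
    (by
      intro m
      obtain ⟨j, hj⟩ := hA m
      refine ⟨j.toNat, fun a ha => hj a ?_⟩
      rw [hmem, ← IsScalarTower.algebraMap_apply] at ha
      exact ha.mono (Int.self_le_toNat j)) l
  refine ⟨j, fun b hb => ?_⟩
  obtain ⟨u, hu, hu'⟩ := hj b hb
  exact ⟨u, fun h => hu ((hn u).2.1 h), hu'⟩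

end Pool.Agent.Lib.MP_5f81cf_ag.Full
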