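import Pool.Agent.Lib.MP_5f81cf_ag.FBlue4

/-! The comparison of a divisorial valuation with the adic topology, from the finite case. -/

namespace Pool.Agent.Lib.MP_5f81cf_ag.Full

open Pool.Agent.Lib.MP_e06174_ag

/-- A maximal ideal minimal over `J` is isolated among the primes containing `J`. -/
lemma chG_isolated {R : Type} [CommRing R] [IsNoetherianRing R] (J m : Ideal R) [m.IsMaximal]
    (hm : m ∈ J.minimalPrimes) :
    ∃ g, g ∉ m ∧ ∀ Q : Ideal R, Q.IsPrime → J ≤ Q → g ∉ Q → Q = m := by
  classical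
  have hfin := J.finite_minimalPrimes_of_isNoetherianRing R
  have hex : ∀ P ∈ J.minimalPrimes, P ≠ m → ∃ g, g ∈ P ∧ g ∉ m := by
    intro P hP hne
    by_contra hcon
    push Not at hcon
    exact hne (le_antisymm hcon (hm.2 hP.1 hcon))
  choose! γ hγ using hex
  refine ⟨∏ P ∈ hfin.toFinset.erase m, γ P, ?_, ?_⟩
  · intro hmem
    obtain ⟨P, hP, hPm⟩ := (Ideal.IsPrime.prod_mem_iff (p := m)).1 hmem
    rw [Finset.mem_erase, Set.Finite.mem_toFinset] at hP
    exact (hγ P hP.2 hP.1).2 hPm
  · intro Q hQ hJQ hg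
    obtain ⟨P, hP, hPQ⟩ := Ideal.exists_minimalPrimes_le hJQ
    by_cases hPm : P = m
    · subst hPm
      exact ((Ideal.IsMaximal.eq_of_le ‹_› hQ.ne_top hPQ)).symm
    · exfalso
      apply hg
      have hmem : P ∈ hfin.toFinset.erase m := by
        rw [Finset.mem_erase, Set.Finite.mem_toFinset]; exact ⟨hPm, hP⟩
      exact Ideal.mem_of_dvd _ (Finset.dvd_prod_of_mem γ hmem) (hPQ (hγ P hP hPm).1)

/-- Zariski's main theorem at an isolated point. -/
lemma chG_zmt {A R : Type} [CommRing A] [CommRing R] [Algebra A R] [Algebra.FiniteType A R]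
    [IsNoetherianRing R] (I : Ideal A) (m : Ideal R) [m.IsMaximal]
    (hm : m ∈ (I.map (algebraMap A R)).minimalPrimes) :
    ∃ s, s ∉ m ∧ ∀ x : R, ∃ N : ℕ, IsIntegral A (s ^ N * x) := by
  obtain ⟨g, hg, hQ⟩ := chG_isolated _ m hm
  have hq : Algebra.QuasiFiniteAt A (⟨m, inferInstance⟩ : PrimeSpectrum R).asIdeal := by
    refine Algebra.QuasiFiniteAt.of_isOpen_singleton_fiber _ ?_
    refine isOpen_induced_iff.2 ⟨PrimeSpectrum.basicOpen g, (PrimeSpectrum.basicOpen g).isOpen, ?_⟩
    ext ⟨Q, hQm⟩
    simp only [Set.mem_preimage, SetLike.mem_coe, PrimeSpectrum.mem_basicOpen,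
      Set.mem_singleton_iff, Subtype.mk.injEq]
    constructor
    · intro hgQ
      refine PrimeSpectrum.ext (hQ Q.asIdeal Q.isPrime ?_ hgQ)
      rw [Ideal.map_le_iff_le_comap]
      have h1 : Q.asIdeal.comap (algebraMap A R) = m.comap (algebraMap A R) :=
        congrArg PrimeSpectrum.asIdeal hQm
      rw [h1, ← Ideal.map_le_iff_le_comap]
      exact hm.1.2
    · rintro rfl
      exact hg
  exact Algebra.zariskisMainProperty_iff'.1
    (@Algebra.ZariskisMainProperty.of_finiteType A R _ _ _ _ m _ hq)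

variable {k : Type} [Field k] {p : ℕ} [Fact p.Prime]

/-- The comparison once the parameters are chosen. -/
lemma chG_main (h7 : St_H7 k) {d : ℕ} {R F K : Type} [CommRing R] [IsDomain R]
    [IsIntegrallyClosed R] [IsNoetherianRing R] [Algebra (PA k d) R]
    [Algebra.FiniteType (PA k d) R] [Field F] [Algebra (PA k d) F] [IsFractionRing (PA k d) F]
    [Field K] [Algebra R K] [IsFractionRing R K] [Algebra (PA k d) K] [Algebra F K]
    [IsScalarTower (PA k d) R K] [IsScalarTower (PA k d) F K] [Algebra.IsSeparable F K]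
    [FiniteDimensional F K] [Algebra k K] (w : Place k K) (m : Ideal R) [m.IsMaximal]
    (hw : HasCentre w m) (hm : m ∈ ((PI k d).map (algebraMap (PA k d) R)).minimalPrimes)
    (hj : ∀ l : ℕ, ∃ j : ℤ, ∀ a : PA k d, w.Ge j (algebraMap (PA k d) K a) → a ∈ PI k d ^ l)
    (l : ℕ) : ∃ j : ℤ, ∀ r : R, w.Ge j (algebraMap R K r) → r ∈ m ^ l := by
  let B := integralClosure (PA k d) K
  have : IsIntegrallyClosed B := integralClosure.isIntegrallyClosedOfFiniteExtension F
  have : IsFractionRing B K := integralClosure.isFractionRing_of_finite_extension F K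
  have : Module.Finite (PA k d) B := IsIntegralClosure.finite (PA k d) F K B
  have hinj : Function.Injective (algebraMap R K) := IsFractionRing.injective R K
  have hex : ∀ b : B, ∃ r : R, algebraMap R K r = algebraMap B K b := fun b =>
    IsIntegrallyClosed.isIntegral_iff.1 (IsIntegral.tower_top (R := PA k d) b.2)
  choose φ₀ hφ₀ using hex
  let φ : B →+* R :=
    { toFun := φ₀
      map_one' := hinj (by simp only [hφ₀, map_one])
      map_mul' := fun a b => hinj (by simp only [hφ₀, map_mul])
      map_zero' := hinj (by simp only [hφ₀, map_zero])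
      map_add' := fun a b => hinj (by simp only [hφ₀, map_add]) }
  have hφ : ∀ b, algebraMap R K (φ b) = algebraMap B K b := hφ₀
  have hcomp : φ.comp (algebraMap (PA k d) B) = algebraMap (PA k d) R := by
    refine RingHom.ext fun a => hinj ?_
    rw [RingHom.comp_apply, hφ, ← IsScalarTower.algebraMap_apply,
      ← IsScalarTower.algebraMap_apply]
  have hn : HasCentre w (m.comap φ) := by
    intro b
    rw [← hφ, Ideal.mem_comap]
    exact hw (φ b)
  have hle : (PI k d).map (algebraMap (PA k d) R) ≤ m := hm.1.2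
  have h1 : ∀ a ∈ PI k d, w.Ge 1 (algebraMap (PA k d) K a) := by
    intro a ha
    rw [IsScalarTower.algebraMap_apply (PA k d) R K]
    exact (hw _).2.1 (hle (Ideal.mem_map_of_mem _ ha))
  obtain ⟨j, hjB⟩ := h7 (B := B) (F := F) (K := K) w (m.comap φ) hn h1 hj l
  obtain ⟨s, hs, hsN⟩ := chG_zmt (PI k d) m hm
  refine ⟨j, fun r hr => ?_⟩
  obtain ⟨N, hN⟩ := hsN r
  let b : B := ⟨algebraMap R K (s ^ N * r), hN.algebraMap⟩
  have hb : φ b = s ^ N * r := hinj (hφ b)
  have hbj : w.Ge j (algebraMap B K b) := by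
    rw [← hφ, hb, map_mul]
    exact (hw _).1.mul' hr (by omega)
  obtain ⟨u, hu, hub⟩ := hjB b hbj
  have h2 := Ideal.mem_map_of_mem φ hub
  rw [Ideal.map_map, hcomp, Ideal.map_pow, map_mul, hb] at h2
  have h3 := Ideal.pow_right_mono hle l h2
  have h4 := (Ideal.IsMaximal.mul_mem_pow m h3).resolve_left hu
  exact (Ideal.IsMaximal.mul_mem_pow m h4).resolve_left
    fun h => hs (Ideal.IsPrime.mem_of_pow_mem inferInstance N h)

theorem st_CH (c1 : Car1 k p) (c2 : Car2 k p) (h1 : St_H1 k p) (h7 : St_H7 k) : St_CH k := by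
  intro R K _ _ _ _ _ _ _ _ _ _ d m _ w hd hw hdiv l
  obtain ⟨f, hpb, hmin, hj⟩ := h1 m w hd hw hdiv
  have : Algebra.EssFiniteType R K := .of_isLocalization K (nonZeroDivisors R)
  have : Algebra.EssFiniteType k K := .comp k R K
  have : IsNoetherianRing R := Algebra.FiniteType.isNoetherianRing k R
  set x : Fin d → K := fun i => algebraMap R K (f i) with hx
  have hind : AlgebraicIndependent k x := c1.algInd hpb
  let F := IntermediateField.adjoin k (Set.range x)
  have : FiniteDimensional F K := c2.finite hpb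
  have : Algebra.IsSeparable F K := c2.sep hpb
  let _ : Algebra (PA k d) R := (MvPolynomial.aeval f).toRingHom.toAlgebra
  have hR : ∀ a, algebraMap (PA k d) R a = MvPolynomial.aeval f a := fun _ => rfl
  let _ : Algebra (PA k d) K := ((algebraMap R K).comp (algebraMap (PA k d) R)).toAlgebra
  have hK : ∀ a, algebraMap (PA k d) K a = algebraMap R K (MvPolynomial.aeval f a) := fun _ => rfl
  have : IsScalarTower (PA k d) R K := .of_algebraMap_eq fun _ => rfl
  have : IsScalarTower k (PA k d) R := .of_algebraMap_eq fun c => by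
    rw [hR, AlgHom.commutes]
  have : Algebra.FiniteType (PA k d) R := .of_restrictScalars_finiteType k _ _
  let _ : Algebra (PA k d) F := (hind.aevalEquivField.toRingEquiv.toRingHom.comp
    (algebraMap (PA k d) (FractionRing (PA k d)))).toAlgebra
  have hF : ∀ a, algebraMap (PA k d) F a =
      hind.aevalEquivField (algebraMap (PA k d) (FractionRing (PA k d)) a) := fun _ => rfl
  have : IsFractionRing (PA k d) F :=
    IsLocalization.isLocalization_of_algEquiv (nonZeroDivisors (PA k d))
      (AlgEquiv.ofRingEquiv (R := PA k d) (f := hind.aevalEquivField.toRingEquiv) fun _ => rfl)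
  have : IsScalarTower (PA k d) F K := .of_algebraMap_eq fun a => by
    rw [hK, hF]
    change _ = ((hind.aevalEquivField (algebraMap (PA k d) (FractionRing (PA k d)) a) : F) : K)
    rw [hind.aevalEquivField_algebraMap_apply_coe]
    exact (MvPolynomial.aeval_algebraMap_apply K f a).symm
  have hmap : (PI k d).map (algebraMap (PA k d) R) = Ideal.span (Set.range f) := by
    rw [PI, MvPolynomial.idealOfVars, Ideal.map_span, ← Set.range_comp]
    congr 2
    funext i
    simp [hR]
  exact chG_main (F := F) @h7 w m hw (hmap ▸ hmin) hj l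

end Pool.Agent.Lib.MP_5f81cf_ag.Full
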