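import Pool.Agent.Lib.MP_5f81cf_ag.FBlue5

/-! Places, divisors and approximation on the projective line. -/

namespace Pool.Agent.Lib.MP_5f81cf_ag.Full

open Pool.Agent.Lib.MP_e06174_ag Polynomial

namespace CurA

variable {k : Type} [Field k]

lemma dg_add (D E : Pt k →₀ ℤ) : dg (D + E) = dg D + dg E :=
  Finsupp.sum_add_index' (fun _ => rfl) fun _ _ _ => rfl

lemma dg_single (P : Pt k) (n : ℤ) : dg (Finsupp.single P n) = n := Finsupp.sum_single_index rfl

lemma dg_zero : dg (0 : Pt k →₀ ℤ) = 0 := Finsupp.sum_zero_index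

lemma dg_neg (D : Pt k →₀ ℤ) : dg (-D) = -dg D := by
  have := dg_add D (-D)
  rw [add_neg_cancel, dg_zero] at this
  omega

lemma dg_sub (D E : Pt k →₀ ℤ) : dg (D - E) = dg D - dg E := by
  rw [sub_eq_add_neg, dg_add, dg_neg, sub_eq_add_neg]

lemma dg_nonneg {D : Pt k →₀ ℤ} (h : ∀ P, 0 ≤ D P) : 0 ≤ dg D :=
  Finset.sum_nonneg fun P _ => h P

/-- The linear function `X - c`. -/
noncomputable def lin (c : k) : RatFunc k := RatFunc.X - algebraMap k _ c

lemma lin_eq (c : k) : lin c = algebraMap k[X] (RatFunc k) (X - C c) := by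
  rw [lin, map_sub, RatFunc.algebraMap_X, RatFunc.algebraMap_C]; rfl

lemma lin_ne (c : k) : lin c ≠ 0 := by
  rw [lin_eq]; exact RatFunc.algebraMap_ne_zero (X_sub_C_ne_zero c)

lemma lin_zero : lin (0 : k) = RatFunc.X := by simp [lin]

lemma ind [IsAlgClosed k] (Q : RatFunc k → Prop) (hc : ∀ a : k, a ≠ 0 → Q (algebraMap k _ a))
    (hL : ∀ c, Q (lin c)) (hmul : ∀ f g, f ≠ 0 → g ≠ 0 → Q f → Q g → Q (f * g))
    (hinv : ∀ f, f ≠ 0 → Q f → Q f⁻¹) (f : RatFunc k) (hf : f ≠ 0) : Q f := by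
  have hp : ∀ a : k[X], a ≠ 0 → Q (algebraMap k[X] (RatFunc k) a) := by
    intro a
    have hs : a.Splits := IsAlgClosed.splits a
    induction hs using Submonoid.closure_induction with
    | mem a ha =>
      obtain (⟨r, rfl⟩ | ⟨r, rfl⟩) := ha
      · intro h
        rw [RatFunc.algebraMap_C]
        exact hc r (by simpa using h)
      · intro _
        have := hL (-r)
        rwa [lin_eq, map_neg, sub_neg_eq_add] at this
    | one => intro _; simpa using hc 1 one_ne_zero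
    | mul a b _ _ ha hb =>
      intro h
      have h1 := left_ne_zero_of_mul h
      have h2 := right_ne_zero_of_mul h
      rw [map_mul]
      exact hmul _ _ (RatFunc.algebraMap_ne_zero h1) (RatFunc.algebraMap_ne_zero h2) (ha h1) (hb h2)
  have h1 := RatFunc.num_ne_zero hf
  have h2 := RatFunc.denom_ne_zero f
  rw [← RatFunc.num_div_denom f, div_eq_mul_inv]
  exact hmul _ _ (RatFunc.algebraMap_ne_zero h1) (inv_ne_zero (RatFunc.algebraMap_ne_zero h2))
    (hp _ h1) (hinv _ (RatFunc.algebraMap_ne_zero h2) (hp _ h2))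

lemma const_ne {a : k} (ha : a ≠ 0) : algebraMap k (RatFunc k) a ≠ 0 := by simpa using ha

lemma dvd_one [IsAlgClosed k] (P : Pt k) (e : ℤ) (h : ∀ c, e ∣ P.ord (lin c)) : e ∣ 1 := by
  obtain ⟨π, h0, h1⟩ := P.exists_ord_eq_one
  rw [← h1]
  refine ind (fun f => e ∣ P.ord f) (fun a _ => by rw [Place.ord_const]; simp) h (fun f g hf hg h1 h2 => ?_)
    (fun f _ h1 => by simpa using h1) π h0
  rw [P.ord_mul hf hg]
  exact dvd_add h1 h2

lemma ext_lin [IsAlgClosed k] {P Q : Pt k} (h : ∀ c, P.ord (lin c) = Q.ord (lin c)) : P = Q := by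
  refine Place.ext_ord (ind (fun f => P.ord f = Q.ord f)
    (fun a _ => by rw [Place.ord_const, Place.ord_const]) h
    (fun f g hf hg h1 h2 => ?_) fun f _ h1 => by simpa using h1)
  rw [P.ord_mul hf hg, Q.ord_mul hf hg, h1, h2]

open Classical in
lemma ord_of_ge_one [IsAlgClosed k] {P : Pt k} {c : k} (h : P.Ge 1 (lin c)) (c' : k) :
    P.ord (lin c') = if c' = c then 1 else 0 := by
  have h1 : ∀ c', c' ≠ c → P.ord (lin c') = 0 := fun c' hc =>
    (Place.ord_eq_zero_of_ge_sub_const (c := c - c') (sub_ne_zero.mpr hc.symm) (by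
      have : lin c' - algebraMap k _ (c - c') = lin c := by simp [lin]
      rwa [this])).2
  split_ifs with hc
  · subst hc
    have h2 := h.le (lin_ne _)
    refine Int.eq_one_of_dvd_one (by omega) (dvd_one P _ fun c'' => ?_)
    by_cases h3 : c'' = c'
    · rw [h3]
    · rw [h1 _ h3]; exact dvd_zero _
  · exact h1 _ hc

lemma ord_of_neg [IsAlgClosed k] {P : Pt k} (h : ¬ P.Ge 0 RatFunc.X) (c : k) :
    P.ord (lin c) = -1 := by
  obtain ⟨h0, h1⟩ := Place.not_ge_iff.1 h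
  have h2 : ∀ c : k, P.ord (lin c) = P.ord RatFunc.X := fun c => by
    rw [lin, sub_eq_add_neg]
    exact (Place.ord_add_of_ge h0 ((Place.ge_const c).neg.mono (by omega))).2
  have h3 := dvd_one P (-P.ord RatFunc.X) fun c => by rw [h2]; exact (dvd_refl _).neg_left
  have := Int.eq_one_of_dvd_one (by omega) h3
  rw [h2]; omega

lemma exists_pt (c : k) : ∃ P : Pt k, P.Ge 1 (lin c) := by
  obtain ⟨W, hW⟩ := exists_place_prime (k := k) (K := RatFunc k) (prime_X_sub_C c)
  exact ⟨W, by rw [lin_eq]; exact_mod_cast (hW 1 (X - C c)).2 (by simp)⟩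

lemma exists_inf : ∃ P : Pt k, ¬ P.Ge 0 RatFunc.X := by
  refine ⟨Place.ofOrd (fun f => -f.intDegree) (fun x y hx hy => ?_) (fun x y _ hy hxy => ?_)
    (fun c _ => ?_) ⟨RatFunc.X⁻¹, inv_ne_zero RatFunc.X_ne_zero, ?_⟩, ?_⟩
  · rw [RatFunc.intDegree_mul hx hy]; ring
  · have := RatFunc.intDegree_add_le hy hxy
    omega
  · exact neg_eq_zero.mpr (RatFunc.intDegree_C c)
  · simp [RatFunc.intDegree_inv]
  · rw [Place.ge_iff RatFunc.X_ne_zero, Place.ofOrd_ord _ _ _ _ _ RatFunc.X_ne_zero]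
    simp

variable (k) in
/-- The point at infinity. -/
noncomputable def inf : Pt k := exists_inf.choose

/-- The point with coordinate `c`. -/
noncomputable def pt (c : k) : Pt k := (exists_pt c).choose

lemma inf_spec : ¬ (inf k).Ge 0 RatFunc.X := exists_inf.choose_spec

lemma pt_spec (c : k) : (pt c).Ge 1 (lin c) := (exists_pt c).choose_spec

variable [IsAlgClosed k]

lemma ord_inf (c : k) : (inf k).ord (lin c) = -1 := ord_of_neg inf_spec c

open Classical in
lemma ord_pt (c c' : k) : (pt c).ord (lin c') = if c' = c then 1 else 0 :=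
  ord_of_ge_one (pt_spec c) c'

lemma ord_inf_X : (inf k).ord RatFunc.X = -1 := by rw [← lin_zero, ord_inf]

lemma pt_cases (P : Pt k) : P = inf k ∨ ∃ c, P = pt c := by
  by_cases h : P.Ge 0 RatFunc.X
  · right
    have h1 : ∃ c, P.Ge 1 (lin c) := by
      by_contra! h1
      refine absurd (dvd_one P 0 fun c => ?_) (by simp)
      have h2 := (Place.not_ge_iff.1 (h1 c)).2
      have h3 := (h.sub (Place.ge_const c)).le (lin_ne c)
      have h4 : P.ord (lin c) = 0 := by rw [lin] at h2 ⊢; omega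
      rw [h4]
    obtain ⟨c, hc⟩ := h1
    exact ⟨c, ext_lin fun c' => by rw [ord_of_ge_one hc, ord_pt]⟩
  · exact Or.inl (ext_lin fun c => by rw [ord_of_neg h, ord_inf])

lemma pt_ne_inf (c : k) : pt c ≠ inf k := fun h => by
  have := ord_pt c c
  rw [h, ord_inf] at this
  simp at this

lemma pt_inj : Function.Injective (pt : k → Pt k) := fun c c' h => by
  have := ord_pt c c
  rw [h, ord_pt] at this
  by_contra hc
  simp [hc] at this

lemma ge_X {P : Pt k} (h : P ≠ inf k) : P.Ge 0 RatFunc.X := by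
  obtain ⟨c, rfl⟩ := (pt_cases P).resolve_left h
  refine Place.ge_of_le ?_
  rw [← lin_zero, ord_pt]
  split_ifs <;> simp

open Classical in
lemma ord_lin (c : k) (P : Pt k) : P.ord (lin c) =
    (Finsupp.single (pt c) (1 : ℤ) - Finsupp.single (inf k) (1 : ℤ) : Pt k →₀ ℤ) P := by
  rw [Finsupp.sub_apply, Finsupp.single_apply, Finsupp.single_apply]
  rcases pt_cases P with rfl | ⟨c', rfl⟩
  · simp [ord_inf, pt_ne_inf]
  · simp [ord_pt, (pt_ne_inf c').symm, pt_inj.eq_iff]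

lemma dv (f : RatFunc k) (hf : f ≠ 0) : ∃ D : Pt k →₀ ℤ, (∀ P, D P = P.ord f) ∧ dg D = 0 := by
  refine ind (fun f => ∃ D : Pt k →₀ ℤ, (∀ P, D P = P.ord f) ∧ dg D = 0)
    (fun a _ => ⟨0, fun P => (P.ord_const a).symm, dg_zero⟩)
    (fun c => ⟨_, fun P => (ord_lin c P).symm, by simp [dg_sub, dg_single]⟩) ?_ ?_ f hf
  · rintro f g hf hg ⟨D, h1, h2⟩ ⟨E, h3, h4⟩
    exact ⟨D + E, fun P => by rw [Finsupp.add_apply, h1, h3, P.ord_mul hf hg],
      by rw [dg_add, h2, h4, add_zero]⟩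
  · rintro f _ ⟨D, h1, h2⟩
    exact ⟨-D, fun P => by simp [h1], by rw [dg_neg, h2, neg_zero]⟩

lemma exists_dv' (D : Pt k →₀ ℤ) : ∃ f : RatFunc k, f ≠ 0 ∧
    ∀ P : Pt k, P.ord f = (D - Finsupp.single (inf k) (dg D) : Pt k →₀ ℤ) P := by
  induction D using Finsupp.induction_linear with
  | zero => exact ⟨1, one_ne_zero, fun P => by simp [dg_zero]⟩
  | add D E hD hE =>
    obtain ⟨f, hf, h1⟩ := hD
    obtain ⟨g, hg, h2⟩ := hE
    refine ⟨f * g, mul_ne_zero hf hg, fun P => ?_⟩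
    rw [P.ord_mul hf hg, h1, h2, dg_add, Finsupp.single_add]
    simp only [Finsupp.sub_apply, Finsupp.add_apply]
    ring
  | single Q n =>
    rcases pt_cases Q with rfl | ⟨c, rfl⟩
    · exact ⟨1, one_ne_zero, fun P => by simp [dg_single]⟩
    · refine ⟨lin c ^ n, zpow_ne_zero _ (lin_ne c), fun P => ?_⟩
      classical
      rw [Place.ord_zpow, ord_lin, dg_single]
      simp only [Finsupp.sub_apply, Finsupp.single_apply]
      split_ifs <;> ring

lemma exists_dv (D : Pt k →₀ ℤ) (h : dg D = 0) : ∃ f : RatFunc k, f ≠ 0 ∧ ∀ P, P.ord f = D P := by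
  obtain ⟨f, hf, h1⟩ := exists_dv' D
  exact ⟨f, hf, fun P => by simp [h1, h]⟩

omit [IsAlgClosed k] in
lemma un_mul {P : Pt k} {f g : RatFunc k} (hf : ∃ a : k, a ≠ 0 ∧ P.Ge 1 (f - algebraMap k _ a))
    (hg : ∃ a : k, a ≠ 0 ∧ P.Ge 1 (g - algebraMap k _ a)) :
    ∃ a : k, a ≠ 0 ∧ P.Ge 1 (f * g - algebraMap k _ a) := by
  obtain ⟨a, ha, h1⟩ := hf
  obtain ⟨b, hb, h2⟩ := hg
  refine ⟨a * b, mul_ne_zero ha hb, ?_⟩
  have h3 : P.Ge 0 f := Place.ge_of_le (Place.ord_eq_zero_of_ge_sub_const ha h1).2.ge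
  have : f * g - algebraMap k _ (a * b) =
      f * (g - algebraMap k _ b) + algebraMap k _ b * (f - algebraMap k _ a) := by
    rw [map_mul]; ring
  rw [this]
  exact (h3.mul' h2 (by simp)).add ((Place.ge_const b).mul' h1 (by simp))

omit [IsAlgClosed k] in
lemma un_inv {P : Pt k} {f : RatFunc k} (hf : ∃ a : k, a ≠ 0 ∧ P.Ge 1 (f - algebraMap k _ a)) :
    ∃ a : k, a ≠ 0 ∧ P.Ge 1 (f⁻¹ - algebraMap k _ a) := by
  obtain ⟨a, ha, h1⟩ := hf
  refine ⟨a⁻¹, inv_ne_zero ha, ?_⟩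
  obtain ⟨h0, h2⟩ := Place.ord_eq_zero_of_ge_sub_const ha h1
  have h3 : P.Ge 0 f⁻¹ := Place.ge_of_le (by simp [h2])
  have h4 := const_ne ha
  have : f⁻¹ - algebraMap k _ a⁻¹ = -(algebraMap k _ a⁻¹ * f⁻¹ * (f - algebraMap k _ a)) := by
    rw [map_inv₀]; field_simp; ring
  rw [this]
  exact (((Place.ge_const _).mul h3).mul' h1 (by simp)).neg

lemma res (P : Pt k) (f : RatFunc k) (hf : P.Ge 0 f) : ∃ c : k, P.Ge 1 (f - algebraMap k _ c) := by
  by_cases h1 : P.Ge 1 f
  · exact ⟨0, by simpa using h1⟩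
  obtain ⟨h0, h2⟩ := Place.not_ge_iff.1 h1
  have h3 := hf.le h0
  have ht : ∃ t : RatFunc k, t ≠ 0 ∧ P.ord t ≠ 0 ∧ ∀ c, ∃ n : ℤ, ∃ a : k, a ≠ 0 ∧
      P.Ge 1 (lin c * t ^ n - algebraMap k _ a) := by
    rcases pt_cases P with rfl | ⟨c, rfl⟩
    · refine ⟨RatFunc.X, RatFunc.X_ne_zero, by simp [ord_inf_X], fun c => ⟨-1, 1, one_ne_zero, ?_⟩⟩
      have hX : (RatFunc.X : RatFunc k) ≠ 0 := RatFunc.X_ne_zero
      have : lin c * RatFunc.X ^ (-1 : ℤ) - algebraMap k _ 1 =
          -(algebraMap k _ c * (RatFunc.X : RatFunc k)⁻¹) := by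
        rw [lin, map_one, zpow_neg_one]; field_simp; ring
      rw [this]
      exact ((Place.ge_const c).mul' (Place.ge_of_le (n := 1) (by simp [ord_inf_X])) (by simp)).neg
    · refine ⟨lin c, lin_ne c, by simp [ord_pt], fun c' => ?_⟩
      by_cases hc : c' = c
      · refine ⟨-1, 1, one_ne_zero, ?_⟩
        rw [hc, zpow_neg_one, mul_inv_cancel₀ (lin_ne c), map_one, sub_self]
        exact Place.ge_zero _
      · refine ⟨0, c - c', sub_ne_zero.mpr (Ne.symm hc), ?_⟩
        have : lin c' * lin c ^ (0 : ℤ) - algebraMap k _ (c - c') = lin c := by simp [lin]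
        rw [this]
        exact pt_spec c
  obtain ⟨t, ht0, ht1, ht⟩ := ht
  have key := ind (fun f => ∃ n : ℤ, ∃ a : k, a ≠ 0 ∧ P.Ge 1 (f * t ^ n - algebraMap k _ a))
    (fun a ha => ⟨0, a, ha, by simp⟩) ht
    (fun f g _ _ ⟨n, hn⟩ ⟨m, hm⟩ => ⟨n + m, by
      have := un_mul hn hm
      rwa [mul_mul_mul_comm, ← zpow_add₀ ht0] at this⟩)
    (fun f _ ⟨n, hn⟩ => ⟨-n, by
      have := un_inv hn
      rwa [mul_inv, ← zpow_neg] at this⟩) f h0
  obtain ⟨n, a, ha, hn⟩ := key
  have h4 := (Place.ord_eq_zero_of_ge_sub_const ha hn).2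
  rw [P.ord_mul h0 (zpow_ne_zero _ ht0), Place.ord_zpow, show P.ord f = 0 by omega, zero_add,
    mul_eq_zero] at h4
  rw [h4.resolve_right ht1, zpow_zero, mul_one] at hn
  exact ⟨a, hn⟩

lemma eq_zero_of_neg {D : Pt k →₀ ℤ} (hD : dg D < 0) {f : RatFunc k} (hf : f ∈ LL D) : f = 0 := by
  by_contra h0
  obtain ⟨E, h1, h2⟩ := dv f h0
  have := dg_nonneg (D := E + D) fun P => by
    have : -D P ≤ P.ord f := (hf P).le h0
    rw [Finsupp.add_apply, h1]
    omega
  rw [dg_add] at this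
  omega

lemma exact_LL (D : Pt k →₀ ℤ) (Q : Pt k) (hD : 0 ≤ dg D) :
    ∃ f : RatFunc k, f ≠ 0 ∧ f ∈ LL D ∧ Q.ord f = -D Q := by
  classical
  have : Infinite (Pt k) := Infinite.of_injective _ pt_inj
  obtain ⟨Q', hQ⟩ := exists_ne Q
  obtain ⟨f, hf, h1⟩ := exists_dv (Finsupp.single Q' (dg D) - D) (by simp [dg_sub, dg_single])
  refine ⟨f, hf, fun P => Place.ge_of_le ?_, by simp [h1, hQ]⟩
  rw [h1, Finsupp.sub_apply, Finsupp.single_apply]
  change -D P ≤ _
  split_ifs <;> omega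

/-- One removes a pole with the help of a function having exactly this pole. -/
lemma sub_ge {Q : Pt k} {n : ℤ} {φ h : RatFunc k} (h0 : φ ≠ 0) (h1 : Q.ord φ = n)
    (h2 : Q.Ge n h) : ∃ c : k, Q.Ge (n + 1) (h - c • φ) := by
  have h3 : Q.Ge 0 (h * φ⁻¹) := h2.mul' (Place.ge_ord _) (by simp [h1])
  obtain ⟨c, hc⟩ := res Q _ h3
  refine ⟨c, ?_⟩
  have : h - c • φ = φ * (h * φ⁻¹ - algebraMap k _ c) := by
    rw [Algebra.smul_def]; field_simp
  rw [this]
  exact (Place.ge_of_le h1.ge).mul hc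

lemma span_of_LL (n : ℕ) (f : RatFunc k) (hf : f ∈ LL (Finsupp.single (inf k) ((n : ℤ) - 1))) :
    f ∈ Submodule.span k (Set.range fun i : Fin n => (RatFunc.X : RatFunc k) ^ (i : ℕ)) := by
  classical
  induction n generalizing f with
  | zero => rw [eq_zero_of_neg (by rw [dg_single]; simp) hf]; exact zero_mem _
  | succ n ih =>
    obtain ⟨c, hc⟩ := sub_ge (Q := inf k) (n := -n) (φ := RatFunc.X ^ n) (h := f)
      (pow_ne_zero _ RatFunc.X_ne_zero) (by simp [ord_inf_X]) (by simpa using hf (inf k))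
    have h1 := ih (f - c • RatFunc.X ^ n) fun P => by
      by_cases hP : P = inf k
      · subst hP
        exact hc.mono (by simp only [Finsupp.single_eq_same]; omega)
      · have h2 := hf P
        simp only [Finsupp.single_apply, if_neg (Ne.symm hP), neg_zero] at h2 ⊢
        exact h2.sub (Place.Ge.smul (by simpa using (ge_X hP).pow n) c)
    rw [← sub_add_cancel f (c • RatFunc.X ^ n)]
    refine add_mem (Submodule.span_mono ?_ h1)
      (Submodule.smul_mem _ _ (Submodule.subset_span ⟨Fin.last n, rfl⟩))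
    rintro _ ⟨i, rfl⟩
    exact ⟨i.castSucc, rfl⟩

lemma LL_inf (n : ℕ) : LL (Finsupp.single (inf k) (n : ℤ)) =
    Submodule.span k (Set.range fun i : Fin (n + 1) => (RatFunc.X : RatFunc k) ^ (i : ℕ)) := by
  classical
  refine le_antisymm (fun f hf => span_of_LL (n + 1) f (by simpa using hf)) ?_
  rw [Submodule.span_le]
  rintro _ ⟨i, rfl⟩ P
  by_cases hP : P = inf k
  · subst hP
    have := i.2
    refine Place.ge_of_le ?_
    simp only [Finsupp.single_eq_same, Place.ord_pow, ord_inf_X]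
    omega
  · simpa [Finsupp.single_apply, Ne.symm hP] using (ge_X hP).pow i

variable (k) in
/-- Divisors of excess poles that can be removed. -/
def Ap : AddSubmonoid (Pt k →₀ ℤ) where
  carrier := {E | 0 ≤ dg E ∧ ∀ (D : Pt k →₀ ℤ) (h : Pt k → RatFunc k), -1 ≤ dg D →
    (∀ P : Pt k, P.Ge (-D P - E P) (h P)) → ∃ f : RatFunc k, ∀ P : Pt k, P.Ge (-D P) (f - h P)}
  zero_mem' := ⟨dg_zero.ge, fun D h _ h1 => ⟨0, fun P => by simpa using (h1 P).neg⟩⟩
  add_mem' := by
    rintro E E' ⟨h1, h2⟩ ⟨h3, h4⟩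
    refine ⟨by rw [dg_add]; omega, fun D h hD hh => ?_⟩
    obtain ⟨f, hf⟩ := h4 (D + E) h (by rw [dg_add]; omega) fun P =>
      (hh P).mono (by simp only [Finsupp.add_apply]; omega)
    obtain ⟨g, hg⟩ := h2 D (fun P => h P - f) hD fun P => by
      simpa using (hf P).neg.mono (m := -D P - E P) (by simp only [Finsupp.add_apply]; omega)
    refine ⟨f + g, fun P => ?_⟩
    have := hg P
    rwa [show g - (h P - f) = f + g - h P by ring] at this

lemma single_mem_Ap (Q : Pt k) : Finsupp.single Q (1 : ℤ) ∈ Ap k := by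
  classical
  refine ⟨by simp [dg_single], fun D h hD hh => ?_⟩
  obtain ⟨φ, h0, h1, h2⟩ := exact_LL (D + Finsupp.single Q 1) Q (by rw [dg_add, dg_single]; omega)
  obtain ⟨c, hc⟩ := sub_ge h0 h2 ((hh Q).mono (by simp only [Finsupp.add_apply]; omega))
  refine ⟨c • φ, fun P => ?_⟩
  by_cases hP : P = Q
  · subst hP
    simpa using hc.neg
  · have h3 := (h1 P).smul c
    have h4 := hh P
    simp only [Finsupp.add_apply, Finsupp.single_apply, if_neg (Ne.symm hP), add_zero,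
      sub_zero] at h3 h4
    exact h3.sub h4

lemma approx (D : Pt k →₀ ℤ) (h : Pt k →₀ RatFunc k) (hD : -1 ≤ dg D) :
    ∃ f : RatFunc k, ∀ P : Pt k, P.Ge (-D P) (f - h P) := by
  classical
  have hE : ∑ Q ∈ h.support, (-D Q - Q.ord (h Q)).toNat • Finsupp.single Q (1 : ℤ) ∈ Ap k :=
    sum_mem fun Q _ => nsmul_mem (single_mem_Ap Q) _
  refine hE.2 D h hD fun P => ?_
  by_cases hP : P ∈ h.support
  · refine Place.ge_of_le ?_
    rw [Finsupp.finsetSum_apply, Finset.sum_eq_single_of_mem P hP fun Q _ hQ => by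
      simp [hQ]]
    simp only [Finsupp.smul_apply, Finsupp.single_eq_same, nsmul_eq_mul, mul_one]
    omega
  · rw [Finsupp.notMem_support_iff.1 hP]
    exact Place.ge_zero _

lemma lam_eq (G : Pt k →₀ ℤ) (P : Pt k) :
    1 - lam1 P - G P = -(G - Finsupp.single (inf k) (2 : ℤ) : Pt k →₀ ℤ) P := by
  classical
  rw [Finsupp.sub_apply, Finsupp.single_apply, lam1]
  by_cases hP : P = inf k
  · subst hP
    rw [if_neg inf_spec, if_pos rfl]; ring
  · rw [if_pos (ge_X hP), if_neg (Ne.symm hP)]; ring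

lemma HH_eq (G : Pt k →₀ ℤ) : HH G = LL (G - Finsupp.single (inf k) (2 : ℤ)) := by
  rw [HH, LL]
  exact congrArg Bd (funext (lam_eq G))

end CurA

open CurA in
theorem k1 {k : Type} [Field k] [IsAlgClosed k] : K1 k where
  dv := dv
  exists_dv := exists_dv
  res := res
  infty := ⟨inf k, ord_inf_X, fun _ h => ge_X h, LL_inf⟩
  infinite := Infinite.of_injective _ pt_inj
  approx := approx
  exact_LL := exact_LL
  exact_HH := fun G Q hG => by
    rw [HH_eq, lam_eq]
    exact exact_LL _ Q (by rw [dg_sub, dg_single]; omega)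
  ratio_HH := fun G hG => by
    classical
    obtain ⟨f, h0, h1, -⟩ := exact_LL (G - Finsupp.single (inf k) 3) (inf k)
      (by rw [dg_sub, dg_single]; omega)
    rw [HH_eq]
    refine ⟨f, h0, fun P => (h1 P).mono ?_, fun P => ?_⟩
    · simp only [Finsupp.sub_apply, Finsupp.single_apply]
      split_ifs <;> omega
    · by_cases hP : P = inf k
      · subst hP
        refine (Place.ge_of_le ord_inf_X.ge).mul' (h1 _) ?_
        simp only [Finsupp.sub_apply, Finsupp.single_eq_same]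
        omega
      · refine (ge_X hP).mul' (h1 P) ?_
        simp [Ne.symm hP]

end Pool.Agent.Lib.MP_5f81cf_ag.Full
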