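import Pool.Agent.Lib.MP_5f81cf_ag.FBlue5

/-! Surjectivity of the Cartier operator on the projective line. -/

namespace Pool.Agent.Lib.MP_5f81cf_ag.Full

open Pool.Agent.Lib.MP_e06174_ag

variable {k : Type} [Field k] [IsAlgClosed k] {p : ℕ} [Fact p.Prime] [CharP k p]

namespace CurB

section

variable {K : Type} [Field K] [Algebra k K]

omit [IsAlgClosed k] in
theorem jac_one (x a : Fin 1 → K) : jac k x a = pd k x 0 (a 0) := by
  simp [jac]

omit [IsAlgClosed k] [Fact p.Prime] in
theorem der_pow_mul (D : Derivation k K K) (c y : K) : D (c ^ p * y) = c ^ p * D y := by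
  have : CharP K p := charP_of_injective_algebraMap (algebraMap k K).injective p
  simp [Derivation.leibniz, Derivation.leibniz_pow]

omit [IsAlgClosed k] [CharP k p] in
theorem car_sub (c1 : Car1 k p) {d : ℕ} (x : Fin d → K) (f g : K) :
    car p x (f - g) = car p x f - car p x g := by
  have := c1.car_add x (f - g) g
  rw [sub_add_cancel] at this
  rw [this, add_sub_cancel_right]

omit [IsAlgClosed k] [CharP k p] in
theorem car_top (c1 : Car1 k p) {x : Fin 1 → K} (hx : IsPB p x) (g : K) :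
    car p x (g ^ p * x 0 ^ (p - 1)) = g := by
  have h := c1.car_pmon hx (ptop p 1)
  have h2 : pmon p x (ptop p 1) = x 0 ^ (p - 1) := by simp [pmon, ptop]
  rw [if_pos rfl, h2] at h
  rw [c1.car_pow_mul, h, mul_one]

omit [IsAlgClosed k] in
/-- The kernel of the Cartier operator consists of derivatives. -/
theorem exists_der (c1 : Car1 k p) {x : Fin 1 → K} (hx : IsPB p x) (u : K)
    (hu : car p x u = 0) : ∃ h, pd k x 0 h = u := by
  have hp : p.Prime := Fact.out
  obtain ⟨c, hc, -⟩ := hx u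
  have hc0 : c (ptop p 1) = 0 := by rw [← c1.car_sum hx c, ← hc, hu]
  refine ⟨∑ α, c α ^ p * (((α 0 : ℕ) + 1 : ℕ) : k)⁻¹ • x 0 ^ ((α 0 : ℕ) + 1), ?_⟩
  rw [map_sum]
  conv_rhs => rw [hc]
  refine Finset.sum_congr rfl fun α _ => ?_
  rw [der_pow_mul]
  by_cases hα : α = ptop p 1
  · rw [hα, hc0, zero_pow hp.ne_zero, zero_mul, zero_mul]
  · congr 1
    have hlt : (α 0 : ℕ) + 1 < p := by
      have h1 := (α 0).2
      have h2 : (α 0 : ℕ) ≠ p - 1 := by
        intro h
        apply hα
        funext i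
        rw [Subsingleton.elim i 0]
        exact Fin.ext h
      omega
    have hne : (((α 0 : ℕ) + 1 : ℕ) : k) ≠ 0 := by
      rw [Ne, CharP.cast_eq_zero_iff k p]
      exact Nat.not_dvd_of_pos_of_lt (Nat.succ_pos _) hlt
    rw [Derivation.map_smul, Derivation.leibniz_pow, c1.pd_x hx 0 0, if_pos rfl,
      ← Nat.cast_smul_eq_nsmul k, smul_smul, inv_mul_cancel₀ hne, one_smul]
    simp [pmon]

theorem isPB_zero (z : Fin 0 → k) : IsPB p z := by
  have hp : p.Prime := Fact.out
  intro f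
  obtain ⟨c, hc⟩ := IsAlgClosed.exists_pow_nat_eq f hp.pos
  refine ⟨fun _ => c, by simp [pmon, hc], fun c' hc' => ?_⟩
  funext α
  have h1 : f = c' α ^ p := by
    rw [hc', Finset.sum_eq_single α (fun β _ h => absurd (Subsingleton.elim β α) h)
      (fun h => absurd (Finset.mem_univ α) h)]
    simp [pmon]
  have : ExpChar k p := ExpChar.prime hp
  apply frobenius_inj k p
  rw [frobenius_def, frobenius_def, ← h1, hc]

/-- An adapted frame at a place with residue field `k`. -/
theorem exists_adapt (P : Place k K)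
    (res : ∀ f : K, P.Ge 0 f → ∃ c : k, P.Ge 1 (f - algebraMap k _ c)) :
    ∃ (ρ : K → k) (t : K) (z : Fin 0 → K), Adapt p P ρ t z := by
  classical
  choose! ρ hρ using res
  have huniq : ∀ f c, P.Ge 0 f → P.Ge 1 (f - algebraMap k K c) → ρ f = c := by
    intro f c hf hc
    have h := hc.sub (hρ f hf)
    have h2 : f - algebraMap k K c - (f - algebraMap k K (ρ f)) = algebraMap k K (ρ f - c) := by
      rw [map_sub]; ring
    rw [h2] at h
    exact sub_eq_zero.1 (P.eq_zero_of_ge_one_const h)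
  obtain ⟨t, -, ht⟩ := P.exists_ord_eq_one
  refine ⟨ρ, t, fun i => i.elim0, ⟨⟨?_, ?_, ?_, ?_, ?_⟩, ht, fun i => i.elim0, isPB_zero _⟩⟩
  · intro a b ha hb
    refine huniq _ _ (ha.add hb) ?_
    have := (hρ a ha).add (hρ b hb)
    convert this using 1
    rw [map_add]; ring
  · intro a b ha hb
    refine huniq _ _ (ha.mul' hb (by simp)) ?_
    have h1 : P.Ge 1 ((a - algebraMap k K (ρ a)) * b) := (hρ a ha).mul' hb (by simp)
    have h2 : P.Ge 1 (algebraMap k K (ρ a) * (b - algebraMap k K (ρ b))) :=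
      (P.ge_const _).mul' (hρ b hb) (by simp)
    convert h1.add h2 using 1
    rw [map_mul]; ring
  · intro c
    exact huniq _ _ (P.ge_const c) (by simp)
  · intro a ha
    constructor
    · intro h
      simpa [h] using hρ a ha
    · intro h
      exact huniq _ _ ha (by simpa using h)
  · intro l
    exact ⟨algebraMap k K l, P.ge_const l, huniq _ _ (P.ge_const l) (by simp)⟩

variable {x : Fin 1 → K} {P : Place k K} {ρ : K → k} {t : K} {z : Fin 0 → K}

omit [IsAlgClosed k] [Fact p.Prime] [CharP k p] in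
theorem der_ge (p2 : Pl2 k p) (hx : IsPB p x) (ha : Adapt p P ρ t z) {n : ℤ} {u : K}
    (hu : P.Ge n u) : P.Ge (n - lam k x P) (pd k x 0 u) := by
  have h := (p2.jac_ge (d := 0) hx ha fun _ => u).2 (fun _ => n) fun _ => hu
  rw [jac_one] at h
  simpa using h

omit [IsAlgClosed k] [Fact p.Prime] in
theorem der_ge' (p2 : Pl2 k p) (hx : IsPB p x) (ha : Adapt p P ρ t z) {m : ℤ} {u : K}
    (hu : P.Ge (p * m) u) : P.Ge (p * m + 1 - lam k x P) (pd k x 0 u) := by
  obtain ⟨s, hs0, hs⟩ := P.exists_ord_eq m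
  have hsp : s ^ p ≠ 0 := pow_ne_zero _ hs0
  have h1 : P.Ge 0 ((s ^ p)⁻¹ * u) :=
    (P.ge_ord (s ^ p)⁻¹).mul' hu (by simp [hs])
  have h := (p2.jac_ge (d := 0) hx ha fun _ => (s ^ p)⁻¹ * u).1 fun _ => h1
  rw [jac_one] at h
  have h2 : u = s ^ p * ((s ^ p)⁻¹ * u) := by rw [← mul_assoc, mul_inv_cancel₀ hsp, one_mul]
  rw [h2, der_pow_mul]
  exact (P.ge_ord (s ^ p)).mul' h (by simp [hs]; omega)

omit [IsAlgClosed k] [CharP k p] in
/-- Local surjectivity. -/
theorem exists_loc (c1 : Car1 k p) (cj : St_CarJac k p) (p2 : Pl2 k p) (hx : IsPB p x)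
    (ha : Adapt p P ρ t z) {n : ℤ} {g : K} (hg : P.Ge (1 - lam k x P - n) g) :
    ∃ f, P.Ge (p * (1 - n) - lam k x P) f ∧ car p x f = g := by
  have hp : p.Prime := Fact.out
  have ht := p2.adapt_pb (d := 0) hx ha
  have hJ : jac k x (Fin.cons t z : Fin 1 → K) ≠ 0 := (c1.pb_iff hx).1 ht
  have hl := p2.lam_eq (d := 0) hx ha
  set J := jac k x (Fin.cons t z : Fin 1 → K) with hJdef
  refine ⟨(g * J⁻¹) ^ p * t ^ (p - 1) * J, ?_, ?_⟩
  · have h1 : P.Ge (-n) (g * J⁻¹) := hg.mul' (P.ge_ord J⁻¹) (by simp [hl])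
    have h2 : P.Ge 1 t := P.ge_of_le ha.ord.ge
    refine ((h1.pow p).mul (h2.pow (p - 1))).mul' (P.ge_ord J) ?_
    rw [hl, Nat.cast_sub hp.one_le]
    push_cast
    apply le_of_eq
    ring
  · rw [hJdef, cj hx ht]
    have := car_top c1 ht (g * J⁻¹)
    rw [Fin.cons_zero] at this
    rw [this, ← hJdef, mul_assoc, inv_mul_cancel₀ hJ, mul_one]

end

end CurB

open CurB in
theorem st_Surj (c1 : Car1 k p) (cj : St_CarJac k p) (c2 : Car2 k p) (p2 : Pl2 k p) (k1 : K1 k) :
    St_Surj k p := by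
  classical
  intro G G₁ hG hc g hg
  have hp : p.Prime := Fact.out
  have hp0 : (0 : ℤ) < p := by exact_mod_cast hp.pos
  set x : Fin 1 → RatFunc k := ![(RatFunc.X : RatFunc k)] with hxdef
  have hx : IsPB p x := c2.pb_X
  have hlam : ∀ P : Pt k, lam k x P = lam1 P := p2.lam_X
  obtain ⟨Q, -, hQ, -⟩ := k1.infty
  set f0 : RatFunc k := g ^ p * x 0 ^ (p - 1) with hf0
  have hcar0 : car p x f0 = g := car_top c1 hx g
  have hloc : ∀ P : Pt k, ∃ h : RatFunc k, (h ≠ 0 → P ∈ insert Q G.support) ∧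
      P.Ge (1 - lam1 P - G P) (f0 - pd k x 0 h) := by
    intro P
    by_cases hP : P ∈ insert Q G.support
    · obtain ⟨ρ, t, z, ha⟩ := exists_adapt (p := p) P (k1.res P)
      obtain ⟨f, hf, hcf⟩ := exists_loc c1 cj p2 hx ha (n := G₁ P) (g := g)
        (by rw [hlam]; exact hg P)
      obtain ⟨h, hh⟩ := exists_der c1 hx (f0 - f) (by rw [car_sub c1, hcar0, hcf, sub_self])
      refine ⟨h, fun _ => hP, ?_⟩
      rw [hh, sub_sub_cancel]
      refine hf.mono ?_
      rw [hlam]
      have := (hG P).1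
      linarith
    · rw [Finset.mem_insert, not_or, Finsupp.notMem_support_iff] at hP
      refine ⟨0, fun h => absurd rfl h, ?_⟩
      have hX := hQ P hP.1
      have hl : lam1 P = 1 := by simp [lam1, hX]
      have h1 := (hG P).1
      rw [hP.2] at h1
      have h2 : G₁ P - 1 < 0 := by
        by_contra h
        have := mul_nonneg hp0.le (not_lt.1 h)
        omega
      have hg0 : P.Ge 0 g := (hg P).mono (by simp only [hl]; omega)
      rw [map_zero, sub_zero, hl, hP.2]
      exact (hg0.pow p).mul' (hX.pow (p - 1)) (by simp)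
  choose hP hsupp hge using hloc
  set bad := G.support.filter fun P => ¬ (p : ℤ) ∣ G P with hbad
  let E : Pt k →₀ ℤ := Finsupp.onFinset bad (fun P => if P ∈ bad then 1 else 0)
    (fun P h => by by_contra h'; exact h (if_neg h'))
  have hE : dg E = bad.card := by
    rw [dg, Finsupp.onFinset_sum _ (fun _ => rfl), Finset.sum_congr rfl fun P h => if_pos h]
    simp
  have hdg : dg (G - E) = dg G - dg E := by
    rw [dg, Finsupp.sum_sub_index (fun _ _ _ => rfl)]
    rfl
  have hc' : -2 < dg G - bad.card := by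
    unfold Cond at hc
    convert hc
  obtain ⟨h, hh⟩ := k1.approx (G - E) (Finsupp.onFinset _ hP hsupp) (by rw [hdg, hE]; omega)
  refine ⟨f0 - pd k x 0 h, fun P => ?_, ?_⟩
  · have h1 := hh P
    rw [Finsupp.onFinset_apply, Finsupp.sub_apply, Finsupp.onFinset_apply] at h1
    obtain ⟨ρ, t, z, ha⟩ := exists_adapt (p := p) P (k1.res P)
    have h2 : P.Ge (1 - lam1 P - G P) (pd k x 0 (h - hP P)) := by
      by_cases hb : P ∈ bad
      · rw [if_pos hb] at h1
        refine (der_ge p2 hx ha h1).mono ?_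
        rw [hlam]; omega
      · rw [if_neg hb, sub_zero] at h1
        have hd : (p : ℤ) ∣ G P := by
          by_contra hd
          refine hb (Finset.mem_filter.2 ⟨Finsupp.mem_support_iff.2 fun h0 => hd ?_, hd⟩)
          rw [h0]; exact dvd_zero _
        obtain ⟨m, hm⟩ := hd
        have h3 : P.Ge (p * (-m)) (h - hP P) := by rw [mul_neg, ← hm]; exact h1
        refine (der_ge' p2 hx ha h3).mono ?_
        rw [hlam, hm, mul_neg]; omega
    have h4 := (hge P).sub h2
    rw [map_sub] at h4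
    convert h4 using 1
    ring
  · change car p x _ = g
    rw [car_sub c1, hcar0, c1.car_pd hx, sub_zero]

end Pool.Agent.Lib.MP_5f81cf_ag.Full
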