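import Pool.Agent.Lib.MP_5f81cf_ag.FBlue5

/-! Block K3: powers of a birational linear system on the line are asymptotically complete. -/

namespace Pool.Agent.Lib.MP_5f81cf_ag.Full

open Pool.Agent.Lib.MP_e06174_ag

namespace K3

variable {k : Type} [Field k]

lemma dg_eq (D : Pt k →₀ ℤ) : dg D = Finsupp.degree D := rfl

lemma dg_add (D E : Pt k →₀ ℤ) : dg (D + E) = dg D + dg E := by
  simp only [dg_eq, map_add]

lemma dg_sub (D E : Pt k →₀ ℤ) : dg (D - E) = dg D - dg E := by
  simp only [dg_eq, map_sub]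

lemma dg_nsmul (n : ℕ) (D : Pt k →₀ ℤ) : dg (n • D) = n * dg D := by
  simp only [dg_eq, map_nsmul, nsmul_eq_mul]

lemma dg_single (Q : Pt k) (n : ℤ) : dg (Finsupp.single Q n) = n := by
  simp [dg]

lemma dg_nonneg {D : Pt k →₀ ℤ} (h : ∀ P, 0 ≤ D P) : 0 ≤ dg D :=
  Finset.sum_nonneg fun P _ => h P

lemma mem_LL {D : Pt k →₀ ℤ} {f : RatFunc k} : f ∈ LL D ↔ ∀ P : Pt k, P.Ge (-D P) f := Iff.rfl

lemma mem_Bd {c : Pt k → ℤ} {f : RatFunc k} : f ∈ Bd c ↔ ∀ P : Pt k, P.Ge (c P) f := Iff.rfl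

/-- A divisor of negative degree has no sections. -/
lemma eq_zero_of_neg (k1 : K1 k) {G : Pt k →₀ ℤ} (hG : dg G < 0) {g : RatFunc k}
    (hg : g ∈ LL G) : g = 0 := by
  by_contra h0
  obtain ⟨Dg, h1, h2⟩ := k1.dv g h0
  have h3 : 0 ≤ dg (Dg + G) := dg_nonneg fun P => by
    have := (mem_LL.1 hg P).le h0
    rw [Finsupp.add_apply, h1]
    omega
  rw [dg_add] at h3
  omega

/-- The base point free pencil trick. -/
lemma pencil (k1 : K1 k) {a b : RatFunc k} (ha : a ≠ 0) (hb : b ≠ 0) {D' E : Pt k →₀ ℤ}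
    (hD : ∀ P, D' P = max (-P.ord a) (-P.ord b)) (hE : dg D' - 1 ≤ dg E) {φ : RatFunc k}
    (hφ : φ ∈ LL (E + D')) : ∃ u ∈ LL E, ∃ v ∈ LL E, φ = a * u + b * v := by
  classical
  obtain ⟨Db, hb1, hb2⟩ := k1.dv b hb
  set Z := Db + D' with hZ
  have hZ0 : ∀ P, Z P = P.ord b + D' P := fun P => by rw [hZ, Finsupp.add_apply, hb1]
  let h : Pt k →₀ RatFunc k := Finsupp.onFinset Z.support
    (fun P => if P ∈ Z.support then φ / a else 0) fun P hP => by
      by_contra h'
      simp only [h', if_false, ne_eq, not_true_eq_false] at hP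
  have hh : ∀ P, h P = if P ∈ Z.support then φ / a else 0 := fun P => rfl
  obtain ⟨u, hu⟩ := k1.approx (E - Z) h (by rw [dg_sub, hZ, dg_add]; omega)
  have hφ' : ∀ P : Pt k, P.Ge (-E P - D' P) φ := fun P =>
    (mem_LL.1 hφ P).mono (by rw [Finsupp.add_apply]; omega)
  have hu' : ∀ P : Pt k, P.Ge (-E P + Z P) (u - h P) := fun P =>
    (hu P).mono (by rw [Finsupp.sub_apply]; omega)
  have huE : u ∈ LL E := by
    refine mem_LL.2 fun P => ?_
    have h1 := hu' P
    have h2 := hZ0 P
    have h3 := hD P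
    by_cases hP : P ∈ Z.support
    · rw [hh, if_pos hP] at h1
      have h4 := Finsupp.mem_support_iff.1 hP
      have h5 : P.Ge (-E P) (φ / a) := by
        rw [div_eq_mul_inv]
        exact (hφ' P).mul' (Place.ge_ord _) (by rw [Place.ord_inv]; omega)
      simpa using (h1.mono (m := -E P) (by omega)).add h5
    · rw [hh, if_neg hP, sub_zero] at h1
      have h4 := Finsupp.notMem_support_iff.1 hP
      exact h1.mono (by omega)
  refine ⟨u, huE, (φ - a * u) / b, mem_LL.2 fun P => ?_, by field_simp; ring⟩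
  have h1 := hu' P
  have h2 := hZ0 P
  have h3 := hD P
  have h6 : P.Ge (-E P + P.ord b) (φ - a * u) := by
    by_cases hP : P ∈ Z.support
    · rw [hh, if_pos hP] at h1
      have h4 := Finsupp.mem_support_iff.1 hP
      have e : φ - a * u = -(a * (u - φ / a)) := by field_simp; ring
      rw [e]
      exact ((Place.ge_ord a).mul' h1 (by omega)).neg
    · have h4 := Finsupp.notMem_support_iff.1 hP
      exact ((hφ' P).mono (by omega)).sub
        ((Place.ge_ord a).mul' (mem_LL.1 huE P) (by omega))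
  rw [div_eq_mul_inv]
  exact h6.mul' (Place.ge_ord _) (by rw [Place.ord_inv]; omega)

/-- One element of `W` with small order at finitely many points. -/
lemma exists_gen [Infinite k] (W : Submodule k (RatFunc k)) (c : Pt k → ℤ)
    (h : ∀ P, ∃ w ∈ W, w ≠ 0 ∧ P.ord w ≤ c P) (T : Finset (Pt k)) :
    ∃ b ∈ W, ∀ P ∈ T, b ≠ 0 ∧ P.ord b ≤ c P := by
  let S : Pt k → Submodule k (RatFunc k) := fun P =>
    { carrier := {f | P.Ge (c P + 1) f}
      add_mem' := fun h h' => h.add h'
      zero_mem' := Place.ge_zero _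
      smul_mem' := fun a _ h => h.smul a }
  obtain ⟨b, hb⟩ := Submodule.exists_forall_notMem_of_forall_ne_top
    (fun P : T => (S P).comap W.subtype) fun P hP => by
      obtain ⟨w, hw, h0, h1⟩ := h P
      have h2 : (⟨w, hw⟩ : W) ∈ (S P).comap W.subtype := hP ▸ Submodule.mem_top
      have h3 := Place.Ge.le (p := P.1) (n := c P + 1) (x := w) h2 h0
      omega
  refine ⟨b, b.2, fun P hP => ?_⟩
  have h2 := Place.not_ge_iff.1 (show ¬ P.Ge (c P + 1) (b : RatFunc k) from hb ⟨P, hP⟩)
  exact ⟨h2.1, by omega⟩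

end K3

open K3

variable {k : Type} [Field k] [IsAlgClosed k]

theorem st_Fill (k1 : K1 k) : St_Fill k := by
  classical
  rintro W D ⟨a, ha, haW, hXW⟩ hw
  obtain ⟨Q, -, -, hQ⟩ := k1.infty
  obtain ⟨Da, ha1, ha2⟩ := k1.dv a ha
  obtain ⟨b, hbW, hbT⟩ := exists_gen W (fun P => -D P) hw (insert Q (D.support ∪ Da.support))
  have hb : b ≠ 0 := (hbT Q (Finset.mem_insert_self _ _)).1
  obtain ⟨Db, hb1, hb2⟩ := k1.dv b hb
  set D' : Pt k →₀ ℤ := (-Da) ⊔ (-Db) with hD'
  have hD : ∀ P, D' P = max (-P.ord a) (-P.ord b) := fun P => by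
    rw [hD', Finsupp.sup_apply, Finsupp.neg_apply, Finsupp.neg_apply, ha1, hb1]
  have hle : ∀ P, D P ≤ D' P := fun P => by
    rw [hD]
    by_cases hP : P ∈ insert Q (D.support ∪ Da.support)
    · have := (hbT P hP).2
      omega
    · simp only [Finset.mem_insert, Finset.mem_union, Finsupp.mem_support_iff, not_or,
        not_not] at hP
      have := ha1 P
      omega
  have hδ : 0 ≤ dg D' := by
    have := dg_nonneg (D := Da + D') fun P => by
      rw [Finsupp.add_apply, ha1, hD]
      omega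
    rwa [dg_add, ha2, zero_add] at this
  obtain ⟨δ, hδ'⟩ := Int.eq_ofNat_of_zero_le hδ
  set E₀ : Pt k →₀ ℤ := Finsupp.single Q (δ : ℤ) - δ • Da with hE₀
  have hE0 : dg E₀ = δ := by rw [hE₀, dg_sub, dg_nsmul, dg_single, ha2]; ring
  have base : LL E₀ ≤ W ^ δ := by
    intro g hg
    have h1 : g / a ^ δ ∈ LL (Finsupp.single Q (δ : ℤ)) := by
      refine mem_LL.2 fun P => ?_
      rw [div_eq_mul_inv]
      refine (mem_LL.1 hg P).mul' (Place.ge_ord _) ?_
      rw [Place.ord_inv, Place.ord_pow, hE₀, Finsupp.sub_apply, Finsupp.smul_apply, ha1,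
        nsmul_eq_mul]
      omega
    have h2 : ∀ y ∈ Submodule.span k (Set.range fun i : Fin (δ + 1) =>
        (RatFunc.X : RatFunc k) ^ (i : ℕ)), a ^ δ * y ∈ W ^ δ := by
      intro y hy
      induction hy using Submodule.span_induction with
      | mem y hy =>
        obtain ⟨i, rfl⟩ := hy
        obtain ⟨l, hl⟩ := Nat.exists_eq_add_of_le (Nat.lt_succ_iff.1 i.2)
        have e : a ^ δ * RatFunc.X ^ (i : ℕ) = (RatFunc.X * a) ^ (i : ℕ) * a ^ l := by
          rw [congrArg (a ^ ·) hl]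
          ring
        have e' : W ^ δ = W ^ (i : ℕ) * W ^ l := by rw [← pow_add, ← hl]
        rw [e, e']
        exact Submodule.mul_mem_mul (Submodule.pow_mem_pow W hXW _) (Submodule.pow_mem_pow W haW _)
      | zero => simp
      | add y z _ _ hy hz => rw [mul_add]; exact add_mem hy hz
      | smul c y _ hy => rw [mul_smul_comm]; exact Submodule.smul_mem _ c hy
    have h3 := h2 _ (hQ δ ▸ h1)
    rwa [mul_div_cancel₀ _ (pow_ne_zero _ ha)] at h3
  have step : ∀ i : ℕ, LL (E₀ + i • D') ≤ W ^ (δ + i) := by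
    intro i
    induction i with
    | zero => simpa using base
    | succ i ih =>
      intro g hg
      rw [succ_nsmul, ← add_assoc] at hg
      obtain ⟨u, hu, v, hv, rfl⟩ := pencil k1 ha hb hD (by
        rw [dg_add, dg_nsmul, hE0, hδ']
        have : (0 : ℤ) ≤ i * δ := by positivity
        omega) hg
      rw [← add_assoc, pow_succ']
      exact add_mem (Submodule.mul_mem_mul haW (ih hu)) (Submodule.mul_mem_mul hbW (ih hv))
  set F : Pt k →₀ ℤ := δ • D - E₀ with hF
  refine ⟨insert Q F.support, ∑ P ∈ F.support, (F P).natAbs + δ * (dg D).natAbs + 1, fun j g hg => ?_⟩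
  set C : ℕ := ∑ P ∈ F.support, (F P).natAbs + δ * (dg D).natAbs + 1 with hC
  rcases le_or_gt δ j with hj | hj
  · obtain ⟨i, rfl⟩ := Nat.exists_eq_add_of_le hj
    refine step i (mem_LL.2 fun P => (mem_Bd.1 hg P).mono ?_)
    have h1 : F P ≤ if P ∈ insert Q F.support then (C : ℤ) else 0 := by
      by_cases hP : P ∈ F.support
      · rw [if_pos (Finset.mem_insert_of_mem hP)]
        have := Finset.single_le_sum (f := fun P => (F P).natAbs) (fun _ _ => Nat.zero_le _) hP
        omega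
      · rw [Finsupp.notMem_support_iff.1 hP]
        split_ifs <;> positivity
    have h2 : (i : ℤ) * D P ≤ i * D' P := mul_le_mul_of_nonneg_left (hle P) (by positivity)
    rw [hF, Finsupp.sub_apply, Finsupp.smul_apply, nsmul_eq_mul] at h1
    rw [Finsupp.add_apply, Finsupp.smul_apply, nsmul_eq_mul]
    push_cast
    linarith
  · have h1 : g ∈ LL (j • D - Finsupp.single Q (C : ℤ)) := by
      refine mem_LL.2 fun P => (mem_Bd.1 hg P).mono ?_
      rw [Finsupp.sub_apply, Finsupp.smul_apply, nsmul_eq_mul, Finsupp.single_apply]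
      by_cases hP : Q = P
      · rw [if_pos hP, if_pos (hP ▸ Finset.mem_insert_self _ _)]
        omega
      · rw [if_neg hP]
        split_ifs <;> omega
    have h2 : dg (j • D - Finsupp.single Q (C : ℤ)) < 0 := by
      rw [dg_sub, dg_nsmul, dg_single]
      have h3 : (j : ℤ) * dg D ≤ j * (dg D).natAbs :=
        mul_le_mul_of_nonneg_left Int.le_natAbs (by positivity)
      have h4 : (j : ℤ) * (dg D).natAbs ≤ δ * (dg D).natAbs :=
        mul_le_mul_of_nonneg_right (by exact_mod_cast hj.le) (by positivity)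
      have h5 : ((δ * (dg D).natAbs : ℕ) : ℤ) < C := by exact_mod_cast (by omega)
      rw [Nat.cast_mul] at h5
      linarith
    rw [eq_zero_of_neg k1 h2 h1]
    exact zero_mem _

end Pool.Agent.Lib.MP_5f81cf_ag.Full
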