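import Pool.Agent.Lib.MP_5f81cf_ag.FBlue5

/-! Good divisors, and saturation of powers of a linear system under the Cartier operator. -/

namespace Pool.Agent.Lib.MP_5f81cf_ag.Full

open Pool.Agent.Lib.MP_e06174_ag Filter

variable {k : Type} [Field k] {p : ℕ}

lemma k4_cl_apply (B : Pt k →₀ ℚ) (P : Pt k) : cl B P = ⌈B P⌉ := by simp [cl]

lemma k4_dg_eq (D : Pt k →₀ ℤ) {S : Finset (Pt k)} (h : D.support ⊆ S) :
    dg D = ∑ P ∈ S, D P := Finsupp.sum_of_support_subset D h _ fun _ _ => rfl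

lemma k4_dgQ_eq (B : Pt k →₀ ℚ) {S : Finset (Pt k)} (h : B.support ⊆ S) :
    dgQ B = ∑ P ∈ S, B P := Finsupp.sum_of_support_subset B h _ fun _ _ => rfl

lemma k4_supp_cl (B : Pt k →₀ ℚ) : (cl B).support ⊆ B.support := Finsupp.support_mapRange

lemma k4_le_cl (B : Pt k →₀ ℚ) : dgQ B ≤ dg (cl B) := by
  rw [k4_dg_eq _ (k4_supp_cl B), k4_dgQ_eq B subset_rfl, Int.cast_sum]
  exact Finset.sum_le_sum fun P _ => by rw [k4_cl_apply]; exact Int.le_ceil _

lemma k4_dgQ_smul (c : ℚ) (B : Pt k →₀ ℚ) : dgQ (c • B) = c * dgQ B := by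
  rw [k4_dgQ_eq _ (Finsupp.support_smul (b := c) (g := B)), k4_dgQ_eq B subset_rfl, Finset.mul_sum]
  simp

lemma k4_cond (c : ℚ) (B : Pt k →₀ ℚ) {S : Finset (Pt k)} (hS : B.support ⊆ S)
    (h : (S.card : ℚ) ≤ c * dgQ B) : Cond p (cl (c • B)) := by
  classical
  have h1 := k4_le_cl (c • B)
  rw [k4_dgQ_smul] at h1
  have h2 : (S.card : ℤ) ≤ dg (cl (c • B)) := by exact_mod_cast h.trans h1
  have h3 : (cl (c • B)).support ⊆ S := (k4_supp_cl _).trans (Finsupp.support_smul.trans hS)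
  unfold Cond
  generalize cl (c • B) = G at h2 h3 ⊢
  have h4 : ∀ T : Finset (Pt k), T ⊆ G.support → -2 < dg G - T.card := fun T hT => by
    have := Finset.card_le_card (hT.trans h3)
    omega
  exact h4 _ (Finset.filter_subset _ _)

lemma k4_exists_eps {ι : Type} (S : Finset ι) (f : ι → ℚ) (hf : ∀ i ∈ S, 0 < f i) {a : ℚ}
    (ha : 0 < a) : ∃ ε : ℚ, 0 < ε ∧ ε < a ∧ ∀ i ∈ S, ε < f i := by
  classical
  induction S using Finset.induction_on with
  | empty => exact ⟨a / 2, by positivity, by linarith, by simp⟩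
  | insert b s _ ih =>
    obtain ⟨ε, h0, h1, h2⟩ := ih fun i hi => hf i (Finset.mem_insert_of_mem hi)
    have hb := hf b (Finset.mem_insert_self _ _)
    refine ⟨min ε (f b / 2), by positivity, (min_le_left _ _).trans_lt h1, fun i hi => ?_⟩
    rcases Finset.mem_insert.1 hi with rfl | hi
    · exact (min_le_right _ _).trans_lt (by linarith)
    · exact (min_le_left _ _).trans_lt (h2 i hi)

variable [hp : Fact p.Prime]

lemma k4_one_lt : (1 : ℚ) < p := by exact_mod_cast hp.out.one_lt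

theorem k4 : K4 k p where
  le_cl := k4_le_cl
  big B h0 h := ⟨h0, fun i _ => k4_cond _ B subset_rfl
    (h.trans (le_mul_of_one_le_left h0.le (one_le_pow₀ k4_one_lt.le)))⟩
  pert B Y hB := by
    classical
    have h0 := hB.1
    have hp0 : (0 : ℚ) < p := zero_lt_one.trans k4_one_lt
    obtain ⟨i₀, hi₀⟩ := pow_unbounded_of_one_lt (((B.support ∪ Y).card : ℚ) / (dgQ B / 2))
      (k4_one_lt (p := p))
    rw [div_lt_iff₀ (by positivity)] at hi₀
    obtain ⟨ε, hε, h1, h2⟩ := k4_exists_eps (Finset.range (i₀ + 1) ×ˢ Y)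
      (fun x => ((p : ℚ) ^ x.1 * B x.2 - (⌈(p : ℚ) ^ x.1 * B x.2⌉ - 1)) / (p : ℚ) ^ x.1)
      (fun x _ => div_pos (by linarith [Int.ceil_lt_add_one ((p : ℚ) ^ x.1 * B x.2)])
        (by positivity)) (a := dgQ B / 2 / (Y.card + 1)) (by positivity)
    let B' : Pt k →₀ ℚ := Finsupp.onFinset (B.support ∪ Y)
      (fun P => B P - if P ∈ Y then ε else 0) fun P hP => by
        by_contra hc
        rw [Finset.mem_union, not_or, Finsupp.notMem_support_iff] at hc
        simp [hc.1, hc.2] at hP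
    have hB' : ∀ P, B' P = B P - if P ∈ Y then ε else 0 := fun P => rfl
    have hs : B'.support ⊆ B.support ∪ Y := Finsupp.support_onFinset_subset
    have hd : dgQ B / 2 ≤ dgQ B' := by
      rw [k4_dgQ_eq B' hs]
      simp only [hB', Finset.sum_sub_distrib, ← k4_dgQ_eq B Finset.subset_union_left,
        Finset.sum_ite_mem, Finset.union_inter_cancel_right, Finset.sum_const, nsmul_eq_mul]
      rw [lt_div_iff₀ (by positivity)] at h1
      nlinarith
    have hc : ∀ i, i ≤ i₀ → cl (((p : ℚ) ^ i) • B') = cl (((p : ℚ) ^ i) • B) := by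
      intro i hi
      ext P
      rw [k4_cl_apply, k4_cl_apply, Finsupp.smul_apply, Finsupp.smul_apply, smul_eq_mul,
        smul_eq_mul, hB']
      split_ifs with hP
      · have h3 := h2 (i, P) (Finset.mem_product.2 ⟨Finset.mem_range.2 (by omega), hP⟩)
        rw [lt_div_iff₀ (by positivity)] at h3
        have h4 := Int.le_ceil ((p : ℚ) ^ i * B P)
        have h5 : 0 < ε * (p : ℚ) ^ i := by positivity
        rw [Int.ceil_eq_iff]
        constructor <;> linarith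
      · rw [sub_zero]
    refine ⟨ε, B', hε, fun P => by convert hB' P, ⟨by linarith, fun i hi => ?_⟩, ?_⟩
    · rcases le_total i i₀ with h | h
      · rw [hc i h]; exact hB.2 i hi
      · refine k4_cond _ B' hs (hi₀.le.trans ?_)
        exact mul_le_mul (pow_le_pow_right₀ k4_one_lt.le h) hd (by positivity) (by positivity)
    · simpa using hc 0 (Nat.zero_le _)

lemma k4_iter (su : St_Surj k p) {B : Pt k →₀ ℚ} (hB : Good p B) (e : ℕ) :
    ∀ g ∈ HH (cl B), ∃ f ∈ HH (cl (((p : ℚ) ^ e) • B)), (car1 p)^[e] f = g := by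
  induction e with
  | zero => intro g hg; exact ⟨g, by simpa using hg, rfl⟩
  | succ e ih =>
    intro g hg
    obtain ⟨f, hf, rfl⟩ := ih g hg
    have hp0 : (0 : ℚ) < p := zero_lt_one.trans k4_one_lt
    obtain ⟨f', hf', rfl⟩ := su (cl (((p : ℚ) ^ (e + 1)) • B)) _ (fun P => by
      rw [k4_cl_apply, k4_cl_apply, Finsupp.smul_apply, Finsupp.smul_apply, smul_eq_mul,
        smul_eq_mul, Int.lt_ceil, Int.ceil_le, pow_succ', mul_assoc]
      push_cast
      exact ⟨mul_lt_mul_of_pos_left (by linarith [Int.ceil_lt_add_one ((p : ℚ) ^ e * B P)]) hp0,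
        mul_le_mul_of_nonneg_left (Int.le_ceil _) hp0.le⟩) (hB.2 _ (by omega)) f hf
    exact ⟨f', hf', rfl⟩

theorem st_Sat (k1 : K1 k) (k4 : K4 k p) (su : St_Surj k p) (fi : St_Fill k) : St_Sat k p := by
  classical
  intro W B M Γ C hM hW hB hw hΓ
  obtain ⟨Y, C', hY⟩ := fi W (cl ((M : ℚ) • B)) hW fun P => by
    obtain ⟨w, h1, h2, h3⟩ := hw P
    refine ⟨w, h1, h2, ?_⟩
    rw [k4_cl_apply, le_neg, Int.ceil_le, Finsupp.smul_apply, smul_eq_mul, mul_comm]
    exact_mod_cast h3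
  have hdv : ∀ γ : RatFunc k, ∃ S : Finset (Pt k), γ ≠ 0 → ∀ P, P ∉ S → P.ord γ = 0 := fun γ => by
    by_cases h : γ = 0
    · exact ⟨∅, fun h' => absurd h h'⟩
    · obtain ⟨D, hD, -⟩ := k1.dv γ h
      exact ⟨D.support, fun _ P hP => by rw [← hD, Finsupp.notMem_support_iff.1 hP]⟩
  choose S hS using hdv
  obtain ⟨Q, -, hQ, -⟩ := k1.infty
  obtain ⟨ε, B', hε, hB', hg, hcl⟩ := k4.pert B (insert Q (Y ∪ B.support ∪ Γ.biUnion S)) hB
  have hev : ∀ᶠ e : ℕ in atTop, ∀ P ∈ insert Q (Y ∪ B.support ∪ Γ.biUnion S), ∀ γ ∈ Γ,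
      (C' + 1 + C * |B P| + P.ord γ : ℚ) ≤ (p : ℚ) ^ e * ε := by
    simp only [eventually_all_finset]
    intro P _ γ _
    exact ((tendsto_pow_atTop_atTop_of_one_lt (k4_one_lt (p := p))).atTop_mul_const
      hε).eventually_ge_atTop _
  obtain ⟨e₀, he₀⟩ := eventually_atTop.1 hev
  refine ⟨e₀, fun e he γ hγ j hj hj' g hg' => ?_⟩
  obtain ⟨f, hf, rfl⟩ := k4_iter su hg e g (by rwa [hcl])
  have hγ0 := hΓ γ hγ
  refine ⟨f / γ, hY j fun P => ?_, by rw [mul_div_cancel₀ _ hγ0]⟩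
  rw [div_eq_mul_inv]
  refine Place.Ge.mul' (hf P) (Place.ge_ord γ⁻¹) ?_
  beta_reduce
  rw [Place.ord_inv, k4_cl_apply, k4_cl_apply, Finsupp.smul_apply, Finsupp.smul_apply, smul_eq_mul,
    smul_eq_mul, hB']
  by_cases hP : P ∈ insert Q (Y ∪ B.support ∪ Γ.biUnion S)
  · have h1 := he₀ e he P hP γ hγ
    have h2 : lam1 P ≤ 1 := by unfold lam1; split_ifs <;> norm_num
    have h3 := Int.ceil_lt_add_one ((p : ℚ) ^ e * (B P - ε))
    have h4 : (j : ℚ) * (M * B P) ≤ j * ⌈(M : ℚ) * B P⌉ :=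
      mul_le_mul_of_nonneg_left (Int.le_ceil _) (by positivity)
    have h5 : (j : ℚ) * M ≤ (p : ℚ) ^ e := by exact_mod_cast hj
    have h6 : (p : ℚ) ^ e ≤ j * M + C := by exact_mod_cast hj'
    have h7 : ((p : ℚ) ^ e - j * M) * B P ≤ C * |B P| :=
      (mul_le_mul_of_nonneg_left (le_abs_self _) (by linarith)).trans
        (mul_le_mul_of_nonneg_right (by linarith) (abs_nonneg _))
    have h8 : (C' : ℤ) - j * ⌈(M : ℚ) * B P⌉ + ⌈(p : ℚ) ^ e * (B P - ε)⌉ + P.ord γ ≤ 0 := by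
      have : ((C' : ℤ) - j * ⌈(M : ℚ) * B P⌉ + ⌈(p : ℚ) ^ e * (B P - ε)⌉ + P.ord γ : ℚ) ≤ 0 := by
        push_cast; linarith
      exact_mod_cast this
    rw [if_pos hP]
    split_ifs <;> omega
  · rw [if_neg hP]
    simp only [Finset.mem_insert, Finset.mem_union, Finset.mem_biUnion, not_or, not_exists,
      not_and, Finsupp.notMem_support_iff] at hP
    obtain ⟨h1, ⟨h2, h3⟩, h4⟩ := hP
    rw [if_neg h2, h3, hS γ hγ0 P (h4 γ hγ), lam1, if_pos (hQ P h1)]
    simp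

end Pool.Agent.Lib.MP_5f81cf_ag.Full
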