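import Pool.Agent.Lib.MP_5f81cf_ag.FBlue5

/-! The arithmetic lemmas `K5`. -/

namespace Pool.Agent.Lib.MP_5f81cf_ag.Full

namespace CurE

lemma shok (S : Set ℚ) (m₀ : ℕ) (hb : BddAbove S) (hpos : ∃ b ∈ S, 0 < b)
    (h : ∀ b ∈ S, ∀ m : ℕ, m₀ ≤ m → ∃ b' ∈ S, ((⌈(m + 1 : ℚ) * b⌉ : ℚ) - 1) ≤ m * b') :
    ∃ n : ℕ, 1 ≤ n ∧ (∀ b ∈ S, b ≤ 1 / n) ∧ ∀ ε : ℚ, 0 < ε → ∃ b ∈ S, 1 / n - ε < b := by
  obtain ⟨b₀, hb₀, hb₀pos⟩ := hpos
  set T : Set ℝ := (fun x : ℚ => (x : ℝ)) '' S with hT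
  have hTb : BddAbove T := by
    obtain ⟨M, hM⟩ := hb
    refine ⟨M, ?_⟩
    rintro _ ⟨x, hx, rfl⟩
    exact Rat.cast_le.mpr (hM hx)
  have hTn : T.Nonempty := ⟨b₀, b₀, hb₀, rfl⟩
  set a : ℝ := sSup T with ha
  have hle : ∀ b ∈ S, (b : ℝ) ≤ a := fun b hb' => le_csSup hTb ⟨b, hb', rfl⟩
  have hlt : ∀ x : ℝ, x < a → ∃ b ∈ S, x < (b : ℝ) := by
    intro x hx
    obtain ⟨_, ⟨b, hb', rfl⟩, hxb⟩ := exists_lt_of_lt_csSup hTn hx
    exact ⟨b, hb', hxb⟩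
  have hapos : 0 < a := lt_of_lt_of_le (by exact_mod_cast hb₀pos) (hle b₀ hb₀)
  have H : ∀ (m : ℕ) (K : ℤ), m₀ ≤ m → (K : ℝ) < (m + 1) * a → (K : ℝ) ≤ m * a := by
    intro m K hm hK
    have hm1 : (0 : ℝ) < m + 1 := by positivity
    obtain ⟨b, hbS, hb'⟩ := hlt (K / (m + 1)) (by rw [div_lt_iff₀ hm1]; linarith)
    obtain ⟨b', hb'S, hb''⟩ := h b hbS m hm
    have h1 : (K : ℚ) < (m + 1) * b := by
      rw [div_lt_iff₀ hm1] at hb'
      have : (K : ℝ) < (m + 1) * b := by linarith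
      exact_mod_cast this
    have h2 : K < ⌈(m + 1 : ℚ) * b⌉ := Int.lt_ceil.mpr h1
    have h3 : (K : ℚ) ≤ (⌈(m + 1 : ℚ) * b⌉ : ℚ) - 1 := by
      have : K ≤ ⌈(m + 1 : ℚ) * b⌉ - 1 := by omega
      exact_mod_cast this
    have h4 : (K : ℝ) ≤ m * (b' : ℝ) := by exact_mod_cast h3.trans hb''
    have h5 : (m : ℝ) * (b' : ℝ) ≤ m * a :=
      mul_le_mul_of_nonneg_left (hle b' hb'S) (Nat.cast_nonneg m)
    linarith
  have M : ∀ K : ℕ, (m₀ : ℝ) * a ≤ K → ∃ i : ℕ, (K : ℝ) = i * a := by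
    intro K hK
    have h0 : (0 : ℝ) ≤ K / a := by positivity
    refine ⟨⌊(K : ℝ) / a⌋₊, le_antisymm ?_ ?_⟩
    · have h1 : m₀ ≤ ⌊(K : ℝ) / a⌋₊ := Nat.le_floor (by rw [le_div_iff₀ hapos]; exact hK)
      have h2 : (K : ℝ) / a < ⌊(K : ℝ) / a⌋₊ + 1 := Nat.lt_floor_add_one _
      rw [div_lt_iff₀ hapos] at h2
      exact_mod_cast H _ (K : ℤ) h1 (by exact_mod_cast h2)
    · have h1 : (⌊(K : ℝ) / a⌋₊ : ℝ) ≤ K / a := Nat.floor_le h0
      rwa [le_div_iff₀ hapos] at h1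
  obtain ⟨K, hK⟩ := exists_nat_ge ((m₀ : ℝ) * a)
  obtain ⟨i, hi⟩ := M K hK
  obtain ⟨i', hi'⟩ := M (K + 1) (by push_cast; linarith)
  push_cast at hi'
  have hii : i < i' := by
    have : (i : ℝ) * a < i' * a := by linarith
    exact_mod_cast lt_of_mul_lt_mul_right this hapos.le
  obtain ⟨n, rfl⟩ := Nat.exists_eq_add_of_lt hii
  have hn : (0 : ℝ) < (n + 1 : ℕ) := by positivity
  have han : a = 1 / ((n + 1 : ℕ) : ℝ) := by
    rw [eq_div_iff hn.ne']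
    push_cast at hi' ⊢
    linarith
  refine ⟨n + 1, by omega, fun b hb' => ?_, fun ε hε => ?_⟩
  · have := hle b hb'
    rw [han] at this
    refine (Rat.cast_le (K := ℝ)).mp ?_
    push_cast at this ⊢
    exact this
  · have hε' : (0 : ℝ) < ε := by exact_mod_cast hε
    obtain ⟨b, hbS, hb'⟩ := hlt (a - ε) (by linarith)
    refine ⟨b, hbS, ?_⟩
    rw [han] at hb'
    refine (Rat.cast_lt (K := ℝ)).mp ?_
    push_cast at hb' ⊢
    exact hb'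

lemma slope (S : Set ℚ) (a : ℚ) (n₀ : ℕ) (hb : BddBelow S) (ha : 0 < a)
    (h : ∀ s ∈ S, ∀ ε : ℚ, 0 < ε → ∀ n : ℕ, n₀ ≤ n →
      ∃ s' ∈ S, n * s' ≤ (⌊n * s - a + ε⌋ : ℚ) + 1)
    (n : ℕ) (o : ℤ) (hn : 0 < n) (hs : ∃ s ∈ S, n * s < o) (ε : ℚ) (hε : 0 < ε) :
    ∃ s ∈ S, n * s < o - a + ε := by
  obtain ⟨s₀, hs₀, hs₀o⟩ := hs
  set T : Set ℝ := (fun x : ℚ => (x : ℝ)) '' S with hT
  have hTb : BddBelow T := by
    obtain ⟨M, hM⟩ := hb
    refine ⟨M, ?_⟩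
    rintro _ ⟨x, hx, rfl⟩
    exact Rat.cast_le.mpr (hM hx)
  have hTn : T.Nonempty := ⟨s₀, s₀, hs₀, rfl⟩
  set l : ℝ := sInf T with hl
  have hle : ∀ b ∈ S, l ≤ (b : ℝ) := fun b hb' => csInf_le hTb ⟨b, hb', rfl⟩
  have hlt : ∀ (j : ℕ) (x : ℚ), 0 < j → j * l < x → ∃ b ∈ S, j * b < x := by
    intro j x hj hx
    have hj' : (0 : ℝ) < j := by exact_mod_cast hj
    obtain ⟨_, ⟨b, hb', rfl⟩, hxb⟩ := exists_lt_of_csInf_lt hTn
      (show l < x / j by rw [lt_div_iff₀ hj']; linarith)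
    refine ⟨b, hb', ?_⟩
    rw [lt_div_iff₀ hj'] at hxb
    have : (j : ℝ) * b < x := by linarith
    exact_mod_cast this
  have H : ∀ (j : ℕ) (K : ℤ), 0 < j → n₀ ≤ j → j * l - a < K → j * l ≤ K := by
    intro j K hj hj₀ hK
    obtain ⟨s, hsS, hs⟩ := hlt j (K + a) hj (by push_cast; linarith)
    obtain ⟨s', hs'S, hs'⟩ := h s hsS ((K + a - j * s) / 2) (by linarith) j hj₀
    have h1 : ⌊(j : ℚ) * s - a + (K + a - j * s) / 2⌋ < K := Int.floor_lt.mpr (by linarith)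
    have h2 : (⌊(j : ℚ) * s - a + (K + a - j * s) / 2⌋ : ℚ) + 1 ≤ K := by
      exact_mod_cast h1
    have h3 : (j : ℝ) * s' ≤ K := by exact_mod_cast hs'.trans h2
    have h4 : (j : ℝ) * l ≤ j * s' := mul_le_mul_of_nonneg_left (hle s' hs'S) (Nat.cast_nonneg j)
    linarith
  have hn' : (0 : ℝ) < n := by exact_mod_cast hn
  set Z : ℝ := o - n * l with hZ
  have hZpos : 0 < Z := by
    have h1 : (n : ℝ) * s₀ < o := by exact_mod_cast hs₀o
    have h2 : (n : ℝ) * l ≤ n * s₀ := mul_le_mul_of_nonneg_left (hle s₀ hs₀) hn'.le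
    linarith
  have hZa : (a : ℝ) ≤ Z := by
    by_contra hc
    push Not at hc
    obtain ⟨N, hN⟩ := exists_nat_ge (((n₀ : ℝ) + 2) * Z)
    have h0 : (n₀ : ℝ) + 2 ≤ N / Z := by rw [le_div_iff₀ hZpos]; exact hN
    have h1 : n₀ + 2 ≤ ⌈(N : ℝ) / Z⌉₊ := by
      have := h0.trans (Nat.le_ceil _)
      exact_mod_cast this
    obtain ⟨i, hi⟩ : ∃ i : ℕ, ⌈(N : ℝ) / Z⌉₊ = i + 1 := ⟨⌈(N : ℝ) / Z⌉₊ - 1, by omega⟩
    have h2 : (N : ℝ) / Z ≤ i + 1 := by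
      have := Nat.le_ceil ((N : ℝ) / Z)
      rw [hi] at this
      exact_mod_cast this
    have h3 : (i : ℝ) < N / Z := Nat.lt_ceil.mp (by omega)
    rw [div_le_iff₀ hZpos] at h2
    rw [lt_div_iff₀ hZpos] at h3
    have h4 : i ≤ n * i := Nat.le_mul_of_pos_left i hn
    have h5 : ((n * i : ℕ) : ℝ) * l = i * o - i * Z := by
      push_cast
      rw [hZ]
      ring
    have h6 := H (n * i) (i * o - N) (by omega) (by omega) (by rw [h5]; push_cast; linarith)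
    rw [h5] at h6
    push_cast at h6
    linarith
  have hε' : (0 : ℝ) < ε := by exact_mod_cast hε
  exact hlt n (o - a + ε) hn (by push_cast; linarith)

lemma one_le_ceil (q c ν : ℕ) (hq : 1 ≤ q) (hc : 1 ≤ c) (hν : 1 ≤ ν) :
    1 ≤ ⌈(q : ℚ) * c / ν⌉ := by
  have : (0 : ℚ) < (q : ℚ) * c / ν := by
    have h1 : (0 : ℚ) < q := by exact_mod_cast hq
    have h2 : (0 : ℚ) < c := by exact_mod_cast hc
    have h3 : (0 : ℚ) < ν := by exact_mod_cast hν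
    positivity
  exact Int.ceil_pos.mpr this

lemma ceil_half (q : ℕ) (hq : Odd q) : (q : ℤ) + 1 ≤ 2 * ⌈(q : ℚ) * 1 / (2 : ℕ)⌉ := by
  obtain ⟨r, rfl⟩ := hq
  have : (r : ℤ) < ⌈((2 * r + 1 : ℕ) : ℚ) * 1 / (2 : ℕ)⌉ := by
    apply Int.lt_ceil.mpr
    push_cast
    linarith
  push_cast at this ⊢
  omega

lemma three (a b c q : ℕ) (ha : 2 ≤ a) (hb : 2 ≤ b) (hc : 2 ≤ c) (hq : Odd q)
    (h : (1 - 1 / (a : ℚ)) + ((1 - 1 / (b : ℚ)) + (1 - 1 / (c : ℚ))) < 2) :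
    (q : ℤ) + 2 ≤ ⌈(q : ℚ) * 2 / a⌉ + (⌈(q : ℚ) * 1 / b⌉ + ⌈(q : ℚ) * 1 / c⌉) := by
  have hq1 : 1 ≤ q := hq.pos
  have ha0 : (0 : ℚ) < a := by exact_mod_cast (by omega : 0 < a)
  have hq0 : (0 : ℚ) < q := by exact_mod_cast hq1
  have A1 : 1 ≤ ⌈(q : ℚ) * 2 / a⌉ := by exact_mod_cast one_le_ceil q 2 a hq1 (by omega) (by omega)
  have B1 : 1 ≤ ⌈(q : ℚ) * 1 / b⌉ := by exact_mod_cast one_le_ceil q 1 b hq1 (by omega) (by omega)
  have C1 : 1 ≤ ⌈(q : ℚ) * 1 / c⌉ := by exact_mod_cast one_le_ceil q 1 c hq1 (by omega) (by omega)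
  by_cases hqa : a ≤ q
  · have h1 := Int.le_ceil ((q : ℚ) * 2 / a)
    have h2 := Int.le_ceil ((q : ℚ) * 1 / b)
    have h3 := Int.le_ceil ((q : ℚ) * 1 / c)
    have h4 : (1 : ℚ) ≤ q * (1 / a) := by
      rw [mul_one_div, le_div_iff₀ ha0, one_mul]
      exact_mod_cast hqa
    have h5 : (q : ℚ) * 1 < q * (1 / a + 1 / b + 1 / c) :=
      mul_lt_mul_of_pos_left (by linarith) hq0
    have e1 : (q : ℚ) * 2 / a = 2 * (q * (1 / a)) := by ring
    have e2 : (q : ℚ) * 1 / b = q * (1 / b) := by ring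
    have e3 : (q : ℚ) * 1 / c = q * (1 / c) := by ring
    have h6 : (q : ℚ) + 1 <
        (⌈(q : ℚ) * 2 / a⌉ : ℚ) + ((⌈(q : ℚ) * 1 / b⌉ : ℚ) + (⌈(q : ℚ) * 1 / c⌉ : ℚ)) := by
      rw [mul_add, mul_add] at h5
      linarith
    have h7 : (q : ℤ) + 1 < ⌈(q : ℚ) * 2 / a⌉ + (⌈(q : ℚ) * 1 / b⌉ + ⌈(q : ℚ) * 1 / c⌉) := by
      exact_mod_cast h6
    omega
  push Not at hqa
  by_cases hq' : q = 1
  · have : (q : ℤ) = 1 := by exact_mod_cast hq'
    omega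
  have hq3 : 3 ≤ q := by
    obtain ⟨r, rfl⟩ := hq
    omega
  have inv_le : ∀ x y : ℕ, 0 < y → y ≤ x → 1 / (x : ℚ) ≤ 1 / (y : ℚ) := by
    intro x y hy hxy
    exact one_div_le_one_div_of_le (by exact_mod_cast hy) (by exact_mod_cast hxy)
  have a4 := inv_le a 4 (by omega) (by omega)
  have b2 := inv_le b 2 (by omega) hb
  have c2 := inv_le c 2 (by omega) hc
  have hb4 : b < 4 := by
    by_contra hh
    have := inv_le b 4 (by omega) (by omega)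
    push_cast at *
    linarith
  have hc4 : c < 4 := by
    by_contra hh
    have := inv_le c 4 (by omega) (by omega)
    push_cast at *
    linarith
  have hh := ceil_half q hq
  have a6 : b = 3 ∨ c = 3 → a < 6 := by
    intro h3
    by_contra hh
    have := inv_le a 6 (by omega) (by omega)
    rcases h3 with rfl | rfl <;> push_cast at * <;> linarith
  have two : a < 6 → 2 ≤ ⌈(q : ℚ) * 2 / a⌉ := by
    intro h6
    have : (1 : ℤ) < ⌈(q : ℚ) * 2 / a⌉ := by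
      apply Int.lt_ceil.mpr
      rw [lt_div_iff₀ ha0]
      have : a < q * 2 := by omega
      push_cast
      rw [one_mul]
      exact_mod_cast this
    omega
  have q3 : a < 6 → (q : ℤ) = 3 := by
    intro h6
    obtain ⟨r, rfl⟩ := hq
    push_cast
    omega
  obtain rfl | rfl : b = 2 ∨ b = 3 := by omega
  · obtain rfl | rfl : c = 2 ∨ c = 3 := by omega
    · omega
    · have := two (a6 (Or.inr rfl))
      have := q3 (a6 (Or.inr rfl))
      omega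
  · obtain rfl | rfl : c = 2 ∨ c = 3 := by omega
    · have := two (a6 (Or.inl rfl))
      have := q3 (a6 (Or.inl rfl))
      omega
    · push_cast at *
      linarith

lemma arith {ι : Type} [DecidableEq ι] (Y : Finset ι) (ν : ι → ℕ) (i₀ : ι) (q : ℕ) (hq : Odd q)
    (hν : ∀ i, 1 ≤ ν i) (hs : ∑ i ∈ Y, (1 - 1 / (ν i : ℚ)) < 2) (hi₀ : i₀ ∈ Y) :
    -1 - 2 * (q : ℤ) ≤ ∑ i ∈ Y, (⌈(q : ℚ) * (if i = i₀ then 2 else 1) / ν i⌉ - q -
      if ν i = 1 then 0 else 1) := by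
  have hq1 : 1 ≤ q := hq.pos
  set t : ι → ℤ := fun i => ⌈(q : ℚ) * (if i = i₀ then 2 else 1) / ν i⌉ - q -
      if ν i = 1 then 0 else 1 with ht
  set T := Y.filter fun i => ν i ≠ 1 with hT
  have t1 : ∀ i, ν i = 1 → t i = if i = i₀ then (q : ℤ) else 0 := by
    intro i hi
    simp only [ht, hi]
    split_ifs
    · have : (q : ℚ) * 2 / ((1 : ℕ) : ℚ) = ((2 * q : ℤ) : ℚ) := by push_cast; ring
      rw [this, Int.ceil_intCast]
      ring
    · have : (q : ℚ) * 1 / ((1 : ℕ) : ℚ) = ((q : ℤ) : ℚ) := by push_cast; ring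
      rw [this, Int.ceil_intCast]
      ring
  have t2 : ∀ i, -(q : ℤ) ≤ t i := by
    intro i
    have : 1 ≤ ⌈(q : ℚ) * (if i = i₀ then 2 else 1) / ν i⌉ := by
      split_ifs
      · exact_mod_cast one_le_ceil q 2 (ν i) hq1 (by omega) (hν i)
      · exact_mod_cast one_le_ceil q 1 (ν i) hq1 (by omega) (hν i)
    simp only [ht]
    split_ifs at this ⊢ <;> omega
  have hsT : ∑ i ∈ T, (1 - 1 / (ν i : ℚ)) < 2 := by
    rw [hT, Finset.sum_filter_of_ne]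
    · exact hs
    · intro i _ hi h1
      apply hi
      simp [h1]
  have hcard : T.card ≤ 3 := by
    have h1 : ∑ _i ∈ T, (1 / 2 : ℚ) ≤ ∑ i ∈ T, (1 - 1 / (ν i : ℚ)) := by
      apply Finset.sum_le_sum
      intro i hi
      have h2 : 2 ≤ ν i := by
        have := (Finset.mem_filter.mp hi).2
        have := hν i
        omega
      have : 1 / (ν i : ℚ) ≤ 1 / 2 :=
        one_div_le_one_div_of_le (by norm_num) (by exact_mod_cast h2)
      linarith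
    rw [Finset.sum_const, nsmul_eq_mul] at h1
    have h3 : (T.card : ℚ) < 4 := by linarith
    have : T.card < 4 := by exact_mod_cast h3
    omega
  have hsplit : ∑ i ∈ Y, t i = ∑ i ∈ T, t i + ∑ i ∈ Y.filter (fun i => ¬ ν i ≠ 1), t i :=
    (Finset.sum_filter_add_sum_filter_not Y _ t).symm
  have hrest : ∑ i ∈ Y.filter (fun i => ¬ ν i ≠ 1), t i = if i₀ ∈ T then 0 else (q : ℤ) := by
    rw [Finset.sum_congr rfl fun i hi => t1 i (not_not.mp (Finset.mem_filter.mp hi).2),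
      Finset.sum_ite_eq']
    simp only [hT, Finset.mem_filter, hi₀, true_and]
    split_ifs <;> rfl
  have hlow : -(T.card * (q : ℤ)) ≤ ∑ i ∈ T, t i := by
    have := Finset.sum_le_sum (s := T) fun i _ => t2 i
    rw [Finset.sum_const, nsmul_eq_mul] at this
    linarith
  show -1 - 2 * (q : ℤ) ≤ ∑ i ∈ Y, t i
  rw [hsplit, hrest]
  have hq0 : (0 : ℤ) ≤ q := Int.natCast_nonneg q
  have hc3 : (T.card : ℤ) ≤ 3 := by exact_mod_cast hcard
  split_ifs with hi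
  swap
  · nlinarith
  by_cases h2 : T.card ≤ 2
  · have : (T.card : ℤ) ≤ 2 := by exact_mod_cast h2
    nlinarith
  have h3 : (T.erase i₀).card = 2 := by
    rw [Finset.card_erase_of_mem hi]
    omega
  obtain ⟨x, y, hxy, he⟩ := Finset.card_eq_two.mp h3
  have hx : x ∈ T.erase i₀ := by rw [he]; simp
  have hy : y ∈ T.erase i₀ := by rw [he]; simp
  have hsum : ∀ {M : Type} [AddCommMonoid M] (f : ι → M), ∑ i ∈ T, f i = f i₀ + (f x + f y) := by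
    intro M _ f
    rw [← Finset.add_sum_erase T f hi, he, Finset.sum_pair hxy]
  have ge2 : ∀ i ∈ T, 2 ≤ ν i ∧ ν i ≠ 1 := by
    intro i hi
    have := (Finset.mem_filter.mp hi).2
    have := hν i
    omega
  have hx' := Finset.mem_erase.mp hx
  have hy' := Finset.mem_erase.mp hy
  rw [hsum] at hsT
  have := three _ _ _ q (ge2 _ hi).1 (ge2 _ hx'.2).1 (ge2 _ hy'.2).1 hq hsT
  rw [hsum]
  simp only [ht, if_pos, if_neg hx'.1, if_neg hy'.1, if_neg (ge2 _ hi).2, if_neg (ge2 _ hx'.2).2,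
    if_neg (ge2 _ hy'.2).2]
  omega

end CurE

theorem k5 : K5 where
  shok := CurE.shok
  slope := CurE.slope
  arith := CurE.arith

end Pool.Agent.Lib.MP_5f81cf_ag.Full
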