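import Pool.Agent.Lib.MP_5f81cf_ag.FBlue5

/-! Block K6: saturation of a graded system on the projective line. -/

namespace Pool.Agent.Lib.MP_5f81cf_ag.Full

open Pool.Agent.Lib.MP_e06174_ag

namespace K6

variable {k : Type} [Field k] {p : ℕ} [Fact p.Prime] {A I : ℕ → ℤ → Submodule k (RatFunc k)}

lemma castm {U : ℕ → ℤ → Submodule k (RatFunc k)} {a a' : ℕ} {b b' : ℤ} {f : RatFunc k}
    (h : f ∈ U a b) (ha : a = a') (hb : b = b') : f ∈ U a' b' := ha ▸ hb ▸ h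

lemma pow_mem (S : Sys1 p A I) {a : ℕ} {b : ℤ} {f : RatFunc k} (h : f ∈ A a b) (t : ℕ) :
    f ^ t ∈ A (t * a) (t * b) := by
  induction t with
  | zero => simpa using S.one
  | succ t ih =>
    rw [pow_succ]
    exact castm (S.mul _ _ _ _ _ _ ih h) (by ring) (by push_cast; ring)

lemma pow_le (S : Sys1 p A I) (a : ℕ) (b : ℤ) (j : ℕ) : A a b ^ j ≤ A (j * a) (j * b) := by
  induction j with
  | zero =>
    rw [pow_zero, Submodule.one_le]
    simpa using S.one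
  | succ j ih =>
    rw [pow_succ, Submodule.mul_le]
    intro f hf g hg
    exact castm (S.mul _ _ _ _ _ _ (ih hf) hg) (by ring) (by push_cast; ring)

lemma exists_A0 (S : Sys1 p A I) :
    ∃ s₀ : ℤ, ∀ s, s₀ ≤ s → ∃ f, f ≠ 0 ∧ f ∈ A 0 s := by
  obtain ⟨n, f, g, hf0, hg0, hf, hg⟩ := S.succ
  have hn : 0 ≤ n := by
    by_contra hn
    rw [S.neg n (by omega)] at hf
    exact hf0 ((Submodule.mem_bot k).1 hf)
  lift n to ℕ using hn
  refine ⟨n * n, fun s hs => ?_⟩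
  have hs0 : 0 ≤ s := le_trans (by positivity) hs
  lift s to ℕ using hs0
  have hs' : n * n ≤ s := by exact_mod_cast hs
  obtain ⟨a, b, hab⟩ : ∃ a b : ℕ, s = a * n + b * (n + 1) := by
    rcases Nat.eq_zero_or_pos n with rfl | hpos
    · exact ⟨0, s, by simp⟩
    · have h1 : n ≤ s / n := (Nat.le_div_iff_mul_le hpos).2 hs'
      have h2 : s % n < n := Nat.mod_lt _ hpos
      obtain ⟨c, hc⟩ : ∃ c, s / n = c + s % n := ⟨s / n - s % n, by omega⟩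
      refine ⟨c, s % n, ?_⟩
      have h3 := Nat.div_add_mod s n
      rw [hc] at h3
      nlinarith
  refine ⟨f ^ a * g ^ b, mul_ne_zero (pow_ne_zero _ hf0) (pow_ne_zero _ hg0), ?_⟩
  exact castm (S.mul _ _ _ _ _ _ (pow_mem S hf a) (pow_mem S hg b)) (by simp)
    (by rw [hab]; push_cast; ring)

/-- Nonzero elements moving any second degree to the prescribed slope. -/
lemma exists_shift (S : Sys1 p A I) (m n c : ℕ) (hc : 0 < c) (b : ℤ) :
    ∃ (M : ℕ) (u : RatFunc k), 0 < M ∧ u ≠ 0 ∧ u ∈ A (c * M * (m + 1)) (c * M * n + b) := by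
  obtain ⟨s₀, hs₀⟩ := exists_A0 S
  obtain ⟨me, ne, η, hme, hne, hη0, hη⟩ := S.eta
  obtain ⟨t, ht0, ht⟩ : ∃ t : ℕ, 0 < t ∧ s₀ - b ≤ t :=
    ⟨(s₀ - b).toNat + 1, Nat.succ_pos _, by push_cast; omega⟩
  have h1 : (t : ℤ) ≤ (c * t * (m + 1) : ℕ) * (-ne) := by
    have h2 : t ≤ c * t * (m + 1) :=
      le_trans (Nat.le_mul_of_pos_left _ hc) (Nat.le_mul_of_pos_right _ (Nat.succ_pos _))
    have h3 : (t : ℤ) ≤ (c * t * (m + 1) : ℕ) := by exact_mod_cast h2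
    have h4 : (0 : ℤ) ≤ (c * t * (m + 1) : ℕ) := by positivity
    nlinarith
  have h5 : (0 : ℤ) ≤ c * (t * me : ℕ) * n := by positivity
  obtain ⟨v, hv0, hv⟩ := hs₀ (c * (t * me : ℕ) * n + b + (c * t * (m + 1) : ℕ) * (-ne))
    (by omega)
  refine ⟨t * me, η ^ (c * t * (m + 1)) * v, Nat.mul_pos ht0 hme,
    mul_ne_zero (pow_ne_zero _ hη0) hv0, ?_⟩
  exact castm (S.mul _ _ _ _ _ _ (pow_mem S hη _) hv) (by ring) (by push_cast; ring)

lemma exists_ratio (S : Sys1 p A I) (m n : ℕ) :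
    ∃ (M : ℕ) (f : RatFunc k), 0 < M ∧ f ≠ 0 ∧ f ∈ A (M * (m + 1)) (M * n) ∧
      RatFunc.X * f ∈ A (M * (m + 1)) (M * n) := by
  obtain ⟨nf, f, hf0, hf, hXf⟩ := S.ratio
  obtain ⟨M, u, hM, hu0, hu⟩ := exists_shift S m n 1 one_pos (-nf)
  refine ⟨M, u * f, hM, mul_ne_zero hu0 hf0, ?_, ?_⟩
  · exact castm (S.mul _ _ _ _ _ _ hu hf) (by ring) (by push_cast; ring)
  · rw [mul_left_comm]
    exact castm (S.mul _ _ _ _ _ _ hu hXf) (by ring) (by push_cast; ring)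

lemma exists_gamma (S : Sys1 p A I) (m n M : ℕ) (hM : 0 < M) (ρ : ℕ) :
    ∃ (r m' : ℕ) (γ : RatFunc k), r % M = ρ % M ∧ m' + 1 = r * (m + 1) ∧ γ ≠ 0 ∧
      γ ∈ I m' (r * n) := by
  obtain ⟨m₀, hm₀⟩ : ∃ m₀, m₀ + 1 = (ρ + M) * (m + 1) :=
    ⟨(ρ + M) * (m + 1) - 1, Nat.sub_add_cancel (Nat.mul_pos (by omega) (Nat.succ_pos _))⟩
  obtain ⟨n₀, f, hf0, hf⟩ := S.ne m₀
  obtain ⟨T, u, -, hu0, hu⟩ := exists_shift S m n M hM ((ρ + M) * n - n₀)
  refine ⟨ρ + M * (1 + T), M * T * (m + 1) + m₀, u * f, Nat.add_mul_mod_self_left _ _ _, ?_,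
    mul_ne_zero hu0 hf0, ?_⟩
  · rw [add_assoc, hm₀]; ring
  · exact castm (S.mulI _ _ _ _ _ _ hu hf) rfl (by push_cast; ring)

lemma iter (S : Sys1 p A I) (m : ℕ) (n : ℤ) (e : ℕ) : ∀ (m' : ℕ) (f : RatFunc k),
    m' + 1 = p ^ e * (m + 1) → f ∈ I m' (p ^ e * n) → (car1 p)^[e] f ∈ I m n := by
  induction e with
  | zero =>
    intro m' f h hf
    exact castm hf (by simpa using h) (by simp)
  | succ e ih =>
    intro m' f h hf
    have hp : 0 < p := (Fact.out : p.Prime).pos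
    obtain ⟨m₁, hm₁⟩ : ∃ m₁, m₁ + 1 = p ^ e * (m + 1) :=
      ⟨p ^ e * (m + 1) - 1, Nat.sub_add_cancel (Nat.mul_pos (pow_pos hp e) (Nat.succ_pos m))⟩
    rw [Function.iterate_succ_apply]
    refine ih m₁ _ hm₁ (S.car m₁ m' _ f (by rw [h, hm₁]; ring) (castm hf rfl (by ring)))

/-- A witness in level `M`. -/
def Wit (A : ℕ → ℤ → Submodule k (RatFunc k)) (m n : ℕ) (B : Pt k →₀ ℚ) (M : ℕ) (P : Pt k) :
    Prop :=
  ∃ w ∈ A (M * (m + 1)) (M * n), w ≠ 0 ∧ B P * M ≤ -P.ord w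

lemma Wit.mul (S : Sys1 p A I) {m n : ℕ} {B : Pt k →₀ ℚ} {M : ℕ} {P : Pt k}
    (h : Wit A m n B M P) (c : ℕ) : Wit A m n B (c * M) P := by
  obtain ⟨w, hw, hw0, hle⟩ := h
  refine ⟨w ^ c, castm (pow_mem S hw c) (by ring) (by push_cast; ring), pow_ne_zero _ hw0, ?_⟩
  rw [Place.ord_pow]
  push_cast
  have : (0 : ℚ) ≤ c := by positivity
  nlinarith

lemma exists_common (S : Sys1 p A I) {m n : ℕ} {B : Pt k →₀ ℚ}
    (h : ∀ P, ∃ M, 0 < M ∧ Wit A m n B M P) (Y : Finset (Pt k)) :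
    ∃ M, 0 < M ∧ ∀ P ∈ Y, Wit A m n B M P := by
  classical
  induction Y using Finset.induction_on with
  | empty => exact ⟨1, one_pos, by simp⟩
  | insert Q Y _ ih =>
    obtain ⟨M, hM, hY⟩ := ih
    obtain ⟨M', hM', hQ⟩ := h Q
    refine ⟨M * M', Nat.mul_pos hM hM', fun P hP => ?_⟩
    rcases Finset.mem_insert.1 hP with rfl | hP
    · exact hQ.mul S M
    · rw [mul_comm]
      exact (hY P hP).mul S M'

end K6

open K6 in
theorem st_Use {k : Type} [Field k] {p : ℕ} [Fact p.Prime] (k1 : K1 k) (sa : St_Sat k p) :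
    St_Use k p := by
  classical
  intro A I S m n B hB hw g hg
  obtain ⟨M₁, f₀, hM₁, hf₀, hf, hXf⟩ := exists_ratio S m n
  obtain ⟨D, hD, -⟩ := k1.dv f₀ hf₀
  obtain ⟨M₂, hM₂, hY⟩ := exists_common S (B := B) (m := m) (n := n) (fun P => by
    obtain ⟨M, w, h1, h2, h3, h4⟩ := hw P
    exact ⟨M, h1, w, h3, h2, h4⟩) (B.support ∪ D.support)
  obtain ⟨c, rfl⟩ : ∃ c, M₂ = c + 1 := ⟨M₂ - 1, by omega⟩
  set M := (c + 1) * M₁ with hMdef
  have hM : 0 < M := Nat.mul_pos hM₂ hM₁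
  have hwit : ∀ P, Wit A m n B M P := fun P => by
    by_cases hP : P ∈ B.support ∪ D.support
    · rw [hMdef, mul_comm]
      exact (hY P hP).mul S M₁
    · rw [Finset.mem_union, not_or, Finsupp.notMem_support_iff, Finsupp.notMem_support_iff] at hP
      refine Wit.mul S ⟨f₀, hf, hf₀, ?_⟩ (c + 1)
      rw [← hD, hP.1, hP.2]
      simp
  have hrat : ∃ f, f ≠ 0 ∧ f ∈ A (M * (m + 1)) (M * n) ∧
      RatFunc.X * f ∈ A (M * (m + 1)) (M * n) := by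
    refine ⟨f₀ ^ c * f₀, mul_ne_zero (pow_ne_zero _ hf₀) hf₀, ?_, ?_⟩
    · exact castm (S.mul _ _ _ _ _ _ (pow_mem S hf c) hf) (by rw [hMdef]; ring)
        (by rw [hMdef]; push_cast; ring)
    · rw [mul_left_comm]
      exact castm (S.mul _ _ _ _ _ _ (pow_mem S hf c) hXf) (by rw [hMdef]; ring)
        (by rw [hMdef]; push_cast; ring)
  choose r m' γ hr hm' hγ0 hγ using exists_gamma S m n M hM
  obtain ⟨e₀, he₀⟩ := sa (A (M * (m + 1)) (M * n)) B M ((Finset.range M).image γ)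
    ((Finset.range M).sup r) hM hrat hB hwit (fun x hx => by
      obtain ⟨ρ, -, rfl⟩ := Finset.mem_image.1 hx
      exact hγ0 ρ)
  set C := (Finset.range M).sup r
  set e := max e₀ C
  have hCe : C ≤ p ^ e :=
    le_trans (le_max_right e₀ C) (Nat.lt_pow_self (Fact.out : p.Prime).one_lt).le
  set ρ := p ^ e % M with hρ
  have hρM : ρ ∈ Finset.range M := Finset.mem_range.2 (Nat.mod_lt _ hM)
  have hrC : r ρ ≤ C := Finset.le_sup (f := r) hρM
  have hmod : r ρ ≡ p ^ e [MOD M] := by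
    rw [Nat.ModEq, hr, hρ, Nat.mod_mod]
  obtain ⟨j, hj⟩ := (Nat.modEq_iff_dvd' (hrC.trans hCe)).1 hmod
  have hj' : p ^ e = j * M + r ρ := by
    have := hrC.trans hCe
    rw [mul_comm j M, ← hj]
    omega
  obtain ⟨f, hf', hfg⟩ := he₀ e (le_max_left _ _) (γ ρ) (Finset.mem_image_of_mem _ hρM) j
    (by omega) (by omega) g hg
  rw [← hfg]
  refine iter S m n e (j * (M * (m + 1)) + m' ρ) _ ?_ ?_
  · rw [add_assoc, hm', hj']; ring
  · rw [mul_comm (γ ρ) f]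
    refine castm (S.mulI _ _ _ _ _ _ (pow_le S _ _ j hf') (hγ ρ)) rfl ?_
    have : ((p : ℤ) ^ e) = j * M + r ρ := by exact_mod_cast hj'
    rw [this]; ring

end Pool.Agent.Lib.MP_5f81cf_ag.Full
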