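import Pool.Agent.Lib.MP_5f81cf_ag.FBlue5

/-! Standard coefficients of a saturated system on the projective line. -/

namespace Pool.Agent.Lib.MP_5f81cf_ag.Full

open Pool.Agent.Lib.MP_e06174_ag

variable {k : Type} [Field k] {p : ℕ} [Fact p.Prime]

namespace CurG

theorem dgQ_add (B B' : Pt k →₀ ℚ) : dgQ (B + B') = dgQ B + dgQ B' :=
  Finsupp.sum_add_index' (fun _ => rfl) (fun _ _ _ => rfl)

theorem dgQ_single (P : Pt k) (c : ℚ) : dgQ (Finsupp.single P c) = c :=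
  Finsupp.sum_single_index rfl

theorem dgQ_eq_sum (B : Pt k →₀ ℚ) {Y : Finset (Pt k)} (h : B.support ⊆ Y) :
    dgQ B = ∑ P ∈ Y, B P :=
  Finsupp.sum_of_support_subset B h _ (fun _ _ => rfl)

theorem dgQ_smul (c : ℚ) (B : Pt k →₀ ℚ) : dgQ (c • B) = c * dgQ B := by
  rw [dgQ_eq_sum (c • B) (Y := B.support) Finsupp.support_smul, dgQ_eq_sum B subset_rfl,
    Finset.mul_sum]
  rfl

theorem dgQ_cast (D : Pt k →₀ ℤ) :
    dgQ (D.mapRange (fun n : ℤ => (n : ℚ)) (by simp)) = (dg D : ℚ) := by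
  rw [dgQ_eq_sum _ (Y := D.support) Finsupp.support_mapRange, dg, Finsupp.sum, Int.cast_sum]
  simp

variable {A I : ℕ → ℤ → Submodule k (RatFunc k)}

theorem pow_mem (s : Sys1 p A I) {m : ℕ} {n : ℤ} {f : RatFunc k} (hf : f ∈ A m n) (j : ℕ) :
    f ^ j ∈ A (j * m) (j * n) := by
  induction j with
  | zero => simpa using s.one
  | succ j ih =>
    have := s.mul _ _ _ _ _ _ ih hf
    rw [pow_succ]
    convert this using 2
    · ring
    · push_cast; ring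

theorem no_ratio (s : Sys1 p A I) {f : RatFunc k} (hf : f ≠ 0) (h1 : f ∈ A 0 0)
    (h2 : RatFunc.X * f ∈ A 0 0) {Q : Pt k} (hQ : Q.ord RatFunc.X = -1) : False := by
  obtain ⟨c, hc⟩ := s.const f h1
  obtain ⟨c', hc'⟩ := s.const _ h2
  have h := Q.ord_mul (RatFunc.X_ne_zero (K := k)) hf
  rw [hc', hQ] at h
  rw [hc, Place.ord_const, Place.ord_const] at h
  omega

theorem exists_ratio (s : Sys1 p A I) (Q : Pt k) :
    ∃ (M : ℕ) (w : RatFunc k), 0 < M ∧ w ≠ 0 ∧ w ∈ A M 0 ∧ RatFunc.X * w ∈ A M 0 := by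
  obtain ⟨n₁, f, hf0, hf, hXf⟩ := s.ratio
  obtain ⟨m₂, n₂, η, -, hn₂, hη0, hη⟩ := s.eta
  obtain ⟨m, g, hm, hg, hg'⟩ := s.pos Q
  have hg0 : g ≠ 0 := (Place.not_ge_iff.1 hg').1
  have hn₁ : 0 ≤ n₁ := by
    by_contra h
    rw [s.neg n₁ (by omega)] at hf
    exact hf0 hf
  obtain ⟨a, rfl⟩ := Int.eq_ofNat_of_zero_le hn₁
  obtain ⟨b, hb⟩ : ∃ b : ℕ, n₂ = -((b : ℤ) + 1) := ⟨(-n₂ - 1).toNat, by omega⟩
  have h1 := s.mul _ _ _ _ _ _ hg (s.mul _ _ _ _ _ _ (pow_mem s hη a) (pow_mem s hf b))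
  have h2 := s.mul _ _ _ _ _ _ h1 hf
  have h3 := s.mul _ _ _ _ _ _ h1 hXf
  have e : (0 : ℤ) + (a * n₂ + b * a) + a = 0 := by rw [hb]; ring
  rw [e] at h2 h3
  refine ⟨_, _, ?_, ?_, h2, ?_⟩
  · omega
  · exact mul_ne_zero (mul_ne_zero hg0 (mul_ne_zero (pow_ne_zero _ hη0) (pow_ne_zero _ hf0))) hf0
  · convert h3 using 1
    ring

variable (A) in
/-- Every coefficient of `B` is witnessed by an element of the system. -/
def Wit (B : Pt k →₀ ℚ) : Prop :=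
  ∀ P : Pt k, ∃ (M : ℕ) (u : RatFunc k), 0 < M ∧ u ≠ 0 ∧ u ∈ A M 0 ∧ B P * M ≤ -P.ord u

theorem use_wit (k4 : K4 k p) (us : St_Use k p) (s : Sys1 p A I) {B : Pt k →₀ ℚ} (hB : Wit A B)
    (m : ℕ) (h0 : 0 < dgQ B) (h1 : (B.support.card : ℚ) ≤ (m + 1) * dgQ B) :
    HH (cl (((m : ℚ) + 1) • B)) ≤ A m 0 := by
  have hm : (0 : ℚ) < (m : ℚ) + 1 := by positivity
  have hg : Good p (((m : ℚ) + 1) • B) := by
    refine k4.big _ ?_ ?_
    · rw [dgQ_smul]; exact mul_pos hm h0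
    · rw [dgQ_smul]
      refine le_trans ?_ h1
      exact Nat.cast_le.2 (Finset.card_le_card Finsupp.support_smul)
  have := us A I s m 0 _ hg fun P => by
    obtain ⟨M, u, hM, hu0, hu, hle⟩ := hB P
    refine ⟨M, u ^ (m + 1), hM, pow_ne_zero _ hu0, ?_, ?_⟩
    · have := pow_mem s hu (m + 1)
      simpa [mul_comm] using this
    · rw [Place.ord_pow, Finsupp.smul_apply, smul_eq_mul]
      push_cast
      nlinarith
  exact this.trans (by simpa using s.le m 0)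

/-- Raising one coefficient. -/
theorem raise {B : Pt k →₀ ℚ} (hB : Wit A B) (P₀ : Pt k) {m : ℕ} {w : RatFunc k} (hm : 0 < m)
    (hw0 : w ≠ 0) (hw : w ∈ A m 0) :
    ∃ B' : Pt k →₀ ℚ, Wit A B' ∧ B'.support.card ≤ B.support.card + 1 ∧ dgQ B ≤ dgQ B' ∧
      dgQ B - B P₀ - (P₀.ord w : ℚ) / m ≤ dgQ B' ∧ -(P₀.ord w : ℚ) / m ≤ B' P₀ := by
  classical
  have hm' : (0 : ℚ) < m := by exact_mod_cast hm
  by_cases h : -(P₀.ord w : ℚ) / m ≤ B P₀
  · refine ⟨B, hB, by omega, le_rfl, ?_, h⟩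
    rw [neg_div] at h
    linarith
  · push Not at h
    refine ⟨B + Finsupp.single P₀ (-(P₀.ord w : ℚ) / m - B P₀), fun P => ?_, ?_, ?_, ?_, ?_⟩
    · by_cases hP : P = P₀
      · subst hP
        refine ⟨m, w, hm, hw0, hw, le_of_eq ?_⟩
        rw [Finsupp.add_apply, Finsupp.single_eq_same]
        field_simp
        ring
      · obtain ⟨M, u, h1, h2, h3, h4⟩ := hB P
        refine ⟨M, u, h1, h2, h3, ?_⟩
        rwa [Finsupp.add_apply, Finsupp.single_eq_of_ne hP, add_zero]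
    · refine (Finset.card_le_card Finsupp.support_add).trans ((Finset.card_union_le _ _).trans ?_)
      have := Finset.card_le_card
        (Finsupp.support_single_subset (a := P₀) (b := -(P₀.ord w : ℚ) / m - B P₀))
      rw [Finset.card_singleton] at this
      omega
    · rw [dgQ_add, dgQ_single]; linarith
    · rw [dgQ_add, dgQ_single, neg_div]; linarith
    · rw [Finsupp.add_apply, Finsupp.single_eq_same]; linarith

variable (A) in
/-- The set of slopes at a point. -/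
def Slopes (P : Pt k) : Set ℚ :=
  {b | ∃ (m : ℕ) (w : RatFunc k), 0 < m ∧ w ≠ 0 ∧ w ∈ A m 0 ∧ b = lam1 P - (P.ord w : ℚ) / m}

theorem slopes_bdd (k1 : K1 k) (k4 : K4 k p) (us : St_Use k p) (s : Sys1 p A I)
    {B : Pt k →₀ ℚ} (hB : Wit A B) (h0 : 0 < dgQ B) (P : Pt k) : BddAbove (Slopes A P) := by
  obtain ⟨Q, hQ, -⟩ := k1.infty
  refine ⟨lam1 P + B P + B.support.card + 3, ?_⟩
  rintro b ⟨m, w, hm, hw0, hw, rfl⟩
  by_contra hc
  push Not at hc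
  obtain ⟨B', hB', hcard, -, hd, -⟩ := raise hB P hm hw0 hw
  have hcard' : (B'.support.card : ℚ) ≤ B.support.card + 1 := by exact_mod_cast hcard
  have hn : (0 : ℚ) ≤ B.support.card := by positivity
  have h1 := use_wit k4 us s hB' 0 (by linarith) (by push_cast; linarith)
  have h2 : 3 ≤ dg (cl ((((0 : ℕ) : ℚ) + 1) • B')) := by
    have := k4.le_cl ((((0 : ℕ) : ℚ) + 1) • B')
    rw [dgQ_smul] at this
    have h3 : (3 : ℚ) ≤ (dg (cl ((((0 : ℕ) : ℚ) + 1) • B')) : ℚ) := by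
      refine le_trans ?_ this
      push_cast
      linarith
    exact_mod_cast h3
  obtain ⟨f, hf0, hf, hXf⟩ := k1.ratio_HH _ h2
  exact no_ratio s hf0 (h1 hf) (h1 hXf) hQ

theorem slopes_step (k1 : K1 k) (k4 : K4 k p) (us : St_Use k p) (s : Sys1 p A I)
    {B : Pt k →₀ ℚ} (hB : Wit A B) (h0 : 0 < dgQ B) (P : Pt k) :
    ∃ m₀ : ℕ, ∀ b ∈ Slopes A P, ∀ m : ℕ, m₀ ≤ m →
      ∃ b' ∈ Slopes A P, ((⌈(m + 1 : ℚ) * b⌉ : ℚ) - 1) ≤ m * b' := by
  obtain ⟨m₀, hm₀⟩ := exists_nat_ge (((B.support.card : ℚ) + 2) / dgQ B)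
  rw [div_le_iff₀ h0] at hm₀
  refine ⟨m₀ + 1, ?_⟩
  rintro b ⟨m', w, hm', hw0, hw, rfl⟩ m hm
  obtain ⟨B', hB', hcard, hd, -, hP⟩ := raise hB P hm' hw0 hw
  have hcard' : (B'.support.card : ℚ) ≤ B.support.card + 1 := by exact_mod_cast hcard
  have hn : (0 : ℚ) ≤ B.support.card := by positivity
  have hmm : (m₀ : ℚ) + 1 ≤ m := by exact_mod_cast hm
  have hm0 : (0 : ℚ) ≤ m₀ := by positivity
  have hbig : (B.support.card : ℚ) + 2 ≤ (m + 1) * dgQ B' := by nlinarith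
  have h1 := use_wit k4 us s hB' m (by linarith) (by linarith)
  have h2 : 2 ≤ dg (cl (((m : ℚ) + 1) • B')) := by
    have := k4.le_cl (((m : ℚ) + 1) • B')
    rw [dgQ_smul] at this
    have h3 : (2 : ℚ) ≤ (dg (cl (((m : ℚ) + 1) • B')) : ℚ) := by linarith
    exact_mod_cast h3
  obtain ⟨g, hg0, hg, hord⟩ := k1.exact_HH _ P h2
  have hmpos : 0 < m := by omega
  have hmq : (0 : ℚ) < m := by exact_mod_cast hmpos
  refine ⟨_, ⟨m, g, hmpos, hg0, h1 hg, rfl⟩, ?_⟩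
  have hc : cl (((m : ℚ) + 1) • B') P = ⌈((m : ℚ) + 1) * B' P⌉ := by
    simp [cl]
  rw [hc] at hord
  have h4 : ⌈((m : ℚ) + 1) * (lam1 P - (P.ord w : ℚ) / m')⌉ ≤
      ⌈((m : ℚ) + 1) * B' P⌉ + (m + 1) * lam1 P := by
    rw [← Int.ceil_add_intCast]
    refine Int.ceil_mono ?_
    rw [neg_div] at hP
    push_cast
    nlinarith
  have h5 : ((⌈((m : ℚ) + 1) * (lam1 P - (P.ord w : ℚ) / m')⌉ : ℤ) : ℚ) ≤
      (⌈((m : ℚ) + 1) * B' P⌉ : ℚ) + (m + 1) * lam1 P := by exact_mod_cast h4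
  have h6 : (m : ℚ) * (lam1 P - (P.ord g : ℚ) / m) = m * lam1 P - P.ord g := by
    field_simp
  rw [h6, hord]
  push_cast
  linarith

end CurG

open CurG in
theorem st_Std (k1 : K1 k) (k4 : K4 k p) (k5 : K5) (us : St_Use k p) : St_Std k p := by
  classical
  intro A I s
  obtain ⟨Q, hQ, hQ', -⟩ := k1.infty
  obtain ⟨M₀, w₀, hM₀, hw0, hw, hXw⟩ := exists_ratio s Q
  obtain ⟨D, hD, hD0⟩ := k1.dv w₀ hw0
  have hM : (0 : ℚ) < M₀ := by exact_mod_cast hM₀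
  have hX : (RatFunc.X : RatFunc k) ≠ 0 := RatFunc.X_ne_zero
  have hlamQ : lam1 Q = -1 := by
    rw [lam1, if_neg]
    rw [Place.not_ge_iff]
    exact ⟨hX, by omega⟩
  have hlam : ∀ P, P ≠ Q → lam1 P = 1 := fun P hP => by rw [lam1, if_pos (hQ' P hP)]
  let B : Pt k →₀ ℚ := (1 / M₀ : ℚ) •
    (Finsupp.single Q 1 + (-1 : ℚ) • D.mapRange (fun n : ℤ => (n : ℚ)) (by simp))
  have hdg : dgQ B = 1 / M₀ := by
    rw [dgQ_smul, dgQ_add, dgQ_single, dgQ_smul, dgQ_cast, hD0]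
    simp
  have hB0 : 0 < dgQ B := by rw [hdg]; positivity
  have hBP : ∀ P, P ≠ Q → B P = -(P.ord w₀ : ℚ) / M₀ := by
    intro P hP
    simp only [B, Finsupp.smul_apply, Finsupp.add_apply, Finsupp.single_eq_of_ne hP,
      Finsupp.mapRange_apply, hD, smul_eq_mul]
    ring
  have hBQ : B Q = -(Q.ord (RatFunc.X * w₀) : ℚ) / M₀ := by
    rw [Q.ord_mul hX hw0, hQ]
    simp only [B, Finsupp.smul_apply, Finsupp.add_apply, Finsupp.single_eq_same,
      Finsupp.mapRange_apply, hD, smul_eq_mul]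
    push_cast
    ring
  have hex : ∀ P, ∃ u : RatFunc k, u ≠ 0 ∧ u ∈ A M₀ 0 ∧ B P = -(P.ord u : ℚ) / M₀ := by
    intro P
    by_cases hP : P = Q
    · subst hP
      exact ⟨_, mul_ne_zero hX hw0, hXw, hBQ⟩
    · exact ⟨_, hw0, hw, hBP P hP⟩
  have hW : Wit A B := by
    intro P
    obtain ⟨u, hu0, hu, h⟩ := hex P
    refine ⟨M₀, u, hM₀, hu0, hu, le_of_eq ?_⟩
    rw [h]
    field_simp
  have hmem : ∀ P, (lam1 P : ℚ) + B P ∈ Slopes A P := by
    intro P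
    obtain ⟨u, hu0, hu, h⟩ := hex P
    exact ⟨M₀, u, hM₀, hu0, hu, by rw [h]; ring⟩
  have hν : ∀ P, ∃ n : ℕ, 1 ≤ n ∧ (∀ b ∈ Slopes A P, b ≤ 1 / n) ∧
      ∀ ε : ℚ, 0 < ε → ∃ b ∈ Slopes A P, 1 / n - ε < b := by
    intro P
    obtain ⟨m₀, hm₀⟩ := slopes_step k1 k4 us s hW hB0 P
    refine k5.shok _ m₀ (slopes_bdd k1 k4 us s hW hB0 P) ?_ hm₀
    obtain ⟨m, f, hm, hf, hf'⟩ := s.pos P
    obtain ⟨hf0, hlt⟩ := Place.not_ge_iff.1 hf'
    refine ⟨_, ⟨m, f, hm, hf0, hf, rfl⟩, ?_⟩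
    have hmq : (0 : ℚ) < m := by exact_mod_cast hm
    have hlt' : (P.ord f : ℚ) < m * lam1 P := by exact_mod_cast hlt
    rw [sub_pos, div_lt_iff₀ hmq]
    linarith
  choose ν hν1 hν2 hν3 using hν
  refine ⟨insert Q B.support, ν, hν1, ?_, ?_, ?_⟩
  · have h1 : ∑ P ∈ insert Q B.support, (1 - 1 / (ν P : ℚ)) ≤
        ∑ P ∈ insert Q B.support, ((if P = Q then (2 : ℚ) else 0) - B P) := by
      refine Finset.sum_le_sum fun P _ => ?_
      have := hν2 P _ (hmem P)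
      by_cases hP : P = Q
      · subst hP
        rw [hlamQ] at this
        rw [if_pos rfl]
        push_cast at this
        linarith
      · rw [hlam P hP] at this
        rw [if_neg hP]
        push_cast at this
        linarith
    refine lt_of_le_of_lt h1 ?_
    rw [Finset.sum_sub_distrib, Finset.sum_ite_eq', if_pos (Finset.mem_insert_self _ _),
      ← dgQ_eq_sum B (Finset.subset_insert _ _)]
    linarith
  · intro P hP
    rw [Finset.mem_insert, not_or, Finsupp.notMem_support_iff] at hP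
    obtain ⟨hPQ, hP0⟩ := hP
    refine ⟨?_, hlam P hPQ, M₀, w₀, hM₀, hw0, hw, ?_⟩
    · have := hν2 P _ (hmem P)
      rw [hlam P hPQ, hP0] at this
      have h1 : (0 : ℚ) < ν P := by exact_mod_cast hν1 P
      rw [le_div_iff₀ h1] at this
      have h2 : (ν P : ℚ) ≤ 1 := by simpa using this
      have h3 : ν P ≤ 1 := by exact_mod_cast h2
      have := hν1 P
      omega
    · have := hBP P hPQ
      rw [hP0, eq_div_iff hM.ne'] at this
      have h2 : (P.ord w₀ : ℚ) = 0 := by linarith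
      have h3 : P.ord w₀ = 0 := by exact_mod_cast h2
      omega
  · intro P ε hε
    obtain ⟨b, ⟨m, w, hm, hw0', hw', rfl⟩, hb⟩ := hν3 P ε hε
    refine ⟨m, w, hm, hw0', hw', ?_⟩
    have hmq : (0 : ℚ) < m := by exact_mod_cast hm
    rw [← div_lt_iff₀' hmq]
    linarith

end Pool.Agent.Lib.MP_5f81cf_ag.Full
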