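import Pool.Agent.Lib.MP_5f81cf_ag.FBlue5

/-! The curve block: a saturated system on the projective line contains all leading terms. -/

namespace Pool.Agent.Lib.MP_5f81cf_ag.Full

open Pool.Agent.Lib.MP_e06174_ag

namespace CurH

variable {k : Type} [Field k] {p : ℕ} [Fact p.Prime]
variable {A I : ℕ → ℤ → Submodule k (RatFunc k)}

lemma dgQ_eq (B : Pt k →₀ ℚ) {T : Finset (Pt k)} (h : B.support ⊆ T) : dgQ B = ∑ P ∈ T, B P :=
  Finsupp.sum_of_support_subset _ h _ (by simp)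

lemma dg_eq (D : Pt k →₀ ℤ) {T : Finset (Pt k)} (h : D.support ⊆ T) : dg D = ∑ P ∈ T, D P :=
  Finsupp.sum_of_support_subset _ h _ (by simp)

lemma cl_apply (B : Pt k →₀ ℚ) (P : Pt k) : cl B P = ⌈B P⌉ := by simp [cl]

lemma sum_ord (k1 : K1 k) {f : RatFunc k} (hf : f ≠ 0) : ∃ T₀ : Finset (Pt k),
    (∀ P, P ∉ T₀ → P.ord f = 0) ∧ ∀ T : Finset (Pt k), T₀ ⊆ T → ∑ P ∈ T, P.ord f = 0 := by
  obtain ⟨D, h1, h2⟩ := k1.dv f hf
  refine ⟨D.support, fun P hP => ?_, fun T hT => ?_⟩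
  · rw [← h1]; exact Finsupp.notMem_support_iff.mp hP
  · rw [← h2, dg_eq D hT]
    exact Finset.sum_congr rfl fun P _ => (h1 P).symm

lemma pow_mem (s : Sys1 p A I) {m : ℕ} {n : ℤ} {f : RatFunc k} (hf : f ∈ A m n) (j : ℕ) :
    f ^ j ∈ A (j * m) (j * n) := by
  induction j with
  | zero => simpa using s.one
  | succ j ih =>
    have := s.mul _ _ _ _ _ _ ih hf
    rw [pow_succ, Nat.succ_mul, Nat.cast_succ, add_mul, one_mul]
    exact this

/-- Witnesses for the saturation statement. -/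
lemma wit (s : Sys1 p A I) (P : Pt k) {m n' : ℕ} (n : ℕ) {th τ : RatFunc k} (hm : 0 < m)
    (hn : 0 < n') (h1 : th ≠ 0) (h2 : τ ≠ 0) (h3 : th ∈ A m 0) (h4 : τ ∈ A 0 n') {b : ℚ}
    (hb : b ≤ -(P.ord th : ℚ) / m - n * ((P.ord τ : ℚ) / n')) :
    ∃ (M : ℕ) (w : RatFunc k), 0 < M ∧ w ≠ 0 ∧ w ∈ A (M * (0 + 1)) (M * n) ∧
      b * M ≤ -P.ord w := by
  refine ⟨n' * m, th ^ n' * τ ^ (m * n), by positivity,
    mul_ne_zero (pow_ne_zero _ h1) (pow_ne_zero _ h2), ?_, ?_⟩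
  · have := s.mul _ _ _ _ _ _ (pow_mem s h3 n') (pow_mem s h4 (m * n))
    convert this using 2
    · ring
    · push_cast; ring
  · rw [P.ord_mul (pow_ne_zero _ h1) (pow_ne_zero _ h2), P.ord_pow, P.ord_pow]
    have hm' : (0 : ℚ) < m := by exact_mod_cast hm
    have hn' : (0 : ℚ) < n' := by exact_mod_cast hn
    refine (mul_le_mul_of_nonneg_right hb (by positivity)).trans_eq ?_
    push_cast
    field_simp
    ring

lemma bdd (P : Pt k) (W : Submodule k (RatFunc k)) [FiniteDimensional k W] :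
    ∃ c : ℤ, ∀ g ∈ W, P.Ge c g := by
  obtain ⟨T, hT⟩ := (Submodule.fg_iff_finiteDimensional W).mpr inferInstance
  obtain ⟨c, hc⟩ := (T.image fun g => P.ord g).bddBelow
  refine ⟨c, fun g hg => ?_⟩
  rw [← hT] at hg
  induction hg using Submodule.span_induction with
  | mem x hx => exact Place.ge_of_le (hc (by simpa using ⟨x, hx, rfl⟩))
  | zero => exact Place.ge_zero _
  | add x y _ _ hx hy => exact hx.add hy
  | smul a x _ hx => exact hx.smul a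

lemma ratio_pos (k1 : K1 k) (s : Sys1 p A I) :
    ∃ (n : ℕ) (f : RatFunc k), 0 < n ∧ f ≠ 0 ∧ f ∈ A 0 n ∧ RatFunc.X * f ∈ A 0 n := by
  obtain ⟨n, f, h1, h2, h3⟩ := s.ratio
  obtain ⟨Q, hQ, -⟩ := k1.infty
  have h4 : 0 < n := by
    rcases lt_trichotomy n 0 with h | rfl | h
    · rw [s.neg n h] at h2
      exact absurd h2 h1
    · obtain ⟨c, hc⟩ := s.const _ h2
      obtain ⟨c', hc'⟩ := s.const _ h3
      have h5 := Q.ord_mul RatFunc.X_ne_zero h1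
      rw [hc', hQ, hc, Q.ord_const, Q.ord_const] at h5
      omega
    · exact h
  lift n to ℕ using h4.le
  exact ⟨n, f, by exact_mod_cast h4, h1, h2, h3⟩

/-- The slopes at a point. -/
def Slopes (A : ℕ → ℤ → Submodule k (RatFunc k)) (P : Pt k) : Set ℚ :=
  {s | ∃ (n : ℕ) (τ : RatFunc k), 0 < n ∧ τ ≠ 0 ∧ τ ∈ A 0 n ∧ s = (P.ord τ : ℚ) / n}

lemma exists_point (k1 : K1 k) (s : Sys1 p A I) {n : ℕ} (hn : 0 < n) {φ : RatFunc k}
    (hφ : φ ≠ 0) : ∃ P : Pt k, ∃ t ∈ Slopes A P, n * t < (P.ord φ : ℤ) := by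
  classical
  obtain ⟨nf, f, h1, h2, h3, h4⟩ := ratio_pos k1 s
  obtain ⟨Q, hQ, -⟩ := k1.infty
  have hXf : RatFunc.X * f ≠ 0 := mul_ne_zero RatFunc.X_ne_zero h2
  have hnf : (0 : ℚ) < nf := by exact_mod_cast h1
  by_contra hcon
  push Not at hcon
  have key : ∀ (P : Pt k) (τ : RatFunc k), τ ≠ 0 → τ ∈ A 0 nf →
      (nf : ℤ) * P.ord φ ≤ n * P.ord τ := fun P τ ha hb => by
    have := hcon P _ ⟨nf, τ, h1, ha, hb, rfl⟩
    rw [← mul_div_assoc, le_div_iff₀ hnf, mul_comm] at this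
    exact_mod_cast this
  obtain ⟨T₁, -, a1⟩ := sum_ord k1 h2
  obtain ⟨T₂, -, a2⟩ := sum_ord k1 hφ
  have b1 := a1 (insert Q (T₁ ∪ T₂)) (Finset.subset_union_left.trans (Finset.subset_insert _ _))
  have b2 := a2 (insert Q (T₁ ∪ T₂)) (Finset.subset_union_right.trans (Finset.subset_insert _ _))
  have h5 : ∑ P ∈ insert Q (T₁ ∪ T₂), (nf : ℤ) * P.ord φ <
      ∑ P ∈ insert Q (T₁ ∪ T₂), (n : ℤ) * P.ord f := by
    refine Finset.sum_lt_sum (fun P _ => key P f h2 h3) ⟨Q, Finset.mem_insert_self _ _, ?_⟩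
    have h6 := key Q _ hXf h4
    rw [Q.ord_mul RatFunc.X_ne_zero h2, hQ] at h6
    have : (0 : ℤ) < n := by exact_mod_cast hn
    linarith
  rw [← Finset.mul_sum, ← Finset.mul_sum, b1, b2] at h5
  simp at h5

/-- Saturation at one point. -/
lemma step (k1 : K1 k) (k4 : K4 k p) (us : St_Use k p) (s : Sys1 p A I) (P₀ : Pt k) :
    ∃ n₀ : ℕ, 0 < n₀ ∧ ∀ n : ℕ, n₀ ≤ n → ∀ t ∈ Slopes A P₀, ∀ (m : ℕ) (th : RatFunc k), 0 < m →
      th ≠ 0 → th ∈ A m 0 → ∃ g, g ≠ 0 ∧ g ∈ A 0 n ∧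
        P₀.ord g ≤ 1 - lam1 P₀ - ⌈-(P₀.ord th : ℚ) / m - n * t⌉ := by
  classical
  obtain ⟨nf, f, h1, h2, h3, h4⟩ := ratio_pos k1 s
  obtain ⟨Q, hQ, -⟩ := k1.infty
  obtain ⟨m₀, th₀, g1, g2, g3⟩ := s.pos Q
  have g4 : th₀ ≠ 0 := by
    rintro rfl
    exact g3 (Place.ge_zero _)
  have hXf : RatFunc.X * f ≠ 0 := mul_ne_zero RatFunc.X_ne_zero h2
  have hnf : (0 : ℚ) < nf := by exact_mod_cast h1
  obtain ⟨T₁, z1, a1⟩ := sum_ord k1 h2
  obtain ⟨T₂, z2, a2⟩ := sum_ord k1 g4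
  set T : Finset (Pt k) := insert P₀ (insert Q (T₁ ∪ T₂)) with hT
  have hT1 : T₁ ⊆ T := Finset.subset_union_left.trans
    ((Finset.subset_insert _ _).trans (Finset.subset_insert _ _))
  have hT2 : T₂ ⊆ T := Finset.subset_union_right.trans
    ((Finset.subset_insert _ _).trans (Finset.subset_insert _ _))
  have hQT : Q ∈ T := Finset.mem_insert_of_mem (Finset.mem_insert_self _ _)
  have hPT : P₀ ∈ T := Finset.mem_insert_self _ _
  refine ⟨nf * (T.card + 2), by positivity, fun n hn t ht m th hm hth hA => ?_⟩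
  obtain ⟨n', τ, t1, t2, t3, rfl⟩ := ht
  set b₁ : Pt k → ℚ := fun P => -(P.ord th₀ : ℚ) / m₀ - n * ((P.ord f : ℚ) / nf) +
    if P = Q then (n : ℚ) / nf else 0 with hb₁
  set tg : ℚ := -(P₀.ord th : ℚ) / m - n * ((P₀.ord τ : ℚ) / n') with htg
  set c : ℚ := max 0 (tg - b₁ P₀) with hc
  let B : Pt k →₀ ℚ := Finsupp.onFinset T (fun P => b₁ P + if P = P₀ then c else 0) fun P hP => by
    by_contra hcon
    have e1 : P ≠ P₀ := fun h => hcon (h ▸ hPT)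
    have e2 : P ≠ Q := fun h => hcon (h ▸ hQT)
    refine hP ?_
    simp [hb₁, e1, e2, z1 P fun h => hcon (hT1 h), z2 P fun h => hcon (hT2 h)]
  have hB : ∀ P, B P = b₁ P + if P = P₀ then c else 0 := fun _ => rfl
  have hsupp : B.support ⊆ T := Finsupp.support_onFinset_subset
  have hdeg : dgQ B = n / nf + c := by
    have e1 : ∑ P ∈ T, (P.ord f : ℚ) = 0 := by exact_mod_cast a1 T hT1
    have e2 : ∑ P ∈ T, (P.ord th₀ : ℚ) = 0 := by exact_mod_cast a2 T hT2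
    rw [dgQ_eq B hsupp]
    simp only [hB, hb₁, Finset.sum_add_distrib, Finset.sum_sub_distrib, ← Finset.mul_sum,
      ← Finset.sum_div, Finset.sum_neg_distrib, e1, e2, Finset.sum_ite_eq', hQT, hPT, if_true]
    simp
  have hbig : (T.card : ℚ) + 2 ≤ dgQ B := by
    have e1 : (T.card : ℚ) + 2 ≤ n / nf := by
      rw [le_div_iff₀ hnf, mul_comm]
      exact_mod_cast hn
    have e2 : 0 ≤ c := le_max_left _ _
    rw [hdeg]; linarith
  have hcard : (B.support.card : ℚ) ≤ T.card := by exact_mod_cast Finset.card_le_card hsupp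
  have hc0 : (0 : ℚ) ≤ T.card := Nat.cast_nonneg _
  have hgood : Good p B := k4.big B (by linarith) (by linarith)
  have hw₁ : ∀ P, ∃ (M : ℕ) (w : RatFunc k), 0 < M ∧ w ≠ 0 ∧ w ∈ A (M * (0 + 1)) (M * n) ∧
      b₁ P * M ≤ -P.ord w := fun P => by
    by_cases hP : P = Q
    · refine wit s P n g1 h1 g4 hXf g2 h4 (le_of_eq ?_)
      rw [P.ord_mul RatFunc.X_ne_zero h2, hP, hQ]
      simp only [hb₁, if_true]
      push_cast
      ring
    · exact wit s P n g1 h1 g4 h2 g2 h3 (le_of_eq (by simp [hb₁, hP]))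
  have huse := us A I s 0 n B hgood fun P => by
    by_cases hP : P = P₀
    · rcases le_total 0 (tg - b₁ P₀) with h | h
      · refine wit s P n hm t1 hth t2 hA t3 (le_of_eq ?_)
        rw [hB, if_pos hP, hc, max_eq_right h, hP]
        ring
      · rw [hB, if_pos hP, hc, max_eq_left h, add_zero]
        exact hw₁ P
    · rw [hB, if_neg hP, add_zero]
      exact hw₁ P
  have h2le : 2 ≤ dg (cl B) := by
    have : (2 : ℚ) ≤ dg (cl B) := by linarith [k4.le_cl B]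
    exact_mod_cast this
  obtain ⟨g, q1, q2, q3⟩ := k1.exact_HH (cl B) P₀ h2le
  refine ⟨g, q1, s.le _ _ (huse q2), ?_⟩
  rw [q3, cl_apply]
  have : tg ≤ B P₀ := by
    rw [hB, if_pos rfl]
    linarith [le_max_right 0 (tg - b₁ P₀)]
  linarith [Int.ceil_mono this]

lemma slope (k1 : K1 k) (k4 : K4 k p) (k5 : K5) (us : St_Use k p) (s : Sys1 p A I) (P₀ : Pt k)
    {a : ℚ} (ha : 0 < a) (h : ∀ ε : ℚ, 0 < ε → ∃ m w, 0 < m ∧ w ≠ 0 ∧ w ∈ A m 0 ∧
      (P₀.ord w : ℚ) < m * (lam1 P₀ - a + ε)) {n : ℕ} {o : ℤ} (hn : 0 < n)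
    (ho : ∃ t ∈ Slopes A P₀, n * t < o) :
    ∀ ε : ℚ, 0 < ε → ∃ t ∈ Slopes A P₀, n * t < o - a + ε := by
  obtain ⟨n₀, h0, hs⟩ := step k1 k4 us s P₀
  have key : ∀ t ∈ Slopes A P₀, ∀ ε : ℚ, 0 < ε → ∀ n : ℕ, n₀ ≤ n →
      ∃ g, g ≠ 0 ∧ g ∈ A 0 n ∧ P₀.ord g ≤ ⌊n * t - a + ε⌋ + 1 := by
    intro t ht ε hε n hn
    obtain ⟨m, w, w1, w2, w3, w4⟩ := h ε hε
    obtain ⟨g, g1, g2, g3⟩ := hs n hn t ht m w w1 w2 w3
    refine ⟨g, g1, g2, g3.trans ?_⟩
    have hm : (0 : ℚ) < m := by exact_mod_cast w1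
    have e1 : -(n * t - a + ε) - (lam1 P₀ : ℤ) ≤ -(P₀.ord w : ℚ) / m - n * t := by
      have : -(lam1 P₀ - a + ε : ℚ) ≤ -(P₀.ord w : ℚ) / m := by
        rw [le_div_iff₀ hm]; linarith
      linarith
    have e2 := Int.ceil_mono e1
    rw [Int.ceil_sub_intCast, Int.ceil_neg] at e2
    linarith
  refine k5.slope (Slopes A P₀) a n₀ ?_ ha (fun t ht ε hε n hn => ?_) n o hn ho
  · have := s.fin n₀
    obtain ⟨c, hc⟩ := bdd P₀ (A 0 n₀)
    refine ⟨(c + a - 2) / n₀, fun t ht => ?_⟩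
    obtain ⟨g, g1, g2, g3⟩ := key t ht 1 one_pos n₀ le_rfl
    have e1 : ((c : ℤ) : ℚ) ≤ (⌊n₀ * t - a + 1⌋ : ℤ) + 1 := by
      exact_mod_cast ((hc g g2).le g1).trans g3
    have e2 := Int.floor_le (n₀ * t - a + 1)
    rw [div_le_iff₀ (by exact_mod_cast h0)]
    linarith
  · obtain ⟨g, g1, g2, g3⟩ := key t ht ε hε n hn
    have hn' : 0 < n := h0.trans_le hn
    refine ⟨_, ⟨n, g, hn', g1, g2, rfl⟩, ?_⟩
    have : (n : ℚ) ≠ 0 := by exact_mod_cast hn'.ne'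
    rw [mul_div_cancel₀ _ this]
    exact_mod_cast g3

lemma lam1_sum (k1 : K1 k) {T : Finset (Pt k)} (h : ∀ P, P ∉ T → lam1 P = 1) :
    ∑ P ∈ T, (1 - lam1 P) = 2 := by
  classical
  obtain ⟨Q, hQ, hP, -⟩ := k1.infty
  have h1 : lam1 Q = -1 := by
    rw [lam1, if_neg]
    rw [Place.ge_iff RatFunc.X_ne_zero, hQ]
    omega
  have h2 : Q ∈ T := by
    by_contra hcon
    rw [h Q hcon] at h1
    omega
  rw [Finset.sum_eq_single_of_mem Q h2 fun P _ hne => by rw [lam1, if_pos (hP P hne), sub_self], h1]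
  rfl

open Classical in
/-- The final divisor is good. -/
lemma good (hp : p ≠ 2) (k1 : K1 k) (k5 : K5) {Y : Finset (Pt k)} {ν : Pt k → ℕ} {P₀ : Pt k}
    (h1 : ∀ P, 1 ≤ ν P) (h2 : ∑ P ∈ Y, (1 - 1 / (ν P : ℚ)) < 2)
    (h3 : ∀ P, P ∉ Y → ν P = 1 ∧ lam1 P = 1) (hP₀ : P₀ ∈ Y) {φ : RatFunc k} (hφ : φ ≠ 0) :
    ∃ B : Pt k →₀ ℚ, Good p B ∧
      ∀ P, B P = (if P = P₀ then 2 else 1) / (ν P : ℚ) - lam1 P - P.ord φ := by
  obtain ⟨T₁, z1, a1⟩ := sum_ord k1 hφ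
  set T : Finset (Pt k) := Y ∪ T₁ with hT
  have hY : Y ⊆ T := Finset.subset_union_left
  have hT1 : T₁ ⊆ T := Finset.subset_union_right
  let B : Pt k →₀ ℚ := Finsupp.onFinset T
    (fun P => (if P = P₀ then 2 else 1) / (ν P : ℚ) - lam1 P - P.ord φ) fun P hP => by
      by_contra hcon
      have e1 : P ≠ P₀ := fun h => hcon (h ▸ hY hP₀)
      obtain ⟨e2, e3⟩ := h3 P fun h => hcon (hY h)
      refine hP ?_
      simp [e1, e2, e3, z1 P fun h => hcon (hT1 h)]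
  have hB : ∀ P, B P = (if P = P₀ then 2 else 1) / (ν P : ℚ) - lam1 P - P.ord φ := fun _ => rfl
  have hsupp : B.support ⊆ T := Finsupp.support_onFinset_subset
  have hT3 : ∀ P, P ∉ T → lam1 P = 1 := fun P hP => (h3 P fun h => hP (hY h)).2
  have hlam := lam1_sum k1 hT3
  have hord := a1 T hT1
  have h2' : ∑ P ∈ T, (1 - 1 / (ν P : ℚ)) < 2 := by
    rwa [← Finset.sum_subset hY fun P _ hP => by simp [(h3 P hP).1]]
  refine ⟨B, ⟨?_, fun i hi => ?_⟩, hB⟩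
  · have e1 : ∑ P ∈ T, (1 - (lam1 P : ℚ)) = 2 := by exact_mod_cast hlam
    have e2 : ∑ P ∈ T, (P.ord φ : ℚ) = 0 := by exact_mod_cast hord
    have e3 : ∑ P ∈ T, ((1 - (lam1 P : ℚ)) - (1 - 1 / (ν P : ℚ)) - P.ord φ) ≤ dgQ B := by
      rw [dgQ_eq B hsupp]
      refine Finset.sum_le_sum fun P _ => ?_
      have : 1 / (ν P : ℚ) ≤ (if P = P₀ then 2 else 1) / (ν P : ℚ) := by
        gcongr
        split_ifs <;> norm_num
      rw [hB]
      linarith
    rw [Finset.sum_sub_distrib, Finset.sum_sub_distrib, e1, e2] at e3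
    linarith
  · have hodd : Odd (p ^ i) := ((Fact.out : p.Prime).odd_of_ne_two hp).pow
    have har := k5.arith T ν P₀ (p ^ i) hodd h1 h2' (hY hP₀)
    set G := cl (((p : ℚ) ^ i) • B) with hG
    have hGP : ∀ P, G P = ⌈((p ^ i : ℕ) : ℚ) * (if P = P₀ then 2 else 1) / ν P⌉ -
        (p ^ i : ℕ) * (lam1 P + P.ord φ) := fun P => by
      rw [hG, cl_apply, ← Int.ceil_sub_intCast, Finsupp.smul_apply, hB, smul_eq_mul]
      congr 1
      push_cast
      ring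
    have hGs : G.support ⊆ T :=
      (Finsupp.support_mapRange.trans Finsupp.support_smul).trans hsupp
    have hdg : dg G = ∑ P ∈ T, (⌈((p ^ i : ℕ) : ℚ) * (if P = P₀ then 2 else 1) / ν P⌉ -
        (p ^ i : ℕ)) + 2 * (p ^ i : ℕ) := by
      rw [dg_eq G hGs, ← hlam, Finset.sum_mul, ← Finset.sum_add_distrib, ← sub_eq_zero,
        ← Finset.sum_sub_distrib, ← mul_zero (-((p ^ i : ℕ) : ℤ)), ← hord, Finset.mul_sum]
      refine Finset.sum_congr rfl fun P _ => ?_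
      rw [hGP]
      ring
    have hcard : ((G.support.filter fun P => ¬ (p : ℤ) ∣ G P).card : ℤ) ≤
        ∑ P ∈ T, (if ν P = 1 then 0 else 1 : ℤ) := by
      have e1 : (G.support.filter fun P => ¬ (p : ℤ) ∣ G P) ⊆ T.filter fun P => ¬ ν P = 1 := by
        intro P hP
        rw [Finset.mem_filter] at hP ⊢
        refine ⟨hGs hP.1, fun hν => hP.2 ?_⟩
        have hd : (p : ℤ) ∣ ((p ^ i : ℕ) : ℤ) := by
          push_cast
          exact dvd_pow_self _ (by omega)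
        rw [hGP, hν]
        refine dvd_sub ?_ (hd.mul_right _)
        have : ((p ^ i : ℕ) : ℚ) * (if P = P₀ then 2 else 1) / (1 : ℕ) =
            ((((p ^ i : ℕ) : ℤ) * (if P = P₀ then 2 else 1) : ℤ) : ℚ) := by
          split_ifs <;> simp
        rw [this, Int.ceil_intCast]
        exact hd.mul_right _
      refine (Int.ofNat_le.mpr (Finset.card_le_card e1)).trans_eq ?_
      rw [Finset.card_filter]
      push_cast
      exact Finset.sum_congr rfl fun P _ => by by_cases h : ν P = 1 <;> simp [h]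
    rw [Finset.sum_sub_distrib] at har
    unfold Cond
    rw [hdg]
    linarith

end CurH

open CurH in
theorem st_CURVE1 {k : Type} [Field k] {p : ℕ} [Fact p.Prime] (hp : p ≠ 2) (k1 : K1 k)
    (k4 : K4 k p) (k5 : K5) (us : St_Use k p) (sd : St_Std k p) : St_CURVE1 k p := by
  classical
  intro A I a1 a2 a3 a4 a5 a6 a7 a8 a9 a10 a11 a12 a13 n hn φ hφ
  have s : Sys1 p A I := ⟨a1, a2, a3, a4, a5, a6, a7, a8, a9, a10, a11, a12, a13⟩
  by_cases h0 : φ = 0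
  · rw [h0]; exact zero_mem _
  lift n to ℕ using by omega
  have hn' : 0 < n := by exact_mod_cast hn
  have hnq : (n : ℚ) ≠ 0 := by exact_mod_cast hn'.ne'
  obtain ⟨Y, ν, b1, b2, b3, b4⟩ := sd A I s
  obtain ⟨P₀, hP₀⟩ := exists_point k1 s hn' h0
  have hν : ∀ P, (0 : ℚ) < 1 / ν P := fun P => by
    have : (0 : ℚ) < ν P := by exact_mod_cast b1 P
    positivity
  have hsl := slope k1 k4 k5 us s P₀ (hν P₀) (b4 P₀) hn' hP₀
  have b2' : ∑ P ∈ insert P₀ Y, (1 - 1 / (ν P : ℚ)) < 2 := by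
    by_cases h : P₀ ∈ Y
    · rwa [Finset.insert_eq_of_mem h]
    · rw [Finset.sum_insert h, (b3 P₀ h).1]
      simpa using b2
  obtain ⟨B, c1, c2⟩ := good (ν := ν) hp k1 k5 b1 b2' (fun P hP =>
    have := b3 P fun h => hP (Finset.mem_insert_of_mem h)
    ⟨this.1, this.2.1⟩) (Finset.mem_insert_self P₀ Y) h0
  obtain ⟨ε, B', d1, d2, d3, d4⟩ := k4.pert B (insert P₀ Y) c1
  refine us A I s 0 n B' d3 (fun P => ?_) ?_
  · by_cases hP : P = P₀
    · subst hP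
      obtain ⟨m, w, w1, w2, w3, w4⟩ := b4 P (ε / 2) (by positivity)
      obtain ⟨_, ⟨n', τ, t1, t2, t3, rfl⟩, t4⟩ := hsl (ε / 2) (by positivity)
      refine wit s P n w1 t1 w2 t2 w3 t3 ?_
      have hm : (0 : ℚ) < m := by exact_mod_cast w1
      have e1 : -(lam1 P - 1 / ν P + ε / 2 : ℚ) ≤ -(P.ord w : ℚ) / m := by
        rw [le_div_iff₀ hm]; linarith
      rw [d2, c2, if_pos rfl, if_pos (Finset.mem_insert_self _ _),
        show (2 : ℚ) / ν P = 1 / ν P + 1 / ν P by ring]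
      linarith
    · by_cases hY : P ∈ Y
      · obtain ⟨m, w, w1, w2, w3, w4⟩ := b4 P ε d1
        refine wit s P n w1 hn' w2 h0 w3 hφ ?_
        have hm : (0 : ℚ) < m := by exact_mod_cast w1
        have e1 : -(lam1 P - 1 / ν P + ε : ℚ) ≤ -(P.ord w : ℚ) / m := by
          rw [le_div_iff₀ hm]; linarith
        rw [d2, c2, if_neg hP, if_pos (Finset.mem_insert_of_mem hY), mul_div_cancel₀ _ hnq]
        linarith
      · obtain ⟨e2, e3, m, w, w1, w2, w3, w4⟩ := b3 P hY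
        refine wit s P n w1 hn' w2 h0 w3 hφ ?_
        have e1 : (0 : ℚ) ≤ -(P.ord w : ℚ) / m :=
          div_nonneg (by exact_mod_cast neg_nonneg.mpr w4) (Nat.cast_nonneg _)
        rw [d2, c2, if_neg hP, if_neg (by simp [hP, hY]), mul_div_cancel₀ _ hnq, e2, e3]
        push_cast
        linarith
  · rw [d4]
    intro P
    refine Place.ge_of_le ?_
    have e1 : ((-lam1 P - P.ord φ : ℤ) : ℚ) < B P := by
      have : 1 / (ν P : ℚ) ≤ (if P = P₀ then 2 else 1) / (ν P : ℚ) := by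
        gcongr
        split_ifs <;> norm_num
      rw [c2]
      push_cast
      linarith [hν P]
    have e2 := Int.lt_ceil.mpr e1
    rw [← cl_apply] at e2
    change 1 - lam1 P - cl B P ≤ _
    omega

end Pool.Agent.Lib.MP_5f81cf_ag.Full
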