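import Pool.Agent.Lib.MP_5f81cf_ag.FBlue3

/-! Block M1: the Gauss extension of a place. -/

namespace Pool.Agent.Lib.MP_5f81cf_ag.Full

open Pool.Agent.Lib.MP_e06174_ag Polynomial

namespace M1

section abs

variable {R K κ : Type} [CommRing R] [Field K] [Field κ] {ι : R →+* K} {ψ : R →+* κ} {π : R}

lemma cmp (hι : Function.Injective ι) (h0 : ι π ≠ 0) (hπ : ψ π = 0) {f : K} {n l : ℤ} {S Q P Q' : R}
    (h1 : f * ι Q = ι π ^ n * ι S) (h2 : f * ι Q' = ι π ^ l * ι P) (hQ : ψ Q ≠ 0) (hP : ψ P ≠ 0) : n ≤ l := by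
  by_contra h
  obtain ⟨m, rfl⟩ : ∃ m : ℕ, n = l + (m + 1 : ℕ) := ⟨(n - l - 1).toNat, by omega⟩
  have h3 : P * Q = π ^ (m + 1) * S * Q' := by
    apply hι
    refine mul_left_cancel₀ (zpow_ne_zero l h0) ?_
    rw [zpow_add₀ h0, zpow_natCast] at h1
    simp only [map_mul, map_pow]
    linear_combination ι Q' * h1 - ι Q * h2
  have h4 := congrArg ψ h3
  simp [hπ, hP, hQ] at h4

lemma ne_zero (hι : Function.Injective ι) {Q : R} (hQ : ψ Q ≠ 0) : ι Q ≠ 0 := by
  intro h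
  rw [← map_zero ι] at h
  rw [hι h, map_zero] at hQ
  exact hQ rfl

/-- A place from a prime element. -/
lemma exists_place {k : Type} [Field k] [Algebra k K] [Algebra k κ] (hι : Function.Injective ι) (h0 : ι π ≠ 0)
    (hπ : ψ π = 0)
    (rep : ∀ f : K, f ≠ 0 → ∃ (n : ℤ) (P Q : R), ψ P ≠ 0 ∧ ψ Q ≠ 0 ∧ f * ι Q = ι π ^ n * ι P)
    (hc : ∀ c : k, ∃ c' : R, ι c' = algebraMap k K c ∧ ψ c' = algebraMap k κ c)
    (hs : ∀ l : κ, ∃ S Q : R, ψ Q ≠ 0 ∧ l = ψ S / ψ Q) :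
    ∃ (E : Place k K) (ρ : K → κ), IsRes E ρ ∧ E.ord (ι π) = 1 ∧ ∀ S, E.Ge 0 (ι S) ∧ ρ (ι S) = ψ S := by
  classical
  choose! o P Q hP hQ hf using rep
  have le : ∀ {f : K} {n : ℤ} {S T : R}, f ≠ 0 → f * ι T = ι π ^ n * ι S → ψ T ≠ 0 → n ≤ o f :=
    fun h h1 hT => cmp hι h0 hπ h1 (hf _ h) hT (hP _ h)
  have eq : ∀ {f : K} {n : ℤ} {S T : R}, f ≠ 0 → f * ι T = ι π ^ n * ι S → ψ T ≠ 0 → ψ S ≠ 0 → o f = n :=
    fun h h1 hT hS => le_antisymm (cmp hι h0 hπ (hf _ h) h1 (hQ _ h) hS) (le h h1 hT)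
  have one : ψ 1 ≠ 0 := by simp
  have hπ1 : o (ι π) = 1 := eq (S := 1) (T := 1) h0 (by simp) one one
  have add : ∀ x y : K, x ≠ 0 → y ≠ 0 → x + y ≠ 0 → o x ≤ o y → o x ≤ o (x + y) := by
    intro x y hx hy hxy h
    obtain ⟨m, hm⟩ : ∃ m : ℕ, o y = o x + m := ⟨(o y - o x).toNat, by omega⟩
    have h1 := hf x hx
    have h2 := hf y hy
    rw [hm, zpow_add₀ h0, zpow_natCast] at h2
    refine le (S := P x * Q y + π ^ m * P y * Q x) (T := Q x * Q y) hxy ?_ (by simp [hQ x hx, hQ y hy])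
    simp only [map_mul, map_add, map_pow]
    linear_combination ι (Q y) * h1 + ι (Q x) * h2
  let E : Place k K := Place.ofOrd o
    (fun x y hx hy => by
      refine eq (S := P x * P y) (T := Q x * Q y) (mul_ne_zero hx hy) ?_ (by simp [hQ x hx, hQ y hy])
        (by simp [hP x hx, hP y hy])
      simp only [map_mul, zpow_add₀ h0]
      linear_combination (y * ι (Q y)) * hf x hx + (ι π ^ o x * ι (P x)) * hf y hy)
    (fun x y hx hy hxy => by
      rcases le_total (o x) (o y) with h | h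
      · exact (min_le_left _ _).trans (add x y hx hy hxy h)
      · rw [add_comm] at hxy ⊢
        exact (min_le_right _ _).trans (add y x hy hx hxy h))
    (fun c hc0 => by
      obtain ⟨c', h1, h2⟩ := hc c
      exact eq (S := c') (T := 1) (by simpa using hc0) (by simp [h1]) one (by simpa [h2] using hc0))
    ⟨ι π, h0, hπ1⟩
  have hE : ∀ {x : K}, x ≠ 0 → E.ord x = o x := fun hx => Place.ofOrd_ord _ _ _ _ _ hx
  have ge : ∀ {f : K} {S T : R}, ψ T ≠ 0 → f * ι T = ι S → E.Ge 0 f := by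
    intro f S T hT h
    by_cases h1 : f = 0
    · simp [h1]
    · rw [Place.ge_iff h1, hE h1]
      exact le (S := S) h1 (by simpa using h) hT
  have ex : ∀ {f : K}, E.Ge 0 f → ∃ x : R × R, ψ x.2 ≠ 0 ∧ f * ι x.2 = ι x.1 := by
    intro f h
    by_cases h1 : f = 0
    · exact ⟨(0, 1), one, by simp [h1]⟩
    · have h2 := h.le h1
      rw [hE h1] at h2
      obtain ⟨m, hm⟩ := Int.eq_ofNat_of_zero_le h2
      refine ⟨(π ^ m * P f, Q f), hQ f h1, ?_⟩
      rw [hf f h1, hm]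
      simp
  let ρ : K → κ := fun f =>
    if h : ∃ x : R × R, ψ x.2 ≠ 0 ∧ f * ι x.2 = ι x.1 then ψ h.choose.1 / ψ h.choose.2 else 0
  have hρ : ∀ {f : K} {S T : R}, ψ T ≠ 0 → f * ι T = ι S → ρ f = ψ S / ψ T := by
    intro f S T hT h
    have h1 : ∃ x : R × R, ψ x.2 ≠ 0 ∧ f * ι x.2 = ι x.1 := ⟨(S, T), hT, h⟩
    obtain ⟨h2, h3⟩ := h1.choose_spec
    simp only [ρ, dif_pos h1]
    rw [div_eq_div_iff h2 hT, ← map_mul, ← map_mul]
    congr 1
    apply hι
    simp only [map_mul]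
    linear_combination ι h1.choose.2 * h - ι T * h3
  have hS : ∀ S, E.Ge 0 (ι S) ∧ ρ (ι S) = ψ S := fun S =>
    ⟨ge (S := S) one (by simp), by simpa using hρ (f := ι S) (S := S) one (by simp)⟩
  refine ⟨E, ρ, ⟨?_, ?_, ?_, ?_, ?_⟩, by rw [hE h0, hπ1], hS⟩
  · intro a b ha hb
    obtain ⟨⟨S, T⟩, h1, h2⟩ := ex ha
    obtain ⟨⟨S', T'⟩, h3, h4⟩ := ex hb
    simp only at h1 h2 h3 h4
    rw [hρ h1 h2, hρ h3 h4, hρ (S := S * T' + S' * T) (T := T * T') (by simp [h1, h3])]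
    · simp only [map_mul, map_add]
      field_simp
    · simp only [map_mul, map_add]
      linear_combination ι T' * h2 + ι T * h4
  · intro a b ha hb
    obtain ⟨⟨S, T⟩, h1, h2⟩ := ex ha
    obtain ⟨⟨S', T'⟩, h3, h4⟩ := ex hb
    simp only at h1 h2 h3 h4
    rw [hρ h1 h2, hρ h3 h4, hρ (S := S * S') (T := T * T') (by simp [h1, h3])]
    · simp only [map_mul]
      field_simp
    · simp only [map_mul]
      linear_combination (b * ι T') * h2 + ι S * h4
  · intro c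
    obtain ⟨c', h1, h2⟩ := hc c
    rw [← h1, ← h2, (hS c').2]
  · intro a ha
    by_cases h1 : a = 0
    · have := (hS 0).2
      simp only [map_zero] at this
      simp [h1, this]
    have h2 := ha.le h1
    rw [hE h1] at h2
    obtain ⟨m, hm⟩ := Int.eq_ofNat_of_zero_le h2
    rw [hρ (S := π ^ m * P a) (hQ a h1) (by rw [hf a h1, hm]; simp), Place.ge_iff h1, hE h1, hm]
    simp only [map_mul, map_pow, hπ, div_eq_zero_iff, mul_eq_zero, hP a h1, hQ a h1, or_false,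
      pow_eq_zero_iff', ne_eq, true_and]
    omega
  · intro l
    obtain ⟨S, T, hT, rfl⟩ := hs l
    have h := div_mul_cancel₀ (ι S) (ne_zero hι hT)
    exact ⟨ι S / ι T, ge hT h, hρ hT h⟩

end abs

variable {k L κ : Type} [Field k] [Field L] [Algebra k L] [Field κ] [Algebra k κ] {F : Place k L} {r : L → κ}

lemma ge (a : F.v.integer) : F.Ge 0 (a : L) := Place.ge_zero_iff.2 a.2

/-- The residue map as a ring homomorphism. -/
noncomputable def res (h : IsRes F r) : F.v.integer →+* κ where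
  toFun a := r a
  map_one' := by simpa using h.const 1
  map_mul' a b := h.mul _ _ (ge a) (ge b)
  map_zero' := by simpa using h.const 0
  map_add' a b := h.add _ _ (ge a) (ge b)

lemma res_unit (h : IsRes F r) {a : F.v.integer} (h0 : (a : L) ≠ 0) (h1 : F.ord (a : L) = 0) : res h a ≠ 0 := by
  intro h2
  have := ((h.zero _ (ge a)).1 h2).le h0
  omega

lemma prim (h : IsRes F r) {t : L} (h0 : t ≠ 0) (ht : F.ord t = 1) {P : L[X]} (hP : P ≠ 0) :
    ∃ (n : ℤ) (Q : F.v.integer[X]), Q.map (res h) ≠ 0 ∧ P = C (t ^ n) * Q.map F.v.integer.subtype := by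
  obtain ⟨i, hi, hm⟩ := Finset.exists_min_image P.support (fun i => F.ord (P.coeff i))
    (Polynomial.nonempty_support_iff.2 hP)
  set n := F.ord (P.coeff i) with hn
  have hz : t ^ (-n) ≠ 0 := zpow_ne_zero _ h0
  have h1 : C (t ^ (-n)) * P ∈ Polynomial.lifts F.v.integer.subtype := by
    rw [Polynomial.lifts_iff_coeff_lifts]
    intro j
    refine ⟨⟨(C (t ^ (-n)) * P).coeff j, Place.ge_zero_iff.1 ?_⟩, rfl⟩
    rw [coeff_C_mul]
    by_cases hj : P.coeff j = 0
    · simp [hj]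
    · rw [Place.ge_iff (mul_ne_zero hz hj), F.ord_mul hz hj, F.ord_zpow, ht]
      have := hm j (mem_support_iff.2 hj)
      omega
  obtain ⟨Q, hQ⟩ := (Polynomial.mem_lifts _).1 h1
  refine ⟨n, Q, fun h2 => ?_, ?_⟩
  · have h3 := congrArg (fun q => q.coeff i) hQ
    have h4 := congrArg (fun q => q.coeff i) h2
    simp only [coeff_map, coeff_C_mul, Subring.coe_subtype, coeff_zero] at h3 h4
    have hi' := mem_support_iff.1 hi
    refine res_unit h ?_ ?_ h4
    · rw [h3]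
      exact mul_ne_zero hz hi'
    · rw [h3, F.ord_mul hz hi', F.ord_zpow, ht]
      omega
  · rw [hQ, ← mul_assoc, ← C_mul, ← zpow_add₀ h0]
    simp

end M1

theorem st_M1 {k : Type} [Field k] : St_M1 k := by
  intro L κ _ _ _ _ F r h
  obtain ⟨t, h0, ht⟩ := F.exists_ord_eq_one
  have htO : F.Ge 0 t := Place.ge_of_le (by omega)
  let ι : F.v.integer[X] →+* RatFunc L :=
    (algebraMap L[X] (RatFunc L)).comp (mapRingHom F.v.integer.subtype)
  let ψ : F.v.integer[X] →+* RatFunc κ := (algebraMap κ[X] (RatFunc κ)).comp (mapRingHom (M1.res h))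
  have ιC : ∀ a : F.v.integer, ι (C a) = algebraMap L (RatFunc L) a := fun a => by
    simp [ι, RatFunc.algebraMap_eq_C]
  have ψC : ∀ a : F.v.integer, ψ (C a) = algebraMap κ (RatFunc κ) (r a) := fun a => by
    simp [ψ, RatFunc.algebraMap_eq_C, M1.res]
  have ψne : ∀ Q : F.v.integer[X], Q.map (M1.res h) ≠ 0 → ψ Q ≠ 0 := fun Q hQ =>
    RatFunc.algebraMap_ne_zero hQ
  let π : F.v.integer := ⟨t, Place.ge_zero_iff.1 htO⟩
  have hι : Function.Injective ι :=
    (RatFunc.algebraMap_injective L).comp (Polynomial.map_injective _ F.v.integer.subtype_injective)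
  have hπ0 : ι (C π) ≠ 0 := by
    rw [ιC]
    exact (_root_.map_ne_zero _).2 h0
  obtain ⟨E, ρ, hres, hord, hS⟩ := M1.exists_place (k := k) (ι := ι) (ψ := ψ) (π := C π) hι hπ0
    (by
      rw [ψC, (h.zero t htO).2 (Place.ge_of_le ht.ge), map_zero])
    (by
      intro f hf
      obtain ⟨n, P, hP, e1⟩ := M1.prim h h0 ht (RatFunc.num_ne_zero hf)
      obtain ⟨m, Q, hQ, e2⟩ := M1.prim h h0 ht (RatFunc.denom_ne_zero f)
      refine ⟨n - m, P, Q, ψne P hP, ψne Q hQ, ?_⟩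
      have e3 : f * algebraMap L[X] (RatFunc L) f.denom = algebraMap L[X] (RatFunc L) f.num := by
        nth_rewrite 1 [← RatFunc.num_div_denom f]
        exact div_mul_cancel₀ _ (RatFunc.algebraMap_ne_zero (RatFunc.denom_ne_zero f))
      have e4 : ∀ j : ℤ, algebraMap L[X] (RatFunc L) (C (t ^ j)) = ι (C π) ^ j := fun j => by
        rw [ιC, ← map_zpow₀, RatFunc.algebraMap_C, RatFunc.algebraMap_eq_C]
      rw [e1, e2, map_mul, map_mul, e4, e4] at e3
      refine mul_left_cancel₀ (zpow_ne_zero m hπ0) ?_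
      rw [← mul_assoc (ι (C π) ^ m) (ι (C π) ^ (n - m)), ← zpow_add₀ hπ0, add_sub_cancel, mul_left_comm]
      exact e3)
    (by
      intro c
      refine ⟨C ⟨algebraMap k L c, Place.ge_zero_iff.1 (Place.ge_const c)⟩, ?_, ?_⟩
      · rw [ιC, ← IsScalarTower.algebraMap_apply]
      · rw [ψC, h.const, ← IsScalarTower.algebraMap_apply])
    (by
      intro l
      have hs : Function.Surjective (M1.res h) := fun a => by
        obtain ⟨b, hb, rfl⟩ := h.surj a
        exact ⟨⟨b, Place.ge_zero_iff.1 hb⟩, rfl⟩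
      obtain ⟨S, hS⟩ := Polynomial.map_surjective _ hs l.num
      obtain ⟨T, hT⟩ := Polynomial.map_surjective _ hs l.denom
      refine ⟨S, T, ψne T (by rw [hT]; exact RatFunc.denom_ne_zero l), ?_⟩
      simp only [ψ, RingHom.comp_apply, coe_mapRingHom, hS, hT, RatFunc.num_div_denom])
  have ιX : ι X = RatFunc.X := by simp [ι]
  have ψX : ψ X = RatFunc.X := by simp [ψ]
  refine ⟨E, ρ, hres, fun a => ?_, ιX ▸ (hS X).1, by rw [← ιX, (hS X).2, ψX], fun a ha => ?_⟩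
  · by_cases ha : a = 0
    · simp [ha]
    have hz : t ^ F.ord a ≠ 0 := zpow_ne_zero _ h0
    have hu0 : a / t ^ F.ord a ≠ 0 := div_ne_zero ha hz
    have hu : F.ord (a / t ^ F.ord a) = 0 := by
      rw [F.ord_div ha hz, F.ord_zpow, ht]
      ring
    let u : F.v.integer := ⟨a / t ^ F.ord a, Place.ge_zero_iff.1 (Place.ge_of_le hu.ge)⟩
    obtain ⟨g1, g2⟩ := hS (C u)
    have g3 : ¬E.Ge 1 (ι (C u)) := by
      rw [← hres.zero _ g1, g2, ψC]
      exact (_root_.map_ne_zero _).2 (M1.res_unit h (a := u) hu0 hu)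
    obtain ⟨g4, g5⟩ := Place.not_ge_iff.1 g3
    have g6 := g1.le g4
    have e : algebraMap L (RatFunc L) a = ι (C π) ^ F.ord a * ι (C u) := by
      rw [ιC, ιC, ← map_zpow₀, ← map_mul]
      congr 1
      exact (mul_div_cancel₀ a hz).symm
    rw [e, E.ord_mul (zpow_ne_zero _ hπ0) g4, E.ord_zpow, hord]
    omega
  · have := (hS (C ⟨a, Place.ge_zero_iff.1 ha⟩)).2
    rwa [ιC, ψC] at this

end Pool.Agent.Lib.MP_5f81cf_ag.Full
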