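import Pool.Agent.Lib.MP_5f81cf_ag.FBlue3
import Pool.Agent.Lib.MP_e06174_ag.Ext

/-! An unramified extension of places is standard étale. -/

namespace Pool.Agent.Lib.MP_5f81cf_ag.Full

open Pool.Agent.Lib.MP_e06174_ag Polynomial IsDedekindDomain

namespace M3

variable {k : Type} [Field k]

/-- The residue map composed with a ring map into the valuation ring. -/
def resHom {K L A : Type} [Field K] [Algebra k K] [Field L] [Algebra k L] [CommRing A]
    {S : Place k K} {ρ : K → L} (h : IsRes S ρ) (j : A →+* K) (hj : ∀ a, S.Ge 0 (j a)) :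
    A →+* L where
  toFun a := ρ (j a)
  map_one' := by simpa using h.const 1
  map_mul' a b := by rw [map_mul, h.mul _ _ (hj a) (hj b)]
  map_zero' := by simpa using h.const 0
  map_add' a b := by rw [map_add, h.add _ _ (hj a) (hj b)]

lemma not_ge_one_of_isUnit {K A : Type} [Field K] [Algebra k K] [CommRing A] {S : Place k K}
    (j : A →+* K) (hj : ∀ a, S.Ge 0 (j a)) {a : A} (ha : IsUnit a) : ¬ S.Ge 1 (j a) := by
  intro h
  obtain ⟨b, hb⟩ := ha.exists_right_inv
  have h1 := h.mul (hj b)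
  rw [← map_mul, hb, map_one, Place.ge_iff one_ne_zero] at h1
  simp at h1

lemma not_ge_one_mul {K : Type} [Field K] [Algebra k K] {S : Place k K} {a b : K}
    (ha : ¬ S.Ge 1 a) (hb : ¬ S.Ge 1 b) : ¬ S.Ge 1 (a * b) := by
  rw [Place.not_ge_iff] at *
  refine ⟨mul_ne_zero ha.1 hb.1, ?_⟩
  rw [S.ord_mul ha.1 hb.1]
  omega

lemma not_ge_one_pow {K : Type} [Field K] [Algebra k K] {S : Place k K} {a : K}
    (ha : ¬ S.Ge 1 a) (n : ℕ) : ¬ S.Ge 1 (a ^ n) := by
  induction n with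
  | zero => rw [pow_zero, Place.ge_iff one_ne_zero]; simp
  | succ n ih => rw [pow_succ]; exact not_ge_one_mul ih ha

/-- Separability of a residue extension seen inside a common field. -/
lemma sep_of_emb {κ₀ κ L : Type} [Field κ₀] [Field κ] [Field L] [Algebra κ₀ κ] [Algebra k L]
    (L₀ : IntermediateField k L) [Algebra.IsSeparable L₀ L] (ψ₀ : κ₀ →+* L) (ψ : κ →+* L)
    (hc : ∀ a, ψ (algebraMap κ₀ κ a) = ψ₀ a) (hL : ∀ l ∈ L₀, ∃ a, ψ₀ a = l) :
    Algebra.IsSeparable κ₀ κ := by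
  let _ : Algebra κ₀ L := ψ₀.toAlgebra
  have hle : L₀.toSubfield ≤ ψ₀.fieldRange := fun l hl => hL l hl
  let σ : L₀ →+* κ₀ := ψ₀.rangeRestrictFieldEquiv.symm.toRingHom.comp (Subfield.inclusion hle)
  let _ : Algebra L₀ κ₀ := σ.toAlgebra
  have : IsScalarTower L₀ κ₀ L := IsScalarTower.of_algebraMap_eq fun l => by
    have h1 := congrArg Subtype.val
      (ψ₀.rangeRestrictFieldEquiv.apply_symm_apply (Subfield.inclusion hle l))
    exact h1.symm
  have : Algebra.IsSeparable κ₀ L := Algebra.isSeparable_tower_top_of_isSeparable L₀ κ₀ L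
  exact Algebra.IsSeparable.of_algHom κ₀ L (E := κ) { ψ with commutes' := hc }

variable {K₀ K L : Type} [Field K₀] [Algebra k K₀] [Field K] [Algebra k K] [Algebra K₀ K]
  [IsScalarTower k K₀ K] [FiniteDimensional K₀ K] [Algebra.IsSeparable K₀ K] [Field L]
  [Algebra k L]

lemma unram {S₀ : Place k K₀} {ρ : K → L} (L₀ : IntermediateField k L)
    [Algebra.IsSeparable L₀ L] (P : HeightOneSpectrum (Place.S K S₀))
    (hρ : IsRes (Place.ofPrime (Place.const_mem_S K S₀) P) ρ)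
    (he : P.asIdeal.ramificationIdx S₀.O = 1)
    (hL : ∀ l ∈ L₀, ∃ a : S₀.O, ρ (algebraMap K₀ K a) = l) :
    Algebra.IsUnramifiedAt S₀.O P.asIdeal := by
  let p : Ideal S₀.O := (IsDiscreteValuationRing.maximalIdeal S₀.O).asIdeal
  have hp : p.IsPrime := (IsDiscreteValuationRing.maximalIdeal S₀.O).isPrime
  have hlo : P.asIdeal.LiesOver p := inferInstance
  let _ := Localization.AtPrime.algebraOfLiesOver p P.asIdeal
  rw [Algebra.isUnramifiedAt_iff_map_eq S₀.O p P.asIdeal]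
  constructor
  · let φ : Place.S K S₀ →+* L := resHom hρ (algebraMap _ K) (Place.ofPrime_ge_zero _ P)
    have hφ : ∀ b, φ b = 0 ↔ b ∈ P.asIdeal := fun b =>
      (hρ.zero _ (Place.ofPrime_ge_zero _ P b)).trans (Place.ofPrime_ge_one_iff _ P b)
    let φ₀ : S₀.O →+* L := φ.comp (algebraMap _ _)
    have hφ₀ : ∀ a, φ₀ a = 0 ↔ a ∈ p := fun a => by
      rw [hlo.over]
      exact hφ _
    let ψ : P.asIdeal.ResidueField →+* L := Ideal.ResidueField.lift _ φ
      (fun b hb => (hφ b).2 hb) (fun b hb => isUnit_iff_ne_zero.2 fun h => hb ((hφ b).1 h))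
    let ψ₀ : p.ResidueField →+* L := Ideal.ResidueField.lift _ φ₀
      (fun b hb => (hφ₀ b).2 hb) (fun b hb => isUnit_iff_ne_zero.2 fun h => hb ((hφ₀ b).1 h))
    refine sep_of_emb L₀ ψ₀ ψ ?_ fun l hl => ?_
    · have : ψ.comp (algebraMap p.ResidueField P.asIdeal.ResidueField) = ψ₀ := by
        refine Ideal.ResidueField.ringHom_ext (RingHom.ext fun a => ?_)
        simp only [RingHom.comp_apply]
        rw [← IsScalarTower.algebraMap_apply,
          IsScalarTower.algebraMap_apply S₀.O (Place.S K S₀) P.asIdeal.ResidueField]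
        exact (Ideal.ResidueField.lift_algebraMap _ φ _ _ _).trans
          (Ideal.ResidueField.lift_algebraMap _ φ₀ _ _ a).symm
      exact fun a => congrArg (fun f : p.ResidueField →+* L => f a) this
    · obtain ⟨a, ha⟩ := hL l hl
      refine ⟨algebraMap _ _ a, ?_⟩
      exact (Ideal.ResidueField.lift_algebraMap _ φ₀ _ _ a).trans ha
  · rw [← Ideal.IsDedekindDomain.ramificationIdx'_eq_one_iff P.ne_bot
      (Ideal.map_le_iff_le_comap.2 hlo.over.le),
      Ideal.ramificationIdx'_eq_ramificationIdx p P.asIdeal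
        (IsDiscreteValuationRing.maximalIdeal S₀.O).ne_bot]
    exact he

end M3

open M3 in
theorem st_M3 {k : Type} [Field k] : St_M3 k := by
  intro K₀ K L _ _ _ _ _ _ _ _ _ _ S ρ s L₀ _ hρ hs hL
  obtain ⟨S₀, hov⟩ : ∃ S₀ : Place k K₀, S.Over (IsScalarTower.toAlgHom k K₀ K) S₀ 1 := by
    rcases S.restrict (IsScalarTower.toAlgHom k K₀ K) with h | ⟨S₀, c, hc, h⟩
    · have := h s
      rw [IsScalarTower.coe_toAlgHom', hs] at this
      omega
    · have h1 := h s
      rw [IsScalarTower.coe_toAlgHom', hs] at h1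
      have h2 : (c : ℤ) = 1 := Int.eq_one_of_mul_eq_one_right (by omega) h1.symm
      obtain rfl : c = 1 := by omega
      exact ⟨S₀, hc, h⟩
  obtain ⟨P, rfl, he⟩ := hov.exists_prime
  set S := Place.ofPrime (Place.const_mem_S K S₀) P with hS
  have hO : ∀ a : S₀.O, S.Ge 0 (algebraMap K₀ K a) := fun a =>
    (hov.ge_zero_iff a).2 (Place.mem_O.1 a.2)
  have hun : Algebra.IsUnramifiedAt S₀.O P.asIdeal := by
    refine unram L₀ P hρ he.symm fun l hl => ?_
    obtain ⟨a, ha, ha'⟩ := hL l hl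
    exact ⟨⟨a, Place.mem_O.2 ((hov.ge_zero_iff a).1 ha)⟩, ha'⟩
  obtain ⟨f, hf, E, φ, hφ⟩ :=
    Algebra.IsUnramifiedAt.exists_hasStandardEtaleSurjectionOn (R := S₀.O) P.asIdeal
  have hB : ∀ b : Place.S K S₀, S.Ge 0 (algebraMap _ K b) := Place.ofPrime_ge_zero _ P
  have hB1 : ∀ b : Place.S K S₀, b ∉ P.asIdeal → ¬ S.Ge 1 (algebraMap _ K b) := fun b hb h =>
    hb ((Place.ofPrime_ge_one_iff _ P b).1 h)
  let jB : Place.S K S₀ →+* S.O := (algebraMap _ K).codRestrict S.O fun b => Place.mem_O.2 (hB b)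
  have hjf : IsUnit (jB f) := Place.isUnit_O.2 (hB1 f hf)
  let χ₀ : Localization.Away f →+* K := S.O.subtype.comp (IsLocalization.Away.lift f hjf)
  have hχ₀ : ∀ b : Place.S K S₀, χ₀ (algebraMap _ _ b) = algebraMap _ K b := fun b => by
    simp only [χ₀, RingHom.comp_apply, IsLocalization.Away.lift_eq]
    rfl
  let χ : Localization.Away f →ₐ[S₀.O] K :=
    { χ₀ with
      commutes' := fun a => by
        rw [IsScalarTower.algebraMap_apply S₀.O (Place.S K S₀) (Localization.Away f),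
          IsScalarTower.algebraMap_apply S₀.O (Place.S K S₀) K]
        exact hχ₀ _ }
  let Φ : E.Ring →ₐ[S₀.O] K := χ.comp φ
  have hΦ : ∀ x, S.Ge 0 (Φ x) := fun x =>
    Place.mem_O.1 (IsLocalization.Away.lift f hjf (φ x)).2
  have hrange : ∀ b : Place.S K S₀, ∃ x, Φ x = algebraMap _ K b := fun b => by
    obtain ⟨x, hx⟩ := hφ (algebraMap _ _ b)
    exact ⟨x, by rw [← hχ₀, ← hx]; rfl⟩
  set θ := Φ E.X with hθ
  have hev : ∀ q : S₀.O[X], aeval θ q = Φ (aeval E.X q) := fun q => aeval_algHom_apply Φ _ q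
  have hev0 : ∀ q : S₀.O[X], S.Ge 0 (aeval θ q) := fun q => by rw [hev]; exact hΦ _
  have hu : ∀ q : S₀.O[X], IsUnit (aeval E.X q) → ¬ S.Ge 1 (aeval θ q) := fun q hq => by
    rw [hev]; exact not_ge_one_of_isUnit Φ.toRingHom hΦ hq
  have hg := hu _ E.hasMap_X.2
  have hf' := hu _ (StandardEtalePair.HasMap.isUnit_derivative_f E E.hasMap_X)
  have hf0 : aeval θ E.f = 0 := by rw [hev, E.hasMap_X.1, map_zero]
  have hint : IsIntegral S₀.O θ := ⟨E.f, E.monic_f, hf0⟩
  have hrep : ∀ b : Place.S K S₀, ∃ (q : S₀.O[X]) (n : ℕ),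
      algebraMap _ K b * aeval θ E.g ^ n = aeval θ q := fun b => by
    obtain ⟨x, hx⟩ := hrange b
    obtain ⟨q, n, h⟩ := StandardEtalePresentation.exists_mul_aeval_x_g_pow_eq_aeval_x
      (⟨E, E.X, E.hasMap_X, by rw [E.lift_X_left]; exact Function.bijective_id⟩ :
        StandardEtalePresentation S₀.O E.Ring) x
    refine ⟨q, n, ?_⟩
    rw [← hx, hev, hev, ← map_pow, ← map_mul]
    exact congrArg Φ h
  have hcoef : ∀ (q : S₀.O[X]) i,
      S.Ge 0 (algebraMap K₀ K ((q.map (algebraMap S₀.O K₀)).coeff i)) := fun q i => by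
    rw [coeff_map]; exact hO _
  have hfin : ∀ F : K, S.Ge 0 F → ∃ a b : K₀[X], (∀ i, S.Ge 0 (algebraMap K₀ K (a.coeff i))) ∧
      (∀ i, S.Ge 0 (algebraMap K₀ K (b.coeff i))) ∧ ¬ S.Ge 1 (aeval θ b) ∧
      F * aeval θ b = aeval θ a := by
    intro F hF
    obtain ⟨n, d, hnd⟩ := HeightOneSpectrum.exists_primeCompl_mul_eq_of_integer P F
      (Place.ge_zero_iff.1 hF)
    obtain ⟨q₁, n₁, h₁⟩ := hrep d
    obtain ⟨q₂, n₂, h₂⟩ := hrep n
    refine ⟨(q₂ * E.g ^ n₁).map (algebraMap S₀.O K₀), (q₁ * E.g ^ n₂).map (algebraMap S₀.O K₀),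
      hcoef _, hcoef _, ?_, ?_⟩
    · rw [aeval_map_algebraMap, map_mul, map_pow, ← h₁]
      exact not_ge_one_mul (not_ge_one_mul (hB1 _ d.2) (not_ge_one_pow hg _)) (not_ge_one_pow hg _)
    · rw [aeval_map_algebraMap, aeval_map_algebraMap, map_mul, map_mul, map_pow, map_pow, ← h₁,
        ← h₂, ← hnd]
      ring
  have hmin := minpoly.isIntegrallyClosed_eq_field_fractions' K₀ hint
  refine ⟨θ, hΦ _, ?_, fun i => by rw [hmin]; exact hcoef _ i, ?_, hfin⟩
  · have key : ∀ F : K, S.Ge 0 F → F ∈ IntermediateField.adjoin K₀ {θ} := by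
      intro F hF
      obtain ⟨a, b, -, -, hb, hab⟩ := hfin F hF
      rw [IntermediateField.mem_adjoin_simple_iff]
      exact ⟨a, b, (eq_div_iff (Place.not_ge_iff.1 hb).1).2 hab⟩
    refine eq_top_iff.2 fun F _ => ?_
    by_cases hF : S.Ge 0 F
    · exact key F hF
    · have h1 := Place.not_ge_iff.1 hF
      have := key F⁻¹ (Place.ge_of_le (by rw [Place.ord_inv]; omega))
      simpa using inv_mem this
  · obtain ⟨q, hq⟩ := minpoly.isIntegrallyClosed_dvd hint hf0
    intro h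
    apply hf'
    rw [hmin, derivative_map, aeval_map_algebraMap] at h
    rw [hq, derivative_mul, map_add, map_mul, map_mul, minpoly.aeval, zero_mul, add_zero]
    simpa using h.mul (hev0 q)

end Pool.Agent.Lib.MP_5f81cf_ag.Full
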