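import Pool.Agent.Lib.MP_5f81cf_ag.FBlue3
import Pool.Agent.Lib.MP_e06174_ag.Ext

/-! Hensel's lemma without completion. -/

namespace Pool.Agent.Lib.MP_5f81cf_ag.Full

open Pool.Agent.Lib.MP_e06174_ag Polynomial

namespace M4

variable {k E : Type} [Field k] [Field E] [Algebra k E] {W : Place k E}

lemma ge_pow_sub_pow {n : ℤ} {x y : E} (hx : W.Ge 0 x) (hy : W.Ge 0 y) (hxy : W.Ge n (x - y))
    (i : ℕ) : W.Ge n (x ^ i - y ^ i) := by
  induction i with
  | zero => simp
  | succ i ih =>
    have e : x ^ (i + 1) - y ^ (i + 1) = x * (x ^ i - y ^ i) + y ^ i * (x - y) := by ring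
    rw [e]
    exact (hx.mul' ih (by omega)).add ((hy.pow i).mul' hxy (by simp))

lemma ge_eval {g : E[X]} (hg : ∀ i, W.Ge 1 (g.coeff i)) {x : E} (hx : W.Ge 0 x) :
    W.Ge 1 (g.eval x) := by
  rw [eval_eq_sum_range]
  exact Place.Ge.sum fun i _ => (hg i).mul' (hx.pow i) (by simp)

lemma ge_eval_sub {g : E[X]} (hg : ∀ i, W.Ge 1 (g.coeff i)) {n : ℤ} {x y : E} (hx : W.Ge 0 x)
    (hy : W.Ge 0 y) (hxy : W.Ge n (x - y)) : W.Ge (n + 1) (g.eval x - g.eval y) := by
  rw [eval_eq_sum_range, eval_eq_sum_range, ← Finset.sum_sub_distrib]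
  refine Place.Ge.sum fun i _ => ?_
  rw [← mul_sub]
  exact (hg i).mul' (ge_pow_sub_pow hx hy hxy i) (by omega)

lemma ge_multiset_sum {n : ℤ} (s : Multiset E) (hs : ∀ x ∈ s, W.Ge n x) : W.Ge n s.sum := by
  induction s using Multiset.induction_on with
  | empty => simp
  | cons a s ih =>
    rw [Multiset.sum_cons]
    exact (hs a (by simp)).add (ih fun x hx => hs x (by simp [hx]))

lemma exists_root {H : E[X]} (hs : H.Splits) (hH : ∀ i, W.Ge 1 ((H - X).coeff i)) :
    ∃ ζ, H.eval ζ = 0 ∧ W.Ge 1 ζ := by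
  by_contra hno
  push Not at hno
  have h0 : H.eval 0 ≠ 0 := fun h => hno 0 h (by simp)
  have h1 := hs.eval_derivative_eq_eval_mul_sum h0
  have h2 : W.Ge 0 (H.roots.map fun z => 1 / (0 - z)).sum := by
    refine ge_multiset_sum _ fun x hx => ?_
    obtain ⟨z, hz, rfl⟩ := Multiset.mem_map.1 hx
    have h3 := Place.not_ge_iff.1 (hno z (isRoot_of_mem_roots hz))
    refine Place.ge_of_le ?_
    simp only [zero_sub, one_div, Place.ord_inv, Place.ord_neg]
    omega
  have h4 : W.Ge 1 (H.eval 0) := by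
    have := hH 0
    rwa [coeff_sub, coeff_X_zero, sub_zero, coeff_zero_eq_eval_zero] at this
  have h5 : W.Ge 1 (H.coeff 1) := by
    have := h4.mul' h2 (l := 1) (by omega)
    rw [← h1, ← coeff_zero_eq_eval_zero, coeff_derivative] at this
    simpa using this
  have h6 := h5.sub (hH 1)
  rw [coeff_sub, coeff_X_one, sub_sub_cancel] at h6
  exact Place.not_ge_one_const (p := W) (c := (1 : k)) one_ne_zero (by simpa using h6)

end M4

theorem st_M4 {k : Type} [Field k] : St_M4 k := by
  intro L _ _ F h hsep hh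
  let E := h.SplittingField
  have : IsGalois L E := IsGalois.of_separable_splitting_field hsep
  obtain ⟨W, e, hW⟩ := Place.exists_over E F
  have hH : ∀ i, W.Ge 1 ((h.map (algebraMap L E) - X).coeff i) := by
    intro i
    have h1 : h.map (algebraMap L E) - X = (h - X).map (algebraMap L E) := by simp
    rw [h1, coeff_map]
    exact (hW.ge_one_iff _).2 (hh i)
  obtain ⟨ζ, hζ, hζ1⟩ := M4.exists_root (SplittingField.splits h) hH
  refine ⟨E, inferInstance, inferInstance, inferInstance, inferInstance, W, e, ζ, hW, ?_, hζ1, ?_⟩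
  · rwa [eval_map_algebraMap] at hζ
  · have key : ∀ m : ℕ, ∃ a : L, W.Ge 0 (algebraMap L E a) ∧
        W.Ge (m + 1) (ζ - algebraMap L E a) := by
      intro m
      induction m with
      | zero => exact ⟨0, by simp, by simpa using hζ1⟩
      | succ m ih =>
        obtain ⟨a, ha0, ha⟩ := ih
        have e1 : algebraMap L E (a - h.eval a) =
            - (h.map (algebraMap L E) - X).eval (algebraMap L E a) := by
          rw [eval_sub, eval_X, eval_map_algebraMap, aeval_algebraMap_apply_eq_algebraMap_eval,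
            map_sub]
          ring
        have e2 : ζ = - (h.map (algebraMap L E) - X).eval ζ := by
          rw [eval_sub, eval_X, hζ]; ring
        refine ⟨a - h.eval a, ?_, ?_⟩
        · rw [e1]; exact ((M4.ge_eval hH ha0).mono (by omega)).neg
        · have h3 := (M4.ge_eval_sub hH (hζ1.mono (by omega)) ha0 ha).neg
          rw [e1]
          nth_rewrite 1 [e2]
          convert h3 using 1
          · push_cast; ring
          · ring
    intro n
    obtain ⟨a, -, ha⟩ := key n.toNat
    exact ⟨a, ha.mono (by omega)⟩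

end Pool.Agent.Lib.MP_5f81cf_ag.Full
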