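import Pool.Agent.Lib.MP_5f81cf_ag.FMonoE

/-! The approximating place. -/

namespace Pool.Agent.Lib.MP_5f81cf_ag.Full

open Pool.Agent.Lib.MP_e06174_ag Polynomial Place

variable {k : Type} [Field k]

namespace M5

section place

variable {K L κ Ω : Type} [Field K] [Algebra k K] [Field L] [Algebra k L] [Field κ] [Algebra k κ]
  [Field Ω] [Algebra k Ω] {F : Place k L} {r : L → κ} {ψ : L →ₐ[k] Ω} {W : Place k Ω} {e : ℕ}

theorem exists_place (hr : IsRes F r) (ho : W.Over ψ F e) (j : K →ₐ[k] Ω)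
    (hap : ∀ (f : K) (n : ℤ), ∃ a, W.Ge n (j f - ψ a)) {t : K} (ht : W.ord (j t) = e) :
    ∃ (w : Place k K) (τ : K → κ), W.Over j w e ∧ w.ord t = 1 ∧
      (∀ f a, W.Ge 1 (j f - ψ a) → F.Ge 0 a → w.Ge 0 f ∧ τ f = r a) ∧
      (∀ a b, w.Ge 0 a → w.Ge 0 b → τ (a + b) = τ a + τ b ∧ τ (a * b) = τ a * τ b) ∧
      (∀ c : k, τ (algebraMap k K c) = algebraMap k κ c) ∧
      ∀ a, w.Ge 0 a → (τ a = 0 ↔ w.Ge 1 a) := by
  have he : (0 : ℤ) < e := by have := ho.1; omega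
  obtain ⟨w, c, hc, hw⟩ := (W.restrict j).resolve_left fun h => by rw [h t] at ht; omega
  obtain ⟨π, hπ0, hπ⟩ := w.exists_ord_eq_one
  obtain ⟨b, hb⟩ := hap π (W.ord (j π) + 1)
  have h1 := (ord_eq_of_ge_sub (y := ψ b) ((_root_.map_ne_zero j).2 hπ0)
    (by simpa using hb.neg)).2
  rw [ho.2, hw, hπ, mul_one] at h1
  rw [hw, ← h1, mul_assoc] at ht
  have h2 : F.ord b * w.ord t = 1 := mul_left_cancel₀ he.ne' (by rw [ht, mul_one])
  have h3 : 0 < F.ord b := (mul_pos_iff_of_pos_left he).1 (by rw [h1]; omega)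
  have h4 := (Int.eq_one_or_neg_one_of_mul_eq_one' h2).resolve_right (by omega)
  obtain rfl : c = e := by rw [h4.1] at h1; omega
  have hj : W.Over j w c := ⟨hc, hw⟩
  choose ap hap' using fun f => hap f 1
  have h5 : ∀ f, w.Ge 0 f → F.Ge 0 (ap f) := fun f hf => (ho.ge_zero_iff _).1 (by
    simpa using ((hj.ge_zero_iff f).2 hf).sub ((hap' f).mono (m := 0) (by norm_num)))
  have key : ∀ f a, W.Ge 1 (j f - ψ a) → F.Ge 0 a → w.Ge 0 f ∧ r (ap f) = r a := fun f a h ha =>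
    ⟨(hj.ge_zero_iff f).1 (by
      simpa using (h.mono (m := 0) (by norm_num)).add ((ho.ge_zero_iff a).2 ha)),
    (res_congr hr ha ((ho.ge_one_iff _).1 (by simpa using h.sub (hap' f)))).2⟩
  refine ⟨w, fun f => r (ap f), hj, h4.2, key, fun a b ha hb => ⟨?_, ?_⟩, fun c => ?_,
    fun a ha => ?_⟩
  · rw [← hr.add _ _ (h5 a ha) (h5 b hb)]
    refine (key _ _ ?_ ((h5 a ha).add (h5 b hb))).2
    rw [map_add, map_add, add_sub_add_comm]
    exact (hap' a).add (hap' b)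
  · rw [← hr.mul _ _ (h5 a ha) (h5 b hb)]
    refine (key _ _ ?_ ((h5 a ha).mul' (h5 b hb) (by norm_num))).2
    rw [map_mul, map_mul, show j a * j b - ψ (ap a) * ψ (ap b) =
      (j a - ψ (ap a)) * j b + ψ (ap a) * (j b - ψ (ap b)) by ring]
    exact ((hap' a).mul' ((hj.ge_zero_iff b).2 hb) (by norm_num)).add
      (((ho.ge_zero_iff _).2 (h5 a ha)).mul' (hap' b) (by norm_num))
  · rw [← hr.const c]
    exact (key _ _ (by simp) (ge_const c)).2
  · rw [hr.zero _ (h5 a ha), ← ho.ge_one_iff, ← hj.ge_one_iff]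
    exact ⟨fun h => by simpa using (hap' a).add h, fun h => by simpa using h.sub (hap' a)⟩

theorem approx_eval₂ {K₀ : Type} [Field K₀] (ι : K₀ →+* L) {x : Ω}
    (hx : ∀ n : ℤ, ∃ a, W.Ge n (x - ψ a)) (f : K₀[X]) (n : ℤ) :
    ∃ a, W.Ge n (f.eval₂ ((ψ : L →+* Ω).comp ι) x - ψ a) := by
  have hmul : ∀ y z : Ω, (∀ n : ℤ, ∃ a, W.Ge n (y - ψ a)) → (∀ n : ℤ, ∃ a, W.Ge n (z - ψ a)) →
      ∀ n : ℤ, ∃ a, W.Ge n (y * z - ψ a) := fun y z hy hz n => by
    obtain ⟨a, ha⟩ := hy (n - W.ord z)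
    obtain ⟨b, hb⟩ := hz (n - W.ord (ψ a))
    refine ⟨a * b, ?_⟩
    rw [map_mul, show y * z - ψ a * ψ b = (y - ψ a) * z + ψ a * (z - ψ b) by ring]
    exact (ha.mul' (ge_ord z) (by omega)).add ((ge_ord _).mul' hb (by omega))
  induction f using Polynomial.induction_on generalizing n with
  | C a => exact ⟨ι a, by simp⟩
  | add f g hf hg =>
    obtain ⟨a, ha⟩ := hf n
    obtain ⟨b, hb⟩ := hg n
    exact ⟨a + b, by rw [eval₂_add, map_add, add_sub_add_comm]; exact ha.add hb⟩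
  | monomial i a h =>
    rw [pow_succ, ← mul_assoc, eval₂_mul, eval₂_X]
    exact hmul _ _ h hx n

end place

theorem exists_lift_hom {K₀ K Ω : Type} [Field K₀] [Algebra k K₀] [Field K] [Algebra k K]
    [Algebra K₀ K] [IsScalarTower k K₀ K] [FiniteDimensional K₀ K] [Field Ω] [Algebra k Ω]
    {θ : K} (hθ : IntermediateField.adjoin K₀ {θ} = ⊤) (ι : K₀ →ₐ[k] Ω) {x : Ω}
    (hx : (minpoly K₀ θ).eval₂ (ι : K₀ →+* Ω) x = 0) :
    (∀ f : K, ∃ a : K₀[X], aeval θ a = f) ∧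
      ∃ j : K →ₐ[k] Ω, ∀ a : K₀[X], j (aeval θ a) = a.eval₂ (ι : K₀ →+* Ω) x := by
  have hs : Function.Surjective (aeval θ : K₀[X] →ₐ[K₀] K) := by
    rw [← AlgHom.range_eq_top, ← Algebra.adjoin_singleton_eq_range_aeval,
      ← IntermediateField.adjoin_simple_toSubalgebra_of_isAlgebraic (Algebra.IsAlgebraic.isAlgebraic θ),
      hθ, IntermediateField.top_toSubalgebra]
  let j : K →+* Ω := (aeval θ : K₀[X] →ₐ[K₀] K).toRingHom.liftOfSurjective hs
    ⟨eval₂RingHom (ι : K₀ →+* Ω) x, fun a ha => by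
      obtain ⟨b, rfl⟩ := minpoly.dvd K₀ θ ha
      simp [RingHom.mem_ker, hx]⟩
  have hj : ∀ a : K₀[X], j (aeval θ a) = a.eval₂ (ι : K₀ →+* Ω) x := fun a =>
    RingHom.liftOfSurjective_comp_apply _ hs _ a
  refine ⟨hs, ⟨j, fun c => ?_⟩, hj⟩
  have := hj (C (algebraMap k K₀ c))
  rw [aeval_C, ← IsScalarTower.algebraMap_apply] at this
  simpa using this

/-- Elements of the valuation ring are approximated by their residues. -/
theorem apx_div {K₀ L : Type} [Field K₀] [Algebra k K₀] [Field L] [Algebra k L] {F : Place k L}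
    {ι : ℕ → K₀ →ₐ[k] L} {a₀ : L} {a b : K₀[X]} {y z : L} (ha : Apx F ι a₀ a (y * z))
    (hb : Apx F ι a₀ b z) (hz : z ≠ 0) :
    ∃ C : ℕ, ∀ (M n : ℕ) (Ω : Type) [Field Ω] [Algebra k Ω] (ψ : L →ₐ[k] Ω) (W : Place k Ω) (e : ℕ)
      (x g : Ω), W.Over ψ F e → C ≤ n → n ≤ M → W.Ge (e * n) (x - ψ a₀) →
      g * b.eval₂ (ψ.comp (ι M) : K₀ →+* Ω) x = a.eval₂ (ψ.comp (ι M) : K₀ →+* Ω) x →
      W.Ge (e * ((n : ℤ) - C)) (g - ψ y) := by
  obtain ⟨C, hC⟩ := ha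
  obtain ⟨D, hD⟩ := hb
  refine ⟨C + D + (F.ord y).natAbs + (F.ord z).natAbs + 1,
    fun M n Ω _ _ ψ W e x g ho h1 h2 h3 hg => ?_⟩
  have h4 := hC M n Ω ψ W e x ho (by omega) h2 h3
  have h5 := hD M n Ω ψ W e x ho (by omega) h2 h3
  have he : (1 : ℤ) ≤ e := by have := ho.1; omega
  rw [← hg, map_mul] at h4
  generalize eval₂ _ x b = β at h4 h5
  obtain ⟨h6, h7⟩ := ord_eq_of_ge_sub ((_root_.map_ne_zero ψ).2 hz) (h5.mono (by
    rw [ho.2]
    have : (e : ℤ) * (F.ord z + 1) ≤ e * ((n : ℤ) - D) := by gcongr; omega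
    linarith))
  have h8 : W.Ge (e * (-F.ord z)) β⁻¹ := ge_of_le (by rw [ord_inv, h7, ho.2, mul_neg])
  rw [show g - ψ y = (g * β - ψ y * ψ z) * β⁻¹ - ψ y * (β - ψ z) * β⁻¹ by field_simp; ring]
  refine (h4.mul' h8 ?_).sub (((over_ge ho y).mul h5).mul' h8 ?_)
  all_goals simp only [← mul_add]; gcongr; omega

end M5

open M5

variable {p : ℕ} [Fact p.Prime]

theorem st_M5 (c1 : Car1 k p) (c2 : Car2 k p) (m1 : St_M1 k) (m2 : St_M2 k) (m3 : St_M3 k)
    (m4 : St_M4 k) : St_M5 k p := by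
  intro K L κ _ _ _ _ _ _ _ _ d S ρ s v F r hpb hA hr hv hv0 G C hG
  have hfin := c2.finite hpb
  have hsep := c2.sep hpb
  rw [Fin.range_cons] at hfin hsep
  set K₀ := IntermediateField.adjoin k (insert s (Set.range v)) with hK₀
  have hs : s ∈ K₀ := IntermediateField.subset_adjoin _ _ (Set.mem_insert _ _)
  have hvK : ∀ i, v i ∈ K₀ := fun i =>
    IntermediateField.subset_adjoin _ _ (Set.mem_insert_of_mem _ ⟨i, rfl⟩)
  have hsepL := c2.sep hA.pb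
  obtain ⟨θ, hθ, htop, hμ, hμ', hfrac⟩ := m3 (⟨s, hs⟩ : K₀) _ hA.res hA.ord
    (exists_lift hA.res K₀ hvK hA.ge)
  obtain ⟨F', r', hr', hF', hX, hrX, hrr⟩ := m1 hr
  obtain ⟨ι, hιs, hιv, hι⟩ := m2 hA.res hA.ord hA.ge (c1.algInd hA.pb) hv hv0 hF' hX K₀ hK₀
  have hge : ∀ (n : ℤ) (a : L), F'.Ge n (algebraMap L (RatFunc L) a) ↔ F.Ge n a := fun n a => by
    rw [ge_iff', ge_iff', hF', _root_.map_eq_zero]
  have hE := fun a ha => apx_of_coeff (F := F') (ι := ι) (a := a) hA.res hθ hι ha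
  set φ := algebraMap L (RatFunc L) with hφ
  set μ := minpoly K₀ θ with hμd
  have hH : ∀ i j, S.Ge 0 (algebraMap K₀ K ((hasseDeriv i μ).coeff j)) := fun i j => by
    rw [hasseDeriv_coeff, map_mul, map_natCast]
    exact (ge_natCast _).mul' (hμ _) (by norm_num)
  choose C₁ hC₁ using fun i => (hE _ (hH i)).2.eval
  have hδ : ρ (aeval θ (derivative μ)) ≠ 0 := fun h =>
    hμ' ((hA.res.zero _ (by simpa [hasseDeriv_one'] using (hE _ (hH 1)).1)).1 h)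
  have hg : ∀ g : K, ∃ C : ℕ, g ∈ G → ∀ (M n : ℕ) (Ω : Type) [Field Ω] [Algebra k Ω]
      (ψ : RatFunc L →ₐ[k] Ω) (W : Place k Ω) (e : ℕ) (x : Ω) (j : K →ₐ[k] Ω), W.Over ψ F' e →
      C ≤ n → n ≤ M → W.Ge (e * n) (x - ψ (φ (ρ θ))) →
      (∀ a : K₀[X], j (aeval θ a) = a.eval₂ (ψ.comp (ι M) : K₀ →+* Ω) x) →
      W.Ge (e * ((n : ℤ) - C)) (j g - ψ (φ (ρ g))) := fun g => by
    by_cases hgG : g ∈ G
    · obtain ⟨a, b, ha, hb, hb', hab⟩ := hfrac g (hG g hgG)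
      have h1 := (hE a ha).2
      rw [← hab, hA.res.mul _ _ (hG g hgG) (hE b hb).1, map_mul] at h1
      obtain ⟨C, hC⟩ := apx_div h1 (hE b hb).2
        ((_root_.map_ne_zero φ).2 fun h => hb' ((hA.res.zero _ (hE b hb).1).1 h))
      exact ⟨C, fun _ M n Ω _ _ ψ W e x j ho h1 h2 h3 hj =>
        hC M n Ω ψ W e x _ ho h1 h2 h3 (by rw [← hj, ← hj, ← map_mul, hab])⟩
    · exact ⟨0, fun h => absurd h hgG⟩
  choose C₂ hC₂ using hg
  obtain ⟨D, hD1, hD2, hD3, hD4⟩ : ∃ D : ℕ, (∀ i ≤ μ.natDegree + 1, C₁ i ≤ D) ∧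
      (∀ g ∈ G, C₂ g ≤ D) ∧ C.natAbs + 1 ≤ D ∧ (F.ord (ρ (aeval θ (derivative μ)))).natAbs < D :=
    ⟨(Finset.range (μ.natDegree + 2)).sup C₁ + G.sup C₂ + C.natAbs + 1 +
      (F.ord (ρ (aeval θ (derivative μ)))).natAbs,
      fun i hi => (Finset.le_sup (f := C₁) (Finset.mem_range.2 (show i < μ.natDegree + 2 by omega))).trans
        (by omega),
      fun g hg => (Finset.le_sup (f := C₂) hg).trans (by omega), by omega, by omega⟩
  have hmap : ∀ i, hasseDeriv i (μ.map (ι (6 * D + 1) : K₀ →+* RatFunc L)) =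
      (hasseDeriv i μ).map (ι (6 * D + 1) : K₀ →+* RatFunc L) := fun i => by
    ext j
    simp [hasseDeriv_coeff]
  obtain ⟨Ω, _, _, ψ, W, e, x, ho, hx, hxa, hap⟩ := exists_root m4 (F := F')
    (μ := μ.map (ι (6 * D + 1) : K₀ →+* RatFunc L)) (a₀ := φ (ρ θ)) (T := φ (ρ (v 0)))
    (B := 3 * D) (C := D) (Separable.map (Algebra.IsSeparable.isSeparable K₀ θ)) (by rw [hF', hv0]) (by
      have h1 := (hC₁ 0 (6 * D + 1) ((hD1 0 (by omega)).trans (by omega))).1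
      rw [hasseDeriv_zero', minpoly.aeval, res_zero hA.res, map_zero, sub_zero] at h1
      exact h1.mono (by have := hD1 0 (by omega); omega)) (by
      have h1 := (hC₁ 1 (6 * D + 1) ((hD1 1 (by omega)).trans (by omega))).1
      rw [hasseDeriv_one'] at h1
      obtain ⟨h2, h3⟩ := ord_eq_of_ge_sub ((_root_.map_ne_zero φ).2 hδ) (h1.mono (by
        have := hD1 1 (by omega); rw [hF']; omega))
      rw [derivative_map, not_ge_iff, h3, hF']
      exact ⟨h2, by omega⟩) (fun i => by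
      rw [hmap]
      rcases le_or_gt i μ.natDegree with h | h
      · have := hD1 i (by omega)
        exact (hC₁ i (6 * D + 1) (by omega)).2.mono (by omega)
      · simp [hasseDeriv_eq_zero_of_lt_natDegree μ i h]) (by omega)
  rw [eval₂_map] at hx
  obtain ⟨hsurj, j, hj⟩ := exists_lift_hom htop (ψ.comp (ι (6 * D + 1))) hx
  have hj0 : ∀ a : K₀, j a = ψ (ι (6 * D + 1) a) := fun a => by simpa using hj (Polynomial.C a)
  have hjv : ∀ i, j (v i) = ψ (φ (ρ (v i))) := fun i => by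
    rw [← hιv (6 * D + 1) ⟨v i, hvK i⟩ i rfl, ← hj0]
  have hT0 : φ (ρ (v 0)) ≠ 0 := (_root_.map_ne_zero φ).2 fun h => by simp [h] at hv0
  have hjs : j (s / v 0 ^ (6 * D + 1)) = ψ RatFunc.X := by
    rw [map_div₀, map_pow, hjv, hj0 ⟨s, hs⟩, hιs _ _ rfl, map_mul, map_pow,
      mul_div_cancel_left₀ _ (pow_ne_zero _ ((_root_.map_ne_zero ψ).2 hT0))]
  obtain ⟨w, τ, hw, hw1, key, h1, h2, h3⟩ := exists_place hr' ho j (fun f n => by
    obtain ⟨a, rfl⟩ := hsurj f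
    rw [hj]
    exact approx_eval₂ _ hap a n) (t := v 0) (by rw [hjv, ho.2, hF', hv0, mul_one])
  have h4 := key _ _ (by rw [hjs, sub_self]; exact ge_zero _) hX
  refine ⟨6 * D + 1, w, τ, h1, h2, h3, hw1, h4.1, h4.2.trans hrX, fun i => ?_, fun g hg => ?_⟩
  · rw [← hrr _ (hv i)]
    exact key _ _ (by rw [hjv, sub_self]; exact ge_zero _) ((hge _ _).2 (hv i))
  · have h5 := hD2 g hg
    have he : (1 : ℤ) ≤ e := by have := ho.1; omega
    have h6 := (hC₂ g hg (6 * D + 1) (2 * D) Ω ψ W e x j ho (by omega) (by omega)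
      (hxa.mono (le_of_eq (by push_cast; ring))) hj).mono (m := e * (C.natAbs + 1 : ℕ))
      (by gcongr; omega)
    refine ⟨fun n hn => ?_, fun h => ?_⟩
    · have h7 := h6.mono (m := e * n) (by gcongr; omega)
      rw [← hge, ← ho.ge_iff, ← hw.ge_iff]
      exact ⟨fun h => by simpa using h7.add h, fun h => by simpa using h.sub h7⟩
    · rw [← hrr _ h]
      exact key _ _ (h6.mono (by push_cast; nlinarith [abs_nonneg C])) ((hge _ _).2 h)

end Pool.Agent.Lib.MP_5f81cf_ag.Full
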