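import Pool.Agent.Lib.MP_5f81cf_ag.FBlue3
import Pool.Agent.Lib.MP_5f81cf_ag.FCarA

/-! The block `St_MONO`, deduced from `St_M5`. -/

namespace Pool.Agent.Lib.MP_5f81cf_ag.Full

open Pool.Agent.Lib.MP_e06174_ag Polynomial

section RatPB

variable {κ : Type} [Field κ] {p : ℕ} [Fact p.Prime] [CharP κ p] {d : ℕ}

/-- The frame of the rational function field built from a frame of the constants. -/
noncomputable def m6Y (u : Fin d → κ) : Fin (d + 1) → RatFunc κ :=
  Fin.cons RatFunc.X fun i => algebraMap κ (RatFunc κ) (u i)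

omit [Fact p.Prime] [CharP κ p] in
lemma m6_pmon (u : Fin d → κ) (α : Fin (d + 1) → Fin p) :
    pmon p (m6Y u) α = algebraMap κ[X] (RatFunc κ)
      (X ^ (α 0 : ℕ) * C (pmon p u (Fin.tail α))) := by
  unfold pmon m6Y
  rw [Fin.prod_univ_succ, map_mul, map_pow, RatFunc.algebraMap_X, RatFunc.algebraMap_C,
    map_prod]
  simp [Fin.tail]

lemma m6_coeff (c : κ[X]) (a b : Fin p) (e : κ) (n : ℕ) :
    (c ^ p * (X ^ (a : ℕ) * C e)).coeff (p * n + b) =
      if a = b then c.coeff n ^ p * e else 0 := by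
  have hp : 0 < p := (Fact.out : p.Prime).pos
  rw [← mul_assoc, coeff_mul_C, coeff_mul_X_pow', ← map_frobenius_expand p c, coeff_map,
    coeff_expand hp]
  by_cases h : a = b
  · subst h
    simp [frobenius_def, Nat.mul_div_cancel_left _ hp]
  · rw [if_neg h]
    split_ifs with h1 h2
    · exfalso
      apply h
      obtain ⟨m, hm⟩ := h2
      have h3 : p * n + (b : ℕ) = p * m + a := by omega
      have h4 := congrArg (· % p) h3
      simp only [Nat.mul_add_mod, Nat.mod_eq_of_lt a.2, Nat.mod_eq_of_lt b.2] at h4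
      exact Fin.ext h4.symm
    · simp
    · simp

lemma m6_indep_poly {u : Fin d → κ} (hu : IsPB p u) (c : (Fin (d + 1) → Fin p) → κ[X])
    (hc : ∑ α, c α ^ p * (X ^ (α 0 : ℕ) * C (pmon p u (Fin.tail α))) = 0) (α) : c α = 0 := by
  ext n
  have h1 := congrArg (fun P => P.coeff (p * n + α 0)) hc
  simp only [finsetSum_coeff, m6_coeff, coeff_zero] at h1
  rw [← (Fin.consEquiv fun _ : Fin (d + 1) => Fin p).sum_comp, Fintype.sum_prod_type,
    Finset.sum_eq_single (α 0)] at h1
  · have h2 : ∑ β : Fin d → Fin p, (c (Fin.cons (α 0) β)).coeff n ^ p * pmon p u β = 0 := by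
      simpa [Fin.consEquiv] using h1
    have := pb_indep hu h2 (Fin.tail α)
    simpa using this
  · intro b _ hb
    refine Finset.sum_eq_zero fun β _ => ?_
    simp [Fin.consEquiv, hb]
  · simp

lemma m6_indep {u : Fin d → κ} (hu : IsPB p u) (c : (Fin (d + 1) → Fin p) → RatFunc κ)
    (hc : ∑ α, c α ^ p * pmon p (m6Y u) α = 0) (α) : c α = 0 := by
  obtain ⟨⟨b, hb⟩, hb'⟩ := IsLocalization.exist_integer_multiples_of_finite
    (nonZeroDivisors κ[X]) c
  choose P hP using hb'
  have hb0 : algebraMap κ[X] (RatFunc κ) b ≠ 0 := by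
    simpa using nonZeroDivisors.ne_zero hb
  have h1 : ∑ α, P α ^ p * (X ^ (α 0 : ℕ) * C (pmon p u (Fin.tail α))) = 0 := by
    apply IsFractionRing.injective κ[X] (RatFunc κ)
    rw [map_zero, map_sum, ← mul_zero (algebraMap κ[X] (RatFunc κ) b ^ p), ← hc, Finset.mul_sum]
    refine Finset.sum_congr rfl fun β _ => ?_
    rw [map_mul, map_pow, hP, m6_pmon, Algebra.smul_def, mul_pow, mul_assoc]
  have h2 := hP α
  rw [m6_indep_poly hu P h1 α, map_zero, Algebra.smul_def] at h2
  exact (mul_eq_zero.1 h2.symm).resolve_left hb0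

lemma m6_pb {u : Fin d → κ} (hu : IsPB p u) : IsPB p (m6Y u) := by
  classical
  have hp : 0 < p := (Fact.out : p.Prime).pos
  have : CharP (RatFunc κ) p := charP_of_injective_algebraMap (algebraMap κ _).injective p
  let T : RatFunc κ → Prop := fun f => ∃ c : (Fin (d + 1) → Fin p) → RatFunc κ,
    f = ∑ α, c α ^ p * pmon p (m6Y u) α
  have hadd : ∀ f g, T f → T g → T (f + g) := by
    rintro _ _ ⟨c, rfl⟩ ⟨c', rfl⟩
    refine ⟨c + c', ?_⟩
    rw [← Finset.sum_add_distrib]
    refine Finset.sum_congr rfl fun α _ => ?_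
    rw [Pi.add_apply, add_pow_char, add_mul]
  have hmul : ∀ g f, T f → T (g ^ p * f) := by
    rintro g _ ⟨c, rfl⟩
    refine ⟨g • c, ?_⟩
    rw [Finset.mul_sum]
    refine Finset.sum_congr rfl fun α _ => ?_
    rw [Pi.smul_apply, smul_eq_mul, mul_pow, mul_assoc]
  have hzero : T 0 := ⟨0, by simp [hp.ne']⟩
  have hsum : ∀ (s : Finset (Fin d → Fin p)) (f : (Fin d → Fin p) → RatFunc κ),
      (∀ i, T (f i)) → T (∑ i ∈ s, f i) := fun s f hf =>
    Finset.sum_induction f T hadd hzero fun i _ => hf i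
  have hmon : ∀ α, T (pmon p (m6Y u) α) := fun α => ⟨Pi.single α 1, by
    rw [Finset.sum_eq_single α]
    · simp
    · intro β _ hβ
      simp [Pi.single_eq_of_ne hβ, hp.ne']
    · simp⟩
  have hpoly : ∀ P : κ[X], T (algebraMap κ[X] (RatFunc κ) P) := by
    intro P
    induction P using Polynomial.induction_on' with
    | add P Q hP hQ => rw [map_add]; exact hadd _ _ hP hQ
    | monomial n a =>
      obtain ⟨c, hc⟩ := (hu a).exists
      have e : (monomial n a : κ[X]) = ∑ β, (C (c β) * X ^ (n / p)) ^ p *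
          (X ^ (n % p) * C (pmon p u β)) := by
        rw [← C_mul_X_pow_eq_monomial, hc, map_sum, Finset.sum_mul]
        refine Finset.sum_congr rfl fun β _ => ?_
        conv_lhs => rw [← Nat.div_add_mod' n p]
        rw [mul_pow, ← pow_mul, pow_add, map_mul, map_pow]
        ring
      rw [e, map_sum]
      refine hsum _ _ fun β => ?_
      rw [map_mul, map_pow]
      refine hmul _ _ ?_
      have := hmon (Fin.cons ⟨n % p, Nat.mod_lt _ hp⟩ β)
      rwa [m6_pmon] at this
  intro f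
  have hf : T f := by
    have h0 : algebraMap κ[X] (RatFunc κ) f.denom ≠ 0 := RatFunc.algebraMap_ne_zero f.denom_ne_zero
    have e : f = (algebraMap κ[X] (RatFunc κ) f.denom)⁻¹ ^ p *
        algebraMap κ[X] (RatFunc κ) (f.num * f.denom ^ (p - 1)) := by
      obtain ⟨q, hq⟩ : ∃ q, p = q + 1 := ⟨p - 1, by omega⟩
      rw [map_mul, map_pow, hq, Nat.add_sub_cancel, inv_pow]
      conv_lhs => rw [← f.num_div_denom]
      field_simp
      ring
    rw [e]
    exact hmul _ _ (hpoly _)
  obtain ⟨c, hc⟩ := hf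
  refine ⟨c, hc, fun c' hc' => ?_⟩
  funext α
  have := m6_indep hu (c' - c) (by
    simp only [Pi.sub_apply, sub_pow_char, sub_mul, Finset.sum_sub_distrib]
    rw [← hc, ← hc', sub_self]) α
  exact sub_eq_zero.1 this

end RatPB

variable {k : Type} [Field k] {p : ℕ} [Fact p.Prime]

section Res

variable {K L : Type} [Field K] [Algebra k K] [Field L] [Algebra k L] {E : Place k K} {ρ : K → L}

lemma m6_res_sub (h : IsRes E ρ) {a b : K} (ha : E.Ge 0 a) (hb : E.Ge 0 b) :
    ρ (a - b) = ρ a - ρ b := by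
  have := h.add b (a - b) hb (ha.sub hb)
  rw [add_sub_cancel] at this
  rw [this]; ring

/-- A homomorphism on the valuation ring with the right kernel factors through the residue field. -/
lemma m6_factor {Ω : Type} [Field Ω] [Algebra k Ω] (h : IsRes E ρ) (τ : K → Ω)
    (h1 : ∀ a b, E.Ge 0 a → E.Ge 0 b → τ (a + b) = τ a + τ b ∧ τ (a * b) = τ a * τ b)
    (h2 : ∀ c : k, τ (algebraMap k K c) = algebraMap k Ω c)
    (h3 : ∀ a, E.Ge 0 a → (τ a = 0 ↔ E.Ge 1 a)) :
    ∃ φ : L →ₐ[k] Ω, ∀ a, E.Ge 0 a → φ (ρ a) = τ a := by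
  choose σ hσ hσ' using h.surj
  have key : ∀ a, E.Ge 0 a → τ (σ (ρ a)) = τ a := by
    intro a ha
    have hs := (hσ (ρ a)).sub ha
    have e1 : ρ (σ (ρ a) - a) = 0 := by rw [m6_res_sub h (hσ _) ha, hσ', sub_self]
    have e2 := (h3 _ hs).2 ((h.zero _ hs).1 e1)
    have e3 := (h1 a _ ha hs).1
    rwa [add_sub_cancel, e2, add_zero] at e3
  have hc : ∀ c : k, τ (σ (algebraMap k L c)) = algebraMap k Ω c := fun c => by
    rw [← h.const c, key _ (Place.ge_const c), h2]
  refine ⟨{ toFun := fun l => τ (σ l)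
            map_one' := by simpa using hc 1
            map_mul' := fun a b => ?_
            map_zero' := by simpa using hc 0
            map_add' := fun a b => ?_
            commutes' := hc }, key⟩
  · have := key _ ((hσ a).mul' (hσ b) (le_of_eq (add_zero 0).symm))
    rw [h.mul _ _ (hσ a) (hσ b), hσ', hσ'] at this
    rw [this, (h1 _ _ (hσ a) (hσ b)).2]
  · have := key _ ((hσ a).add (hσ b))
    rw [h.add _ _ (hσ a) (hσ b), hσ', hσ'] at this
    rw [this, (h1 _ _ (hσ a) (hσ b)).1]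

end Res

/-- The Jacobian of the substitution `(s, t, v) ↦ (t, s / t ^ M, v)`. -/
lemma m6_jac (c1 : Car1 k p) {K : Type} [Field K] [Algebra k K] {d : ℕ} {s t : K}
    {v : Fin d → K} (ha : IsPB p (Fin.cons s (Fin.cons t v) : Fin (d + 2) → K)) (M : ℕ) :
    jac k (Fin.cons s (Fin.cons t v) : Fin (d + 2) → K)
      (Fin.cons t (Fin.cons (s / t ^ M) v)) = -(t ^ M)⁻¹ := by
  set a : Fin (d + 2) → K := Fin.cons s (Fin.cons t v) with hadef
  let b : Fin (d + 2) → K := Fin.cons (s / t ^ M) (Fin.cons t v)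
  have e1 : jac k a b = (t ^ M)⁻¹ := by
    unfold jac
    rw [Matrix.det_of_isUpperTriangular, Fin.prod_univ_succ, Finset.prod_eq_one, mul_one]
    · have h0 : pd k a 0 s = 1 := by simpa [hadef] using c1.pd_x ha 0 0
      have h1 : pd k a 0 t = 0 := by simpa [hadef] using c1.pd_x ha 0 1
      simp only [Matrix.of_apply, b, Fin.cons_zero]
      rw [div_eq_mul_inv, Derivation.leibniz, Derivation.leibniz_inv, Derivation.leibniz_pow, h0,
        h1]
      simp
    · intro i _
      simpa [hadef, b] using c1.pd_x ha i.succ i.succ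
    · intro i j hij
      have hij' : j < i := hij
      obtain ⟨i, rfl⟩ := Fin.exists_succ_eq.2
        (Fin.pos_iff_ne_zero.1 (lt_of_le_of_lt (Fin.zero_le j) hij'))
      have := c1.pd_x ha j i.succ
      rw [if_neg hij'.ne'] at this
      simpa [hadef, b] using this
  have e2 : (Fin.cons t (Fin.cons (s / t ^ M) v) : Fin (d + 2) → K) =
      fun i => b (Equiv.swap 0 1 i) := by
    funext i
    refine Fin.cases ?_ (fun i => Fin.cases ?_ (fun i => ?_) i) i
    · simp [b]
    · simp [b]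
    · rw [Equiv.swap_apply_of_ne_of_ne (b := 1) (Fin.succ_ne_zero _)
        (fun h => Fin.succ_ne_zero i (Fin.succ_injective _ h))]
      simp [b]
  rw [e2, ← e1]
  unfold jac
  have := Matrix.det_permute (Equiv.swap (0 : Fin (d + 2)) 1)
    (Matrix.of fun i j => pd k a j (b i))
  rw [Equiv.Perm.sign_swap (by simp)] at this
  simp only [Units.val_neg, Units.val_one, Int.cast_neg, Int.cast_one, neg_mul, one_mul] at this
  exact this

lemma m6_ord {K L : Type} [Field K] [Algebra k K] [Field L] [Algebra k L] {w : Place k K}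
    {F : Place k L} {g : K} {l : L} {C : ℤ} (hl : l ≠ 0) (hC : F.ord l + 1 ≤ C)
    (h : ∀ n ≤ C, F.Ge n l ↔ w.Ge n g) : w.ord g = F.ord l := by
  have h1 : ¬ w.Ge (F.ord l + 1) g := by
    rw [← h _ hC, Place.ge_iff hl]; omega
  obtain ⟨hg, h2⟩ := Place.not_ge_iff.1 h1
  have h3 := ((h _ (by omega)).1 (Place.ge_ord l)).le hg
  omega

theorem st_MONO [IsAlgClosed k] [CharP k p] (c1 : Car1 k p) (c2 : Car2 k p) (p1 : Pl1 k p)
    (p2 : Pl2 k p) (m5 : St_M5 k p) : St_MONO k p := by
  intro K L _ _ _ _ _ d S ρ s z F hx hA hF G C hG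
  classical
  have htr := c2.trdeg_eq hx
  obtain ⟨hL, -⟩ := p1.res_ess htr hA.res (p1.div_of_res _ hA.res (c1.algInd hA.pb))
  obtain ⟨κ, _, _, r, hr⟩ := p1.exists_res F
  have : CharP κ p := charP_of_injective_algebraMap (algebraMap k κ).injective p
  obtain ⟨tb, ub, hB⟩ := p1.exists_adapt hA.pb hr hF
  obtain ⟨t, ht, ht'⟩ := hA.res.surj tb
  choose v hv hv' using fun i => hA.res.surj (ub i)
  have hres : (fun i => ρ ((Fin.cons t v : Fin (d + 1) → K) i)) = Fin.cons tb ub := by
    funext i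
    refine Fin.cases ?_ (fun i => ?_) i
    · simpa using ht'
    · simpa using hv' i
  have hge : ∀ i, S.Ge 0 ((Fin.cons t v : Fin (d + 1) → K) i) := fun i => by
    refine Fin.cases ?_ (fun i => ?_) i
    · simpa using ht
    · simpa using hv i
  have hpbL := p2.adapt_pb hA.pb hB
  have hA' : Adapt p S ρ s (Fin.cons t v : Fin (d + 1) → K) :=
    ⟨hA.res, hA.ord, hge, by rw [hres]; exact hpbL⟩
  have ha := p2.adapt_pb hx hA'
  obtain ⟨hJ, hJ'⟩ := p2.res_jac hx hA _ hge
  rw [hres] at hJ'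
  set J := jac k (Fin.cons s z : Fin (d + 2) → K) (Fin.cons s (Fin.cons t v)) with hJdef
  have hJ0 : ρ J ≠ 0 := by rw [hJ']; exact (c1.pb_iff hA.pb).1 hpbL
  obtain ⟨C', hC1, hC2⟩ : ∃ C' : ℤ, C ≤ C' ∧ ∀ g ∈ insert J G, F.ord (ρ g) + 1 ≤ C' := by
    obtain ⟨B, hB⟩ := ((insert J G).image fun g => F.ord (ρ g) + 1).finite_toSet.bddAbove
    exact ⟨max C B, le_max_left _ _, fun g hg =>
      le_max_of_le_right (hB (Finset.mem_coe.2 (Finset.mem_image_of_mem _ hg)))⟩
  have htb : F.Ge 0 tb := Place.ge_of_le (by rw [hB.ord]; omega)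
  obtain ⟨M, w, τ, h1, h2, h3, h4, h5, h6, h7, h8⟩ := m5 ha hA' hr
    (fun i => by
      rw [congrFun hres i]
      refine Fin.cases ?_ (fun i => ?_) i
      · simpa using htb
      · simpa using hB.ge i)
    (by simpa [ht'] using hB.ord) (insert J G) C'
    (fun g hg => by
      rcases Finset.mem_insert.1 hg with rfl | hg
      · exact hJ
      · exact hG g hg)
  simp only [Fin.cons_zero] at h4 h5 h6
  have hord : ∀ g ∈ insert J G, ρ g ≠ 0 → w.ord g = F.ord (ρ g) := fun g hg h0 =>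
    m6_ord h0 (hC2 g hg) (h8 g hg).1
  obtain ⟨kw, _, _, ρw, hw⟩ := p1.exists_res w
  obtain ⟨φ, hφ⟩ := m6_factor hw τ h1 h2 h3
  let y : Fin (d + 1) → K := Fin.cons (s / t ^ M) v
  have hy : ∀ i, w.Ge 0 (y i) := fun i => by
    refine Fin.cases ?_ (fun i => ?_) i
    · simpa [y] using h5
    · simpa [y] using (h7 i.succ).1
  have hY : (fun i => φ (ρw (y i))) = m6Y fun i => r (ub i) := by
    funext i
    rw [hφ _ (hy i)]
    refine Fin.cases ?_ (fun i => ?_) i
    · simpa [y, m6Y] using h6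
    · simpa [y, m6Y, hv'] using (h7 i.succ).2
  have hind : AlgebraicIndependent k fun i => ρw (y i) := by
    have := c1.algInd (m6_pb hB.pb)
    rw [← hY] at this
    exact AlgebraicIndependent.of_comp φ this
  have hdiv : IsDivisorial (d + 2) w := p1.div_of_res _ hw hind
  obtain ⟨t', z', hW'⟩ := p1.exists_adapt hx hw hdiv
  have hW : Adapt p w ρw t y := by
    refine ⟨hw, h4, hy, c1.pb_of_indep hW'.pb fun c hc α => ?_⟩
    have e := congrArg φ hc
    rw [map_sum, map_zero] at e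
    have := m6_indep hB.pb (fun α => φ (c α)) (by
      rw [← e, ← hY]
      refine Finset.sum_congr rfl fun β _ => ?_
      simp [pmon]) α
    simpa using this
  have ht0 : t ≠ 0 := by rintro rfl; simp at h4
  have hs0 : s ≠ 0 := by
    rintro rfl
    have := hA.ord
    simp at this
  have hsM : w.ord s = M := by
    have hn : ¬ w.Ge 1 (s / t ^ M) := by
      rw [← h3 _ h5, h6]; exact RatFunc.X_ne_zero
    have e1 := (Place.not_ge_iff.1 hn).2
    have e2 := h5.le (div_ne_zero hs0 (pow_ne_zero _ ht0))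
    rw [w.ord_div hs0 (pow_ne_zero _ ht0), Place.ord_pow, h4] at e1 e2
    omega
  refine ⟨w, hdiv, ?_, fun g hg => ⟨hord g (Finset.mem_insert_of_mem hg), fun h0 => ?_⟩, ?_⟩
  · have hJ1 : J ≠ 0 := (c1.pb_iff hx).1 ha
    rw [p2.lam_eq hx hW, p2.lam_eq hA.pb hB, ← hJ', ← hord J (Finset.mem_insert_self _ _) hJ0,
      c1.jac_mul hx ha, m6_jac c1 ha M, ← hJdef,
      w.ord_mul (neg_ne_zero.2 (inv_ne_zero (pow_ne_zero _ ht0))) hJ1, hsM]
    simp [h4]
    ring
  · exact ((h8 g (Finset.mem_insert_of_mem hg)).1 C hC1).1 (by rw [h0]; exact Place.ge_zero _)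
  · intro a ha'
    have key : S.Ge 0 a ∧ w.Ge 0 a ∧ F.Ge 0 (ρ a) ∧
        τ a = algebraMap κ (RatFunc κ) (r (ρ a)) := by
      induction ha' using Algebra.adjoin_induction with
      | mem g hg =>
        obtain ⟨e1, e2⟩ := (h8 g (Finset.mem_insert_of_mem hg.1)).2 hg.2
        exact ⟨hG g hg.1, e1, hg.2, e2⟩
      | algebraMap c =>
        refine ⟨Place.ge_const c, Place.ge_const c, ?_, ?_⟩
        · rw [hA.res.const]; exact Place.ge_const c
        · rw [hA.res.const, hr.const, h2, ← IsScalarTower.algebraMap_apply]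
      | add a b _ _ iha ihb =>
        obtain ⟨a1, a2, a3, a4⟩ := iha
        obtain ⟨b1, b2, b3, b4⟩ := ihb
        rw [hA.res.add _ _ a1 b1]
        exact ⟨a1.add b1, a2.add b2, a3.add b3, by
          rw [(h1 _ _ a2 b2).1, hr.add _ _ a3 b3, map_add, a4, b4]⟩
      | mul a b _ _ iha ihb =>
        obtain ⟨a1, a2, a3, a4⟩ := iha
        obtain ⟨b1, b2, b3, b4⟩ := ihb
        rw [hA.res.mul _ _ a1 b1]
        exact ⟨a1.mul' b1 (by simp), a2.mul' b2 (by simp), a3.mul' b3 (by simp), by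
          rw [(h1 _ _ a2 b2).2, hr.mul _ _ a3 b3, map_mul, a4, b4]⟩
    obtain ⟨-, k2, k3, k4⟩ := key
    refine ⟨k2, ?_⟩
    rw [← h3 _ k2, k4, ← hr.zero _ k3]
    simp

end Pool.Agent.Lib.MP_5f81cf_ag.Full
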