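import Pool.Agent.Lib.MP_5f81cf_ag.FAll1
import Pool.Agent.Lib.MP_5f81cf_ag.FMonoA
import Pool.Agent.Lib.MP_5f81cf_ag.FMonoC
import Pool.Agent.Lib.MP_5f81cf_ag.FMonoD
import Pool.Agent.Lib.MP_5f81cf_ag.FMonoF
import Pool.Agent.Lib.MP_5f81cf_ag.FMonoG
import Pool.Agent.Lib.MP_5f81cf_ag.FChA
import Pool.Agent.Lib.MP_5f81cf_ag.FChB
import Pool.Agent.Lib.MP_5f81cf_ag.FChC
import Pool.Agent.Lib.MP_5f81cf_ag.FChD
import Pool.Agent.Lib.MP_5f81cf_ag.FChE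
import Pool.Agent.Lib.MP_5f81cf_ag.FChF
import Pool.Agent.Lib.MP_5f81cf_ag.FChG
import Pool.Agent.Lib.MP_5f81cf_ag.FCurA
import Pool.Agent.Lib.MP_5f81cf_ag.FCurB
import Pool.Agent.Lib.MP_5f81cf_ag.FCurC
import Pool.Agent.Lib.MP_5f81cf_ag.FCurD
import Pool.Agent.Lib.MP_5f81cf_ag.FCurE
import Pool.Agent.Lib.MP_5f81cf_ag.FCurF
import Pool.Agent.Lib.MP_5f81cf_ag.FCurG
import Pool.Agent.Lib.MP_5f81cf_ag.FCurH
import Pool.Agent.Lib.MP_5f81cf_ag.FCurI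
import Pool.Agent.Lib.MP_5f81cf_ag.FAsA
import Pool.Agent.Lib.MP_5f81cf_ag.FAsB
import Pool.Agent.Lib.MP_5f81cf_ag.FAsC
import Pool.Agent.Lib.MP_5f81cf_ag.FAsD
import Pool.Agent.Lib.MP_5f81cf_ag.FAsF
import Pool.Agent.Lib.MP_5f81cf_ag.FAsG
import Pool.Agent.Lib.MP_5f81cf_ag.FAsH

/-! The affine theorem from the surface block. -/

namespace Pool.Agent.Lib.MP_5f81cf_ag.Full

variable (k : Type) [Field k] [IsAlgClosed k] (p : ℕ) [Fact p.Prime] [CharP k p]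

theorem main_of_res (hp : p ≠ 2) (m2 : St_M2 k) (rs : St_RES k p) : St_MAIN k := by
  have c1 := car1_all k p
  have cj : St_CarJac k p := @st_CarJac k _ p _ _ c1
  have c2 := car2_all k p
  have p1 := pl1_all k p
  have p2 := pl2_all k p
  have p3 := pl3_all k p
  have p4 := pl4_all k p
  have a1 : Ca1 k := ca1
  have a2 := ca2_all k p
  have m5 : St_M5 k p := @st_M5 k _ p _ c1 c2 (@st_M1 k _) (@m2) (@st_M3 k _) (@st_M4 k _)
  have mo : St_MONO k p := @st_MONO k _ p _ _ _ c1 c2 p1 p2 (@m5)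
  have hh : H3 k p := h3
  have h4 : St_H4 k := @st_H4 k _ p _ _ hh
  have h5 : St_H5 k := @st_H5 k _ p _ hh (@h4)
  have h6 : St_H6 k := @st_H6 k _ p hh (@h5)
  have h7 : St_H7 k := @st_H7 k _ p _ hh (@h6)
  have h1 : St_H1 k p := @st_H1 k _ _ p _ _ c1 c2 a2
  have ch : St_CH k := @st_CH k _ p _ c1 c2 (@h1) (@h7)
  have kk1 : K1 k := k1
  have kk4 : K4 k p := k4
  have fi : St_Fill k := st_Fill kk1
  have sa : St_Sat k p := st_Sat kk1 kk4 (st_Surj c1 (@cj) c2 p2 kk1) fi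
  have us : St_Use k p := st_Use kk1 sa
  have cu1 : St_CURVE1 k p := st_CURVE1 hp kk1 kk4 k5 us (st_Std kk1 kk4 k5 us)
  have cu2 : St_CURVE2Z k p := st_CURVE2Z kk1 kk4 fi sa
  have s32 : St_S32 k p := @st_S32 k _ p _ c1 p2 p3
  have adj : St_ADJ k p := @st_ADJ k _ p _ (@mo)
  have sat : St_SAT k p := @st_SAT k _ p _ c1 c2 p1 p3 a1 a2
  have st : St_ST k p := @st_ST k _ p _ _ c2 p1 p3 (@sat) (@rs) cu1 (@ch)
  have cn : St_CONN k p := @st_CONN k _ _ p _ c2 p1 p3 (@s32) (@adj) (@sat) (@rs) cu2 (@ch)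
  have sy : St_SYS k p := @st_SYS k _ p _ c1 c2 p1 p2 p3 p4 a1 a2
  exact @st_MAIN k _ _ p _ c2 a1 a2 (@sy) (@s32) (@adj) (@st) (@cn)

end Pool.Agent.Lib.MP_5f81cf_ag.Full
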