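import Pool.Agent.Lib.MP_5f81cf_ag.FBlue2

/-! Statements of the assembly blocks. -/

namespace Pool.Agent.Lib.MP_5f81cf_ag.Full

open Pool.Agent.Lib.MP_e06174_ag

variable {k : Type} [Field k] (p : ℕ) [Fact p.Prime]

/-- A graded system on a surface, closed under the Cartier operator. -/
structure Sys2 {L : Type} [Field L] [Algebra k L] (u : Fin 2 → L) (V : ℕ → Submodule k L) :
    Prop where
  pb : IsPB p u
  one : 1 ∈ V 0
  mul : ∀ m m' f g, f ∈ V m → g ∈ V m' → f * g ∈ V (m + m')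
  car : ∀ m m' f, m' + 1 = p * (m + 1) → f ∈ V m' → car p u f ∈ V m
  ne : ∀ m, ∃ f, f ≠ 0 ∧ f ∈ V m

/-- The anti-log-canonical system of a plt threefold germ. -/
structure Sys3 {R K L : Type} [CommRing R] [Field K] [Algebra k K] [Algebra R K] [Field L]
    [Algebra k L] (S : Place k K) (ρ : K → L) (s : K) (z : Fin 2 → K) (m : Ideal R)
    (V : ℕ → Submodule k K) (h : K) (N : ℕ) : Prop where
  pb : IsPB p (Fin.cons s z : Fin 3 → K)
  ad : Adapt p S ρ s z
  one : 1 ∈ V 0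
  mul : ∀ n n' f g, f ∈ V n → g ∈ V n' → f * g ∈ V (n + n')
  car : ∀ n n' f, n' + 1 = p * (n + 1) → f ∈ V n' → car p (Fin.cons s z : Fin 3 → K) f ∈ V n
  ge : ∀ (n : ℕ) f, f ∈ V n → S.Ge n f
  ne : ∀ n : ℕ, ∃ f ∈ V n, ¬ S.Ge (n + 1) f
  zero : ∀ f, f ∈ V 0 ↔ ∃ a b : R, b ∉ m ∧ f * algebraMap R K b = algebraMap R K a
  pos : 0 < N
  mem : h ∈ V N
  h_ne : ¬ S.Ge (N + 1) h
  plt : ∀ (w : Place k K) (q : Ideal R), HasCentre w q → q ≤ m → 2 ≤ q.height →
    IsDivisorial 3 w → w.ord h < N * lam k (Fin.cons s z : Fin 3 → K) w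

variable (k) in
/-- The restricted system. -/
def resV {K L : Type} [Field K] [Algebra k K] [Field L] [Algebra k L] (ρ : K → L) (s : K)
    (V : ℕ → Submodule k K) (n : ℕ) : Submodule k L :=
  Submodule.span k {g | ∃ f ∈ V n, ρ (f / s ^ n) = g}

/-- `T` is a finite birational model of the image of `R` in the residue field. -/
structure Nrm {R K T L : Type} [CommRing R] [Field K] [Algebra R K] [CommRing T] [Algebra R T]
    [Field L] [Algebra T L] (ρ : K → L) : Prop where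
  res : ∀ r : R, ρ (algebraMap R K r) = algebraMap T L (algebraMap R T r)
  cond : ∃ c : R, algebraMap R T c ≠ 0 ∧ ∀ t : T, ∃ r : R, algebraMap R T r = algebraMap R T c * t

variable (k)

/-- Restriction of the system. -/
def St_S32 : Prop :=
  ∀ {R K L : Type} [CommRing R] [Field K] [Algebra k K] [Algebra R K] [Field L]
    [Algebra k L] {S : Place k K} {ρ : K → L} {s : K} {z : Fin 2 → K} {m : Ideal R}
    {V : ℕ → Submodule k K} {h : K} {N : ℕ}, Sys3 p S ρ s z m V h N →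
    Sys2 p (fun i => ρ (z i)) (resV k ρ s V) ∧ ρ (h / s ^ N) ≠ 0 ∧
      (∀ n g, g ∈ resV k ρ s V n ↔ ∃ f ∈ V n, ρ (f / s ^ n) = g) ∧
      ∀ n n' f, n' + 1 = p * (n + 1) → f ∈ V n' →
        ρ (car p (Fin.cons s z : Fin 3 → K) f / s ^ n) = car p (fun i => ρ (z i)) (ρ (f / s ^ n'))

/-- Adjunction. -/
def St_ADJ : Prop :=
  ∀ {R K T L : Type} [CommRing R] [IsDomain R] [Algebra k R] [Algebra.FiniteType k R] [Field K]
    [Algebra k K] [Algebra R K] [IsScalarTower k R K] [IsFractionRing R K] [CommRing T]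
    [IsDomain T] [Algebra R T] [Field L] [Algebra k L] [Algebra T L] [IsFractionRing T L]
    {S : Place k K} {ρ : K → L} {s : K} {z : Fin 2 → K} {q m : Ideal R}
    {V : ℕ → Submodule k K} {h : K} {N : ℕ}, Sys3 p S ρ s z m V h N → HasCentre S q →
    Nrm (R := R) (T := T) ρ → ∀ (F : Place k L) (y : Ideal T), HasCentre F y →
    IsDivisorial 2 F → y.comap (algebraMap R T) ≤ m →
    F.ord (ρ (h / s ^ N)) < N * lam k (fun i => ρ (z i)) F ∧
    ∀ G : Finset R, ∃ w : Place k K, IsDivisorial 3 w ∧ HasCentre w (y.comap (algebraMap R T)) ∧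
      w.ord h - N * lam k (Fin.cons s z : Fin 3 → K) w =
        F.ord (ρ (h / s ^ N)) - N * lam k (fun i => ρ (z i)) F ∧
      ∀ g ∈ G, algebraMap R T g ≠ 0 →
        w.ord (algebraMap R K g) = F.ord (algebraMap T L (algebraMap R T g))

/-- Effectivity of the boundary on the normalisation. -/
def St_SAT : Prop :=
  ∀ {T L : Type} [CommRing T] [IsDomain T] [IsIntegrallyClosed T] [Algebra k T]
    [Algebra.FiniteType k T] [Field L] [Algebra k L] [Algebra T L] [IsScalarTower k T L]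
    [IsFractionRing T L] {u : Fin 2 → L} {V : ℕ → Submodule k L} {η : L} {N : ℕ},
    Sys2 p u V → η ≠ 0 → 0 < N → η ∈ V N →
    (∃ c : L, c ≠ 0 ∧ ∀ t : T, c * algebraMap T L t ∈ V 0) →
    ∀ (F : Place k L) (q : Ideal T), HasCentre F q → q.height = 1 → (∀ f ∈ V 0, F.Ge 0 f) →
      N * (lam k u F - 1) ≤ F.ord η

/-- The maximal ideal of a point of the normalisation lies in the conductor. -/
def St_ST : Prop :=
  ∀ {T L : Type} [CommRing T] [IsDomain T] [IsIntegrallyClosed T] [Algebra k T]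
    [Algebra.FiniteType k T] [Field L] [Algebra k L] [Algebra T L] [IsScalarTower k T L]
    [IsFractionRing T L] {u : Fin 2 → L} {V : ℕ → Submodule k L} {η : L} {N : ℕ}
    (y : Ideal T) [y.IsMaximal], Sys2 p u V → η ≠ 0 → 0 < N → η ∈ V N →
    (∃ c : L, c ≠ 0 ∧ ∀ t : T, c * algebraMap T L t ∈ V 0) →
    (∀ f ∈ V 0, ∃ a b : T, b ∉ y ∧ f * algebraMap T L b = algebraMap T L a) →
    (∀ (F : Place k L) (q : Ideal T), HasCentre F q → q ≤ y → IsDivisorial 2 F →
      F.ord η < N * lam k u F) →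
    ∃ b : T, b ∉ y ∧ ∀ t ∈ y, algebraMap T L (b * t) ∈ V 0

/-- The centre is unibranch. -/
def St_CONN : Prop :=
  ∀ {R K T L : Type} [CommRing R] [IsDomain R] [IsIntegrallyClosed R] [Algebra k R]
    [Algebra.FiniteType k R] [Field K] [Algebra k K] [Algebra R K] [IsScalarTower k R K]
    [IsFractionRing R K] [CommRing T] [IsDomain T] [IsIntegrallyClosed T] [Algebra k T]
    [Algebra.FiniteType k T] [Algebra R T] [Field L] [Algebra k L] [Algebra T L]
    [IsScalarTower k T L] [IsFractionRing T L]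
    {S : Place k K} {ρ : K → L} {s : K} {z : Fin 2 → K} {q m : Ideal R} [m.IsMaximal]
    {V : ℕ → Submodule k K} {h : K} {N : ℕ}, Sys3 p S ρ s z m V h N → HasCentre S q →
    Nrm (R := R) (T := T) ρ → ∀ (y₁ y₂ : Ideal T) [y₁.IsMaximal] [y₂.IsMaximal],
    y₁.comap (algebraMap R T) = m → y₂.comap (algebraMap R T) = m → y₁ = y₂

/-- The plt condition at one closed point. -/
def PltAt {R K : Type} [CommRing R] [Field K] [Algebra k K] [Algebra R K] (S : Place k K)
    (m : Ideal R) : Prop :=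
  ∃ (Δ : Place k K → ℚ) (ω : ⋀[K]^3 Ω[K⁄k]) (N : ℕ) (h : K), (∀ E, 0 ≤ Δ E) ∧ Δ S = 1 ∧ ω ≠ 0 ∧
    0 < N ∧ h ≠ 0 ∧ ∀ (E : Place k K) (q : Ideal R), HasCentre E q → q ≤ m →
      (q.height = 1 → (E.ord h : ℚ) = N * (formOrd 3 E ω + Δ E)) ∧
      (2 ≤ q.height → IsDivisorial 3 E → -1 < (formOrd 3 E ω : ℚ) - E.ord h / N)

/-- Construction of the system. -/
def St_SYS : Prop :=
  ∀ {R K L : Type} [CommRing R] [IsDomain R] [IsIntegrallyClosed R] [Algebra k R]
    [Algebra.FiniteType k R] [Field K] [Algebra k K] [Algebra R K] [IsScalarTower k R K]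
    [IsFractionRing R K] [Field L] [Algebra k L] {S : Place k K} {ρ : K → L} {q m : Ideal R}
    [m.IsMaximal], Algebra.trdeg k K = 3 → HasCentre S q → q.height = 1 → q ≤ m → IsRes S ρ →
    PltAt k S m → ∃ (s : K) (z : Fin 2 → K) (V : ℕ → Submodule k K) (h : K) (N : ℕ),
      Sys3 p S ρ s z m V h N

/-- The affine theorem. -/
def St_MAIN : Prop :=
  ∀ {R K : Type} [CommRing R] [IsDomain R] [IsIntegrallyClosed R] [Algebra k R]
    [Algebra.FiniteType k R] [Field K] [Algebra k K] [Algebra R K] [IsScalarTower k R K]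
    [IsFractionRing R K] {S : Place k K} {q : Ideal R}, Algebra.trdeg k K = 3 → HasCentre S q →
    q.height = 1 → (∀ m : Ideal R, m.IsMaximal → q ≤ m → PltAt k S m) →
    IsIntegrallyClosed (R ⧸ q)

end Pool.Agent.Lib.MP_5f81cf_ag.Full
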