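import Pool.Agent.Lib.MP_5f81cf_ag.UFD

/-! Height one primes of a smooth threefold and their valuations. -/

namespace Pool.Agent.Lib.MP_5f81cf_ag

open Pool.Agent.Lib.MP_e06174_ag

variable {k A K : Type} [Field k] [CommRing A] [Field K] [Algebra k K] [Algebra A K]

lemma HasCentre.ge {W : Place k K} {Q : Ideal A} (h : HasCentre W Q) (a : A) :
    W.Ge 0 (algebraMap A K a) := (h a).1

lemma HasCentre.ord_eq {W : Place k K} {Q : Ideal A} (h : HasCentre W Q) {a : A} (ha : a ∉ Q) :
    algebraMap A K a ≠ 0 ∧ W.ord (algebraMap A K a) = 0 := by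
  obtain ⟨h1, h2⟩ := Place.not_ge_iff.1 ((h a).2.not.1 ha)
  have := (h a).1.le h1
  exact ⟨h1, by omega⟩

lemma HasCentre.isPrime {W : Place k K} {Q : Ideal A} (h : HasCentre W Q) : Q.IsPrime := by
  refine ⟨fun h1 => ?_, fun {a b} hab => ?_⟩
  · have := ((h 1).2.1 (h1 ▸ trivial)).le (by simp)
    simp at this
  · by_contra! h0
    obtain ⟨a1, a2⟩ := h.ord_eq h0.1
    obtain ⟨b1, b2⟩ := h.ord_eq h0.2
    have := (h _).2.1 hab
    rw [map_mul, Place.ge_iff (mul_ne_zero a1 b1), W.ord_mul a1 b1] at this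
    omega

lemma HasCentre.unique {W : Place k K} {Q Q' : Ideal A} (h : HasCentre W Q) (h' : HasCentre W Q') :
    Q = Q' := Ideal.ext fun a => (h a).2.trans (h' a).2.symm

lemma exists_centre {W : Place k K} (h : ∀ a : A, W.Ge 0 (algebraMap A K a)) :
    ∃ Q : Ideal A, HasCentre W Q :=
  ⟨{ carrier := {a | W.Ge 1 (algebraMap A K a)}
     add_mem' := fun ha hb => by simpa using Place.Ge.add ha hb
     zero_mem' := by simp
     smul_mem' := fun c a ha => by simpa using (h c).mul ha }, fun a => ⟨h a, Iff.rfl⟩⟩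

/-- `W` is the valuation of the height one prime `Q ⊆ m`. -/
structure Val (m : Ideal A) (W : Place k K) (Q : Ideal A) : Prop where
  centre : HasCentre W Q
  le : Q ≤ m
  ht : Q.height = 1
  reg : ∀ g : K, W.Ge 0 g → ∃ a b : A, b ∉ Q ∧ g * algebraMap A K b = algebraMap A K a

/-- `s` generates `P` locally at `m`. -/
def LocGen (m P : Ideal A) (s : A) : Prop := s ∈ P ∧ ∀ a ∈ P, ∃ u, u ∉ m ∧ s ∣ u * a

lemma eq_of_le_of_ht {P Q : Ideal A} [P.IsPrime] [Q.IsPrime] (hP : P.height = 1)
    (hQ : Q.height = 1) (h : P ≤ Q) : P = Q := by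
  by_contra hne
  have := Ideal.height_add_one_le_of_lt_of_isPrime (lt_of_le_of_ne h hne)
  rw [hP, hQ] at this
  exact absurd this (by decide)

lemma LocGen.ne_zero [IsDomain A] {m P : Ideal A} {s : A} (hs : LocGen m P s) (hP : P.height = 1) :
    s ≠ 0 := by
  rintro rfl
  refine Ideal.ne_bot_of_height_eq_one hP (eq_bot_iff.2 fun a ha => ?_)
  obtain ⟨u, hu, h⟩ := hs.2 a ha
  exact (mul_eq_zero.1 (zero_dvd_iff.1 h)).resolve_left fun h0 => hu (h0 ▸ zero_mem _)

lemma LocGen.le_of_mem {m P Q : Ideal A} {s : A} (hs : LocGen m P s) [hQ : Q.IsPrime] (hQm : Q ≤ m)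
    (h : s ∈ Q) : P ≤ Q := fun a ha => by
  obtain ⟨u, hu, h1⟩ := hs.2 a ha
  exact (hQ.mem_or_mem (Q.mem_of_dvd h1 h)).resolve_left fun h => hu (hQm h)

open Classical in
lemma LocGen.ord_le [IsDomain A] [IsFractionRing A K] {m P Q : Ideal A} {s : A} (hs : LocGen m P s)
    [P.IsPrime] (hP : P.height = 1) {W : Place k K} (hW : Val m W Q) :
    W.ord (algebraMap A K s) ≤ if Q = P then 1 else 0 := by
  have := hW.centre.isPrime
  split_ifs with h
  · subst h
    obtain ⟨ϖ, h0, h1⟩ := W.exists_ord_eq_one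
    obtain ⟨a, b, hb, h2⟩ := hW.reg ϖ (Place.ge_of_le (by omega))
    obtain ⟨b1, b2⟩ := hW.centre.ord_eq hb
    have h3 : W.ord (algebraMap A K a) = 1 := by rw [← h2, W.ord_mul h0 b1, h1, b2]; rfl
    obtain ⟨u, hu, c, hc⟩ := hs.2 a ((hW.centre a).2.2 (Place.ge_of_le h3.ge))
    obtain ⟨u1, u2⟩ := hW.centre.ord_eq (a := u) fun h => hu (hW.le h)
    have ha : algebraMap A K a ≠ 0 := h2 ▸ mul_ne_zero h0 b1
    have h4 := congrArg (algebraMap A K) hc
    rw [map_mul, map_mul] at h4
    have h5 := h4 ▸ mul_ne_zero u1 ha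
    have h6 := congrArg W.ord h4
    rw [W.ord_mul u1 ha, W.ord_mul (left_ne_zero_of_mul h5) (right_ne_zero_of_mul h5)] at h6
    have := (hW.centre.ge c).le (right_ne_zero_of_mul h5)
    omega
  · exact (hW.centre.ord_eq fun h1 =>
      h (eq_of_le_of_ht hP hW.ht (hs.le_of_mem hW.le h1)).symm).2.le

section ufd

variable {B : Type} [CommRing B] [IsDomain B] [UniqueFactorizationMonoid B] [Algebra k B]
  [Algebra B K] [IsFractionRing B K] [IsScalarTower k B K]

lemma exists_place_prime {π : B} (hπ : Prime π) : ∃ W : Place k K,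
    ∀ (n : ℕ) (b : B), W.Ge n (algebraMap B K b) ↔ π ^ n ∣ b := by
  have hf : ∀ b : B, b ≠ 0 → FiniteMultiplicity π b := fun b hb =>
    FiniteMultiplicity.of_prime_left hπ hb
  have hle : ∀ (n : ℕ) (b : B), b ≠ 0 → ((n : ℤ) ≤ multiplicity π b ↔ π ^ n ∣ b) := fun n b hb => by
    rw [(hf b hb).pow_dvd_iff_le_multiplicity]; exact Nat.cast_le
  obtain ⟨W, hW⟩ := exists_place_of_ord (k := k) (K := K) (fun b : B => (multiplicity π b : ℤ))
    (fun a b ha hb => by rw [multiplicity_mul hπ (hf _ (mul_ne_zero ha hb))]; simp)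
    (fun a b ha hb hab => by
      rw [← Nat.cast_min, hle _ _ hab]
      exact dvd_add ((hle _ _ ha).1 (by simp)) ((hle _ _ hb).1 (by simp)))
    (fun c hc => by
      have : ¬ π ∣ algebraMap k B c := fun h =>
        hπ.not_isUnit (isUnit_of_dvd_unit h ((IsUnit.mk0 c hc).map _))
      simpa [multiplicity_eq_zero] using this)
    ⟨π, 1, hπ.ne_zero, one_ne_zero, by
      simp [multiplicity_self, multiplicity_eq_zero.2 hπ.not_dvd_one]⟩
  refine ⟨W, fun n b => ?_⟩
  by_cases hb : b = 0
  · simp [hb]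
  rw [Place.ge_iff (by simpa using hb), hW b hb, hle n b hb]

omit [Algebra k B] [IsScalarTower k B K] in
lemma reg_of_prime {π : B} (hπ : Prime π) {W : Place k K}
    (hW : ∀ (n : ℕ) (b : B), W.Ge n (algebraMap B K b) ↔ π ^ n ∣ b) {g : K} (hg : W.Ge 0 g) :
    ∃ a b : B, ¬ π ∣ b ∧ g * algebraMap B K b = algebraMap B K a := by
  obtain ⟨a, b, hb, rfl⟩ := IsFractionRing.div_surjective (A := B) g
  replace hb := nonZeroDivisors.ne_zero hb
  obtain ⟨c, hc, hc'⟩ := (FiniteMultiplicity.of_prime_left hπ hb).exists_eq_pow_mul_and_not_dvd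
  have hbK : algebraMap B K b ≠ 0 := by simpa using hb
  have h1 := hg.mul ((hW (multiplicity π b) b).2 (pow_multiplicity_dvd π b))
  rw [div_mul_cancel₀ _ hbK, zero_add, hW] at h1
  obtain ⟨a', ha'⟩ := h1
  refine ⟨a', c, hc', ?_⟩
  rw [div_mul_eq_mul_div, div_eq_iff hbK, ← map_mul, ← map_mul, ha']
  conv_rhs => rw [hc]
  congr 1; ring

lemma mem_of_forall_prime {g : K} (h : ∀ (π : B) (W : Place k K), Prime π →
    (∀ (n : ℕ) (b : B), W.Ge n (algebraMap B K b) ↔ π ^ n ∣ b) → W.Ge 0 g) :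
    ∃ a : B, g = algebraMap B K a := by
  obtain ⟨a, b, hb, rfl⟩ := IsFractionRing.div_surjective (A := B) g
  replace hb := nonZeroDivisors.ne_zero hb
  induction b using UniqueFactorizationMonoid.induction_on_prime generalizing a with
  | h₁ => exact absurd rfl hb
  | h₂ u hu =>
    obtain ⟨u, rfl⟩ := hu
    exact ⟨a * (u⁻¹ : Bˣ), by simp [div_eq_mul_inv]⟩
  | h₃ b π hb' hπ ih =>
    obtain ⟨W, hW⟩ := exists_place_prime (k := k) (K := K) hπ
    have h1 := (h π W hπ hW).mul ((hW 1 (π * b)).2 (by simp))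
    rw [div_mul_cancel₀ _ (by simpa using hb), zero_add, hW, pow_one] at h1
    obtain ⟨a, rfl⟩ := h1
    have hπK : algebraMap B K π ≠ 0 := by simpa using hπ.ne_zero
    simp only [map_mul, mul_div_mul_left _ _ hπK] at h ⊢
    exact ih a h hb'

end ufd

variable [Algebra k A] [Infinite k] [Algebra.FormallySmooth k A] [IsNoetherianRing A] [IsDomain A]
  {m : Ideal A} [m.IsPrime] (C : Chart (Fin 3) k m)
include C

omit [Algebra k K] [Algebra A K] in
lemma Chart.exists_locGen (P : Ideal A) [P.IsPrime] (hP : P.height = 1) (hle : P ≤ m) :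
    ∃ s, LocGen m P s := by
  let B := Localization.AtPrime m
  have := C.ufd B
  have hd : Disjoint (m.primeCompl : Set A) P := Set.disjoint_left.2 fun a ha h => ha (hle h)
  have h1 := IsLocalization.isPrime_of_isPrime_disjoint m.primeCompl B P inferInstance hd
  have h2 := (IsLocalization.height_map_of_disjoint (S := B) m.primeCompl P hd).trans hP
  obtain ⟨π, h3, h4⟩ := h1.exists_mem_prime_of_ne_bot (Ideal.ne_bot_of_height_eq_one h2)
  have h5 := Ideal.eq_span_singleton_of_height_eq_one h2 h3 h4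
  obtain ⟨⟨s, u⟩, h6⟩ := IsLocalization.surj m.primeCompl π
  have h7 : P.map (algebraMap A B) = (Ideal.span {s}).map (algebraMap A B) := by
    rw [h5, Ideal.map_span, Set.image_singleton, ← h6,
      Ideal.span_singleton_mul_right_unit (IsLocalization.map_units B u)]
  refine ⟨s, ?_, fun a ha => ?_⟩
  · rw [← IsLocalization.under_map_of_isPrime_disjoint m.primeCompl B inferInstance hd,
      Ideal.under_def, Ideal.mem_comap, h7]
    exact Ideal.mem_map_of_mem _ (Ideal.mem_span_singleton_self s)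
  · simpa [Ideal.mem_span_singleton] using (IsLocalization.algebraMap_mem_map_algebraMap_iff
      m.primeCompl B (Ideal.span {s}) a).1 (h7 ▸ Ideal.mem_map_of_mem _ ha)

lemma Chart.mem_of_val [IsFractionRing A K] [IsScalarTower k A K] {g : K}
    (h : ∀ (W : Place k K) Q, Val m W Q → W.Ge 0 g) :
    ∃ a u : A, u ∉ m ∧ g * algebraMap A K u = algebraMap A K a := by
  let B := Localization.AtPrime m
  have := C.ufd B
  let := IsLocalization.localizationAlgebraOfSubmonoidLe B K _ _ m.primeCompl_le_nonZeroDivisors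
  have := IsLocalization.localization_isScalarTower_of_submonoid_le B K _ _
    m.primeCompl_le_nonZeroDivisors
  have := IsFractionRing.isFractionRing_of_isDomain_of_isLocalization m.primeCompl B K
  have : IsScalarTower k B K := IsScalarTower.of_algebraMap_eq fun c => by
    rw [IsScalarTower.algebraMap_apply k A B, ← IsScalarTower.algebraMap_apply A B K,
      ← IsScalarTower.algebraMap_apply]
  have hs : ∀ b : B, ∃ a u : A, u ∉ m ∧ b * algebraMap A B u = algebraMap A B a := fun b => by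
    obtain ⟨⟨a, u⟩, h⟩ := IsLocalization.surj m.primeCompl b
    exact ⟨a, u, u.2, h⟩
  obtain ⟨b, rfl⟩ := mem_of_forall_prime (k := k) (B := B) (g := g) fun π W hπ hW => by
    have hp := (Ideal.span_singleton_prime hπ.ne_zero).2 hπ
    have hle : (Ideal.span {π}).under A ≤ m :=
      (Ideal.comap_mono (IsLocalRing.le_maximalIdeal hp.ne_top)).trans_eq
        (Localization.AtPrime.under_maximalIdeal (I := m))
    refine h W ((Ideal.span {π}).under A) ⟨fun a => ?_, hle, ?_, fun g hg => ?_⟩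
    · rw [IsScalarTower.algebraMap_apply A B K, Ideal.under_def, Ideal.mem_comap,
        Ideal.mem_span_singleton]
      exact ⟨(hW 0 _).2 (by simp), by simpa using (hW 1 (algebraMap A B a)).symm⟩
    · rw [IsLocalization.height_under m.primeCompl]
      exact Ideal.height_span_singleton_eq_one_of_mem_nonZeroDivisors
        (mem_nonZeroDivisors_of_ne_zero hπ.ne_zero) hπ.not_isUnit
    · obtain ⟨a, b, hb, h1⟩ := reg_of_prime hπ hW hg
      obtain ⟨a', u, hu, h2⟩ := hs a
      obtain ⟨b', v, hv, h3⟩ := hs b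
      refine ⟨a' * v, b' * u, fun h4 => ?_, ?_⟩
      · rw [Ideal.under_def, Ideal.mem_comap, map_mul, ← h3, Ideal.mem_span_singleton,
          (IsLocalization.map_units B (⟨u, hu⟩ : m.primeCompl)).dvd_mul_right,
          (IsLocalization.map_units B (⟨v, hv⟩ : m.primeCompl)).dvd_mul_right] at h4
        exact hb h4
      · simp only [map_mul, IsScalarTower.algebraMap_apply A B K, ← h2, ← h3, ← h1]; ring
  obtain ⟨a, u, hu, h1⟩ := hs b
  exact ⟨a, u, hu, by simp only [IsScalarTower.algebraMap_apply A B K, ← h1, map_mul]⟩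

end Pool.Agent.Lib.MP_5f81cf_ag
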