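import Pool.Agent.Lib.MP_5f81cf_ag.SDefs
import Pool.Agent.Lib.MP_5f81cf_ag.FBlue6
import Pool.Agent.Lib.MP_5f81cf_ag.Val

/-! From affine charts to schemes. -/

namespace Pool.Agent.Lib.MP_5f81cf_ag.Full

open Pool.Agent.Lib.MP_e06174_ag

section loc

variable {k K R O : Type} [Field k] [Field K] [Algebra k K] [CommRing R] [CommRing O]
  [Algebra R O] [Algebra R K] [Algebra O K] [IsScalarTower R O K]

lemma centre_comap {E : Place k K} {q : Ideal O} (h : HasCentre E q) :
    HasCentre E (q.comap (algebraMap R O)) := fun r => by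
  rw [IsScalarTower.algebraMap_apply R O K]
  exact h _

lemma centre_map (P : Ideal R) [P.IsPrime] [IsLocalization.AtPrime O P] {E : Place k K}
    {q : Ideal R} (h : HasCentre E q) (hq : q ≤ P) :
    ∃ q' : Ideal O, HasCentre E q' ∧ q'.height = q.height := by
  have h0 : ∀ a : O, E.Ge 0 (algebraMap O K a) := by
    intro a
    obtain ⟨⟨r, s⟩, e⟩ := IsLocalization.surj P.primeCompl a
    have e' := congrArg (algebraMap O K) e
    rw [map_mul, ← IsScalarTower.algebraMap_apply, ← IsScalarTower.algebraMap_apply] at e'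
    obtain ⟨hs0, hs⟩ := h.ord_eq (a := s.1) fun hs => s.2 (hq hs)
    rw [eq_div_of_mul_eq hs0 e', div_eq_mul_inv]
    exact (h.ge r).mul' (Place.ge_of_le (n := 0) (by simp [hs])) (by simp)
  obtain ⟨q', hq'⟩ := exists_centre h0
  refine ⟨q', hq', ?_⟩
  rw [(centre_comap (R := R) hq').unique h |>.symm]
  exact (IsLocalization.height_under P.primeCompl q').symm

lemma normal_loc (P : Ideal R) [P.IsPrime] [IsLocalization.AtPrime O P] (q : Ideal O) [q.IsPrime]
    [IsIntegrallyClosed (R ⧸ q.comap (algebraMap R O))] : IsIntegrallyClosed (O ⧸ q) := by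
  let q₀ := q.comap (algebraMap R O)
  let : Algebra (R ⧸ q₀) (O ⧸ q) := (Ideal.quotientMap q (algebraMap R O) le_rfl).toAlgebra
  let M := P.primeCompl.map (Ideal.Quotient.mk q₀)
  have hinj : Function.Injective (algebraMap (R ⧸ q₀) (O ⧸ q)) := Ideal.quotientMap_injective
  have hM : ∀ y : M, IsUnit (algebraMap (R ⧸ q₀) (O ⧸ q) y) := by
    rintro ⟨_, s, hs, rfl⟩
    exact (IsLocalization.map_units O (⟨s, hs⟩ : P.primeCompl)).map (Ideal.Quotient.mk q)
  have : IsLocalization M (O ⧸ q) := by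
    refine ⟨hM, fun z => ?_, fun h => ⟨1, by rw [hinj h]⟩⟩
    obtain ⟨a, rfl⟩ := Ideal.Quotient.mk_surjective z
    obtain ⟨⟨r, s⟩, e⟩ := IsLocalization.surj P.primeCompl a
    exact ⟨⟨Ideal.Quotient.mk q₀ r, ⟨_, s.1, s.2, rfl⟩⟩, congrArg (Ideal.Quotient.mk q) e⟩
  refine isIntegrallyClosed_of_isLocalization (O ⧸ q) M fun y hy => ?_
  refine mem_nonZeroDivisors_of_ne_zero fun h0 => ?_
  have := hM ⟨y, hy⟩
  simp [h0] at this

end loc

section chart

variable {k K R : Type} [Field k] [Field K] [Algebra k K] [CommRing R] [Algebra R K]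

/-- `O` is the local ring of `R` at `P`, compatibly with the maps to `K`. -/
def IsLocAt (K : Type) [Field K] {R : Type} [CommRing R] [Algebra R K] (P : Ideal R) [P.IsPrime]
    (O : Type) [CommRing O] [Algebra O K] : Prop :=
  ∃ _ : Algebra R O, IsLocalization.AtPrime O P ∧ IsScalarTower R O K

lemma pltAt_of_loc {O : Type} [CommRing O] [Algebra O K] (m : Ideal R) [m.IsPrime]
    (hO : IsLocAt K m O) {Δ : Place k K →₀ ℚ} (h0 : ∀ E, 0 ≤ Δ E) {S : Place k K} (hS : Δ S = 1)
    {ω : ⋀[K]^3 Ω[K⁄k]} (hω : ω ≠ 0) {N : ℕ} (hN : 0 < N)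
    (h : PltLoc (KaehlerDifferential.D k K) (exteriorPower.ιMulti K 3) O Δ ω N) :
    PltAt k S m := by
  obtain ⟨_, _, _⟩ := hO
  obtain ⟨h, hh0, hh⟩ := h
  refine ⟨Δ, ω, N, h, h0, hS, hω, hN, hh0, fun E q hq hm => ?_⟩
  obtain ⟨q', hq', e⟩ := centre_map (O := O) m hq hm
  rw [← e]
  exact hh E q' hq'

theorem chart_main (main : St_MAIN k) [IsDomain R] [Algebra k R] [Algebra.FiniteType k R]
    [IsScalarTower k R K] [IsFractionRing R K] (hdim : Algebra.trdeg k K = 3) {X : Type}
    (O : X → Type) [∀ x, CommRing (O x)] [∀ x, Algebra (O x) K]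
    (hn : ∀ x, IsIntegrallyClosed (O x))
    (hO : ∀ (m : Ideal R) [m.IsMaximal], ∃ y, IsLocAt K m (O y))
    {Δ : Place k K →₀ ℚ} (hΔ : IsPltPair 3 O Δ) {S : Place k K} (hS : Δ S = 1)
    (x : X) (P : Ideal R) [P.IsPrime] (hx : IsLocAt K P (O x)) (q : Ideal (O x))
    (hq : HasCentre S q) (h1 : q.height = 1) : IsIntegrallyClosed (O x ⧸ q) := by
  obtain ⟨_, _, _⟩ := hx
  obtain ⟨h0, -, ω, N, hω, hN, hl⟩ := hΔ
  have : IsIntegrallyClosed R := IsIntegrallyClosed.of_localization_maximal fun m _ _ => by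
    obtain ⟨y, _, _, _⟩ := hO m
    have := hn y
    exact .of_equiv (IsLocalization.algEquiv m.primeCompl (O y) _).toRingEquiv
  have := hq.isPrime
  have : IsIntegrallyClosed (R ⧸ q.comap (algebraMap R (O x))) := by
    refine main hdim (centre_comap hq) ?_ fun m hm _ => ?_
    · exact (IsLocalization.height_under P.primeCompl q).trans h1
    · obtain ⟨y, hy⟩ := hO m
      exact pltAt_of_loc m hy (fun E => (h0 E).1) hS hω hN (hl y)
  exact normal_loc P q

end chart

section scheme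

open AlgebraicGeometry CategoryTheory

variable {k : Type} [Field k] (X : Scheme.{0}) [IsIntegral X]

noncomputable instance secAlg (U : X.Opens) [Nonempty U] : Algebra Γ(X, U) (FnField X) :=
  (X.germToFunctionField U).hom.toAlgebra

lemma isLocAt_stalk {U : X.Opens} (hU : IsAffineOpen U) [Nonempty U] (x : U) :
    IsLocAt (FnField X) (hU.primeIdealOf x).asIdeal (LocRing X x) :=
  ⟨X.presheaf.algebra_section_stalk x, hU.isLocalization_stalk x,
    functionField_isScalarTower X U x⟩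

theorem scheme_main (main : St_MAIN k) (s : X ⟶ Spec (.of k)) [LocallyOfFiniteType s]
    (hn : ∀ x : X, IsIntegrallyClosed (LocRing X x))
    [Algebra k (FnField X)] (hs : algebraMap k (FnField X) = constMap X s)
    (hdim : Algebra.trdeg k (FnField X) = 3)
    {Δ : Place k (FnField X) →₀ ℚ} (hΔ : IsPltPair 3 (LocRing X) Δ)
    {S : Place k (FnField X)} (hS : Δ S = 1)
    (x : X) (q : Ideal (LocRing X x)) (hq : HasCentre S q) (h1 : q.height = 1) :
    IsIntegrallyClosed (LocRing X x ⧸ q) := by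
  obtain ⟨U, hU, hx, -⟩ := exists_isAffineOpen_mem_and_subset (x := x) (U := ⊤) trivial
  have : Nonempty U := ⟨⟨x, hx⟩⟩
  let φ : CommRingCat.of k ⟶ Γ(X, U) := (Scheme.ΓSpecIso (.of k)).inv ≫ s.appLE ⊤ U le_top
  let : Algebra k Γ(X, U) := φ.hom.toAlgebra
  have : Algebra.FiniteType k Γ(X, U) := by
    have h := s.finiteType_appLE (isAffineOpen_top _) hU (U := ⊤) le_top
    exact h.comp (RingHom.FiniteType.of_surjective _
      (Scheme.ΓSpecIso (.of k)).symm.commRingCatIsoToRingEquiv.surjective)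
  have : IsScalarTower k Γ(X, U) (FnField X) := by
    refine IsScalarTower.of_algebraMap_eq' ?_
    rw [hs]
    change (constHom X s).hom = (φ ≫ X.germToFunctionField U).hom
    congr 1
    simp only [constHom, globalConst, toFnField, φ, Scheme.Hom.appLE, Category.assoc,
      TopCat.Presheaf.germ_res]
    rfl
  have : IsFractionRing Γ(X, U) (FnField X) := functionField_isFractionRing_of_isAffineOpen X U hU
  refine chart_main main hdim (LocRing X) hn (fun m hm => ?_) hΔ hS x _
    (isLocAt_stalk X hU ⟨x, hx⟩) q hq h1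
  obtain ⟨y, hy⟩ : ∃ y : U, (hU.primeIdealOf y).asIdeal = m :=
    ⟨hU.isoSpec.inv ⟨m, hm.isPrime⟩, by simp [IsAffineOpen.primeIdealOf]⟩
  subst hy
  exact ⟨y, isLocAt_stalk X hU y⟩

end scheme

end Pool.Agent.Lib.MP_5f81cf_ag.Full
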