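import Pool.Agent.Lib.MP_5f81cf_ag.FBlue3

/-! The substitution `s ↦ t ^ M σ`. -/

namespace Pool.Agent.Lib.MP_5f81cf_ag.Full

open Pool.Agent.Lib.MP_e06174_ag MvPolynomial

namespace M2

variable {k K L I : Type} [Field k] [Field K] [Algebra k K] [Field L] [Algebra k L]

lemma res_aeval {S : Place k K} {ρ : K → L} (h : IsRes S ρ) {x : I → K} (hx : ∀ i, S.Ge 0 (x i))
    (P : MvPolynomial I k) : S.Ge 0 (aeval x P) ∧ ρ (aeval x P) = aeval (fun i => ρ (x i)) P := by
  induction P using MvPolynomial.induction_on with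
  | C c => simpa using ⟨Place.ge_const c, h.const c⟩
  | add P Q hP hQ =>
    rw [map_add, map_add, h.add _ _ hP.1 hQ.1, hP.2, hQ.2]
    exact ⟨hP.1.add hQ.1, rfl⟩
  | mul_X P i hP =>
    rw [map_mul, map_mul, aeval_X, aeval_X, h.mul _ _ hP.1 (hx i), hP.2]
    exact ⟨hP.1.mul' (hx i) (by simp), rfl⟩

lemma ge_aeval {W : Place k K} {n : ℤ} {y z : I → K} (hy : ∀ i, W.Ge 0 (y i))
    (hz : ∀ i, W.Ge 0 (z i)) (h : ∀ i, W.Ge n (y i - z i)) (P : MvPolynomial I k) :
    W.Ge 0 (aeval z P) ∧ W.Ge n (aeval y P - aeval z P) := by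
  induction P using MvPolynomial.induction_on with
  | C c => simpa using Place.ge_const c
  | add P Q hP hQ =>
    rw [map_add, map_add, add_sub_add_comm]
    exact ⟨hP.1.add hQ.1, hP.2.add hQ.2⟩
  | mul_X P i hP =>
    rw [map_mul, map_mul, aeval_X, aeval_X]
    refine ⟨hP.1.mul' (hz i) (by simp), ?_⟩
    have e : aeval y P * y i - aeval z P * z i =
        (aeval y P - aeval z P) * y i + aeval z P * (y i - z i) := by ring
    rw [e]
    exact (hP.2.mul' (hy i) (by simp)).add (hP.1.mul' (h i) (by simp))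

lemma factor {u : I → L} (hu : AlgebraicIndependent k u) {P : MvPolynomial (Option I) k}
    (hP : P ≠ 0) : ∃ (n : ℕ) (Q : MvPolynomial (Option I) k), P = X none ^ n * Q ∧
      aeval (fun o : Option I => o.elim 0 u) Q ≠ 0 := by
  have h0 : optionEquivLeft k I P ≠ 0 := by simpa using hP
  obtain ⟨q, h1, h2⟩ := Polynomial.exists_eq_pow_rootMultiplicity_mul_and_not_dvd _ h0 0
  refine ⟨Polynomial.rootMultiplicity 0 (optionEquivLeft k I P), (optionEquivLeft k I).symm q,
    (optionEquivLeft k I).injective ?_, fun h => h2 ?_⟩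
  · rw [map_mul, map_pow, optionEquivLeft_X_none, AlgEquiv.apply_symm_apply]
    simpa using h1
  · have key : ∀ Q : MvPolynomial (Option I) k, aeval (fun o : Option I => o.elim 0 u) Q =
        aeval u ((optionEquivLeft k I Q).eval 0) := by
      intro Q
      induction Q using MvPolynomial.induction_on with
      | C c => simp [optionEquivLeft_C]
      | add P Q hP hQ => simp [hP, hQ]
      | mul_X P i hP =>
        cases i <;> simp [hP, optionEquivLeft_X_none, optionEquivLeft_X_some]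
    rw [key, AlgEquiv.apply_symm_apply] at h
    exact Polynomial.dvd_iff_isRoot.2 (hu.eq_zero_of_aeval_eq_zero _ h)

end M2

open M2 in
theorem st_M2 {k : Type} [Field k] : St_M2 k := by
  intro K L _ _ _ _ d S ρ s v F F' hρ hs hv hind hF ht hF' hX K₀ hK
  let x : Option (Fin (d + 1)) → K := fun o => o.elim s v
  let y0 : Option (Fin (d + 1)) → L := fun o => o.elim 0 fun i => ρ (v i)
  let c := algebraMap L (RatFunc L)
  let y : ℕ → Option (Fin (d + 1)) → RatFunc L := fun M o =>
    o.elim (c (ρ (v 0)) ^ M * RatFunc.X) fun i => c (ρ (v i))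
  have s1 : S.Ge 1 s := Place.ge_of_le hs.ge
  have s0 : s ≠ 0 := fun h => by simp [h] at hs
  have t0 : ρ (v 0) ≠ 0 := fun h => by simp [h] at ht
  have hx : ∀ o, S.Ge 0 (x o) := fun o => by
    cases o
    · exact s1.mono (by norm_num)
    · exact hv _
  have ρ0 : ρ 0 = 0 := (hρ.zero 0 (by simp)).2 (by simp)
  have hres : ∀ P, S.Ge 0 (aeval x P) ∧ ρ (aeval x P) = aeval y0 P := fun P => by
    have := res_aeval hρ hx P
    have e : (fun o => ρ (x o)) = y0 := funext fun o => by
      cases o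
      · exact (hρ.zero s (hx none)).2 s1
      · rfl
    rwa [e] at this
  have hord : ∀ P, aeval y0 P ≠ 0 → aeval x P ≠ 0 ∧ S.ord (aeval x P) = 0 := fun P h => by
    rw [← (hres P).2, Ne, hρ.zero _ (hres P).1, Place.not_ge_iff] at h
    have := (hres P).1.le h.1
    exact ⟨h.1, by omega⟩
  have ix : AlgebraicIndependent k x := by
    refine algebraicIndependent_iff.2 fun P hP => by_contra fun h => ?_
    obtain ⟨n, Q, rfl, hQ⟩ := factor hind h
    rw [map_mul, map_pow, aeval_X] at hP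
    exact mul_ne_zero (pow_ne_zero _ s0) (hord Q hQ).1 hP
  have c0 : c (ρ (v 0)) ≠ 0 := by simpa [c] using t0
  have iy : ∀ M, Function.Injective (aeval (y M) : MvPolynomial _ k →ₐ[k] RatFunc L) := by
    intro M
    refine algebraicIndependent_iff.2 fun P hP => by_contra fun h => ?_
    obtain ⟨n, Q, rfl, hQ⟩ := factor hind h
    rw [map_mul, map_pow, aeval_X] at hP
    refine mul_ne_zero (pow_ne_zero _ (mul_ne_zero (pow_ne_zero _ c0) RatFunc.X_ne_zero))
      (fun h' => hQ ?_) hP
    let y' : Option (Fin (d + 1)) → Polynomial L := fun o =>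
      o.elim (Polynomial.C (ρ (v 0)) ^ M * Polynomial.X) fun i => Polynomial.C (ρ (v i))
    have e1 : ∀ Q : MvPolynomial (Option (Fin (d + 1))) k,
        aeval (y M) Q = algebraMap (Polynomial L) (RatFunc L) (aeval y' Q) ∧
        (aeval y' Q).eval 0 = aeval y0 Q := by
      intro Q
      induction Q using MvPolynomial.induction_on with
      | C a =>
        simp only [algHom_C]
        exact ⟨IsScalarTower.algebraMap_apply _ _ _ _, by simp [Polynomial.algebraMap_apply]⟩
      | add P Q hP hQ => simp [hP, hQ]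
      | mul_X P i hP =>
        simp only [map_mul, aeval_X, hP, Polynomial.eval_mul]
        cases i <;> simp [y, y', y0, c]
    rw [(e1 Q).1, map_eq_zero_iff _ (IsFractionRing.injective _ _)] at h'
    change aeval y0 Q = 0
    rw [← (e1 Q).2, h', Polynomial.eval_zero]
  have hr : insert s (Set.range v) = Set.range x := by
    rw [Option.range_eq]; rfl
  rw [hr] at hK
  subst hK
  let ι : ℕ → IntermediateField.adjoin k (Set.range x) →ₐ[k] RatFunc L := fun M =>
    (IsFractionRing.liftAlgHom (K := FractionRing (MvPolynomial (Option (Fin (d + 1))) k))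
      (iy M)).comp ix.aevalEquivField.symm.toAlgHom
  have hι : ∀ (M : ℕ) (P : MvPolynomial (Option (Fin (d + 1))) k)
      (a : IntermediateField.adjoin k (Set.range x)), (a : K) = aeval x P →
      ι M a = aeval (y M) P := by
    intro M P a ha
    have : a = ix.aevalEquivField (algebraMap _ _ P) :=
      Subtype.ext (by rw [ha, AlgebraicIndependent.aevalEquivField_algebraMap_apply_coe])
    simp [ι, this]
  refine ⟨ι, fun M a ha => ?_, fun M a i ha => ?_, fun a ha => ?_⟩
  · rw [hι M (X none) a (by rw [aeval_X]; exact ha), aeval_X]; rfl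
  · rw [hι M (X (some i)) a (by rw [aeval_X]; exact ha), aeval_X]; rfl
  by_cases a0 : a = 0
  · exact ⟨0, fun M _ => by simp [a0, ρ0]⟩
  obtain ⟨P, Q, hQ, hPQ⟩ : ∃ P Q, aeval y0 Q ≠ 0 ∧ (a : K) * aeval x Q = aeval x P := by
    obtain ⟨P, Q, e⟩ := (IntermediateField.mem_adjoin_range_iff k x a).1 a.2
    have a0' : (a : K) ≠ 0 := fun h => a0 (Subtype.ext h)
    have P0 : P ≠ 0 := fun h => a0' (by simp [e, h])
    have Q0 : Q ≠ 0 := fun h => a0' (by simp [e, h])
    obtain ⟨n, P, rfl, hP⟩ := factor hind P0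
    obtain ⟨m, Q, rfl, hQ⟩ := factor hind Q0
    have p1 := hord P hP
    have q1 := hord Q hQ
    simp only [map_mul, map_pow, aeval_X] at e
    change (a : K) = s ^ n * _ / (s ^ m * _) at e
    have h1 := ha.le a0'
    rw [e, S.ord_div (mul_ne_zero (pow_ne_zero _ s0) p1.1) (mul_ne_zero (pow_ne_zero _ s0) q1.1),
      S.ord_mul (pow_ne_zero _ s0) p1.1, S.ord_mul (pow_ne_zero _ s0) q1.1, p1.2, q1.2,
      S.ord_pow, S.ord_pow, hs] at h1
    obtain ⟨l, rfl⟩ : ∃ l, n = m + l := ⟨n - m, by omega⟩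
    refine ⟨X none ^ l * P, Q, hQ, ?_⟩
    simp only [map_mul, map_pow, aeval_X]
    change _ = s ^ l * _
    have := q1.1
    rw [e]; field_simp; ring
  have hc : ∀ P : MvPolynomial (Option (Fin (d + 1))) k,
      c (aeval y0 P) = aeval (fun o => c (y0 o)) P := fun P =>
    comp_aeval_apply y0 (IsScalarTower.toAlgHom k L (RatFunc L)) P
  have gc : ∀ (n : ℤ) (l : L), F.Ge n l → F'.Ge n (c l) := fun n l h => by
    rcases Place.ge_iff'.1 h with rfl | h
    · simp
    · exact Place.ge_of_le (by rw [hF']; exact h)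
  have z0 : ∀ o, F'.Ge 0 (c (y0 o)) := fun o => by
    cases o
    · simp [y0]
    · exact gc _ _ (hF _)
  have est : ∀ (M : ℕ) (P : MvPolynomial (Option (Fin (d + 1))) k),
      F'.Ge 0 (c (aeval y0 P)) ∧ F'.Ge M (aeval (y M) P - c (aeval y0 P)) := by
    intro M P
    have tM : F'.Ge M (c (ρ (v 0)) ^ M * RatFunc.X) :=
      ((gc 1 _ (Place.ge_of_le ht.ge)).pow M).mul' hX (by simp)
    rw [hc]
    refine ge_aeval (fun o => ?_) z0 (fun o => ?_) P <;> cases o
    · exact tM.mono (by simp)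
    · exact gc _ _ (hF _)
    · simpa [y, y0] using tM
    · simp [y, y0]
  have q0 : c (aeval y0 Q) ≠ 0 := (map_ne_zero c).2 hQ
  obtain ⟨e, he⟩ := Int.eq_ofNat_of_zero_le ((est 0 Q).1.le q0)
  refine ⟨2 * e + 1, fun M hM => ?_⟩
  obtain ⟨q1, q2⟩ := Place.ord_eq_of_ge_sub q0 ((est M Q).2.mono (by omega))
  have e1 : ι M a * aeval (y M) Q = aeval (y M) P := by
    have mem : ∀ P : MvPolynomial (Option (Fin (d + 1))) k,
        aeval x P ∈ IntermediateField.adjoin k (Set.range x) := fun P =>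
      (IntermediateField.mem_adjoin_range_iff k x _).2 ⟨P, 1, by simp⟩
    rw [← hι M Q ⟨_, mem Q⟩ rfl, ← map_mul]
    exact hι M P _ hPQ
  have e2 : c (ρ a) * c (aeval y0 Q) = c (aeval y0 P) := by
    rw [← map_mul, ← (hres Q).2, ← hρ.mul _ _ ha (hres Q).1, hPQ, (hres P).2]
  have e3 : ι M a - c (ρ a) = (aeval (y M) P - c (aeval y0 P)) * (aeval (y M) Q)⁻¹ -
      c (aeval y0 P) * (aeval (y M) Q - c (aeval y0 Q)) * (aeval (y M) Q)⁻¹ *
        (c (aeval y0 Q))⁻¹ := by
    rw [← e1, ← e2]; field_simp; ring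
  have i1 : F'.Ge (-e) (aeval (y M) Q)⁻¹ := Place.ge_of_le (by rw [Place.ord_inv, q2, he])
  have i2 : F'.Ge (-e) (c (aeval y0 Q))⁻¹ := Place.ge_of_le (by rw [Place.ord_inv, he])
  change F'.Ge _ (ι M a - c (ρ a))
  rw [e3]
  exact ((est M P).2.mul' i1 (by push_cast; omega)).sub
    (((((est M P).1.mul (est M Q).2).mul i1)).mul' i2 (by push_cast; omega))

end Pool.Agent.Lib.MP_5f81cf_ag.Full
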