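import Pool.Agent.Lib.MP_5f81cf_ag.ResBlue

/-! Differentials are generated by those of generators of the maximal ideal. -/

namespace Pool.Agent.Lib.MP_5f81cf_ag.Full.Res

open Pool.Agent.Lib.MP_e06174_ag

namespace A2

variable {k : Type} [Field k] {L : Type} [Field L] [Algebra k L] {O : Subalgebra k L}
  {W : Type} [AddCommGroup W] [Module L W] [Module k W] [IsScalarTower k L W]
  (d : Derivation k L W)

omit [Module k W] [IsScalarTower k L W] in
theorem smul_mem' {N : Submodule O W} {a : L} (ha : a ∈ O) {ω : W} (h : ω ∈ N) :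
    a • ω ∈ N := N.smul_mem (⟨a, ha⟩ : O) h

theorem exists_fg (hO : IsLoc O) : ∃ T : Finset L, (∀ g ∈ T, g ∈ O) ∧ ∀ f ∈ O,
    d f ∈
      Submodule.span O (d '' (T : Set L)) := by
  obtain ⟨A, ⟨T, rfl⟩, hAO, hA⟩ := hO.fg
  have h1 : ∀ f ∈ Algebra.adjoin k (T : Set L), d f ∈
      Submodule.span O (d '' (T : Set L)) := by
    intro f hf
    induction hf using Algebra.adjoin_induction with
    | mem x hx => exact Submodule.subset_span ⟨x, hx, rfl⟩
    | algebraMap c => simp
    | add x y _ _ hx hy => rw [map_add]; exact add_mem hx hy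
    | mul x y hx' hy' hx hy =>
      rw [Derivation.leibniz]
      exact add_mem (smul_mem' (hAO hx') hy) (smul_mem' (hAO hy') hx)
  refine ⟨T, fun g hg => hAO (Algebra.subset_adjoin hg), fun f hf => ?_⟩
  obtain ⟨s, hs, hu, hfs⟩ := hA f hf
  have h2 : d f =
      s⁻¹ • (d (f * s) - f • d s) := by
    rw [Derivation.leibniz, add_sub_cancel_left, smul_smul, inv_mul_cancel₀ hu.2.1, one_smul]
  rw [h2]
  exact smul_mem' hu.2.2 (sub_mem (h1 _ hfs) (smul_mem' hf (h1 _ hs)))

theorem mem_span (h : RA1 k) (hO : IsLoc O) {S : Set L} (hS : mx O = gen O S) {f : L}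
    (hf : f ∈ O) :
    d f ∈ Submodule.span O (d '' S) := by
  obtain ⟨T, hT, hM⟩ := exists_fg d hO
  have := h.isLocal hO
  set M := Submodule.span O (d '' (T : Set L))
  set N := Submodule.span O (d '' S)
  have h1 : ∀ g ∈ Submodule.span k S, d g ∈ N := by
    intro g hg
    induction hg using Submodule.span_induction with
    | mem x hx => exact Submodule.subset_span ⟨x, hx, rfl⟩
    | zero => simp
    | add x y _ _ hx hy => rw [map_add]; exact add_mem hx hy
    | smul c x _ hx =>
      rw [Derivation.map_smul, ← algebraMap_smul L c]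
      exact smul_mem' (O.algebraMap_mem c) hx
  have h2 : ∀ g ∈ gen O S, d g ∈ N ⊔ IsLocalRing.maximalIdeal O • M := by
    intro g hg
    refine Submodule.mul_induction_on hg (fun a ha x hx => ?_) fun x y hx hy => ?_
    · rw [Derivation.leibniz]
      have hx' : x ∈ mx O := hS ▸ le_mul_self _ hx
      refine Submodule.add_mem_sup (smul_mem' ha (h1 x hx)) ?_
      exact Submodule.smul_mem_smul (r := (⟨x, mx_le hx'⟩ : O))
        ((h.maxi hO ⟨x, mx_le hx'⟩).2 hx') (hM a ha)
    · rw [map_add]; exact add_mem hx hy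
  have h3 : M ≤ N ⊔ IsLocalRing.maximalIdeal O • M := by
    refine Submodule.span_le.2 ?_
    rintro _ ⟨g, hg, rfl⟩
    obtain ⟨c, hc⟩ := hO.res g (hT g hg)
    have := h2 _ (hS ▸ hc)
    simpa using this
  have h4 : M ≤ N := Submodule.le_of_le_smul_of_le_jacobson_bot
    (Submodule.fg_span (T.finite_toSet.image _)) (IsLocalRing.maximalIdeal_le_jacobson _) h3
  exact h4 (hM f hf)

omit [Module k W] [IsScalarTower k L W] in
theorem lift_smul {M : Type} [AddCommGroup M] [Module L M] (φ : W →ₗ[L] M) (c : O) (ω : W) :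
    φ (c • ω) = (c : L) • φ ω := φ.map_smul (c : L) ω

end A2

open A2 in
theorem blk_A2 {k : Type} [Field k] [IsAlgClosed k] {p : ℕ} [Fact p.Prime] [CharP k p]
    (_hp : p ≠ 2) (h : RA1 k) : RA2 k where
  grad := by
    intro L _ _ O hO S hS f hf
    obtain ⟨c, hc⟩ := (Submodule.mem_span_image_finset_iff_exists_fun' _).1
      (mem_span (KaehlerDifferential.D k L) h hO hS hf)
    refine ⟨fun g => c g, fun g _ => (c g).2, fun M _ _ _ _ D => ?_⟩
    have := congrArg D.liftKaehlerDifferential hc
    simp only [map_sum, lift_smul, Derivation.liftKaehlerDifferential_comp_D] at this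
    exact this.symm
  grad2 := by
    intro L _ _ O x y hO hS f hf
    have := mem_span (KaehlerDifferential.D k L) h hO hS hf
    rw [Set.image_pair, Submodule.mem_span_pair] at this
    obtain ⟨c, d, e⟩ := this
    refine ⟨c, c.2, d, d.2, fun M _ _ _ _ D => ?_⟩
    have := congrArg D.liftKaehlerDifferential e
    simp only [map_add, lift_smul, Derivation.liftKaehlerDifferential_comp_D] at this
    exact this.symm
  grad3 := by
    intro L _ _ O x y z hO hS f hf
    have := mem_span (KaehlerDifferential.D k L) h hO hS hf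
    rw [Set.image_insert_eq, Set.image_pair, Submodule.mem_span_triple] at this
    obtain ⟨c, d, e, he⟩ := this
    refine ⟨c, c.2, d, d.2, e, e.2, fun M _ _ _ _ D => ?_⟩
    have := congrArg D.liftKaehlerDifferential he
    simp only [map_add, lift_smul, Derivation.liftKaehlerDifferential_comp_D] at this
    exact this.symm

end Pool.Agent.Lib.MP_5f81cf_ag.Full.Res
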