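import Pool.Agent.Lib.MP_5f81cf_ag.ResBlue

/-! The origin of the affine plane. -/

namespace Pool.Agent.Lib.MP_5f81cf_ag.Full.Res

open Pool.Agent.Lib.MP_e06174_ag MvPolynomial
open scoped nonZeroDivisors

namespace Base

variable {k K : Type} [Field k] [Field K] [Algebra k K]

lemma split (P : MvPolynomial (Fin 2) k) :
    ∃ c d : MvPolynomial (Fin 2) k, P = C (constantCoeff P) + c * X 0 + d * X 1 := by
  induction P using MvPolynomial.induction_on with
  | C a => exact ⟨0, 0, by simp⟩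
  | add P Q hP hQ =>
    obtain ⟨c, d, e⟩ := hP
    obtain ⟨c', d', e'⟩ := hQ
    exact ⟨c + c', d + d', by rw [map_add, map_add]; linear_combination e + e'⟩
  | mul_X P i _ =>
    fin_cases i
    · exact ⟨P, 0, by simp⟩
    · exact ⟨0, P, by simp⟩

/-- Polynomials with nonzero constant term. -/
def SS (k : Type) [Field k] : Submonoid (MvPolynomial (Fin 2) k) where
  carrier := {Q | constantCoeff Q ≠ 0}
  mul_mem' := fun {P Q} (hP : constantCoeff P ≠ 0) (hQ : constantCoeff Q ≠ 0) =>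
    show constantCoeff (P * Q) ≠ 0 by rw [map_mul]; exact mul_ne_zero hP hQ
  one_mem' := show constantCoeff (1 : MvPolynomial (Fin 2) k) ≠ 0 by simp

lemma SS_le : SS k ≤ (MvPolynomial (Fin 2) k)⁰ := fun Q (hQ : constantCoeff Q ≠ 0) =>
  mem_nonZeroDivisors_of_ne_zero fun h => hQ (by rw [h, map_zero])

lemma main (a b : K) [Algebra (MvPolynomial (Fin 2) k) K]
    [IsScalarTower k (MvPolynomial (Fin 2) k) K] [IsFractionRing (MvPolynomial (Fin 2) k) K]
    (hφ : ∀ P : MvPolynomial (Fin 2) k, algebraMap _ K P = aeval ![a, b] P) :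
    ∃ B : Subalgebra k K, IsReg B a b ∧ ∀ f ∈ B, ∃ s ∈ Algebra.adjoin k {a, b},
      (∃ c : k, c ≠ 0 ∧ s - algebraMap k K c ∈ gen (Algebra.adjoin k {a, b}) {a, b}) ∧
      s ≠ 0 ∧ f * s ∈ Algebra.adjoin k {a, b} := by
  classical
  set φ := algebraMap (MvPolynomial (Fin 2) k) K with hφd
  have inj : Function.Injective φ := IsFractionRing.injective _ _
  have ha : φ (X 0) = a := by rw [hφ]; simp
  have hb : φ (X 1) = b := by rw [hφ]; simp
  have hc : ∀ c : k, φ (C c) = algebraMap k K c := fun c => by rw [hφ]; simp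
  have hA : ∀ P, φ P ∈ Algebra.adjoin k {a, b} := fun P => by
    have : ({a, b} : Set K) = Set.range ![a, b] := by simp [Set.pair_comm]
    rw [this, Algebra.adjoin_range_eq_range_aeval, hφ]
    exact ⟨P, rfl⟩
  have hne : ∀ Q, constantCoeff Q ≠ 0 → φ Q ≠ 0 := fun Q hQ h =>
    hQ (by rw [inj (h.trans φ.map_zero.symm), map_zero])
  let B0 := Localization.subalgebra.ofField K (SS k) SS_le
  let B : Subalgebra k K := B0.restrictScalars k
  have hB : ∀ f, f ∈ B ↔ ∃ P Q, constantCoeff Q ≠ 0 ∧ f = φ P * (φ Q)⁻¹ := by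
    intro f
    constructor
    · rintro ⟨P, Q, h, e⟩
      exact ⟨P, Q, h, e⟩
    · rintro ⟨P, Q, h, e⟩
      exact ⟨P, Q, h, e⟩
  have hφB : ∀ P, φ P ∈ B := fun P => (hB _).2 ⟨P, 1, by simp, by simp⟩
  have hun : ∀ Q, constantCoeff Q ≠ 0 → Un B (φ Q) := fun Q hQ =>
    ⟨hφB Q, hne Q hQ, (hB _).2 ⟨1, Q, hQ, by simp⟩⟩
  have hsp : ∀ (A : Subalgebra k K), (∀ P, φ P ∈ A) → ∀ P,
      φ P - algebraMap k K (constantCoeff P) ∈ gen A {a, b} := fun A hA P => by
    obtain ⟨c, d, e⟩ := split P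
    refine mem_gen_two.2 ⟨_, hA c, _, hA d, ?_⟩
    have := congrArg φ e
    rw [map_add, map_add, map_mul, map_mul, ha, hb, hc] at this
    linear_combination this
  have hg1 : ∀ P Q, constantCoeff Q ≠ 0 → constantCoeff P = 0 →
      φ P * (φ Q)⁻¹ ∈ gen B {a, b} := fun P Q hQ hP => by
    have := hsp B hφB P
    rw [hP, map_zero, sub_zero] at this
    rw [mul_comm]
    exact isMod_gen _ _ (hun Q hQ).2.2 _ this
  have hg2 : ∀ f ∈ gen B {a, b}, f ∈ B ∧ (f = 0 ∨ f⁻¹ ∉ B) := fun f hf => by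
    obtain ⟨c, hc', d, hd', rfl⟩ := mem_gen_two.1 hf
    refine ⟨add_mem (mul_mem hc' (ha ▸ hφB _)) (mul_mem hd' (hb ▸ hφB _)), ?_⟩
    by_contra hn
    push Not at hn
    obtain ⟨P1, Q1, h1, rfl⟩ := (hB _).1 hc'
    obtain ⟨P2, Q2, h2, rfl⟩ := (hB _).1 hd'
    obtain ⟨P3, Q3, h3, e⟩ := (hB _).1 hn.2
    have e1 := mul_inv_cancel₀ hn.1
    rw [e] at e1
    have n1 := hne _ h1
    have n2 := hne _ h2
    have n3 := hne _ h3
    have e2 : φ ((P1 * Q2 * X 0 + P2 * Q1 * X 1) * P3) = φ (Q1 * Q2 * Q3) := by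
      simp only [map_mul, map_add, ha, hb]
      field_simp at e1
      linear_combination e1
    have e3 := congrArg constantCoeff (inj e2)
    simp [h1, h2, h3] at e3
  have hmx : mx B = gen B {a, b} := by
    refine le_antisymm (Submodule.span_le.2 ?_) fun f hf => mem_mx_of (hg2 f hf).1 (hg2 f hf).2
    rintro f ⟨hf, hf'⟩
    obtain ⟨P, Q, hQ, rfl⟩ := (hB _).1 hf
    refine hg1 P Q hQ (by_contra fun hP => ?_)
    have hu := (hun P hP).mul (hun Q hQ).inv
    exact hf'.elim hu.2.1 fun h => h hu.2.2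
  have hess : Algebra.EssFiniteType k K := by
    have := Algebra.EssFiniteType.of_isLocalization K (MvPolynomial (Fin 2) k)⁰
    exact Algebra.EssFiniteType.comp k (MvPolynomial (Fin 2) k) K
  have hdim : Algebra.trdeg k K = 2 := by
    have := IsLocalization.isAlgebraic K (MvPolynomial (Fin 2) k)⁰
    rw [← trdeg_add_eq k (MvPolynomial (Fin 2) k), trdeg_eq_zero (R := MvPolynomial (Fin 2) k)]
    simp
  refine ⟨B, ⟨⟨⟨hess, hdim, ⟨Algebra.adjoin k {a, b}, ?_, ?_, ?_⟩, ?_, ?_, ?_⟩, ?_⟩, hmx⟩, ?_⟩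
  · exact Subalgebra.fg_def.2 ⟨_, Set.toFinite _, rfl⟩
  · refine Algebra.adjoin_le ?_
    rintro g (rfl | rfl)
    · exact ha ▸ hφB _
    · exact hb ▸ hφB _
  · intro f hf
    obtain ⟨P, Q, hQ, rfl⟩ := (hB _).1 hf
    exact ⟨_, hA Q, hun Q hQ, by rw [inv_mul_cancel_right₀ (hne Q hQ)]; exact hA P⟩
  · intro f
    obtain ⟨P, Q, hQ, rfl⟩ := IsFractionRing.div_surjective (MvPolynomial (Fin 2) k) f
    have h0 : φ Q ≠ 0 := fun h =>
      nonZeroDivisors.ne_zero hQ (inj (h.trans φ.map_zero.symm))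
    exact ⟨_, hφB Q, h0, by rw [div_mul_cancel₀ _ h0]; exact hφB P⟩
  · intro f hf
    exact (hg2 f (hmx ▸ hf)).2
  · intro f hf
    obtain ⟨P, Q, hQ, rfl⟩ := (hB _).1 hf
    refine ⟨constantCoeff P / constantCoeff Q, ?_⟩
    have := hg1 (P - C (constantCoeff P / constantCoeff Q) * Q) Q hQ (by simp [hQ])
    rw [map_sub, map_mul, hc, sub_mul, mul_inv_cancel_right₀ (hne Q hQ)] at this
    rwa [hmx]
  · intro f hf
    have : IsIntegrallyClosed B0 := isIntegrallyClosed_of_isLocalization B0 (SS k) SS_le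
    let ψ : B →+* B0 := (B.val.toRingHom).codRestrict B0 fun x => x.2
    have h1 : IsIntegral B0 f :=
      IsIntegral.map_of_comp_eq ψ (RingHom.id K) (RingHom.ext fun _ => rfl) hf
    obtain ⟨y, rfl⟩ := (isIntegrallyClosed_iff K).1 this h1
    exact y.2
  · intro f hf
    obtain ⟨P, Q, hQ, rfl⟩ := (hB _).1 hf
    exact ⟨_, hA Q, ⟨_, hQ, hsp _ hA Q⟩, hne Q hQ,
      by rw [inv_mul_cancel_right₀ (hne Q hQ)]; exact hA P⟩

end Base

theorem blk_Base {k : Type} [Field k] [IsAlgClosed k] {p : ℕ} [Fact p.Prime] [CharP k p]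
    (hp : p ≠ 2) (h : Lv1 k p) : St_Base k := by
  intro K _ _ a b hi ht
  let _ : Algebra (MvPolynomial (Fin 2) k) K := (aeval ![a, b]).toRingHom.toAlgebra
  have : IsScalarTower k (MvPolynomial (Fin 2) k) K :=
    IsScalarTower.of_algebraMap_eq fun c => ((aeval ![a, b]).commutes c).symm
  have : FaithfulSMul (MvPolynomial (Fin 2) k) K :=
    (faithfulSMul_iff_algebraMap_injective _ _).2 hi
  have : IsFractionRing (MvPolynomial (Fin 2) k) K := IsFractionRing.of_field _ _ fun z =>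
    (IntermediateField.mem_adjoin_range_iff k _ z).1 (ht ▸ IntermediateField.mem_top)
  exact Base.main a b fun _ => rfl

end Pool.Agent.Lib.MP_5f81cf_ag.Full.Res
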