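import Pool.Agent.Lib.MP_5f81cf_ag.ResH

/-! Dicritical places and chains of quadratic transforms. -/

namespace Pool.Agent.Lib.MP_5f81cf_ag.Full.Res

open Pool.Agent.Lib.MP_e06174_ag IsLocalRing Polynomial

namespace D

variable {k : Type} [Field k] {p : ℕ} [Fact p.Prime] {L : Type} [Field L] [Algebra k L]
  {O : Subalgebra k L} {F : Place k L} {V : ValuationSubring L} {f : L}

theorem div_unit {a b : O} (hb : IsUnit b) : (a : L) / b ∈ O := by
  obtain ⟨c, hc⟩ := hb.exists_right_inv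
  have h1 : (b : L) * c = 1 := by exact_mod_cast congrArg Subtype.val hc
  rw [div_eq_mul_inv, ← eq_inv_of_mul_eq_one_right h1]
  exact mul_mem a.2 c.2

theorem lemU [IsLocalRing O] (hO : IsPt O) (n : ℕ) : ∀ P : O[X], P.natDegree ≤ n →
    aeval f P = 0 → (∃ i, IsUnit (P.coeff i)) → f ∈ O ∨ f⁻¹ ∈ O := by
  induction n with
  | zero =>
    rintro P hP h0 ⟨i, hi⟩
    rw [eq_C_of_natDegree_le_zero hP, aeval_C] at h0
    have h1 : P.coeff 0 = 0 := Subtype.ext h0
    have h2 : P = 0 := by rw [eq_C_of_natDegree_le_zero hP, h1, map_zero]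
    rw [h2, coeff_zero] at hi
    exact absurd hi not_isUnit_zero
  | succ n ih =>
    rintro P hP h0 ⟨i, hi⟩
    rcases hP.lt_or_eq with h1 | h1
    · exact ih P (by omega) h0 ⟨i, hi⟩
    rcases eq_or_ne f 0 with rfl | hf0
    · exact Or.inl (zero_mem _)
    have h2 : IsIntegral O (P.leadingCoeff • f) := isIntegral_leadingCoeff_smul P f h0
    let d : O := ⟨_, hO.normal _ h2⟩
    have hd : (d : L) = (P.coeff (n + 1) : L) * f := by
      rw [← h1]
      rfl
    let P' : O[X] := P - C (P.coeff (n + 1)) * X ^ (n + 1) + C d * X ^ n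
    have hc : ∀ j, P'.coeff j = P.coeff j - (if j = n + 1 then P.coeff (n + 1) else 0) +
        (if j = n then d else 0) := by
      intro j
      simp only [P', coeff_add, coeff_sub, coeff_C_mul_X_pow]
    have h3 : P'.natDegree ≤ n := by
      rw [natDegree_le_iff_coeff_eq_zero]
      intro j hj
      rw [hc, if_neg (show j ≠ n by omega)]
      by_cases h4 : j = n + 1
      · rw [if_pos h4, h4]; simp
      · rw [if_neg h4, coeff_eq_zero_of_natDegree_lt (by omega)]; simp
    have h4 : aeval f P' = 0 := by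
      simp only [P', map_add, map_sub, map_mul, aeval_C, map_pow, aeval_X, h0]
      change 0 - (P.coeff (n + 1) : L) * f ^ (n + 1) + (d : L) * f ^ n = 0
      rw [hd]
      ring
    rcases lt_trichotomy i n with h5 | h5 | h5
    · refine ih P' h3 h4 ⟨i, ?_⟩
      rw [hc, if_neg (by omega), if_neg (by omega)]
      simpa using hi
    · subst h5
      by_cases h6 : IsUnit d
      · right
        have h7 : (d : L) ≠ 0 := fun h => h6.ne_zero (Subtype.ext h)
        have h8 : f⁻¹ = (P.coeff (i + 1) : L) / d := by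
          rw [eq_div_iff h7, hd]
          field_simp
        rw [h8]
        exact div_unit h6
      · refine ih P' h3 h4 ⟨i, ?_⟩
        rw [hc, if_neg (by omega), if_pos rfl, sub_zero]
        by_contra h7
        have h8 := (maximalIdeal O).sub_mem ((mem_maximalIdeal _).mpr h7)
          ((mem_maximalIdeal _).mpr h6)
        rw [add_sub_cancel_right] at h8
        exact h8 hi
    · by_cases h6 : i = n + 1
      · left
        subst h6
        have h7 : (P.coeff (n + 1) : L) ≠ 0 := fun h => hi.ne_zero (Subtype.ext h)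
        have h8 : f = (d : L) / (P.coeff (n + 1) : L) := by
          rw [eq_div_iff h7, hd, mul_comm]
        rw [h8]
        exact div_unit hi
      · rw [coeff_eq_zero_of_natDegree_lt (by omega)] at hi
        exact absurd hi not_isUnit_zero

theorem ex (h : Lv1 k p) (hO : IsPt O) (h1 : f ∉ O) (h2 : f⁻¹ ∉ O) :
    ∃ F : Place k L, DomP O F ∧ Dic F f := by
  have hL := hO.toIsLoc
  have := h.ra.isLocal hL
  have := hL.ess
  let A : Subalgebra k L := (aeval f : O[X] →ₐ[O] L).range.restrictScalars k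
  let φ : O[X] →+* A := (aeval f : O[X] →ₐ[O] L).toRingHom.codRestrict A (fun P => ⟨P, rfl⟩)
  have hφ : Function.Surjective φ := by
    rintro ⟨_, P, rfl⟩
    exact ⟨P, rfl⟩
  have hφv : ∀ P, (φ P : L) = aeval f P := fun _ => rfl
  let M : Ideal O[X] := (maximalIdeal O).map (C : O →+* O[X])
  have hM : M.IsPrime := Ideal.isPrime_map_C_of_isPrime
  have hker : RingHom.ker φ ≤ M := by
    intro P hP
    rw [Ideal.mem_map_C_iff]
    intro i
    by_contra h3
    have h4 : aeval f P = 0 := congrArg Subtype.val hP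
    exact (lemU hO _ P le_rfl h4 ⟨i, notMem_maximalIdeal.mp h3⟩).elim h1 h2
  have hP : (M.map φ).IsPrime := Ideal.map_isPrime_of_surjective hφ hker
  obtain ⟨W, hW1, hW2, hW3⟩ := H.exists_val (M.map φ)
  have hOW : ∀ g ∈ O, g ∈ W := fun g hg => hW1 g ⟨C ⟨g, hg⟩, aeval_C _ _⟩
  have hmW : ∀ g ∈ mx O, g ∈ W.nonunits := by
    intro g hg
    have h3 := hW2 _ (Ideal.mem_map_of_mem φ (Ideal.mem_map_of_mem (C : O →+* O[X])
      ((h.ra.maxi hL ⟨g, mx_le hg⟩).mpr hg)))
    rwa [hφv, aeval_C] at h3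
  have hfW : f ∈ W := hW1 f ⟨X, aeval_X _⟩
  have hcW : ∀ c : k, f - algebraMap k L c ∉ W.nonunits := by
    intro c
    have h3 := hW3 (φ (X - C (algebraMap k O c))) (fun h0 => by
      have h4 : X - C (algebraMap k O c) ∈ (M.map φ).comap φ := h0
      rw [Ideal.comap_map_of_surjective φ hφ, sup_eq_left.mpr (show Ideal.comap φ ⊥ ≤ M from hker),
        Ideal.mem_map_C_iff] at h4
      have h5 := h4 1
      simp only [coeff_sub, coeff_X_one, coeff_C_succ, sub_zero] at h5
      exact h5 isUnit_one)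
    rwa [hφv, map_sub, aeval_X, aeval_C] at h3
  obtain ⟨g, hg, hg0⟩ := h.ra.mx_ne hL
  obtain ⟨F, rfl⟩ := h.rv.place2 W f hL.dim (fun c => hOW _ (O.algebraMap_mem c))
    (by
      rintro rfl
      exact ((ValuationSubring.mem_nonunits_iff_or _).mp (hmW g hg)).elim hg0
        (fun h0 => h0 trivial)) hfW hcW
  exact ⟨F, domP_iff.mpr ⟨hOW, hmW⟩, Place.mem_O.mp hfW, fun c h0 => hcW c (H.ge_one_iff.mp h0)⟩

theorem fin (h : Lv1 k p) (f : L) (hO : IsLoc O) :
    {F : Place k L | DomP O F ∧ Dic F f}.Finite := by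
  have := hO.ess
  obtain ⟨g, hg, hg0⟩ := h.ra.mx_ne hO
  exact (h.rv.fin2 g f hO.dim hg0).subset (fun F hF => ⟨hF.1.2 g hg, hF.2⟩)

theorem not_mem (hO : IsLoc O) (hF : DomP O F) {z : L} (hz : Dic F z) : z ∉ O ∧ z⁻¹ ∉ O := by
  refine ⟨fun h0 => ?_, fun h0 => ?_⟩
  · obtain ⟨c, hc⟩ := hO.res z h0
    exact hz.2 c (hF.2 _ hc)
  · obtain ⟨c, hc⟩ := hO.res _ h0
    have h1 := hF.2 _ hc
    obtain ⟨hz0, hz1⟩ := hz.ord
    by_cases h2 : c = 0
    · rw [h2, map_zero, sub_zero] at h1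
      have h3 := h1.le (inv_ne_zero hz0)
      rw [Place.ord_inv] at h3
      omega
    · refine hz.2 c⁻¹ ?_
      have h3 : algebraMap k L c ≠ 0 := by simpa using h2
      have h4 : z - algebraMap k L c⁻¹ =
          -(z * algebraMap k L c⁻¹ * (z⁻¹ - algebraMap k L c)) := by
        rw [map_inv₀]
        field_simp
        ring
      rw [h4]
      exact ((hz.1.mul (Place.ge_const _)).mul' h1 (by simp)).neg

theorem leave (h : Lv2 k p) (hO : IsLoc O) (hV : Dom V O) (hK : ResK k V) (hF : Div F) :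
    ∃ i, ¬ DomP (ch O V i) F := by
  by_contra h0
  push Not at h0
  obtain ⟨z, hz⟩ := hF
  obtain ⟨hi, -⟩ := h.rq.ch_loc hO hV hK
  obtain ⟨s, hs, hs0, hzs⟩ := hO.frac z
  have key : ∀ i : ℕ, ∃ t ∈ ch O V i, t ≠ 0 ∧ z * t ∈ ch O V i ∧ F.ord t ≤ F.ord s - i := by
    intro i
    induction i with
    | zero => exact ⟨s, hs, hs0, hzs, by simp⟩
    | succ i ih =>
      obtain ⟨t, ht, ht0, hzt, hord⟩ := ih
      obtain ⟨hL, hD⟩ := hi i
      obtain ⟨h1, h2⟩ := not_mem hL (h0 i) hz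
      have hz0 := hz.ord.1
      have h3 : t ∈ mx (ch O V i) := (un_or_mx ht).resolve_left (fun hu => h1 (by
        have := mul_mem hzt hu.2.2
        rwa [mul_inv_cancel_right₀ ht0] at this))
      have h4 : z * t ∈ mx (ch O V i) := (un_or_mx hzt).resolve_left (fun hu => h2 (by
        have := mul_mem ht hu.2.2
        rwa [show t * (z * t)⁻¹ = z⁻¹ by field_simp] at this))
      obtain ⟨S, -, hS⟩ := h.ra.fgm hL _ hL.isMod_mx
        ⟨1, one_ne_zero, fun x hx => by rw [one_mul]; exact mx_le hx⟩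
      obtain ⟨b, -, hb⟩ := h.rq.ex_min hL hD S S.finite_toSet hS
      have h5 : ch O V (i + 1) = loc (chart (ch O V i) b) V := h.rq.qt_eq hD hb
      refine ⟨t / b, ?_, div_ne_zero ht0 hb.2.1, ?_, ?_⟩
      · rw [h5]
        exact le_loc _ _ (div_mem_chart h3)
      · rw [h5, ← mul_div_assoc]
        exact le_loc _ _ (div_mem_chart h4)
      · have h6 := ((h0 i).2 b hb.1).le hb.2.1
        rw [F.ord_div ht0 hb.2.1]
        push_cast
        omega
  obtain ⟨t, ht, ht0, -, hord⟩ := key ((F.ord s).toNat + 1)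
  have h1 := ((h0 _).1 t ht).le ht0
  push_cast at hord
  omega

theorem union (h : Lv2 k p) (hpt : ∀ i, IsPt (ch O V i)) (hV : Dom V O) (hK : ResK k V)
    (hf : f ∈ V) : ∃ i, f ∈ ch O V i := by
  by_contra h0
  push Not at h0
  have hO : IsLoc O := (hpt 0).toIsLoc
  obtain ⟨hi, hle⟩ := h.rq.ch_loc hO hV hK
  have hf0 : f ≠ 0 := fun h1 => h0 0 (h1 ▸ zero_mem _)
  have h1 : ∀ i, f⁻¹ ∉ ch O V i := fun i h2 => h0 i (by
    have := ((hi i).2.inv_mem h2 (by rwa [inv_inv]) (inv_ne_zero hf0)).2.2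
    rwa [inv_inv] at this)
  have h2 : ∀ i j, j ≤ i → ∀ F : Place k L, DomP (ch O V i) F → DomP (ch O V j) F :=
    fun i j hij F hF => ⟨fun g hg => hF.1 g (hle j i hij hg), fun g hg =>
      hF.2 g ((hi i).2.mem_mx (hle j i hij (mx_le hg)) ((hi j).2.2 g hg))⟩
  have h3 : ∀ F : Place k L, ∃ i, Dic F f → ¬ DomP (ch O V i) F := by
    intro F
    by_cases h4 : Dic F f
    · obtain ⟨i, h5⟩ := leave h hO hV hK ⟨f, h4⟩
      exact ⟨i, fun _ => h5⟩
    · exact ⟨0, fun h5 => absurd h5 h4⟩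
  choose n hn using h3
  obtain ⟨N, hN⟩ := ((fin h.toLv1 f hO).image n).bddAbove
  obtain ⟨F, hF1, hF2⟩ := ex h.toLv1 (hpt N) (h0 N) (h1 N)
  exact hn F hF2 (h2 N _ (hN ⟨F, ⟨h2 N 0 (Nat.zero_le _) F hF1, hF2⟩, rfl⟩) F hF1)

end D

theorem blk_D {k : Type} [Field k] [IsAlgClosed k] {p : ℕ} [Fact p.Prime] [CharP k p]
    (_hp : p ≠ 2) (h : Lv2 k p) : RD k where
  ex := fun hO h1 h2 => D.ex h.toLv1 hO h1 h2
  fin := fun f hO => D.fin h.toLv1 f hO
  leave := fun hO hV hK hF => D.leave h hO hV hK hF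
  union := fun hpt hV hK _ hf => D.union h hpt hV hK hf

end Pool.Agent.Lib.MP_5f81cf_ag.Full.Res
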