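import Pool.Agent.Lib.MP_5f81cf_ag.ResBlue

/-! Block DPend: double points with monomial ramification. -/

namespace Pool.Agent.Lib.MP_5f81cf_ag.Full.Res

open Pool.Agent.Lib.MP_e06174_ag

namespace DPend

variable {k : Type} [Field k] {p : ℕ} [Fact p.Prime] {L : Type} [Field L] [Algebra k L]
  {u : Fin 2 → L} {O : Subalgebra k L} {V : ValuationSubring L} {x y z θ η : L}

lemma quad (h : z ∈ Subalgebra.toSubmodule O * Submodule.span k {x, y} ^ 2) :
    ∃ α ∈ O, ∃ β ∈ O, ∃ γ ∈ O, z = α * x ^ 2 + β * (x * y) + γ * y ^ 2 := by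
  rw [← mem_gen_three]
  refine (isMod_gen (O := O) {x ^ 2, x * y, y ^ 2}).mul_le ?_ h
  rw [sq]
  refine Submodule.mul_le.2 fun a ha b hb => ?_
  obtain ⟨a1, a2, rfl⟩ := Submodule.mem_span_pair.1 ha
  obtain ⟨b1, b2, rfl⟩ := Submodule.mem_span_pair.1 hb
  refine mem_gen_three.2 ⟨_, O.algebraMap_mem (a1 * b1), _, O.algebraMap_mem (a1 * b2 + a2 * b1),
    _, O.algebraMap_mem (a2 * b2), ?_⟩
  simp only [Algebra.smul_def, map_mul, map_add]
  ring

lemma gen_eq {S T : Set L} (h1 : ∀ f ∈ S, f ∈ gen O T) (h2 : ∀ f ∈ T, f ∈ gen O S) :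
    gen O S = gen O T :=
  le_antisymm (gen_le (isMod_gen _) h1) (gen_le (isMod_gen _) h2)

lemma ord_zero {H : Place k L} (hH : Cont O H) (hy : y ∈ O) (h : ¬ H.Ge 1 y) :
    y ≠ 0 ∧ H.ord y = 0 := by
  obtain ⟨h1, h2⟩ := Place.not_ge_iff.1 h
  have := (hH y hy).le h1
  exact ⟨h1, by omega⟩

lemma ge_cancel {H : Place k L} {n m : ℤ} {a b : L} (ha : a ≠ 0) (h1 : H.ord a = m)
    (h : H.Ge (n + m) (b * a)) : H.Ge n b := by
  have := h.mul (Place.ge_ord (p := H) a⁻¹)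
  rw [mul_inv_cancel_right₀ ha, Place.ord_inv, h1] at this
  exact this.mono (by omega)

/-- The data after the normalisation of the third generator. -/
structure Dat (u : Fin 2 → L) (O : Subalgebra k L) (x y θ : L) : Prop where
  mx : mx O = gen O {x, y, θ}
  sq : θ ^ 2 ∈ gen O {x, y}
  jne : J u k x y ≠ 0
  ne : θ ≠ 0
  ord : ∀ H : Place k L, Ht1 O H → H.ord θ + (1 - lam k u H) = H.ord (J u k x y)
  cov : ∀ H : Place k L, Ht1 O H → H.Ge 1 θ → H.Ge 1 x ∨ H.Ge 1 y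

lemma Dat.swap (d : Dat u O x y θ) : Dat u O y x θ where
  mx := by rw [d.mx, Set.insert_comm]
  sq := by rw [Set.pair_comm]; exact d.sq
  jne := by rw [J_swap]; exact neg_ne_zero.2 d.jne
  ne := d.ne
  ord H hH := by rw [J_swap, Place.ord_neg]; exact d.ord H hH
  cov H hH h := (d.cov H hH h).symm

lemma Dat.x_mem (d : Dat u O x y θ) : x ∈ Res.mx O := d.mx ▸ subset_gen (by simp)

lemma Dat.t_mem (d : Dat u O x y θ) : θ ∈ Res.mx O := d.mx ▸ subset_gen (by simp)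

lemma Dat.x_ne (d : Dat u O x y θ) : x ≠ 0 := by
  rintro rfl
  exact d.jne (by simp [J_eq])

/-- The local analysis at a curve along which `x` and `θ` vanish. -/
lemma Dat.curve (h : Lv5 k p) (hu : IsPB p u) (hO : IsPt O) (d : Dat u O x y θ) {H : Place k L}
    (hH : Ht1 O H) (hx : H.Ge 1 x) (hθ : H.Ge 1 θ) :
    H.ord x = 2 ∧ H.ord y = 0 ∧ H.ord θ = 1 ∧ ∃ m ∈ O, θ ^ 2 = m * x := by
  have := hO.ess
  have hyO := mx_le d.swap.x_mem
  have hθO := mx_le d.t_mem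
  obtain ⟨pr, hy, hnp, -⟩ := h.r1a.prin hO
    (show Res.mx O = gen O {x, θ, y} by rw [d.mx, Set.pair_comm y θ]) hH hx hθ
  obtain ⟨hy0, hy1⟩ := ord_zero hH.1 hyO hy
  have h1 := hx.le d.x_ne
  have h2 := hθ.le d.ne
  have h3 := d.ord H hH
  have h4 : H.ord x ≠ 1 := fun e => by
    have := (h.rk.k2 hu e hnp).2
    omega
  have hx2 : H.Ge 2 x := Place.ge_of_le (by omega)
  have h5 : H.ord θ = 1 := by
    by_contra e
    have hθ2 : H.Ge 2 θ := Place.ge_of_le (by omega)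
    obtain ⟨π, hπ0, hπ⟩ := H.exists_ord_eq_one
    obtain ⟨s, hs, hs1, hs2⟩ := h.rh.locz hO hH π (Place.ge_of_le (by omega))
    obtain ⟨hs0, hs3⟩ := ord_zero hH.1 hs hs1
    have h6 : H.ord (π * s) = 1 := by rw [H.ord_mul hπ0 hs0]; omega
    have h7 := ge_of_mem_gen (m := 2) hH.1 (by simpa using ⟨hx2, hθ2⟩)
      (pr _ hs2 (Place.ge_of_le h6.ge))
    have := h7.le (mul_ne_zero hπ0 hs0)
    omega
  have h6 := (h.rk.k1 hu (hO.div hH) (Place.ge_ord x) (hH.1 y hyO)).le d.jne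
  refine ⟨by omega, hy1, h5, ?_⟩
  obtain ⟨m, hm, l, hl, e⟩ := mem_gen_two.1 d.sq
  have hl2 : H.Ge 2 l := by
    refine ge_cancel hy0 hy1 ?_
    rw [show l * y = θ ^ 2 - m * x by rw [e]; ring]
    exact ((hθ.pow 2).mono (by norm_num)).sub ((hH.1 m hm).mul' hx2 (by norm_num))
  obtain ⟨a, ha, b, hb, e2⟩ := mem_gen_two.1 (pr l hl (hl2.mono (by norm_num)))
  have hb1 : H.Ge 1 b := by
    refine ge_cancel d.ne h5 ?_
    rw [show b * θ = l - a * x by rw [e2]; ring]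
    exact (hl2.mono (by norm_num)).sub ((hH.1 a ha).mul' hx2 (by norm_num))
  obtain ⟨a', ha', b', hb', e3⟩ := mem_gen_two.1 (pr b hb hb1)
  have hw : Un O (1 + -b' * y) :=
    hO.un_add un_one (hO.isMod_mx _ (neg_mem hb') _ d.swap.x_mem)
  refine ⟨(m + a * y + a' * θ * y) * (1 + -b' * y)⁻¹,
    mul_mem (add_mem (add_mem hm (mul_mem ha hyO)) (mul_mem (mul_mem ha' hθO) hyO)) hw.2.2, ?_⟩
  rw [mul_right_comm, eq_mul_inv_iff_mul_eq₀ hw.2.1]
  rw [e2, e3] at e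
  linear_combination e

lemma Dat.all (h : Lv5 k p) (hu : IsPB p u) (hO : IsPt O) (d : Dat u O x y θ)
    (hA : ∃ H : Place k L, Ht1 O H ∧ H.Ge 1 x ∧ H.Ge 1 θ) {H : Place k L} (hH : Ht1 O H)
    (hx : H.Ge 1 x) : H.ord x = 2 ∧ H.ord y = 0 ∧ H.ord θ = 1 := by
  obtain ⟨H₀, h0, h1, h2⟩ := hA
  obtain ⟨-, -, -, m, hm, e⟩ := d.curve h hu hO h0 h1 h2
  have h3 : H.Ge 1 (θ ^ 2) := e ▸ (hH.1 m hm).mul' hx (by norm_num)
  have h4 := h3.le (pow_ne_zero 2 d.ne)
  rw [Place.ord_pow] at h4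
  obtain ⟨a, b, c, -⟩ := d.curve h hu hO hH hx (Place.ge_of_le (by push_cast at h4; omega))
  exact ⟨a, b, c⟩

/-- Only `x` vanishes along the ramification curve. -/
lemma Dat.one (h : Lv5 k p) (hu : IsPB p u) (hO : IsPt O) (d : Dat u O x y θ)
    (hA : ∃ H : Place k L, Ht1 O H ∧ H.Ge 1 x ∧ H.Ge 1 θ)
    (hB : ¬ ∃ H : Place k L, Ht1 O H ∧ H.Ge 1 y ∧ H.Ge 1 θ) : IsReg O θ y := by
  have hw : Un O (x / θ ^ 2) := by
    refine h.rh.un hO _ (div_ne_zero d.x_ne (pow_ne_zero 2 d.ne)) fun H hH => ?_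
    rw [H.ord_div d.x_ne (pow_ne_zero 2 d.ne), Place.ord_pow]
    by_cases hx : H.Ge 1 x
    · obtain ⟨a, -, c⟩ := d.all h hu hO hA hH hx
      rw [a, c]
      norm_num
    · have h1 : ¬ H.Ge 1 θ := fun hθ => hB ⟨H, hH, (d.cov H hH hθ).resolve_left hx, hθ⟩
      rw [(ord_zero hH.1 (mx_le d.x_mem) hx).2, (ord_zero hH.1 (mx_le d.t_mem) h1).2]
      norm_num
  refine ⟨hO, d.mx.trans (gen_eq ?_ ?_)⟩
  · rintro f (rfl | rfl | rfl)
    · refine mem_gen_two.2 ⟨_, mul_mem hw.1 (mx_le d.t_mem), 0, zero_mem _, ?_⟩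
      have := d.ne
      field_simp
      ring
    · exact subset_gen (by simp)
    · exact subset_gen (by simp)
  · rintro f (rfl | rfl) <;> exact subset_gen (by simp)

/-- Both parameters vanish along ramification curves. -/
lemma Dat.both (h : Lv5 k p) (hu : IsPB p u) (hO : IsPt O) (d : Dat u O x y θ)
    (hA : ∃ H : Place k L, Ht1 O H ∧ H.Ge 1 x ∧ H.Ge 1 θ)
    (hB : ∃ H : Place k L, Ht1 O H ∧ H.Ge 1 y ∧ H.Ge 1 θ) : Un O (x * y / θ ^ 2) := by
  have hxy := mul_ne_zero d.x_ne d.swap.x_ne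
  refine h.rh.un hO _ (div_ne_zero hxy (pow_ne_zero 2 d.ne)) fun H hH => ?_
  rw [H.ord_div hxy (pow_ne_zero 2 d.ne), Place.ord_pow, H.ord_mul d.x_ne d.swap.x_ne]
  by_cases hx : H.Ge 1 x
  · obtain ⟨a, b, c⟩ := d.all h hu hO hA hH hx
    rw [a, b, c]
    norm_num
  by_cases hy : H.Ge 1 y
  · obtain ⟨a, b, c⟩ := d.swap.all h hu hO hB hH hy
    rw [a, b, c]
    norm_num
  have h1 : ¬ H.Ge 1 θ := fun hθ => hy ((d.cov H hH hθ).resolve_left hx)
  rw [(ord_zero hH.1 (mx_le d.x_mem) hx).2, (ord_zero hH.1 (mx_le d.t_mem) h1).2,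
    (ord_zero hH.1 (mx_le d.swap.x_mem) hy).2]
  norm_num

/-- The quadratic transform of an ordinary double point. -/
lemma Dat.node (h : Lv5 k p) (hO : IsPt O) (hO1 : IsPt (qt O V)) (hV : Dom V O) (hR : ResK k V)
    (d : Dat u O x y θ) (hw : Un O (x * y / θ ^ 2)) (hxy : x / y ∈ V) :
    ∃ x' y', IsReg (qt O V) x' y' := by
  have hy0 := d.swap.x_ne
  have hθ0 := d.ne
  have hx0 := d.x_ne
  have hθV : θ / y ∈ V := by
    have h1 : (θ / y) ^ 2 ∈ V := by
      rw [show (θ / y) ^ 2 = (x * y / θ ^ 2)⁻¹ * (x / y) by field_simp]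
      exact mul_mem (hV.1 _ hw.2.2) hxy
    rcases V.mem_or_inv_mem (θ / y) with h2 | h2
    · exact h2
    · have := mul_mem h1 h2
      rwa [show (θ / y) ^ 2 * (θ / y)⁻¹ = θ / y by field_simp] at this
  have hS : ∀ g ∈ ({x, y, θ} : Set L), g / y ∈ V := by
    rintro g (rfl | rfl | rfl)
    · exact hxy
    · rw [div_self hy0]; exact one_mem _
    · exact hθV
  have hmin : IsMin O V y := h.rq.min_gen hV d.mx d.swap.x_mem hy0 hS
  have hc : ∀ g : L, ∃ c : k, g / y ∈ V → g / y - algebraMap k L c ∈ V.nonunits := fun g => by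
    by_cases hg : g / y ∈ V
    · obtain ⟨c, hc⟩ := hR.2 _ hg
      exact ⟨c, fun _ => hc⟩
    · exact ⟨0, fun h' => absurd h' hg⟩
  choose c hc using hc
  have hm := h.rq.mx_qt c hO.toIsLoc hV hR hmin d.mx fun g hg => hc g (hS g hg)
  have hdiv : ∀ g ∈ Res.mx O, g / y ∈ qt O V := fun g hg => by
    rw [h.rq.qt_eq hV hmin]
    exact le_loc _ _ (div_mem_chart hg)
  have hmem : ∀ g ∈ ({x, y, θ} : Set L), g / y - algebraMap k L (c g) ∈ Res.mx (qt O V) :=
    fun g hg => hm ▸ subset_gen (Or.inr ⟨g, hg, rfl⟩)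
  have hy1 : y ∈ Res.mx (qt O V) := hm ▸ subset_gen (Or.inl rfl)
  have hconst : ∀ e : k, algebraMap k L e ∈ Res.mx (qt O V) → algebraMap k L e = 0 := by
    intro e he
    by_contra h0
    exact hO1.not_un he (un_const fun h' => h0 (by rw [h', map_zero]))
  set θ₁ := θ / y - algebraMap k L (c θ) with hθ₁
  have hθ1 : θ₁ ∈ Res.mx (qt O V) := hmem θ (by simp)
  have hle : gen (qt O V) {θ₁, y} ≤ Res.mx (qt O V) :=
    gen_le hO1.isMod_mx (by rintro f (rfl | rfl) <;> assumption)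
  refine ⟨θ₁, y, hO1, le_antisymm ?_ hle⟩
  rw [hm]
  refine gen_le (isMod_gen _) ?_
  rintro f (rfl | ⟨g, rfl | rfl | rfl, rfl⟩)
  · exact subset_gen (by simp)
  · obtain ⟨v, hv⟩ := hO.res _ hw.1
    have h1 : g / y - algebraMap k L (v * c θ ^ 2) ∈ gen (qt O V) {θ₁, y} := by
      refine mem_gen_two.2 ⟨algebraMap k L v * (θ₁ + 2 * algebraMap k L (c θ)),
        mul_mem (Subalgebra.algebraMap_mem _ _) (add_mem (mx_le hθ1)
          (mul_mem (ofNat_mem _ 2) (Subalgebra.algebraMap_mem _ _))),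
        _, mul_mem (hdiv _ hv) (pow_mem (hdiv _ d.t_mem) 2), ?_⟩
      rw [hθ₁, map_mul, map_pow]
      field_simp
      ring
    have h2 := hconst (v * c θ ^ 2 - c g) (by
      have := sub_mem (hmem g (by simp)) (hle h1)
      rwa [sub_sub_sub_cancel_left, ← map_sub] at this)
    rw [map_sub, sub_eq_zero] at h2
    rwa [h2] at h1
  · have h1 := hmem g (by simp)
    have e : g / g - algebraMap k L (c g) = algebraMap k L (1 - c g) := by
      rw [div_self hy0, map_sub, map_one]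
    change g / g - algebraMap k L (c g) ∈ _
    rw [e] at h1 ⊢
    rw [hconst _ h1]
    exact zero_mem _
  · exact subset_gen (Or.inl rfl)

/-- The normalisation of the third generator. -/
lemma norm [CharP k p] (hp : p ≠ 2) (h : Lv5 k p) (hu : IsPB p u) (hO : IsPt O) (hD : DP O x y)
    (hG : Gor u O η) (hJ : J u k x y ≠ 0) (hm : J u k x y / η ∈ mx O)
    (hc : ∀ H : Place k L, Ht1 O H → H.Ge 1 (J u k x y / η) → H.Ge 1 x ∨ H.Ge 1 y)
    (hn : ¬ IsReg O x y) : Dat u O x y (J u k x y / η) := by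
  classical
  obtain ⟨z, hz, hz2⟩ := hD
  obtain ⟨α, hα, β, hβ, γ, hγ, e⟩ := quad hz2
  have hx : x ∈ O := mx_le (hz ▸ subset_gen (by simp))
  have hy : y ∈ O := mx_le (hz ▸ subset_gen (by simp))
  have hzm : z ∈ mx O := hz ▸ subset_gen (by simp)
  have hzO : z ∈ O := mx_le hzm
  have hθ0 : J u k x y / η ≠ 0 := div_ne_zero hJ hG.1
  have hsq : ∀ f ∈ mx O, ∀ g ∈ mx O, f * g ∈ gen O {x, y} := by
    intro f hf g hg
    have hfO := mx_le hf
    rw [hz] at hf hg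
    obtain ⟨a1, h1, a2, h2, a3, h3, rfl⟩ := mem_gen_three.1 hg
    obtain ⟨b1, g1, b2, g2, b3, g3, e1⟩ := mem_gen_three.1 hf
    refine mem_gen_two.2 ⟨f * a1 + a3 * b1 * z + a3 * b3 * (α * x + β * y), ?_,
      f * a2 + a3 * b2 * z + a3 * b3 * (γ * y), ?_, ?_⟩
    · exact add_mem (add_mem (mul_mem hfO h1) (mul_mem (mul_mem h3 g1) hzO))
        (mul_mem (mul_mem h3 g3) (add_mem (mul_mem hα hx) (mul_mem hβ hy)))
    · exact add_mem (add_mem (mul_mem hfO h2) (mul_mem (mul_mem h3 g2) hzO))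
        (mul_mem (mul_mem h3 g3) (mul_mem hγ hy))
    · linear_combination (a3 * z) * e1 + a3 * b3 * e
  obtain ⟨α1, a1, α2, a2, α3, a3, dα⟩ := h.ra.grad3 hO.toIsLoc hz α hα
  obtain ⟨β1, b1, β2, b2, β3, b3, dβ⟩ := h.ra.grad3 hO.toIsLoc hz β hβ
  obtain ⟨γ1, c1, γ2, c2, γ3, c3, dγ⟩ := h.ra.grad3 hO.toIsLoc hz γ hγ
  obtain ⟨q, hq⟩ : ∃ q, q = (x * α3 + y * β3) * x + (y * γ3) * y := ⟨_, rfl⟩
  obtain ⟨P, hP⟩ : ∃ P, P = 2 * α * x + β * y + x * x * α1 + x * y * β1 + y * y * γ1 := ⟨_, rfl⟩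
  obtain ⟨R, hR⟩ : ∃ R, R = β * x + 2 * γ * y + x * x * α2 + x * y * β2 + y * y * γ2 := ⟨_, rfl⟩
  have two : (2 : L) ∈ O := ofNat_mem _ 2
  have hPO : P ∈ O := hP ▸ add_mem (add_mem (add_mem (add_mem (mul_mem (mul_mem two hα) hx)
    (mul_mem hβ hy)) (mul_mem (mul_mem hx hx) a1)) (mul_mem (mul_mem hx hy) b1))
    (mul_mem (mul_mem hy hy) c1)
  have hRO : R ∈ O := hR ▸ add_mem (add_mem (add_mem (add_mem (mul_mem hβ hx)
    (mul_mem (mul_mem two hγ) hy)) (mul_mem (mul_mem hx hx) a2)) (mul_mem (mul_mem hx hy) b2))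
    (mul_mem (mul_mem hy hy) c2)
  have hqg : q ∈ gen O {x, y} :=
    mem_gen_two.2 ⟨_, add_mem (mul_mem hx a3) (mul_mem hy b3), _, mul_mem hy c3, hq⟩
  have hder : ∀ D : Derivation k L L, (2 * z - q) * D z = P * D x + R * D y := by
    intro D
    have h1 := congrArg D e
    simp only [sq, map_add, Derivation.leibniz, smul_eq_mul, dα L D, dβ L D, dγ L D] at h1
    rw [hq, hP, hR]
    linear_combination h1
  have hle : gen O {x, y} ≤ mx O := by
    rw [hz]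
    exact gen_le (isMod_gen _) (by rintro f (rfl | rfl) <;> exact subset_gen (by simp))
  have h2k : (2 : k) ≠ 0 := fun h2 => hp ((Nat.prime_dvd_prime_iff_eq Fact.out Nat.prime_two).1
    ((CharP.cast_eq_zero_iff k p 2).1 (by exact_mod_cast h2)))
  have h2u : Un O (2 : L) := by simpa only [map_ofNat] using un_const (O := O) h2k
  have hz' : 2 * z - q ∉ gen O {x, y} := by
    intro h1
    refine hn ⟨hO, hz.trans (gen_eq ?_ ?_)⟩
    · rintro f (rfl | rfl | rfl)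
      · exact subset_gen (by simp)
      · exact subset_gen (by simp)
      · have := isMod_gen _ _ h2u.2.2 _ (add_mem h1 hqg)
        rwa [sub_add_cancel, inv_mul_cancel_left₀ h2u.2.1] at this
    · rintro f (rfl | rfl) <;> exact subset_gen (by simp)
  have hz0 : 2 * z - q ≠ 0 := fun h0 => hz' (h0 ▸ zero_mem _)
  have hz'O : 2 * z - q ∈ O := sub_mem (mul_mem two hzO) (mx_le (hle hqg))
  have hJJ : ∀ g ∈ ({x, y, z} : Finset L), ∀ g' ∈ ({x, y, z} : Finset L),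
      ∃ c ∈ O, (2 * z - q) * J u k g g' = c * J u k x y := by
    have e0 := hder (pd k u 0)
    have e1 := hder (pd k u 1)
    have exz : (2 * z - q) * J u k x z = R * J u k x y := by
      simp only [J_eq]
      linear_combination pd k u 0 x * e1 - pd k u 1 x * e0
    have ezy : (2 * z - q) * J u k z y = P * J u k x y := by
      simp only [J_eq]
      linear_combination pd k u 1 y * e0 - pd k u 0 y * e1
    have h0 : ∀ g, ∃ c ∈ O, (2 * z - q) * J u k g g = c * J u k x y :=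
      fun g => ⟨0, zero_mem _, by rw [J_self]; ring⟩
    simp only [Finset.mem_insert, Finset.mem_singleton, forall_eq_or_imp, forall_eq]
    exact ⟨⟨h0 _, ⟨_, hz'O, rfl⟩, ⟨R, hRO, exz⟩⟩,
      ⟨⟨_, neg_mem hz'O, by rw [J_swap u y x]; ring⟩, h0 _,
        ⟨_, neg_mem hPO, by rw [J_swap u y z]; linear_combination -ezy⟩⟩,
      ⟨⟨_, neg_mem hRO, by rw [J_swap u z x]; linear_combination -exz⟩, ⟨P, hPO, ezy⟩, h0 _⟩⟩
  have hord : ∀ H : Place k L, Ht1 O H →
      H.ord (J u k x y / η) + (1 - lam k u H) = H.ord (J u k x y) := fun H hH => by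
    rw [H.ord_div hJ hG.1, h.r2.gor_ord hu hO hG hH]
    ring
  have hw : (2 * z - q) / (J u k x y / η) ∈ O := by
    refine h.rh.hart hO _ fun H hH => Place.ge_of_le ?_
    obtain ⟨g, hg, g', hg', h1, h2⟩ := h.r2.gradh {x, y, z} hu hO (by simpa using hz) hH
    obtain ⟨c, hc, e1⟩ := hJJ g hg g' hg'
    have hc0 : c ≠ 0 := left_ne_zero_of_mul (e1 ▸ mul_ne_zero hz0 h1)
    have h3 := congrArg H.ord e1
    rw [H.ord_mul hz0 h1, H.ord_mul hc0 hJ] at h3
    have h4 := (hH.1 c hc).le hc0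
    have h5 := hord H hH
    rw [H.ord_div hz0 hθ0]
    omega
  have hwu : Un O ((2 * z - q) / (J u k x y / η)) := (un_or_mx hw).resolve_right fun h1 => hz' (by
    have := hsq _ h1 _ hm
    rwa [div_mul_cancel₀ _ hθ0] at this)
  refine ⟨le_antisymm ?_ ?_, sq (J u k x y / η) ▸ hsq _ hm _ hm, hJ, hθ0, hord, hc⟩
  · rw [hz]
    refine gen_le (isMod_gen _) ?_
    rintro f (rfl | rfl | rfl)
    · exact subset_gen (by simp)
    · exact subset_gen (by simp)
    · have h1 : 2 * f - q ∈ gen O {x, y, J u k x y / η} := by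
        have := isMod_gen {x, y, J u k x y / η} _ hw _ (subset_gen (f := J u k x y / η) (by simp))
        rwa [div_mul_cancel₀ _ hθ0] at this
      have h2 : q ∈ gen O {x, y, J u k x y / η} :=
        gen_le (isMod_gen _) (by rintro f (rfl | rfl) <;> exact subset_gen (by simp)) hqg
      have := isMod_gen _ _ h2u.2.2 _ (add_mem h1 h2)
      rwa [sub_add_cancel, inv_mul_cancel_left₀ h2u.2.1] at this
  · refine gen_le hO.isMod_mx ?_
    rintro f (rfl | rfl | rfl)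
    · exact hle (subset_gen (by simp))
    · exact hle (subset_gen (by simp))
    · exact hm

end DPend

open DPend

theorem blk_DPend {k : Type} [Field k] [IsAlgClosed k] {p : ℕ} [Fact p.Prime] [CharP k p]
    (hp : p ≠ 2) (h : Lv5 k p) : St_DPend k p := by
  intro L _ _ u O V x y η hu hO hO1 hV hR hD hG hJ hm hc
  by_cases hn : IsReg O x y
  · exact Or.inl ⟨x, y, hn⟩
  have d := norm hp h hu hO hD hG hJ hm hc hn
  by_cases hA : ∃ H : Place k L, Ht1 O H ∧ H.Ge 1 x ∧ H.Ge 1 (J u k x y / η)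
  · by_cases hB : ∃ H : Place k L, Ht1 O H ∧ H.Ge 1 y ∧ H.Ge 1 (J u k x y / η)
    · have hw := d.both h hu hO hA hB
      rcases V.mem_or_inv_mem (x / y) with h1 | h1
      · exact Or.inr (d.node h hO hO1 hV hR hw h1)
      · exact Or.inr (d.swap.node h hO hO1 hV hR (by rwa [mul_comm]) (by rwa [inv_div] at h1))
    · exact Or.inl ⟨_, _, d.one h hu hO hA hB⟩
  · obtain ⟨H, h1, h2⟩ := h.rh.ex hO.toIsLoc _ hm
    exact Or.inl ⟨_, _, d.swap.one h hu hO
      ⟨H, h1, (hc H h1 h2).resolve_left fun h3 => hA ⟨H, h1, h3, h2⟩, h2⟩ hA⟩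

end Pool.Agent.Lib.MP_5f81cf_ag.Full.Res
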