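import Pool.Agent.Lib.MP_5f81cf_ag.ResBlue

/-! The trace dual lies in the canonical module. -/

namespace Pool.Agent.Lib.MP_5f81cf_ag.Full.Res

open Pool.Agent.Lib.MP_e06174_ag

namespace E1a

variable {k K L : Type} [Field k] [Field K] [Algebra k K] [Field L] [Algebra k L] [Algebra K L]
  [IsScalarTower k K L] {p : ℕ} [Fact p.Prime] {B : Subalgebra k K} {a b : K}

lemma pb (h : Lv5 k p) (hB : IsReg B a b) : IsPB p ![a, b] := by
  have := hB.ess
  obtain ⟨x, hx⟩ := h.bas.c2.exists_pb (K := K) (d := 2) (by exact_mod_cast hB.dim)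
  exact (h.bas.c1.pb_iff hx).2 (h.r2.reg hx hB).1.1

omit [IsScalarTower k K L] [Algebra k K] [Algebra k L] in
lemma map_pair (a b : K) : (fun i => algebraMap K L (![a, b] i)) =
    ![algebraMap K L a, algebraMap K L b] := by
  funext i; fin_cases i <;> rfl

lemma j_ne [Algebra.IsSeparable K L] (h : Lv5 k p) {u : Fin 2 → L} (hu : IsPB p u)
    (hB : IsReg B a b) : J u k (algebraMap K L a) (algebraMap K L b) ≠ 0 := by
  have := h.bas.c2.pb_map (K' := L) (pb h hB)
  rw [map_pair] at this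
  exact (h.bas.c1.pb_iff hu).1 this

lemma res [FiniteDimensional K L] (F : Place k L) :
    ∃ (E : Place k K) (e : ℕ), F.Over (IsScalarTower.toAlgHom k K L) E e := by
  refine (F.restrict (IsScalarTower.toAlgHom k K L)).resolve_left fun h0 => ?_
  obtain ⟨π, hπ, h1⟩ := F.exists_ord_eq (-1)
  have := (F.ge_zero_of_isIntegral (R := K) (fun r => Place.ge_of_le (h0 r).ge)
    (Algebra.IsIntegral.isIntegral π)).le hπ
  omega

omit [IsScalarTower k K L] [Algebra k L] in
lemma mult (h : Lv2 k p) (hB : IsPt B) {E : Place k K} (hE : Ht1 B E) {t : L}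
    (ht : IsIntegral E.O t) : ∃ s ∈ B, ¬ E.Ge 1 s ∧ IsIntegral B (algebraMap K L s * t) := by
  let M : Submonoid B :=
    { carrier := {s | ¬ E.Ge 1 (s : K)}
      mul_mem' := fun {s s'} hs hs' => by
        simp only [Set.mem_ofPred_eq, Place.not_ge_iff, MulMemClass.coe_mul] at hs hs' ⊢
        have h1 := (hE.1 _ s.2).le hs.1
        have h2 := (hE.1 _ s'.2).le hs'.1
        exact ⟨mul_ne_zero hs.1 hs'.1, by rw [E.ord_mul hs.1 hs'.1]; omega⟩
      one_mem' := un_one.not_ge hE.1 }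
  let φ : B →+* E.O := (algebraMap B K).codRestrict E.O fun s => Place.mem_O.2 (hE.1 _ s.2)
  let := φ.toAlgebra
  have : IsScalarTower B E.O L := IsScalarTower.of_algebraMap_eq fun _ => rfl
  have : IsLocalization M E.O :=
    { map_units := fun s => Place.isUnit_O.2 s.2
      surj := fun f => by
        obtain ⟨s, hs, h1, h2⟩ := h.rh.locz hB hE f (Place.mem_O.1 f.2)
        exact ⟨⟨⟨_, h2⟩, ⟨⟨s, hs⟩, h1⟩⟩, Subtype.ext rfl⟩
      exists_of_eq := fun {x y} e => ⟨1, by
        rw [show x = y from Subtype.ext (congrArg (fun z : E.O => (z : K)) e)]⟩ }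
  obtain ⟨s, hs⟩ := ht.exists_multiple_integral_of_isLocalization M
  refine ⟨(s : B), (s : B).2, s.2, ?_⟩
  rwa [Submonoid.smul_def, Algebra.smul_def] at hs

lemma du1 [FiniteDimensional K L] [Algebra.IsSeparable K L] (h : Lv5 k p) {u : Fin 2 → L}
    {O : Subalgebra k L} (hu : IsPB p u) (hP : Proj B a b O) (f : L)
    (hf : ∀ t, IsIntegral B t → Algebra.trace K L (f * t) ∈ B) :
    f * J u k (algebraMap K L a) (algebraMap K L b) ∈ om u O := by
  intro F hF
  have := hP.reg.ess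
  have := hP.pt.ess
  obtain ⟨E, e, hE⟩ := res (K := K) F
  have hc : Cont B E := fun g hg => (hE.ge_zero_iff g).1 (hF.1 _ (hP.le g hg))
  have hH : Ht1 B E := by
    refine hc.domP_or.resolve_left fun hd => hF.not_domP ⟨hF.1, fun g hg => ?_⟩
    have ha := (hE.ge_one_iff a).2 (hd.2 a hP.reg.x_mem)
    have hb := (hE.ge_one_iff b).2 (hd.2 b hP.reg.y_mem)
    rcases hP.red.val F.O (fun g hg => Place.mem_O.2 (hF.1 g hg)) g hg with h1 | h1
    · simpa [div_mul_cancel₀ g hP.red.a_ne] using (Place.mem_O.1 h1).mul ha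
    · simpa [div_mul_cancel₀ g hP.red.b_ne] using (Place.mem_O.1 h1).mul hb
  have hx := pb h hP.reg
  have hl : 1 - lam k ![a, b] E = 0 := by
    rw [← h.r2.gor_ord hx hP.reg.toIsPt (h.r2.reg hx hP.reg).1 hH, J, h.bas.c1.jac_self hx]
    simp
  have h1 := h.rt.td2 f hx (hP.reg.div hH) (fun t ht => by
    obtain ⟨s, hs, hs1, hs2⟩ := mult h.toLv2 hP.reg.toIsPt hH ht
    have h2 := hc _ (hf _ hs2)
    rw [mul_left_comm, ← Algebra.smul_def, map_smul, smul_eq_mul] at h2
    rw [Place.not_ge_iff] at hs1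
    have h3 := (hc s hs).le hs1.1
    rw [hl]
    have h4 := (Place.ge_of_le (show 0 ≤ E.ord s⁻¹ by rw [Place.ord_inv]; omega)).mul h2
    rwa [add_zero, inv_mul_cancel_left₀ hs1.1] at h4) F e hE
  rw [map_pair, (h.rk.chg hu (hP.pt.div hF) (j_ne h hu hP.reg)).2] at h1
  exact h1.mul' (Place.ge_ord _) (by omega)

end E1a

theorem blk_E1a {k : Type} [Field k] [IsAlgClosed k] {p : ℕ} [Fact p.Prime] [CharP k p]
    (hp : p ≠ 2) (h : Lv5 k p) : RE1a k p where
  j_ne := fun hu hB => E1a.j_ne h hu hB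
  res := fun F => E1a.res F
  du1 := fun hu hP f hf => E1a.du1 h hu hP f hf

end Pool.Agent.Lib.MP_5f81cf_ag.Full.Res
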