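import Pool.Agent.Lib.MP_5f81cf_ag.ResBlue

/-! The canonical module is contained in the trace dual, with control of orders. -/

namespace Pool.Agent.Lib.MP_5f81cf_ag.Full.Res

open Pool.Agent.Lib.MP_e06174_ag

namespace E1b

variable {k : Type} [Field k] {p : ℕ} [Fact p.Prime] {K L : Type} [Field K] [Algebra k K]
  [Field L] [Algebra k L] [Algebra K L] [IsScalarTower k K L] {u : Fin 2 → L}
  {B : Subalgebra k K} {a b : K} {O : Subalgebra k L} {E : Place k K} {F : Place k L} {e : ℕ}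

theorem dic_over (hF : F.Over (IsScalarTower.toAlgHom k K L) E e) {z : K} (hz : Dic E z) :
    Dic F (algebraMap K L z) := by
  refine ⟨(hF.ge_zero_iff z).2 hz.1, fun c hc => hz.2 c ((hF.ge_one_iff _).1 ?_)⟩
  rwa [IsScalarTower.toAlgHom_apply, map_sub, ← IsScalarTower.algebraMap_apply]

theorem div_over (hF : F.Over (IsScalarTower.toAlgHom k K L) E e) (hE : Div E) : Div F :=
  let ⟨_, hz⟩ := hE; ⟨_, dic_over hF hz⟩

theorem ge_int (hF : F.Over (IsScalarTower.toAlgHom k K L) E e) (hE : Cont B E) {t : L}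
    (ht : IsIntegral B t) : F.Ge 0 t :=
  F.ge_zero_of_isIntegral (fun r : B => (hF.ge_zero_iff (r : K)).2 (hE r r.2)) ht

theorem kill_one (hP : Proj B a b O) (hF : F.Over (IsScalarTower.toAlgHom k K L) E e)
    (hE : Cont B E) (hO : ¬ Cont O F) : ∃ s, IsIntegral B s ∧ Un O s ∧ F.Ge 1 s := by
  unfold Cont at hO
  push Not at hO
  obtain ⟨f, hf, hf'⟩ := hO
  obtain ⟨s, hs, hu, hfs⟩ := hP.loc f hf
  obtain ⟨hf0, hlt⟩ := Place.not_ge_iff.1 hf'
  have h := (ge_int hF hE hfs).le (mul_ne_zero hf0 hu.2.1)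
  rw [F.ord_mul hf0 hu.2.1] at h
  exact ⟨s, hs, hu, Place.ge_of_le (by omega)⟩

theorem kill_set (hP : Proj B a b O) {X : Set (Place k L)} (hX : X.Finite)
    (h : ∀ F ∈ X, ¬ Cont O F ∧ ∃ (E : Place k K) (e : ℕ), Cont B E ∧
      F.Over (IsScalarTower.toAlgHom k K L) E e) (M : Place k L → ℤ) :
    ∃ s, IsIntegral B s ∧ Un O s ∧ ∀ F ∈ X, F.Ge (M F) s := by
  induction X, hX using Set.Finite.induction_on with
  | empty => exact ⟨1, isIntegral_one, un_one, fun _ h => h.elim⟩
  | @insert F X _ _ ih =>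
    obtain ⟨s, hs, hu, hM⟩ := ih fun G hG => h G (Set.mem_insert_of_mem _ hG)
    obtain ⟨hO, E, e, hE, hF⟩ := h F (Set.mem_insert _ _)
    obtain ⟨s', hs', hu', h1⟩ := kill_one hP hF hE hO
    refine ⟨s * s' ^ (M F).toNat, hs.mul (hs'.pow _), hu.mul (hu'.pow _), ?_⟩
    rintro G (rfl | hG)
    · exact (ge_int hF hE hs).mul' (h1.pow _) (by omega)
    · obtain ⟨-, E', e', hE', hG'⟩ := h G (Set.mem_insert_of_mem _ hG)
      exact (hM G hG).mul' (ge_int hG' hE' (hs'.pow _)) (by omega)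

theorem map_pair (a b : K) :
    (fun i => algebraMap K L (![a, b] i)) = ![algebraMap K L a, algebraMap K L b] := by
  funext i
  fin_cases i <;> rfl

theorem pb_ab (h : Lv5 k p) (hB : IsReg B a b) : IsPB p ![a, b] := by
  have := hB.ess
  obtain ⟨u₀, hu₀⟩ := h.bas.c2.exists_pb (K := K) (d := 2) (by simpa using hB.dim)
  exact (h.bas.c1.pb_iff hu₀).2 (h.r2.reg hu₀ hB).1.1

theorem J_one (h : Lv5 k p) {a b : K} (hab : IsPB p ![a, b]) : J ![a, b] k a b = 1 :=
  h.bas.c1.jac_self hab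

theorem ge_of_mul_J (h : Lv5 k p) [Algebra.EssFiniteType k L] (hu : IsPB p u) {a b f : L}
    (hJ : J u k a b ≠ 0) (hF : Div F) {n : ℤ} (hf : F.Ge (n - lam k u F) (f * J u k a b)) :
    F.Ge (n - lam k ![a, b] F) f := by
  rw [(h.rk.chg hu hF hJ).2]
  have := hf.mul (Place.ge_ord (p := F) (J u k a b)⁻¹)
  rw [mul_inv_cancel_right₀ hJ, Place.ord_inv] at this
  exact this.mono (by omega)

variable [FiniteDimensional K L] [Algebra.IsSeparable K L]

theorem du0 (h : Lv5 k p) (h1 : RE1a k p) (hu : IsPB p u) (hP : Proj B a b O) (f : L)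
    (hf : f * J u k (algebraMap K L a) (algebraMap K L b) ∈ om u O) :
    ∃ s, IsIntegral B s ∧ Un O s ∧ ∀ t, IsIntegral B t → Algebra.trace K L (s * f * t) ∈ B := by
  have := hP.pt.ess
  have := hP.reg.ess
  have hJ := h1.j_ne hu hP.reg
  have hab := pb_ab h hP.reg
  have hy : IsPB p ![algebraMap K L a, algebraMap K L b] := by
    rw [← map_pair]; exact h.bas.c2.pb_map hab
  let X : Set (Place k L) := {F | (∃ (E : Place k K) (e : ℕ), Ht1 B E ∧
    F.Over (IsScalarTower.toAlgHom k K L) E e) ∧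
    ¬ F.Ge (1 - lam k ![algebraMap K L a, algebraMap K L b] F) f}
  have hfin : X.Finite := by
    have := h.ra.frac hP.reg.toIsLoc
    have halg : IsAlgebraic B f :=
      (IsFractionRing.isAlgebraic_iff B K L).2 (Algebra.IsAlgebraic.isAlgebraic f)
    obtain ⟨d, hd0, hd⟩ := halg.exists_integral_multiple
    refine ((h.rh.fin hP.reg.toIsPt (d : K)).biUnion
      fun E _ => Place.finite_over L E).subset ?_
    rintro F ⟨⟨E, e, hE, hF⟩, hbad⟩
    refine Set.mem_biUnion (x := E) ⟨hE, fun h0 => hbad ?_⟩ ⟨e, hF⟩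
    have hdiv := div_over hF (hP.reg.toIsLoc.div hE)
    have h2 := h.rk.k0 (a := algebraMap K L a) (b := algebraMap K L b) hy hdiv
      ((hF.ge_zero_iff a).2 (hE.1 a (mx_le hP.reg.x_mem)))
      ((hF.ge_zero_iff b).2 (hE.1 b (mx_le hP.reg.y_mem)))
    rw [J_one h hy] at h2
    have h3 := h2.le one_ne_zero
    rw [Place.ord_one] at h3
    refine Place.Ge.mono ?_ h3
    have hd1 : algebraMap K L d ≠ 0 := by simpa using hd0
    have h4 : F.ord (algebraMap K L d) = 0 := by
      have := hF.2 (d : K)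
      rwa [h0, mul_zero] at this
    have h5 := (ge_int hF hE.1 hd).mul (Place.ge_ord (p := F) (algebraMap K L d)⁻¹)
    rw [Place.ord_inv, h4] at h5
    have e1 : d • f * (algebraMap K L d)⁻¹ = f := by
      rw [Algebra.smul_def]
      change algebraMap K L d * f * _ = f
      field_simp
    rwa [e1] at h5
  have hX : ∀ F ∈ X, ¬ Cont O F ∧ ∃ (E : Place k K) (e : ℕ), Cont B E ∧
      F.Over (IsScalarTower.toAlgHom k K L) E e := by
    rintro F ⟨⟨E, e, hE, hF⟩, hbad⟩
    refine ⟨fun hO => ?_, E, e, hE.1, hF⟩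
    rcases hO.domP_or with hd | hd
    · obtain ⟨g, hg, hg'⟩ := hE.2
      rw [hP.reg.par] at hg
      refine hg' (ge_of_mem_gen hE.1 ?_ hg)
      rintro _ (rfl | rfl)
      · exact (hF.ge_one_iff _).1 (hd.2 _ hP.red.a_mem)
      · exact (hF.ge_one_iff _).1 (hd.2 _ hP.red.b_mem)
    · exact hbad (ge_of_mul_J h hu hJ (hP.pt.toIsLoc.div hd) (hf F hd))
  obtain ⟨s, hs, hsu, hM⟩ := kill_set hP hfin hX
    fun F => 1 - lam k ![algebraMap K L a, algebraMap K L b] F - F.ord f
  refine ⟨s, hs, hsu, fun t ht => h.rh.hart hP.reg.toIsPt _ fun E hE => ?_⟩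
  have hl : lam k ![a, b] E = 1 := by
    have := h.r2.gor_ord hab hP.reg.toIsPt (h.r2.reg hab hP.reg).1 hE
    rw [J_one h hab, Place.ord_one] at this
    omega
  have := h.rt.td1 0 (s * f * t) hab (hP.reg.toIsLoc.div hE) fun F e hF => by
    rw [map_pair]
    refine Place.Ge.mul' ?_ (ge_int hF hE.1 ht) (le_of_eq (add_zero _).symm)
    by_cases hbad : F.Ge (1 - lam k ![algebraMap K L a, algebraMap K L b] F) f
    · exact (ge_int hF hE.1 hs).mul' hbad (by omega)
    · exact (hM F ⟨⟨E, e, hE, hF⟩, hbad⟩).mul' (Place.ge_ord f) (by omega)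
  rw [hl] at this
  exact this

theorem du2 (h : Lv5 k p) (h1 : RE1a k p) (hu : IsPB p u) (hP : Proj B a b O) (f : L) (n : ℕ)
    (hf : f * J u k (algebraMap K L a) (algebraMap K L b) ∈ om u O)
    (hR : ∀ F : Place k L, DomP O F → Dic F (algebraMap K L a / algebraMap K L b) →
      F.Ge (n * F.ord (algebraMap K L b) + 1 - lam k u F)
        (f * J u k (algebraMap K L a) (algebraMap K L b))) :
    ∃ s, IsIntegral B s ∧ Un O s ∧ ∀ t, IsIntegral B t →
      Algebra.trace K L (s * f * t) ∈ mp B (n - 1) ∧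
      (t ∈ mx O → Algebra.trace K L (s * f * t) ∈ mp B n) := by
  have := hP.pt.ess
  have := hP.reg.ess
  have hJ := h1.j_ne hu hP.reg
  have hab := pb_ab h hP.reg
  obtain ⟨s₀, hs₀, hu₀, h₀⟩ := du0 h h1 hu hP f hf
  obtain ⟨E, ha, hb, -, hrees, -⟩ := h.r1b.exc hP.reg
  obtain ⟨hdom, hdic, -⟩ := hrees.dom E (Finset.mem_singleton_self E)
  have hl : lam k ![a, b] E = 2 := by
    have := h.r2.exc hab hP.reg hdom hdic
    rw [J_one h hab, Place.ord_one] at this
    omega
  let X : Set (Place k L) := {F | (∃ e, F.Over (IsScalarTower.toAlgHom k K L) E e) ∧ ¬ Cont O F}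
  have hfin : X.Finite := (Place.finite_over L E).subset fun F hF => hF.1
  obtain ⟨s₁, hs₁, hu₁, hM⟩ := kill_set hP hfin
    (fun F hF => ⟨hF.2, E, hF.1.choose, hdom.1, hF.1.choose_spec⟩)
    fun F => (n + 1) * F.ord (algebraMap K L b) + 1 -
      lam k ![algebraMap K L a, algebraMap K L b] F - F.ord f
  refine ⟨s₀ * s₁, hs₀.mul hs₁, hu₀.mul hu₁, fun t ht => ?_⟩
  have hmem : Algebra.trace K L (s₀ * s₁ * f * t) ∈ B := by
    have := h₀ (s₁ * t) (hs₁.mul ht)
    rwa [show s₀ * f * (s₁ * t) = s₀ * s₁ * f * t by ring] at this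
  have key : ∀ m : ℕ, m ≤ n + 1 → (m = n + 1 → t ∈ mx O) →
      E.Ge (m - 1) (Algebra.trace K L (s₀ * s₁ * f * t)) := by
    intro m hm hmt
    have := h.rt.td1 m (s₀ * s₁ * f * t) hab ⟨_, hdic⟩ fun F e hF => by
      rw [map_pair]
      have he : (1 : ℤ) ≤ e := by exact_mod_cast hF.1
      have ea : F.ord (algebraMap K L a) = e := by simpa [ha] using hF.2 a
      have eb : F.ord (algebraMap K L b) = e := by simpa [hb] using hF.2 b
      have hm' : (m : ℤ) ≤ n + 1 := by exact_mod_cast hm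
      have g₀ := ge_int hF hdom.1 hs₀
      have g₁ := ge_int hF hdom.1 hs₁
      have gt := ge_int hF hdom.1 ht
      by_cases hO : Cont O F
      · have hmx : ∀ g ∈ mx O, F.Ge e g := by
          intro g hg
          rcases hP.red.val F.O (fun f hf => Place.mem_O.2 (hO f hf)) g hg with h2 | h2
          · have := (Place.mem_O.1 h2).mul (Place.ge_ord (p := F) (algebraMap K L a))
            rwa [div_mul_cancel₀ _ hP.red.a_ne, ea, zero_add] at this
          · have := (Place.mem_O.1 h2).mul (Place.ge_ord (p := F) (algebraMap K L b))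
            rwa [div_mul_cancel₀ _ hP.red.b_ne, eb, zero_add] at this
        have hd : Dic F (algebraMap K L a / algebraMap K L b) := by
          rw [← map_div₀]; exact dic_over hF hdic
        have h3 := ge_of_mul_J h hu hJ ⟨_, hd⟩ (hR F ⟨hO, fun g hg => (hmx g hg).mono he⟩ hd)
        rw [eb] at h3
        by_cases hmn : m = n + 1
        · refine ((g₀.mul g₁).mul h3).mul' (hmx t (hmt hmn)) (le_of_eq ?_)
          rw [hmn]
          push_cast
          ring
        · have hm'' : (m : ℤ) ≤ n := by omega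
          refine ((g₀.mul g₁).mul h3).mul' gt ?_
          nlinarith
      · have h3 := hM F ⟨⟨e, hF⟩, hO⟩
        rw [eb] at h3
        refine ((g₀.mul h3).mul (Place.ge_ord f)).mul' gt ?_
        nlinarith
    rw [hl] at this
    exact this.mono (by omega)
  refine ⟨hrees.pow _ _ hmem fun F hF => ?_, fun hmt => hrees.pow _ _ hmem fun F hF => ?_⟩
  · rw [Finset.mem_singleton.1 hF, hb, mul_one]
    rcases Nat.eq_zero_or_pos n with rfl | hn
    · exact hdom.1 _ hmem
    · exact (key n (by omega) (by omega)).mono (by omega)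
  · rw [Finset.mem_singleton.1 hF, hb, mul_one]
    exact (key (n + 1) le_rfl fun _ => hmt).mono (by push_cast; omega)

end E1b

theorem blk_E1b {k : Type} [Field k] [IsAlgClosed k] {p : ℕ} [Fact p.Prime] [CharP k p]
    (_hp : p ≠ 2) (h : Lv5 k p) (h1 : RE1a k p) : RE1b k p where
  du0 hu hP f hf := E1b.du0 h h1 hu hP f hf
  du2 hu hP f n hf hR := E1b.du2 h h1 hu hP f n hf hR

end Pool.Agent.Lib.MP_5f81cf_ag.Full.Res
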