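import Pool.Agent.Lib.MP_5f81cf_ag.ResBlue

/-! Generation of the canonical module, and Gorenstein points. -/

namespace Pool.Agent.Lib.MP_5f81cf_ag.Full.Res

open Pool.Agent.Lib.MP_e06174_ag

namespace E3

variable {k K L : Type} [Field k] [Field K] [Algebra k K] [Field L] [Algebra k L] [Algebra K L]
  [IsScalarTower k K L] {B : Subalgebra k K} {a b : K} {O : Subalgebra k L}

omit [IsScalarTower k K L] in
lemma int_mem (hP : Proj B a b O) {t : L} (ht : IsIntegral B t) : t ∈ O := by
  refine hP.pt.normal t ?_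
  let φ : B →+* O :=
    { toFun := fun f => ⟨algebraMap K L f, hP.le f f.2⟩
      map_one' := Subtype.ext (by simp)
      map_mul' := fun x y => Subtype.ext (by simp)
      map_zero' := Subtype.ext (by simp)
      map_add' := fun x y => Subtype.ext (by simp) }
  exact ht.map_of_comp_eq φ (RingHom.id L) (RingHom.ext fun _ => rfl)

omit [Algebra k L] [IsScalarTower k K L] in
lemma int_map {f : K} (hf : f ∈ B) : IsIntegral B (algebraMap K L f) :=
  isIntegral_algebraMap (R := B) (A := L) (x := ⟨f, hf⟩)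

lemma int_const (c : k) : IsIntegral B (algebraMap k L c) := by
  rw [IsScalarTower.algebraMap_apply k K L]
  exact int_map (B.algebraMap_mem c)

omit [IsScalarTower k K L] in
lemma map_mx_gen (hP : Proj B a b O) {f : K} (hf : f ∈ mx B) :
    algebraMap K L f ∈ gen O {algebraMap K L a, algebraMap K L b} := by
  rw [hP.reg.par, mem_gen_two] at hf
  obtain ⟨c, hc, d, hd, rfl⟩ := hf
  exact mem_gen_two.2 ⟨_, hP.le c hc, _, hP.le d hd, by simp⟩

omit [IsScalarTower k K L] in
lemma gen_le_mx (hP : Proj B a b O) :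
    gen O {algebraMap K L a, algebraMap K L b} ≤ mx O := by
  refine gen_le hP.pt.isMod_mx ?_
  rintro f (rfl | rfl)
  · exact hP.red.a_mem
  · exact hP.red.b_mem

omit [IsScalarTower k K L] in
lemma map_mp (hP : Proj B a b O) (n : ℕ) {f : K} (hf : f ∈ mp B n) :
    algebraMap K L f ∈ mp O n := by
  induction n generalizing f with
  | zero => exact mem_mp_zero.2 (hP.le f (mem_mp_zero.1 hf))
  | succ n ih =>
    rw [mp, pow_succ, ← mul_assoc] at hf
    refine Submodule.mul_induction_on hf (fun x hx y hy => ?_) fun x y hx hy => ?_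
    · rw [map_mul]
      exact mul_mem_mp (ih hx) (mx_le_mp (gen_le_mx hP (map_mx_gen hP hy)))
    · rw [map_add]; exact add_mem hx hy

omit [Algebra k K] [Algebra k L] [IsScalarTower k K L] in
lemma tr_map (c : K) (g : L) :
    Algebra.trace K L (algebraMap K L c * g) = c * Algebra.trace K L g := by
  rw [← Algebra.smul_def, map_smul, smul_eq_mul]

lemma tr_const (c : k) (g : L) :
    Algebra.trace K L (algebraMap k L c * g) = c • Algebra.trace K L g := by
  rw [IsScalarTower.algebraMap_apply k K L, tr_map, Algebra.smul_def]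

/-- Traces against all integral elements, from those in the maximal ideal. -/
lemma all_of (hP : Proj B a b O) {N : Submodule k K} {g : L} (h0 : Algebra.trace K L g ∈ N)
    (h1 : ∀ t, IsIntegral B t → t ∈ mx O → Algebra.trace K L (g * t) ∈ N) {t : L}
    (ht : IsIntegral B t) : Algebra.trace K L (g * t) ∈ N := by
  obtain ⟨c, hc⟩ := hP.pt.res t (int_mem hP ht)
  have h2 := h1 _ (ht.sub (int_const c)) hc
  rw [show g * t = algebraMap k L c * g + g * (t - algebraMap k L c) by ring, map_add, tr_const]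
  exact add_mem (N.smul_mem c h0) h2

variable (B O) in
/-- The trace pairing with `g` is integral and maps the maximal ideal to the maximal ideal. -/
def W (g : L) : Prop :=
  ∀ t, IsIntegral B t → Algebra.trace K L (g * t) ∈ B ∧
    (t ∈ mx O → Algebra.trace K L (g * t) ∈ mx B)

omit [IsScalarTower k K L] in
lemma W.mul (hP : Proj B a b O) {g s : L} (hg : W B O g) (hs : IsIntegral B s) :
    W B O (s * g) := by
  intro t ht
  have h := hg (s * t) (hs.mul ht)
  rw [show s * g * t = g * (s * t) by ring]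
  exact ⟨h.1, fun h' => h.2 (hP.pt.isMod_mx s (int_mem hP hs) t h')⟩

lemma W.sub_smul {g g' : L} (hg : W B O g) (hg' : W B O g') (c : k) :
    W B O (g - algebraMap k L c * g') := by
  intro t ht
  rw [show (g - algebraMap k L c * g') * t = g * t - algebraMap k L c * (g' * t) by ring, map_sub,
    tr_const]
  exact ⟨sub_mem (hg t ht).1 (B.smul_mem (hg' t ht).1 c),
    fun h => sub_mem ((hg t ht).2 h) (Submodule.smul_mem _ c ((hg' t ht).2 h))⟩

omit [IsScalarTower k K L] in
lemma ge_ord_b (hP : Proj B a b O) {F : Place k L} (hF : DomP O F)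
    (hD : Dic F (algebraMap K L a / algebraMap K L b)) {z : L} (hz : z ∈ mx O) :
    F.Ge (F.ord (algebraMap K L b)) z := by
  have ha := hP.red.a_ne
  have hb := hP.red.b_ne
  have h0 := hD.ord.2
  rw [Place.ord_div _ ha hb] at h0
  by_cases hz0 : z = 0
  · simp [hz0]
  refine Place.ge_of_le ?_
  rcases hP.red.val F.O (fun f hf => Place.mem_O.2 (hF.1 f hf)) z hz with h | h
  · have := (Place.mem_O.1 h).le (div_ne_zero hz0 ha)
    rw [Place.ord_div _ hz0 ha] at this; omega
  · have := (Place.mem_O.1 h).le (div_ne_zero hz0 hb)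
    rw [Place.ord_div _ hz0 hb] at this; omega

variable {p : ℕ} [Fact p.Prime] [FiniteDimensional K L] [Algebra.IsSeparable K L]
  {u : Fin 2 → L}

lemma key (h : Lv6 k p) (hu : IsPB p u) (hP : Proj B a b O) (hR : PR u O) {z φ : L}
    (hz : z ∈ mx O) (hφ : φ * J u k (algebraMap K L a) (algebraMap K L b) ∈ om u O) :
    ∃ s, IsIntegral B s ∧ Un O s ∧ W B O (s * (z * φ)) := by
  obtain ⟨s, hs, hsu, hs'⟩ := h.e1.du2 hu hP (z * φ) 1
    (by rw [mul_assoc]; exact isMod_om u z (mx_le hz) _ hφ) (fun F hF hD => by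
      rw [mul_assoc]
      refine (ge_ord_b hP hF hD hz).mul' (hR F ⟨_, hD⟩ hF.1 _ hφ) ?_
      push_cast; omega)
  refine ⟨s, hs, hsu, fun t ht => ⟨mp_le _ (hs' t ht).1, fun ht' => ?_⟩⟩
  rw [← hP.reg.mp_one]; exact (hs' t ht).2 ht'

omit [IsScalarTower k K L] [FiniteDimensional K L] [Algebra.IsSeparable K L] in
/-- Expansion in an integral basis. -/
lemma mem_gen_of_tr (hP : Proj B a b O) {n : ℕ} {e e' : Fin n → L} (he : ∀ i, IsIntegral B (e i))
    (hx : ∀ t, t = ∑ i, algebraMap K L (Algebra.trace K L (t * e' i)) * e i) {s z : L}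
    (hs : Un O s) (h : ∀ i, Algebra.trace K L (s * z * e' i) ∈ mx B) :
    z ∈ gen O {algebraMap K L a, algebraMap K L b} := by
  have h1 : s * z ∈ gen O {algebraMap K L a, algebraMap K L b} := by
    rw [hx (s * z)]
    refine Submodule.sum_mem _ fun i _ => ?_
    rw [mul_comm]
    exact isMod_gen _ _ (int_mem hP (he i)) _ (map_mx_gen hP (h i))
  have := isMod_gen _ _ hs.2.2 _ h1
  rwa [← mul_assoc, inv_mul_cancel₀ hs.2.1, one_mul] at this

lemma exists_psi (h : Lv6 k p) (hu : IsPB p u) (hP : Proj B a b O) (hR : PR u O)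
    (hne : mx O ≠ gen O {algebraMap K L a, algebraMap K L b}) :
    ∃ w ∈ mx O, ∃ φ : L, φ * J u k (algebraMap K L a) (algebraMap K L b) ∈ om u O ∧
      Algebra.trace K L (w * φ) = 1 ∧ W B O (w * φ) := by
  classical
  obtain ⟨n, e, e', he, he', hx, -⟩ := h.free (L := L) hP.reg
  obtain ⟨z, hz, hz'⟩ : ∃ z ∈ mx O, z ∉ gen O {algebraMap K L a, algebraMap K L b} := by
    by_contra hc
    push Not at hc
    exact hne (le_antisymm hc (gen_le_mx hP))
  have hom : ∀ i, e' i * J u k (algebraMap K L a) (algebraMap K L b) ∈ om u O := fun i =>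
    h.e1.du1 hu hP _ fun t ht => by rw [mul_comm]; exact he' i t ht
  choose s hs hsu hW using fun i => key h hu hP hR hz (hom i)
  have hWi : ∀ i, W B O ((∏ j, s j) * z * e' i) := fun i => by
    rw [← Finset.prod_erase_mul _ _ (Finset.mem_univ i), mul_assoc, mul_assoc]
    exact (hW i).mul hP (IsIntegral.prod _ fun j _ => hs j)
  have hSu : Un O (∏ j, s j) := Un.prod fun j _ => hsu j
  obtain ⟨i, hi⟩ : ∃ i, Algebra.trace K L ((∏ j, s j) * z * e' i) ∉ mx B := by
    by_contra hc
    push Not at hc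
    exact hz' (mem_gen_of_tr hP he hx hSu hc)
  have hc : Un B (Algebra.trace K L ((∏ j, s j) * z * e' i)) :=
    (un_or_mx (by simpa using (hWi i 1 isIntegral_one).1)).resolve_right hi
  set c := Algebra.trace K L ((∏ j, s j) * z * e' i) with hcdef
  refine ⟨algebraMap K L c⁻¹ * ((∏ j, s j) * z), hP.pt.isMod_mx _ (hP.le _ hc.2.2) _
    (hP.pt.isMod_mx _ hSu.1 _ hz), e' i, hom i, ?_, ?_⟩
  · rw [mul_assoc, tr_map, ← hcdef, inv_mul_cancel₀ hc.2.1]
  · rw [mul_assoc]
    exact (hWi i).mul hP (int_map hc.2.2)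

lemma og (h : Lv6 k p) (hu : IsPB p u) (hP : Proj B a b O) (hR : PR u O) {R : Finset (Place k L)}
    (hRm : ∀ F, DomP O F → Dic F (algebraMap K L a / algebraMap K L b) → F ∈ R)
    (hne : mx O ≠ gen O {algebraMap K L a, algebraMap K L b}) : OG u O R (algebraMap K L b) := by
  intro n f hf hord
  rcases n with _ | m
  · rwa [pow_zero, one_mul]
  have hJ := h.e1.j_ne hu hP.reg (L := L)
  set J0 := J u k (algebraMap K L a) (algebraMap K L b) with hJ0
  obtain ⟨w, hw, φ, hφ, htr, hW⟩ := exists_psi h hu hP hR hne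
  obtain ⟨N, e, e', he, he', -, hx⟩ := h.free (L := L) hP.reg
  have hom : ∀ i, e' i * J0 ∈ om u O := fun i =>
    h.e1.du1 hu hP _ fun t ht => by rw [mul_comm]; exact he' i t ht
  obtain ⟨s, hs, hsu, hs'⟩ := h.e1.du2 hu hP (f / J0) (m + 1)
    (by rwa [← hJ0, div_mul_cancel₀ _ hJ]) (fun F hF hD => by
      rw [← hJ0, div_mul_cancel₀ _ hJ]; exact hord F (hRm F hF hD))
  set τ := Algebra.trace K L (s * (f / J0)) with hτ
  have hτm : τ ∈ mp B m := by simpa using (hs' 1 isIntegral_one).1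
  have hall : ∀ t, IsIntegral B t →
      Algebra.trace K L ((s * (f / J0) - algebraMap K L τ * (w * φ)) * t) ∈ mp B (m + 1) := by
    intro t ht
    refine all_of hP ?_ (fun t ht htm => ?_) ht
    · rw [map_sub, tr_map, htr, mul_one, ← hτ, sub_self]; exact zero_mem _
    · rw [sub_mul, map_sub, mul_assoc (algebraMap K L τ), tr_map]
      exact sub_mem ((hs' t ht).2 htm) (mul_mem_mp hτm (mx_le_mp ((hW t ht).2 htm)))
  have h1 : (s * (f / J0) - algebraMap K L τ * (w * φ)) * J0 ∈ mx O ^ (m + 1) * om u O := by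
    rw [hx (s * (f / J0) - algebraMap K L τ * (w * φ)), Finset.sum_mul]
    refine Submodule.sum_mem _ fun i _ => ?_
    rw [mul_assoc]
    refine Submodule.mul_mem_mul ?_ (hom i)
    rw [← hP.pt.mp_succ]
    exact map_mp hP _ (hall _ (he i))
  have h2 : algebraMap K L τ * w * (φ * J0) ∈ mx O ^ (m + 1) * om u O := by
    refine Submodule.mul_mem_mul ?_ hφ
    rw [← hP.pt.mp_succ]
    exact mul_mem_mp (map_mp hP _ hτm) (mx_le_mp hw)
  have h3 := ((isMod_om (O := O) u).mul_right (mx O ^ (m + 1))) _ hsu.2.2 _ (add_mem h1 h2)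
  have hs0 := hsu.2.1
  rwa [show s⁻¹ * ((s * (f / J0) - algebraMap K L τ * (w * φ)) * J0 +
    algebraMap K L τ * w * (φ * J0)) = f by field_simp; ring] at h3

lemma gor (h : Lv6 k p) (hu : IsPB p u) (hP : Proj B a b O) (hR : PR u O) {η : L}
    (hG : Gor u O η) : ∃ z, mx O = gen O {algebraMap K L a, algebraMap K L b, z} := by
  classical
  have hJ := h.e1.j_ne hu hP.reg (L := L)
  set J0 := J u k (algebraMap K L a) (algebraMap K L b) with hJ0
  have hη := hG.1
  obtain ⟨N, e, e', he, he', hx, -⟩ := h.free (L := L) hP.reg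
  have hom : ∀ i, e' i * J0 / η ∈ O := fun i =>
    (hG.2 _).1 (h.e1.du1 hu hP _ fun t ht => by rw [mul_comm]; exact he' i t ht)
  choose s' hs' hsu' hint using fun i => hP.loc _ (hom i)
  have hηm : η / J0 * J0 ∈ om u O := by
    rw [div_mul_cancel₀ _ hJ, hG.2, div_self hη]; exact one_mem _
  have hmem : ∀ s z : L, Un O s → W B O (s * (z * (η / J0))) →
      Algebra.trace K L (s * (z * (η / J0))) ∈ mx B →
      z ∈ gen O {algebraMap K L a, algebraMap K L b} := by
    intro s z hs hW h0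
    refine mem_gen_of_tr hP he hx (hs.mul (Un.prod (s := Finset.univ) fun j _ => hsu' j))
      fun i => ?_
    have := all_of hP h0 (fun t ht => (hW t ht).2)
      ((IsIntegral.prod (s := Finset.univ.erase i) _ fun j _ => hs' j).mul (hint i))
    rw [← Finset.prod_erase_mul _ _ (Finset.mem_univ i)]
    convert this using 2
    field_simp
  by_cases hne : mx O ≤ gen O {algebraMap K L a, algebraMap K L b}
  · refine ⟨0, le_antisymm (fun f hf => ?_) (gen_le hP.pt.isMod_mx ?_)⟩
    · obtain ⟨c, hc, d, hd, rfl⟩ := mem_gen_two.1 (hne hf)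
      exact mem_gen_three.2 ⟨c, hc, d, hd, 0, zero_mem _, by ring⟩
    · rintro f (rfl | rfl | rfl)
      · exact hP.red.a_mem
      · exact hP.red.b_mem
      · exact zero_mem _
  obtain ⟨z, hz, hz'⟩ := SetLike.not_le_iff_exists.1 hne
  refine ⟨z, le_antisymm (fun y hy => ?_) (gen_le hP.pt.isMod_mx ?_)⟩
  · obtain ⟨s₁, hs₁, hu₁, hW₁⟩ := key h hu hP hR hz hηm
    obtain ⟨s₂, hs₂, hu₂, hW₂⟩ := key h hu hP hR hy hηm
    have hWz : W B O (s₁ * s₂ * (z * (η / J0))) := by
      rw [mul_comm s₁, mul_assoc]; exact hW₁.mul hP hs₂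
    have hWy : W B O (s₁ * s₂ * (y * (η / J0))) := by
      rw [mul_assoc]; exact hW₂.mul hP hs₁
    obtain ⟨c₁, hc₁⟩ := hP.reg.res _ (by simpa using (hWz 1 isIntegral_one).1 :
      Algebra.trace K L (s₁ * s₂ * (z * (η / J0))) ∈ B)
    obtain ⟨c₂, hc₂⟩ := hP.reg.res _ (by simpa using (hWy 1 isIntegral_one).1 :
      Algebra.trace K L (s₁ * s₂ * (y * (η / J0))) ∈ B)
    have hc0 : c₁ ≠ 0 := by
      rintro rfl
      exact hz' (hmem _ z (hu₁.mul hu₂) hWz (by simpa using hc₁))
    have e1 : s₁ * s₂ * ((y - algebraMap k L (c₂ / c₁) * z) * (η / J0)) =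
        s₁ * s₂ * (y * (η / J0)) - algebraMap k L (c₂ / c₁) * (s₁ * s₂ * (z * (η / J0))) := by
      ring
    have h3 := hmem (s₁ * s₂) (y - algebraMap k L (c₂ / c₁) * z) (hu₁.mul hu₂)
      (by rw [e1]; exact hWy.sub_smul hWz _) (by
        rw [e1, map_sub, tr_const]
        convert sub_mem hc₂ (Submodule.smul_mem _ (c₂ / c₁) hc₁) using 1
        rw [smul_sub, Algebra.smul_def (c₂ / c₁) (algebraMap k K c₁), ← map_mul,
          div_mul_cancel₀ _ hc0]
        ring)
    obtain ⟨c, hc, d, hd, h4⟩ := mem_gen_two.1 h3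
    exact mem_gen_three.2 ⟨c, hc, d, hd, _, O.algebraMap_mem (c₂ / c₁), by
      rw [← h4]; ring⟩
  · rintro f (rfl | rfl | rfl)
    · exact hP.red.a_mem
    · exact hP.red.b_mem
    · exact hz

end E3

theorem blk_E3 {k : Type} [Field k] [IsAlgClosed k] {p : ℕ} [Fact p.Prime] [CharP k p]
    (hp : p ≠ 2) (h : Lv6 k p) : RE3 k p :=
  have _ := hp
  ⟨fun hu hP hR hRm hne => E3.og h hu hP hR hRm hne, fun hu hP hR hG => E3.gor h hu hP hR hG⟩

end Pool.Agent.Lib.MP_5f81cf_ag.Full.Res
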