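import Pool.Agent.Lib.MP_5f81cf_ag.ResBlue

/-! Double points and their quadratic transforms. -/

namespace Pool.Agent.Lib.MP_5f81cf_ag.Full.Res

open Pool.Agent.Lib.MP_e06174_ag

namespace G1

variable {k L : Type} [Field k] [Field L] [Algebra k L] {O : Subalgebra k L}
  {V : ValuationSubring L} {f x y z : L}

lemma mem_sq : f ∈ Subalgebra.toSubmodule O * Submodule.span k {x, y} ^ 2 ↔
    ∃ a ∈ O, ∃ b ∈ O, ∃ c ∈ O, f = a * x ^ 2 + b * (x * y) + c * y ^ 2 := by
  rw [← mem_gen_three]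
  have hx : x ∈ Submodule.span k {x, y} := Submodule.subset_span (by simp)
  have hy : y ∈ Submodule.span k {x, y} := Submodule.subset_span (by simp)
  have : Subalgebra.toSubmodule O * Submodule.span k {x, y} ^ 2
      = gen O {x ^ 2, x * y, y ^ 2} := by
    apply le_antisymm
    · refine (isMod_gen _).mul_le ?_
      rw [sq]
      refine Submodule.mul_le.2 fun a ha b hb => ?_
      obtain ⟨s, t, rfl⟩ := Submodule.mem_span_pair.1 ha
      obtain ⟨s', t', rfl⟩ := Submodule.mem_span_pair.1 hb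
      refine mem_gen_three.2 ⟨algebraMap k L (s * s'), O.algebraMap_mem _,
        algebraMap k L (s * t' + t * s'), O.algebraMap_mem _, algebraMap k L (t * t'),
        O.algebraMap_mem _, ?_⟩
      simp only [Algebra.smul_def, map_mul, map_add]
      ring
    · refine gen_le (isMod_mul _) ?_
      rintro g (rfl | rfl | rfl)
      · exact le_mul_self _ (Submodule.pow_mem_pow _ hx 2)
      · exact le_mul_self _ (by rw [sq]; exact Submodule.mul_mem_mul hx hy)
      · exact le_mul_self _ (Submodule.pow_mem_pow _ hy 2)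
  rw [this]

lemma gen_three_eq {r s : L} (hr : r ∈ O) (hs : s ∈ O) (h : z = r * x + s * y) :
    gen O {x, y, z} = gen O {x, y} := by
  ext g
  rw [mem_gen_three, mem_gen_two]
  constructor
  · rintro ⟨a, ha, b, hb, c, hc, rfl⟩
    exact ⟨a + c * r, add_mem ha (mul_mem hc hr), b + c * s, add_mem hb (mul_mem hc hs), by
      rw [h]; ring⟩
  · rintro ⟨a, ha, b, hb, rfl⟩
    exact ⟨a, ha, b, hb, 0, zero_mem _, by ring⟩

lemma gen_rot : gen O {x, y, z} = gen O {y, z, x} := by
  congr 1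
  ext g
  simp only [Set.mem_insert_iff, Set.mem_singleton_iff]
  tauto

lemma of_sq (h2 : (2 : k) ≠ 0) (hm : mx O = gen O {x, y, z})
    (hz : z ^ 2 ∈ Submodule.span k {x, y} * mx O) : DP O x y := by
  have key : ∀ g ∈ Submodule.span k {x, y} * mx O, ∃ a ∈ O, ∃ b ∈ O, ∃ c ∈ O, ∃ r ∈ O, ∃ s ∈ O,
      g = a * x ^ 2 + b * (x * y) + c * y ^ 2 + (r * x + s * y) * z := by
    intro g hg
    refine Submodule.mul_induction_on hg (fun u hu v hv => ?_) ?_
    · obtain ⟨s, t, rfl⟩ := Submodule.mem_span_pair.1 hu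
      rw [hm] at hv
      obtain ⟨a, ha, b, hb, c, hc, rfl⟩ := mem_gen_three.1 hv
      have hs := O.algebraMap_mem s
      have ht := O.algebraMap_mem t
      refine ⟨_, mul_mem hs ha, _, add_mem (mul_mem hs hb) (mul_mem ht ha), _, mul_mem ht hb,
        _, mul_mem hs hc, _, mul_mem ht hc, ?_⟩
      simp only [Algebra.smul_def]
      ring
    · rintro _ _ ⟨a, ha, b, hb, c, hc, r, hr, s, hs, rfl⟩
        ⟨a', ha', b', hb', c', hc', r', hr', s', hs', rfl⟩
      exact ⟨_, add_mem ha ha', _, add_mem hb hb', _, add_mem hc hc', _, add_mem hr hr', _,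
        add_mem hs hs', by ring⟩
  obtain ⟨a, ha, b, hb, c, hc, r, hr, s, hs, e⟩ := key _ hz
  have hh : algebraMap k L 2⁻¹ ∈ O := O.algebraMap_mem _
  have h1 : 2 * algebraMap k L 2⁻¹ = 1 := by
    rw [← map_ofNat (algebraMap k L) 2, ← map_mul, mul_inv_cancel₀ h2, map_one]
  generalize algebraMap k L 2⁻¹ = t at hh h1
  refine ⟨z - t * (r * x + s * y), ?_, mem_sq.2 ⟨a + t * t * r * r, ?_, b + 2 * t * t * r * s, ?_,
    c + t * t * s * s, ?_, ?_⟩⟩
  · rw [hm]
    ext g
    rw [mem_gen_three, mem_gen_three]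
    constructor
    · rintro ⟨a, ha, b, hb, c, hc, rfl⟩
      exact ⟨_, add_mem ha (mul_mem hc (mul_mem hh hr)), _,
        add_mem hb (mul_mem hc (mul_mem hh hs)), c, hc, by ring⟩
    · rintro ⟨a, ha, b, hb, c, hc, rfl⟩
      exact ⟨_, sub_mem ha (mul_mem hc (mul_mem hh hr)), _,
        sub_mem hb (mul_mem hc (mul_mem hh hs)), c, hc, by ring⟩
  · exact add_mem ha (mul_mem (mul_mem (mul_mem hh hh) hr) hr)
  · exact add_mem hb (mul_mem (mul_mem (mul_mem (mul_mem (ofNat_mem _ 2) hh) hh) hr) hs)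
  · exact add_mem hc (mul_mem (mul_mem (mul_mem hh hh) hs) hs)
  · linear_combination e - (r * x + s * y) * z * h1

lemma congr' {x' y' : L} (h : DP O x y) (hg : gen O {x, y} = gen O {x', y'}) : DP O x' y' := by
  obtain ⟨z, hm, hz⟩ := h
  obtain ⟨a, ha, b, hb, c, hc, e⟩ := mem_sq.1 hz
  have hx : x ∈ gen O {x', y'} := hg ▸ subset_gen (by simp)
  have hy : y ∈ gen O {x', y'} := hg ▸ subset_gen (by simp)
  refine ⟨z, ?_, ?_⟩
  · rw [hm, gen_rot, gen_rot, gen_rot (x := x'), gen_rot (x := y')]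
    ext g
    rw [gen_insert, gen_insert, hg]
  · obtain ⟨r, hr, s, hs, rfl⟩ := mem_gen_two.1 hx
    obtain ⟨r', hr', s', hs', rfl⟩ := mem_gen_two.1 hy
    refine mem_sq.2 ⟨a * r * r + b * r * r' + c * r' * r', ?_,
      2 * a * r * s + b * (r * s' + s * r') + 2 * c * r' * s', ?_,
      a * s * s + b * s * s' + c * s' * s', ?_, by rw [e]; ring⟩
    · exact add_mem (add_mem (mul_mem (mul_mem ha hr) hr) (mul_mem (mul_mem hb hr) hr'))
        (mul_mem (mul_mem hc hr') hr')
    · exact add_mem (add_mem (mul_mem (mul_mem (mul_mem (ofNat_mem _ 2) ha) hr) hs)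
        (mul_mem hb (add_mem (mul_mem hr hs') (mul_mem hs hr'))))
        (mul_mem (mul_mem (mul_mem (ofNat_mem _ 2) hc) hr') hs')
    · exact add_mem (add_mem (mul_mem (mul_mem ha hs) hs) (mul_mem (mul_mem hb hs) hs'))
        (mul_mem (mul_mem hc hs') hs')

lemma mem_of_sq (h : f ^ 2 ∈ V) : f ∈ V := by
  rcases V.mem_or_inv_mem f with h1 | h1
  · exact h1
  · by_cases h0 : f = 0
    · rw [h0]; exact zero_mem _
    · rw [show f = f ^ 2 * f⁻¹ by field_simp]
      exact mul_mem h h1

lemma step (h2 : (2 : k) ≠ 0) (rq : RQ k) {c : k} (hO : IsLoc O) (hP : IsPt (qt O V))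
    (hV : Dom V O) (hR : ResK k V) (hD : DP O x y) (hy : y ≠ 0)
    (hc : x / y - algebraMap k L c ∈ V.nonunits) : IsMin O V y ∧
      (DP (qt O V) (x / y - algebraMap k L c) y ∨ ∃ x' y', IsReg (qt O V) x' y') := by
  classical
  obtain ⟨z, hm, hz⟩ := hD
  obtain ⟨α, hα, β, hβ, γ, hγ, e⟩ := mem_sq.1 hz
  have hxV : x / y ∈ V := by
    have h1 : x / y - algebraMap k L c ∈ V := V.nonunits_le hc
    have := add_mem h1 (hR.1 c)
    rwa [sub_add_cancel] at this
  have e1 : (z / y) ^ 2 = α * (x / y) ^ 2 + β * (x / y) + γ := by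
    rw [div_pow, e]; field_simp
  have hzV : z / y ∈ V := by
    apply mem_of_sq
    rw [e1]
    exact add_mem (add_mem (mul_mem (hV.1 _ hα) (pow_mem hxV 2)) (mul_mem (hV.1 _ hβ) hxV))
      (hV.1 _ hγ)
  have hxm : x ∈ mx O := hm ▸ subset_gen (by simp)
  have hym : y ∈ mx O := hm ▸ subset_gen (by simp)
  have hzm : z ∈ mx O := hm ▸ subset_gen (by simp)
  have hmin : IsMin O V y := by
    refine rq.min_gen hV hm hym hy ?_
    rintro g (rfl | rfl | rfl)
    · exact hxV
    · rw [div_self hy]; exact one_mem _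
    · exact hzV
  refine ⟨hmin, ?_⟩
  obtain ⟨c0, hc0⟩ := hR.2 _ hzV
  set cf : L → k := fun g => if g = x then c else if g = y then 1 else c0 with hcf
  have cx : cf x = c := by simp [hcf]
  have cy : y / y - algebraMap k L (cf y) = 0 ∨
      y / y - algebraMap k L (cf y) = x / y - algebraMap k L c := by
    by_cases hyx : y = x
    · right; rw [← cx, ← hyx]
    · left; simp [hcf, hyx, div_self hy]
  have hall : ∀ g ∈ ({x, y, z} : Set L), g / y - algebraMap k L (cf g) ∈ V.nonunits := by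
    intro g hg
    by_cases h1 : g = x
    · rw [h1, cx]; exact hc
    · by_cases h3 : g = y
      · have : cf g = 1 := by simp [hcf, h3, h3 ▸ h1]
        rw [this, h3, div_self hy, map_one, sub_self]
        exact zero_mem _
      · have h4 : g = z := by simpa [h1, h3] using hg
        have : cf g = c0 := by simp [hcf, h1, h3]
        rw [this, h4]; exact hc0
  have hq := rq.mx_qt cf hO hV hR hmin hm hall
  obtain ⟨hO1, hV1, hle⟩ := rq.isLoc hO hV hR
  have hdiv : ∀ g ∈ mx O, g / y ∈ qt O V := fun g hg => by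
    rw [rq.qt_eq hV hmin]; exact le_loc _ _ (div_mem_chart hg)
  generalize qt O V = O1 at *
  generalize hc' : cf z = c' at *
  set x1 := x / y - algebraMap k L c with hx1
  set z1 := z / y - algebraMap k L c' with hz1
  have hm1 : mx O1 = gen O1 {x1, y, z1} := by
    rw [hq]
    apply le_antisymm
    · refine gen_le (isMod_gen _) ?_
      rintro g (rfl | ⟨g, rfl | rfl | rfl, rfl⟩)
      · exact subset_gen (by simp)
      · exact subset_gen (by simp [cx, hx1])
      · rcases cy with h | h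
        · simp only [h]; exact zero_mem _
        · simp only [h]; exact subset_gen (by simp)
      · exact subset_gen (by simp [hc', hz1])
    · refine gen_le (isMod_gen _) ?_
      rintro g (rfl | rfl | rfl)
      · exact subset_gen (Or.inr ⟨x, by simp, by simp [cx, hx1]⟩)
      · exact subset_gen (Or.inl rfl)
      · exact subset_gen (Or.inr ⟨z, by simp, by simp [hc', hz1]⟩)
  have hx1m : x1 ∈ mx O1 := hm1 ▸ subset_gen (by simp)
  have hy1m : y ∈ mx O1 := hm1 ▸ subset_gen (by simp)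
  have hz1m : z1 ∈ mx O1 := hm1 ▸ subset_gen (by simp)
  obtain ⟨a0, ha0⟩ := hO.res α hα
  obtain ⟨b0, hb0⟩ := hO.res β hβ
  obtain ⟨g0, hg0⟩ := hO.res γ hγ
  have hX : x / y ∈ O1 := hdiv x hxm
  set lam := algebraMap k L a0 * (x1 + 2 * algebraMap k L c) + algebraMap k L b0 with hlam
  set mu := (α - algebraMap k L a0) / y * (x / y) ^ 2 + (β - algebraMap k L b0) / y * (x / y)
    + (γ - algebraMap k L g0) / y with hmu
  have hlamO : lam ∈ O1 := add_mem (mul_mem (O1.algebraMap_mem _)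
    (add_mem (mx_le hx1m) (mul_mem (ofNat_mem _ 2) (O1.algebraMap_mem _)))) (O1.algebraMap_mem _)
  have hmuO : mu ∈ O1 := add_mem (add_mem (mul_mem (hdiv _ ha0) (pow_mem hX 2))
    (mul_mem (hdiv _ hb0) hX)) (hdiv _ hg0)
  have hu : z1 + algebraMap k L (2 * c') ∈ O1 := add_mem (mx_le hz1m) (O1.algebraMap_mem _)
  have e2 : z1 * (z1 + algebraMap k L (2 * c'))
      = algebraMap k L (a0 * c ^ 2 + b0 * c + g0 - c' ^ 2) + lam * x1 + mu * y := by
    have : mu * y = (α - algebraMap k L a0) * (x / y) ^ 2 + (β - algebraMap k L b0) * (x / y)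
        + (γ - algebraMap k L g0) := by
      rw [hmu]; field_simp
    rw [this, hlam, hx1, hz1]
    simp only [map_mul, map_add, map_sub, map_pow, map_ofNat]
    linear_combination e1
  have hd : a0 * c ^ 2 + b0 * c + g0 - c' ^ 2 = 0 := by
    by_contra hd
    refine hO1.not_un ?_ (un_const hd)
    have : algebraMap k L (a0 * c ^ 2 + b0 * c + g0 - c' ^ 2)
        = (z1 + algebraMap k L (2 * c')) * z1 - lam * x1 - mu * y := by
      linear_combination -e2
    rw [this]
    exact sub_mem (sub_mem (hO1.isMod_mx _ hu _ hz1m) (hO1.isMod_mx _ hlamO _ hx1m))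
      (hO1.isMod_mx _ hmuO _ hy1m)
  rw [hd, map_zero, zero_add] at e2
  by_cases hc0' : c' = 0
  · rw [hc0', mul_zero, map_zero, add_zero] at e2
    rcases un_or_mx hlamO with h1 | h1
    · refine Or.inr ⟨y, z1, hP, ?_⟩
      rw [hm1, gen_rot]
      refine gen_three_eq (r := -(lam⁻¹ * mu)) (s := lam⁻¹ * z1) (neg_mem (mul_mem h1.2.2 hmuO))
        (mul_mem h1.2.2 (mx_le hz1m)) ?_
      have := h1.2.1
      field_simp
      linear_combination -e2
    rcases un_or_mx hmuO with h3 | h3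
    · refine Or.inr ⟨z1, x1, hP, ?_⟩
      rw [hm1, gen_rot, gen_rot]
      refine gen_three_eq (r := mu⁻¹ * z1) (s := -(mu⁻¹ * lam)) (mul_mem h3.2.2 (mx_le hz1m))
        (neg_mem (mul_mem h3.2.2 hlamO)) ?_
      have := h3.2.1
      field_simp
      linear_combination -e2
    · refine Or.inl (of_sq h2 hm1 ?_)
      rw [sq, e2, mul_comm lam, mul_comm mu]
      exact add_mem (Submodule.mul_mem_mul (Submodule.subset_span (by simp)) h1)
        (Submodule.mul_mem_mul (Submodule.subset_span (by simp)) h3)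
  · have h1 : Un O1 (algebraMap k L (2 * c') + z1) :=
      hO1.un_add (un_const (mul_ne_zero h2 hc0')) hz1m
    rw [add_comm] at h1
    refine Or.inr ⟨x1, y, hP, ?_⟩
    rw [hm1]
    refine gen_three_eq (mul_mem h1.2.2 hlamO) (mul_mem h1.2.2 hmuO) ?_
    have := h1.2.1
    field_simp
    linear_combination e2

end G1

theorem blk_G1 {k : Type} [Field k] [IsAlgClosed k] {p : ℕ} [Fact p.Prime] [CharP k p]
    (hp : p ≠ 2) (h : Lv2 k p) : RG1 k := by
  have h2 : (2 : k) ≠ 0 := by
    intro h0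
    have h1 : p ∣ 2 := (CharP.cast_eq_zero_iff k p 2).1 (by exact_mod_cast h0)
    exact hp ((Nat.prime_dvd_prime_iff_eq Fact.out Nat.prime_two).1 h1)
  exact ⟨fun hm hz => G1.of_sq h2 hm hz, fun hD => G1.congr' hD (by rw [Set.pair_comm]),
    fun hD hg => G1.congr' hD hg,
    fun hO hP hV hR hD hy hc => G1.step h2 h.rq hO hP hV hR hD hy hc⟩

end Pool.Agent.Lib.MP_5f81cf_ag.Full.Res
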