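import Pool.Agent.Lib.MP_5f81cf_ag.ResBlue

/-! Curves through a point of a surface. -/

namespace Pool.Agent.Lib.MP_5f81cf_ag.Full.Res

open Pool.Agent.Lib.MP_e06174_ag IsLocalRing

namespace H

variable {k : Type} [Field k] {p : ℕ} [Fact p.Prime] {L : Type} [Field L] [Algebra k L]
  {O : Subalgebra k L} {F : Place k L}

theorem height_max (h : Lv1 k p) (hO : IsLoc O) [IsLocalRing O] :
    (maximalIdeal O).height = 2 := by
  obtain ⟨A, hA, hAO, hs⟩ := hO.fg
  let _ : Algebra A O := (Subalgebra.inclusion hAO).toAlgebra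
  have hco : ∀ a : A, ((algebraMap A O a : O) : L) = a := fun _ => rfl
  let n : Ideal A := (maximalIdeal O).under A
  have hn : ∀ a : A, a ∈ n ↔ (a : L) ∈ mx O := fun a => h.ra.maxi hO (algebraMap A O a)
  have hnp : n.IsPrime := inferInstance
  have : IsLocalization n.primeCompl O := by
    rw [isLocalization_iff]
    refine ⟨fun y => ?_, fun z => ?_, fun {x y} hxy => ⟨1, ?_⟩⟩
    · exact (notMem_maximalIdeal (x := algebraMap A O y)).mp y.2
    · obtain ⟨s, hs1, hs2, hs3⟩ := hs z z.2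
      exact ⟨⟨⟨_, hs3⟩, ⟨⟨s, hs1⟩, fun h0 => hO.not_un ((hn _).mp h0) hs2⟩⟩, rfl⟩
    · rw [Subalgebra.inclusion_injective hAO hxy]
  rw [← IsLocalization.height_under n.primeCompl (maximalIdeal O)]
  have : Algebra.FiniteType k A := (Subalgebra.fg_iff_finiteType A).mp hA
  have : IsFractionRing A L := IsFractionRing.of_field A L (fun z => by
    obtain ⟨s, hs1, hs0, hs2⟩ := hO.frac z
    obtain ⟨a, ha1, ha2, ha3⟩ := hs s hs1
    obtain ⟨b, hb1, hb2, hb3⟩ := hs _ hs2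
    refine ⟨⟨z * s * b * a, mul_mem hb3 ha1⟩, ⟨s * a * b, mul_mem ha3 hb1⟩, ?_⟩
    have := ha2.2.1
    have := hb2.2.1
    change z = z * s * b * a / (s * a * b)
    field_simp)
  have : Algebra.IsAlgebraic A L := IsLocalization.isAlgebraic L (nonZeroDivisors A)
  have h1 : Algebra.trdeg k A = (2 : ℕ) := by
    have h2 := trdeg_add_eq k A (A := L)
    rw [trdeg_eq_zero (R := A) (A := L), add_zero, hO.dim] at h2
    rw [h2]
    rfl
  have : Algebra.IsAlgebraic k (A ⧸ n) := ⟨fun x => by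
    obtain ⟨a, rfl⟩ := Ideal.Quotient.mk_surjective x
    obtain ⟨c, hc⟩ := hO.res a (hAO a.2)
    have h2 : Ideal.Quotient.mk n a = algebraMap k (A ⧸ n) c :=
      Ideal.Quotient.eq.mpr ((hn (a - algebraMap k A c)).mpr hc)
    rw [h2]
    exact isAlgebraic_algebraMap c⟩
  have h3 : Algebra.trdeg k (A ⧸ n) = (0 : ℕ) := by
    rw [trdeg_eq_zero]
    rfl
  exact (h.bas.a2.height_add n h1 h3).2

/-- the centre of a place -/
def ctr (hF : Cont O F) : Ideal O where
  carrier := {f | F.Ge 1 (f : L)}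
  zero_mem' := Place.ge_zero _
  add_mem' := fun ha hb => Place.Ge.add ha hb
  smul_mem' := fun c _ ha => (hF c c.2).mul' ha (by simp)

theorem ctr_centre (hF : Cont O F) : HasCentre F (ctr hF) := fun r => ⟨hF r r.2, Iff.rfl⟩

theorem ctr_prime (hF : Cont O F) : (ctr hF).IsPrime := by
  refine ⟨fun h0 => ?_, fun {a b} hab => ?_⟩
  · exact un_one.not_ge hF ((Ideal.eq_top_iff_one _).mp h0)
  · by_contra h0
    push Not at h0
    have ha := Place.not_ge_iff.mp h0.1
    have hb := Place.not_ge_iff.mp h0.2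
    have h1 : F.Ge 1 ((a : L) * b) := hab
    have h2 := h1.le (mul_ne_zero ha.1 hb.1)
    rw [F.ord_mul ha.1 hb.1] at h2
    omega

theorem ctr_ne_bot (hO : IsLoc O) (hF : Cont O F) : ctr hF ≠ ⊥ := by
  obtain ⟨π, h0, hπ⟩ := F.exists_ord_eq_one
  obtain ⟨s, hs1, hs0, hs2⟩ := hO.frac π
  intro h1
  have h2 : (⟨π * s, hs2⟩ : O) ∈ ctr hF :=
    (Place.ge_of_le hπ.ge).mul' (hF s hs1) (by simp)
  rw [h1, Ideal.mem_bot] at h2
  exact mul_ne_zero h0 hs0 (congrArg Subtype.val h2)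

theorem ctr_height (h : Lv1 k p) (hO : IsLoc O) (hF : Ht1 O F) : (ctr hF.1).height = 1 := by
  have := h.ra.isLocal hO
  have := ctr_prime hF.1
  have h1 : ctr hF.1 < maximalIdeal O := by
    refine lt_of_le_of_ne (le_maximalIdeal (Ideal.IsPrime.ne_top ‹_›)) (fun h0 => ?_)
    obtain ⟨f, hf, hf'⟩ := hF.2
    have h2 : (⟨f, mx_le hf⟩ : O) ∈ maximalIdeal O := (h.ra.maxi hO _).mpr hf
    rw [← h0] at h2
    exact hf' h2
  have h2 := Ideal.height_add_one_le_of_lt_of_isPrime h1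
  rw [height_max h hO] at h2
  have h3 : (ctr hF.1).height ≠ 0 := fun h0 =>
    ctr_ne_bot hO hF.1 (Ideal.height_eq_zero_iff_eq_bot.mp h0)
  generalize (ctr hF.1).height = n at h2 h3
  induction n using ENat.recTopCoe with
  | top => simp at h2
  | coe n =>
    have h4 : n + 1 ≤ 2 := by exact_mod_cast h2
    have h5 : n ≠ 0 := by exact_mod_cast h3
    have h6 : n = 1 := by omega
    rw [h6]
    rfl

theorem ht1_of (h : Lv1 k p) (hO : IsLoc O) {q : Ideal O} (hq : HasCentre F q)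
    (h1 : q.height = 1) : Ht1 O F := by
  have := h.ra.isLocal hO
  have hF : Cont O F := fun f hf => (hq ⟨f, hf⟩).1
  refine hF.domP_or.resolve_left (fun hd => ?_)
  have h2 : maximalIdeal O ≤ q := fun f hf => (hq f).2.mpr (hd.2 f ((h.ra.maxi hO f).mp hf))
  have h3 := Ideal.height_mono h2
  rw [height_max h hO, h1] at h3
  exact absurd h3 (by decide)

theorem exists_val (P : Ideal O) [hP : P.IsPrime] : ∃ W : ValuationSubring L,
    (∀ f ∈ O, f ∈ W) ∧ (∀ f ∈ P, (f : L) ∈ W.nonunits) ∧ ∀ s : O, s ∉ P → (s : L) ∉ W.nonunits := by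
  have h1P : (1 : O) ∉ P := fun h0 => hP.ne_top ((Ideal.eq_top_iff_one P).mpr h0)
  have hmul : ∀ {s t : O}, s ∉ P → t ∉ P → s * t ∉ P := fun hs ht h0 =>
    (hP.mem_or_mem h0).elim hs ht
  let B : Subring L :=
    { carrier := {f | ∃ s : O, s ∉ P ∧ f * s ∈ O}
      mul_mem' := by
        rintro f g ⟨s, hs, hf⟩ ⟨t, ht, hg⟩
        refine ⟨s * t, hmul hs ht, ?_⟩
        rw [MulMemClass.coe_mul, mul_mul_mul_comm]
        exact mul_mem hf hg
      one_mem' := ⟨1, h1P, by simp⟩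
      add_mem' := by
        rintro f g ⟨s, hs, hf⟩ ⟨t, ht, hg⟩
        refine ⟨s * t, hmul hs ht, ?_⟩
        rw [MulMemClass.coe_mul, show (f + g) * ((s : L) * t) = f * s * t + g * t * s by ring]
        exact add_mem (mul_mem hf t.2) (mul_mem hg s.2)
      zero_mem' := ⟨1, h1P, by simp⟩
      neg_mem' := by
        rintro f ⟨s, hs, hf⟩
        exact ⟨s, hs, by rw [neg_mul]; exact neg_mem hf⟩ }
  let I : Ideal B :=
    { carrier := {f | ∃ s : O, s ∉ P ∧ ∃ a ∈ P, (f : L) * s = a}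
      zero_mem' := ⟨1, h1P, 0, P.zero_mem, by simp⟩
      add_mem' := by
        rintro f g ⟨s, hs, a, ha, hf⟩ ⟨t, ht, b, hb, hg⟩
        refine ⟨s * t, hmul hs ht, a * t + b * s,
          P.add_mem (P.mul_mem_right _ ha) (P.mul_mem_right _ hb), ?_⟩
        push_cast
        rw [← hf, ← hg]
        ring
      smul_mem' := by
        rintro ⟨c, t, ht, hc⟩ f ⟨s, hs, a, ha, hf⟩
        refine ⟨s * t, hmul hs ht, ⟨_, hc⟩ * a, P.mul_mem_left _ ha, ?_⟩
        change c * f * ((s : L) * t) = c * t * a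
        rw [← hf]
        ring }
  have hI : I ≠ ⊤ := by
    intro h0
    obtain ⟨s, hs, a, ha, h2⟩ := (Ideal.eq_top_iff_one I).mp h0
    have h3 : s = a := Subtype.ext (by simpa using h2)
    exact hs (h3 ▸ ha)
  obtain ⟨W, hW1, hW2⟩ := Ideal.image_subset_nonunits_valuationSubring I hI
  have hOB : ∀ f ∈ O, f ∈ B := fun f hf => ⟨1, h1P, by simpa using hf⟩
  refine ⟨W, fun f hf => hW1 (hOB f hf), fun f hf =>
    hW2 ⟨⟨f, hOB f f.2⟩, ⟨1, h1P, f, hf, by simp⟩, rfl⟩, fun s hs h0 => ?_⟩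
  have hs0 : (s : L) ≠ 0 := fun h1 => hs (by rw [show s = 0 from Subtype.ext h1]; exact P.zero_mem)
  refine ((W.mem_nonunits_iff_or).mp h0).elim hs0 (fun h1 => h1 (hW1 ⟨s, hs, ?_⟩))
  rw [inv_mul_cancel₀ hs0]
  exact one_mem _

theorem ge_one_iff {f : L} : F.Ge 1 f ↔ f ∈ F.O.nonunits := by
  rw [ValuationSubring.mem_nonunits_iff_or, Place.mem_O]
  by_cases h0 : f = 0
  · simp [h0]
  · rw [Place.ge_iff h0, Place.ge_iff (inv_ne_zero h0), Place.ord_inv]
    simp only [h0, false_or]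
    omega

theorem ex0 (h : Lv1 k p) (hO : IsLoc O) {g : L} (hg : g ∈ mx O) (hg0 : g ≠ 0) :
    ∃ F : Place k L, Ht1 O F ∧ F.Ge 1 g := by
  have := h.ra.isLocal hO
  have := h.ra.noeth hO
  have := hO.ess
  let g' : O := ⟨g, mx_le hg⟩
  have h1 : Ideal.span {g'} ≤ maximalIdeal O :=
    (Ideal.span_singleton_le_iff_mem _).mpr ((h.ra.maxi hO g').mpr hg)
  obtain ⟨P, hP, hPm⟩ := Ideal.exists_minimalPrimes_le h1
  have hPp : P.IsPrime := hP.isPrime
  have h2 := Ideal.height_le_one_of_isPrincipal_of_mem_minimalPrimes _ P hP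
  obtain ⟨f, hf, hfP⟩ : ∃ f ∈ maximalIdeal O, f ∉ P := by
    by_contra h0
    push Not at h0
    have h3 := (Ideal.height_mono (show maximalIdeal O ≤ P from h0)).trans h2
    rw [height_max h hO] at h3
    exact absurd h3 (by decide)
  obtain ⟨W, hW1, hW2, hW3⟩ := exists_val P
  have hgW : g ∈ W.nonunits := hW2 g' (hP.le (Ideal.mem_span_singleton_self _))
  have hfm := (h.ra.maxi hO f).mp hf
  obtain ⟨F, rfl⟩ := h.rv.place2 W f hO.dim (fun c => hW1 _ (O.algebraMap_mem c))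
    (by
      rintro rfl
      exact ((ValuationSubring.mem_nonunits_iff_or _).mp hgW).elim hg0 (fun h0 => h0 trivial))
    (hW1 _ f.2) (fun c => by
      refine hW3 (f - algebraMap k O c) (fun h0 => ?_)
      by_cases hc : c = 0
      · exact hfP (by simpa [hc] using h0)
      · have h3 := hO.un_add (un_const (neg_ne_zero.2 hc)) hfm
        rw [map_neg, neg_add_eq_sub] at h3
        exact hO.not_un ((h.ra.maxi hO _).mp (hPm h0)) h3)
  exact ⟨F, ⟨fun x hx => Place.mem_O.mp (hW1 x hx), f, hfm,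
    fun h0 => hW3 f hfP (ge_one_iff.mp h0)⟩, ge_one_iff.mpr hgW⟩

theorem hart (h : Lv1 k p) (hO : IsPt O) (f : L) (hf : ∀ F : Place k L, Ht1 O F → F.Ge 0 f) :
    f ∈ O := by
  have := h.ra.isLocal hO.toIsLoc
  have := h.ra.noeth hO.toIsLoc
  have := h.ra.frac hO.toIsLoc
  have := h.ra.closed hO
  obtain ⟨a, b, hb, hab⟩ := h.bas.a1.hartogs (maximalIdeal O) f
    (fun E q h1 h2 _ => hf E (ht1_of h hO.toIsLoc h1 h2))
  have h1 : Un O (b : L) :=
    (un_or_mx b.2).resolve_right (fun h0 => hb ((h.ra.maxi hO.toIsLoc b).mpr h0))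
  have h2 : f = a * (b : L)⁻¹ := by
    rw [eq_mul_inv_iff_mul_eq₀ h1.2.1]
    exact hab
  rw [h2]
  exact mul_mem a.2 h1.2.2

theorem locz (h : Lv1 k p) (hO : IsPt O) (hF : Ht1 O F) (f : L) (hf : F.Ge 0 f) :
    ∃ s ∈ O, ¬ F.Ge 1 s ∧ f * s ∈ O := by
  have := h.ra.noeth hO.toIsLoc
  have := h.ra.frac hO.toIsLoc
  have := h.ra.closed hO
  obtain ⟨a, b, hb, hab⟩ := h.bas.a1.loc (ctr_centre hF.1) (ctr_height h hO.toIsLoc hF) f hf
  refine ⟨b, b.2, hb, ?_⟩
  have h1 : f * b = a := hab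
  rw [h1]
  exact a.2

end H

open H in
theorem blk_H {k : Type} [Field k] [IsAlgClosed k] {p : ℕ} [Fact p.Prime] [CharP k p]
    (_hp : p ≠ 2) (h : Lv1 k p) : RH k where
  ex := fun hO g hg => by
    rcases eq_or_ne g 0 with rfl | h0
    · obtain ⟨g, hg, h0⟩ := h.ra.mx_ne hO
      obtain ⟨F, hF, -⟩ := ex0 h hO hg h0
      exact ⟨F, hF, Place.ge_zero _⟩
    · exact ex0 h hO hg h0
  hart := fun hO f hf => H.hart h hO f hf
  un := fun hO f h0 hf =>
    ⟨H.hart h hO f (fun F hF => Place.ge_of_le (hf F hF).ge), h0,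
      H.hart h hO _ (fun F hF => Place.ge_of_le (by rw [Place.ord_inv, hf F hF, neg_zero]))⟩
  fin := fun {L} _ _ {O} hO f => by
    have := h.ra.noeth hO.toIsLoc
    have := h.ra.frac hO.toIsLoc
    have := h.ra.closed hO
    exact (h.bas.a1.finite (R := O) f).subset (fun F hF =>
      ⟨⟨_, ctr_centre hF.1.1, ctr_height h hO.toIsLoc hF.1⟩, hF.2⟩)
  locz := fun hO hF f hf => H.locz h hO hF f hf
  uniq := fun {L} _ _ {O F F'} hO hF hF' hle => by
    have h1 := ctr_prime hF.1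
    have h2 := ctr_prime hF'.1
    have h3 : ctr hF.1 = ctr hF'.1 := by
      by_contra h0
      have h4 := Ideal.height_add_one_le_of_lt_of_isPrime
        (lt_of_le_of_ne (show ctr hF.1 ≤ ctr hF'.1 from fun f hf => hle f f.2 hf) h0)
      rw [ctr_height h hO.toIsLoc hF, ctr_height h hO.toIsLoc hF'] at h4
      exact absurd h4 (by decide)
    refine Place.ext_of_ge (fun f hf => ?_)
    obtain ⟨s, hs, hs1, hs2⟩ := H.locz h hO hF f hf
    have h5 : ¬ F'.Ge 1 s := fun h0 => hs1 (by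
      have h6 : (⟨s, hs⟩ : O) ∈ ctr hF'.1 := h0
      rw [← h3] at h6
      exact h6)
    rcases eq_or_ne f 0 with rfl | h0
    · exact Place.ge_zero _
    have h6 := Place.not_ge_iff.mp h5
    have h7 := (hF'.1 _ hs2).le (mul_ne_zero h0 h6.1)
    rw [F'.ord_mul h0 h6.1] at h7
    exact Place.ge_of_le (by omega)

end Pool.Agent.Lib.MP_5f81cf_ag.Full.Res
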