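import Pool.Agent.Lib.MP_5f81cf_ag.ResBlue

/-! Monomial charts along a valuation. -/

namespace Pool.Agent.Lib.MP_5f81cf_ag.Full.Res

open Pool.Agent.Lib.MP_e06174_ag

namespace Ia

variable {k : Type} [Field k] {p : ℕ} [Fact p.Prime]

lemma mono_of (h : Lv10 k p) {L : Type} [Field L] [Algebra k L] {B : Subalgebra k L} {x y g : L}
    (hB : IsReg B x y) (hg : g ≠ 0)
    (ho : ∀ H : Place k L, Ht1 B H → ¬ H.Ge 1 x → ¬ H.Ge 1 y → H.ord g = 0) : Mono B x y g := by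
  obtain ⟨hx0, H₁, -, h1x, h1y, -, -, u1⟩ := h.r1a.hx hB
  obtain ⟨hy0, H₂, -, h2y, h2x, -, -, u2⟩ := h.r1a.hx hB.swap
  have hne : x ^ H₁.ord g * y ^ H₂.ord g ≠ 0 :=
    mul_ne_zero (zpow_ne_zero _ hx0) (zpow_ne_zero _ hy0)
  refine ⟨H₁.ord g, H₂.ord g, h.rh.un hB.toIsPt _ (div_ne_zero hg hne) fun H hH => ?_⟩
  rw [Place.ord_div _ hg hne, Place.ord_mul _ (zpow_ne_zero _ hx0) (zpow_ne_zero _ hy0),
    Place.ord_zpow, Place.ord_zpow]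
  by_cases c1 : H.Ge 1 x
  · rw [u1 H hH c1, h1x, h1y]; ring
  · by_cases c2 : H.Ge 1 y
    · rw [u2 H hH c2, h2x, h2y]; ring
    · have e1 := (hH.1 x (mx_le hB.x_mem)).le hx0
      have e2 := (hH.1 y (mx_le hB.y_mem)).le hy0
      have e3 := (Place.not_ge_iff.1 c1).2
      have e4 := (Place.not_ge_iff.1 c2).2
      rw [ho H hH c1 c2, show H.ord x = 0 by omega, show H.ord y = 0 by omega]; ring

lemma lin (h : Lv10 k p) {L : Type} [Field L] [Algebra k L] {B : Subalgebra k L} {x y g : L}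
    {H₁ H₂ : Place k L} (hB : IsReg B x y) (hg : Mono B x y g) (h1 : Ht1 B H₁) (g1 : H₁.Ge 1 x)
    (h2 : Ht1 B H₂) (g2 : H₂.Ge 1 y) :
    ∃ w, Un B w ∧ g = w * x ^ H₁.ord g * y ^ H₂.ord g := by
  obtain ⟨hx0, E₁, -, h1x, h1y, -, -, u1⟩ := h.r1a.hx hB
  obtain ⟨hy0, E₂, -, h2y, h2x, -, -, u2⟩ := h.r1a.hx hB.swap
  obtain rfl := u1 H₁ h1 g1
  obtain rfl := u2 H₂ h2 g2
  obtain ⟨α, β, hw⟩ := hg
  have hne : x ^ α * y ^ β ≠ 0 := mul_ne_zero (zpow_ne_zero _ hx0) (zpow_ne_zero _ hy0)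
  have hg0 : g ≠ 0 := fun h0 => hw.2.1 (by rw [h0, zero_div])
  have e1 := hw.ord h1.1
  have e2 := hw.ord h2.1
  rw [Place.ord_div _ hg0 hne, Place.ord_mul _ (zpow_ne_zero _ hx0) (zpow_ne_zero _ hy0),
    Place.ord_zpow, Place.ord_zpow] at e1 e2
  rw [h1x, h1y] at e1
  rw [h2x, h2y] at e2
  refine ⟨_, hw, ?_⟩
  rw [show H₁.ord g = α by omega, show H₂.ord g = β by omega, mul_assoc, div_mul_cancel₀ _ hne]

lemma chart (h : Lv10 k p) {L : Type} [Field L] [Algebra k L] {u : Fin 2 → L}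
    {O : Subalgebra k L} {V : ValuationSubring L} (G : Finset L) (hu : IsPB p u) (hO : IsPt O)
    (hpr : PR u O) (hV : Dom V O) (hk : ResK k V) (hG : (0 : L) ∉ G) :
    ∃ (B : Subalgebra k L) (x y : L), IsReg B x y ∧ qt O V ≤ B ∧ Dom V B ∧
      Mono B x y (J u k x y) ∧ (∀ g ∈ G, Mono B x y g) ∧
      ∀ E : Place k L, V ≤ E.O → Div E → Ht1 B E ∧ E.Ge 1 x := by
  classical
  obtain ⟨i, x', y', hi⟩ := h.lu hu hO hpr hV hk
  obtain ⟨hl, hmono⟩ := h.rq.ch_loc hO.toIsLoc hV hk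
  obtain ⟨x₀, y₀, h0⟩ := h.m1a.all hi (hl i).2 hk 1
  rw [← ch_add] at h0
  have hfin : (⋃ g ∈ insert (J u k x₀ y₀) G,
      {F : Place k L | Ht1 (ch O V (i + 1)) F ∧ F.ord g ≠ 0}).Finite :=
    (insert (J u k x₀ y₀) G).finite_toSet.biUnion fun g _ => h.rh.fin h0.toIsPt g
  obtain ⟨j, x, y, hB, hN, hE⟩ := h.mon hfin.toFinset h0 (hl (i + 1)).2 hk
  rw [← ch_add] at hB hN
  have key : ∀ H : Place k L, Ht1 (ch O V (i + 1 + j)) H → ¬ H.Ge 1 x → ¬ H.Ge 1 y →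
      Ht1 (ch O V (i + 1)) H ∧ ∀ g ∈ insert (J u k x₀ y₀) G, H.ord g = 0 := by
    intro H hH c1 c2
    have hn : ¬ (H ∈ hfin.toFinset ∨ ¬ Ht1 (ch O V (i + 1)) H) := fun hc =>
      (hN H hH hc).elim c1 c2
    rw [not_or, not_not] at hn
    refine ⟨hn.2, fun g hg => ?_⟩
    by_contra hc
    exact hn.1 (hfin.mem_toFinset.2 (Set.mem_biUnion (Finset.mem_coe.2 hg) ⟨hn.2, hc⟩))
  have hgB := (h.r2.reg hu hB).1
  have hg0 := (h.r2.reg hu h0).1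
  refine ⟨_, x, y, hB, hmono 1 (i + 1 + j) (by omega), (hl _).2, ?_, fun g hg => ?_,
    fun E hVE hd => ⟨⟨fun f hf => ?_, y, hB.y_mem, (hE E hVE hd).2⟩, (hE E hVE hd).1⟩⟩
  · refine mono_of h hB hgB.1 fun H hH c1 c2 => ?_
    obtain ⟨a, b⟩ := key H hH c1 c2
    rw [h.r2.gor_ord hu hB.toIsPt hgB hH, ← h.r2.gor_ord hu h0.toIsPt hg0 a]
    exact b _ (Finset.mem_insert_self _ _)
  · exact mono_of h hB (ne_of_mem_of_not_mem hg hG) fun H hH c1 c2 =>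
      (key H hH c1 c2).2 g (Finset.mem_insert_of_mem hg)
  · exact Place.mem_O.1 (hVE ((hl _).2.1 f hf))

end Ia

theorem blk_Ia {k : Type} [Field k] [IsAlgClosed k] {p : ℕ} [Fact p.Prime] [CharP k p]
    (hp : p ≠ 2) (h : Lv10 k p) : RIa k p :=
  ⟨fun G => Ia.chart h G, Ia.lin h⟩

end Pool.Agent.Lib.MP_5f81cf_ag.Full.Res
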