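import Pool.Agent.Lib.MP_5f81cf_ag.ResBlue

/-! The Jacobian of two proportional monomials. -/

namespace Pool.Agent.Lib.MP_5f81cf_ag.Full.Res

open Pool.Agent.Lib.MP_e06174_ag

namespace Ib

variable {k L : Type} [Field k] [Field L] [Algebra k L]

lemma der_mon (D : Derivation k L L) {w x y : L} (hw : w ≠ 0) (hx : x ≠ 0) (hy : y ≠ 0)
    (α β : ℤ) : D (w * x ^ α * y ^ β) =
      w * x ^ α * y ^ β * (D w * w⁻¹ + α * (D x * x⁻¹) + β * (D y * y⁻¹)) := by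
  simp only [Derivation.leibniz, Derivation.leibniz_zpow, smul_eq_mul, zsmul_eq_mul,
    zpow_sub_one₀ hx, zpow_sub_one₀ hy]
  field_simp
  ring

lemma J_mon (u : Fin 2 → L) {w w' x y : L} (hw : w ≠ 0) (hw' : w' ≠ 0) (hx : x ≠ 0) (hy : y ≠ 0)
    {α β α' β' : ℤ} (h : α * β' = α' * β) :
    J u k (w * x ^ α * y ^ β) (w' * x ^ α' * y ^ β') =
      (w * x ^ α * y ^ β) * (w' * x ^ α' * y ^ β') * (J u k w w' * w⁻¹ * w'⁻¹
        + α' * (J u k w x * w⁻¹ * x⁻¹) + β' * (J u k w y * w⁻¹ * y⁻¹)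
        + α * (J u k x w' * w'⁻¹ * x⁻¹) + β * (J u k y w' * w'⁻¹ * y⁻¹)) := by
  have h' : (α : L) * β' = α' * β := by exact_mod_cast congrArg (Int.cast (R := L)) h
  simp only [J_eq, der_mon _ hw hx hy, der_mon _ hw' hx hy]
  linear_combination (w * x ^ α * y ^ β) * (w' * x ^ α' * y ^ β') * x⁻¹ * y⁻¹ *
    (pd k u 0 x * pd k u 1 y - pd k u 1 x * pd k u 0 y) * h'

end Ib

theorem blk_Ib {k : Type} [Field k] [IsAlgClosed k] {p : ℕ} [Fact p.Prime] [CharP k p]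
    (_hp : p ≠ 2) (h : Lv5 k p) : RIb k p where
  det := by
    intro L _ _ u B x y w w' α β α' β' E hu hB hE hd hw hw' hα
    obtain ⟨E', hx, hy, -, -, huniq⟩ := h.r1b.exc hB
    obtain rfl := huniq E hE hd
    have hx0 : x ≠ 0 := by rintro rfl; simp at hx
    have hy0 : y ≠ 0 := by rintro rfl; simp at hy
    have hJ := h.r2.exc hu hB hE hd
    obtain ⟨⟨hJ0, hG⟩, -⟩ := h.r2.reg hu hB
    have key : ∀ a ∈ B, ∀ b ∈ B, E.Ge (2 - lam k u E) (J u k a b) := fun a ha b hb => by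
      have h1 := hE.1 _ ((hG _).1 (h.r2.j_mem hu hB.toIsPt.toIsLoc a ha b hb))
      have h2 := h1.mul (Place.ge_of_le hJ.ge)
      rwa [div_mul_cancel₀ _ hJ0, zero_add] at h2
    have iw : E.Ge 0 w⁻¹ := hE.1 _ hw.2.2
    have iw' : E.Ge 0 w'⁻¹ := hE.1 _ hw'.2.2
    have ix : E.Ge (-1) x⁻¹ := Place.ge_of_le (by simp [hx])
    have iy : E.Ge (-1) y⁻¹ := Place.ge_of_le (by simp [hy])
    have xB := mx_le hB.x_mem
    have yB := mx_le hB.y_mem
    have mon : ∀ {v : L} (a b : ℤ), Un B v → E.Ge (a + b) (v * x ^ a * y ^ b) := fun a b hv =>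
      (((hE.1 _ hv.1).mul (Place.ge_of_le (n := a) (by simp [hx]))).mul
        (Place.ge_of_le (n := b) (by simp [hy]))).mono (by omega)
    have tm : ∀ (n : ℤ) {a b c d : L}, a ∈ B → b ∈ B → E.Ge 0 c → E.Ge (-1) d →
        E.Ge (1 - lam k u E) (n * (J u k a b * c * d)) := fun n _ _ _ _ ha hb hc hd =>
      (Place.ge_intCast n).mul' (((key _ ha _ hb).mul hc).mul hd) (by omega)
    rw [Ib.J_mon u hw.2.1 hw'.2.1 hx0 hy0 hα]
    refine ((mon α β hw).mul (mon α' β' hw')).mul' (n := 1 - lam k u E)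
      (((((((key _ hw.1 _ hw'.1).mul iw).mul iw').mono (by omega)).add (tm _ hw.1 xB iw ix)).add
        (tm _ hw.1 yB iw iy)).add (tm _ xB hw'.1 iw' ix) |>.add (tm _ yB hw'.1 iw' iy)) (by omega)

end Pool.Agent.Lib.MP_5f81cf_ag.Full.Res
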