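import Pool.Agent.Lib.MP_5f81cf_ag.ResBlue

/-! Exceptional curves over pseudo-rational points are rational. -/

namespace Pool.Agent.Lib.MP_5f81cf_ag.Full.Res

open Pool.Agent.Lib.MP_e06174_ag

namespace JR

variable {k L K : Type} [Field k] [Field L] [Algebra k L] [Field K] [Algebra k K]
  {E : Place k L} {ρ : L → K}

lemma res_zero (h : IsRes E ρ) : ρ 0 = 0 := by simpa using h.const 0

lemma res_one (h : IsRes E ρ) : ρ 1 = 1 := by simpa using h.const 1

lemma res_smul (h : IsRes E ρ) (c : k) {a : L} (ha : E.Ge 0 a) : ρ (c • a) = c • ρ a := by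
  rw [Algebra.smul_def, h.mul _ _ (Place.ge_const c) ha, h.const, Algebra.smul_def]

lemma ge_mul {a b : L} (ha : E.Ge 0 a) (hb : E.Ge 0 b) : E.Ge 0 (a * b) := by
  simpa using ha.mul hb

lemma res_ne (h : IsRes E ρ) {s : L} (hs : E.Ge 0 s) (h0 : s ≠ 0) (hi : E.Ge 0 s⁻¹) :
    ρ s ≠ 0 := by
  intro h1
  have := h.mul _ _ hs hi
  rw [mul_inv_cancel₀ h0, res_one h, h1, zero_mul] at this
  exact one_ne_zero this

lemma res_sum (h : IsRes E ρ) {ι : Type} (s : Finset ι) (f : ι → L) (hf : ∀ i ∈ s, E.Ge 0 (f i)) :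
    ρ (∑ i ∈ s, f i) = ∑ i ∈ s, ρ (f i) := by
  classical
  induction s using Finset.induction_on with
  | empty => simpa using res_zero h
  | insert x s hx ih =>
    rw [Finset.sum_insert hx, Finset.sum_insert hx,
      h.add _ _ (hf x (Finset.mem_insert_self _ _))
        (Place.Ge.sum fun i hi => hf i (Finset.mem_insert_of_mem hi)),
      ih fun i hi => hf i (Finset.mem_insert_of_mem hi)]

/-- The residue of an element of a dominated point is a constant. -/
lemma res_const {O : Subalgebra k L} (h : IsRes E ρ) (hO : IsLoc O) (hE : DomP O E) {f : L}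
    (hf : f ∈ O) : ∃ c : k, ρ f = algebraMap k K c := by
  obtain ⟨c, hc⟩ := hO.res f hf
  refine ⟨c, ?_⟩
  have h1 := hE.2 _ hc
  have h2 := h.add _ _ (h1.mono (by omega)) (Place.ge_const c)
  rw [sub_add_cancel, (h.zero _ (h1.mono (by omega))).2 h1, zero_add, h.const] at h2
  exact h2

/-- The linear system cut out by the maximal ideal on the exceptional curve. -/
def sys (O : Subalgebra k L) (b : L) (h : IsRes E ρ) (hb : ∀ g ∈ mx O, E.Ge 0 (g / b)) :
    Submodule k K where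
  carrier := {w | ∃ g ∈ mx O, w = ρ (g / b)}
  add_mem' := by
    rintro _ _ ⟨g, hg, rfl⟩ ⟨g', hg', rfl⟩
    exact ⟨g + g', add_mem hg hg', by rw [add_div, h.add _ _ (hb g hg) (hb g' hg')]⟩
  zero_mem' := ⟨0, zero_mem _, by rw [zero_div, res_zero h]⟩
  smul_mem' := by
    rintro c _ ⟨g, hg, rfl⟩
    exact ⟨c • g, Submodule.smul_mem _ c hg, by rw [smul_div_assoc, res_smul h c (hb g hg)]⟩

variable {O : Subalgebra k L} {b : L}

lemma mem_sys (h : IsRes E ρ) (hb : ∀ g ∈ mx O, E.Ge 0 (g / b)) {g : L} (hg : g ∈ mx O) :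
    ρ (g / b) ∈ sys O b h hb := ⟨g, hg, rfl⟩

lemma sys_finite (h : IsRes E ρ) (hb : ∀ g ∈ mx O, E.Ge 0 (g / b)) (hO : IsLoc O)
    (hE : DomP O E) {S : Finset L} (hS : mx O = gen O S) :
    FiniteDimensional k (sys O b h hb) := by
  classical
  have hle : sys O b h hb ≤ Submodule.span k (S.image fun g => ρ (g / b) : Finset K) := by
    rintro _ ⟨g, hg, rfl⟩
    rw [hS] at hg
    obtain ⟨c, hc, rfl⟩ := mem_gen_finset.1 hg
    have hm : ∀ g ∈ S, g ∈ mx O := fun g hg => hS ▸ subset_gen hg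
    rw [Finset.sum_div, res_sum h]
    · refine Submodule.sum_mem _ fun g hg => ?_
      obtain ⟨d, hd⟩ := res_const h hO hE (hc g hg)
      rw [mul_div_assoc, h.mul _ _ (hE.1 _ (hc g hg)) (hb g (hm g hg)), hd, ← Algebra.smul_def]
      refine Submodule.smul_mem _ _ (Submodule.subset_span ?_)
      simp only [Finset.coe_image]
      exact ⟨g, hg, rfl⟩
    · intro g hg
      rw [mul_div_assoc]
      exact ge_mul (hE.1 _ (hc g hg)) (hb g (hm g hg))
  exact Submodule.finiteDimensional_of_le hle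

lemma sys_sq (h : IsRes E ρ) (hb : ∀ g ∈ mx O, E.Ge 0 (g / b)) {x y : L} (hx : x ∈ mx O)
    (hy : y ∈ mx O) (hsq : mx O ^ 2 ≤ Submodule.span k {x, y} * mx O) :
    sys O b h hb * sys O b h hb ≤ Submodule.span k {ρ (x / b), ρ (y / b)} * sys O b h hb := by
  refine Submodule.mul_le.2 ?_
  rintro _ ⟨g, hg, rfl⟩ _ ⟨g', hg', rfl⟩
  have h1 : g * g' ∈ Submodule.span k {x, y} * mx O :=
    hsq (by rw [pow_two]; exact Submodule.mul_mem_mul hg hg')
  have key : ∀ z ∈ Submodule.span k {x, y} * mx O, E.Ge 0 (z / b / b) ∧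
      ρ (z / b / b) ∈ Submodule.span k {ρ (x / b), ρ (y / b)} * sys O b h hb := by
    intro z hz
    refine Submodule.mul_induction_on hz (fun m hm n hn => ?_) (fun z z' hz hz' => ?_)
    · obtain ⟨c, d, rfl⟩ := Submodule.mem_span_pair.1 hm
      have hm' : c • x + d • y ∈ mx O :=
        add_mem (Submodule.smul_mem _ c hx) (Submodule.smul_mem _ d hy)
      have e : (c • x + d • y) * n / b / b = ((c • x + d • y) / b) * (n / b) := by ring
      rw [e]
      refine ⟨ge_mul (hb _ hm') (hb _ hn), ?_⟩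
      rw [h.mul _ _ (hb _ hm') (hb _ hn)]
      refine Submodule.mul_mem_mul ?_ (mem_sys h hb hn)
      rw [add_div, smul_div_assoc, smul_div_assoc,
        h.add _ _ ((hb x hx).smul c) ((hb y hy).smul d), res_smul h c (hb x hx),
        res_smul h d (hb y hy)]
      exact Submodule.mem_span_pair.2 ⟨c, d, rfl⟩
    · rw [add_div, add_div]
      exact ⟨hz.1.add hz'.1, by rw [h.add _ _ hz.1 hz'.1]; exact add_mem hz.2 hz'.2⟩
  have := (key _ h1).2
  rwa [show g * g' / b / b = (g / b) * (g' / b) by ring, h.mul _ _ (hb g hg) (hb g' hg')] at this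

lemma chart_mem (h : IsRes E ρ) (hb : ∀ g ∈ mx O, E.Ge 0 (g / b)) (hO : IsLoc O)
    (hE : DomP O E) (M : IntermediateField k K) (hM : ∀ w ∈ sys O b h hb, w ∈ M) {f : L}
    (hf : f ∈ chart O b) : E.Ge 0 f ∧ ρ f ∈ M := by
  induction hf using Algebra.adjoin_induction with
  | mem x hx =>
    rcases hx with hx | ⟨g, hg, rfl⟩
    · obtain ⟨c, hc⟩ := res_const h hO hE hx
      exact ⟨hE.1 x hx, hc ▸ M.algebraMap_mem c⟩
    · exact ⟨hb g hg, hM _ (mem_sys h hb hg)⟩
  | algebraMap c => exact ⟨Place.ge_const c, by rw [h.const]; exact M.algebraMap_mem c⟩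
  | add x y _ _ hx hy => exact ⟨hx.1.add hy.1, by rw [h.add _ _ hx.1 hy.1]; exact add_mem hx.2 hy.2⟩
  | mul x y _ _ hx hy =>
    exact ⟨ge_mul hx.1 hy.1, by rw [h.mul _ _ hx.1 hy.1]; exact mul_mem hx.2 hy.2⟩

lemma mem_of_mul (h : IsRes E ρ) (M : IntermediateField k K) {f s : L} (hf : E.Ge 0 f)
    (hs : E.Ge 0 s) (h0 : ρ s ≠ 0) (hsM : ρ s ∈ M) (hfs : ρ (f * s) ∈ M) : ρ f ∈ M := by
  rw [h.mul _ _ hf hs] at hfs
  have := M.mul_mem hfs (M.inv_mem hsM)
  rwa [mul_assoc, mul_inv_cancel₀ h0, mul_one] at this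

lemma isRes_comp {K' : Type} [Field K'] [Algebra k K'] (h : IsRes E ρ) (e : K ≃ₐ[k] K') :
    IsRes E fun f => e (ρ f) where
  add a b ha hb := by rw [h.add a b ha hb, map_add]
  mul a b ha hb := by rw [h.mul a b ha hb, map_mul]
  const c := by rw [h.const, AlgEquiv.commutes]
  zero a ha := by rw [← h.zero a ha, EmbeddingLike.map_eq_zero_iff]
  surj l := by
    obtain ⟨a, ha, h1⟩ := h.surj (e.symm l)
    exact ⟨a, ha, by rw [h1, AlgEquiv.apply_symm_apply]⟩

lemma trdeg_bot (hK : (⊥ : IntermediateField k K) = ⊤) : Algebra.trdeg k K = 0 := by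
  haveI : Algebra.IsAlgebraic k K := ⟨fun x => by
    have : x ∈ (⊥ : IntermediateField k K) := hK ▸ IntermediateField.mem_top
    obtain ⟨c, rfl⟩ := IntermediateField.mem_bot.1 this
    exact isAlgebraic_algebraMap c⟩
  exact trdeg_eq_zero

end JR

open JR in
theorem blk_JR {k : Type} [Field k] [IsAlgClosed k] {p : ℕ} [Fact p.Prime] [CharP k p]
    (hp : p ≠ 2) (h : Lv8 k p) : St_JR k p := by
  classical
  intro L _ _ u O E hu hO hPR hE hD
  haveI := hO.ess
  obtain ⟨V, hVE, hV, hR⟩ := h.rw.refine E.O hO.toIsLoc fun f hf => Place.mem_O.2 (hE.1 f hf)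
  have hch := h.l1.chain hu hO hPR hV hR
  have hex := h.rd.leave hO.toIsLoc hV hR hD
  have hlo := (h.rq.ch_loc hO.toIsLoc hV hR).1
  obtain ⟨j, hj⟩ : ∃ j, Nat.find hex = j + 1 := by
    refine Nat.exists_eq_succ_of_ne_zero fun h0 => ?_
    have := Nat.find_spec hex
    rw [h0] at this
    exact this hE
  have hE' : DomP (ch O V j) E := by
    have := Nat.find_min hex (m := j) (by omega)
    simpa using this
  have hn : ¬ DomP (ch O V (j + 1)) E := hj ▸ Nat.find_spec hex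
  have hc : Cont (ch O V (j + 1)) E := fun f hf => Place.mem_O.1 (hVE ((hlo (j + 1)).2.1 f hf))
  have hH : Ht1 (ch O V (j + 1)) E := hc.domP_or.resolve_left hn
  have hP1 := (hch (j + 1)).1
  set O' := ch O V j with hO'
  have hP : IsPt O' := (hch j).1
  have hV' : Dom V O' := (hlo j).2
  obtain ⟨S, -, hS⟩ := h.ra.fgm hP.toIsLoc (mx O') hP.toIsLoc.isMod_mx
    ⟨1, one_ne_zero, fun x hx => by rw [one_mul]; exact mx_le hx⟩
  obtain ⟨b', -, hb'⟩ := h.rq.ex_min hP.toIsLoc hV' S S.finite_toSet hS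
  obtain ⟨R, a, b, hRe, -⟩ := h.l1.str hu hP (hch j).2
  obtain ⟨K, _, _, ρ, hρ, hess, htr⟩ := h.rk.res hO.dim hD
  have hb : ∀ g ∈ mx O', E.Ge 0 (g / b') := fun g hg => Place.mem_O.1 (hVE (hb'.2.2 g hg))
  have hq : ch O V (j + 1) = loc (chart O' b') V := h.rq.qt_eq hV' hb'
  have htop : ∀ M : IntermediateField k K, (∀ w ∈ sys O' b' hρ hb, w ∈ M) → M = ⊤ := by
    intro M hM
    have h1 : ∀ f ∈ ch O V (j + 1), ρ f ∈ M := by
      intro f hf
      have hf' := hf
      rw [hq] at hf'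
      obtain ⟨s, hs, hs0, hsV, hfs⟩ := hf'
      have h2 := chart_mem hρ hb hP.toIsLoc hE' M hM hs
      exact mem_of_mul hρ M (hc f hf) h2.1 (res_ne hρ h2.1 hs0 (Place.mem_O.1 (hVE hsV))) h2.2
        (chart_mem hρ hb hP.toIsLoc hE' M hM hfs).2
    refine eq_top_iff.2 fun l _ => ?_
    obtain ⟨f, hf, rfl⟩ := hρ.surj l
    obtain ⟨s, hs, hs1, hfs⟩ := h.rh.locz hP1 hH f hf
    exact mem_of_mul hρ M hf (hc s hs) (fun h0 => hs1 ((hρ.zero s (hc s hs)).1 h0)) (h1 s hs)
      (h1 _ hfs)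
  have hone : (1 : K) ∈ sys O' b' hρ hb := by
    have := mem_sys hρ hb hb'.1
    rwa [div_self hb'.2.1, res_one hρ] at this
  have hnc : ∃ w ∈ sys O' b' hρ hb, ∀ c : k, w ≠ algebraMap k K c := by
    by_contra hcon
    push Not at hcon
    have := trdeg_bot (htop ⊥ fun w hw => by
      obtain ⟨c, rfl⟩ := hcon w hw
      exact IntermediateField.algebraMap_mem _ c)
    rw [htr] at this
    exact one_ne_zero this
  obtain ⟨ζ, hζ, hW⟩ := h.rat (sys O' b' hρ hb) (ρ (a / b')) (ρ (b / b'))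
    (sys_finite hρ hb hP.toIsLoc hE' hS) hone hnc (mem_sys hρ hb hRe.a_mem)
    (mem_sys hρ hb hRe.b_mem) (sys_sq hρ hb hRe.a_mem hRe.b_mem hRe.sq)
  have ht := htop _ hW
  let e : K ≃ₐ[k] RatFunc k :=
    (((RatFunc.algEquivOfTranscendental ζ hζ).trans (IntermediateField.equivOfEq ht)).trans
      IntermediateField.topEquiv).symm
  exact ⟨_, isRes_comp hρ e⟩

end Pool.Agent.Lib.MP_5f81cf_ag.Full.Res
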