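import Mathlib
import Pool.Agent.Lib.MP_e06174_ag.Ext

/-! Degree of imperfection of fields and of residue fields. -/

namespace Pool.Agent.Lib.MP_5f81cf_ag

open Pool.Agent.Lib.MP_e06174_ag Polynomial

section field

variable {E : Type} [Field E] (p : ℕ) [hp : Fact p.Prime] [CharP E p]

/-- More than `n` elements of `L` are linearly dependent over `L ^ p`. -/
def Dep (L : Subfield E) (n : ℕ) : Prop :=
  ∀ (ι : Type) [Fintype ι] (u : ι → E), (∀ i, u i ∈ L) → n < Fintype.card ι →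
    ∃ c : ι → E, (∀ i, c i ∈ L) ∧ (∃ i, c i ≠ 0) ∧ ∑ i, c i ^ p * u i = 0

/-- The subfield of `p`-th powers of elements of `L`. -/
noncomputable abbrev Pw (L : Subfield E) : Subfield E := L.map (frobenius E p)

lemma mem_Pw {L : Subfield E} {x : E} : x ∈ Pw p L ↔ ∃ y ∈ L, y ^ p = x := by
  simp [Subfield.mem_map, frobenius_def]

lemma Pw_le (L : Subfield E) : Pw p L ≤ L := by
  intro x hx
  obtain ⟨y, hy, rfl⟩ := (mem_Pw p).1 hx
  exact L.pow_mem hy p

lemma indep_pow (F : Subfield E) {x : E} (hxp : x ^ p ∈ F) (hx : x ∉ F) (f : Fin p → E)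
    (hf : ∀ i, f i ∈ F) (h : ∑ i, f i * x ^ (i : ℕ) = 0) : ∀ i, f i = 0 := by
  classical
  have hirr : Irreducible (X ^ p - C (⟨x ^ p, hxp⟩ : F)) := by
    refine X_pow_sub_C_irreducible_of_prime hp.out fun b hb => hx ?_
    have h1 : (b : E) ^ p = x ^ p := by simpa using congrArg Subtype.val hb
    have : (b : E) = x := frobenius_inj E p (by simpa [frobenius_def] using h1)
    rw [← this]; exact b.2
  have hmin : X ^ p - C (⟨x ^ p, hxp⟩ : F) = minpoly F x :=
    minpoly.eq_of_irreducible_of_monic hirr (by simp [Subfield.algebraMap_ofSubfield])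
      (monic_X_pow_sub_C _ hp.out.ne_zero)
  let P : F[X] := ∑ i : Fin p, C (⟨f i, hf i⟩ : F) * X ^ (i : ℕ)
  have hP : aeval x P = 0 := by
    simp only [P, map_sum, map_mul, aeval_C, map_pow, aeval_X]
    exact h
  have hdeg : P.degree < p := degree_sum_fin_lt _
  have hP0 : P = 0 := by
    by_contra h0
    have := minpoly.degree_le_of_ne_zero F x h0 hP
    rw [← hmin, degree_X_pow_sub_C hp.out.pos] at this
    exact absurd hdeg (not_lt.2 this)
  intro i
  have := congrArg (fun Q : F[X] => Q.coeff i) hP0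
  simp only [P, finsetSum_coeff, coeff_C_mul, coeff_X_pow, coeff_zero] at this
  rw [Finset.sum_eq_single i] at this
  · simpa using congrArg Subtype.val this
  · intro j _ hj
    rw [if_neg (fun h => hj (Fin.ext h.symm)), mul_zero]
  · simp

omit [CharP E p] in
lemma mem_closure_of_adjoin (F : Subfield E) {x y : E} (hxp : x ^ p ∈ F)
    (hy : y ∈ IntermediateField.adjoin F {x}) : y ∈ Subring.closure ((F : Set E) ∪ {x}) := by
  have hint : IsIntegral F x :=
    ⟨X ^ p - C (⟨x ^ p, hxp⟩ : F), monic_X_pow_sub_C _ hp.out.ne_zero, by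
      simp [Subfield.algebraMap_ofSubfield]⟩
  have h1 : y ∈ (IntermediateField.adjoin F {x}).toSubalgebra := hy
  rw [IntermediateField.adjoin_simple_toSubalgebra_of_isAlgebraic hint.isAlgebraic] at h1
  clear hy
  induction h1 using Algebra.adjoin_induction with
  | mem z hz => exact Subring.subset_closure (Or.inr hz)
  | algebraMap r => exact Subring.subset_closure (Or.inl r.2)
  | add _ _ _ _ h1 h2 => exact add_mem h1 h2
  | mul _ _ _ _ h1 h2 => exact mul_mem h1 h2

lemma exists_pbasis_of {L : Subfield E} (hL : Dep p L (p ^ 2)) {a : E} (ha : a ∈ L)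
    (ha' : a ∉ Pw p L) : ∃ b ∈ L, b ≠ 0 ∧ ∀ c ∈ L,
      c ∈ Subring.closure ((Pw p L : Set E) ∪ {a, b}) := by
  classical
  let F1 : Subfield E := (IntermediateField.adjoin (Pw p L) {a}).toSubfield
  have hap : a ^ p ∈ Pw p L := (mem_Pw p).2 ⟨a, ha, rfl⟩
  have hF1 : ∀ b, ∀ y ∈ F1, y ∈ Subring.closure ((Pw p L : Set E) ∪ {a, b}) := fun b y hy =>
    Subring.closure_mono (Set.union_subset_union_right _ (by simp))
      (mem_closure_of_adjoin p _ hap hy)
  have hPF : ∀ y ∈ Pw p L, y ∈ F1 := fun y hy =>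
    (IntermediateField.adjoin (Pw p L) {a}).algebraMap_mem ⟨y, hy⟩
  have haF : a ∈ F1 := IntermediateField.mem_adjoin_simple_self _ a
  by_cases h : ∀ c ∈ L, c ∈ F1
  · exact ⟨1, one_mem _, one_ne_zero, fun c hc => hF1 _ _ (h c hc)⟩
  push Not at h
  obtain ⟨b, hb, hb'⟩ := h
  refine ⟨b, hb, fun h0 => hb' (h0 ▸ zero_mem _), fun c hc => ?_⟩
  obtain ⟨f, hf, hf0, hsum⟩ := hL (Option (Fin p × Fin p))
    (fun o => o.elim c fun ij => a ^ (ij.1 : ℕ) * b ^ (ij.2 : ℕ))
    (by rintro (_ | ij)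
        · exact hc
        · exact mul_mem (pow_mem ha _) (pow_mem hb _))
    (by simp [sq])
  rw [Fintype.sum_option] at hsum
  simp only [Option.elim] at hsum
  by_cases h0 : f none = 0
  · exfalso
    rw [h0, zero_pow hp.out.ne_zero, zero_mul, zero_add, Fintype.sum_prod_type_right] at hsum
    have h1 := indep_pow p F1 (hPF _ ((mem_Pw p).2 ⟨b, hb, rfl⟩)) hb'
      (fun j => ∑ i : Fin p, f (some (i, j)) ^ p * a ^ (i : ℕ))
      (fun j => sum_mem fun i _ => mul_mem (hPF _ ((mem_Pw p).2 ⟨_, hf _, rfl⟩)) (pow_mem haF _))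
      (by rw [← hsum]; simp only [Finset.sum_mul, mul_assoc])
    obtain ⟨o, ho⟩ := hf0
    rcases o with _ | ⟨i, j⟩
    · exact ho h0
    · have := indep_pow p (Pw p L) hap ha' _ (fun i => (mem_Pw p).2 ⟨_, hf (some (i, j)), rfl⟩)
        (h1 j) i
      exact ho (pow_eq_zero_iff hp.out.ne_zero |>.1 this)
  · have hc' : c = -∑ ij : Fin p × Fin p, (f (some ij) / f none) ^ p *
        (a ^ (ij.1 : ℕ) * b ^ (ij.2 : ℕ)) := by
      have h2 : f none ^ p ≠ 0 := pow_ne_zero _ h0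
      apply mul_left_cancel₀ h2
      rw [mul_neg, Finset.mul_sum, eq_neg_iff_add_eq_zero, ← hsum]
      congr 1
      refine Finset.sum_congr rfl fun ij _ => ?_
      rw [div_pow]; field_simp
    rw [hc']
    refine neg_mem (sum_mem fun ij _ => mul_mem ?_ (mul_mem (pow_mem ?_ _) (pow_mem ?_ _)))
    · exact Subring.subset_closure (Or.inl ((mem_Pw p).2 ⟨_, div_mem (hf _) (hf _), rfl⟩))
    · exact Subring.subset_closure (Or.inr (by simp))
    · exact Subring.subset_closure (Or.inr (by simp))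

lemma exists_pbasis {L : Subfield E} (hL : Dep p L (p ^ 2)) :
    ∃ a ∈ L, ∃ b ∈ L, a ≠ 0 ∧ b ≠ 0 ∧ ∀ c ∈ L,
      c ∈ Subring.closure ((Pw p L : Set E) ∪ {a, b}) := by
  by_cases h : ∀ c ∈ L, c ∈ Pw p L
  · exact ⟨1, one_mem _, 1, one_mem _, one_ne_zero, one_ne_zero,
      fun c hc => Subring.subset_closure (Or.inl (h c hc))⟩
  push Not at h
  obtain ⟨a, ha, ha'⟩ := h
  obtain ⟨b, hb, hb0, h⟩ := exists_pbasis_of p hL ha ha'
  exact ⟨a, ha, b, hb, fun h0 => ha' (h0 ▸ zero_mem _), hb0, h⟩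

lemma dep_of_relrank {L : Subfield E} {n : ℕ} (h : (Pw p L).relrank L ≤ n) : Dep p L n := by
  intro ι _ u hu hn
  rw [Subfield.relrank_eq_rank_of_le (Pw_le p L)] at h
  let u' : ι → Subfield.extendScalars (Pw_le p L) := fun i => ⟨u i, hu i⟩
  have hdep : ¬ LinearIndependent (Pw p L) u' := by
    intro hli
    have := hli.cardinal_le_rank.trans h
    rw [Cardinal.mk_fintype] at this
    exact absurd (Nat.cast_le.1 this) (not_le.2 hn)
  rw [Fintype.not_linearIndependent_iff] at hdep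
  obtain ⟨g, hg, i0, hi0⟩ := hdep
  have hc : ∀ i, ∃ y ∈ L, y ^ p = (g i : E) := fun i => (mem_Pw p).1 (g i).2
  choose c hc hc' using hc
  refine ⟨c, hc, ⟨i0, fun h0 => hi0 (Subtype.ext ?_)⟩, ?_⟩
  · rw [← hc', h0, zero_pow hp.out.ne_zero]; rfl
  · have := congrArg (fun z : Subfield.extendScalars (Pw_le p L) => (z : E)) hg
    simp only [IntermediateField.coe_sum, ZeroMemClass.coe_zero] at this
    rw [← this]
    refine Finset.sum_congr rfl fun i _ => ?_
    rw [hc']; rfl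

lemma relrank_Pw_eq (L : Subfield E) [Module.Finite L E] :
    (Pw p L).relrank L = (Pw p (⊤ : Subfield E)).relrank ⊤ := by
  have h1 := Subfield.relrank_mul_relrank (Pw_le p L) (le_top : L ≤ ⊤)
  have h2 := Subfield.relrank_mul_relrank
    (Subfield.map_le_iff_le_comap.2 (fun x _ => Subfield.mem_comap.2
      (Subfield.mem_map.2 ⟨x, trivial, rfl⟩)) : Pw p L ≤ Pw p ⊤) (le_top : Pw p ⊤ ≤ ⊤)
  rw [Subfield.relrank_map_map] at h2
  have h3 : L.relrank ⊤ = (Module.finrank L E : Cardinal) := by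
    rw [Subfield.relrank_top_right, Module.finrank_eq_rank]
  have h4 : 0 < Module.finrank L E := Module.finrank_pos
  rw [← h2, h3, mul_comm] at h1
  exact Cardinal.mul_natCast_inj h4.ne' |>.1 (by rw [mul_comm, h1, mul_comm])

end field

section residue

variable {k K : Type} [Field k] [Field K] [Algebra k K] (F : Place k K)

/-- The residue field of the restriction of `F` to `L`, inside the residue field of `F`. -/
noncomputable def resSub (L : Subfield K) : Subfield (IsLocalRing.ResidueField F.O) where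
  carrier := {x | ∃ c : F.O, (c : K) ∈ L ∧ IsLocalRing.residue F.O c = x}
  mul_mem' := by
    rintro _ _ ⟨a, ha, rfl⟩ ⟨b, hb, rfl⟩
    exact ⟨a * b, mul_mem ha hb, map_mul _ _ _⟩
  one_mem' := ⟨1, one_mem L, map_one _⟩
  add_mem' := by
    rintro _ _ ⟨a, ha, rfl⟩ ⟨b, hb, rfl⟩
    exact ⟨a + b, add_mem ha hb, map_add _ _ _⟩
  zero_mem' := ⟨0, zero_mem L, map_zero _⟩
  neg_mem' := by
    rintro _ ⟨a, ha, rfl⟩
    exact ⟨-a, neg_mem ha, map_neg _ _⟩
  inv_mem' := by
    rintro _ ⟨a, ha, rfl⟩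
    by_cases h : IsLocalRing.residue F.O a = 0
    · exact ⟨0, zero_mem L, by simp [h]⟩
    · have hu : IsUnit a := by
        rwa [IsLocalRing.residue_eq_zero_iff, IsLocalRing.notMem_maximalIdeal] at h
      obtain ⟨u, rfl⟩ := hu
      refine ⟨(u⁻¹ : F.Oˣ), ?_, by simp⟩
      have : ((u⁻¹ : F.Oˣ) : F.O) = ((u : F.O) : K)⁻¹ := by
        apply eq_inv_of_mul_eq_one_left
        rw [← MulMemClass.coe_mul]; simp
      rw [this]; exact inv_mem ha

variable {F}

lemma res_eq_zero {c : F.O} : IsLocalRing.residue F.O c = 0 ↔ F.Ge 1 (c : K) := by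
  rw [IsLocalRing.residue_eq_zero_iff, Place.mem_maximalIdeal_O]

lemma res_eq_iff {c d : F.O} :
    IsLocalRing.residue F.O c = IsLocalRing.residue F.O d ↔ F.Ge 1 ((c : K) - d) := by
  rw [← sub_eq_zero, ← map_sub, res_eq_zero]; rfl

instance (p : ℕ) [hp : Fact p.Prime] [CharP K p] : CharP (IsLocalRing.ResidueField F.O) p := by
  have : CharP F.O p := CharP.subring' K p F.O.toSubring
  refine (CharP.charP_iff_prime_eq_zero hp.out).2 ?_
  rw [← map_natCast (IsLocalRing.residue F.O), CharP.cast_eq_zero, map_zero]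

lemma dep_res (p : ℕ) [hp : Fact p.Prime] [CharP K p] {L : Subfield K} (hL : Dep p L (p ^ 3))
    {ϖ : K} (hϖ : ϖ ∈ L) (hϖ0 : ϖ ≠ 0) (he : 0 < F.ord ϖ)
    (hdvd : ∀ c ∈ L, F.ord ϖ ∣ F.ord c) : Dep p (resSub F L) (p ^ 2) := by
  classical
  intro ι _ u hu hn
  choose w hw hw' using hu
  obtain ⟨c, hc, hc0, hsum⟩ := hL (ι × Fin p) (fun lj => (w lj.1 : K) * ϖ ^ (lj.2 : ℕ))
    (fun lj => mul_mem (hw _) (pow_mem hϖ _))
    (by rw [Fintype.card_prod, Fintype.card_fin, pow_succ]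
        exact Nat.mul_lt_mul_of_pos_right hn hp.out.pos)
  obtain ⟨⟨l0, j0⟩, h0, hmin⟩ := Finset.exists_min_image
    (Finset.univ.filter fun lj => c lj ≠ 0)
    (fun lj => (p : ℤ) * F.ord (c lj) + (lj.2 : ℕ) * F.ord ϖ)
    (by obtain ⟨i, hi⟩ := hc0; exact ⟨i, by simpa using hi⟩)
  simp only [Finset.mem_filter, Finset.mem_univ, true_and] at h0 hmin
  have hp0 : (0 : ℤ) < p := by exact_mod_cast hp.out.pos
  have hge : ∀ l, F.Ge 0 (c (l, j0) / c (l0, j0)) := by
    intro l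
    by_cases h : c (l, j0) = 0
    · simp [h]
    · have := hmin (l, j0) h
      refine Place.ge_of_le ?_
      rw [F.ord_div h h0]
      simp only at this
      nlinarith
  let d : ι → F.O := fun l => ⟨_, Place.mem_O.2 (hge l)⟩
  refine ⟨fun l => IsLocalRing.residue F.O (d l), fun l => ⟨d l, div_mem (hc _) (hc _), rfl⟩,
    ⟨l0, ?_⟩, ?_⟩
  · have : d l0 = 1 := Subtype.ext (div_self h0)
    simp [this]
  · have h1 : ∑ l, IsLocalRing.residue F.O (d l) ^ p * u l =
        IsLocalRing.residue F.O (∑ l, d l ^ p * w l) := by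
      simp only [map_sum, map_mul, map_pow, hw']
    rw [h1, res_eq_zero]
    have h2 : ((∑ l, d l ^ p * w l : F.O) : K) = -∑ lj ∈ Finset.univ.filter (fun lj => lj.2 ≠ j0),
        c lj ^ p * ((w lj.1 : K) * ϖ ^ (lj.2 : ℕ)) / (c (l0, j0) ^ p * ϖ ^ (j0 : ℕ)) := by
      have h3 : c (l0, j0) ^ p * ϖ ^ (j0 : ℕ) ≠ 0 := mul_ne_zero (pow_ne_zero _ h0) (pow_ne_zero _ hϖ0)
      rw [← Finset.sum_div, eq_neg_iff_add_eq_zero, ← mul_left_inj' h3, add_mul,
        div_mul_cancel₀ _ h3, zero_mul, ← hsum,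
        ← Finset.sum_filter_add_sum_filter_not Finset.univ (fun lj : ι × Fin p => lj.2 = j0)]
      congr 1
      rw [Finset.sum_filter, Fintype.sum_prod_type]
      simp only [Finset.sum_ite_eq', Finset.mem_univ, if_true, AddSubmonoidClass.coe_finsetSum,
        MulMemClass.coe_mul, SubmonoidClass.coe_pow, d, Finset.sum_mul]
      refine Finset.sum_congr rfl fun l _ => ?_
      rw [div_pow]; field_simp
    rw [h2]
    refine Place.Ge.neg (Place.Ge.sum fun lj hlj => ?_)
    simp only [Finset.mem_filter, Finset.mem_univ, true_and] at hlj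
    by_cases h : c lj = 0
    · simp [h, hp.out.ne_zero]
    have h4 : c lj ^ p * ((w lj.1 : K) * ϖ ^ (lj.2 : ℕ)) / (c (l0, j0) ^ p * ϖ ^ (j0 : ℕ)) =
        (c lj ^ p * ϖ ^ (lj.2 : ℕ) / (c (l0, j0) ^ p * ϖ ^ (j0 : ℕ))) * w lj.1 := by ring
    rw [h4]
    refine Place.Ge.mul' (m := 1) (Place.ge_of_le ?_) (Place.mem_O.1 (w lj.1).2) (by simp)
    rw [F.ord_div (mul_ne_zero (pow_ne_zero _ h) (pow_ne_zero _ hϖ0))
      (mul_ne_zero (pow_ne_zero _ h0) (pow_ne_zero _ hϖ0)),
      F.ord_mul (pow_ne_zero _ h) (pow_ne_zero _ hϖ0),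
      F.ord_mul (pow_ne_zero _ h0) (pow_ne_zero _ hϖ0)]
    simp only [Place.ord_pow]
    have h5 := hmin lj h
    obtain ⟨a, ha⟩ := hdvd _ (hc lj)
    obtain ⟨b, hb⟩ := hdvd _ (hc (l0, j0))
    rw [ha, hb] at h5 ⊢
    have hne : (p : ℤ) * a + (lj.2 : ℕ) ≠ p * b + (j0 : ℕ) := by
      intro heq
      have h6 : ((lj.2 : ℕ) : ℤ) % p = ((j0 : ℕ) : ℤ) % p := by
        have := congrArg (· % (p : ℤ)) heq
        simpa [Int.mul_add_emod_self_left] using this
      rw [Int.emod_eq_of_lt (by positivity) (by exact_mod_cast lj.2.2),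
        Int.emod_eq_of_lt (by positivity) (by exact_mod_cast j0.2)] at h6
      exact hlj (Fin.ext (by exact_mod_cast h6))
    have hle : (p : ℤ) * b + (j0 : ℕ) ≤ p * a + (lj.2 : ℕ) := by
      by_contra hlt
      push Not at hlt
      nlinarith
    have hlt : (p : ℤ) * b + (j0 : ℕ) + 1 ≤ p * a + (lj.2 : ℕ) := by omega
    nlinarith

end residue

end Pool.Agent.Lib.MP_5f81cf_ag
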