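import Pool.Agent.Lib.MP_5f81cf_ag.ResV1
import Pool.Agent.Lib.MP_5f81cf_ag.PDeg

/-! Divisorial places of a surface and adapted frames. -/

namespace Pool.Agent.Lib.MP_5f81cf_ag.Full.Res

open Pool.Agent.Lib.MP_e06174_ag

namespace K1

variable {k L K : Type} [Field k] [Field L] [Algebra k L] [Field K] [Algebra k K]

lemma div_iff [IsAlgClosed k] (F : Place k L) : Div F ↔ IsDivisorial 2 F := by
  constructor
  · rintro ⟨z, hz⟩
    exact ⟨![z], V1.hz_one F.v F.triv (V1.dic_val hz)⟩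
  · rintro ⟨a, ha⟩
    let i : Fin (2 - 1) := ⟨0, by norm_num⟩
    refine ⟨a i, ?_, fun c hc => ?_⟩
    · have := ha (MvPolynomial.X i) (MvPolynomial.X_ne_zero i)
      rw [MvPolynomial.aeval_X] at this
      exact Place.ge_zero_iff.mpr this.le
    · have h0 : (MvPolynomial.X i - MvPolynomial.C c : MvPolynomial (Fin (2 - 1)) k) ≠ 0 := by
        intro h
        have := congrArg (MvPolynomial.eval fun _ => c + 1) h
        simp at this
      have := ha _ h0
      rw [map_sub, MvPolynomial.aeval_X, MvPolynomial.aeval_C] at this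
      exact (Place.ge_one_iff.mp hc).ne this

lemma dic [IsAlgClosed k] {p : ℕ} [hp : Fact p.Prime] {F : Place k L} {z : L} (h : NotPow p F z) :
    Dic F z := by
  refine ⟨h.1, fun c => ?_⟩
  obtain ⟨c', rfl⟩ := IsAlgClosed.exists_pow_nat_eq c hp.out.pos
  rw [map_pow]
  exact h.2 _ (Place.ge_const c')

lemma res_pow {F : Place k L} {ρ : L → K} (h : IsRes F ρ) {w : L} (hw : F.Ge 0 w) (n : ℕ) :
    ρ (w ^ n) = ρ w ^ n := by
  induction n with
  | zero => simpa using h.const 1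
  | succ n ih => rw [pow_succ, h.mul _ _ (by simpa using hw.pow n) hw, ih, pow_succ]

lemma ge_iff {F : Place k L} {ρ : L → K} (h : IsRes F ρ) {z w : L} (hz : F.Ge 0 z) (hw : F.Ge 0 w)
    (n : ℕ) : F.Ge 1 (z - w ^ n) ↔ ρ z = ρ w ^ n := by
  have h1 : F.Ge 0 (w ^ n) := by simpa using hw.pow n
  have h2 := h.add _ _ (hz.sub h1) h1
  rw [sub_add_cancel, res_pow h hw] at h2
  rw [← h.zero _ (hz.sub h1), h2, add_eq_right]

end K1

theorem blk_K1 {k : Type} [Field k] [IsAlgClosed k] {p : Nat} [Fact p.Prime] [CharP k p]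
    (hp : p ≠ 2) (h : Bas k p) : RK1 k p where
  div_iff := fun F => K1.div_iff F
  dic := fun hz => K1.dic hz
  res := by
    intro L _ _ _ F hd hF
    obtain ⟨K, _, _, ρ, hρ⟩ := h.p1.exists_res F
    obtain ⟨h1, h2⟩ := h.p1.res_ess (d := 1) (by rw [hd]; norm_num) hρ ((K1.div_iff F).mp hF)
    exact ⟨K, _, _, ρ, hρ, h1, by rw [h2]; norm_num⟩
  adapt := by
    intro L K _ _ _ _ _ F ρ t z hd hρ ht hz
    obtain ⟨h1, h2⟩ := h.p1.res_ess (d := 1) (by rw [hd]; norm_num) hρ
      ((K1.div_iff F).mp ⟨z, K1.dic hz⟩)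
    obtain ⟨x, hx⟩ := h.c2.exists_pb (d := 1) h2
    have : CharP K p := charP_of_injective_algebraMap (algebraMap k K).injective p
    refine ⟨hρ, ht, fun i => by fin_cases i; exact hz.1, h.c1.pb_of_indep hx fun c hc α => ?_⟩
    have h3 : ρ z ∉ (frobenius K p).fieldRange := by
      rintro ⟨l, hl⟩
      obtain ⟨w, hw, rfl⟩ := hρ.surj l
      exact hz.2 w hw ((K1.ge_iff hρ hz.1 hw p).mpr hl.symm)
    have h4 := indep_pow p (frobenius K p).fieldRange ⟨ρ z, rfl⟩ h3
      (fun i => c (fun _ => i) ^ p) (fun i => ⟨_, rfl⟩) (by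
        rw [← hc]
        symm
        refine Fintype.sum_equiv (Equiv.funUnique (Fin 1) (Fin p)) _ _ fun β => ?_
        have hβ : (fun _ => Equiv.funUnique (Fin 1) (Fin p) β) = β := by
          funext i
          simp [Subsingleton.elim i 0]
        rw [hβ]
        simp [pmon]) (α 0)
    have hα : (fun _ => α 0) = α := by
      funext i
      rw [Subsingleton.elim i 0]
    rw [hα] at h4
    exact pow_eq_zero_iff (Fact.out : p.Prime).ne_zero |>.mp h4
  k3 := by
    intro L _ _ _ F hd hF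
    obtain ⟨x, hx⟩ := h.c2.exists_pb (K := L) (d := 2) (by rw [hd]; norm_num)
    obtain ⟨K, _, _, ρ, hρ⟩ := h.p1.exists_res F
    obtain ⟨t, z, ha⟩ := h.p1.exists_adapt (d := 1) hx hρ ((K1.div_iff F).mp hF)
    refine ⟨t, z 0, ha.ord, ha.ge 0, fun w hw h1 => ?_⟩
    have : CharP K p := charP_of_injective_algebraMap (algebraMap k K).injective p
    have h2 := h.c1.pd_x ha.pb 0 0
    rw [if_pos rfl, (K1.ge_iff hρ (ha.ge 0) hw p).mp h1, Derivation.leibniz_pow, nsmul_eq_mul,
      CharP.cast_eq_zero, zero_mul] at h2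
    exact zero_ne_one h2

end Pool.Agent.Lib.MP_5f81cf_ag.Full.Res
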