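import Pool.Agent.Lib.MP_5f81cf_ag.ResBlue

/-! Discrepancies and the Cartier operator along a divisorial place of a surface. -/

namespace Pool.Agent.Lib.MP_5f81cf_ag.Full.Res

open Pool.Agent.Lib.MP_e06174_ag

namespace K2

variable {k : Type} [Field k] {p : ℕ} [Fact p.Prime] {L : Type} [Field L] [Algebra k L]
  [Algebra.EssFiniteType k L] {u : Fin 2 → L} {F : Place k L}

theorem trdeg (h : Bas k p) (hu : IsPB p u) : Algebra.trdeg k L = 2 := by
  have := h.c2.trdeg_eq hu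
  rwa [Nat.cast_ofNat] at this

theorem ex_adapt (h : Bas k p) (h1 : RK1 k p) (hu : IsPB p u) (hF : Div F) :
    ∃ (K : Type) (_ : Field K) (_ : Algebra k K) (ρ : L → K) (t z : L), Adapt p F ρ t ![z] := by
  obtain ⟨K, _, _, ρ, hρ, -, -⟩ := h1.res (trdeg h hu) hF
  obtain ⟨t, z, ht, hz⟩ := h1.k3 (trdeg h hu) hF
  exact ⟨K, _, _, ρ, t, z, h1.adapt (trdeg h hu) hρ ht hz⟩

omit [Algebra.EssFiniteType k L] in
theorem ge_mul_iff {g f : L} (hg : g ≠ 0) {n : ℤ} : F.Ge (n + F.ord g) (g * f) ↔ F.Ge n f := by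
  constructor
  · intro h
    have := (F.ge_ord g⁻¹).mul' h (l := n) (by simp)
    rwa [← mul_assoc, inv_mul_cancel₀ hg, one_mul] at this
  · intro h
    exact (F.ge_ord g).mul' h (by omega)

theorem pred_cast : (((p - 1 : ℕ) : ℤ)) = p - 1 := by
  rw [Nat.cast_sub (Fact.out : p.Prime).one_le, Nat.cast_one]

theorem pred_succ : p - 1 + 1 = p * (0 + 1) := by
  have := (Fact.out : p.Prime).one_le
  omega

end K2

open K2 in
theorem blk_K2 {k : Type} [Field k] [IsAlgClosed k] {p : ℕ} [Fact p.Prime] [CharP k p]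
    (hp : p ≠ 2) (h : Bas k p) (h1 : RK1 k p) : RK2 k p where
  k0 := by
    intro L _ _ _ u F a b hu hF ha hb
    obtain ⟨K, _, _, ρ, t, z, hA⟩ := ex_adapt h h1 hu hF
    exact (h.p2.jac_ge (d := 1) hu hA ![a, b]).1 fun i => by fin_cases i <;> assumption
  k1 := by
    intro L _ _ _ u F a b m n hu hF ha hb
    obtain ⟨K, _, _, ρ, t, z, hA⟩ := ex_adapt h h1 hu hF
    have := (h.p2.jac_ge (d := 1) hu hA ![a, b]).2 ![m, n] fun i => by fin_cases i <;> assumption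
    rwa [Fin.sum_univ_two] at this
  k2 := by
    intro L _ _ _ u F t z hu ht hz
    obtain ⟨K, _, _, ρ, hρ, -, -⟩ := h1.res (trdeg h hu) ⟨z, h1.dic hz⟩
    have hA := h1.adapt (trdeg h hu) hρ ht hz
    refine ⟨(h.c1.pb_iff hu).1 (h.p2.adapt_pb (d := 1) hu hA), ?_⟩
    have h2 : lam k u F = 1 - F.ord (J u k t z) := h.p2.lam_eq (d := 1) hu hA
    omega
  c1 := by
    intro L _ _ _ u F n n' f hu hF hn hf
    obtain ⟨K, _, _, ρ, t, z, hA⟩ := ex_adapt h h1 hu hF
    obtain ⟨g, hg0, hg⟩ := F.exists_ord_eq (lam k u F)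
    have h2 : CGe u F (p - 1) n' (g ^ p * f) := by
      refine ((ge_mul_iff (pow_ne_zero p hg0)).2 hf).mono ?_
      rw [pred_cast, Place.ord_pow, hg]
      apply le_of_eq
      ring
    have h3 := h.p3.car_cge (d := 1) hu hA pred_succ hn h2
    rw [h.c1.car_pow_mul] at h3
    refine (ge_mul_iff hg0).1 (Place.Ge.mono h3 ?_)
    rw [hg]
    simp
  c2 := by
    intro L _ _ _ u F n f hu hF hf
    obtain ⟨K, _, _, ρ, t, z, hA⟩ := ex_adapt h h1 hu hF
    obtain ⟨g, hg0, hg⟩ := F.exists_ord_eq (lam k u F)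
    have h2 : ¬ CGe u F (p - 1) (p * n + 1) (g ^ p * f) := by
      intro h2
      refine hf ((ge_mul_iff (pow_ne_zero p hg0)).1 (Place.Ge.mono h2 ?_))
      rw [pred_cast, Place.ord_pow, hg]
      apply le_of_eq
      ring
    obtain ⟨b, hb, h3⟩ := h.p3.car_exact (d := 1) hu hA pred_succ h2
    refine ⟨b, hb, fun h4 => h3 ?_⟩
    rw [mul_left_comm, h.c1.car_pow_mul]
    refine ((ge_mul_iff hg0).2 h4).mono ?_
    rw [hg]
    simp
  chg := by
    intro L _ _ _ u F a b hu hF hJ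
    obtain ⟨K, _, _, ρ, t, z, hA⟩ := ex_adapt h h1 hu hF
    have h2 : IsPB p ![a, b] := (h.c1.pb_iff hu).2 hJ
    exact ⟨h2, h.p2.lam_change (d := 1) hu h2 hA⟩

end Pool.Agent.Lib.MP_5f81cf_ag.Full.Res
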