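import Pool.Agent.Lib.MP_5f81cf_ag.ResBlue

/-! Block L1: structure of pseudo-rational points. -/

namespace Pool.Agent.Lib.MP_5f81cf_ag.Full.Res

open Pool.Agent.Lib.MP_e06174_ag

namespace L1

variable {k : Type} [Field k] {p : ℕ} [Fact p.Prime] {L : Type} [Field L] [Algebra k L]
  {u : Fin 2 → L} {O : Subalgebra k L} {V : ValuationSubring L} {η : L}

lemma str (h : Lv7 k p) (hu : IsPB p u) (hO : IsPt O) (hP : PR u O) :
    ∃ (R : Finset (Place k L)) (a b : L), Rees O R a b ∧ (IsReg O a b ∨ OG u O R b) := by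
  obtain ⟨a, b, hr, hJ⟩ := h.red hu hO
  obtain ⟨K₀, B, a₀, b₀, h1, h2, rfl, rfl, hp⟩ := h.proj hu hO hr hJ
  obtain ⟨R, hR, hR'⟩ := h.bs hu hp hP
  refine ⟨R, _, _, hR, ?_⟩
  by_cases hm : mx O = gen O {algebraMap K₀ L a₀, algebraMap K₀ L b₀}
  · exact Or.inl ⟨hO, hm⟩
  · exact Or.inr (h.e3.og hu hp hP (fun F a b => (hR' F).2 ⟨a, b⟩) hm)

lemma dp (h : Lv7 k p) (hu : IsPB p u) (hO : IsPt O) (hP : PR u O) (hG : Gor u O η) :
    ∃ (K₀ : IntermediateField k L) (B : Subalgebra k K₀) (a b : K₀), FiniteDimensional K₀ L ∧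
      Algebra.IsSeparable K₀ L ∧ IsReg B a b ∧ (∀ f ∈ B, (f : L) ∈ O) ∧ DP O a b := by
  obtain ⟨a, b, hr, hJ⟩ := h.red hu hO
  obtain ⟨K₀, B, a₀, b₀, h1, h2, rfl, rfl, hp⟩ := h.proj hu hO hr hJ
  obtain ⟨R, hR, -⟩ := h.bs hu hp hP
  obtain ⟨z, hz⟩ := h.e3.gor hu hp hP hG
  refine ⟨K₀, B, a₀, b₀, h1, h2, hp.reg, hp.le, h.g1.of_sq hz (hR.sq ?_)⟩
  exact Submodule.pow_mem_pow _ (hz ▸ subset_gen (by simp)) 2

lemma chain (h : Lv7 k p) (hu : IsPB p u) (hO : IsPt O) (hP : PR u O) (hV : Dom V O)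
    (hR : ResK k V) (i : ℕ) : IsPt (ch O V i) ∧ PR u (ch O V i) := by
  induction i with
  | zero => exact ⟨hO, hP⟩
  | succ i ih =>
    have hD := ((h.rq.ch_loc hO.toIsLoc hV hR).1 i).2
    obtain ⟨R, a, b, h1, h2⟩ := str h hu ih.1 ih.2
    refine ⟨h.rn.nc ih.1 h1 hD hR, ?_⟩
    rcases h2 with h2 | h2
    · obtain ⟨x, y, h3⟩ := h.m1a.all h2 hD hR 1
      exact (h.r2.reg hu h3).2
    · exact (h.rn.om1 hu ih.1 h1 ih.2 h2 hD hR).2

lemma exists_min (V : ValuationSubring L) {S : Finset L} (hS : S.Nonempty) (h0 : (0 : L) ∉ S) :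
    ∃ η ∈ S, ∀ g ∈ S, g / η ∈ V := by
  obtain ⟨η, hη, h⟩ := S.exists_max_image V.valuation hS
  refine ⟨η, hη, fun g hg => ?_⟩
  have h1 : η ≠ 0 := fun e => h0 (e ▸ hη)
  rw [← V.valuation_le_one_iff, map_div₀]
  exact div_le_one_of_le₀ (h g hg) zero_le

lemma gor (h : Lv7 k p) (hu : IsPB p u) (hO : IsPt O) (hP : PR u O) (hV : Dom V O)
    (hR : ResK k V) (hn : ∀ i x y, ¬ IsReg (ch O V i) x y) :
    ∃ i η, ∀ j, i ≤ j → Gor u (ch O V j) η ∧
      ∀ x ∈ mx (ch O V j), ∀ y ∈ mx (ch O V j), J u k x y / η ∈ mx (ch O V j) := by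
  have hc := chain h hu hO hP hV hR
  obtain ⟨hl, hmono⟩ := h.rq.ch_loc hO.toIsLoc hV hR
  have hs : ∀ j, ∃ (R : Finset (Place k L)) (a b : L), Rees (ch O V j) R a b ∧
      OG u (ch O V j) R b := fun j => by
    obtain ⟨R, a, b, h1, h2⟩ := str h hu (hc j).1 (hc j).2
    exact ⟨R, a, b, h1, h2.resolve_left (hn j a b)⟩
  obtain ⟨S, hS, hS0, hom⟩ := h.r2.om_fg hu hO
  have hom' : ∀ j, om u (ch O V j) = gen (ch O V j) S := by
    intro j
    induction j with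
    | zero => exact hom
    | succ j ih =>
      obtain ⟨R, a, b, h1, h2⟩ := hs j
      have h3 := (h.rn.om1 hu (hc j).1 h1 (hc j).2 h2 (hl j).2 hR).1
      change om u (ch O V (j + 1)) = Subalgebra.toSubmodule (ch O V (j + 1)) * _ at h3
      rw [h3, ih]
      refine le_antisymm ((isMod_gen _).mul_le (gen_le ?_ fun f hf => subset_gen hf))
        (gen_le (isMod_mul _) fun f hf => le_mul_self _ (subset_gen hf))
      exact fun a ha => isMod_gen _ a (hmono j (j + 1) (Nat.le_succ j) ha)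
  obtain ⟨η, hη, hmin⟩ := exists_min V hS hS0
  have hη0 : η ≠ 0 := fun e => hS0 (e ▸ hη)
  have hi : ∀ g, ∃ i, g ∈ S → g / η ∈ ch O V i := fun g => by
    by_cases hg : g ∈ S
    · obtain ⟨i, hi⟩ := h.rd.union (fun i => (hc i).1) hV hR _ (hmin g hg)
      exact ⟨i, fun _ => hi⟩
    · exact ⟨0, fun h' => absurd h' hg⟩
  choose I hI using hi
  refine ⟨S.sup I, η, fun j hj => ?_⟩
  have hG : Gor u (ch O V j) η := by
    refine ⟨hη0, fun f => ?_⟩
    rw [hom']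
    constructor
    · intro hf
      have h1 : gen (ch O V j) S ≤ gen (ch O V j) {η} := gen_le (isMod_gen _) fun g hg =>
        mem_gen_one.2 ⟨g / η, hmono _ _ ((Finset.le_sup hg).trans hj) (hI g hg),
          (div_mul_cancel₀ g hη0).symm⟩
      obtain ⟨c, hc, rfl⟩ := mem_gen_one.1 (h1 hf)
      rwa [mul_div_cancel_right₀ _ hη0]
    · intro hf
      have := isMod_gen (S : Set L) _ hf _ (subset_gen (f := η) hη)
      rwa [div_mul_cancel₀ _ hη0] at this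
  refine ⟨hG, fun x hx y hy => ?_⟩
  have h1 := (hG.2 _).1 (h.r2.j_mem hu (hl j).1 x (mx_le hx) y (mx_le hy))
  refine (un_or_mx h1).resolve_left fun hw => ?_
  obtain ⟨R, a, b, h2, h3⟩ := hs j
  have hJ : J u k x y ≠ 0 := fun e => hw.2.1 (by rw [e, zero_div])
  refine h.rn.pur hu (hc j).1 h2 h3 hx hy ⟨hJ, fun f => (hG.2 f).trans ⟨fun hf => ?_, fun hf => ?_⟩⟩
  · have := mul_mem hf hw.2.2
    rwa [show f / η * (J u k x y / η)⁻¹ = f / J u k x y by field_simp] at this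
  · have := mul_mem hf hw.1
    rwa [show f / J u k x y * (J u k x y / η) = f / η by field_simp] at this

end L1

theorem blk_L1 {k : Type} [Field k] [IsAlgClosed k] {p : ℕ} [Fact p.Prime] [CharP k p]
    (_hp : p ≠ 2) (h : Lv7 k p) : RL1 k p where
  str := L1.str h
  dp := L1.dp h
  chain := L1.chain h
  gor := L1.gor h

end Pool.Agent.Lib.MP_5f81cf_ag.Full.Res
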