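import Pool.Agent.Lib.MP_5f81cf_ag.ResDPb

/-! Rational double points: classification and termination. -/

namespace Pool.Agent.Lib.MP_5f81cf_ag.Full.DP

variable {k L : Type} [Field k] [Field L] [Algebra k L]
  {O : Subalgebra k L} {m : Submodule k L} {x y z w : L}

lemma Gen.quad (h : Pnt O m) (g : Gen O m x y z) (hw : w ∈ m ^ 2) : ∃ (a b c : k), ∃ μ ∈ m,
    w - (algebraMap k L a * x * x + algebraMap k L b * x * y + algebraMap k L c * y * y + z * μ)
      ∈ m ^ 3 := by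
  obtain ⟨α, hα, β, hβ, γ, hγ, e⟩ := g.sq h hw
  obtain ⟨a1, a2, a3, ha⟩ := g.lin h hα
  obtain ⟨b1, b2, b3, hb⟩ := g.lin h hβ
  refine ⟨a1, a2 + b1, b2, _, add_mem (add_mem hγ (cm m a3 g.1)) (cm m b3 g.2.1), ?_⟩
  convert add_mem (p3 g.1 ha) (p3 g.2.1 hb) using 1
  rw [e, map_add]; ring

lemma Gen.cube (h : Pnt O m) (g : Gen O m x y z) (hw : w ∈ m ^ 3) :
    ∃ α ∈ m ^ 2, ∃ β ∈ m ^ 2, ∃ γ ∈ m ^ 2, w = α * x + β * y + γ * z := by
  rw [pow_succ] at hw
  refine Submodule.mul_induction_on hw (fun u hu v hv => ?_) ?_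
  · obtain ⟨α, hα, β, hβ, γ, hγ, e⟩ := g.2.2.2 v hv
    exact ⟨α * u, h.om 1 hα hu, β * u, h.om 1 hβ hu, γ * u, h.om 1 hγ hu, by rw [e]; ring⟩
  · rintro _ _ ⟨α, hα, β, hβ, γ, hγ, rfl⟩ ⟨α', hα', β', hβ', γ', hγ', rfl⟩
    exact ⟨_, add_mem hα hα', _, add_mem hβ hβ', _, add_mem hγ hγ', by ring⟩

lemma Gen.cubic (h : Pnt O m) (g : Gen O m x y z) (hw : w ∈ m ^ 3) : ∃ (a b c d : k), ∃ q ∈ m ^ 2,
    w - (algebraMap k L a * x * x * x + algebraMap k L b * x * x * y + algebraMap k L c * x * y * y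
      + algebraMap k L d * y * y * y + z * q) ∈ m ^ 4 := by
  obtain ⟨α, hα, β, hβ, γ, hγ, e⟩ := g.cube h hw
  obtain ⟨a1, a2, a3, μ, hμ, ha⟩ := g.quad h hα
  obtain ⟨b1, b2, b3, ν, hν, hb⟩ := g.quad h hβ
  refine ⟨a1, a2 + b1, a3 + b2, b3, _, add_mem (add_mem hγ (p2 g.1 hμ)) (p2 g.2.1 hν), ?_⟩
  convert add_mem (p4 g.1 ha) (p4 g.2.1 hb) using 1
  rw [e, map_add, map_add]; ring

variable [IsAlgClosed k]

lemma class_factor (h : Pnt O m) (g : Gen O m x y z) (hi : ∀ z ∈ m, z * z ∈ m ^ 4 → z ∈ m ^ 2)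
    {u β α : k} (hw : z * z - x * (algebraMap k L u * y * y + algebraMap k L β * x * y +
      algebraMap k L α * x * x) ∈ m ^ 4) : Reg O m ∨ (∃ x, StD O m x) ∨ StE O m := by
  by_cases hu : u = 0
  swap
  · obtain ⟨s, rfl⟩ := IsAlgClosed.exists_eq_mul_self u
    have hs : algebraMap k L s ≠ 0 := by
      rw [map_ne_zero]; rintro rfl; simp at hu
    refine Or.inr (Or.inl ⟨x, algebraMap k L s * y, z, (g.swap'.third (cm m s g.2.1)
      ⟨0, zero_mem _, 0, zero_mem _, _, O.algebraMap_mem s⁻¹, ?_⟩).swap', α, β / s, ?_⟩)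
    · rw [map_inv₀]; field_simp; ring
    · convert hw using 1
      rw [map_div₀, map_mul]; field_simp
  by_cases hβ : β = 0
  swap
  · have h5 : algebraMap k L β ≠ 0 := by simpa using hβ
    refine Or.inr (Or.inl ⟨algebraMap k L α * x + algebraMap k L β * y, x, z,
      g.change (add_mem (cm m _ g.1) (cm m _ g.2.1)) g.1 g.2.2.1
      ⟨0, zero_mem _, 1, one_mem _, 0, zero_mem _, by ring⟩
      ⟨_, O.algebraMap_mem β⁻¹, _, O.algebraMap_mem (-(α / β)), 0, zero_mem _, ?_⟩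
      ⟨0, zero_mem _, 0, zero_mem _, 1, one_mem _, by ring⟩, 0, 0, ?_⟩)
    · simp only [map_neg, map_inv₀, map_div₀]; field_simp; ring
    · convert hw using 1
      rw [hu, map_zero]; ring
  by_cases hα : α = 0
  · have : z ∈ m ^ 2 := hi z g.2.2.1 (by simpa [hu, hβ, hα] using hw)
    exact Or.inl ((g.nak h (z' := 0) (by simpa using this)).reg
      ⟨0, zero_mem _, 0, zero_mem _, by ring⟩)
  · obtain ⟨t, rfl⟩ := IsAlgClosed.exists_pow_nat_eq α (n := 3) (by norm_num)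
    have hs : algebraMap k L t ≠ 0 := by
      rw [map_ne_zero]; rintro rfl; simp at hα
    refine Or.inr (Or.inr ⟨y, algebraMap k L t * x, z, (g.swap.swap'.third (cm m t g.1)
      ⟨0, zero_mem _, 0, zero_mem _, _, O.algebraMap_mem t⁻¹, ?_⟩).swap', ?_⟩)
    · rw [map_inv₀]; field_simp; ring
    · convert hw using 1
      rw [hu, hβ, map_zero, map_pow]; ring

lemma class_cubic (h2 : (2 : k) ≠ 0) (h : Pnt O m) (g : Gen O m x y z)
    (hi : ∀ z ∈ m, z * z ∈ m ^ 4 → z ∈ m ^ 2) (hw : z * z ∈ m ^ 3) :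
    Reg O m ∨ (∃ x, StD O m x) ∨ StE O m := by
  obtain ⟨a, b, c, d, q, hq, hr⟩ := g.cubic h hw
  have h2' : algebraMap k L 2 = 2 := map_ofNat _ 2
  have h3 : (2 : L) ≠ 0 := by rw [← h2']; simpa using h2
  have g' : Gen O m x y (z - algebraMap k L 2⁻¹ * q) := g.nak h (by simpa using cm _ 2⁻¹ hq)
  have hr' : (z - algebraMap k L 2⁻¹ * q) * (z - algebraMap k L 2⁻¹ * q) -
      (algebraMap k L a * x * x * x + algebraMap k L b * x * x * y + algebraMap k L c * x * y * y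
      + algebraMap k L d * y * y * y) ∈ m ^ 4 := by
    convert add_mem hr (p22 (cm _ 2⁻¹ hq) (cm _ 2⁻¹ hq)) using 1
    rw [map_inv₀, h2']; field_simp; ring
  generalize z - algebraMap k L 2⁻¹ * q = z' at g' hr'
  by_cases hd : d = 0
  · refine class_factor h g' hi (u := c) (β := b) (α := a) ?_
    convert hr' using 1
    rw [hd, map_zero]; ring
  · obtain ⟨r, hr0⟩ := IsAlgClosed.exists_root (⟨d, c, b, a⟩ : Cubic k).toPoly
      (by rw [Cubic.degree_of_a_ne_zero hd]; norm_num)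
    have h0 : a = -(d * r ^ 3 + c * r ^ 2 + b * r) := by
      simp only [Cubic.toPoly, Polynomial.IsRoot, Polynomial.eval_add, Polynomial.eval_mul,
        Polynomial.eval_C, Polynomial.eval_pow, Polynomial.eval_X] at hr0
      linear_combination hr0
    refine class_factor h (x := y - algebraMap k L r * x) (y := x) (g'.change
      (sub_mem g.2.1 (cm m r g.1)) g.1 g'.2.2.1
      ⟨0, zero_mem _, 1, one_mem _, 0, zero_mem _, by ring⟩
      ⟨1, one_mem _, _, O.algebraMap_mem r, 0, zero_mem _, by ring⟩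
      ⟨0, zero_mem _, 0, zero_mem _, 1, one_mem _, by ring⟩) hi
      (u := b + 2 * c * r + 3 * d * r ^ 2) (β := c + 3 * d * r) (α := d) ?_
    convert hr' using 1
    simp only [h0, map_add, map_mul, map_neg, map_pow, map_ofNat]; ring

lemma classify (h2 : (2 : k) ≠ 0) (h : Pnt O m) (g : Gen O m x y z)
    (hi : ∀ z ∈ m, z * z ∈ m ^ 4 → z ∈ m ^ 2) {μ ν : L} (hμ : μ ∈ m) (hν : ν ∈ m)
    (e : z * z = x * μ + y * ν) :
    Reg O m ∨ (∃ x, StA O m x) ∨ (∃ x, StD O m x) ∨ StE O m := by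
  obtain ⟨a1, a2, a3, ha⟩ := g.lin h hμ
  obtain ⟨b1, b2, b3, hb⟩ := g.lin h hν
  have h2' : algebraMap k L 2 = 2 := map_ofNat _ 2
  have h3 : (2 : L) ≠ 0 := by rw [← h2']; simpa using h2
  set z' := z - (algebraMap k L (a3 / 2) * x + algebraMap k L (b3 / 2) * y) with hz'
  have g' : Gen O m x y z' := g.third (sub_mem g.2.2.1 (add_mem (cm m _ g.1) (cm m _ g.2.1)))
    ⟨_, O.algebraMap_mem (a3 / 2), _, O.algebraMap_mem (b3 / 2), 1, one_mem _, by rw [hz']; ring⟩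
  have hw : z' * z' - (algebraMap k L (a1 + a3 / 2 * (a3 / 2)) * x * x +
      algebraMap k L (a2 + b1 + a3 * (b3 / 2)) * x * y +
      algebraMap k L (b2 + b3 / 2 * (b3 / 2)) * y * y) ∈ m ^ 3 := by
    convert add_mem (p3 g.1 ha) (p3 g.2.1 hb) using 1
    simp only [hz', map_add, map_mul, map_div₀, h2']
    field_simp
    linear_combination 4 * e
  clear_value z'
  generalize a1 + a3 / 2 * (a3 / 2) = α at hw
  generalize a2 + b1 + a3 * (b3 / 2) = β at hw
  generalize b2 + b3 / 2 * (b3 / 2) = γ at hw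
  by_cases hα : α = 0
  swap
  · refine Or.inr (Or.inl ⟨_, stA_of_sq h2 g' hα (add_mem (cm m β g.1) (cm m γ g.2.1)) ?_⟩)
    convert hw using 1; ring
  by_cases hγ : γ = 0
  swap
  · refine Or.inr (Or.inl ⟨_, stA_of_sq h2 g'.swap hγ (cm m β g.2.1) ?_⟩)
    convert hw using 1; rw [hα, map_zero]; ring
  by_cases hβ : β = 0
  swap
  · refine Or.inr (Or.inl ⟨_, stA_of_prod g' (γ := 0) hβ ?_⟩)
    convert neg_mem hw using 1; rw [hα, hγ, map_zero]; ring
  rcases class_cubic h2 h g' hi (by simpa [hα, hβ, hγ] using hw) with h | h | h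
  · exact Or.inl h
  · exact Or.inr (Or.inr (Or.inl h))
  · exact Or.inr (Or.inr (Or.inr h))

/-- A chain of quadratic transforms starting at a double point, in which no chart parameter is
used forever, reaches a regular point. -/
theorem chain (h2 : (2 : k) ≠ 0) (O : ℕ → Subalgebra k L) (m : ℕ → Submodule k L)
    (hp : ∀ n, Pnt (O n) (m n)) (hs : ∀ n, Succ (O n) (m n) (O (n + 1)) (m (n + 1)))
    (hi : ∀ n, ∀ z ∈ m n, z * z ∈ m n ^ 4 → z ∈ m n ^ 2)
    (h0 : ∃ x y z, Gen (O 0) (m 0) x y z ∧ ∃ μ ∈ m 0, ∃ ν ∈ m 0, z * z = x * μ + y * ν)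
    (ha : ∀ n₀ x, ¬ ∀ n, n₀ ≤ n → Ch (m n) (O (n + 1)) x) : ∃ n, Reg (O n) (m n) := by
  by_contra hn
  push Not at hn
  have hA : ∀ n x, ¬ StA (O n) (m n) x := fun n₀ x h₀ => by
    have : ∀ n, n₀ ≤ n → StA (O n) (m n) x := fun n hle => by
      induction n, hle using Nat.le_induction with
      | base => exact h₀
      | succ n _ ih => exact ((ih.step (hp _) (hp _) (hs n)).resolve_left (hn _)).2
    exact ha n₀ x fun n hle => (((this n hle).step (hp _) (hp _) (hs n)).resolve_left (hn _)).1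
  have hD : ∀ n x, ¬ StD (O n) (m n) x := fun n₀ x h₀ => by
    have st : ∀ n, StD (O n) (m n) x → Ch (m n) (O (n + 1)) x ∧ StD (O (n + 1)) (m (n + 1)) x :=
      fun n h => ((h.step h2 (hp _) (hp _) (hs n)).resolve_left (hn _)).resolve_left
        fun ⟨x', h'⟩ => hA _ x' h'
    have : ∀ n, n₀ ≤ n → StD (O n) (m n) x := fun n hle => by
      induction n, hle using Nat.le_induction with
      | base => exact h₀
      | succ n _ ih => exact (st n ih).2
    exact ha n₀ x fun n hle => (st n (this n hle)).1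
  have hF : ∀ n, ¬ StF (O n) (m n) := fun n h =>
    ((h.step (hp _) (hp _) (hs n)).resolve_left (hn _)).elim fun x' h' => hD _ x' h'
  obtain ⟨x, y, z, g, μ, hμ, ν, hν, e⟩ := h0
  rcases classify h2 (hp 0) g (hi 0) hμ hν e with h | ⟨x', h⟩ | ⟨x', h⟩ | h
  · exact hn 0 h
  · exact hA 0 x' h
  · exact hD 0 x' h
  · rcases h.step h2 (hp _) (hp _) (hs 0) (hi _) with h | ⟨x', h⟩ | ⟨x', h⟩ | h
    · exact hn _ h
    · exact hA _ x' h
    · exact hD _ x' h
    · exact hF _ h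

end Pool.Agent.Lib.MP_5f81cf_ag.Full.DP
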