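import Pool.Agent.Lib.MP_5f81cf_ag.ResBlue
import Pool.Agent.Lib.MP_5f81cf_ag.ResDPc

/-! Local uniformisation of pseudo-rational points in odd characteristic. -/

namespace Pool.Agent.Lib.MP_5f81cf_ag.Full.Res

open Pool.Agent.Lib.MP_e06174_ag

namespace LU

variable {k L : Type} [Field k] [Field L] [Algebra k L] {p : ℕ} [Fact p.Prime]
  {O : Subalgebra k L} {V : ValuationSubring L} {u : Fin 2 → L}

lemma pnt (hO : IsLoc O) : DP.Pnt O (mx O) where
  le := fun _ ha => mx_le ha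
  mul := hO.isMod_mx
  res := hO.res
  unit := fun _ ha hn => ((un_or_mx ha).resolve_right hn).2.2
  one := hO.one_not_mem

lemma succ (h : Lv2 k p) (hO : IsLoc O) (hV : Dom V O) (hk : ResK k V) :
    DP.Succ O (mx O) (qt O V) (mx (qt O V)) := by
  obtain ⟨h1, h2, h3⟩ := h.rq.isLoc hO hV hk
  obtain ⟨S, -, hS⟩ := h.ra.fgm hO (mx O) hO.isMod_mx
    ⟨1, one_ne_zero, fun x hx => by simpa using mx_le hx⟩
  obtain ⟨b, -, hb⟩ := h.rq.ex_min hO hV S S.finite_toSet hS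
  have e := h.rq.qt_eq hV hb
  have hc : chart O b = Algebra.adjoin k ((O : Set L) ∪ (· / b) '' (mx O)) := by
    unfold chart
    congr 2
    ext f
    exact ⟨fun ⟨g, hg, e⟩ => ⟨g, hg, e.symm⟩, fun ⟨g, hg, e⟩ => ⟨g, hg, e.symm⟩⟩
  refine ⟨h3, fun f hf => h2.mem_mx (h3 (mx_le hf)) (hV.2 f hf), b, ⟨hb.1, hb.2.1, fun g hg => ?_⟩,
    fun f hf => ?_⟩
  · rw [e]; exact le_loc _ _ (div_mem_chart hg)
  · rw [e] at hf
    obtain ⟨s, hs, hs0, hsV, hf⟩ := hf
    refine ⟨f * s, hc ▸ hf, s, hc ▸ hs, fun hm => ?_, rfl⟩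
    exact (V.mem_nonunits_iff_or.1 (h2.2 s hm)).elim hs0 fun h' => h' hsV

lemma sq (hO : IsLoc O) {R : Finset (Place k L)} {a b : L} (hR : Rees O R a b) :
    ∀ z ∈ mx O, z * z ∈ mx O ^ 4 → z ∈ mx O ^ 2 := by
  intro z hz h4
  rw [← hO.mp_succ 1]
  refine hR.pow 2 z (mx_le hz) fun F hF => ?_
  have h1 := ge_of_mem_pow (hR.dom F hF).2.2 4 h4
  by_cases h0 : z = 0
  · rw [h0]; exact Place.ge_zero _
  · have h2 := h1.le (mul_ne_zero h0 h0)
    rw [F.ord_mul h0 h0] at h2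
    exact Place.ge_of_le (by push_cast at h2 ⊢; omega)

lemma start (hO : IsLoc O) {a b : L} (h : DP O a b) :
    ∃ x y z, DP.Gen O (mx O) x y z ∧ ∃ μ ∈ mx O, ∃ ν ∈ mx O, z * z = x * μ + y * ν := by
  obtain ⟨z, hm, hz⟩ := h
  have ha : a ∈ mx O := hm ▸ subset_gen (by simp)
  have hb : b ∈ mx O := hm ▸ subset_gen (by simp)
  refine ⟨a, b, z, ⟨ha, hb, hm ▸ subset_gen (by simp), fun f hf => mem_gen_three.1 (hm ▸ hf)⟩, ?_⟩
  have hle : Subalgebra.toSubmodule O * Submodule.span k {a, b} ≤ mx O :=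
    hO.isMod_mx.mul_le (Submodule.span_le.2 (by rintro f (rfl | rfl) <;> assumption))
  rw [pow_two (Submodule.span k {a, b}), ← mul_assoc, pow_two] at hz
  refine Submodule.mul_induction_on (C := fun w => ∃ μ ∈ mx O, ∃ ν ∈ mx O, w = a * μ + b * ν) hz
    (fun f hf g hg => ?_) ?_
  · obtain ⟨c, d, rfl⟩ := Submodule.mem_span_pair.1 hg
    exact ⟨c • f, Submodule.smul_mem _ c (hle hf), d • f, Submodule.smul_mem _ d (hle hf), by
      simp only [Algebra.smul_def]; ring⟩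
  · rintro _ _ ⟨μ, hμ, ν, hν, rfl⟩ ⟨μ', hμ', ν', hν', rfl⟩
    exact ⟨μ + μ', add_mem hμ hμ', ν + ν', add_mem hν hν', by ring⟩

lemma reg (hO : IsPt O) (h : DP.Reg O (mx O)) : ∃ x y, IsReg O x y := by
  obtain ⟨x, hx, y, hy, h⟩ := h
  refine ⟨x, y, hO, le_antisymm (fun f hf => mem_gen_two.2 (h f hf)) ?_⟩
  exact gen_le hO.isMod_mx (by rintro f (rfl | rfl) <;> assumption)

/-- The Jacobian bound. -/
lemma bound {P : ℕ → Subalgebra k L} {η x : L} {n₀ : ℕ} (hP : ∀ n, IsLoc (P n))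
    (hV : ∀ n, Dom V (P n)) (hJ : ∀ n, ∀ a ∈ P n, ∀ b ∈ P n, J u k a b / η ∈ P n)
    (hle : ∀ n, P n ≤ P (n + 1)) (hx : ∀ n, n₀ ≤ n → DP.Ch (mx (P n)) (P (n + 1)) x) (N : ℕ) :
    ∀ n, n₀ ≤ n → ∀ a ∈ P n, ∀ b ∈ P n, J u k a b / η / x ^ N ∈ V := by
  induction N with
  | zero => intro n _ a ha b hb; simpa using (hV n).1 _ (hJ n a ha b hb)
  | succ N ih =>
    intro n hn a ha b hb
    obtain ⟨c, hc⟩ := (hP n).res a ha
    obtain ⟨d, hd⟩ := (hP n).res b hb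
    obtain ⟨hxm, hx0, hx'⟩ := hx n hn
    have ha' := hx' _ hc
    have hb' := hx' _ hd
    have hxP : x ∈ P (n + 1) := hle n (mx_le hxm)
    set a' := (a - algebraMap k L c) / x
    set b' := (b - algebraMap k L d) / x
    have ea : a = x * a' + algebraMap k L c := by simp only [a']; field_simp; ring
    have eb : b = x * b' + algebraMap k L d := by simp only [b']; field_simp; ring
    have h1 := ih (n + 1) (by omega) a' ha' (x * b') (mul_mem hxP hb')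
    have h2 := ih (n + 1) (by omega) x hxP b' hb'
    have e : J u k a b = x * (J u k a' (x * b') + a' * J u k x b') := by
      rw [ea, eb]
      simp only [J_eq, map_add, Derivation.leibniz, smul_eq_mul, Derivation.map_algebraMap]
      ring
    convert add_mem h1 (mul_mem ((hV _).1 _ ha') h2) using 1
    rw [e, pow_succ]
    field_simp

/-- Inverting one element of a valuation ring. -/
def away (V : ValuationSubring L) {x : L} (hx : x ∈ V) : Subring L where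
  carrier := {f | ∃ N : ℕ, f * x ^ N ∈ V}
  mul_mem' := by
    rintro f g ⟨N, hf⟩ ⟨M, hg⟩
    exact ⟨N + M, by rw [pow_add, mul_mul_mul_comm]; exact mul_mem hf hg⟩
  one_mem' := ⟨0, by simp⟩
  add_mem' := by
    rintro f g ⟨N, hf⟩ ⟨M, hg⟩
    refine ⟨N + M, ?_⟩
    rw [show (f + g) * x ^ (N + M) = f * x ^ N * x ^ M + g * x ^ M * x ^ N by ring]
    exact add_mem (mul_mem hf (pow_mem hx M)) (mul_mem hg (pow_mem hx N))
  zero_mem' := ⟨0, by simp⟩
  neg_mem' := by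
    rintro f ⟨N, hf⟩
    exact ⟨N, by rw [neg_mul]; exact neg_mem hf⟩

lemma no_ch (h : Lv5 k p) (hu : IsPB p u) (hO : IsPt O) (hV : Dom V O) {η x : L}
    (hη : Gor u O η) (hx : x ∈ mx O) (hx0 : x ≠ 0)
    (hb : ∀ N : ℕ, ∀ a ∈ O, ∀ b ∈ O, J u k a b / η / x ^ N ∈ V) : False := by
  have := hO.ess
  have hxV : x ∈ V := hV.1 x (mx_le hx)
  have hxi : x⁻¹ ∉ V := (V.mem_nonunits_iff_or.1 (hV.2 x hx)).resolve_left hx0
  let W : ValuationSubring L := V.ofLE (away V hxV) fun f hf => ⟨0, by simpa using hf⟩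
  have hW : ∀ f, f ∈ W ↔ ∃ N : ℕ, f * x ^ N ∈ V := fun f => Iff.rfl
  have hVW : ∀ f ∈ V, f ∈ W := fun f hf => (hW f).2 ⟨0, by simpa using hf⟩
  have key : ∀ a ∈ O, ∀ b ∈ O, J u k a b ≠ 0 → (J u k a b / η)⁻¹ ∉ W := by
    intro a ha b hb' h0 hm
    obtain ⟨N, hN⟩ := (hW _).1 hm
    refine hxi ?_
    convert mul_mem hN (hb (N + 1) a ha b hb') using 1
    have := hη.1
    field_simp
    ring
  obtain ⟨S, -, hS⟩ := h.ra.fgm hO.toIsLoc (mx O) hO.isMod_mx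
    ⟨1, one_ne_zero, fun x hx => by simpa using mx_le hx⟩
  have hSO : ∀ g ∈ S, g ∈ O := fun g hg => mx_le (hS ▸ subset_gen hg)
  have hxW : x⁻¹ ∈ W := (hW _).2 ⟨1, by simp [inv_mul_cancel₀ hx0]⟩
  have hne : W ≠ ⊤ := by
    intro ht
    obtain ⟨H, hH, -⟩ := h.rh.ex hO.toIsLoc x hx
    obtain ⟨g, hg, g', hg', h0, -⟩ := h.r2.gradh S hu hO hS hH
    exact key g (hSO g hg) g' (hSO g' hg') h0 (ht ▸ ValuationSubring.mem_top _)
  obtain ⟨G, hG⟩ := h.rv.place2 W x hO.dim (fun c => hVW _ (hV.1 _ (O.algebraMap_mem c))) hne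
    (hVW x hxV) fun c hc => by
      rw [W.mem_nonunits_iff_or] at hc
      by_cases h0 : c = 0
      · rw [h0, map_zero, sub_zero] at hc
        exact hc.elim hx0 fun h' => h' hxW
      · have := hO.un_add (un_const (neg_ne_zero.2 h0)) hx
        rw [map_neg, neg_add_eq_sub] at this
        exact hc.elim this.2.1 fun h' => h' (hVW _ (hV.1 _ this.2.2))
  have hmem : ∀ f, f ∈ W ↔ G.Ge 0 f := fun f => by rw [← hG, Place.mem_O]
  have hH : Ht1 O G := ⟨fun f hf => (hmem f).1 (hVW f (hV.1 f hf)), x, hx, fun h1 => by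
    have h2 := ((hmem _).1 hxW).le (inv_ne_zero hx0)
    have h3 := h1.le hx0
    rw [Place.ord_inv] at h2
    omega⟩
  obtain ⟨g, hg, g', hg', h0, h1⟩ := h.r2.gradh S hu hO hS hH
  refine key g (hSO g hg) g' (hSO g' hg') h0 ((hmem _).2 (Place.ge_of_le ?_))
  rw [Place.ord_inv, G.ord_div h0 hη.1, h1, h.r2.gor_ord hu hO hη hH]
  omega

end LU

theorem blk_LU {k : Type} [Field k] [IsAlgClosed k] {p : ℕ} [Fact p.Prime] [CharP k p]
    (hp : p ≠ 2) (h : Lv9 k p) : St_LU k p := by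
  intro L _ _ u O V hu hO hPR hV hk
  by_contra hn
  push Not at hn
  obtain ⟨i, η, hη⟩ := h.l1.gor hu hO hPR hV hk hn
  have hc := h.l1.chain hu hO hPR hV hk
  obtain ⟨hl, hmono⟩ := h.rq.ch_loc hO.toIsLoc hV hk
  have h2 : (2 : k) ≠ 0 := fun h2 => hp ((Nat.prime_dvd_prime_iff_eq Fact.out Nat.prime_two).1
    ((CharP.cast_eq_zero_iff k p 2).1 (by exact_mod_cast h2)))
  have hG : ∀ n, Gor u (ch O V (i + n)) η := fun n => (hη _ (Nat.le_add_right i n)).1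
  obtain ⟨n, hn'⟩ := DP.chain h2 (fun n => ch O V (i + n)) (fun n => mx (ch O V (i + n)))
    (fun n => LU.pnt (hl _).1) (fun n => LU.succ h.toLv2 (hl _).1 (hl _).2 hk)
    (fun n => by
      obtain ⟨R, a, b, hR, -⟩ := h.l1.str hu (hc (i + n)).1 (hc (i + n)).2
      exact LU.sq (hl _).1 hR)
    (by
      obtain ⟨K₀, B, a, b, -, -, -, -, hd⟩ := h.l1.dp hu (hc (i + 0)).1 (hc (i + 0)).2 (hG 0)
      exact LU.start (hl _).1 hd)
    (fun n₀ x hx => by
      refine LU.no_ch h.toLv5 hu (hc (i + n₀)).1 (hl _).2 (hG n₀) (hx n₀ le_rfl).1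
        (hx n₀ le_rfl).2.1 fun N => ?_
      exact LU.bound (P := fun n => ch O V (i + n)) (fun n => (hl _).1) (fun n => (hl _).2)
        (fun n a ha b hb => ((hG n).2 _).1 (h.r2.j_mem hu (hl _).1 a ha b hb))
        (fun n => hmono _ _ (by omega)) hx N n₀ le_rfl)
  obtain ⟨x, y, hxy⟩ := LU.reg (hc _).1 hn'
  exact hn _ x y hxy

end Pool.Agent.Lib.MP_5f81cf_ag.Full.Res
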