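import Pool.Agent.Lib.MP_5f81cf_ag.ResBlue

/-! Block M1a: quadratic transforms of regular points. -/

namespace Pool.Agent.Lib.MP_5f81cf_ag.Full.Res

open Pool.Agent.Lib.MP_e06174_ag

namespace M1a

variable {k : Type} [Field k] {p : ℕ} [Fact p.Prime] {L : Type} [Field L] [Algebra k L]
  {O : Subalgebra k L} {V : ValuationSubring L} {x y : L} {c : k}

lemma step (h : Lv6 k p) (hO : IsReg O x y) (hV : Dom V O) (hR : ResK k V)
    (hc : x / y - algebraMap k L c ∈ V.nonunits) :
    IsMin O V y ∧ IsReg (qt O V) (x / y - algebraMap k L c) y := by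
  classical
  have hy0 : y ≠ 0 := (h.r1a.hx hO.swap).1
  have hxy : x / y ∈ V := by
    have := add_mem (V.nonunits_subset hc) (hR.1 c)
    rwa [sub_add_cancel] at this
  have hmin : IsMin O V y := h.rq.min_gen hV hO.par hO.y_mem hy0 (by
    rintro g (rfl | rfl)
    · exact hxy
    · rw [div_self hy0]; exact one_mem _)
  obtain ⟨E, -, -, -, hE, -⟩ := h.r1b.exc hO
  refine ⟨hmin, h.rn.nc hO.toIsPt hE hV hR, ?_⟩
  have key : ∀ g ∈ ({x, y} : Set L),
      g / y - algebraMap k L (if g = x then c else 1) = x / y - algebraMap k L c ∨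
        g / y - algebraMap k L (if g = x then c else 1) = 0 := by
    intro g hg
    by_cases e : g = x
    · left
      rw [if_pos e, e]
    · right
      rw [if_neg e, (hg.resolve_left e : g = y), div_self hy0, map_one, sub_self]
  rw [h.rq.mx_qt (fun g => if g = x then c else 1) hO.toIsLoc hV hR hmin hO.par fun g hg => by
    rcases key g hg with e | e <;> rw [e]
    · exact hc
    · exact zero_mem _]
  refine le_antisymm (gen_le (isMod_gen _) ?_) (gen_le (isMod_gen _) ?_)
  · rintro f (rfl | ⟨g, hg, rfl⟩)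
    · exact subset_gen (by simp)
    · rcases key g hg with e | e <;> simp only [e]
      · exact subset_gen (by simp)
      · exact zero_mem _
  · rintro f (rfl | rfl)
    · exact subset_gen (Or.inr ⟨x, by simp, by simp⟩)
    · exact subset_gen (Or.inl rfl)

lemma all (h : Lv6 k p) (hO : IsReg O x y) (hV : Dom V O) (hR : ResK k V) (i : ℕ) :
    ∃ x' y', IsReg (ch O V i) x' y' := by
  induction i with
  | zero => exact ⟨x, y, hO⟩
  | succ i ih =>
    obtain ⟨a, b, h1⟩ := ih
    have hD := ((h.rq.ch_loc hO.toIsLoc hV hR).1 i).2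
    rcases V.mem_or_inv_mem (a / b) with h2 | h2
    · obtain ⟨c, hc⟩ := hR.2 _ h2
      exact ⟨_, _, (step h h1 hD hR hc).2⟩
    · rw [inv_div] at h2
      obtain ⟨c, hc⟩ := hR.2 _ h2
      exact ⟨_, _, (step h h1.swap hD hR hc).2⟩

end M1a

theorem blk_M1a {k : Type} [Field k] [IsAlgClosed k] {p : ℕ} [Fact p.Prime] [CharP k p]
    (_hp : p ≠ 2) (h : Lv6 k p) : RM1a k where
  step := M1a.step h
  all := M1a.all h

end Pool.Agent.Lib.MP_5f81cf_ag.Full.Res
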