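import Pool.Agent.Lib.MP_5f81cf_ag.ResBlue

/-! A curve containing the valuation becomes smooth along the chain of quadratic transforms. -/

namespace Pool.Agent.Lib.MP_5f81cf_ag.Full.Res

open Pool.Agent.Lib.MP_e06174_ag

namespace M1b

variable {k : Type} [Field k] {p : ℕ} [Fact p.Prime]

/-- An exhaustion of the valuation ring of a point of a curve by local rings is stationary. -/
lemma stab (h : Bas k p) {K : Type} [Field K] [Algebra k K] [Algebra.EssFiniteType k K]
    (hK : Algebra.trdeg k K = 1) (P : Place k K) (D : ℕ → Subalgebra k K) (hD : Monotone D)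
    (hU : ∀ f, P.Ge 0 f → ∃ i, f ∈ D i) (hI : ∀ i, ∀ f ∈ D i, ¬ P.Ge 1 f → f⁻¹ ∈ D i) :
    ∃ i, ∀ f, P.Ge 0 f → f ∈ D i := by
  obtain ⟨t, ht0, ht⟩ := P.exists_ord_eq_one
  have htr : Transcendental k t := fun ha => by
    have := (Place.ge_zero_of_isIntegral P (fun c : k => Place.ge_const c)
      ha.inv.isIntegral).le (inv_ne_zero ht0)
    rw [Place.ord_inv] at this
    omega
  let x : Unit → K := fun _ => t
  have hx : AlgebraicIndependent k x := algebraicIndependent_unique_type_iff.2 htr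
  have hb : IsTranscendenceBasis k x :=
    hx.isTranscendenceBasis_of_trdeg_le_of_finite (by rw [hK]; simp)
  let A := Algebra.adjoin k (Set.range x)
  have : Algebra.IsAlgebraic A K := hb.isAlgebraic
  have : Algebra.FiniteType k A :=
    (Subalgebra.fg_iff_finiteType _).1 (Subalgebra.fg_def.2 ⟨_, Set.finite_range x, rfl⟩)
  have : Ring.DimensionLEOne A := Ring.DimensionLEOne.of_ringEquiv
    (hx.aevalEquiv.symm.trans (MvPolynomial.uniqueAlgEquiv k Unit)).toRingEquiv
  let T := integralClosure A K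
  have : Module.Finite A T := h.a2.finite_norm
  have : IsFractionRing T K := integralClosure.isFractionRing_of_algebraic
    fun a ha => Subtype.ext ha
  have : IsIntegrallyClosed T := (isIntegrallyClosed_iff K).2 fun {y} hy =>
    ⟨⟨y, isIntegral_trans y hy⟩, rfl⟩
  have hft : Algebra.FiniteType k T := Algebra.FiniteType.trans (S := A) inferInstance inferInstance
  have : IsNoetherianRing T := Algebra.FiniteType.isNoetherianRing k T
  have hA : ∀ a : A, P.Ge 0 (algebraMap A K a) := by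
    rintro ⟨a, ha⟩
    change P.Ge 0 a
    induction ha using Algebra.adjoin_induction with
    | mem y hy =>
      obtain ⟨_, rfl⟩ := hy
      exact Place.ge_of_le (by change 0 ≤ P.ord t; omega)
    | algebraMap c => exact Place.ge_const c
    | add y z _ _ hy hz => exact hy.add hz
    | mul y z _ _ hy hz => exact hy.mul' hz (by omega)
  have hT : ∀ r : T, P.Ge 0 (algebraMap T K r) := fun r =>
    Place.ge_zero_of_isIntegral (R := A) P hA r.2
  let q : Ideal T :=
    { carrier := {r | P.Ge 1 (algebraMap T K r)}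
      add_mem' := fun ha hb => by
        rw [Set.mem_ofPred_eq, map_add]; exact Place.Ge.add ha hb
      zero_mem' := by rw [Set.mem_ofPred_eq, map_zero]; exact Place.ge_zero _
      smul_mem' := fun c r hr => by
        rw [Set.mem_ofPred_eq, smul_eq_mul, map_mul]; exact (hT c).mul' hr (by omega) }
  have hq : HasCentre P q := fun r => ⟨hT r, Iff.rfl⟩
  have hprime : q.IsPrime := by
    refine ⟨?_, fun {a b} hab => ?_⟩
    · rw [Ideal.ne_top_iff_one, (hq 1).2, Place.not_ge_iff]; simp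
    · by_contra hc
      push Not at hc
      have h1 := Place.not_ge_iff.1 (mt (hq a).2.2 hc.1)
      have h2 := Place.not_ge_iff.1 (mt (hq b).2.2 hc.2)
      have h3 := (hq _).2.1 hab
      rw [map_mul] at h3
      have h4 := h3.le (mul_ne_zero h1.1 h2.1)
      rw [P.ord_mul h1.1 h2.1] at h4
      omega
  have hne : q ≠ ⊥ := by
    intro h0
    let r : T := algebraMap A T ⟨t, Algebra.subset_adjoin ⟨(), rfl⟩⟩
    have hr : r ∈ q := Place.ge_of_le (by change 1 ≤ P.ord t; omega)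
    rw [h0, Ideal.mem_bot] at hr
    exact ht0 (congrArg (algebraMap T K) hr)
  have hht : q.height = 1 := by
    refine le_antisymm ?_ (Order.one_le_iff_ne_zero.2 (mt Ideal.height_eq_zero_iff_eq_bot.1 hne))
    have h1 := (Ideal.height_le_ringKrullDim_of_isPrime (I := q)).trans
      (Ring.krullDimLE_iff.1 (inferInstance : Ring.KrullDimLE 1 T))
    exact_mod_cast h1
  obtain ⟨s, hs⟩ := hft.out
  choose j hj using fun r : T => hU _ (hT r)
  refine ⟨s.sup j, fun f hf => ?_⟩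
  have hall : ∀ r : T, algebraMap T K r ∈ D (s.sup j) := by
    intro r
    have h1 : Algebra.adjoin k (s : Set T) ≤
        (D (s.sup j)).comap (IsScalarTower.toAlgHom k T K) :=
      Algebra.adjoin_le fun r hr => hD (Finset.le_sup hr) (hj r)
    exact h1 (hs ▸ Algebra.mem_top)
  obtain ⟨a, b, hb', e⟩ := h.a1.loc hq hht f hf
  have hb1 : ¬ P.Ge 1 (algebraMap T K b) := hb'
  rw [← mul_inv_cancel_right₀ (Place.not_ge_iff.1 hb1).1 f, e]
  exact mul_mem (hall a) (hI _ _ (hall b) hb1)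

variable {L : Type} [Field L] [Algebra k L]

lemma adjust {O : Subalgebra k L} {x y w : L} (h : IsReg O x y) (hw : w ∈ O) :
    IsReg O (x - w * y) y := by
  refine ⟨h.toIsPt, h.par.trans ?_⟩
  ext f
  rw [mem_gen_two, mem_gen_two]
  constructor
  · rintro ⟨c, hc, d, hd, rfl⟩
    exact ⟨c, hc, d + c * w, add_mem hd (mul_mem hc hw), by ring⟩
  · rintro ⟨c, hc, d, hd, rfl⟩
    exact ⟨c, hc, d - c * w, sub_mem hd (mul_mem hc hw), by ring⟩

/-- The image of a subalgebra under a residue map. -/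
def img {K : Type} [Field K] [Algebra k K] {G : Place k L} {ρ : L → K} (hρ : IsRes G ρ)
    (O : Subalgebra k L) (hO : Cont O G) : Subalgebra k K where
  carrier := {z | ∃ f ∈ O, ρ f = z}
  mul_mem' := by
    rintro _ _ ⟨f, hf, rfl⟩ ⟨g, hg, rfl⟩
    exact ⟨f * g, mul_mem hf hg, hρ.mul f g (hO f hf) (hO g hg)⟩
  add_mem' := by
    rintro _ _ ⟨f, hf, rfl⟩ ⟨g, hg, rfl⟩
    exact ⟨f + g, add_mem hf hg, hρ.add f g (hO f hf) (hO g hg)⟩
  algebraMap_mem' := fun c => ⟨_, O.algebraMap_mem c, hρ.const c⟩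

lemma smooth (h : Lv7 k p) {O : Subalgebra k L} {V : ValuationSubring L} {x y : L}
    {G : Place k L} (hO : IsReg O x y) (hV : Dom V O) (hK : ResK k V) (hVG : V ≤ G.O)
    (hG : Div G) : ∃ i x' y', IsReg (ch O V i) x' y' ∧ G.Ge 1 x' ∧ ¬ G.Ge 1 y' := by
  have := hO.ess
  obtain ⟨K, _, _, ρ, hρ, _, hK1⟩ := h.rk.res hO.dim hG
  obtain ⟨P, hP0, hP1⟩ := h.rw.decomp V hρ hK1 hVG hK
  obtain ⟨hl, hm⟩ := h.rq.ch_loc hO.toIsLoc hV hK
  have hreg := h.m1a.all hO hV hK
  have hc : ∀ i, Cont (ch O V i) G := fun i f hf => ((hP0 f).1 ((hl i).2.1 f hf)).1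
  obtain ⟨i, hi⟩ := stab h.bas hK1 P (fun i => img hρ (ch O V i) (hc i))
    (fun i j hij _ ⟨f, hf, e⟩ => ⟨f, hm i j hij hf, e⟩)
    (fun z hz => by
      obtain ⟨f, hf, rfl⟩ := hρ.surj z
      obtain ⟨i, hi⟩ := h.rd.union (fun i => let ⟨_, _, h⟩ := hreg i; h.toIsPt) hV hK f
        ((hP0 f).2 ⟨hf, hz⟩)
      exact ⟨i, f, hi, rfl⟩)
    (by
      rintro i _ ⟨f, hf, rfl⟩ hz
      have hu : Un (ch O V i) f := (un_or_mx hf).resolve_right fun hm =>
        hz ((hP1 f).1 ((hl i).2.2 f hm)).2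
      refine ⟨f⁻¹, hu.2.2, eq_inv_of_mul_eq_one_right ?_⟩
      rw [← hρ.mul _ _ (hc i f hf) (hc i _ hu.2.2), mul_inv_cancel₀ hu.2.1, ← map_one (algebraMap k L),
        hρ.const, map_one])
  have key : ∀ x y, IsReg (ch O V i) x y → ρ y ≠ 0 → P.Ge 0 (ρ x / ρ y) →
      ∃ x' y', IsReg (ch O V i) x' y' ∧ G.Ge 1 x' ∧ ¬ G.Ge 1 y' := by
    intro x y hxy hy hq
    obtain ⟨w, hw, e⟩ := hi _ hq
    have hx0 := hc i x (mx_le hxy.x_mem)
    have hy0 := hc i y (mx_le hxy.y_mem)
    have hwy : G.Ge 0 (w * y) := (hc i w hw).mul' hy0 (by omega)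
    refine ⟨x - w * y, y, adjust hxy hw, (hρ.zero _ (hx0.sub hwy)).1 ?_,
      fun h1 => hy ((hρ.zero _ hy0).2 h1)⟩
    have h1 := hρ.add _ _ (hx0.sub hwy) hwy
    rw [sub_add_cancel, hρ.mul _ _ (hc i w hw) hy0, e, div_mul_cancel₀ _ hy] at h1
    exact left_eq_add.1 (h1.trans (add_comm _ _))
  obtain ⟨x', y', hxy⟩ := hreg i
  refine ⟨i, ?_⟩
  by_cases hy : ρ y' = 0
  · refine key y' x' hxy.swap (fun hx => ?_) (by rw [hy, zero_div]; exact Place.ge_zero _)
    obtain ⟨t, ht0, ht⟩ := P.exists_ord_eq_one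
    obtain ⟨f, hf, rfl⟩ := hi t (Place.ge_of_le (by omega))
    have hfm := (hl i).2.mem_mx hf ((hP1 f).2 ⟨hc i f hf, Place.ge_of_le (by omega)⟩)
    rw [hxy.par] at hfm
    refine ht0 ((hρ.zero f (hc i f hf)).2 (ge_of_mem_gen (hc i) ?_ hfm))
    rintro g (rfl | rfl)
    · exact (hρ.zero _ (hc i _ (mx_le hxy.x_mem))).1 hx
    · exact (hρ.zero _ (hc i _ (mx_le hxy.y_mem))).1 hy
  · by_cases hq : P.Ge 0 (ρ x' / ρ y')
    · exact key x' y' hxy hy hq
    · rw [Place.not_ge_iff] at hq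
      refine key y' x' hxy.swap (fun hx => hq.1 (by rw [hx, zero_div])) (Place.ge_of_le ?_)
      rw [← inv_div, Place.ord_inv]
      omega

end M1b

theorem blk_M1b {k : Type} [Field k] [IsAlgClosed k] {p : ℕ} [Fact p.Prime] [CharP k p]
    (_hp : p ≠ 2) (h : Lv7 k p) : RM1b k :=
  ⟨M1b.smooth h⟩

end Pool.Agent.Lib.MP_5f81cf_ag.Full.Res
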