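import Pool.Agent.Lib.MP_5f81cf_ag.ResBlue

/-! Embedded resolution along a valuation. -/

namespace Pool.Agent.Lib.MP_5f81cf_ag.Full.Res

open Pool.Agent.Lib.MP_e06174_ag Filter

namespace Mon

variable {k L : Type} [Field k] [Field L] [Algebra k L] {V : ValuationSubring L}

/-- Two places containing a valuation ring coincide. -/
theorem uniq {G G' : Place k L} (h : V ≤ G.O) (h' : V ≤ G'.O) : G = G' := by
  by_cases h1 : ∀ f, G.Ge 0 f → G'.Ge 0 f
  · exact Place.ext_of_ge h1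
  push Not at h1
  obtain ⟨f, hf, hf'⟩ := h1
  refine (Place.ext_of_ge fun g hg => ?_).symm
  have hf0 : f ≠ 0 := (Place.not_ge_iff.1 hf').1
  rcases eq_or_ne g 0 with rfl | hg0
  · exact Place.ge_zero _
  rcases V.mem_or_inv_mem (g / f) with h2 | h2
  · simpa [div_mul_cancel₀ g hf0] using (Place.mem_O.1 (h h2)).mul hf
  · rw [inv_div] at h2
    exact (hf' (by simpa [div_mul_cancel₀ f hg0] using (Place.mem_O.1 (h' h2)).mul hg)).elim

theorem ge_div {H : Place k L} {x y : L} (hx : H.Ge 1 x) (hy : H.Ge 0 y) (hy' : ¬ H.Ge 1 y) :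
    H.Ge 1 (x / y) := by
  obtain ⟨h0, h1⟩ := Place.not_ge_iff.1 hy'
  have h2 := hy.le h0
  rw [div_eq_mul_inv]
  exact hx.mul' (Place.ge_ord _) (by rw [Place.ord_inv]; omega)

theorem ge_sub {B : Subalgebra k L} {H : Place k L} {z : L} {c : k} (hB : IsLoc B)
    (hH : Cont B H) (hm : z - algebraMap k L c ∈ mx B) (hz : H.Ge 1 z) :
    H.Ge 1 (z - algebraMap k L c) := by
  by_cases hc : c = 0
  · simpa [hc] using hz
  · have := (hB.un_add (un_const hc) hm).not_ge hH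
    rw [add_sub_cancel] at this
    exact (this hz).elim

/-- The condition on the divisorial place containing `V`. -/
def GC (k : Type) [Field k] [Algebra k L] (V : ValuationSubring L) (x y : L) : Prop :=
  ∀ G : Place k L, V ≤ G.O → Div G → G.Ge 1 x ∧ ¬ G.Ge 1 y

variable {p : ℕ} [Fact p.Prime]

theorem step (h : Lv8 k p) {B : Subalgebra k L} {x y : L} (hB : IsReg B x y) (hV : Dom V B)
    (hK : ResK k V) (hG : GC k V x y) : ∃ x' y', IsReg (qt B V) x' y' ∧ GC k V x' y' ∧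
      ∀ H : Place k L, Cont (qt B V) H → H.Ge 1 x ∨ H.Ge 1 y → H.Ge 1 x' ∨ H.Ge 1 y' := by
  obtain ⟨hL, hD, hle⟩ := h.rq.isLoc hB.toIsLoc hV hK
  have hx := hle (mx_le hB.x_mem)
  have hy := hle (mx_le hB.y_mem)
  by_cases hxy : x / y ∈ V
  · obtain ⟨c, hc⟩ := hK.2 _ hxy
    have hR := (h.m1a.step hB hV hK hc).2
    have key : ∀ H : Place k L, Cont (qt B V) H → H.Ge 1 x → ¬ H.Ge 1 y →
        H.Ge 1 (x / y - algebraMap k L c) := fun H hH h1 h2 =>
      ge_sub hL hH hR.x_mem (ge_div h1 (hH y hy) h2)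
    refine ⟨_, _, hR, fun G h1 h2 => ⟨key G (fun f hf => Place.mem_O.1 (h1 (hD.1 f hf)))
      (hG G h1 h2).1 (hG G h1 h2).2, (hG G h1 h2).2⟩, fun H hH h1 => ?_⟩
    by_cases h2 : H.Ge 1 y
    · exact Or.inr h2
    · exact Or.inl (key H hH (h1.resolve_right h2) h2)
  · have hc : y / x - algebraMap k L 0 ∈ V.nonunits := by
      rw [map_zero, sub_zero, ValuationSubring.mem_nonunits_iff_or, inv_div]
      exact Or.inr hxy
    have hR := (h.m1a.step hB.swap hV hK hc).2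
    rw [map_zero, sub_zero] at hR
    have hx0 : x ≠ 0 := (h.r1a.hx hB).1
    refine ⟨_, _, hR.swap, fun G h1 h2 => ((hG G h1 h2).2 ?_).elim, fun H hH h1 => ?_⟩
    · have h3 := Place.mem_O.1 (h1 (hD.1 _ (mx_le hR.x_mem)))
      simpa [div_mul_cancel₀ y hx0] using h3.mul (hG G h1 h2).1
    · by_cases h2 : H.Ge 1 x
      · exact Or.inl h2
      · exact Or.inr (ge_div (h1.resolve_left h2) (hH x hx) h2)

theorem inv (h : Lv8 k p) {B : Subalgebra k L} {x y : L} (hB : IsReg B x y) (hV : Dom V B)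
    (hK : ResK k V) (hG : GC k V x y) (j : ℕ) : ∃ x' y', IsReg (ch B V j) x' y' ∧ GC k V x' y' ∧
      ∀ H : Place k L, Ht1 (ch B V j) H → ¬ Ht1 B H → H.Ge 1 x' ∨ H.Ge 1 y' := by
  obtain ⟨h1, h2⟩ := h.rq.ch_loc hB.toIsLoc hV hK
  induction j with
  | zero => exact ⟨x, y, hB, hG, fun H a b => (b a).elim⟩
  | succ j ih =>
    obtain ⟨x₁, y₁, a1, a2, a3⟩ := ih
    obtain ⟨x₂, y₂, b1, b2, b3⟩ := step h a1 (h1 j).2 hK a2
    refine ⟨x₂, y₂, b1, b2, fun H hH hn => b3 H hH.1 ?_⟩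
    have hc : Cont (ch B V j) H := fun f hf => hH.1 f (h2 j (j + 1) j.le_succ hf)
    rcases hc.domP_or with hd | hd
    · exact Or.inl (hd.2 _ a1.x_mem)
    · exact a3 H hd hn

end Mon

open Mon in
theorem blk_Mon {k : Type} [Field k] [IsAlgClosed k] {p : ℕ} [Fact p.Prime] [CharP k p]
    (hp : p ≠ 2) (h : Lv8 k p) : St_Mon k := by
  intro L _ _ O V x y N hO hV hK
  obtain ⟨h1, h2⟩ := h.rq.ch_loc hO.toIsLoc hV hK
  have hP : ∀ i, IsPt (ch O V i) := fun i =>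
    let ⟨_, _, a⟩ := h.m1a.all hO hV hK i; a.toIsPt
  obtain ⟨j₀, x₀, y₀, a1, a2⟩ : ∃ j₀ x₀ y₀, IsReg (ch O V j₀) x₀ y₀ ∧ GC k V x₀ y₀ := by
    by_cases hG : ∃ G : Place k L, V ≤ G.O ∧ Div G
    · obtain ⟨G, hG, hG'⟩ := hG
      obtain ⟨i, x', y', b1, b2⟩ := h.m1b.smooth hO hV hK hG hG'
      exact ⟨i, x', y', b1, fun G' b3 _ => uniq hG b3 ▸ b2⟩
    · exact ⟨0, x, y, hO, fun G b1 b2 => (hG ⟨G, b1, b2⟩).elim⟩
  have hx0 : x ≠ 0 := (h.r1a.hx hO).1
  have hfin : {H : Place k L | Ht1 (ch O V j₀) H ∧ (H ∈ N ∨ ¬ Ht1 O H)}.Finite := by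
    refine (N.finite_toSet.union (h.rh.fin (hP j₀) x)).subset ?_
    rintro H ⟨b1, b2 | b2⟩
    · exact Or.inl b2
    · have hc : Cont O H := fun f hf => b1.1 f (h2 0 j₀ j₀.zero_le hf)
      have := ((hc.domP_or.resolve_right b2).2 x hO.x_mem).le hx0
      exact Or.inr ⟨b1, by omega⟩
  have hev : ∀ H : Place k L, ∀ᶠ i in atTop, V ≤ H.O ∨ ¬ Cont (ch O V i) H := by
    intro H
    by_cases hc : ∀ i, Cont (ch O V i) H
    · refine Eventually.of_forall fun _ => Or.inl fun f hf => ?_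
      obtain ⟨i, hi⟩ := h.rd.union hP hV hK f hf
      exact Place.mem_O.2 (hc i f hi)
    · push Not at hc
      obtain ⟨i, hi⟩ := hc
      filter_upwards [eventually_ge_atTop i] with j hj
      exact Or.inr fun b => hi fun f hf => b f (h2 i j hj hf)
  obtain ⟨i, hi, hi'⟩ := (((eventually_all_finite hfin).2 fun H _ => hev H).and
    (eventually_ge_atTop j₀)).exists
  obtain ⟨j, rfl⟩ := Nat.exists_eq_add_of_le hi'
  obtain ⟨x', y', b1, b2, b3⟩ := inv h a1 (h1 j₀).2 hK a2 j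
  rw [← ch_add] at b1 b3
  refine ⟨j₀ + j, x', y', b1, fun H hH hN => ?_, b2⟩
  by_cases hc : Ht1 (ch O V j₀) H
  · exact Or.inl (b2 H ((hi H ⟨hc, hN⟩).resolve_right fun b => b hH.1) (b1.toIsLoc.div hH)).1
  · exact b3 H hH hc

end Pool.Agent.Lib.MP_5f81cf_ag.Full.Res
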