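import Pool.Agent.Lib.MP_5f81cf_ag.ResBlue

/-! The quadratic transform of a point with complete powers of the maximal ideal. -/

namespace Pool.Agent.Lib.MP_5f81cf_ag.Full.Res

open Pool.Agent.Lib.MP_e06174_ag

namespace N

variable {k : Type} [Field k] {p : ℕ} [Fact p.Prime] {L : Type} [Field L] [Algebra k L]
  {O : Subalgebra k L} {V : ValuationSubring L} {R : Finset (Place k L)} {a b b' : L}

lemma exists_bound {X : Type*} {S : Set X} (hS : S.Finite) (g : X → ℤ) :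
    ∃ m : ℕ, ∀ x ∈ S, g x ≤ m := by
  obtain ⟨M, hM⟩ := (hS.image g).bddAbove
  exact ⟨M.toNat, fun x hx => (hM ⟨x, hx, rfl⟩).trans (Int.self_le_toNat M)⟩

lemma ge_div {F : Place k L} {g c : L} (hc : c ≠ 0) (hg : F.Ge (F.ord c) g) : F.Ge 0 (g / c) := by
  rw [div_eq_mul_inv]
  exact hg.mul' (Place.ge_ord c⁻¹) (by rw [Place.ord_inv]; omega)

lemma ex_min (h : Lv5 k p) (hO : IsLoc O) (hV : Dom V O) : ∃ b', IsMin O V b' := by
  obtain ⟨S, -, hS⟩ := h.ra.fgm hO (mx O) hO.isMod_mx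
    ⟨1, one_ne_zero, fun x hx => by rw [one_mul]; exact mx_le hx⟩
  obtain ⟨b', -, hb'⟩ := h.rq.ex_min hO hV S S.finite_toSet hS
  exact ⟨b', hb'⟩

/-- Clearing poles by a unit of the quadratic transform and a power of the minimal element. -/
lemma shift (h : Lv5 k p) (hO : IsPt O) (hR : Rees O R a b) (hV : Dom V O)
    (hb' : IsMin O V b') (τ : Place k L → ℤ) (f : L)
    (hfin : {H : Place k L | Ht1 O H ∧ ¬ H.Ge (τ H) f}.Finite)
    (good : ∀ F : Place k L, Ht1 O F ∨ F ∈ R → (∀ g ∈ mx O, F.Ge (F.ord b') g) →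
      Cont (qt O V) F → F.Ge (τ F) f) :
    ∃ s ∈ chart O b', s ≠ 0 ∧ s⁻¹ ∈ V ∧ ∃ m : ℕ,
      (∀ H, Ht1 O H → H.Ge (τ H) (f * s * b' ^ m)) ∧
      ∀ F ∈ R, F.Ge (m * F.ord b + τ F) (f * s * b' ^ m) := by
  classical
  have hcont : ∀ F : Place k L, Ht1 O F ∨ F ∈ R → Cont O F := fun F hF =>
    hF.elim (fun h => h.1) fun h => (hR.dom F h).1.1
  have hA : ∀ F : Place k L, Ht1 O F ∨ F ∈ R → (∀ g ∈ mx O, F.Ge (F.ord b') g) →
      Cont (chart O b') F := fun F hF ht f hf =>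
    Place.mem_O.1 (h.rq.chart_le (W := F.O) (fun f hf => Place.mem_O.2 (hcont F hF f hf))
      (fun g hg => Place.mem_O.2 (ge_div hb'.2.1 (ht g hg))) f hf)
  have hB : {F : Place k L | (Ht1 O F ∨ F ∈ R) ∧ (∀ g ∈ mx O, F.Ge (F.ord b') g) ∧
      ¬ F.Ge (τ F) f}.Finite :=
    (hfin.union R.finite_toSet).subset fun F hF =>
      hF.1.elim (fun h => Or.inl ⟨h, hF.2.2⟩) fun h => Or.inr h
  obtain ⟨M, hM⟩ := exists_bound hB fun F => τ F - F.ord f
  obtain ⟨s, hs, hs0, hsV, hsM⟩ := h.rq.kill (chart O b') V hB.toFinset M (fun F hF => by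
    rw [Set.Finite.mem_toFinset] at hF
    refine ⟨hA F hF.1 hF.2.1, fun hc => hF.2.2 (good F hF.1 hF.2.1 ?_)⟩
    rwa [h.rq.qt_eq hV hb'])
  have h1 : ∀ F : Place k L, Ht1 O F ∨ F ∈ R → (∀ g ∈ mx O, F.Ge (F.ord b') g) →
      F.Ge (τ F) (f * s) := by
    intro F hF ht
    by_cases hf : F.Ge (τ F) f
    · exact hf.mul' (hA F hF ht s hs) (by omega)
    · have h2 := hM F ⟨hF, ht, hf⟩
      exact (Place.ge_ord f).mul' (hsM F (hB.mem_toFinset.2 ⟨hF, ht, hf⟩)) (by omega)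
  obtain ⟨m, hm⟩ := exists_bound ((h.rh.fin hO b').union R.finite_toSet)
    fun F => τ F - F.ord (f * s)
  refine ⟨s, hs, hs0, hsV, m, fun H hH => ?_, fun F hF => ?_⟩
  · by_cases ht : ∀ g ∈ mx O, H.Ge (H.ord b') g
    · exact (h1 H (Or.inl hH) ht).mul' ((hH.1 b' (mx_le hb'.1)).pow m) (by omega)
    · push Not at ht
      obtain ⟨g, hg, hg'⟩ := ht
      rw [Place.not_ge_iff] at hg'
      have h2 := (hH.1 g (mx_le hg)).le hg'.1
      have h3 := hm H (Or.inl ⟨hH, by omega⟩)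
      exact (Place.ge_ord _).mul' ((Place.ge_of_le (show 1 ≤ H.ord b' by omega)).pow m)
        (by omega)
  · by_cases ht : ∀ g ∈ mx O, F.Ge (F.ord b') g
    · exact (h1 F (Or.inr hF) ht).mul' (((hR.dom F hF).2.2 b' hb'.1).pow m) (by omega)
    · push Not at ht
      obtain ⟨g, hg, hg'⟩ := ht
      rw [Place.not_ge_iff] at hg'
      have h2 := ((hR.dom F hF).2.2 g hg).le hg'.1
      have h3 := hm F (Or.inr hF)
      refine (Place.ge_ord _).mul'
        ((Place.ge_of_le (show F.ord b + 1 ≤ F.ord b' by omega)).pow m) ?_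
      rw [mul_add]
      omega

lemma nc (h : Lv5 k p) (hO : IsPt O) (hR : Rees O R a b) (hV : Dom V O) (hK : ResK k V) :
    IsPt (qt O V) := by
  refine ⟨(h.rq.isLoc hO.toIsLoc hV hK).1, fun f hf => ?_⟩
  obtain ⟨b', hb'⟩ := ex_min h hO.toIsLoc hV
  obtain ⟨s, hs, hs0, hsV, m, h1, h2⟩ := shift h hO hR hV hb' (fun _ => 0) f
    ((h.rh.fin hO f).subset fun H hH => ⟨hH.1, fun h0 => hH.2 (Place.ge_of_le h0.ge)⟩)
    (fun F _ _ hc => Place.ge_zero_of_isIntegral (R := qt O V) F (fun r => hc r.1 r.2) hf)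
  rw [h.rq.qt_eq hV hb']
  refine ⟨s, hs, hs0, hsV, (h.rq.mem_chart hb'.1 hb'.2.1 _).2 ⟨m, ?_⟩⟩
  exact hR.pow m _ (h.rh.hart hO _ h1) fun F hF => by simpa using h2 F hF

/-- A Rees valuation in which `b'` is minimal does not dominate the quadratic transform. -/
lemma not_dom (h : Lv5 k p) (hO : IsPt O) (hR : Rees O R a b) (hV : Dom V O) (hK : ResK k V)
    (hb' : IsMin O V b') {F : Place k L} (hF : F ∈ R) (ht : ∀ g ∈ mx O, F.Ge (F.ord b') g) :
    ¬ DomP (qt O V) F := by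
  intro hd
  have hq := (h.rq.isLoc hO.toIsLoc hV hK).1
  have hmem : ∀ g ∈ mx O, g / b' ∈ qt O V := fun g hg => by
    rw [h.rq.qt_eq hV hb']; exact le_loc _ _ (div_mem_chart hg)
  obtain ⟨c₁, h1⟩ := hq.res _ (hmem a hR.a_mem)
  obtain ⟨c₂, h2⟩ := hq.res _ (hmem b hR.b_mem)
  replace h1 := hd.2 _ h1
  replace h2 := hd.2 _ h2
  have hb0 := hR.b_ne
  have hb'0 := hb'.2.1
  have h3 : F.ord (b / b') = 0 := by
    have h4 := (ht b hR.b_mem).le hb0
    have h5 := ((hR.dom F hF).2.2 b' hb'.1).le hb'0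
    rw [Place.ord_div _ hb0 hb'0]; omega
  have hc₂ : c₂ ≠ 0 := by
    rintro rfl
    rw [map_zero, sub_zero] at h2
    have := h2.le (div_ne_zero hb0 hb'0)
    omega
  have hc₂' : algebraMap k L c₂ ≠ 0 := by simpa using hc₂
  refine (hR.dom F hF).2.1.2 (c₁ / c₂) ?_
  have e : a / b - algebraMap k L (c₁ / c₂) =
      ((a / b' - algebraMap k L c₁) - algebraMap k L (c₁ / c₂) * (b / b' - algebraMap k L c₂))
        * (b / b')⁻¹ := by
    rw [map_div₀]; field_simp; ring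
  rw [e]
  exact (h1.sub ((Place.ge_const _).mul' h2 (by omega))).mul' (Place.ge_ord _)
    (by rw [Place.ord_inv]; omega)

lemma om1 (h : Lv5 k p) {u : Fin 2 → L} (hu : IsPB p u) (hO : IsPt O) (hR : Rees O R a b)
    (hP : PR u O) (hG : OG u O R b) (hV : Dom V O) (hK : ResK k V) :
    om u (qt O V) = Subalgebra.toSubmodule (qt O V) * om u O ∧ PR u (qt O V) := by
  obtain ⟨hq, hqV, hle⟩ := h.rq.isLoc hO.toIsLoc hV hK
  have hge : ∀ F : Place k L, Div F → Cont (qt O V) F →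
      ∀ f ∈ Subalgebra.toSubmodule (qt O V) * om u O, F.Ge (1 - lam k u F) f := by
    intro F hF hc f hf
    simpa using ge_of_mem_mul (M := Subalgebra.toSubmodule (qt O V)) (m := 0) hc
      (hP F hF fun g hg => hc g (hle hg)) hf
  have key : om u (qt O V) = Subalgebra.toSubmodule (qt O V) * om u O := by
    refine le_antisymm (fun f hf => ?_) fun f hf F hF => hge F (hq.div hF) hF.1 f hf
    obtain ⟨b', hb'⟩ := ex_min h hO.toIsLoc hV
    obtain ⟨S, ⟨η, hη⟩, hS0, hS⟩ := h.r2.om_fg hu hO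
    have hη0 : η ≠ 0 := fun h0 => hS0 (h0 ▸ hη)
    have hηm : η ∈ om u O := hS ▸ subset_gen hη
    obtain ⟨s, hs, hs0, hsV, m, h1, h2⟩ := shift h hO hR hV hb' (fun F => 1 - lam k u F) f
      ((h.rh.fin hO (f / η)).subset fun H hH => ⟨hH.1, fun h0 => hH.2 (by
        rw [show f = f / η * η by field_simp]
        exact (Place.ge_of_le h0.ge).mul' (hηm H hH.1) (by omega))⟩)
      (fun F hF ht hc => hf F (by
        rcases hF with hF | hF
        · obtain ⟨g, hg, hg'⟩ := hF.2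
          exact ⟨hc, g, hqV.mem_mx (hle (mx_le hg)) (hV.2 g hg), hg'⟩
        · exact hc.domP_or.resolve_left (not_dom h hO hR hV hK hb' hF ht)))
    have h3 := hG m _ h1 fun F hF => by rw [add_sub_assoc]; exact h2 F hF
    have hbm : b' ^ m ≠ 0 := pow_ne_zero _ hb'.2.1
    have h4 : ∀ x ∈ mx O ^ m * om u O,
        x / b' ^ m ∈ Subalgebra.toSubmodule (qt O V) * om u O := by
      intro x hx
      refine Submodule.mul_induction_on hx (fun y hy z hz => ?_) (fun y z hy hz => ?_)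
      · rw [mul_div_right_comm]
        refine Submodule.mul_mem_mul ?_ hz
        change _ ∈ qt O V
        rw [h.rq.qt_eq hV hb']
        refine le_loc _ _ ((h.rq.mem_chart hb'.1 hb'.2.1 _).2 ⟨m, ?_⟩)
        rw [div_mul_cancel₀ _ hbm]
        exact le_mul_self _ hy
      · rw [add_div]; exact add_mem hy hz
    have h5 := h4 _ h3
    rw [mul_div_cancel_right₀ _ hbm] at h5
    have h6 : s⁻¹ ∈ qt O V := by
      rw [h.rq.qt_eq hV hb']
      exact ⟨s, hs, hs0, hsV, by rw [inv_mul_cancel₀ hs0]; exact one_mem _⟩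
    have h7 := isMod_mul (O := qt O V) (om u O) _ h6 _ h5
    rwa [mul_comm f s, inv_mul_cancel_left₀ hs0] at h7
  exact ⟨key, fun F hF hc f hf => hge F hF hc f (key ▸ hf)⟩

lemma pur (h : Lv5 k p) {u : Fin 2 → L} {x y : L} (hu : IsPB p u) (hO : IsPt O)
    (hR : Rees O R a b) (hG : OG u O R b) (hx : x ∈ mx O) (hy : y ∈ mx O) :
    ¬ Gor u O (J u k x y) := by
  rintro ⟨h0, hg⟩
  have := hO.ess
  have h1 := hG 1 (J u k x y) ((hg _).2 (by rw [div_self h0]; exact one_mem _)) fun F hF => by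
    obtain ⟨hd, hz, hm⟩ := hR.dom F hF
    have h2 := (hd.2 b hR.b_mem).le hR.b_ne
    exact (h.rk.k1 hu ⟨_, hz⟩ (hm x hx) (hm y hy)).mono (by push_cast; omega)
  rw [pow_one] at h1
  have h2 : ∀ z ∈ mx O * om u O, z / J u k x y ∈ mx O := by
    intro z hz
    refine Submodule.mul_induction_on hz (fun v hv w hw => ?_) (fun v w hv hw => ?_)
    · rw [mul_div_assoc, mul_comm]
      exact hO.isMod_mx _ ((hg w).1 hw) v hv
    · rw [add_div]; exact add_mem hv hw
  have h3 := h2 _ h1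
  rw [div_self h0] at h3
  exact hO.one_not_mem h3

end N

theorem blk_N {k : Type} [Field k] [IsAlgClosed k] {p : ℕ} [Fact p.Prime] [CharP k p]
    (_hp : p ≠ 2) (h : Lv5 k p) : RN k p :=
  ⟨N.nc h, N.om1 h, N.pur h⟩

end Pool.Agent.Lib.MP_5f81cf_ag.Full.Res
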