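import Pool.Agent.Lib.MP_5f81cf_ag.ResBlue

/-! The leading coefficient in a monomial chart. -/

namespace Pool.Agent.Lib.MP_5f81cf_ag.Full.Res

open Pool.Agent.Lib.MP_e06174_ag

namespace Out

section res

variable {k L K : Type} [Field k] [Field L] [Algebra k L] [Field K] [Algebra k K]
  {E : Place k L} {ρ : L → K} {a b : L}

lemma res_one (h : IsRes E ρ) : ρ 1 = 1 := by simpa using h.const 1

lemma res_eq (h : IsRes E ρ) (hb : E.Ge 0 b) (hab : E.Ge 1 (a - b)) : ρ a = ρ b := by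
  have h0 : E.Ge 0 (a - b) := hab.mono zero_le_one
  have h1 := h.add b (a - b) hb h0
  rw [(h.zero _ h0).2 hab, add_zero, add_sub_cancel] at h1
  exact h1

lemma res_pow (h : IsRes E ρ) (ha : E.Ge 0 a) (n : ℕ) : ρ (a ^ n) = ρ a ^ n := by
  induction n with
  | zero => rw [pow_zero, pow_zero, res_one h]
  | succ n ih => rw [pow_succ, h.mul _ _ (by simpa using ha.pow n) ha, ih, pow_succ]

lemma res_ne (h : IsRes E ρ) (ha : a ≠ 0) (ho : E.ord a = 0) : ρ a ≠ 0 := fun h0 => by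
  have := ((h.zero a (Place.ge_of_le ho.ge)).1 h0).le ha
  omega

lemma res_inv (h : IsRes E ρ) (ha : a ≠ 0) (ho : E.ord a = 0) : ρ a⁻¹ = (ρ a)⁻¹ := by
  have h1 := h.mul a a⁻¹ (Place.ge_of_le ho.ge) (Place.ge_of_le (by simp [ho]))
  rw [mul_inv_cancel₀ ha, res_one h] at h1
  exact eq_inv_of_mul_eq_one_right h1.symm

lemma res_zpow (h : IsRes E ρ) (ha : a ≠ 0) (ho : E.ord a = 0) (n : ℤ) :
    ρ (a ^ n) = ρ a ^ n := by
  obtain ⟨n, rfl | rfl⟩ := n.eq_nat_or_neg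
  · rw [zpow_natCast, zpow_natCast, res_pow h (Place.ge_of_le ho.ge)]
  · rw [zpow_neg, zpow_neg, zpow_natCast, zpow_natCast,
      res_inv h (pow_ne_zero _ ha) (by simp [ho]), res_pow h (Place.ge_of_le ho.ge)]

/-- The residue of a unit of the chart is a unit at the point of the curve. -/
lemma res_un {B : Subalgebra k L} {P : Place k K} (h : IsRes E ρ) (hE : Cont B E)
    (hP : ∀ g ∈ B, P.Ge 0 (ρ g)) (ha : Un B a) : ρ a ≠ 0 ∧ P.ord (ρ a) = 0 := by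
  have h0 := res_ne h ha.2.1 (ha.ord hE)
  have h1 := (hP _ ha.1).le h0
  have h2 := hP _ ha.2.2
  rw [res_inv h ha.2.1 (ha.ord hE)] at h2
  have h3 := h2.le (inv_ne_zero h0)
  rw [Place.ord_inv] at h3
  exact ⟨h0, by omega⟩

end res

variable {k : Type} [Field k] [IsAlgClosed k] {p : ℕ} [Fact p.Prime] [CharP k p]

omit [IsAlgClosed k] in
lemma ess_ratFunc : Algebra.EssFiniteType k (RatFunc k) := by
  have : Algebra.EssFiniteType (Polynomial k) (RatFunc k) :=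
    Algebra.EssFiniteType.of_isLocalization (RatFunc k) (nonZeroDivisors (Polynomial k))
  exact Algebra.EssFiniteType.comp k (Polynomial k) (RatFunc k)

/-- The empty family is a `p`-basis of the ground field. -/
lemma pb_empty {K : Type} [Field K] [Algebra k K] (hs : Function.Surjective (algebraMap k K))
    (x : Fin 0 → K) : IsPB p x := by
  have : CharP K p := charP_of_injective_algebraMap (algebraMap k K).injective p
  intro f
  obtain ⟨c, rfl⟩ := hs f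
  obtain ⟨r, rfl⟩ := IsAlgClosed.exists_pow_nat_eq c (Fact.out : p.Prime).pos
  refine ⟨fun _ => algebraMap k K r, by simp [pmon], fun c hc => ?_⟩
  funext α
  have h1 : algebraMap k K r ^ p = c α ^ p := by
    rw [← map_pow, hc, Fintype.sum_subsingleton _ α]
    simp [pmon]
  exact (frobenius_inj K p h1).symm

/-- The order of `dX / dτ` for a uniformiser `τ` of a place of the rational function field. -/
lemma ord_jac (h : Lv1 k p) (P : Place k (RatFunc k)) {τ : Fin 1 → RatFunc k} (hτ : IsPB p τ)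
    (h1 : P.ord (τ 0) = 1) :
    jac k τ ![RatFunc.X] ≠ 0 ∧ P.ord (jac k τ ![RatFunc.X]) = lam1 P - 1 := by
  have : Algebra.EssFiniteType k (RatFunc k) := ess_ratFunc
  have hX := h.bas.c2.pb_X
  have htr : Algebra.trdeg k (RatFunc k) = 1 := by simpa using h.bas.c2.trdeg_eq hX
  obtain ⟨K, _, _, σ, hσ⟩ := h.bas.p1.exists_res P
  have hs : Function.Surjective (algebraMap k K) := by
    intro l
    obtain ⟨a, ha, rfl⟩ := hσ.surj l
    obtain ⟨c, hc⟩ := h.rv.res1 P htr a ha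
    exact ⟨c, by rw [res_eq hσ (Place.ge_const c) hc, hσ.const]⟩
  have hA : Adapt p P σ (τ 0) (Fin.elim0 : Fin 0 → RatFunc k) :=
    ⟨hσ, h1, fun i => i.elim0, pb_empty hs _⟩
  have h2 := h.bas.p2.lam_eq hX hA
  have h3 : (Fin.cons (τ 0) (Fin.elim0 : Fin 0 → RatFunc k) : Fin 1 → RatFunc k) = τ := by
    funext i
    fin_cases i; rfl
  rw [h.bas.p2.lam_X, h3] at h2
  have h4 := h.bas.c1.jac_mul hX hτ ![RatFunc.X]
  rw [h.bas.c1.jac_self hX] at h4
  have h5 : jac k τ ![RatFunc.X] ≠ 0 := left_ne_zero_of_mul_eq_one h4.symm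
  have h6 : jac k ![RatFunc.X] τ ≠ 0 := right_ne_zero_of_mul_eq_one h4.symm
  have h7 := P.ord_mul h5 h6
  rw [← h4, Place.ord_one] at h7
  exact ⟨h5, by omega⟩

omit [IsAlgClosed k] [CharP k p] in
/-- The second parameter is a uniformiser on the curve cut out by the first. -/
lemma ord_res_y (h : Lv3 k p) {L K : Type} [Field L] [Algebra k L] [Field K] [Algebra k K]
    {B : Subalgebra k L} {x y : L} {E : Place k L} {ρ : L → K} {P : Place k K}
    (hB : IsReg B x y) (hρ : IsRes E ρ) (hE : Ht1 B E) (hx : E.Ge 1 x)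
    (hP : ∀ g ∈ B, P.Ge 0 (ρ g)) (hy : P.Ge 1 (ρ y)) : ρ y ≠ 0 ∧ P.ord (ρ y) = 1 := by
  have hpar : mx B = gen B {x, x, y} := by
    rw [hB.par, Set.insert_eq_of_mem (Set.mem_insert x {y})]
  obtain ⟨-, hy1, -, hpr⟩ := h.r1a.prin hB.toIsPt hpar hE hx hx
  have hyB : y ∈ B := mx_le hB.y_mem
  have hy0 : ρ y ≠ 0 := fun h0 => hy1 ((hρ.zero y (hE.1 y hyB)).1 h0)
  have key : ∀ g ∈ B, ρ g ≠ 0 → ∃ n : ℕ, P.ord (ρ g) = n * P.ord (ρ y) := by
    intro g hg hg0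
    obtain ⟨n, w, hw, hgw⟩ := hpr g hg fun h1 => hg0 ((hρ.zero g (hE.1 g hg)).2 h1)
    obtain ⟨hw0, hw1⟩ := res_un hρ hE.1 hP hw
    refine ⟨n, ?_⟩
    rw [res_eq hρ (hE.1 _ (mul_mem hw.1 (pow_mem hyB n))) hgw,
      hρ.mul _ _ (hE.1 _ hw.1) (hE.1 _ (pow_mem hyB n)), res_pow hρ (hE.1 _ hyB),
      P.ord_mul hw0 (pow_ne_zero _ hy0), hw1, Place.ord_pow, zero_add]
  obtain ⟨π, hπ0, hπ⟩ := P.exists_ord_eq_one
  obtain ⟨a, ha, rfl⟩ := hρ.surj π
  obtain ⟨s, hs, hs1, has⟩ := h.rh.locz hB.toIsPt hE a ha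
  have hs0 : ρ s ≠ 0 := fun h0 => hs1 ((hρ.zero s (hE.1 s hs)).1 h0)
  have hmul := hρ.mul a s ha (hE.1 s hs)
  obtain ⟨n₁, h₁⟩ := key s hs hs0
  obtain ⟨n₂, h₂⟩ := key (a * s) has (by rw [hmul]; exact mul_ne_zero hπ0 hs0)
  rw [hmul, P.ord_mul hπ0 hs0, hπ, h₁] at h₂
  have ho := hy.le hy0
  refine ⟨hy0, ?_⟩
  have h3 : P.ord (ρ y) * ((n₂ : ℤ) - n₁) = 1 := by linarith
  exact Int.eq_one_of_mul_eq_one_right (by omega) h3

end Out

open Out in
/-- The leading coefficient in a monomial chart. -/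
theorem blk_Out {k : Type} [Field k] [IsAlgClosed k] {p : Nat} [Fact p.Prime] [CharP k p]
    (_hp : p ≠ 2) (h : Lv3 k p) : St_Out k p := by
  intro L _ _ u B x y t z f E H ρ P m hu hB hA hz hE hEx hH hHy hP hPy hf hJ hfE hfH
  have := hB.ess
  refine ⟨Place.ge_of_le (by rw [hfE, zero_add]), ?_⟩
  obtain ⟨hx0, E', -, hEx1, hEy0, hEy, -, hEu⟩ := h.r1a.hx hB
  obtain rfl := hEu E hE hEx
  obtain ⟨hy0, H', -, hHy1, hHx0, hHx, -, hHu⟩ := h.r1a.hx hB.swap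
  obtain rfl := hHu H hH hHy
  have hρ := hA.res
  have hdiv : Div E := hB.toIsLoc.div hE
  obtain ⟨hJ0, hJE⟩ := h.rk.k2 hu hEx1 hEy
  obtain ⟨-, hJH⟩ := h.rk.k2 hu hHy1 hHx
  rw [J_swap, Place.ord_neg] at hJH
  obtain ⟨hv, hlam⟩ := h.rk.chg hu hdiv hJ0
  have hlam1 : lam k ![x, y] E = 1 := by omega
  have hA' : Adapt p E ρ x ![y] := h.rk.adapt hB.dim hρ hEx1 hEy
  -- the monomial part
  obtain ⟨α, β, hw₁⟩ := hf
  obtain ⟨α', β', hw₂⟩ := hJ
  have hmon : ∀ a b : ℤ, x ^ a * y ^ b ≠ 0 := fun a b =>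
    mul_ne_zero (zpow_ne_zero _ hx0) (zpow_ne_zero _ hy0)
  have hord : ∀ {g : L} {a b : ℤ}, Un B (g / (x ^ a * y ^ b)) → E.ord g = a ∧ H.ord g = b := by
    intro g a b hg
    have hg0 : g ≠ 0 := fun h0 => hg.2.1 (by rw [h0, zero_div])
    have h1 := hg.ord hE.1
    have h2 := hg.ord hH.1
    rw [Place.ord_div _ hg0 (hmon a b),
      Place.ord_mul _ (zpow_ne_zero _ hx0) (zpow_ne_zero _ hy0), Place.ord_zpow,
      Place.ord_zpow] at h1 h2
    rw [hEx1, hEy0] at h1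
    rw [hHx0, hHy1] at h2
    constructor <;> omega
  obtain ⟨hα, hβ⟩ := hord hw₁
  obtain ⟨hα', hβ'⟩ := hord hw₂
  set w₁ := f / (x ^ α * y ^ β) with hw₁d
  set w₂ := J u k x y / (x ^ α' * y ^ β') with hw₂d
  have hw : Un B (w₁ * w₂ ^ m) := hw₁.mul (hw₂.pow m)
  have hfw : f = w₁ * (x ^ α * y ^ β) := by rw [hw₁d, div_mul_cancel₀ _ (hmon _ _)]
  have hJw : J u k x y = w₂ * (x ^ α' * y ^ β') := by rw [hw₂d, div_mul_cancel₀ _ (hmon _ _)]
  have hexp : α + (α' - 1) * m = 0 := by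
    have : α' - 1 = - lam k u E := by omega
    rw [this, ← hα, hfE]; ring
  have hmono : f * (J u k x y / x) ^ m = w₁ * w₂ ^ m * y ^ (β + β' * m) := by
    have e1 : J u k x y / x = w₂ * (x ^ (α' - 1) * y ^ β') := by
      rw [hJw, zpow_sub_one₀ hx0]; ring
    have e2 : x ^ α * (x ^ (α' - 1)) ^ m = 1 := by
      rw [← zpow_natCast, ← zpow_mul, ← zpow_add₀ hx0, hexp, zpow_zero]
    have e3 : y ^ β * (y ^ β') ^ m = y ^ (β + β' * m) := by
      rw [← zpow_natCast, ← zpow_mul, ← zpow_add₀ hy0]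
    rw [e1, ← e3]
    conv_lhs => rw [hfw]
    rw [mul_pow, mul_pow]
    linear_combination (w₁ * w₂ ^ m * (y ^ β * (y ^ β') ^ m)) * e2
  -- the Jacobian part
  have ht0 : t ≠ 0 := fun h0 => by have := hA.ord; rw [h0, Place.ord_zero] at this; omega
  have hz0 : E.Ge 0 z := hA.ge 0
  have hw₀ : E.ord (t / x) = 0 := by rw [E.ord_div ht0 hx0, hA.ord, hEx1]; rfl
  set j₀ := J ![x, y] k t z * x / t with hj₀
  have hj₀' : j₀ - J ![x, y] k x z = x * x / t * J ![x, y] k (t / x) z := by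
    have e1 := J_mul (k := k) ![x, y] x (t / x) z
    rw [mul_div_cancel₀ _ hx0] at e1
    rw [hj₀, e1]; field_simp; ring
  have hsmall : E.Ge 1 (j₀ - J ![x, y] k x z) := by
    have e1 := h.rk.k0 hv hdiv (Place.ge_of_le hw₀.ge) hz0
    rw [hlam1] at e1
    rw [hj₀']
    refine Place.Ge.mul' (m := 1) (Place.ge_of_le ?_) e1 (by norm_num)
    rw [E.ord_div (mul_ne_zero hx0 hx0) ht0, E.ord_mul hx0 hx0, hA.ord, hEx1]; norm_num
  obtain ⟨hge, hres⟩ := h.bas.p2.res_jac hu hA' ![z] (fun i => by fin_cases i; exact hz0)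
  change E.Ge 0 (J ![x, y] k x z) at hge
  change ρ (J ![x, y] k x z) = _ at hres
  have hXz : (fun i => ρ (![z] i)) = ![RatFunc.X] := by
    funext i
    fin_cases i; exact hz
  rw [hXz] at hres
  obtain ⟨hρy, hPy1⟩ := ord_res_y h hB hρ hE hEx hP hPy
  obtain ⟨hj0, hjord⟩ := ord_jac h.toLv1 P hA'.pb hPy1
  rw [← hres, ← res_eq hρ hge hsmall] at hj0 hjord
  have hj₀ge : E.Ge 0 j₀ := by
    simpa using (hsmall.mono zero_le_one).add hge
  have hjm : jac k u (Fin.cons t ![z]) = J ![x, y] k t z * J u k x y :=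
    h.bas.c1.jac_mul hu hv _
  have hlc : lc k u ρ t ![z] m 0 f = ρ (w₁ * w₂ ^ m) * ρ y ^ (β + β' * m) * ρ j₀ ^ m := by
    have e1 : f * (jac k u (Fin.cons t ![z]) / t) ^ m * t ^ (-(0 : ℤ)) =
        w₁ * w₂ ^ m * y ^ (β + β' * m) * j₀ ^ m := by
      rw [← hmono, hjm, neg_zero, zpow_zero, mul_one, mul_assoc, ← mul_pow, hj₀]
      congr 2
      field_simp
    have e2 : E.Ge 0 (y ^ (β + β' * m)) := Place.ge_of_le (by simp [hEy0])
    have e3 := hE.1 _ hw.1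
    rw [lc, e1, hρ.mul _ _ (by simpa using e3.mul e2) (by simpa using hj₀ge.pow m),
      hρ.mul _ _ e3 e2, res_zpow hρ hy0 hEy0, res_pow hρ hj₀ge]
  obtain ⟨hw0, hw1⟩ := res_un hρ hE.1 hP hw
  have e4 : ρ y ^ (β + β' * m) ≠ 0 := zpow_ne_zero _ hρy
  rw [hlc, Place.not_ge_iff]
  refine ⟨mul_ne_zero (mul_ne_zero hw0 e4) (pow_ne_zero _ hj0), ?_⟩
  rw [P.ord_mul (mul_ne_zero hw0 e4) (pow_ne_zero _ hj0), P.ord_mul hw0 e4, hw1, Place.ord_zpow,
    Place.ord_pow, hPy1, hjord, ← hβ', hJH, ← hβ]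
  linarith

end Pool.Agent.Lib.MP_5f81cf_ag.Full.Res
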