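import Pool.Agent.Lib.MP_5f81cf_ag.ResBlue
import Pool.Agent.Lib.MP_5f81cf_ag.FChG

/-! Existence of a finite projection of a normal point to a regular point. -/

namespace Pool.Agent.Lib.MP_5f81cf_ag.Full.Res

open Pool.Agent.Lib.MP_e06174_ag

namespace ProjB

variable {k L : Type} [Field k] [Field L] [Algebra k L] {O A : Subalgebra k L} {a b : L}

/-- The centre of `O` on a subring. -/
def cen (hO : IsLoc O) (hA : A ≤ O) : Ideal A where
  carrier := {t | (t : L) ∈ mx O}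
  add_mem' := fun hx hy => (mx O).add_mem hx hy
  zero_mem' := zero_mem (mx O)
  smul_mem' := fun c x hx => hO.isMod_mx c (hA c.2) x hx

lemma cen_max (hO : IsLoc O) (hA : A ≤ O) : (cen hO hA).IsMaximal := by
  refine Ideal.isMaximal_iff.2 ⟨hO.one_not_mem, fun J x hJ hx hxJ => ?_⟩
  obtain ⟨c, hc⟩ := hO.res x (hA x.2)
  have c0 : c ≠ 0 := fun h => hx (show (x : L) ∈ mx O by simpa [h] using hc)
  have h1 : x - algebraMap k A c ∈ J := hJ hc
  have h2 := J.mul_mem_left (algebraMap k A c⁻¹) (J.sub_mem hxJ h1)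
  rwa [sub_sub_cancel, ← map_mul, inv_mul_cancel₀ c0, map_one] at h2

/-- The localisation of `A` at a prime, inside `L`. -/
def locP (Q : Ideal A) (hQ : Q.IsPrime) : Subring L where
  carrier := {f | ∃ s t : A, s ∉ Q ∧ f * s = t}
  mul_mem' := by
    rintro f g ⟨s, t, hs, e⟩ ⟨s', t', hs', e'⟩
    exact ⟨s * s', t * t', hQ.mul_notMem hs hs', by
      push_cast; rw [← e, ← e']; ring⟩
  one_mem' := ⟨1, 1, (Ideal.ne_top_iff_one _).1 hQ.ne_top, by simp⟩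
  add_mem' := by
    rintro f g ⟨s, t, hs, e⟩ ⟨s', t', hs', e'⟩
    exact ⟨s * s', t * s' + t' * s, hQ.mul_notMem hs hs', by
      push_cast; rw [← e, ← e']; ring⟩
  zero_mem' := ⟨1, 0, (Ideal.ne_top_iff_one _).1 hQ.ne_top, by simp⟩
  neg_mem' := by
    rintro f ⟨s, t, hs, e⟩
    exact ⟨s, -t, hs, by push_cast; rw [← e]; ring⟩

lemma cen_le (hO : IsLoc O) (hA : A ≤ O) (hl : ∀ f ∈ O, ∃ s ∈ A, Un O s ∧ f * s ∈ A)
    (hr : Red O a b) (ha : a ∈ A) (hb : b ∈ A) {Q : Ideal A} (hQ : Q.IsPrime)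
    (qa : ⟨a, ha⟩ ∈ Q) (qb : ⟨b, hb⟩ ∈ Q) (hle : Q ≤ cen hO hA) : cen hO hA ≤ Q := by
  intro g hg
  by_contra hgQ
  have one : (1 : A) ∉ Q := (Ideal.ne_top_iff_one _).1 hQ.ne_top
  have ma : a ∈ locP Q hQ := ⟨1, ⟨a, ha⟩, one, by simp⟩
  have mb : b ∈ locP Q hQ := ⟨1, ⟨b, hb⟩, one, by simp⟩
  obtain ⟨W, hW, hW'⟩ := Ideal.image_subset_nonunits_valuationSubring
    (Ideal.span {(⟨a, ma⟩ : locP Q hQ), ⟨b, mb⟩}) fun h => by
      obtain ⟨⟨x, s, t, hs, e⟩, ⟨y, s', t', hs', e'⟩, h1⟩ :=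
        Ideal.mem_span_pair.1 ((Ideal.eq_top_iff_one _).1 h)
      have h2 : x * a + y * b = 1 := congrArg Subtype.val h1
      refine hQ.mul_notMem hs hs' ?_
      rw [show s * s' = t * s' * ⟨a, ha⟩ + t' * s * ⟨b, hb⟩ from Subtype.ext (by
        push_cast; rw [← e, ← e']; linear_combination (-(s : L) * s') * h2)]
      exact add_mem (Q.mul_mem_left _ qa) (Q.mul_mem_left _ qb)
  have g0 : (g : L) ≠ 0 := fun h => hgQ (by rw [show g = 0 from Subtype.ext h]; exact zero_mem _)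
  have gi : (g : L)⁻¹ ∈ W := hW ⟨g, 1, hgQ, by simp [g0]⟩
  have key : ∀ c : L, c ≠ 0 → c ∈ W.nonunits → g / c ∉ W := fun c c0 hc h =>
    (W.mem_nonunits_iff_or.1 hc).elim c0 fun h' => h' (by
      rw [show c⁻¹ = g / c * (g : L)⁻¹ by field_simp]; exact mul_mem h gi)
  rcases hr.val W (fun f hf => by
    obtain ⟨s, hs, hu, hfs⟩ := hl f hf
    exact hW ⟨⟨s, hs⟩, ⟨_, hfs⟩, fun h => hO.not_un (hle h) hu, rfl⟩) g hg with h | h
  · exact key a hr.a_ne (hW' ⟨⟨a, ma⟩, Ideal.subset_span (by simp), rfl⟩) h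
  · exact key b hr.b_ne (hW' ⟨⟨b, mb⟩, Ideal.subset_span (by simp), rfl⟩) h

open MvPolynomial in
lemma zmt (hO : IsLoc O) (hr : Red O a b) {T : Type} [CommRing T] [Algebra T L] [Algebra k T]
    [IsScalarTower k T L] {a₀ b₀ : T} (ea : algebraMap T L a₀ = a) (eb : algebraMap T L b₀ = b) :
    ∀ f ∈ O, ∃ s, IsIntegral T s ∧ Un O s ∧ IsIntegral T (f * s) := by
  classical
  obtain ⟨A₀, hfg, hle, hl⟩ := hO.fg
  let A := A₀ ⊔ Algebra.adjoin k (({a, b} : Finset L) : Set L)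
  have hA : A ≤ O := sup_le hle (Algebra.adjoin_le (by
    simp [Set.insert_subset_iff, mx_le hr.a_mem, mx_le hr.b_mem]))
  have h0 : A₀ ≤ A := le_sup_left
  have ha : a ∈ A := (le_sup_right : _ ≤ A) (Algebra.subset_adjoin (by simp))
  have hb : b ∈ A := (le_sup_right : _ ≤ A) (Algebra.subset_adjoin (by simp))
  have : Algebra.FiniteType k A :=
    (Subalgebra.fg_iff_finiteType A).1 (hfg.sup (Subalgebra.fg_adjoin_finset _))
  have : IsNoetherianRing A := Algebra.FiniteType.isNoetherianRing k A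
  let φ : MvPolynomial (Fin 2) k →ₐ[k] A := aeval ![⟨a, ha⟩, ⟨b, hb⟩]
  let _ := φ.toRingHom.toAlgebra
  have : IsScalarTower k (MvPolynomial (Fin 2) k) A :=
    .of_algebraMap_eq fun c => (φ.commutes c).symm
  have : Algebra.FiniteType (MvPolynomial (Fin 2) k) A :=
    .of_restrictScalars_finiteType k _ _
  have := cen_max hO hA
  have e : (Ideal.span {(X 0 : MvPolynomial (Fin 2) k), X 1}).map (algebraMap _ A) =
      Ideal.span {⟨a, ha⟩, ⟨b, hb⟩} := by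
    rw [Ideal.map_span, Set.image_pair]
    simp [RingHom.algebraMap_toAlgebra, φ]
  obtain ⟨s, hs, hs'⟩ := chG_zmt (Ideal.span {(X 0 : MvPolynomial (Fin 2) k), X 1}) (cen hO hA) (by
    rw [e]
    refine ⟨⟨inferInstance, Ideal.span_le.2 ?_⟩, fun Q hQ hQ' => cen_le hO hA (fun f hf => ?_) hr
      ha hb hQ.1 (hQ.2 (Ideal.subset_span (by simp))) (hQ.2 (Ideal.subset_span (by simp))) hQ'⟩
    · rintro _ (rfl | rfl)
      exacts [hr.a_mem, hr.b_mem]
    · obtain ⟨s, h1, h2, h3⟩ := hl f hf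
      exact ⟨s, h0 h1, h2, h0 h3⟩)
  have tr : ∀ x ∈ A, ∃ N : ℕ, IsIntegral T ((s : L) ^ N * x) := fun x hx => by
    obtain ⟨N, hN⟩ := hs' ⟨x, hx⟩
    refine ⟨N, hN.map_of_comp_eq (aeval ![a₀, b₀] : _ →ₐ[k] T).toRingHom A.val.toRingHom
      (ringHom_ext (fun c => ?_) fun i => ?_)⟩
    · simp [RingHom.algebraMap_toAlgebra, φ, ← IsScalarTower.algebraMap_apply]
    · fin_cases i <;> simp [RingHom.algebraMap_toAlgebra, φ, ea, eb]
  have si : IsIntegral T (s : L) := by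
    obtain ⟨N, hN⟩ := tr s s.2
    rw [← pow_succ] at hN
    exact hN.of_pow N.succ_pos
  have su : Un O s := (un_or_mx (hA s.2)).resolve_right hs
  intro f hf
  obtain ⟨t, h1, h2, h3⟩ := hl f hf
  obtain ⟨N, hN⟩ := tr t (h0 h1)
  obtain ⟨M, hM⟩ := tr _ (h0 h3)
  refine ⟨s ^ M * (s ^ N * t), (si.pow M).mul hN, (su.pow M).mul ((su.pow N).mul h2), ?_⟩
  rw [show f * ((s : L) ^ M * (s ^ N * t)) = s ^ N * (s ^ M * (f * t)) by ring]
  exact (si.pow N).mul hM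

end ProjB

theorem blk_Proj {k : Type} [Field k] [IsAlgClosed k] {p : Nat} [Fact p.Prime] [CharP k p]
    (hp : p ≠ 2) (h : Lv3 k p) : St_Proj k p := by
  intro L _ _ u O a b hu hO hr hJ
  have := hO.ess
  have pb : IsPB p ![a, b] := (h.bas.c1.pb_iff hu).2 hJ
  let K₀ := IntermediateField.adjoin k (Set.range ![a, b])
  let a₀ : K₀ := ⟨a, IntermediateField.subset_adjoin _ _ ⟨0, rfl⟩⟩
  let b₀ : K₀ := ⟨b, IntermediateField.subset_adjoin _ _ ⟨1, rfl⟩⟩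
  have e : K₀.val ∘ ![a₀, b₀] = ![a, b] := funext fun i => by fin_cases i <;> rfl
  obtain ⟨B, hB, hB'⟩ := h.base a₀ b₀ (.of_comp K₀.val (e ▸ h.bas.c1.algInd pb))
    (K₀.lift_injective (by
      rw [IntermediateField.lift_adjoin, IntermediateField.lift_top, ← Set.range_comp]
      exact congrArg (fun v => IntermediateField.adjoin k (Set.range v)) e))
  refine ⟨K₀, B, a₀, b₀, h.bas.c2.finite pb, h.bas.c2.sep pb, rfl, rfl, hB, hO, fun f hf => ?_, hr,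
    ProjB.zmt hO.toIsLoc hr (a₀ := ⟨a₀, mx_le hB.x_mem⟩) (b₀ := ⟨b₀, mx_le hB.y_mem⟩) rfl rfl⟩
  have sub : ∀ t ∈ Algebra.adjoin k {a₀, b₀}, (t : L) ∈ O := fun t ht =>
    (Algebra.adjoin_le (S := O.comap K₀.val) (by
      rintro _ (rfl | rfl)
      exacts [mx_le (O := O) hr.a_mem, mx_le (O := O) hr.b_mem])) ht
  obtain ⟨s, -, ⟨c, c0, hc⟩, s0, hfs⟩ := hB' f hf
  obtain ⟨x, hx, y, hy, e⟩ := mem_gen_two.1 hc
  have su : Un O (s : L) := by
    rw [show (s : L) = algebraMap k L c + (x * a + y * b) from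
      congrArg Subtype.val (eq_add_of_sub_eq' e)]
    exact hO.un_add (un_const c0) (add_mem (hO.isMod_mx _ (sub x hx) _ hr.a_mem)
      (hO.isMod_mx _ (sub y hy) _ hr.b_mem))
  have := mul_mem (sub _ hfs) su.2.2
  rwa [MulMemClass.coe_mul, mul_inv_cancel_right₀ su.2.1] at this

end Pool.Agent.Lib.MP_5f81cf_ag.Full.Res
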