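import Pool.Agent.Lib.MP_5f81cf_ag.ResBlue

/-! Quadratic transforms are again points of models. -/

namespace Pool.Agent.Lib.MP_5f81cf_ag.Full.Res

open Pool.Agent.Lib.MP_e06174_ag

namespace Q2

variable {k L : Type} [Field k] [Field L] [Algebra k L] {O A : Subalgebra k L}
  {V : ValuationSubring L} {f g b : L}

lemma mul_nonunit (hf : f ∈ V) (hg : g ∈ V.nonunits) : f * g ∈ V.nonunits := by
  rw [ValuationSubring.mem_nonunits_iff] at hg ⊢
  rw [map_mul]
  exact (mul_le_of_le_one_left zero_le ((V.valuation_le_one_iff f).2 hf)).trans_lt hg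

lemma loc_le (hA : ∀ f ∈ A, f ∈ V) (hf : f ∈ loc A V) : f ∈ V := by
  obtain ⟨s, -, hs0, hsV, h⟩ := hf
  have := mul_mem (hA _ h) hsV
  rwa [mul_inv_cancel_right₀ hs0] at this

lemma un_loc (hf : f ∈ loc A V) (h0 : f ≠ 0) (h : f⁻¹ ∈ V) : Un (loc A V) f := by
  refine ⟨hf, h0, ?_⟩
  obtain ⟨s, hs, hs0, hsV, h'⟩ := hf
  exact ⟨f * s, h', mul_ne_zero h0 hs0, by rw [mul_inv]; exact mul_mem h hsV,
    by rwa [inv_mul_cancel_left₀ h0]⟩

lemma dom_loc (hA : ∀ f ∈ A, f ∈ V) : Dom V (loc A V) := by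
  refine ⟨fun f => loc_le hA, fun f hf => ?_⟩
  induction hf using Submodule.span_induction with
  | mem x hx =>
    rw [V.mem_nonunits_iff_or]
    by_cases h0 : x = 0
    · exact Or.inl h0
    · exact Or.inr fun h => hx.2.elim h0 fun h' => h' (un_loc hx.1 h0 h).2.2
  | zero => exact zero_mem _
  | add x y _ _ hx hy => exact add_mem hx hy
  | smul c x _ hx =>
    rw [Algebra.smul_def]
    exact mul_nonunit (hA _ (A.algebraMap_mem c)) hx

lemma chart_le_of {S : Set L} {B : Subalgebra k L} (hO : O ≤ B) (hS : mx O = gen O S)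
    (h : ∀ g ∈ S, g / b ∈ B) : chart O b ≤ B := by
  refine Algebra.adjoin_le ?_
  rintro _ (hf | ⟨g, hg, rfl⟩)
  · exact hO hf
  · have := gen_le (O := O) (S := S)
      (N := (Subalgebra.toSubmodule B).comap (LinearMap.mulRight k b⁻¹)) (fun a ha x hx => ?_)
      (fun g hg => ?_) (hS ▸ hg)
    · rw [div_eq_mul_inv]
      exact this
    · change a * x * b⁻¹ ∈ B
      rw [mul_assoc]
      exact mul_mem (hO ha) hx
    · change g * b⁻¹ ∈ B
      rw [← div_eq_mul_inv]
      exact h g hg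

/-- Fractions with a denominator that is a unit of `O`. -/
def frc (A O : Subalgebra k L) : Subalgebra k L where
  carrier := {f | ∃ s ∈ A, Un O s ∧ f * s ∈ A}
  mul_mem' := by
    rintro f g ⟨s, hs, hu, hf⟩ ⟨t, ht, hv, hg⟩
    exact ⟨s * t, mul_mem hs ht, hu.mul hv, by rw [mul_mul_mul_comm]; exact mul_mem hf hg⟩
  add_mem' := by
    rintro f g ⟨s, hs, hu, hf⟩ ⟨t, ht, hv, hg⟩
    refine ⟨s * t, mul_mem hs ht, hu.mul hv, ?_⟩
    rw [show (f + g) * (s * t) = f * s * t + g * t * s by ring]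
    exact add_mem (mul_mem hf ht) (mul_mem hg hs)
  algebraMap_mem' := fun c => ⟨1, one_mem _, un_one, by rw [mul_one]; exact A.algebraMap_mem c⟩

/-- Elements that are constant modulo `I`. -/
def cst (O : Subalgebra k L) (I : Submodule k L) (hI : IsMod O I) : Subalgebra k L where
  carrier := {f | f ∈ O ∧ ∃ c : k, f - algebraMap k L c ∈ I}
  mul_mem' := by
    rintro f g ⟨hf, c, hc⟩ ⟨hg, d, hd⟩
    refine ⟨mul_mem hf hg, c * d, ?_⟩
    rw [show f * g - algebraMap k L (c * d) =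
      g * (f - algebraMap k L c) + algebraMap k L c * (g - algebraMap k L d) by
        rw [map_mul]; ring]
    exact add_mem (hI _ hg _ hc) (hI _ (O.algebraMap_mem c) _ hd)
  add_mem' := by
    rintro f g ⟨hf, c, hc⟩ ⟨hg, d, hd⟩
    refine ⟨add_mem hf hg, c + d, ?_⟩
    rw [map_add, add_sub_add_comm]
    exact add_mem hc hd
  algebraMap_mem' := fun c => ⟨O.algebraMap_mem c, c, by rw [sub_self]; exact zero_mem _⟩

lemma isLoc_loc (hO : IsLoc O) {S : Finset L} (hS : mx O = gen O S)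
    (hA : ∀ f ∈ chart O b, f ∈ V) (hR : ResK k V) : IsLoc (loc (chart O b) V) := by
  classical
  have hD := dom_loc hA
  have hle : O ≤ loc (chart O b) V := (le_chart b).trans (le_loc _ _)
  refine ⟨hO.ess, hO.dim, ?_, fun f => ?_, fun f hf => ?_, fun f hf => ?_⟩
  · obtain ⟨A, ⟨T, hT⟩, hAO, hA'⟩ := hO.fg
    let A' := Algebra.adjoin k ((T ∪ S.image (· / b) : Finset L) : Set L)
    have h1 : A ≤ A' := by
      rw [← hT]
      exact Algebra.adjoin_mono (by simp)
    have h2 : A' ≤ chart O b := by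
      refine Algebra.adjoin_le fun x hx => ?_
      rcases Finset.mem_union.1 hx with hx | hx
      · exact le_chart b (hAO (hT ▸ Algebra.subset_adjoin hx))
      · obtain ⟨g, hg, rfl⟩ := Finset.mem_image.1 hx
        exact div_mem_chart (hS ▸ subset_gen hg)
    have h3 : chart O b ≤ frc A' O := by
      refine chart_le_of (fun f hf => ?_) hS fun g hg => ⟨1, one_mem _, un_one, ?_⟩
      · obtain ⟨s, hs, hu, hf'⟩ := hA' f hf
        exact ⟨s, h1 hs, hu, h1 hf'⟩
      · rw [mul_one]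
        exact Algebra.subset_adjoin
          (Finset.mem_union_right _ (Finset.mem_image_of_mem (· / b) hg))
    refine ⟨A', ⟨_, rfl⟩, h2.trans (le_loc _ _), ?_⟩
    rintro f ⟨s, hs, hs0, hsV, hf⟩
    obtain ⟨s1, a1, u1, b1⟩ := h3 hs
    obtain ⟨s2, a2, u2, b2⟩ := h3 hf
    refine ⟨s * s1 * s2, mul_mem b1 a2,
      ((un_loc (le_loc _ _ hs) hs0 hsV).mul (u1.mono hle)).mul (u2.mono hle), ?_⟩
    rw [show f * (s * s1 * s2) = f * s * s2 * s1 by ring]
    exact mul_mem b2 a1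
  · obtain ⟨s, hs, h0, h⟩ := hO.frac f
    exact ⟨s, hle hs, h0, hle h⟩
  · exact ((V.mem_nonunits_iff_or).1 (hD.2 f hf)).imp_right fun h h' => h (hD.1 _ h')
  · obtain ⟨c, hc⟩ := hR.2 f (hD.1 f hf)
    exact ⟨c, hD.mem_mx (sub_mem hf (Subalgebra.algebraMap_mem _ c)) hc⟩

lemma mx_loc {S : Set L} (c : L → k) (hO : IsLoc O) (hV : Dom V O) (hb : IsMin O V b)
    (hS : mx O = gen O S) (hA : ∀ f ∈ chart O b, f ∈ V) (hL : IsLoc (loc (chart O b) V))
    (hc : ∀ g ∈ S, g / b - algebraMap k L (c g) ∈ V.nonunits) :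
    mx (loc (chart O b) V) =
      gen (loc (chart O b) V) (insert b ((fun g => g / b - algebraMap k L (c g)) '' S)) := by
  have hD := dom_loc hA
  have hle' : chart O b ≤ loc (chart O b) V := le_loc _ _
  have hle : O ≤ loc (chart O b) V := (le_chart b).trans hle'
  have hS' : ∀ g ∈ S, g / b ∈ loc (chart O b) V := fun g hg =>
    hle' (div_mem_chart (hS ▸ subset_gen hg))
  have h1 : gen (loc (chart O b) V) (insert b ((fun g => g / b - algebraMap k L (c g)) '' S)) ≤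
      mx (loc (chart O b) V) := by
    refine gen_le hL.isMod_mx ?_
    rintro _ (rfl | ⟨g, hg, rfl⟩)
    · exact hD.mem_mx (hle (mx_le hb.1)) (hV.2 _ hb.1)
    · exact hD.mem_mx (sub_mem (hS' g hg) (Subalgebra.algebraMap_mem _ _)) (hc g hg)
  refine le_antisymm (fun f hf => ?_) h1
  have h2 : chart O b ≤ cst (loc (chart O b) V) _
      (isMod_gen (insert b ((fun g => g / b - algebraMap k L (c g)) '' S))) := by
    refine chart_le_of (fun f hf => ⟨hle hf, ?_⟩) hS fun g hg =>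
      ⟨hS' g hg, c g, subset_gen (Set.mem_insert_of_mem _ ⟨g, hg, rfl⟩)⟩
    obtain ⟨d, hd⟩ := hO.res f hf
    refine ⟨d, ?_⟩
    rw [← div_mul_cancel₀ (f - algebraMap k L d) hb.2.1]
    exact isMod_gen _ _ (hle' (div_mem_chart hd)) _ (subset_gen (Set.mem_insert _ _))
  obtain ⟨s, hs, hs0, hsV, ht⟩ := mx_le hf
  obtain ⟨-, d, hd⟩ := h2 ht
  have h3 : f * s ∈ mx (loc (chart O b) V) := by
    rw [mul_comm]
    exact hL.isMod_mx _ (hle' hs) _ hf
  have h4 : d = 0 := by
    by_contra h0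
    refine hL.not_un ?_ (un_const h0)
    simpa using sub_mem h3 (h1 hd)
  rw [h4, map_zero, sub_zero] at hd
  have h5 := isMod_gen _ _ (un_loc (hle' hs) hs0 hsV).2.2 _ hd
  rwa [mul_comm, mul_inv_cancel_right₀ hs0] at h5

end Q2

open Q2 in
theorem blk_Q2 {k : Type} [Field k] [IsAlgClosed k] {p : ℕ} [Fact p.Prime] [CharP k p]
    (_hp : p ≠ 2) (h : Lv1 k p) (h1 : RQ1 k) : RQ2 k := by
  have key : ∀ {L : Type} [Field L] [Algebra k L] {O : Subalgebra k L} {V : ValuationSubring L},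
      IsLoc O → Dom V O → ResK k V → IsLoc (qt O V) ∧ Dom V (qt O V) ∧ O ≤ qt O V := by
    intro L _ _ O V hO hV hR
    obtain ⟨S, -, hS⟩ := h.ra.fgm hO (mx O) hO.isMod_mx
      ⟨1, one_ne_zero, fun x hx => by rw [one_mul]; exact mx_le hx⟩
    obtain ⟨b, -, hb⟩ := h1.ex_min hO hV S S.finite_toSet hS
    have hA := h1.chart_le hV.1 hb.2.2
    rw [h1.qt_eq hV hb]
    exact ⟨isLoc_loc hO hS hA hR, dom_loc hA, (le_chart b).trans (le_loc _ _)⟩
  refine ⟨key, ?_, ?_⟩
  · intro L _ _ O V b S c hO hV hR hb hS hc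
    have hL := (key hO hV hR).1
    rw [h1.qt_eq hV hb] at hL ⊢
    exact mx_loc c hO hV hb hS (h1.chart_le hV.1 hb.2.2) hL hc
  · intro L _ _ O V hO hV hR
    have h2 : ∀ i, IsLoc (ch O V i) ∧ Dom V (ch O V i) := by
      intro i
      induction i with
      | zero => exact ⟨hO, hV⟩
      | succ i ih => exact ⟨(key ih.1 ih.2 hR).1, (key ih.1 ih.2 hR).2.1⟩
    exact ⟨h2, fun i j hij => monotone_nat_of_le_succ (f := ch O V)
      (fun i => (key (h2 i).1 (h2 i).2 hR).2.2) hij⟩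

end Pool.Agent.Lib.MP_5f81cf_ag.Full.Res
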