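import Pool.Agent.Lib.MP_5f81cf_ag.ResBlue

/-! Smooth curves through a point. -/

namespace Pool.Agent.Lib.MP_5f81cf_ag.Full.Res

open Pool.Agent.Lib.MP_e06174_ag

namespace R1a

variable {k L : Type} [Field k] [Field L] [Algebra k L] {O : Subalgebra k L} {H : Place k L}
  {x θ y f : L}

lemma mp_sub (h : mx O = gen O {x, θ, y}) (n : ℕ) (hf : f ∈ mp O n) :
    ∃ c ∈ O, f - c * y ^ n ∈ gen O {x, θ} := by
  induction n generalizing f with
  | zero => exact ⟨f, mem_mp_zero.1 hf, by simp⟩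
  | succ n ih =>
    rw [mp, pow_succ, ← mul_assoc] at hf
    refine Submodule.mul_induction_on hf (fun a ha b hb => ?_) ?_
    · obtain ⟨c, hc, hi⟩ := ih ha
      have hy : y ∈ O := mx_le (h ▸ subset_gen (by simp))
      have hbO := mx_le hb
      obtain ⟨c₁, h₁, c₂, h₂, c₃, h₃, rfl⟩ := mem_gen_three.1 (h ▸ hb)
      refine ⟨c * c₃, mul_mem hc h₃, ?_⟩
      have := add_mem (isMod_gen _ _ hbO _ hi) (isMod_gen _ _ (mul_mem hc (pow_mem hy n)) _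
        (mem_gen_two.2 ⟨c₁, h₁, c₂, h₂, rfl⟩))
      convert this using 1; ring
    · rintro a b ⟨c, hc, hi⟩ ⟨d, hd, hj⟩
      exact ⟨c + d, add_mem hc hd, by convert add_mem hi hj using 1; ring⟩

lemma dich (ra : RA k) (hO : IsLoc O) (h : mx O = gen O {x, θ, y}) (hf : f ∈ O) :
    f ∈ gen O {x, θ} ∨ ∃ (n : ℕ) (w : L), Un O w ∧ f - w * y ^ n ∈ gen O {x, θ} := by
  by_contra! hc
  have hy : y ∈ mx O := h ▸ subset_gen (by simp)
  have hI : gen O {x, θ} ≤ mx O := gen_le hO.isMod_mx fun g hg => h ▸ subset_gen (by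
    rcases hg with rfl | rfl <;> simp)
  refine hc.1 (ra.krull hO _ (isMod_gen _) (fun g hg => mx_le (hI hg)) f fun n => ?_)
  induction n with
  | zero => exact Submodule.mem_sup_right (mem_mp_zero.2 hf)
  | succ n ih =>
    obtain ⟨i, hi, m, hm, rfl⟩ := Submodule.mem_sup.1 ih
    obtain ⟨c, hcO, hj⟩ := mp_sub h n hm
    have h1 : i + m - c * y ^ n ∈ gen O {x, θ} := by convert add_mem hi hj using 1; ring
    rcases un_or_mx hcO with hu | hm'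
    · exact absurd h1 (hc.2 n c hu)
    · refine Submodule.mem_sup.2 ⟨_, h1, c * y ^ n, ?_, by ring⟩
      rw [add_comm]; exact mul_mem_mp (mx_le_mp hm') (pow_mem_mp hy n)

lemma cancel (hO : IsLoc O) (hH : Cont O H) (hy : y ∈ mx O) (hy' : ¬ H.Ge 1 y) {w w' : L}
    (hw : Un O w) (hw' : w' ∈ O) {i j : ℕ} (hij : i < j)
    (h : H.Ge 1 (w * y ^ i - w' * y ^ j)) : False := by
  obtain ⟨d, rfl⟩ := Nat.exists_eq_add_of_lt hij
  obtain ⟨hy0, hyo⟩ := (hO.dic hH hy hy').ord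
  have hu : Un O (w + -(w' * y ^ d * y)) := hO.un_add hw (neg_mem
    (hO.isMod_mx _ (mul_mem hw' (pow_mem (mx_le hy) d)) _ hy))
  have h1 := h.mul (Place.ge_of_le (p := H) (n := 0) (x := (y ^ i)⁻¹) (by simp [hyo]))
  refine hu.not_ge hH ?_
  convert h1 using 1
  · simp
  · field_simp; ring

variable {p : ℕ} [hp : Fact p.Prime]

lemma prin (h : Lv2 k p) (hO : IsPt O) (hm : mx O = gen O {x, θ, y}) (hH : Ht1 O H)
    (hx : H.Ge 1 x) (hθ : H.Ge 1 θ) :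
    (∀ f ∈ O, H.Ge 1 f → f ∈ gen O {x, θ}) ∧ ¬ H.Ge 1 y ∧ NotPow p H y ∧
      ∀ f ∈ O, ¬ H.Ge 1 f → ∃ (n : ℕ) (w : L), Un O w ∧ H.Ge 1 (f - w * y ^ n) := by
  have hI : ∀ g ∈ gen O {x, θ}, H.Ge 1 g := fun g hg =>
    ge_of_mem_gen hH.1 (by rintro _ (rfl | rfl) <;> assumption) hg
  have hym : y ∈ mx O := hm ▸ subset_gen (by simp)
  have hy : ¬ H.Ge 1 y := fun hy => hH.not_domP ⟨hH.1, fun g hg =>
    ge_of_mem_gen hH.1 (by rintro _ (rfl | rfl | rfl) <;> assumption) (hm ▸ hg)⟩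
  obtain ⟨hy0, hyo⟩ := (hO.toIsLoc.dic hH.1 hym hy).ord
  have h4 : ∀ f ∈ O, ¬ H.Ge 1 f → ∃ (n : ℕ) (w : L), Un O w ∧ H.Ge 1 (f - w * y ^ n) :=
    fun f hf hn => ((dich h.ra hO.toIsLoc hm hf).resolve_left fun hi => hn (hI f hi)).imp
      fun n => Exists.imp fun w hw => ⟨hw.1, hI _ hw.2⟩
  refine ⟨fun f hf hg => (dich h.ra hO.toIsLoc hm hf).resolve_right ?_, hy,
    ⟨hH.1 y (mx_le hym), fun w hw hc => ?_⟩, h4⟩
  · rintro ⟨n, w, hw, hi⟩
    have h1 : H.Ge 1 (w * y ^ n) := by simpa using hg.sub (hI _ hi)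
    have h2 := h1.le (mul_ne_zero hw.2.1 (pow_ne_zero _ hy0))
    rw [H.ord_mul hw.2.1 (pow_ne_zero _ hy0), hw.ord hH.1, Place.ord_pow, hyo] at h2
    omega
  · obtain ⟨s, hs, hs', ht⟩ := h.rh.locz hO hH w hw
    have hpos : (1 : ℤ) ≤ p * 1 := by have := hp.out.pos; omega
    have hw1 : ¬ H.Ge 1 w := fun h1 => hy (by simpa using hc.add ((h1.pow p).mono hpos))
    have hs0 := Place.not_ge_iff.1 hs'
    have hw0 := Place.not_ge_iff.1 hw1
    have ht' : ¬ H.Ge 1 (w * s) := Place.not_ge_iff.2 ⟨mul_ne_zero hw0.1 hs0.1, by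
      rw [H.ord_mul hw0.1 hs0.1]
      have := hw.le hw0.1
      have := (hH.1 s hs).le hs0.1
      omega⟩
    obtain ⟨i, v, hv, h1⟩ := h4 s hs hs'
    obtain ⟨j, v', hv', h2⟩ := h4 _ ht ht'
    have hpow : ∀ a b : L, H.Ge 0 a → H.Ge 0 b → H.Ge 1 (a - b) → H.Ge 1 (a ^ p - b ^ p) := by
      intro a b ha hb hab
      rw [← (Commute.all a b).geom_sum₂_mul]
      exact (Place.Ge.sum (n := 0) fun l _ => by simpa using (ha.pow l).mul (hb.pow _)).mul' hab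
        (by simp)
    have hyg : H.Ge 0 y := hH.1 y (mx_le hym)
    have g1 : H.Ge 0 (v * y ^ i) := hH.1 _ (mul_mem hv.1 (pow_mem (mx_le hym) _))
    have g2 : H.Ge 0 (v' * y ^ j) := hH.1 _ (mul_mem hv'.1 (pow_mem (mx_le hym) _))
    have k1 := hpow _ _ (hH.1 s hs) g1 h1
    have k2 := hpow _ _ (hH.1 _ ht) g2 h2
    have k3 : H.Ge 1 (v ^ p * y ^ (p * i + 1) - v' ^ p * y ^ (p * j)) := by
      have := ((hc.mul' ((hH.1 s hs).pow p) (l := 1) (by simp)).add k2).sub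
        (hyg.mul' k1 (l := 1) (by simp))
      convert this using 1; ring
    rcases lt_trichotomy (p * i + 1) (p * j) with hl | hl | hl
    · exact cancel hO.toIsLoc hH.1 hym hy (hv.pow p) (hv'.pow p).1 hl k3
    · have : p ∣ 1 := (Nat.dvd_add_right (Dvd.intro i rfl)).1 (hl ▸ Dvd.intro j rfl)
      exact hp.out.one_lt.ne' (Nat.dvd_one.1 this)
    · exact cancel hO.toIsLoc hH.1 hym hy (hv'.pow p) (hv.pow p).1 hl (by simpa using k3.neg)

lemma hx (h : Lv2 k p) (hO : IsReg O x y) :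
    x ≠ 0 ∧ ∃ H : Place k L, Ht1 O H ∧ H.ord x = 1 ∧ H.ord y = 0 ∧ NotPow p H y ∧
      (∀ f ∈ O, H.Ge 1 f → f / x ∈ O) ∧ ∀ H', Ht1 O H' → H'.Ge 1 x → H' = H := by
  have hm : mx O = gen O {x, x, y} := by rw [hO.par, Set.insert_eq_of_mem (Set.mem_insert _ _)]
  have hx0 : x ≠ 0 := by
    rintro rfl
    obtain ⟨H, hH, hy⟩ := h.rh.ex hO.toIsLoc y hO.y_mem
    exact (prin h hO.toIsPt hm hH (by simp) (by simp)).2.1 hy
  obtain ⟨H, hH, hx⟩ := h.rh.ex hO.toIsLoc x hO.x_mem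
  obtain ⟨h1, h2, h3, -⟩ := prin h hO.toIsPt hm hH hx hx
  have h4 : ∀ f ∈ O, H.Ge 1 f → f / x ∈ O := fun f hf hg => by
    obtain ⟨c, hc, d, hd, rfl⟩ := mem_gen_two.1 (h1 f hf hg)
    rw [← add_mul, mul_div_cancel_right₀ _ hx0]; exact add_mem hc hd
  refine ⟨hx0, H, hH, ?_, (hO.toIsLoc.dic hH.1 hO.y_mem h2).ord.2, h3, h4, fun H' hH' hx' => ?_⟩
  · obtain ⟨π, hπ0, hπ⟩ := H.exists_ord_eq_one
    obtain ⟨s, hs, hs', ht⟩ := h.rh.locz hO.toIsPt hH π (Place.ge_of_le (by omega))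
    have hs0 := Place.not_ge_iff.1 hs'
    have h5 := (hH.1 s hs).le hs0.1
    have h6 : H.ord (π * s) = 1 := by rw [H.ord_mul hπ0 hs0.1]; omega
    have h7 := (hH.1 _ (h4 _ ht (Place.ge_of_le h6.ge))).le
      (div_ne_zero (mul_ne_zero hπ0 hs0.1) hx0)
    rw [H.ord_div (mul_ne_zero hπ0 hs0.1) hx0] at h7
    have := hx.le hx0
    omega
  · refine (h.rh.uniq hO.toIsPt hH hH' fun f hf hg => ?_).symm
    have := (hH'.1 _ (h4 f hf hg)).mul hx'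
    rwa [div_mul_cancel₀ _ hx0, zero_add] at this

end R1a

theorem blk_R1a {k : Type} [Field k] [IsAlgClosed k] {p : ℕ} [Fact p.Prime] [CharP k p]
    (_hp : p ≠ 2) (h : Lv2 k p) : RR1a k p :=
  ⟨R1a.prin h, R1a.hx h⟩

end Pool.Agent.Lib.MP_5f81cf_ag.Full.Res
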