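import Pool.Agent.Lib.MP_5f81cf_ag.ResBlue

/-! The exceptional curve of the blow-up of a regular point. -/

namespace Pool.Agent.Lib.MP_5f81cf_ag.Full.Res

open Pool.Agent.Lib.MP_e06174_ag Polynomial

namespace R1b

variable {k L : Type} [Field k] [Field L] [Algebra k L] {O : Subalgebra k L} {F : Place k L}
  {x y g : L}

lemma mp_anti {m n : ℕ} (h : m ≤ n) (hg : g ∈ mp O n) : g ∈ mp O m := by
  induction h with
  | refl => exact hg
  | step _ ih => exact ih (mp_succ_le _ hg)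

lemma span_le (h : IsReg O x y) : Submodule.span k {x, y} ≤ mx O := by
  rw [h.par]
  exact le_mul_self _

lemma mp_le_gen (h : IsReg O x y) (j : ℕ) :
    mp O j ≤ Subalgebra.toSubmodule O * Submodule.span k {x, y} ^ j := by
  induction j with
  | zero => rw [mp, pow_zero, pow_zero]
  | succ j ih =>
    rw [mp, pow_succ, ← mul_assoc]
    refine (mul_le_mul' ih le_rfl).trans (le_of_eq ?_)
    rw [h.par, gen, mul_mul_mul_comm, ← pow_succ,
      IsMod.eq (O := O) (M := Subalgebra.toSubmodule O) fun _ ha _ hx => O.mul_mem ha hx]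

lemma split (h : IsReg O x y) {j : ℕ} (hg : g ∈ mp O j) :
    ∃ s ∈ Submodule.span k {x, y} ^ j, g - s ∈ mp O (j + 1) := by
  refine Submodule.mul_induction_on (mp_le_gen h j hg) (fun a ha b hb => ?_) ?_
  · obtain ⟨c, hc⟩ := h.res a ha
    refine ⟨c • b, Submodule.smul_mem _ c hb, ?_⟩
    rw [Algebra.smul_def, ← sub_mul, add_comm]
    exact mul_mem_mp (mx_le_mp hc) (le_mul_self _ (pow_le_pow_left' (span_le h) j hb))
  · rintro a b ⟨s, hs, ha⟩ ⟨t, ht, hb⟩
    exact ⟨s + t, add_mem hs ht, by rw [add_sub_add_comm]; exact add_mem ha hb⟩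

lemma poly (hy : y ≠ 0) (j : ℕ) {s : L} (hs : s ∈ Submodule.span k {x, y} ^ j) :
    ∃ P : k[X], s = y ^ j * aeval (x / y) P := by
  induction j generalizing s with
  | zero =>
    rw [pow_zero, Submodule.mem_one] at hs
    obtain ⟨c, rfl⟩ := hs
    exact ⟨C c, by simp⟩
  | succ j ih =>
    rw [pow_succ] at hs
    refine Submodule.mul_induction_on hs (fun a ha b hb => ?_) ?_
    · obtain ⟨P, rfl⟩ := ih ha
      obtain ⟨c, d, rfl⟩ := Submodule.mem_span_pair.1 hb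
      refine ⟨P * (C c * X + C d), ?_⟩
      simp only [map_mul, map_add, aeval_C, aeval_X, Algebra.smul_def]
      field_simp
      ring
    · rintro _ _ ⟨P, rfl⟩ ⟨Q, rfl⟩
      exact ⟨P + Q, by rw [map_add, mul_add]⟩

lemma level (ha : RA k) (h : IsReg O x y) (hg : g ∈ O) (h0 : g ≠ 0) :
    ∃ j, g ∈ mp O j ∧ g ∉ mp O (j + 1) := by
  by_contra hn
  push Not at hn
  refine h0 ((Submodule.mem_bot k).1 (ha.krull h.toIsLoc ⊥ (fun a _ x hx => ?_) (fun x hx => ?_) g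
    fun n => ?_))
  · rw [(Submodule.mem_bot k).1 hx, mul_zero]
    exact zero_mem _
  · rw [(Submodule.mem_bot k).1 hx]
    exact zero_mem _
  · rw [bot_sup_eq]
    induction n with
    | zero => exact mem_mp_zero.2 hg
    | succ n ih => exact hn n ih

lemma ord_xy (hy : y ≠ 0) (hd : Dic F (x / y)) : x ≠ 0 ∧ F.ord x = F.ord y := by
  obtain ⟨h1, h2⟩ := hd.ord
  have hx : x ≠ 0 := fun e => h1 (by rw [e, zero_div])
  rw [F.ord_div hx hy] at h2
  exact ⟨hx, by omega⟩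

lemma ge_mx (h : IsReg O x y) (hy : y ≠ 0) (hF : DomP O F) (hd : Dic F (x / y))
    (hg : g ∈ mx O) : F.Ge (F.ord y) g := by
  rw [h.par] at hg
  refine ge_of_mem_gen hF.1 ?_ hg
  rintro f (rfl | rfl)
  · exact Place.ge_of_le (ord_xy hy hd).2.ge
  · exact F.ge_ord _

lemma ord_eq (hv : RV k) (h : IsReg O x y) (hy : y ≠ 0) (hF : DomP O F) (hd : Dic F (x / y))
    {j : ℕ} (h1 : g ∈ mp O j) (h2 : g ∉ mp O (j + 1)) : F.ord g = j * F.ord y := by
  obtain ⟨s, hs, hs'⟩ := split h h1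
  have s0 : s ≠ 0 := fun e => h2 (by simpa [e] using hs')
  have e1 := hv.hom hy hd j s hs s0
  have e2 := ge_of_mem_mp hF.1 (fun f hf => ge_mx h hy hF hd hf) hs'
  have e3 := (hF.2 y h.y_mem).le hy
  rw [← e1]
  refine (Place.ord_eq_of_ge_sub s0 (e2.mono ?_)).2
  rw [e1]
  push_cast
  linarith

lemma ord_one (ha : RA k) (hv : RV k) (h : IsReg O x y) (hy : y ≠ 0) (hF : DomP O F)
    (hd : Dic F (x / y)) : F.ord y = 1 := by
  obtain ⟨t, t0, ht⟩ := F.exists_ord_eq_one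
  obtain ⟨s, hs, s0, hts⟩ := h.frac t
  obtain ⟨i, i1, i2⟩ := level ha h hs s0
  obtain ⟨j, j1, j2⟩ := level ha h hts (mul_ne_zero t0 s0)
  have e1 := ord_eq hv h hy hF hd i1 i2
  have e2 := ord_eq hv h hy hF hd j1 j2
  have e3 := (hF.2 y h.y_mem).le hy
  rw [F.ord_mul t0 s0, ht, e1] at e2
  exact Int.eq_one_of_mul_eq_one_left (a := j - i) (by omega) (by linarith)

lemma ge_pow_sub {a b : L} (ha : F.Ge 0 a) (hb : F.Ge 0 b) (h : F.Ge 1 (a - b)) (n : ℕ) :
    F.Ge 1 (a ^ n - b ^ n) := by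
  induction n with
  | zero => simp
  | succ n ih =>
    rw [show a ^ (n + 1) - b ^ (n + 1) = a * (a ^ n - b ^ n) + (a - b) * b ^ n by ring]
    exact (ha.mul' ih le_rfl).add (h.mul' (hb.pow n) (by simp))

lemma ge_aeval {z : L} (hz : F.Ge 0 z) (P : k[X]) : F.Ge 0 (aeval z P) := by
  induction P using Polynomial.induction_on' with
  | add P Q hP hQ => rw [map_add]; exact hP.add hQ
  | monomial n c =>
    rw [aeval_monomial]
    exact (Place.ge_const c).mul' (hz.pow n) (by simp)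

lemma lead (h : IsReg O x y) (hy : y ≠ 0) (hF : DomP O F)
    (h1 : F.ord y = 1) {j : ℕ} (hg : g ∈ mp O j) (hg' : g ∉ mp O (j + 1)) :
    ∃ P : k[X], P ≠ 0 ∧ F.Ge 1 (g / y ^ j - aeval (x / y) P) := by
  obtain ⟨s, hs, hs'⟩ := split h hg
  obtain ⟨P, rfl⟩ := poly hy j hs
  refine ⟨P, fun e => hg' (by simpa [e] using hs'), ?_⟩
  have e2 := ge_of_mem_mp hF.1 hF.2 hs'
  have e3 : F.Ge (-j) (y ^ j)⁻¹ := Place.ge_of_le (by simp [h1])
  have := e2.mul' e3 (l := 1) (by push_cast; omega)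
  convert this using 1
  field_simp

lemma notPow {p : ℕ} (hp : p.Prime) (ha : RA k) (hv : RV k) (h : IsReg O x y) (hy : y ≠ 0)
    (hF : DomP O F) (hd : Dic F (x / y)) : NotPow p F (x / y) := by
  refine ⟨hd.1, fun w hw hz => ?_⟩
  have h1 := ord_one ha hv h hy hF hd
  have w1 : ¬ F.Ge 1 w := fun e => hd.2 0 (by
    have := hz.add ((e.pow p).mono (m := 1) (by have := hp.one_le; omega))
    simpa using this)
  obtain ⟨w0, w2⟩ := Place.not_ge_iff.1 w1
  have w3 := hw.le w0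
  obtain ⟨s, hs, s0, hws⟩ := h.frac w
  obtain ⟨i, i1, i2⟩ := level ha h hs s0
  obtain ⟨j, j1, j2⟩ := level ha h hws (mul_ne_zero w0 s0)
  have e1 := ord_eq hv h hy hF hd i1 i2
  have e2 := ord_eq hv h hy hF hd j1 j2
  rw [F.ord_mul w0 s0, e1, h1] at e2
  obtain rfl : i = j := by omega
  obtain ⟨P, P0, hP⟩ := lead h hy hF h1 i1 i2
  obtain ⟨Q, Q0, hQ⟩ := lead h hy hF h1 j1 j2
  have a1 := ge_aeval hd.1 P
  have a2 := ge_aeval hd.1 Q
  have a3 : F.Ge 1 (w * aeval (x / y) P - aeval (x / y) Q) := by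
    have := hQ.sub (hw.mul' hP (l := 1) le_rfl)
    convert this using 1
    ring
  have a4 := (hz.mul' (a1.pow p) (l := 1) (by simp)).add
    (ge_pow_sub (hw.mul' a1 le_rfl) a2 a3 p)
  have ne : (X * P ^ p - Q ^ p : k[X]) ≠ 0 := fun e => by
    have := congrArg natDegree (sub_eq_zero.1 e)
    rw [natDegree_X_mul (pow_ne_zero _ P0), natDegree_pow, natDegree_pow] at this
    exact hp.one_lt.ne' (Nat.dvd_one.1 ((Nat.dvd_add_right (dvd_mul_right _ _)).1
      (this ▸ dvd_mul_right _ _)))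
  obtain ⟨b1, b2⟩ := hv.aeval hd _ ne
  refine Place.not_ge_iff.2 ⟨b1, by omega⟩ (?_ : F.Ge 1 _)
  convert a4 using 1
  simp only [map_sub, map_mul, map_pow, aeval_X]
  ring

end R1b

open R1b in
theorem blk_R1b {k : Type} [Field k] [IsAlgClosed k] {p : Nat} [Fact p.Prime] [CharP k p]
    (_hp : p ≠ 2) (h : Lv3 k p) : RR1b k p := by
  refine ⟨fun {L} _ _ {O x y} hO => ?_⟩
  have out : ∀ {x y : L}, IsReg O x y → y ≠ 0 → y / x ∉ O := fun {x y} hO hy hm => by
    obtain ⟨hx, H, H1, H2, H3, -⟩ := h.r1a.hx hO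
    have := (H1.1 _ hm).le (div_ne_zero hy hx)
    rw [H.ord_div hy hx] at this
    omega
  have hx := (h.r1a.hx hO).1
  have hy := (h.r1a.hx hO.swap).1
  obtain ⟨E, E1, E2⟩ := h.rd.ex hO.toIsPt (out hO.swap hx) (by rw [inv_div]; exact out hO hy)
  have e1 := ord_one h.ra h.rv hO hy E1 E2
  refine ⟨E, (ord_xy hy E2).2.trans e1, e1, notPow Fact.out h.ra h.rv hO hy E1 E2,
    ⟨hO.x_mem, hO.y_mem, hy, fun F hF => ?_, fun n g hg hn => ?_, ?_⟩, fun F F1 F2 => ?_⟩
  · rw [Finset.mem_singleton.1 hF]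
    exact ⟨E1, E2, fun g hg => ge_mx hO hy E1 E2 hg⟩
  · rcases eq_or_ne g 0 with rfl | g0
    · exact zero_mem _
    obtain ⟨j, j1, j2⟩ := level h.ra hO hg g0
    have := (hn E (Finset.mem_singleton_self E)).le g0
    rw [ord_eq h.rv hO hy E1 E2 j1 j2, e1] at this
    exact mp_anti (by omega) j1
  · rw [sq]
    nth_rewrite 1 [hO.par]
    rw [gen, mul_comm (Subalgebra.toSubmodule O), mul_assoc, hO.isMod_mx.eq]
  · have key : ∀ g ∈ O, g ≠ 0 → F.ord g = E.ord g := fun g hg g0 => by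
      obtain ⟨j, j1, j2⟩ := level h.ra hO hg g0
      rw [ord_eq h.rv hO hy E1 E2 j1 j2, ord_eq h.rv hO hy F1 F2 j1 j2, e1,
        ord_one h.ra h.rv hO hy F1 F2]
    refine Place.ext_ord fun f f0 => ?_
    obtain ⟨s, hs, s0, hfs⟩ := hO.frac f
    have a1 := key _ hfs (mul_ne_zero f0 s0)
    rw [F.ord_mul f0 s0, E.ord_mul f0 s0, key s hs s0] at a1
    omega

end Pool.Agent.Lib.MP_5f81cf_ag.Full.Res
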