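import Pool.Agent.Lib.MP_5f81cf_ag.ResBlue

/-! The canonical module of a normal point. -/

namespace Pool.Agent.Lib.MP_5f81cf_ag.Full.Res

open Pool.Agent.Lib.MP_e06174_ag

namespace R2

variable {k : Type} [Field k] {p : ℕ} [Fact p.Prime] {L : Type} [Field L] [Algebra k L]
  {u : Fin 2 → L} {O : Subalgebra k L} {H : Place k L}

/-- Differentials of functions regular along a curve. -/
lemma grad_curve (h : Lv4 k p) (S : Finset L) (hO : IsPt O) (hS : mx O = gen O S) (hH : Ht1 O H)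
    {f : L} (hf : H.Ge 0 f) :
    ∃ c : L → L, (∀ g ∈ S, H.Ge 0 (c g)) ∧ ∀ i, pd k u i f = ∑ g ∈ S, c g * pd k u i g := by
  obtain ⟨s, hs, hs1, hfs⟩ := h.rh.locz hO hH f hf
  obtain ⟨c1, hc1, e1⟩ := h.ra.grad hO.toIsLoc S hS _ hfs
  obtain ⟨c2, hc2, e2⟩ := h.ra.grad hO.toIsLoc S hS _ hs
  obtain ⟨hs0, hso⟩ := Place.not_ge_iff.1 hs1
  have hsi : H.Ge 0 s⁻¹ := Place.ge_of_le (by rw [Place.ord_inv]; omega)
  refine ⟨fun g => (c1 g - f * c2 g) * s⁻¹, fun g hg => ?_, fun i => ?_⟩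
  · have h1 := hH.1 _ (hc1 g hg)
    have h2 : H.Ge 0 (f * c2 g) := by simpa using hf.mul (hH.1 _ (hc2 g hg))
    simpa using (h1.sub h2).mul hsi
  · have a1 := e1 L (pd k u i)
    have a2 := e2 L (pd k u i)
    rw [Derivation.leibniz] at a1
    simp only [smul_eq_mul] at a1 a2
    have : pd k u i f = (∑ g ∈ S, c1 g * pd k u i g - f * ∑ g ∈ S, c2 g * pd k u i g) * s⁻¹ := by
      rw [← a1, ← a2]; field_simp; ring
    rw [this, Finset.mul_sum, ← Finset.sum_sub_distrib, Finset.sum_mul]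
    exact Finset.sum_congr rfl fun g _ => by ring

lemma J_sum (S : Finset L) (c c' : L → L) {a b : L}
    (ha : ∀ i, pd k u i a = ∑ g ∈ S, c g * pd k u i g)
    (hb : ∀ i, pd k u i b = ∑ g ∈ S, c' g * pd k u i g) :
    J u k a b = ∑ g ∈ S, ∑ g' ∈ S, c g * c' g' * J u k g g' := by
  rw [J_eq, ha 0, ha 1, hb 0, hb 1, Finset.sum_mul_sum, Finset.sum_mul_sum,
    ← Finset.sum_sub_distrib]
  refine Finset.sum_congr rfl fun g _ => ?_
  rw [← Finset.sum_sub_distrib]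
  refine Finset.sum_congr rfl fun g' _ => ?_
  rw [J_eq]; ring

lemma gradh (h : Lv4 k p) (S : Finset L) (hu : IsPB p u) (hO : IsPt O) (hS : mx O = gen O S)
    (hH : Ht1 O H) :
    ∃ g ∈ S, ∃ g' ∈ S, J u k g g' ≠ 0 ∧ H.ord (J u k g g') = 1 - lam k u H := by
  have := hO.ess
  have hd : Div H := hO.toIsLoc.div hH
  obtain ⟨t, z, ht, hz⟩ := h.rk.k3 hO.dim hd
  obtain ⟨hJ0, hJ⟩ := h.rk.k2 hu ht hz
  obtain ⟨c, hc, ec⟩ := grad_curve (u := u) h S hO hS hH (f := t) (Place.ge_of_le (by omega))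
  obtain ⟨c', hc', ec'⟩ := grad_curve (u := u) h S hO hS hH hz.1
  have hg0 : ∀ g ∈ S, H.Ge 0 g := fun g hg =>
    hH.1 g (mx_le (hS ▸ subset_gen (Finset.mem_coe.2 hg)))
  by_contra hcon
  push Not at hcon
  have : H.Ge (2 - lam k u H) (J u k t z) := by
    rw [J_sum S c c' ec ec']
    refine Place.Ge.sum fun g hg => Place.Ge.sum fun g' hg' => ?_
    have h1 : H.Ge 0 (c g * c' g') := by simpa using (hc g hg).mul (hc' g' hg')
    have h2 : H.Ge (2 - lam k u H) (J u k g g') := by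
      by_cases h0 : J u k g g' = 0
      · rw [h0]; exact Place.ge_zero _
      · have a := (h.rk.k0 hu hd (hg0 g hg) (hg0 g' hg')).le h0
        have b := hcon g hg g' hg' h0
        exact Place.ge_of_le (by omega)
    simpa using h1.mul h2
  have := this.le hJ0
  omega

lemma j_mem (h : Lv4 k p) (hu : IsPB p u) (hO : IsLoc O) {a b : L} (ha : a ∈ O) (hb : b ∈ O) :
    J u k a b ∈ om u O := by
  have := hO.ess
  exact fun F hF => h.rk.k0 hu (hO.div hF) (hF.1 a ha) (hF.1 b hb)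

lemma exists_gen (h : Lv4 k p) (hO : IsLoc O) : ∃ S : Finset L, mx O = gen O S := by
  obtain ⟨S, -, hS⟩ := h.ra.fgm hO (mx O) hO.isMod_mx
    ⟨1, one_ne_zero, fun x hx => by rw [one_mul]; exact mx_le hx⟩
  exact ⟨S, hS⟩

/-- A common denominator. -/
lemma denom (hO : IsLoc O) (T : Finset L) : ∃ d ∈ O, d ≠ 0 ∧ ∀ f ∈ T, d * f ∈ O := by
  classical
  induction T using Finset.induction_on with
  | empty => exact ⟨1, one_mem _, one_ne_zero, by simp⟩
  | insert x T _ ih =>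
    obtain ⟨d, hd, hd0, hT⟩ := ih
    obtain ⟨s, hs, hs0, hx⟩ := hO.frac x
    refine ⟨s * d, mul_mem hs hd, mul_ne_zero hs0 hd0, fun f hf => ?_⟩
    rcases Finset.mem_insert.1 hf with rfl | hf
    · rw [show s * d * f = f * s * d by ring]; exact mul_mem hx hd
    · rw [mul_assoc]; exact mul_mem hs (hT f hf)

lemma om_fg (h : Lv4 k p) (hu : IsPB p u) (hO : IsPt O) :
    ∃ S : Finset L, S.Nonempty ∧ (0 : L) ∉ S ∧ om u O = gen O S := by
  classical
  obtain ⟨S0, hS0⟩ := exists_gen h hO.toIsLoc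
  obtain ⟨d, -, hd0, hd⟩ := denom hO.toIsLoc ((S0 ×ˢ S0).image fun q => J u k q.1 q.2)
  obtain ⟨S, h0, hS⟩ := h.ra.fgm hO.toIsLoc (om u O) (isMod_om u) ⟨d, hd0, fun f hf => by
    refine h.rh.hart hO _ fun F hF => ?_
    obtain ⟨g, hg, g', hg', hJ0, hJ⟩ := gradh h S0 hu hO hS0 hF
    have h1 := (hF.1 _ (hd _ (Finset.mem_image.2 ⟨(g, g'), Finset.mem_product.2 ⟨hg, hg'⟩,
      rfl⟩))).le (mul_ne_zero hd0 hJ0)
    rw [Place.ord_mul _ hd0 hJ0] at h1
    exact (Place.ge_ord d).mul' (hf F hF) (by omega)⟩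
  refine ⟨S, ?_, h0, hS⟩
  rw [Finset.nonempty_iff_ne_empty]
  rintro rfl
  obtain ⟨F, hF, -⟩ := h.rh.ex hO.toIsLoc 0 (zero_mem _)
  obtain ⟨g, hg, g', hg', hJ0, -⟩ := gradh h S0 hu hO hS0 hF
  have hm : ∀ g ∈ S0, g ∈ O := fun g hg => mx_le (hS0 ▸ subset_gen (Finset.mem_coe.2 hg))
  have := j_mem h hu hO.toIsLoc (hm g hg) (hm g' hg')
  rw [hS, Finset.coe_empty, gen_empty, Submodule.mem_bot] at this
  exact hJ0 this

lemma gor_ord (h : Lv4 k p) {η : L} (hu : IsPB p u) (hO : IsPt O) (hη : Gor u O η)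
    (hH : Ht1 O H) : H.ord η = 1 - lam k u H := by
  obtain ⟨S0, hS0⟩ := exists_gen h hO.toIsLoc
  obtain ⟨g, hg, g', hg', hJ0, hJ⟩ := gradh h S0 hu hO hS0 hH
  have hm : ∀ g ∈ S0, g ∈ O := fun g hg => mx_le (hS0 ▸ subset_gen (Finset.mem_coe.2 hg))
  have h1 := ((hη.2 η).2 (by rw [div_self hη.1]; exact one_mem _) H hH).le hη.1
  have h2 := (hH.1 _ ((hη.2 _).1 (j_mem h hu hO.toIsLoc (hm g hg) (hm g' hg')))).le
    (div_ne_zero hJ0 hη.1)
  rw [Place.ord_div _ hJ0 hη.1] at h2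
  omega

lemma reg_ord (h : Lv4 k p) {x y : L} (hu : IsPB p u) (hO : IsReg O x y) (hH : Ht1 O H) :
    J u k x y ≠ 0 ∧ H.ord (J u k x y) = 1 - lam k u H := by
  classical
  obtain ⟨g, hg, g', hg', hJ0, hJ⟩ := gradh h {x, y} hu hO.toIsPt (by simpa using hO.par) hH
  simp only [Finset.mem_insert, Finset.mem_singleton] at hg hg'
  rcases hg with rfl | rfl <;> rcases hg' with rfl | rfl
  · exact absurd (J_self _ _) hJ0
  · exact ⟨hJ0, hJ⟩
  · rw [J_swap, Place.ord_neg]; exact ⟨neg_ne_zero.2 hJ0, hJ⟩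
  · exact absurd (J_self _ _) hJ0

lemma reg (h : Lv4 k p) {x y : L} (hu : IsPB p u) (hO : IsReg O x y) :
    Gor u O (J u k x y) ∧ PR u O := by
  have := hO.ess
  obtain ⟨F0, hF0, -⟩ := h.rh.ex hO.toIsLoc 0 (zero_mem _)
  have hJ0 := (reg_ord h hu hO hF0).1
  have hx := mx_le hO.x_mem
  have hy := mx_le hO.y_mem
  have hG : Gor u O (J u k x y) := by
    refine ⟨hJ0, fun f => ⟨fun hf => h.rh.hart hO.toIsPt _ fun F hF => ?_, fun hf => ?_⟩⟩
    · rw [div_eq_mul_inv]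
      refine (hf F hF).mul' (Place.ge_ord _) ?_
      rw [Place.ord_inv, (reg_ord h hu hO hF).2]; omega
    · rw [← div_mul_cancel₀ f hJ0]
      exact isMod_om u _ hf _ (j_mem h hu hO.toIsLoc hx hy)
  refine ⟨hG, fun F hd hF f hf => ?_⟩
  rw [← div_mul_cancel₀ f hJ0]
  simpa using (hF _ ((hG.2 f).1 hf)).mul (h.rk.k0 hu hd (hF x hx) (hF y hy))

lemma exc (h : Lv4 k p) {x y : L} {E : Place k L} (hu : IsPB p u) (hO : IsReg O x y)
    (hE : DomP O E) (hD : Dic E (x / y)) : E.ord (J u k x y) = 2 - lam k u E := by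
  have := hO.ess
  obtain ⟨E', -, hy, hN, -, huniq⟩ := h.r1b.exc hO
  obtain rfl := huniq E hE hD
  obtain ⟨hJ0, hJ⟩ := h.rk.k2 hu hy hN
  have hy0 : y ≠ 0 := by rintro rfl; simp at hy
  have e : J u k x y = - (y * J u k y (x / y)) := by
    conv_lhs => rw [← div_mul_cancel₀ x hy0]
    rw [J_mul, J_self, J_swap u (x / y) y]; ring
  rw [e, Place.ord_neg, Place.ord_mul _ hy0 hJ0, hy, hJ]; ring

end R2

theorem blk_R2 {k : Type} [Field k] [IsAlgClosed k] {p : ℕ} [Fact p.Prime] [CharP k p]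
    (hp : p ≠ 2) (h : Lv4 k p) : RR2 k p where
  gradh := fun S hu hO hS hH => R2.gradh h S hu hO hS hH
  j_mem := fun hu hO _ ha _ hb => R2.j_mem h hu hO ha hb
  om_fg := fun hu hO => R2.om_fg h hu hO
  gor_ord := fun hu hO hη hH => R2.gor_ord h hu hO hη hH
  reg := fun hu hO => R2.reg h hu hO
  exc := fun hu hO hE hD => R2.exc h hu hO hE hD

end Pool.Agent.Lib.MP_5f81cf_ag.Full.Res
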