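import Pool.Agent.Lib.MP_5f81cf_ag.ResBlue
import Pool.Agent.Lib.MP_7fcda1_ag.Plc1

/-! Curves of minimal degree are rational. -/

namespace Pool.Agent.Lib.MP_5f81cf_ag.Full.Res

open Module

namespace RatB

variable {k K : Type} [Field k] [Field K] [Algebra k K]

/-- The multiples of a subspace by an element. -/
def ml (c : K) (W : Submodule k K) : Submodule k K := W.map (LinearMap.mulLeft k c)

lemma mem_ml {c x : K} {W : Submodule k K} : x ∈ ml c W ↔ ∃ w ∈ W, c * w = x := Iff.rfl

instance (c : K) (W : Submodule k K) [FiniteDimensional k W] : FiniteDimensional k (ml c W) :=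
  Module.Finite.map _ _

lemma rk_ml {c : K} (hc : c ≠ 0) (W : Submodule k K) : finrank k (ml c W) = finrank k W :=
  (Submodule.equivMapOfInjective _ (mul_right_injective₀ hc) W).finrank_eq.symm

lemma not_le {ζ : K} (hζ : Transcendental k ζ) {W : Submodule k K} [FiniteDimensional k W]
    (h : 0 < finrank k W) : ¬ ml ζ W ≤ W := fun hl =>
  hζ (isIntegral_of_smul_mem_submodule W (fun e => by subst e; simp at h)
    ((Submodule.fg_iff_finiteDimensional W).2 inferInstance) ζ fun n hn => hl ⟨n, hn, rfl⟩).isAlgebraic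

lemma key {ζ : K} (hζ : Transcendental k ζ) (n : ℕ) (W : Submodule k K) [FiniteDimensional k W]
    (h1 : finrank k W = n + 1) (h2 : finrank k (W ⊔ ml ζ W : Submodule k K) ≤ n + 2) :
    ∃ g : K, g ≠ 0 ∧ ∀ w ∈ W, w / g ∈ IntermediateField.adjoin k {ζ} := by
  induction n generalizing W with
  | zero =>
    obtain ⟨g, g0, hg⟩ := finrank_eq_one_iff'.1 h1
    have g1 : (g : K) ≠ 0 := fun e => g0 (Subtype.ext e)
    refine ⟨g, g1, fun w hw => ?_⟩
    obtain ⟨c, hc⟩ := hg ⟨w, hw⟩
    rw [show w = c • (g : K) from (congrArg Subtype.val hc).symm, smul_div_assoc, div_self g1]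
    exact IntermediateField.smul_mem _ (one_mem _)
  | succ n ih =>
    have z0 : ζ ≠ 0 := fun e => hζ (e ▸ isAlgebraic_zero)
    let W' := W ⊓ W.comap (LinearMap.mulLeft k ζ)
    have : FiniteDimensional k W' := Submodule.finiteDimensional_of_le inf_le_left
    have a1 := Submodule.finrank_sup_add_finrank_inf_eq W (ml ζ W)
    have a2 : finrank k (W ⊓ ml ζ W : Submodule k K) ≤ finrank k (ml ζ W') :=
      Submodule.finrank_mono (by
        rintro _ ⟨hx, w, hw, rfl⟩
        exact ⟨w, ⟨hw, hx⟩, rfl⟩)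
    have a3 : finrank k W' < finrank k W := Submodule.finrank_lt_finrank_of_lt
      (lt_of_le_of_ne inf_le_left fun e => not_le hζ (W := W) (by omega) (by
        rintro _ ⟨w, hw, rfl⟩
        exact (show w ∈ W' from e.symm ▸ hw).2))
    rw [rk_ml z0] at a1 a2
    have a4 : W' ⊔ ml ζ W' ≤ W := sup_le inf_le_left (by
      rintro _ ⟨w, hw, rfl⟩
      exact hw.2)
    have a5 : finrank k W' < finrank k (W' ⊔ ml ζ W' : Submodule k K) :=
      Submodule.finrank_lt_finrank_of_lt (lt_of_le_of_ne le_sup_left fun e =>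
        not_le hζ (W := W') (by omega) (le_sup_right.trans e.ge))
    obtain ⟨g, g0, hg⟩ := ih W' (by omega) ((Submodule.finrank_mono a4).trans (by omega))
    refine ⟨g, g0, fun w hw => ?_⟩
    rw [← Submodule.eq_of_le_of_finrank_le a4 (by omega)] at hw
    obtain ⟨x, hx, _, ⟨y, hy, rfl⟩, rfl⟩ := Submodule.mem_sup.1 hw
    rw [add_div, LinearMap.mulLeft_apply, mul_div_assoc]
    exact add_mem (hg x hx) (mul_mem (IntermediateField.mem_adjoin_simple_self k ζ) (hg y hy))

variable {V : ValuationSubring K} (hV : ResK k V)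
include hV

lemma val_smul (c : k) (x : K) : V.valuation (c • x) ≤ V.valuation x := by
  rw [Algebra.smul_def, map_mul]
  exact mul_le_of_le_one_left' ((V.valuation_le_one_iff _).2 (hV.1 c))

lemma top (W : Submodule k K) [FiniteDimensional k W] (h : 0 < finrank k W) :
    ∃ g ∈ W, g ≠ 0 ∧ ∀ w ∈ W, V.valuation w ≤ V.valuation g := by
  obtain ⟨S, rfl⟩ := (Submodule.fg_iff_finiteDimensional W).2 inferInstance
  obtain ⟨g, hg, hg'⟩ := S.exists_max_image V.valuation (Finset.nonempty_iff_ne_empty.2 fun e => by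
    subst e
    rw [Finset.coe_empty, Submodule.span_empty, finrank_bot] at h
    omega)
  have key : ∀ w ∈ Submodule.span k (S : Set K), V.valuation w ≤ V.valuation g := fun w hw => by
    induction hw using Submodule.span_induction with
    | mem x hx => exact hg' x hx
    | zero => simp
    | add x y _ _ hx hy => exact V.valuation.map_add_le hx hy
    | smul c x _ hx => exact (val_smul hV c x).trans hx
  refine ⟨g, Submodule.subset_span hg, fun e => ?_, key⟩
  exact h.ne' (Submodule.finrank_eq_zero.2 ((Submodule.eq_bot_iff _).2 fun w hw => by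
    simpa [e] using key w hw))

lemma down (n : ℕ) (W : Submodule k K) [FiniteDimensional k W] (h : finrank k W = n + 2) :
    ∃ U ≤ W, finrank k U = 2 ∧ ∀ u ∈ U, ∀ w ∈ W, w ∉ U → V.valuation u < V.valuation w := by
  induction n generalizing W with
  | zero => exact ⟨W, le_rfl, h, fun _ _ w a b => (b a).elim⟩
  | succ n ih =>
    obtain ⟨g, hg, g0, hg'⟩ := top hV W (by omega)
    have v0 : 0 < V.valuation g := (Valuation.pos_iff _).2 g0
    let W' : Submodule k K :=
      { carrier := {w | w ∈ W ∧ V.valuation w < V.valuation g}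
        add_mem' := fun a b => ⟨add_mem a.1 b.1, V.valuation.map_add_lt a.2 b.2⟩
        zero_mem' := ⟨zero_mem _, by simpa using v0⟩
        smul_mem' := fun c x a => ⟨W.smul_mem c a.1, (val_smul hV c x).trans_lt a.2⟩ }
    have l : W' ≤ W := fun _ a => a.1
    have : FiniteDimensional k W' := Submodule.finiteDimensional_of_le l
    have a1 : finrank k W' < finrank k W :=
      Submodule.finrank_lt_finrank_of_lt (lt_of_le_of_ne l fun e =>
        lt_irrefl _ (show g ∈ W' from e.symm ▸ hg).2)
    have a2 : W ≤ W' ⊔ Submodule.span k {g} := fun w hw => by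
      obtain ⟨c, hc⟩ := hV.2 (w / g) (by
        rw [← V.valuation_le_one_iff, map_div₀]
        exact div_le_one_of_le₀ (hg' w hw) v0.le)
      rw [← sub_add_cancel w (c • g)]
      refine Submodule.add_mem_sup ⟨sub_mem hw (W.smul_mem c hg), ?_⟩
        (Submodule.smul_mem _ c (Submodule.mem_span_singleton_self g))
      rw [show w - c • g = (w / g - algebraMap k K c) * g by
        rw [Algebra.smul_def]; field_simp, map_mul]
      exact mul_lt_of_lt_one_left v0 (V.mem_nonunits_iff.1 hc)
    have a3 := (Submodule.finrank_mono a2).trans (Submodule.finrank_add_le_finrank_add_finrank _ _)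
    rw [finrank_span_singleton g0] at a3
    obtain ⟨U, u1, u2, u3⟩ := ih W' (by omega)
    refine ⟨U, u1.trans l, u2, fun u hu w hw hw' => ?_⟩
    by_cases h' : V.valuation w < V.valuation g
    · exact u3 u hu w ⟨hw, h'⟩ hw'
    · exact (u1 hu).2.trans_le (not_lt.1 h')

end RatB

open RatB in
theorem blk_Rat {k : Type} [Field k] [IsAlgClosed k] {p : Nat} [Fact p.Prime] [CharP k p]
    (_hp : p ≠ 2) (_h : Lv1 k p) : St_Rat k := by
  intro K _ _ W α β _ h1 ⟨w0, hw0, hw0'⟩ hα hβ hW
  obtain ⟨P, hP⟩ := MP_7fcda1_ag.exists_plc_of_hom (algebraMap k K) (RingHom.id k) fun r hr => by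
    simpa using hr
  have hV : ResK k P.V := ⟨fun c => (hP c).1, fun f hf => ⟨P.ρ ⟨f, hf⟩, P.V.mem_nonunits_iff.2
    (MP_7fcda1_ag.Plc.to_zero_iff.1 (by
      simpa using (show P.To f (P.ρ ⟨f, hf⟩) from ⟨hf, rfl⟩).sub (hP (P.ρ ⟨f, hf⟩))))⟩⟩
  have big : ∀ (U : Submodule k K) [FiniteDimensional k U] (u : K), 1 < finrank k U →
      ∃ x ∈ U, x ∉ Submodule.span k {u} := fun U _ u hU => by
    by_contra! hc
    have := (Submodule.finrank_mono hc).trans (finrank_span_le_card _)
    simp at this
    omega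
  have d2 : 1 < finrank k W := by
    have := Submodule.finrank_lt_finrank_of_lt (s := Submodule.span k {(1 : K)}) (t := W)
      (lt_of_le_of_ne (by simpa using h1) fun e => by
        obtain ⟨c, hc⟩ := Submodule.mem_span_singleton.1 (e.ge hw0)
        exact hw0' c (by rw [← hc, Algebra.algebraMap_eq_smul_one]))
    rwa [finrank_span_singleton one_ne_zero] at this
  have a1 : W * W ≤ ml α W ⊔ ml β W := hW.trans (Submodule.mul_le.2 fun x hx w hw => by
    obtain ⟨a, b, rfl⟩ := Submodule.mem_span_pair.1 hx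
    rw [add_mul, smul_mul_assoc, smul_mul_assoc]
    exact Submodule.add_mem_sup (Submodule.smul_mem _ a ⟨w, hw, rfl⟩)
      (Submodule.smul_mem _ b ⟨w, hw, rfl⟩))
  have a2 : finrank k (ml α W ⊔ ml β W : Submodule k K) < 2 * finrank k W := by
    have b1 := Submodule.finrank_sup_add_finrank_inf_eq (ml α W) (ml β W)
    have b2 : ∀ c, finrank k (ml c W) ≤ finrank k W := fun c => Submodule.finrank_map_le _ _
    have b3 : finrank k (ml 0 W) = 0 := Submodule.finrank_eq_zero.2 ((Submodule.eq_bot_iff _).2 (by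
      rintro _ ⟨w, -, rfl⟩
      exact zero_mul w))
    have b4 := b2 α
    have b5 := b2 β
    rcases eq_or_ne α 0 with rfl | a0
    · omega
    rcases eq_or_ne β 0 with rfl | b0
    · omega
    have : finrank k (ml α W ⊓ ml β W : Submodule k K) ≠ 0 := fun e => mul_ne_zero a0 b0
      ((Submodule.eq_bot_iff _).1 (Submodule.finrank_eq_zero.1 e) _
        ⟨⟨β, hβ, rfl⟩, α, hα, mul_comm _ _⟩)
    omega
  obtain ⟨U, u1, u2, u3⟩ := down hV (finrank k W - 2) W (by omega)
  have : FiniteDimensional k U := Submodule.finiteDimensional_of_le u1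
  obtain ⟨g, hg, g0, hg'⟩ := top hV W (by omega)
  have a3 : U * W ≤ W * W := Submodule.mul_le.2 fun _ a _ b => Submodule.mul_mem_mul (u1 a) b
  have : FiniteDimensional k (U * W : Submodule k K) :=
    Submodule.finiteDimensional_of_le (a3.trans a1)
  have a4 := Submodule.finrank_sup_add_finrank_inf_eq (ml g W) (U * W)
  have a5 := Submodule.finrank_mono (show ml g W ⊔ U * W ≤ _ from (sup_le (by
    rintro _ ⟨w, hw, rfl⟩
    exact Submodule.mul_mem_mul hg hw) a3).trans a1)
  have a6 : finrank k (ml g W ⊓ U * W : Submodule k K) ≤ finrank k (ml g U) :=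
    Submodule.finrank_mono (by
      rintro _ ⟨⟨w, hw, rfl⟩, hx⟩
      refine ⟨w, by_contra fun hw' => ?_, rfl⟩
      have v0 : 0 < P.V.valuation g := (Valuation.pos_iff _).2 g0
      refine lt_irrefl _ (show P.V.valuation (g * w) < P.V.valuation (g * w) from
        Submodule.mul_induction_on (C := fun x => P.V.valuation x < P.V.valuation (g * w)) hx
          (fun u hu y hy => ?_) fun _ _ => P.V.valuation.map_add_lt)
      rw [map_mul, map_mul, mul_comm]
      exact mul_lt_mul_of_le_of_lt_of_nonneg_of_pos (hg' y hy) (u3 u hu w hw hw') zero_le v0)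
  rw [rk_ml g0] at a4 a6
  obtain ⟨x, hx, x0⟩ := big U 0 (by omega)
  obtain ⟨y, hy, y0⟩ := big U x (by omega)
  have x1 : x ≠ 0 := fun e => x0 (by rw [e]; exact zero_mem _)
  have tr : Transcendental k (y / x) := fun ha => by
    obtain ⟨c, hc⟩ := minpoly.mem_range_of_degree_eq_one k _
      (IsAlgClosed.degree_eq_one_of_irreducible k (minpoly.irreducible ha.isIntegral))
    exact y0 (Submodule.mem_span_singleton.2 ⟨c, by
      rw [Algebra.smul_def, hc, div_mul_cancel₀ _ x1]⟩)
  obtain ⟨c, c0, hc⟩ := key tr (finrank k W - 1) W (by omega) (by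
    rw [← rk_ml x1]
    refine (Submodule.finrank_mono (t := U * W) ?_).trans (by omega)
    rintro _ ⟨z, hz, rfl⟩
    obtain ⟨a, ha, _, ⟨b, hb, rfl⟩, rfl⟩ := Submodule.mem_sup.1 hz
    rw [LinearMap.mulLeft_apply, LinearMap.mulLeft_apply, mul_add, ← mul_assoc,
      mul_div_cancel₀ _ x1]
    exact add_mem (Submodule.mul_mem_mul hx ha) (Submodule.mul_mem_mul hy hb))
  refine ⟨_, tr, fun w hw => ?_⟩
  have := div_mem (hc w hw) (hc 1 h1)
  rwa [div_div_div_cancel_right₀ c0, div_one] at this

end Pool.Agent.Lib.MP_5f81cf_ag.Full.Res
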