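import Pool.Agent.Lib.MP_5f81cf_ag.ResBlue

/-! Existence of a reduction of the maximal ideal with nonzero Jacobian. -/

namespace Pool.Agent.Lib.MP_5f81cf_ag.Full.Res

open Pool.Agent.Lib.MP_e06174_ag

namespace Redn

variable {k L : Type} [Field k] [Field L] [Algebra k L] {O : Subalgebra k L}

/-- Elements of value larger than that of `b`. -/
def big (V : ValuationSubring L) (hk : ∀ c : k, algebraMap k L c ∈ V) (b : L) : Submodule k L where
  carrier := {g | g / b ∈ V.nonunits}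
  add_mem' := fun {x y} hx hy => by
    simp only [Set.mem_ofPred_eq, ValuationSubring.mem_nonunits_iff, add_div] at *
    exact V.valuation.map_add_lt hx hy
  zero_mem' := by simp [ValuationSubring.mem_nonunits_iff]
  smul_mem' := fun c x hx => by
    simp only [Set.mem_ofPred_eq, ValuationSubring.mem_nonunits_iff] at *
    rw [Algebra.smul_def, mul_div_assoc, map_mul]
    exact lt_of_le_of_lt
      (mul_le_of_le_one_left' ((V.valuation_le_one_iff _).2 (hk c))) hx

lemma span_le {S : Set L} (hS : mx O = gen O S) {a : L} (ha : a ∈ Submodule.span k S) :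
    a ∈ mx O := hS ▸ le_mul_self _ ha

/-- A derivation killing generators of the maximal ideal vanishes. -/
lemma der_zero (ra : RA k) (hO : IsLoc O) {S : Finset L} (hS : mx O = gen O S)
    (D : Derivation k L L) (h : ∀ g ∈ S, D g = 0) (f : L) : D f = 0 := by
  have h1 : ∀ f ∈ O, D f = 0 := by
    intro f hf
    obtain ⟨c, -, hc⟩ := ra.grad hO S hS f hf
    rw [hc L D]
    exact Finset.sum_eq_zero fun g hg => by rw [h g hg, smul_zero]
  obtain ⟨s, hs, hs0, hfs⟩ := hO.frac f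
  have h2 := h1 _ hfs
  rw [D.leibniz, h1 s hs, smul_zero, zero_add, smul_eq_mul] at h2
  exact (mul_eq_zero.1 h2).resolve_left hs0

/-- A general element of the maximal ideal. -/
lemma general [Infinite k] (ra : RA k) (rq : RQ k) (hO : IsLoc O) {S : Finset L}
    (hS : mx O = gen O S) (D : Derivation k L L) {f : L} (hD : D f ≠ 0)
    {X : Set (ValuationSubring L)} (hX : X.Finite) (hd : ∀ V ∈ X, Dom V O) :
    ∃ a ∈ mx O, D a ≠ 0 ∧ ∀ V ∈ X, IsMin O V a := by
  have : Finite X := hX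
  choose b hbS hb using fun V : X => rq.ex_min hO (hd V V.2) S S.finite_toSet hS
  let U := Submodule.span k (S : Set L)
  let N : Option X → Submodule k L := fun i => match i with
    | none => LinearMap.ker (D : L →ₗ[k] L)
    | some V => big V.1 (fun c => (hd V V.2).1 _ (O.algebraMap_mem c)) (b V)
  have hN : ∀ i, (N i).comap U.subtype ≠ ⊤ := by
    intro i hi
    rw [Submodule.comap_subtype_eq_top] at hi
    cases i with
    | none => exact hD (der_zero ra hO hS D (fun g hg => hi (Submodule.subset_span hg)) f)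
    | some V =>
      have h1 : b V / b V ∈ V.1.nonunits := hi (Submodule.subset_span (hbS V))
      rw [div_self (hb V).2.1, ValuationSubring.mem_nonunits_iff, map_one] at h1
      exact lt_irrefl _ h1
  obtain ⟨a, ha⟩ := Submodule.exists_forall_notMem_of_forall_ne_top _ hN
  have ham : (a : L) ∈ mx O := span_le hS a.2
  have hDa : D a ≠ 0 := ha none
  have ha0 : (a : L) ≠ 0 := fun h => hDa (by rw [h, map_zero])
  refine ⟨a, ham, hDa, fun V hV => ⟨ham, ha0, fun g hg => ?_⟩⟩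
  have h1 : (a : L) / b ⟨V, hV⟩ ∉ V.nonunits := ha (some ⟨V, hV⟩)
  rw [ValuationSubring.mem_nonunits_iff_or, not_or, not_not, inv_div] at h1
  have h2 := mul_mem ((hb ⟨V, hV⟩).2.2 g hg) h1.2
  rwa [div_mul_div_cancel₀ (hb ⟨V, hV⟩).2.1] at h2

end Redn

theorem blk_Red {k : Type} [Field k] [IsAlgClosed k] {p : ℕ} [Fact p.Prime] [CharP k p]
    (_hp : p ≠ 2) (h : Lv3 k p) : St_Red k p := by
  intro L _ _ u O hu hP
  have hO := hP.toIsLoc
  have := hO.ess
  obtain ⟨S, -, hS⟩ := h.ra.fgm hO (mx O) hO.isMod_mx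
    ⟨1, one_ne_zero, fun x hx => by rw [one_mul]; exact mx_le hx⟩
  let R : Set (Place k L) := ⋃ g ∈ (S : Set L), ⋃ g' ∈ (S : Set L),
    {F | DomP O F ∧ Dic F (g / g')}
  have hR : R.Finite := S.finite_toSet.biUnion fun g _ => S.finite_toSet.biUnion fun g' _ =>
    h.rd.fin _ hO
  have hRd : ∀ F ∈ R, DomP O F ∧ Div F := by
    intro F hF
    simp only [R, Set.mem_iUnion] at hF
    obtain ⟨g, -, g', -, h1, h2⟩ := hF
    exact ⟨h1, _, h2⟩
  obtain ⟨b, hbm, hbD, hb⟩ := Redn.general h.ra h.rq hO hS (pd k u 0) (f := u 0)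
    (by rw [h.bas.c1.pd_x hu]; simp) (hR.image fun F => F.O) (by
      rintro _ ⟨F, hF, rfl⟩
      exact domP_iff.1 (hRd F hF).1)
  have hb0 : b ≠ 0 := fun h0 => hbD (by rw [h0, map_zero])
  let X : Set (ValuationSubring L) := {V | Dom V O} ∩ ⋃ F ∈ R, ⋃ g ∈ (S : Set L),
    {V | V ≤ F.O ∧ ResK k V ∧ g / b ∉ V}
  have hSm : ∀ g ∈ S, g ∈ mx O := fun g hg => hS ▸ subset_gen hg
  have hX : X.Finite := Set.Finite.inter_of_right (hR.biUnion fun F hF =>
    S.finite_toSet.biUnion fun g hg => h.rw.finv hO.dim (hRd F hF).2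
      (Place.mem_O.1 ((hb _ ⟨F, hF, rfl⟩).2.2 g (hSm g hg)))) _
  let D : Derivation k L L := pd k u 1 b • pd k u 0 - pd k u 0 b • pd k u 1
  have hD : ∀ g, D g = J u k g b := fun g => by
    simp only [D, J_eq, Derivation.sub_apply, Derivation.smul_apply, smul_eq_mul]; ring
  obtain ⟨a, ham, haD, ha⟩ := Redn.general h.ra h.rq hO hS D (f := u 1) (by
    rw [hD, J_eq, h.bas.c1.pd_x hu, h.bas.c1.pd_x hu]; simpa using hbD) hX fun V hV => hV.1
  have ha0 : a ≠ 0 := fun h0 => haD (by rw [h0, map_zero])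
  refine ⟨a, b, ⟨ham, hbm, ha0, hb0, fun W hW g hg => ?_⟩, hD a ▸ haD⟩
  by_contra hcon
  rw [not_or] at hcon
  obtain ⟨V, hVW, hV, hVk⟩ := h.rw.refine W hO hW
  obtain ⟨b', hb'S, hb'⟩ := h.rq.ex_min hO hV S S.finite_toSet hS
  obtain ⟨hO1, hV1, hle⟩ := h.rq.isLoc hO hV hVk
  have hch : ∀ x ∈ mx O, x / b' ∈ qt O V := fun x hx => by
    rw [h.rq.qt_eq hV hb']; exact le_loc _ _ (div_mem_chart hx)
  have hmm : ∀ x ∈ mx O, x ∈ mx (qt O V) := fun x hx => hV1.mem_mx (hle (mx_le hx)) (hV.2 x hx)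
  have key : ∀ x ∈ mx O, g / x ∉ W → x / b' ∈ mx (qt O V) := by
    intro x hx hgx
    refine hV1.mem_mx (hch x hx) ?_
    rw [ValuationSubring.mem_nonunits_iff_or, inv_div]
    refine Or.inr fun h1 => hgx (hVW ?_)
    have h2 := mul_mem (hb'.2.2 g hg) h1
    rwa [div_mul_div_cancel₀ hb'.2.1] at h2
  obtain ⟨F, hF, hFb⟩ := h.rh.ex hO1 b' (hmm b' hb'.1)
  have hFd : DomP O F := ⟨fun f hf => hF.1 f (hle hf), fun f hf => by
    have := (hF.1 _ (hch f hf)).mul hFb
    rwa [div_mul_cancel₀ _ hb'.2.1, zero_add] at this⟩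
  have hc : ∀ x : L, ∃ c : k, x ∈ mx O → x / b' - algebraMap k L c ∈ V.nonunits := by
    intro x
    by_cases hx : x ∈ mx O
    · obtain ⟨c, hc⟩ := hVk.2 _ (hb'.2.2 x hx)
      exact ⟨c, fun _ => hc⟩
    · exact ⟨0, fun h1 => absurd h1 hx⟩
  choose c hc using hc
  have hmx := h.rq.mx_qt c hO hV hVk hb' hS fun x hx => hc x (hSm x hx)
  have hFR : F ∈ R := by
    by_contra hnot
    obtain ⟨f, hf, hf1⟩ := hF.2
    refine hf1 (ge_of_mem_gen hF.1 ?_ (hmx ▸ hf))
    rintro _ (rfl | ⟨x, hx, rfl⟩)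
    · exact hFb
    · by_contra h1
      have h2 := hO1.dic hF.1 (hmx ▸ subset_gen (Or.inr ⟨x, hx, rfl⟩)) h1
      refine hnot ?_
      simp only [R, Set.mem_iUnion]
      refine ⟨x, hx, b', hb'S, hFd, hF.1 _ (hch x (hSm x hx)), fun e he => h2.2 (e - c x) ?_⟩
      rwa [map_sub, sub_sub_sub_cancel_right]
  obtain ⟨V', hV'F, hV', hV'k⟩ := h.rw.refine F.O hO1 fun f hf => Place.mem_O.2 (hF.1 f hf)
  have hnot : ∀ x ∈ mx O, x ≠ 0 → g / x ∉ W → b' / x ∉ V' := by
    intro x hx hx0 hgx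
    have h1 := hV'.2 _ (key x hx hgx)
    rw [ValuationSubring.mem_nonunits_iff_or, inv_div] at h1
    exact h1.resolve_left (div_ne_zero hx0 hb'.2.1)
  have hV'X : V' ∈ X := by
    refine ⟨⟨fun f hf => hV'.1 f (hle hf), fun f hf => hV'.2 f (hmm f hf)⟩, ?_⟩
    simp only [Set.mem_iUnion]
    exact ⟨F, hFR, b', hb'S, hV'F, hV'k, hnot b hbm hb0 hcon.2⟩
  exact hnot a ham ha0 hcon.1 ((ha V' hV'X).2.2 b' hb'.1)

end Pool.Agent.Lib.MP_5f81cf_ag.Full.Res
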