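import Pool.Agent.Lib.MP_5f81cf_ag.ResFin

/-! Selection of the exceptional curve. -/

namespace Pool.Agent.Lib.MP_5f81cf_ag.Full.Res

open Pool.Agent.Lib.MP_e06174_ag

namespace Sel

lemma exists_max {X : Type} (C : Finset X) (hC : C.Nonempty) (A o : X → ℤ) (hA : ∀ F ∈ C, 0 < A F) :
    ∃ E ∈ C, ∀ F ∈ C, o F * A E ≤ o E * A F := by
  obtain ⟨E, hE, h⟩ := C.exists_max_image (fun F => (o F : ℚ) / A F) hC
  refine ⟨E, hE, fun F hF => ?_⟩
  have h1 := h F hF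
  rw [div_le_div_iff₀ (by exact_mod_cast hA F hF) (by exact_mod_cast hA E hE)] at h1
  exact_mod_cast h1

lemma select {X : Type} (C : Finset X) (P : X → Prop) (A o τ : X → ℤ) (hA : ∀ F ∈ C, 0 < A F)
    (ho : ∀ F ∈ C, 0 ≤ o F) (hτ : ∀ F ∈ C, 0 ≤ τ F)
    (hP : ∀ F, P F → ∃ F₁ ∈ C, ∃ F₂ ∈ C, ∃ t₁ t₂ : ℤ, 0 ≤ t₁ ∧ 0 ≤ t₂ ∧
      o F = t₁ * o F₁ + t₂ * o F₂ ∧ τ F = t₁ * τ F₁ + t₂ * τ F₂ ∧ t₁ * A F₁ + t₂ * A F₂ ≤ A F)
    (h0 : ∃ F, P F ∧ 0 < o F) :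
    ∃ E ∈ C, 0 < o E ∧ (∀ F, P F → o F * A E ≤ o E * A F) ∧
      ∀ F, P F → o F * A E = o E * A F → τ F * A E ≤ τ E * A F := by
  classical
  obtain ⟨F₀, hF₀, hF₀'⟩ := h0
  obtain ⟨G₁, hG₁, G₂, hG₂, s₁, s₂, hs₁, hs₂, e1, -, -⟩ := hP F₀ hF₀
  obtain ⟨E₀, hE₀, hm⟩ := exists_max C ⟨G₁, hG₁⟩ A o hA
  obtain ⟨E, hE, hm'⟩ := exists_max (C.filter fun F => o F * A E₀ = o E₀ * A F)
    ⟨E₀, Finset.mem_filter.2 ⟨hE₀, rfl⟩⟩ A τ fun F hF => hA F (Finset.mem_filter.1 hF).1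
  obtain ⟨hE, hEE⟩ := Finset.mem_filter.1 hE
  have a0 := hA E₀ hE₀
  have a1 := hA E hE
  have hm1 : ∀ F ∈ C, o F * A E ≤ o E * A F := fun F hF => by
    have := hm F hF
    refine le_of_mul_le_mul_right ?_ a0
    calc o F * A E * A E₀ = o F * A E₀ * A E := by ring
      _ ≤ o E₀ * A F * A E := mul_le_mul_of_nonneg_right this a1.le
      _ = o E₀ * A E * A F := by ring
      _ = o E * A F * A E₀ := by rw [← hEE]; ring
  have hm2 : ∀ F ∈ C, o F * A E = o E * A F → τ F * A E ≤ τ E * A F := fun F hF h =>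
    hm' F (Finset.mem_filter.2 ⟨hF, mul_right_cancel₀ a1.ne' (by
      calc o F * A E₀ * A E = o F * A E * A E₀ := by ring
        _ = o E * A E₀ * A F := by rw [h]; ring
        _ = o E₀ * A F * A E := by rw [hEE]; ring)⟩)
  have hoE : 0 < o E := by
    by_contra hc
    have hc' : o E = 0 := le_antisymm (not_lt.1 hc) (ho E hE)
    have b1 := hm1 G₁ hG₁
    have b2 := hm1 G₂ hG₂
    rw [hc', zero_mul] at b1 b2
    have c1 : o G₁ ≤ 0 := by by_contra h; nlinarith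
    have c2 : o G₂ ≤ 0 := by by_contra h; nlinarith
    nlinarith
  refine ⟨E, hE, hoE, fun F hF => ?_, fun F hF h => ?_⟩
  · obtain ⟨F₁, h₁, F₂, h₂, t₁, t₂, ht₁, ht₂, e1, -, e3⟩ := hP F hF
    have b1 := mul_le_mul_of_nonneg_left (hm1 F₁ h₁) ht₁
    have b2 := mul_le_mul_of_nonneg_left (hm1 F₂ h₂) ht₂
    have b3 := mul_le_mul_of_nonneg_left e3 hoE.le
    rw [e1]; linarith
  · obtain ⟨F₁, h₁, F₂, h₂, t₁, t₂, ht₁, ht₂, e1, e2, e3⟩ := hP F hF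
    have b1 := mul_le_mul_of_nonneg_left (hm1 F₁ h₁) ht₁
    have b2 := mul_le_mul_of_nonneg_left (hm1 F₂ h₂) ht₂
    have b3 := mul_le_mul_of_nonneg_left e3 hoE.le
    have b4 := mul_le_mul_of_nonneg_left e3 (hτ E hE)
    rw [e1] at h
    have key : ∀ (G : X) (t : ℤ), G ∈ C → 0 ≤ t → t * (o G * A E) = t * (o E * A G) →
        t * (τ G * A E) ≤ t * (τ E * A G) := fun G t hG ht hh => by
      rcases ht.eq_or_lt with rfl | ht'
      · simp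
      · exact mul_le_mul_of_nonneg_left (hm2 G hG (mul_left_cancel₀ ht'.ne' hh)) ht
    have d1 := key F₁ t₁ h₁ ht₁ (by linarith)
    have d2 := key F₂ t₂ h₂ ht₂ (by linarith)
    rw [e2]; linarith

variable {k L : Type} [Field k] [Field L] [Algebra k L]

/-- The data of a chart. -/
structure CD (k L : Type) [Field k] [Field L] [Algebra k L] where
  B : Subalgebra k L
  x : L
  y : L
  b : L
  H₁ : Place k L
  H₂ : Place k L
  Z : Finset L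

/-- The properties of a chart. -/
structure Good (u : Fin 2 → L) (O : Subalgebra k L) (S₀ G : Finset L) (V : ValuationSubring L)
    (c : CD k L) : Prop where
  reg : IsReg c.B c.x c.y
  le : O ≤ c.B
  dom : Dom V c.B
  h₁ : Ht1 c.B c.H₁
  x₁ : c.H₁.Ge 1 c.x
  h₂ : Ht1 c.B c.H₂
  y₂ : c.H₂.Ge 1 c.y
  mono : ∀ g ∈ G, Mono c.B c.x c.y g
  monoJ : Mono c.B c.x c.y (J u k c.x c.y)
  eq : ∀ E : Place k L, V ≤ E.O → Div E → E = c.H₁
  b_mem : c.b ∈ S₀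
  sub : ∀ z ∈ c.Z, z ∈ c.B
  xy : c.x ∈ c.Z ∧ c.y ∈ c.Z
  min : ∀ g ∈ S₀, g / c.b ∈ c.Z
  lin : ∀ F : Place k L, (∀ z ∈ c.Z, F.Ge 0 z) → ∀ g, g ∈ G ∨ g = J u k c.x c.y →
    F.ord g = F.ord c.x * c.H₁.ord g + F.ord c.y * c.H₂.ord g

lemma mono_div {B : Subalgebra k L} {x y f g : L} (hx : x ≠ 0) (hy : y ≠ 0) (hf : Mono B x y f)
    (hg : Mono B x y g) : Mono B x y (f / g) := by
  obtain ⟨α, β, h⟩ := hf
  obtain ⟨α', β', h'⟩ := hg
  refine ⟨α - α', β - β', ?_⟩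
  convert h.mul h'.inv using 1
  rw [zpow_sub₀ hx, zpow_sub₀ hy]
  field_simp

lemma ord_mono {F : Place k L} {w x y : L} (hw : w ≠ 0) (h : F.ord w = 0) (hx : x ≠ 0)
    (hy : y ≠ 0) (α β : ℤ) : F.ord (w * x ^ α * y ^ β) = F.ord x * α + F.ord y * β := by
  rw [F.ord_mul (mul_ne_zero hw (zpow_ne_zero _ hx)) (zpow_ne_zero _ hy),
    F.ord_mul hw (zpow_ne_zero _ hx), Place.ord_zpow, Place.ord_zpow, h]
  ring

variable {p : ℕ} [Fact p.Prime]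

lemma exists_good (h : Lv11 k p) {u : Fin 2 → L} {O : Subalgebra k L} (hu : IsPB p u)
    (hO : IsPt O) (hPR : PR u O) {S₀ G : Finset L} (hS : mx O = gen O S₀) (hG : (0 : L) ∉ G)
    {V : ValuationSubring L} (hV : Dom V O) (hk : ResK k V) : ∃ c, Good u O S₀ G V c := by
  classical
  obtain ⟨B, x, y, hB, hle, hVB, hJ, hm, hE⟩ := h.ria.chart G hu hO hPR hV hk hG
  obtain ⟨hx0, H₁, h₁, hx, -, -, -, hu₁⟩ := h.r1a.hx hB
  obtain ⟨hy0, H₂, h₂, hy, -, -, -, -⟩ := h.r1a.hx hB.swap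
  obtain ⟨b, hb, hmin⟩ := h.rq.ex_min hO.toIsLoc hV _ S₀.finite_toSet hS
  have hx' : H₁.Ge 1 x := Place.ge_of_le hx.ge
  have hy' : H₂.Ge 1 y := Place.ge_of_le hy.ge
  have hw : ∀ g, ∃ w, g ∈ insert (J u k x y) G → Un B w ∧ g = w * x ^ H₁.ord g * y ^ H₂.ord g := by
    intro g
    by_cases hg : g ∈ insert (J u k x y) G
    · obtain ⟨w, hw⟩ := h.ria.lin (g := g) hB (by
        rcases Finset.mem_insert.1 hg with rfl | hg
        exacts [hJ, hm g hg]) h₁ hx' h₂ hy'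
      exact ⟨w, fun _ => hw⟩
    · exact ⟨0, fun h => absurd h hg⟩
  choose w hw using hw
  refine ⟨⟨B, x, y, b, H₁, H₂, {x, y} ∪ S₀.image (· / b) ∪ (insert (J u k x y) G).image w ∪
    (insert (J u k x y) G).image fun g => (w g)⁻¹⟩, hB,
    (h.rq.isLoc hO.toIsLoc hV hk).2.2.trans hle, hVB, h₁, hx', h₂, hy', hm, hJ,
    fun E h1 h2 => hu₁ E (hE E h1 h2).1 (hE E h1 h2).2, hb, ?_, by simp, fun g hg => ?_, ?_⟩
  · intro z hz
    simp only [Finset.mem_union, Finset.mem_insert, Finset.mem_singleton, Finset.mem_image] at hz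
    rcases hz with ((((rfl | rfl) | ⟨g, hg, rfl⟩) | ⟨g, hg, rfl⟩) | ⟨g, hg, rfl⟩)
    · exact mx_le hB.x_mem
    · exact mx_le hB.y_mem
    · refine hle ?_
      rw [h.rq.qt_eq hV hmin]
      exact le_loc _ _ (div_mem_chart (hS ▸ subset_gen hg))
    · exact (hw g (Finset.mem_insert.2 hg)).1.1
    · exact (hw g (Finset.mem_insert.2 hg)).1.2.2
  · exact Finset.mem_union_left _ (Finset.mem_union_left _ (Finset.mem_union_right _
      (Finset.mem_image_of_mem _ hg)))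
  · intro F hF g hg
    have hg' : g ∈ insert (J u k x y) G := Finset.mem_insert.2 hg.symm
    obtain ⟨hwu, he⟩ := hw g hg'
    have a1 := (hF _ (Finset.mem_union_left _ (Finset.mem_union_right _
      (Finset.mem_image_of_mem w hg')))).le hwu.2.1
    have a2 := (hF _ (Finset.mem_union_right _
      (Finset.mem_image_of_mem (fun g => (w g)⁻¹) hg'))).le (inv_ne_zero hwu.2.1)
    rw [Place.ord_inv] at a2
    conv_lhs => rw [he]
    exact ord_mono hwu.2.1 (by omega) hx0 hy0 _ _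

/-- The order of the maximal ideal. -/
noncomputable def oo (S₀ : Finset L) (hS : S₀.Nonempty) (F : Place k L) : ℤ :=
  S₀.inf' hS fun g => F.ord g

/-- The log discrepancy. -/
noncomputable def AA (u : Fin 2 → L) (η : L) (N : ℕ) (F : Place k L) : ℤ :=
  N * lam k u F - F.ord η

variable {u : Fin 2 → L} {O : Subalgebra k L} {S₀ G : Finset L} {V : ValuationSubring L}
  {c : CD k L} {F : Place k L}

lemma Good.z₁ (hc : Good u O S₀ G V c) : ∀ z ∈ c.Z, c.H₁.Ge 0 z :=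
  fun z hz => hc.h₁.1 z (hc.sub z hz)

lemma Good.z₂ (hc : Good u O S₀ G V c) : ∀ z ∈ c.Z, c.H₂.Ge 0 z :=
  fun z hz => hc.h₂.1 z (hc.sub z hz)

lemma Good.oo_eq (hc : Good u O S₀ G V c) (h0 : (0 : L) ∉ S₀) (hS : S₀.Nonempty)
    (hF : ∀ z ∈ c.Z, F.Ge 0 z) : oo S₀ hS F = F.ord c.b := by
  refine le_antisymm (Finset.inf'_le _ hc.b_mem) (Finset.le_inf' _ _ fun g hg => ?_)
  have hg0 : g ≠ 0 := ne_of_mem_of_not_mem hg h0
  have hb0 : c.b ≠ 0 := ne_of_mem_of_not_mem hc.b_mem h0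
  have := (hF _ (hc.min g hg)).le (div_ne_zero hg0 hb0)
  rw [F.ord_div hg0 hb0] at this
  omega

lemma Good.oo_lin (hc : Good u O S₀ G V c) (h0 : (0 : L) ∉ S₀) (hS : S₀.Nonempty) (hG : S₀ ⊆ G)
    (hF : ∀ z ∈ c.Z, F.Ge 0 z) :
    oo S₀ hS F = F.ord c.x * oo S₀ hS c.H₁ + F.ord c.y * oo S₀ hS c.H₂ := by
  rw [hc.oo_eq h0 hS hF, hc.oo_eq h0 hS hc.z₁, hc.oo_eq h0 hS hc.z₂]
  exact hc.lin F hF _ (Or.inl (hG hc.b_mem))

lemma Good.AA_lin (h : Lv11 k p) (hu : IsPB p u) (hc : Good u O S₀ G V c) {η : L} (hη : η ∈ G)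
    (N : ℕ) (hF : ∀ z ∈ c.Z, F.Ge 0 z) :
    AA u η N F = F.ord c.x * AA u η N c.H₁ + F.ord c.y * AA u η N c.H₂ +
      N * (F.ord (J u k c.x c.y) - F.ord c.x - F.ord c.y + lam k u F) := by
  have hg := (h.r2.reg hu hc.reg).1
  have e1 := h.r2.gor_ord hu hc.reg.toIsPt hg hc.h₁
  have e2 := h.r2.gor_ord hu hc.reg.toIsPt hg hc.h₂
  simp only [AA]
  rw [hc.lin F hF η (Or.inl hη), hc.lin F hF _ (Or.inr rfl), e1, e2]
  ring

lemma Good.AA_le (h : Lv11 k p) (hu : IsPB p u) (hc : Good u O S₀ G V c) {η : L} (hη : η ∈ G)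
    (N : ℕ) (hd : Div F) (hF : ∀ z ∈ c.Z, F.Ge 0 z) :
    F.ord c.x * AA u η N c.H₁ + F.ord c.y * AA u η N c.H₂ ≤ AA u η N F := by
  have := hc.reg.ess
  have h1 := (h.rk.k1 hu hd (Place.ge_ord c.x) (Place.ge_ord c.y)).le (h.r2.reg hu hc.reg).1.1
  rw [hc.AA_lin h hu hη N hF]
  have : (0 : ℤ) ≤ N * (F.ord (J u k c.x c.y) - F.ord c.x - F.ord c.y + lam k u F) :=
    mul_nonneg (by positivity) (by omega)
  omega

lemma domP_of_oo (hgen : mx O = gen O S₀) (hS : S₀.Nonempty) (hF : Cont O F)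
    (h : 0 < oo S₀ hS F) : DomP O F :=
  ⟨hF, fun f hf => ge_of_mem_gen hF (fun g hg => Place.ge_of_le (by
    have : oo S₀ hS F ≤ F.ord g := Finset.inf'_le _ hg
    omega)) (hgen ▸ hf)⟩

lemma oo_pos (hgen : mx O = gen O S₀) (h0 : (0 : L) ∉ S₀) (hS : S₀.Nonempty) (hF : DomP O F) :
    0 < oo S₀ hS F :=
  (Finset.lt_inf'_iff _).2 fun g hg =>
    (hF.2 g (hgen ▸ subset_gen hg)).le (ne_of_mem_of_not_mem hg h0)

lemma oo_nonneg (hgen : mx O = gen O S₀) (h0 : (0 : L) ∉ S₀) (hS : S₀.Nonempty) (hF : Cont O F) :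
    0 ≤ oo S₀ hS F :=
  Finset.le_inf' _ _ fun g hg =>
    (hF g (mx_le (hgen ▸ subset_gen hg))).le (ne_of_mem_of_not_mem hg h0)

lemma dom_of_le (hO : IsLoc O) (hF : DomP O F) (hV : V ≤ F.O) (hk : ResK k V) : Dom V O := by
  have h1 : ∀ f ∈ mx O, f ∈ V.nonunits := fun f hf =>
    ValuationSubring.nonunits_le_nonunits.2 hV ((domP_iff.1 hF).2 f hf)
  refine ⟨fun f hf => ?_, h1⟩
  obtain ⟨c, hc⟩ := hO.res f hf
  have h2 : f - algebraMap k L c ∈ V := V.nonunits_subset (h1 _ hc)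
  simpa using add_mem h2 (hk.1 c)

lemma Good.exc (h : Lv11 k p) (hc : Good u O S₀ G V c) (hV : Dom V O) :
    ∃ E : Place k L, DomP O E ∧ DomP c.B E ∧ Dic E (c.x / c.y) ∧ E.ord c.x = 1 ∧ E.ord c.y = 1 := by
  obtain ⟨E, hx, hy, -, hR, -⟩ := h.r1b.exc hc.reg
  obtain ⟨h1, h2, -⟩ := hR.dom E (Finset.mem_singleton_self E)
  exact ⟨E, ⟨fun f hf => h1.1 f (hc.le hf), fun f hf =>
    h1.2 f (hc.dom.mem_mx (hc.le (mx_le hf)) (hV.2 f hf))⟩, h1, h2, hx, hy⟩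

lemma exists_cover (h : Lv11 k p) (hu : IsPB p u) (hO : IsPt O) (hPR : PR u O)
    (hS : mx O = gen O S₀) (hG : (0 : L) ∉ G) : ∃ C : Finset (CD k L),
      (∀ c ∈ C, ∃ V, Good u O S₀ G V c) ∧ ∀ F, DomP O F → ∃ c ∈ C, ∀ z ∈ c.Z, F.Ge 0 z := by
  classical
  obtain ⟨V₀, -, hV₀, hk₀⟩ := h.rw.refine ⊤ hO.toIsLoc fun _ _ => trivial
  have : Nonempty (CD k L) := ⟨(exists_good h hu hO hPR hS hG hV₀ hk₀).choose⟩
  have h1 : ∀ V, Dom V O → ResK k V → ∃ c, Good u O S₀ G V c :=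
    fun V hV hk => exists_good h hu hO hPR hS hG hV hk
  choose! c hc using h1
  obtain ⟨C, hC, hC'⟩ := h.rw.cover hO.toIsLoc (fun V => (c V).Z) fun V hV hk z hz =>
    (hc V hV hk).dom.1 z ((hc V hV hk).sub z hz)
  refine ⟨C.image c, fun d hd => ?_, fun F hF => ?_⟩
  · obtain ⟨V, hV, rfl⟩ := Finset.mem_image.1 hd
    exact ⟨V, hc V (hC V hV).1 (hC V hV).2⟩
  · obtain ⟨V, hV, hz⟩ := hC' F.O (domP_iff.1 hF)
    exact ⟨c V, Finset.mem_image_of_mem _ hV, fun z hz' => Place.mem_O.1 (hz z hz')⟩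

end Sel

open Sel in
theorem blk_Sel {k : Type} [Field k] [IsAlgClosed k] {p : ℕ} [Fact p.Prime] [CharP k p]
    (_hp : p ≠ 2) (h : Lv11 k p) : St_Sel k p := by
  classical
  intro L _ _ u O η N S hu hO hPR hη hN hA hSO hfrac ⟨S₀, hS₀, hgen⟩
  have h0 : (0 : L) ∉ S₀ := fun h => (hSO 0 (hS₀ h)).2 rfl
  have hS : S₀.Nonempty := by
    obtain ⟨g, hg, hg0⟩ := h.ra.mx_ne hO.toIsLoc
    by_contra hc
    rw [Finset.not_nonempty_iff_eq_empty.1 hc, Finset.coe_empty, gen_empty] at hgen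
    exact hg0 (by simpa [hgen] using hg)
  have hApos : ∀ F : Place k L, Div F → Cont O F → 0 < AA u η N F := fun F h1 h2 =>
    sub_pos.2 (hA F h1 h2)
  -- first round
  obtain ⟨C₁, hC₁, hC₁'⟩ := exists_cover (G := insert η S₀) h hu hO hPR hgen (by
    simp [h0, hη.symm])
  choose! nu hnu de hde hnd using hfrac
  let X : Finset L := C₁.image CD.x ∪ C₁.image CD.y
  have hX : ∀ f ∈ X, f ≠ 0 := by
    intro f hf
    rcases Finset.mem_union.1 hf with hf | hf <;> obtain ⟨c, hc, rfl⟩ := Finset.mem_image.1 hf <;>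
      obtain ⟨V, hV⟩ := hC₁ c hc
    exacts [(h.r1a.hx hV.reg).1, (h.r1a.hx hV.reg.swap).1]
  let G : Finset L := S₀ ∪ (X.image nu ∪ X.image de)
  have hGS : ∀ g ∈ G, g ∈ S := by
    intro g hg
    simp only [G, Finset.mem_union, Finset.mem_image] at hg
    rcases hg with hg | ⟨f, hf, rfl⟩ | ⟨f, hf, rfl⟩
    exacts [hS₀ hg, hnu f (hX f hf), hde f (hX f hf)]
  have hG0 : (0 : L) ∉ insert η G := by
    rw [Finset.mem_insert, not_or]
    exact ⟨hη.symm, fun h => (hSO 0 (hGS 0 h)).2 rfl⟩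
  have hSG : S₀ ⊆ insert η G := Finset.subset_union_left.trans (Finset.subset_insert _ _)
  -- second round
  obtain ⟨C₂, hC₂, hC₂'⟩ := exists_cover h hu hO hPR hgen hG0
  let C : Finset (Place k L) := C₂.image CD.H₁ ∪ C₂.image CD.H₂
  have hC : ∀ F ∈ C, Div F ∧ Cont O F := by
    intro F hF
    rcases Finset.mem_union.1 hF with hF | hF <;> obtain ⟨c, hc, rfl⟩ := Finset.mem_image.1 hF <;>
      obtain ⟨V, hV⟩ := hC₂ c hc
    exacts [⟨hV.reg.toIsLoc.div hV.h₁, fun f hf => hV.h₁.1 f (hV.le hf)⟩,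
      ⟨hV.reg.toIsLoc.div hV.h₂, fun f hf => hV.h₂.1 f (hV.le hf)⟩]
  obtain ⟨E, hEC, hoE, hm1, hm2⟩ := select C (fun F => DomP O F ∧ Div F) (AA u η N) (oo S₀ hS)
    (fun F => ∑ g ∈ G, F.ord g) (fun F hF => hApos F (hC F hF).1 (hC F hF).2)
    (fun F hF => oo_nonneg hgen h0 hS (hC F hF).2)
    (fun F hF => Finset.sum_nonneg fun g hg =>
      ((hC F hF).2 g (hSO g (hGS g hg)).1).le (hSO g (hGS g hg)).2)
    (fun F hF => by
      obtain ⟨c, hc, hz⟩ := hC₂' F hF.1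
      obtain ⟨V, hV⟩ := hC₂ c hc
      refine ⟨c.H₁, Finset.mem_union_left _ (Finset.mem_image_of_mem _ hc), c.H₂,
        Finset.mem_union_right _ (Finset.mem_image_of_mem _ hc), F.ord c.x, F.ord c.y,
        (hz _ hV.xy.1).le (h.r1a.hx hV.reg).1, (hz _ hV.xy.2).le (h.r1a.hx hV.reg.swap).1,
        hV.oo_lin h0 hS hSG hz, ?_, hV.AA_le h hu (Finset.mem_insert_self _ _) N hF.2 hz⟩
      rw [Finset.mul_sum, Finset.mul_sum, ← Finset.sum_add_distrib]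
      exact Finset.sum_congr rfl fun g hg =>
        hV.lin F hz g (Or.inl (Finset.mem_insert_of_mem hg)))
    (by
      obtain ⟨V₀, -, hV₀, hk₀⟩ := h.rw.refine ⊤ hO.toIsLoc fun _ _ => trivial
      obtain ⟨c, hc⟩ := exists_good h hu hO hPR hgen hG0 hV₀ hk₀
      obtain ⟨F, h1, -, h2, -⟩ := hc.exc h hV₀
      exact ⟨F, ⟨h1, _, h2⟩, oo_pos hgen h0 hS h1⟩)
  obtain ⟨hEd, hEc⟩ := hC E hEC
  have hE : DomP O E := domP_of_oo hgen hS hEc hoE
  have hAE := hApos E hEd hEc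
  have hm3 : ∀ F, Div F → Cont O F → oo S₀ hS F * AA u η N E ≤ oo S₀ hS E * AA u η N F := by
    intro F h1 h2
    by_cases h3 : 0 < oo S₀ hS F
    · exact hm1 F ⟨domP_of_oo hgen hS h2 h3, h1⟩
    · have := hApos F h1 h2
      nlinarith
  refine ⟨E, hE, hEd, fun V hVE hk => ?_⟩
  have hV := dom_of_le hO.toIsLoc hE hVE hk
  obtain ⟨c, hc⟩ := exists_good h hu hO hPR hgen hG0 hV hk
  obtain rfl := hc.eq E hVE hEd
  have hd2 : Div c.H₂ := hc.reg.toIsLoc.div hc.h₂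
  have hc2 : Cont O c.H₂ := fun f hf => hc.h₂.1 f (hc.le hf)
  have hA2 := hApos _ hd2 hc2
  suffices hs : ∃ g ∈ G, AA u η N c.H₁ * c.H₂.ord g < c.H₁.ord g * AA u η N c.H₂ by
    obtain ⟨g, hg, hlt⟩ := hs
    exact ⟨c.B, c.x, c.y, c.H₂, g, hc.reg, hc.le, hc.dom, hc.h₁, hc.x₁, hc.h₂, hc.y₂, hGS g hg,
      hc.mono g (Finset.mem_insert_of_mem hg), hc.mono η (Finset.mem_insert_self _ _), hc.monoJ,
      hlt⟩
  by_contra! hs
  have e1 := hc.oo_eq h0 hS hc.z₁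
  have e2 := hc.oo_eq h0 hS hc.z₂
  have hb := hs c.b (Finset.mem_union_left _ hc.b_mem)
  rw [← e1, ← e2] at hb
  have heq : oo S₀ hS c.H₂ * AA u η N c.H₁ = oo S₀ hS c.H₁ * AA u η N c.H₂ :=
    le_antisymm (hm3 _ hd2 hc2) (by linarith)
  have ho2 : 0 < oo S₀ hS c.H₂ := by by_contra hn; nlinarith
  have hτ := hm2 _ ⟨domP_of_oo hgen hS hc2 ho2, hd2⟩ heq
  have hall : ∀ g ∈ G, c.H₁.ord g * AA u η N c.H₂ = AA u η N c.H₁ * c.H₂.ord g := by
    refine (Finset.sum_eq_sum_iff_of_le hs).1 (le_antisymm (Finset.sum_le_sum hs) ?_)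
    rw [← Finset.mul_sum, ← Finset.sum_mul]
    linarith
  obtain ⟨F, hF, hFB, hFd, hFx, hFy⟩ := hc.exc h hV
  have hFz : ∀ z ∈ c.Z, F.Ge 0 z := fun z hz => hFB.1 z (hc.sub z hz)
  have f1 := hc.oo_lin h0 hS hSG hFz
  have f2 := hc.AA_lin h hu (Finset.mem_insert_self _ _) N hFz
  rw [h.r2.exc hu hc.reg hFB hFd] at f2
  rw [hFx, hFy] at f1 f2
  obtain ⟨d, hd, hdz⟩ := hC₁' F hF
  obtain ⟨W, hW⟩ := hC₁ d hd
  have g1 := hW.oo_lin h0 hS (Finset.subset_insert _ _) hdz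
  have g2 := hW.AA_lin h hu (Finset.mem_insert_self _ _) N hdz
  have hx0 := (h.r1a.hx hc.reg).1
  have hy0 := (h.r1a.hx hc.reg.swap).1
  have hmon : ∀ f ∈ X, ∃ w, Un c.B w ∧ f = w * c.x ^ c.H₁.ord f * c.y ^ c.H₂.ord f ∧
      c.H₁.ord f * AA u η N c.H₂ = AA u η N c.H₁ * c.H₂.ord f := by
    intro f hf
    have n1 : nu f ∈ G := Finset.mem_union_right _
      (Finset.mem_union_left _ (Finset.mem_image_of_mem _ hf))
    have n2 : de f ∈ G := Finset.mem_union_right _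
      (Finset.mem_union_right _ (Finset.mem_image_of_mem _ hf))
    have n3 := (hSO _ (hGS _ n1)).2
    have n4 := (hSO _ (hGS _ n2)).2
    obtain ⟨w, hw, he⟩ := h.ria.lin (g := f) hc.reg (by
      rw [hnd f (hX f hf)]
      exact mono_div hx0 hy0 (hc.mono _ (Finset.mem_insert_of_mem n1))
        (hc.mono _ (Finset.mem_insert_of_mem n2))) hc.h₁ hc.x₁ hc.h₂ hc.y₂
    refine ⟨w, hw, he, ?_⟩
    rw [hnd f (hX f hf), Place.ord_div _ n3 n4, Place.ord_div _ n3 n4]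
    linarith [hall _ n1, hall _ n2]
  obtain ⟨w, hw, hwe, hw1⟩ := hmon d.x (Finset.mem_union_left _ (Finset.mem_image_of_mem _ hd))
  obtain ⟨w', hw', hwe', hw2⟩ := hmon d.y (Finset.mem_union_right _ (Finset.mem_image_of_mem _ hd))
  have hdet := h.rib.det (α := c.H₁.ord d.x) (β := c.H₂.ord d.x) (α' := c.H₁.ord d.y)
    (β' := c.H₂.ord d.y) hu hc.reg hFB hFd hw hw' (mul_left_cancel₀ hAE.ne' (by
      linear_combination c.H₁.ord d.y * hw1 - c.H₁.ord d.x * hw2))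
  rw [← hwe, ← hwe'] at hdet
  have hdet' := hdet.le (h.r2.reg hu hW.reg).1.1
  have o1 : F.ord d.x = c.H₁.ord d.x + c.H₂.ord d.x := by
    conv_lhs => rw [hwe]
    rw [ord_mono hw.2.1 (hw.ord hFB.1) hx0 hy0, hFx, hFy]; ring
  have o2 : F.ord d.y = c.H₁.ord d.y + c.H₂.ord d.y := by
    conv_lhs => rw [hwe']
    rw [ord_mono hw'.2.1 (hw'.ord hFB.1) hx0 hy0, hFx, hFy]; ring
  have t1 := (hdz _ hW.xy.1).le (h.r1a.hx hW.reg).1
  have t2 := (hdz _ hW.xy.2).le (h.r1a.hx hW.reg.swap).1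
  have b1 := mul_le_mul_of_nonneg_left
    (hm3 _ (hW.reg.toIsLoc.div hW.h₁) fun f hf => hW.h₁.1 f (hW.le hf)) t1
  have b2 := mul_le_mul_of_nonneg_left
    (hm3 _ (hW.reg.toIsLoc.div hW.h₂) fun f hf => hW.h₂.1 f (hW.le hf)) t2
  have hδ : (0 : ℤ) < N * (F.ord (J u k d.x d.y) - F.ord d.x - F.ord d.y + lam k u F) :=
    mul_pos (by exact_mod_cast hN) (by omega)
  have b3 := mul_pos hoE hδ
  have b4 : oo S₀ hS F * AA u η N c.H₁ = oo S₀ hS c.H₁ * AA u η N F := by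
    rw [f1, f2]; linear_combination heq
  rw [g1, g2] at b4
  linarith

end Pool.Agent.Lib.MP_5f81cf_ag.Full.Res
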