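import Pool.Agent.Lib.MP_5f81cf_ag.ResBlue

/-! Trace duality over a divisorial place, by means of the Cartier operator. -/

namespace Pool.Agent.Lib.MP_5f81cf_ag.Full.Res

open Pool.Agent.Lib.MP_e06174_ag

namespace T

variable {k K L : Type} [Field k] [Field K] [Algebra k K] [Field L] [Algebra k L] [Algebra K L]
  [IsScalarTower k K L]

lemma approx' (F₀ : Place k L) (X : Finset (Place k L)) (n : ℤ) (N : Place k L → ℤ) :
    ∃ y : L, y ≠ 0 ∧ F₀.ord y = n ∧ ∀ F ∈ X, F ≠ F₀ → N F ≤ F.ord y := by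
  obtain ⟨M, hM⟩ := (X.finite_toSet.image N).bddAbove
  obtain ⟨y, h0, h1, h2⟩ := F₀.approx X n M
  exact ⟨y, h0, h1, fun F hF hne => (hM ⟨F, hF, rfl⟩).trans (h2 F hF hne)⟩

variable (L) in
/-- `F` lies over `E`. -/
def Ov (E : Place k K) (F : Place k L) : Prop :=
  ∃ e, F.Over (IsScalarTower.toAlgHom k K L) E e

/-- The elements without poles over `E`. -/
def InS (E : Place k K) (t : L) : Prop := ∀ F, Ov L E F → F.Ge 0 t

/-- The dual of the integral closure with values in the elements of order at least `c`. -/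
def InN (E : Place k K) (c : ℤ) (f : L) : Prop :=
  ∀ t, InS E t → E.Ge c (Algebra.trace K L (f * t))

variable {E : Place k K} {F : Place k L} {c : ℤ} {f g s t : L}

lemma Ov.div (hF : Ov L E F) (hE : Div E) : Div F := by
  obtain ⟨e, he⟩ := hF
  obtain ⟨z, h1, h2⟩ := hE
  refine ⟨algebraMap K L z, (he.ge_zero_iff z).2 h1, fun a ha => h2 a ?_⟩
  rw [← he.ge_one_iff, map_sub, AlgHom.commutes]
  exact ha

lemma Ov.ge_map (hF : Ov L E F) {n : ℕ} {a : K} (ha : E.Ge n a) : F.Ge n (algebraMap K L a) := by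
  obtain ⟨e, he⟩ := hF
  refine ((he.ge_iff n a).2 ha).mono ?_
  have : (1 : ℤ) ≤ e := by exact_mod_cast he.1
  nlinarith [Int.natCast_nonneg n]

lemma inS_one : InS E (1 : L) := fun _ _ => Place.ge_one

lemma InS.mul (hs : InS E s) (ht : InS E t) : InS E (s * t) := fun F hF =>
  (hs F hF).mul' (ht F hF) (by simp)

lemma InS.pow (hs : InS E s) (n : ℕ) : InS E (s ^ n) := fun F hF => by
  simpa using (hs F hF).pow n

lemma InN.mul (hf : InN E c f) (hs : InS E s) : InN E c (f * s) := fun t ht => by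
  rw [mul_assoc]; exact hf _ (hs.mul ht)

lemma InN.add (hf : InN E c f) (hg : InN E c g) : InN E c (f + g) := fun t ht => by
  rw [add_mul, map_add]; exact (hf t ht).add (hg t ht)

lemma trace_map_mul (a : K) (f : L) :
    Algebra.trace K L (algebraMap K L a * f) = a * Algebra.trace K L f := by
  rw [← Algebra.smul_def, map_smul, smul_eq_mul]

/-- Everything of order at least that of a nonzero element of the dual lies in the dual. -/
lemma InN.of_ge (hf : InN E c f) (h0 : f ≠ 0) (hg : ∀ F, Ov L E F → F.Ge (F.ord f) g) :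
    InN E c g := by
  have h : g = f * (f⁻¹ * g) := by field_simp
  rw [h]
  exact hf.mul fun F hF => (Place.ge_ord f⁻¹).mul' (hg F hF) (by simp)

variable [FiniteDimensional K L] [Algebra.IsSeparable K L]

lemma exists_finset (E : Place k K) : ∃ X : Finset (Place k L), ∀ F, F ∈ X ↔ Ov L E F :=
  ⟨(Place.finite_over L E).toFinset, fun _ => Set.Finite.mem_toFinset _⟩

lemma InS.isIntegral (ht : InS E t) : IsIntegral E.O t :=
  Place.isIntegral_of_forall_over fun F e he => ht F ⟨e, he⟩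

lemma InS.trace (ht : InS E t) : E.Ge 0 (Algebra.trace K L t) :=
  E.ge_zero_of_isIntegral (R := E.O) (fun r => Place.mem_O.1 r.2)
    (Algebra.isIntegral_trace ht.isIntegral)

lemma exists_inN (E : Place k K) (c : ℤ) : ∃ f : L, f ≠ 0 ∧ InN E c f := by
  obtain ⟨a, h0, ha⟩ := E.exists_ord_eq c
  refine ⟨algebraMap K L a, by simpa using h0, fun t ht => ?_⟩
  rw [trace_map_mul]
  exact (Place.ge_ord a).mul' ht.trace (by omega)

lemma exists_clear (E : Place k K) (b : L) :
    ∃ a : K, a ≠ 0 ∧ InS E (algebraMap K L a * b) := by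
  obtain ⟨X, hX⟩ := exists_finset (L := L) E
  obtain ⟨M, hM⟩ := (X.finite_toSet.image fun F => (F.ord b).natAbs).bddAbove
  obtain ⟨a, h0, ha⟩ := E.exists_ord_eq M
  refine ⟨a, h0, fun F hF => (hF.ge_map (n := M) (Place.ge_of_le ha.ge)).mul' (Place.ge_ord b) ?_⟩
  have : (F.ord b).natAbs ≤ M := hM ⟨F, (hX F).2 hF, rfl⟩
  omega

/-- The dual is bounded. -/
lemma exists_bound (c : ℤ) (hF : Ov L E F) : ∃ C : ℤ, ∀ f : L, InN E c f → F.Ge C f := by
  classical
  obtain ⟨e, he⟩ := hF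
  let b := Module.finBasis K L
  choose a ha0 ha using fun i => exists_clear E (b i)
  obtain ⟨C, hC⟩ := (Set.finite_range fun i =>
    (e : ℤ) * (c - E.ord (a i)) + F.ord (b.traceDual i)).bddBelow
  refine ⟨C, fun f hf => ?_⟩
  rw [← b.traceDual.sum_repr f]
  refine Place.Ge.sum fun i _ => ?_
  rw [Module.Basis.traceDual_repr_apply, Algebra.traceForm_apply, Algebra.smul_def]
  have h1 := hf _ (ha i)
  rw [mul_left_comm, trace_map_mul] at h1
  have h2 : E.Ge (c - E.ord (a i)) (Algebra.trace K L (f * b i)) := by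
    have h3 := (Place.ge_ord (p := E) (a i)⁻¹).mul h1
    rw [inv_mul_cancel_left₀ (ha0 i), Place.ord_inv] at h3
    exact h3.mono (by omega)
  exact ((he.ge_iff _ _).2 h2).mul' (Place.ge_ord _) (hC ⟨i, rfl⟩)

variable {p : ℕ} [Fact p.Prime] [Algebra.EssFiniteType k K] {x : Fin 2 → K}

/-- The dual is stable under the Cartier operator. -/
lemma InN.car (h : Lv1 k p) (hx : IsPB p x) (hE : Div E) (hf : InN E (1 - lam k x E) f) :
    InN E (1 - lam k x E) (car p (fun i => algebraMap K L (x i)) f) := fun t ht => by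
  rw [mul_comm, ← h.bas.c1.car_pow_mul, ← h.bas.c2.car_trace hx, mul_comm]
  exact h.rk.c1 (n' := 1) hx hE (by simp) (hf _ (ht.pow p))

/-- The dual contains an element of small order at all places. -/
lemma exists_small (h : Lv1 k p) (hx : IsPB p x) (hE : Div E) :
    ∃ f : L, f ≠ 0 ∧ InN E (1 - lam k x E) f ∧
      ∀ F, Ov L E F → F.ord f ≤ 1 - lam k (fun i => algebraMap K L (x i)) F := by
  have : Algebra.EssFiniteType k L := Algebra.EssFiniteType.comp k K L
  set y : Fin 2 → L := fun i => algebraMap K L (x i) with hy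
  have hyp : IsPB p y := h.bas.c2.pb_map hx
  obtain ⟨X, hX⟩ := exists_finset (L := L) E
  obtain ⟨f, ⟨hf0, hf⟩, hmin⟩ := exists_minimalFor_of_wellFoundedLT
    (fun f : L => f ≠ 0 ∧ InN E (1 - lam k x E) f)
    (fun f => ∑ F ∈ X, (F.ord f + lam k y F - 1).toNat) (exists_inN E _)
  refine ⟨f, hf0, hf, fun F₀ hF₀ => ?_⟩
  by_contra hlt
  have hp : (2 : ℤ) ≤ p := by exact_mod_cast (Fact.out : p.Prime).two_le
  obtain ⟨b, hb, hc⟩ := h.rk.c2 (n := F₀.ord f + lam k y F₀ - 1) (f := f) hyp (hF₀.div hE)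
    (Place.not_ge_iff.2 ⟨hf0, by nlinarith⟩)
  obtain ⟨hc0, hc⟩ := Place.not_ge_iff.1 hc
  obtain ⟨ε, hε0, hε, hεX⟩ := approx' F₀ X 0 fun F =>
    max ((F.ord b).natAbs : ℤ) (F.ord f + 1 - F.ord (car p y (b * f)))
  have h1 : InS E (ε ^ p * b) := fun F hF => by
    by_cases hne : F = F₀
    · subst hne
      exact ((Place.ge_ord ε).pow p).mul' hb (by simp [hε])
    · have h2 := le_of_max_le_left (hεX F ((hX F).2 hF) hne)
      refine ((Place.ge_ord ε).pow p).mul' (Place.ge_ord b) ?_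
      have h3 : -F.ord b ≤ F.ord ε := by omega
      have h4 : 0 ≤ F.ord ε := by omega
      nlinarith
  have h2 := (hf.mul h1).car h hx hE
  rw [mul_comm f, mul_assoc, h.bas.c1.car_pow_mul] at h2
  set g := ε * car p y (b * f) with hg
  have hg0 : g ≠ 0 := mul_ne_zero hε0 hc0
  have h3 : F₀.ord g < F₀.ord f := by rw [hg, F₀.ord_mul hε0 hc0]; omega
  obtain ⟨h4, h5⟩ := Place.ord_add_of_ge (p := F₀) (y := f) hg0 (Place.ge_of_le (by omega))
  have h6 : ∀ F ∈ X, F ≠ F₀ → F.ord (g + f) = F.ord f := fun F hF hne => by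
    rw [add_comm]
    refine (Place.ord_add_of_ge hf0 (Place.ge_of_le ?_)).2
    have := le_of_max_le_right (hεX F hF hne)
    rw [hg, F.ord_mul hε0 hc0]
    omega
  have h7 : ∑ F ∈ X, (F.ord (g + f) + lam k y F - 1).toNat <
      ∑ F ∈ X, (F.ord f + lam k y F - 1).toNat := by
    refine Finset.sum_lt_sum (fun F hF => ?_) ⟨F₀, (hX _).2 hF₀, by omega⟩
    by_cases hne : F = F₀
    · subst hne; omega
    · rw [h6 F hF hne]
  exact h7.not_ge (hmin ⟨h4, h2.add hf⟩ h7.le)

/-- Descent of the orders. -/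
lemma descend (h : Lv1 k p) (hx : IsPB p x) (hE : Div E) {n : Place k L → ℤ}
    (hn : ∀ g : L, (∀ F, Ov L E F → F.Ge (n F - lam k (fun i => algebraMap K L (x i)) F) g) →
      E.Ge (1 - lam k x E) (Algebra.trace K L g)) (g : L)
    (hg : ∀ F, Ov L E F →
      F.Ge (p * (n F - 1) + 1 - lam k (fun i => algebraMap K L (x i)) F) g) :
    E.Ge (1 - lam k x E) (Algebra.trace K L g) := by
  have : Algebra.EssFiniteType k L := Algebra.EssFiniteType.comp k K L
  by_contra hc
  obtain ⟨β, hβ, hc⟩ := h.rk.c2 (n := 0) (f := Algebra.trace K L g) hx hE (by simpa using hc)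
  rw [← trace_map_mul, h.bas.c2.car_trace hx, zero_add] at hc
  exact hc (hn _ fun F hF => h.rk.c1 (h.bas.c2.pb_map hx) (hF.div hE) (lt_add_one _)
    ((hF.ge_map (n := 0) hβ).mul' (hg F hF) (by simp)))

lemma td2 (h : Lv1 k p) (hx : IsPB p x) (hE : Div E) (hf : InN E (1 - lam k x E) f)
    (hF : Ov L E F) : F.Ge (1 - lam k (fun i => algebraMap K L (x i)) F) f := by
  set y : Fin 2 → L := fun i => algebraMap K L (x i) with hy
  by_contra hc
  obtain ⟨hf0, hc⟩ := Place.not_ge_iff.1 hc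
  have hp : (2 : ℤ) ≤ p := by exact_mod_cast (Fact.out : p.Prime).two_le
  have key : ∀ m : ℕ, ∃ n : Place k L → ℤ, n F ≤ -m ∧ ∀ g : L,
      (∀ F, Ov L E F → F.Ge (n F - lam k y F) g) →
        E.Ge (1 - lam k x E) (Algebra.trace K L g) := by
    intro m
    induction m with
    | zero =>
      refine ⟨fun F => F.ord f + lam k y F, by simp only; omega, fun g hg => ?_⟩
      simpa using hf.of_ge hf0 (g := g) (fun F hF => by simpa using hg F hF) 1 inS_one
    | succ m ih =>
      obtain ⟨n, h1, h2⟩ := ih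
      refine ⟨fun F => p * (n F - 1) + 1, ?_, descend h hx hE h2⟩
      have : (0 : ℤ) ≤ m := Int.natCast_nonneg m
      push_cast
      nlinarith
  obtain ⟨C, hC⟩ := exists_bound (1 - lam k x E) hF
  obtain ⟨n, h1, h2⟩ := key ((C + lam k y F).natAbs + 1)
  obtain ⟨X, hX⟩ := exists_finset (L := L) E
  obtain ⟨g, hg0, hg1, hg2⟩ := approx' F X (n F - lam k y F) fun F => n F - lam k y F
  have h3 := (hC g fun t ht => h2 _ fun F' hF' => (Place.ge_ord g).mul' (ht F' hF') (by
    by_cases hne : F' = F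
    · subst hne; omega
    · have := hg2 F' ((hX _).2 hF') hne
      omega)).le hg0
  omega

lemma td1 (h : Lv1 k p) (hx : IsPB p x) (hE : Div E) (n : ℤ)
    (hf : ∀ (F : Place k L) (e : ℕ), F.Over (IsScalarTower.toAlgHom k K L) E e →
      F.Ge (e * n + 1 - lam k (fun i => algebraMap K L (x i)) F) f) :
    E.Ge (n + 1 - lam k x E) (Algebra.trace K L f) := by
  obtain ⟨f₀, h0, h1, h2⟩ := exists_small (L := L) h hx hE
  obtain ⟨a, ha0, ha⟩ := E.exists_ord_eq n
  have h3 := h1.of_ge h0 (g := algebraMap K L a⁻¹ * f) (fun F hF => by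
    obtain ⟨e, he⟩ := hF
    have h4 := h2 F ⟨e, he⟩
    refine ((he.ge_iff _ _).2 (Place.ge_ord a⁻¹)).mul' (hf F e he) ?_
    rw [Place.ord_inv, ha, mul_neg]
    omega) 1 inS_one
  rw [mul_one, trace_map_mul] at h3
  have h5 := (Place.ge_ord (p := E) a).mul h3
  rw [mul_inv_cancel_left₀ ha0, ha] at h5
  exact h5.mono (by omega)

end T

theorem blk_T {k : Type} [Field k] [IsAlgClosed k] {p : Nat} [Fact p.Prime] [CharP k p]
    (hp : p ≠ 2) (h : Lv1 k p) : RT k p where
  td1 n _ hx hE hf := T.td1 h hx hE n hf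
  td2 _ hx hE hf _ e he := T.td2 h hx hE (fun t ht => hf t ht.isIntegral) ⟨e, he⟩

end Pool.Agent.Lib.MP_5f81cf_ag.Full.Res
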