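import Pool.Agent.Lib.MP_5f81cf_ag.ResBlue

/-! The local ring of an affine surface at a maximal ideal. -/

namespace Pool.Agent.Lib.MP_5f81cf_ag.Full.Res

open Pool.Agent.Lib.MP_e06174_ag

namespace T0

set_option linter.unusedSectionVars false

variable (k : Type) [Field k] {T : Type} (L : Type) [CommRing T] [IsDomain T] [Algebra k T]
  [Field L] [Algebra k L] [Algebra T L] [IsScalarTower k T L] [IsFractionRing T L]
  (y : Ideal T) [hy : y.IsPrime]

/-- the localisation at `y` inside the fraction field -/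
def OO : Subalgebra k L where
  carrier := {f | ∃ s : T, s ∉ y ∧ ∃ t : T, f * algebraMap T L s = algebraMap T L t}
  mul_mem' := by
    rintro f g ⟨s, hs, t, hf⟩ ⟨s', hs', t', hg⟩
    refine ⟨s * s', hy.mul_notMem hs hs', t * t', ?_⟩
    rw [map_mul, map_mul, mul_mul_mul_comm, hf, hg]
  add_mem' := by
    rintro f g ⟨s, hs, t, hf⟩ ⟨s', hs', t', hg⟩
    refine ⟨s * s', hy.mul_notMem hs hs', t * s' + t' * s, ?_⟩
    rw [map_add, map_mul, map_mul, map_mul, ← hf, ← hg]; ring
  algebraMap_mem' := fun c => ⟨1, hy.one_notMem, algebraMap k T c, by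
    rw [map_one, mul_one, ← IsScalarTower.algebraMap_apply]⟩

/-- its maximal ideal -/
def MM : Submodule k L where
  carrier := {f | ∃ s : T, s ∉ y ∧ ∃ t ∈ y, f * algebraMap T L s = algebraMap T L t}
  add_mem' := by
    rintro f g ⟨s, hs, t, ht, hf⟩ ⟨s', hs', t', ht', hg⟩
    refine ⟨s * s', hy.mul_notMem hs hs', t * s' + t' * s,
      add_mem (y.mul_mem_right _ ht) (y.mul_mem_right _ ht'), ?_⟩
    rw [map_add, map_mul, map_mul, map_mul, ← hf, ← hg]; ring
  zero_mem' := ⟨1, hy.one_notMem, 0, zero_mem _, by simp⟩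
  smul_mem' := by
    rintro c f ⟨s, hs, t, ht, hf⟩
    refine ⟨s, hs, algebraMap k T c * t, y.mul_mem_left _ ht, ?_⟩
    rw [map_mul, ← IsScalarTower.algebraMap_apply, ← hf, Algebra.smul_def, mul_assoc]

variable {k L y}

lemma mem_OO (t : T) : algebraMap T L t ∈ OO k L y := ⟨1, hy.one_notMem, t, by simp⟩

lemma ne_zero {s : T} (hs : s ∉ y) : algebraMap T L s ≠ 0 := fun h =>
  hs (by rw [(FaithfulSMul.algebraMap_eq_zero_iff (R := T) (A := L)).1 h]; exact zero_mem _)

lemma un_of {s : T} (hs : s ∉ y) : Un (OO k L y) (algebraMap T L s) :=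
  ⟨mem_OO s, ne_zero hs, s, hs, 1, by rw [inv_mul_cancel₀ (ne_zero hs), map_one]⟩

lemma nonunit_iff {f : L} : (f ∈ OO k L y ∧ (f = 0 ∨ f⁻¹ ∉ OO k L y)) ↔ f ∈ MM k L y := by
  constructor
  · rintro ⟨⟨s, hs, t, hf⟩, h⟩
    refine ⟨s, hs, t, ?_, hf⟩
    by_contra ht
    have h0 : f ≠ 0 := by
      rintro rfl
      exact ne_zero (L := L) ht (by rw [← hf, zero_mul])
    refine h.elim h0 fun h => h ⟨t, ht, s, ?_⟩
    rw [← hf, inv_mul_cancel_left₀ h0]
  · rintro ⟨s, hs, t, ht, hf⟩
    refine ⟨⟨s, hs, t, hf⟩, ?_⟩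
    by_contra h
    push Not at h
    obtain ⟨h0, s', hs', t', hg⟩ := h
    have : s * s' = t * t' := by
      apply FaithfulSMul.algebraMap_injective T L
      rw [map_mul, map_mul, ← hf, ← hg]; field_simp
    exact hy.mul_notMem hs hs' (this ▸ y.mul_mem_right _ ht)

lemma mx_eq : mx (OO k L y) = MM k L y := by
  have : {f | f ∈ OO k L y ∧ (f = 0 ∨ f⁻¹ ∉ OO k L y)} = (MM k L y : Set L) :=
    Set.ext fun _ => nonunit_iff
  rw [mx, this, Submodule.span_eq]

lemma mem_mx {t : T} (ht : t ∈ y) : algebraMap T L t ∈ mx (OO k L y) := by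
  rw [mx_eq]; exact ⟨1, hy.one_notMem, t, ht, by simp⟩

lemma normal [IsIntegrallyClosed T] {f : L} (hf : IsIntegral (OO k L y) f) : f ∈ OO k L y := by
  let _ : Algebra T (OO k L y) :=
    ((algebraMap T L).codRestrict (OO k L y).toSubring (mem_OO (k := k))).toAlgebra
  have : IsScalarTower T (OO k L y) L := IsScalarTower.of_algebraMap_eq fun _ => rfl
  have : IsLocalization y.primeCompl (OO k L y) := by
    rw [isLocalization_iff]
    refine ⟨fun s => ?_, fun z => ?_, fun {a b} hab => ⟨1, ?_⟩⟩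
    · have hu := un_of (k := k) (L := L) s.2
      exact IsUnit.of_mul_eq_one ⟨_, hu.2.2⟩ (Subtype.ext (mul_inv_cancel₀ hu.2.1))
    · obtain ⟨s, hs, t, h⟩ := z.2
      exact ⟨⟨t, ⟨s, hs⟩⟩, Subtype.ext h⟩
    · rw [FaithfulSMul.algebraMap_injective T L (congrArg Subtype.val hab)]
  obtain ⟨m, hm⟩ := IsIntegral.exists_multiple_integral_of_isLocalization y.primeCompl f hf
  obtain ⟨t, ht⟩ := IsIntegrallyClosed.isIntegral_iff.1 hm
  refine ⟨m, m.2, t, ?_⟩
  rw [ht, Submonoid.smul_def, Algebra.smul_def, mul_comm]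

variable {F : Place k L}

/-- the centre of a place -/
def ctr (hF : Cont (OO k L y) F) : Ideal T where
  carrier := {r | F.Ge 1 (algebraMap T L r)}
  zero_mem' := by simp
  add_mem' := fun ha hb => by simpa using Place.Ge.add ha hb
  smul_mem' := fun c _ ha => by simpa using (hF _ (mem_OO c)).mul ha

lemma ctr_le (hF : Cont (OO k L y) F) : ctr hF ≤ y := fun _ hr => by
  by_contra h
  exact (un_of h).not_ge hF hr

lemma ctr_prime (hF : Cont (OO k L y) F) : (ctr hF).IsPrime := by
  refine ⟨fun h0 => hy.ne_top (top_le_iff.1 (h0 ▸ ctr_le hF)), fun {a b} hab => ?_⟩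
  by_contra h0
  push Not at h0
  have ha := Place.not_ge_iff.mp h0.1
  have hb := Place.not_ge_iff.mp h0.2
  have h1 : F.Ge 1 (algebraMap T L (a * b)) := hab
  rw [map_mul] at h1
  have h2 := h1.le (mul_ne_zero ha.1 hb.1)
  rw [F.ord_mul ha.1 hb.1] at h2
  omega

lemma ctr_ne_bot (hF : Cont (OO k L y) F) : ctr hF ≠ ⊥ := by
  obtain ⟨π, h0, hπ⟩ := F.exists_ord_eq_one
  obtain ⟨a, b, hb, hab⟩ := IsFractionRing.div_surjective (A := T) π
  have hb0 : algebraMap T L b ≠ 0 :=
    IsFractionRing.to_map_ne_zero_of_mem_nonZeroDivisors hb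
  have e : algebraMap T L a = π * algebraMap T L b := by rw [← hab]; field_simp
  intro h1
  have h2 : a ∈ ctr hF := by
    change F.Ge 1 (algebraMap T L a)
    rw [e]
    exact (Place.ge_of_le hπ.ge).mul' (hF _ (mem_OO b)) (by simp)
  rw [h1, Ideal.mem_bot] at h2
  rw [h2, map_zero] at e
  exact mul_ne_zero h0 hb0 e.symm

lemma ctr_ne (hF : Ht1 (OO k L y) F) : ctr hF.1 ≠ y := by
  intro h0
  obtain ⟨f, hf, hf'⟩ := hF.2
  rw [mx_eq] at hf
  obtain ⟨s, hs, t, ht, e⟩ := hf
  rw [← h0] at ht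
  have hu := un_of (k := k) (L := L) hs
  have : f = algebraMap T L t * (algebraMap T L s)⁻¹ := by
    rw [← e, mul_inv_cancel_right₀ hu.2.1]
  exact hf' (this ▸ Place.Ge.mul' ht (hF.1 _ hu.2.2) (by simp))

end T0

open T0 in
theorem blk_T0 {k : Type} [Field k] [IsAlgClosed k] {p : Nat} [Fact p.Prime] [CharP k p]
    (hp : p ≠ 2) (h : Lv1 k p) : St_T0 k p := by
  intro T L _ _ _ _ _ _ _ _ _ _ u y hy hu
  have : Algebra.EssFiniteType T L := Algebra.EssFiniteType.of_isLocalization L (nonZeroDivisors T)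
  have ess : Algebra.EssFiniteType k L := Algebra.EssFiniteType.comp k T L
  have dim : Algebra.trdeg k L = 2 := by
    rw [h.bas.c2.trdeg_eq hu]; rfl
  have res : ∀ t : T, ∃ c : k, t - algebraMap k T c ∈ y := by
    intro t
    let _ := Ideal.Quotient.field y
    have : Module.Finite k (T ⧸ y) := finite_of_finite_type_of_isJacobsonRing k (T ⧸ y)
    obtain ⟨c, hc⟩ := (IsAlgClosed.algebraMap_bijective_of_isIntegral (k := k) (K := T ⧸ y)).2
      (Ideal.Quotient.mk y t)
    exact ⟨c, Ideal.Quotient.eq.1 hc.symm⟩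
  have hht : y.height = 2 := by
    have : Algebra.IsAlgebraic T L := IsLocalization.isAlgebraic L (nonZeroDivisors T)
    have h1 : Algebra.trdeg k T = (2 : ℕ) := by
      have h2 := trdeg_add_eq k T (A := L)
      rw [trdeg_eq_zero (R := T) (A := L), add_zero, dim] at h2
      rw [h2]
      rfl
    have : Algebra.IsAlgebraic k (T ⧸ y) := ⟨fun x => by
      obtain ⟨a, rfl⟩ := Ideal.Quotient.mk_surjective x
      obtain ⟨c, hc⟩ := res a
      have h2 : Ideal.Quotient.mk y a = algebraMap k (T ⧸ y) c := Ideal.Quotient.eq.mpr hc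
      rw [h2]
      exact isAlgebraic_algebraMap c⟩
    have h3 : Algebra.trdeg k (T ⧸ y) = (0 : ℕ) := by
      rw [trdeg_eq_zero]
      rfl
    exact (h.bas.a2.height_add y h1 h3).2
  have hO : IsLoc (OO k L y) := by
    refine ⟨ess, dim, ⟨(IsScalarTower.toAlgHom k T L).range, ?_, ?_, ?_⟩, fun f => ?_,
      fun f hf => ?_, ?_⟩
    · rw [← Algebra.map_top]
      exact Algebra.FiniteType.out.map _
    · rintro _ ⟨t, rfl⟩
      exact mem_OO t
    · rintro f ⟨s, hs, t, e⟩
      exact ⟨_, ⟨s, rfl⟩, un_of hs, t, e.symm⟩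
    · obtain ⟨a, b, hb, hab⟩ := IsFractionRing.div_surjective (A := T) f
      have hb0 : algebraMap T L b ≠ 0 :=
        IsFractionRing.to_map_ne_zero_of_mem_nonZeroDivisors hb
      refine ⟨_, mem_OO b, hb0, ?_⟩
      rw [← hab, div_mul_cancel₀ _ hb0]
      exact mem_OO a
    · rw [mx_eq] at hf
      exact (nonunit_iff.2 hf).2
    · rintro f ⟨s, hs, t, e⟩
      obtain ⟨c, hc⟩ := res s
      obtain ⟨d, hd⟩ := res t
      have hc0 : c ≠ 0 := by
        rintro rfl
        exact hs (by simpa using hc)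
      refine ⟨d / c, ?_⟩
      rw [mx_eq]
      refine ⟨s, hs, t - algebraMap k T (d / c) * s, ?_, ?_⟩
      · have : t - algebraMap k T (d / c) * s =
            (t - algebraMap k T d) - algebraMap k T (d / c) * (s - algebraMap k T c) := by
          rw [mul_sub, ← map_mul, div_mul_cancel₀ _ hc0]; ring
        rw [this]
        exact sub_mem hd (y.mul_mem_left _ hc)
      · rw [map_sub, map_mul, ← IsScalarTower.algebraMap_apply, ← e]; ring
  refine ⟨OO k L y, ⟨hO, fun f => normal⟩, mem_OO, ?_, fun F hF r => ⟨hF.1 _ (mem_OO r), ?_⟩,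
    fun F hF => ⟨ctr hF, fun r => ⟨hF _ (mem_OO r), Iff.rfl⟩, ctr_le hF, fun hF1 => ?_⟩⟩
  · classical
    have := Algebra.FiniteType.isNoetherianRing k T
    obtain ⟨G, hG⟩ := IsNoetherian.noetherian y
    refine ⟨(G.image (algebraMap T L)).erase 0, fun s hs => ?_, le_antisymm ?_ ?_⟩
    · obtain ⟨h0, h1⟩ := Finset.mem_erase.1 hs
      obtain ⟨t, -, rfl⟩ := Finset.mem_image.1 h1
      exact ⟨h0, t, rfl⟩
    · have key : ∀ t ∈ Submodule.span T (G : Set T), algebraMap T L t ∈
          gen (OO k L y) ((G.image (algebraMap T L)).erase 0 : Finset L) := by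
        intro t ht
        induction ht using Submodule.span_induction with
        | mem x hx =>
          by_cases h0 : algebraMap T L x = 0
          · rw [h0]; exact zero_mem _
          · exact subset_gen (Finset.mem_coe.2
              (Finset.mem_erase.2 ⟨h0, Finset.mem_image_of_mem _ hx⟩))
        | zero => rw [map_zero]; exact zero_mem _
        | add a b _ _ ha hb => rw [map_add]; exact add_mem ha hb
        | smul c a _ ha => rw [smul_eq_mul, map_mul]; exact isMod_gen _ _ (mem_OO c) _ ha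
      rw [mx_eq]
      rintro f ⟨s, hs, t, ht, e⟩
      have hu := un_of (k := k) (L := L) hs
      have : f = (algebraMap T L s)⁻¹ * algebraMap T L t := by
        rw [← e, mul_comm, mul_inv_cancel_right₀ hu.2.1]
      rw [this]
      exact isMod_gen _ _ hu.2.2 _ (key t (hG ▸ ht))
    · refine gen_le hO.isMod_mx fun f hf => ?_
      obtain ⟨t, ht, rfl⟩ := Finset.mem_image.1 (Finset.mem_erase.1 (Finset.mem_coe.1 hf)).2
      exact mem_mx (hG ▸ Submodule.subset_span ht)
  · refine ⟨fun hr => hF.2 _ (mem_mx hr), fun hr => ?_⟩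
    by_contra hn
    exact (un_of hn).not_ge hF.1 hr
  · have := ctr_prime hF
    have h1 : ctr hF < y := lt_of_le_of_ne (ctr_le hF) (ctr_ne hF1)
    have h2 := Ideal.height_add_one_le_of_lt_of_isPrime h1
    rw [hht] at h2
    have h3 : (ctr hF).height ≠ 0 := fun h0 =>
      ctr_ne_bot hF (Ideal.height_eq_zero_iff_eq_bot.mp h0)
    generalize (ctr hF).height = n at h2 h3
    induction n using ENat.recTopCoe with
    | top => simp at h2
    | coe n =>
      have h4 : n + 1 ≤ 2 := by exact_mod_cast h2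
      have h5 : n ≠ 0 := by exact_mod_cast h3
      have h6 : n = 1 := by omega
      rw [h6]
      rfl

end Pool.Agent.Lib.MP_5f81cf_ag.Full.Res
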