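import Pool.Agent.Lib.MP_5f81cf_ag.ResBlue

/-! Valuation rings of maximal residual transcendence degree are places. -/

namespace Pool.Agent.Lib.MP_5f81cf_ag.Full.Res

open Pool.Agent.Lib.MP_e06174_ag

namespace V1

variable {k L Γ : Type} [Field k] [Field L] [Algebra k L] [LinearOrderedCommGroupWithZero Γ]

lemma unit_poly [IsAlgClosed k] (v : Valuation L Γ) (hc : ∀ c : k, c ≠ 0 → v (algebraMap k L c) = 1)
    {z : L} (hz : ∀ c : k, v (z - algebraMap k L c) = 1) (P : Polynomial k) (hP : P ≠ 0) :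
    v (Polynomial.aeval z P) = 1 := by
  induction hn : P.natDegree using Nat.strong_induction_on generalizing P with
  | _ n ih =>
    by_cases h0 : P.degree = 0
    · rw [Polynomial.eq_C_of_degree_eq_zero h0, Polynomial.aeval_C]
      apply hc
      intro h
      apply hP
      rw [Polynomial.eq_C_of_degree_eq_zero h0, h, map_zero]
    · obtain ⟨c, hc'⟩ := IsAlgClosed.exists_root P h0
      obtain ⟨Q, rfl⟩ := Polynomial.dvd_iff_isRoot.mpr hc'
      have hQ : Q ≠ 0 := right_ne_zero_of_mul hP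
      rw [Polynomial.natDegree_mul (Polynomial.X_sub_C_ne_zero c) hQ,
        Polynomial.natDegree_X_sub_C] at hn
      rw [map_mul, map_mul, ih Q.natDegree (by omega) Q hQ rfl, mul_one, map_sub,
        Polynomial.aeval_X, Polynomial.aeval_C, hz]

lemma gauss {R : Type} [CommRing R] (v : Valuation L Γ) (φ : R →+* L)
    (hφ : ∀ r, r ≠ 0 → v (φ r) = 1) {t : L} (ht : v t < 1) (Q : Polynomial R) :
    v (Q.eval₂ φ t) ≤ 1 ∧ (Q.coeff 0 = 0 → v (Q.eval₂ φ t) < 1) ∧
      (Q ≠ 0 → ∃ m : ℕ, v (Q.eval₂ φ t) = v t ^ m) := by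
  induction Q using Polynomial.recOnHorner with
  | M0 => simp
  | MC Q a h0 ha ih =>
    have h1 : v ((Q + Polynomial.C a).eval₂ φ t) = 1 := by
      rw [Polynomial.eval₂_add, Polynomial.eval₂_C, v.map_add_eq_of_lt_right, hφ a ha]
      rw [hφ a ha]
      exact ih.2.1 h0
    refine ⟨h1.le, fun h => ?_, fun _ => ⟨0, by rw [h1, pow_zero]⟩⟩
    rw [Polynomial.coeff_add, h0, Polynomial.coeff_C_zero, zero_add] at h
    exact absurd h ha
  | MX Q hQ ih =>
    have h1 : v ((Q * Polynomial.X).eval₂ φ t) < 1 := by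
      rw [Polynomial.eval₂_mul_X, map_mul]
      exact lt_of_le_of_lt (mul_le_of_le_one_left' ih.1) ht
    refine ⟨h1.le, fun _ => h1, fun _ => ?_⟩
    obtain ⟨m, hm⟩ := ih.2.2 hQ
    exact ⟨m + 1, by rw [Polynomial.eval₂_mul_X, map_mul, hm, pow_succ]⟩

lemma aeval_cons {d : ℕ} (t : L) (z : Fin d → L) (P : MvPolynomial (Fin (d + 1)) k) :
    MvPolynomial.aeval (Fin.cons t z : Fin (d + 1) → L) P =
      (MvPolynomial.finSuccEquiv k d P).eval₂ (MvPolynomial.aeval (R := k) z).toRingHom t := by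
  induction P using MvPolynomial.induction_on with
  | C a =>
    have : MvPolynomial.finSuccEquiv k d (MvPolynomial.C a) =
        Polynomial.C (MvPolynomial.C a) := (MvPolynomial.finSuccEquiv k d).commutes a
    rw [this, Polynomial.eval₂_C]
    simp
  | add P Q hP hQ => rw [map_add, map_add, Polynomial.eval₂_add, hP, hQ]
  | mul_X P i hP =>
    rw [map_mul, map_mul, Polynomial.eval₂_mul, hP]
    congr 1
    refine Fin.cases ?_ (fun j => ?_) i
    · rw [MvPolynomial.finSuccEquiv_X_zero, Polynomial.eval₂_X]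
      simp
    · rw [MvPolynomial.finSuccEquiv_X_succ, Polynomial.eval₂_C]
      simp

lemma val_cons {d : ℕ} (v : Valuation L Γ) {t : L} (ht : v t < 1) {z : Fin d → L}
    (hz : ∀ r : MvPolynomial (Fin d) k, r ≠ 0 → v (MvPolynomial.aeval z r) = 1)
    (P : MvPolynomial (Fin (d + 1)) k) (hP : P ≠ 0) :
    ∃ m : ℕ, v (MvPolynomial.aeval (Fin.cons t z : Fin (d + 1) → L) P) = v t ^ m := by
  rw [aeval_cons]
  exact (gauss v _ hz ht _).2.2 (by simpa using hP)

lemma indep_cons {d : ℕ} (v : Valuation L Γ) {t : L} (ht0 : t ≠ 0) (ht : v t < 1) {z : Fin d → L}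
    (hz : ∀ r : MvPolynomial (Fin d) k, r ≠ 0 → v (MvPolynomial.aeval z r) = 1) :
    AlgebraicIndependent k (Fin.cons t z : Fin (d + 1) → L) := by
  rw [algebraicIndependent_iff]
  intro P hP
  by_contra h
  obtain ⟨m, hm⟩ := val_cons v ht hz P h
  rw [hP, map_zero] at hm
  exact pow_ne_zero m ((Valuation.ne_zero_iff v).mpr ht0) hm.symm

lemma hz_zero (v : Valuation L Γ) (hc : ∀ c : k, c ≠ 0 → v (algebraMap k L c) = 1)
    (z : Fin 0 → L) (r : MvPolynomial (Fin 0) k) (hr : r ≠ 0) : v (MvPolynomial.aeval z r) = 1 := by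
  obtain ⟨c, rfl⟩ := MvPolynomial.C_surjective (Fin 0) r
  rw [MvPolynomial.aeval_C]
  exact hc c (by rintro rfl; simp at hr)

lemma hz_one [IsAlgClosed k] (v : Valuation L Γ) (hc : ∀ c : k, c ≠ 0 → v (algebraMap k L c) = 1)
    {z : L} (hz : ∀ c : k, v (z - algebraMap k L c) = 1) (r : MvPolynomial (Fin 1) k)
    (hr : r ≠ 0) : v (MvPolynomial.aeval ![z] r) = 1 := by
  have h : (MvPolynomial.aeval ![z] : MvPolynomial (Fin 1) k →ₐ[k] L) =
      (Polynomial.aeval z).comp (MvPolynomial.uniqueAlgEquiv k (Fin 1)).toAlgHom := by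
    ext i
    simp [Subsingleton.elim i 0]
  rw [h]
  exact unit_poly v hc hz _ ((MvPolynomial.uniqueAlgEquiv k (Fin 1)).map_ne_zero_iff.mpr hr)

lemma bounded [Algebra.EssFiniteType k L] {d : ℕ} (hd : Algebra.trdeg k L = (d + 1 : ℕ))
    (v : Valuation L Γ) {t : L} (ht0 : t ≠ 0) (ht : v t < 1) {z : Fin d → L}
    (hz : ∀ r : MvPolynomial (Fin d) k, r ≠ 0 → v (MvPolynomial.aeval z r) = 1) :
    ∃ N : ℕ, 0 < N ∧ ∀ f : L, f ≠ 0 → ∃ m : ℤ, v f ^ N = v t ^ m := by
  classical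
  have hi := indep_cons v ht0 ht hz
  have hvt : v t ≠ 0 := (Valuation.ne_zero_iff v).mpr ht0
  have hb : IsTranscendenceBasis k (Fin.cons t z : Fin (d + 1) → L) :=
    hi.isTranscendenceBasis_of_trdeg_le_of_finite (by rw [hd]; simp)
  set K₀ := IntermediateField.adjoin k (Set.range (Fin.cons t z : Fin (d + 1) → L)) with hK₀
  have : Algebra.IsAlgebraic K₀ L := hb.isAlgebraic_field
  have : Algebra.EssFiniteType K₀ L := Algebra.EssFiniteType.of_comp k K₀ L
  have : FiniteDimensional K₀ L := Algebra.finite_of_essFiniteType_of_isAlgebraic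
  have hK : ∀ c : K₀, c ≠ 0 → ∃ m : ℤ, v (c : L) = v t ^ m := by
    intro c hc
    obtain ⟨r, s, hrs⟩ := (IntermediateField.mem_adjoin_range_iff k _ _).mp c.2
    have hc' : (c : L) ≠ 0 := by simpa using hc
    have hr : r ≠ 0 := by rintro rfl; simp [hc'] at hrs
    have hs : s ≠ 0 := by rintro rfl; simp [hc'] at hrs
    obtain ⟨a, ha⟩ := val_cons v ht hz r hr
    obtain ⟨b, hb⟩ := val_cons v ht hz s hs
    exact ⟨a - b, by rw [hrs, map_div₀, ha, hb, zpow_sub₀ hvt, zpow_natCast, zpow_natCast]⟩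
  refine ⟨(Module.finrank K₀ L).factorial, Nat.factorial_pos _, fun f hf => ?_⟩
  have hvf : v f ≠ 0 := (Valuation.ne_zero_iff v).mpr hf
  set Q := minpoly K₀ f with hQ
  have hQ0 : Q ≠ 0 := minpoly.ne_zero_of_finite K₀ f
  have hdeg : Q.natDegree ≤ Module.finrank K₀ L := minpoly.natDegree_le f
  have hsum : ∑ i ∈ Q.support, (Q.coeff i : L) * f ^ i = 0 := by
    have := minpoly.aeval K₀ f
    rwa [Polynomial.aeval_def, Polynomial.eval₂_eq_sum, Polynomial.sum_def] at this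
  obtain ⟨j, hj, hmax⟩ := Q.support.exists_max_image (fun i => v ((Q.coeff i : L) * f ^ i))
    (Polynomial.nonempty_support_iff.mpr hQ0)
  have key : ∀ i ∈ Q.support, ∀ j ∈ Q.support, i < j →
      v ((Q.coeff i : L) * f ^ i) = v ((Q.coeff j : L) * f ^ j) →
      ∃ m : ℤ, v f ^ (Module.finrank K₀ L).factorial = v t ^ m := by
    intro i hi j hj hij h
    obtain ⟨a, ha⟩ := hK _ (Polynomial.mem_support_iff.mp hi)
    obtain ⟨b, hb⟩ := hK _ (Polynomial.mem_support_iff.mp hj)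
    obtain ⟨e, rfl⟩ := Nat.exists_eq_add_of_lt hij
    have hle := Polynomial.le_natDegree_of_mem_supp _ hj
    obtain ⟨w, hw⟩ := Nat.dvd_factorial (Nat.succ_pos e)
      (show e + 1 ≤ Module.finrank K₀ L by omega)
    rw [map_mul, map_mul, map_pow, map_pow, ha, hb, add_assoc, pow_add, ← mul_assoc] at h
    have h1 : v f ^ (e + 1) = v t ^ (a - b) := by
      rw [zpow_sub₀ hvt, eq_div_iff (zpow_ne_zero _ hvt)]
      apply mul_right_cancel₀ (pow_ne_zero i hvf)
      rw [h]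
      ac_rfl
    exact ⟨(a - b) * w, by rw [hw, pow_mul, h1, zpow_mul, zpow_natCast]⟩
  by_contra hcon
  have h1 : v (∑ i ∈ Q.support, (Q.coeff i : L) * f ^ i) = v ((Q.coeff j : L) * f ^ j) := by
    apply v.map_sum_eq_of_lt hj
    intro i hi
    obtain ⟨hi, hij⟩ := Finset.mem_sdiff.mp hi
    refine lt_of_le_of_ne (hmax i hi) fun h => hcon ?_
    rcases lt_or_gt_of_ne (Finset.notMem_singleton.mp hij) with h' | h'
    · exact key i hi j hj h' h
    · exact key j hj i hi h' h.symm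
  rw [hsum, map_zero, map_mul, map_pow] at h1
  obtain ⟨b, hb⟩ := hK _ (Polynomial.mem_support_iff.mp hj)
  rw [hb] at h1
  exact mul_ne_zero (zpow_ne_zero _ hvt) (pow_ne_zero _ hvf) h1.symm

lemma unif (v : Valuation L Γ) {t : L} (ht0 : t ≠ 0) (ht : v t < 1) {N : ℕ} (hN : 0 < N)
    (h : ∀ f : L, f ≠ 0 → ∃ m : ℤ, v f ^ N = v t ^ m) :
    ∃ π : L, π ≠ 0 ∧ v π < 1 ∧ ∀ f : L, f ≠ 0 → ∃ q : ℤ, v f = v π ^ q := by
  classical
  have hvt : v t ≠ 0 := (Valuation.ne_zero_iff v).mpr ht0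
  have hex : ∃ m : ℕ, 0 < m ∧ ∃ π : L, π ≠ 0 ∧ v π ^ N = v t ^ m := ⟨N, hN, t, ht0, rfl⟩
  obtain ⟨hm, π, hπ, hπm⟩ := Nat.find_spec hex
  set m := Nat.find hex with hmdef
  have hvπ : v π ≠ 0 := (Valuation.ne_zero_iff v).mpr hπ
  refine ⟨π, hπ, ?_, fun f hf => ?_⟩
  · by_contra hc
    have h1 : 1 ≤ v π ^ N := one_le_pow₀ (not_lt.mp hc)
    rw [hπm] at h1
    exact absurd (pow_lt_one₀ zero_le ht hm.ne') (not_lt.mpr h1)
  · obtain ⟨a, ha⟩ := h f hf
    have hm' : (0 : ℤ) < m := by exact_mod_cast hm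
    obtain ⟨r, hr⟩ := Int.eq_ofNat_of_zero_le (Int.emod_nonneg a hm'.ne')
    have hrm : r < m := by
      have := Int.emod_lt_of_pos a hm'
      omega
    have h1 : v (f / π ^ (a / m)) ^ N = v t ^ r := by
      rw [map_div₀, map_zpow₀, div_pow, ha, ← zpow_natCast (v π ^ (a / m)), ← zpow_mul, mul_comm,
        zpow_mul, zpow_natCast, hπm, ← zpow_natCast (v t), ← zpow_mul, ← zpow_sub₀ hvt,
        ← zpow_natCast, ← hr, Int.emod_def]
    have hr0 : r = 0 := by
      by_contra h0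
      exact Nat.find_min hex hrm ⟨by omega, _, div_ne_zero hf (zpow_ne_zero _ hπ), h1⟩
    rw [hr0, pow_zero, pow_eq_one_iff_of_nonneg zero_le hN.ne', map_div₀, map_zpow₀,
      div_eq_one_iff_eq (zpow_ne_zero _ hvπ)] at h1
    exact ⟨_, h1⟩

lemma place_of (v : Valuation L Γ) (hc : ∀ c : k, c ≠ 0 → v (algebraMap k L c) = 1) {π : L}
    (hπ0 : π ≠ 0) (hπ : v π < 1) (h : ∀ f : L, f ≠ 0 → ∃ q : ℤ, v f = v π ^ q) :
    ∃ F : Place k L, ∀ f, F.Ge 0 f ↔ v f ≤ 1 := by
  have hvπ : v π ≠ 0 := (Valuation.ne_zero_iff v).mpr hπ0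
  have hpos : 0 < v π := zero_lt_iff.mpr hvπ
  have anti : StrictAnti fun q : ℤ => v π ^ q := zpow_right_strictAnti₀ hpos hπ
  choose! o ho using h
  refine ⟨Place.ofOrd o ?_ ?_ ?_ ⟨π, hπ0, ?_⟩, fun f => ?_⟩
  · intro x y hx hy
    apply anti.injective
    show v π ^ o (x * y) = v π ^ (o x + o y)
    rw [← ho _ (mul_ne_zero hx hy), zpow_add₀ hvπ, ← ho x hx, ← ho y hy, map_mul]
  · intro x y hx hy hxy
    have := v.map_add x y
    rw [ho _ hxy, ho x hx, ho y hy, le_max_iff] at this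
    rcases this with h | h
    · exact (min_le_left _ _).trans (anti.le_iff_ge.mp h)
    · exact (min_le_right _ _).trans (anti.le_iff_ge.mp h)
  · intro c hc0
    apply anti.injective
    show v π ^ o (algebraMap k L c) = v π ^ (0 : ℤ)
    rw [← ho _ (by simpa using hc0), hc c hc0, zpow_zero]
  · apply anti.injective
    show v π ^ o π = v π ^ (1 : ℤ)
    rw [← ho _ hπ0, zpow_one]
  · by_cases hf : f = 0
    · simp [hf]
    · rw [Place.ge_iff hf, Place.ofOrd_ord _ _ _ _ _ hf, ho f hf, ← zpow_zero (v π)]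
      exact (anti.le_iff_ge (a := o f) (b := 0)).symm

lemma const_val (V : ValuationSubring L) (hV : ∀ c : k, algebraMap k L c ∈ V) (c : k)
    (hc : c ≠ 0) : V.valuation (algebraMap k L c) = 1 := by
  apply le_antisymm ((V.valuation_le_one_iff _).mpr (hV c))
  have h := (V.valuation_le_one_iff _).mpr (hV c⁻¹)
  have h0 : V.valuation (algebraMap k L c) ≠ 0 := (Valuation.ne_zero_iff _).mpr (by simpa using hc)
  rwa [map_inv₀, map_inv₀, inv_le_one₀ (zero_lt_iff.mpr h0)] at h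

lemma place [Algebra.EssFiniteType k L] {d : ℕ} (hd : Algebra.trdeg k L = (d + 1 : ℕ))
    (V : ValuationSubring L) (hV : ∀ c : k, algebraMap k L c ∈ V) (hT : V ≠ ⊤) {z : Fin d → L}
    (hz : ∀ r : MvPolynomial (Fin d) k, r ≠ 0 → V.valuation (MvPolynomial.aeval z r) = 1) :
    ∃ F : Place k L, F.O = V := by
  obtain ⟨s, hs⟩ : ∃ s, s ∉ V := by
    by_contra h
    push Not at h
    exact hT (eq_top_iff.mpr fun x _ => h x)
  have hs0 : s ≠ 0 := by rintro rfl; exact hs V.zero_mem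
  have hs1 : V.valuation s⁻¹ < 1 := by
    rw [← V.valuation_le_one_iff, not_le] at hs
    rw [map_inv₀]
    exact inv_lt_one_of_one_lt₀ hs
  obtain ⟨N, hN, h⟩ := bounded hd V.valuation (inv_ne_zero hs0) hs1 hz
  obtain ⟨π, h0, h1, h2⟩ := unif V.valuation (inv_ne_zero hs0) hs1 hN h
  obtain ⟨F, hF⟩ := place_of V.valuation (const_val V hV) h0 h1 h2
  refine ⟨F, ?_⟩
  ext f
  rw [Place.mem_O, hF, V.valuation_le_one_iff]

lemma dic_val {F : Place k L} {z : L} (h : Dic F z) (c : k) : F.v (z - algebraMap k L c) = 1 := by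
  apply le_antisymm (Place.ge_zero_iff.mp (h.1.sub (Place.ge_const c)))
  exact not_lt.mp fun h' => h.2 c (Place.ge_one_iff.mpr h')

lemma aeval [IsAlgClosed k] {F : Place k L} {z : L} (h : Dic F z) (P : Polynomial k) (hP : P ≠ 0) :
    Polynomial.aeval z P ≠ 0 ∧ F.ord (Polynomial.aeval z P) = 0 := by
  have h1 := unit_poly F.v F.triv (dic_val h) P hP
  refine ⟨fun h0 => ?_, by simp [Place.ord, h1]⟩
  rw [h0, map_zero] at h1
  exact zero_ne_one h1

lemma form {a b : L} (hb : b ≠ 0) (n : ℕ) (y : L) (hy : y ∈ Submodule.span k {a, b} ^ n) :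
    ∃ P : Polynomial k, y = b ^ n * Polynomial.aeval (a / b) P := by
  induction n generalizing y with
  | zero =>
    rw [pow_zero, Submodule.mem_one] at hy
    obtain ⟨c, rfl⟩ := hy
    exact ⟨Polynomial.C c, by simp⟩
  | succ n ih =>
    rw [pow_succ] at hy
    refine Submodule.mul_induction_on hy (fun x hx w hw => ?_) ?_
    · obtain ⟨P, rfl⟩ := ih x hx
      obtain ⟨α, β, rfl⟩ := Submodule.mem_span_pair.mp hw
      refine ⟨P * (Polynomial.C α * Polynomial.X + Polynomial.C β), ?_⟩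
      simp only [map_mul, map_add, Polynomial.aeval_C, Polynomial.aeval_X, Algebra.smul_def]
      field_simp
      ring
    · rintro _ _ ⟨P, rfl⟩ ⟨Q, rfl⟩
      exact ⟨P + Q, by rw [map_add, mul_add]⟩

end V1

theorem blk_V1 {k : Type} [Field k] [IsAlgClosed k] {p : Nat} [Fact p.Prime] [CharP k p]
    (hp : p ≠ 2) (h : Bas k p) : RV1 k where
  place2 := by
    intro L _ _ _ V z hd hV hT hz hz'
    refine V1.place (d := 1) (by rw [hd]; norm_num) V hV hT (z := ![z])
      (V1.hz_one _ (V1.const_val V hV) fun c => ?_)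
    apply le_antisymm ((V.valuation_le_one_iff _).mpr (V.sub_mem hz (hV c)))
    exact not_lt.mp fun h' => hz' c (V.mem_nonunits_iff.mpr h')
  place1 := by
    intro K _ _ _ V hd hV hT
    exact V1.place (d := 0) (by rw [hd]; norm_num) V hV hT (z := ![])
      (V1.hz_zero _ (V1.const_val V hV) _)
  res1 := by
    intro K _ _ P hd f hf
    by_contra hc
    push Not at hc
    obtain ⟨π, h0, h1⟩ := P.exists_ord_eq_one
    have hi := V1.indep_cons (k := k) P.v h0 (Place.ge_one_iff.mp (Place.ge_of_le h1.ge))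
      (V1.hz_one P.v P.triv (V1.dic_val ⟨hf, hc⟩))
    have := hi.cardinalMk_le_trdeg
    rw [hd] at this
    simp at this
  aeval := fun hz P hP => V1.aeval hz P hP
  hom := by
    intro L _ _ F a b hb hz n y hy hy0
    obtain ⟨P, rfl⟩ := V1.form hb n y hy
    have hP : P ≠ 0 := by rintro rfl; simp at hy0
    obtain ⟨h1, h2⟩ := V1.aeval hz P hP
    rw [F.ord_mul (pow_ne_zero n hb) h1, h2, add_zero, Place.ord_pow]

end Pool.Agent.Lib.MP_5f81cf_ag.Full.Res
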