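import Pool.Agent.Lib.MP_5f81cf_ag.ResBlue

/-! Finiteness of the places with a prescribed restriction. -/

namespace Pool.Agent.Lib.MP_5f81cf_ag.Full.Res

open Pool.Agent.Lib.MP_e06174_ag Polynomial

namespace V2

variable {k L R : Type} [Field k] [Field L] [Algebra k L] [CommRing R] [IsDomain R] [Algebra k R]

lemma fin_aux [Algebra R L] [IsScalarTower k R L] [Algebra.EssFiniteType k L] {d : ℕ}
    (hR : Algebra.trdeg k R = d) (hL : Algebra.trdeg k L = d) (X : Set (Place k L)) (t : L)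
    (ht : ∀ F ∈ X, 0 ≤ F.ord t)
    (h : ∀ r : R, r ≠ 0 → ∃ m : ℕ, ∀ F ∈ X, algebraMap R L r ≠ 0 ∧
      F.ord (algebraMap R L r) = m * F.ord t) : X.Finite := by
  classical
  by_contra hinf
  obtain ⟨F₁, hF₁⟩ := Set.Infinite.nonempty hinf
  have hinj : FaithfulSMul R L := (faithfulSMul_iff_algebraMap_injective R L).2
    ((injective_iff_map_eq_zero _).2 fun r hr => by
      by_contra h0
      obtain ⟨m, hm⟩ := h r h0
      exact (hm F₁ hF₁).1 hr)
  have halg : Algebra.IsAlgebraic R L := by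
    have h1 := trdeg_add_eq k R (A := L)
    rw [hR, hL] at h1
    exact trdeg_eq_zero_iff.1 ((Cardinal.add_nat_inj d).1 (by rw [add_comm, h1, zero_add]))
  let _ := FractionRing.liftAlgebra R L
  have h2 : Algebra.IsAlgebraic (FractionRing R) L :=
    Algebra.IsAlgebraic.extendScalars (R := R) (IsFractionRing.injective R _)
  have h3 : Algebra.EssFiniteType (FractionRing R) L := Algebra.EssFiniteType.of_comp k _ L
  have h4 : Module.Finite (FractionRing R) L := Algebra.finite_of_essFiniteType_of_isAlgebraic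
  obtain ⟨T, hT, hc⟩ := Set.Infinite.exists_subset_card_eq hinf
    (Module.finrank (FractionRing R) L + 1)
  choose e he0 he1 he2 using fun F : T => Place.approx F.1 T 0 1
  have h5 : LinearIndependent R e := by
    refine Fintype.linearIndependent_iff.2 fun c hc0 => ?_
    by_contra hne
    push Not at hne
    have h6 : ∀ i : T, ∃ m : ℕ, c i ≠ 0 → ∀ F ∈ X, algebraMap R L (c i) ≠ 0 ∧
        F.ord (algebraMap R L (c i)) = m * F.ord t := fun i => by
      by_cases hi : c i = 0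
      · exact ⟨0, fun h => (h hi).elim⟩
      · exact (h _ hi).imp fun _ hm _ => hm
    choose m hm using h6
    obtain ⟨i, hi, hmin⟩ := exists_minimalFor_of_wellFoundedLT (fun i => c i ≠ 0) m hne
    have hX : i.1 ∈ X := hT i.2
    obtain ⟨h7, h8⟩ := hm i hi _ hX
    rw [← Finset.add_sum_erase _ _ (Finset.mem_univ i)] at hc0
    have h9 : i.1.Ge (m i * i.1.ord t + 1) (∑ j ∈ Finset.univ.erase i, c j • e j) := by
      refine Place.Ge.sum fun j hj => ?_
      by_cases hj0 : c j = 0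
      · simp [hj0]
      rw [Algebra.smul_def]
      have h10 : m i ≤ m j := by
        by_contra hlt
        exact hlt (hmin hj0 (not_le.1 hlt).le)
      have h11 := he2 j i.1 i.2 fun hij => (Finset.mem_erase.1 hj).1 (Subtype.ext hij.symm)
      refine (Place.ge_ord _).mul' (Place.ge_ord _) ?_
      rw [(hm j hj0 _ hX).2]
      have h12 := mul_le_mul_of_nonneg_right (Int.ofNat_le.2 h10) (ht _ hX)
      omega
    rw [← neg_eq_iff_add_eq_zero.2 hc0, Algebra.smul_def] at h9
    have h13 := h9.neg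
    rw [neg_neg] at h13
    have h14 := h13.le (mul_ne_zero h7 (he0 i))
    rw [Place.ord_mul _ h7 (he0 i), h8, he1] at h14
    omega
  have h15 := ((LinearIndependent.iff_fractionRing R (FractionRing R)).1 h5).fintype_card_le_finrank
  rw [Fintype.card_coe] at h15
  omega

omit [IsDomain R] in
lemma horner (φ : R →ₐ[k] L) (X : Set (Place k L)) (t : L) (ht0 : t ≠ 0) (ht : ∀ F ∈ X, F.Ge 1 t)
    (h : ∀ r : R, r ≠ 0 → ∀ F ∈ X, φ r ≠ 0 ∧ F.ord (φ r) = 0) (P : R[X]) :
    (∀ F ∈ X, F.Ge 0 (aevalTower φ t P)) ∧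
      (P.coeff 0 = 0 → ∀ F ∈ X, F.Ge 1 (aevalTower φ t P)) ∧
      (P ≠ 0 → ∃ m : ℕ, ∀ F ∈ X, aevalTower φ t P ≠ 0 ∧
        F.ord (aevalTower φ t P) = m * F.ord t) := by
  induction P using Polynomial.recOnHorner with
  | M0 => simp
  | MC P a h0 ha ih =>
    have h1 : ∀ F ∈ X, aevalTower φ t (P + C a) ≠ 0 ∧ F.ord (aevalTower φ t (P + C a)) = 0 :=
      fun F hF => by
        rw [map_add, aevalTower_C, add_comm]
        have h2 := Place.ord_add_of_ge (p := F) (h a ha F hF).1 (y := aevalTower φ t P)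
          (by rw [(h a ha F hF).2, zero_add]; exact ih.2.1 h0 F hF)
        exact ⟨h2.1, h2.2.trans (h a ha F hF).2⟩
    refine ⟨fun F hF => Place.ge_of_le (h1 F hF).2.ge, fun h2 => ?_, fun _ => ⟨0, fun F hF => ?_⟩⟩
    · rw [coeff_add, h0, coeff_C_zero, zero_add] at h2
      exact (ha h2).elim
    · simpa using h1 F hF
  | MX P h0 ih =>
    have h1 : ∀ F ∈ X, F.Ge 1 (aevalTower φ t (P * Polynomial.X)) := fun F hF => by
      rw [map_mul, aevalTower_X]
      exact (ih.1 F hF).mul' (ht F hF) (by simp)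
    refine ⟨fun F hF => (h1 F hF).mono (by simp), fun _ => h1, fun _ => ?_⟩
    obtain ⟨m, hm⟩ := ih.2.2 h0
    refine ⟨m + 1, fun F hF => ?_⟩
    rw [map_mul, aevalTower_X, F.ord_mul (hm F hF).1 ht0, (hm F hF).2]
    exact ⟨mul_ne_zero (hm F hF).1 ht0, by push_cast; ring⟩

lemma fin_poly [Algebra.EssFiniteType k L] {d : ℕ} (hR : Algebra.trdeg k R = d)
    (hL : Algebra.trdeg k L = (d + 1 : ℕ)) (φ : R →ₐ[k] L) (X : Set (Place k L)) (t : L)
    (ht0 : t ≠ 0) (ht : ∀ F ∈ X, F.Ge 1 t)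
    (h : ∀ r : R, r ≠ 0 → ∀ F ∈ X, φ r ≠ 0 ∧ F.ord (φ r) = 0) : X.Finite := by
  let _ : Algebra R[X] L := (aevalTower φ t).toRingHom.toAlgebra
  have h1 : IsScalarTower k R[X] L :=
    IsScalarTower.of_algebraMap_eq fun c => ((aevalTower φ t).commutes c).symm
  refine fin_aux (R := R[X]) ?_ hL X t (fun F hF => le_trans zero_le_one ((ht F hF).le ht0))
    fun r hr => (horner φ X t ht0 ht h r).2.2 hr
  rw [← trdeg_add_eq k R (A := R[X]), hR, Polynomial.trdeg_of_isDomain]
  push_cast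
  rfl

end V2

theorem blk_V2 {k : Type} [Field k] [IsAlgClosed k] {p : Nat} [Fact p.Prime] [CharP k p]
    (hp : p ≠ 2) (h : Bas k p) (h1 : RV1 k) : RV2 k where
  fin2 t z hL ht := V2.fin_poly (R := k[X]) (d := 1) (by simp) (by simpa using hL) (aeval z) _ t ht
    (fun _ hF => hF.1) fun r hr _ hF => h1.aeval hF.2 r hr
  fin1 t hL ht := V2.fin_poly (R := k) (d := 0) trdeg_eq_zero (by simpa using hL)
    (Algebra.ofId _ _) _ t ht (fun _ hF => hF) fun r hr _ _ => ⟨by simpa using hr, by simp⟩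

end Pool.Agent.Lib.MP_5f81cf_ag.Full.Res
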