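import Pool.Agent.Lib.MP_5f81cf_ag.ResBlue
import Pool.Agent.Lib.MP_7fcda1_ag.Plc1

/-! Refinement of valuation rings and compactness. -/

namespace Pool.Agent.Lib.MP_5f81cf_ag.Full.Res

open Pool.Agent.Lib.MP_e06174_ag Filter

namespace W1

variable {k L : Type} [Field k] [Field L] [Algebra k L] {O : Subalgebra k L}
  {W : ValuationSubring L} {f g : L}

lemma mul_nonunit (hf : f ∈ W) (hg : g ∈ W.nonunits) : f * g ∈ W.nonunits := by
  rw [ValuationSubring.mem_nonunits_iff] at hg ⊢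
  rw [map_mul]
  exact (mul_le_of_le_one_left zero_le ((W.valuation_le_one_iff f).2 hf)).trans_lt hg

/-- The graph of the residue map on `O + m_W`. -/
def gr (hO : IsLoc O) (W : ValuationSubring L) (hW : ∀ f ∈ O, f ∈ W) : Subring (L × k) where
  carrier := {z | ∃ m ∈ mx O, z.1 - algebraMap k L z.2 - m ∈ W.nonunits}
  mul_mem' := by
    rintro ⟨f, c⟩ ⟨g, d⟩ ⟨m, hm, h⟩ ⟨n, hn, h'⟩
    have hc := O.algebraMap_mem c
    have hd := O.algebraMap_mem d
    refine ⟨(algebraMap k L c + m) * n + algebraMap k L d * m,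
      add_mem (hO.isMod_mx _ (add_mem hc (mx_le hm)) _ hn) (hO.isMod_mx _ hd _ hm), ?_⟩
    have := add_mem (add_mem (mul_nonunit (hW _ (add_mem hc (mx_le hm))) h')
      (mul_nonunit (hW _ (add_mem hd (mx_le hn))) h)) (mul_mem h h')
    simp only [Prod.fst_mul, Prod.snd_mul, map_mul]
    convert this using 1
    ring
  one_mem' := ⟨0, zero_mem _, by simp⟩
  add_mem' := by
    rintro ⟨f, c⟩ ⟨g, d⟩ ⟨m, hm, h⟩ ⟨n, hn, h'⟩
    refine ⟨m + n, add_mem hm hn, ?_⟩
    have := add_mem h h'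
    simp only [Prod.fst_add, Prod.snd_add, map_add]
    convert this using 1
    ring
  zero_mem' := ⟨0, zero_mem _, by simp⟩
  neg_mem' := by
    rintro ⟨f, c⟩ ⟨m, hm, h⟩
    refine ⟨-m, neg_mem hm, ?_⟩
    have := neg_mem h
    simp only [Prod.fst_neg, Prod.snd_neg, map_neg]
    convert this using 1
    ring

lemma refine [IsAlgClosed k] (W : ValuationSubring L) (hO : IsLoc O) (hW : ∀ f ∈ O, f ∈ W) :
    ∃ V : ValuationSubring L, V ≤ W ∧ Dom V O ∧ ResK k V := by
  obtain ⟨P, hP⟩ := MP_7fcda1_ag.exists_plc_of_hom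
    ((RingHom.fst L k).comp (gr hO W hW).subtype) ((RingHom.snd L k).comp (gr hO W hW).subtype)
    (by
      rintro ⟨⟨f, c⟩, m, hm, h⟩ (h0 : f = 0)
      change c = 0
      by_contra hc
      have hu := hO.un_add (un_const hc) hm
      have h1 : algebraMap k L c + m ∈ W.nonunits := by
        have := neg_mem h
        rw [h0] at this
        convert this using 1
        ring
      exact ((W.mem_nonunits_iff_or).1 h1).elim hu.2.1 fun h2 => h2 (hW _ hu.2.2))
  have h1 : ∀ (f : L) (c : k) (m : L), m ∈ mx O → f - algebraMap k L c - m ∈ W.nonunits →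
      P.To f c := fun f c m hm h => hP ⟨(f, c), m, hm, h⟩
  have h2 : ∀ f : L, P.To f 0 → f ∈ P.V.nonunits := by
    rintro f ⟨hf, h⟩
    exact (P.V.mem_nonunits_iff).2 ((P.ker ⟨f, hf⟩).1 h)
  have h3 : ∀ c : k, P.To (algebraMap k L c) c := fun c => h1 _ c 0 (zero_mem _) (by simp)
  refine ⟨P.V, ValuationSubring.nonunits_le_nonunits.1 fun w hw =>
    h2 w (h1 w 0 0 (zero_mem _) (by simpa using hw)), ⟨fun f hf => ?_, fun f hf =>
    h2 f (h1 f 0 f hf (by simp))⟩, fun c => (h3 c).1, fun f hf => ⟨P.ρ ⟨f, hf⟩, h2 _ ?_⟩⟩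
  · obtain ⟨c, hc⟩ := hO.res f hf
    exact (h1 f c _ hc (by simp)).1
  · have := (show P.To f (P.ρ ⟨f, hf⟩) from ⟨hf, rfl⟩).sub (h3 (P.ρ ⟨f, hf⟩))
    rwa [sub_self] at this

/-- The limit of valuation rings along an ultrafilter. -/
def lim {ι : Type} (U : Ultrafilter ι) (W : ι → ValuationSubring L) : ValuationSubring L where
  carrier := {f | ∀ᶠ i in U, f ∈ W i}
  mul_mem' := fun hf hg => (Eventually.and hf hg).mono fun _ h => mul_mem h.1 h.2
  one_mem' := Eventually.of_forall fun _ => one_mem _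
  add_mem' := fun hf hg => (Eventually.and hf hg).mono fun _ h => add_mem h.1 h.2
  zero_mem' := Eventually.of_forall fun _ => zero_mem _
  neg_mem' := fun hf => Eventually.mono hf fun _ h => neg_mem h
  mem_or_inv_mem' := fun f =>
    Ultrafilter.eventually_or.1 (Eventually.of_forall fun i => (W i).mem_or_inv_mem f)

lemma cover [IsAlgClosed k] (hO : IsLoc O) (Z : ValuationSubring L → Finset L)
    (hZ : ∀ V, Dom V O → ResK k V → ∀ z ∈ Z V, z ∈ V) :
    ∃ C : Finset (ValuationSubring L), (∀ V ∈ C, Dom V O ∧ ResK k V) ∧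
      ∀ W, Dom W O → ∃ V ∈ C, ∀ z ∈ Z V, z ∈ W := by
  classical
  by_contra hcon
  have h1 : ∀ C : Finset {V : ValuationSubring L // Dom V O ∧ ResK k V},
      ∃ W, Dom W O ∧ ∀ V ∈ C, ¬ ∀ z ∈ Z V.1, z ∈ W := by
    intro C
    by_contra h
    refine hcon ⟨C.image Subtype.val, fun V hV => ?_, fun W hW => ?_⟩
    · obtain ⟨V', -, rfl⟩ := Finset.mem_image.1 hV
      exact V'.2
    · by_contra h'
      exact h ⟨W, hW, fun V hV hz => h' ⟨V.1, Finset.mem_image_of_mem _ hV, hz⟩⟩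
  choose W hW hW' using h1
  obtain ⟨U, hU⟩ : ∃ U : Ultrafilter (Finset {V : ValuationSubring L // Dom V O ∧ ResK k V}),
      U.toFilter ≤ atTop := ⟨Ultrafilter.of atTop, Ultrafilter.of_le atTop⟩
  obtain ⟨V, hV, hD, hR⟩ := refine (lim U W) hO
    fun f hf => Eventually.of_forall fun C => (hW C).1 f hf
  have h2 : ∀ᶠ C in U, ∀ z ∈ Z V, z ∈ W C :=
    (eventually_all_finset _).2 fun z hz => hV (hZ V hD hR z hz)
  have h3 : ∀ᶠ C in U,
      ({⟨V, hD, hR⟩} : Finset {V : ValuationSubring L // Dom V O ∧ ResK k V}) ≤ C :=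
    hU (eventually_ge_atTop _)
  obtain ⟨C, h4, h5⟩ := (h2.and h3).exists
  exact hW' C _ (h5 (Finset.mem_singleton_self _)) h4

end W1

theorem blk_W1 {k : Type} [Field k] [IsAlgClosed k] {p : ℕ} [Fact p.Prime] [CharP k p]
    (_hp : p ≠ 2) (_h : Lv1 k p) : RW1 k :=
  ⟨W1.refine, W1.cover⟩

end Pool.Agent.Lib.MP_5f81cf_ag.Full.Res
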