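import Pool.Agent.Lib.MP_5f81cf_ag.ResBlue

/-! Block W2: composition and decomposition of valuations. -/

namespace Pool.Agent.Lib.MP_5f81cf_ag.Full.Res

open Pool.Agent.Lib.MP_e06174_ag

namespace W2

variable {k L K : Type} [Field k] [Field L] [Algebra k L] [Field K] [Algebra k K]
  {F : Place k L} {ρ : L → K}

lemma ge_one_iff_inv (P : Place k K) (x : K) : P.Ge 1 x ↔ x = 0 ∨ ¬ P.Ge 0 x⁻¹ := by
  by_cases hx : x = 0
  · simp [hx]
  · rw [Place.ge_iff hx, Place.ge_iff (inv_ne_zero hx), Place.ord_inv]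
    simp only [hx, false_or]
    omega

lemma res_zero (h : IsRes F ρ) : ρ 0 = 0 := by simpa using h.const 0

lemma res_one (h : IsRes F ρ) : ρ 1 = 1 := by simpa using h.const 1

lemma res_neg (h : IsRes F ρ) {a : L} (ha : F.Ge 0 a) : ρ (-a) = -ρ a := by
  have := h.add a (-a) ha ha.neg
  rw [add_neg_cancel, res_zero h] at this
  exact (neg_eq_of_add_eq_zero_right this.symm).symm

lemma res_sub (h : IsRes F ρ) {a b : L} (ha : F.Ge 0 a) (hb : F.Ge 0 b) : ρ (a - b) = ρ a - ρ b := by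
  rw [sub_eq_add_neg, h.add a (-b) ha hb.neg, res_neg h hb, sub_eq_add_neg]

lemma res_of_ge (h : IsRes F ρ) {a : L} (ha : F.Ge 1 a) : ρ a = 0 :=
  (h.zero a (ha.mono zero_le_one)).2 ha

lemma res_inv (h : IsRes F ρ) {a : L} (ha : F.Ge 0 a) (h1 : ¬ F.Ge 1 a) :
    F.Ge 0 a⁻¹ ∧ ρ a ≠ 0 ∧ ρ a⁻¹ = (ρ a)⁻¹ := by
  rw [ge_one_iff_inv, not_or, not_not] at h1
  have := h.mul a a⁻¹ ha h1.2
  rw [mul_inv_cancel₀ h1.1, res_one h] at this
  exact ⟨h1.2, left_ne_zero_of_mul_eq_one this.symm, eq_inv_of_mul_eq_one_right this.symm⟩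

lemma ge_one_inv (P : Place k K) {x : K} (h : ¬ P.Ge 0 x) : P.Ge 1 x⁻¹ :=
  (ge_one_iff_inv P _).2 (Or.inr (by rwa [inv_inv]))

lemma nonunits_iff (h : IsRes F ρ) {P : Place k K} {V : ValuationSubring L}
    (hV : ∀ f, f ∈ V ↔ F.Ge 0 f ∧ P.Ge 0 (ρ f)) (f : L) : f ∈ V.nonunits ↔ F.Ge 0 f ∧ P.Ge 1 (ρ f) := by
  rw [ValuationSubring.mem_nonunits_iff_or, hV]
  by_cases h1 : F.Ge 1 f
  · refine iff_of_true (((ge_one_iff_inv F f).1 h1).imp_right fun h2 h3 => h2 h3.1) ⟨h1.mono zero_le_one, ?_⟩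
    rw [res_of_ge h h1]
    exact Place.ge_zero _
  have hf : f ≠ 0 := fun e => h1 (e ▸ Place.ge_zero _)
  by_cases h0 : F.Ge 0 f
  · obtain ⟨a, b, c⟩ := res_inv h h0 h1
    rw [ge_one_iff_inv P, c]
    simp only [hf, b, a, h0, false_or, true_and]
  · have h2 := ge_one_inv F h0
    refine iff_of_false (fun h3 => h3.elim hf fun h4 => h4 ⟨h2.mono zero_le_one, ?_⟩) fun h3 => h0 h3.1
    rw [res_of_ge h h2]
    exact Place.ge_zero _

lemma mem_of_ge_one {V : ValuationSubring L} (hV : V ≤ F.O) {f : L} (hf : F.Ge 1 f) : f ∈ V := by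
  rcases (ge_one_iff_inv F f).1 hf with rfl | h
  · exact V.zero_mem
  · exact (V.mem_or_inv_mem f).resolve_right fun h' => h (Place.mem_O.1 (hV h'))

/-- The composite valuation ring. -/
def comp (h : IsRes F ρ) (P : Place k K) : ValuationSubring L where
  carrier := {f | F.Ge 0 f ∧ P.Ge 0 (ρ f)}
  mul_mem' {a b} ha hb := ⟨ha.1.mul' hb.1 le_rfl, by
    rw [h.mul a b ha.1 hb.1]; exact ha.2.mul' hb.2 le_rfl⟩
  one_mem' := ⟨Place.ge_one, by rw [res_one h]; exact Place.ge_one⟩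
  add_mem' {a b} ha hb := ⟨ha.1.add hb.1, by rw [h.add a b ha.1 hb.1]; exact ha.2.add hb.2⟩
  zero_mem' := ⟨Place.ge_zero _, by rw [res_zero h]; exact Place.ge_zero _⟩
  neg_mem' {a} ha := ⟨ha.1.neg, by rw [res_neg h ha.1]; exact ha.2.neg⟩
  mem_or_inv_mem' f := by
    have key : ∀ g, F.Ge 1 g → F.Ge 0 g ∧ P.Ge 0 (ρ g) := fun g hg =>
      ⟨hg.mono zero_le_one, by rw [res_of_ge h hg]; exact Place.ge_zero _⟩
    by_cases h1 : F.Ge 1 f
    · exact Or.inl (key f h1)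
    by_cases h0 : F.Ge 0 f
    · obtain ⟨a, -, c⟩ := res_inv h h0 h1
      by_cases h2 : P.Ge 0 (ρ f)
      · exact Or.inl ⟨h0, h2⟩
      · exact Or.inr ⟨a, by rw [c]; exact (ge_one_inv P h2).mono zero_le_one⟩
    · exact Or.inr (key _ (ge_one_inv F h0))

/-- The image of a valuation ring in the residue field. -/
def img (h : IsRes F ρ) (V : ValuationSubring L) (hV : V ≤ F.O) : ValuationSubring K where
  carrier := {l | ∃ a ∈ V, ρ a = l}
  mul_mem' := by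
    rintro _ _ ⟨a, ha, rfl⟩ ⟨b, hb, rfl⟩
    exact ⟨a * b, V.mul_mem _ _ ha hb, h.mul a b (Place.mem_O.1 (hV ha)) (Place.mem_O.1 (hV hb))⟩
  one_mem' := ⟨1, V.one_mem, res_one h⟩
  add_mem' := by
    rintro _ _ ⟨a, ha, rfl⟩ ⟨b, hb, rfl⟩
    exact ⟨a + b, V.add_mem _ _ ha hb, h.add a b (Place.mem_O.1 (hV ha)) (Place.mem_O.1 (hV hb))⟩
  zero_mem' := ⟨0, V.zero_mem, res_zero h⟩
  neg_mem' := by
    rintro _ ⟨a, ha, rfl⟩
    exact ⟨-a, V.neg_mem _ ha, res_neg h (Place.mem_O.1 (hV ha))⟩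
  mem_or_inv_mem' l := by
    obtain ⟨a, ha, rfl⟩ := h.surj l
    by_cases h1 : F.Ge 1 a
    · exact Or.inl ⟨a, mem_of_ge_one hV h1, rfl⟩
    · exact (V.mem_or_inv_mem a).imp (fun h2 => ⟨a, h2, rfl⟩) fun h2 => ⟨a⁻¹, h2, (res_inv h ha h1).2.2⟩

lemma mem_iff_img (h : IsRes F ρ) (V : ValuationSubring L) (hV : V ≤ F.O) (f : L) :
    f ∈ V ↔ F.Ge 0 f ∧ ρ f ∈ img h V hV := by
  refine ⟨fun hf => ⟨Place.mem_O.1 (hV hf), f, hf, rfl⟩, ?_⟩
  rintro ⟨h0, a, ha, e⟩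
  have ha0 := Place.mem_O.1 (hV ha)
  have h1 : F.Ge 1 (f - a) := (h.zero _ (h0.sub ha0)).1 (by rw [res_sub h h0 ha0, e, sub_self])
  simpa using V.add_mem _ _ (mem_of_ge_one hV h1) ha

lemma decomp (hv : RV1 k) [Algebra.EssFiniteType k K] (V : ValuationSubring L) (h : IsRes F ρ)
    (ht : Algebra.trdeg k K = 1) (hV : V ≤ F.O) (hk : ResK k V) :
    ∃ P : Place k K, ∀ f, f ∈ V ↔ F.Ge 0 f ∧ P.Ge 0 (ρ f) := by
  obtain ⟨P, hP⟩ := hv.place1 (img h V hV) ht (fun c => ⟨_, hk.1 c, h.const c⟩) (by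
    intro e
    have hm : ∀ f, F.Ge 0 f → f ∈ V := fun f hf => (mem_iff_img h V hV f).2 ⟨hf, e ▸ ValuationSubring.mem_top _⟩
    have : Algebra.IsAlgebraic k K := ⟨fun l => by
      obtain ⟨a, ha, rfl⟩ := h.surj l
      obtain ⟨c, hc⟩ := hk.2 a (hm a ha)
      have h1 : F.Ge 1 (a - algebraMap k L c) :=
        (ge_one_iff_inv F _).2 ((V.mem_nonunits_iff_or.1 hc).imp_right fun h2 h3 => h2 (hm _ h3))
      have h2 := res_of_ge h h1
      rw [res_sub h ha (Place.ge_const c), h.const, sub_eq_zero] at h2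
      exact h2 ▸ isAlgebraic_algebraMap c⟩
    rw [trdeg_eq_zero] at ht
    exact zero_ne_one ht)
  exact ⟨P, fun f => by rw [mem_iff_img h V hV, ← hP, Place.mem_O]⟩

end W2

open W2 in
theorem blk_W2 {k : Type} [Field k] [IsAlgClosed k] {p : Nat} [Fact p.Prime] [CharP k p] (_hp : p ≠ 2)
    (h : Lv1 k p) : RW2 k where
  comp {L K} _ _ _ _ {F ρ} P hρ hP := by
    have hV : ∀ f, f ∈ W2.comp hρ P ↔ F.Ge 0 f ∧ P.Ge 0 (ρ f) := fun _ => Iff.rfl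
    refine ⟨W2.comp hρ P, ⟨fun c => ⟨Place.ge_const c, ?_⟩, fun f hf => ?_⟩, fun f hf => Place.mem_O.2 hf.1, hV,
      nonunits_iff hρ hV⟩
    · rw [hρ.const]
      exact Place.ge_const c
    · obtain ⟨c, hc⟩ := hP _ hf.2
      refine ⟨c, (nonunits_iff hρ hV _).2 ⟨hf.1.sub (Place.ge_const c), ?_⟩⟩
      rwa [res_sub hρ hf.1 (Place.ge_const c), hρ.const]
  decomp V hρ ht hV hk := by
    obtain ⟨P, hP⟩ := W2.decomp h.rv.toRV1 V hρ ht hV hk
    exact ⟨P, hP, nonunits_iff hρ hP⟩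
  finv {L} _ _ _ {F f} ht hF hf := by
    obtain ⟨K, _, _, ρ, hρ, _, hK⟩ := h.rk.res ht hF
    by_cases h1 : F.Ge 1 f
    · exact Set.finite_empty.subset fun V hV => hV.2.2 (mem_of_ge_one hV.1 h1)
    refine ((h.rv.fin1 (ρ f)⁻¹ hK (inv_ne_zero (res_inv hρ hf h1).2.1)).biUnion
      (t := fun P => {V : ValuationSubring L | ∀ g, g ∈ V ↔ F.Ge 0 g ∧ P.Ge 0 (ρ g)})
      fun P _ => Set.Subsingleton.finite fun V hV W hW => ?_).subset fun V hV => ?_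
    · exact ValuationSubring.ext _ _ fun g => (hV g).trans (hW g).symm
    · obtain ⟨P, hP⟩ := W2.decomp h.rv.toRV1 V hρ hK hV.1 hV.2.1
      exact Set.mem_biUnion (x := P) (ge_one_inv P fun h2 => hV.2.2 ((hP f).2 ⟨hf, h2⟩)) hP

end Pool.Agent.Lib.MP_5f81cf_ag.Full.Res
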