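import Pool.Agent.Lib.MP_5f81cf_ag.ResA1
import Pool.Agent.Lib.MP_5f81cf_ag.ResA2
import Pool.Agent.Lib.MP_5f81cf_ag.ResV1
import Pool.Agent.Lib.MP_5f81cf_ag.ResV2
import Pool.Agent.Lib.MP_5f81cf_ag.ResK1
import Pool.Agent.Lib.MP_5f81cf_ag.ResK2
import Pool.Agent.Lib.MP_5f81cf_ag.ResW1
import Pool.Agent.Lib.MP_5f81cf_ag.ResW2
import Pool.Agent.Lib.MP_5f81cf_ag.ResH
import Pool.Agent.Lib.MP_5f81cf_ag.ResQ1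
import Pool.Agent.Lib.MP_5f81cf_ag.ResQ2
import Pool.Agent.Lib.MP_5f81cf_ag.ResT
import Pool.Agent.Lib.MP_5f81cf_ag.ResBase
import Pool.Agent.Lib.MP_5f81cf_ag.ResRat
import Pool.Agent.Lib.MP_5f81cf_ag.ResT0
import Pool.Agent.Lib.MP_5f81cf_ag.ResD
import Pool.Agent.Lib.MP_5f81cf_ag.ResR1a
import Pool.Agent.Lib.MP_5f81cf_ag.ResG1
import Pool.Agent.Lib.MP_5f81cf_ag.ResR1b
import Pool.Agent.Lib.MP_5f81cf_ag.ResFree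
import Pool.Agent.Lib.MP_5f81cf_ag.ResRed
import Pool.Agent.Lib.MP_5f81cf_ag.ResProj
import Pool.Agent.Lib.MP_5f81cf_ag.ResOut
import Pool.Agent.Lib.MP_5f81cf_ag.ResR2
import Pool.Agent.Lib.MP_5f81cf_ag.ResE1a
import Pool.Agent.Lib.MP_5f81cf_ag.ResE1b
import Pool.Agent.Lib.MP_5f81cf_ag.ResN
import Pool.Agent.Lib.MP_5f81cf_ag.ResDPend
import Pool.Agent.Lib.MP_5f81cf_ag.ResIb
import Pool.Agent.Lib.MP_5f81cf_ag.ResBS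
import Pool.Agent.Lib.MP_5f81cf_ag.ResE3
import Pool.Agent.Lib.MP_5f81cf_ag.ResM1a
import Pool.Agent.Lib.MP_5f81cf_ag.ResM1b
import Pool.Agent.Lib.MP_5f81cf_ag.ResL1
import Pool.Agent.Lib.MP_5f81cf_ag.ResMon
import Pool.Agent.Lib.MP_5f81cf_ag.ResJR
import Pool.Agent.Lib.MP_5f81cf_ag.ResLU
import Pool.Agent.Lib.MP_5f81cf_ag.ResIa
import Pool.Agent.Lib.MP_5f81cf_ag.ResSel

/-! The surface block. -/

namespace Pool.Agent.Lib.MP_5f81cf_ag.Full.Res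

theorem st_RES {k : Type} [Field k] [IsAlgClosed k] {p : ℕ} [Fact p.Prime] [CharP k p]
    (hp : p ≠ 2) (c1 : Car1 k p) (cj : St_CarJac k p) (c2 : Car2 k p) (p1 : Pl1 k p)
    (p2 : Pl2 k p) (p3 : Pl3 k p) (a1 : Ca1 k) (a2 : Ca2 k) : St_RES k p := by
  have b : Bas k p := ⟨c1, cj, c2, p1, p2, p3, a1, a2⟩
  have ra1 : RA1 k := blk_A1 hp
  have rv1 := blk_V1 hp b
  have rk1 := blk_K1 hp b
  have l1 : Lv1 k p := ⟨b, ⟨ra1, blk_A2 hp ra1⟩, ⟨rv1, blk_V2 hp b rv1⟩, ⟨rk1, blk_K2 hp b rk1⟩⟩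
  have rq1 := blk_Q1 hp l1
  have l2 : Lv2 k p := ⟨l1, ⟨blk_W1 hp l1, blk_W2 hp l1⟩, blk_H hp l1, ⟨rq1, blk_Q2 hp l1 rq1⟩,
    blk_T hp l1, @blk_Base k _ _ p _ _ hp l1, @blk_Rat k _ _ p _ _ hp l1,
    @blk_T0 k _ _ p _ _ hp l1⟩
  have l3 : Lv3 k p := ⟨l2, blk_D hp l2, blk_R1a hp l2, blk_G1 hp l2⟩
  have l4 : Lv4 k p := ⟨l3, blk_R1b hp l3, @blk_Free k _ _ p _ _ hp l3, @blk_Red k _ _ p _ _ hp l3,
    @blk_Proj k _ _ p _ _ hp l3, @blk_Out k _ _ p _ _ hp l3⟩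
  have l5 : Lv5 k p := ⟨l4, blk_R2 hp l4⟩
  have e1 := blk_E1a hp l5
  have l6 : Lv6 k p := ⟨l5, ⟨e1, blk_E1b hp l5 e1⟩, blk_N hp l5, @blk_DPend k _ _ p _ _ hp l5,
    blk_Ib hp l5⟩
  have l7 : Lv7 k p := ⟨l6, @blk_BS k _ _ p _ _ hp l6, blk_E3 hp l6, blk_M1a hp l6⟩
  have l8 : Lv8 k p := ⟨l7, blk_M1b hp l7, blk_L1 hp l7⟩
  have l9 : Lv9 k p := ⟨l8, @blk_Mon k _ _ p _ _ hp l8, @blk_JR k _ _ p _ _ hp l8⟩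
  have l10 : Lv10 k p := ⟨l9, @blk_LU k _ _ p _ _ hp l9⟩
  have l11 : Lv11 k p := ⟨l10, blk_Ia hp l10⟩
  exact @st_RES_of k _ _ p _ _ ⟨l11, @blk_Sel k _ _ p _ _ hp l11⟩

end Pool.Agent.Lib.MP_5f81cf_ag.Full.Res
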