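import Pool.Agent.Lib.MP_5f81cf_ag.FAll2
import Pool.Agent.Lib.MP_5f81cf_ag.FMonoB
import Pool.Agent.Lib.MP_5f81cf_ag.ResMain
import Pool.Agent.Lib.MP_5f81cf_ag.FBridge

/-! The affine theorem in odd characteristic. -/

namespace Pool.Agent.Lib.MP_5f81cf_ag.Full

variable (k : Type) [Field k] [IsAlgClosed k] (p : ℕ) [Fact p.Prime] [CharP k p]

theorem main_all (hp : p ≠ 2) : St_MAIN k := by
  have c1 := car1_all k p
  have cj : St_CarJac k p := @st_CarJac k _ p _ _ c1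
  have rs : St_RES k p := @Res.st_RES k _ _ p _ _ hp c1 (@cj) (car2_all k p) (pl1_all k p)
    (pl2_all k p) (pl3_all k p) ca1 (ca2_all k p)
  exact @main_of_res k _ _ p _ _ hp (@st_M2 k _) (@rs)

end Pool.Agent.Lib.MP_5f81cf_ag.Full
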