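import Pool.Agent.Lib.MP_5f81cf_ag.FBlue6

/-! Auxiliary lemmas for the connectedness block. -/

namespace Pool.Agent.Lib.MP_5f81cf_ag.Full

open Pool.Agent.Lib.MP_e06174_ag

namespace AsE

variable {k : Type} [Field k] {p : ℕ} [Fact p.Prime]

section res
variable {K L : Type} [Field K] [Algebra k K] [Field L] [Algebra k L] {E : Place k K} {ρ : K → L}

theorem res_zero (h : IsRes E ρ) : ρ 0 = 0 := by simpa using h.const 0

theorem res_one (h : IsRes E ρ) : ρ 1 = 1 := by simpa using h.const 1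

theorem res_smul (h : IsRes E ρ) (c : k) {a : K} (ha : E.Ge 0 a) : ρ (c • a) = c • ρ a := by
  rw [Algebra.smul_def, h.mul _ _ (Place.ge_const c) ha, h.const, Algebra.smul_def]

theorem ge_div {s : K} (hs : E.ord s = 1) {n : ℕ} {j : ℤ} {f : K} :
    E.Ge j (f / s ^ n) ↔ E.Ge (j + n) f := by
  have hs0 : s ≠ 0 := by rintro rfl; simp at hs
  rcases eq_or_ne f 0 with rfl | hf
  · simp
  rw [Place.ge_iff hf, Place.ge_iff (div_ne_zero hf (pow_ne_zero _ hs0)),
    E.ord_div hf (pow_ne_zero _ hs0), E.ord_pow, hs]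
  omega

variable {d : ℕ}

theorem cge0 {x : Fin d → K} {n : ℤ} {f : K} : CGe x E 0 n f ↔ E.Ge n f := by simp [CGe]

theorem cge_mul {x : Fin d → K} {m m' : ℕ} {n n' : ℤ} {f g : K} (hf : CGe x E m n f)
    (hg : CGe x E m' n' g) : CGe x E (m + m') (n + n') (f * g) :=
  Place.Ge.mul' hf hg (by push_cast; linarith)

theorem cge_mono {x : Fin d → K} {m : ℕ} {n n' : ℤ} {f : K} (hf : CGe x E m n f) (h : n' ≤ n) :
    CGe x E m n' f := Place.Ge.mono hf (by linarith)

theorem cge_ord (x : Fin d → K) (m : ℕ) (f : K) : CGe x E m (E.ord f - m * lam k x E) f :=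
  Place.ge_of_le (by linarith)

theorem lc_zero {x : Fin (d + 1) → K} {t : K} {z : Fin d → K} (h : IsRes E ρ) (m : ℕ) (n : ℤ) :
    lc k x ρ t z m n 0 = 0 := by simp [lc, res_zero h]

theorem lc00 {x : Fin (d + 1) → K} {t : K} {z : Fin d → K} (f : K) :
    lc k x ρ t z 0 0 f = ρ f := by simp [lc]

theorem lc_ne (p3 : Pl3 k p) {x : Fin (d + 1) → K} {t : K} {z : Fin d → K} (hx : IsPB p x)
    (ha : Adapt p E ρ t z) {m : ℕ} {n : ℤ} {f : K} (hf : f ≠ 0)
    (hn : n = E.ord f - m * lam k x E) : CGe x E m n f ∧ lc k x ρ t z m n f ≠ 0 := by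
  subst hn
  refine ⟨cge_ord x m f, fun h => ?_⟩
  have := ((p3.lc_eq_zero hx ha (cge_ord x m f)).mp h).le hf
  linarith

theorem lc_pow (p3 : Pl3 k p) {x : Fin (d + 1) → K} {t : K} {z : Fin d → K} (hx : IsPB p x)
    (ha : Adapt p E ρ t z) {m : ℕ} {n : ℤ} {f : K} (hf : CGe x E m n f) (a : ℕ) :
    CGe x E (a * m) (a * n) (f ^ a) ∧
      lc k x ρ t z (a * m) (a * n) (f ^ a) = lc k x ρ t z m n f ^ a := by
  induction a with
  | zero =>
    simp only [zero_mul, pow_zero, Nat.cast_zero]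
    exact ⟨cge0.mpr Place.ge_one, by rw [lc00, res_one ha.res]⟩
  | succ a ih =>
    have e1 : (a + 1) * m = a * m + m := by ring
    have e2 : ((a + 1 : ℕ) : ℤ) * n = a * n + n := by push_cast; ring
    rw [e1, e2, pow_succ, pow_succ]
    exact ⟨cge_mul ih.1 hf, by rw [p3.lc_mul hx ha ih.1 hf, ih.2]⟩

end res

section centre
variable {T L : Type} [CommRing T] [Field L] [Algebra k L] [Algebra T L] {E : Place k L}
  {y : Ideal T}

theorem ord_unit (h : HasCentre E y) {b : T} (hb : b ∉ y) :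
    algebraMap T L b ≠ 0 ∧ E.ord (algebraMap T L b) = 0 := by
  have h1 := (h b).1
  have h2 := Place.not_ge_iff.mp (fun h' => hb ((h b).2.mpr h'))
  exact ⟨h2.1, le_antisymm (by omega) (h1.le h2.1)⟩

theorem ge_of_mul (h : HasCentre E y) {b : T} (hb : b ∉ y) {f : L} {n : ℤ}
    (hf : E.Ge n (f * algebraMap T L b)) : E.Ge n f := by
  obtain ⟨h0, h1⟩ := ord_unit h hb
  rcases eq_or_ne f 0 with rfl | hf0
  · simp
  have := hf.le (mul_ne_zero hf0 h0)
  rw [E.ord_mul hf0 h0, h1] at this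
  exact Place.ge_of_le (by omega)

theorem ge_of_mem_pow (h : HasCentre E y) (l : ℕ) : ∀ a ∈ y ^ l, E.Ge l (algebraMap T L a) := by
  induction l with
  | zero => intro a _; simpa using (h a).1
  | succ l ih =>
    intro a ha
    rw [pow_succ] at ha
    refine Submodule.mul_induction_on ha (fun b hb c hc => ?_) (fun b c hb hc => ?_)
    · rw [map_mul]
      exact (ih b hb).mul' ((h c).2.mp hc) (by push_cast; linarith)
    · rw [map_add]
      exact hb.add hc

theorem exists_pos [IsDomain T] [IsFractionRing T L] (h : HasCentre E y) :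
    ∃ τ : T, τ ≠ 0 ∧ 0 < E.ord (algebraMap T L τ) := by
  obtain ⟨π, h0, hπ⟩ := E.exists_ord_eq_one
  obtain ⟨a, b, hb, rfl⟩ := IsFractionRing.div_surjective (A := T) π
  have ha : algebraMap T L a ≠ 0 := fun h => h0 (by simp [h])
  have hb' : algebraMap T L b ≠ 0 := fun h => h0 (by simp [h])
  rw [E.ord_div ha hb'] at hπ
  have := (h b).1.le hb'
  exact ⟨a, fun h => ha (by simp [h]), by omega⟩

end centre

theorem const_mod [IsAlgClosed k] {T : Type} [CommRing T] [Algebra k T] [Algebra.FiniteType k T]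
    (y : Ideal T) [y.IsMaximal] (σ : T) : ∃ c : k, σ - algebraMap k T c ∈ y := by
  let _ := Ideal.Quotient.field y
  have : Module.Finite k (T ⧸ y) := finite_of_finite_type_of_isJacobsonRing k (T ⧸ y)
  obtain ⟨c, hc⟩ := (IsAlgClosed.algebraMap_bijective_of_isIntegral (k := k) (K := T ⧸ y)).2
    (Ideal.Quotient.mk y σ)
  refine ⟨c, ?_⟩
  rw [← Ideal.Quotient.eq, ← hc]
  rfl

theorem ess {R K : Type} [CommRing R] [IsDomain R] [Algebra k R] [Algebra.FiniteType k R]
    [Field K] [Algebra k K] [Algebra R K] [IsScalarTower k R K] [IsFractionRing R K] :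
    Algebra.EssFiniteType k K := by
  have : Algebra.EssFiniteType R K := Algebra.EssFiniteType.of_isLocalization K (nonZeroDivisors R)
  exact Algebra.EssFiniteType.comp k R K

theorem div_X (p1 : Pl1 k p) {L : Type} [Field L] [Algebra k L] {E : Place k L}
    {ρ : L → RatFunc k} (h : IsRes E ρ) : IsDivisorial 2 E :=
  p1.div_of_res (d := 1) ![RatFunc.X] h
    ((algebraicIndependent_singleton_iff 0).mpr RatFunc.transcendental_X)

section mods
variable {T L : Type} [CommRing T] [Algebra k T] [Field L] [Algebra k L] [Algebra T L]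
  [IsScalarTower k T L] {u : Fin 2 → L} {E : Place k L} {ρE : L → RatFunc k} {t zE : L}

variable (T) in
/-- leading terms of regular functions -/
def modA (p3 : Pl3 k p) (hu : IsPB p u) (ha : Adapt p E ρE t ![zE]) (n : ℤ) :
    Submodule k (RatFunc k) where
  carrier := {g | ∃ τ : T, E.Ge n (algebraMap T L τ) ∧
    lc k u ρE t ![zE] 0 n (algebraMap T L τ) = g}
  zero_mem' := ⟨0, by simp, by rw [map_zero, lc_zero ha.res]⟩
  add_mem' := by
    rintro _ _ ⟨a, ha1, rfl⟩ ⟨b, hb1, rfl⟩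
    exact ⟨a + b, by rw [map_add]; exact ha1.add hb1,
      by rw [map_add, p3.lc_add hu ha (cge0.mpr ha1) (cge0.mpr hb1)]⟩
  smul_mem' := by
    rintro c _ ⟨a, ha1, rfl⟩
    have e : algebraMap T L (c • a) = c • algebraMap T L a := by
      rw [Algebra.smul_def, map_mul, ← IsScalarTower.algebraMap_apply, Algebra.smul_def]
    exact ⟨c • a, by rw [e]; exact ha1.smul c, by rw [e, p3.lc_smul hu ha c (cge0.mpr ha1)]⟩

omit [Algebra k T] [Algebra T L] [IsScalarTower k T L] in
/-- leading terms of the system, filtered by a second place -/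
def modU {K : Type} [Field K] [Algebra k K] (p3 : Pl3 k p) (hu : IsPB p u)
    (ha : Adapt p E ρE t ![zE]) {S : Place k K} {ρ : K → L} {s : K} (hr : IsRes S ρ)
    (hs : S.ord s = 1) {V : ℕ → Submodule k K} (hV : ∀ (n : ℕ) f, f ∈ V n → S.Ge n f)
    (x : Fin 3 → K) (w : Place k K) (m : ℕ) (j n : ℤ) : Submodule k (RatFunc k) where
  carrier := {g | ∃ f ∈ V m, CGe x w m j f ∧ CGe u E m n (ρ (f / s ^ m)) ∧
    lc k u ρE t ![zE] m n (ρ (f / s ^ m)) = g}
  zero_mem' := ⟨0, (V m).zero_mem, Place.ge_zero _, by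
    rw [zero_div, res_zero hr]; exact Place.ge_zero _, by
    rw [zero_div, res_zero hr, lc_zero ha.res]⟩
  add_mem' := by
    rintro _ _ ⟨a, ha0, ha1, ha2, rfl⟩ ⟨b, hb0, hb1, hb2, rfl⟩
    have e : ρ ((a + b) / s ^ m) = ρ (a / s ^ m) + ρ (b / s ^ m) := by
      rw [add_div, hr.add _ _ ((ge_div hs).mpr (by simpa using hV m a ha0))
        ((ge_div hs).mpr (by simpa using hV m b hb0))]
    exact ⟨a + b, (V m).add_mem ha0 hb0, Place.Ge.add ha1 hb1, by rw [e]; exact Place.Ge.add ha2 hb2,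
      by rw [e, p3.lc_add hu ha ha2 hb2]⟩
  smul_mem' := by
    rintro c _ ⟨a, ha0, ha1, ha2, rfl⟩
    have e : ρ ((c • a) / s ^ m) = c • ρ (a / s ^ m) := by
      rw [smul_div_assoc, res_smul hr c ((ge_div hs).mpr (by simpa using hV m a ha0))]
    exact ⟨c • a, (V m).smul_mem c ha0, Place.Ge.smul ha1 c, by rw [e]; exact Place.Ge.smul ha2 c,
      by rw [e, p3.lc_smul hu ha c ha2]⟩

end mods

end AsE

end Pool.Agent.Lib.MP_5f81cf_ag.Full
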