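import Pool.Agent.Lib.MP_5f81cf_ag.Val

/-! Orders of top forms in terms of Jacobians. -/

namespace Pool.Agent.Lib.MP_5f81cf_ag

open Pool.Agent.Lib.MP_e06174_ag

variable {k K K' : Type} [Field k] [Field K] [Algebra k K] [Field K'] [Algebra k K']
  [Algebra K' K] [IsScalarTower k K' K] (D : Fin 3 → Derivation k K K)

/-- The order along `E` of a rational top form: the largest `m` such that the form is a sum of
forms `f da₁ ∧ ⋯ ∧ daₙ` with `f` of order at least `m` and all `aᵢ` regular along `E`. -/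
noncomputable def formOrd (n : ℕ) (E : Place k K) (ω : ⋀[K]^n Ω[K⁄k]) : ℤ :=
  sSup {m : ℤ | ω ∈ AddSubgroup.closure {η | ∃ (f : K) (a : Fin n → K),
    E.Ge m f ∧ (∀ i, E.Ge 0 (a i)) ∧
      η = f • exteriorPower.ιMulti K n fun i => KaehlerDifferential.D k K (a i)}}

lemma IsPlt.out {n : ℕ} {R : Type} [CommRing R] [Algebra R K] {Δ : Place k K →₀ ℚ}
    (hΔ : IsPlt n R Δ) :
  (∀ E, 0 ≤ Δ E ∧ Δ E ≤ 1) ∧
  (∀ E, Δ E ≠ 0 → ∃ q : Ideal R, HasCentre E q ∧ q.height = 1) ∧
  ∃ (ω : ⋀[K]^n Ω[K⁄k]) (N : ℕ), ω ≠ 0 ∧ 0 < N ∧ ∀ m : Ideal R, m.IsMaximal → ∃ h : K, h ≠ 0 ∧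
    ∀ (E : Place k K) (q : Ideal R), HasCentre E q → q ≤ m →
      (q.height = 1 → (E.ord h : ℚ) = N * (formOrd n E ω + Δ E)) ∧
      (2 ≤ q.height → IsDivisorial n E → -1 < (formOrd n E ω : ℚ) - E.ord h / N) := hΔ

/-- The Jacobian of three functions. -/
def Jac (a : Fin 3 → K) : K := det3 (grad D (a 0)) (grad D (a 1)) (grad D (a 2))

/-- The top form `da₀ ∧ da₁ ∧ da₂`. -/
noncomputable abbrev vol (k : Type) [Field k] {K' : Type} [Field K'] [Algebra k K']
    (a : Fin 3 → K') : ⋀[K']^3 Ω[K'⁄k] :=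
  exteriorPower.ιMulti K' 3 fun i => KaehlerDifferential.D k K' (a i)

variable (K') in
lemma exists_phi : ∃ φ : ⋀[K']^3 Ω[K'⁄k] →ₗ[K'] K,
    ∀ a : Fin 3 → K', φ (vol k a) = Jac D fun i => algebraMap K' K (a i) := by
  let l : Ω[K'⁄k] →ₗ[K'] (Fin 3 → K) :=
    LinearMap.pi fun i => ((D i).compAlgebraMap K').liftKaehlerDifferential
  let d : (Fin 3 → K) [⋀^Fin 3]→ₗ[K'] K :=
    { (Matrix.detRowAlternating (n := Fin 3) (R := K)).toMultilinearMap.restrictScalars K' with
      map_eq_zero_of_eq' := fun v i j h hij =>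
        (Matrix.detRowAlternating (n := Fin 3) (R := K)).map_eq_zero_of_eq v h hij }
  refine ⟨exteriorPower.alternatingMapLinearEquiv (d.compLinearMap l), fun a => ?_⟩
  rw [exteriorPower.alternatingMapLinearEquiv_apply_ιMulti]
  change Matrix.det (Matrix.of fun i => l (KaehlerDifferential.D k K' (a i))) = _
  rw [Matrix.det_fin_three]
  simp only [Jac, det3, grad, l, Matrix.of_apply, LinearMap.pi_apply,
    Derivation.liftKaehlerDifferential_comp_D, Derivation.compAlgebraMap_apply]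
  ring

variable {D}

lemma exists_smul_vol [Algebra.IsSeparable K' K] {x : Fin 3 → K}
    (hD : ∀ (d : Derivation k K K) (g : K), d g = ∑ i, D i g * d (x i)) {r : Fin 3 → K'}
    (hr : Jac D (fun i => algebraMap K' K (r i)) ≠ 0) (ω : ⋀[K']^3 Ω[K'⁄k]) :
    ∃ f : K', ω = f • vol k r := by
  have hspan : Submodule.span K' (Set.range fun i => KaehlerDifferential.D k K' (r i)) = ⊤ := by
    by_contra hne
    obtain ⟨l, hl0, hl⟩ := Submodule.exists_le_ker_of_lt_top _ (lt_top_iff_ne_top.2 hne)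
    have := Algebra.FormallyEtale.of_isSeparable K' K
    have h := KaehlerDifferential.isBaseChange_of_formallyEtale k K' K
    let d := (h.lift (Algebra.linearMap K' K ∘ₗ l)).compDer (KaehlerDifferential.D k K)
    have hd : ∀ a, d (algebraMap K' K a) = algebraMap K' K (l (KaehlerDifferential.D k K' a)) := by
      intro a
      have h1 := h.lift_eq (Algebra.linearMap K' K ∘ₗ l) (KaehlerDifferential.D k K' a)
      rw [KaehlerDifferential.map_D] at h1
      exact h1
    have h0 : ∀ j, ∑ i, D i (algebraMap K' K (r j)) * d (x i) = 0 := fun j => by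
      rw [← hD, hd, LinearMap.mem_ker.1 (hl (Submodule.subset_span ⟨j, rfl⟩)), map_zero]
    have a := h0 0
    have b := h0 1
    have c := h0 2
    simp only [Fin.sum_univ_three] at a b c
    simp only [Jac, det3, grad] at hr
    set a0 := D 0 (algebraMap K' K (r 0))
    set a1 := D 1 (algebraMap K' K (r 0))
    set a2 := D 2 (algebraMap K' K (r 0))
    set b0 := D 0 (algebraMap K' K (r 1))
    set b1 := D 1 (algebraMap K' K (r 1))
    set b2 := D 2 (algebraMap K' K (r 1))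
    set c0 := D 0 (algebraMap K' K (r 2))
    set c1 := D 1 (algebraMap K' K (r 2))
    set c2 := D 2 (algebraMap K' K (r 2))
    have v0 : d (x 0) = 0 := (mul_eq_zero.1 (by
      linear_combination (b1 * c2 - b2 * c1) * a - (a1 * c2 - a2 * c1) * b +
        (a1 * b2 - a2 * b1) * c)).resolve_left hr
    have v1 : d (x 1) = 0 := (mul_eq_zero.1 (by
      linear_combination -(b0 * c2 - b2 * c0) * a + (a0 * c2 - a2 * c0) * b -
        (a0 * b2 - a2 * b0) * c)).resolve_left hr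
    have v2 : d (x 2) = 0 := (mul_eq_zero.1 (by
      linear_combination (b0 * c1 - b1 * c0) * a - (a0 * c1 - a1 * c0) * b +
        (a0 * b1 - a1 * b0) * c)).resolve_left hr
    refine hl0 (LinearMap.ker_eq_top.1 (eq_top_iff.2 ?_))
    rw [← KaehlerDifferential.span_range_derivation, Submodule.span_le]
    rintro _ ⟨g, rfl⟩
    have := hD d (algebraMap K' K g)
    rw [hd, Fin.sum_univ_three, v0, v1, v2] at this
    simpa using this
  have : Module.Finite K' Ω[K'⁄k] := ⟨hspan ▸ Submodule.fg_span (Set.finite_range _)⟩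
  have h1 : Module.finrank K' Ω[K'⁄k] ≤ 3 := by
    rw [← finrank_top, ← hspan]
    exact (finrank_range_le_card _).trans (by simp)
  have h2 : Module.finrank K' (⋀[K']^3 Ω[K'⁄k]) ≤ 1 := by
    rw [exteriorPower.finrank_eq]
    exact (Nat.choose_le_choose 3 h1).trans (by simp)
  obtain ⟨v, hv⟩ := finrank_le_one_iff.1 h2
  obtain ⟨φ, hφ⟩ := exists_phi K' D
  obtain ⟨c, hc⟩ := hv (vol k r)
  obtain ⟨c', rfl⟩ := hv ω
  have hc0 : c ≠ 0 := by
    rintro rfl
    exact hr (by rw [← hφ, ← hc]; simp)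
  exact ⟨c' / c, by rw [← hc, smul_smul, div_mul_cancel₀ _ hc0]⟩

lemma formOrd_bounds {F : Place k K} {E : Place k K'} {e : ℕ}
    (h : F.Over (IsScalarTower.toAlgHom k K' K) E e) {φ : ⋀[K']^3 Ω[K'⁄k] →ₗ[K'] K}
    (hφ : ∀ a : Fin 3 → K', φ (vol k a) = Jac D fun i => algebraMap K' K (a i))
    {ω : ⋀[K']^3 Ω[K'⁄k]} (hj : φ ω ≠ 0) {ν : ℤ}
    (hν : ∀ a : Fin 3 → K', (∀ i, E.Ge 0 (a i)) → F.Ge ν (Jac D fun i => algebraMap K' K (a i)))
    {f : K'} {r : Fin 3 → K'} (hr : ∀ i, E.Ge 0 (r i)) (hω : ω = f • vol k r) :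
    E.ord f ≤ formOrd 3 E ω ∧ e * formOrd 3 E ω + ν ≤ F.ord (φ ω) := by
  let S : Set ℤ := {m : ℤ | ω ∈ AddSubgroup.closure {η | ∃ (f : K') (a : Fin 3 → K'),
    E.Ge m f ∧ (∀ i, E.Ge 0 (a i)) ∧ η = f • vol k a}}
  have h1 : E.ord f ∈ S := AddSubgroup.subset_closure ⟨f, r, Place.ge_ord f, hr, hω⟩
  have h2 : ∀ m ∈ S, e * m + ν ≤ F.ord (φ ω) := by
    intro m hm
    refine Place.Ge.le ?_ hj
    simp only [S, Set.mem_ofPred_eq] at hm
    clear hj hω h1
    clear_value S
    clear S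
    induction hm using AddSubgroup.closure_induction with
    | mem η hη =>
      obtain ⟨f, a, h1, h2, rfl⟩ := hη
      rw [map_smul, hφ, Algebra.smul_def]
      exact ((h.ge_iff m f).2 h1).mul (hν a h2)
    | zero => simp
    | add _ _ _ _ h1 h2 => rw [map_add]; exact h1.add h2
    | neg _ _ h1 => rw [map_neg]; exact h1.neg
  have he : (1 : ℤ) ≤ e := by exact_mod_cast h.1
  have h3 : BddAbove S := ⟨|F.ord (φ ω) - ν|, fun m hm => by
    have := h2 m hm
    have := le_abs_self (F.ord (φ ω) - ν)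
    have := abs_nonneg (F.ord (φ ω) - ν)
    nlinarith⟩
  exact ⟨le_csSup h3 h1, h2 _ (Int.csSup_mem ⟨_, h1⟩ h3)⟩

end Pool.Agent.Lib.MP_5f81cf_ag
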