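import Pool.Agent.Lib.MP_5f81cf_ag.FDefs
import Pool.Agent.Lib.MP_5f81cf_ag.Form

/-! Statements of the basic blocks of the full proof. -/

namespace Pool.Agent.Lib.MP_5f81cf_ag.Full

open Pool.Agent.Lib.MP_e06174_ag

variable (k : Type) [Field k] (p : ℕ) [Fact p.Prime]

/-- Formal properties of `p`-bases and of the Cartier operator. -/
structure Car1 : Prop where
  car_sum : ∀ {K : Type} [Field K] [Algebra k K] {d : ℕ} {x : Fin d → K}, IsPB p x →
    ∀ c : (Fin d → Fin p) → K, car p x (∑ α, c α ^ p * pmon p x α) = c (ptop p d)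
  car_add : ∀ {K : Type} [Field K] [Algebra k K] {d : ℕ} (x : Fin d → K) (f g : K),
    car p x (f + g) = car p x f + car p x g
  car_pow_mul : ∀ {K : Type} [Field K] [Algebra k K] {d : ℕ} (x : Fin d → K) (g f : K),
    car p x (g ^ p * f) = g * car p x f
  car_pmon : ∀ {K : Type} [Field K] [Algebra k K] {d : ℕ} {x : Fin d → K}, IsPB p x →
    ∀ α, car p x (pmon p x α) = if α = ptop p d then 1 else 0
  pd_x : ∀ {K : Type} [Field K] [Algebra k K] {d : ℕ} {x : Fin d → K}, IsPB p x →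
    ∀ i j, pd k x i (x j) = if j = i then 1 else 0
  der_eq : ∀ {K : Type} [Field K] [Algebra k K] {d : ℕ} {x : Fin d → K}, IsPB p x →
    ∀ (D : Derivation k K K) (g : K), D g = ∑ i, pd k x i g * D (x i)
  car_pd : ∀ {K : Type} [Field K] [Algebra k K] {d : ℕ} {x : Fin d → K}, IsPB p x →
    ∀ i f, car p x (pd k x i f) = 0
  jac_self : ∀ {K : Type} [Field K] [Algebra k K] {d : ℕ} {x : Fin d → K}, IsPB p x →
    jac k x x = 1
  jac_mul : ∀ {K : Type} [Field K] [Algebra k K] {d : ℕ} {x y : Fin d → K}, IsPB p x → IsPB p y →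
    ∀ a, jac k x a = jac k y a * jac k x y
  pb_of_indep : ∀ {K : Type} [Field K] [Algebra k K] {d : ℕ} {x a : Fin d → K}, IsPB p x →
    (∀ c : (Fin d → Fin p) → K, ∑ α, c α ^ p * pmon p a α = 0 → ∀ α, c α = 0) → IsPB p a
  pb_iff : ∀ {K : Type} [Field K] [Algebra k K] {d : ℕ} {x a : Fin d → K}, IsPB p x →
    (IsPB p a ↔ jac k x a ≠ 0)
  algInd : ∀ {K : Type} [Field K] [Algebra k K] {d : ℕ} {x : Fin d → K}, IsPB p x →
    AlgebraicIndependent k x

/-- Invariance of the Cartier operator under a change of `p`-basis. -/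
def St_CarJac : Prop :=
  ∀ {K : Type} [Field K] [Algebra k K] {d : ℕ} {x a : Fin d → K}, IsPB p x → IsPB p a →
    ∀ f, car p x (f * jac k x a) = car p a f * jac k x a

/-- `p`-bases and separable extensions. -/
structure Car2 : Prop where
  pb_of_sep : ∀ {K : Type} [Field K] [Algebra k K] {d : ℕ} {x : Fin d → K},
    AlgebraicIndependent k x →
    Algebra.IsSeparable (IntermediateField.adjoin k (Set.range x)) K → IsPB p x
  exists_pb : ∀ {K : Type} [Field K] [Algebra k K] [Algebra.EssFiniteType k K] {d : ℕ},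
    Algebra.trdeg k K = d → ∃ x : Fin d → K, IsPB p x
  trdeg_eq : ∀ {K : Type} [Field K] [Algebra k K] [Algebra.EssFiniteType k K] {d : ℕ}
    {x : Fin d → K}, IsPB p x → Algebra.trdeg k K = d
  finite : ∀ {K : Type} [Field K] [Algebra k K] [Algebra.EssFiniteType k K] {d : ℕ}
    {x : Fin d → K}, IsPB p x → FiniteDimensional (IntermediateField.adjoin k (Set.range x)) K
  sep : ∀ {K : Type} [Field K] [Algebra k K] [Algebra.EssFiniteType k K] {d : ℕ}
    {x : Fin d → K}, IsPB p x → Algebra.IsSeparable (IntermediateField.adjoin k (Set.range x)) K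
  pb_map : ∀ {K K' : Type} [Field K] [Algebra k K] [Field K'] [Algebra k K'] [Algebra K K']
    [IsScalarTower k K K'] [Algebra.IsSeparable K K'] {d : ℕ} {x : Fin d → K}, IsPB p x →
    IsPB p fun i => algebraMap K K' (x i)
  car_map : ∀ {K K' : Type} [Field K] [Algebra k K] [Field K'] [Algebra k K'] (ι : K →ₐ[k] K')
    {d : ℕ} {x : Fin d → K}, IsPB p x → IsPB p (fun i => ι (x i)) →
    ∀ f, car p (fun i => ι (x i)) (ι f) = ι (car p x f)
  pd_map : ∀ {K K' : Type} [Field K] [Algebra k K] [Field K'] [Algebra k K'] (ι : K →ₐ[k] K')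
    {d : ℕ} {x : Fin d → K}, IsPB p x → IsPB p (fun i => ι (x i)) →
    ∀ j f, pd k (fun i => ι (x i)) j (ι f) = ι (pd k x j f)
  car_trace : ∀ {K K' : Type} [Field K] [Algebra k K] [Field K'] [Algebra k K'] [Algebra K K']
    [IsScalarTower k K K'] [Algebra.IsSeparable K K'] [FiniteDimensional K K'] {d : ℕ}
    {x : Fin d → K}, IsPB p x → ∀ f : K', car p x (Algebra.trace K K' f) =
      Algebra.trace K K' (car p (fun i => algebraMap K K' (x i)) f)
  pb_X : IsPB p ![(RatFunc.X : RatFunc k)]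

/-- Residue fields of divisorial places. -/
structure Pl1 : Prop where
  exists_res : ∀ {K : Type} [Field K] [Algebra k K] (E : Place k K),
    ∃ (L : Type) (_ : Field L) (_ : Algebra k L) (ρ : K → L), IsRes E ρ
  res_ess : ∀ {K L : Type} [Field K] [Algebra k K] [Field L] [Algebra k L]
    [Algebra.EssFiniteType k K] {d : ℕ} {E : Place k K} {ρ : K → L},
    Algebra.trdeg k K = (d + 1 : ℕ) → IsRes E ρ → IsDivisorial (d + 1) E →
    Algebra.EssFiniteType k L ∧ Algebra.trdeg k L = d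
  div_of_res : ∀ {K L : Type} [Field K] [Algebra k K] [Field L] [Algebra k L] {d : ℕ}
    {E : Place k K} {ρ : K → L} (a : Fin d → L), IsRes E ρ → AlgebraicIndependent k a →
    IsDivisorial (d + 1) E
  exists_adapt : ∀ {K L : Type} [Field K] [Algebra k K] [Field L] [Algebra k L]
    [Algebra.EssFiniteType k K] {d : ℕ} {x : Fin (d + 1) → K} {E : Place k K} {ρ : K → L},
    IsPB p x → IsRes E ρ → IsDivisorial (d + 1) E → ∃ (t : K) (z : Fin d → K), Adapt p E ρ t z

/-- Adapted frames. -/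
structure Pl2 : Prop where
  adapt_pb : ∀ {K L : Type} [Field K] [Algebra k K] [Field L] [Algebra k L] {d : ℕ}
    {x : Fin (d + 1) → K} {E : Place k K} {ρ : K → L} {t : K} {z : Fin d → K},
    IsPB p x → Adapt p E ρ t z → IsPB p (Fin.cons t z : Fin (d + 1) → K)
  adapt_coef : ∀ {K L : Type} [Field K] [Algebra k K] [Field L] [Algebra k L] {d : ℕ}
    {E : Place k K} {ρ : K → L} {t : K} {z : Fin d → K}, Adapt p E ρ t z →
    ∀ (c : (Fin (d + 1) → Fin p) → K) (n : ℤ),
      E.Ge n (∑ α, c α ^ p * pmon p (Fin.cons t z : Fin (d + 1) → K) α) ↔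
        ∀ α, E.Ge (n - (α 0 : ℕ)) (c α ^ p)
  pd_ge : ∀ {K L : Type} [Field K] [Algebra k K] [Field L] [Algebra k L] {d : ℕ}
    {x : Fin (d + 1) → K} {E : Place k K} {ρ : K → L} {t : K} {z : Fin d → K},
    IsPB p x → Adapt p E ρ t z → ∀ (n : ℤ) (f : K), E.Ge n f →
      E.Ge n (t * pd k (Fin.cons t z : Fin (d + 1) → K) 0 f) ∧
      (∀ i : Fin d, E.Ge n (pd k (Fin.cons t z : Fin (d + 1) → K) i.succ f)) ∧
      (n = 0 → E.Ge 0 (pd k (Fin.cons t z : Fin (d + 1) → K) 0 f) ∧ ∀ i : Fin d,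
        ρ (pd k (Fin.cons t z : Fin (d + 1) → K) i.succ f) = pd k (fun j => ρ (z j)) i (ρ f))
  lam_eq : ∀ {K L : Type} [Field K] [Algebra k K] [Field L] [Algebra k L] {d : ℕ}
    {x : Fin (d + 1) → K} {E : Place k K} {ρ : K → L} {t : K} {z : Fin d → K},
    IsPB p x → Adapt p E ρ t z → lam k x E = 1 - E.ord (jac k x (Fin.cons t z))
  jac_ge : ∀ {K L : Type} [Field K] [Algebra k K] [Field L] [Algebra k L] {d : ℕ}
    {x : Fin (d + 1) → K} {E : Place k K} {ρ : K → L} {t : K} {z : Fin d → K},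
    IsPB p x → Adapt p E ρ t z → ∀ a : Fin (d + 1) → K,
      ((∀ i, E.Ge 0 (a i)) → E.Ge (1 - lam k x E) (jac k x a)) ∧
      ∀ n : Fin (d + 1) → ℤ, (∀ i, E.Ge (n i) (a i)) → E.Ge (∑ i, n i - lam k x E) (jac k x a)
  lam_change : ∀ {K L : Type} [Field K] [Algebra k K] [Field L] [Algebra k L] {d : ℕ}
    {x y : Fin (d + 1) → K} {E : Place k K} {ρ : K → L} {t : K} {z : Fin d → K},
    IsPB p x → IsPB p y → Adapt p E ρ t z → lam k y E = lam k x E + E.ord (jac k x y)
  res_jac : ∀ {K L : Type} [Field K] [Algebra k K] [Field L] [Algebra k L] {d : ℕ}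
    {x : Fin (d + 1) → K} {E : Place k K} {ρ : K → L} {t : K} {z : Fin d → K},
    IsPB p x → Adapt p E ρ t z → ∀ a : Fin d → K, (∀ i, E.Ge 0 (a i)) →
      E.Ge 0 (jac k (Fin.cons t z : Fin (d + 1) → K) (Fin.cons t a)) ∧
      ρ (jac k (Fin.cons t z : Fin (d + 1) → K) (Fin.cons t a)) =
        jac k (fun i => ρ (z i)) fun i => ρ (a i)
  lam_X : ∀ P : Place k (RatFunc k), lam k ![(RatFunc.X : RatFunc k)] P = lam1 P

/-- The Cartier operator along a place, and leading coefficients. -/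
structure Pl3 : Prop where
  car_cge : ∀ {K L : Type} [Field K] [Algebra k K] [Field L] [Algebra k L] {d : ℕ}
    {x : Fin (d + 1) → K} {E : Place k K} {ρ : K → L} {t : K} {z : Fin d → K},
    IsPB p x → Adapt p E ρ t z → ∀ {m m' : ℕ} {n n' : ℤ} {f : K}, m' + 1 = p * (m + 1) →
      p * (n - 1) < n' → CGe x E m' n' f → CGe x E m n (car p x f)
  car_exact : ∀ {K L : Type} [Field K] [Algebra k K] [Field L] [Algebra k L] {d : ℕ}
    {x : Fin (d + 1) → K} {E : Place k K} {ρ : K → L} {t : K} {z : Fin d → K},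
    IsPB p x → Adapt p E ρ t z → ∀ {m m' : ℕ} {n : ℤ} {f : K}, m' + 1 = p * (m + 1) →
      ¬ CGe x E m' (p * n + 1) f → ∃ b : K, E.Ge 0 b ∧ ¬ CGe x E m (n + 1) (car p x (b * f))
  lc_add : ∀ {K L : Type} [Field K] [Algebra k K] [Field L] [Algebra k L] {d : ℕ}
    {x : Fin (d + 1) → K} {E : Place k K} {ρ : K → L} {t : K} {z : Fin d → K},
    IsPB p x → Adapt p E ρ t z → ∀ {m : ℕ} {n : ℤ} {f g : K}, CGe x E m n f → CGe x E m n g →
      lc k x ρ t z m n (f + g) = lc k x ρ t z m n f + lc k x ρ t z m n g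
  lc_smul : ∀ {K L : Type} [Field K] [Algebra k K] [Field L] [Algebra k L] {d : ℕ}
    {x : Fin (d + 1) → K} {E : Place k K} {ρ : K → L} {t : K} {z : Fin d → K},
    IsPB p x → Adapt p E ρ t z → ∀ {m : ℕ} {n : ℤ} {f : K} (c : k), CGe x E m n f →
      lc k x ρ t z m n (c • f) = c • lc k x ρ t z m n f
  lc_mul : ∀ {K L : Type} [Field K] [Algebra k K] [Field L] [Algebra k L] {d : ℕ}
    {x : Fin (d + 1) → K} {E : Place k K} {ρ : K → L} {t : K} {z : Fin d → K},
    IsPB p x → Adapt p E ρ t z → ∀ {m m' : ℕ} {n n' : ℤ} {f g : K}, CGe x E m n f →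
      CGe x E m' n' g →
      lc k x ρ t z (m + m') (n + n') (f * g) = lc k x ρ t z m n f * lc k x ρ t z m' n' g
  lc_eq_zero : ∀ {K L : Type} [Field K] [Algebra k K] [Field L] [Algebra k L] {d : ℕ}
    {x : Fin (d + 1) → K} {E : Place k K} {ρ : K → L} {t : K} {z : Fin d → K},
    IsPB p x → Adapt p E ρ t z → ∀ {m : ℕ} {n : ℤ} {f : K}, CGe x E m n f →
      (lc k x ρ t z m n f = 0 ↔ CGe x E m (n + 1) f)
  lc_car : ∀ {K L : Type} [Field K] [Algebra k K] [Field L] [Algebra k L] {d : ℕ}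
    {x : Fin (d + 1) → K} {E : Place k K} {ρ : K → L} {t : K} {z : Fin d → K},
    IsPB p x → Adapt p E ρ t z → ∀ {m m' : ℕ} {n : ℤ} {f : K}, m' + 1 = p * (m + 1) →
      CGe x E m' (p * n) f →
      lc k x ρ t z m n (car p x f) = car p (fun i => ρ (z i)) (lc k x ρ t z m' (p * n) f)

/-- Comparison with Kähler differentials. -/
structure Pl4 : Prop where
  span : ∀ {K : Type} [Field K] [Algebra k K] {d : ℕ} {x : Fin d → K}, IsPB p x →
    ∀ ω : ⋀[K]^d Ω[K⁄k], ∃ f : K,
      ω = f • exteriorPower.ιMulti K d fun i => KaehlerDifferential.D k K (x i)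
  formOrd_eq : ∀ {K L : Type} [Field K] [Algebra k K] [Field L] [Algebra k L] {d : ℕ}
    {x : Fin (d + 1) → K} {E : Place k K} {ρ : K → L} {t : K} {z : Fin d → K},
    IsPB p x → Adapt p E ρ t z → ∀ f : K, f ≠ 0 → formOrd (d + 1) E
      (f • exteriorPower.ιMulti K (d + 1) fun i => KaehlerDifferential.D k K (x i)) =
        E.ord f + lam k x E - 1

end Pool.Agent.Lib.MP_5f81cf_ag.Full
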