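import Pool.Agent.Lib.MP_5f81cf_ag.FBlue

/-! Statements of the main blocks of the full proof. -/

namespace Pool.Agent.Lib.MP_5f81cf_ag.Full

open Pool.Agent.Lib.MP_e06174_ag

variable (k : Type) [Field k] (p : ℕ) [Fact p.Prime]

/-- Height one primes of normal Noetherian domains. -/
structure Ca1 : Prop where
  exists_place : ∀ {R K : Type} [CommRing R] [IsDomain R] [IsNoetherianRing R]
    [IsIntegrallyClosed R] [Algebra k R] [Field K] [Algebra k K] [Algebra R K]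
    [IsScalarTower k R K] [IsFractionRing R K] (q : Ideal R) [q.IsPrime], q.height = 1 →
    ∃ E : Place k K, HasCentre E q
  loc : ∀ {R K : Type} [CommRing R] [IsDomain R] [IsNoetherianRing R]
    [IsIntegrallyClosed R] [Algebra k R] [Field K] [Algebra k K] [Algebra R K]
    [IsScalarTower k R K] [IsFractionRing R K] {E : Place k K} {q : Ideal R}, HasCentre E q →
    q.height = 1 → ∀ f : K, E.Ge 0 f → ∃ a b : R, b ∉ q ∧ f * algebraMap R K b = algebraMap R K a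
  hartogs : ∀ {R K : Type} [CommRing R] [IsDomain R] [IsNoetherianRing R]
    [IsIntegrallyClosed R] [Algebra k R] [Field K] [Algebra k K] [Algebra R K]
    [IsScalarTower k R K] [IsFractionRing R K] (m : Ideal R) [m.IsPrime] (f : K),
    (∀ (E : Place k K) (q : Ideal R), HasCentre E q → q.height = 1 → q ≤ m → E.Ge 0 f) →
    ∃ a b : R, b ∉ m ∧ f * algebraMap R K b = algebraMap R K a
  finite : ∀ {R K : Type} [CommRing R] [IsDomain R] [IsNoetherianRing R]
    [IsIntegrallyClosed R] [Algebra k R] [Field K] [Algebra k K] [Algebra R K]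
    [IsScalarTower k R K] [IsFractionRing R K] (f : K),
    {E : Place k K | (∃ q : Ideal R, HasCentre E q ∧ q.height = 1) ∧ E.ord f ≠ 0}.Finite

/-- Dimension theory and normalisation of affine domains. -/
structure Ca2 : Prop where
  height_add : ∀ {R : Type} [CommRing R] [IsDomain R] [Algebra k R] [Algebra.FiniteType k R]
    (q : Ideal R) [q.IsPrime] {d e : ℕ}, Algebra.trdeg k R = d → Algebra.trdeg k (R ⧸ q) = e →
    e ≤ d ∧ q.height = (d - e : ℕ)
  trdeg_fin : ∀ {R : Type} [CommRing R] [IsDomain R] [Algebra k R] [Algebra.FiniteType k R],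
    ∃ d : ℕ, Algebra.trdeg k R = d
  div_of_height : ∀ {R K : Type} [CommRing R] [IsDomain R] [Algebra k R] [Algebra.FiniteType k R]
    [Field K] [Algebra k K] [Algebra R K] [IsScalarTower k R K] [IsFractionRing R K] {d : ℕ}
    {E : Place k K} {q : Ideal R}, Algebra.trdeg k K = d → HasCentre E q → q.height = 1 →
    IsDivisorial d E
  finite_norm : ∀ {R K : Type} [CommRing R] [IsDomain R] [Algebra k R] [Algebra.FiniteType k R]
    [Field K] [Algebra k K] [Algebra R K] [IsScalarTower k R K] [FaithfulSMul R K]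
    [Algebra.IsAlgebraic R K] [Algebra.EssFiniteType k K], Module.Finite R (integralClosure R K)

/-- Divisorial valuations define the adic topology of a normal point. -/
def St_CH : Prop :=
  ∀ {R K : Type} [CommRing R] [IsDomain R] [IsIntegrallyClosed R] [Algebra k R]
    [Algebra.FiniteType k R] [Field K] [Algebra k K] [Algebra R K] [IsScalarTower k R K]
    [IsFractionRing R K] {d : ℕ} (m : Ideal R) [m.IsMaximal] (w : Place k K),
    Algebra.trdeg k K = d → HasCentre w m → IsDivisorial d w →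
    ∀ l : ℕ, ∃ j : ℤ, ∀ r : R, w.Ge j (algebraMap R K r) → r ∈ m ^ l

/-- Divisorial places approximating the composite of a place `S` and a place `F` of its
residue field. -/
def St_MONO : Prop :=
  ∀ {K L : Type} [Field K] [Algebra k K] [Algebra.EssFiniteType k K] [Field L] [Algebra k L]
    {d : ℕ} {S : Place k K} {ρ : K → L} {s : K} {z : Fin (d + 1) → K} {F : Place k L},
    IsPB p (Fin.cons s z : Fin (d + 2) → K) → Adapt p S ρ s z → IsDivisorial (d + 1) F →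
    ∀ (G : Finset K) (C : ℤ), (∀ g ∈ G, S.Ge 0 g) →
    ∃ w : Place k K, IsDivisorial (d + 2) w ∧
      lam k (Fin.cons s z : Fin (d + 2) → K) w - w.ord s = lam k (fun i => ρ (z i)) F ∧
      (∀ g ∈ G, (ρ g ≠ 0 → w.ord g = F.ord (ρ g)) ∧ (ρ g = 0 → w.Ge C g)) ∧
      ∀ r ∈ Algebra.adjoin k {g | g ∈ G ∧ F.Ge 0 (ρ g)}, w.Ge 0 r ∧ (w.Ge 1 r ↔ F.Ge 1 (ρ r))

/-- The surface block: a klt point carries a rational exceptional curve of plt type. -/
def St_RES : Prop :=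
  ∀ {T L : Type} [CommRing T] [IsDomain T] [IsIntegrallyClosed T] [Algebra k T]
    [Algebra.FiniteType k T] [Field L] [Algebra k L] [Algebra T L] [IsScalarTower k T L]
    [IsFractionRing T L] {u : Fin 2 → L} (y : Ideal T) [y.IsMaximal] (η : L) (N : ℕ),
    IsPB p u → η ≠ 0 → 0 < N →
    (∀ (F : Place k L) (q : Ideal T), HasCentre F q → q ≤ y → IsDivisorial 2 F →
      F.ord η < N * lam k u F) →
    (∀ (F : Place k L) (q : Ideal T), HasCentre F q → q ≤ y → q.height = 1 →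
      N * (lam k u F - 1) ≤ F.ord η) →
    ∃ (E : Place k L) (ρ : L → RatFunc k) (t z : L), HasCentre E y ∧ Adapt p E ρ t ![z] ∧
      ρ z = RatFunc.X ∧ ∀ P : Place k (RatFunc k), ∃ (a : ℕ) (s : T), 0 < a ∧
        CGe u E (a * N) 0 (η ^ a * algebraMap T L s) ∧
        ¬ P.Ge (a * N * lam1 P) (lc k u ρ t ![z] (a * N) 0 (η ^ a * algebraMap T L s))

/-- The curve block: a saturated system on the projective line contains all leading terms. -/
def St_CURVE1 : Prop :=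
  ∀ A I : ℕ → ℤ → Submodule k (RatFunc k), (∀ m n, I m n ≤ A m n) →
    (∀ m n m' n' f g, f ∈ A m n → g ∈ A m' n' → f * g ∈ A (m + m') (n + n')) →
    (∀ m n m' n' f g, f ∈ A m n → g ∈ I m' n' → f * g ∈ I (m + m') (n + n')) →
    (∀ m m' n f, m' + 1 = p * (m + 1) → f ∈ I m' (p * n) → car1 p f ∈ I m n) →
    1 ∈ A 0 0 → (∀ f ∈ A 0 0, ∃ c : k, f = algebraMap k _ c) → (∀ n < 0, A 0 n = ⊥) →
    (∀ n, FiniteDimensional k (A 0 n)) →
    (∃ n f, f ≠ 0 ∧ f ∈ A 0 n ∧ RatFunc.X * f ∈ A 0 n) →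
    (∃ n f g, f ≠ 0 ∧ g ≠ 0 ∧ f ∈ A 0 n ∧ g ∈ A 0 (n + 1)) →
    (∀ m, ∃ n f, f ≠ 0 ∧ f ∈ I m n) →
    (∃ m n f, 0 < m ∧ n < 0 ∧ f ≠ 0 ∧ f ∈ A m n) →
    (∀ P : Place k (RatFunc k), ∃ m f, 0 < m ∧ f ∈ A m 0 ∧ ¬ P.Ge (m * lam1 P) f) →
    ∀ n, 1 ≤ n → A 0 n ≤ I 0 n

/-- The curve block with a second filtration. -/
def St_CURVE2 : Prop :=
  ∀ (A : ℤ → Submodule k (RatFunc k)) (η c : RatFunc k) (N : ℕ) (β e : ℤ),
    η ≠ 0 → c ≠ 0 → 0 < N → 0 < β → 0 ≤ e →
    (∀ n n' f g, f ∈ A n → g ∈ A n' → f * g ∈ A (n + n')) → 1 ∈ A 0 →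
    (∃ n f, 0 < n ∧ f ≠ 0 ∧ f ∈ A n ∧ RatFunc.X * f ∈ A n) →
    (∀ P : Place k (RatFunc k), ∃ (a : ℕ) (f : RatFunc k), 0 < a ∧ f ∈ A (a * β) ∧
      ¬ P.Ge (a * N * lam1 P) (η ^ a * f)) →
    ∃ n : ℤ, 0 < n ∧ ∀ (U : ℕ → ℤ → ℤ → Submodule k (RatFunc k)) (α j₀ : ℤ),
      (∀ m j j' n, j ≤ j' → U m j' n ≤ U m j n) →
      (∀ m j n m' j' n' f g, f ∈ U m j n → g ∈ U m' j' n' →
        f * g ∈ U (m + m') (j + j') (n + n')) →
      (∀ m m' j j' n f, m' + 1 = p * (m + 1) → p * (j - 1) < j' → f ∈ U m' j' (p * n) →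
        car1 p f ∈ U m j n) →
      η ∈ U N (-α) (-β) → (∀ m, ∃ j n f, f ≠ 0 ∧ f ∈ U m j n) →
      (∃ j n f g, f ≠ 0 ∧ g ≠ 0 ∧ f ∈ U 0 j n ∧ g ∈ U 0 j (n + 1)) →
      (∀ f ∈ A n, c * f ∈ U 0 j₀ (n + e)) → (n + e) * α < j₀ * β →
      ∀ j, ∃ f, f ≠ 0 ∧ f ∈ U 0 j (n + e)

end Pool.Agent.Lib.MP_5f81cf_ag.Full
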