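import Pool.Agent.Lib.MP_5f81cf_ag.FBlue2

/-! Statements of the steps towards `St_MONO`. -/

namespace Pool.Agent.Lib.MP_5f81cf_ag.Full

open Pool.Agent.Lib.MP_e06174_ag Polynomial

variable (k : Type) [Field k] (p : ℕ) [Fact p.Prime]

/-- The Gauss extension of a place. -/
def St_M1 : Prop :=
  ∀ {L κ : Type} [Field L] [Algebra k L] [Field κ] [Algebra k κ] {F : Place k L} {r : L → κ},
    IsRes F r → ∃ (F' : Place k (RatFunc L)) (r' : RatFunc L → RatFunc κ), IsRes F' r' ∧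
      (∀ a : L, F'.ord (algebraMap L (RatFunc L) a) = F.ord a) ∧ F'.Ge 0 RatFunc.X ∧
      r' RatFunc.X = RatFunc.X ∧
      ∀ a : L, F.Ge 0 a → r' (algebraMap L (RatFunc L) a) = algebraMap κ (RatFunc κ) (r a)

/-- The substitution `s ↦ t ^ M σ`. -/
def St_M2 : Prop :=
  ∀ {K L : Type} [Field K] [Algebra k K] [Field L] [Algebra k L] {d : ℕ} {S : Place k K}
    {ρ : K → L} {s : K} {v : Fin (d + 1) → K} {F : Place k L} {F' : Place k (RatFunc L)},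
    IsRes S ρ → S.ord s = 1 → (∀ i, S.Ge 0 (v i)) → AlgebraicIndependent k (fun i => ρ (v i)) →
    (∀ i, F.Ge 0 (ρ (v i))) → F.ord (ρ (v 0)) = 1 →
    (∀ a : L, F'.ord (algebraMap L (RatFunc L) a) = F.ord a) → F'.Ge 0 RatFunc.X →
    ∀ K₀ : IntermediateField k K, K₀ = IntermediateField.adjoin k (insert s (Set.range v)) →
    ∃ ι : ℕ → K₀ →ₐ[k] RatFunc L,
      (∀ M (a : K₀), (a : K) = s → ι M a = algebraMap L (RatFunc L) (ρ (v 0)) ^ M * RatFunc.X) ∧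
      (∀ M (a : K₀) i, (a : K) = v i → ι M a = algebraMap L (RatFunc L) (ρ (v i))) ∧
      ∀ a : K₀, S.Ge 0 (a : K) → ∃ C : ℕ, ∀ M : ℕ, C ≤ M →
        F'.Ge (M - C) (ι M a - algebraMap L (RatFunc L) (ρ a))

/-- An unramified extension of places is standard étale. -/
def St_M3 : Prop :=
  ∀ {K₀ K L : Type} [Field K₀] [Algebra k K₀] [Field K] [Algebra k K] [Algebra K₀ K]
    [IsScalarTower k K₀ K] [FiniteDimensional K₀ K] [Algebra.IsSeparable K₀ K] [Field L]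
    [Algebra k L] {S : Place k K} {ρ : K → L} (s : K₀) (L₀ : IntermediateField k L)
    [Algebra.IsSeparable L₀ L], IsRes S ρ → S.ord (algebraMap K₀ K s) = 1 →
    (∀ l ∈ L₀, ∃ a : K₀, S.Ge 0 (algebraMap K₀ K a) ∧ ρ (algebraMap K₀ K a) = l) →
    ∃ θ : K, S.Ge 0 θ ∧ IntermediateField.adjoin K₀ {θ} = ⊤ ∧
      (∀ i, S.Ge 0 (algebraMap K₀ K ((minpoly K₀ θ).coeff i))) ∧
      ¬ S.Ge 1 (aeval θ (derivative (minpoly K₀ θ))) ∧
      ∀ f : K, S.Ge 0 f → ∃ a b : K₀[X], (∀ i, S.Ge 0 (algebraMap K₀ K (a.coeff i))) ∧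
        (∀ i, S.Ge 0 (algebraMap K₀ K (b.coeff i))) ∧ ¬ S.Ge 1 (aeval θ b) ∧
        f * aeval θ b = aeval θ a

/-- Hensel's lemma without completion. -/
def St_M4 : Prop :=
  ∀ {L : Type} [Field L] [Algebra k L] (F : Place k L) (h : L[X]), h.Separable →
    (∀ i, F.Ge 1 ((h - X).coeff i)) →
    ∃ (Ω : Type) (_ : Field Ω) (_ : Algebra k Ω) (_ : Algebra L Ω) (_ : IsScalarTower k L Ω)
      (W : Place k Ω) (e : ℕ) (ζ : Ω), W.Over (IsScalarTower.toAlgHom k L Ω) F e ∧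
      aeval ζ h = 0 ∧ W.Ge 1 ζ ∧ ∀ n : ℤ, ∃ a : L, W.Ge n (ζ - algebraMap L Ω a)

/-- The approximating place. -/
def St_M5 : Prop :=
  ∀ {K L κ : Type} [Field K] [Algebra k K] [Algebra.EssFiniteType k K] [Field L] [Algebra k L]
    [Algebra.EssFiniteType k L] [Field κ] [Algebra k κ] {d : ℕ} {S : Place k K} {ρ : K → L}
    {s : K} {v : Fin (d + 1) → K} {F : Place k L} {r : L → κ},
    IsPB p (Fin.cons s v : Fin (d + 2) → K) → Adapt p S ρ s v → IsRes F r →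
    (∀ i, F.Ge 0 (ρ (v i))) → F.ord (ρ (v 0)) = 1 →
    ∀ (G : Finset K) (C : ℤ), (∀ g ∈ G, S.Ge 0 g) →
    ∃ (M : ℕ) (w : Place k K) (τ : K → RatFunc κ),
      (∀ a b, w.Ge 0 a → w.Ge 0 b → τ (a + b) = τ a + τ b ∧ τ (a * b) = τ a * τ b) ∧
      (∀ c : k, τ (algebraMap k K c) = algebraMap k (RatFunc κ) c) ∧
      (∀ a, w.Ge 0 a → (τ a = 0 ↔ w.Ge 1 a)) ∧
      w.ord (v 0) = 1 ∧ w.Ge 0 (s / v 0 ^ M) ∧ τ (s / v 0 ^ M) = RatFunc.X ∧
      (∀ i, w.Ge 0 (v i) ∧ τ (v i) = algebraMap κ (RatFunc κ) (r (ρ (v i)))) ∧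
      ∀ g ∈ G, (∀ n ≤ C, F.Ge n (ρ g) ↔ w.Ge n g) ∧
        (F.Ge 0 (ρ g) → w.Ge 0 g ∧ τ g = algebraMap κ (RatFunc κ) (r (ρ g)))

end Pool.Agent.Lib.MP_5f81cf_ag.Full
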