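import Pool.Agent.Lib.MP_5f81cf_ag.FBlue2

/-! Statements of the steps towards `St_CH`. -/

namespace Pool.Agent.Lib.MP_5f81cf_ag.Full

open Pool.Agent.Lib.MP_e06174_ag TensorProduct

variable (k : Type) [Field k] (p : ℕ) [Fact p.Prime]

/-- Polynomials. -/
abbrev PA (d : ℕ) := MvPolynomial (Fin d) k

/-- Power series. -/
abbrev PS (d : ℕ) := MvPowerSeries (Fin d) k

/-- The ideal of the origin. -/
noncomputable abbrev PI (d : ℕ) : Ideal (PA k d) := MvPolynomial.idealOfVars (Fin d) k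

/-- Parameters adapted to a divisorial valuation. -/
def St_H1 : Prop :=
  ∀ {R K : Type} [CommRing R] [IsDomain R] [Algebra k R]
    [Algebra.FiniteType k R] [Field K] [Algebra k K] [Algebra R K] [IsScalarTower k R K]
    [IsFractionRing R K] {d : ℕ} (m : Ideal R) [m.IsMaximal] (w : Place k K),
    Algebra.trdeg k K = d → HasCentre w m → IsDivisorial d w →
    ∃ f : Fin d → R, IsPB p (fun i => algebraMap R K (f i)) ∧
      m ∈ (Ideal.span (Set.range f)).minimalPrimes ∧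
      ∀ n : ℕ, ∃ j : ℤ, ∀ P : PA k d, w.Ge j (algebraMap R K (MvPolynomial.aeval f P)) →
        P ∈ PI k d ^ n

/-- Power series over polynomials. -/
structure H3 : Prop where
  fb : ∀ {d : ℕ} (φ : PS k d), ∃! c : (Fin d → Fin p) → PS k d,
    φ = ∑ α, c α ^ p * algebraMap (PA k d) (PS k d) (∏ i, MvPolynomial.X i ^ (α i : ℕ))
  fbA : ∀ {d : ℕ} (a : PA k d), ∃ c : (Fin d → Fin p) → PA k d,
    a = ∑ α, c α ^ p * ∏ i, MvPolynomial.X i ^ (α i : ℕ)
  normal : ∀ d : ℕ, IsIntegrallyClosed (PS k d)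
  flat : ∀ d : ℕ, Module.Flat (PA k d) (PS k d)
  approx : ∀ {d : ℕ} (φ : PS k d) (n : ℕ), ∃ a : PA k d,
    φ - algebraMap (PA k d) (PS k d) a ∈ (PI k d ^ n).map (algebraMap (PA k d) (PS k d))
  comap : ∀ {d : ℕ} (n : ℕ) (a : PA k d),
    algebraMap (PA k d) (PS k d) a ∈ (PI k d ^ n).map (algebraMap (PA k d) (PS k d)) →
    a ∈ PI k d ^ n
  complete : ∀ {d : ℕ} (a : ℕ → PA k d), (∀ n, a (n + 1) - a n ∈ PI k d ^ n) → ∃ φ : PS k d, ∀ n,
    φ - algebraMap (PA k d) (PS k d) (a n) ∈ (PI k d ^ n).map (algebraMap (PA k d) (PS k d))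
  haus : ∀ {d : ℕ} (φ : PS k d),
    (∀ n, φ ∈ (PI k d ^ n).map (algebraMap (PA k d) (PS k d))) → φ = 0

/-- Completion preserves reducedness. -/
def St_H4 : Prop :=
  ∀ {d : ℕ} (C : Type) [CommRing C] [Algebra (PA k d) C] [IsReduced C],
    IsReduced (PS k d ⊗[PA k d] C)

/-- Zariski's argument: idempotents of the total ring of fractions of the completion. -/
def St_H5 : Prop :=
  ∀ {d : ℕ} {B F K : Type} [CommRing B] [IsDomain B] [IsIntegrallyClosed B] [Algebra (PA k d) B]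
    [Module.Finite (PA k d) B] [Field F] [Algebra (PA k d) F] [IsFractionRing (PA k d) F]
    [Field K] [Algebra B K] [IsFractionRing B K] [Algebra (PA k d) K] [Algebra F K]
    [IsScalarTower (PA k d) B K] [IsScalarTower (PA k d) F K] [Algebra.IsSeparable F K]
    (x : PS k d ⊗[PA k d] B) (δ : PA k d), δ ≠ 0 → x ^ 2 = δ • x → ∃ ε, x = δ • ε

/-- Minimal primes of the completion are cut out by idempotents. -/
def St_H6 : Prop :=
  ∀ {d : ℕ} {B F K : Type} [CommRing B] [IsDomain B] [IsIntegrallyClosed B] [Algebra (PA k d) B]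
    [Module.Finite (PA k d) B] [Field F] [Algebra (PA k d) F] [IsFractionRing (PA k d) F]
    [Field K] [Algebra B K] [IsFractionRing B K] [Algebra (PA k d) K] [Algebra F K]
    [IsScalarTower (PA k d) B K] [IsScalarTower (PA k d) F K] [Algebra.IsSeparable F K]
    (P : Ideal (PS k d ⊗[PA k d] B)) [P.IsPrime],
    (∀ φ : PS k d, φ ⊗ₜ[PA k d] (1 : B) ∈ P → φ = 0) → ∃ ε, ε - 1 ∈ P ∧ ∀ x ∈ P, ε * x = 0

/-- The comparison for a finite normal extension of a polynomial ring. -/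
def St_H7 : Prop :=
  ∀ {d : ℕ} {B F K : Type} [CommRing B] [IsDomain B] [IsIntegrallyClosed B] [Algebra (PA k d) B]
    [Module.Finite (PA k d) B] [Field F] [Algebra (PA k d) F] [IsFractionRing (PA k d) F]
    [Field K] [Algebra B K] [IsFractionRing B K] [Algebra (PA k d) K] [Algebra F K]
    [IsScalarTower (PA k d) B K] [IsScalarTower (PA k d) F K] [Algebra.IsSeparable F K]
    [Algebra k K] (w : Place k K) (n : Ideal B), HasCentre w n →
    (∀ a ∈ PI k d, w.Ge 1 (algebraMap (PA k d) K a)) →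
    (∀ l : ℕ, ∃ j : ℤ, ∀ a : PA k d, w.Ge j (algebraMap (PA k d) K a) → a ∈ PI k d ^ l) →
    ∀ l : ℕ, ∃ j : ℤ, ∀ b : B, w.Ge j (algebraMap B K b) →
      ∃ u, u ∉ n ∧ u * b ∈ (PI k d ^ l).map (algebraMap (PA k d) B)

end Pool.Agent.Lib.MP_5f81cf_ag.Full
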