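import Pool.Agent.Lib.MP_5f81cf_ag.FBlue2

/-! Statements of the steps towards `St_CURVE1` and `St_CURVE2`. -/

namespace Pool.Agent.Lib.MP_5f81cf_ag.Full

open Pool.Agent.Lib.MP_e06174_ag

variable (k : Type) [Field k]

/-- Points of the projective line. -/
abbrev Pt := Place k (RatFunc k)

variable {k}

/-- The degree of a divisor. -/
def dg (D : Pt k →₀ ℤ) : ℤ := D.sum fun _ n => n

/-- The degree of a rational divisor. -/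
def dgQ (B : Pt k →₀ ℚ) : ℚ := B.sum fun _ n => n

/-- The round-up. -/
noncomputable def cl (B : Pt k →₀ ℚ) : Pt k →₀ ℤ := B.mapRange Int.ceil (by simp)

/-- Functions with order bounded below by `c`. -/
def Bd (c : Pt k → ℤ) : Submodule k (RatFunc k) where
  carrier := {f | ∀ P : Pt k, P.Ge (c P) f}
  add_mem' h h' P := (h P).add (h' P)
  zero_mem' _ := Place.ge_zero _
  smul_mem' a _ h P := (h P).smul a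

/-- Sections of `O(D)`. -/
def LL (D : Pt k →₀ ℤ) : Submodule k (RatFunc k) := Bd fun P => -D P

/-- Sections of `Ω(G)`, divided by `dX`. -/
noncomputable def HH (G : Pt k →₀ ℤ) : Submodule k (RatFunc k) := Bd fun P => 1 - lam1 P - G P

open Classical in
/-- The numerical condition for surjectivity of the Cartier operator. -/
def Cond (p : ℕ) (G : Pt k →₀ ℤ) : Prop :=
  -2 < dg G - (G.support.filter fun P => ¬ (p : ℤ) ∣ G P).card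

/-- Positive degree, and the numerical condition at every stage. -/
def Good (p : ℕ) (B : Pt k →₀ ℚ) : Prop :=
  0 < dgQ B ∧ ∀ i : ℕ, 1 ≤ i → Cond p (cl (((p : ℚ) ^ i) • B))

variable (k)

/-- Basic facts on the projective line. -/
structure K1 : Prop where
  dv : ∀ f : RatFunc k, f ≠ 0 → ∃ D : Pt k →₀ ℤ, (∀ P, D P = P.ord f) ∧ dg D = 0
  exists_dv : ∀ D : Pt k →₀ ℤ, dg D = 0 → ∃ f : RatFunc k, f ≠ 0 ∧ ∀ P, P.ord f = D P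
  res : ∀ (P : Pt k) (f : RatFunc k), P.Ge 0 f → ∃ c : k, P.Ge 1 (f - algebraMap k _ c)
  infty : ∃ Q : Pt k, Q.ord RatFunc.X = -1 ∧ (∀ P : Pt k, P ≠ Q → P.Ge 0 RatFunc.X) ∧
    ∀ n : ℕ, LL (Finsupp.single Q (n : ℤ)) =
      Submodule.span k (Set.range fun i : Fin (n + 1) => (RatFunc.X : RatFunc k) ^ (i : ℕ))
  infinite : Infinite (Pt k)
  approx : ∀ (D : Pt k →₀ ℤ) (h : Pt k →₀ RatFunc k), -1 ≤ dg D →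
    ∃ f : RatFunc k, ∀ P : Pt k, P.Ge (-D P) (f - h P)
  exact_LL : ∀ (D : Pt k →₀ ℤ) (Q : Pt k), 0 ≤ dg D →
    ∃ f : RatFunc k, f ≠ 0 ∧ f ∈ LL D ∧ Q.ord f = -D Q
  exact_HH : ∀ (G : Pt k →₀ ℤ) (Q : Pt k), 2 ≤ dg G →
    ∃ f : RatFunc k, f ≠ 0 ∧ f ∈ HH G ∧ Q.ord f = 1 - lam1 Q - G Q
  ratio_HH : ∀ G : Pt k →₀ ℤ, 3 ≤ dg G →
    ∃ f : RatFunc k, f ≠ 0 ∧ f ∈ HH G ∧ RatFunc.X * f ∈ HH G

variable (p : ℕ) [Fact p.Prime]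

/-- Surjectivity of the Cartier operator. -/
def St_Surj : Prop :=
  ∀ G G₁ : Pt k →₀ ℤ, (∀ P, p * (G₁ P - 1) < G P ∧ G P ≤ p * G₁ P) → Cond p G →
    ∀ g ∈ HH G₁, ∃ f ∈ HH G, car1 p f = g

open Classical in
/-- Powers of a birational linear system are asymptotically complete. -/
def St_Fill : Prop :=
  ∀ (W : Submodule k (RatFunc k)) (D : Pt k →₀ ℤ),
    (∃ f, f ≠ 0 ∧ f ∈ W ∧ RatFunc.X * f ∈ W) → (∀ P, ∃ w ∈ W, w ≠ 0 ∧ P.ord w ≤ -D P) →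
    ∃ (Y : Finset (Pt k)) (C : ℕ), ∀ j : ℕ,
      Bd (fun P => -(j * D P) + if P ∈ Y then (C : ℤ) else 0) ≤ W ^ j

open Classical in
/-- Good divisors: perturbation and large degree. -/
structure K4 : Prop where
  pert : ∀ (B : Pt k →₀ ℚ) (Y : Finset (Pt k)), Good p B → ∃ (ε : ℚ) (B' : Pt k →₀ ℚ), 0 < ε ∧
    (∀ P, B' P = B P - if P ∈ Y then ε else 0) ∧ Good p B' ∧ cl B' = cl B
  big : ∀ B : Pt k →₀ ℚ, 0 < dgQ B → (B.support.card : ℚ) ≤ dgQ B → Good p B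
  le_cl : ∀ B : Pt k →₀ ℚ, dgQ B ≤ dg (cl B)

/-- Iterated Cartier operators on powers of a linear system. -/
def St_Sat : Prop :=
  ∀ (W : Submodule k (RatFunc k)) (B : Pt k →₀ ℚ) (M : ℕ) (Γ : Finset (RatFunc k)) (C : ℕ),
    0 < M → (∃ f, f ≠ 0 ∧ f ∈ W ∧ RatFunc.X * f ∈ W) → Good p B →
    (∀ P, ∃ w ∈ W, w ≠ 0 ∧ B P * M ≤ -P.ord w) → (∀ γ ∈ Γ, γ ≠ 0) →
    ∃ e₀ : ℕ, ∀ e, e₀ ≤ e → ∀ γ ∈ Γ, ∀ j : ℕ, j * M ≤ p ^ e → p ^ e ≤ j * M + C →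
      ∀ g ∈ HH (cl B), ∃ f ∈ W ^ j, (car1 p)^[e] (γ * f) = g

/-- Arithmetic lemmas. -/
structure K5 : Prop where
  shok : ∀ (S : Set ℚ) (m₀ : ℕ), BddAbove S → (∃ b ∈ S, 0 < b) →
    (∀ b ∈ S, ∀ m : ℕ, m₀ ≤ m → ∃ b' ∈ S, ((⌈(m + 1 : ℚ) * b⌉ : ℚ) - 1) ≤ m * b') →
    ∃ n : ℕ, 1 ≤ n ∧ (∀ b ∈ S, b ≤ 1 / n) ∧ ∀ ε : ℚ, 0 < ε → ∃ b ∈ S, 1 / n - ε < b
  slope : ∀ (S : Set ℚ) (a : ℚ) (n₀ : ℕ), BddBelow S → 0 < a →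
    (∀ s ∈ S, ∀ ε : ℚ, 0 < ε → ∀ n : ℕ, n₀ ≤ n → ∃ s' ∈ S, n * s' ≤ (⌊n * s - a + ε⌋ : ℚ) + 1) →
    ∀ (n : ℕ) (o : ℤ), 0 < n → (∃ s ∈ S, n * s < o) →
      ∀ ε : ℚ, 0 < ε → ∃ s ∈ S, n * s < o - a + ε
  arith : ∀ {ι : Type} [DecidableEq ι] (Y : Finset ι) (ν : ι → ℕ) (i₀ : ι) (q : ℕ), Odd q →
    (∀ i, 1 ≤ ν i) → ∑ i ∈ Y, (1 - 1 / (ν i : ℚ)) < 2 → i₀ ∈ Y →
    -1 - 2 * (q : ℤ) ≤ ∑ i ∈ Y, (⌈(q : ℚ) * (if i = i₀ then 2 else 1) / ν i⌉ - q -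
      if ν i = 1 then 0 else 1)

variable {k}

/-- The hypotheses of `St_CURVE1`. -/
structure Sys1 (A I : ℕ → ℤ → Submodule k (RatFunc k)) : Prop where
  le : ∀ m n, I m n ≤ A m n
  mul : ∀ m n m' n' f g, f ∈ A m n → g ∈ A m' n' → f * g ∈ A (m + m') (n + n')
  mulI : ∀ m n m' n' f g, f ∈ A m n → g ∈ I m' n' → f * g ∈ I (m + m') (n + n')
  car : ∀ m m' n f, m' + 1 = p * (m + 1) → f ∈ I m' (p * n) → car1 p f ∈ I m n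
  one : 1 ∈ A 0 0
  const : ∀ f ∈ A 0 0, ∃ c : k, f = algebraMap k _ c
  neg : ∀ n < 0, A 0 n = ⊥
  fin : ∀ n, FiniteDimensional k (A 0 n)
  ratio : ∃ n f, f ≠ 0 ∧ f ∈ A 0 n ∧ RatFunc.X * f ∈ A 0 n
  succ : ∃ n f g, f ≠ 0 ∧ g ≠ 0 ∧ f ∈ A 0 n ∧ g ∈ A 0 (n + 1)
  ne : ∀ m, ∃ n f, f ≠ 0 ∧ f ∈ I m n
  eta : ∃ m n f, 0 < m ∧ n < 0 ∧ f ≠ 0 ∧ f ∈ A m n
  pos : ∀ P : Pt k, ∃ m f, 0 < m ∧ f ∈ A m 0 ∧ ¬ P.Ge (m * lam1 P) f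

variable (k)

/-- Saturation. -/
def St_Use : Prop :=
  ∀ A I : ℕ → ℤ → Submodule k (RatFunc k), Sys1 p A I → ∀ (m n : ℕ) (B : Pt k →₀ ℚ), Good p B →
    (∀ P, ∃ (M : ℕ) (w : RatFunc k), 0 < M ∧ w ≠ 0 ∧ w ∈ A (M * (m + 1)) (M * n) ∧
      B P * M ≤ -P.ord w) → HH (cl B) ≤ I m n

/-- Standard coefficients. -/
def St_Std : Prop :=
  ∀ A I : ℕ → ℤ → Submodule k (RatFunc k), Sys1 p A I →
    ∃ (Y : Finset (Pt k)) (ν : Pt k → ℕ), (∀ P, 1 ≤ ν P) ∧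
      ∑ P ∈ Y, (1 - 1 / (ν P : ℚ)) < 2 ∧
      (∀ P, P ∉ Y → ν P = 1 ∧ lam1 P = 1 ∧
        ∃ m w, 0 < m ∧ w ≠ 0 ∧ w ∈ A m 0 ∧ P.ord w ≤ 0) ∧
      ∀ P (ε : ℚ), 0 < ε → ∃ m w, 0 < m ∧ w ≠ 0 ∧ w ∈ A m 0 ∧
        (P.ord w : ℚ) < m * (lam1 P - 1 / ν P + ε)

end Pool.Agent.Lib.MP_5f81cf_ag.Full
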