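import Pool.Agent.Lib.MP_5f81cf_ag.FBlue2

/-! Points of normal surfaces and quadratic transforms: definitions and basic statements. -/

namespace Pool.Agent.Lib.MP_5f81cf_ag.Full

open Pool.Agent.Lib.MP_e06174_ag

section defs

variable {k L : Type} [Field k] [Field L] [Algebra k L]

/-- Non-units of `O`. -/
def NU (O : Subalgebra k L) (f : L) : Prop := f ∈ O ∧ (f = 0 ∨ f⁻¹ ∉ O)

/-- Units of `O`. -/
def UN (O : Subalgebra k L) (f : L) : Prop := f ≠ 0 ∧ f ∈ O ∧ f⁻¹ ∈ O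

/-- The maximal ideal of `O`, as a submodule of `L`. -/
def mx (O : Subalgebra k L) : Submodule O L := Submodule.span O {f | NU O f}

/-- The ideal generated by two elements. -/
def sp2 (O : Subalgebra k L) (x y : L) : Submodule O L := Submodule.span O {x, y}

/-- `O` is the local ring of a closed point of a normal model of `L`. -/
def IsPt (O : Subalgebra k L) : Prop :=
  ∃ (C : Subalgebra k L) (n : Ideal C), C.FG ∧ n.IsMaximal ∧ IsFractionRing C L ∧
    IsIntegrallyClosed C ∧ ∀ f, f ∈ O ↔ ∃ a b : C, b ∉ n ∧ f * b = a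

/-- The place `F` dominates `O`. -/
def Dom (F : Place k L) (O : Subalgebra k L) : Prop :=
  ∀ f ∈ O, F.Ge 0 f ∧ (NU O f → F.Ge 1 f)

/-- The place `F` is a curve through the point `O`. -/
def Crv (F : Place k L) (O : Subalgebra k L) : Prop := (∀ f ∈ O, F.Ge 0 f) ∧ ¬ Dom F O

/-- The valuation ring `V` dominates `O`. -/
def VDom (V : ValuationSubring L) (O : Subalgebra k L) : Prop :=
  ∀ f ∈ O, f ∈ V ∧ (NU O f → f ∈ V.nonunits)

/-- The canonical module, divided by `du`. -/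
def Om (u : Fin 2 → L) (O : Subalgebra k L) : Submodule O L where
  carrier := {f | ∀ F : Place k L, Crv F O → F.Ge (1 - lam k u F) f}
  add_mem' h h' F hF := (h F hF).add (h' F hF)
  zero_mem' _ _ := Place.ge_zero _
  smul_mem' a _ h F hF := ((hF.1 a a.2).mul (h F hF)).mono (by simp)

/-- A pseudo-rational point. -/
def PRat (u : Fin 2 → L) (O : Subalgebra k L) : Prop :=
  IsPt O ∧ ∀ f ∈ Om u O, ∀ F : Place k L, Dom F O → IsDivisorial 2 F → F.Ge (1 - lam k u F) f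

/-- Regular parameters. -/
def Par (O : Subalgebra k L) (a b : L) : Prop := mx O = sp2 O a b

/-- A regular point. -/
def Reg (O : Subalgebra k L) : Prop := ∃ a b, Par O a b

/-- A chart of the blow-up. -/
def Bl (O : Subalgebra k L) (x : L) : Subalgebra k L :=
  Algebra.adjoin k {g | ∃ f, NU O f ∧ g = f / x}

/-- `O'` is a closed point of the exceptional locus of the chart `x` of the blow-up of `O`. -/
def QT (O : Subalgebra k L) (x : L) (O' : Subalgebra k L) : Prop :=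
  NU O x ∧ x ≠ 0 ∧ ∃ n : Ideal (Bl O x), n.IsMaximal ∧ (∀ g : Bl O x, (g : L) = x → g ∈ n) ∧
    ∀ f, f ∈ O' ↔ ∃ a b : Bl O x, b ∉ n ∧ f * b = a

/-- `E` is an exceptional curve of the blow-up of `O`. -/
def Exc (O : Subalgebra k L) (E : Place k L) : Prop :=
  Dom E O ∧ ∃ f g, NU O f ∧ NU O g ∧ g ≠ 0 ∧ (∀ h, NU O h → E.Ge (E.ord g) h) ∧
    ∀ c : k, ¬ E.Ge 1 (f / g - algebraMap k L c)

/-- `E` extends the order valuation of `k[x, y]` at the origin. -/
def Rees (x y : L) (E : Place k L) : Prop :=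
  0 < E.ord x ∧ E.ord y = E.ord x ∧ ∀ c : k, ¬ E.Ge 1 (y / x - algebraMap k L c)

/-- `(x, y)` is a separating reduction of the maximal ideal. -/
structure Red (p : ℕ) (O : Subalgebra k L) (x y : L) : Prop where
  x_mem : NU O x
  y_mem : NU O y
  pb : IsPB p ![x, y]
  pow : ∃ n : ℕ, mx O ^ n ≤ sp2 O x y
  val : ∀ E : Place k L, Dom E O → ∀ f, NU O f → E.Ge (min (E.ord x) (E.ord y)) f

/-- `f` is a unit times a Laurent monomial. -/
def Mon (O : Subalgebra k L) (a b f : L) : Prop := ∃ i j : ℤ, UN O (f / (a ^ i * b ^ j))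

/-- An infinite chain of quadratic transforms. -/
def Chain (O : ℕ → Subalgebra k L) (x : ℕ → L) : Prop := ∀ n, QT (O n) (x n) (O (n + 1))

/-- The point `O` over `O₀` is regular and the data are monomial there. -/
def GoodPt (u : Fin 2 → L) (η : L) (N : ℕ) (O₀ O : Subalgebra k L) : Prop :=
  ∃ a b, Par O a b ∧ Mon O a b (η * jac k u ![a, b] ^ N) ∧
    ∃ g, NU O₀ g ∧ g ≠ 0 ∧ (∀ f, NU O₀ f → f / g ∈ O) ∧ Mon O a b g

/-- The points that are blown up. -/
def Intn (u : Fin 2 → L) (η : L) (N : ℕ) (O₀ O : Subalgebra k L) : Prop :=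
  Relation.ReflTransGen (fun O O' => (∃ x, QT O x O') ∧ ¬ GoodPt u η N O₀ O') O₀ O

variable (k) in
/-- The local ring of the origin of `Spec k[x, y]`. -/
def LA (x y : L) : Subalgebra k L :=
  Algebra.adjoin k ({x, y} ∪ {g | ∃ P : MvPolynomial (Fin 2) k, MvPolynomial.constantCoeff P ≠ 0 ∧
    g = (MvPolynomial.aeval ![x, y] P)⁻¹})

variable (k) in
/-- Its integral closure. -/
def LI (x y : L) : Subalgebra k L := (integralClosure (LA k x y) L).restrictScalars k

variable (k) in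
/-- The trace to `k(x, y)`. -/
noncomputable def tr (x y f : L) : L :=
  (Algebra.trace (IntermediateField.adjoin k {x, y}) L f : IntermediateField.adjoin k {x, y})

end defs

variable (k : Type) [Field k] (p : ℕ) [Fact p.Prime]

/-- Ring-theoretic properties of points. -/
structure Pt1 : Prop where
  mem_mx : ∀ {L : Type} [Field L] [Algebra k L] {O : Subalgebra k L}, IsPt O →
    ∀ f, f ∈ mx O ↔ NU O f
  res : ∀ {L : Type} [Field L] [Algebra k L] {O : Subalgebra k L}, IsPt O →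
    ∀ f ∈ O, ∃ c : k, NU O (f - algebraMap k L c)
  inst : ∀ {L : Type} [Field L] [Algebra k L] {O : Subalgebra k L}, IsPt O →
    IsFractionRing O L ∧ IsIntegrallyClosed O ∧ IsNoetherianRing O ∧ IsLocalRing O
  ess : ∀ {L : Type} [Field L] [Algebra k L] {O : Subalgebra k L}, IsPt O →
    Algebra.EssFiniteType k L
  fg : ∀ {L : Type} [Field L] [Algebra k L] {O : Subalgebra k L}, IsPt O → (mx O).FG
  fin : ∀ {L : Type} [Field L] [Algebra k L] {O : Subalgebra k L}, IsPt O → ∀ n : ℕ,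
    ∃ s : Finset L, (∀ g ∈ s, g ∈ O) ∧
      ∀ f ∈ O, ∃ g ∈ Submodule.span k (s : Set L), f - g ∈ mx O ^ n
  krull : ∀ {L : Type} [Field L] [Algebra k L] {O : Subalgebra k L}, IsPt O →
    ∀ f, (∀ n : ℕ, f ∈ mx O ^ n) → f = 0
  hartogs : ∀ {L : Type} [Field L] [Algebra k L] {u : Fin 2 → L} {O : Subalgebra k L},
    IsPB p u → IsPt O → ∀ f, (∀ F : Place k L, Crv F O → F.Ge 0 f) → f ∈ O
  crv_div : ∀ {L : Type} [Field L] [Algebra k L] {u : Fin 2 → L} {O : Subalgebra k L},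
    IsPB p u → IsPt O → ∀ F : Place k L, Crv F O → IsDivisorial 2 F
  crv_loc : ∀ {L : Type} [Field L] [Algebra k L] {u : Fin 2 → L} {O : Subalgebra k L},
    IsPB p u → IsPt O → ∀ F : Place k L, Crv F O → ∀ f, F.Ge 0 f →
      ∃ b ∈ O, b ≠ 0 ∧ F.ord b = 0 ∧ f * b ∈ O
  crv_fin : ∀ {L : Type} [Field L] [Algebra k L] {u : Fin 2 → L} {O : Subalgebra k L},
    IsPB p u → IsPt O → ∀ f, {F : Place k L | Crv F O ∧ F.ord f ≠ 0}.Finite
  crv_pow : ∀ {L : Type} [Field L] [Algebra k L] {u : Fin 2 → L} {O : Subalgebra k L},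
    IsPB p u → IsPt O → ∀ I : Submodule O L, (∀ f ∈ I, f ∈ O) →
      (∀ F : Place k L, Crv F O → ∃ f ∈ I, ¬ F.Ge 1 f) → I ≠ ⊥ → ∃ n : ℕ, mx O ^ n ≤ I
  exists_crv : ∀ {L : Type} [Field L] [Algebra k L] {u : Fin 2 → L} {O : Subalgebra k L},
    IsPB p u → IsPt O → ∀ f, NU O f → ∃ F : Place k L, Crv F O ∧ F.Ge 1 f

/-- Forms at a point, and regular points. -/
structure Pt2 : Prop where
  om_fg : ∀ {L : Type} [Field L] [Algebra k L] {u : Fin 2 → L} {O : Subalgebra k L},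
    IsPB p u → IsPt O → (Om u O).FG
  jac_mem : ∀ {L : Type} [Field L] [Algebra k L] {u : Fin 2 → L} {O : Subalgebra k L},
    IsPB p u → IsPt O → ∀ a ∈ O, ∀ b ∈ O, jac k u ![a, b] ∈ Om u O
  jac_crv : ∀ {L : Type} [Field L] [Algebra k L] {u : Fin 2 → L} {O : Subalgebra k L},
    IsPB p u → IsPt O → ∀ F : Place k L, Crv F O → ∃ a ∈ O, ∃ b ∈ O,
      ¬ F.Ge (2 - lam k u F) (jac k u ![a, b])
  om_change : ∀ {L : Type} [Field L] [Algebra k L] {u v : Fin 2 → L} {O : Subalgebra k L},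
    IsPB p u → IsPB p v → IsPt O → (∀ f, f ∈ Om v O ↔ f * jac k u v ∈ Om u O) ∧
      (PRat u O → PRat v O)
  par_pb : ∀ {L : Type} [Field L] [Algebra k L] {u : Fin 2 → L} {O : Subalgebra k L} {a b : L},
    IsPB p u → IsPt O → Par O a b → Red p O a b ∧ (∀ i, ∀ f ∈ O, pd k ![a, b] i f ∈ O) ∧
      (∀ F : Place k L, Crv F O → lam k ![a, b] F = 1) ∧ PRat u O
  par_crv : ∀ {L : Type} [Field L] [Algebra k L] {u : Fin 2 → L} {O : Subalgebra k L} {a b : L},
    IsPB p u → IsPt O → Par O a b → ∃ E : Place k L, Crv E O ∧ E.ord a = 1 ∧ E.ord b = 0 ∧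
      (∀ f ∈ O, E.Ge 1 f → f / a ∈ O) ∧ (∀ F : Place k L, Crv F O → F ≠ E → F.ord a = 0) ∧
      ∀ f ∈ O, ¬ E.Ge 1 f → ∃ (n : ℕ) (v : L), UN O v ∧ E.Ge 1 (f - v * b ^ n)
  par_pow : ∀ {L : Type} [Field L] [Algebra k L] {u : Fin 2 → L} {O : Subalgebra k L} {a b : L},
    IsPB p u → IsPt O → Par O a b → ∀ (n : ℕ) (c : Fin (n + 1) → k),
      ∑ i, c i • (a ^ (n - i) * b ^ (i : ℕ)) ∈ mx O ^ (n + 1) → c = 0
  mon_of_dvd : ∀ {L : Type} [Field L] [Algebra k L] {u : Fin 2 → L} {O : Subalgebra k L}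
    {a b f g : L}, IsPB p u → IsPt O → Par O a b → f ∈ O → g ∈ O → f * g ≠ 0 →
      Mon O a b (f * g) → Mon O a b f

end Pool.Agent.Lib.MP_5f81cf_ag.Full
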