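import Pool.Agent.Lib.MP_5f81cf_ag.FBlue7

/-! Statements of the steps towards `St_RES`. -/

namespace Pool.Agent.Lib.MP_5f81cf_ag.Full

open Pool.Agent.Lib.MP_e06174_ag

variable (k : Type) [Field k] (p : ℕ) [Fact p.Prime]

/-- Existence of a reduction. -/
def St_Red : Prop :=
  ∀ {L : Type} [Field L] [Algebra k L] {u : Fin 2 → L} {O : Subalgebra k L},
    IsPB p u → IsPt O → ∃ x y, Red p O x y

/-- The trace of regular forms is regular. -/
def St_T1 : Prop :=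
  ∀ {K L : Type} [Field K] [Algebra k K] [Algebra.EssFiniteType k K] [Field L] [Algebra k L]
    [Algebra K L] [IsScalarTower k K L] [FiniteDimensional K L] [Algebra.IsSeparable K L]
    {d : ℕ} {x : Fin (d + 1) → K} {F₀ : Place k K}, IsPB p x → IsDivisorial (d + 1) F₀ →
    ∀ σ : L, (∀ (F : Place k L) (e : ℕ), F.Over (IsScalarTower.toAlgHom k K L) F₀ e →
      F.Ge (1 - lam k (fun i => algebraMap K L (x i)) F) σ) →
    F₀.Ge (1 - lam k x F₀) (Algebra.trace K L σ)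

/-- The trace dual consists of regular forms. -/
def St_T2 : Prop :=
  ∀ {K L : Type} [Field K] [Algebra k K] [Algebra.EssFiniteType k K] [Field L] [Algebra k L]
    [Algebra K L] [IsScalarTower k K L] [FiniteDimensional K L] [Algebra.IsSeparable K L]
    {d : ℕ} {x : Fin (d + 1) → K} {F₀ : Place k K}, IsPB p x → IsDivisorial (d + 1) F₀ →
    ∀ σ : L, (∀ b : L, (∀ (F : Place k L) (e : ℕ), F.Over (IsScalarTower.toAlgHom k K L) F₀ e →
      F.Ge 0 b) → F₀.Ge (1 - lam k x F₀) (Algebra.trace K L (σ * b))) →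
    ∀ (F : Place k L) (e : ℕ), F.Over (IsScalarTower.toAlgHom k K L) F₀ e →
      F.Ge (1 - lam k (fun i => algebraMap K L (x i)) F) σ

/-- The semilocal ring over the plane: comparison with `O`. -/
def St_Semi : Prop :=
  ∀ {L : Type} [Field L] [Algebra k L] {O : Subalgebra k L} {x y : L}, IsPt O → Red p O x y →
    LI k x y ≤ O ∧ (∀ f ∈ O, ∃ s ∈ LI k x y, UN O s ∧ s * f ∈ LI k x y) ∧
    (∀ f ∈ O, ∃ g ∈ LI k x y, f - g ∈ sp2 O x y) ∧
    ∀ l : ℤ, ∃ ε ∈ LI k x y, NU O (ε - 1) ∧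
      (∀ w ∈ LI k x y, w ∈ sp2 O x y → ε * w ∈ sp2 (LI k x y) x y) ∧
      ∀ E : Place k L, Rees x y E → ¬ Dom E O → E.Ge l ε

/-- The semilocal ring over the plane is free. -/
def St_Free : Prop :=
  ∀ {L : Type} [Field L] [Algebra k L] [Algebra.EssFiniteType k L] {x y : L}, IsPB p ![x, y] →
    ∃ (n : ℕ) (b b' : Fin n → L), (∀ i, b i ∈ LI k x y) ∧
      (∀ f, f = ∑ i, tr k x y (f * b' i) * b i) ∧ (∀ f, f = ∑ i, tr k x y (f * b i) * b' i) ∧
      ∀ f ∈ LI k x y, ∀ i, tr k x y (f * b' i) ∈ LA k x y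

/-- The local ring of the plane. -/
structure Pln : Prop where
  mem : ∀ {L : Type} [Field L] [Algebra k L] {x y : L}, IsPB p ![x, y] → ∀ f, f ∈ LA k x y ↔
    ∃ P Q : MvPolynomial (Fin 2) k, MvPolynomial.constantCoeff Q ≠ 0 ∧
      f * MvPolynomial.aeval ![x, y] Q = MvPolynomial.aeval ![x, y] P
  res : ∀ {L : Type} [Field L] [Algebra k L] {x y : L}, IsPB p ![x, y] → ∀ f ∈ LA k x y,
    ∃ c : k, f - algebraMap k L c ∈ sp2 (LA k x y) x y
  indep : ∀ {L : Type} [Field L] [Algebra k L] {x y : L}, IsPB p ![x, y] → ∀ (n : ℕ)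
    (c : Fin (n + 1) → L), (∀ i, c i ∈ LA k x y) →
      ∑ i, c i * (x ^ (n - i) * y ^ (i : ℕ)) ∈ sp2 (LA k x y) x y ^ (n + 1) →
      ∀ i, c i ∈ sp2 (LA k x y) x y
  rees_fin : ∀ {L : Type} [Field L] [Algebra k L] [Algebra.EssFiniteType k L] {x y : L},
    IsPB p ![x, y] → {E : Place k L | Rees x y E}.Finite ∧ ∀ E : Place k L, Rees x y E →
      IsDivisorial 2 E ∧ ∀ f ∈ LI k x y, E.Ge 0 f
  tr_ord : ∀ {L : Type} [Field L] [Algebra k L] [Algebra.EssFiniteType k L] {x y : L},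
    IsPB p ![x, y] → ∀ (n : ℕ) (σ : L),
      (∀ E : Place k L, Rees x y E → E.Ge ((n + 1) * E.ord x + 1 - lam k ![x, y] E) σ) →
      tr k x y σ ∈ LA k x y → tr k x y σ ∈ sp2 (LA k x y) x y ^ n

/-- Trace duality. -/
def St_Dual : Prop :=
  ∀ {L : Type} [Field L] [Algebra k L] {O : Subalgebra k L} {x y : L}, IsPt O → Red p O x y →
    ∀ σ : L, ((∀ b ∈ LI k x y, tr k x y (σ * b) ∈ LA k x y) → σ ∈ Om ![x, y] O) ∧
      (σ ∈ Om ![x, y] O → ∃ s ∈ LI k x y, UN O s ∧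
        ∀ b ∈ LI k x y, tr k x y (s * σ * b) ∈ LA k x y)

/-- Briançon–Skoda. -/
def St_BS1 : Prop :=
  ∀ {L : Type} [Field L] [Algebra k L] {u : Fin 2 → L} {O : Subalgebra k L} {x y : L},
    IsPB p u → PRat u O → Red p O x y → (∃ E : Place k L, Rees x y E ∧ Dom E O) ∧
    ∀ (n : ℕ), ∀ a ∈ O, (∀ E : Place k L, Rees x y E → Dom E O → E.Ge ((n + 1) * E.ord x) a) →
      a ∈ sp2 O x y ^ n * mx O

/-- Briançon–Skoda for forms. -/
def St_BS2 : Prop :=
  ∀ {L : Type} [Field L] [Algebra k L] {u : Fin 2 → L} {O : Subalgebra k L} {x y : L},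
    IsPB p u → PRat u O → Red p O x y → ¬ Reg O → ∀ (n : ℕ), ∀ σ ∈ Om u O,
      (∀ E : Place k L, Rees x y E → Dom E O → E.Ge (n * E.ord x + 1 - lam k u E) σ) →
      σ ∈ mx O ^ n * Om u O

/-- Gorenstein points have embedding dimension at most three. -/
def St_Gor : Prop :=
  ∀ {L : Type} [Field L] [Algebra k L] {u : Fin 2 → L} {O : Subalgebra k L} {x y θ : L},
    IsPB p u → PRat u O → Red p O x y → Om u O = Submodule.span O {θ} →
    ∃ t, mx O = Submodule.span O {x, y, t}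

/-- Charts of the blow-up. -/
structure Qt1 : Prop where
  le : ∀ {L : Type} [Field L] [Algebra k L] {O O' : Subalgebra k L} {x : L}, IsPt O →
    QT O x O' → O ≤ O' ∧ Bl O x ≤ O' ∧ NU O' x ∧ (∀ f, NU O f → NU O' f ∧ f / x ∈ O') ∧
      ∀ f ∈ O', ∃ v, UN O' v ∧ ∃ n : ℕ, ∀ c, n ≤ c → f * v * x ^ c ∈ O
  change : ∀ {L : Type} [Field L] [Algebra k L] {O O' : Subalgebra k L} {x x' : L}, IsPt O →
    QT O x O' → NU O x' → x' ≠ 0 → x / x' ∈ O' → QT O x' O'
  uniq : ∀ {L : Type} [Field L] [Algebra k L] {O O' O'' : Subalgebra k L} {x x' : L}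
    (V : ValuationSubring L), IsPt O → QT O x O' → QT O x' O'' → VDom V O' → VDom V O'' → O' = O''
  mem_bl : ∀ {L : Type} [Field L] [Algebra k L] {u : Fin 2 → L} {O : Subalgebra k L} {x y : L},
    IsPB p u → PRat u O → Red p O x y → mx O * mx O = sp2 O x y * mx O ∧
      ∀ f, f ∈ Bl O x ↔ (∃ n : ℕ, x ^ n * f ∈ O) ∧
        ∀ E : Place k L, Rees x y E → Dom E O → E.Ge 0 f
  or : ∀ {L : Type} [Field L] [Algebra k L] {u : Fin 2 → L} {O O' : Subalgebra k L} {x y x' : L},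
    IsPB p u → PRat u O → Red p O x y → QT O x' O' → QT O x O' ∨ (QT O y O' ∧ NU O' (x / y))
  exc_iff : ∀ {L : Type} [Field L] [Algebra k L] {u : Fin 2 → L} {O : Subalgebra k L} {x y : L},
    IsPB p u → PRat u O → Red p O x y → ∀ E : Place k L, Exc O E ↔ Rees x y E ∧ Dom E O
  swap : ∀ {L : Type} [Field L] [Algebra k L] {O : Subalgebra k L} {x y : L} (c : k),
    Red p O x y → Red p O y x ∧ Red p O x (y - algebraMap k L c * x)

/-- Points of the blow-up. -/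
structure Qt2 : Prop where
  pt : ∀ {L : Type} [Field L] [Algebra k L] {u : Fin 2 → L} {O O' : Subalgebra k L} {x : L},
    IsPB p u → PRat u O → QT O x O' → IsPt O'
  crv : ∀ {L : Type} [Field L] [Algebra k L] {u : Fin 2 → L} {O O' : Subalgebra k L} {x : L},
    IsPB p u → PRat u O → QT O x O' → ∀ E : Place k L,
      (Crv E O' → Dom E O → Exc O E) ∧ (Exc O E → ¬ Dom E O')
  next : ∀ {L : Type} [Field L] [Algebra k L] {u : Fin 2 → L} {O : Subalgebra k L}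
    (V : ValuationSubring L), IsPB p u → PRat u O → VDom V O →
      (∃ x O', QT O x O' ∧ VDom V O') ∨ ∃ E : Place k L, Exc O E ∧ ∀ f, f ∈ V ↔ E.Ge 0 f
  par : ∀ {L : Type} [Field L] [Algebra k L] {u : Fin 2 → L} {O O' : Subalgebra k L}
    {a b x : L}, IsPB p u → IsPt O → Par O a b → QT O x O' →
      (∃ c : k, QT O a O' ∧ Par O' a (b / a - algebraMap k L c)) ∨ (QT O b O' ∧ Par O' (a / b) b)
  om : ∀ {L : Type} [Field L] [Algebra k L] {u : Fin 2 → L} {O O' : Subalgebra k L} {x : L},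
    IsPB p u → PRat u O → ¬ Reg O → QT O x O' → Om u O' = Submodule.span O' (Om u O : Set L)
  prat : ∀ {L : Type} [Field L] [Algebra k L] {u : Fin 2 → L} {O O' : Subalgebra k L} {x : L},
    IsPB p u → PRat u O → QT O x O' → PRat u O'

/-- Valuation rings with transcendental residue field are places. -/
def St_VP : Prop :=
  ∀ {L : Type} [Field L] [Algebra k L] [Algebra.EssFiniteType k L] {u : Fin 2 → L}
    (W : ValuationSubring L) (f : L), IsPB p u → (∀ c : k, algebraMap k L c ∈ W) → W ≠ ⊤ →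
    f ∈ W → (∀ c : k, f - algebraMap k L c ∉ W.nonunits) →
    ∃ E : Place k L, IsDivisorial 2 E ∧ ∀ g, g ∈ W ↔ E.Ge 0 g

/-- The union of a chain is a valuation ring. -/
def St_Union : Prop :=
  ∀ {L : Type} [Field L] [Algebra k L] {u : Fin 2 → L} {O : ℕ → Subalgebra k L} {x : ℕ → L},
    IsPB p u → PRat u (O 0) → Chain O x → ∀ f, ∃ n, f ∈ O n ∨ f⁻¹ ∈ O n

/-- A chain with a constant chart parameter follows a curve or is separated. -/
def St_Arc : Prop :=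
  ∀ {L : Type} [Field L] [Algebra k L] {u : Fin 2 → L} {O : ℕ → Subalgebra k L} {x g : L},
    IsPB p u → PRat u (O 0) → Chain O (fun _ => x) → g ≠ 0 → (∀ n : ℕ, ∃ m, g / x ^ n ∈ O m) →
    ∃ Γ : Place k L, (∀ n, Crv Γ (O n)) ∧ Γ.ord x = 0 ∧
      ∀ f, (Γ.Ge 1 f ↔ ∀ n : ℕ, ∃ m, f / x ^ n ∈ O m) ∧
        (f ≠ 0 → Γ.ord f = 0 → ∃ (i : ℤ) (m : ℕ), UN (O m) (f / x ^ i))

/-- A chain following a curve makes it regular and transversal. -/
def St_ArcPar : Prop :=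
  ∀ {L : Type} [Field L] [Algebra k L] {u : Fin 2 → L} {O : ℕ → Subalgebra k L} {x : L}
    {Γ : Place k L}, IsPB p u → PRat u (O 0) → Chain O (fun _ => x) → (∀ n, Crv Γ (O n)) →
    (∀ f, f ≠ 0 → Γ.ord f = 0 → ∃ (i : ℤ) (m : ℕ), UN (O m) (f / x ^ i)) →
    ∃ n₀, ∀ n, n₀ ≤ n → ∀ f, NU (O n) f → ∃ g ∈ O n, Γ.Ge 1 (f - x * g)

/-- Chains of double points eventually use the same chart. -/
def St_DP : Prop :=
  ∀ {L : Type} [Field L] [Algebra k L] {u : Fin 2 → L} {O : ℕ → Subalgebra k L} {x : ℕ → L}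
    {θ : L}, IsPB p u → PRat u (O 0) → Chain O x → (∀ n, ¬ Reg (O n)) →
    (∀ n, Om u (O n) = Submodule.span (O n) {θ}) →
    ∃ (n₀ : ℕ) (x₀ : L), ∀ n, n₀ ≤ n → QT (O n) x₀ (O (n + 1))

/-- Chains become regular. -/
def St_TermS : Prop :=
  ∀ {L : Type} [Field L] [Algebra k L] {u : Fin 2 → L} {O : ℕ → Subalgebra k L} {x : ℕ → L},
    IsPB p u → PRat u (O 0) → Chain O x → ∃ n, Reg (O n)

/-- Along a chain of regular points a function becomes monomial. -/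
def St_TermR : Prop :=
  ∀ {L : Type} [Field L] [Algebra k L] {u : Fin 2 → L} {O : ℕ → Subalgebra k L} {x : ℕ → L}
    {g : L}, IsPB p u → IsPt (O 0) → Reg (O 0) → Chain O x → g ≠ 0 → g ∈ O 0 →
    ∃ n a b, 1 ≤ n ∧ Par (O n) a b ∧ Mon (O n) a b g

/-- Chains become good. -/
def St_Term : Prop :=
  ∀ {L : Type} [Field L] [Algebra k L] {u : Fin 2 → L} {O : ℕ → Subalgebra k L} {x : ℕ → L}
    {η : L} {N : ℕ} {O₀ : Subalgebra k L}, IsPB p u → PRat u O₀ → η ≠ 0 →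
    Relation.ReflTransGen (fun O O' => ∃ x, QT O x O') O₀ (O 0) → Chain O x →
    ∃ n, 1 ≤ n ∧ GoodPt u η N O₀ (O n)

/-- Linear systems of minimal degree generate rational fields. -/
def St_Geo : Prop :=
  ∀ {κ : Type} [Field κ] [Algebra k κ] [Algebra.EssFiniteType k κ] (W : Submodule k κ)
    [FiniteDimensional k W] (y : κ), Algebra.trdeg k κ = 1 → 1 ∈ W → y ∈ W →
    (∀ a ∈ W, ∀ b ∈ W, ∃ c ∈ W, ∃ d ∈ W, a * b = c + y * d) →
    IntermediateField.adjoin k (W : Set κ) = ⊤ → ∃ z : κ, IntermediateField.adjoin k {z} = ⊤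

/-- Exceptional curves are rational. -/
def St_Ratl : Prop :=
  ∀ {L : Type} [Field L] [Algebra k L] {u : Fin 2 → L} {O : Subalgebra k L} {E : Place k L},
    IsPB p u → PRat u O → Exc O E → ∃ (ρ : L → RatFunc k) (t z : L), Adapt p E ρ t ![z] ∧
      ρ z = RatFunc.X

/-- Finiteness statements for a chart of the blow-up. -/
structure Fb1 : Prop where
  pole : ∀ {L : Type} [Field L] [Algebra k L] {u : Fin 2 → L} {O : Subalgebra k L} {x y : L},
    IsPB p u → PRat u O → Red p O x y → {O' | QT O y O' ∧ NU O' (x / y)}.Finite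
  zero : ∀ {L : Type} [Field L] [Algebra k L] {u : Fin 2 → L} {O : Subalgebra k L} {x y h : L}
    {E : Place k L}, IsPB p u → PRat u O → Red p O x y → Exc O E → h ∈ Bl O x → ¬ E.Ge 1 h →
    {O' | QT O x O' ∧ Crv E O' ∧ NU O' h}.Finite
  supp : ∀ {L : Type} [Field L] [Algebra k L] {u : Fin 2 → L} {O : Subalgebra k L} {x y : L},
    IsPB p u → PRat u O → Red p O x y → ∀ f : L,
    {F : Place k L | (∃ O', QT O x O' ∧ Crv F O') ∧ F.ord f ≠ 0}.Finite
  meet : ∀ {L : Type} [Field L] [Algebra k L] {u : Fin 2 → L} {O : Subalgebra k L} {x y : L}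
    {E F : Place k L}, IsPB p u → PRat u O → Red p O x y → Exc O E → F ≠ E →
    {O' | QT O x O' ∧ Crv E O' ∧ Crv F O'}.Finite
  loc : ∀ {L : Type} [Field L] [Algebra k L] {u : Fin 2 → L} {O : Subalgebra k L} {x y : L}
    {E : Place k L}, IsPB p u → PRat u O → Red p O x y → Exc O E → ∀ f, E.Ge 0 f →
    ∃ b ∈ Bl O x, ¬ E.Ge 1 b ∧ f * b ∈ Bl O x

/-- Almost all points of the blow-up are good. -/
def St_FB : Prop :=
  ∀ {L : Type} [Field L] [Algebra k L] {u : Fin 2 → L} {O : Subalgebra k L} (η : L) (N : ℕ)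
    (G : Finset L), IsPB p u → PRat u O → η ≠ 0 → (∀ g ∈ G, g ≠ 0) →
    {O' | (∃ x, QT O x O') ∧ ¬ ∃ a b, Par O' a b ∧ Mon O' a b (η * jac k u ![a, b] ^ N) ∧
      ∀ g ∈ G, Mon O' a b g}.Finite

/-- Finitely many points are blown up. -/
def St_Fin : Prop :=
  ∀ {L : Type} [Field L] [Algebra k L] {u : Fin 2 → L} {O₀ : Subalgebra k L} (η : L) (N : ℕ),
    IsPB p u → PRat u O₀ → η ≠ 0 →
    {E : Place k L | ∃ O, Intn u η N O₀ O ∧ Exc O E}.Finite

/-- Selection of the exceptional curve. -/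
def St_Sel : Prop :=
  ∀ {L : Type} [Field L] [Algebra k L] {u : Fin 2 → L} {O₀ : Subalgebra k L} (η : L) (N : ℕ),
    IsPB p u → PRat u O₀ → η ≠ 0 → 0 < N →
    (∀ F : Place k L, (∀ f ∈ O₀, F.Ge 0 f) → IsDivisorial 2 F → F.ord η < N * lam k u F) →
    ∃ (E : Place k L) (O₁ : Subalgebra k L), PRat u O₁ ∧ Exc O₁ E ∧ Dom E O₀ ∧
      ∀ V : ValuationSubring L, (∀ c : k, algebraMap k L c ∈ V) → (∀ f ∈ V, E.Ge 0 f) →
        (∃ f, E.Ge 0 f ∧ f ∉ V) →
        ∃ (O : Subalgebra k L) (a b s : L) (i j n n' : ℤ), IsPt O ∧ VDom V O ∧ Par O a b ∧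
          Crv E O ∧ E.ord a = 1 ∧ UN O (η * jac k u ![a, b] ^ N / (a ^ i * b ^ j)) ∧ s ∈ O₀ ∧
          UN O (s / (a ^ n * b ^ n')) ∧ 0 < n ∧ i < N ∧ n' * (N - i) < n * (N - j)

end Pool.Agent.Lib.MP_5f81cf_ag.Full
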