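import Pool.Agent.Lib.MP_5f81cf_ag.FCarA

/-! Formal properties of `p`-bases, second part: partial derivatives and Jacobians. -/

namespace Pool.Agent.Lib.MP_5f81cf_ag.Full

namespace C1B

open Finset

section gen

variable {k K : Type} [Field k] [Field K] [Algebra k K] {d : ℕ} {p : ℕ}

/-- A derivation with eigenvectors `a j` acts diagonally on monomials. -/
lemma der_prod (D : Derivation k K K) (a lam : Fin d → K) (h : ∀ j, D (a j) = lam j * a j)
    (e : Fin d → ℕ) (S : Finset (Fin d)) :
    D (∏ j ∈ S, a j ^ e j) = (∑ j ∈ S, (e j : K) * lam j) * ∏ j ∈ S, a j ^ e j := by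
  have hp : ∀ j (n : ℕ), D (a j ^ n) = ((n : K) * lam j) * a j ^ n := by
    intro j n
    induction n with
    | zero => simp
    | succ n ih =>
      rw [pow_succ, Derivation.leibniz, ih, h]
      simp only [smul_eq_mul]
      push_cast
      ring
  induction S using Finset.induction_on with
  | empty => simp
  | insert j S hj ih =>
    rw [prod_insert hj, sum_insert hj, Derivation.leibniz, ih, hp]
    simp only [smul_eq_mul]
    ring

lemma der_sum_apply {ι : Type} (S : Finset ι) (D : ι → Derivation k K K) (f : K) :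
    (∑ s ∈ S, D s) f = ∑ s ∈ S, D s f := by
  classical
  induction S using Finset.induction_on with
  | empty => simp
  | insert s S hs ih => rw [sum_insert hs, sum_insert hs, Derivation.add_apply, ih]

lemma der_pow [CharP K p] (D : Derivation k K K) (c : K) : D (c ^ p) = 0 := by
  rw [Derivation.leibniz_pow, nsmul_eq_mul, CharP.cast_eq_zero, zero_mul]

lemma der_pow_mul [CharP K p] (D : Derivation k K K) (c f : K) :
    D (c ^ p * f) = c ^ p * D f := by
  rw [Derivation.leibniz, der_pow, smul_zero, add_zero, smul_eq_mul]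

/-- A derivation vanishing on a `p`-basis vanishes. -/
lemma der_zero [CharP K p] {x : Fin d → K} (h : IsPB p x) (D : Derivation k K K)
    (hD : ∀ j, D (x j) = 0) (g : K) : D g = 0 := by
  rw [pcoef_spec h g, map_sum]
  refine sum_eq_zero fun α _ => ?_
  rw [der_pow_mul, pmon, der_prod D x 0 (fun j => by simp [hD j])]
  simp

/-- The Euler operator attached to a dual derivation. -/
lemma euler_pmon (D : Derivation k K K) (a : Fin d → K) (i : Fin d)
    (h : ∀ j, D (a j) = if j = i then 1 else 0) (α : Fin d → Fin p) :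
    a i * D (pmon p a α) = ((α i : ℕ) : K) * pmon p a α := by
  have := der_prod (a i • D) a (fun j => if j = i then 1 else 0) (fun j => by
    by_cases hj : j = i
    · subst hj
      simp [h]
    · simp [h, hj]) (fun j => (α j : ℕ)) univ
  simpa [pmon] using this

variable [Fact p.Prime]

lemma pb_ne_zero {x : Fin d → K} (h : IsPB p x) (i : Fin d) : x i ≠ 0 := by
  intro hx
  classical
  let α : Fin d → Fin p := fun _ => ⟨1, (Fact.out : p.Prime).one_lt⟩
  have h0 : pmon p x α = 0 := prod_eq_zero (mem_univ i) (by simp [α, hx])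
  have h1 : ∑ β, (Pi.single α (1 : K) : (Fin d → Fin p) → K) β ^ p * pmon p x β = 0 := by
    rw [Finset.sum_eq_single α]
    · simp [h0]
    · intro β _ hβ
      simp [Pi.single_eq_of_ne hβ, (Fact.out : p.Prime).ne_zero]
    · simp
  simpa using pb_indep h h1 α

lemma pcoef_pmon {x : Fin d → K} (h : IsPB p x) (α : Fin d → Fin p) :
    pcoef h (pmon p x α) = Pi.single α 1 := by
  refine pcoef_eq h ?_
  rw [Finset.sum_eq_single α]
  · simp
  · intro β _ hβ
    simp [Pi.single_eq_of_ne hβ, (Fact.out : p.Prime).ne_zero]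
  · simp

/-- The Euler operator of a `p`-basis. -/
noncomputable def eul {x : Fin d → K} (h : IsPB p x) (i : Fin d) (f : K) : K :=
  ∑ α, pcoef h f α ^ p * (((α i : ℕ) : K) * pmon p x α)

lemma eul_add [CharP K p] {x : Fin d → K} (h : IsPB p x) (i : Fin d) (f g : K) :
    eul h i (f + g) = eul h i f + eul h i g := by
  unfold eul
  rw [← sum_add_distrib, pcoef_add]
  refine sum_congr rfl fun α _ => ?_
  rw [Pi.add_apply, add_pow_char, add_mul]

omit [Fact p.Prime] in
lemma eul_pow_mul {x : Fin d → K} (h : IsPB p x) (i : Fin d) (g f : K) :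
    eul h i (g ^ p * f) = g ^ p * eul h i f := by
  unfold eul
  rw [mul_sum, pcoef_pow_mul]
  refine sum_congr rfl fun α _ => ?_
  rw [Pi.smul_apply, smul_eq_mul, mul_pow, mul_assoc]

lemma eul_pmon {x : Fin d → K} (h : IsPB p x) (i : Fin d) (α : Fin d → Fin p) :
    eul h i (pmon p x α) = ((α i : ℕ) : K) * pmon p x α := by
  unfold eul
  rw [pcoef_pmon, Finset.sum_eq_single α]
  · simp
  · intro β _ hβ
    simp [Pi.single_eq_of_ne hβ, (Fact.out : p.Prime).ne_zero]
  · simp

lemma eul_mon [CharP K p] {x : Fin d → K} (h : IsPB p x) (i : Fin d) (e : Fin d → ℕ) :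
    eul h i (∏ j, x j ^ e j) = (e i : K) * ∏ j, x j ^ e j := by
  let α : Fin d → Fin p := fun j => ⟨e j % p, Nat.mod_lt _ (Fact.out : p.Prime).pos⟩
  have h1 : ∏ j, x j ^ e j = (∏ j, x j ^ (e j / p)) ^ p * pmon p x α := by
    rw [pmon, ← prod_pow, ← prod_mul_distrib]
    refine prod_congr rfl fun j _ => ?_
    rw [← pow_mul, ← pow_add]
    congr 1
    exact (Nat.div_add_mod' (e j) p).symm
  have h2 : ((α i : ℕ) : K) = (e i : K) := (CharP.cast_eq_mod K p (e i)).symm
  rw [h1, eul_pow_mul, eul_pmon, h2]
  ring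

lemma eul_zero [CharP K p] {x : Fin d → K} (h : IsPB p x) (i : Fin d) : eul h i 0 = 0 := by
  have := eul_pow_mul h i 0 0
  simpa [(Fact.out : p.Prime).ne_zero] using this

lemma eul_sum [CharP K p] {x : Fin d → K} (h : IsPB p x) (i : Fin d) {ι : Type} (S : Finset ι)
    (f : ι → K) : eul h i (∑ s ∈ S, f s) = ∑ s ∈ S, eul h i (f s) := by
  classical
  induction S using Finset.induction_on with
  | empty => simpa using eul_zero h i
  | insert s S hs ih => rw [sum_insert hs, sum_insert hs, eul_add, ih]

lemma eul_mul [CharP K p] {x : Fin d → K} (h : IsPB p x) (i : Fin d) (f g : K) :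
    eul h i (f * g) = f * eul h i g + g * eul h i f := by
  have hm : ∀ α β : Fin d → Fin p, eul h i (pmon p x α * pmon p x β) =
      (((α i : ℕ) : K) + ((β i : ℕ) : K)) * (pmon p x α * pmon p x β) := by
    intro α β
    have e : pmon p x α * pmon p x β = ∏ j, x j ^ ((α j : ℕ) + (β j : ℕ)) := by
      rw [pmon, pmon, ← prod_mul_distrib]
      exact prod_congr rfl fun j _ => (pow_add _ _ _).symm
    rw [e, eul_mon h i fun j => (α j : ℕ) + (β j : ℕ)]
    push_cast
    rfl
  have hl : eul h i (f * g) = ∑ α, ∑ β, (pcoef h f α ^ p * pcoef h g β ^ p) *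
      ((((α i : ℕ) : K) + ((β i : ℕ) : K)) * (pmon p x α * pmon p x β)) := by
    conv_lhs => rw [pcoef_spec h f, pcoef_spec h g, sum_mul_sum, eul_sum]
    refine sum_congr rfl fun α _ => ?_
    rw [eul_sum]
    refine sum_congr rfl fun β _ => ?_
    rw [← hm, ← mul_pow, ← eul_pow_mul]
    congr 1
    rw [mul_pow]
    ring
  have h1 : f * eul h i g = ∑ α, ∑ β, (pcoef h f α ^ p * pmon p x α) *
      (pcoef h g β ^ p * (((β i : ℕ) : K) * pmon p x β)) := by
    rw [← sum_mul_sum, ← pcoef_spec h f, eul]
  have h2 : g * eul h i f = ∑ α, ∑ β, (pcoef h f α ^ p * (((α i : ℕ) : K) * pmon p x α)) *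
      (pcoef h g β ^ p * pmon p x β) := by
    rw [← sum_mul_sum, ← pcoef_spec h g, eul, mul_comm]
  rw [hl, h1, h2, ← sum_add_distrib]
  refine sum_congr rfl fun α _ => ?_
  rw [← sum_add_distrib]
  refine sum_congr rfl fun β _ => ?_
  ring

omit [Fact p.Prime] in
/-- Independence of monomials from a dual family of derivations. -/
lemma indep_of_dual [CharP K p] (a : Fin d → K) (D : Fin d → Derivation k K K)
    (hD : ∀ i j, D i (a j) = if j = i then 1 else 0) (S : Finset (Fin d → Fin p)) :
    ∀ w : (Fin d → Fin p) → K, (∀ i α, D i (w α) = 0) → ∑ α ∈ S, w α * pmon p a α = 0 →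
      ∀ α ∈ S, w α = 0 := by
  have ha : ∀ i, a i ≠ 0 := by
    intro i hi
    have := hD i i
    rw [hi, map_zero, if_pos rfl] at this
    exact zero_ne_one this
  induction S using Finset.induction_on with
  | empty => simp
  | insert β S hβ ih =>
    intro w hw hs
    have h1 : ∀ α ∈ S, w α = 0 := by
      intro α hα
      have hne : α ≠ β := fun e => hβ (e ▸ hα)
      obtain ⟨i, hi⟩ := Function.ne_iff.1 hne
      have h2 : ∑ γ ∈ insert β S, w γ * (((γ i : ℕ) : K) * pmon p a γ) = 0 := by
        have h3 := congrArg (fun f => a i * D i f) hs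
        simp only [map_sum, map_zero, mul_zero, mul_sum] at h3
        rw [← h3]
        refine sum_congr rfl fun γ _ => ?_
        rw [Derivation.leibniz, hw, smul_zero, add_zero, smul_eq_mul,
          ← euler_pmon (D i) a i (hD i)]
        ring
      have h4 : ∑ γ ∈ insert β S,
          ((((γ i : ℕ) : K) - ((β i : ℕ) : K)) * w γ) * pmon p a γ = 0 := by
        have h5 := congrArg (fun f => ((β i : ℕ) : K) * f) hs
        simp only [mul_zero, mul_sum] at h5
        rw [← sub_zero (0 : K)]
        have h6 := congrArg₂ (· - ·) h2 h5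
        simp only [← sum_sub_distrib] at h6
        rw [← h6]
        refine sum_congr rfl fun γ _ => ?_
        ring
      rw [sum_insert hβ, sub_self, zero_mul, zero_mul, zero_add] at h4
      have h7 := ih (fun γ => (((γ i : ℕ) : K) - ((β i : ℕ) : K)) * w γ) (fun j γ => by
        simp [Derivation.leibniz, hw]) h4 α hα
      refine (mul_eq_zero.1 h7).resolve_left fun h8 => hi ?_
      have h9 := (CharP.natCast_eq_natCast K p).1 (sub_eq_zero.1 h8)
      exact Fin.ext (Nat.ModEq.eq_of_lt_of_lt h9 (α i).2 (β i).2)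
    rw [sum_insert hβ, sum_eq_zero fun α hα => by rw [h1 α hα, zero_mul], add_zero] at hs
    have h2 : pmon p a β ≠ 0 := prod_ne_zero_iff.2 fun j _ => pow_ne_zero _ (ha j)
    intro α hα
    rcases mem_insert.1 hα with rfl | hα
    · exact (mul_eq_zero.1 hs).resolve_right h2
    · exact h1 α hα

end gen

variable {k : Type} [Field k] [IsAlgClosed k] {p : ℕ} [Fact p.Prime] [CharP k p]

lemma exists_der {K : Type} [Field K] [Algebra k K] {d : ℕ} {x : Fin d → K} (h : IsPB p x)
    (i : Fin d) : ∃ D : Derivation k K K, ∀ j, D (x j) = if j = i then 1 else 0 := by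
  have : CharP K p := charP_of_injective_algebraMap (algebraMap k K).injective p
  let L : K →ₗ[k] K :=
    { toFun := eul h i
      map_add' := eul_add h i
      map_smul' := fun r f => by
        obtain ⟨s, rfl⟩ := IsAlgClosed.exists_pow_nat_eq r (Fact.out : p.Prime).pos
        rw [RingHom.id_apply, Algebra.smul_def, Algebra.smul_def, map_pow, eul_pow_mul] }
  let E : Derivation k K K := Derivation.mk' L fun f g => by
    simpa [L] using eul_mul h i f g
  refine ⟨(x i)⁻¹ • E, fun j => ?_⟩
  have h1 : x j = ∏ l, x l ^ (if l = j then 1 else 0 : ℕ) := by simp [pow_ite]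
  have h2 : E (x j) = ((if i = j then 1 else 0 : ℕ) : K) * x j := by
    have := eul_mon h i fun l => if l = j then 1 else 0
    rw [← h1] at this
    exact this
  rw [Derivation.smul_apply, h2, smul_eq_mul]
  by_cases hj : j = i
  · subst hj
    simp [pb_ne_zero h j]
  · simp [hj, Ne.symm hj]

end C1B

open C1B Finset

variable {k : Type} [Field k] [IsAlgClosed k] {p : ℕ} [Fact p.Prime] [CharP k p]

theorem car1_pd_x : ∀ {K : Type} [Field K] [Algebra k K] {d : ℕ} {x : Fin d → K}, IsPB p x →
    ∀ i j, pd k x i (x j) = if j = i then 1 else 0 := by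
  intro K _ _ d x h i j
  have e := exists_der (k := k) h i
  unfold pd
  rw [dif_pos e]
  exact e.choose_spec j

theorem car1_der_eq : ∀ {K : Type} [Field K] [Algebra k K] {d : ℕ} {x : Fin d → K}, IsPB p x →
    ∀ (D : Derivation k K K) (g : K), D g = ∑ i, pd k x i g * D (x i) := by
  intro K _ _ d x h D g
  have : CharP K p := charP_of_injective_algebraMap (algebraMap k K).injective p
  have e : ∀ f, (D - ∑ i, D (x i) • pd k x i) f = D f - ∑ i, pd k x i f * D (x i) := by
    intro f
    rw [Derivation.sub_apply, der_sum_apply]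
    simp only [Derivation.smul_apply, smul_eq_mul, mul_comm]
  rw [← sub_eq_zero, ← e]
  refine der_zero h _ (fun j => ?_) g
  rw [e]
  simp [car1_pd_x h]

theorem car1_car_pd : ∀ {K : Type} [Field K] [Algebra k K] {d : ℕ} {x : Fin d → K}, IsPB p x →
    ∀ i f, car p x (pd k x i f) = 0 := by
  intro K _ _ d x h i f
  have : CharP K p := charP_of_injective_algebraMap (algebraMap k K).injective p
  have hs : ∀ (S : Finset (Fin d → Fin p)) (g : (Fin d → Fin p) → K),
      (∀ α, car p x (g α) = 0) → car p x (∑ α ∈ S, g α) = 0 := by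
    intro S g hg
    induction S using Finset.induction_on with
    | empty => simpa using car1_car_pow_mul (k := k) (p := p) x 0 0
    | insert s S hs ih => rw [sum_insert hs, car1_car_add (k := k), ih, hg, add_zero]
  rw [pcoef_spec h f, map_sum]
  refine hs _ _ fun α => ?_
  rw [der_pow_mul, car1_car_pow_mul (k := k)]
  refine mul_eq_zero_of_right _ ?_
  have h1 := euler_pmon (pd k x i) x i (car1_pd_x h i) α
  have hx := pb_ne_zero h i
  rcases Nat.eq_zero_or_pos (α i : ℕ) with h0 | h0
  · rw [h0, Nat.cast_zero, zero_mul] at h1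
    rw [(mul_eq_zero.1 h1).resolve_left hx]
    simpa using car1_car_pow_mul (k := k) (p := p) x 0 0
  · let β : Fin d → Fin p := Function.update α i ⟨α i - 1, lt_of_le_of_lt (Nat.sub_le _ _) (α i).2⟩
    have h2 : pmon p x α = x i * pmon p x β := by
      rw [pmon, pmon, ← mul_prod_erase _ _ (mem_univ i), ← mul_prod_erase _ _ (mem_univ i),
        ← mul_assoc, ← pow_succ']
      congr 1
      · congr 1
        simp only [β, Function.update_self]
        omega
      · refine prod_congr rfl fun j hj => ?_
        simp only [β, Function.update_of_ne (ne_of_mem_erase hj)]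
    have h3 : pd k x i (pmon p x α) = ((α i : ℕ) : K) ^ p * pmon p x β := by
      refine mul_left_cancel₀ hx ?_
      rw [h1, h2, ← frobenius_def, map_natCast]
      ring
    rw [h3, car1_car_pow_mul (k := k), car1_car_pmon (k := k) h, if_neg, mul_zero]
    intro e
    have h4 := congrArg Fin.val (congrFun e i)
    have h5 := (α i).2
    simp only [β, ptop, Function.update_self] at h4
    omega

theorem car1_jac_self : ∀ {K : Type} [Field K] [Algebra k K] {d : ℕ} {x : Fin d → K},
    IsPB p x → jac k x x = 1 := by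
  intro K _ _ d x h
  unfold jac
  rw [← Matrix.det_one (n := Fin d)]
  congr 1
  ext i j
  rw [Matrix.of_apply, car1_pd_x h, Matrix.one_apply]

theorem car1_jac_mul : ∀ {K : Type} [Field K] [Algebra k K] {d : ℕ} {x y : Fin d → K},
    IsPB p x → IsPB p y → ∀ a, jac k x a = jac k y a * jac k x y := by
  intro K _ _ d x y _ hy a
  unfold jac
  rw [← Matrix.det_mul]
  congr 1
  ext i j
  rw [Matrix.mul_apply, Matrix.of_apply, car1_der_eq hy (pd k x j) (a i)]
  rfl

theorem car1_pb_iff : ∀ {K : Type} [Field K] [Algebra k K] {d : ℕ} {x a : Fin d → K},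
    IsPB p x → (IsPB p a ↔ jac k x a ≠ 0) := by
  intro K _ _ d x a h
  have : CharP K p := charP_of_injective_algebraMap (algebraMap k K).injective p
  constructor
  · intro ha h0
    have h1 := car1_jac_mul (k := k) ha h a
    rw [car1_jac_self ha, h0, zero_mul] at h1
    exact one_ne_zero h1
  · intro h0
    set M : Matrix (Fin d) (Fin d) K := Matrix.of fun i j => pd k x j (a i) with hM
    have h1 : M * M⁻¹ = 1 := Matrix.mul_nonsing_inv M (isUnit_iff_ne_zero.2 h0)
    refine car1_pb_of_indep (k := k) h fun c hc α => ?_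
    have h2 := indep_of_dual (k := k) a (fun i => ∑ l, M⁻¹ l i • pd k x l) (fun i j => by
      have h3 := congrFun (congrFun h1 j) i
      rw [Matrix.mul_apply, Matrix.one_apply] at h3
      rw [← h3, der_sum_apply]
      refine sum_congr rfl fun l _ => ?_
      rw [Derivation.smul_apply, smul_eq_mul, mul_comm]
      rfl) univ (fun α => c α ^ p) (fun i α => der_pow _ _) hc α (mem_univ α)
    exact pow_eq_zero_iff (Fact.out : p.Prime).ne_zero |>.1 h2

end Pool.Agent.Lib.MP_5f81cf_ag.Full
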