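import Pool.Agent.Lib.MP_5f81cf_ag.FBlue4

/-! Minimal primes of the completion of a finite normal extension are cut out by idempotents. -/

namespace Pool.Agent.Lib.MP_5f81cf_ag.Full

open Pool.Agent.Lib.MP_e06174_ag TensorProduct Polynomial nonZeroDivisors IntermediateField

namespace ChE

variable {A B F K : Type} [CommRing A] [IsDomain A] [CommRing B] [IsDomain B] [Algebra A B]
  [Module.Finite A B] [Field F] [Algebra A F] [IsFractionRing A F]
  [Field K] [Algebra B K] [IsFractionRing B K] [Algebra A K] [Algebra F K]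
  [IsScalarTower A B K] [IsScalarTower A F K]

omit [IsDomain A] [IsDomain B] [Module.Finite A B] [IsFractionRing B K] in
include F K in
theorem inj : Function.Injective (algebraMap A B) := by
  have h : Function.Injective (algebraMap A K) := by
    rw [IsScalarTower.algebraMap_eq A F K]
    exact (algebraMap F K).injective.comp (IsFractionRing.injective A F)
  rw [IsScalarTower.algebraMap_eq A B K] at h
  exact Function.Injective.of_comp (f := algebraMap B K) h

include F K in
/-- An integral primitive element. -/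
theorem prim [IsIntegrallyClosed A] [Algebra.IsSeparable F K] :
    ∃ θ : B, (∀ b : B, ∃ δ : A, δ ≠ 0 ∧ ∃ a : A[X], δ • b = aeval θ a) ∧
      ∃ (β : B) (Δ : A), Δ ≠ 0 ∧
        β * aeval θ (derivative (minpoly A θ)) = algebraMap A B Δ := by
  have hAB : Function.Injective (algebraMap A B) := inj (F := F) (K := K)
  have : FaithfulSMul A B := (faithfulSMul_iff_algebraMap_injective A B).2 hAB
  have hfin : FiniteDimensional F K := Module.Finite.of_isLocalization A B A⁰
  obtain ⟨α, hα⟩ := Field.exists_primitive_element F K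
  obtain ⟨⟨θ, s⟩, hs⟩ := IsLocalization.surj (Algebra.algebraMapSubmonoid B A⁰) α
  obtain ⟨_, a, ha, rfl⟩ := s
  have ha0 : a ≠ 0 := nonZeroDivisors.ne_zero ha
  simp only at hs
  have haF : algebraMap A F a ≠ 0 := fun h => ha0 (IsFractionRing.injective A F (by simpa using h))
  have hα' : α = algebraMap F K (algebraMap A F a)⁻¹ * algebraMap B K θ := by
    rw [← hs, ← IsScalarTower.algebraMap_apply A B K, IsScalarTower.algebraMap_apply A F K,
      mul_comm α, ← mul_assoc, ← map_mul, inv_mul_cancel₀ haF, map_one, one_mul]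
  refine ⟨θ, fun b => ?_, ?_⟩
  · have hb : algebraMap B K b ∈ (F⟮α⟯).toSubalgebra := by
      rw [hα]; exact IntermediateField.mem_top
    rw [adjoin_simple_toSubalgebra_of_isAlgebraic (Algebra.IsAlgebraic.isAlgebraic α),
      Algebra.adjoin_singleton_eq_range_aeval] at hb
    obtain ⟨q, hq⟩ := hb
    let q' : F[X] := q.comp (C (algebraMap A F a)⁻¹ * X)
    have hq' : aeval (algebraMap B K θ) q' = algebraMap B K b := by
      rw [← hq]
      simp only [q', aeval_comp, map_mul, aeval_C, aeval_X, ← hα']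
      rfl
    obtain ⟨δ, hδ, hq2⟩ := IsLocalization.integerNormalization_spec A⁰ q'
    refine ⟨δ, nonZeroDivisors.ne_zero hδ, IsLocalization.integerNormalization A⁰ q', ?_⟩
    apply IsFractionRing.injective B K
    rw [← aeval_algebraMap_apply, ← aeval_map_algebraMap F, hq2, ← algebraMap_smul F δ q',
      map_smul (aeval (algebraMap B K θ)), hq', algebraMap_smul, Algebra.smul_def,
      Algebra.smul_def, map_mul, ← IsScalarTower.algebraMap_apply]
  · have hint : IsIntegral A θ := Algebra.IsIntegral.isIntegral θ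
    have hsep : (minpoly F (algebraMap B K θ)).Separable := Algebra.IsSeparable.isSeparable F _
    have hne := hsep.aeval_derivative_ne_zero (minpoly.aeval F (algebraMap B K θ))
    rw [minpoly.isIntegrallyClosed_eq_field_fractions F K hint, derivative_map,
      aeval_map_algebraMap, aeval_algebraMap_apply] at hne
    have hne' : aeval θ (derivative (minpoly A θ)) ≠ 0 := fun h => hne (by rw [h, map_zero])
    obtain ⟨Δ, hΔ, β, hβ⟩ := (Algebra.IsAlgebraic.isAlgebraic (R := A)
      (aeval θ (derivative (minpoly A θ)))).exists_nonzero_dvd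
      (mem_nonZeroDivisors_of_ne_zero hne')
    exact ⟨β, Δ, hΔ, by rw [hβ, mul_comm]⟩

variable {Ah : Type} [CommRing Ah] [Algebra A Ah]

omit [IsDomain A] [Module.Finite A B] in
theorem tf [Module.Flat A Ah] (hAB : Function.Injective (algebraMap A B)) {δ : A} (hδ : δ ≠ 0)
    (x : Ah ⊗[A] B) (hx : δ • x = 0) : x = 0 := by
  have h1 : Function.Injective (δ • (LinearMap.id : B →ₗ[A] B)) := by
    intro b c h
    simp only [LinearMap.smul_apply, LinearMap.id_apply] at h
    rw [Algebra.smul_def, Algebra.smul_def] at h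
    exact mul_left_cancel₀ (fun h0 => hδ (hAB (by simpa using h0))) h
  have h2 := Module.Flat.lTensor_preserves_injective_linearMap (M := Ah) _ h1
  apply h2
  rw [LinearMap.lTensor_smul, LinearMap.lTensor_id, map_zero]
  simpa using hx

omit [IsDomain A] [IsDomain B] [Module.Finite A B] in
theorem aeval_map_tmul (θ : B) (a : A[X]) :
    aeval ((1 : Ah) ⊗ₜ[A] θ) (a.map (algebraMap A Ah)) = (1 : Ah) ⊗ₜ[A] aeval θ a := by
  rw [aeval_map_algebraMap]
  exact aeval_algHom_apply (Algebra.TensorProduct.includeRight : B →ₐ[A] Ah ⊗[A] B) θ a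

omit [IsDomain B] [Module.Finite A B] in
theorem denom (θ : B) (hθ : ∀ b : B, ∃ δ : A, δ ≠ 0 ∧ ∃ a : A[X], δ • b = aeval θ a)
    (x : Ah ⊗[A] B) :
    ∃ δ : A, δ ≠ 0 ∧ ∃ a : Ah[X], δ • x = aeval ((1 : Ah) ⊗ₜ[A] θ) a := by
  induction x using TensorProduct.induction_on with
  | zero => exact ⟨1, one_ne_zero, 0, by simp⟩
  | tmul φ b =>
    obtain ⟨δ, hδ, a, ha⟩ := hθ b
    refine ⟨δ, hδ, C φ * a.map (algebraMap A Ah), ?_⟩
    rw [map_mul, aeval_map_tmul, aeval_C, ← ha, Algebra.TensorProduct.algebraMap_apply,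
      Algebra.TensorProduct.tmul_mul_tmul, ← tmul_smul]
    simp
  | add x y hx hy =>
    obtain ⟨δ, hδ, a, ha⟩ := hx
    obtain ⟨δ', hδ', a', ha'⟩ := hy
    refine ⟨δ * δ', mul_ne_zero hδ hδ', δ' • a + δ • a', ?_⟩
    rw [map_add, ← algebraMap_smul Ah δ' a, ← algebraMap_smul Ah δ a', map_smul, map_smul,
      algebraMap_smul, algebraMap_smul, ← ha, ← ha', smul_add, smul_smul, smul_smul, mul_comm δ' δ]

include F K in
theorem main [IsIntegrallyClosed A] [Algebra.IsSeparable F K] [IsDomain Ah]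
    [IsIntegrallyClosed Ah] [Module.Flat A Ah]
    (h5 : ∀ (x : Ah ⊗[A] B) (δ : A), δ ≠ 0 → x ^ 2 = δ • x → ∃ ε, x = δ • ε)
    (P : Ideal (Ah ⊗[A] B)) [hP : P.IsPrime] (hP0 : ∀ φ : Ah, φ ⊗ₜ[A] (1 : B) ∈ P → φ = 0) :
    ∃ ε, ε - 1 ∈ P ∧ ∀ x ∈ P, ε * x = 0 := by
  have hAB : Function.Injective (algebraMap A B) := inj (F := F) (K := K)
  obtain ⟨θ, hθ, β, Δ, hΔ, hβ⟩ := prim (A := A) (B := B) (F := F) (K := K)
  set t : Ah ⊗[A] B := (1 : Ah) ⊗ₜ[A] θ with ht
  set g : Ah[X] := (minpoly A θ).map (algebraMap A Ah) with hg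
  have hint : IsIntegral A θ := Algebra.IsIntegral.isIntegral θ
  have hg0 : aeval t g = 0 := by rw [hg, ht, aeval_map_tmul, minpoly.aeval, tmul_zero]
  have hinj : Function.Injective (algebraMap Ah ((Ah ⊗[A] B) ⧸ P)) := by
    rw [injective_iff_map_eq_zero]
    intro φ hφ
    apply hP0
    rw [← Ideal.Quotient.eq_zero_iff_mem]
    exact hφ
  have : FaithfulSMul Ah ((Ah ⊗[A] B) ⧸ P) := (faithfulSMul_iff_algebraMap_injective _ _).2 hinj
  let π : (Ah ⊗[A] B) →ₐ[Ah] ((Ah ⊗[A] B) ⧸ P) := Ideal.Quotient.mkₐ Ah P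
  have hmem : ∀ a : Ah[X], aeval t a ∈ P ↔ aeval (π t) a = 0 := by
    intro a
    rw [aeval_algHom_apply, ← Ideal.Quotient.eq_zero_iff_mem]
    rfl
  have hti : IsIntegral Ah (π t) := by
    refine ⟨g, (minpoly.monic hint).map _, ?_⟩
    rw [← aeval_def, aeval_algHom_apply, hg0, map_zero]
  have hdvd : ∀ a : Ah[X], aeval t a ∈ P → minpoly Ah (π t) ∣ a := fun a ha =>
    minpoly.isIntegrallyClosed_dvd hti ((hmem a).1 ha)
  set g1 := minpoly Ah (π t) with hg1
  have hg1P : aeval t g1 ∈ P := (hmem g1).2 (minpoly.aeval _ _)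
  obtain ⟨g2, hg2⟩ := hdvd g (by rw [hg0]; exact P.zero_mem)
  set y : Ah ⊗[A] B := ((1 : Ah) ⊗ₜ[A] β) * aeval t (derivative g1) * aeval t g2 with hy
  have hΔ1 : Δ • (1 : Ah ⊗[A] B) = ((1 : Ah) ⊗ₜ[A] β) * aeval t (derivative g) := by
    rw [hg, derivative_map, ht, aeval_map_tmul, Algebra.TensorProduct.tmul_mul_tmul, hβ,
      Algebra.TensorProduct.one_def, ← tmul_smul, Algebra.algebraMap_eq_smul_one, mul_one]
  have hyΔ : y - Δ • (1 : Ah ⊗[A] B) ∈ P := by
    have : y - Δ • (1 : Ah ⊗[A] B) =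
        -(((1 : Ah) ⊗ₜ[A] β) * aeval t (derivative g2)) * aeval t g1 := by
      rw [hΔ1, hg2, derivative_mul, map_add, map_mul, map_mul, hy]
      ring
    rw [this]
    exact P.mul_mem_left _ hg1P
  have hyP : ∀ x ∈ P, y * x = 0 := by
    intro x hx
    obtain ⟨δ, hδ, a, ha⟩ := denom θ hθ x
    have haP : aeval t a ∈ P := by
      rw [← ha, Algebra.smul_def]
      exact P.mul_mem_left _ hx
    obtain ⟨a1, ha1⟩ := hdvd a haP
    refine tf hAB hδ _ ?_
    have h0 : aeval t g1 * aeval t g2 = 0 := by rw [← map_mul, ← hg2, hg0]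
    rw [← mul_smul_comm, ha, ha1, map_mul, hy]
    linear_combination (((1 : Ah) ⊗ₜ[A] β) * aeval t (derivative g1) * aeval t a1) * h0
  have hy2 : y ^ 2 = Δ • y := by
    have := hyP _ hyΔ
    rw [mul_sub, mul_smul_comm, mul_one, sub_eq_zero] at this
    rw [sq, this]
  obtain ⟨ε, hε⟩ := h5 y Δ hΔ hy2
  have hΔP : Δ • (1 : Ah ⊗[A] B) ∉ P := by
    intro h
    have h1 : Δ • (1 : Ah ⊗[A] B) = (algebraMap A Ah Δ) ⊗ₜ[A] (1 : B) := by
      rw [Algebra.TensorProduct.one_def, smul_tmul', Algebra.algebraMap_eq_smul_one]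
    have h2 := hP0 _ (h1 ▸ h)
    rw [h2, zero_tmul] at h1
    have h3 := tf hAB hΔ _ h1
    exact hP.ne_top ((Ideal.eq_top_iff_one P).2 (h3 ▸ P.zero_mem))
  refine ⟨ε, ?_, fun x hx => ?_⟩
  · have : (Δ • (1 : Ah ⊗[A] B)) * (ε - 1) ∈ P := by
      rw [smul_mul_assoc, one_mul, smul_sub, ← hε]
      exact hyΔ
    exact (hP.mem_or_mem this).resolve_left hΔP
  · refine tf hAB hΔ _ ?_
    rw [← smul_mul_assoc, ← hε]
    exact hyP x hx

end ChE

variable {k : Type} [Field k] {p : ℕ} [Fact p.Prime]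

omit [Fact p.Prime] in
theorem st_H6 (h3 : H3 k p) (h5 : St_H5 k) : St_H6 k := by
  intro d B F K _ _ _ _ _ _ _ _ _ _ _ _ _ _ _ _ P _ hP0
  have := h3.normal d
  have := h3.flat d
  have : IsDomain (PS k d) := NoZeroDivisors.to_isDomain _
  exact ChE.main (F := F) (K := K) (fun x δ => h5 (F := F) (K := K) x δ) P hP0

end Pool.Agent.Lib.MP_5f81cf_ag.Full
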