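import Pool.Agent.Lib.MP_5f81cf_ag.Defs

/-! Definitions for the full proof: `p`-bases, the Cartier operator, Jacobians, log discrepancies,
residue maps and leading coefficients. -/

namespace Pool.Agent.Lib.MP_5f81cf_ag.Full

open Pool.Agent.Lib.MP_e06174_ag

section

variable {K : Type} [Field K] (p : ℕ) {d : ℕ}

/-- The monomial `∏ xᵢ ^ αᵢ` with exponents below `p`. -/
def pmon (x : Fin d → K) (α : Fin d → Fin p) : K := ∏ i, x i ^ (α i : ℕ)

/-- `x` is a `p`-basis of `K` over `K ^ p`. -/
def IsPB (x : Fin d → K) : Prop :=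
  ∀ f : K, ∃! c : (Fin d → Fin p) → K, f = ∑ α, c α ^ p * pmon p x α

/-- The top exponent. -/
def ptop [hp : Fact p.Prime] (d : ℕ) : Fin d → Fin p :=
  fun _ => ⟨p - 1, Nat.sub_lt hp.out.pos one_pos⟩

open Classical in
/-- The Cartier operator `f dx ↦ car f dx`. -/
noncomputable def car [Fact p.Prime] (x : Fin d → K) (f : K) : K :=
  if h : IsPB p x then (h f).exists.choose (ptop p d) else 0

end

section

variable (k : Type) {K L : Type} [Field k] [Field K] [Algebra k K] [Field L] [Algebra k L] {d : ℕ}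

open Classical in
/-- The derivation `∂ / ∂ xᵢ`. -/
noncomputable def pd (x : Fin d → K) (i : Fin d) : Derivation k K K :=
  if h : ∃ D : Derivation k K K, ∀ j, D (x j) = if j = i then 1 else 0 then h.choose else 0

/-- The Jacobian: `da = jac x a • dx`. -/
noncomputable def jac (x a : Fin d → K) : K :=
  Matrix.det (Matrix.of fun i j => pd k x j (a i))

/-- One plus the order of the form `dx` along `E`. -/
noncomputable def lam (x : Fin d → K) (E : Place k K) : ℤ :=
  1 - sInf {n : ℤ | ∃ a : Fin d → K, (∀ i, E.Ge 0 (a i)) ∧ jac k x a ≠ 0 ∧ n = E.ord (jac k x a)}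

variable {k}

/-- The form `f (dx) ^ (-m)` has logarithmic order at least `n` along `E`. -/
def CGe (x : Fin d → K) (E : Place k K) (m : ℕ) (n : ℤ) (f : K) : Prop :=
  E.Ge (n + m * lam k x E) f

/-- `ρ` is a residue map of `E` onto the field `L`. -/
structure IsRes (E : Place k K) (ρ : K → L) : Prop where
  add : ∀ a b, E.Ge 0 a → E.Ge 0 b → ρ (a + b) = ρ a + ρ b
  mul : ∀ a b, E.Ge 0 a → E.Ge 0 b → ρ (a * b) = ρ a * ρ b
  const : ∀ c : k, ρ (algebraMap k K c) = algebraMap k L c
  zero : ∀ a, E.Ge 0 a → (ρ a = 0 ↔ E.Ge 1 a)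
  surj : ∀ l, ∃ a, E.Ge 0 a ∧ ρ a = l

/-- `t` is a uniformiser of `E` and the residues of `z` form a `p`-basis of the residue field. -/
structure Adapt (p : ℕ) (E : Place k K) (ρ : K → L) (t : K) (z : Fin d → K) : Prop where
  res : IsRes E ρ
  ord : E.ord t = 1
  ge : ∀ i, E.Ge 0 (z i)
  pb : IsPB p fun i => ρ (z i)

variable (k)

/-- The leading coefficient of `f (dx) ^ (-m)` in order `n`, with respect to `dlog t ∧ dz`. -/
noncomputable def lc (x : Fin (d + 1) → K) (ρ : K → L) (t : K) (z : Fin d → K) (m : ℕ) (n : ℤ)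
    (f : K) : L :=
  ρ (f * (jac k x (Fin.cons t z) / t) ^ m * t ^ (-n))

end

section

variable {k : Type} [Field k]

open Classical in
/-- One plus the order of `dX` at a place of the rational function field. -/
noncomputable def lam1 (P : Place k (RatFunc k)) : ℤ := if P.Ge 0 RatFunc.X then 1 else -1

/-- The Cartier operator of the rational function field. -/
noncomputable abbrev car1 (p : ℕ) [Fact p.Prime] (f : RatFunc k) : RatFunc k :=
  car p ![(RatFunc.X : RatFunc k)] f

end

end Pool.Agent.Lib.MP_5f81cf_ag.Full
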