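import Pool.Agent.Lib.MP_5f81cf_ag.FBlue3

/-! Approximation lemmas for the approximating place. -/

namespace Pool.Agent.Lib.MP_5f81cf_ag.Full.M5

open Pool.Agent.Lib.MP_e06174_ag Polynomial Place

variable {k : Type} [Field k]

section res

variable {K L : Type} [Field K] [Algebra k K] [Field L] [Algebra k L] {S : Place k K} {ρ : K → L}

theorem res_zero (h : IsRes S ρ) : ρ 0 = 0 := by simpa using h.const 0

theorem res_one (h : IsRes S ρ) : ρ 1 = 1 := by simpa using h.const 1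

theorem res_congr (h : IsRes S ρ) {a b : K} (hb : S.Ge 0 b) (hab : S.Ge 1 (a - b)) :
    S.Ge 0 a ∧ ρ a = ρ b := by
  have h1 : S.Ge 0 (a - b) := hab.mono (by norm_num)
  have h2 := h.add b (a - b) hb h1
  rw [(h.zero _ h1).2 hab, add_zero, add_sub_cancel] at h2
  exact ⟨by simpa using hb.add h1, h2⟩

theorem res_inv (h : IsRes S ρ) {a : K} (ha : S.Ge 0 a) (h0 : ρ a ≠ 0) :
    S.Ge 0 a⁻¹ ∧ ρ a⁻¹ = (ρ a)⁻¹ := by
  obtain ⟨h1, h2⟩ := not_ge_iff.1 fun h1 => h0 ((h.zero a ha).2 h1)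
  have h3 : S.Ge 0 a⁻¹ := ge_of_le (by rw [ord_inv]; omega)
  refine ⟨h3, eq_inv_of_mul_eq_one_right ?_⟩
  rw [← h.mul a _ ha h3, mul_inv_cancel₀ h1, res_one h]

theorem exists_lift (h : IsRes S ρ) (K₀ : IntermediateField k K) {ι : Type} {v : ι → K}
    (hv : ∀ i, v i ∈ K₀) (hge : ∀ i, S.Ge 0 (v i)) :
    ∀ l ∈ IntermediateField.adjoin k (Set.range fun i => ρ (v i)),
      ∃ a : K₀, S.Ge 0 (algebraMap K₀ K a) ∧ ρ (algebraMap K₀ K a) = l := by
  intro l hl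
  induction hl using IntermediateField.adjoin_induction with
  | mem x hx =>
    obtain ⟨i, rfl⟩ := hx
    exact ⟨⟨v i, hv i⟩, hge i, rfl⟩
  | algebraMap c => exact ⟨algebraMap k K₀ c, ge_const c, h.const c⟩
  | add x y _ _ hx hy =>
    obtain ⟨a, a1, rfl⟩ := hx
    obtain ⟨b, b1, rfl⟩ := hy
    exact ⟨a + b, by rw [map_add]; exact a1.add b1, by rw [map_add, h.add _ _ a1 b1]⟩
  | inv x _ hx =>
    obtain ⟨a, a1, rfl⟩ := hx
    by_cases h0 : ρ (algebraMap K₀ K a) = 0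
    · exact ⟨0, by simp, by rw [h0, map_zero, res_zero h, inv_zero]⟩
    · exact ⟨a⁻¹, by rw [map_inv₀]; exact (res_inv h a1 h0).1,
        by rw [map_inv₀]; exact (res_inv h a1 h0).2⟩
  | mul x y _ _ hx hy =>
    obtain ⟨a, a1, rfl⟩ := hx
    obtain ⟨b, b1, rfl⟩ := hy
    exact ⟨a * b, by rw [map_mul]; simpa using a1.mul b1, by rw [map_mul, h.mul _ _ a1 b1]⟩

end res

section apx

variable {K₀ L : Type} [Field K₀] [Algebra k K₀] [Field L] [Algebra k L]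

theorem over_ge {Ω : Type} [Field Ω] [Algebra k Ω] {ψ : L →ₐ[k] Ω} {W : Place k Ω}
    {F : Place k L} {e : ℕ} (h : W.Over ψ F e) (y : L) :
    W.Ge (e * (-((F.ord y).natAbs : ℤ))) (ψ y) :=
  (h.ge_iff _ _).2 (ge_of_le (by omega))

/-- The value of `a` at approximations of `a₀` approximates `y`. -/
def Apx (F : Place k L) (ι : ℕ → K₀ →ₐ[k] L) (a₀ : L) (a : K₀[X]) (y : L) : Prop :=
  ∃ C : ℕ, ∀ (M n : ℕ) (Ω : Type) [Field Ω] [Algebra k Ω] (ψ : L →ₐ[k] Ω) (W : Place k Ω) (e : ℕ)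
    (x : Ω), W.Over ψ F e → C ≤ n → n ≤ M → W.Ge (e * n) (x - ψ a₀) →
    W.Ge (e * ((n : ℤ) - C)) (a.eval₂ (ψ.comp (ι M) : K₀ →+* Ω) x - ψ y)

variable {F : Place k L} {ι : ℕ → K₀ →ₐ[k] L} {a₀ : L}

theorem Apx.add {a b : K₀[X]} {y z : L} (ha : Apx F ι a₀ a y) (hb : Apx F ι a₀ b z) :
    Apx F ι a₀ (a + b) (y + z) := by
  obtain ⟨C, hC⟩ := ha
  obtain ⟨D, hD⟩ := hb
  refine ⟨C + D, fun M n Ω _ _ ψ W e x ho h1 h2 h3 => ?_⟩
  have h4 := hC M n Ω ψ W e x ho (by omega) h2 h3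
  have h5 := hD M n Ω ψ W e x ho (by omega) h2 h3
  have he : (0 : ℤ) ≤ e := by positivity
  rw [eval₂_add, map_add, add_sub_add_comm]
  exact (h4.mono (by push_cast; gcongr; omega)).add (h5.mono (by push_cast; gcongr; omega))

theorem Apx.mul {a b : K₀[X]} {y z : L} (ha : Apx F ι a₀ a y) (hb : Apx F ι a₀ b z) :
    Apx F ι a₀ (a * b) (y * z) := by
  obtain ⟨C, hC⟩ := ha
  obtain ⟨D, hD⟩ := hb
  refine ⟨C + D + (F.ord y).natAbs + (F.ord z).natAbs, fun M n Ω _ _ ψ W e x ho h1 h2 h3 => ?_⟩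
  have h4 := hC M n Ω ψ W e x ho (by omega) h2 h3
  have h5 := hD M n Ω ψ W e x ho (by omega) h2 h3
  have he : (0 : ℤ) ≤ e := by positivity
  rw [eval₂_mul, map_mul]
  generalize eval₂ _ x a = u at h4
  generalize eval₂ _ x b = u' at h5
  rw [show u * u' - ψ y * ψ z = (u - ψ y) * (u' - ψ z) + (u - ψ y) * ψ z + ψ y * (u' - ψ z) by ring]
  refine ((h4.mul' h5 ?_).add (h4.mul' (over_ge ho z) ?_)).add ((over_ge ho y).mul' h5 ?_)
  all_goals rw [← mul_add]; gcongr; omega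

theorem apx_X : Apx F ι a₀ X a₀ :=
  ⟨0, fun M n Ω _ _ ψ W e x _ _ _ h => by simpa using h⟩

theorem apx_C {a : K₀} {y : L} (h : ∃ C : ℕ, ∀ M : ℕ, C ≤ M → F.Ge (M - C) (ι M a - y)) :
    Apx F ι a₀ (C a) y := by
  obtain ⟨C, hC⟩ := h
  refine ⟨C, fun M n Ω _ _ ψ W e x ho h1 h2 _ => ?_⟩
  have h4 := (ho.ge_iff _ _).2 ((hC M (h1.trans h2)).mono (show (n : ℤ) - C ≤ M - C by omega))
  simpa using h4

theorem Apx.eval {a : K₀[X]} {y : L} (h : Apx F ι a₀ a y) : ∃ C : ℕ, ∀ M : ℕ, C ≤ M →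
    F.Ge (M - C) ((a.map (ι M : K₀ →+* L)).eval a₀ - y) ∧
      F.Ge (-C) ((a.map (ι M : K₀ →+* L)).eval a₀) := by
  obtain ⟨C, hC⟩ := h
  refine ⟨C + (F.ord y).natAbs, fun M hM => ?_⟩
  have h1 := hC M M L (AlgHom.id k L) F 1 a₀ ⟨le_rfl, by simp⟩ (by omega) le_rfl (by simp)
  rw [AlgHom.id_comp, AlgHom.id_apply, eval₂_eq_eval_map] at h1
  refine ⟨h1.mono (by omega), ?_⟩
  simpa using (h1.mono (m := -((C + (F.ord y).natAbs : ℕ) : ℤ)) (by omega)).add
    (ge_of_le (x := y) (by omega))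

variable {K L₁ : Type} [Field K] [Algebra k K] [Algebra K₀ K] [Field L₁] [Algebra k L₁]
  [Algebra L₁ L] {S : Place k K} {ρ : K → L₁}

theorem apx_of_coeff (h : IsRes S ρ) {θ : K} (hθ : S.Ge 0 θ)
    (hι : ∀ a : K₀, S.Ge 0 (algebraMap K₀ K a) → ∃ C : ℕ, ∀ M : ℕ, C ≤ M →
      F.Ge (M - C) (ι M a - algebraMap L₁ L (ρ (algebraMap K₀ K a))))
    {a : K₀[X]} (ha : ∀ i, S.Ge 0 (algebraMap K₀ K (a.coeff i))) :
    S.Ge 0 (aeval θ a) ∧
      Apx F ι (algebraMap L₁ L (ρ θ)) a (algebraMap L₁ L (ρ (aeval θ a))) := by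
  let P : K₀[X] → Prop := fun a => S.Ge 0 (aeval θ a) ∧
    Apx F ι (algebraMap L₁ L (ρ θ)) a (algebraMap L₁ L (ρ (aeval θ a)))
  have hC : ∀ c : K₀, S.Ge 0 (algebraMap K₀ K c) → P (C c) := fun c hc =>
    ⟨by simpa using hc, by rw [aeval_C]; exact apx_C (hι c hc)⟩
  have hadd : ∀ a b, P a → P b → P (a + b) := fun a b ha hb =>
    ⟨by rw [map_add]; exact ha.1.add hb.1, by
      rw [map_add, h.add _ _ ha.1 hb.1, map_add]; exact ha.2.add hb.2⟩
  have hmul : ∀ a b, P a → P b → P (a * b) := fun a b ha hb =>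
    ⟨by rw [map_mul]; simpa using ha.1.mul hb.1, by
      rw [map_mul, h.mul _ _ ha.1 hb.1, map_mul]; exact ha.2.mul hb.2⟩
  have hX : ∀ i : ℕ, P (X ^ i) := fun i => by
    induction i with
    | zero => simpa using hC 1 (by simpa using ge_one)
    | succ i ih =>
      rw [pow_succ]
      exact hmul _ _ ih ⟨by simpa using hθ, by rw [aeval_X]; exact apx_X⟩
  change P a
  rw [a.as_sum_range_C_mul_X_pow]
  exact Finset.sum_induction _ P hadd (by simpa using hC 0 (by simp))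
    fun i _ => hmul _ _ (hC _ (ha i)) (hX i)

end apx

section hensel

variable {L : Type} [Field L] [Algebra k L] {F : Place k L}

theorem exists_root (m4 : St_M4 k) {μ : L[X]} (hμ : μ.Separable) {a₀ T : L} {B C : ℕ}
    (hT : F.ord T = 1) (h0 : F.Ge (B + 2 * C + 1) (μ.eval a₀))
    (h1 : ¬ F.Ge C ((derivative μ).eval a₀))
    (h2 : ∀ i, F.Ge (-C) ((hasseDeriv i μ).eval a₀)) (hB : C + 1 ≤ B) :
    ∃ (Ω : Type) (_ : Field Ω) (_ : Algebra k Ω) (ψ : L →ₐ[k] Ω) (W : Place k Ω) (e : ℕ) (x : Ω),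
      W.Over ψ F e ∧ μ.eval₂ (ψ : L →+* Ω) x = 0 ∧ W.Ge (e * ((B : ℤ) - C)) (x - ψ a₀) ∧
      ∀ n : ℤ, ∃ a : L, W.Ge n (x - ψ a) := by
  have hT0 : T ≠ 0 := by rintro rfl; simp at hT
  have h3 := h2 1
  rw [hasseDeriv_one'] at h3
  obtain ⟨hδ, hδ1⟩ := not_ge_iff.1 h1
  have hδ2 := h3.le hδ
  set δ := (derivative μ).eval a₀ with hδd
  set u := δ * T ^ B with hu
  have hu0 : u ≠ 0 := mul_ne_zero hδ (pow_ne_zero _ hT0)
  have huo : F.ord u = F.ord δ + B := by rw [hu, F.ord_mul hδ (pow_ne_zero _ hT0), ord_pow, hT, mul_one]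
  have hc0 : (δ * u)⁻¹ ≠ 0 := inv_ne_zero (mul_ne_zero hδ hu0)
  have hco : F.ord (δ * u)⁻¹ = -(2 * F.ord δ + B) := by rw [ord_inv, F.ord_mul hδ hu0, huo]; ring
  obtain ⟨Ω, i1, i2, i3, i4, W, e, ζ, ho, hz, hζ, hap⟩ :=
    m4 F (Polynomial.C (δ * u)⁻¹ * μ.comp (Polynomial.C u * X + Polynomial.C a₀)) (by
      have h4 := IsCoprime.map hμ (compRingHom (Polynomial.C u * X + Polynomial.C a₀))
      rw [separable_def, derivative_mul, derivative_C, zero_mul, zero_add, derivative_comp,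
        isCoprime_mul_unit_left_left (isUnit_C.2 hc0.isUnit),
        isCoprime_mul_unit_left_right (isUnit_C.2 hc0.isUnit)]
      simp only [derivative_add, derivative_C, derivative_mul, derivative_X, zero_mul, zero_add,
        mul_one, add_zero]
      rw [isCoprime_mul_unit_left_right (isUnit_C.2 hu0.isUnit)]
      exact h4) (fun i => by
      have h4 : μ.comp (Polynomial.C u * X + Polynomial.C a₀) =
          (taylor a₀ μ).comp (Polynomial.C u * X) := by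
        rw [taylor_apply, comp_assoc]; simp
      rw [coeff_sub, coeff_C_mul, h4, comp_C_mul_X_coeff, taylor_coeff]
      rcases i with _ | _ | i
      · rw [coeff_X_zero, sub_zero, pow_zero, mul_one, hasseDeriv_zero']
        exact (ge_ord _).mul' h0 (by omega)
      · rw [zero_add, coeff_X_one, pow_one, hasseDeriv_one', ← hδd,
          inv_mul_cancel₀ (mul_ne_zero hδ hu0), sub_self]
        exact ge_zero _
      · rw [coeff_X_of_ne_one (by omega), sub_zero]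
        refine (ge_ord _).mul' ((h2 _).mul ((ge_ord u).pow _)) ?_
        have h5 : (0 : ℤ) ≤ i * (F.ord δ + B) := mul_nonneg (by positivity) (by omega)
        rw [hco, huo]
        push_cast
        nlinarith)
  refine ⟨Ω, i1, i2, IsScalarTower.toAlgHom k L Ω, W, e,
    algebraMap L Ω u * ζ + algebraMap L Ω a₀, ho, ?_, ?_, fun n => ?_⟩
  · rw [map_mul, aeval_C, mul_eq_zero, aeval_comp] at hz
    simpa [aeval_def] using hz.resolve_left ((_root_.map_ne_zero _).2 hc0)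
  · have h4 := (ho.ge_iff ((B : ℤ) - C) u).2 (ge_of_le (by omega))
    simpa using h4.mul' hζ (by omega)
  · obtain ⟨a, ha⟩ := hap (n - W.ord (algebraMap L Ω u))
    refine ⟨u * a + a₀, ?_⟩
    have h4 := (ge_ord (algebraMap L Ω u)).mul' ha (le_of_eq (add_sub_cancel _ n).symm)
    simpa [mul_sub] using h4

end hensel

end Pool.Agent.Lib.MP_5f81cf_ag.Full.M5
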