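import Pool.Agent.Lib.MP_5f81cf_ag.FBlue2

/-! Adapted frames: orders of expansions, and partial derivatives along a place. -/

namespace Pool.Agent.Lib.MP_5f81cf_ag.Full

open Pool.Agent.Lib.MP_e06174_ag

namespace P2A

section der

variable {k K : Type} [Field k] [Field K] [Algebra k K] {d p : ℕ}

/-- The derivative of a monomial in direction `i`. -/
def dmon (a : Fin d → K) (β : Fin d → Fin p) (i : Fin d) : K :=
  ((β i : ℕ) : K) * (a i ^ ((β i : ℕ) - 1) * ∏ j ∈ Finset.univ.erase i, a j ^ (β j : ℕ))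

lemma der_prod_zero (D : Derivation k K K) {ι : Type} (S : Finset ι) (a : ι → K)
    (h : ∀ j ∈ S, D (a j) = 0) : D (∏ j ∈ S, a j) = 0 := by
  classical
  induction S using Finset.induction_on with
  | empty => simp
  | insert j S hj ih =>
    rw [Finset.prod_insert hj, Derivation.leibniz, ih fun l hl => h l (by simp [hl]),
      h j (by simp)]
    simp

lemma der_pmon (D : Derivation k K K) (a : Fin d → K) (i : Fin d)
    (h : ∀ j, D (a j) = if j = i then 1 else 0) (β : Fin d → Fin p) :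
    D (pmon p a β) = dmon a β i := by
  rw [pmon, ← Finset.mul_prod_erase _ _ (Finset.mem_univ i), Derivation.leibniz,
    der_prod_zero D _ _ fun j hj => by
      rw [Derivation.leibniz_pow, h, if_neg (Finset.ne_of_mem_erase hj)]; simp,
    Derivation.leibniz_pow, h, if_pos rfl, dmon]
  simp only [smul_eq_mul, nsmul_eq_mul]
  ring

lemma der_pmon_zero (D : Derivation k K K) (a : Fin d → K) (h : ∀ j, D (a j) = 0)
    (β : Fin d → Fin p) : D (pmon p a β) = 0 :=
  der_prod_zero D _ _ fun j _ => by rw [Derivation.leibniz_pow, h]; simp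

lemma der_pow_mul [CharP K p] (D : Derivation k K K) (c f : K) :
    D (c ^ p * f) = c ^ p * D f := by
  rw [Derivation.leibniz, Derivation.leibniz_pow, nsmul_eq_mul, CharP.cast_eq_zero, zero_mul,
    smul_zero, add_zero, smul_eq_mul]

lemma pmon_cons (t : K) (z : Fin d → K) (α : Fin (d + 1) → Fin p) :
    pmon p (Fin.cons t z : Fin (d + 1) → K) α = t ^ (α 0 : ℕ) * pmon p z (Fin.tail α) := by
  simp [pmon, Fin.prod_univ_succ, Fin.tail]

end der

section res

variable {k : Type} [Field k] {p : ℕ} {K L : Type} [Field K] [Algebra k K] [Field L]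
  [Algebra k L] {d : ℕ} {E : Place k K} {ρ : K → L} {t : K} {z : Fin d → K}

lemma res_sum (h : IsRes E ρ) {ι : Type} (s : Finset ι) (f : ι → K)
    (hf : ∀ i, E.Ge 0 (f i)) : ρ (∑ i ∈ s, f i) = ∑ i ∈ s, ρ (f i) := by
  classical
  induction s using Finset.induction_on with
  | empty => simpa using h.const 0
  | insert a s ha ih =>
    rw [Finset.sum_insert ha, Finset.sum_insert ha, h.add _ _ (hf a) (.sum fun i _ => hf i), ih]

lemma res_prod (h : IsRes E ρ) {ι : Type} (s : Finset ι) (f : ι → K)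
    (hf : ∀ i, E.Ge 0 (f i)) : ρ (∏ i ∈ s, f i) = ∏ i ∈ s, ρ (f i) := by
  classical
  induction s using Finset.induction_on with
  | empty => simpa using h.const 1
  | insert a s ha ih =>
    rw [Finset.prod_insert ha, Finset.prod_insert ha,
      h.mul _ _ (hf a) (.prod_zero fun i _ => hf i), ih]

lemma ge_pow {f : K} (hf : E.Ge 0 f) (n : ℕ) : E.Ge 0 (f ^ n) := by simpa using hf.pow n

lemma ge_mul {f g : K} (hf : E.Ge 0 f) (hg : E.Ge 0 g) : E.Ge 0 (f * g) := hf.mul' hg (by simp)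

lemma res_pow (h : IsRes E ρ) {f : K} (hf : E.Ge 0 f) (n : ℕ) : ρ (f ^ n) = ρ f ^ n := by
  simpa using res_prod h (Finset.range n) (fun _ => f) fun _ => hf

lemma t_ne (h : Adapt p E ρ t z) : t ≠ 0 := by
  rintro rfl
  simpa using h.ord

lemma ge_tpow (h : Adapt p E ρ t z) (n : ℤ) : E.Ge n (t ^ n) :=
  Place.ge_of_le (by simp [h.ord])

lemma ge_tnpow (h : Adapt p E ρ t z) (n : ℕ) : E.Ge n (t ^ n) :=
  Place.ge_of_le (by simp [h.ord])

lemma ge_pmon (h : Adapt p E ρ t z) (β : Fin d → Fin p) : E.Ge 0 (pmon p z β) :=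
  .prod_zero fun i _ => ge_pow (h.ge i) _

lemma res_pmon (h : Adapt p E ρ t z) (β : Fin d → Fin p) :
    ρ (pmon p z β) = pmon p (fun i => ρ (z i)) β := by
  rw [pmon, res_prod h.res _ _ fun i => ge_pow (h.ge i) _, pmon]
  simp only [res_pow h.res (h.ge _)]

lemma ge_dmon (h : Adapt p E ρ t z) (β : Fin d → Fin p) (i : Fin d) : E.Ge 0 (dmon z β i) :=
  ge_mul (Place.ge_natCast _) (ge_mul (ge_pow (h.ge i) _) (.prod_zero fun j _ => ge_pow (h.ge j) _))

lemma res_dmon (h : Adapt p E ρ t z) (β : Fin d → Fin p) (i : Fin d) :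
    ρ (dmon z β i) = dmon (fun j => ρ (z j)) β i := by
  have h1 := h.res.const ((β i : ℕ) : k)
  rw [map_natCast, map_natCast] at h1
  rw [dmon, h.res.mul _ _ (Place.ge_natCast _)
      (ge_mul (ge_pow (h.ge i) _) (.prod_zero fun j _ => ge_pow (h.ge j) _)),
    h.res.mul _ _ (ge_pow (h.ge i) _) (.prod_zero fun j _ => ge_pow (h.ge j) _), h1,
    res_prod h.res _ _ fun j => ge_pow (h.ge j) _, dmon]
  simp only [res_pow h.res (h.ge _)]

/-- Orders of `p`-th powers are multiples of `p`. -/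
lemma ge_of_pow (hp : 0 < p) {c : K} {r m : ℤ} (hm : p * (r - 1) < m) (hc : E.Ge m (c ^ p)) :
    E.Ge r c := by
  by_cases h0 : c = 0
  · simp [h0]
  have h1 := hc.le (pow_ne_zero _ h0)
  rw [E.ord_pow] at h1
  have h5 : (0 : ℤ) < p := by exact_mod_cast hp
  have h2 : (p : ℤ) * (r - 1) < p * E.ord c := lt_of_lt_of_le hm h1
  have := lt_of_mul_lt_mul_left h2 h5.le
  exact Place.ge_of_le (by omega)

/-- The leading term of an expansion in an adapted frame. -/
lemma res_expand (h : Adapt p E ρ t z) (c : (Fin (d + 1) → Fin p) → K) (r : ℤ) (j : Fin p)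
    (hc : ∀ α, E.Ge (p * r + (j : ℕ) - (α 0 : ℕ)) (c α ^ p)) (w : (Fin d → Fin p) → K)
    (hw : ∀ β, E.Ge 0 (w β)) :
    ρ ((∑ α, c α ^ p * (t ^ (α 0 : ℕ) * w (Fin.tail α))) * t ^ (-(p * r + (j : ℕ) : ℤ))) =
      ∑ β, ρ (c (Fin.cons j β) * t ^ (-r)) ^ p * ρ (w β) := by
  have hp : 0 < p := Fin.pos j
  have ht := t_ne h
  have hj := j.2
  have ce : ∀ (i : Fin p) (β : Fin d → Fin p), (Fin.consEquiv fun _ : Fin (d + 1) => Fin p) (i, β) =
      (Fin.cons i β : Fin (d + 1) → Fin p) := fun _ _ => rfl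
  have hu : ∀ α : Fin (d + 1) → Fin p,
      E.Ge 0 (c α ^ p * t ^ (α 0 : ℕ) * t ^ (-(p * r + (j : ℕ) : ℤ))) := fun α =>
    (((hc α).mul (ge_tnpow h _)).mul' (ge_tpow h _) (by omega))
  have e1 : (∑ α, c α ^ p * (t ^ (α 0 : ℕ) * w (Fin.tail α))) * t ^ (-(p * r + (j : ℕ) : ℤ)) =
      ∑ α : Fin (d + 1) → Fin p,
        c α ^ p * t ^ (α 0 : ℕ) * t ^ (-(p * r + (j : ℕ) : ℤ)) * w (Fin.tail α) := by
    rw [Finset.sum_mul]
    exact Finset.sum_congr rfl fun α _ => by ring
  rw [e1, res_sum h.res _ _ fun α => ge_mul (hu α) (hw _),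
    ← (Fin.consEquiv fun _ : Fin (d + 1) => Fin p).sum_comp, Fintype.sum_prod_type,
    Finset.sum_eq_single j]
  · refine Finset.sum_congr rfl fun β _ => ?_
    have h1 : E.Ge 0 (c (Fin.cons j β) * t ^ (-r)) := by
      have h2 := hc (Fin.cons j β)
      rw [Fin.cons_zero, add_sub_cancel_right] at h2
      exact (ge_of_pow hp (r := r) (by
        have : (0 : ℤ) < p := by exact_mod_cast hp
        linarith) h2).mul' (ge_tpow h _) (by omega)
    have e2 : c (Fin.cons j β) ^ p * t ^ (j : ℕ) * t ^ (-(p * r + (j : ℕ) : ℤ)) =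
        (c (Fin.cons j β) * t ^ (-r)) ^ p := by
      rw [mul_pow, mul_assoc, ← zpow_natCast t, ← zpow_add₀ ht, ← zpow_natCast (t ^ (-r)),
        ← zpow_mul]
      congr 2
      ring
    rw [h.res.mul _ _ (hu _) (hw _)]
    simp only [ce, Fin.cons_zero, Fin.tail_cons]
    rw [e2, res_pow h.res h1]
  · intro i _ hij
    refine Finset.sum_eq_zero fun β _ => ?_
    rw [h.res.mul _ _ (hu _) (hw _), (h.res.zero _ (hu _)).2, zero_mul]
    simp only [ce, Fin.cons_zero]
    have h2 := hc (Fin.cons i β)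
    rw [Fin.cons_zero] at h2
    have hi := i.2
    have hne : (i : ℕ) ≠ j := fun e => hij (Fin.ext e)
    rcases lt_or_gt_of_ne hne with hlt | hlt
    · have h3 := (ge_of_pow hp (r := r + 1) (by simp only [add_sub_cancel_right]; omega) h2).pow p
      refine (h3.mul (ge_tnpow h _)).mul' (ge_tpow h _) ?_
      rw [mul_add]
      omega
    · have h3 := (ge_of_pow hp (r := r) (by rw [mul_sub]; omega) h2).pow p
      refine (h3.mul (ge_tnpow h _)).mul' (ge_tpow h _) ?_
      omega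
  · simp

lemma coef (hp : 0 < p) (h : Adapt p E ρ t z) (c : (Fin (d + 1) → Fin p) → K) (n : ℤ) :
    E.Ge n (∑ α, c α ^ p * pmon p (Fin.cons t z : Fin (d + 1) → K) α) ↔
      ∀ α, E.Ge (n - (α 0 : ℕ)) (c α ^ p) := by
  classical
  simp only [pmon_cons]
  refine ⟨fun hs => ?_, fun hc => .sum fun α _ =>
    (hc α).mul' ((ge_tnpow h _).mul (ge_pmon h _)) (by omega)⟩
  rcases (Finset.univ.filter fun α => c α ≠ 0).eq_empty_or_nonempty with h0 | h0
  · intro α
    have : c α = 0 := by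
      by_contra h1
      have : α ∈ Finset.univ.filter fun α => c α ≠ 0 := by simpa using h1
      rw [h0] at this
      simp at this
    simp [this, hp.ne']
  obtain ⟨a, ha, hmin⟩ := Finset.exists_min_image _
    (fun α : Fin (d + 1) → Fin p => p * E.ord (c α) + (α 0 : ℕ)) h0
  have ha0 : c a ≠ 0 := by simpa using ha
  have hc : ∀ α, E.Ge (p * E.ord (c a) + (a 0 : ℕ) - (α 0 : ℕ)) (c α ^ p) := by
    intro α
    by_cases h1 : c α = 0
    · simp [h1, hp.ne']
    have := hmin α (by simpa using h1)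
    exact Place.ge_of_le (by rw [E.ord_pow]; omega)
  have hle : n ≤ p * E.ord (c a) + (a 0 : ℕ) := by
    by_contra hlt
    have h1 := res_expand h c _ _ hc (pmon p z) (ge_pmon h)
    have h2 := hs.mul' (l := 1) (ge_tpow h (-(p * E.ord (c a) + (a 0 : ℕ) : ℤ))) (by omega)
    rw [(h.res.zero _ (h2.mono (by simp))).2 h2] at h1
    simp only [res_pmon h] at h1
    have h3 := (h.pb 0).unique h1 (y₂ := fun _ => 0) (by simp [hp.ne'])
    have h4 := congrFun h3 (Fin.tail a)
    simp only [Fin.cons_self_tail] at h4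
    have h5 : E.ord (c a * t ^ (-E.ord (c a))) = 0 := by
      rw [E.ord_mul ha0 (zpow_ne_zero _ (t_ne h))]
      simp [h.ord]
    have h6 := ((h.res.zero _ (Place.ge_of_le h5.ge)).1 h4).le
      (mul_ne_zero ha0 (zpow_ne_zero _ (t_ne h)))
    omega
  exact fun α => (hc α).mono (by omega)

end res

end P2A

open P2A

variable {k : Type} [Field k] {p : ℕ} [hp : Fact p.Prime]

theorem pl2_adapt_coef : ∀ {K L : Type} [Field K] [Algebra k K] [Field L] [Algebra k L] {d : ℕ}
    {E : Place k K} {ρ : K → L} {t : K} {z : Fin d → K}, Adapt p E ρ t z →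
    ∀ (c : (Fin (d + 1) → Fin p) → K) (n : ℤ),
      E.Ge n (∑ α, c α ^ p * pmon p (Fin.cons t z : Fin (d + 1) → K) α) ↔
        ∀ α, E.Ge (n - (α 0 : ℕ)) (c α ^ p) :=
  fun h c n => coef hp.out.pos h c n

theorem pl2_adapt_pb (c1 : Car1 k p) :
    ∀ {K L : Type} [Field K] [Algebra k K] [Field L] [Algebra k L] {d : ℕ}
    {x : Fin (d + 1) → K} {E : Place k K} {ρ : K → L} {t : K} {z : Fin d → K},
    IsPB p x → Adapt p E ρ t z → IsPB p (Fin.cons t z : Fin (d + 1) → K) := by
  intro K L _ _ _ _ d x E ρ t z hx h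
  refine c1.pb_of_indep hx fun c hc α => ?_
  by_contra h0
  have h1 := (coef hp.out.pos h c (E.ord (c α ^ p) + (α 0 : ℕ) + 1)).1 (by rw [hc]; simp) α
  have h2 := h1.le (pow_ne_zero _ h0)
  omega

theorem pl2_pd_ge [CharP k p] (c1 : Car1 k p) :
    ∀ {K L : Type} [Field K] [Algebra k K] [Field L] [Algebra k L] {d : ℕ}
    {x : Fin (d + 1) → K} {E : Place k K} {ρ : K → L} {t : K} {z : Fin d → K},
    IsPB p x → Adapt p E ρ t z → ∀ (n : ℤ) (f : K), E.Ge n f →
      E.Ge n (t * pd k (Fin.cons t z : Fin (d + 1) → K) 0 f) ∧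
      (∀ i : Fin d, E.Ge n (pd k (Fin.cons t z : Fin (d + 1) → K) i.succ f)) ∧
      (n = 0 → E.Ge 0 (pd k (Fin.cons t z : Fin (d + 1) → K) 0 f) ∧ ∀ i : Fin d,
        ρ (pd k (Fin.cons t z : Fin (d + 1) → K) i.succ f) = pd k (fun j => ρ (z j)) i (ρ f)) := by
  intro K L _ _ _ _ d x E ρ t z hx h n f hf
  have : CharP K p := charP_of_injective_algebraMap (algebraMap k K).injective p
  have : CharP L p := charP_of_injective_algebraMap (algebraMap k L).injective p
  have ha := pl2_adapt_pb c1 hx h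
  have hpos := hp.out.pos
  obtain ⟨c, rfl, -⟩ := ha f
  have hc := (coef hpos h c n).1 hf
  have e0 : pd k (Fin.cons t z : Fin (d + 1) → K) 0
      (∑ α, c α ^ p * pmon p (Fin.cons t z : Fin (d + 1) → K) α) =
      ∑ α, c α ^ p * (((α 0 : ℕ) : K) * t ^ ((α 0 : ℕ) - 1) * pmon p z (Fin.tail α)) := by
    rw [map_sum]
    refine Finset.sum_congr rfl fun α _ => ?_
    have h1 := c1.pd_x ha 0 0
    rw [Fin.cons_zero, if_pos rfl] at h1
    rw [der_pow_mul, pmon_cons, Derivation.leibniz, Derivation.leibniz_pow, h1,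
      der_pmon_zero _ z fun j => by simpa using c1.pd_x ha 0 j.succ]
    simp only [smul_eq_mul, nsmul_eq_mul]
    ring
  have es : ∀ i : Fin d, pd k (Fin.cons t z : Fin (d + 1) → K) i.succ
      (∑ α, c α ^ p * pmon p (Fin.cons t z : Fin (d + 1) → K) α) =
      ∑ α, c α ^ p * (t ^ (α 0 : ℕ) * dmon z (Fin.tail α) i) := by
    intro i
    rw [map_sum]
    refine Finset.sum_congr rfl fun α _ => ?_
    have h1 := c1.pd_x ha i.succ 0
    rw [Fin.cons_zero, if_neg (Fin.succ_ne_zero i).symm] at h1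
    rw [der_pow_mul, pmon_cons, Derivation.leibniz, Derivation.leibniz_pow, h1,
      der_pmon _ z i fun j => by simpa using c1.pd_x ha i.succ j.succ]
    simp
  refine ⟨?_, fun i => ?_, ?_⟩
  · rw [e0, Finset.mul_sum]
    refine .sum fun α _ => ?_
    have e : t * (c α ^ p * (((α 0 : ℕ) : K) * t ^ ((α 0 : ℕ) - 1) * pmon p z (Fin.tail α))) =
        ((α 0 : ℕ) : K) * (c α ^ p * (t ^ (α 0 : ℕ) * pmon p z (Fin.tail α))) := by
      rcases (α 0 : ℕ) with _ | m
      · simp
      · rw [Nat.add_sub_cancel]; ring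
    rw [e]
    exact (Place.ge_natCast _).mul' ((hc α).mul ((ge_tnpow h _).mul (ge_pmon h _))) (by omega)
  · rw [es]
    exact .sum fun α _ => (hc α).mul' ((ge_tnpow h _).mul (ge_dmon h _ _)) (by omega)
  · rintro rfl
    have hc0 : ∀ α, E.Ge 0 (c α) := fun α =>
      ge_of_pow hpos (by have := (α 0).2; omega) (hc α)
    refine ⟨?_, fun i => ?_⟩
    · rw [e0]
      exact .sum fun α _ => ge_mul (ge_pow (hc0 α) _) (ge_mul (ge_mul (Place.ge_natCast _)
        ((ge_tnpow h _).mono (by omega))) (ge_pmon h _))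
    · have hc' : ∀ α : Fin (d + 1) → Fin p, E.Ge
          (p * (0 : ℤ) + ((⟨0, hpos⟩ : Fin p) : ℕ) - (α 0 : ℕ)) (c α ^ p) := fun α => by
        simpa using hc α
      have h1 := res_expand h c 0 _ hc' (fun β => dmon z β i) fun β => ge_dmon h β i
      have h2 := res_expand h c 0 _ hc' (pmon p z) (ge_pmon h)
      simp only [mul_zero, Nat.cast_zero, add_zero, neg_zero, zpow_zero, mul_one] at h1 h2
      rw [es, h1]
      simp only [pmon_cons]
      rw [h2, map_sum]
      refine Finset.sum_congr rfl fun β _ => ?_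
      rw [der_pow_mul, res_pmon h, der_pmon _ _ i (c1.pd_x h.pb i), res_dmon h]

end Pool.Agent.Lib.MP_5f81cf_ag.Full
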