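import Pool.Agent.Lib.MP_5f81cf_ag.Trans

/-! Normality of the plt centre on a quotient of a smooth affine threefold. -/

set_option linter.unusedSectionVars false

namespace Pool.Agent.Lib.MP_5f81cf_ag

open Pool.Agent.Lib.MP_e06174_ag
open scoped Pointwise

variable {k A R K K' G : Type} [Field k] [CommRing A] [Algebra k A] [Group G]
  [MulSemiringAction G A] [SMulCommClass G k A] [Finite G] [IsDomain A] [Algebra.Smooth k A]
  {p : ℕ} [CharP k p] (hp : p = 3 ∨ p = 5)
include hp

theorem local_lift {m P : Ideal A} [hm : m.IsMaximal] (C : Chart (Fin 3) k m) {s f : A}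
    (hs : LocGen m P s) (hs0 : s ≠ 0) (hle : P ≤ m) (hB : Bound k G p m s)
    (hP : ∀ g : G, g • P ≤ m → g • P = P) (hf : ∀ g : G, g • f - f ∈ P) :
    ∃ c r, (∀ g : G, g • c = c) ∧ (∀ g : G, g • r = r) ∧ c ∉ m ∧ c * f - r ∈ P := by
  have hp' : Fact p.Prime := ⟨by rcases hp with rfl | rfl <;> decide⟩
  have := Algebra.FiniteType.isNoetherianRing k A
  have hH : ∀ g : G, g • m = m → ∀ a ∈ m, g • a ∈ m := fun g h a ha =>
    h ▸ Ideal.smul_mem_pointwise_smul g a m ha
  have semi : ∀ (g : G) (n : ℕ), g • m = m → g ^ p ^ n = 1 → Semi m g s := fun g n h1 h2 => by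
    have h3 := hP g (h1 ▸ Ideal.pointwise_smul_le_pointwise_smul_iff.2 hle)
    obtain ⟨u, hu, c, hc⟩ := hs.2 _ (h3 ▸ Ideal.smul_mem_pointwise_smul g s P hs.1)
    exact C.semi (hH g h1) hs0 hu hc p h2
  by_cases h1 : p ∣ Nat.card (MulAction.stabilizer G m)
  swap
  · exact transfer C p (σ := 1) (one_smul _ _) (one_pow _) hp'.out.ne_zero (by simpa using h1) hP hf
      (c := 1) (r := f) (one_smul _ _) (one_smul _ _) ((Ideal.ne_top_iff_one m).1 hm.ne_top)
      (by simp)
  by_cases h2 : p ^ 2 ∣ Nat.card (MulAction.stabilizer G m)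
  · obtain ⟨σ, hσ, τ, hτ, a1, a2, a3, a4, a5, a6⟩ := exists_pair _ p h2
    exact (no_square hp hB (hH σ hσ) a1 a2 (semi σ 1 hσ (by rwa [pow_one])) C (hle hs.1)
      (hH τ hτ) a3 (semi τ 2 hτ a3) a4 a5 a6).elim
  obtain ⟨⟨σ, hσ⟩, h3⟩ := exists_prime_orderOf_dvd_card' p h1
  rw [Subgroup.orderOf_mk] at h3
  have a1 : σ ≠ 1 := fun h => hp'.out.ne_one (by rw [← h3, h, orderOf_one])
  have a2 : σ ^ p = 1 := by rw [← h3, pow_orderOf_eq_one]
  have a3 := semi σ 1 hσ (by rwa [pow_one])
  obtain ⟨D, hD⟩ := classify hp hB (hH σ hσ) a1 a2 a3 C (hle hs.1)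
  have a4 : D.T s ∣ D.T (dl k σ f) := D.dvd_iff.2 (hs.2 _ (hf σ))
  obtain ⟨c, r, b1, b2, b3, b4⟩ := krull k (P := P) (f := f) hσ fun M => by
    have : ∃ r, σ • r = r ∧ f - r ∈ Ideal.span {s} ⊔ m ^ M := by
      rcases hD with ⟨e, a, a', hD⟩ | ⟨rfl, hD⟩
      · exact hD.lift (hH σ hσ) a2 a3 a4 M
      · exact hD.lift (hH σ hσ) a2 a3 a4 M
    exact this.imp fun r h => ⟨h.1, sup_le_sup_right ((Ideal.span_singleton_le_iff_mem _).2 hs.1) _ h.2⟩
  exact transfer C p hσ a2 hp'.out.ne_zero (by rwa [Nat.card_zpowers, h3, ← sq]) hP hf b1 b2 b3 b4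

variable [CommRing R] [Algebra k R] [Algebra R A] [IsScalarTower k R A] [FaithfulSMul R A]
  [Field K] [Algebra A K] [IsFractionRing A K] [Algebra k K] [IsScalarTower k A K]
  [Field K'] [Algebra R K'] [IsFractionRing R K'] [Algebra k K'] [IsScalarTower k R K']
  [Algebra K' K] [Algebra R K] [IsScalarTower R K' K] [IsScalarTower R A K] [IsScalarTower k K' K]
  [MulSemiringAction G K] [SMulDistribClass G A K] [IsGaloisGroup G R A] [SMulCommClass G k K]

variable (K) in
include K in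
theorem normal_centre [IsAlgClosed k] (hdim : Algebra.trdeg k A = 3) (hfree : Free A G)
    {Δ : Place k K' →₀ ℚ} (hΔ : IsPlt 3 R Δ) {S : Place k K'} (hS : Δ S = 1)
    {q : Ideal R} (hq : HasCentre S q) : IsIntegrallyClosed (R ⧸ q) := by
  classical
  have hp' : Fact p.Prime := ⟨by rcases hp with rfl | rfl <;> decide⟩
  have := Algebra.FiniteType.isNoetherianRing k A
  have := Algebra.IsInvariant.isIntegral R A G
  have := IsDomain.of_faithfulSMul R A
  have := hq.isPrime
  have hq1 : q.height = 1 := by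
    obtain ⟨q', h1, h2⟩ := hΔ.out.2.1 S (by simp [hS])
    rwa [hq.unique h1]
  obtain ⟨P, -, hP, rfl⟩ := Ideal.exists_ideal_over_prime_of_isIntegral (S := A) q ⊥
    (by simp [Ideal.comap_bot_of_injective _ (FaithfulSMul.algebraMap_injective R A)])
  have hP1 : P.height = 1 := by
    refine le_antisymm ((Ideal.height_le_iff (n := 1)).2 fun Q hQ hlt => ?_) ?_
    · have h1 := Ideal.height_add_one_le_of_lt_of_isPrime
        (Ideal.IsIntegral.comap_lt_comap (R := R) hlt)
      rw [hq1] at h1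
      rw [Ideal.eq_bot_of_comap_eq_bot (R := R) (I := Q) (Ideal.height_eq_zero_iff_eq_bot.1 (by
        rw [← Order.lt_one_iff]; exact (ENat.add_one_le_iff (by
          rintro h; simp [h] at h1)).1 h1))]
      simp
    · rw [Order.one_le_iff_ne_zero, Ne, Ideal.height_eq_zero_iff_eq_bot]
      rintro rfl
      exact Ideal.ne_bot_of_height_eq_one hq1
        (Ideal.comap_bot_of_injective _ (FaithfulSMul.algebraMap_injective R A))
  have hg : ∀ g : G, (g • P).height = 1 := fun g =>
    (RingEquiv.height_map (MulSemiringAction.toRingEquiv G A g) P).trans hP1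
  have red : ∀ (m : Ideal A) s, LocGen m P s → Red k K m (P.under R) s := fun m s hs =>
    ⟨hs.ne_zero hP1, fun W Q hW => (hs.ord_le hP1 hW).trans (by split_ifs <;> simp_all)⟩
  have b0 : ∀ (m : Ideal A) [m.IsMaximal] (C : Chart (Fin 3) k m) s, Red k K m (P.under R) s →
      ¬ WGe ![0, 1, 1] 2 (C.T s) := fun m _ C s hs h =>
    absurd ((bound p hfree hΔ hS hq hs).b0 C _ _ (by decide) h) (by decide)
  have cop : ∀ g : G, g • P ≠ P → P ⊔ g • P = ⊤ := fun g h =>
    coprime_comp hdim p hP1 (hg g) h.symm fun m _ C s s' _ _ hs hs' => b0 m C _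
      ⟨mul_ne_zero (hs.ne_zero hP1) (hs'.ne_zero (hg g)), fun W Q hW => by
        have a1 := hs.ord_le hP1 hW
        have a2 := hs'.ord_le (hg g) hW
        rw [map_mul, W.ord_mul (by simpa using hs.ne_zero hP1) (by simpa using hs'.ne_zero (hg g))]
        by_cases a3 : Q = P
        · rw [if_neg (a3 ▸ h.symm)] at a2
          rw [if_pos a3] at a1
          rw [if_pos (by rw [a3])]; omega
        · rw [if_neg a3] at a1
          by_cases a4 : Q = g • P
          · rw [if_pos a4] at a2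
            rw [if_pos (by rw [a4, Ideal.under_smul])]; omega
          · rw [if_neg a4] at a2
            split_ifs <;> omega⟩
  have := normal_quot hdim p hP1 fun m _ C s _ hs => b0 m C s (red m s hs)
  refine normal_under P fun a b f₀ hb h0 => ?_
  have h1 : ∀ Q : MulAction.orbit G P, ∃ f, algebraMap R A a - f * algebraMap R A b ∈ Q.1 := by
    rintro ⟨_, g, rfl⟩
    exact ⟨g • f₀, by simpa [smul_sub] using Ideal.smul_mem_pointwise_smul g _ P h0⟩
  choose F hF using h1
  have : Finite (MulAction.orbit G P) := Set.finite_range _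
  obtain ⟨f, hf⟩ := Ideal.exists_forall_sub_mem_ideal (I := fun Q : MulAction.orbit G P => Q.1) (by
    rintro ⟨_, g, rfl⟩ ⟨_, g', rfl⟩ h
    have := congrArg (g • ·) (cop (g⁻¹ * g') fun h1 => h (Subtype.ext (by
      rw [mul_smul, inv_smul_eq_iff] at h1; exact h1.symm)))
    simp only [Ideal.smul_sup, smul_smul, mul_inv_cancel_left, ← Ideal.one_eq_top,
      smul_one] at this
    exact Ideal.isCoprime_iff_sup_eq.2 (this.trans Ideal.one_eq_top)) F
  have h2 : ∀ g : G, algebraMap R A a - g • f * algebraMap R A b ∈ P := fun g => by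
    have h2 := sub_mem (hF ⟨_, g⁻¹, rfl⟩) (Ideal.mul_mem_right (algebraMap R A b) _ (hf ⟨_, g⁻¹, rfl⟩))
    rw [sub_mul, sub_sub, add_sub_cancel] at h2
    simpa [smul_sub] using Ideal.mem_inv_pointwise_smul_iff.1 h2
  have h3 : ∀ g : G, g • f - f ∈ P := fun g => (hP.mem_or_mem (by
    convert sub_mem (h2 1) (h2 g) using 1; rw [one_smul]; ring)).resolve_right hb
  let J : Ideal R :=
    { carrier := {c | ∃ r : R, algebraMap R A c * f - algebraMap R A r ∈ P}
      add_mem' := fun ⟨r, hr⟩ ⟨r', hr'⟩ => ⟨r + r', by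
        convert add_mem hr hr' using 1; simp only [map_add]; ring⟩
      zero_mem' := ⟨0, by simp⟩
      smul_mem' := fun c x ⟨r, hr⟩ => ⟨c * r, by
        convert P.mul_mem_left (algebraMap R A c) hr using 1; simp only [smul_eq_mul, map_mul]; ring⟩ }
  obtain ⟨r, hr⟩ : (1 : R) ∈ J := by
    by_contra h
    obtain ⟨n, hn, hle⟩ := Ideal.exists_le_maximal J ((Ideal.ne_top_iff_one J).2 h)
    obtain ⟨m, h4, h5, rfl⟩ := Ideal.exists_ideal_over_prime_of_isIntegral (S := A) n P
      fun c hc => hle ⟨0, by simpa using P.mul_mem_right f hc⟩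
    have hm := Ideal.isMaximal_of_isIntegral_of_isMaximal_comap m hn
    obtain ⟨C⟩ := exists_chart3 hdim hm
    obtain ⟨s, hs⟩ := C.exists_locGen P hP1 h4
    obtain ⟨c, r, a1, a2, a3, a4⟩ := local_lift hp C hs (hs.ne_zero hP1) h4
      (bound p hfree hΔ hS hq (red m s hs)) (fun g hg => by_contra fun h =>
        hm.ne_top (top_le_iff.1 (cop g h ▸ sup_le h4 hg))) h3
    obtain ⟨c, rfl⟩ := Algebra.IsInvariant.isInvariant (A := R) c a1
    obtain ⟨r, rfl⟩ := Algebra.IsInvariant.isInvariant (A := R) r a2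
    exact a3 (hle ⟨r, a4⟩)
  refine ⟨r, ?_⟩
  rw [Ideal.under_def, Ideal.mem_comap, map_sub, map_mul]
  convert add_mem (h2 1) (P.mul_mem_right (algebraMap R A b) hr) using 1
  rw [one_smul, map_one]; ring

end Pool.Agent.Lib.MP_5f81cf_ag
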