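import Pool.Agent.Lib.MP_5f81cf_ag.Form

/-! The inequality on logarithmic Jacobians imposed by a plt pair on a quotient. -/

set_option linter.unusedSectionVars false

namespace Pool.Agent.Lib.MP_5f81cf_ag

open Pool.Agent.Lib.MP_e06174_ag Polynomial
open scoped Pointwise

variable {k A R K K' G : Type} [Field k] [CommRing A] [IsDomain A] [Algebra k A] [CommRing R]
  [Algebra k R] [Algebra R A] [IsScalarTower k R A] [FaithfulSMul R A]
  [Field K] [Algebra A K] [IsFractionRing A K] [Algebra k K] [IsScalarTower k A K]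
  [Field K'] [Algebra R K'] [IsFractionRing R K'] [Algebra k K'] [IsScalarTower k R K']
  [Algebra K' K] [Algebra R K] [IsScalarTower R K' K] [IsScalarTower R A K] [IsScalarTower k K' K]
  [Group G] [Finite G] [MulSemiringAction G A] [MulSemiringAction G K] [SMulDistribClass G A K]
  [IsGaloisGroup G R A] [SMulCommClass G k A] [SMulCommClass G k K]

variable (G A) in
/-- The action is free in codimension one. -/
def Free : Prop :=
  ∀ Q : Ideal A, Q.IsPrime → Q.height ≤ 1 → ∀ g : G, (∀ a, g • a - a ∈ Q) → g = 1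

lemma der_eval {W : Place k K} (d : Derivation k K K) {β : K} (hβ : W.Ge 0 β) (P : K[X])
    (hP : ∀ i, W.Ge 1 (d (P.coeff i))) :
    W.Ge 1 (d (P.eval β) - (derivative P).eval β * d β) := by
  rw [eval_eq_sum_range, derivative_eval, sum_over_range _ (by simp), map_sum, Finset.sum_mul,
    ← Finset.sum_sub_distrib]
  refine Place.Ge.sum fun i _ => ?_
  have := ((hβ.pow i).mul (hP i)).mono (by simp : (1 : ℤ) ≤ _)
  convert this using 1
  simp only [Derivation.leibniz, Derivation.leibniz_pow, smul_eq_mul, nsmul_eq_mul]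
  ring

lemma unram [Infinite k] (hfree : Free A G) {W : Place k K} {Q : Ideal A} (hW : HasCentre W Q)
    (hQ : Q.height = 1) (d : Derivation k K K)
    (hd : ∀ r : R, W.Ge 1 (d (algebraMap R K r))) (c : A) : W.Ge 1 (d (algebraMap A K c)) := by
  classical
  have := Fintype.ofFinite G
  have hp := hW.isPrime
  let V : Option {g : G // g ≠ 1} → Submodule k A := fun o => o.elim
    { carrier := {c | W.Ge 1 (d (algebraMap A K c))}
      add_mem' := fun ha hb => by simpa using Place.Ge.add ha hb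
      zero_mem' := by simp
      smul_mem' := fun t a ha => by
        have := Place.Ge.smul ha t
        rwa [← d.map_smul, Algebra.smul_def, IsScalarTower.algebraMap_apply k A K, ← map_mul,
          ← Algebra.smul_def] at this }
    fun g =>
    { carrier := {a | g.1 • a - a ∈ Q}
      add_mem' := fun {a b} ha hb => by
        have := Q.add_mem ha hb
        rwa [sub_add_sub_comm, ← smul_add] at this
      zero_mem' := by simp
      smul_mem' := fun t a ha => by
        have := Q.smul_of_tower_mem t ha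
        rwa [smul_sub, ← smul_comm] at this }
  by_contra hc
  obtain ⟨β, hβ⟩ := Submodule.exists_forall_notMem_of_forall_ne_top V (by
    rintro (_ | g) h
    · exact hc (show c ∈ V none from h ▸ trivial)
    · exact g.2 (hfree Q hp hQ.le g fun a => show a ∈ V (some g) from h ▸ trivial))
  refine hβ none ?_
  let χ := MulSemiringAction.charpoly G β
  have h1 := der_eval d (hW.ge β) (χ.map (algebraMap A K)) fun i => by
    obtain ⟨r, hr⟩ := Algebra.IsInvariant.isInvariant (A := R) (G := G) (χ.coeff i)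
      (MulSemiringAction.smul_coeff_charpoly β i)
    rw [coeff_map, ← hr, ← IsScalarTower.algebraMap_apply]; exact hd r
  rw [derivative_map, eval_map_algebraMap, eval_map_algebraMap, aeval_algebraMap_apply,
    aeval_algebraMap_apply, coe_aeval_eq_eval, MulSemiringAction.eval_charpoly] at h1
  have h2 : (derivative χ).eval β ∉ Q := by
    simp only [χ, MulSemiringAction.charpoly_eq]
    rw [← Finset.mul_prod_erase _ _ (Finset.mem_univ (1 : G)), derivative_mul]
    simp only [one_smul, derivative_sub, derivative_X, derivative_C, sub_zero, one_mul, eval_add,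
      eval_mul, eval_sub, eval_X, eval_C, sub_self, zero_mul, add_zero, eval_prod]
    rw [hp.prod_mem_iff]
    rintro ⟨g, hg, h⟩
    exact hβ (some ⟨g, Finset.ne_of_mem_erase hg⟩) (show g • β - β ∈ Q by simpa using Q.neg_mem h)
  obtain ⟨h3, h4⟩ := hW.ord_eq h2
  have h5 := (Place.ge_ord (algebraMap A K ((derivative χ).eval β))⁻¹).mul h1.neg
  simp only [map_zero, zero_sub, neg_neg, inv_mul_cancel_left₀ h3, Place.ord_inv, h4] at h5
  change W.Ge 1 (d (algebraMap A K β))
  simpa using h5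

lemma exists_jac_unit [Infinite k] (hfree : Free A G) {W : Place k K} {Q : Ideal A}
    (hW : HasCentre W Q) (hQ : Q.height = 1) {D : Fin 3 → Derivation k K K} {x : Fin 3 → A}
    (hx : Jac D (fun i => algebraMap A K (x i)) = 1) :
    ∃ r : Fin 3 → R, ¬ W.Ge 1 (Jac D fun i => algebraMap R K (r i)) := by
  by_contra! h
  have key : ∀ v : Fin 3 → K, (∀ r : R, W.Ge 1 (∑ i, v i * D i (algebraMap R K r))) →
      ∀ c : A, W.Ge 1 (∑ i, v i * D i (algebraMap A K c)) := fun v hv c => by
    simpa [der_sum_apply] using unram (R := R) hfree hW hQ (∑ i, v i • D i)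
      (by simpa [der_sum_apply] using hv) c
  have e0 : ∀ (a : K) (b c : Fin 3 → K), det3 (grad D a) b c = ∑ i, ![b 1 * c 2 - b 2 * c 1,
      b 2 * c 0 - b 0 * c 2, b 0 * c 1 - b 1 * c 0] i * D i a := fun a b c => by
    simp [det3, grad, Fin.sum_univ_three]; ring
  have rot : ∀ a b c : Fin 3 → K, det3 a b c = det3 b c a := fun a b c => by
    simp only [det3]; ring
  have h1 : ∀ (c : A) (r s : R), W.Ge 1 (det3 (grad D (algebraMap A K c))
      (grad D (algebraMap R K r)) (grad D (algebraMap R K s))) := fun c r s => by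
    rw [e0]; refine key _ (fun t => ?_) c
    rw [← e0]; exact h ![t, r, s]
  have h2 : ∀ (c c' : A) (s : R), W.Ge 1 (det3 (grad D (algebraMap A K c))
      (grad D (algebraMap A K c')) (grad D (algebraMap R K s))) := fun c c' s => by
    rw [rot, e0]; refine key _ (fun t => ?_) c'
    rw [← e0, ← rot]; exact h1 c t s
  have h3 : W.Ge 1 (Jac D fun i => algebraMap A K (x i)) := by
    rw [Jac, ← rot, e0]; refine key _ (fun t => ?_) _
    rw [← e0, rot]; exact h2 _ _ t
  simpa [hx] using h3.le (by simp [hx])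

lemma Val.der_ge {m Q : Ideal A} {W : Place k K} (hW : Val m W Q) {d : Derivation k K K} {u : A}
    (hu : u ∉ m) (hd : ∀ a, ∃ c, algebraMap A K u * d (algebraMap A K a) = algebraMap A K c)
    {g : K} (hg : W.Ge 0 g) : W.Ge 0 (d g) := by
  obtain ⟨u1, u2⟩ := hW.centre.ord_eq (a := u) fun h => hu (hW.le h)
  have h1 : ∀ a, W.Ge 0 (d (algebraMap A K a)) := fun a => by
    obtain ⟨c, hc⟩ := hd a
    have := (Place.ge_ord (algebraMap A K u)⁻¹).mul (hW.centre.ge c)
    simpa [← hc, inv_mul_cancel_left₀ u1, u2] using this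
  obtain ⟨a, b, hb, h2⟩ := hW.reg g hg
  obtain ⟨b1, b2⟩ := hW.centre.ord_eq hb
  have h3 := congrArg d h2
  rw [Derivation.leibniz, smul_eq_mul, smul_eq_mul] at h3
  have := (Place.ge_ord (algebraMap A K b)⁻¹).mul' ((h1 a).sub (hg.mul' (h1 b) le_rfl))
    (l := 0) (by simp [b2])
  rwa [← h3, add_sub_cancel_left, inv_mul_cancel_left₀ b1] at this

lemma ge_det3 {W : Place k K} {a b c : Fin 3 → K} (ha : ∀ i, W.Ge 0 (a i)) (hb : ∀ i, W.Ge 0 (b i))
    (hc : ∀ i, W.Ge 0 (c i)) : W.Ge 0 (det3 a b c) := by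
  have h := fun i j => (hb i).mul' (hc j) (l := 0) le_rfl
  exact (((ha 0).mul' ((h 1 2).sub (h 2 1)) le_rfl).sub ((ha 1).mul' ((h 0 2).sub (h 2 0))
    le_rfl)).add ((ha 2).mul' ((h 0 1).sub (h 1 0)) le_rfl)

variable (G) in
include G in
lemma height_under {Q : Ideal A} [Q.IsPrime] (hQ : Q.height = 1) : (Q.under R).height = 1 := by
  have := Algebra.IsInvariant.isIntegral R A G
  have := IsDomain.of_faithfulSMul R A
  refine le_antisymm ((Ideal.height_le_iff (n := 1)).2 fun q hq hlt => ?_) ?_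
  · obtain ⟨Q', -, h1, h2⟩ := Ideal.exists_ideal_over_prime_of_isIntegral (S := A) q ⊥
      (by simp [Ideal.comap_bot_of_injective _ (FaithfulSMul.algebraMap_injective R A)])
    obtain ⟨Q'', h3, h4, h5⟩ := Ideal.exists_ideal_over_prime_of_isIntegral (S := A)
      (Q.under R) Q' (h2 ▸ hlt.le)
    obtain ⟨g, rfl⟩ := Algebra.IsInvariant.exists_smul_of_under_eq R A G Q Q'' h5.symm
    have h6 : (g • Q).height = 1 :=
      (RingEquiv.height_map (MulSemiringAction.toRingEquiv G A g) Q).trans hQ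
    have h7 := Ideal.height_add_one_le_of_lt_of_isPrime (lt_of_le_of_ne h3 fun h => by
      rw [← h2, h, h5] at hlt; exact hlt.ne rfl)
    rw [h6] at h7
    have h8 : Q' = ⊥ := Ideal.height_eq_zero_iff_eq_bot.1 (by
      rw [← Order.lt_one_iff]; exact (ENat.add_one_le_iff (by
        rintro h; simp [h] at h7)).1 h7)
    rw [← h2, h8, Ideal.comap_bot_of_injective _ (FaithfulSMul.algebraMap_injective R A)]
    simp
  · rw [Order.one_le_iff_ne_zero, Ne, Ideal.height_eq_zero_iff_eq_bot]
    exact Ideal.IsIntegral.comap_ne_bot R (Ideal.ne_bot_of_height_eq_one hQ)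

lemma HasCentre.under {F : Place k K} {E : Place k K'} {e : ℕ}
    (h : F.Over (IsScalarTower.toAlgHom k K' K) E e) {Q : Ideal A} (hF : HasCentre F Q) :
    HasCentre E (Q.under R) := fun r => by
  rw [← h.ge_zero_iff, ← h.ge_one_iff, IsScalarTower.coe_toAlgHom',
    ← IsScalarTower.algebraMap_apply, IsScalarTower.algebraMap_apply R A K]
  exact hF _

variable (G R K') in
include G R in
lemma exists_under {F : Place k K} {Q : Ideal A} (hF : HasCentre F Q) (hQ : Q ≠ ⊥) :
    ∃ (E : Place k K') (e : ℕ), F.Over (IsScalarTower.toAlgHom k K' K) E e := by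
  have := Algebra.IsInvariant.isIntegral R A G
  have := IsDomain.of_faithfulSMul R A
  refine (F.restrict (IsScalarTower.toAlgHom k K' K)).resolve_left fun h => ?_
  obtain ⟨r, hr, hr0⟩ := Submodule.exists_mem_ne_zero_of_ne_bot
    (Ideal.IsIntegral.comap_ne_bot R hQ)
  have h1 := ((hF _).2.1 hr).le (by simpa using hr0)
  have h2 := h (algebraMap R K' r)
  rw [IsScalarTower.coe_toAlgHom', ← IsScalarTower.algebraMap_apply,
    IsScalarTower.algebraMap_apply R A K] at h2
  omega

variable (G) in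
include G in
lemma Val.eq_of_centre {m Q : Ideal A} {W : Place k K} (hW : Val m W Q) {E S : Place k K'} {e : ℕ}
    (h : W.Over (IsScalarTower.toAlgHom k K' K) E e) (hS : HasCentre S (Q.under R)) : E = S := by
  have := Algebra.IsInvariant.isIntegral R A G
  have := IsGaloisGroup.to_isFractionRing G R A K' K
  have := IsGaloisGroup.isGalois G K' K
  have := IsGaloisGroup.finiteDimensional G K' K
  obtain ⟨W', e', h'⟩ := Place.exists_over K S
  obtain ⟨Q', hQ'⟩ := exists_centre (A := A) (W := W') fun a =>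
    W'.ge_zero_of_isIntegral (R := R) (fun r => by
      rw [IsScalarTower.algebraMap_apply R K' K]; exact (h'.ge_zero_iff _).2 (hS.ge r))
      (Algebra.IsIntegral.isIntegral a).algebraMap
  have := hQ'.isPrime
  have := hW.centre.isPrime
  obtain ⟨g, hg⟩ := Algebra.IsInvariant.exists_smul_of_under_eq R A G Q' Q
    ((hQ'.under h').unique hS)
  have h1 : HasCentre (g • W') Q := fun a => by
    rw [hg, Ideal.mem_pointwise_smul_iff_inv_smul_mem, Place.smul_ge, Place.smul_ge,
      ← algebraMap.coe_smul']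
    exact hQ' _
  have h2 : W = g • W' := Place.ext_of_ge fun z hz => by
    obtain ⟨a, b, hb, h3⟩ := hW.reg z hz
    obtain ⟨b1, b2⟩ := h1.ord_eq hb
    have := (h1.ge a).mul' (Place.ge_ord (algebraMap A K b)⁻¹) (l := 0) (by simp [b2])
    rwa [← h3, mul_inv_cancel_right₀ b1] at this
  refine (h.unique (e' := e') ⟨h'.1, fun z => ?_⟩).1
  rw [h2, Place.smul_ord, IsScalarTower.coe_toAlgHom', smul_algebraMap]
  exact h'.2 z

lemma weight3 (w : Fin 3 → ℕ) (d : Fin 3 →₀ ℕ) :
    Finsupp.weight w d = d 0 * w 0 + d 1 * w 1 + d 2 * w 2 := by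
  rw [Finsupp.weight_apply, Finsupp.sum_fintype _ _ (by simp), Fin.sum_univ_three]; rfl

/-- The centre of a monomial valuation. -/
def Chart.ctr {m : Ideal A} (C : Chart (Fin 3) k m) (w : Fin 3 → ℕ) : Ideal A where
  carrier := {a | WGe w 1 (C.T a)}
  add_mem' ha hb := by simpa using WGe.add ha hb
  zero_mem' := by simpa using wge_zero
  smul_mem' c a ha := by simpa using WGe.mul_left ha _

lemma Chart.mem_ctr {m : Ideal A} {C : Chart (Fin 3) k m} {w : Fin 3 → ℕ} {a : A} :
    a ∈ C.ctr w ↔ WGe w 1 (C.T a) := Iff.rfl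

lemma Chart.ctr_le {m : Ideal A} (C : Chart (Fin 3) k m) (w : Fin 3 → ℕ) : C.ctr w ≤ m :=
  fun _ ha => by_contra fun h => C.not_wge_one h w ha

instance {m : Ideal A} (C : Chart (Fin 3) k m) (w : Fin 3 → ℕ) : (C.ctr w).IsPrime := by
  refine ⟨fun h => C.ne_top (eq_top_mono (C.ctr_le w) h), fun {a b} h => ?_⟩
  simp only [Chart.mem_ctr, wge_iff, map_mul, MvPowerSeries.weightedOrder_mul, Nat.cast_one,
    Order.one_le_iff_ne_zero, Ne, add_eq_zero] at h ⊢
  tauto

lemma Chart.x_mem_ctr {m : Ideal A} (C : Chart (Fin 3) k m) {w : Fin 3 → ℕ} {i : Fin 3} :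
    C.x i ∈ C.ctr w ↔ w i ≠ 0 := by
  rw [Chart.mem_ctr, C.T_x]
  refine ⟨fun h h0 => ?_, fun h => (wge_X i).mono (by omega)⟩
  simpa [MvPowerSeries.coeff_X] using h (Finsupp.single i 1) (by simp [Finsupp.weight_single, h0])

lemma Chart.ctr_mono {m : Ideal A} (C : Chart (Fin 3) k m) {w w' : Fin 3 → ℕ}
    (h : ∀ i, w' i = 0 → w i = 0) : C.ctr w ≤ C.ctr w' := fun a ha d hd => ha d (by
  have h0 := h 0
  have h1 := h 1
  have h2 := h 2
  simp only [weight3, Nat.lt_one_iff, add_eq_zero, mul_eq_zero] at hd ⊢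
  tauto)

lemma Chart.ctr_chain {m : Ideal A} (C : Chart (Fin 3) k m) :
    ⊥ < C.ctr ![0, 0, 1] ∧ C.ctr ![0, 0, 1] < C.ctr ![0, 1, 1] := by
  refine ⟨bot_lt_iff_ne_bot.2 fun h => C.algInd.ne_zero 2 ?_, lt_of_le_of_ne
    (C.ctr_mono fun i => by fin_cases i <;> simp) fun h => ?_⟩
  · rw [← Ideal.mem_bot, ← h, C.x_mem_ctr]; simp
  · have : C.x 1 ∈ C.ctr ![0, 0, 1] := by rw [h, C.x_mem_ctr]; simp
    simp [C.x_mem_ctr] at this

lemma two_le_height {S : Type} [CommRing S] {I J L : Ideal S} [I.IsPrime] [J.IsPrime] [L.IsPrime]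
    (h1 : I < J) (h2 : J < L) : 2 ≤ L.height :=
  calc (2 : ℕ∞) ≤ I.height + 1 + 1 := by rw [add_assoc]; exact le_add_self
    _ ≤ J.height + 1 := by gcongr; exact Ideal.height_add_one_le_of_lt_of_isPrime h1
    _ ≤ L.height := Ideal.height_add_one_le_of_lt_of_isPrime h2

lemma finite_mono {L L' : Subfield K} [Module.Finite L K] (h : L ≤ L') : Module.Finite L' K := by
  let := (Subfield.inclusion h).toAlgebra
  have : IsScalarTower L L' K := IsScalarTower.of_algebraMap_eq fun _ => rfl
  exact Module.Finite.of_restrictScalars_finite L L' K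

variable (G R A) in
include G R A in
lemma finite_range :
    Module.Finite (IsScalarTower.toAlgHom k K' K).fieldRange.toSubfield K := by
  have := IsGaloisGroup.to_isFractionRing G R A K' K
  have := IsGaloisGroup.finiteDimensional G K' K
  let := (IsScalarTower.toAlgHom k K' K).equivFieldRange.toRingEquiv.toRingHom.toAlgebra
  have : IsScalarTower K' (IsScalarTower.toAlgHom k K' K).fieldRange K :=
    IsScalarTower.of_algebraMap_eq fun _ => rfl
  exact Module.Finite.of_restrictScalars_finite K' (IsScalarTower.toAlgHom k K' K).fieldRange K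

variable (k K) in
open Classical in
/-- Near `m`, the divisor of `s` is reduced and lies over `q`. -/
def Red (m : Ideal A) (q : Ideal R) (s : A) : Prop := s ≠ 0 ∧
  ∀ (W : Place k K) (Q : Ideal A), Val m W Q →
    W.ord (algebraMap A K s) ≤ if Q.under R = q then 1 else 0

theorem key [IsAlgClosed k] [Algebra.Smooth k A] (p : ℕ) [Fact p.Prime] [CharP K p]
    (hfree : Free A G) {Δ : Place k K' →₀ ℚ} (hΔ : IsPlt 3 R Δ) {S : Place k K'} (hS : Δ S = 1)
    {q : Ideal R} (hq : HasCentre S q) {m : Ideal A} [m.IsMaximal] (C : Chart (Fin 3) k m)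
    {s : A} (hs : Red k K m q s) {w : Fin 3 → ℕ} (hw1 : w 1 ≠ 0) (hw2 : w 2 ≠ 0) {F : Place k K}
    (hF : ∀ (n : ℕ) (a : A), F.Ge n (algebraMap A K a) ↔ WGe w n (C.T a))
    {D : Fin 3 → Derivation k K K} {u : A} (hu : u ∉ m)
    (hD : ∀ (d : Derivation k K K) (g : K), d g = ∑ i, D i g * d (algebraMap A K (C.x i)))
    (hD' : ∀ a i, ∃ c : A, algebraMap A K u * D i (algebraMap A K a) = algebraMap A K c ∧
      C.T c = C.T u * MvPowerSeries.pderiv k i (C.T a))
    {μ : ℤ} (hLB : LB D F (IsScalarTower.toAlgHom k K' K).fieldRange.toSubfield μ) {n : ℕ}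
    (hn : WGe w n (C.T s)) : μ + n < 0 := by
  classical
  have := Algebra.FiniteType.isNoetherianRing k A
  have := Algebra.IsInvariant.isIntegral R A G
  have := IsGaloisGroup.to_isFractionRing G R A K' K
  have := IsGaloisGroup.isGalois G K' K
  have := finite_range (k := k) A R (K := K) (K' := K') G
  have hι : ∀ r : R, algebraMap K' K (algebraMap R K' r) = algebraMap R K r := fun r =>
    (IsScalarTower.algebraMap_apply R K' K r).symm
  obtain ⟨h01, -, ω, N, hω, hN, hh⟩ := hΔ.out
  obtain ⟨h, h0, hh⟩ := hh (m.under R) (Ideal.IsMaximal.under R m)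
  obtain ⟨φ, hφ⟩ := exists_phi K' D
  have hx : Jac D (fun i => algebraMap A K (C.x i)) = 1 := by
    have : ∀ i j, D i (algebraMap A K (C.x j)) = if j = i then 1 else 0 := fun i j => by
      obtain ⟨c, h1, h2⟩ := hD' (C.x j) i
      have hu0 := (ord_unit_of_chart hF hu).1
      rw [C.T_x, MvPowerSeries.pderiv_X, Pi.single_apply] at h2
      split_ifs at h2 ⊢
      · rw [mul_one] at h2
        rwa [C.injective h2, mul_eq_left₀ hu0] at h1
      · rw [mul_zero, ← map_zero C.T] at h2
        rwa [C.injective h2, map_zero, mul_eq_zero_iff_left hu0] at h1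
    simp [Jac, det3, grad, this]
  have hvol : ∀ r : Fin 3 → R, Jac D (fun i => algebraMap R K (r i)) ≠ 0 → ∃ f : K',
      ω = f • vol k (fun i => algebraMap R K' (r i)) ∧ f ≠ 0 ∧
        φ ω = algebraMap K' K f * Jac D fun i => algebraMap R K (r i) := fun r hr => by
    obtain ⟨f, hf⟩ := exists_smul_vol hD (r := fun i => algebraMap R K' (r i))
      (by simpa only [hι] using hr) ω
    refine ⟨f, hf, fun h => hω (by rw [hf, h, zero_smul]), ?_⟩
    rw [hf, map_smul, hφ, Algebra.smul_def]; simp only [hι]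
  have hctr : HasCentre F (C.ctr w) := fun a => ⟨ge_zero_of_chart hF a, (hF 1 a).symm⟩
  have hle : C.ctr ![0, 1, 1] ≤ C.ctr w := C.ctr_mono fun i => by fin_cases i <;> simp [*]
  obtain ⟨E, e, hE⟩ := exists_under R K' G hctr
    ((C.ctr_chain.1.trans C.ctr_chain.2).trans_le hle).ne'
  obtain ⟨r0, f0, hf0, hj⟩ : ∃ (r : Fin 3 → R) (f : K'),
      ω = f • vol k (fun i => algebraMap R K' (r i)) ∧ φ ω ≠ 0 := by
    by_contra! hc
    have hx0 : algebraMap A K (C.x 0) ≠ 0 := by simpa using C.algInd.ne_zero 0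
    obtain ⟨a, v, hv, ha⟩ := C.mem_of_val (g := (algebraMap A K (C.x 0))⁻¹) fun W Q hW => by
      obtain ⟨r, hr⟩ := exists_jac_unit (R := R) hfree hW.centre hW.ht hx
      obtain ⟨f, h2, h3, h4⟩ := hvol r (Place.not_ge_iff.1 hr).1
      exact absurd (h4 ▸ hc r f h2) (mul_ne_zero (by simpa using h3) (Place.not_ge_iff.1 hr).1)
    rw [inv_mul_eq_iff_eq_mul₀ hx0, ← map_mul] at ha
    exact hv (IsFractionRing.injective A K ha ▸ m.mul_mem_right _ (C.x_mem 0))
  have hs0 : algebraMap A K s ≠ 0 := by simpa using hs.1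
  have hh0 : algebraMap K' K h ≠ 0 := by simpa using h0
  obtain ⟨a, v, hv, ha⟩ := C.mem_of_val
    (g := algebraMap K' K h / (φ ω * algebraMap A K s) ^ N) fun W Q hW => by
      have := hW.centre.isPrime
      obtain ⟨E, e, hE⟩ := exists_under R K' G hW.centre (Ideal.ne_bot_of_height_eq_one hW.ht)
      have h1 := (hh E _ (hW.centre.under hE) (Ideal.comap_mono hW.le)).1 (height_under G hW.ht)
      obtain ⟨r, hr⟩ := exists_jac_unit (R := R) hfree hW.centre hW.ht hx
      obtain ⟨hr0, hr1⟩ := Place.not_ge_iff.1 hr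
      obtain ⟨f, h2, h3, h4⟩ := hvol r hr0
      have hge : ∀ g, W.Ge 0 g → ∀ i, W.Ge 0 (grad D g i) := fun g hg i =>
        hW.der_ge hu (fun a => (hD' a i).imp fun _ h => h.1) hg
      have h5 := (formOrd_bounds hE hφ hj (ν := 0) (fun a ha => ge_det3
        (hge _ ((hE.ge_zero_iff _).2 (ha 0))) (hge _ ((hE.ge_zero_iff _).2 (ha 1)))
        (hge _ ((hE.ge_zero_iff _).2 (ha 2)))) (fun i => (hW.centre.under hE).ge _) h2).1
      have h6 : (W.ord (algebraMap A K s) : ℚ) ≤ Δ E := by
        have h7 := hs.2 W Q hW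
        split_ifs at h7 with h8
        · rw [hW.eq_of_centre G hE (h8 ▸ hq), hS]; exact_mod_cast h7
        · exact le_trans (by exact_mod_cast h7) (h01 E).1
      have h7 := hE.2 f
      have h8 := hE.2 h
      simp only [IsScalarTower.coe_toAlgHom'] at h7 h8
      refine Place.ge_of_le ?_
      rw [W.ord_div hh0 (pow_ne_zero _ (mul_ne_zero hj hs0)), W.ord_pow, W.ord_mul hj hs0, h4,
        W.ord_mul (by simpa using h3) hr0, h7, h8]
      have he : (1 : ℚ) ≤ e := by exact_mod_cast hE.1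
      have h9 : (W.ord (Jac D fun i => algebraMap R K (r i)) : ℚ) ≤ 0 := by
        exact_mod_cast Int.lt_add_one_iff.1 hr1
      have h10 : (E.ord f : ℚ) ≤ formOrd 3 E ω := by exact_mod_cast h5
      have h11 := (h01 E).1
      have hN' : (0 : ℚ) ≤ N := by positivity
      have : (0 : ℚ) ≤ e * E.ord h - N * (e * E.ord f +
          W.ord (Jac D fun i => algebraMap R K (r i)) + W.ord (algebraMap A K s)) := by
        rw [h1]
        have := mul_nonneg hN' (add_nonneg (add_nonneg (mul_nonneg (by linarith : (0 : ℚ) ≤ e)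
          (sub_nonneg.2 h10)) (mul_nonneg (sub_nonneg.2 he) h11))
          (add_nonneg (neg_nonneg.2 h9) (sub_nonneg.2 h6)))
        linarith
      exact_mod_cast this
  have h1 := (hh E _ (hctr.under hE) (Ideal.comap_mono (C.ctr_le w))).2
    ((two_le_height (Ideal.IsIntegral.comap_lt_comap C.ctr_chain.1)
      (Ideal.IsIntegral.comap_lt_comap C.ctr_chain.2)).trans
        (Ideal.height_mono (Ideal.comap_mono hle))) ((divisorial_of_chart hF hw2).descend hE)
  obtain ⟨ϖ, hϖ0, hϖ⟩ := E.exists_ord_eq_one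
  have h2 : F.ord (algebraMap K' K ϖ) = e := by simpa [hϖ] using hE.2 ϖ
  have he : (1 : ℤ) ≤ e := by exact_mod_cast hE.1
  have h3 := (formOrd_bounds hE hφ hj (ν := μ + e) (fun a ha => h2 ▸ hLB.nonlog p (C.dep p _)
    (ϖ := algebraMap K' K ϖ) ⟨ϖ, rfl⟩ (by simpa using hϖ0) (by omega) (by rintro _ ⟨c, rfl⟩; exact ⟨_, h2 ▸ hE.2 c⟩)
    ⟨_, rfl⟩ ⟨_, rfl⟩ ⟨_, rfl⟩ ((hE.ge_zero_iff _).2 (ha 0)) ((hE.ge_zero_iff _).2 (ha 1))
    ((hE.ge_zero_iff _).2 (ha 2))) (fun i => (hctr.under hE).ge _) hf0).2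
  obtain ⟨v1, v2⟩ := ord_unit_of_chart hF hv
  have h4 := div_ne_zero hh0 (pow_ne_zero N (mul_ne_zero hj hs0))
  have h5 := (ha ▸ ge_zero_of_chart hF a).le (mul_ne_zero h4 v1)
  have h6 := hE.2 h
  simp only [IsScalarTower.coe_toAlgHom'] at h6
  rw [F.ord_mul h4 v1, v2, F.ord_div hh0 (pow_ne_zero _ (mul_ne_zero hj hs0)), F.ord_pow,
    F.ord_mul hj hs0, h6] at h5
  have h7 := ((hF n s).2 hn).le hs0
  have hN' : (0 : ℚ) < N := by exact_mod_cast hN
  rw [lt_sub_iff_add_lt, ← lt_sub_iff_add_lt', div_lt_iff₀ hN'] at h1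
  have h8 : E.ord h < (formOrd 3 E ω + 1) * N := by
    rw [sub_neg_eq_add] at h1; exact_mod_cast h1
  have hN'' : (0 : ℤ) < N := by exact_mod_cast hN
  by_contra! h9
  nlinarith

end Pool.Agent.Lib.MP_5f81cf_ag
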