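import Pool.Agent.Lib.MP_5f81cf_ag.Class

/-! Lifting invariants when the divisor is smooth. -/

namespace Pool.Agent.Lib.MP_5f81cf_ag

open MvPowerSeries Finsupp

variable {k A G : Type} [Field k] [CommRing A] [Algebra k A] [Group G] [MulSemiringAction G A]
  [SMulCommClass G k A] {m : Ideal A}

/-- The leading term of `φ` is a nonzero multiple of the monomial `d`. -/
def Lead (w : Fin 3 → ℕ) (φ : MvPowerSeries (Fin 3) k) (d : Fin 3 →₀ ℕ) : Prop :=
  ∃ μ : k, μ ≠ 0 ∧ WGe w (weight w d + 1) (φ - monomial d μ)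

section lead

variable {w : Fin 3 → ℕ} {φ ψ : MvPowerSeries (Fin 3) k} {d e : Fin 3 →₀ ℕ}

lemma Lead.mul (h : Lead w φ d) (h' : Lead w ψ e) : Lead w (φ * ψ) (d + e) := by
  obtain ⟨μ, h0, h⟩ := h
  obtain ⟨ν, h0', h'⟩ := h'
  refine ⟨μ * ν, mul_ne_zero h0 h0', ?_⟩
  have h1 : WGe w (weight w e) ψ := by simpa using (h'.mono (by omega)).add (wge_monomial e ν)
  convert (h.mul' h1 (l := weight w (d + e) + 1) (by rw [map_add]; omega)).add
    ((wge_monomial d μ).mul' h' (by rw [map_add]; omega)) using 1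
  rw [← monomial_mul_monomial]; ring

lemma Lead.one : Lead w (1 : MvPowerSeries (Fin 3) k) 0 := ⟨1, one_ne_zero, by simpa using wge_zero⟩

lemma Lead.pow (h : Lead w φ d) (n : ℕ) : Lead w (φ ^ n) (n • d) := by
  induction n with
  | zero => simpa using Lead.one
  | succ n ih => rw [pow_succ, succ_nsmul]; exact ih.mul h

end lead

omit [SMulCommClass G k A] in
lemma norm_inv [IsDomain A] {σ : G} {p : ℕ} (h : σ ^ p = 1) (a : A) :
    σ • ∏ j ∈ Finset.range p, σ ^ j • a = ∏ j ∈ Finset.range p, σ ^ j • a := by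
  by_cases ha : a = 0
  · cases p <;> simp [ha]
  have h1 := Finset.prod_range_succ (fun j => σ ^ j • a) p
  rw [Finset.prod_range_succ', h, pow_zero, one_smul] at h1
  rw [Finset.smul_prod', ← mul_right_cancel₀ ha h1]
  simp only [smul_smul, pow_succ']

omit [SMulCommClass G k A] in
lemma lead_norm (C : Chart (Fin 3) k m) {w : Fin 3 → ℕ} {σ : G} {l : ℕ} (h : C.Shift w (l + 1) σ)
    (i : Fin 3) (n : ℕ) :
    Lead w (C.T (∏ j ∈ Finset.range n, σ ^ j • C.x i)) (n • single i 1) := by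
  have h1 : ∀ j : ℕ, WGe w (w i + 1) (C.T (σ ^ j • C.x i) - X i) := fun j => by
    induction j with
    | zero => simpa [C.T_x] using wge_zero
    | succ j ih =>
      have h2 : WGe w (w i) (C.T (σ ^ j • C.x i)) := by
        simpa using (ih.mono (by omega)).add (wge_X i)
      simpa [pow_succ', mul_smul] using ((h _ _ h2).mono (by omega)).add ih
  induction n with
  | zero => simpa using Lead.one
  | succ n ih =>
    rw [Finset.prod_range_succ, map_mul, succ_nsmul]
    exact ih.mul ⟨1, one_ne_zero, by simpa [weight_single, X_def] using h1 n⟩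

theorem Chart.TypeE.lift [IsDomain A] {C : Chart (Fin 3) k m} {σ : G} {s : A} {p e a a' : ℕ}
    [CharP k p] (hC : C.TypeE σ s p e a a') (hσ : ∀ a ∈ m, σ • a ∈ m) (hσp : σ ^ p = 1)
    (hs : Semi m σ s) {f : A} (hf : C.T s ∣ C.T (dl k σ f)) (M : ℕ) :
    ∃ r, σ • r = r ∧ f - r ∈ Ideal.span {s} ⊔ m ^ M := by
  classical
  have hp : p = 3 ∨ p = 5 := by have := hC.num; omega
  have : Fact p.Prime := ⟨by rcases hp with rfl | rfl <;> decide⟩
  obtain ⟨N, hN⟩ : ∃ N, N = 7 * M + 20 := ⟨_, rfl⟩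
  obtain ⟨V, hV, hV'⟩ := C.semi_eq hs
  have hX2 : C.T s = X 2 := by rw [← hC.x2, C.T_x]
  have hx0 : C.T (dl k σ (C.x 0)) = X 1 := by rw [hC.x1, C.T_x]
  have hx2 : C.T (dl k σ (C.x 2)) = X 2 * V := by rw [hC.x2, dl_apply, hV', hX2]
  set W := C.T (dl k σ (C.x 1)) with hW
  set c := cf e 0 0 W with hc
  have hnum := hC.num
  have hc0 : c ≠ 0 := hC.ne
  have W1 : WGe ![a, a + 1, N] (a + 3) (W - c • X 0 ^ e) := wge3.2 fun i j l hd => by
    obtain rfl : l = 0 := by
      by_contra h; have := Nat.le_mul_of_pos_left N (Nat.pos_of_ne_zero h); omega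
    rw [map_sub, map_smul, X_pow_eq, cf_monomial]
    by_cases h : i = e ∧ j = 0
    · obtain ⟨rfl, rfl⟩ := h; simp [hc]
    · rw [hC.van i j (by rcases hnum with ⟨-, rfl, rfl, -⟩ | ⟨-, rfl, rfl, -⟩ <;> omega) h]
      simpa using fun h1 h2 => absurd ⟨h1, h2⟩ h
  have W0 : WGe ![a, a + 1, N] (a + 1 + 1) W := by
    have : WGe ![a, a + 1, N] (a + 1 + 1) (c • (X 0 : MvPowerSeries (Fin 3) k) ^ e) :=
      (((wge_X 0).pow e).mono (by
        rcases hnum with ⟨-, rfl, rfl, -⟩ | ⟨-, rfl, rfl, -⟩ <;> simp)).smul c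
    simpa using (W1.mono (by omega)).add this
  have W2 : WGe ![a', a' + 2, N] (a' + 2 + 3) W := wge3.2 fun i j l hd => by
    obtain rfl : l = 0 := by
      by_contra h; have := Nat.le_mul_of_pos_left N (Nat.pos_of_ne_zero h); omega
    rcases hnum with ⟨-, rfl, rfl, rfl⟩ | ⟨-, rfl, rfl, rfl⟩ <;>
      exact hC.van i j (by omega) (by omega)
  have hS : ∀ w, WGe w (w 2) (C.T s) := fun w => hC.x2 ▸ C.wx w 2
  have sh : ∀ j, WGe ![a, a + 1, N] (![a, a + 1, N] j + 1) (C.T (dl k σ (C.x j))) := fun j => by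
    fin_cases j
    exacts [hC.x1 ▸ C.wx _ 1, W0, hC.x2 ▸ C.semi_wge hs (hS _) (le_w (by omega))]
  have sh' : ∀ j, WGe ![a', a' + 2, N] (![a', a' + 2, N] j + 2) (C.T (dl k σ (C.x j))) :=
    fun j => by
      fin_cases j
      exacts [hC.x1 ▸ C.wx _ 1, W2.mono (by simp),
        hC.x2 ▸ C.semi_wge hs (hS _) (le_w (by omega))]
  have tay : ∀ {w : Fin 3 → ℕ} {n i j : ℕ} {g : A}, dl k σ g = dl k σ f → WGe w n
      (C.T (dl k σ g) - ∑ j, C.T (dl k σ (C.x j)) * pderiv k j (C.T g)) → i * w 0 + j * w 1 < n →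
      cf i j 0 (X 1 * pderiv k 0 (C.T g)) + cf i j 0 (W * pderiv k 1 (C.T g)) = 0 := by
    intro w n i j g h1 h2 h3
    obtain ⟨H, hH⟩ := hf
    have := h2.cf (a := i) (b := j) (c := 0) (by omega)
    rw [h1, hH, hX2, Fin.sum_univ_three, hx0, hx2, mul_assoc] at this
    simp only [map_sub, map_add, cf_X2, if_true, add_zero, zero_sub, neg_eq_zero] at this
    exact this
  obtain ⟨y, hy, hy'⟩ : ∃ y, σ • y = y ∧ Lead ![a', a' + 2, N] (C.T y) (ex 0 2 0) := by
    have z1 := C.shift_of hσ sh _ _ (C.shift_of hσ sh _ _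
      (map_mul C.T _ _ ▸ (C.wx ![a, a + 1, N] 0).mul (C.wx _ 0)))
    have z2 : cf 0 2 0 (C.T (dl k σ (dl k σ (C.x 0 * C.x 0)))) = 1 + 1 := by
      have a1 : cf 0 1 0 W = 0 := W0.cf (by simp)
      have a2 : cf 0 2 0 (W * W) = 0 := (W0.mul W0).cf (by simp; omega)
      simp [dl_mul, hC.x1, C.T_x, cf_X0, cf_X1, cf_X, ← hW, mul_comm W (X _), a1, a2]
    suffices h : ∃ y, σ • y = y ∧ WGe ![a, a + 1, N] (a + a + 1 + 1) (C.T y) ∧
        cf 0 2 0 (C.T y) ≠ 0 by
      obtain ⟨y, h1, h2, h3⟩ := h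
      refine ⟨y, h1, _, h3, wge3.2 fun i j l hd => ?_⟩
      simp only [weight3, ex0, ex1, ex2, Matrix.cons_val_zero, Matrix.cons_val_one] at hd
      obtain rfl : l = 0 := by
        by_contra h; have := Nat.le_mul_of_pos_left N (Nat.pos_of_ne_zero h); omega
      rw [map_sub, cf_monomial]
      by_cases h : i = 0 ∧ j = 2
      · obtain ⟨rfl, rfl⟩ := h; simp
      · rw [wge3.1 h2 i j 0 (by
          rcases hnum with ⟨-, -, rfl, rfl⟩ | ⟨-, -, rfl, rfl⟩ <;> omega)]
        simpa using fun h1 h2 => absurd ⟨h1, h2⟩ h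
    rcases hnum with ⟨rfl, rfl, rfl, rfl⟩ | ⟨rfl, rfl, rfl, rfl⟩
    · have z3 := C.shift_of hσ sh _ _ (C.shift_of hσ sh _
        (dl k σ (C.x 1) - c • (C.x 0 * C.x 0)) (by simpa [C.T_x, sq] using W1))
      simp only [← dl_apply (k := k), map_sub, map_smul] at z1 z3
      refine ⟨dl k σ (dl k σ (dl k σ (C.x 1))), ?_, by
        simpa using (z3.mono (by simp)).add (z1.smul c), ?_⟩
      · have := congrArg (· (C.x 0)) (dl_pow (k := k) (A := A) 5 σ)
        rw [← sub_eq_zero, ← dl_apply (k := k), ← hC.x1]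
        simpa [hσp, dl_one, pow_succ] using this
      · have := wge3.1 z3 0 2 0 (by omega)
        rw [map_sub, map_smul, z2, sub_eq_zero] at this
        rw [this]; exact mul_ne_zero hC.ne (two_ne hp)
    · exact ⟨_, sub_eq_zero.1 (dl_three hσp _), z1, z2 ▸ two_ne hp⟩
  have allowed : ∀ i j, p ∣ i → j % 2 = 0 ∨ p ≤ j →
      ∃ r, σ • r = r ∧ Lead ![a', a' + 2, N] (C.T r) (ex i j 0) := by
    rintro _ j ⟨i, rfl⟩ hj
    have n0 := (lead_norm C (C.shift_of hσ sh') 0 p).pow i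
    have n1 := lead_norm C (C.shift_of hσ sh') 1 p
    by_cases h : j % 2 = 0
    · refine ⟨(∏ j ∈ Finset.range p, σ ^ j • C.x 0) ^ i * y ^ (j / 2), by
        rw [smul_mul', smul_pow', smul_pow', norm_inv hσp, hy], ?_⟩
      rw [map_mul, map_pow, map_pow]
      convert n0.mul (hy'.pow (j / 2)) using 1
      simp [ext3, mul_comm]; omega
    · refine ⟨(∏ j ∈ Finset.range p, σ ^ j • C.x 0) ^ i * y ^ ((j - p) / 2) *
        ∏ j ∈ Finset.range p, σ ^ j • C.x 1, by
          rw [smul_mul', smul_mul', smul_pow', smul_pow', norm_inv hσp, norm_inv hσp, hy], ?_⟩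
      rw [map_mul, map_mul, map_pow, map_pow]
      convert (n0.mul (hy'.pow ((j - p) / 2))).mul n1 using 1
      simp [ext3, mul_comm]; omega
  have good : ∀ (g : A) (i j : ℕ), dl k σ g = dl k σ f → i * a' + j * (a' + 2) < N →
      WGe ![a', a' + 2, N] (i * a' + j * (a' + 2)) (C.T g) → cf i j 0 (C.T g) ≠ 0 →
      p ∣ i ∧ (j % 2 = 0 ∨ p ≤ j) := by
    intro g i j h1 h2 h3 h4
    refine ⟨?_, by_contra fun h5 => h4 ?_⟩
    · rcases i with _ | i
      · simp
      have := tay (i := i) (j := j + 1) h1 (C.taylor hσ sh' h3) (by simp; nlinarith)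
      rw [(W2.mul (h3.deriv 1)).cf (by
        simp only [Matrix.cons_val_zero, Matrix.cons_val_one, zero_mul, add_mul, one_mul]; omega),
        cf_X1, if_neg (by omega), cf_d0] at this
      rw [← CharP.cast_eq_zero_iff k p]
      simpa [h4] using this
    have h6 : WGe ![a, a + 1, N] (i * a + j * (a + 1)) (C.T g) := wge3.2 fun i' j' l hd => by
      obtain rfl : l = 0 := by
        by_contra h
        have := Nat.le_mul_of_pos_left N (Nat.pos_of_ne_zero h)
        rcases hnum with ⟨-, -, rfl, rfl⟩ | ⟨-, -, rfl, rfl⟩ <;> omega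
      exact wge3.1 h3 _ _ _ (by
        rcases hnum with ⟨rfl, -, rfl, rfl⟩ | ⟨rfl, -, rfl, rfl⟩ <;> omega)
    have rel : ∀ i' j', i' * a + (j' + 1) * (a + 1) = i * a + j * (a + 1) →
        cf (i' + e) j' 0 (X 1 * pderiv k 0 (C.T g)) +
          c * (cf i' (j' + 1) 0 (C.T g) * (j' + 1)) = 0 := fun i' j' h => by
      have h7 : (i' + e) * a + j' * (a + 1) = i * a + j * (a + 1) + 1 := by
        rcases hnum with ⟨-, rfl, rfl, -⟩ | ⟨-, rfl, rfl, -⟩ <;> omega
      have := tay (i := i' + e) (j := j') h1 (C.taylor hσ sh h6) (by simp; omega)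
      have h8 := (W1.mul (h6.deriv 1)).cf (a := i' + e) (b := j') (c := 0) (by
        simp only [Matrix.cons_val_zero, Matrix.cons_val_one, zero_mul]; omega)
      rw [sub_mul, map_sub, sub_eq_zero, smul_mul_assoc, map_smul, cf_X0_pow, cf_d1] at h8
      rwa [h8] at this
    have h7 : ∀ i', i' * a + (a + 1) = i * a + j * (a + 1) → cf i' 1 0 (C.T g) = 0 := fun i' h => by
      simpa [cf_X1, hc0] using rel i' 0 (by simpa using h)
    obtain rfl | ⟨rfl, rfl⟩ : j = 1 ∨ (j = 3 ∧ p = 5) := by omega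
    · exact h7 i (by simp)
    · obtain ⟨rfl, rfl⟩ : e = 2 ∧ a = 2 := by omega
      have := rel i 2 rfl
      rw [cf_X1, if_neg (by omega), cf_d0, h7 _ (by omega)] at this
      have h8 : (2 + 1 : k) ≠ 0 := by
        have := nat_ne (k := k) 5 3 (by decide)
        rwa [Nat.cast_succ] at this
      exact (by simpa [hc0] using this : _ ∨ _).resolve_right h8
  have main : ∀ j ≤ N, ∃ r, σ • r = r ∧ WGe ![a', a' + 2, N] j (C.T (f - r)) := by
    intro j hj
    induction j with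
    | zero => exact ⟨0, smul_zero _, wge_bot _⟩
    | succ j ih =>
    obtain ⟨r, h1, h2⟩ := ih (by omega)
    have h3 : dl k σ (f - r) = dl k σ f := by rw [map_sub, dl_apply σ r, h1, sub_self, sub_zero]
    obtain ⟨P, h4, h5⟩ := Chart.exists_trunc (C.T (f - r)) (j + 1)
    have h6 : ∀ d ∈ P.support, ∃ r', σ • r' = r' ∧
        WGe ![a', a' + 2, N] (j + 1) (monomial d (P.coeff d) - C.T r') := fun d hd => by
      have h6 : coeff d (C.T (f - r)) ≠ 0 := fun h => MvPolynomial.mem_support_iff.1 hd (h5 d h)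
      by_cases h7 : j + 1 ≤ weight ![a', a' + 2, N] d
      · exact ⟨0, smul_zero _, by simpa using (wge_monomial d _).mono h7⟩
      have h8 : weight ![a', a' + 2, N] d = j := by
        have := mt (h2 d) h6
        omega
      have h9 := h8
      simp only [weight3, Matrix.cons_val_zero, Matrix.cons_val_one, Matrix.cons_val] at h9
      have h10 : d 2 = 0 := by
        by_contra h; have := Nat.le_mul_of_pos_left N (Nat.pos_of_ne_zero h); omega
      have h11 : d = ex (d 0) (d 1) 0 := h10 ▸ eq_ex d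
      rw [h10, zero_mul, add_zero] at h9
      obtain ⟨h12, h13⟩ := good _ (d 0) (d 1) h3 (by omega) (h9 ▸ h2) (by rwa [cf, ← h11])
      obtain ⟨r', h14, μ, hμ, h15⟩ := allowed _ _ h12 h13
      rw [← h11, h8] at h15
      refine ⟨(P.coeff d / μ) • r', by rw [smul_comm, h14], ?_⟩
      convert (h15.smul (P.coeff d / μ)).neg using 1
      rw [map_smul, smul_sub, ← map_smul (monomial d), smul_eq_mul, div_mul_cancel₀ _ hμ, neg_sub]
    choose! r' h7 h8 using h6
    refine ⟨r + ∑ d ∈ P.support, r' d, by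
      rw [smul_add, h1, Finset.smul_sum, Finset.sum_congr rfl h7], ?_⟩
    have h9 : (P : MvPowerSeries (Fin 3) k) = ∑ d ∈ P.support, monomial d (P.coeff d) := by
      conv_lhs => rw [P.as_sum, ← MvPolynomial.coeToMvPowerSeries.ringHom_apply, map_sum]
      simp
    convert ((h4.of_one (le_w (c := 1) (by omega))).mono (by omega)).add (WGe.sum h8) using 1
    rw [← sub_sub, map_sub, map_sum, Finset.sum_sub_distrib, ← h9]; ring
  obtain ⟨r, h1, h2⟩ := main N le_rfl
  refine ⟨r, h1, ?_⟩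
  have := C.mem_of_wge (fun n => Ideal.span {s} ⊔ m ^ (n / 7)) (by simp) (fun n i b hb => by
    obtain ⟨u, hu, v, hv, rfl⟩ := Submodule.mem_sup.1 hb
    have h3 : ∀ l, l ≤ 7 → (u + v) * C.x i ∈ Ideal.span {s} ⊔ m ^ ((n + l) / 7) := fun l hl => by
      rw [add_mul]
      exact add_mem (Ideal.mem_sup_left (Ideal.mul_mem_right _ _ hu)) (Ideal.mem_sup_right
        (Ideal.pow_le_pow_right (by omega : _ ≤ n / 7 + 1)
          (pow_succ m _ ▸ Ideal.mul_mem_mul hv (C.x_mem i))))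
    fin_cases i
    · exact h3 a' (by omega)
    · exact h3 (a' + 2) (by omega)
    · exact Ideal.mem_sup_left (Ideal.mul_mem_left _ _ (hC.x2 ▸ Ideal.mem_span_singleton_self _)))
    (fun n l h => sup_le_sup_left (Ideal.pow_le_pow_right (by omega)) _) h2 M
  exact (sup_le (sup_le_sup_left (Ideal.pow_le_pow_right (by omega)) _) le_sup_right :
    _ ≤ Ideal.span {s} ⊔ m ^ M) this

end Pool.Agent.Lib.MP_5f81cf_ag
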