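import Pool.Agent.Lib.MP_5f81cf_ag.LiftE

/-! Lifting invariants for the cyclic permutation of three coordinates. -/

namespace Pool.Agent.Lib.MP_5f81cf_ag

open MvPowerSeries Finsupp Filter

attribute [local instance] tendstoCofinite_of_finite

section rot

variable {k : Type} [Field k] {n : ℕ} {φ : MvPowerSeries (Fin 3) k}

lemma WGe.rename {τ : Type} (f : Fin 3 → τ) (h : WGe (fun _ => 1) n φ) :
    WGe (fun _ => 1) n (rename f φ) := fun d hd => by
  rw [coeff_rename]
  refine Finset.sum_eq_zero fun e he => h e ?_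
  simp only [Set.Finite.mem_toFinset, Set.mem_preimage, Set.mem_singleton_iff] at he
  rwa [← he, ← degree_eq_weight_one, degree_mapDomain, degree_eq_weight_one] at hd

variable (k) in
/-- The cyclic permutation of the variables. -/
noncomputable def rot : MvPowerSeries (Fin 3) k →ₐ[k] MvPowerSeries (Fin 3) k :=
  rename (finRotate 3).toEmbedding

variable (k) in
/-- Restriction to the diagonal. -/
noncomputable def diag : MvPowerSeries (Fin 3) k →ₐ[k] MvPowerSeries Unit k := rename fun _ => ()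

lemma cf_rot (a b c : ℕ) : cf a b c (rot k φ) = cf b c a φ := by
  have : ex a b c = embDomain (finRotate 3).toEmbedding (ex b c a) := by
    ext i
    obtain ⟨i, rfl⟩ := (finRotate 3).surjective i
    rw [← Equiv.toEmbedding_apply, embDomain_apply_self]
    fin_cases i <;> rfl
  rw [cf, this, rot, coeff_embDomain_rename, cf]

lemma rot3 (φ : MvPowerSeries (Fin 3) k) : rot k (rot k (rot k φ)) = φ :=
  cf_ext fun a b c => by simp only [cf_rot]

lemma diag_rot (φ : MvPowerSeries (Fin 3) k) : diag k (rot k φ) = diag k φ := rename_rename _ _ _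

lemma wge1 : WGe (fun _ => 1) n φ ↔ ∀ a b c, a + b + c < n → cf a b c φ = 0 := by simp [wge_cf]

lemma cobound (h : WGe (fun _ => 1) n φ) (hd : diag k φ = 0)
    (ht : WGe (fun _ => 1) (n + 1) (φ + rot k φ + rot k (rot k φ))) :
    ∃ H, WGe (fun _ => 1) n H ∧ WGe (fun _ => 1) (n + 1) (φ - (rot k H - H)) := by
  let e : ℕ → ℕ → ℕ → k := fun a b c => if b < a ∧ c ≤ a then 1 else 0
  let H : MvPowerSeries (Fin 3) k := fun d => -(e (d 1) (d 2) (d 0) * cf (d 0) (d 1) (d 2) φ +
    e (d 2) (d 0) (d 1) * (cf (d 0) (d 1) (d 2) φ + cf (d 1) (d 2) (d 0) φ))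
  have hH : ∀ a b c, cf a b c H = -(e b c a * cf a b c φ + e c a b * (cf a b c φ + cf b c a φ)) :=
    fun _ _ _ => rfl
  rw [wge1] at h ht
  have h1 : ∀ a b c, a + b + c < n + 1 → cf a b c (φ - (rot k H - H)) =
      (1 - (e a b c + e b c a + e c a b)) * cf a b c φ := fun a b c h2 => by
    have := ht a b c h2
    simp only [map_add, cf_rot] at this
    simp only [map_sub, cf_rot, hH]
    linear_combination e a b c * this
  have h2 : ∀ a b c, ¬ (a = b ∧ b = c) → e a b c + e b c a + e c a b = 1 := fun a b c h2 => by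
    simp only [e]
    split_ifs <;> first | omega | simp
  refine ⟨H, wge1.2 fun a b c h2 => by
    rw [hH, h a b c h2, h b c a (by omega)]; simp, wge1.2 fun a b c h3 => ?_⟩
  by_cases h4 : a = b ∧ b = c
  swap
  · rw [h1 a b c h3, h2 a b c h4, sub_self, zero_mul]
  obtain ⟨rfl, rfl⟩ := h4
  by_cases h5 : a + a + a < n
  · rw [h1 a a a h3, h a a a h5, mul_zero]
  set ψ := φ - (rot k H - H) with hψ
  have h6 : WGe (fun _ => 1) (n + 1) (ψ - monomial (ex a a a) (cf a a a ψ)) :=
    wge1.2 fun i j l h6 => by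
      rw [map_sub, cf_monomial]
      by_cases h7 : i = j ∧ j = l
      · obtain ⟨rfl, rfl⟩ := h7
        by_cases h8 : i = a
        · simp [h8]
        · rw [h1 i i i h6, h i i i (by omega)]; simp [h8]
      · rw [h1 i j l h6, h2 i j l h7, if_neg (by simp only [ex0, ex1, ex2]; omega)]; simp
  have h7 : diag k ψ = 0 := by rw [hψ, map_sub, map_sub, diag_rot, hd, sub_self, sub_self]
  have h8 := h6.rename (fun _ => ()) (mapDomain (fun _ => ()) (ex a a a)) (by
    rw [← degree_eq_weight_one, degree_mapDomain, degree_eq_weight_one]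
    simpa [weight3] using h3)
  rw [map_sub, rename_monomial, ← diag, h7] at h8
  simpa using h8

lemma rot_lift {S V Φ G : MvPowerSeries (Fin 3) k} (hS : diag k S ≠ 0)
    (hV : WGe (fun _ => 1) 1 V) (hSV : rot k S - S = S * V) (hΦ : rot k Φ - Φ = S * G) (M : ℕ) :
    ∃ (H : MvPowerSeries (Fin 3) k) (P : MvPolynomial (Fin 3) k),
      rot k P = P ∧ WGe (fun _ => 1) M (Φ - S * H - (P : MvPowerSeries (Fin 3) k)) := by
  have hS0 : S ≠ 0 := fun h => hS (by rw [h, map_zero])
  have hr : rot k S = S * (1 + V) := by linear_combination hSV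
  have hw : ∀ {n : ℕ} {ψ : MvPowerSeries (Fin 3) k}, WGe (fun _ => 1) n ψ →
    WGe (fun _ => 1) n (rot k ψ) := fun h => h.rename _
  have main : ∀ n, ∃ H G, rot k (Φ - S * H) - (Φ - S * H) = S * G ∧ WGe (fun _ => 1) n G := by
    intro n
    induction n with
    | zero => exact ⟨0, G, by simpa using hΦ, wge_bot _⟩
    | succ n ih =>
      obtain ⟨H, G, h1, h2⟩ := ih
      have h3 := congrArg (rot k) h1
      rw [map_sub (rot k) (rot k _), map_mul (rot k) S, hr] at h3
      have h4 := congrArg (rot k) h3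
      rw [map_sub (rot k) (rot k _), rot3, map_mul, map_mul, hr, map_add, map_one] at h4
      have h5 : G + rot k G + rot k (rot k G) =
          -(V * rot k G + (V + rot k V + V * rot k V) * rot k (rot k G)) :=
        mul_left_cancel₀ hS0 (by linear_combination -h1 - h3 - h4)
      have h6 := congrArg (diag k) h1
      rw [map_sub (diag k) (rot k _), diag_rot, sub_self, map_mul] at h6
      obtain ⟨H', h7, h8⟩ := cobound h2 ((mul_eq_zero.1 h6.symm).resolve_left hS) (by
        rw [h5, add_comm n]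
        exact ((hV.mul (hw h2)).add (((hV.add (hw hV)).add (hV.mul_right _)).mul (hw (hw h2)))).neg)
      refine ⟨H + H', G - (rot k H' - H') - V * rot k H', ?_,
        h8.sub (hV.mul' (hw h7) (by omega))⟩
      simp only [map_sub, map_mul, map_add, hr] at h1 ⊢
      linear_combination h1
  obtain ⟨H, G, h1, h2⟩ := main M
  have h3 := wge1.1 (h1 ▸ h2.mul_left S)
  have h4 : ∀ a b c, cf a b c (truncTotal M (Φ - S * H) : MvPowerSeries (Fin 3) k) =
      if a + b + c < M then cf a b c (Φ - S * H) else 0 := fun a b c => by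
    rw [cf, MvPolynomial.coeff_coe, coeff_truncTotal_eq_ite, degree_eq_weight_one, weight3]
    simp
  refine ⟨H, truncTotal M (Φ - S * H), cf_ext fun a b c => ?_, wge1.2 fun a b c h => ?_⟩
  · rw [cf_rot, h4, h4, show b + c + a = a + b + c by omega]
    split_ifs with h
    · have := h3 a b c h
      rwa [map_sub, cf_rot, sub_eq_zero] at this
    · rfl
  · rw [map_sub, h4, if_pos h, sub_self]

end rot

variable {k A G : Type} [Field k] [CommRing A] [Algebra k A] [Group G] [MulSemiringAction G A]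
  [SMulCommClass G k A] {m : Ideal A}

theorem Chart.TypeJ.lift [IsDomain A] [IsNoetherianRing A] [Algebra.FormallySmooth k A]
    {C : Chart (Fin 3) k m} {σ : G} {s : A} (hC : C.TypeJ σ s) (hσ : ∀ a ∈ m, σ • a ∈ m)
    (hσp : σ ^ 3 = 1) (hs : Semi m σ s) {f : A} (hf : C.T s ∣ C.T (dl k σ f)) (M : ℕ) :
    ∃ r, σ • r = r ∧ f - r ∈ Ideal.span {s} ⊔ m ^ M := by
  have e1 : σ • C.x 0 = C.x 0 + C.x 1 := by rw [← hC.x1, dl_apply]; ring
  have e2 : σ • C.x 1 = C.x 1 + C.x 2 := by rw [← hC.x2, dl_apply]; ring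
  have e3 : σ • σ • C.x 0 = C.x 0 + C.x 1 + (C.x 1 + C.x 2) := by rw [e1, smul_add, e1, e2]
  obtain ⟨D, d0, d1, d2⟩ := C.change3 (C.x_mem 0) (hσ _ (C.x_mem 0)) (hσ _ (hσ _ (C.x_mem 0)))
    (li3.2 fun a b c h => by
      rw [e3, e1] at h
      have a0 := congrFun h 0
      have a1 := congrFun h 1
      have a2 := congrFun h 2
      simp [C.lin_x] at a0 a1 a2
      simp [a2] at a0 a1
      simp [a1] at a0
      exact ⟨a0, a1, a2⟩)
  have hrot : ∀ a, D.T (σ • a) = rot k (D.T a) := fun a =>
    D.ext_hom (D.T.comp (MulSemiringAction.toAlgHom k A σ)) ((rot k).comp D.T)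
      (fun a ha => (D.mem_iff _).1 (hσ a ha)) (fun a ha => ((D.mem_iff _).1 ha).rename _)
      (fun i => by
        have : σ • D.x i = D.x (finRotate 3 i) := by
          fin_cases i
          · exact d0 ▸ d1.symm
          · exact d1 ▸ d2.symm
          · change σ • D.x 2 = D.x 0
            rw [d2, d0, smul_smul, smul_smul, ← pow_three', hσp, one_smul]
        simp [this, D.T_x, rot]) a
  let e : Unit ↪ Fin 3 := ⟨fun _ => 0, fun _ _ _ => rfl⟩
  have hdiag : ∀ a, killCompl e (C.T a) = diag k (D.T a) := fun a =>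
    C.ext_hom ((killCompl e).comp C.T) ((diag k).comp D.T)
      (fun a ha d hd => (C.mem_iff _).1 ha _ (by
        rwa [← degree_eq_weight_one, embDomain_eq_mapDomain, degree_mapDomain,
          degree_eq_weight_one]))
      (fun a ha => ((D.mem_iff _).1 ha).rename _) (fun i => by
        have a0 : C.x 0 = D.x 0 := d0.symm
        have a1 : C.x 1 = D.x 1 - D.x 0 := by rw [d1, d0, e1]; ring
        have a2 : C.x 2 = D.x 2 - D.x 1 - (D.x 1 - D.x 0) := by rw [d2, d1, d0, e3, e1]; ring
        rw [AlgHom.comp_apply, AlgHom.comp_apply, C.T_x]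
        fin_cases i
        · exact (killCompl_X ()).trans (by simp [a0, D.T_x, diag])
        · exact (killCompl_X_eq_zero (by simp [e])).trans (by simp [a1, D.T_x, diag])
        · exact (killCompl_X_eq_zero (by simp [e])).trans (by simp [a2, D.T_x, diag])) a
  have hS : diag k (D.T s) ≠ 0 := fun h => hC.nm (wge3.2 fun a b c h1 => by
    obtain ⟨rfl, rfl⟩ : b = 0 ∧ c = 0 := by omega
    have := congrArg (coeff (single () a)) ((hdiag s).trans h)
    rwa [coeff_killCompl, embDomain_single,
      show single (e ()) a = ex a 0 0 by simp [ext3, e]] at this)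
  obtain ⟨V, hV, hV'⟩ := D.semi_eq hs
  obtain ⟨G', hG⟩ := D.dvd_iff.2 (C.dvd_iff.1 hf)
  rw [map_sub, hrot] at hV'
  rw [dl_apply, map_sub, hrot] at hG
  obtain ⟨H, P, h1, h2⟩ := rot_lift hS hV hV' hG M
  refine ⟨MvPolynomial.aeval D.x P, D.injective (by rw [hrot, D.T_aeval, h1]),
    D.mem_sup_of_eq (H := H) ?_ h2⟩
  rw [map_sub, D.T_aeval]; ring

end Pool.Agent.Lib.MP_5f81cf_ag
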