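import Pool.Agent.Lib.MP_5f81cf_ag.Curve

/-! Normality of the components upstairs. -/

namespace Pool.Agent.Lib.MP_5f81cf_ag

open MvPowerSeries Finsupp

variable {k A : Type} [Field k] [CommRing A] [Algebra k A] {m I J L : Ideal A}

/-- Inclusion of ideals after localizing at `m`. -/
def LocLe (m I J : Ideal A) : Prop := ∀ z ∈ I, ∃ u, u ∉ m ∧ u * z ∈ J

/-- The localization of `A ⧸ J` at `m` has depth zero. -/
def Soc (m J : Ideal A) : Prop :=
  ∃ z, (∀ x ∈ m, ∃ u, u ∉ m ∧ u * x * z ∈ J) ∧ ∀ u, u ∉ m → u * z ∉ J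

section prime

variable [hm : m.IsPrime]

lemma LocLe.of_le (h : I ≤ J) : LocLe m I J := fun z hz =>
  ⟨1, (Ideal.ne_top_iff_one m).1 hm.ne_top, by simpa using h hz⟩

lemma LocLe.sup (h : LocLe m I L) (h' : LocLe m J L) : LocLe m (I ⊔ J) L := fun z hz => by
  obtain ⟨a, ha, b, hb, rfl⟩ := Submodule.mem_sup.1 hz
  obtain ⟨u, hu, h1⟩ := h a ha
  obtain ⟨v, hv, h2⟩ := h' b hb
  refine ⟨u * v, hm.mul_notMem hu hv, ?_⟩
  convert add_mem (L.mul_mem_left v h1) (L.mul_mem_left u h2) using 1; ring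

omit hm in
lemma LocLe.mono (h : LocLe m I J) (h' : J ≤ L) : LocLe m I L := fun z hz =>
  (h z hz).imp fun _ h => ⟨h.1, h' h.2⟩

omit hm in
lemma LocGen.locLe {s : A} (h : LocGen m I s) : LocLe m I (Ideal.span {s}) := fun z hz =>
  (h.2 z hz).imp fun _ h => ⟨h.1, Ideal.mem_span_singleton.2 h.2⟩

lemma Soc.congr (h : Soc m I) (h1 : LocLe m I J) (h2 : LocLe m J I) : Soc m J := by
  obtain ⟨z, h3, h4⟩ := h
  refine ⟨z, fun x hx => ?_, fun u hu h => ?_⟩
  · obtain ⟨u, hu, h5⟩ := h3 x hx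
    obtain ⟨v, hv, h6⟩ := h1 _ h5
    exact ⟨v * u, hm.mul_notMem hv hu, by simpa only [mul_assoc] using h6⟩
  · obtain ⟨v, hv, h6⟩ := h2 _ h
    exact h4 (v * u) (hm.mul_notMem hv hu) (by simpa only [mul_assoc] using h6)

lemma Soc.exchange [hJ : J.IsPrime] {a a' : A} (ha : a ∉ J) (ha' : a' ∉ J) (ham : a' ∈ m)
    (h : Soc m (J ⊔ Ideal.span {a})) : Soc m (J ⊔ Ideal.span {a'}) := by
  simp only [Soc, sup_comm J, Ideal.mem_span_singleton_sup] at h ⊢
  obtain ⟨z, h1, h2⟩ := h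
  obtain ⟨u0, hu0, z', j0, hj0, h3⟩ := h1 a' ham
  refine ⟨z', fun x hx => ?_, fun v hv ⟨t, j, hj, h4⟩ => ?_⟩
  · obtain ⟨u, hu, w, j, hj, h4⟩ := h1 x hx
    refine ⟨u, hu, u0 * w, _, (hJ.mem_or_mem (x := a) (y := u * x * z' - u0 * w * a') ?_).resolve_left
      ha, by ring⟩
    convert sub_mem (J.mul_mem_left (u0 * a') hj) (J.mul_mem_left (u * x) hj0) using 1
    linear_combination (u * x) * h3 - u0 * a' * h4
  · refine h2 (v * u0) (hm.mul_notMem hv hu0) ⟨t, _, (hJ.mem_or_mem (x := a')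
      (y := v * u0 * z - t * a) ?_).resolve_left ha', by ring⟩
    convert add_mem (J.mul_mem_left v hj0) (J.mul_mem_left a hj) using 1
    linear_combination -v * h3 - a * h4

lemma exists_mul_mem_of_principal [IsNoetherianRing A] {P : Ideal A} [P.IsPrime] (hle : P ≤ m)
    {t : A} (ht : t ∈ m) (h : LocLe m m (P ⊔ Ideal.span {t})) {a b : A} (hb : b ∉ P)
    (hx : IsIntegral (A ⧸ P) (algebraMap (A ⧸ P) (FractionRing (A ⧸ P)) (Ideal.Quotient.mk P a) /
      algebraMap (A ⧸ P) (FractionRing (A ⧸ P)) (Ideal.Quotient.mk P b))) :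
    ∃ u, u ∉ m ∧ u * a ∈ P ⊔ Ideal.span {b} := by
  let n := m.map (Ideal.Quotient.mk P)
  have : n.IsPrime := Ideal.map_isPrime_of_surjective Ideal.Quotient.mk_surjective (by simpa)
  have hn : ∀ c, Ideal.Quotient.mk P c ∈ n ↔ c ∈ m := fun c => Ideal.mem_quotient_iff_mem hle
  let D := Localization.AtPrime n
  have h1 : (IsLocalRing.maximalIdeal D).IsPrincipal := by
    refine ⟨algebraMap _ D (Ideal.Quotient.mk P t), ?_⟩
    rw [← Localization.AtPrime.map_eq_maximalIdeal, Ideal.map_map]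
    refine le_antisymm (Ideal.map_le_iff_le_comap.2 fun z hz => ?_)
      ((Ideal.span_singleton_le_iff_mem _).2 (Ideal.mem_map_of_mem _ ht))
    obtain ⟨u, hu, h2⟩ := h z hz
    rw [sup_comm, Ideal.mem_span_singleton_sup] at h2
    obtain ⟨c, j, hj, h2⟩ := h2
    have h3 := congrArg (fun z => algebraMap _ D (Ideal.Quotient.mk P z)) h2
    simp only [map_add, map_mul, Ideal.Quotient.eq_zero_iff_mem.2 hj, add_zero] at h3
    rw [Ideal.mem_comap, ← Ideal.unit_mul_mem_iff_mem _ (IsLocalization.map_units D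
      (⟨Ideal.Quotient.mk P u, (hn u).not.2 hu⟩ : n.primeCompl))]
    exact Ideal.mem_span_singleton'.2 ⟨_, h3⟩
  have h2 : IsIntegrallyClosed D ∧ _ :=
    ((tfae_of_isNoetherianRing_of_isLocalRing_of_isDomain D).out 4 3).1 h1
  have := h2.1
  have := IsFractionRing.isFractionRing_of_isDomain_of_isLocalization n.primeCompl D
    (FractionRing (A ⧸ P))
  obtain ⟨y, hy⟩ := IsIntegrallyClosed.algebraMap_eq_of_integral (hx.tower_top (A := D))
  obtain ⟨⟨c, u, hu⟩, h3⟩ := IsLocalization.surj n.primeCompl y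
  obtain ⟨c, rfl⟩ := Ideal.Quotient.mk_surjective c
  obtain ⟨u, rfl⟩ := Ideal.Quotient.mk_surjective u
  have h4 := congrArg (algebraMap D (FractionRing (A ⧸ P))) h3
  rw [map_mul, hy, ← IsScalarTower.algebraMap_apply, ← IsScalarTower.algebraMap_apply,
    div_mul_eq_mul_div, div_eq_iff (by simpa [Ideal.Quotient.eq_zero_iff_mem]), ← map_mul,
    ← map_mul (algebraMap (A ⧸ P) (FractionRing (A ⧸ P)))] at h4
  have h5 : a * u - c * b ∈ P := Ideal.Quotient.eq.1 (by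
    simpa using IsFractionRing.injective _ _ h4)
  refine ⟨u, (hn u).not.1 hu, ?_⟩
  rw [sup_comm, Ideal.mem_span_singleton_sup]
  exact ⟨c, _, h5, by ring⟩

end prime

lemma Chart.ctr_locLe [IsNoetherianRing A] (C : Chart (Fin 3) k m) {w : Fin 3 → ℕ}
    (hJ : ∀ i, w i ≠ 0 → C.x i ∈ J) : LocLe m (C.ctr w) J := fun _ ha => C.mem_vars J hJ ha

variable [IsDomain A]

lemma not_soc [Infinite k] [Algebra.FormallySmooth k A] [IsNoetherianRing A] [m.IsPrime]
    (C : Chart (Fin 3) k m) {P : Ideal A} [P.IsPrime] (hP : P.height = 1) (hle : P ≤ m) {b : A}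
    (hb : b ∉ P) : ¬ Soc m (P ⊔ Ideal.span {b}) := by
  intro h
  obtain ⟨s, hs⟩ := C.exists_locGen P hP hle
  obtain ⟨C, n, hn⟩ := exists_regular C (hs.ne_zero hP)
  have h1 : s ∉ C.ctr ![0, 0, 1] := fun h => hn (h _ (by simp [weight_single]))
  have hx : C.x 2 ∈ C.ctr ![0, 0, 1] := by simp [C.x_mem_ctr]
  have h2 : C.x 2 ∉ P := fun h => by
    obtain ⟨u, hu, c, hc⟩ := hs.2 _ h
    have h3 : c ∈ C.ctr ![0, 0, 1] := (Ideal.IsPrime.mem_or_mem inferInstance
      (hc ▸ Ideal.mul_mem_left _ _ hx)).resolve_left h1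
    have h4 := (((C.mem_iff s).1 (hle hs.1)).mul ((C.mem_iff c).1 (C.ctr_le _ h3)))
    rw [← map_mul, ← hc, C.mem_pow, C.mem_sq_iff (m.mul_mem_left _ (C.x_mem 2)), C.lin_mul,
      C.T_x, C.lin_x] at h4
    exact hu ((C.mem_iff_coeff u).2 (by simpa using congrFun h4 2))
  have h3 := (h.exchange hb h2 (C.x_mem 2)).congr (J := C.ctr ![0, 0, 1] ⊔ Ideal.span {s})
    ((hs.locLe.mono le_sup_right).sup
      (.of_le (((Ideal.span_singleton_le_iff_mem _).2 hx).trans le_sup_left)))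
    ((C.ctr_locLe fun i hi => by
      fin_cases i
      exacts [absurd rfl hi, absurd rfl hi,
        Ideal.mem_sup_right (Ideal.mem_span_singleton_self _)]).sup
      (.of_le (((Ideal.span_singleton_le_iff_mem _).2 hs.1).trans le_sup_left)))
  obtain ⟨z, h4, h5⟩ := (h3.exchange h1 (by simp [C.x_mem_ctr]) (C.x_mem 1)).congr
    (J := C.ctr ![0, 1, 1]) (.of_le (sup_le C.ctr_chain.2.le
      ((Ideal.span_singleton_le_iff_mem _).2 (by simp [C.x_mem_ctr])))) (C.ctr_locLe fun i hi => by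
      fin_cases i
      exacts [absurd rfl hi, Ideal.mem_sup_right (Ideal.mem_span_singleton_self _),
        Ideal.mem_sup_left hx])
  obtain ⟨u, hu, h6⟩ := h4 _ (C.x_mem 0)
  rw [mul_right_comm] at h6
  exact h5 u hu ((Ideal.IsPrime.mem_or_mem inferInstance h6).resolve_right
    (by simp [C.x_mem_ctr]))

variable [IsAlgClosed k] [Algebra.Smooth k A] (hdim : Algebra.trdeg k A = 3)
  (p : ℕ) [hp : Fact p.Prime] [CharP k p]
include hdim p

theorem normal_quot {P : Ideal A} [P.IsPrime] (hP : P.height = 1)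
    (hB : ∀ (m : Ideal A) [m.IsMaximal] (C : Chart (Fin 3) k m) (s : A), P ≤ m → LocGen m P s →
      ¬ WGe ![0, 1, 1] 2 (C.T s)) : IsIntegrallyClosed (A ⧸ P) := by
  have := Algebra.FiniteType.isNoetherianRing k A
  refine (isIntegrallyClosed_iff (FractionRing (A ⧸ P))).2 fun {x} hx => ?_
  obtain ⟨a, b, hb, rfl⟩ := IsFractionRing.div_surjective (A := A ⧸ P) x
  obtain ⟨a, rfl⟩ := Ideal.Quotient.mk_surjective a
  obtain ⟨b, rfl⟩ := Ideal.Quotient.mk_surjective b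
  replace hb := nonZeroDivisors.ne_zero hb
  have hb' : b ∉ P := fun h => hb (Ideal.Quotient.eq_zero_iff_mem.2 h)
  by_cases ht : (P ⊔ Ideal.span {b}).colon {a} = ⊤
  · have : a ∈ P ⊔ Ideal.span {b} := by simpa using ht
    rw [sup_comm, Ideal.mem_span_singleton_sup] at this
    obtain ⟨c, j, hj, rfl⟩ := this
    refine ⟨Ideal.Quotient.mk P c, ?_⟩
    rw [eq_div_iff (by simpa using hb), map_add, Ideal.Quotient.eq_zero_iff_mem.2 hj]; simp
  exfalso
  obtain ⟨n, hn⟩ := Ideal.nonempty_minimalPrimes ht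
  have := hn.1.1
  have hle : P ⊔ Ideal.span {b} ≤ n := Ideal.le_colon.trans hn.1.2
  by_cases hm : n.IsMaximal
  · obtain ⟨C⟩ := exists_chart3 hdim hm
    obtain ⟨z, hz⟩ := Submodule.exists_eq_colon_of_mem_minimalPrimes hn
    refine not_soc C hP (le_sup_left.trans hle) hb' ⟨z, fun x hx => ⟨1,
      (Ideal.ne_top_iff_one n).1 hm.ne_top, ?_⟩, fun u hu h => hu ?_⟩
    · rw [hz, Submodule.mem_colon_singleton] at hx; simpa using hx
    · rw [hz, Submodule.mem_colon_singleton]; exact h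
  obtain ⟨m, hm', C, rfl⟩ := good_point hdim p (P := P)
    (bot_lt_iff_ne_bot.2 (Ideal.ne_bot_of_height_eq_one hP)) (lt_of_le_of_ne (le_sup_left.trans hle)
      fun h => hb' (h ▸ hle (Ideal.mem_sup_right (Ideal.mem_span_singleton_self b)))) hm
  have hP1 : P ≤ C.ctr ![0, 1, 1] := le_sup_left.trans hle
  obtain ⟨s, hs⟩ := C.exists_locGen P hP (hP1.trans (C.ctr_le _))
  have hc := C.ctr_locLe (w := ![0, 1, 1]) (J := Ideal.span {C.x 1, C.x 2}) fun i hi => by
    fin_cases i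
    exacts [absurd rfl hi, Ideal.subset_span (by simp), Ideal.subset_span (by simp)]
  have key : ∀ (y t α β u : A), u * s = α * y + β * t → α ∉ C.ctr ![0, 1, 1] →
      t ∈ C.ctr ![0, 1, 1] → Ideal.span {C.x 1, C.x 2} = Ideal.span {y, t} → False := by
    intro y t α β u h1 h2 h3 h4
    obtain ⟨v, hv, h5⟩ := exists_mul_mem_of_principal hP1 h3 (fun z hz => by
      obtain ⟨v, hv, h5⟩ := hc z hz
      obtain ⟨γ, δ, h6⟩ := Ideal.mem_span_pair.1 (h4 ▸ h5)
      refine ⟨α * v, Ideal.IsPrime.mul_notMem inferInstance h2 fun h => hv (C.ctr_le _ h), ?_⟩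
      rw [sup_comm, Ideal.mem_span_singleton_sup]
      exact ⟨α * δ - γ * β, γ * u * s, P.mul_mem_left _ hs.1,
        by linear_combination γ * h1 + α * h6⟩) hb' hx
    exact hv (hn.1.2 (Submodule.mem_colon_singleton.2 h5))
  obtain ⟨u, hu, h1⟩ := hc s (hP1 hs.1)
  obtain ⟨α, β, h1⟩ := Ideal.mem_span_pair.1 h1
  have h2 : α ∈ C.ctr ![0, 1, 1] := by_contra fun h =>
    key _ _ _ _ _ h1.symm h (by simp [C.x_mem_ctr]) rfl
  have h3 : β ∈ C.ctr ![0, 1, 1] := by_contra fun h =>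
    key _ _ _ _ _ (h1.symm.trans (add_comm _ _)) h (by simp [C.x_mem_ctr]) (by rw [Set.pair_comm])
  refine hB m C s (hP1.trans (C.ctr_le _)) hs ?_
  obtain ⟨v, hv⟩ := (C.isUnit_T hu).exists_left_inv
  have h4 := ((WGe.mul h2 (C.x_mem_ctr.2 (by simp : ![0, 1, 1] 1 ≠ 0))).add
    (WGe.mul h3 (C.x_mem_ctr.2 (by simp : ![0, 1, 1] 2 ≠ 0)))).mul_left v
  rwa [← map_mul, ← map_mul, ← map_add, h1, map_mul, ← mul_assoc, hv, one_mul] at h4

theorem coprime_comp {P P' : Ideal A} [P.IsPrime] [P'.IsPrime] (hP : P.height = 1)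
    (hP' : P'.height = 1) (hne : P ≠ P')
    (hB : ∀ (m : Ideal A) [m.IsMaximal] (C : Chart (Fin 3) k m) (s s' : A), P ≤ m → P' ≤ m →
      LocGen m P s → LocGen m P' s' → ¬ WGe ![0, 1, 1] 2 (C.T (s * s'))) : P ⊔ P' = ⊤ := by
  have := Algebra.FiniteType.isNoetherianRing k A
  by_contra h
  obtain ⟨m, hm, hle⟩ := Ideal.exists_le_maximal _ h
  obtain ⟨C⟩ := exists_chart3 hdim hm
  obtain ⟨s, hs⟩ := C.exists_locGen P hP (le_sup_left.trans hle)
  obtain ⟨s', hs'⟩ := C.exists_locGen P' hP' (le_sup_right.trans hle)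
  obtain ⟨n, hn, hnm⟩ := Ideal.exists_minimalPrimes_le (I := Ideal.span {s, s'}) (J := m)
    (Ideal.span_le.2 (by
      rintro _ (rfl | rfl)
      exacts [hle (Ideal.mem_sup_left hs.1), hle (Ideal.mem_sup_right hs'.1)]))
  have := hn.1.1
  have h1 : P ≤ n := hs.le_of_mem hnm (hn.1.2 (Ideal.subset_span (by simp)))
  have h2 : P' ≤ n := hs'.le_of_mem hnm (hn.1.2 (Ideal.subset_span (by simp)))
  have h3 : ¬ n.IsMaximal := fun h3 => by
    have h4 := Ideal.height_le_card_of_mem_minimalPrimes_span (Set.toFinite _) hn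
    rw [h3.eq_of_le hm.ne_top hnm] at h4
    have : (2 : ℕ∞) + 1 ≤ 2 :=
      calc (2 : ℕ∞) + 1 ≤ (C.ctr ![0, 1, 1]).height + 1 := by
            gcongr; exact two_le_height C.ctr_chain.1 C.ctr_chain.2
        _ ≤ m.height := Ideal.height_add_one_le_of_lt_of_isPrime C.ctr_lt
        _ ≤ 2 := h4.trans (by exact_mod_cast (Set.ncard_insert_le _ _).trans (by simp))
    exact absurd this (by decide)
  obtain ⟨m, hm', C, rfl⟩ := good_point hdim p (P := P)
    (bot_lt_iff_ne_bot.2 (Ideal.ne_bot_of_height_eq_one hP))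
    (lt_of_le_of_ne h1 fun h => hne (eq_of_le_of_ht hP' hP (h ▸ h2)).symm) h3
  obtain ⟨t, ht⟩ := C.exists_locGen P hP (h1.trans (C.ctr_le _))
  obtain ⟨t', ht'⟩ := C.exists_locGen P' hP' (h2.trans (C.ctr_le _))
  exact hB m C t t' (h1.trans (C.ctr_le _)) (h2.trans (C.ctr_le _)) ht ht'
    (map_mul C.T _ _ ▸ WGe.mul (h1 ht.1) (h2 ht'.1))

end Pool.Agent.Lib.MP_5f81cf_ag
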