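import Pool.Agent.Lib.MP_5f81cf_ag.ResBlue

namespace Pool.Agent.Lib.MP_5f81cf_ag.Full.Res

namespace A1

variable {k L : Type} [Field k] [Field L] [Algebra k L] {O : Subalgebra k L}

lemma isUnit_iff (f : O) : IsUnit f ↔ Un O f := by
  refine ⟨fun h => ?_, fun h => .of_mul_eq_one ⟨_, h.2.2⟩ (Subtype.ext (mul_inv_cancel₀ h.2.1))⟩
  obtain ⟨g, hg⟩ := h.exists_right_inv
  have e : (f : L) * g = 1 := congrArg Subtype.val hg
  exact ⟨f.2, left_ne_zero_of_mul_eq_one e, eq_inv_of_mul_eq_one_right e ▸ g.2⟩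

lemma noeth (hO : IsLoc O) : IsNoetherianRing O := by
  obtain ⟨A, h1, h2, h3⟩ := hO.fg
  have := (Subalgebra.fg_iff_finiteType A).mp h1
  have := Algebra.FiniteType.isNoetherianRing k A
  let := (Subalgebra.inclusion h2).toAlgebra
  have : IsLocalization ((IsUnit.submonoid O).comap (algebraMap A O)) O := by
    refine ⟨fun y => y.2, fun f => ?_, fun {x y} e => ⟨1, ?_⟩⟩
    · obtain ⟨s, e1, e2, e3⟩ := h3 f f.2
      exact ⟨(⟨_, e3⟩, ⟨⟨s, e1⟩, (isUnit_iff _).mpr e2⟩), rfl⟩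
    · rw [Subalgebra.inclusion_injective h2 e]
  exact IsLocalization.isNoetherianRing ((IsUnit.submonoid O).comap (algebraMap A O)) O ‹_›

lemma isLocal (hO : IsLoc O) : IsLocalRing O :=
  .of_isUnit_or_isUnit_one_sub_self fun a => (un_or_mx a.2).imp (isUnit_iff a).mpr fun h =>
    (isUnit_iff _).mpr (by simpa [sub_eq_add_neg] using hO.un_add un_one (neg_mem h))

lemma maxi [IsLocalRing O] (hO : IsLoc O) (f : O) :
    f ∈ IsLocalRing.maximalIdeal O ↔ (f : L) ∈ mx O := by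
  rw [IsLocalRing.mem_maximalIdeal, mem_nonunits_iff, isUnit_iff]
  exact ⟨(un_or_mx f.2).resolve_left, hO.not_un⟩

lemma frac (hO : IsLoc O) : IsFractionRing O L :=
  .of_field _ _ fun z => by
    obtain ⟨s, h1, h2, h3⟩ := hO.frac z
    exact ⟨⟨_, h3⟩, ⟨s, h1⟩, (mul_div_cancel_right₀ z h2).symm⟩

lemma closed (hO : IsPt O) : IsIntegrallyClosed O := by
  have := frac hO.toIsLoc
  exact (isIntegrallyClosed_iff L).mpr fun {x} hx => ⟨⟨x, hO.normal x hx⟩, rfl⟩

lemma mx_ne (hO : IsLoc O) : ∃ g ∈ mx O, g ≠ 0 := by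
  by_contra h
  push Not at h
  have h1 : ∀ f ∈ O, ∃ c : k, algebraMap k L c = f := fun f hf =>
    (hO.res f hf).imp fun c hc => (sub_eq_zero.mp (h _ hc)).symm
  have : Algebra.IsAlgebraic k L := ⟨fun f => by
    obtain ⟨s, e1, e2, e3⟩ := hO.frac f
    obtain ⟨a, ha⟩ := h1 _ e1
    obtain ⟨b, hb⟩ := h1 _ e3
    rw [← mul_div_cancel_right₀ f e2, ← hb, ← ha, ← map_div₀]
    exact isAlgebraic_algebraMap _⟩
  have h2 := hO.dim
  rw [trdeg_eq_zero] at h2
  exact two_ne_zero h2.symm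

/-- An `O`-module as a submodule over `O`. -/
def toO (M : Submodule k L) (hM : IsMod O M) : Submodule O L where
  carrier := M
  add_mem' := M.add_mem
  zero_mem' := M.zero_mem
  smul_mem' := fun a x hx => hM a a.2 x hx

lemma mem_gen {S : Set L} {f : L} : f ∈ gen O S ↔ f ∈ Submodule.span O S := by
  constructor
  · intro h
    have h1 : IsMod O ((Submodule.span O S).restrictScalars k) := fun a ha x hx =>
      (Submodule.span O S).smul_mem (⟨a, ha⟩ : O) hx
    exact gen_le h1 (fun _ hg => Submodule.subset_span (R := O) hg) h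
  · intro h
    have h1 : Submodule.span O S ≤ toO _ (isMod_gen S) :=
      Submodule.span_le.mpr fun _ hg => subset_gen (O := O) hg
    exact h1 h

lemma fgm (hO : IsLoc O) (M : Submodule k L) (hM : IsMod O M)
    (h : ∃ d : L, d ≠ 0 ∧ ∀ x ∈ M, d * x ∈ O) : ∃ S : Finset L, (0 : L) ∉ S ∧ M = gen O S := by
  classical
  obtain ⟨d, h0, hd⟩ := h
  have := noeth hO
  obtain ⟨S, hS⟩ : (toO M hM).FG := (Submodule.fg_span_singleton d⁻¹).of_le fun x hx =>
    Submodule.mem_span_singleton.mpr ⟨⟨_, hd x hx⟩, by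
      change d * x * d⁻¹ = x
      field_simp⟩
  refine ⟨S.erase 0, by simp, Submodule.ext fun x => ?_⟩
  rw [mem_gen, Finset.coe_erase, Submodule.span_sdiff_singleton_zero, hS]
  rfl

lemma nak (hO : IsLoc O) (S : Finset L) (N : Submodule k L) (hN : IsMod O N)
    (h : gen O S ≤ N ⊔ mx O * gen O S) : gen O S ≤ N := by
  have := isLocal hO
  refine fun x hx => Submodule.le_of_le_smul_of_le_jacobson_bot (N := toO N hN)
    (I := IsLocalRing.maximalIdeal O) ⟨S, rfl⟩ (IsLocalRing.maximalIdeal_le_jacobson _)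
    (fun y hy => ?_) (mem_gen.mp hx)
  obtain ⟨a, ha, b, hb, rfl⟩ := Submodule.mem_sup.mp (h (mem_gen.mpr hy))
  refine Submodule.add_mem_sup ha (Submodule.mul_induction_on hb (fun m hm n hn => ?_)
    fun _ _ => add_mem)
  exact Submodule.smul_mem_smul (r := (⟨m, mx_le hm⟩ : O)) ((maxi hO _).mpr hm) (mem_gen.mp hn)

lemma mem_pow [IsLocalRing O] (hO : IsLoc O) (n : ℕ) {y : L} (hy : y ∈ mp O n) :
    ∃ z ∈ IsLocalRing.maximalIdeal O ^ n, (z : L) = y := by
  induction n generalizing y with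
  | zero => exact ⟨⟨y, mp_le _ hy⟩, by simp, rfl⟩
  | succ n ih =>
    rw [mp, pow_succ, ← mul_assoc] at hy
    refine Submodule.mul_induction_on hy (fun a ha b hb => ?_) ?_
    · obtain ⟨z, h1, rfl⟩ := ih ha
      exact ⟨z * ⟨b, mx_le hb⟩, pow_succ (IsLocalRing.maximalIdeal O) n ▸
        Ideal.mul_mem_mul h1 ((maxi hO _).mpr hb), rfl⟩
    · rintro _ _ ⟨a, ha, rfl⟩ ⟨b, hb, rfl⟩
      exact ⟨a + b, add_mem ha hb, rfl⟩

lemma krull (hO : IsLoc O) (N : Submodule k L) (hN : IsMod O N) (h : ∀ x ∈ N, x ∈ O) (x : L)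
    (hx : ∀ n, x ∈ N ⊔ mp O n) : x ∈ N := by
  have := isLocal hO
  have := noeth hO
  have hx0 : x ∈ O := by
    obtain ⟨a, ha, b, hb, rfl⟩ := Submodule.mem_sup.mp (hx 0)
    exact add_mem (h a ha) (mp_le _ hb)
  set I : Submodule O O := (toO N hN).comap (Algebra.linearMap O L)
  have h1 := Ideal.iInf_pow_smul_eq_bot_of_isLocalRing (M := O ⧸ I) (IsLocalRing.maximalIdeal O)
    (IsLocalRing.maximalIdeal.isMaximal O).ne_top
  refine (Submodule.Quotient.mk_eq_zero I (x := ⟨x, hx0⟩)).mp ?_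
  rw [← Submodule.mem_bot O, ← h1, Submodule.mem_iInf]
  intro n
  obtain ⟨a, ha, b, hb, rfl⟩ := Submodule.mem_sup.mp (hx n)
  obtain ⟨z, h2, rfl⟩ := mem_pow hO n hb
  rw [show (⟨a + z, hx0⟩ : O) = ⟨a, h a ha⟩ + z • 1 from Subtype.ext (by simp),
    Submodule.Quotient.mk_add, (Submodule.Quotient.mk_eq_zero I).mpr ha, zero_add,
    Submodule.Quotient.mk_smul]
  exact Submodule.smul_mem_smul h2 trivial

end A1

theorem blk_A1 {k : Type} [Field k] [IsAlgClosed k] {p : Nat} [Fact p.Prime] [CharP k p]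
    (hp : p ≠ 2) : RA1 k :=
  ⟨A1.noeth, A1.isLocal, A1.maxi, A1.frac, A1.closed, A1.mx_ne, A1.fgm, A1.nak, A1.krull⟩

end Pool.Agent.Lib.MP_5f81cf_ag.Full.Res
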