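import Pool.Agent.Lib.MP_5f81cf_ag.ResBlue

/-! Complete powers of the maximal ideal at a pseudo-rational point. -/

namespace Pool.Agent.Lib.MP_5f81cf_ag.Full.Res

open Pool.Agent.Lib.MP_e06174_ag

namespace BS

variable {k : Type} [Field k] {L : Type} [Field L] [Algebra k L] {O : Subalgebra k L}

theorem ge_of_red {a b : L} (h : Red O a b) {F : Place k L} (hF : Cont O F) {m : ℤ}
    (ha : F.Ge m a) (hb : F.Ge m b) {g : L} (hg : g ∈ mx O) : F.Ge m g := by
  rcases h.val F.O (fun f hf => Place.mem_O.2 (hF f hf)) g hg with h1 | h1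
  · rw [← div_mul_cancel₀ g h.a_ne]
    exact (Place.mem_O.1 h1).mul' ha (by simp)
  · rw [← div_mul_cancel₀ g h.b_ne]
    exact (Place.mem_O.1 h1).mul' hb (by simp)

theorem ge_of_dic {a b : L} (h : Red O a b) {F : Place k L} (hF : Cont O F) (hd : Dic F (a / b))
    {g : L} (hg : g ∈ mx O) : F.Ge (F.ord b) g := by
  refine ge_of_red h hF ?_ (F.ge_ord b) hg
  rw [← div_mul_cancel₀ a h.b_ne]
  exact hd.1.mul' (F.ge_ord b) (by simp)

theorem ex_dic (rh : RH k) (rd : RD k) (hO : IsPt O) {a b : L} (h : Red O a b) :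
    ∃ F : Place k L, DomP O F ∧ Dic F (a / b) := by
  refine rd.ex hO (fun h1 => ?_) (fun h1 => ?_)
  · obtain ⟨H, hH, hb⟩ := rh.ex hO.toIsLoc b h.b_mem
    refine hH.not_domP ⟨hH.1, fun g hg => ge_of_red h hH.1 ?_ hb hg⟩
    rw [← div_mul_cancel₀ a h.b_ne]
    exact (hH.1 _ h1).mul' hb (by simp)
  · obtain ⟨H, hH, ha⟩ := rh.ex hO.toIsLoc a h.a_mem
    refine hH.not_domP ⟨hH.1, fun g hg => ge_of_red h hH.1 ha ?_ hg⟩
    rw [inv_div] at h1
    rw [← div_mul_cancel₀ b h.a_ne]
    exact (hH.1 _ h1).mul' ha (by simp)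

theorem mul_le_sup (hO : IsLoc O) (M : Submodule k L) :
    Subalgebra.toSubmodule O * M ≤ M ⊔ M * mx O := by
  refine Submodule.mul_le.2 fun f hf x hx => ?_
  obtain ⟨c, hc⟩ := hO.res f hf
  have : f * x = c • x + x * (f - algebraMap k L c) := by rw [Algebra.smul_def]; ring
  rw [this]
  exact Submodule.add_mem_sup (M.smul_mem c hx) (Submodule.mul_mem_mul hx hc)

variable {K : Type} [Field K] [Algebra k K] [Algebra K L] {B : Subalgebra k K} {a b : K}

theorem mem_of_int (hP : Proj B a b O) {t : L} (ht : IsIntegral B t) : t ∈ O := by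
  refine hP.pt.normal t ?_
  let φ : B →+* O := ((algebraMap K L).comp B.val.toRingHom).codRestrict O fun x => hP.le x x.2
  exact IsIntegral.map_of_comp_eq φ (RingHom.id L) (by ext x; rfl) ht

theorem map_mp (hP : Proj B a b O) (n : ℕ) : ∀ x ∈ mp B n, algebraMap K L x ∈
    Subalgebra.toSubmodule O * Submodule.span k {algebraMap K L a, algebraMap K L b} ^ n := by
  induction n with
  | zero =>
    intro x hx
    rw [pow_zero, mul_one]
    exact hP.le x (mem_mp_zero.1 hx)
  | succ n ih =>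
    intro x hx
    rw [mp, pow_succ, ← mul_assoc] at hx
    refine Submodule.mul_induction_on hx (fun m hm y hy => ?_) fun x y hx hy => ?_
    · rw [hP.reg.par] at hy
      obtain ⟨c, hc, d, hd, rfl⟩ := mem_gen_two.1 hy
      have h1 : ∀ z ∈ ({algebraMap K L a, algebraMap K L b} : Set L), algebraMap K L m * z ∈
          Subalgebra.toSubmodule O *
            Submodule.span k {algebraMap K L a, algebraMap K L b} ^ (n + 1) := by
        intro z hz
        rw [pow_succ, ← mul_assoc]
        exact Submodule.mul_mem_mul (ih m hm) (Submodule.subset_span hz)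
      have h2 : algebraMap K L (m * (c * a + d * b)) =
          algebraMap K L c * (algebraMap K L m * algebraMap K L a) +
            algebraMap K L d * (algebraMap K L m * algebraMap K L b) := by
        simp only [map_mul, map_add]; ring
      rw [h2]
      exact add_mem (isMod_mul _ _ (hP.le c hc) _ (h1 _ (by simp)))
        (isMod_mul _ _ (hP.le d hd) _ (h1 _ (by simp)))
    · rw [map_add]; exact add_mem hx hy

variable {p : ℕ} [Fact p.Prime] [IsScalarTower k K L] [FiniteDimensional K L]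
  [Algebra.IsSeparable K L] {u : Fin 2 → L}

theorem key0 (h : Lv6 k p) (hu : IsPB p u) (hP : Proj B a b O) (hR : PR u O) (n : ℕ) {g : L}
    (hg : g ∈ O) (hge : ∀ F : Place k L, DomP O F → Dic F (algebraMap K L a / algebraMap K L b) →
      F.Ge ((n + 1 : ℕ) * F.ord (algebraMap K L b)) g) :
    g ∈ Subalgebra.toSubmodule O *
      Submodule.span k {algebraMap K L a, algebraMap K L b} ^ n := by
  classical
  obtain ⟨m, e, e', he, he', hexp, -⟩ := h.free (L := L) hP.reg
  have hom : ∀ i, e' i * J u k (algebraMap K L a) (algebraMap K L b) ∈ om u O := fun i =>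
    h.e1.du1 hu hP (e' i) fun t ht => by rw [mul_comm]; exact he' i t ht
  have h1 : ∀ i, ∃ s, IsIntegral B s ∧ Un O s ∧ ∀ t, IsIntegral B t →
      Algebra.trace K L (s * (g * e' i) * t) ∈ mp B n := by
    intro i
    obtain ⟨s, h1, h2, h3⟩ := h.e1.du2 hu hP (g * e' i) (n + 1)
      (by rw [mul_assoc]; exact isMod_om u g hg _ (hom i)) fun F hF hd => by
        rw [mul_assoc]
        exact (hge F hF hd).mul' (hR F ⟨_, hd⟩ hF.1 _ (hom i)) (by omega)
    exact ⟨s, h1, h2, fun t ht => (h3 t ht).1⟩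
  choose s hsi hsu hs using h1
  have hS : Un O (∏ i, s i) := Un.prod fun i _ => hsu i
  have h2 : (∏ i, s i) * g ∈ Subalgebra.toSubmodule O *
      Submodule.span k {algebraMap K L a, algebraMap K L b} ^ n := by
    rw [hexp ((∏ i, s i) * g)]
    refine Submodule.sum_mem _ fun i _ => ?_
    rw [mul_comm _ (e i)]
    refine isMod_mul _ _ (mem_of_int hP (he i)) _ (map_mp hP n _ ?_)
    have h3 := hs i (∏ j ∈ Finset.univ.erase i, s j) (IsIntegral.prod _ fun j _ => hsi j)
    rw [← Finset.mul_prod_erase _ s (Finset.mem_univ i)]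
    convert h3 using 2
    ring
  have h4 := isMod_mul _ _ hS.2.2 _ h2
  rwa [← mul_assoc, inv_mul_cancel₀ hS.2.1, one_mul] at h4

theorem key (h : Lv6 k p) (hu : IsPB p u) (hP : Proj B a b O) (hR : PR u O) (n : ℕ) {g : L}
    (hg : g ∈ O) (hge : ∀ F : Place k L, DomP O F → Dic F (algebraMap K L a / algebraMap K L b) →
      F.Ge ((n + 1 : ℕ) * F.ord (algebraMap K L b)) g) :
    g ∈ Submodule.span k {algebraMap K L a, algebraMap K L b} ^ n * mx O := by
  obtain ⟨y, hy, w, hw, hyw⟩ :=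
    Submodule.mem_sup.1 (mul_le_sup hP.pt.toIsLoc _ (key0 h hu hP hR n hg hge))
  by_cases hy0 : y = 0
  · rw [← hyw, hy0, zero_add]; exact hw
  exfalso
  obtain ⟨F, hF, hd⟩ := ex_dic h.rh h.rd hP.pt hP.red
  have h1 := h.rv.hom hP.red.b_ne hd n y hy hy0
  have h2 : ∀ f ∈ mx O, F.Ge (F.ord (algebraMap K L b)) f := fun f hf =>
    ge_of_dic hP.red hF.1 hd hf
  have h3 : ∀ f ∈ Submodule.span k {algebraMap K L a, algebraMap K L b},
      F.Ge (F.ord (algebraMap K L b)) f := fun f hf => by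
    refine ge_of_mem_span ?_ hf
    rintro _ (rfl | rfl)
    · exact h2 _ hP.red.a_mem
    · exact h2 _ hP.red.b_mem
  have h4 := ge_of_mem_mul (fun f hf => ge_of_mem_pow h3 n hf) h2 hw
  have h5 : F.Ge ((n + 1 : ℕ) * F.ord (algebraMap K L b)) y := by
    rw [eq_sub_of_add_eq hyw]
    exact (hge F hF hd).sub (h4.mono (by push_cast; linarith))
  have h6 := h5.le hy0
  have h7 := (hF.2 _ hP.red.b_mem).le hP.red.b_ne
  rw [h1] at h6
  push_cast at h6
  linarith

end BS

theorem blk_BS {k : Type} [Field k] [IsAlgClosed k] {p : ℕ} [Fact p.Prime] [CharP k p]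
    (hp : p ≠ 2) (h : Lv6 k p) : St_BS k p := by
  intro K L _ _ _ _ _ _ _ _ u B a b O hu hP hR
  have hfin := h.rd.fin (algebraMap K L a / algebraMap K L b) hP.pt.toIsLoc
  have hmem : ∀ F, F ∈ hfin.toFinset ↔
      DomP O F ∧ Dic F (algebraMap K L a / algebraMap K L b) := fun F => hfin.mem_toFinset
  have hsp : Submodule.span k {algebraMap K L a, algebraMap K L b} ≤ mx O := by
    refine Submodule.span_le.2 ?_
    rintro _ (rfl | rfl)
    · exact hP.red.a_mem
    · exact hP.red.b_mem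
  refine ⟨hfin.toFinset, ⟨hP.red.a_mem, hP.red.b_mem, hP.red.b_ne, fun F hF => ?_, ?_, ?_⟩, hmem⟩
  · have h1 := (hmem F).1 hF
    exact ⟨h1.1, h1.2, fun g hg => BS.ge_of_dic hP.red h1.1.1 h1.2 hg⟩
  · intro n g hg hge
    cases n with
    | zero => exact mem_mp_zero.2 hg
    | succ n =>
      have h1 := BS.key h hu hP hR n hg fun F hF hd => hge F ((hmem F).2 ⟨hF, hd⟩)
      rw [hP.pt.toIsLoc.mp_succ, pow_succ]
      exact mul_le_mul' (pow_le_pow_left' hsp n) le_rfl h1
  · intro g hg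
    have hg' : g ∈ mp O 2 := le_mul_self _ hg
    have h1 := BS.key h hu hP hR 1 (mp_le 2 hg') fun F hF hd =>
      ge_of_mem_mp hF.1 (fun f hf => BS.ge_of_dic hP.red hF.1 hd hf) hg'
    rwa [pow_one] at h1

end Pool.Agent.Lib.MP_5f81cf_ag.Full.Res
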