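import Pool.Agent.Lib.MP_5f81cf_ag.ResDefs

/-! Statements of the blocks of the surface part. -/

namespace Pool.Agent.Lib.MP_5f81cf_ag.Full.Res

open Pool.Agent.Lib.MP_e06174_ag

variable (k : Type) [Field k] (p : ℕ) [Fact p.Prime]

/-- The basic blocks. -/
structure Bas : Prop where
  c1 : Car1 k p
  cj : St_CarJac k p
  c2 : Car2 k p
  p1 : Pl1 k p
  p2 : Pl2 k p
  p3 : Pl3 k p
  a1 : Ca1 k
  a2 : Ca2 k

/-- Local algebra. -/
structure RA1 : Prop where
  noeth : ∀ {L : Type} [Field L] [Algebra k L] {O : Subalgebra k L}, IsLoc O → IsNoetherianRing O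
  isLocal : ∀ {L : Type} [Field L] [Algebra k L] {O : Subalgebra k L}, IsLoc O → IsLocalRing O
  maxi : ∀ {L : Type} [Field L] [Algebra k L] {O : Subalgebra k L} [IsLocalRing O], IsLoc O →
    ∀ f : O, f ∈ IsLocalRing.maximalIdeal O ↔ (f : L) ∈ mx O
  frac : ∀ {L : Type} [Field L] [Algebra k L] {O : Subalgebra k L}, IsLoc O → IsFractionRing O L
  closed : ∀ {L : Type} [Field L] [Algebra k L] {O : Subalgebra k L}, IsPt O →
    IsIntegrallyClosed O
  mx_ne : ∀ {L : Type} [Field L] [Algebra k L] {O : Subalgebra k L}, IsLoc O →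
    ∃ g ∈ mx O, g ≠ 0
  fgm : ∀ {L : Type} [Field L] [Algebra k L] {O : Subalgebra k L}, IsLoc O →
    ∀ M : Submodule k L, IsMod O M → (∃ d : L, d ≠ 0 ∧ ∀ x ∈ M, d * x ∈ O) →
    ∃ S : Finset L, (0 : L) ∉ S ∧ M = gen O S
  nak : ∀ {L : Type} [Field L] [Algebra k L] {O : Subalgebra k L}, IsLoc O →
    ∀ (S : Finset L) (N : Submodule k L), IsMod O N → gen O S ≤ N ⊔ mx O * gen O S → gen O S ≤ N
  krull : ∀ {L : Type} [Field L] [Algebra k L] {O : Subalgebra k L}, IsLoc O →
    ∀ N : Submodule k L, IsMod O N → (∀ x ∈ N, x ∈ O) → ∀ x, (∀ n, x ∈ N ⊔ mp O n) → x ∈ N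

/-- Differentials are generated by those of generators of the maximal ideal. -/
structure RA2 : Prop where
  grad : ∀ {L : Type} [Field L] [Algebra k L] {O : Subalgebra k L}, IsLoc O →
    ∀ S : Finset L, mx O = gen O S → ∀ f ∈ O, ∃ c : L → L, (∀ g ∈ S, c g ∈ O) ∧
      ∀ (M : Type) [AddCommGroup M] [Module L M] [Module k M] [IsScalarTower k L M]
        (D : Derivation k L M), D f = ∑ g ∈ S, c g • D g
  grad2 : ∀ {L : Type} [Field L] [Algebra k L] {O : Subalgebra k L} {x y : L}, IsLoc O →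
    mx O = gen O {x, y} → ∀ f ∈ O, ∃ c ∈ O, ∃ d ∈ O,
      ∀ (M : Type) [AddCommGroup M] [Module L M] [Module k M] [IsScalarTower k L M]
        (D : Derivation k L M), D f = c • D x + d • D y
  grad3 : ∀ {L : Type} [Field L] [Algebra k L] {O : Subalgebra k L} {x y z : L}, IsLoc O →
    mx O = gen O {x, y, z} → ∀ f ∈ O, ∃ c ∈ O, ∃ d ∈ O, ∃ e ∈ O,
      ∀ (M : Type) [AddCommGroup M] [Module L M] [Module k M] [IsScalarTower k L M]
        (D : Derivation k L M), D f = c • D x + d • D y + e • D z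

/-- Local algebra, both parts. -/
structure RA : Prop extends RA1 k, RA2 k

/-- Places and finiteness, part RV1. -/
structure RV1 : Prop where
  place2 : ∀ {L : Type} [Field L] [Algebra k L] [Algebra.EssFiniteType k L]
    (V : ValuationSubring L) (z : L), Algebra.trdeg k L = 2 → (∀ c : k, algebraMap k L c ∈ V) →
    V ≠ ⊤ → z ∈ V → (∀ c : k, z - algebraMap k L c ∉ V.nonunits) →
    ∃ F : Place k L, F.O = V
  place1 : ∀ {K : Type} [Field K] [Algebra k K] [Algebra.EssFiniteType k K]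
    (V : ValuationSubring K), Algebra.trdeg k K = 1 → (∀ c : k, algebraMap k K c ∈ V) →
    V ≠ ⊤ → ∃ P : Place k K, P.O = V
  res1 : ∀ {K : Type} [Field K] [Algebra k K] (P : Place k K), Algebra.trdeg k K = 1 →
    ∀ f, P.Ge 0 f → ∃ c : k, P.Ge 1 (f - algebraMap k K c)
  aeval : ∀ {L : Type} [Field L] [Algebra k L] {F : Place k L} {z : L}, Dic F z →
    ∀ P : Polynomial k, P ≠ 0 → Polynomial.aeval z P ≠ 0 ∧ F.ord (Polynomial.aeval z P) = 0
  hom : ∀ {L : Type} [Field L] [Algebra k L] {F : Place k L} {a b : L}, b ≠ 0 → Dic F (a / b) →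
    ∀ n : ℕ, ∀ y ∈ Submodule.span k {a, b} ^ n, y ≠ 0 → F.ord y = n * F.ord b

/-- Places and finiteness, part RV2. -/
structure RV2 : Prop where
  fin2 : ∀ {L : Type} [Field L] [Algebra k L] [Algebra.EssFiniteType k L] (t z : L),
    Algebra.trdeg k L = 2 → t ≠ 0 → {F : Place k L | F.Ge 1 t ∧ Dic F z}.Finite
  fin1 : ∀ {K : Type} [Field K] [Algebra k K] [Algebra.EssFiniteType k K] (t : K),
    Algebra.trdeg k K = 1 → t ≠ 0 → {P : Place k K | P.Ge 1 t}.Finite

/-- Places and finiteness. -/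
structure RV : Prop extends RV1 k, RV2 k

/-- Refinement, composition, compactness, part RW1. -/
structure RW1 : Prop where
  refine : ∀ {L : Type} [Field L] [Algebra k L] {O : Subalgebra k L} (W : ValuationSubring L),
    IsLoc O → (∀ f ∈ O, f ∈ W) → ∃ V : ValuationSubring L, V ≤ W ∧ Dom V O ∧ ResK k V
  cover : ∀ {L : Type} [Field L] [Algebra k L] {O : Subalgebra k L}, IsLoc O →
    ∀ Z : ValuationSubring L → Finset L, (∀ V, Dom V O → ResK k V → ∀ z ∈ Z V, z ∈ V) →
    ∃ C : Finset (ValuationSubring L), (∀ V ∈ C, Dom V O ∧ ResK k V) ∧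
      ∀ W, Dom W O → ∃ V ∈ C, ∀ z ∈ Z V, z ∈ W

/-- Refinement, composition, compactness, part RW2. -/
structure RW2 : Prop where
  comp : ∀ {L K : Type} [Field L] [Algebra k L] [Field K] [Algebra k K] {F : Place k L}
    {ρ : L → K} (P : Place k K), IsRes F ρ →
    (∀ f, P.Ge 0 f → ∃ c : k, P.Ge 1 (f - algebraMap k K c)) →
    ∃ V : ValuationSubring L, ResK k V ∧ V ≤ F.O ∧ (∀ f, f ∈ V ↔ F.Ge 0 f ∧ P.Ge 0 (ρ f)) ∧
      ∀ f, f ∈ V.nonunits ↔ F.Ge 0 f ∧ P.Ge 1 (ρ f)
  decomp : ∀ {L K : Type} [Field L] [Algebra k L] [Field K] [Algebra k K]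
    [Algebra.EssFiniteType k K] {F : Place k L} {ρ : L → K} (V : ValuationSubring L),
    IsRes F ρ → Algebra.trdeg k K = 1 → V ≤ F.O → ResK k V →
    ∃ P : Place k K, (∀ f, f ∈ V ↔ F.Ge 0 f ∧ P.Ge 0 (ρ f)) ∧
      ∀ f, f ∈ V.nonunits ↔ F.Ge 0 f ∧ P.Ge 1 (ρ f)
  finv : ∀ {L : Type} [Field L] [Algebra k L] [Algebra.EssFiniteType k L] {F : Place k L}
    {f : L}, Algebra.trdeg k L = 2 → Div F → F.Ge 0 f →
    {V : ValuationSubring L | V ≤ F.O ∧ ResK k V ∧ f ∉ V}.Finite

/-- Refinement, composition, compactness. -/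
structure RW : Prop extends RW1 k, RW2 k

/-- Curves through a point. -/
structure RH : Prop where
  ex : ∀ {L : Type} [Field L] [Algebra k L] {O : Subalgebra k L}, IsLoc O → ∀ g ∈ mx O,
    ∃ F : Place k L, Ht1 O F ∧ F.Ge 1 g
  hart : ∀ {L : Type} [Field L] [Algebra k L] {O : Subalgebra k L}, IsPt O → ∀ f : L,
    (∀ F : Place k L, Ht1 O F → F.Ge 0 f) → f ∈ O
  un : ∀ {L : Type} [Field L] [Algebra k L] {O : Subalgebra k L}, IsPt O → ∀ f : L, f ≠ 0 →
    (∀ F : Place k L, Ht1 O F → F.ord f = 0) → Un O f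
  fin : ∀ {L : Type} [Field L] [Algebra k L] {O : Subalgebra k L}, IsPt O → ∀ f : L,
    {F : Place k L | Ht1 O F ∧ F.ord f ≠ 0}.Finite
  locz : ∀ {L : Type} [Field L] [Algebra k L] {O : Subalgebra k L} {F : Place k L}, IsPt O →
    Ht1 O F → ∀ f, F.Ge 0 f → ∃ s ∈ O, ¬ F.Ge 1 s ∧ f * s ∈ O
  uniq : ∀ {L : Type} [Field L] [Algebra k L] {O : Subalgebra k L} {F F' : Place k L}, IsPt O →
    Ht1 O F → Ht1 O F' → (∀ f ∈ O, F.Ge 1 f → F'.Ge 1 f) → F = F'

/-- Discrepancies and the Cartier operator on a surface, part RK1. -/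
structure RK1 : Prop where
  div_iff : ∀ {L : Type} [Field L] [Algebra k L] (F : Place k L), Div F ↔ IsDivisorial 2 F
  dic : ∀ {L : Type} [Field L] [Algebra k L] {F : Place k L} {z : L}, NotPow p F z → Dic F z
  res : ∀ {L : Type} [Field L] [Algebra k L] [Algebra.EssFiniteType k L] {F : Place k L},
    Algebra.trdeg k L = 2 → Div F → ∃ (K : Type) (_ : Field K) (_ : Algebra k K) (ρ : L → K),
      IsRes F ρ ∧ Algebra.EssFiniteType k K ∧ Algebra.trdeg k K = 1
  adapt : ∀ {L K : Type} [Field L] [Algebra k L] [Algebra.EssFiniteType k L] [Field K]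
    [Algebra k K] {F : Place k L} {ρ : L → K} {t z : L}, Algebra.trdeg k L = 2 → IsRes F ρ →
    F.ord t = 1 → NotPow p F z → Adapt p F ρ t ![z]
  k3 : ∀ {L : Type} [Field L] [Algebra k L] [Algebra.EssFiniteType k L] {F : Place k L},
    Algebra.trdeg k L = 2 → Div F → ∃ t z, F.ord t = 1 ∧ NotPow p F z

/-- Discrepancies and the Cartier operator on a surface, part RK2. -/
structure RK2 : Prop where
  k0 : ∀ {L : Type} [Field L] [Algebra k L] [Algebra.EssFiniteType k L] {u : Fin 2 → L}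
    {F : Place k L} {a b : L}, IsPB p u → Div F → F.Ge 0 a → F.Ge 0 b →
    F.Ge (1 - lam k u F) (J u k a b)
  k1 : ∀ {L : Type} [Field L] [Algebra k L] [Algebra.EssFiniteType k L] {u : Fin 2 → L}
    {F : Place k L} {a b : L} {m n : ℤ}, IsPB p u → Div F → F.Ge m a → F.Ge n b →
    F.Ge (m + n - lam k u F) (J u k a b)
  k2 : ∀ {L : Type} [Field L] [Algebra k L] [Algebra.EssFiniteType k L] {u : Fin 2 → L}
    {F : Place k L} {t z : L}, IsPB p u → F.ord t = 1 → NotPow p F z →
    J u k t z ≠ 0 ∧ F.ord (J u k t z) = 1 - lam k u F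
  c1 : ∀ {L : Type} [Field L] [Algebra k L] [Algebra.EssFiniteType k L] {u : Fin 2 → L}
    {F : Place k L} {n n' : ℤ} {f : L}, IsPB p u → Div F → p * (n - 1) < n' →
    F.Ge (n' - lam k u F) f → F.Ge (n - lam k u F) (car p u f)
  c2 : ∀ {L : Type} [Field L] [Algebra k L] [Algebra.EssFiniteType k L] {u : Fin 2 → L}
    {F : Place k L} {n : ℤ} {f : L}, IsPB p u → Div F → ¬ F.Ge (p * n + 1 - lam k u F) f →
    ∃ b, F.Ge 0 b ∧ ¬ F.Ge (n + 1 - lam k u F) (car p u (b * f))
  chg : ∀ {L : Type} [Field L] [Algebra k L] [Algebra.EssFiniteType k L] {u : Fin 2 → L}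
    {F : Place k L} {a b : L}, IsPB p u → Div F → J u k a b ≠ 0 →
    IsPB p ![a, b] ∧ lam k ![a, b] F = lam k u F + F.ord (J u k a b)

/-- Discrepancies and the Cartier operator on a surface. -/
structure RK : Prop extends RK1 k p, RK2 k p

/-- Quadratic transforms, part RQ1. -/
structure RQ1 : Prop where
  ex_min : ∀ {L : Type} [Field L] [Algebra k L] {O : Subalgebra k L} {V : ValuationSubring L},
    IsLoc O → Dom V O → ∀ S : Set L, S.Finite → mx O = gen O S → ∃ b ∈ S, IsMin O V b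
  min_gen : ∀ {L : Type} [Field L] [Algebra k L] {O : Subalgebra k L} {V : ValuationSubring L}
    {S : Set L} {b : L}, Dom V O → mx O = gen O S → b ∈ mx O → b ≠ 0 → (∀ g ∈ S, g / b ∈ V) →
    IsMin O V b
  qt_eq : ∀ {L : Type} [Field L] [Algebra k L] {O : Subalgebra k L} {V : ValuationSubring L}
    {b : L}, Dom V O → IsMin O V b → qt O V = loc (chart O b) V
  mem_chart : ∀ {L : Type} [Field L] [Algebra k L] {O : Subalgebra k L} {b : L}, b ∈ mx O →
    b ≠ 0 → ∀ f, f ∈ chart O b ↔ ∃ n : ℕ, f * b ^ n ∈ mp O n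
  chart_le : ∀ {L : Type} [Field L] [Algebra k L] {O : Subalgebra k L} {W : ValuationSubring L}
    {b : L}, (∀ f ∈ O, f ∈ W) → (∀ g ∈ mx O, g / b ∈ W) → ∀ f ∈ chart O b, f ∈ W
  kill : ∀ {L : Type} [Field L] [Algebra k L] (A : Subalgebra k L) (V : ValuationSubring L)
    (H : Finset (Place k L)) (M : ℤ), (∀ F ∈ H, Cont A F ∧ ¬ Cont (loc A V) F) →
    ∃ s ∈ A, s ≠ 0 ∧ s⁻¹ ∈ V ∧ ∀ F ∈ H, F.Ge M s

/-- Quadratic transforms, part RQ2. -/
structure RQ2 : Prop where
  isLoc : ∀ {L : Type} [Field L] [Algebra k L] {O : Subalgebra k L} {V : ValuationSubring L},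
    IsLoc O → Dom V O → ResK k V → IsLoc (qt O V) ∧ Dom V (qt O V) ∧ O ≤ qt O V
  mx_qt : ∀ {L : Type} [Field L] [Algebra k L] {O : Subalgebra k L} {V : ValuationSubring L}
    {b : L} {S : Set L} (c : L → k), IsLoc O → Dom V O → ResK k V → IsMin O V b →
    mx O = gen O S → (∀ g ∈ S, g / b - algebraMap k L (c g) ∈ V.nonunits) →
    mx (qt O V) = gen (qt O V) (insert b ((fun g => g / b - algebraMap k L (c g)) '' S))
  ch_loc : ∀ {L : Type} [Field L] [Algebra k L] {O : Subalgebra k L} {V : ValuationSubring L},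
    IsLoc O → Dom V O → ResK k V → (∀ i, IsLoc (ch O V i) ∧ Dom V (ch O V i)) ∧
      ∀ i j, i ≤ j → ch O V i ≤ ch O V j

/-- Quadratic transforms. -/
structure RQ : Prop extends RQ1 k, RQ2 k

/-- Dicritical places and chains. -/
structure RD : Prop where
  ex : ∀ {L : Type} [Field L] [Algebra k L] {O : Subalgebra k L} {f : L}, IsPt O → f ∉ O →
    f⁻¹ ∉ O → ∃ F : Place k L, DomP O F ∧ Dic F f
  fin : ∀ {L : Type} [Field L] [Algebra k L] {O : Subalgebra k L} (f : L), IsLoc O →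
    {F : Place k L | DomP O F ∧ Dic F f}.Finite
  leave : ∀ {L : Type} [Field L] [Algebra k L] {O : Subalgebra k L} {V : ValuationSubring L}
    {F : Place k L}, IsLoc O → Dom V O → ResK k V → Div F → ∃ i, ¬ DomP (ch O V i) F
  union : ∀ {L : Type} [Field L] [Algebra k L] {O : Subalgebra k L} {V : ValuationSubring L},
    (∀ i, IsPt (ch O V i)) → Dom V O → ResK k V → ∀ f ∈ V, ∃ i, f ∈ ch O V i

/-- Smooth curves and exceptional curves, part RR1a. -/
structure RR1a : Prop where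
  prin : ∀ {L : Type} [Field L] [Algebra k L] {O : Subalgebra k L} {H : Place k L} {x θ y : L},
    IsPt O → mx O = gen O {x, θ, y} → Ht1 O H → H.Ge 1 x → H.Ge 1 θ →
    (∀ f ∈ O, H.Ge 1 f → f ∈ gen O {x, θ}) ∧ ¬ H.Ge 1 y ∧ NotPow p H y ∧
      ∀ f ∈ O, ¬ H.Ge 1 f → ∃ (n : ℕ) (w : L), Un O w ∧ H.Ge 1 (f - w * y ^ n)
  hx : ∀ {L : Type} [Field L] [Algebra k L] {O : Subalgebra k L} {x y : L}, IsReg O x y →
    x ≠ 0 ∧ ∃ H : Place k L, Ht1 O H ∧ H.ord x = 1 ∧ H.ord y = 0 ∧ NotPow p H y ∧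
      (∀ f ∈ O, H.Ge 1 f → f / x ∈ O) ∧ ∀ H', Ht1 O H' → H'.Ge 1 x → H' = H

/-- Smooth curves and exceptional curves, part RR1b. -/
structure RR1b : Prop where
  exc : ∀ {L : Type} [Field L] [Algebra k L] {O : Subalgebra k L} {x y : L}, IsReg O x y →
    ∃ E : Place k L, E.ord x = 1 ∧ E.ord y = 1 ∧ NotPow p E (x / y) ∧ Rees O {E} x y ∧
      ∀ F, DomP O F → Dic F (x / y) → F = E

/-- The canonical module. -/
structure RR2 : Prop where
  gradh : ∀ {L : Type} [Field L] [Algebra k L] {u : Fin 2 → L} {O : Subalgebra k L}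
    {H : Place k L} (S : Finset L), IsPB p u → IsPt O → mx O = gen O S → Ht1 O H →
    ∃ g ∈ S, ∃ g' ∈ S, J u k g g' ≠ 0 ∧ H.ord (J u k g g') = 1 - lam k u H
  j_mem : ∀ {L : Type} [Field L] [Algebra k L] {u : Fin 2 → L} {O : Subalgebra k L},
    IsPB p u → IsLoc O → ∀ a ∈ O, ∀ b ∈ O, J u k a b ∈ om u O
  om_fg : ∀ {L : Type} [Field L] [Algebra k L] {u : Fin 2 → L} {O : Subalgebra k L},
    IsPB p u → IsPt O → ∃ S : Finset L, S.Nonempty ∧ (0 : L) ∉ S ∧ om u O = gen O S
  gor_ord : ∀ {L : Type} [Field L] [Algebra k L] {u : Fin 2 → L} {O : Subalgebra k L} {η : L}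
    {H : Place k L}, IsPB p u → IsPt O → Gor u O η → Ht1 O H → H.ord η = 1 - lam k u H
  reg : ∀ {L : Type} [Field L] [Algebra k L] {u : Fin 2 → L} {O : Subalgebra k L} {x y : L},
    IsPB p u → IsReg O x y → Gor u O (J u k x y) ∧ PR u O
  exc : ∀ {L : Type} [Field L] [Algebra k L] {u : Fin 2 → L} {O : Subalgebra k L} {x y : L}
    {E : Place k L}, IsPB p u → IsReg O x y → DomP O E → Dic E (x / y) →
    E.ord (J u k x y) = 2 - lam k u E

/-- Existence of a reduction. -/
def St_Red : Prop :=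
  ∀ {L : Type} [Field L] [Algebra k L] {u : Fin 2 → L} {O : Subalgebra k L}, IsPB p u → IsPt O →
    ∃ a b, Red O a b ∧ J u k a b ≠ 0

/-- The origin of the affine plane. -/
def St_Base : Prop :=
  ∀ {K : Type} [Field K] [Algebra k K] (a b : K), AlgebraicIndependent k ![a, b] →
    IntermediateField.adjoin k (Set.range ![a, b]) = ⊤ →
    ∃ B : Subalgebra k K, IsReg B a b ∧ ∀ f ∈ B, ∃ s ∈ Algebra.adjoin k {a, b},
      (∃ c : k, c ≠ 0 ∧ s - algebraMap k K c ∈ gen (Algebra.adjoin k {a, b}) {a, b}) ∧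
      s ≠ 0 ∧ f * s ∈ Algebra.adjoin k {a, b}

/-- Existence of a finite projection. -/
def St_Proj : Prop :=
  ∀ {L : Type} [Field L] [Algebra k L] {u : Fin 2 → L} {O : Subalgebra k L} {a b : L},
    IsPB p u → IsPt O → Red O a b → J u k a b ≠ 0 →
    ∃ (K₀ : IntermediateField k L) (B : Subalgebra k K₀) (a₀ b₀ : K₀), FiniteDimensional K₀ L ∧
      Algebra.IsSeparable K₀ L ∧ (a₀ : L) = a ∧ (b₀ : L) = b ∧ Proj B a₀ b₀ O

/-- Trace duality over a divisorial place. -/
structure RT : Prop where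
  td1 : ∀ {K L : Type} [Field K] [Algebra k K] [Algebra.EssFiniteType k K] [Field L] [Algebra k L]
    [Algebra K L] [IsScalarTower k K L] [FiniteDimensional K L] [Algebra.IsSeparable K L]
    {x : Fin 2 → K} {E : Place k K} (n : ℤ) (f : L), IsPB p x → Div E →
    (∀ (F : Place k L) (e : ℕ), F.Over (IsScalarTower.toAlgHom k K L) E e →
      F.Ge (e * n + 1 - lam k (fun i => algebraMap K L (x i)) F) f) →
    E.Ge (n + 1 - lam k x E) (Algebra.trace K L f)
  td2 : ∀ {K L : Type} [Field K] [Algebra k K] [Algebra.EssFiniteType k K] [Field L] [Algebra k L]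
    [Algebra K L] [IsScalarTower k K L] [FiniteDimensional K L] [Algebra.IsSeparable K L]
    {x : Fin 2 → K} {E : Place k K} (f : L), IsPB p x → Div E →
    (∀ t : L, IsIntegral E.O t → E.Ge (1 - lam k x E) (Algebra.trace K L (f * t))) →
    ∀ (F : Place k L) (e : ℕ), F.Over (IsScalarTower.toAlgHom k K L) E e →
      F.Ge (1 - lam k (fun i => algebraMap K L (x i)) F) f

/-- The integral closure of a regular point is free. -/
def St_Free : Prop :=
  ∀ {K L : Type} [Field K] [Algebra k K] [Field L] [Algebra k L] [Algebra K L]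
    [IsScalarTower k K L] [FiniteDimensional K L] [Algebra.IsSeparable K L]
    {B : Subalgebra k K} {a b : K}, IsReg B a b →
    ∃ (n : ℕ) (e e' : Fin n → L), (∀ i, IsIntegral B (e i)) ∧
      (∀ i t, IsIntegral B t → Algebra.trace K L (t * e' i) ∈ B) ∧
      (∀ t, t = ∑ i, algebraMap K L (Algebra.trace K L (t * e' i)) * e i) ∧
      ∀ t, t = ∑ i, algebraMap K L (Algebra.trace K L (t * e i)) * e' i

/-- The canonical module is the trace dual, part RE1a. -/
structure RE1a : Prop where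
  j_ne : ∀ {K L : Type} [Field K] [Algebra k K] [Field L] [Algebra k L] [Algebra K L]
    [IsScalarTower k K L] [FiniteDimensional K L] [Algebra.IsSeparable K L] {u : Fin 2 → L}
    {B : Subalgebra k K} {a b : K}, IsPB p u → IsReg B a b →
    J u k (algebraMap K L a) (algebraMap K L b) ≠ 0
  res : ∀ {K L : Type} [Field K] [Algebra k K] [Field L] [Algebra k L] [Algebra K L]
    [IsScalarTower k K L] [FiniteDimensional K L] (F : Place k L),
    ∃ (E : Place k K) (e : ℕ), F.Over (IsScalarTower.toAlgHom k K L) E e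
  du1 : ∀ {K L : Type} [Field K] [Algebra k K] [Field L] [Algebra k L] [Algebra K L]
    [IsScalarTower k K L] [FiniteDimensional K L] [Algebra.IsSeparable K L] {u : Fin 2 → L}
    {B : Subalgebra k K} {a b : K} {O : Subalgebra k L}, IsPB p u → Proj B a b O → ∀ f : L,
    (∀ t, IsIntegral B t → Algebra.trace K L (f * t) ∈ B) →
    f * J u k (algebraMap K L a) (algebraMap K L b) ∈ om u O

/-- The canonical module is the trace dual, part RE1b. -/
structure RE1b : Prop where
  du0 : ∀ {K L : Type} [Field K] [Algebra k K] [Field L] [Algebra k L] [Algebra K L]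
    [IsScalarTower k K L] [FiniteDimensional K L] [Algebra.IsSeparable K L] {u : Fin 2 → L}
    {B : Subalgebra k K} {a b : K} {O : Subalgebra k L}, IsPB p u → Proj B a b O → ∀ f : L,
    f * J u k (algebraMap K L a) (algebraMap K L b) ∈ om u O →
    ∃ s, IsIntegral B s ∧ Un O s ∧ ∀ t, IsIntegral B t → Algebra.trace K L (s * f * t) ∈ B
  du2 : ∀ {K L : Type} [Field K] [Algebra k K] [Field L] [Algebra k L] [Algebra K L]
    [IsScalarTower k K L] [FiniteDimensional K L] [Algebra.IsSeparable K L] {u : Fin 2 → L}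
    {B : Subalgebra k K} {a b : K} {O : Subalgebra k L}, IsPB p u → Proj B a b O →
    ∀ (f : L) (n : ℕ), f * J u k (algebraMap K L a) (algebraMap K L b) ∈ om u O →
    (∀ F : Place k L, DomP O F → Dic F (algebraMap K L a / algebraMap K L b) →
      F.Ge (n * F.ord (algebraMap K L b) + 1 - lam k u F)
        (f * J u k (algebraMap K L a) (algebraMap K L b))) →
    ∃ s, IsIntegral B s ∧ Un O s ∧ ∀ t, IsIntegral B t →
      Algebra.trace K L (s * f * t) ∈ mp B (n - 1) ∧
      (t ∈ mx O → Algebra.trace K L (s * f * t) ∈ mp B n)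

/-- The canonical module is the trace dual. -/
structure RE1 : Prop extends RE1a k p, RE1b k p

/-- The Briançon-Skoda property. -/
def St_BS : Prop :=
  ∀ {K L : Type} [Field K] [Algebra k K] [Field L] [Algebra k L] [Algebra K L]
    [IsScalarTower k K L] [FiniteDimensional K L] [Algebra.IsSeparable K L] {u : Fin 2 → L}
    {B : Subalgebra k K} {a b : K} {O : Subalgebra k L}, IsPB p u → Proj B a b O → PR u O →
    ∃ R : Finset (Place k L), Rees O R (algebraMap K L a) (algebraMap K L b) ∧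
      ∀ F, F ∈ R ↔ DomP O F ∧ Dic F (algebraMap K L a / algebraMap K L b)

/-- Generation of the canonical module, and Gorenstein points. -/
structure RE3 : Prop where
  og : ∀ {K L : Type} [Field K] [Algebra k K] [Field L] [Algebra k L] [Algebra K L]
    [IsScalarTower k K L] [FiniteDimensional K L] [Algebra.IsSeparable K L] {u : Fin 2 → L}
    {B : Subalgebra k K} {a b : K} {O : Subalgebra k L} {R : Finset (Place k L)},
    IsPB p u → Proj B a b O → PR u O →
    (∀ F, DomP O F → Dic F (algebraMap K L a / algebraMap K L b) → F ∈ R) →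
    mx O ≠ gen O {algebraMap K L a, algebraMap K L b} → OG u O R (algebraMap K L b)
  gor : ∀ {K L : Type} [Field K] [Algebra k K] [Field L] [Algebra k L] [Algebra K L]
    [IsScalarTower k K L] [FiniteDimensional K L] [Algebra.IsSeparable K L] {u : Fin 2 → L}
    {B : Subalgebra k K} {a b : K} {O : Subalgebra k L} {η : L},
    IsPB p u → Proj B a b O → PR u O → Gor u O η →
    ∃ z, mx O = gen O {algebraMap K L a, algebraMap K L b, z}

/-- The quadratic transform of a point with complete powers. -/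
structure RN : Prop where
  nc : ∀ {L : Type} [Field L] [Algebra k L] {O : Subalgebra k L} {V : ValuationSubring L}
    {R : Finset (Place k L)} {a b : L}, IsPt O → Rees O R a b → Dom V O → ResK k V →
    IsPt (qt O V)
  om1 : ∀ {L : Type} [Field L] [Algebra k L] {u : Fin 2 → L} {O : Subalgebra k L}
    {V : ValuationSubring L} {R : Finset (Place k L)} {a b : L}, IsPB p u → IsPt O →
    Rees O R a b → PR u O → OG u O R b → Dom V O → ResK k V →
    om u (qt O V) = Subalgebra.toSubmodule (qt O V) * om u O ∧ PR u (qt O V)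
  pur : ∀ {L : Type} [Field L] [Algebra k L] {u : Fin 2 → L} {O : Subalgebra k L}
    {R : Finset (Place k L)} {a b x y : L}, IsPB p u → IsPt O → Rees O R a b → OG u O R b →
    x ∈ mx O → y ∈ mx O → ¬ Gor u O (J u k x y)

/-- Double points: one quadratic transform. -/
structure RG1 : Prop where
  of_sq : ∀ {L : Type} [Field L] [Algebra k L] {O : Subalgebra k L} {x y z : L},
    mx O = gen O {x, y, z} → z ^ 2 ∈ Submodule.span k {x, y} * mx O → DP O x y
  swap : ∀ {L : Type} [Field L] [Algebra k L] {O : Subalgebra k L} {x y : L}, DP O x y → DP O y x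
  congr : ∀ {L : Type} [Field L] [Algebra k L] {O : Subalgebra k L} {x y x' y' : L}, DP O x y →
    gen O {x, y} = gen O {x', y'} → DP O x' y'
  step : ∀ {L : Type} [Field L] [Algebra k L] {O : Subalgebra k L} {V : ValuationSubring L}
    {x y : L} {c : k}, IsLoc O → IsPt (qt O V) → Dom V O → ResK k V → DP O x y → y ≠ 0 →
    x / y - algebraMap k L c ∈ V.nonunits → IsMin O V y ∧
      (DP (qt O V) (x / y - algebraMap k L c) y ∨ ∃ x' y', IsReg (qt O V) x' y')

/-- Double points with monomial ramification. -/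
def St_DPend : Prop :=
  ∀ {L : Type} [Field L] [Algebra k L] {u : Fin 2 → L} {O : Subalgebra k L}
    {V : ValuationSubring L} {x y η : L}, IsPB p u → IsPt O → IsPt (qt O V) → Dom V O →
    ResK k V → DP O x y → Gor u O η → J u k x y ≠ 0 → J u k x y / η ∈ mx O →
    (∀ H : Place k L, Ht1 O H → H.Ge 1 (J u k x y / η) → H.Ge 1 x ∨ H.Ge 1 y) →
    (∃ x' y', IsReg O x' y') ∨ ∃ x' y', IsReg (qt O V) x' y'

/-- Chains of regular points, part RM1a. -/
structure RM1a : Prop where
  step : ∀ {L : Type} [Field L] [Algebra k L] {O : Subalgebra k L} {V : ValuationSubring L}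
    {x y : L} {c : k}, IsReg O x y → Dom V O → ResK k V →
    x / y - algebraMap k L c ∈ V.nonunits →
    IsMin O V y ∧ IsReg (qt O V) (x / y - algebraMap k L c) y
  all : ∀ {L : Type} [Field L] [Algebra k L] {O : Subalgebra k L} {V : ValuationSubring L}
    {x y : L}, IsReg O x y → Dom V O → ResK k V → ∀ i, ∃ x' y', IsReg (ch O V i) x' y'

/-- Chains of regular points, part RM1b. -/
structure RM1b : Prop where
  smooth : ∀ {L : Type} [Field L] [Algebra k L] {O : Subalgebra k L} {V : ValuationSubring L}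
    {x y : L} {G : Place k L}, IsReg O x y → Dom V O → ResK k V → V ≤ G.O → Div G →
    ∃ i x' y', IsReg (ch O V i) x' y' ∧ G.Ge 1 x' ∧ ¬ G.Ge 1 y'

/-- Embedded resolution along a valuation. -/
def St_Mon : Prop :=
  ∀ {L : Type} [Field L] [Algebra k L] {O : Subalgebra k L} {V : ValuationSubring L} {x y : L}
    (N : Finset (Place k L)), IsReg O x y → Dom V O → ResK k V →
    ∃ i x' y', IsReg (ch O V i) x' y' ∧
      (∀ H : Place k L, Ht1 (ch O V i) H → (H ∈ N ∨ ¬ Ht1 O H) → H.Ge 1 x' ∨ H.Ge 1 y') ∧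
      ∀ G : Place k L, V ≤ G.O → Div G → G.Ge 1 x' ∧ ¬ G.Ge 1 y'

/-- Structure of pseudo-rational points. -/
structure RL1 : Prop where
  str : ∀ {L : Type} [Field L] [Algebra k L] {u : Fin 2 → L} {O : Subalgebra k L}, IsPB p u →
    IsPt O → PR u O → ∃ (R : Finset (Place k L)) (a b : L), Rees O R a b ∧
      (IsReg O a b ∨ OG u O R b)
  dp : ∀ {L : Type} [Field L] [Algebra k L] {u : Fin 2 → L} {O : Subalgebra k L} {η : L},
    IsPB p u → IsPt O → PR u O → Gor u O η →
    ∃ (K₀ : IntermediateField k L) (B : Subalgebra k K₀) (a b : K₀), FiniteDimensional K₀ L ∧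
      Algebra.IsSeparable K₀ L ∧ IsReg B a b ∧ (∀ f ∈ B, (f : L) ∈ O) ∧ DP O a b
  chain : ∀ {L : Type} [Field L] [Algebra k L] {u : Fin 2 → L} {O : Subalgebra k L}
    {V : ValuationSubring L}, IsPB p u → IsPt O → PR u O → Dom V O → ResK k V →
    ∀ i, IsPt (ch O V i) ∧ PR u (ch O V i)
  gor : ∀ {L : Type} [Field L] [Algebra k L] {u : Fin 2 → L} {O : Subalgebra k L}
    {V : ValuationSubring L}, IsPB p u → IsPt O → PR u O → Dom V O → ResK k V →
    (∀ i x y, ¬ IsReg (ch O V i) x y) → ∃ i η, ∀ j, i ≤ j → Gor u (ch O V j) η ∧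
      ∀ x ∈ mx (ch O V j), ∀ y ∈ mx (ch O V j), J u k x y / η ∈ mx (ch O V j)

/-- Local uniformisation. -/
def St_LU : Prop :=
  ∀ {L : Type} [Field L] [Algebra k L] {u : Fin 2 → L} {O : Subalgebra k L}
    {V : ValuationSubring L}, IsPB p u → IsPt O → PR u O → Dom V O → ResK k V →
    ∃ i x y, IsReg (ch O V i) x y

/-- Monomial charts, part RIa. -/
structure RIa : Prop where
  chart : ∀ {L : Type} [Field L] [Algebra k L] {u : Fin 2 → L} {O : Subalgebra k L}
    {V : ValuationSubring L} (G : Finset L), IsPB p u → IsPt O → PR u O → Dom V O → ResK k V →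
    (0 : L) ∉ G → ∃ (B : Subalgebra k L) (x y : L), IsReg B x y ∧ qt O V ≤ B ∧ Dom V B ∧
      Mono B x y (J u k x y) ∧ (∀ g ∈ G, Mono B x y g) ∧
      ∀ E : Place k L, V ≤ E.O → Div E → Ht1 B E ∧ E.Ge 1 x
  lin : ∀ {L : Type} [Field L] [Algebra k L] {B : Subalgebra k L} {x y g : L}
    {H₁ H₂ : Place k L}, IsReg B x y → Mono B x y g → Ht1 B H₁ → H₁.Ge 1 x → Ht1 B H₂ →
    H₂.Ge 1 y → ∃ w, Un B w ∧ g = w * x ^ H₁.ord g * y ^ H₂.ord g

/-- Monomial charts, part RIb. -/
structure RIb : Prop where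
  det : ∀ {L : Type} [Field L] [Algebra k L] {u : Fin 2 → L} {B : Subalgebra k L}
    {x y w w' : L} {α β α' β' : ℤ} {E : Place k L}, IsPB p u → IsReg B x y → DomP B E →
    Dic E (x / y) → Un B w → Un B w' → α * β' = α' * β →
    E.Ge (α + β + α' + β' + 1 - lam k u E) (J u k (w * x ^ α * y ^ β) (w' * x ^ α' * y ^ β'))

/-- Selection of the exceptional curve. -/
def St_Sel : Prop :=
  ∀ {L : Type} [Field L] [Algebra k L] {u : Fin 2 → L} {O : Subalgebra k L} (η : L) (N : ℕ)
    (S : Set L), IsPB p u → IsPt O → PR u O → η ≠ 0 → 0 < N →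
    (∀ F : Place k L, Div F → Cont O F → F.ord η < N * lam k u F) →
    (∀ s ∈ S, s ∈ O ∧ s ≠ 0) → (∀ f : L, f ≠ 0 → ∃ s ∈ S, ∃ t ∈ S, f = s / t) →
    (∃ S₀ : Finset L, ↑S₀ ⊆ S ∧ mx O = gen O S₀) →
    ∃ E : Place k L, DomP O E ∧ Div E ∧ ∀ V : ValuationSubring L, V ≤ E.O → ResK k V →
      ∃ (B : Subalgebra k L) (x y : L) (H : Place k L) (g : L), IsReg B x y ∧ O ≤ B ∧ Dom V B ∧
        Ht1 B E ∧ E.Ge 1 x ∧ Ht1 B H ∧ H.Ge 1 y ∧ g ∈ S ∧ Mono B x y g ∧ Mono B x y η ∧
        Mono B x y (J u k x y) ∧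
        (N * lam k u E - E.ord η) * H.ord g < E.ord g * (N * lam k u H - H.ord η)

/-- Curves of minimal degree are rational. -/
def St_Rat : Prop :=
  ∀ {K : Type} [Field K] [Algebra k K] (W : Submodule k K) (α β : K), FiniteDimensional k W →
    1 ∈ W → (∃ w ∈ W, ∀ c : k, w ≠ algebraMap k K c) → α ∈ W → β ∈ W →
    W * W ≤ Submodule.span k {α, β} * W →
    ∃ ζ : K, Transcendental k ζ ∧ ∀ w ∈ W, w ∈ IntermediateField.adjoin k {ζ}

/-- Exceptional curves over pseudo-rational points are rational. -/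
def St_JR : Prop :=
  ∀ {L : Type} [Field L] [Algebra k L] {u : Fin 2 → L} {O : Subalgebra k L} {E : Place k L},
    IsPB p u → IsPt O → PR u O → DomP O E → Div E → ∃ ρ : L → RatFunc k, IsRes E ρ

/-- The local ring of an affine surface at a maximal ideal. -/
def St_T0 : Prop :=
  ∀ {T L : Type} [CommRing T] [IsDomain T] [IsIntegrallyClosed T] [Algebra k T]
    [Algebra.FiniteType k T] [Field L] [Algebra k L] [Algebra T L] [IsScalarTower k T L]
    [IsFractionRing T L] {u : Fin 2 → L} (y : Ideal T) [y.IsMaximal], IsPB p u →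
    ∃ O : Subalgebra k L, IsPt O ∧ (∀ t : T, algebraMap T L t ∈ O) ∧
      (∃ S₀ : Finset L, (∀ s ∈ S₀, s ≠ 0 ∧ ∃ t : T, s = algebraMap T L t) ∧ mx O = gen O S₀) ∧
      (∀ F : Place k L, DomP O F → HasCentre F y) ∧
      ∀ F : Place k L, Cont O F → ∃ q : Ideal T, HasCentre F q ∧ q ≤ y ∧ (Ht1 O F → q.height = 1)

/-- The leading coefficient in a monomial chart. -/
def St_Out : Prop :=
  ∀ {L : Type} [Field L] [Algebra k L] {u : Fin 2 → L} {B : Subalgebra k L} {x y t z f : L}
    {E H : Place k L} {ρ : L → RatFunc k} {P : Place k (RatFunc k)} {m : ℕ}, IsPB p u →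
    IsReg B x y → Adapt p E ρ t ![z] → ρ z = RatFunc.X → Ht1 B E → E.Ge 1 x → Ht1 B H →
    H.Ge 1 y → (∀ g ∈ B, P.Ge 0 (ρ g)) → P.Ge 1 (ρ y) → Mono B x y f → Mono B x y (J u k x y) →
    E.ord f = m * lam k u E → H.ord f < m * lam k u H →
    CGe u E m 0 f ∧ ¬ P.Ge (m * lam1 P) (lc k u ρ t ![z] m 0 f)

/-- Level one. -/
structure Lv1 : Prop where
  bas : Bas k p
  ra : RA k
  rv : RV k
  rk : RK k p

/-- Level two. -/
structure Lv2 : Prop extends Lv1 k p where
  rw : RW k
  rh : RH k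
  rq : RQ k
  rt : RT k p
  base : St_Base k
  rat : St_Rat k
  t0 : St_T0 k p

/-- Level three. -/
structure Lv3 : Prop extends Lv2 k p where
  rd : RD k
  r1a : RR1a k p
  g1 : RG1 k

/-- Level four. -/
structure Lv4 : Prop extends Lv3 k p where
  r1b : RR1b k p
  free : St_Free k
  red : St_Red k p
  proj : St_Proj k p
  out : St_Out k p

/-- Level five. -/
structure Lv5 : Prop extends Lv4 k p where
  r2 : RR2 k p

/-- Level six. -/
structure Lv6 : Prop extends Lv5 k p where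
  e1 : RE1 k p
  rn : RN k p
  dpend : St_DPend k p
  rib : RIb k p

/-- Level seven. -/
structure Lv7 : Prop extends Lv6 k p where
  bs : St_BS k p
  e3 : RE3 k p
  m1a : RM1a k

/-- Level eight. -/
structure Lv8 : Prop extends Lv7 k p where
  m1b : RM1b k
  l1 : RL1 k p

/-- Level nine. -/
structure Lv9 : Prop extends Lv8 k p where
  mon : St_Mon k
  jr : St_JR k p

/-- Level ten. -/
structure Lv10 : Prop extends Lv9 k p where
  lu : St_LU k p

/-- Level eleven. -/
structure Lv11 : Prop extends Lv10 k p where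
  ria : RIa k p

/-- Level twelve. -/
structure Lv12 : Prop extends Lv11 k p where
  sel : St_Sel k p

end Pool.Agent.Lib.MP_5f81cf_ag.Full.Res
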