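import Mathlib

/-! Chains of quadratic transforms inside a field: points, charts and generators. -/

namespace Pool.Agent.Lib.MP_5f81cf_ag.Full.DP

variable {k L : Type} [Field k] [Field L] [Algebra k L]

/-- `O` is a local subalgebra with maximal ideal `m` and residue field `k`. -/
structure Pnt (O : Subalgebra k L) (m : Submodule k L) : Prop where
  le : ∀ a ∈ m, a ∈ O
  mul : ∀ a ∈ O, ∀ b ∈ m, a * b ∈ m
  res : ∀ a ∈ O, ∃ c : k, a - algebraMap k L c ∈ m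
  unit : ∀ a ∈ O, a ∉ m → a⁻¹ ∈ O
  one : (1 : L) ∉ m

/-- `m` is generated by three elements. -/
def Gen (O : Subalgebra k L) (m : Submodule k L) (x y z : L) : Prop :=
  x ∈ m ∧ y ∈ m ∧ z ∈ m ∧ ∀ a ∈ m, ∃ α ∈ O, ∃ β ∈ O, ∃ γ ∈ O, a = α * x + β * y + γ * z

/-- `m` is generated by two elements. -/
def Reg (O : Subalgebra k L) (m : Submodule k L) : Prop :=
  ∃ x ∈ m, ∃ y ∈ m, ∀ a ∈ m, ∃ α ∈ O, ∃ β ∈ O, a = α * x + β * y

/-- `x` generates the extension of `m` to `O'`. -/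
def Ch (m : Submodule k L) (O' : Subalgebra k L) (x : L) : Prop :=
  x ∈ m ∧ x ≠ 0 ∧ ∀ b ∈ m, b / x ∈ O'

/-- `O'` is a quadratic transform of `O`. -/
structure Succ (O : Subalgebra k L) (m : Submodule k L) (O' : Subalgebra k L)
    (m' : Submodule k L) : Prop where
  le : O ≤ O'
  mle : m ≤ m'
  ex : ∃ a, Ch m O' a ∧ ∀ f ∈ O', ∃ u ∈ Algebra.adjoin k ((O : Set L) ∪ (· / a) '' m),
    ∃ v ∈ Algebra.adjoin k ((O : Set L) ∪ (· / a) '' m), v ∉ m' ∧ f * v = u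

variable {O O' : Subalgebra k L} {m m' : Submodule k L} {x y z a b : L}

lemma p2 (ha : a ∈ m) (hb : b ∈ m) : a * b ∈ m ^ 2 := by
  rw [pow_two]; exact Submodule.mul_mem_mul ha hb

lemma p3 (ha : a ∈ m) (hb : b ∈ m ^ 2) : a * b ∈ m ^ 3 := by
  rw [pow_succ']; exact Submodule.mul_mem_mul ha hb

lemma p4 (ha : a ∈ m) (hb : b ∈ m ^ 3) : a * b ∈ m ^ 4 := by
  rw [pow_succ']; exact Submodule.mul_mem_mul ha hb

lemma p22 (ha : a ∈ m ^ 2) (hb : b ∈ m ^ 2) : a * b ∈ m ^ 4 := by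
  rw [show 4 = 2 + 2 from rfl, pow_add]; exact Submodule.mul_mem_mul ha hb

lemma cm (W : Submodule k L) (c : k) (ha : a ∈ W) : algebraMap k L c * a ∈ W := by
  rw [← Algebra.smul_def]; exact W.smul_mem c ha

lemma Pnt.om (h : Pnt O m) (j : ℕ) (ha : a ∈ O) (hb : b ∈ m ^ (j + 1)) : a * b ∈ m ^ (j + 1) := by
  rw [pow_succ'] at hb ⊢
  refine Submodule.mul_induction_on hb (fun u hu v hv => ?_) fun u v hu hv => ?_
  · rw [← mul_assoc]; exact Submodule.mul_mem_mul (h.mul a ha u hu) hv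
  · rw [mul_add]; exact add_mem hu hv

lemma Pnt.pow_le (h : Pnt O m) (j : ℕ) : m ^ (j + 2) ≤ m ^ (j + 1) := by
  rw [pow_succ' m (j + 1)]
  exact Submodule.mul_le.2 fun u hu v hv => h.om j (h.le u hu) hv

lemma Pnt.sq_le (h : Pnt O m) (ha : a ∈ m ^ 2) : a ∈ m := by simpa using h.pow_le 0 ha

lemma Pnt.const (h : Pnt O m) {c : k} (hc : algebraMap k L c ∈ m) : c = 0 := by
  by_contra h0
  refine h.one ?_
  have := cm m c⁻¹ hc
  rwa [← map_mul, inv_mul_cancel₀ h0, map_one] at this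

lemma Pnt.ne_zero (ha : a ∉ m) : a ≠ 0 := fun h0 => ha (h0 ▸ m.zero_mem)

lemma Pnt.prime (h : Pnt O m) (ha : a ∈ O) (h2 : a * a ∈ m) : a ∈ m := by
  by_contra hn
  have := h.mul _ (h.unit a ha hn) _ h2
  rw [← mul_assoc, inv_mul_cancel₀ (Pnt.ne_zero hn), one_mul] at this
  exact hn this

lemma Pnt.not_mem (h : Pnt O m) {c : k} (hc : c ≠ 0) (ha : a ∈ m) : algebraMap k L c + a ∉ m :=
  fun h' => hc (h.const (by simpa using sub_mem h' ha))

lemma Ch.div_pow (h : Ch m O' x) (j : ℕ) : ∀ w ∈ m ^ j, w / x ^ j ∈ O' := by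
  induction j with
  | zero =>
    intro w hw
    obtain ⟨c, rfl⟩ := Submodule.mem_one.1 (by simpa using hw)
    simp
  | succ j ih =>
    intro w hw
    rw [pow_succ'] at hw
    refine Submodule.mul_induction_on hw (fun u hu v hv => ?_) fun u v hu hv => ?_
    · rw [pow_succ', ← div_mul_div_comm]; exact mul_mem (h.2.2 u hu) (ih v hv)
    · rw [add_div]; exact add_mem hu hv

lemma Ch.switch (h' : Pnt O' m') (h : Ch m O' x) (hy : y ∈ m) (hn : y / x ∉ m') : Ch m O' y := by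
  have h0 : y ≠ 0 := by rintro rfl; exact hn (by simp)
  refine ⟨hy, h0, fun b hb => ?_⟩
  have := mul_mem (h.2.2 b hb) (h'.unit _ (h.2.2 y hy) hn)
  convert this using 1
  have := h.2.1
  field_simp

lemma Gen.swap (h : Gen O m x y z) : Gen O m y x z :=
  ⟨h.2.1, h.1, h.2.2.1, fun a ha => by
    obtain ⟨α, hα, β, hβ, γ, hγ, e⟩ := h.2.2.2 a ha
    exact ⟨β, hβ, α, hα, γ, hγ, by rw [e]; ring⟩⟩

lemma Gen.swap' (h : Gen O m x y z) : Gen O m x z y :=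
  ⟨h.1, h.2.2.1, h.2.1, fun a ha => by
    obtain ⟨α, hα, β, hβ, γ, hγ, e⟩ := h.2.2.2 a ha
    exact ⟨α, hα, γ, hγ, β, hβ, by rw [e]; ring⟩⟩

/-- Change of generators. -/
lemma Gen.change (h : Gen O m x y z) {x' y' z' : L} (hx : x' ∈ m) (hy : y' ∈ m) (hz : z' ∈ m)
    (h1 : ∃ α ∈ O, ∃ β ∈ O, ∃ γ ∈ O, x = α * x' + β * y' + γ * z')
    (h2 : ∃ α ∈ O, ∃ β ∈ O, ∃ γ ∈ O, y = α * x' + β * y' + γ * z')
    (h3 : ∃ α ∈ O, ∃ β ∈ O, ∃ γ ∈ O, z = α * x' + β * y' + γ * z') : Gen O m x' y' z' := by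
  refine ⟨hx, hy, hz, fun a ha => ?_⟩
  obtain ⟨α, hα, β, hβ, γ, hγ, e⟩ := h.2.2.2 a ha
  obtain ⟨a1, h11, b1, h12, c1, h13, e1⟩ := h1
  obtain ⟨a2, h21, b2, h22, c2, h23, e2⟩ := h2
  obtain ⟨a3, h31, b3, h32, c3, h33, e3⟩ := h3
  refine ⟨α * a1 + β * a2 + γ * a3, ?_, α * b1 + β * b2 + γ * b3, ?_, α * c1 + β * c2 + γ * c3, ?_,
    by rw [e, e1, e2, e3]; ring⟩ <;>
  exact add_mem (add_mem (mul_mem hα ‹_›) (mul_mem hβ ‹_›)) (mul_mem hγ ‹_›)

lemma Gen.third (h : Gen O m x y z) {z' : L} (hz : z' ∈ m)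
    (h3 : ∃ α ∈ O, ∃ β ∈ O, ∃ γ ∈ O, z = α * x + β * y + γ * z') : Gen O m x y z' :=
  h.change h.1 h.2.1 hz ⟨1, one_mem _, 0, zero_mem _, 0, zero_mem _, by ring⟩
    ⟨0, zero_mem _, 1, one_mem _, 0, zero_mem _, by ring⟩ h3

lemma Gen.reg (h : Gen O m x y z) (h3 : ∃ α ∈ O, ∃ β ∈ O, z = α * x + β * y) : Reg O m := by
  obtain ⟨α, hα, β, hβ, e⟩ := h3
  have := h.third m.zero_mem ⟨α, hα, β, hβ, 0, zero_mem _, by rw [e]; ring⟩
  refine ⟨x, h.1, y, h.2.1, fun a ha => ?_⟩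
  obtain ⟨α, hα, β, hβ, γ, -, e⟩ := this.2.2.2 a ha
  exact ⟨α, hα, β, hβ, by rw [e]; ring⟩

lemma Gen.sq (h : Pnt O m) (g : Gen O m x y z) (ha : a ∈ m ^ 2) :
    ∃ α ∈ m, ∃ β ∈ m, ∃ γ ∈ m, a = α * x + β * y + γ * z := by
  rw [pow_two] at ha
  refine Submodule.mul_induction_on ha (fun u hu v hv => ?_) ?_
  · obtain ⟨α, hα, β, hβ, γ, hγ, e⟩ := g.2.2.2 v hv
    exact ⟨α * u, h.mul _ hα _ hu, β * u, h.mul _ hβ _ hu, γ * u, h.mul _ hγ _ hu, by rw [e]; ring⟩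
  · rintro _ _ ⟨α, hα, β, hβ, γ, hγ, rfl⟩ ⟨α', hα', β', hβ', γ', hγ', rfl⟩
    exact ⟨_, add_mem hα hα', _, add_mem hβ hβ', _, add_mem hγ hγ', by ring⟩

/-- Nakayama. -/
lemma Gen.nak (h : Pnt O m) (g : Gen O m x y z) {z' : L} (hz : z - z' ∈ m ^ 2) :
    Gen O m x y z' := by
  obtain ⟨α, hα, β, hβ, γ, hγ, e⟩ := g.sq h hz
  have hu : 1 - γ ∉ m := fun h' => h.one (by simpa using add_mem h' hγ)
  have hi := h.unit _ (sub_mem (one_mem _) (h.le _ hγ)) hu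
  have h0 := Pnt.ne_zero hu
  refine g.third (by simpa using sub_mem g.2.2.1 (h.sq_le hz))
    ⟨_, mul_mem hi (h.le _ hα), _, mul_mem hi (h.le _ hβ), _, hi, ?_⟩
  field_simp
  linear_combination e

lemma Gen.lin (h : Pnt O m) (g : Gen O m x y z) (ha : a ∈ m) : ∃ α β γ : k,
    a - (algebraMap k L α * x + algebraMap k L β * y + algebraMap k L γ * z) ∈ m ^ 2 := by
  obtain ⟨α, hα, β, hβ, γ, hγ, e⟩ := g.2.2.2 a ha
  obtain ⟨c1, h1⟩ := h.res α hα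
  obtain ⟨c2, h2⟩ := h.res β hβ
  obtain ⟨c3, h3⟩ := h.res γ hγ
  refine ⟨c1, c2, c3, ?_⟩
  convert add_mem (add_mem (p2 h1 g.1) (p2 h2 g.2.1)) (p2 h3 g.2.2.1) using 1
  rw [e]; ring

lemma Succ.charts (h' : Pnt O' m') (s : Succ O m O' m') (g : Gen O m x y z) :
    Ch m O' x ∨ Ch m O' y ∨ Ch m O' z := by
  obtain ⟨a, ha, -⟩ := s.ex
  by_contra hn
  push Not at hn
  have hx : x / a ∈ m' := by_contra fun h => hn.1 (ha.switch h' g.1 h)
  have hy : y / a ∈ m' := by_contra fun h => hn.2.1 (ha.switch h' g.2.1 h)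
  have hz : z / a ∈ m' := by_contra fun h => hn.2.2 (ha.switch h' g.2.2.1 h)
  obtain ⟨α, hα, β, hβ, γ, hγ, e⟩ := g.2.2.2 a ha.1
  refine h'.one ?_
  convert add_mem (add_mem (h'.mul _ (s.le hα) _ hx) (h'.mul _ (s.le hβ) _ hy))
    (h'.mul _ (s.le hγ) _ hz) using 1
  have := ha.2.1
  field_simp
  exact e

/-- Generators of the maximal ideal of a quadratic transform. -/
lemma Succ.gen (h : Pnt O m) (h' : Pnt O' m') (s : Succ O m O' m') (g : Gen O m x y z)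
    (c : Ch m O' x) {c1 c2 : k} (hy : y / x - algebraMap k L c1 ∈ m')
    (hz : z / x - algebraMap k L c2 ∈ m') :
    Gen O' m' x (y / x - algebraMap k L c1) (z / x - algebraMap k L c2) := by
  set y' := y / x - algebraMap k L c1 with hy'
  set z' := z / x - algebraMap k L c2 with hz'
  have hx : x ∈ m' := s.mle g.1
  let J : L → Prop := fun w => ∃ α ∈ O', ∃ β ∈ O', ∃ γ ∈ O', w = α * x + β * y' + γ * z'
  have Jm : ∀ w, J w → w ∈ m' := by
    rintro _ ⟨α, hα, β, hβ, γ, hγ, rfl⟩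
    exact add_mem (add_mem (h'.mul _ hα _ hx) (h'.mul _ hβ _ hy)) (h'.mul _ hγ _ hz)
  have Jadd : ∀ u v, J u → J v → J (u + v) := by
    rintro _ _ ⟨α, hα, β, hβ, γ, hγ, rfl⟩ ⟨α', hα', β', hβ', γ', hγ', rfl⟩
    exact ⟨_, add_mem hα hα', _, add_mem hβ hβ', _, add_mem hγ hγ', by ring⟩
  have Jmul : ∀ u ∈ O', ∀ v, J v → J (u * v) := by
    rintro u hu _ ⟨α, hα, β, hβ, γ, hγ, rfl⟩
    exact ⟨_, mul_mem hu hα, _, mul_mem hu hβ, _, mul_mem hu hγ, by ring⟩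
  let S : Subalgebra k L :=
    { carrier := {w | w ∈ O' ∧ ∃ c : k, J (w - algebraMap k L c)}
      mul_mem' := by
        rintro u v ⟨hu, c, hc⟩ ⟨hv, d, hd⟩
        refine ⟨mul_mem hu hv, c * d, ?_⟩
        convert Jadd _ _ (Jmul v hv _ hc) (Jmul _ (O'.algebraMap_mem c) _ hd) using 1
        rw [map_mul]; ring
      add_mem' := by
        rintro u v ⟨hu, c, hc⟩ ⟨hv, d, hd⟩
        refine ⟨add_mem hu hv, c + d, ?_⟩
        convert Jadd _ _ hc hd using 1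
        rw [map_add]; ring
      algebraMap_mem' := fun c => ⟨O'.algebraMap_mem c, c, 0, zero_mem _, 0, zero_mem _, 0,
        zero_mem _, by ring⟩ }
  have Sinv : ∀ w ∈ S, w ∉ m' → w⁻¹ ∈ S := by
    rintro w ⟨hw, c, hc⟩ hn
    have hc0 : c ≠ 0 := by rintro rfl; exact hn (Jm _ (by simpa using hc))
    have hi := h'.unit w hw hn
    refine ⟨hi, c⁻¹, ?_⟩
    convert Jmul _ (neg_mem (mul_mem hi (O'.algebraMap_mem c⁻¹))) _ hc using 1
    have := Pnt.ne_zero hn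
    have : algebraMap k L c ≠ 0 := by simpa using hc0
    rw [map_inv₀]
    field_simp
    ring
  have hO : ∀ w ∈ O, w ∈ S := fun w hw => by
    obtain ⟨d, hd⟩ := h.res w hw
    exact ⟨s.le hw, d, _, c.2.2 _ hd, 0, zero_mem _, 0, zero_mem _, by
      have := c.2.1; field_simp; ring⟩
  have hm : ∀ b ∈ m, b / x ∈ S := fun b hb => by
    obtain ⟨α, hα, β, hβ, γ, hγ, e⟩ := g.2.2.2 b hb
    have h1 : y / x ∈ S := ⟨c.2.2 _ g.2.1, c1, 0, zero_mem _, 1, one_mem _, 0, zero_mem _, by ring⟩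
    have h2 : z / x ∈ S :=
      ⟨c.2.2 _ g.2.2.1, c2, 0, zero_mem _, 0, zero_mem _, 1, one_mem _, by ring⟩
    convert add_mem (add_mem (hO _ hα) (mul_mem (hO _ hβ) h1)) (mul_mem (hO _ hγ) h2) using 1
    have := c.2.1
    rw [e]; field_simp
  obtain ⟨a, ha, H⟩ := s.ex
  have hax : a / x ∉ m' := fun hh => h'.one (by
    convert h'.mul _ (ha.2.2 x g.1) _ hh using 1
    have := ha.2.1; have := c.2.1; field_simp)
  have hB : Algebra.adjoin k ((O : Set L) ∪ (· / a) '' m) ≤ S := by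
    refine Algebra.adjoin_le ?_
    rintro w (hw | ⟨b, hb, rfl⟩)
    · exact hO w hw
    · have e : b / a = b / x * (a / x)⁻¹ := by
        have := ha.2.1; have := c.2.1; field_simp
      exact (show b / a ∈ S from e ▸ mul_mem (hm b hb) (Sinv _ (hm a ha.1) hax))
  refine ⟨hx, hy, hz, fun f hf => ?_⟩
  obtain ⟨u, hu, v, hv, hvm, e⟩ := H f (h'.le f hf)
  have hf' : f ∈ S := by
    convert mul_mem (hB hu) (Sinv v (hB hv) hvm) using 1
    have := Pnt.ne_zero hvm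
    rw [← e]; field_simp
  obtain ⟨-, d, hd⟩ := hf'
  obtain rfl : d = 0 := h'.const (by simpa using sub_mem hf (Jm _ hd))
  simpa using hd

end Pool.Agent.Lib.MP_5f81cf_ag.Full.DP
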