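import Pool.Agent.Lib.MP_5f81cf_ag.ResDPa

/-! Rational double points: the states and their transitions. -/

namespace Pool.Agent.Lib.MP_5f81cf_ag.Full.DP

variable {k L : Type} [Field k] [Field L] [Algebra k L]

/-- The tangent cone has rank at least two. -/
def StA (O : Subalgebra k L) (m : Submodule k L) (x : L) : Prop :=
  ∃ y z, Gen O m x y z ∧ ∃ μ ∈ m, y * z - x * μ ∈ m ^ 3

/-- Double plane, cubic form with a simple root. -/
def StD (O : Subalgebra k L) (m : Submodule k L) (x : L) : Prop :=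
  ∃ y z, Gen O m x y z ∧ ∃ α β : k,
    z * z - x * (y * y + algebraMap k L β * x * y + algebraMap k L α * x * x) ∈ m ^ 4

/-- Double plane, cubic form with a triple root. -/
def StE (O : Subalgebra k L) (m : Submodule k L) : Prop :=
  ∃ x y z, Gen O m x y z ∧ z * z - y * y * y ∈ m ^ 4

/-- The state after blowing up a point with a triple root. -/
def StF (O : Subalgebra k L) (m : Submodule k L) : Prop :=
  ∃ x y z, Gen O m x y z ∧ ∃ α : k, α ≠ 0 ∧ ∃ g ∈ m ^ 2,
    z * z = algebraMap k L α * x * x * x + x * y * y * y + x * x * g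

variable {O O' : Subalgebra k L} {m m' : Submodule k L} {x y z w : L}

lemma StA.chart (h : Pnt O m) (h' : Pnt O' m') (s : Succ O m O' m') (g : Gen O m x y z) {α : k}
    (hw : y * z - algebraMap k L α * x * x ∈ m ^ 3) (c : Ch m O' y) : Reg O' m' := by
  obtain ⟨c1, h1⟩ := h'.res _ (c.2.2 x g.1)
  obtain ⟨c2, h2⟩ := h'.res _ (c.2.2 z g.2.2.1)
  have G := s.gen h h' g.swap c h1 h2
  have hg := c.div_pow 3 _ hw
  set t := (y * z - algebraMap k L α * x * x) / y ^ 3 with ht
  have h3 : x / y + algebraMap k L c1 ∈ O' := add_mem (c.2.2 x g.1) (O'.algebraMap_mem _)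
  have h4 := mul_mem (O'.algebraMap_mem α) h3
  have e : z / y - algebraMap k L c2 = t * y + algebraMap k L α * (x / y + algebraMap k L c1) *
      (x / y - algebraMap k L c1) + algebraMap k L (α * c1 ^ 2 - c2) := by
    have := c.2.1
    rw [ht, map_sub, map_mul, map_pow]; field_simp; ring
  have h0 : α * c1 ^ 2 - c2 = 0 := h'.const (by
    convert sub_mem (sub_mem h2 (h'.mul _ hg _ G.1)) (h'.mul _ h4 _ h1) using 1
    rw [e]; ring)
  rw [h0, map_zero, add_zero] at e
  exact G.reg ⟨_, hg, _, h4, e⟩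

lemma StA.step (h : Pnt O m) (h' : Pnt O' m') (s : Succ O m O' m') (a : StA O m x) :
    Reg O' m' ∨ (Ch m O' x ∧ StA O' m' x) := by
  obtain ⟨y₀, z₀, g₀, μ, hμ, hw₀⟩ := a
  obtain ⟨α, β, γ, hl⟩ := g₀.lin h hμ
  set y := y₀ - algebraMap k L γ * x with hy
  set z := z₀ - algebraMap k L β * x with hz
  have g : Gen O m x y z := g₀.change g₀.1 (sub_mem g₀.2.1 (cm m _ g₀.1))
    (sub_mem g₀.2.2.1 (cm m _ g₀.1)) ⟨1, one_mem _, 0, zero_mem _, 0, zero_mem _, by ring⟩
    ⟨_, O.algebraMap_mem γ, 1, one_mem _, 0, zero_mem _, by rw [hy]; ring⟩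
    ⟨_, O.algebraMap_mem β, 0, zero_mem _, 1, one_mem _, by rw [hz]; ring⟩
  have hw : y * z - algebraMap k L (α + β * γ) * x * x ∈ m ^ 3 := by
    convert add_mem hw₀ (p3 g₀.1 hl) using 1
    rw [hy, hz, map_add, map_mul]; ring
  clear_value y z
  by_cases cy : Ch m O' y
  · exact Or.inl (StA.chart h h' s g hw cy)
  by_cases cz : Ch m O' z
  · exact Or.inl (StA.chart h h' s g.swap' (by rwa [mul_comm z y]) cz)
  have c : Ch m O' x := ((s.charts h' g).resolve_right fun h => h.elim cy cz)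
  have h1 : y / x ∈ m' := by_contra fun h => cy (c.switch h' g.2.1 h)
  have h2 : z / x ∈ m' := by_contra fun h => cz (c.switch h' g.2.2.1 h)
  have G : Gen O' m' x (y / x) (z / x) := by
    simpa using s.gen h h' g c (c1 := 0) (c2 := 0) (by simpa using h1) (by simpa using h2)
  have hg := c.div_pow 3 _ hw
  set t := (y * z - algebraMap k L (α + β * γ) * x * x) / x ^ 3 with ht
  have e : y / x * (z / x) = t * x + algebraMap k L (α + β * γ) := by
    have := c.2.1
    rw [ht]; field_simp; ring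
  have h0 : α + β * γ = 0 := h'.const (by
    convert sub_mem (h'.mul _ (h'.le _ h1) _ h2) (h'.mul _ hg _ G.1) using 1
    rw [e]; ring)
  rw [h0, map_zero, add_zero] at e
  by_cases htm : t ∈ m'
  · exact Or.inr ⟨c, _, _, G, t, htm, by rw [e, mul_comm, sub_self]; exact zero_mem _⟩
  · refine Or.inl (G.swap.swap'.reg ⟨_, mul_mem (h'.unit t hg htm) (h'.le _ h2), 0, zero_mem _, ?_⟩)
    have := Pnt.ne_zero htm
    rw [zero_mul, add_zero, mul_assoc, mul_comm (z / x), e]; field_simp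

/-- If `z² = x u` with `u` a unit, the point is regular. -/
lemma reg_of_unit (h : Pnt O m) (g : Gen O m x y z) {u : L} (hu : u ∈ O) (hn : u ∉ m)
    (e : z * z = x * u) : Reg O m := by
  refine g.swap.swap'.reg ⟨0, zero_mem _, _, mul_mem (h.unit u hu hn) (h.le _ g.2.2.1), ?_⟩
  have := Pnt.ne_zero hn
  rw [zero_mul, zero_add, mul_assoc, e]; field_simp

lemma no_chart (h' : Pnt O' m') (s : Succ O m O' m') (hw : z * z ∈ m ^ 3) : ¬ Ch m O' z := by
  intro c
  refine h'.one ?_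
  convert h'.mul _ (c.div_pow 3 _ hw) _ (s.mle c.1) using 1
  have := c.2.1
  field_simp

lemma div_mem (h' : Pnt O' m') (s : Succ O m O' m') (hz : z ∈ m) (hw : z * z ∈ m ^ 3)
    (c : Ch m O' x) : z / x ∈ m' := by_contra fun h => no_chart h' s hw (c.switch h' hz h)

variable [IsAlgClosed k]

lemma stA_of_sq (h2 : (2 : k) ≠ 0) (g : Gen O m x y z) {c : k} (hc : c ≠ 0) {μ : L} (hμ : μ ∈ m)
    (hw : z * z - algebraMap k L c * x * x - y * μ ∈ m ^ 3) : StA O m y := by
  obtain ⟨s, rfl⟩ := IsAlgClosed.exists_eq_mul_self c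
  have hs : s ≠ 0 := by rintro rfl; simp at hc
  have h2' : algebraMap k L 2 = 2 := map_ofNat _ 2
  have h3 : (2 : L) ≠ 0 := by rw [← h2']; simpa using h2
  have h4 : algebraMap k L s ≠ 0 := by simpa using hs
  refine ⟨z - algebraMap k L s * x, z + algebraMap k L s * x, g.change g.2.1
    (sub_mem g.2.2.1 (cm m _ g.1)) (add_mem g.2.2.1 (cm m _ g.1))
    ⟨0, zero_mem _, _, O.algebraMap_mem (-(2 * s)⁻¹), _, O.algebraMap_mem (2 * s)⁻¹, ?_⟩
    ⟨1, one_mem _, 0, zero_mem _, 0, zero_mem _, by ring⟩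
    ⟨0, zero_mem _, _, O.algebraMap_mem 2⁻¹, _, O.algebraMap_mem 2⁻¹, ?_⟩, μ, hμ, ?_⟩
  · simp only [map_neg, map_inv₀, map_mul, h2']; field_simp; ring
  · simp only [map_inv₀, h2']; field_simp; ring
  · convert hw using 1
    rw [map_mul]; ring

omit [IsAlgClosed k] in
lemma stA_of_prod (g : Gen O m x y z) {β γ : k} (hβ : β ≠ 0)
    (hw : x * (algebraMap k L β * y + algebraMap k L γ * x) - z * z ∈ m ^ 3) : StA O m z := by
  have h4 : algebraMap k L β ≠ 0 := by simpa using hβ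
  refine ⟨x, _, g.change g.2.2.1 g.1 (add_mem (cm m β g.2.1) (cm m γ g.1))
    ⟨0, zero_mem _, 1, one_mem _, 0, zero_mem _, by ring⟩
    ⟨0, zero_mem _, _, O.algebraMap_mem (-(γ / β)), _, O.algebraMap_mem β⁻¹, ?_⟩
    ⟨1, one_mem _, 0, zero_mem _, 0, zero_mem _, by ring⟩, z, g.2.2.1, hw⟩
  simp only [map_neg, map_inv₀, map_div₀]; field_simp; ring

/-- Analysis of a relation `z² = w + x² t`. -/
lemma split (h2 : (2 : k) ≠ 0) (h : Pnt O m) (g : Gen O m x y z) {t : L} (ht : t ∈ O)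
    (hw : w ∈ m ^ 3) (e : z * z = w + x * x * t) : StA O m y ∨
      ∃ (z' : L) (α β : k), ∃ ν ∈ m ^ 2, Gen O m x y z' ∧
        z' * z' = w + x * x * (algebraMap k L α * x + algebraMap k L β * y) + x * x * ν := by
  obtain ⟨c, hc⟩ := h.res t ht
  by_cases hc0 : c = 0
  swap
  · refine Or.inl (stA_of_sq h2 g hc0 m.zero_mem ?_)
    convert add_mem hw (p3 hc (p2 g.1 g.1)) using 1
    rw [e]; ring
  subst hc0
  obtain ⟨α, β, γ, hl⟩ := g.lin h (a := t) (by simpa using hc)
  have h2' : algebraMap k L 2 = 2 := map_ofNat _ 2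
  have h3 : (2 : L) ≠ 0 := by rw [← h2']; simpa using h2
  refine Or.inr ⟨z - algebraMap k L (γ / 2) * (x * x), α, β, _,
    add_mem hl (cm _ (γ / 2 * (γ / 2)) (p2 g.1 g.1)), g.nak h ?_, ?_⟩
  · simpa using cm _ (γ / 2) (p2 g.1 g.1)
  · simp only [map_mul, map_div₀, h2']
    have : (z - algebraMap k L γ / 2 * (x * x)) * (z - algebraMap k L γ / 2 * (x * x)) =
        z * z - algebraMap k L γ * (x * x) * z + algebraMap k L γ / 2 * (algebraMap k L γ / 2) *
          (x * x) * (x * x) := by field_simp; ring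
    rw [this, e]; ring

lemma StD.step (h2 : (2 : k) ≠ 0) (h : Pnt O m) (h' : Pnt O' m') (s : Succ O m O' m')
    (a : StD O m x) : Reg O' m' ∨ (∃ x', StA O' m' x') ∨ (Ch m O' x ∧ StD O' m' x) := by
  obtain ⟨y, z, g, α, β, hw⟩ := a
  have hq : y * y + algebraMap k L β * x * y + algebraMap k L α * x * x ∈ m ^ 2 :=
    add_mem (add_mem (p2 g.2.1 g.2.1) (p2 (cm m _ g.1) g.2.1)) (p2 (cm m _ g.1) g.1)
  have hz : z * z ∈ m ^ 3 := by simpa using add_mem (h.pow_le 2 hw) (p3 g.1 hq)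
  set r := z * z - x * (y * y + algebraMap k L β * x * y + algebraMap k L α * x * x) with hr
  by_cases c : Ch m O' x
  · obtain ⟨c1, h1⟩ := h'.res _ (c.2.2 y g.2.1)
    have hz' := div_mem h' s g.2.2.1 hz c
    have G : Gen O' m' x (y / x - algebraMap k L c1) (z / x) := by
      simpa using s.gen h h' g c (c2 := 0) h1 (by simpa using hz')
    have hg := c.div_pow 4 _ hw
    set y' := y / x - algebraMap k L c1 with hy'
    have e : z / x * (z / x) = x * (algebraMap k L (c1 * c1 + β * c1 + α) +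
        (y' * y' + algebraMap k L (2 * c1 + β) * y' + x * (r / x ^ 4))) := by
      have := c.2.1
      simp only [hr, hy', map_add, map_mul, map_ofNat]; field_simp; ring
    clear_value y' r
    generalize c1 * c1 + β * c1 + α = α' at e
    generalize 2 * c1 + β = β' at e
    have hm : y' * y' + algebraMap k L β' * y' + x * (r / x ^ 4) ∈ m' :=
      add_mem (add_mem (h'.sq_le (p2 h1 h1)) (cm m' _ h1)) (mul_comm x _ ▸ h'.mul _ hg _ G.1)
    by_cases hα : α' = 0
    swap
    · exact Or.inl (reg_of_unit h' G (add_mem (O'.algebraMap_mem _) (h'.le _ hm))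
        (h'.not_mem hα hm) e)
    rw [hα, map_zero, zero_add] at e
    by_cases hβ : β' = 0
    swap
    · obtain ⟨c2, hc2⟩ := h'.res _ hg
      refine Or.inr (Or.inl ⟨_, stA_of_prod G (γ := c2) hβ ?_⟩)
      convert neg_mem (add_mem (p3 G.1 (p2 h1 h1)) (p3 hc2 (p2 G.1 G.1))) using 1
      rw [e]; ring
    rcases split h2 h' G hg (p3 G.1 (p2 h1 h1)) (by rw [e, hβ, map_zero]; ring) with
      hA | ⟨z', a, b, ν, hν, G', e'⟩
    · exact Or.inr (Or.inl ⟨_, hA⟩)
    · refine Or.inr (Or.inr ⟨c, y', z', G', a, b, ?_⟩)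
      convert p22 (p2 G.1 G.1) hν using 1
      rw [e']; ring
  · have cy : Ch m O' y :=
      ((s.charts h' g).resolve_left c).resolve_right (no_chart h' s hz)
    have h1 : x / y ∈ m' := by_contra fun h => c (cy.switch h' g.1 h)
    have hz' := div_mem h' s g.2.2.1 hz cy
    have G : Gen O' m' y (x / y) (z / y) := by
      simpa using s.gen h h' g.swap cy (c1 := 0) (c2 := 0) (by simpa using h1) (by simpa using hz')
    obtain ⟨c2, hc2⟩ := h'.res _ (cy.div_pow 4 _ hw)
    refine Or.inr (Or.inl ⟨_, stA_of_prod G (γ := c2) one_ne_zero ?_⟩)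
    convert neg_mem (add_mem (add_mem (p3 (cm m' β G.1) (p2 h1 h1))
      (h'.pow_le 2 (p22 (p2 (cm m' α G.1) h1) (p2 h1 h1)))) (p3 hc2 (p2 G.1 G.1))) using 1
    have := cy.2.1
    rw [hr, map_one]; field_simp; ring

omit [IsAlgClosed k] in
lemma StF.step (h : Pnt O m) (h' : Pnt O' m') (s : Succ O m O' m') (a : StF O m) :
    Reg O' m' ∨ ∃ x', StD O' m' x' := by
  obtain ⟨x, y, z, g, α, hα, t, ht, e⟩ := a
  have hz : z * z ∈ m ^ 3 := by
    rw [e]
    refine add_mem (add_mem ?_ (h.pow_le 2 ?_)) (h.pow_le 2 (p22 (p2 g.1 g.1) ht))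
    · convert p3 (cm m α g.1) (p2 g.1 g.1) using 1; ring
    · convert p22 (p2 g.1 g.2.1) (p2 g.2.1 g.2.1) using 1; ring
  by_cases c : Ch m O' x
  · obtain ⟨c1, h1⟩ := h'.res _ (c.2.2 y g.2.1)
    have hz' := div_mem h' s g.2.2.1 hz c
    have G : Gen O' m' x (y / x - algebraMap k L c1) (z / x) := by
      simpa using s.gen h h' g c (c2 := 0) h1 (by simpa using hz')
    have hm : ((y / x) ^ 3 + t / x ^ 2) * x ∈ m' :=
      h'.mul _ (add_mem (pow_mem (c.2.2 y g.2.1) 3) (c.div_pow 2 _ ht)) _ G.1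
    refine Or.inl (reg_of_unit h' G (add_mem (O'.algebraMap_mem _) (h'.le _ hm))
      (h'.not_mem hα hm) ?_)
    have := c.2.1
    field_simp
    linear_combination e
  · have cy : Ch m O' y :=
      ((s.charts h' g).resolve_left c).resolve_right (no_chart h' s hz)
    have h1 : x / y ∈ m' := by_contra fun h => c (cy.switch h' g.1 h)
    have hz' := div_mem h' s g.2.2.1 hz cy
    have G : Gen O' m' y (x / y) (z / y) := by
      simpa using s.gen h h' g.swap cy (c1 := 0) (c2 := 0) (by simpa using h1) (by simpa using hz')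
    refine Or.inr ⟨_, _, _, G.swap, 0, 0, ?_⟩
    convert add_mem (p22 (p2 (cm m' α G.1) h1) (p2 h1 h1))
      (h'.om 3 (cy.div_pow 2 _ ht) (p22 (p2 h1 h1) (p2 G.1 G.1))) using 1
    have := cy.2.1
    rw [map_zero]; field_simp
    linear_combination y * e

lemma StE.step (h2 : (2 : k) ≠ 0) (h : Pnt O m) (h' : Pnt O' m') (s : Succ O m O' m')
    (hi : ∀ z ∈ m', z * z ∈ m' ^ 4 → z ∈ m' ^ 2) (a : StE O m) :
    Reg O' m' ∨ (∃ x', StA O' m' x') ∨ (∃ x', StD O' m' x') ∨ StF O' m' := by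
  obtain ⟨x, y, z, g, hw⟩ := a
  have hz : z * z ∈ m ^ 3 := by
    convert add_mem (h.pow_le 2 hw) (p3 g.2.1 (p2 g.2.1 g.2.1)) using 1; ring
  set r := z * z - y * y * y with hr
  by_cases cy : Ch m O' y
  · obtain ⟨c1, h1⟩ := h'.res _ (cy.2.2 x g.1)
    have hz' := div_mem h' s g.2.2.1 hz cy
    have G : Gen O' m' y (x / y - algebraMap k L c1) (z / y) := by
      simpa using s.gen h h' g.swap cy (c2 := 0) h1 (by simpa using hz')
    have hm : r / y ^ 4 * y ∈ m' := h'.mul _ (cy.div_pow 4 _ hw) _ G.1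
    refine Or.inl (reg_of_unit h' G (add_mem (O'.algebraMap_mem _) (h'.le _ hm))
      (h'.not_mem one_ne_zero hm) ?_)
    have := cy.2.1
    rw [hr, map_one]; field_simp; ring
  have c : Ch m O' x := (s.charts h' g).resolve_right fun h => h.elim cy (no_chart h' s hz)
  have h1 : y / x ∈ m' := by_contra fun h => cy (c.switch h' g.2.1 h)
  have hz' := div_mem h' s g.2.2.1 hz c
  have G : Gen O' m' x (y / x) (z / x) := by
    simpa using s.gen h h' g c (c1 := 0) (c2 := 0) (by simpa using h1) (by simpa using hz')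
  have h4 : x * (y / x) * (y / x) * (y / x) ∈ m' ^ 4 := by
    convert p22 (p2 G.1 h1) (p2 h1 h1) using 1; ring
  rcases split h2 h' G (c.div_pow 4 _ hw) (h'.pow_le 2 h4) (by
    have := c.2.1
    rw [hr]; field_simp; ring) with hA | ⟨z', a, b, ν, hν, G', e'⟩
  · exact Or.inr (Or.inl ⟨_, hA⟩)
  generalize y / x = y' at *
  by_cases hb : b = 0
  · by_cases ha : a = 0
    · have : z' ∈ m' ^ 2 := hi z' G'.2.2.1 (by
        convert add_mem h4 (p22 (p2 G.1 G.1) hν) using 1
        rw [e', ha, hb, map_zero]; ring)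
      exact Or.inl ((G'.nak h' (z' := 0) (by simpa using this)).reg
        ⟨0, zero_mem _, 0, zero_mem _, by ring⟩)
    · exact Or.inr (Or.inr (Or.inr ⟨x, y', z', G', a, ha, ν, hν, by rw [e', hb, map_zero]; ring⟩))
  · have h5 : algebraMap k L b ≠ 0 := by simpa using hb
    refine Or.inr (Or.inr (Or.inl ⟨algebraMap k L a * x + algebraMap k L b * y', x, z',
      G'.change (add_mem (cm m' _ G.1) (cm m' _ h1)) G.1 G'.2.2.1
      ⟨0, zero_mem _, 1, one_mem _, 0, zero_mem _, by ring⟩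
      ⟨_, O'.algebraMap_mem b⁻¹, _, O'.algebraMap_mem (-(a / b)), 0, zero_mem _, ?_⟩
      ⟨0, zero_mem _, 0, zero_mem _, 1, one_mem _, by ring⟩, 0, 0, ?_⟩))
    · simp only [map_neg, map_inv₀, map_div₀]; field_simp; ring
    · convert add_mem h4 (p22 (p2 G.1 G.1) hν) using 1
      rw [e', map_zero]; ring

end Pool.Agent.Lib.MP_5f81cf_ag.Full.DP
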