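import Pool.Agent.Lib.MP_5f81cf_ag.FBlue2
import Pool.Agent.Lib.MP_e06174_ag.Gal

/-! Points of models of a surface, quadratic transforms, and related definitions. -/

namespace Pool.Agent.Lib.MP_5f81cf_ag.Full.Res

open Pool.Agent.Lib.MP_e06174_ag

section defs

variable {k L : Type} [Field k] [Field L] [Algebra k L]

/-- The span of the nonunits of `O`. -/
def mx (O : Subalgebra k L) : Submodule k L :=
  Submodule.span k {f | f ∈ O ∧ (f = 0 ∨ f⁻¹ ∉ O)}

/-- The `O`-module generated by `S`. -/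
def gen (O : Subalgebra k L) (S : Set L) : Submodule k L :=
  Subalgebra.toSubmodule O * Submodule.span k S

/-- The `n`-th power of the maximal ideal. -/
def mp (O : Subalgebra k L) (n : ℕ) : Submodule k L := Subalgebra.toSubmodule O * mx O ^ n

/-- `M` is an `O`-module. -/
def IsMod (O : Subalgebra k L) (M : Submodule k L) : Prop := ∀ a ∈ O, ∀ x ∈ M, a * x ∈ M

/-- `f` is a unit of `O`. -/
def Un (O : Subalgebra k L) (f : L) : Prop := f ∈ O ∧ f ≠ 0 ∧ f⁻¹ ∈ O

/-- The local ring of a closed point of a model of the surface. -/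
structure IsLoc (O : Subalgebra k L) : Prop where
  ess : Algebra.EssFiniteType k L
  dim : Algebra.trdeg k L = 2
  fg : ∃ A : Subalgebra k L, A.FG ∧ A ≤ O ∧ ∀ f ∈ O, ∃ s ∈ A, Un O s ∧ f * s ∈ A
  frac : ∀ f : L, ∃ s ∈ O, s ≠ 0 ∧ f * s ∈ O
  loc : ∀ f ∈ mx O, f = 0 ∨ f⁻¹ ∉ O
  res : ∀ f ∈ O, ∃ c : k, f - algebraMap k L c ∈ mx O

/-- A normal point. -/
structure IsPt (O : Subalgebra k L) : Prop extends IsLoc O where
  normal : ∀ f : L, IsIntegral O f → f ∈ O

/-- A regular point with parameters `x, y`. -/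
structure IsReg (O : Subalgebra k L) (x y : L) : Prop extends IsPt O where
  par : mx O = gen O {x, y}

/-- `V` dominates `O`. -/
def Dom (V : ValuationSubring L) (O : Subalgebra k L) : Prop :=
  (∀ f ∈ O, f ∈ V) ∧ ∀ f ∈ mx O, f ∈ V.nonunits

variable (k) in
/-- The residue field of `V` is `k`. -/
def ResK (V : ValuationSubring L) : Prop :=
  (∀ c : k, algebraMap k L c ∈ V) ∧ ∀ f ∈ V, ∃ c : k, f - algebraMap k L c ∈ V.nonunits

/-- The valuation ring of `F` contains `O`. -/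
def Cont (O : Subalgebra k L) (F : Place k L) : Prop := ∀ f ∈ O, F.Ge 0 f

/-- `F` dominates `O`. -/
def DomP (O : Subalgebra k L) (F : Place k L) : Prop := Cont O F ∧ ∀ f ∈ mx O, F.Ge 1 f

/-- `F` is a curve through the point `O`. -/
def Ht1 (O : Subalgebra k L) (F : Place k L) : Prop := Cont O F ∧ ∃ f ∈ mx O, ¬ F.Ge 1 f

/-- `z` has a nonconstant residue. -/
def Dic (F : Place k L) (z : L) : Prop := F.Ge 0 z ∧ ∀ c : k, ¬ F.Ge 1 (z - algebraMap k L c)

/-- The residue of `z` is not a `p`-th power. -/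
def NotPow (p : ℕ) (F : Place k L) (z : L) : Prop :=
  F.Ge 0 z ∧ ∀ w : L, F.Ge 0 w → ¬ F.Ge 1 (z - w ^ p)

/-- `F` is divisorial. -/
def Div (F : Place k L) : Prop := ∃ z, Dic F z

/-- `b` has the least value in the maximal ideal. -/
def IsMin (O : Subalgebra k L) (V : ValuationSubring L) (b : L) : Prop :=
  b ∈ mx O ∧ b ≠ 0 ∧ ∀ g ∈ mx O, g / b ∈ V

/-- An affine chart of the blow-up. -/
def chart (O : Subalgebra k L) (b : L) : Subalgebra k L :=
  Algebra.adjoin k ((O : Set L) ∪ {f | ∃ g ∈ mx O, f = g / b})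

/-- Localisation at the centre of `V`. -/
def loc (A : Subalgebra k L) (V : ValuationSubring L) : Subalgebra k L where
  carrier := {f | ∃ s ∈ A, s ≠ 0 ∧ s⁻¹ ∈ V ∧ f * s ∈ A}
  mul_mem' := by
    rintro f g ⟨s, hs, hs0, hsV, hf⟩ ⟨t, ht, ht0, htV, hg⟩
    refine ⟨s * t, mul_mem hs ht, mul_ne_zero hs0 ht0, by rw [mul_inv]; exact mul_mem hsV htV, ?_⟩
    rw [mul_mul_mul_comm]; exact mul_mem hf hg
  add_mem' := by
    rintro f g ⟨s, hs, hs0, hsV, hf⟩ ⟨t, ht, ht0, htV, hg⟩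
    refine ⟨s * t, mul_mem hs ht, mul_ne_zero hs0 ht0, by rw [mul_inv]; exact mul_mem hsV htV, ?_⟩
    rw [show (f + g) * (s * t) = f * s * t + g * t * s by ring]
    exact add_mem (mul_mem hf ht) (mul_mem hg hs)
  algebraMap_mem' := fun c => ⟨1, one_mem _, one_ne_zero, by rw [inv_one]; exact one_mem _,
    by rw [mul_one]; exact A.algebraMap_mem c⟩

open Classical in
/-- The quadratic transform of `O` along `V`. -/
noncomputable def qt (O : Subalgebra k L) (V : ValuationSubring L) : Subalgebra k L :=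
  if h : ∃ b, IsMin O V b then loc (chart O h.choose) V else O

/-- The chain of quadratic transforms of `O` along `V`. -/
noncomputable def ch (O : Subalgebra k L) (V : ValuationSubring L) : ℕ → Subalgebra k L
  | 0 => O
  | n + 1 => qt (ch O V n) V

/-- The Jacobian of two functions. -/
noncomputable def J (u : Fin 2 → L) (k : Type) [Field k] [Algebra k L] (a b : L) : L :=
  jac k u ![a, b]

/-- The canonical module: `f du` is regular along all curves through the point. -/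
def om (u : Fin 2 → L) (O : Subalgebra k L) : Submodule k L where
  carrier := {f | ∀ F : Place k L, Ht1 O F → F.Ge (1 - lam k u F) f}
  add_mem' := fun hf hg F hF => (hf F hF).add (hg F hF)
  zero_mem' := fun _ _ => Place.ge_zero _
  smul_mem' := fun c _ hf F hF => (hf F hF).smul c

/-- Pseudo-rationality. -/
def PR (u : Fin 2 → L) (O : Subalgebra k L) : Prop :=
  ∀ F : Place k L, Div F → Cont O F → ∀ f ∈ om u O, F.Ge (1 - lam k u F) f

/-- `η` generates the canonical module. -/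
def Gor (u : Fin 2 → L) (O : Subalgebra k L) (η : L) : Prop :=
  η ≠ 0 ∧ ∀ f, f ∈ om u O ↔ f / η ∈ O

/-- `(a, b)` is a reduction of the maximal ideal. -/
structure Red (O : Subalgebra k L) (a b : L) : Prop where
  a_mem : a ∈ mx O
  b_mem : b ∈ mx O
  a_ne : a ≠ 0
  b_ne : b ≠ 0
  val : ∀ W : ValuationSubring L, (∀ f ∈ O, f ∈ W) → ∀ g ∈ mx O, g / a ∈ W ∨ g / b ∈ W

/-- `R` is the set of Rees valuations, and the powers of the maximal ideal are complete. -/
structure Rees (O : Subalgebra k L) (R : Finset (Place k L)) (a b : L) : Prop where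
  a_mem : a ∈ mx O
  b_mem : b ∈ mx O
  b_ne : b ≠ 0
  dom : ∀ F ∈ R, DomP O F ∧ Dic F (a / b) ∧ ∀ g ∈ mx O, F.Ge (F.ord b) g
  pow : ∀ n : ℕ, ∀ g ∈ O, (∀ F ∈ R, F.Ge (n * F.ord b) g) → g ∈ mp O n
  sq : mx O ^ 2 ≤ Submodule.span k {a, b} * mx O

/-- The canonical module generates the canonical module of the blow-up. -/
def OG (u : Fin 2 → L) (O : Subalgebra k L) (R : Finset (Place k L)) (b : L) : Prop :=
  ∀ n : ℕ, ∀ f ∈ om u O, (∀ F ∈ R, F.Ge (n * F.ord b + 1 - lam k u F) f) →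
    f ∈ mx O ^ n * om u O

/-- A finite projection of the point `O` to the regular point `B`. -/
structure Proj {K₀ : Type} [Field K₀] [Algebra k K₀] [Algebra K₀ L] (B : Subalgebra k K₀)
    (a b : K₀) (O : Subalgebra k L) : Prop where
  reg : IsReg B a b
  pt : IsPt O
  le : ∀ f ∈ B, algebraMap K₀ L f ∈ O
  red : Red O (algebraMap K₀ L a) (algebraMap K₀ L b)
  loc : ∀ f ∈ O, ∃ s, IsIntegral B s ∧ Un O s ∧ IsIntegral B (f * s)

/-- A double point over the parameters `x, y`. -/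
def DP (O : Subalgebra k L) (x y : L) : Prop :=
  ∃ z, mx O = gen O {x, y, z} ∧
    z ^ 2 ∈ Subalgebra.toSubmodule O * Submodule.span k {x, y} ^ 2

/-- `g` is a unit times a monomial. -/
def Mono (B : Subalgebra k L) (x y g : L) : Prop :=
  ∃ α β : ℤ, Un B (g / (x ^ α * y ^ β))

end defs

section basic

variable {k L : Type} [Field k] [Field L] [Algebra k L] {O : Subalgebra k L}
  {V : ValuationSubring L} {F : Place k L} {f g a b x y z : L}

lemma mx_le (hf : f ∈ mx O) : f ∈ O := by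
  have : mx O ≤ Subalgebra.toSubmodule O := Submodule.span_le.2 fun _ h => h.1
  exact this hf

lemma mem_mx_of (hf : f ∈ O) (h : f = 0 ∨ f⁻¹ ∉ O) : f ∈ mx O :=
  Submodule.subset_span ⟨hf, h⟩

lemma IsLoc.mem_mx (hO : IsLoc O) : f ∈ mx O ↔ f ∈ O ∧ (f = 0 ∨ f⁻¹ ∉ O) :=
  ⟨fun h => ⟨mx_le h, hO.loc f h⟩, fun h => mem_mx_of h.1 h.2⟩

lemma un_or_mx (hf : f ∈ O) : Un O f ∨ f ∈ mx O := by
  by_cases h : f = 0 ∨ f⁻¹ ∉ O
  · exact Or.inr (mem_mx_of hf h)
  · push Not at h; exact Or.inl ⟨hf, h.1, h.2⟩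

lemma IsLoc.not_un (hO : IsLoc O) (hf : f ∈ mx O) : ¬ Un O f := fun h =>
  (hO.loc f hf).elim h.2.1 fun h' => h' h.2.2

lemma IsLoc.one_not_mem (hO : IsLoc O) : (1 : L) ∉ mx O := fun h =>
  hO.not_un h ⟨one_mem _, one_ne_zero, by rw [inv_one]; exact one_mem _⟩

lemma un_one : Un O 1 := ⟨one_mem _, one_ne_zero, by rw [inv_one]; exact one_mem _⟩

lemma Un.mul (hf : Un O f) (hg : Un O g) : Un O (f * g) :=
  ⟨mul_mem hf.1 hg.1, mul_ne_zero hf.2.1 hg.2.1, by rw [mul_inv]; exact mul_mem hf.2.2 hg.2.2⟩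

lemma Un.inv (hf : Un O f) : Un O f⁻¹ :=
  ⟨hf.2.2, inv_ne_zero hf.2.1, by rw [inv_inv]; exact hf.1⟩

lemma Un.pow (hf : Un O f) (n : ℕ) : Un O (f ^ n) := by
  induction n with
  | zero => rw [pow_zero]; exact un_one
  | succ n ih => rw [pow_succ]; exact ih.mul hf

lemma Un.prod {ι : Type*} {s : Finset ι} {e : ι → L} (h : ∀ i ∈ s, Un O (e i)) :
    Un O (∏ i ∈ s, e i) :=
  Finset.prod_induction e (Un O) (fun _ _ => Un.mul) un_one h

lemma Un.mono {O' : Subalgebra k L} (hf : Un O f) (h : O ≤ O') : Un O' f :=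
  ⟨h hf.1, hf.2.1, h hf.2.2⟩

lemma un_const {c : k} (hc : c ≠ 0) : Un O (algebraMap k L c) :=
  ⟨O.algebraMap_mem c, by simpa using hc, by rw [← map_inv₀]; exact O.algebraMap_mem _⟩

lemma Un.ord (hf : Un O f) (hF : Cont O F) : F.ord f = 0 := by
  have h1 := (hF _ hf.1).le hf.2.1
  have h2 := (hF _ hf.2.2).le (inv_ne_zero hf.2.1)
  rw [Place.ord_inv] at h2; omega

lemma Un.not_ge (hf : Un O f) (hF : Cont O F) : ¬ F.Ge 1 f :=
  Place.not_ge_iff.2 ⟨hf.2.1, by rw [hf.ord hF]; omega⟩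

lemma Cont.mem_mx (hF : Cont O F) (hf : f ∈ O) (h : F.Ge 1 f) : f ∈ mx O :=
  (un_or_mx hf).resolve_left fun hu => hu.not_ge hF h

lemma IsLoc.isMod_mx (hO : IsLoc O) : IsMod O (mx O) := by
  intro a ha x hx
  refine (un_or_mx (mul_mem ha (mx_le hx))).resolve_left fun hu => hO.not_un hx ?_
  have hx0 : x ≠ 0 := right_ne_zero_of_mul hu.2.1
  have ha0 : a ≠ 0 := left_ne_zero_of_mul hu.2.1
  refine ⟨mx_le hx, hx0, ?_⟩
  rw [show x⁻¹ = a * (a * x)⁻¹ by field_simp]
  exact mul_mem ha hu.2.2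

lemma IsLoc.un_add (hO : IsLoc O) (hf : Un O f) (hg : g ∈ mx O) : Un O (f + g) :=
  (un_or_mx (add_mem hf.1 (mx_le hg))).resolve_right fun h =>
    hO.not_un (by simpa using sub_mem h hg) hf

lemma isMod_mul (M : Submodule k L) : IsMod O (Subalgebra.toSubmodule O * M) := by
  intro a ha x hx
  refine Submodule.mul_induction_on hx (fun m hm n hn => ?_) (fun x y hx hy => ?_)
  · rw [← mul_assoc]; exact Submodule.mul_mem_mul (mul_mem ha hm : a * m ∈ O) hn
  · rw [mul_add]; exact add_mem hx hy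

lemma IsMod.mul_left {M : Submodule k L} (hM : IsMod O M) (N : Submodule k L) :
    IsMod O (M * N) := by
  intro a ha x hx
  refine Submodule.mul_induction_on hx (fun m hm n hn => ?_) (fun x y hx hy => ?_)
  · rw [← mul_assoc]; exact Submodule.mul_mem_mul (hM a ha m hm) hn
  · rw [mul_add]; exact add_mem hx hy

lemma IsMod.mul_right {N : Submodule k L} (hN : IsMod O N) (M : Submodule k L) :
    IsMod O (M * N) := by rw [mul_comm]; exact hN.mul_left M

lemma IsMod.sup {M N : Submodule k L} (hM : IsMod O M) (hN : IsMod O N) : IsMod O (M ⊔ N) := by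
  intro a ha x hx
  obtain ⟨m, hm, n, hn, rfl⟩ := Submodule.mem_sup.1 hx
  rw [mul_add]
  exact add_mem (Submodule.mem_sup_left (hM a ha m hm)) (Submodule.mem_sup_right (hN a ha n hn))

lemma le_mul_self (M : Submodule k L) : M ≤ Subalgebra.toSubmodule O * M := fun x hx => by
  simpa using Submodule.mul_mem_mul (show (1 : L) ∈ Subalgebra.toSubmodule O from one_mem O) hx

lemma IsMod.mul_le {M N : Submodule k L} (hN : IsMod O N) (h : M ≤ N) :
    Subalgebra.toSubmodule O * M ≤ N :=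
  Submodule.mul_le.2 fun a ha x hx => hN a ha x (h hx)

lemma IsMod.eq {M : Submodule k L} (hM : IsMod O M) : Subalgebra.toSubmodule O * M = M :=
  le_antisymm (hM.mul_le le_rfl) (le_mul_self M)

lemma isMod_gen (S : Set L) : IsMod O (gen O S) := isMod_mul _

lemma isMod_mp (n : ℕ) : IsMod O (mp O n) := isMod_mul _

lemma isMod_om (u : Fin 2 → L) : IsMod O (om u O) := fun a ha _ hx F hF => by
  simpa using (hF.1 a ha).mul (hx F hF)

lemma subset_gen {S : Set L} (h : f ∈ S) : f ∈ gen O S :=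
  le_mul_self _ (Submodule.subset_span h)

lemma gen_le {S : Set L} {N : Submodule k L} (hN : IsMod O N) (h : ∀ f ∈ S, f ∈ N) :
    gen O S ≤ N := hN.mul_le (Submodule.span_le.2 h)

lemma gen_insert (S : Set L) : f ∈ gen O (insert x S) ↔ ∃ c ∈ O, ∃ g ∈ gen O S, f = c * x + g := by
  constructor
  · intro h
    let N : Submodule k L :=
      { carrier := {f | ∃ c ∈ O, ∃ g ∈ gen O S, f = c * x + g}
        add_mem' := by
          rintro _ _ ⟨c, hc, g, hg, rfl⟩ ⟨c', hc', g', hg', rfl⟩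
          exact ⟨c + c', add_mem hc hc', g + g', add_mem hg hg', by ring⟩
        zero_mem' := ⟨0, zero_mem _, 0, zero_mem _, by ring⟩
        smul_mem' := by
          rintro r _ ⟨c, hc, g, hg, rfl⟩
          exact ⟨r • c, O.smul_mem hc r, r • g, Submodule.smul_mem _ r hg, by
            rw [smul_add, smul_mul_assoc]⟩ }
    refine gen_le (N := N) ?_ ?_ h
    · rintro a ha _ ⟨c, hc, g, hg, rfl⟩
      exact ⟨a * c, mul_mem ha hc, a * g, isMod_gen S a ha g hg, by ring⟩
    · rintro g (rfl | hg)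
      · exact ⟨1, one_mem _, 0, zero_mem _, by ring⟩
      · exact ⟨0, zero_mem _, g, subset_gen hg, by ring⟩
  · rintro ⟨c, hc, g, hg, rfl⟩
    exact add_mem (isMod_gen _ c hc x (subset_gen (Set.mem_insert _ _)))
      (gen_le (isMod_gen _) (fun f hf => subset_gen (Set.mem_insert_of_mem _ hf)) hg)

lemma gen_empty : gen O ∅ = ⊥ := by simp [gen]

lemma mem_gen_one : f ∈ gen O {x} ↔ ∃ c ∈ O, f = c * x := by
  rw [← insert_empty_eq, gen_insert, gen_empty]; simp

lemma mem_gen_two : f ∈ gen O {x, y} ↔ ∃ c ∈ O, ∃ d ∈ O, f = c * x + d * y := by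
  simp only [gen_insert, mem_gen_one]
  constructor
  · rintro ⟨c, hc, _, ⟨d, hd, rfl⟩, rfl⟩; exact ⟨c, hc, d, hd, rfl⟩
  · rintro ⟨c, hc, d, hd, rfl⟩; exact ⟨c, hc, _, ⟨d, hd, rfl⟩, rfl⟩

lemma mem_gen_three :
    f ∈ gen O {x, y, z} ↔ ∃ c ∈ O, ∃ d ∈ O, ∃ e ∈ O, f = c * x + d * y + e * z := by
  rw [gen_insert]
  simp only [mem_gen_two]
  constructor
  · rintro ⟨c, hc, _, ⟨d, hd, e, he, rfl⟩, rfl⟩; exact ⟨c, hc, d, hd, e, he, by ring⟩
  · rintro ⟨c, hc, d, hd, e, he, rfl⟩; exact ⟨c, hc, _, ⟨d, hd, e, he, rfl⟩, by ring⟩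

lemma mem_gen_finset {S : Finset L} :
    f ∈ gen O S ↔ ∃ c : L → L, (∀ g ∈ S, c g ∈ O) ∧ f = ∑ g ∈ S, c g * g := by
  classical
  induction S using Finset.induction_on generalizing f with
  | empty => simp [gen_empty]
  | insert x S hx ih =>
    rw [Finset.coe_insert, gen_insert]
    constructor
    · rintro ⟨c, hc, g, hg, rfl⟩
      obtain ⟨d, hd, rfl⟩ := ih.1 hg
      refine ⟨Function.update d x c, fun g hg => ?_, ?_⟩
      · by_cases h : g = x
        · subst h; simpa using hc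
        · rw [Function.update_of_ne h]; exact hd g ((Finset.mem_insert.1 hg).resolve_left h)
      · rw [Finset.sum_insert hx, Function.update_self]
        congr 1
        exact Finset.sum_congr rfl fun g hg => by
          rw [Function.update_of_ne (ne_of_mem_of_not_mem hg hx)]
    · rintro ⟨c, hc, rfl⟩
      rw [Finset.sum_insert hx]
      exact ⟨_, hc x (Finset.mem_insert_self _ _), _,
        ih.2 ⟨c, fun g hg => hc g (Finset.mem_insert_of_mem hg), rfl⟩, rfl⟩

lemma mem_mp_zero : f ∈ mp O 0 ↔ f ∈ O := by rw [mp, pow_zero, mul_one]; rfl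

lemma IsLoc.mp_succ (hO : IsLoc O) (n : ℕ) : mp O (n + 1) = mx O ^ (n + 1) := by
  rw [mp, pow_succ']; exact (hO.isMod_mx.mul_left _).eq

lemma IsLoc.mp_one (hO : IsLoc O) : mp O 1 = mx O := by rw [hO.mp_succ, zero_add, pow_one]

lemma mul_mem_mp {m n : ℕ} (hf : f ∈ mp O m) (hg : g ∈ mp O n) : f * g ∈ mp O (m + n) := by
  have h : mp O m * mp O n = mp O (m + n) := by
    rw [mp, mp, mp, mul_mul_mul_comm, ← pow_add,
      IsMod.eq (O := O) (M := Subalgebra.toSubmodule O) fun _ ha _ hx => O.mul_mem ha hx]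
  rw [← h]; exact Submodule.mul_mem_mul hf hg

lemma mx_le_mp (hf : f ∈ mx O) : f ∈ mp O 1 := le_mul_self _ (by rwa [pow_one])

lemma pow_mem_mp (hf : f ∈ mx O) (n : ℕ) : f ^ n ∈ mp O n :=
  le_mul_self _ (Submodule.pow_mem_pow _ hf n)

lemma mp_le (n : ℕ) (hf : f ∈ mp O n) : f ∈ O := by
  induction n generalizing f with
  | zero => exact mem_mp_zero.1 hf
  | succ n ih =>
    rw [mp, pow_succ, ← mul_assoc] at hf
    refine Submodule.mul_induction_on hf (fun a ha b hb => mul_mem (ih ha) (mx_le hb))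
      fun _ _ => add_mem

lemma mp_succ_le (n : ℕ) (hf : f ∈ mp O (n + 1)) : f ∈ mp O n := by
  rw [mp, pow_succ, ← mul_assoc] at hf
  refine Submodule.mul_induction_on hf (fun a ha b hb => ?_) fun _ _ => add_mem
  rw [mul_comm]; exact isMod_mp n b (mx_le hb) a ha

/-- Orders of elements of a product of submodules. -/
lemma ge_of_mem_mul {M N : Submodule k L} {m n : ℤ} (hM : ∀ f ∈ M, F.Ge m f)
    (hN : ∀ f ∈ N, F.Ge n f) (hf : f ∈ M * N) : F.Ge (m + n) f :=
  Submodule.mul_induction_on hf (fun a ha b hb => (hM a ha).mul (hN b hb)) fun _ _ => Place.Ge.add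

lemma ge_of_mem_pow {M : Submodule k L} {m : ℤ} (hM : ∀ f ∈ M, F.Ge m f) (n : ℕ)
    (hf : f ∈ M ^ n) : F.Ge (n * m) f := by
  induction n generalizing f with
  | zero =>
    rw [pow_zero, Submodule.mem_one] at hf
    obtain ⟨c, rfl⟩ := hf
    simpa using Place.ge_const c
  | succ n ih =>
    rw [pow_succ] at hf
    simpa [add_mul] using ge_of_mem_mul (fun f hf => ih hf) hM hf

lemma ge_of_mem_span {S : Set L} {m : ℤ} (h : ∀ f ∈ S, F.Ge m f)
    (hf : f ∈ Submodule.span k S) : F.Ge m f := by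
  induction hf using Submodule.span_induction with
  | mem x hx => exact h x hx
  | zero => exact Place.ge_zero _
  | add x y _ _ hx hy => exact hx.add hy
  | smul c x _ hx => exact hx.smul c

lemma ge_of_mem_gen {S : Set L} {m : ℤ} (hF : Cont O F) (h : ∀ f ∈ S, F.Ge m f)
    (hf : f ∈ gen O S) : F.Ge m f := by
  simpa using ge_of_mem_mul (M := Subalgebra.toSubmodule O) (m := 0) hF
    (fun f hf => ge_of_mem_span h hf) hf

lemma ge_of_mem_mp {m : ℤ} (hF : Cont O F) (h : ∀ f ∈ mx O, F.Ge m f) {n : ℕ}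
    (hf : f ∈ mp O n) : F.Ge (n * m) f := by
  simpa using ge_of_mem_mul (M := Subalgebra.toSubmodule O) (m := 0) hF
    (fun f hf => ge_of_mem_pow h n hf) hf

lemma Cont.domP_or (hF : Cont O F) : DomP O F ∨ Ht1 O F := by
  by_cases h : ∀ f ∈ mx O, F.Ge 1 f
  · exact Or.inl ⟨hF, h⟩
  · push Not at h; exact Or.inr ⟨hF, h⟩

lemma Ht1.not_domP (h : Ht1 O F) : ¬ DomP O F := fun h' =>
  let ⟨f, hf, hf'⟩ := h.2; hf' (h'.2 f hf)

lemma IsLoc.dic (hO : IsLoc O) (hF : Cont O F) (hf : f ∈ mx O) (h : ¬ F.Ge 1 f) : Dic F f := by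
  refine ⟨hF f (mx_le hf), fun c => ?_⟩
  by_cases hc : c = 0
  · simpa [hc] using h
  · have := (hO.un_add (un_const (neg_ne_zero.2 hc)) hf).not_ge hF
    rwa [map_neg, neg_add_eq_sub] at this

lemma IsLoc.div (hO : IsLoc O) (hF : Ht1 O F) : Div F :=
  let ⟨_, hf, h⟩ := hF.2; ⟨_, hO.dic hF.1 hf h⟩

lemma Dic.ord (h : Dic F z) : z ≠ 0 ∧ F.ord z = 0 := by
  have h1 := h.2 0
  rw [map_zero, sub_zero, Place.not_ge_iff] at h1
  have := h.1.le h1.1
  exact ⟨h1.1, by omega⟩

lemma domP_iff : DomP O F ↔ Dom F.O O := by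
  simp only [DomP, Dom, Cont, Place.mem_O, ValuationSubring.mem_nonunits_iff_or]
  refine and_congr_right fun h => forall₂_congr fun f _ => ?_
  by_cases h0 : f = 0
  · simp [h0]
  · rw [Place.ge_iff h0, Place.ge_iff (inv_ne_zero h0), Place.ord_inv]; simp [h0]; omega

lemma Dom.inv_mem (hV : Dom V O) (hf : f ∈ O) (h : f⁻¹ ∈ V) (h0 : f ≠ 0) : Un O f :=
  (un_or_mx hf).resolve_right fun hm =>
    ((V.mem_nonunits_iff_or).1 (hV.2 f hm)).elim h0 fun h' => h' h

lemma Dom.mem_mx (hV : Dom V O) (hf : f ∈ O) (h : f ∈ V.nonunits) : f ∈ mx O :=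
  mem_mx_of hf (((V.mem_nonunits_iff_or).1 h).imp_right fun h' h'' => h' (hV.1 _ h''))

lemma IsReg.swap (h : IsReg O x y) : IsReg O y x :=
  ⟨h.toIsPt, by rw [h.par, Set.pair_comm]⟩

lemma IsReg.x_mem (h : IsReg O x y) : x ∈ mx O := h.par ▸ subset_gen (by simp)

lemma IsReg.y_mem (h : IsReg O x y) : y ∈ mx O := h.swap.x_mem

lemma le_chart (b : L) : O ≤ chart O b := fun _ hf => Algebra.subset_adjoin (Or.inl hf)

lemma div_mem_chart (hg : g ∈ mx O) : g / b ∈ chart O b :=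
  Algebra.subset_adjoin (Or.inr ⟨g, hg, rfl⟩)

lemma le_loc (A : Subalgebra k L) (V : ValuationSubring L) : A ≤ loc A V := fun f hf =>
  ⟨1, one_mem _, one_ne_zero, by rw [inv_one]; exact one_mem _, by rwa [mul_one]⟩

lemma mem_loc {A : Subalgebra k L} :
    f ∈ loc A V ↔ ∃ s ∈ A, s ≠ 0 ∧ s⁻¹ ∈ V ∧ f * s ∈ A := Iff.rfl

lemma mem_om {u : Fin 2 → L} :
    f ∈ om u O ↔ ∀ F : Place k L, Ht1 O F → F.Ge (1 - lam k u F) f := Iff.rfl

lemma ch_add (O : Subalgebra k L) (V : ValuationSubring L) (i j : ℕ) :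
    ch O V (i + j) = ch (ch O V i) V j := by
  induction j with
  | zero => rfl
  | succ j ih => rw [← add_assoc, ch, ih, ch]

lemma J_eq (u : Fin 2 → L) (a b : L) :
    J u k a b = pd k u 0 a * pd k u 1 b - pd k u 1 a * pd k u 0 b := by
  simp [J, jac, Matrix.det_fin_two]

lemma J_swap (u : Fin 2 → L) (a b : L) : J u k a b = - J u k b a := by
  rw [J_eq, J_eq]; ring

lemma J_self (u : Fin 2 → L) (a : L) : J u k a a = 0 := by rw [J_eq]; ring

lemma J_add (u : Fin 2 → L) (a a' b : L) : J u k (a + a') b = J u k a b + J u k a' b := by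
  simp only [J_eq, map_add]; ring

lemma J_mul (u : Fin 2 → L) (a a' b : L) :
    J u k (a * a') b = a * J u k a' b + a' * J u k a b := by
  simp only [J_eq, Derivation.leibniz, smul_eq_mul]; ring

lemma J_const (u : Fin 2 → L) (c : k) (b : L) : J u k (algebraMap k L c) b = 0 := by
  simp [J_eq]

end basic

end Pool.Agent.Lib.MP_5f81cf_ag.Full.Res
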