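import Pool.Agent.Lib.MP_5f81cf_ag.ResBlue

/-! The surface block from the selection of the exceptional curve. -/

namespace Pool.Agent.Lib.MP_5f81cf_ag.Full.Res

open Pool.Agent.Lib.MP_e06174_ag

section

variable {k L : Type} [Field k] [Field L] [Algebra k L] {B : Subalgebra k L} {x y f g : L}

lemma Mono.mul (hx : x ≠ 0) (hy : y ≠ 0) (hf : Mono B x y f) (hg : Mono B x y g) :
    Mono B x y (f * g) := by
  obtain ⟨α, β, h⟩ := hf
  obtain ⟨α', β', h'⟩ := hg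
  refine ⟨α + α', β + β', ?_⟩
  convert h.mul h' using 1
  rw [zpow_add₀ hx, zpow_add₀ hy]
  field_simp

lemma Mono.pow (hx : x ≠ 0) (hy : y ≠ 0) (hf : Mono B x y f) (n : ℕ) : Mono B x y (f ^ n) := by
  induction n with
  | zero => exact ⟨0, 0, by simpa using un_one⟩
  | succ n ih => rw [pow_succ]; exact ih.mul hx hy hf

end

theorem st_RES_of {k : Type} [Field k] [IsAlgClosed k] {p : ℕ} [Fact p.Prime] [CharP k p]
    (h : Lv12 k p) : St_RES k p := by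
  intro T L _ _ _ _ _ _ _ _ _ _ u y _ η N hu hη hN h1 h2
  obtain ⟨O, hO, hT, ⟨S₀, hS₀, hgen⟩, hdom, hcont⟩ := h.t0 y hu
  have := hO.ess
  have hA : ∀ F : Place k L, Div F → Cont O F → F.ord η < N * lam k u F := fun F hd hc =>
    let ⟨q, hq, hqy, _⟩ := hcont F hc
    h1 F q hq hqy ((h.rk.div_iff F).1 hd)
  have hPR : PR u O := by
    intro F hd hc f hf
    by_cases hf0 : f = 0
    · simp [hf0]
    have hm : f ^ N * η ∈ O := h.rh.hart hO _ fun H hH => by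
      obtain ⟨q, hq, hqy, hq1⟩ := hcont H hH.1
      exact ((hf H hH).pow N).mul' (Place.ge_of_le (h2 H q hq hqy (hq1 hH))) (by linarith)
    have h3 := (hc _ hm).le (mul_ne_zero (pow_ne_zero _ hf0) hη)
    rw [F.ord_mul (pow_ne_zero _ hf0) hη, Place.ord_pow] at h3
    have h4 := hA F hd hc
    have h5 : (0 : ℤ) < N * (F.ord f + lam k u F) := by linarith
    have h6 := (mul_pos_iff_of_pos_left (by exact_mod_cast hN)).1 h5
    exact Place.ge_of_le (by omega)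
  obtain ⟨E, hE, hEd, hsel⟩ := h.sel η N {s | s ≠ 0 ∧ ∃ t : T, s = algebraMap T L t} hu hO hPR hη
    hN hA (by rintro s ⟨hs, t, rfl⟩; exact ⟨hT t, hs⟩) (fun f hf => by
      obtain ⟨a, b, hb, rfl⟩ := IsFractionRing.div_surjective (A := T) f
      exact ⟨_, ⟨(div_ne_zero_iff.1 hf).1, a, rfl⟩, _,
        ⟨IsFractionRing.to_map_ne_zero_of_mem_nonZeroDivisors hb, b, rfl⟩, rfl⟩)
    ⟨S₀, fun s hs => hS₀ s hs, hgen⟩
  obtain ⟨ρ, hρ⟩ := h.jr hu hO hPR hE hEd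
  obtain ⟨z, hz0, hz⟩ := hρ.surj RatFunc.X
  obtain ⟨t, -, ht⟩ := E.exists_ord_eq_one
  have had : Adapt p E ρ t ![z] := ⟨hρ, ht, fun i => by fin_cases i; exact hz0, by
    convert h.bas.c2.pb_X using 1
    funext i; fin_cases i; exact hz⟩
  refine ⟨E, ρ, t, z, hdom E hE, had, hz, fun P => ?_⟩
  have htr : Algebra.trdeg k (RatFunc k) = 1 := by
    simpa using (h.bas.p1.res_ess (d := 1) (by simpa using hO.dim) hρ
      ((h.rk.div_iff E).1 hEd)).2
  obtain ⟨V, hV, hVE, hVm, hVn⟩ := h.rw.comp P hρ (h.rv.res1 P htr)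
  obtain ⟨B, x, y', H, g, hB, hOB, hVB, hBE, hx, hBH, hy, ⟨hg0, s, rfl⟩, hmg, hmη, hmJ, hlt⟩ :=
    hsel V hVE hV
  have hx0 : x ≠ 0 := (h.r1a.hx hB).1
  have hy0 : y' ≠ 0 := (h.r1a.hx hB.swap).1
  have hAE := hA E hEd hE.1
  have hHd : Div H := hB.toIsLoc.div hBH
  have hAH := hA H hHd fun f hf => hBH.1 f (hOB hf)
  have hHg := (hBH.1 _ (hOB (hT s))).le hg0
  have hEg : 0 < E.ord (algebraMap T L s) := by
    by_contra hc
    have := mul_nonneg (sub_pos.2 hAE).le hHg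
    nlinarith
  obtain ⟨a, ha⟩ := Int.eq_ofNat_of_zero_le hEg.le
  obtain ⟨b, hb⟩ := Int.eq_ofNat_of_zero_le (sub_pos.2 hAE).le
  refine ⟨a, s ^ b, by omega, ?_⟩
  have hout := h.out (f := η ^ a * algebraMap T L s ^ b) (m := a * N) (P := P) hu hB had hz hBE hx
    hBH hy (fun g hg => ((hVm g).1 (hVB.1 g hg)).2) ((hVn _).1 (hVB.2 _ hB.y_mem)).2
    ((hmη.pow hx0 hy0 a).mul hx0 hy0 (hmg.pow hx0 hy0 b)) hmJ (by
      rw [E.ord_mul (pow_ne_zero _ hη) (pow_ne_zero _ hg0), Place.ord_pow, Place.ord_pow, ← hb, ha]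
      push_cast; ring) (by
      rw [H.ord_mul (pow_ne_zero _ hη) (pow_ne_zero _ hg0), Place.ord_pow, Place.ord_pow, ← hb]
      rw [ha] at hlt
      push_cast; linarith)
  rw [map_pow]
  simpa using hout

end Pool.Agent.Lib.MP_5f81cf_ag.Full.Res
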