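import Pool.Agent.Lib.MP_5f81cf_ag.ResBlue

/-! The integral closure of a regular point is free. -/

namespace Pool.Agent.Lib.MP_5f81cf_ag.Full.Res

open Pool.Agent.Lib.MP_e06174_ag
open scoped TensorProduct nonZeroDivisors

namespace Free

variable {k K L : Type} [Field k] [Field K] [Algebra k K] [Field L] [Algebra K L]

lemma int_place {B : Subalgebra k K} {E : Place k K} (hE : Cont B E) {t : L}
    (ht : IsIntegral B t) : IsIntegral E.O t := by
  let φ : B →+* E.O :=
    (B.val.toRingHom).codRestrict E.O fun x => Place.mem_O.2 (hE x x.2)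
  exact IsIntegral.map_of_comp_eq φ (RingHom.id L) (RingHom.ext fun _ => rfl) ht

lemma int_of_all (hH : RH k) {B : Subalgebra k K} (hB : IsPt B) {r : L} (hr : IsIntegral K r)
    (h : ∀ E : Place k K, Ht1 B E → IsIntegral E.O r) : IsIntegral B r := by
  have hc : ∀ i, (minpoly K r).coeff i ∈ B := fun i => hH.hart hB _ fun E hE => by
    rw [minpoly.isIntegrallyClosed_eq_field_fractions' K (h E hE), Polynomial.coeff_map]
    exact Place.mem_O.1 ((minpoly E.O r).coeff i).2
  have hl : minpoly K r ∈ Polynomial.lifts (algebraMap B K) :=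
    (Polynomial.lifts_iff_coeff_lifts _).2 fun i => ⟨⟨_, hc i⟩, rfl⟩
  obtain ⟨q, hq, -, hm⟩ := Polynomial.lifts_and_natDegree_eq_and_monic hl (minpoly.monic hr)
  refine ⟨q, hm, ?_⟩
  rw [IsScalarTower.algebraMap_eq B K L, ← Polynomial.eval₂_map, hq]
  exact minpoly.aeval K r

lemma int_div {B : Subalgebra k K} {E : Place k K} (hE : Cont B E) {a : K} (ha : a ∈ B)
    (h1 : ¬ E.Ge 1 a) {t : L} (ht : IsIntegral B t) : IsIntegral E.O (t / algebraMap K L a) := by
  obtain ⟨h0, h2⟩ := Place.not_ge_iff.1 h1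
  have h3 : E.Ge 0 a⁻¹ := by
    have := (hE a ha).le h0
    rw [Place.ge_iff (inv_ne_zero h0), Place.ord_inv]; omega
  rw [div_eq_mul_inv, ← map_inv₀]
  exact (int_place hE ht).mul
    (isIntegral_algebraMap (R := E.O) (x := ⟨a⁻¹, Place.mem_O.2 h3⟩))

lemma depth [FiniteDimensional K L] (hH : RH k) {B : Subalgebra k K} {a b : K}
    (hB : IsReg B a b) (ha : a ≠ 0) (hb : b ≠ 0) {s t : L} (hs : IsIntegral B s)
    (ht : IsIntegral B t) (h : algebraMap K L a * s + algebraMap K L b * t = 0) :
    ∃ r : L, IsIntegral B r ∧ t = algebraMap K L a * r ∧ s = -(algebraMap K L b * r) := by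
  have ha' : algebraMap K L a ≠ 0 := by simpa using ha
  have hb' : algebraMap K L b ≠ 0 := by simpa using hb
  have e : t / algebraMap K L a = -s / algebraMap K L b := by
    field_simp
    linear_combination h
  refine ⟨t / algebraMap K L a, ?_, by field_simp, by rw [e]; field_simp⟩
  refine int_of_all hH hB.toIsPt (Algebra.IsIntegral.isIntegral _) fun E hE => ?_
  by_cases h1 : E.Ge 1 a
  · by_cases h2 : E.Ge 1 b
    · obtain ⟨f, hf, hf'⟩ := hE.2
      rw [hB.par] at hf
      refine absurd (ge_of_mem_gen hE.1 ?_ hf) hf'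
      rintro g (rfl | rfl)
      · exact h1
      · exact h2
    · rw [e]; exact int_div hE.1 (mx_le hB.y_mem) h2 hs.neg
  · exact int_div hE.1 (mx_le hB.x_mem) h1 ht

lemma inj {R M : Type} [CommRing R] [AddCommGroup M] [Module R M] (I : Ideal R) (a b : I)
    (hI : ∀ x : I, ∃ c d : R, x = c • a + d • b)
    (h : ∀ s t : M, (a : R) • s + (b : R) • t = 0 → ∃ r, t = (a : R) • r ∧ s = -((b : R) • r)) :
    Function.Injective (I.subtype.rTensor M) := by
  have hz : ∀ z : I ⊗[R] M, ∃ s t : M, z = a ⊗ₜ s + b ⊗ₜ t := by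
    intro z
    induction z using TensorProduct.induction_on with
    | zero => exact ⟨0, 0, by simp⟩
    | tmul x m =>
      obtain ⟨c, d, rfl⟩ := hI x
      exact ⟨c • m, d • m, by
        rw [TensorProduct.add_tmul, TensorProduct.smul_tmul, TensorProduct.smul_tmul]⟩
    | add x y hx hy =>
      obtain ⟨s, t, rfl⟩ := hx
      obtain ⟨s', t', rfl⟩ := hy
      exact ⟨s + s', t + t', by simp only [TensorProduct.tmul_add]; abel⟩
  rw [injective_iff_map_eq_zero]
  intro z hz0
  obtain ⟨s, t, rfl⟩ := hz z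
  have h1 := congrArg (TensorProduct.lid R M) hz0
  simp only [map_add, LinearMap.rTensor_tmul, Submodule.subtype_apply, TensorProduct.lid_tmul,
    map_zero] at h1
  obtain ⟨r, rfl, rfl⟩ := h s t h1
  rw [TensorProduct.tmul_neg, ← TensorProduct.smul_tmul, ← TensorProduct.smul_tmul]
  have : (b : R) • a = (a : R) • b := Subtype.ext (mul_comm _ _)
  rw [this, neg_add_cancel]

end Free

theorem blk_Free {k : Type} [Field k] [IsAlgClosed k] {p : ℕ} [Fact p.Prime] [CharP k p]
    (hp : p ≠ 2) (h : Lv3 k p) : St_Free k := by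
  intro K L _ _ _ _ _ _ _ _ B a b hB
  classical
  have hloc := hB.toIsPt.toIsLoc
  have := h.ra.noeth hloc
  have := h.ra.isLocal hloc
  have := h.ra.frac hloc
  have := h.ra.closed hB.toIsPt
  have ha : a ≠ 0 := (h.r1a.hx hB).1
  have hb : b ≠ 0 := (h.r1a.hx hB.swap).1
  have : Module.Finite B (integralClosure B L) := IsIntegralClosure.finite B K L _
  have : Module.FinitePresentation B (integralClosure B L) :=
    Module.finitePresentation_of_finite _ _
  have : Module.Free B (integralClosure B L) := by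
    refine Module.free_of_maximalIdeal_rTensor_injective (Free.inj _
      ⟨⟨a, mx_le hB.x_mem⟩, (h.ra.maxi hloc _).2 hB.x_mem⟩
      ⟨⟨b, mx_le hB.y_mem⟩, (h.ra.maxi hloc _).2 hB.y_mem⟩ (fun x => ?_) fun s t hst => ?_)
    · have hx := (h.ra.maxi hloc _).1 x.2
      rw [hB.par, mem_gen_two] at hx
      obtain ⟨c, hc, d, hd, e⟩ := hx
      exact ⟨⟨c, hc⟩, ⟨d, hd⟩, Subtype.ext (Subtype.ext e)⟩
    · have h1 : algebraMap K L a * s + algebraMap K L b * t = 0 := by
        have := congrArg Subtype.val hst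
        simpa [Algebra.smul_def] using this
      obtain ⟨r, hr, e1, e2⟩ := Free.depth h.rh hB ha hb s.2 t.2 h1
      refine ⟨⟨r, hr⟩, Subtype.ext ?_, Subtype.ext ?_⟩
      · simpa [Algebra.smul_def] using e1
      · simpa [Algebra.smul_def] using e2
  have := IsIntegralClosure.isLocalization B K L (integralClosure B L)
  let b0 := Module.finBasis B (integralClosure B L)
  let b1 := b0.localizationLocalization K B⁰ L
  have hrep : ∀ t i, Algebra.trace K L (t * b1.traceDual i) = b1.repr t i := fun t i => by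
    have := b1.traceDual.traceDual_repr_apply t i
    rw [Module.Basis.traceDual_traceDual] at this
    exact this.symm
  refine ⟨_, b1, b1.traceDual, fun i => ?_, fun i t ht => ?_, fun t => ?_, fun t => ?_⟩
  · rw [Module.Basis.localizationLocalization_apply]
    exact (b0 i).2
  · rw [hrep]
    have := b0.localizationLocalization_repr_algebraMap K B⁰ L ⟨t, ht⟩ i
    exact this ▸ (b0.repr ⟨t, ht⟩ i).2
  · simp_rw [hrep, ← Algebra.smul_def]
    exact (b1.sum_repr t).symm
  · conv_lhs => rw [← b1.traceDual.sum_repr t]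
    simp_rw [Module.Basis.traceDual_repr_apply, Algebra.smul_def]
    rfl

end Pool.Agent.Lib.MP_5f81cf_ag.Full.Res
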