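import Pool.Agent.Lib.MP_5f81cf_ag.ResBlue

/-! Block Q1: charts and quadratic transforms. -/

namespace Pool.Agent.Lib.MP_5f81cf_ag.Full.Res

open Pool.Agent.Lib.MP_e06174_ag

namespace Q1

variable {k L : Type} [Field k] [Field L] [Algebra k L] {O : Subalgebra k L}
  {V : ValuationSubring L} {b : L}

lemma min_gen {S : Set L} (hV : Dom V O) (hS : mx O = gen O S) (hb : b ∈ mx O) (hb0 : b ≠ 0)
    (h : ∀ g ∈ S, g / b ∈ V) : IsMin O V b := by
  let N : Submodule k L :=
    { carrier := {g | g / b ∈ V}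
      add_mem' := fun {x y} hx hy => by
        change (x + y) / b ∈ V
        rw [add_div]
        exact add_mem hx hy
      zero_mem' := by
        change (0 : L) / b ∈ V
        rw [zero_div]
        exact zero_mem V
      smul_mem' := fun c x hx => by
        change (c • x) / b ∈ V
        rw [Algebra.smul_def, mul_div_assoc]
        exact mul_mem (hV.1 _ (O.algebraMap_mem c)) hx }
  refine ⟨hb, hb0, fun g hg => ?_⟩
  rw [hS] at hg
  refine gen_le (N := N) (fun a ha x hx => ?_) h hg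
  change (a * x) / b ∈ V
  rw [mul_div_assoc]
  exact mul_mem (hV.1 a ha) hx

lemma ex_min (hne : ∃ g ∈ mx O, g ≠ 0) (hV : Dom V O) (S : Set L) (hfin : S.Finite)
    (hS : mx O = gen O S) : ∃ b ∈ S, IsMin O V b := by
  obtain ⟨g₀, hg₀, h0⟩ : ∃ g ∈ S, g ≠ 0 := by
    by_contra h
    push Not at h
    obtain ⟨g, hg, hg0⟩ := hne
    rw [hS] at hg
    exact hg0 ((Submodule.mem_bot k).1 (gen_le (N := ⊥)
      (fun a _ x hx => by rw [(Submodule.mem_bot k).1 hx, mul_zero]; exact zero_mem _)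
      (fun f hf => (Submodule.mem_bot k).2 (h f hf)) hg))
  obtain ⟨b, hb, hmax⟩ := Set.exists_max_image S V.valuation hfin ⟨g₀, hg₀⟩
  have hb0 : b ≠ 0 := by
    rintro rfl
    have := hmax g₀ hg₀
    rw [map_zero, le_zero_iff, map_eq_zero] at this
    exact h0 this
  refine ⟨b, hb, min_gen hV hS (hS ▸ subset_gen hb) hb0 fun g hg => ?_⟩
  rw [← V.valuation_le_one_iff, map_div₀]
  exact div_le_one_of_le₀ (hmax g hg) zero_le

lemma chart_le {W : ValuationSubring L} (h1 : ∀ f ∈ O, f ∈ W) (h2 : ∀ g ∈ mx O, g / b ∈ W)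
    (f : L) (hf : f ∈ chart O b) : f ∈ W := by
  induction hf using Algebra.adjoin_induction with
  | mem x hx =>
    rcases hx with hx | ⟨g, hg, rfl⟩
    · exact h1 x hx
    · exact h2 g hg
  | algebraMap c => exact h1 _ (O.algebraMap_mem c)
  | add x y _ _ hx hy => exact add_mem hx hy
  | mul x y _ _ hx hy => exact mul_mem hx hy

lemma loc_le {A B : Subalgebra k L} (h : A ≤ loc B V) : loc A V ≤ loc B V := by
  rintro f ⟨s, hs, hs0, hsV, hf⟩
  obtain ⟨t, ht, ht0, htV, hft⟩ := h hf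
  obtain ⟨t', ht', ht0', htV', hst⟩ := h hs
  refine ⟨s * t' * t, mul_mem hst ht, mul_ne_zero (mul_ne_zero hs0 ht0') ht0, ?_, ?_⟩
  · rw [mul_inv, mul_inv]
    exact mul_mem (mul_mem hsV htV') htV
  · rw [show f * (s * t' * t) = f * s * t * t' by ring]
    exact mul_mem hft ht'

lemma chart_le_loc {b' : L} (hb : IsMin O V b) (hb' : IsMin O V b') :
    chart O b' ≤ loc (chart O b) V := by
  refine Algebra.adjoin_le ?_
  rintro f (hf | ⟨g, hg, rfl⟩)
  · exact le_loc _ V (le_chart b hf)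
  · refine ⟨b' / b, div_mem_chart hb'.1, div_ne_zero hb'.2.1 hb.2.1, ?_, ?_⟩
    · rw [inv_div]
      exact hb'.2.2 b hb.1
    · rw [div_mul_div_cancel₀ hb'.2.1]
      exact div_mem_chart hg

lemma qt_eq (hb : IsMin O V b) : qt O V = loc (chart O b) V := by
  have h : ∃ b, IsMin O V b := ⟨b, hb⟩
  rw [qt, dif_pos h]
  exact le_antisymm (loc_le (chart_le_loc hb h.choose_spec))
    (loc_le (chart_le_loc h.choose_spec hb))

lemma div_pow_mem (n : ℕ) : ∀ f ∈ mp O n, f / b ^ n ∈ chart O b := by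
  induction n with
  | zero =>
    intro f hf
    rw [pow_zero, div_one]
    exact le_chart b (mem_mp_zero.1 hf)
  | succ n ih =>
    intro f hf
    rw [mp, pow_succ, ← mul_assoc] at hf
    refine Submodule.mul_induction_on hf (fun x hx y hy => ?_) fun x y hx hy => ?_
    · rw [pow_succ, ← div_mul_div_comm]
      exact mul_mem (ih x hx) (div_mem_chart hy)
    · rw [add_div]
      exact add_mem hx hy

lemma mem_chart (hb : b ∈ mx O) (hb0 : b ≠ 0) (f : L) :
    f ∈ chart O b ↔ ∃ n : ℕ, f * b ^ n ∈ mp O n := by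
  constructor
  · intro hf
    induction hf using Algebra.adjoin_induction with
    | mem x hx =>
      rcases hx with hx | ⟨g, hg, rfl⟩
      · exact ⟨0, by rw [pow_zero, mul_one]; exact mem_mp_zero.2 hx⟩
      · exact ⟨1, by rw [pow_one, div_mul_cancel₀ _ hb0]; exact mx_le_mp hg⟩
    | algebraMap c =>
      exact ⟨0, by rw [pow_zero, mul_one]; exact mem_mp_zero.2 (O.algebraMap_mem c)⟩
    | add x y _ _ hx hy =>
      obtain ⟨m, hm⟩ := hx
      obtain ⟨n, hn⟩ := hy
      refine ⟨m + n, ?_⟩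
      rw [show (x + y) * b ^ (m + n) = x * b ^ m * b ^ n + b ^ m * (y * b ^ n) by ring]
      exact add_mem (mul_mem_mp hm (pow_mem_mp hb n)) (mul_mem_mp (pow_mem_mp hb m) hn)
    | mul x y _ _ hx hy =>
      obtain ⟨m, hm⟩ := hx
      obtain ⟨n, hn⟩ := hy
      refine ⟨m + n, ?_⟩
      rw [show x * y * b ^ (m + n) = x * b ^ m * (y * b ^ n) by ring]
      exact mul_mem_mp hm hn
  · rintro ⟨n, hn⟩
    have := div_pow_mem (b := b) n _ hn
    rwa [mul_div_cancel_right₀ _ (pow_ne_zero n hb0)] at this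

lemma kill (A : Subalgebra k L) (V : ValuationSubring L) (H : Finset (Place k L)) (M : ℤ)
    (h : ∀ F ∈ H, Cont A F ∧ ¬ Cont (loc A V) F) :
    ∃ s ∈ A, s ≠ 0 ∧ s⁻¹ ∈ V ∧ ∀ F ∈ H, F.Ge M s := by
  classical
  induction H using Finset.induction_on with
  | empty => exact ⟨1, one_mem _, one_ne_zero, by rw [inv_one]; exact one_mem _, by simp⟩
  | insert F H _ ih =>
    obtain ⟨s, hs, hs0, hsV, hH⟩ := ih fun G hG => h G (Finset.mem_insert_of_mem hG)
    obtain ⟨hF, hF'⟩ := h F (Finset.mem_insert_self _ _)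
    rw [Cont] at hF'
    push Not at hF'
    obtain ⟨f, ⟨t, ht, ht0, htV, hft⟩, hf⟩ := hF'
    obtain ⟨hf0, hf1⟩ := Place.not_ge_iff.1 hf
    have h1 : F.Ge 1 t := by
      have h2 := (hF _ hft).le (mul_ne_zero hf0 ht0)
      rw [F.ord_mul hf0 ht0] at h2
      exact Place.ge_of_le (by omega)
    refine ⟨s * t ^ M.toNat, mul_mem hs (pow_mem ht _), mul_ne_zero hs0 (pow_ne_zero _ ht0), ?_,
      fun G hG => ?_⟩
    · rw [mul_inv, ← inv_pow]
      exact mul_mem hsV (pow_mem htV _)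
    · rcases Finset.mem_insert.1 hG with rfl | hG
      · exact (hF s hs).mul' (h1.pow M.toNat) (by omega)
      · exact (hH G hG).mul' ((h G (Finset.mem_insert_of_mem hG)).1 _ (pow_mem ht _)) (by omega)

end Q1

theorem blk_Q1 {k : Type} [Field k] [IsAlgClosed k] {p : ℕ} [Fact p.Prime] [CharP k p]
    (_hp : p ≠ 2) (h : Lv1 k p) : RQ1 k where
  ex_min hO hV S hfin hS := Q1.ex_min (h.ra.mx_ne hO) hV S hfin hS
  min_gen := Q1.min_gen
  qt_eq _ hb := Q1.qt_eq hb
  mem_chart := Q1.mem_chart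
  chart_le := Q1.chart_le
  kill := Q1.kill

end Pool.Agent.Lib.MP_5f81cf_ag.Full.Res
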