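import Pool.Agent.Lib.MP_5f81cf_ag.Defs

/-! Pairs on a normal variety, through its local rings and the discrete valuations of its
function field. -/

namespace Pool.Agent.Lib.MP_5f81cf_ag

open Pool.Agent.Lib.MP_e06174_ag

variable {k K : Type} [Field k] [Field K] [Algebra k K]

section

variable {M V : Type} [AddCommGroup M] [Module K M] [AddCommGroup V] [Module K V]

/-- The conditions at one point with local ring `R`: `N (div ω + Δ)` has a local equation `h`,
and all exceptional divisors with centre through the point have discrepancy greater than `-1`. -/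
def PltLoc {n : ℕ} (d : K → M) (F : M [⋀^Fin n]→ₗ[K] V) (R : Type) [CommRing R] [Algebra R K]
    (Δ : Place k K →₀ ℚ) (ω : V) (N : ℕ) : Prop :=
  ∃ h : K, h ≠ 0 ∧ ∀ (E : Place k K) (q : Ideal R), HasCentre E q →
    (q.height = 1 → (E.ord h : ℚ) = N * (latOrd d F E ω + Δ E)) ∧
    (2 ≤ q.height → IsDivisorial n E → -1 < (latOrd d F E ω : ℚ) - E.ord h / N)

/-- The plt condition for a space with local rings `O x`, the canonical divisor being given by
the orders of a nonzero `ω`. -/
def PltFam {n : ℕ} (d : K → M) (F : M [⋀^Fin n]→ₗ[K] V) {X : Type} (O : X → Type)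
    [∀ x, CommRing (O x)] [∀ x, Algebra (O x) K] (Δ : Place k K →₀ ℚ) : Prop :=
  (∀ E, 0 ≤ Δ E ∧ Δ E ≤ 1) ∧
  (∀ E, Δ E ≠ 0 → ∃ (x : X) (q : Ideal (O x)), HasCentre E q ∧ q.height = 1) ∧
  ∃ (ω : V) (N : ℕ), ω ≠ 0 ∧ 0 < N ∧ ∀ x, PltLoc d F (O x) Δ ω N

/-- The same for the wedge product `d a₁ ∧ ⋯ ∧ d aₙ` in the `n`-th exterior power. -/
def PltFamDer (d : K → M) (n : ℕ) {X : Type} (O : X → Type) [∀ x, CommRing (O x)]
    [∀ x, Algebra (O x) K] (Δ : Place k K →₀ ℚ) : Prop :=
  PltFam d (exteriorPower.ιMulti K n) O Δ

end

/-- `(X, Δ)` is a purely log terminal pair of dimension `n`, where `X` has local rings `O x` and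
function field `K`. -/
def IsPltPair (n : ℕ) {X : Type} (O : X → Type) [∀ x, CommRing (O x)] [∀ x, Algebra (O x) K]
    (Δ : Place k K →₀ ℚ) : Prop :=
  PltFamDer (KaehlerDifferential.D k K) n O Δ

section

open AlgebraicGeometry CategoryTheory

variable (X : Scheme.{0}) [IsIntegral X]

/-- The function field of an integral scheme. -/
def FnField : Type := X.functionField

noncomputable instance : Field (FnField X) := (inferInstance : Field X.functionField)

/-- The local ring of a scheme at a point. -/
def LocRing (X : Scheme.{0}) (x : X) : Type := X.presheaf.stalk x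

noncomputable instance (X : Scheme.{0}) (x : X) : CommRing (LocRing X x) :=
  (inferInstance : CommRing (X.presheaf.stalk x))

noncomputable instance (x : X) : Algebra (LocRing X x) (FnField X) :=
  stalkFunctionFieldAlgebra X x

/-- A global regular function as a rational function. -/
noncomputable def toFnField : Γ(X, ⊤) ⟶ X.functionField :=
  X.presheaf.germ ⊤ (genericPoint X) trivial

/-- Constants as global regular functions, through the structure morphism. -/
noncomputable def globalConst {X : Scheme.{0}} (s : X ⟶ Spec (.of k)) : .of k ⟶ Γ(X, ⊤) :=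
  (Scheme.ΓSpecIso (.of k)).inv ≫ s.appTop

/-- Constants as rational functions. -/
noncomputable def constHom (s : X ⟶ Spec (.of k)) : .of k ⟶ X.functionField :=
  globalConst s ≫ toFnField X

/-- The map from the ground field to the function field given by the structure morphism. -/
noncomputable def constMap (s : X ⟶ Spec (.of k)) : k →+* FnField X := (constHom X s).hom

end

end Pool.Agent.Lib.MP_5f81cf_ag
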