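import Pool.Agent.Lib.MP_5f81cf_ag.LiftJ

/-! Transfer of invariants from a cyclic subgroup, and descent of normality. -/

namespace Pool.Agent.Lib.MP_5f81cf_ag

open scoped Pointwise

lemma exists_pair {G : Type} [Group G] [Finite G] (H : Subgroup G) (p : ℕ) [hp : Fact p.Prime]
    (h : p ^ 2 ∣ Nat.card H) : ∃ σ ∈ H, ∃ τ ∈ H, σ ≠ 1 ∧ σ ^ p = 1 ∧ τ ^ p ^ 2 = 1 ∧
      Commute σ τ ∧ τ ^ p ∈ Subgroup.zpowers σ ∧ τ ∉ Subgroup.zpowers σ := by
  obtain ⟨L, hL⟩ := Sylow.exists_subgroup_card_pow_prime p h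
  have hc := IsPGroup.isMulCommutative_of_card_eq_prime_sq hL
  obtain ⟨σ, hσ⟩ := exists_prime_orderOf_dvd_card' (G := L) p (by rw [hL]; simp)
  have h1 : (Subgroup.zpowers σ).index = p := by
    have := (Subgroup.zpowers σ).card_mul_index
    rw [Nat.card_zpowers, hσ, hL, sq] at this
    exact Nat.eq_of_mul_eq_mul_left hp.out.pos this
  obtain ⟨τ, hτ⟩ : ∃ τ, τ ∉ Subgroup.zpowers σ := by
    by_contra! h2
    rw [(Subgroup.eq_top_iff' _).2 h2, Subgroup.index_top] at h1
    exact hp.out.ne_one h1.symm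
  let ι : L →* G := H.subtype.comp L.subtype
  have hι : Function.Injective ι := H.subtype_injective.comp L.subtype_injective
  have hz : ∀ x, ι x ∈ Subgroup.zpowers (ι σ) ↔ x ∈ Subgroup.zpowers σ := fun x => by
    rw [← MonoidHom.map_zpowers, Subgroup.mem_map_iff_mem hι]
  refine ⟨ι σ, σ.1.2, ι τ, τ.1.2, fun h2 => ?_, by rw [← map_pow, ← hσ, pow_orderOf_eq_one, map_one],
    by rw [← map_pow, ← hL, pow_card_eq_one', map_one], Commute.map (hc.is_comm.comm σ τ) ι, ?_,
    (hz τ).not.2 hτ⟩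
  · rw [map_eq_one_iff ι hι] at h2
    rw [h2, orderOf_one] at hσ
    exact hp.out.ne_one hσ.symm
  · rw [← map_pow, hz, ← h1]
    exact Subgroup.pow_index_mem _ τ

lemma normal_under {R A : Type} [CommRing R] [CommRing A] [Algebra R A] (P : Ideal A) [P.IsPrime]
    [IsIntegrallyClosed (A ⧸ P)]
    (h : ∀ (a b : R) (f : A), algebraMap R A b ∉ P → algebraMap R A a - f * algebraMap R A b ∈ P →
      ∃ r : R, a - r * b ∈ P.under R) : IsIntegrallyClosed (R ⧸ P.under R) := by
  refine (isIntegrallyClosed_iff (FractionRing (R ⧸ P.under R))).2 fun {x} hx => ?_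
  let φ : R ⧸ P.under R →+* A ⧸ P := Ideal.quotientMap P (algebraMap R A) le_rfl
  have hφ : Function.Injective ((algebraMap (A ⧸ P) (FractionRing (A ⧸ P))).comp φ) :=
    (IsFractionRing.injective (A ⧸ P) _).comp Ideal.quotientMap_injective
  let ψ : FractionRing (R ⧸ P.under R) →+* FractionRing (A ⧸ P) := IsFractionRing.lift hφ
  have hψ : ∀ y, ψ (algebraMap _ _ (Ideal.Quotient.mk _ y)) =
      algebraMap (A ⧸ P) _ (Ideal.Quotient.mk P (algebraMap R A y)) := fun y =>
    IsFractionRing.lift_algebraMap hφ _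
  have h1 : IsIntegral (A ⧸ P) (ψ x) := by
    refine hx.map_of_comp_eq φ ψ (RingHom.ext fun y => ?_)
    rw [RingHom.comp_apply ψ, IsFractionRing.lift_algebraMap hφ]
  obtain ⟨f, hf⟩ := IsIntegrallyClosed.isIntegral_iff.1 h1
  obtain ⟨a, b, hb, rfl⟩ := IsFractionRing.div_surjective (A := R ⧸ P.under R) x
  obtain ⟨a, rfl⟩ := Ideal.Quotient.mk_surjective a
  obtain ⟨b, rfl⟩ := Ideal.Quotient.mk_surjective b
  obtain ⟨f, rfl⟩ := Ideal.Quotient.mk_surjective f
  replace hb := nonZeroDivisors.ne_zero hb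
  have hb' : algebraMap R A b ∉ P := fun h => hb (Ideal.Quotient.eq_zero_iff_mem.2 h)
  rw [map_div₀, hψ, hψ, eq_div_iff (by
      rwa [Ne, IsFractionRing.to_map_eq_zero_iff, Ideal.Quotient.eq_zero_iff_mem]), ← map_mul, ← map_mul,
    IsFractionRing.coe_inj, eq_comm, Ideal.Quotient.eq] at hf
  obtain ⟨r, hr⟩ := h a b f hb' hf
  refine ⟨Ideal.Quotient.mk _ r, ?_⟩
  rw [eq_div_iff (by simpa using hb), ← map_mul, ← map_mul, IsFractionRing.coe_inj, eq_comm,
    Ideal.Quotient.eq]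
  exact hr

variable {k A G : Type} [Field k] [CommRing A] [Algebra k A] [Group G] [MulSemiringAction G A]
  [SMulCommClass G k A] [Finite G] {m P : Ideal A} {σ : G} {f : A}

omit [SMulCommClass G k A] [Finite G] in
lemma zp_smul {a : A} (h : σ • a = a) {g : G} (hg : g ∈ Subgroup.zpowers σ) : g • a = a :=
  (Subgroup.zpowers_le (H := MulAction.stabilizer G a)).2 h hg

variable (k) in
include k in
lemma krull [Algebra.FiniteType k A] [hm : m.IsMaximal] (hσ : σ • m = m)
    (h : ∀ M, ∃ r, σ • r = r ∧ f - r ∈ P ⊔ m ^ M) :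
    ∃ c r, σ • c = c ∧ σ • r = r ∧ c ∉ m ∧ c * f - r ∈ P := by
  let H := Subgroup.zpowers σ
  let R := FixedPoints.subalgebra k A H
  have : Algebra.IsInvariant R A H := ⟨fun x h => ⟨⟨x, h⟩, rfl⟩⟩
  have := Algebra.IsInvariant.isIntegral R A H
  have := Algebra.FiniteType.of_restrictScalars_finiteType k R A
  have : Module.Finite R A := Algebra.IsIntegral.finite
  have : IsNoetherianRing R := isNoetherianRing_of_fg (R.fg_top.1 (fg_of_fg_of_fg k R A
    Algebra.FiniteType.out Module.Finite.fg_top Subtype.val_injective))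
  have := Algebra.FiniteType.isNoetherianRing k A
  obtain ⟨t, ht⟩ := Ideal.exists_pow_le_of_le_radical_of_fg (I := m)
    (J := (m.under R).map (algebraMap R A)) (by
      rw [Ideal.radical_eq_sInf]
      rintro x hx
      rw [Submodule.mem_sInf]
      rintro Q ⟨h1, h2⟩
      obtain ⟨g, rfl⟩ := Algebra.IsInvariant.exists_smul_of_under_eq R A H m Q
        ((Ideal.isMaximal_comap_of_isIntegral_of_isMaximal m).eq_of_le
          (Ideal.comap_isPrime _ Q).ne_top (Ideal.map_le_iff_le_comap.1 h1))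
      have : g.1 • m = m := (Subgroup.zpowers_le (H := MulAction.stabilizer G m)).2 hσ g.2
      exact this.symm ▸ hx) (IsNoetherian.noetherian m)
  let N : Submodule R A := P.restrictScalars R ⊔ 1
  obtain ⟨⟨r, hr⟩, h1⟩ := ((m.under R).mem_iInf_smul_pow_eq_bot_iff (N.mkQ f)).1
    ((Submodule.mem_iInf _).2 fun M => by
      obtain ⟨r, h1, h2⟩ := h (t * M)
      obtain ⟨x, hx, y, hy, h3⟩ := Submodule.mem_sup.1 h2
      have h4 : N.mkQ f = N.mkQ y := by
        rw [← sub_eq_zero, ← map_sub, Submodule.mkQ_apply, Submodule.Quotient.mk_eq_zero,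
          show f - y = x + r by linear_combination -h3]
        exact Submodule.add_mem_sup hx (Submodule.mem_one.2 ⟨⟨r, fun g => zp_smul h1 g.2⟩, rfl⟩)
      rw [h4, ← N.range_mkQ, ← Submodule.map_top, ← Submodule.map_smul'', Ideal.smul_top_eq_map,
        Ideal.map_pow]
      exact Submodule.mem_map_of_mem (Ideal.pow_right_mono ht M (by rwa [← pow_mul])))
  rw [← map_smul, eq_comm, ← sub_eq_zero, ← map_sub, Submodule.mkQ_apply,
    Submodule.Quotient.mk_eq_zero] at h1
  obtain ⟨x, hx, y, hy, h3⟩ := Submodule.mem_sup.1 h1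
  obtain ⟨y, rfl⟩ := Submodule.mem_one.1 hy
  refine ⟨1 - r, y, (1 - r).2 ⟨σ, Subgroup.mem_zpowers σ⟩, y.2 ⟨σ, Subgroup.mem_zpowers σ⟩,
    fun h => hm.ne_top ((Ideal.eq_top_iff_one m).2 (by simpa using add_mem h hr)), ?_⟩
  change x + y = f - r * f at h3
  rwa [show (1 - r) * f - y = x by linear_combination -h3]

lemma transfer [IsDomain A] [hm : m.IsMaximal] (C : Chart (Fin 3) k m) (p : ℕ) [CharP k p]
    (hσ : σ • m = m) (hσp : σ ^ p = 1) (hp : p ≠ 0)
    (hcard : ¬ Nat.card (Subgroup.zpowers σ) * p ∣ Nat.card (MulAction.stabilizer G m))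
    (hP : ∀ g : G, g • P ≤ m → g • P = P) (hf : ∀ g : G, g • f - f ∈ P) {c r : A} (hc : σ • c = c)
    (hr : σ • r = r) (hcm : c ∉ m) (h : c * f - r ∈ P) :
    ∃ c r, (∀ g : G, g • c = c) ∧ (∀ g : G, g • r = r) ∧ c ∉ m ∧ c * f - r ∈ P := by
  classical
  have := Fintype.ofFinite G
  have h1 : ∀ g : G, ∃ a, a ∉ m ∧ (g • a ∈ m ∨ g • m = m) ∧ (g • a ∈ P ∨ g⁻¹ • P = P) := by
    intro g
    have a1 : ∃ a, a ∉ m ∧ (g • a ∈ m ∨ g • m = m) := by
      by_contra! h
      refine (h 1 ((Ideal.ne_top_iff_one m).1 hm.ne_top)).2 (hm.eq_of_le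
        (Ideal.IsPrime.smul g).ne_top (Ideal.subset_pointwise_smul_iff.2 fun a ha => ?_)).symm
      by_contra h2
      exact (h a h2).1 (Ideal.mem_inv_pointwise_smul_iff.1 ha)
    have a2 : ∃ a, a ∉ m ∧ (g • a ∈ P ∨ g⁻¹ • P = P) := by
      by_contra! h
      refine (h 1 ((Ideal.ne_top_iff_one m).1 hm.ne_top)).2 (hP _ fun a ha => ?_)
      by_contra h2
      exact (h a h2).1 (Ideal.mem_inv_pointwise_smul_iff.1 ha)
    obtain ⟨a, ha, h1⟩ := a1
    obtain ⟨b, hb, h2⟩ := a2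
    exact ⟨a * b, hm.isPrime.mul_notMem ha hb,
      h1.imp_left fun h => smul_mul' g a b ▸ m.mul_mem_right _ h,
      h2.imp_left fun h => smul_mul' g a b ▸ P.mul_mem_left _ h⟩
  choose a ha h1 using h1
  let H := Subgroup.zpowers σ
  have hH : ∀ g ∈ H, g • m = m := (Subgroup.zpowers_le (H := MulAction.stabilizer G m)).2 hσ
  obtain ⟨e, he, hem, hea⟩ : ∃ e, σ • e = e ∧ e ∉ m ∧ ∀ g, a g ∣ e := by
    refine ⟨∏ j ∈ Finset.range p, σ ^ j • ∏ g, a g, norm_inv hσp _, ?_, fun g => ?_⟩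
    · rw [hm.isPrime.prod_mem_iff]
      rintro ⟨j, -, h⟩
      rw [← hH _ (pow_mem (Subgroup.mem_zpowers σ) j), Ideal.smul_mem_pointwise_smul_iff,
        hm.isPrime.prod_mem_iff] at h
      exact h.elim fun g h => ha g h.2
    · refine (Finset.dvd_prod_of_mem a (Finset.mem_univ g)).trans ?_
      simpa using Finset.dvd_prod_of_mem (fun j => σ ^ j • ∏ g, a g)
        (Finset.mem_range.2 (Nat.pos_of_ne_zero hp))
  have hd : ∀ (g : G) (I : Ideal A) (b : A), g • a g ∈ I → g • (e * b) ∈ I := fun g I b h => by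
    obtain ⟨u, hu⟩ := hea g
    rw [hu, mul_assoc, smul_mul']
    exact I.mul_mem_right _ h
  have := Fintype.ofFinite (G ⧸ H)
  have inv : ∀ b : A, σ • b = b → ∀ g : G, g • ∑ x : G ⧸ H, x.out • (e * b) =
      ∑ x : G ⧸ H, x.out • (e * b) := fun b hb g => by
    rw [Finset.smul_sum]
    refine Fintype.sum_equiv (MulAction.toPerm g) _ _ fun x => ?_
    obtain ⟨u, hu⟩ := QuotientGroup.mk_out_eq_mul H (g * x.out)
    rw [MulAction.toPerm_apply, ← x.out_eq, MulAction.Quotient.smul_mk, smul_eq_mul, hu, mul_smul,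
      zp_smul (by rw [smul_mul', he, hb]) u.2, mul_smul, Quotient.out_eq]
  refine ⟨_, _, inv c hc, inv r hr, fun h2 => hcard ?_, ?_⟩
  · let t : Set (G ⧸ H) := {x | x.out • m = m}
    have h3 := QuotientGroup.card_preimage_mk H t
    have h4 : QuotientGroup.mk ⁻¹' t = MulAction.stabilizer G m := by
      ext g
      obtain ⟨u, hu⟩ := QuotientGroup.mk_out_eq_mul H g
      simp only [t, Set.mem_preimage, Set.mem_ofPred_eq, hu, mul_smul, hH _ u.2]
      rfl
    rw [h4] at h3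
    refine h3 ▸ Nat.mul_dvd_mul_left _ ?_
    have h5 : ∑ x : G ⧸ H, x.out • (e * c) - ∑ x : G ⧸ H, (if x ∈ t then e * c else 0) ∈ m := by
      rw [← Finset.sum_sub_distrib]
      refine m.sum_mem fun x _ => ?_
      split_ifs with hx
      · exact C.dl_mem (σ := x.out) (fun b hb => by
          have := Ideal.smul_mem_pointwise_smul x.out b m hb
          rwa [hx] at this) _
      · rw [sub_zero]; exact hd _ _ _ ((h1 _).1.resolve_right hx)
    have h6 := sub_mem h2 h5
    rw [sub_sub_cancel, ← Finset.sum_filter, Finset.sum_const, nsmul_eq_mul] at h6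
    have h7 := (hm.isPrime.mem_or_mem h6).resolve_right (hm.isPrime.mul_notMem hem hcm)
    rw [C.mem_iff_coeff, map_natCast, MvPowerSeries.coeff_zero_eq_constantCoeff_apply, map_natCast,
      CharP.cast_eq_zero_iff k p] at h7
    rwa [Nat.card_eq_card_toFinset, Set.toFinset_ofPred]
  · rw [Finset.sum_mul, ← Finset.sum_sub_distrib]
    refine P.sum_mem fun x _ => ?_
    have h2 : x.out • (e * (c * f - r)) ∈ P := (h1 x.out).2.elim (hd _ _ _) fun h2 => by
      rw [← Ideal.mem_inv_pointwise_smul_iff, h2]; exact P.mul_mem_left _ h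
    convert sub_mem h2 (P.mul_mem_left (x.out • (e * c)) (hf x.out)) using 1
    simp only [smul_mul', smul_sub]; ring

end Pool.Agent.Lib.MP_5f81cf_ag
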