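import Pool.Agent.Lib.MP_5f81cf_ag.Chart3

/-! Local rings of smooth threefolds are factorial. -/

namespace Pool.Agent.Lib.MP_5f81cf_ag

open MvPowerSeries Finsupp

/-- A product of primes, up to a unit. -/
def PProd {O : Type} [CommRing O] (a : O) : Prop :=
  ∃ s : Multiset O, (∀ p ∈ s, Prime p) ∧ Associated s.prod a

lemma PProd.colon {O : Type} [CommRing O] [IsDomain O] {a : O} (ha : PProd a) (b : O) :
    ∃ c : O, a ∣ c * b ∧ c ≠ 0 ∧ ∀ d, a ∣ d * b → c ∣ d := by
  obtain ⟨s, hs, h⟩ := ha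
  simp only [← h.dvd_iff_dvd_left]
  clear h
  induction s using Multiset.induction_on generalizing b with
  | empty => exact ⟨1, by simp⟩
  | cons p s ih =>
    have hp := hs p (by simp)
    have ih := fun b => ih b fun q hq => hs q (by simp [hq])
    rw [Multiset.prod_cons]
    by_cases hb : p ∣ b
    · obtain ⟨b, rfl⟩ := hb
      obtain ⟨c, h1, h2, h3⟩ := ih b
      refine ⟨c, by rw [mul_left_comm]; exact mul_dvd_mul_left _ h1, h2, fun d hd => h3 d ?_⟩
      rwa [mul_left_comm, mul_dvd_mul_iff_left hp.ne_zero] at hd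
    · obtain ⟨c, h1, h2, h3⟩ := ih b
      refine ⟨p * c, by rw [mul_assoc]; exact mul_dvd_mul_left _ h1, mul_ne_zero hp.ne_zero h2,
        fun d hd => ?_⟩
      obtain ⟨d, rfl⟩ := (hp.dvd_or_dvd ((dvd_mul_right _ _).trans hd)).resolve_right hb
      rw [mul_assoc, mul_dvd_mul_iff_left hp.ne_zero] at hd
      exact mul_dvd_mul_left _ (h3 d hd)

lemma pprod_weierstrass {R : Type} [CommRing R] [IsDomain R] [IsLocalRing R]
    [UniqueFactorizationMonoid R] [IsAdicComplete (IsLocalRing.maximalIdeal R) R]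
    {g : PowerSeries R} (hg : g.map (IsLocalRing.residue R) ≠ 0) : PProd g := by
  obtain ⟨F, h, H⟩ := g.exists_isWeierstrassFactorization hg
  suffices hF : ∀ f : Polynomial R, f ∣ F → PProd (f : PowerSeries R) by
    obtain ⟨s, h1, h2⟩ := hF F dvd_rfl
    exact ⟨s, h1, H.eq_mul ▸ h2.trans (associated_mul_unit_right _ _ H.isUnit)⟩
  intro f
  induction f using UniqueFactorizationMonoid.induction_on_prime with
  | h₁ => exact fun h0 => absurd (zero_dvd_iff.1 h0) H.isDistinguishedAt.monic.ne_zero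
  | h₂ x hx =>
    exact fun _ => ⟨0, by simp, by
      simpa using (associated_one_iff_isUnit.2
        (hx.map Polynomial.coeToPowerSeries.ringHom)).symm⟩
  | h₃ a p _ hp ih =>
    intro hd
    obtain ⟨s, h1, h2⟩ := ih ((dvd_mul_left _ _).trans hd)
    have hpF : p ∣ F := (dvd_mul_right _ _).trans hd
    obtain ⟨u, hu⟩ := H.isDistinguishedAt.monic.isUnit_leadingCoeff_of_dvd hpF
    let q := p * Polynomial.C (↑u⁻¹ : R)
    have hq : q.Monic := by
      simp [q, Polynomial.Monic, Polynomial.leadingCoeff_mul, ← hu]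
    have hass : Associated p q :=
      associated_mul_unit_right _ _ (Polynomial.isUnit_C.2 (Units.isUnit _))
    have hdis : q.IsDistinguishedAt (IsLocalRing.maximalIdeal R) := by
      refine ⟨⟨fun {n} hn => ?_⟩, hq⟩
      have h3 := Polynomial.map_dvd (Ideal.Quotient.mk (IsLocalRing.maximalIdeal R))
        (hass.symm.dvd.trans hpF)
      rw [H.isDistinguishedAt.map_eq_X_pow] at h3
      obtain ⟨j, -, hj⟩ := (dvd_prime_pow Polynomial.prime_X _).1 h3
      have h4 := Polynomial.eq_of_monic_of_associated (hq.map _) (Polynomial.monic_X_pow _) hj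
      have h5 := congrArg Polynomial.natDegree h4
      rw [hq.natDegree_map, Polynomial.natDegree_X_pow] at h5
      have h6 := congrArg (Polynomial.coeff · n) h4
      simp only [Polynomial.coeff_map, Polynomial.coeff_X_pow, if_neg (by omega : ¬ n = j)] at h6
      exact Ideal.Quotient.eq_zero_iff_mem.1 h6
    have hq0 : (q : PowerSeries R) ≠ 0 := by simpa using hq.ne_zero
    have hprime : Prime (q : PowerSeries R) := by
      rw [← Ideal.span_singleton_prime hq0, ← Ideal.Quotient.isDomain_iff_prime]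
      have : IsDomain (Polynomial R ⧸ Ideal.span {q}) := by
        rw [Ideal.Quotient.isDomain_iff_prime, Ideal.span_singleton_prime hq.ne_zero]
        exact hass.prime hp
      exact hdis.algEquivQuotient.symm.toMulEquiv.isDomain _
    refine ⟨q ::ₘ s, by simpa using ⟨hprime, h1⟩, ?_⟩
    rw [Multiset.prod_cons, Polynomial.coe_mul p a]
    exact Associated.mul_mul (hass.symm.map Polynomial.coeToPowerSeries.ringHom) h2

variable {k : Type} [Field k]

instance {ι : Type} : IsDomain (MvPowerSeries ι k) := NoZeroDivisors.to_isDomain _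

lemma pprod_of_regular {φ : MvPowerSeries (Fin 3) k} {n : ℕ} (h : coeff (single 0 n) φ ≠ 0) :
    PProd φ := by
  let R := MvPowerSeries (Fin 2) k
  have h1 : IsPrincipalIdealRing (MvPowerSeries (Fin 1) k) :=
    IsPrincipalIdealRing.of_surjective (R := PowerSeries k)
      (renameEquiv k (Equiv.ofUnique Unit (Fin 1))).toRingEquiv.toRingHom
      (renameEquiv k (Equiv.ofUnique Unit (Fin 1))).surjective
  have h2 : UniqueFactorizationMonoid R :=
    (finSuccEquiv k 1).symm.toMulEquiv.uniqueFactorizationMonoid inferInstance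
  have h3 : IsLocalRing.maximalIdeal R = Ideal.span (Set.range X) := by
    refine le_antisymm (fun ψ hψ => ?_) (IsLocalRing.le_maximalIdeal fun ht => ?_)
    · have h0 : coeff 0 ψ = 0 := by
        simpa [R, MvPowerSeries.isUnit_iff_constantCoeff] using hψ
      let ψ' : R := fun d => if d 0 = 0 then coeff d ψ else 0
      have a1 : X 0 ∣ ψ - ψ' := X_dvd_iff.2 fun d hd => by
        rw [map_sub, show coeff d ψ' = if d 0 = 0 then coeff d ψ else 0 from rfl]; simp [hd]
      have a2 : X 1 ∣ ψ' := X_dvd_iff.2 fun d hd => by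
        rw [show coeff d ψ' = if d 0 = 0 then coeff d ψ else 0 from rfl]
        split_ifs with h
        · rw [show d = 0 by ext i; fin_cases i <;> simpa, h0]
        · rfl
      rw [← sub_add_cancel ψ ψ']
      exact add_mem (Ideal.mem_of_dvd _ a1 (Ideal.subset_span ⟨0, rfl⟩))
        (Ideal.mem_of_dvd _ a2 (Ideal.subset_span ⟨1, rfl⟩))
    · have := wge_of_mem_span_pow (n := 1) (φ := (1 : R)) (by rw [ht]; simp) 0 (by simp)
      simp at this
  have h4 : IsAdicComplete (IsLocalRing.maximalIdeal R) R := h3 ▸ inferInstance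
  obtain ⟨s, h5, h6⟩ := pprod_weierstrass (g := finSuccEquiv k 2 φ) (fun h0 => h (by
    have a1 := congrArg (PowerSeries.coeff n) h0
    rw [PowerSeries.coeff_map, LinearMap.map_zero, IsLocalRing.residue_eq_zero_iff] at a1
    have a2 : coeff 0 (PowerSeries.coeff n (finSuccEquiv k 2 φ)) = 0 := by
      simpa [MvPowerSeries.isUnit_iff_constantCoeff] using a1
    rwa [coeff_coeff_finSuccEquiv, cons_zero_eq_single_zero] at a2))
  refine ⟨s.map (finSuccEquiv k 2).symm, fun p hp => ?_, ?_⟩
  · obtain ⟨q, hq, rfl⟩ := Multiset.mem_map.1 hp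
    exact (MulEquiv.prime_iff (finSuccEquiv k 2).symm).2 (h5 q hq)
  · simpa [map_multiset_prod] using h6.map (finSuccEquiv k 2).symm

variable {ι A : Type} [CommRing A] [Algebra k A] {m : Ideal A}

lemma wge_of_mem_pow {τ : Type} {w : τ → ℕ} (θ : A →ₐ[k] MvPowerSeries τ k)
    (hθ : ∀ a ∈ m, WGe w 1 (θ a)) (M : ℕ) : ∀ a ∈ m ^ M, WGe w M (θ a) := by
  induction M with
  | zero => exact fun a _ => wge_bot _
  | succ M ih =>
    intro a ha
    rw [pow_succ] at ha
    refine Submodule.mul_induction_on ha (fun a ha b hb => ?_) fun a b h1 h2 => ?_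
    · rw [map_mul]; exact (ih a ha).mul (hθ b hb)
    · rw [map_add]; exact h1.add h2

namespace Chart

variable [Finite ι] (C : Chart ι k m)

lemma ext_hom {τ : Type} (θ θ' : A →ₐ[k] MvPowerSeries τ k)
    (hθ : ∀ a ∈ m, WGe (fun _ => 1) 1 (θ a)) (hθ' : ∀ a ∈ m, WGe (fun _ => 1) 1 (θ' a))
    (h : ∀ i, θ (C.x i) = θ' (C.x i)) (a : A) : θ a = θ' a := by
  ext d
  obtain ⟨P, hP, -⟩ := C.exists_poly a (weight (fun _ => 1) d + 1)
  have h1 := wge_of_mem_pow θ hθ _ _ hP d (by omega)
  have h2 := wge_of_mem_pow θ' hθ' _ _ hP d (by omega)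
  have h3 : θ (MvPolynomial.aeval C.x P) = θ' (MvPolynomial.aeval C.x P) := by
    rw [← AlgHom.comp_apply, ← AlgHom.comp_apply, MvPolynomial.comp_aeval,
      MvPolynomial.comp_aeval, funext h]
  simp only [map_sub, h3] at h1 h2
  linear_combination h1 - h2

lemma mem_sup_of_eq {s a : A} {H φ : MvPowerSeries ι k} {M : ℕ} (h : C.T a = C.T s * H + φ)
    (hφ : WGe (fun _ => 1) M φ) : a ∈ Ideal.span {s} ⊔ m ^ M := by
  obtain ⟨P, hP, -⟩ := exists_trunc H M
  have : a - s * MvPolynomial.aeval C.x P ∈ m ^ M := by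
    rw [← C.mem_pow, map_sub, map_mul, C.T_aeval, h]
    convert (hP.mul_left (C.T s)).add hφ using 1; ring
  simpa using add_mem (Ideal.mem_sup_left (Ideal.mul_mem_right (MvPolynomial.aeval C.x P) _
    (Ideal.mem_span_singleton_self s))) (Ideal.mem_sup_right this)

lemma dvd_iff [IsNoetherianRing A] {s a : A} : C.T s ∣ C.T a ↔ ∃ u, u ∉ m ∧ s ∣ u * a := by
  refine ⟨fun ⟨H, hH⟩ => ?_, fun ⟨u, hu, h⟩ => ?_⟩
  · simpa [Ideal.mem_span_singleton] using krull_mem C.ne_top (Ideal.span {s}) fun M =>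
      C.mem_sup_of_eq (by rw [hH, add_zero]) wge_zero
  · have := map_dvd C.T h
    rwa [map_mul, (C.isUnit_T hu).dvd_mul_left] at this

end Chart

lemma exists_regular [Infinite k] [Algebra.FormallySmooth k A] [IsNoetherianRing A] [IsDomain A]
    (C : Chart (Fin 3) k m) {a : A} (ha : a ≠ 0) :
    ∃ (C' : Chart (Fin 3) k m) (n : ℕ), coeff (single 0 n) (C'.T a) ≠ 0 := by
  classical
  obtain ⟨d, hd⟩ : ∃ d, coeff d (C.T a) ≠ 0 := by
    by_contra! h
    exact ha (C.injective (by rw [map_zero]; ext d; simp [h]))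
  let n := d.degree
  obtain ⟨P, hP, -⟩ := C.exists_poly a (n + 1)
  have hPd : P.coeff d ≠ 0 := by
    have := (C.mem_pow _ _).2 hP d (by rw [← degree_eq_weight_one]; omega)
    rw [map_sub, map_sub, C.T_aeval, MvPolynomial.coeff_coe, sub_eq_zero] at this
    rwa [← this]
  have hQ : MvPolynomial.homogeneousComponent n P * MvPolynomial.X 0 ≠ 0 :=
    mul_ne_zero (fun h => hPd (by
      simpa [MvPolynomial.coeff_homogeneousComponent, n] using congrArg (MvPolynomial.coeff d) h))
      (MvPolynomial.X_ne_zero _)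
  obtain ⟨c, hc⟩ : ∃ c : Fin 3 → k,
      MvPolynomial.eval c (MvPolynomial.homogeneousComponent n P * MvPolynomial.X 0) ≠ 0 := by
    by_contra! h
    exact hQ (MvPolynomial.funext (by simpa using h))
  rw [map_mul, MvPolynomial.eval_X] at hc
  have hc0 := right_ne_zero_of_mul hc
  obtain ⟨C', hC'⟩ := C.change (y := ![(c 0)⁻¹ • C.x 0, C.x 1 - (c 1 / c 0) • C.x 0,
    C.x 2 - (c 2 / c 0) • C.x 0]) (fun i => by
      have := fun (t : k) i => m.smul_of_tower_mem t (C.x_mem i)
      fin_cases i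
      · exact this _ _
      · exact sub_mem (C.x_mem _) (this _ _)
      · exact sub_mem (C.x_mem _) (this _ _)) (by
    rw [Fintype.linearIndependent_iff]
    intro g hg
    have h1 := congrFun hg 1
    have h2 := congrFun hg 2
    have h0 := congrFun hg 0
    simp [Fin.sum_univ_three, C.lin_x] at h1 h2
    simp [Fin.sum_univ_three, C.lin_x, h1, h2, hc0] at h0
    intro i; fin_cases i <;> simpa)
  let e : Fin 1 ↪ Fin 3 := ⟨fun _ => 0, fun _ _ _ => Subsingleton.elim _ _⟩
  let θ := (killCompl (R := k) e).comp C'.T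
  have hx : ∀ i, θ (C.x i) = c i • X 0 := by
    have a0 : θ (C'.x 0) = X 0 := by
      simp only [θ, AlgHom.comp_apply, C'.T_x]; exact killCompl_X (R := k) (e := e) 0
    have a1 : θ (C'.x 1) = 0 := by simpa [θ, C'.T_x] using killCompl_X_eq_zero (by simp [e])
    have a2 : θ (C'.x 2) = 0 := by simpa [θ, C'.T_x] using killCompl_X_eq_zero (by simp [e])
    simp only [hC', Matrix.cons_val_zero, Matrix.cons_val_one, Matrix.cons_val, map_smul,
      map_sub, sub_eq_zero] at a0 a1 a2
    have b0 : θ (C.x 0) = c 0 • X 0 := by rw [← a0, smul_smul, mul_inv_cancel₀ hc0, one_smul]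
    intro i; fin_cases i
    · exact b0
    · simpa [b0, smul_smul, hc0] using a1
    · simpa [b0, smul_smul, hc0] using a2
  have hpoly : ∀ Q : MvPolynomial (Fin 3) k, coeff (single 0 n) (θ (MvPolynomial.aeval C.x Q)) =
      MvPolynomial.eval c (MvPolynomial.homogeneousComponent n Q) := by
    intro Q
    induction Q using MvPolynomial.induction_on' with
    | add p q hp hq => simp only [map_add, hp, hq]
    | monomial u r =>
      rw [MvPolynomial.aeval_monomial, map_mul, AlgHom.commutes, Finsupp.prod_fintype _ _ (by simp),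
        map_prod, MvPolynomial.homogeneousComponent_of_mem
          (MvPolynomial.isHomogeneous_monomial r rfl)]
      simp only [map_pow, hx, smul_pow, Finset.prod_smul, Finset.prod_pow_eq_pow_sum,
        ← Algebra.smul_def, map_smul, coeff_X_pow, ← Finsupp.degree_eq_sum]
      by_cases h : n = degree u
      · simp [h, MvPolynomial.eval_monomial, Finsupp.prod_fintype]
      · rw [if_neg h, if_neg fun h' => h (Finsupp.single_injective _ h')]; simp
  refine ⟨C', n, fun h0 => left_ne_zero_of_mul hc ?_⟩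
  have h1 := (C'.mem_pow _ _).2 hP (single 0 n) (by simp [weight_single])
  rw [← hpoly]
  simp only [θ, AlgHom.comp_apply, coeff_killCompl, embDomain_single]
  rw [map_sub, map_sub, h0, zero_sub, neg_eq_zero] at h1
  exact h1

lemma colon_local [Infinite k] [Algebra.FormallySmooth k A] [IsNoetherianRing A] [IsDomain A]
    (C : Chart (Fin 3) k m) {a : A} (ha : a ≠ 0) (b : A) :
    ∃ c, a ∣ c * b ∧ ∀ d, a ∣ d * b → ∃ u, u ∉ m ∧ c ∣ u * d := by
  obtain ⟨C, n, hn⟩ := exists_regular C ha
  obtain ⟨a', ⟨b', h1⟩, h2, h3⟩ := (pprod_of_regular hn).colon (C.T b)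
  obtain ⟨o, ho⟩ : ∃ o, ¬ WGe (fun _ => 1) o a' := by
    by_contra! h
    exact h2 (WGe.eq_zero h)
  obtain ⟨j, hj⟩ := Ideal.exists_pow_inf_eq_pow_smul m (Ideal.span {a, b})
  obtain ⟨P, hP, -⟩ := Chart.exists_trunc a' (o + j)
  obtain ⟨Q, hQ, -⟩ := Chart.exists_trunc b' (o + j)
  have h4 : MvPolynomial.aeval C.x P * b - MvPolynomial.aeval C.x Q * a ∈
      (m ^ (o + j) • ⊤ : Ideal A) ⊓ Ideal.span {a, b} := by
    refine ⟨?_, sub_mem (Ideal.mul_mem_left _ _ (Ideal.subset_span (by simp)))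
      (Ideal.mul_mem_left _ _ (Ideal.subset_span (by simp)))⟩
    rw [smul_eq_mul, Ideal.mul_top, SetLike.mem_coe, ← C.mem_pow]
    simp only [map_sub, map_mul, C.T_aeval]
    convert (hQ.mul_right (C.T a)).sub (hP.mul_right (C.T b)) using 1
    linear_combination h1
  rw [hj _ (by omega), Nat.add_sub_cancel] at h4
  have h5 : ∀ z ∈ m ^ o • ((m ^ j • ⊤ : Ideal A) ⊓ Ideal.span {a, b}),
      ∃ e ∈ m ^ o, ∃ f : A, z = e * b + f * a := by
    intro z hz
    refine Submodule.smul_induction_on hz (fun r hr y hy => ?_) ?_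
    · obtain ⟨e, f, rfl⟩ := Ideal.mem_span_pair.1 hy.2
      exact ⟨r * f, Ideal.mul_mem_right _ _ hr, r * e, by rw [smul_eq_mul]; ring⟩
    · rintro _ _ ⟨e, he, f, rfl⟩ ⟨e', he', f', rfl⟩
      exact ⟨e + e', add_mem he he', f + f', by ring⟩
  obtain ⟨e, he, f, h6⟩ := h5 _ h4
  have h7 : a ∣ (MvPolynomial.aeval C.x P - e) * b :=
    ⟨MvPolynomial.aeval C.x Q + f, by linear_combination h6⟩
  refine ⟨_, h7, fun d hd => C.dvd_iff.1 ?_⟩
  obtain ⟨t, ht⟩ := h3 _ (map_mul C.T _ _ ▸ map_dvd C.T h7)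
  have h8 : IsUnit t := by
    by_contra hu
    obtain ⟨v, hv⟩ := ((IsLocalRing.isUnit_or_isUnit_one_sub_self t).resolve_left hu).exists_right_inv
    have h9 := ((hP.mono (by omega : o ≤ o + j)).add ((C.mem_pow _ _).2 he)).mul_right v
    refine ho ?_
    convert h9 using 1
    rw [map_sub, C.T_aeval] at ht
    linear_combination (-a') * hv + v * ht
  rw [ht, h8.mul_right_dvd]
  exact h3 _ (map_mul C.T _ _ ▸ map_dvd C.T hd)

theorem Chart.ufd [Infinite k] [Algebra.FormallySmooth k A] [IsNoetherianRing A] [IsDomain A]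
    (C : Chart (Fin 3) k m) [m.IsPrime] (B : Type) [CommRing B] [IsDomain B] [Algebra A B]
    [IsLocalization.AtPrime B m] : UniqueFactorizationMonoid B := by
  have := IsLocalization.isNoetherianRing m.primeCompl B inferInstance
  have hu : ∀ u, u ∉ m → IsUnit (algebraMap A B u) := fun u hu =>
    IsLocalization.map_units B (⟨u, hu⟩ : m.primeCompl)
  have hs : ∀ b : B, ∃ a : A, Associated b (algebraMap A B a) := fun b => by
    obtain ⟨⟨a, u⟩, h⟩ := IsLocalization.surj m.primeCompl b
    exact ⟨a, h ▸ associated_mul_unit_right _ _ (hu _ u.2)⟩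
  refine ⟨fun {π} => ⟨fun hπ => ?_, Prime.irreducible⟩⟩
  obtain ⟨a, ha⟩ := hs π
  refine ha.symm.prime ?_
  replace hπ := ha.irreducible hπ
  refine ⟨hπ.ne_zero, hπ.not_isUnit, fun b c h => ?_⟩
  obtain ⟨b', hb⟩ := hs b
  obtain ⟨c', hc⟩ := hs c
  rw [hb.dvd_iff_dvd_right, hc.dvd_iff_dvd_right]
  rw [(hb.mul_mul hc).dvd_iff_dvd_right, ← map_mul] at h
  obtain ⟨c0, h1, h2⟩ := colon_local C (a := a) (fun h0 => hπ.ne_zero (by simp [h0])) b'
  obtain ⟨u, hu1, h3⟩ := h2 a (dvd_mul_right _ _)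
  have h4 := map_dvd (algebraMap A B) h3
  rw [map_mul, (hu u hu1).dvd_mul_left] at h4
  rcases hπ.dvd_iff.1 h4 with h5 | h5
  · left
    have := map_dvd (algebraMap A B) h1
    rwa [map_mul, h5.dvd_mul_left] at this
  · right
    obtain ⟨v, hv, h6⟩ := (IsLocalization.algebraMap_mem_map_algebraMap_iff m.primeCompl B
      (Ideal.span {a}) (b' * c')).1 (by
        rwa [Ideal.map_span, Set.image_singleton, Ideal.mem_span_singleton])
    obtain ⟨u', hu2, h7⟩ := h2 (v * c') (by
      rw [Ideal.mem_span_singleton] at h6; convert h6 using 1; ring)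
    have := map_dvd (algebraMap A B) h7
    rw [map_mul, map_mul, (hu u' hu2).dvd_mul_left, (hu v hv).dvd_mul_left] at this
    exact h5.dvd.trans this

end Pool.Agent.Lib.MP_5f81cf_ag
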